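import Pool.Agent.H310R3.NADefs

/-!
# Narrow forcings in a model of ZF: definitions

The language `LSet` of set theory has one binary relation symbol. In a structure `N` for it,
`Mem x y` says that `x` is an element of `y` in the sense of `N`. `Mem`, `LSet` and `IsOrdPair`
are from `Pool.Agent.Helper672.SIK.Plain`, `App`, `IsInj`, `IsBij` and `IsOmega` from
`Pool.Agent.H310R3.Cards`, `IsWellOrder` from `Pool.Agent.H310R3.NADefs` and the class `ZF` of
the models of ZF from `Pool.Agent.H635R2.Statement`.
-/

namespace Pool.Agent.V11246

open FirstOrder FirstOrder.Language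
open Pool.Agent.Helper672.Plain (LSet Mem IsOrdPair)
open Pool.Agent.H310Cards

universe u

variable {N : Type u} [LSet.Structure N]

/-- `a` is an ordinal: a transitive set of transitive sets. -/
def IsOrdinal (a : N) : Prop :=
  (∀ x, Mem x a → ∀ y, Mem y x → Mem y a) ∧
    ∀ x, Mem x a → ∀ y, Mem y x → ∀ z, Mem z y → Mem z x

/-- `k` is the least cardinal above the cardinality of `t`: it is an ordinal, there is no
injection from `k` to `t`, and for every element `a` of `k` there is an injection from `a`
to `t`. -/
structure IsSuccCard (k t : N) : Prop where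
  ord : IsOrdinal k
  not_inj : ¬ ∃ f, IsInj f k t
  least : ∀ a, Mem a k → ∃ f, IsInj f a t

/-- `P` with the relation `r` (`App r p q` says that `p ≤ q`) is a forcing: a partial order with
a largest element. -/
structure IsForcing (r P : N) : Prop where
  rel : ∀ p q, App r p q → Mem p P ∧ Mem q P
  refl : ∀ p, Mem p P → App r p p
  trans : ∀ p q s, App r p q → App r q s → App r p s
  antisymm : ∀ p q, App r p q → App r q p → p = q
  top : ∃ t, Mem t P ∧ ∀ p, Mem p P → App r p t

/-- `p` and `q` are compatible: some element of `P` is below both. -/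
def Compat (r P p q : N) : Prop := ∃ s, Mem s P ∧ App r s p ∧ App r s q

/-- `A` is an antichain of the forcing. -/
def IsAntichain (r P A : N) : Prop :=
  (∀ p, Mem p A → Mem p P) ∧ ∀ p q, Mem p A → Mem q A → p ≠ q → ¬ Compat r P p q

/-- The forcing has no antichain of cardinality `k`. -/
def IsCC (r P k : N) : Prop := ∀ A, IsAntichain r P A → ¬ ∃ f, IsBij f A k

/-- `f` is a partial homomorphism for compatibility: a partial function from `P` to the ordinals
that takes the same value at compatible elements of its domain. -/
structure IsPHom (r P f : N) : Prop where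
  pairs : ∀ q, Mem q f → ∃ p a, Mem p P ∧ IsOrdinal a ∧ IsOrdPair q p a
  func : ∀ p a b, App f p a → App f p b → a = b
  hom : ∀ p q a b, App f p a → App f q b → Compat r P p q → a = b

/-- `R` is the range of `f`. -/
def IsRange (R f : N) : Prop := ∀ a, Mem a R ↔ ∃ p, App f p a

/-- The forcing is uniformly `t`-narrow: there is a function `G` such that for every partial
homomorphism `f` whose range `R` is an ordinal, the value of `G` at `f` is an injection from
`R` to `t`. -/
def UnifNarrow (r P t : N) : Prop :=
  ∃ G : N, ∀ f R, IsPHom r P f → IsRange R f → IsOrdinal R →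
    ∃ g, App G f g ∧ (∀ g', App G f g' → g' = g) ∧ IsInj g R t

/-- The forcing is `(t, n)`-narrow: for every ordinal `m` that is at most `n` and every sequence
`F` of partial homomorphisms of length `m`, there is an injection from the union `R` of their
ranges to the larger one of the ordinals `t` and `m`, which is their union. -/
def Narrow₂ (r P t n : N) : Prop :=
  ∀ m, IsOrdinal m → (∀ z, Mem z m → Mem z n) →
    ∀ F, (∀ i, Mem i m → ∃ f, App F i f ∧ (∀ f', App F i f' → f' = f) ∧ IsPHom r P f) →
      ∀ R, (∀ a, Mem a R ↔ ∃ i f p, Mem i m ∧ App F i f ∧ App f p a) →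
        ∀ u, (∀ z, Mem z u ↔ Mem z t ∨ Mem z m) → ∃ g, IsInj g R u

/-- The forcing is `t`-narrow. -/
def Narrow (r P t : N) : Prop := ∀ n, IsOrdinal n → Narrow₂ r P t n

end Pool.Agent.V11246
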