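import Pool.Agent.V11246.Om
import Pool.Agent.V11246.NDefs
import Pool.Agent.H635R2.Statement

/-!
# The forcing in a plain model of set theory
-/

set_option maxHeartbeats 1000000
set_option linter.all false
set_option synthInstance.maxSize 2000

namespace Pool.Agent.Helper672.ZFA.V246

open FirstOrder FirstOrder.Language
open H635 (IWO)
open Pool.Agent.H310
open Pool.Agent.H310Cards
open Pool.Agent.V11246 (IsOrdinal IsSuccCard IsForcing Compat IsAntichain IsCC IsPHom IsRange
  UnifNarrow Narrow Narrow₂)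
open Pool.Agent.Helper672.Plain (LSet)
open Pool.Agent.H310NAS (IsWellOrder)

universe u

section

attribute [local instance] Helper672.Plain.toL

variable {N : Type u} [LSet.Structure N] [hZ : Helper672.Plain.Zermelo N]

local instance instModelL' : IsModel N := Helper672.Plain.isModel_toL

variable {α β γ : Type u} [ITy N α] [ITy N β] [ITy N γ]

theorem mem_domP {z : N} : Plain.Mem z (dom N α) ↔ ∃ a : α, code a = z := by
  have h : Mem z (dom N α) ↔ ∃ a : α, code a = z := mem_dom
  exact h

theorem code_mem_domP (a : α) : Plain.Mem (code (M := N) a) (dom N α) := by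
  have h : Mem (code (M := N) a) (dom N α) := code_mem_dom a
  exact h

/-- The set of the pairs of codes of related elements. -/
noncomputable def relc (N : Type u) [LSet.Structure N] [hZ : Helper672.Plain.Zermelo N]
    [ITy N α] [ITy N β] (R : α → β → Prop) : N :=
  code (M := N) (sep N fun q : α × β => R q.1 q.2)

theorem mem_relc {R : α → β → Prop} (hR : Int N (fun q : α × β => R q.1 q.2)) {z : N} :
    Mem z (relc N R) ↔ ∃ a b, R a b ∧ z = op (code a) (code b) := by
  refine (mem_code_pow (M := N)).trans ⟨?_, ?_⟩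
  · rintro ⟨q, h1, rfl⟩
    exact ⟨q.1, q.2, (mem_sep hR).1 h1, rfl⟩
  · rintro ⟨a, b, h, rfl⟩
    exact ⟨(a, b), (mem_sep hR).2 h, rfl⟩

theorem app_relc {R : α → β → Prop} (hR : Int N (fun q : α × β => R q.1 q.2)) {x y : N} :
    App (relc N R) x y ↔ ∃ a b, R a b ∧ x = code a ∧ y = code b := by
  rw [app_iff, mem_relc hR]
  constructor
  · rintro ⟨a, b, h, h1⟩
    obtain ⟨h2, h3⟩ := op_inj h1
    exact ⟨a, b, h, h2, h3⟩
  · rintro ⟨a, b, h, rfl, rfl⟩
    exact ⟨a, b, h, rfl⟩

theorem app_relc' {R : α → β → Prop} (hR : Int N (fun q : α × β => R q.1 q.2)) {a : α} {b : β} :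
    App (relc N R) (code a) (code b) ↔ R a b := by
  rw [app_relc hR]
  constructor
  · rintro ⟨a', b', h, h1, h2⟩
    rw [ITy.inj h1, ITy.inj h2]
    exact h
  · exact fun h => ⟨a, b, h, rfl, rfl⟩

theorem isWO_of_iwo {lt : α → α → Prop} (h : IWO N α lt) :
    IsWellOrder (relc N lt) (dom N α) := by
  refine ⟨?_, ?_, ?_, ?_⟩
  · rintro a ha h1
    obtain ⟨a, rfl⟩ := mem_domP.1 ha
    exact iwo_irrefl h a ((app_relc' h.int).1 h1)
  · rintro a b c ha hb hc h1 h2
    obtain ⟨a, rfl⟩ := mem_domP.1 ha
    obtain ⟨b, rfl⟩ := mem_domP.1 hb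
    obtain ⟨c, rfl⟩ := mem_domP.1 hc
    exact (app_relc' h.int).2 (iwo_trans h ((app_relc' h.int).1 h1) ((app_relc' h.int).1 h2))
  · rintro a b ha hb
    obtain ⟨a, rfl⟩ := mem_domP.1 ha
    obtain ⟨b, rfl⟩ := mem_domP.1 hb
    rcases h.tri a b with h1 | h1 | h1
    · exact Or.inl ((app_relc' h.int).2 h1)
    · exact Or.inr (Or.inl (h1 ▸ rfl))
    · exact Or.inr (Or.inr ((app_relc' h.int).2 h1))
  · rintro s hs ⟨z, hz⟩
    obtain ⟨a, rfl⟩ := mem_domP.1 (hs z hz)
    have hI : Int N (fun a : α => Mem (code a) s) := ⟨s, fun a => Iff.rfl⟩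
    obtain ⟨b, h1, h2⟩ := iwo_least h hI ⟨a, hz⟩
    refine ⟨code b, h1, fun c hc h3 => ?_⟩
    obtain ⟨c, rfl⟩ := mem_domP.1 (hs c hc)
    exact h2 c hc ((app_relc' h.int).1 h3)

/-! ### The forcing -/

section frc

variable {K : Type u} [ITy N K] [LinearOrder K] [ILE N K]

theorem isForcing_Q : IsForcing (relc N (Qle (N := N) (K := K))) (dom N (QK N K)) := by
  have hI := int_Qle (N := N) (K := K)
  refine ⟨?_, ?_, ?_, ?_, ?_⟩
  · intro p q h
    obtain ⟨a, b, -, rfl, rfl⟩ := (app_relc hI).1 h
    exact ⟨code_mem_domP a, code_mem_domP b⟩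
  · intro p hp
    obtain ⟨p, rfl⟩ := mem_domP.1 hp
    exact (app_relc' hI).2 fun _ h => h
  · intro p q s h1 h2
    obtain ⟨a, b, h3, rfl, rfl⟩ := (app_relc hI).1 h1
    obtain ⟨b', c, h4, hb, rfl⟩ := (app_relc hI).1 h2
    obtain rfl := ITy.inj hb
    exact (app_relc' hI).2 fun c hc => h3 c (h4 c hc)
  · intro p q h1 h2
    obtain ⟨a, b, h3, rfl, rfl⟩ := (app_relc hI).1 h1
    have h4 := (app_relc' hI).1 h2
    rw [Subtype.ext (IPow.ext' fun c => ⟨h4 c, h3 c⟩)]
  · refine ⟨code (⟨∅, IFin.empty, fun a d d' h => by simp at h, fun a d h => by simp at h⟩ :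
      QK N K), code_mem_domP _, fun p hp => ?_⟩
    obtain ⟨p, rfl⟩ := mem_domP.1 hp
    exact (app_relc' hI).2 fun c hc => by simp at hc

theorem compat_iff {p q : QK N K} :
    Compat (relc N (Qle (N := N) (K := K))) (dom N (QK N K)) (code p) (code q) ↔ Qc p q := by
  have hI := int_Qle (N := N) (K := K)
  constructor
  · rintro ⟨s, hs, h1, h2⟩
    obtain ⟨s, rfl⟩ := mem_domP.1 hs
    exact ⟨s, (app_relc' hI).1 h1, (app_relc' hI).1 h2⟩
  · rintro ⟨s, h1, h2⟩
    exact ⟨code s, code_mem_domP s, (app_relc' hI).2 h1, (app_relc' hI).2 h2⟩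

theorem isWO_Q (h : Om1 N K) : ∃ w, IsWellOrder w (dom N (QK N K)) := by
  have h1 := iwo_prod h.iwo h.iwo
  have h2 := iwo_fin (β := QK N K) (f := fun p => p.1) h1 (IntF.val IntF.id)
    Subtype.val_injective fun p => p.2.1
  exact ⟨_, isWO_of_iwo h2⟩

theorem isCC_Q (h : Om1 N K) {k : N} (hk : ∀ z, Mem z k ↔ ∃ x : K, code x = z) :
    IsCC (relc N (Qle (N := N) (K := K))) (dom N (QK N K)) k := by
  rintro A ⟨h1, h2⟩ ⟨f, ⟨⟨h3, h4⟩, h5⟩, h6⟩
  have key : ∀ x : K, ∃ p : QK N K, Mem (code p) A ∧ App f (code p) (code x) := by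
    intro x
    obtain ⟨p, hp⟩ := h6 (code x) ((hk _).2 ⟨x, rfl⟩)
    obtain ⟨q, h7, h8⟩ := hp
    obtain ⟨p', x', h9, h10, h11⟩ := h3 q h8
    rw [ordPair_iff] at h7 h11
    obtain ⟨rfl, rfl⟩ := op_inj (h7.symm.trans h11)
    obtain ⟨p, rfl⟩ := mem_domP.1 (h1 _ h9)
    exact ⟨p, h9, app_iff.2 (h7 ▸ h8)⟩
  choose g hg1 hg2 using key
  have hI : Int N (fun q : QK N K × K => Mem (op (code q.1) (code q.2)) f) := ⟨f, fun _ => Iff.rfl⟩
  have hgI : IntF N g := by
    refine (Int.comp₂ (p := fun (a : QK N K) (b : K) => Mem (op (code a) (code b)) f) hI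
      (IntF.snd' (α := K) (β := QK N K)) IntF.fst').congr fun q => ?_
    constructor
    · intro h7
      exact ITy.inj (h5 _ _ _ (hg2 q.1) (app_iff.2 h7))
    · intro h7
      rw [← h7]
      exact app_iff.1 (hg2 q.1)
  refine h.cc hgI fun a b hab hc => ?_
  refine h2 _ _ (hg1 a) (hg1 b) (fun h7 => hab ?_) (compat_iff.2 hc)
  obtain ⟨y, hy, hu⟩ := h4 _ (hg1 a)
  have h8 := hg2 b
  rw [← h7] at h8
  exact ITy.inj ((hu _ (hg2 a)).trans (hu _ h8).symm)

/-- The graph of the partial homomorphism of `a`. -/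
noncomputable def fG (N : Type u) [LSet.Structure N] [hZ : Helper672.Plain.Zermelo N]
    {K : Type u} [ITy N K] [LinearOrder K] [ILE N K] (a : K) : IPow N (QK N K × K) :=
  sep N fun c => c.2 < a ∧ ∀ z, z ∈ c.1.1 ↔ z = (a, c.2)

theorem int_fG : IntF N (fun a : K => fG N a) := by
  unfold fG
  (repeat' (first | with_reducible exact IntF.id | with_reducible exact IntF.fst' | with_reducible exact IntF.snd' | with_reducible exact IntF.const _ | with_reducible exact Int.const _ | assumption | with_reducible apply Int.and | with_reducible apply Int.or | with_reducible apply Int.not | with_reducible apply Int.imp | with_reducible apply Int.iff | with_reducible apply Int.ne | with_reducible apply Int.eq | with_reducible apply Int.mem | with_reducible apply Int.subset | with_reducible apply Int.ltN | with_reducible apply Int.leN | with_reducible_and_instances apply Int.le | with_reducible_and_instances apply Int.lt | with_reducible apply Int.all | with_reducible apply Int.ex | with_reducible apply IntF.fst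 | with_reducible apply IntF.snd | with_reducible apply IntF.app | with_reducible apply IntF.inl | with_reducible apply IntF.inr | with_reducible_and_instances apply IntF.mul | with_reducible_and_instances apply IntF.inv | with_reducible_and_instances apply IntF.add | with_reducible_and_instances apply IntF.sub | with_reducible_and_instances apply IntF.neg | with_reducible_and_instances apply IntF.smul | with_reducible apply Int.fin | with_reducible apply IntF.sep | with_reducible apply IntF.lam | with_reducible apply IntF.insert | with_reducible apply IntF.singleton | with_reducible apply IntF.union | with_reducible apply IntF.iimage | with_reducible apply IntF.ite | with_reducible apply IntF.the | with_reducible apply IntF.irec | with_reducible apply IntF.succ | with_reducible apply IntF.val | with_reducible apply IntF.mk | (with_reducible refine Int.comp ?_ ?_; assumption) | (with_reducible refine Int.comp₂ ?_ ?_ ?_; assumption) | (with_reducible refine Int.comp₃ ?_ ?_ ?_ ?_; assumption) | (with_reducible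 refine Int.comp₄ ?_ ?_ ?_ ?_ ?_; assumption) | (with_reducible refine IntF.comp ?_ ?_; assumption) | (with_reducible refine IntF.comp₂ ?_ ?_ ?_; assumption) | (with_reducible refine IntF.comp₃ ?_ ?_ ?_ ?_; assumption) | with_reducible apply IntF.pair))

theorem mem_fG {a : K} {c : QK N K × K} :
    c ∈ fG N a ↔ c.2 < a ∧ ∀ z, z ∈ c.1.1 ↔ z = (a, c.2) := mem_sep (by (repeat' (first | with_reducible exact IntF.id | with_reducible exact IntF.fst' | with_reducible exact IntF.snd' | with_reducible exact IntF.const _ | with_reducible exact Int.const _ | assumption | with_reducible apply Int.and | with_reducible apply Int.or | with_reducible apply Int.not | with_reducible apply Int.imp | with_reducible apply Int.iff | with_reducible apply Int.ne | with_reducible apply Int.eq | with_reducible apply Int.mem | with_reducible apply Int.subset | with_reducible apply Int.ltN | with_reducible apply Int.leN | with_reducible_and_instances apply Int.le | with_reducible_and_instances apply Int.lt | with_reducible apply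 Int.all | with_reducible apply Int.ex | with_reducible apply IntF.fst | with_reducible apply IntF.snd | with_reducible apply IntF.app | with_reducible apply IntF.inl | with_reducible apply IntF.inr | with_reducible_and_instances apply IntF.mul | with_reducible_and_instances apply IntF.inv | with_reducible_and_instances apply IntF.add | with_reducible_and_instances apply IntF.sub | with_reducible_and_instances apply IntF.neg | with_reducible_and_instances apply IntF.smul | with_reducible apply Int.fin | with_reducible apply IntF.sep | with_reducible apply IntF.lam | with_reducible apply IntF.insert | with_reducible apply IntF.singleton | with_reducible apply IntF.union | with_reducible apply IntF.iimage | with_reducible apply IntF.ite | with_reducible apply IntF.the | with_reducible apply IntF.irec | with_reducible apply IntF.succ | with_reducible apply IntF.val | with_reducible apply IntF.mk | (with_reducible refine Int.comp ?_ ?_; assumption) | (with_reducible refine Int.comp₂ ?_ ?_ ?_; assumption)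 | (with_reducible refine Int.comp₃ ?_ ?_ ?_ ?_; assumption) | (with_reducible refine Int.comp₄ ?_ ?_ ?_ ?_ ?_; assumption) | (with_reducible refine IntF.comp ?_ ?_; assumption) | (with_reducible refine IntF.comp₂ ?_ ?_ ?_; assumption) | (with_reducible refine IntF.comp₃ ?_ ?_ ?_ ?_; assumption) | with_reducible apply IntF.pair)))

theorem app_fG {a : K} {x y : N} : App (code (M := N) (fG N a)) x y ↔
    ∃ (q : QK N K) (d : K), (d < a ∧ ∀ z, z ∈ q.1 ↔ z = (a, d)) ∧ x = code q ∧ y = code d := by
  rw [app_iff]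
  constructor
  · intro h
    obtain ⟨c, h1, h2⟩ := mem_code_pow.1 h
    obtain ⟨h3, h4⟩ := op_inj h2
    exact ⟨c.1, c.2, mem_fG.1 h1, h3.symm, h4.symm⟩
  · rintro ⟨q, d, h1, rfl, rfl⟩
    exact mem_code_pow.2 ⟨(q, d), mem_fG.2 h1, rfl⟩

theorem exists_single {a d : K} (h : d < a) : ∃ q : QK N K, ∀ z, z ∈ q.1 ↔ z = (a, d) := by
  refine ⟨⟨{(a, d)}, IFin.singleton _, fun x y y' h1 h2 => ?_, fun x y h1 => ?_⟩,
    fun z => mem_singleton⟩
  · rw [mem_singleton] at h1 h2
    exact (Prod.mk.inj h1).2.trans (Prod.mk.inj h2).2.symm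
  · rw [mem_singleton] at h1
    obtain ⟨rfl, rfl⟩ := Prod.mk.inj h1
    exact h

theorem not_unif {t : N} (ht : IsOmega t)
    (hm : ∀ (a : K) (z : N), Mem z (code a) ↔ ∃ x : K, x < a ∧ code x = z)
    (ho : ∀ a : K, IsOrdinal (code (M := N) a))
    (hs : ∀ e : K → K → INat N, IntF N (fun q : K × K => e q.1 q.2) →
      (∀ a x y : K, x < a → y < a → e a x = e a y → x = y) → False) :
    ¬ UnifNarrow (relc N (Qle (N := N) (K := K))) (dom N (QK N K)) t := by
  rintro ⟨G, hG⟩
  have h1 : ∀ a : K, ∃ g, App G (code (fG N a)) g ∧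
      (∀ g', App G (code (fG N a)) g' → g' = g) ∧ IsInj g (code a) t := by
    intro a
    refine hG _ _ ⟨?_, ?_, ?_⟩ ?_ (ho a)
    · intro q hq
      replace hq : Mem q (code (M := N) (fG N a)) := hq
      obtain ⟨c, h1, rfl⟩ := mem_code_pow.1 hq
      exact ⟨code c.1, code c.2, code_mem_domP _, ho _, ordPair_iff.2 rfl⟩
    · intro p x y h2 h3
      obtain ⟨q, d, ⟨h4, h5⟩, rfl, rfl⟩ := app_fG.1 h2
      obtain ⟨q', d', ⟨h4', h5'⟩, h6, rfl⟩ := app_fG.1 h3
      obtain rfl := ITy.inj h6
      rw [(Prod.mk.inj ((h5' _).1 ((h5 _).2 rfl))).2]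
    · intro p p' x y h2 h3 hc
      obtain ⟨q, d, ⟨h4, h5⟩, rfl, rfl⟩ := app_fG.1 h2
      obtain ⟨q', d', ⟨h4', h5'⟩, rfl, rfl⟩ := app_fG.1 h3
      have h7 := Qc_iff.1 (compat_iff.1 hc) a d d' ((h5 _).2 rfl) ((h5' _).2 rfl)
      rw [h7]
    · intro z
      refine (hm a z).trans ?_
      constructor
      · rintro ⟨x, hx, rfl⟩
        obtain ⟨q, hq⟩ := exists_single (N := N) hx
        exact ⟨code q, app_fG.2 ⟨q, x, ⟨hx, hq⟩, rfl, rfl⟩⟩
      · rintro ⟨p, hp⟩
        obtain ⟨q, d, ⟨h4, h5⟩, rfl, rfl⟩ := app_fG.1 hp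
        exact ⟨d, h4, rfl⟩
  have hR0 : Int N (fun q : IPow N (QK N K × K) × (K × INat N) =>
      ∃ g, Mem (op (code q.1) g) G ∧ Mem (code q.2) g) :=
    Int.of_D₂ (S := fun v => ∃ g, Mem (op (v 0) g) G ∧ Mem (v 1) g) (D.ex (D.and
      (D.memf (DF.op (DF.var _) (DF.var _)) (DF.const _)) (D.memf (DF.var _) (DF.var _))))
      fun a b => Iff.rfl
  have hF := int_fG (N := N) (K := K)
  have hR : Int N (fun q : (K × K) × INat N =>
      ∃ g, Mem (op (code (fG N q.1.1)) g) G ∧ Mem (code (q.1.2, q.2)) g) := by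
    refine Int.comp₂ (p := fun (a : IPow N (QK N K × K)) (b : K × INat N) =>
      ∃ g, Mem (op (code a) g) G ∧ Mem (code b) g) hR0 ?_ ?_ <;> (repeat' (first | with_reducible exact IntF.id | with_reducible exact IntF.fst' | with_reducible exact IntF.snd' | with_reducible exact IntF.const _ | with_reducible exact Int.const _ | assumption | with_reducible apply Int.and | with_reducible apply Int.or | with_reducible apply Int.not | with_reducible apply Int.imp | with_reducible apply Int.iff | with_reducible apply Int.ne | with_reducible apply Int.eq | with_reducible apply Int.mem | with_reducible apply Int.subset | with_reducible apply Int.ltN | with_reducible apply Int.leN | with_reducible_and_instances apply Int.le | with_reducible_and_instances apply Int.lt | with_reducible apply Int.all | with_reducible apply Int.ex | with_reducible apply IntF.fst | with_reducible apply IntF.snd | with_reducible apply IntF.app | with_reducible apply IntF.inl | with_reducible apply IntF.inr | with_reducible_and_instances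 apply IntF.mul | with_reducible_and_instances apply IntF.inv | with_reducible_and_instances apply IntF.add | with_reducible_and_instances apply IntF.sub | with_reducible_and_instances apply IntF.neg | with_reducible_and_instances apply IntF.smul | with_reducible apply Int.fin | with_reducible apply IntF.sep | with_reducible apply IntF.lam | with_reducible apply IntF.insert | with_reducible apply IntF.singleton | with_reducible apply IntF.union | with_reducible apply IntF.iimage | with_reducible apply IntF.ite | with_reducible apply IntF.the | with_reducible apply IntF.irec | with_reducible apply IntF.succ | with_reducible apply IntF.val | with_reducible apply IntF.mk | (with_reducible refine Int.comp ?_ ?_; assumption) | (with_reducible refine Int.comp₂ ?_ ?_ ?_; assumption) | (with_reducible refine Int.comp₃ ?_ ?_ ?_ ?_; assumption) | (with_reducible refine Int.comp₄ ?_ ?_ ?_ ?_ ?_; assumption) | (with_reducible refine IntF.comp ?_ ?_; assumption) | (with_reducible refine IntF.comp₂ ?_ ?_ ?_; assumption)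 | (with_reducible refine IntF.comp₃ ?_ ?_ ?_ ?_; assumption) | with_reducible apply IntF.pair))
  have hval : ∀ a x : K, x < a → ∃ (g : N) (n : INat N), App G (code (fG N a)) g ∧
      App g (code x) (code n) ∧ IsInj g (code a) t ∧
      the (fun n : INat N => ∃ g, Mem (op (code (fG N a)) g) G ∧ Mem (code (x, n)) g) 0 = n := by
    intro a x hx
    obtain ⟨g, h2, h3, h4⟩ := h1 a
    obtain ⟨y, hy, hu⟩ := h4.1.2 (code x) ((hm a _).2 ⟨x, hx, rfl⟩)
    obtain ⟨q, h5, h6⟩ := hy
    obtain ⟨x', y', h7, h8, h9⟩ := h4.1.1 q h6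
    obtain ⟨rfl, rfl⟩ := op_inj ((ordPair_iff.1 h5).symm.trans (ordPair_iff.1 h9))
    obtain ⟨n, rfl⟩ := (mem_omega ht).1 h8
    refine ⟨g, n, h2, ⟨q, h5, h6⟩, h4, the_eq ⟨n, ⟨g, app_iff.1 h2, ?_⟩, ?_⟩
      ⟨g, app_iff.1 h2, ?_⟩⟩
    · exact app_iff.1 ⟨q, h5, h6⟩
    · rintro n' ⟨g', h10, h11⟩
      obtain rfl := h3 g' (app_iff.2 h10)
      exact ITy.inj (hu _ (app_iff.2 h11))
    · exact app_iff.1 ⟨q, h5, h6⟩
  refine hs (fun a x => the (fun n : INat N => ∃ g, Mem (op (code (fG N a)) g) G ∧
    Mem (code (x, n)) g) 0) (IntF.the hR (IntF.const _)) fun a x y hx hy hxy => ?_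
  obtain ⟨g, n, h2, h3, h4, h5⟩ := hval a x hx
  obtain ⟨g', n', h2', h3', h4', h5'⟩ := hval a y hy
  rw [h5, h5'] at hxy
  obtain ⟨g₀, h6, h7, -⟩ := h1 a
  rw [h7 g h2] at h3
  rw [h7 g' h2', ← hxy] at h3'
  rw [h7 g h2] at h4
  exact ITy.inj (h4.2 _ _ _ h3 h3')

end frc

variable (N) in
/-- A regular successor cardinal of omega, such that there is no sequence of enumerations. -/
structure OmK (k : N) : Prop where
  ord : IsOrdinal k
  iwo : IWO N (El k) (fun x y => Mem x.1 y.1)
  ne : Nonempty (El k)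
  bdd : ∀ f : INat N → El k, IntF N f → ∃ b : El k, ∀ n, Mem (f n).1 b.1
  cnt : ∀ a : El k, ∃ e : El k → INat N, IntF N e ∧
    ∀ x y : El k, Mem x.1 a.1 → Mem y.1 a.1 → e x = e y → x = y
  noseq : ∀ e : El k → El k → INat N, IntF N (fun q : El k × El k => e q.1 q.2) →
    (∀ a x y : El k, Mem x.1 a.1 → Mem y.1 a.1 → e a x = e a y → x = y) → False

variable {k : N} (h : OmK N k)

/-- The order on the elements. -/
@[reducible] noncomputable def OmK.lin : LinearOrder (El k) := iwoLin h.iwo

theorem OmK.ile : letI := h.lin; ILE N (El k) := by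
  letI := h.lin
  exact ⟨Int.or h.iwo.int (Int.eq IntF.fst' IntF.snd')⟩

theorem OmK.om1 : letI := h.lin; letI := h.ile; Om1 N (El k) := by
  letI := h.lin
  letI := h.ile
  exact ⟨h.iwo.wf, h.ne, h.bdd, h.cnt⟩

theorem isOmega_dom : IsOmega (dom N (INat N)) := by
  intro n
  rw [mem_domP]
  exact ⟨fun ⟨m, h⟩ i hi => h ▸ m.prop i (ind_iff.2 hi),
    fun h => ⟨⟨n, fun i hi => h i (ind_iff.1 hi)⟩, rfl⟩⟩

theorem isOrdinal_of_mem {a b : N} (ha : IsOrdinal a) (hb : Plain.Mem b a) : IsOrdinal b :=
  ⟨fun x hx y hy => ha.2 b hb x hx y hy, fun x hx y hy z hz => ha.2 x (ha.1 b hb x hx) y hy z hz⟩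

include h in
theorem OmK.noinj (e : El k → INat N) (he : IntF N e) (hi : Function.Injective e) : False :=
  h.noseq (fun _ x => e x) (he.comp IntF.snd') fun _ x y _ _ hxy => hi hxy

include h in
theorem OmK.isSucc : IsSuccCard k (dom N (INat N)) := by
  refine ⟨h.ord, ?_, ?_⟩
  · rintro ⟨f, h1, h2⟩
    obtain ⟨φ, h3, h4⟩ := exists_fun (α := El k) (β := INat N) h1 (fun x => x.2)
      fun z hz => mem_domP.1 hz
    refine h.noinj φ h3 fun x y hxy => Subtype.ext (h2 _ _ (code (φ x)) ((h4 _ _).1 rfl) ?_)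
    rw [hxy]
    exact (h4 _ _).1 rfl
  · intro a ha
    obtain ⟨e, he, h1⟩ := h.cnt ⟨a, ha⟩
    have hI : Int N (fun q : El k × INat N => Mem q.1.1 a ∧ e q.1 = q.2) := by
      refine Int.and ?_ (Int.eq (he.comp IntF.fst') IntF.snd')
      exact Int.of_D₂ (S := fun v => Mem (v 0) a) (D.memf (DF.var _) (DF.const _))
        fun _ _ => Iff.rfl
    have happ : ∀ {x y : N}, App (relc N fun (x : El k) n => Mem x.1 a ∧ e x = n) x y ↔
        ∃ (x' : El k) (n : INat N), (Mem x'.1 a ∧ e x' = n) ∧ x = code x' ∧ y = code n :=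
      fun {x y} => app_relc hI
    refine ⟨relc N fun (x : El k) n => Mem x.1 a ∧ e x = n, ⟨?_, ?_⟩, ?_⟩
    · intro q hq
      obtain ⟨x, n, ⟨h2, h3⟩, rfl⟩ := (mem_relc hI).1 hq
      exact ⟨x.1, code n, h2, code_mem_domP n, ordPair_iff.2 rfl⟩
    · intro x hx
      have hxk : Mem x k := h.ord.1 a ha x hx
      refine ⟨code (e ⟨x, hxk⟩), happ.2 ⟨⟨x, hxk⟩, _, ⟨hx, rfl⟩, rfl, rfl⟩, fun y hy => ?_⟩
      obtain ⟨x', n, ⟨h2, rfl⟩, h4, rfl⟩ := happ.1 hy
      obtain rfl : x' = ⟨x, hxk⟩ := Subtype.ext h4.symm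
      rfl
    · intro x x' y h2 h3
      obtain ⟨x, n, ⟨h4, rfl⟩, rfl, rfl⟩ := happ.1 h2
      obtain ⟨x', n', ⟨h4', h5'⟩, rfl, h6⟩ := happ.1 h3
      rw [h1 x x' h4 h4' ((ITy.inj h6).trans h5'.symm)]

include h in
theorem OmK.not_unif : letI := h.lin; letI := h.ile;
    ¬ UnifNarrow (relc N (Qle (N := N) (K := El k))) (dom N (QK N (El k)))
      (dom N (INat N)) := by
  letI := h.lin
  letI := h.ile
  refine V246.not_unif isOmega_dom ?_ (fun a => isOrdinal_of_mem h.ord a.2) h.noseq
  intro a z
  exact ⟨fun hz => ⟨⟨z, h.ord.1 a.1 a.2 z hz⟩, hz, rfl⟩, fun ⟨x, hx, hz⟩ => hz ▸ hx⟩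

include h in
theorem OmK.final₁ : ∃ θ P r : N, IsOmega θ ∧ IsSuccCard k θ ∧ IsForcing r P ∧
    (∃ w, IsWellOrder w P) ∧ IsCC r P k ∧ ¬ UnifNarrow r P θ := by
  letI := h.lin
  letI := h.ile
  exact ⟨dom N (INat N), dom N (QK N (El k)), relc N (Qle (N := N) (K := El k)), isOmega_dom,
    h.isSucc, isForcing_Q, isWO_Q h.om1, isCC_Q h.om1 fun z => mem_El, h.not_unif⟩

end

end Pool.Agent.Helper672.ZFA.V246
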