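import Pool.Agent.V11246.Extn
import Pool.Agent.V11246.Asm
import Pool.Agent.H310R3.I1
import Pool.Agent.H310R3.NA12

/-!
# The collapsed well-order is like the first uncountable cardinal
-/

set_option maxHeartbeats 1000000
set_option linter.all false
set_option synthInstance.maxSize 2000

namespace Pool.Agent.Helper672.ZFA.V246

open FirstOrder FirstOrder.Language
open H635
open Pool.Agent.Helper672.Plain (LSet)
open Pool.Agent.H310
open Pool.Agent.V11246 (IsOrdinal)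
open Pool.Agent.H635Amen (ZF)

universe u

section

variable {M : Type u} [L.Structure M] [hM : IsModel M] {K : Type u} [ITy M K] [LinearOrder K]
  [ILE M K] [Nonempty K]
variable (W : Uni M K) {G : Set (Pc M K)} (hG : IsGen M G) (hC : CollL M)

theorem mem_kk {w : NN (Sc M K) hG} {a : K} :
    Mem w (kk W hG a) ↔ ∃ b, b < a ∧ w = kk W hG b := mem_od hG (iwoK W)

theorem mem_nv {w : NN (Sc M K) hG} {a : INat M} :
    Mem w (nv hG a) ↔ ∃ b, b < a ∧ w = nv hG b := mem_od hG iwoN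

/-- The cardinal. -/
noncomputable def KK : NN (Sc M K) hG := Od (Sc M K) hG (iwoK W)

/-- The natural numbers. -/
noncomputable def WN : NN (Sc M K) hG := Od (Sc M K) hG iwoN

theorem mem_KK {w : NN (Sc M K) hG} : Mem w (KK W hG) ↔ ∃ a, w = kk W hG a :=
  mem_Od hG (iwoK W)

theorem mem_WN {w : NN (Sc M K) hG} : Mem w (WN hG) ↔ ∃ a, w = nv hG a :=
  mem_Od hG iwoN

theorem ind_WN : Ind (WN hG : NN (Sc M K) hG) := by
  refine ⟨⟨nv hG 0, (mem_WN hG).2 ⟨0, rfl⟩, trivial, fun z hz => ?_⟩, fun n hn => ?_⟩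
  · obtain ⟨b, hb, -⟩ := (mem_nv hG).1 hz
    exact INat.not_lt_zero hb
  · obtain ⟨m, rfl⟩ := (mem_WN hG).1 hn
    refine ⟨nv hG m.succ, (mem_WN hG).2 ⟨_, rfl⟩, trivial, fun z => ?_⟩
    rw [mem_nv, mem_nv]
    constructor
    · rintro ⟨b, hb, rfl⟩
      rcases (INat.lt_succ_iff.1 hb).lt_or_eq with h | rfl
      · exact Or.inl ⟨b, h, rfl⟩
      · exact Or.inr rfl
    · rintro (⟨b, hb, rfl⟩ | rfl)
      · exact ⟨b, hb.trans (INat.lt_succ_self m), rfl⟩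
      · exact ⟨m, INat.lt_succ_self m, rfl⟩

theorem nat_nv (n : INat (NN (Sc M K) hG)) : ∃ m : INat M, code n = nv hG m :=
  (mem_WN hG).1 (n.prop _ (ind_WN hG))

include hC in
theorem nv_nat (m : INat M) : ∃ n : INat (NN (Sc M K) hG), code n = nv hG m := by
  refine ⟨⟨nv hG m, fun i hi => ?_⟩, rfl⟩
  by_contra hcon
  have hsm := small_sep (M := NN (Sc M K) hG) (S := {z | ¬ Mem z i})
    (D.not (D.memf (DF.var _) (DF.const _))) (WN hG)
  obtain ⟨y, h1, h2⟩ := (nn_zf hG hC).foundation hsm.elt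
    ⟨nv hG m, hsm.mem.2 ⟨(mem_WN hG).2 ⟨m, rfl⟩, hcon⟩⟩
  obtain ⟨h3, h4⟩ := hsm.mem.1 h1
  obtain ⟨k, rfl⟩ := (mem_WN hG).1 h3
  have h5 : ∀ j, j < k → Mem (nv hG j) i := by
    intro j hj
    by_contra h6
    exact h2 (nv hG j) (hsm.mem.2 ⟨(mem_WN hG).2 ⟨j, rfl⟩, h6⟩) ((mem_nv hG).2 ⟨j, hj, rfl⟩)
  rcases INat.eq_zero_or_succ k with rfl | ⟨j, rfl⟩
  · obtain ⟨⟨e, h6, -, h7⟩, -⟩ := hi
    refine h4 ?_
    have : nv hG 0 = e := nn_ext hG fun z => ⟨fun hz => by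
      obtain ⟨b, hb, -⟩ := (mem_nv hG).1 hz
      exact absurd hb INat.not_lt_zero, fun hz => absurd hz (h7 z)⟩
    rw [this]
    exact h6
  · obtain ⟨s, h6, -, h7⟩ := hi.2 (nv hG j) (h5 j (INat.lt_succ_self j))
    refine h4 ?_
    have : nv hG j.succ = s := nn_ext hG fun z => by
      refine Iff.trans ?_ (h7 z).symm
      refine (mem_nv hG).trans ?_
      rw [mem_nv]
      constructor
      · rintro ⟨b, hb, rfl⟩
        rcases (INat.lt_succ_iff.1 hb).lt_or_eq with h | rfl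
        · exact Or.inl ⟨b, h, rfl⟩
        · exact Or.inr rfl
      · rintro (⟨b, hb, rfl⟩ | rfl)
        · exact ⟨b, hb.trans (INat.lt_succ_self j), rfl⟩
        · exact ⟨j, INat.lt_succ_self j, rfl⟩
    rw [this]
    exact h6

include W in
theorem Uni.nomax (a : K) : ∃ b, a < b := by
  obtain ⟨x, hx, h⟩ := W.nat
  obtain ⟨z, hz⟩ := W.ph x hx (fun _ => ⟨_, h 0⟩) (IntF.const _)
  obtain ⟨b, hb, -⟩ := hz a
  exact ⟨b, hb⟩

/-- Elements of the cardinal. -/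
noncomputable def ek (a : K) : El (KK W hG) := ⟨kk W hG a, (mem_KK W hG).2 ⟨a, rfl⟩⟩

theorem ek_surj (x : El (KK W hG)) : ∃ a, ek W hG a = x := by
  obtain ⟨a, ha⟩ := (mem_KK W hG).1 x.2
  exact ⟨a, Subtype.ext ha.symm⟩

include hC in
theorem kk_inj {a b : K} (h : kk W hG a = kk W hG b) : a = b := od_inj hG (iwoK W) hC h

include hC in
theorem nv_inj {a b : INat M} (h : nv (K := K) hG a = nv hG b) : a = b := od_inj hG iwoN hC h

include hC in
theorem kk_lt {a b : K} : Mem (kk W hG a) (kk W hG b) ↔ a < b := by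
  rw [mem_kk]
  exact ⟨fun ⟨c, hc, h⟩ => kk_inj W hG hC h ▸ hc, fun h => ⟨a, h, rfl⟩⟩

theorem isOrdinal_KK : IsOrdinal (KK W hG) := by
  constructor
  · intro x hx y hy
    obtain ⟨a, rfl⟩ := (mem_KK W hG).1 hx
    obtain ⟨b, hb, rfl⟩ := (mem_kk W hG).1 hy
    exact (mem_KK W hG).2 ⟨b, rfl⟩
  · intro x hx y hy z hz
    obtain ⟨a, rfl⟩ := (mem_KK W hG).1 hx
    obtain ⟨b, hb, rfl⟩ := (mem_kk W hG).1 hy
    obtain ⟨c, hc, rfl⟩ := (mem_kk W hG).1 hz
    exact (mem_kk W hG).2 ⟨c, hc.trans hb, rfl⟩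

include hC in
theorem kk_bdd (f : INat (NN (Sc M K) hG) → El (KK W hG)) (hf : IntF (NN (Sc M K) hG) f) :
    ∃ b : El (KK W hG), ∀ n, Mem (f n).1 b.1 := by
  obtain ⟨x, hx⟩ := hf
  obtain ⟨b, hb⟩ := ext_bdd W hG (sm_nat W) (nv_fam hG) x (by
    intro c a a' h1 h2
    obtain ⟨n, hn⟩ := nv_nat hG hC c
    have h3 := (hx (n, ek W hG a)).1 (by rw [← hn] at h1; exact h1)
    have h4 := (hx (n, ek W hG a')).1 (by rw [← hn] at h2; exact h2)
    exact kk_inj W hG hC (congrArg Subtype.val (h3.symm.trans h4)))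
  refine ⟨ek W hG b, fun n => ?_⟩
  obtain ⟨m, hm⟩ := nat_nv hG n
  obtain ⟨a, ha⟩ := ek_surj W hG (f n)
  rw [← ha]
  refine (kk_lt W hG hC).2 (hb m a ?_)
  have h1 := (hx (n, f n)).2 rfl
  rw [← ha] at h1
  have h2 : code (M := NN (Sc M K) hG) (n, ek W hG a) = op (code n) (kk W hG a) := rfl
  rw [h2, hm] at h1
  exact h1

include hC in
theorem kk_cnt (a : El (KK W hG)) : ∃ e : El (KK W hG) → INat (NN (Sc M K) hG),
    IntF (NN (Sc M K) hG) e ∧ ∀ x y : El (KK W hG), Mem x.1 a.1 → Mem y.1 a.1 → e x = e y →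
      x = y := by
  obtain ⟨a, rfl⟩ := ek_surj W hG a
  obtain ⟨b, hab⟩ := W.nomax a
  obtain ⟨x, hx⟩ := exists_enumN W hG hab
  have hI : Int (NN (Sc M K) hG) (fun q : El (KK W hG) × INat (NN (Sc M K) hG) =>
      Mem (op (code q.2) (code q.1)) x) :=
    Int.of_D₂ (S := fun v => Mem (op (v 1) (v 0)) x)
      (D.memf (DF.op (DF.var _) (DF.var _)) (DF.const _)) fun _ _ => Iff.rfl
  obtain ⟨e, he, h1⟩ := exists_lf (iwoNn (N := NN (Sc M K) hG))
    (r := fun (ξ : El (KK W hG)) (n : INat (NN (Sc M K) hG)) => Mem (op (code n) (code ξ)) x)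
    hI 0
  have h2 : ∀ ξ, ξ < a → ∃ m : INat M, code (e (ek W hG ξ)) = nv hG m ∧
      ∃ p, p ∈ G ∧ ((a, m), ξ) ∈ p.1 := by
    intro ξ hξ
    obtain ⟨m, hm⟩ := gen_onto hG hξ
    obtain ⟨n, hn⟩ := nv_nat hG hC m
    have h3 := (h1 (ek W hG ξ) ⟨n, by
      rw [hn]
      exact (hx _).2 ⟨m, ξ, rfl, hm⟩⟩).1
    obtain ⟨m', ξ', h4, h5⟩ := (hx _).1 h3
    obtain ⟨h6, h7⟩ := op_inj h4
    have h8 : ξ = ξ' := kk_inj W hG hC h7
    subst h8
    exact ⟨m', h6, h5⟩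
  refine ⟨e, he, fun y z hy hz hyz => ?_⟩
  obtain ⟨ξ, rfl⟩ := ek_surj W hG y
  obtain ⟨ζ, rfl⟩ := ek_surj W hG z
  obtain ⟨m, hm, h3⟩ := h2 ξ ((kk_lt W hG hC).1 hy)
  obtain ⟨m', hm', h3'⟩ := h2 ζ ((kk_lt W hG hC).1 hz)
  rw [hyz, hm'] at hm
  have h4 := nv_inj hG hC hm
  subst h4
  rw [gen_unique hG h3 h3']

include hC in
theorem kk_noseq (e : El (KK W hG) → El (KK W hG) → INat (NN (Sc M K) hG))
    (he : IntF (NN (Sc M K) hG) (fun q : El (KK W hG) × El (KK W hG) => e q.1 q.2))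
    (hi : ∀ a x y : El (KK W hG), Mem x.1 a.1 → Mem y.1 a.1 → e a x = e a y → x = y) :
    False := by
  obtain ⟨x, hx⟩ := he
  have h0 : ∀ a ξ n, Mem (op (op (kk W hG a) (kk W hG ξ)) (code (M := NN (Sc M K) hG) n)) x ↔
      e (ek W hG a) (ek W hG ξ) = n := fun a ξ n => hx ((ek W hG a, ek W hG ξ), n)
  refine ext_noseq W hG x (fun a ξ hξ => ?_) fun a ξ ξ' n h1 h2 h3 h4 => ?_
  · obtain ⟨m, hm⟩ := nat_nv hG (e (ek W hG a) (ek W hG ξ))
    refine ⟨m, ?_, fun m' hm' => ?_⟩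
    · rw [← hm]
      exact (h0 _ _ _).2 rfl
    · obtain ⟨n, hn⟩ := nv_nat hG hC m'
      rw [← hn] at hm'
      have h1 := (h0 _ _ _).1 hm'
      rw [h1, hn] at hm
      exact nv_inj hG hC hm
  · obtain ⟨k, hk⟩ := nv_nat hG hC n
    rw [← hk] at h3 h4
    have h5 := hi _ _ _ ((kk_lt W hG hC).2 h1) ((kk_lt W hG hC).2 h2)
      (((h0 _ _ _).1 h3).trans ((h0 _ _ _).1 h4).symm)
    exact kk_inj W hG hC (congrArg Subtype.val h5)

include W hG hC in
theorem omK_KK : ∃ (N : Type u) (_ : LSet.Structure N) (_ : ZF N) (k : N), OmK N k := by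
  have hz : ZF (NN (Sc M K) hG) := nn_zf hG hC
  refine ⟨NN (Sc M K) hG, inferInstance, hz, KK W hG, ?_⟩
  exact {
    ord := isOrdinal_KK W hG
    iwo := H310.IN.iwo_Od hG (iwoK W) hC
    ne := ⟨ek W hG (Classical.arbitrary K)⟩
    bdd := kk_bdd W hG hC
    cnt := kk_cnt W hG hC
    noseq := kk_noseq W hG hC }

end

section

variable {M : Type u} [L.Structure M] [hM : IsModel M] {K : Type u} [ITy M K] [LinearOrder K]
  [ILE M K]

theorem exists_omK [Countable M] (W : Uni M K) (hC : CollL M) :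
    ∃ (N : Type u) (_ : LSet.Structure N) (_ : ZF N) (k : N), OmK N k := by
  haveI := W.ne
  obtain ⟨G, hG⟩ := H635.exists_gen (M := M) (⟨∅, IFin.empty, fun a d d' h => by simp at h,
    fun a d h => by simp at h⟩ : Pc M K)
  exact omK_KK W hG hC

end

end Pool.Agent.Helper672.ZFA.V246
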