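import Pool.Agent.V11246.InacZ
import Pool.Agent.V11246.Ap

/-!
# There is a model
-/

set_option maxHeartbeats 1000000
set_option linter.all false
set_option synthInstance.maxSize 2000

namespace Pool.Agent.Helper672.ZFA.V246

open FirstOrder FirstOrder.Language
open Pool.Agent.Helper672.Plain (LSet)
open Pool.Agent.H310Cards
open Pool.Agent.H310
open Pool.Agent.H310.NA (zs zf_zs)
open Pool.Agent.H635Amen (ZF)
open Pool.Agent.V11246
open H635 (CollL isModel_of_zermelo coll_of_zf exists_countable_sub toL)

universe u

section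

attribute [local instance] toL

theorem exists_omK_c (M : Type u) [LSet.Structure M] [Countable M] (h : ZF M) (hU : HasU M) :
    ∃ (N : Type u) (_ : LSet.Structure N) (_ : ZF N) (k : N), OmK N k := by
  have hM : IsModel M := isModel_of_zermelo h.toZermelo
  obtain ⟨k, hL, hI, ⟨W⟩⟩ := exists_uni (M := M) hU
  exact exists_omK (M := M) W (coll_of_zf h)

end

theorem exists_omK_zs : ∃ (N : Type 2) (_ : LSet.Structure N) (_ : ZF N) (k : N), OmK N k := by
  letI := zs.{1}
  obtain ⟨M₀, h1, h2⟩ := exists_countable_sub ZFSet.{1} zf_zs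
  exact exists_omK_c M₀ h2 (hasU_zs.sub M₀)

end Pool.Agent.Helper672.ZFA.V246
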