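import Pool.Agent.V11246.Rec
import Pool.Agent.H310R3.NA2

/-!
# Comparability of internal well-orders and squares of infinite well-orders
-/

set_option maxHeartbeats 1000000
set_option linter.all false
set_option synthInstance.maxSize 2000

namespace Pool.Agent.Helper672.ZFA.V246

open FirstOrder FirstOrder.Language
open H635 (IWO)
open Pool.Agent.H310

universe u

section

variable {N : Type u} [L.Structure N] [hN : IsModel N]
variable {ι α β : Type u} [ITy N ι] [ITy N α] [ITy N β]
variable {lt : α → α → Prop} (h : IWO N α lt) {lt' : β → β → Prop} (h' : IWO N β lt')
variable {T : ι → α → Prop} (hT : Int N (fun q : ι × α => T q.1 q.2))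

include h h' hT in
/-- Comparability of well-orders, uniformly in a parameter. -/
theorem exists_comp (y₀ : β) : ∃ ρ : ι → α → β, IntF N (fun q : ι × α => ρ q.1 q.2) ∧ ∀ i,
    ((∀ a b, T i a → T i b → lt a b → lt' (ρ i a) (ρ i b)) ∧
      (∀ a x, T i a → ¬ lt' (ρ i a) x → ∃ d, T i d ∧ ρ i d = x ∧ ¬ lt a d)) ∨
    (∃ c, T i c ∧ ∃ g : β → α, IntF N g ∧ Function.Injective g ∧
      ∀ x, T i (g x) ∧ lt (g x) c) := by
  have hlt := h.int
  have hlt' := h'.int
  have hI : Int N (fun q : ((ι × α) × IPow N (α × β)) × β => ∀ d y, (d, y) ∈ q.1.2 →
      T q.1.1.1 d → lt' y q.2) := by (repeat' (first | with_reducible exact IntF.id | with_reducible exact IntF.fst' | with_reducible exact IntF.snd' | with_reducible exact IntF.const _ | with_reducible exact Int.const _ | assumption | with_reducible apply Int.and | with_reducible apply Int.or | with_reducible apply Int.not | with_reducible apply Int.imp | with_reducible apply Int.iff | with_reducible apply Int.ne | with_reducible apply Int.eq | with_reducible apply Int.mem | with_reducible apply Int.subset | with_reducible apply Int.ltN | with_reducible apply Int.leN | with_reducible_and_instances apply Int.le | with_reducible_and_instances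 apply Int.lt | with_reducible apply Int.all | with_reducible apply Int.ex | with_reducible apply IntF.fst | with_reducible apply IntF.snd | with_reducible apply IntF.app | with_reducible apply IntF.inl | with_reducible apply IntF.inr | with_reducible_and_instances apply IntF.mul | with_reducible_and_instances apply IntF.inv | with_reducible_and_instances apply IntF.add | with_reducible_and_instances apply IntF.sub | with_reducible_and_instances apply IntF.neg | with_reducible_and_instances apply IntF.smul | with_reducible apply Int.fin | with_reducible apply IntF.sep | with_reducible apply IntF.lam | with_reducible apply IntF.insert | with_reducible apply IntF.singleton | with_reducible apply IntF.union | with_reducible apply IntF.iimage | with_reducible apply IntF.ite | with_reducible apply IntF.the | with_reducible apply IntF.irec | with_reducible apply IntF.succ | with_reducible apply IntF.val | with_reducible apply IntF.mk | (with_reducible refine Int.comp ?_ ?_; assumption) | (with_reducible refine Int.comp₂ ?_ ?_ ?_; assumption) | (with_reducible refine Int.comp₃ ?_ ?_ ?_ ?_; assumption) | (with_reducible refine Int.comp₄ ?_ ?_ ?_ ?_ ?_; assumption)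 | (with_reducible refine IntF.comp ?_ ?_; assumption) | (with_reducible refine IntF.comp₂ ?_ ?_ ?_; assumption) | (with_reducible refine IntF.comp₃ ?_ ?_ ?_ ?_; assumption) | with_reducible apply IntF.pair))
  obtain ⟨φ, hφ, h1⟩ := exists_lf h' (r := fun (q : (ι × α) × IPow N (α × β)) (x : β) =>
    ∀ d y, (d, y) ∈ q.2 → T q.1.1 d → lt' y x) hI y₀
  obtain ⟨Φ, hΦd⟩ : ∃ Φ : ι → α → IPow N (α × β) → β, ∀ i a s, Φ i a s = φ ((i, a), s) :=
    ⟨fun i a s => φ ((i, a), s), fun _ _ _ => rfl⟩
  have hΦ : IntF N (fun q : (ι × α) × IPow N (α × β) => Φ q.1.1 q.1.2 q.2) := by
    have h0 : (fun q : (ι × α) × IPow N (α × β) => Φ q.1.1 q.1.2 q.2) = φ :=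
      funext fun q => hΦd _ _ _
    rw [h0]
    exact hφ
  have hρ := int_rcf h hΦ y₀
  have hsp := rcf_spec h hΦ y₀
  set ρ := rcf lt Φ y₀ with hρd
  refine ⟨ρ, hρ, fun i => ?_⟩
  have hS : ∀ a, Int N (fun q : α × β => lt q.1 a ∧ ρ i q.1 = q.2) := fun a => by (repeat' (first | with_reducible exact IntF.id | with_reducible exact IntF.fst' | with_reducible exact IntF.snd' | with_reducible exact IntF.const _ | with_reducible exact Int.const _ | assumption | with_reducible apply Int.and | with_reducible apply Int.or | with_reducible apply Int.not | with_reducible apply Int.imp | with_reducible apply Int.iff | with_reducible apply Int.ne | with_reducible apply Int.eq | with_reducible apply Int.mem | with_reducible apply Int.subset | with_reducible apply Int.ltN | with_reducible apply Int.leN | with_reducible_and_instances apply Int.le | with_reducible_and_instances apply Int.lt | with_reducible apply Int.all | with_reducible apply Int.ex | with_reducible apply IntF.fst | with_reducible apply IntF.snd | with_reducible apply IntF.app | with_reducible apply IntF.inl | with_reducible apply IntF.inr | with_reducible_and_instances apply IntF.mul | with_reducible_and_instances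 apply IntF.inv | with_reducible_and_instances apply IntF.add | with_reducible_and_instances apply IntF.sub | with_reducible_and_instances apply IntF.neg | with_reducible_and_instances apply IntF.smul | with_reducible apply Int.fin | with_reducible apply IntF.sep | with_reducible apply IntF.lam | with_reducible apply IntF.insert | with_reducible apply IntF.singleton | with_reducible apply IntF.union | with_reducible apply IntF.iimage | with_reducible apply IntF.ite | with_reducible apply IntF.the | with_reducible apply IntF.irec | with_reducible apply IntF.succ | with_reducible apply IntF.val | with_reducible apply IntF.mk | (with_reducible refine Int.comp ?_ ?_; assumption) | (with_reducible refine Int.comp₂ ?_ ?_ ?_; assumption) | (with_reducible refine Int.comp₃ ?_ ?_ ?_ ?_; assumption) | (with_reducible refine Int.comp₄ ?_ ?_ ?_ ?_ ?_; assumption) | (with_reducible refine IntF.comp ?_ ?_; assumption) | (with_reducible refine IntF.comp₂ ?_ ?_ ?_; assumption) | (with_reducible refine IntF.comp₃ ?_ ?_ ?_ ?_; assumption) | with_reducible apply IntF.pair))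
  -- good elements
  have hP1 : ∀ c, (∃ x, ∀ d, lt d c → T i d → lt' (ρ i d) x) →
      (∀ d, lt d c → T i d → lt' (ρ i d) (ρ i c)) ∧
        ∀ x, (∀ d, lt d c → T i d → lt' (ρ i d) x) → ¬ lt' x (ρ i c) := by
    intro c hc
    have h2 : ∀ x, (∀ d y, (d, y) ∈ (sep N fun q : α × β => lt q.1 c ∧ ρ i q.1 = q.2) →
        T i d → lt' y x) ↔ ∀ d, lt d c → T i d → lt' (ρ i d) x := by
      intro x
      constructor
      · intro h3 d hd hTd
        exact h3 d _ ((mem_sep (hS c)).2 ⟨hd, rfl⟩) hTd
      · intro h3 d y hdy hTd
        obtain ⟨h4, h5⟩ := (mem_sep (hS c)).1 hdy
        dsimp only at h4 h5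
        rw [← h5]
        exact h3 d h4 hTd
    obtain ⟨x, hx⟩ := hc
    have h3 := h1 ((i, c), sep N fun q : α × β => lt q.1 c ∧ ρ i q.1 = q.2) ⟨x, (h2 x).2 hx⟩
    have h4 : φ ((i, c), sep N fun q : α × β => lt q.1 c ∧ ρ i q.1 = q.2) = ρ i c :=
      ((hsp i c).trans (hΦd _ _ _)).symm
    rw [h4] at h3
    exact ⟨(h2 _).1 h3.1, fun x hx => h3.2 x ((h2 x).2 hx)⟩
  have hP2 : ∀ c, (∃ x, ∀ d, lt d c → T i d → lt' (ρ i d) x) → ∀ x, lt' x (ρ i c) →
      ∃ d, lt d c ∧ T i d ∧ ρ i d = x := by
    intro c
    refine iwo_ind h (p := fun c => (∃ x, ∀ d, lt d c → T i d → lt' (ρ i d) x) →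
      ∀ x, lt' x (ρ i c) → ∃ d, lt d c ∧ T i d ∧ ρ i d = x) (by (repeat' (first | with_reducible exact IntF.id | with_reducible exact IntF.fst' | with_reducible exact IntF.snd' | with_reducible exact IntF.const _ | with_reducible exact Int.const _ | assumption | with_reducible apply Int.and | with_reducible apply Int.or | with_reducible apply Int.not | with_reducible apply Int.imp | with_reducible apply Int.iff | with_reducible apply Int.ne | with_reducible apply Int.eq | with_reducible apply Int.mem | with_reducible apply Int.subset | with_reducible apply Int.ltN | with_reducible apply Int.leN | with_reducible_and_instances apply Int.le | with_reducible_and_instances apply Int.lt | with_reducible apply Int.all | with_reducible apply Int.ex | with_reducible apply IntF.fst | with_reducible apply IntF.snd | with_reducible apply IntF.app | with_reducible apply IntF.inl | with_reducible apply IntF.inr | with_reducible_and_instances apply IntF.mul | with_reducible_and_instances apply IntF.inv | with_reducible_and_instances apply IntF.add | with_reducible_and_instances apply IntF.sub | with_reducible_and_instances apply IntF.neg | with_reducible_and_instances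 apply IntF.smul | with_reducible apply Int.fin | with_reducible apply IntF.sep | with_reducible apply IntF.lam | with_reducible apply IntF.insert | with_reducible apply IntF.singleton | with_reducible apply IntF.union | with_reducible apply IntF.iimage | with_reducible apply IntF.ite | with_reducible apply IntF.the | with_reducible apply IntF.irec | with_reducible apply IntF.succ | with_reducible apply IntF.val | with_reducible apply IntF.mk | (with_reducible refine Int.comp ?_ ?_; assumption) | (with_reducible refine Int.comp₂ ?_ ?_ ?_; assumption) | (with_reducible refine Int.comp₃ ?_ ?_ ?_ ?_; assumption) | (with_reducible refine Int.comp₄ ?_ ?_ ?_ ?_ ?_; assumption) | (with_reducible refine IntF.comp ?_ ?_; assumption) | (with_reducible refine IntF.comp₂ ?_ ?_ ?_; assumption) | (with_reducible refine IntF.comp₃ ?_ ?_ ?_ ?_; assumption) | with_reducible apply IntF.pair))) ?_ c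
    intro c ih hc x hx
    by_contra hcon
    push Not at hcon
    refine (hP1 c hc).2 x (fun d hd hTd => ?_) hx
    rcases h'.tri (ρ i d) x with h2 | h2 | h2
    · exact h2
    · exact absurd h2 (hcon d hd hTd)
    · obtain ⟨y, hy⟩ := hc
      obtain ⟨d', h3, h4, h5⟩ := ih d hd ⟨y, fun d' hd' => hy d' (iwo_trans h hd' hd)⟩ x h2
      exact absurd h5 (hcon d' (iwo_trans h h3 hd) h4)
  by_cases hall : ∀ c, T i c → ∃ x, ∀ d, lt d c → T i d → lt' (ρ i d) x
  · left
    refine ⟨fun a b ha hb hab => (hP1 b (hall b hb)).1 a hab ha, fun a x ha hx => ?_⟩
    rcases h'.tri x (ρ i a) with h2 | h2 | h2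
    · obtain ⟨d, h3, h4, h5⟩ := hP2 a (hall a ha) x h2
      exact ⟨d, h4, h5, fun h6 => iwo_asymm h h3 h6⟩
    · exact ⟨a, ha, h2.symm, iwo_irrefl h a⟩
    · exact absurd h2 hx
  · right
    push Not at hall
    obtain ⟨c, ⟨hTc, hc⟩, hmin⟩ := iwo_least h (p := fun c => T i c ∧ ∀ x, ∃ d, lt d c ∧ T i d ∧
      ¬ lt' (ρ i d) x) (by (repeat' (first | with_reducible exact IntF.id | with_reducible exact IntF.fst' | with_reducible exact IntF.snd' | with_reducible exact IntF.const _ | with_reducible exact Int.const _ | assumption | with_reducible apply Int.and | with_reducible apply Int.or | with_reducible apply Int.not | with_reducible apply Int.imp | with_reducible apply Int.iff | with_reducible apply Int.ne | with_reducible apply Int.eq | with_reducible apply Int.mem | with_reducible apply Int.subset | with_reducible apply Int.ltN | with_reducible apply Int.leN | with_reducible_and_instances apply Int.le | with_reducible_and_instances apply Int.lt | with_reducible apply Int.all | with_reducible apply Int.ex | with_reducible apply IntF.fst | with_reducible apply IntF.snd | with_reducible apply IntF.app | with_reducible apply IntF.inl | with_reducible apply IntF.inr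 | with_reducible_and_instances apply IntF.mul | with_reducible_and_instances apply IntF.inv | with_reducible_and_instances apply IntF.add | with_reducible_and_instances apply IntF.sub | with_reducible_and_instances apply IntF.neg | with_reducible_and_instances apply IntF.smul | with_reducible apply Int.fin | with_reducible apply IntF.sep | with_reducible apply IntF.lam | with_reducible apply IntF.insert | with_reducible apply IntF.singleton | with_reducible apply IntF.union | with_reducible apply IntF.iimage | with_reducible apply IntF.ite | with_reducible apply IntF.the | with_reducible apply IntF.irec | with_reducible apply IntF.succ | with_reducible apply IntF.val | with_reducible apply IntF.mk | (with_reducible refine Int.comp ?_ ?_; assumption) | (with_reducible refine Int.comp₂ ?_ ?_ ?_; assumption) | (with_reducible refine Int.comp₃ ?_ ?_ ?_ ?_; assumption) | (with_reducible refine Int.comp₄ ?_ ?_ ?_ ?_ ?_; assumption) | (with_reducible refine IntF.comp ?_ ?_; assumption) | (with_reducible refine IntF.comp₂ ?_ ?_ ?_; assumption) | (with_reducible refine IntF.comp₃ ?_ ?_ ?_ ?_; assumption) | with_reducible apply IntF.pair))) hall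
    have hgood : ∀ d, lt d c → T i d → ∃ x, ∀ e, lt e d → T i e → lt' (ρ i e) x := by
      intro d hd hTd
      by_contra h2
      push Not at h2
      exact hmin d ⟨hTd, h2⟩ hd
    have hex : ∀ x, ∃ d, lt d c ∧ T i d ∧ ρ i d = x := by
      intro x
      obtain ⟨d, h2, h3, h4⟩ := hc x
      rcases h'.tri x (ρ i d) with h5 | h5 | h5
      · obtain ⟨e, h6, h7, h8⟩ := hP2 d (hgood d h2 h3) x h5
        exact ⟨e, iwo_trans h h6 h2, h7, h8⟩
      · exact ⟨d, h2, h3, h5.symm⟩
      · exact absurd h5 h4
    obtain ⟨g, hg, h2⟩ := exists_lf h (γ := β) (r := fun x d => lt d c ∧ T i d ∧ ρ i d = x)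
      (by (repeat' (first | with_reducible exact IntF.id | with_reducible exact IntF.fst' | with_reducible exact IntF.snd' | with_reducible exact IntF.const _ | with_reducible exact Int.const _ | assumption | with_reducible apply Int.and | with_reducible apply Int.or | with_reducible apply Int.not | with_reducible apply Int.imp | with_reducible apply Int.iff | with_reducible apply Int.ne | with_reducible apply Int.eq | with_reducible apply Int.mem | with_reducible apply Int.subset | with_reducible apply Int.ltN | with_reducible apply Int.leN | with_reducible_and_instances apply Int.le | with_reducible_and_instances apply Int.lt | with_reducible apply Int.all | with_reducible apply Int.ex | with_reducible apply IntF.fst | with_reducible apply IntF.snd | with_reducible apply IntF.app | with_reducible apply IntF.inl | with_reducible apply IntF.inr | with_reducible_and_instances apply IntF.mul | with_reducible_and_instances apply IntF.inv | with_reducible_and_instances apply IntF.add | with_reducible_and_instances apply IntF.sub | with_reducible_and_instances apply IntF.neg | with_reducible_and_instances apply IntF.smul | with_reducible apply Int.fin | with_reducible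 apply IntF.sep | with_reducible apply IntF.lam | with_reducible apply IntF.insert | with_reducible apply IntF.singleton | with_reducible apply IntF.union | with_reducible apply IntF.iimage | with_reducible apply IntF.ite | with_reducible apply IntF.the | with_reducible apply IntF.irec | with_reducible apply IntF.succ | with_reducible apply IntF.val | with_reducible apply IntF.mk | (with_reducible refine Int.comp ?_ ?_; assumption) | (with_reducible refine Int.comp₂ ?_ ?_ ?_; assumption) | (with_reducible refine Int.comp₃ ?_ ?_ ?_ ?_; assumption) | (with_reducible refine Int.comp₄ ?_ ?_ ?_ ?_ ?_; assumption) | (with_reducible refine IntF.comp ?_ ?_; assumption) | (with_reducible refine IntF.comp₂ ?_ ?_ ?_; assumption) | (with_reducible refine IntF.comp₃ ?_ ?_ ?_ ?_; assumption) | with_reducible apply IntF.pair))) c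
    refine ⟨c, hTc, g, hg, fun x y hxy => ?_, fun x => ?_⟩
    · rw [← (h2 x (hex x)).1.2.2, ← (h2 y (hex y)).1.2.2, hxy]
    · exact ⟨(h2 x (hex x)).1.2.1, (h2 x (hex x)).1.1⟩

include h h' hT in
/-- Ranks of well-ordered sets without an injection from `β`. -/
theorem exists_rank (y₀ : β) (hno : ∀ i, ¬ ∃ g : β → α, IntF N g ∧ Function.Injective g ∧
    ∀ x, T i (g x)) : ∃ ρ : ι → α → β, IntF N (fun q : ι × α => ρ q.1 q.2) ∧ ∀ i,
    (∀ a b, T i a → T i b → ρ i a = ρ i b → a = b) ∧ ∃ b, ∀ a, T i a → lt' (ρ i a) b := by
  have hlt := h.int
  have hlt' := h'.int
  obtain ⟨ρ, hρ, h1⟩ := exists_comp h h' hT y₀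
  refine ⟨ρ, hρ, fun i => ?_⟩
  rcases h1 i with ⟨h2, h3⟩ | ⟨c, -, g, hg, h4, h5⟩
  · refine ⟨fun a b ha hb hab => ?_, ?_⟩
    · rcases h.tri a b with h4 | h4 | h4
      · exact absurd (hab ▸ h2 a b ha hb h4) (iwo_irrefl h' _)
      · exact h4
      · exact absurd (hab ▸ h2 b a hb ha h4) (iwo_irrefl h' _)
    · by_contra hcon
      push Not at hcon
      have hex : ∀ x, ∃ d, T i d ∧ ρ i d = x := by
        intro x
        obtain ⟨a, ha, h4⟩ := hcon x
        obtain ⟨d, h5, h6, -⟩ := h3 a x ha h4
        exact ⟨d, h5, h6⟩
      obtain ⟨d₀, -, -⟩ := hex y₀
      obtain ⟨g, hg, h4⟩ := exists_lf h (γ := β) (r := fun x d => T i d ∧ ρ i d = x)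
        (by (repeat' (first | with_reducible exact IntF.id | with_reducible exact IntF.fst' | with_reducible exact IntF.snd' | with_reducible exact IntF.const _ | with_reducible exact Int.const _ | assumption | with_reducible apply Int.and | with_reducible apply Int.or | with_reducible apply Int.not | with_reducible apply Int.imp | with_reducible apply Int.iff | with_reducible apply Int.ne | with_reducible apply Int.eq | with_reducible apply Int.mem | with_reducible apply Int.subset | with_reducible apply Int.ltN | with_reducible apply Int.leN | with_reducible_and_instances apply Int.le | with_reducible_and_instances apply Int.lt | with_reducible apply Int.all | with_reducible apply Int.ex | with_reducible apply IntF.fst | with_reducible apply IntF.snd | with_reducible apply IntF.app | with_reducible apply IntF.inl | with_reducible apply IntF.inr | with_reducible_and_instances apply IntF.mul | with_reducible_and_instances apply IntF.inv | with_reducible_and_instances apply IntF.add | with_reducible_and_instances apply IntF.sub | with_reducible_and_instances apply IntF.neg | with_reducible_and_instances apply IntF.smul | with_reducible apply Int.fin | with_reducible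 apply IntF.sep | with_reducible apply IntF.lam | with_reducible apply IntF.insert | with_reducible apply IntF.singleton | with_reducible apply IntF.union | with_reducible apply IntF.iimage | with_reducible apply IntF.ite | with_reducible apply IntF.the | with_reducible apply IntF.irec | with_reducible apply IntF.succ | with_reducible apply IntF.val | with_reducible apply IntF.mk | (with_reducible refine Int.comp ?_ ?_; assumption) | (with_reducible refine Int.comp₂ ?_ ?_ ?_; assumption) | (with_reducible refine Int.comp₃ ?_ ?_ ?_ ?_; assumption) | (with_reducible refine Int.comp₄ ?_ ?_ ?_ ?_ ?_; assumption) | (with_reducible refine IntF.comp ?_ ?_; assumption) | (with_reducible refine IntF.comp₂ ?_ ?_ ?_; assumption) | (with_reducible refine IntF.comp₃ ?_ ?_ ?_ ?_; assumption) | with_reducible apply IntF.pair))) d₀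
      refine hno i ⟨g, hg, fun x y hxy => ?_, fun x => (h4 x (hex x)).1.1⟩
      rw [← (h4 x (hex x)).1.2, ← (h4 y (hex y)).1.2, hxy]
  · exact absurd ⟨g, hg, h4, fun x => (h5 x).1⟩ (hno i)

/-! ### Squares -/

/-- The set `A` is finite or its square injects into it. -/
def SqP (A : α → Prop) : Prop :=
  IFin (sep N A) ∨ ∃ e : IFun N (α × α) α, (∀ q, A q.1 → A q.2 → A (e q)) ∧
    ∀ q q', A q.1 → A q.2 → A q'.1 → A q'.2 → e q = e q' → q = q'

theorem fin_of_inj {A B : α → Prop} (hA : Int N A) (hB : Int N B) (hf : IFin (sep N B))
    {e : α → α} (he : IntF N e) (h1 : ∀ x, A x → B (e x))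
    (h2 : ∀ x y, A x → A y → e x = e y → x = y) : IFin (sep N A) :=
  FinP.fin (FinP.of_inj hA he h2 ((finP_iff hB).2 hf) h1) hA

omit [ITy N β] in
include h in
theorem hess_step {A : α → Prop} (hA : Int N A) (hdn : ∀ a b, A a → lt b a → A b)
    (ih : ∀ a, A a → SqP (N := N) (fun x => lt x a)) : SqP (N := N) A := by
  classical
  have hlt := h.int
  by_cases hfin : IFin (sep N A)
  · exact Or.inl hfin
  have hseg : ∀ z, Int N (fun x => lt x z) := fun z => by (repeat' (first | with_reducible exact IntF.id | with_reducible exact IntF.fst' | with_reducible exact IntF.snd' | with_reducible exact IntF.const _ | with_reducible exact Int.const _ | assumption | with_reducible apply Int.and | with_reducible apply Int.or | with_reducible apply Int.not | with_reducible apply Int.imp | with_reducible apply Int.iff | with_reducible apply Int.ne | with_reducible apply Int.eq | with_reducible apply Int.mem | with_reducible apply Int.subset | with_reducible apply Int.ltN | with_reducible apply Int.leN | with_reducible_and_instances apply Int.le | with_reducible_and_instances apply Int.lt | with_reducible apply Int.all | with_reducible apply Int.ex | with_reducible apply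 IntF.fst | with_reducible apply IntF.snd | with_reducible apply IntF.app | with_reducible apply IntF.inl | with_reducible apply IntF.inr | with_reducible_and_instances apply IntF.mul | with_reducible_and_instances apply IntF.inv | with_reducible_and_instances apply IntF.add | with_reducible_and_instances apply IntF.sub | with_reducible_and_instances apply IntF.neg | with_reducible_and_instances apply IntF.smul | with_reducible apply Int.fin | with_reducible apply IntF.sep | with_reducible apply IntF.lam | with_reducible apply IntF.insert | with_reducible apply IntF.singleton | with_reducible apply IntF.union | with_reducible apply IntF.iimage | with_reducible apply IntF.ite | with_reducible apply IntF.the | with_reducible apply IntF.irec | with_reducible apply IntF.succ | with_reducible apply IntF.val | with_reducible apply IntF.mk | (with_reducible refine Int.comp ?_ ?_; assumption) | (with_reducible refine Int.comp₂ ?_ ?_ ?_; assumption) | (with_reducible refine Int.comp₃ ?_ ?_ ?_ ?_; assumption) | (with_reducible refine Int.comp₄ ?_ ?_ ?_ ?_ ?_; assumption) | (with_reducible refine IntF.comp ?_ ?_; assumption) | (with_reducible refine IntF.comp₂ ?_ ?_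 ?_; assumption) | (with_reducible refine IntF.comp₃ ?_ ?_ ?_ ?_; assumption) | with_reducible apply IntF.pair))
  by_cases hcase : ∃ (z : α) (e : IFun N α α), A z ∧ (∀ x, A x → lt (e x) z) ∧
      ∀ x y, A x → A y → e x = e y → x = y
  · obtain ⟨z, e, hz, h1, h2⟩ := hcase
    rcases ih z hz with h3 | ⟨e', h3, h4⟩
    · exact Or.inl (fin_of_inj hA (hseg z) h3 (e := fun x => e x) e.int h1 h2)
    · have he : IntF N (fun q : α × α => e' (e q.1, e q.2)) := by (repeat' (first | with_reducible exact IntF.id | with_reducible exact IntF.fst' | with_reducible exact IntF.snd' | with_reducible exact IntF.const _ | with_reducible exact Int.const _ | assumption | with_reducible apply Int.and | with_reducible apply Int.or | with_reducible apply Int.not | with_reducible apply Int.imp | with_reducible apply Int.iff | with_reducible apply Int.ne | with_reducible apply Int.eq | with_reducible apply Int.mem | with_reducible apply Int.subset | with_reducible apply Int.ltN | with_reducible apply Int.leN | with_reducible_and_instances apply Int.le | with_reducible_and_instances apply Int.lt | with_reducible apply Int.all | with_reducible apply Int.ex | with_reducible apply IntF.fst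 | with_reducible apply IntF.snd | with_reducible apply IntF.app | with_reducible apply IntF.inl | with_reducible apply IntF.inr | with_reducible_and_instances apply IntF.mul | with_reducible_and_instances apply IntF.inv | with_reducible_and_instances apply IntF.add | with_reducible_and_instances apply IntF.sub | with_reducible_and_instances apply IntF.neg | with_reducible_and_instances apply IntF.smul | with_reducible apply Int.fin | with_reducible apply IntF.sep | with_reducible apply IntF.lam | with_reducible apply IntF.insert | with_reducible apply IntF.singleton | with_reducible apply IntF.union | with_reducible apply IntF.iimage | with_reducible apply IntF.ite | with_reducible apply IntF.the | with_reducible apply IntF.irec | with_reducible apply IntF.succ | with_reducible apply IntF.val | with_reducible apply IntF.mk | (with_reducible refine Int.comp ?_ ?_; assumption) | (with_reducible refine Int.comp₂ ?_ ?_ ?_; assumption) | (with_reducible refine Int.comp₃ ?_ ?_ ?_ ?_; assumption) | (with_reducible refine Int.comp₄ ?_ ?_ ?_ ?_ ?_; assumption) | (with_reducible refine IntF.comp ?_ ?_; assumption) | (with_reducible refine IntF.comp₂ ?_ ?_ ?_; assumption)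 | (with_reducible refine IntF.comp₃ ?_ ?_ ?_ ?_; assumption) | with_reducible apply IntF.pair))
      refine Or.inr ⟨⟨_, he⟩, fun q hq hq' => ?_, fun q q' h5 h6 h7 h8 h9 => ?_⟩
      · exact hdn z _ hz (h3 (e q.1, e q.2) (h1 _ hq) (h1 _ hq'))
      · have h10 := h4 (e q.1, e q.2) (e q'.1, e q'.2) (h1 _ h5) (h1 _ h6) (h1 _ h7) (h1 _ h8) h9
        obtain ⟨h11, h12⟩ := Prod.mk.inj h10
        exact Prod.ext (h2 _ _ h5 h7 h11) (h2 _ _ h6 h8 h12)
  -- there is no largest element
  have hnomax : ∀ z, A z → ∃ z', A z' ∧ lt z z' := by
    intro z hz
    by_contra hcon
    push Not at hcon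
    have hle : ∀ x, A x → x = z ∨ lt x z := by
      intro x hx
      rcases h.tri x z with h1 | h1 | h1
      · exact Or.inr h1
      · exact Or.inl h1
      · exact absurd h1 (hcon x hx)
    have hno : ¬ IFin (sep N fun x => lt x z) := by
      intro h1
      refine hfin ((h1.insert z).subset fun x hx => ?_)
      rcases hle x ((mem_sep hA).1 hx) with h2 | h2
      · exact mem_insert.2 (Or.inl h2)
      · exact mem_insert.2 (Or.inr ((mem_sep (hseg z)).2 h2))
    rcases ih z hz with h3 | ⟨e', h3, h4⟩
    · exact hno h3
    · have h5 : ∃ c₀ c₁, lt c₀ z ∧ lt c₁ z ∧ c₀ ≠ c₁ := by
        by_contra h5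
        push Not at h5
        by_cases h6 : ∃ c, lt c z
        · obtain ⟨c, hc⟩ := h6
          refine hno ((IFin.singleton c).subset fun x hx => mem_singleton.2 ?_)
          exact h5 x c ((mem_sep (hseg z)).1 hx) hc
        · refine hno (IFin.empty.subset fun x hx => ?_)
          exact absurd ⟨x, (mem_sep (hseg z)).1 hx⟩ h6
      obtain ⟨c₀, c₁, hc₀, hc₁, hc⟩ := h5
      have he : IntF N (fun x : α => if x = z then e' (c₀, c₁) else e' (x, c₀)) := by
        refine IntF.ite (Int.eq IntF.id (IntF.const _)) (IntF.const _) ?_
        (repeat' (first | with_reducible exact IntF.id | with_reducible exact IntF.fst' | with_reducible exact IntF.snd' | with_reducible exact IntF.const _ | with_reducible exact Int.const _ | assumption | with_reducible apply Int.and | with_reducible apply Int.or | with_reducible apply Int.not | with_reducible apply Int.imp | with_reducible apply Int.iff | with_reducible apply Int.ne | with_reducible apply Int.eq | with_reducible apply Int.mem | with_reducible apply Int.subset | with_reducible apply Int.ltN | with_reducible apply Int.leN | with_reducible_and_instances apply Int.le | with_reducible_and_instances apply Int.lt | with_reducible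 apply Int.all | with_reducible apply Int.ex | with_reducible apply IntF.fst | with_reducible apply IntF.snd | with_reducible apply IntF.app | with_reducible apply IntF.inl | with_reducible apply IntF.inr | with_reducible_and_instances apply IntF.mul | with_reducible_and_instances apply IntF.inv | with_reducible_and_instances apply IntF.add | with_reducible_and_instances apply IntF.sub | with_reducible_and_instances apply IntF.neg | with_reducible_and_instances apply IntF.smul | with_reducible apply Int.fin | with_reducible apply IntF.sep | with_reducible apply IntF.lam | with_reducible apply IntF.insert | with_reducible apply IntF.singleton | with_reducible apply IntF.union | with_reducible apply IntF.iimage | with_reducible apply IntF.ite | with_reducible apply IntF.the | with_reducible apply IntF.irec | with_reducible apply IntF.succ | with_reducible apply IntF.val | with_reducible apply IntF.mk | (with_reducible refine Int.comp ?_ ?_; assumption) | (with_reducible refine Int.comp₂ ?_ ?_ ?_; assumption) | (with_reducible refine Int.comp₃ ?_ ?_ ?_ ?_; assumption) | (with_reducible refine Int.comp₄ ?_ ?_ ?_ ?_ ?_; assumption) | (with_reducible refine IntF.comp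 ?_ ?_; assumption) | (with_reducible refine IntF.comp₂ ?_ ?_ ?_; assumption) | (with_reducible refine IntF.comp₃ ?_ ?_ ?_ ?_; assumption) | with_reducible apply IntF.pair))
      refine hcase ⟨z, ⟨_, he⟩, hz, fun x hx => ?_, fun x y hx hy hxy => ?_⟩
      · change lt (if x = z then e' (c₀, c₁) else e' (x, c₀)) z
        split_ifs with h6
        · exact h3 (c₀, c₁) hc₀ hc₁
        · exact h3 (x, c₀) ((hle x hx).resolve_left h6) hc₀
      · change (if x = z then e' (c₀, c₁) else e' (x, c₀)) =
          (if y = z then e' (c₀, c₁) else e' (y, c₀)) at hxy
        split_ifs at hxy with h6 h7 h7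
        · exact h6.trans h7.symm
        · have h8 := h4 _ _ hc₀ hc₁ ((hle y hy).resolve_left h7) hc₀ hxy
          exact absurd (Prod.mk.inj h8).2.symm hc
        · have h8 := h4 _ _ ((hle x hx).resolve_left h6) hc₀ hc₀ hc₁ hxy
          exact absurd (Prod.mk.inj h8).2 hc
        · exact (Prod.mk.inj (h4 _ _ ((hle x hx).resolve_left h6) hc₀
            ((hle y hy).resolve_left h7) hc₀ hxy)).1
  -- there is no injection to the square of a proper initial segment
  have hkill : ∀ z, A z → ∀ g : α → α × α, IntF N g →
      (∀ x, A x → lt (g x).1 z ∧ lt (g x).2 z) → (∀ x y, A x → A y → g x = g y → x = y) →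
        False := by
    intro z hz g hg h1 h2
    rcases ih z hz with h3 | ⟨e', h3, h4⟩
    · have h5 : FinP N (fun q : α × α => lt q.1 z ∧ lt q.2 z) := by
        refine ⟨_, h3.prod h3, fun q hq => ?_⟩
        exact mem_iprod.2 ⟨(mem_sep (hseg z)).2 hq.1, (mem_sep (hseg z)).2 hq.2⟩
      exact hfin (FinP.fin (FinP.of_inj hA hg h2 h5 h1) hA)
    · have he : IntF N (fun x : α => e' (g x)) := by (repeat' (first | with_reducible exact IntF.id | with_reducible exact IntF.fst' | with_reducible exact IntF.snd' | with_reducible exact IntF.const _ | with_reducible exact Int.const _ | assumption | with_reducible apply Int.and | with_reducible apply Int.or | with_reducible apply Int.not | with_reducible apply Int.imp | with_reducible apply Int.iff | with_reducible apply Int.ne | with_reducible apply Int.eq | with_reducible apply Int.mem | with_reducible apply Int.subset | with_reducible apply Int.ltN | with_reducible apply Int.leN | with_reducible_and_instances apply Int.le | with_reducible_and_instances apply Int.lt | with_reducible apply Int.all | with_reducible apply Int.ex | with_reducible apply IntF.fst | with_reducible apply IntF.snd | with_reducible apply IntF.app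 | with_reducible apply IntF.inl | with_reducible apply IntF.inr | with_reducible_and_instances apply IntF.mul | with_reducible_and_instances apply IntF.inv | with_reducible_and_instances apply IntF.add | with_reducible_and_instances apply IntF.sub | with_reducible_and_instances apply IntF.neg | with_reducible_and_instances apply IntF.smul | with_reducible apply Int.fin | with_reducible apply IntF.sep | with_reducible apply IntF.lam | with_reducible apply IntF.insert | with_reducible apply IntF.singleton | with_reducible apply IntF.union | with_reducible apply IntF.iimage | with_reducible apply IntF.ite | with_reducible apply IntF.the | with_reducible apply IntF.irec | with_reducible apply IntF.succ | with_reducible apply IntF.val | with_reducible apply IntF.mk | (with_reducible refine Int.comp ?_ ?_; assumption) | (with_reducible refine Int.comp₂ ?_ ?_ ?_; assumption) | (with_reducible refine Int.comp₃ ?_ ?_ ?_ ?_; assumption) | (with_reducible refine Int.comp₄ ?_ ?_ ?_ ?_ ?_; assumption) | (with_reducible refine IntF.comp ?_ ?_; assumption) | (with_reducible refine IntF.comp₂ ?_ ?_ ?_; assumption) | (with_reducible refine IntF.comp₃ ?_ ?_ ?_ ?_; assumption)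 | with_reducible apply IntF.pair))
      refine hcase ⟨z, ⟨_, he⟩, hz, fun x hx => h3 (g x) (h1 x hx).1 (h1 x hx).2,
        fun x y hx hy hxy => h2 x y hx hy ?_⟩
      exact h4 _ _ (h1 x hx).1 (h1 x hx).2 (h1 y hy).1 (h1 y hy).2 hxy
  -- the canonical order
  obtain ⟨mx, hmx, hm1, hm2, hm3⟩ : ∃ mx : α × α → α, IntF N mx ∧
      (∀ q, mx q = q.1 ∨ mx q = q.2) ∧ (∀ q, ¬ lt (mx q) q.1) ∧ ∀ q, ¬ lt (mx q) q.2 := by
    refine ⟨fun q => if lt q.1 q.2 then q.2 else q.1, ?_, fun q => ?_, fun q => ?_, fun q => ?_⟩
    · exact IntF.ite hlt IntF.snd' IntF.fst'
    · dsimp only
      split_ifs with h1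
      · exact Or.inr rfl
      · exact Or.inl rfl
    · dsimp only
      split_ifs with h1
      · exact fun h2 => iwo_asymm h h1 h2
      · exact iwo_irrefl h _
    · dsimp only
      split_ifs with h1
      · exact iwo_irrefl h _
      · exact h1
  have hG := iwo_comap (iwo_prod h (iwo_prod h h)) (f := fun q : α × α => (mx q, q))
    (hmx.pair IntF.id) fun q q' hq => (Prod.mk.inj hq).2
  obtain ⟨G, hGd⟩ : ∃ G : α × α → α × α → Prop, G = fun a b : α × α =>
      lt (mx a) (mx b) ∨ (mx a = mx b ∧ (lt a.1 b.1 ∨ (a.1 = b.1 ∧ lt a.2 b.2))) := ⟨_, rfl⟩
  replace hG : IWO N (α × α) G := by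
    rw [hGd]
    exact hG
  have hGl : ∀ q q', lt (mx q) (mx q') → G q q' := fun q q' hq => by
    rw [hGd]
    exact Or.inl hq
  have hGi := hG.int
  have hGseg : ∀ q : α × α, A q.1 → A q.2 → ∃ z, A z ∧ ∀ q', ¬ G q q' →
      lt q'.1 z ∧ lt q'.2 z := by
    intro q hq hq'
    have h1 : A (mx q) := by
      rcases hm1 q with h1 | h1
      · rw [h1]
        exact hq
      · rw [h1]
        exact hq'
    obtain ⟨z, hz, hz'⟩ := hnomax _ h1
    refine ⟨z, hz, fun q' h2 => ?_⟩
    have h3 : ¬ lt (mx q) (mx q') := fun h3 => h2 (hGl _ _ h3)
    have h4 : lt (mx q') z := by
      rcases h.tri (mx q') (mx q) with h4 | h4 | h4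
      · exact iwo_trans h h4 hz'
      · rw [h4]
        exact hz'
      · exact absurd h4 h3
    have h5 : ∀ x, ¬ lt (mx q') x → lt x z := by
      intro x hx
      rcases h.tri x (mx q') with h6 | h6 | h6
      · exact iwo_trans h h6 h4
      · rw [h6]
        exact h4
      · exact absurd h6 hx
    exact ⟨h5 _ (hm2 q'), h5 _ (hm3 q')⟩
  by_cases hne : ∃ a, A a
  swap
  · exact Or.inl (IFin.empty.subset fun x hx => absurd ⟨x, (mem_sep hA).1 hx⟩ hne)
  obtain ⟨a₀, ha₀⟩ := hne
  obtain ⟨ρ, hρ, h1⟩ := exists_comp hG h (ι := INat N) (T := fun _ q => A q.1 ∧ A q.2)
    (by (repeat' (first | with_reducible exact IntF.id | with_reducible exact IntF.fst' | with_reducible exact IntF.snd' | with_reducible exact IntF.const _ | with_reducible exact Int.const _ | assumption | with_reducible apply Int.and | with_reducible apply Int.or | with_reducible apply Int.not | with_reducible apply Int.imp | with_reducible apply Int.iff | with_reducible apply Int.ne | with_reducible apply Int.eq | with_reducible apply Int.mem | with_reducible apply Int.subset | with_reducible apply Int.ltN | with_reducible apply Int.leN | with_reducible_and_instances apply Int.le | with_reducible_and_instances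 apply Int.lt | with_reducible apply Int.all | with_reducible apply Int.ex | with_reducible apply IntF.fst | with_reducible apply IntF.snd | with_reducible apply IntF.app | with_reducible apply IntF.inl | with_reducible apply IntF.inr | with_reducible_and_instances apply IntF.mul | with_reducible_and_instances apply IntF.inv | with_reducible_and_instances apply IntF.add | with_reducible_and_instances apply IntF.sub | with_reducible_and_instances apply IntF.neg | with_reducible_and_instances apply IntF.smul | with_reducible apply Int.fin | with_reducible apply IntF.sep | with_reducible apply IntF.lam | with_reducible apply IntF.insert | with_reducible apply IntF.singleton | with_reducible apply IntF.union | with_reducible apply IntF.iimage | with_reducible apply IntF.ite | with_reducible apply IntF.the | with_reducible apply IntF.irec | with_reducible apply IntF.succ | with_reducible apply IntF.val | with_reducible apply IntF.mk | (with_reducible refine Int.comp ?_ ?_; assumption) | (with_reducible refine Int.comp₂ ?_ ?_ ?_; assumption) | (with_reducible refine Int.comp₃ ?_ ?_ ?_ ?_; assumption) | (with_reducible refine Int.comp₄ ?_ ?_ ?_ ?_ ?_; assumption)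 | (with_reducible refine IntF.comp ?_ ?_; assumption) | (with_reducible refine IntF.comp₂ ?_ ?_ ?_; assumption) | (with_reducible refine IntF.comp₃ ?_ ?_ ?_ ?_; assumption) | with_reducible apply IntF.pair))) a₀
  have hρ0 : IntF N (fun q : α × α => ρ 0 q) :=
    IntF.comp₂ (p := fun i q => ρ i q) hρ (IntF.const 0) IntF.id
  rcases h1 0 with ⟨h2, h3⟩ | ⟨c, hc, g, hg, h2, h3⟩
  · by_cases him : ∀ q : α × α, A q.1 → A q.2 → A (ρ 0 q)
    · refine Or.inr ⟨⟨_, hρ0⟩, fun q hq hq' => him q hq hq', fun q q' h5 h6 h7 h8 h9 => ?_⟩
      change ρ 0 q = ρ 0 q' at h9
      rcases hG.tri q q' with h10 | h10 | h10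
      · exact absurd (h9 ▸ h2 q q' ⟨h5, h6⟩ ⟨h7, h8⟩ h10) (iwo_irrefl h _)
      · exact h10
      · exact absurd (h9 ▸ h2 q' q ⟨h7, h8⟩ ⟨h5, h6⟩ h10) (iwo_irrefl h _)
    · exfalso
      push Not at him
      obtain ⟨q, hq, hq', h4⟩ := him
      obtain ⟨z, hz, h5⟩ := hGseg q hq hq'
      have h6 : ∀ x, A x → ∃ d : α × α, (A d.1 ∧ A d.2) ∧ ρ 0 d = x ∧ ¬ G q d := by
        intro x hx
        obtain ⟨d, h7, h8, h9⟩ := h3 q x ⟨hq, hq'⟩ fun h7 => h4 (hdn x _ hx h7)
        exact ⟨d, h7, h8, h9⟩
      obtain ⟨g, hg, h7⟩ := exists_lf hG (γ := α) (r := fun x d => (A d.1 ∧ A d.2) ∧
        ρ 0 d = x ∧ ¬ G q d) (by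
          refine Int.and (by (repeat' (first | with_reducible exact IntF.id | with_reducible exact IntF.fst' | with_reducible exact IntF.snd' | with_reducible exact IntF.const _ | with_reducible exact Int.const _ | assumption | with_reducible apply Int.and | with_reducible apply Int.or | with_reducible apply Int.not | with_reducible apply Int.imp | with_reducible apply Int.iff | with_reducible apply Int.ne | with_reducible apply Int.eq | with_reducible apply Int.mem | with_reducible apply Int.subset | with_reducible apply Int.ltN | with_reducible apply Int.leN | with_reducible_and_instances apply Int.le | with_reducible_and_instances apply Int.lt | with_reducible apply Int.all | with_reducible apply Int.ex | with_reducible apply IntF.fst | with_reducible apply IntF.snd | with_reducible apply IntF.app | with_reducible apply IntF.inl | with_reducible apply IntF.inr | with_reducible_and_instances apply IntF.mul | with_reducible_and_instances apply IntF.inv | with_reducible_and_instances apply IntF.add | with_reducible_and_instances apply IntF.sub | with_reducible_and_instances apply IntF.neg | with_reducible_and_instances apply IntF.smul | with_reducible apply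 Int.fin | with_reducible apply IntF.sep | with_reducible apply IntF.lam | with_reducible apply IntF.insert | with_reducible apply IntF.singleton | with_reducible apply IntF.union | with_reducible apply IntF.iimage | with_reducible apply IntF.ite | with_reducible apply IntF.the | with_reducible apply IntF.irec | with_reducible apply IntF.succ | with_reducible apply IntF.val | with_reducible apply IntF.mk | (with_reducible refine Int.comp ?_ ?_; assumption) | (with_reducible refine Int.comp₂ ?_ ?_ ?_; assumption) | (with_reducible refine Int.comp₃ ?_ ?_ ?_ ?_; assumption) | (with_reducible refine Int.comp₄ ?_ ?_ ?_ ?_ ?_; assumption) | (with_reducible refine IntF.comp ?_ ?_; assumption) | (with_reducible refine IntF.comp₂ ?_ ?_ ?_; assumption) | (with_reducible refine IntF.comp₃ ?_ ?_ ?_ ?_; assumption) | with_reducible apply IntF.pair))) (Int.and (Int.eq (hρ0.comp IntF.snd') IntF.fst') ?_)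
          (repeat' (first | with_reducible exact IntF.id | with_reducible exact IntF.fst' | with_reducible exact IntF.snd' | with_reducible exact IntF.const _ | with_reducible exact Int.const _ | assumption | with_reducible apply Int.and | with_reducible apply Int.or | with_reducible apply Int.not | with_reducible apply Int.imp | with_reducible apply Int.iff | with_reducible apply Int.ne | with_reducible apply Int.eq | with_reducible apply Int.mem | with_reducible apply Int.subset | with_reducible apply Int.ltN | with_reducible apply Int.leN | with_reducible_and_instances apply Int.le | with_reducible_and_instances apply Int.lt | with_reducible apply Int.all | with_reducible apply Int.ex | with_reducible apply IntF.fst | with_reducible apply IntF.snd | with_reducible apply IntF.app | with_reducible apply IntF.inl | with_reducible apply IntF.inr | with_reducible_and_instances apply IntF.mul | with_reducible_and_instances apply IntF.inv | with_reducible_and_instances apply IntF.add | with_reducible_and_instances apply IntF.sub | with_reducible_and_instances apply IntF.neg | with_reducible_and_instances apply IntF.smul | with_reducible apply Int.fin | with_reducible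 apply IntF.sep | with_reducible apply IntF.lam | with_reducible apply IntF.insert | with_reducible apply IntF.singleton | with_reducible apply IntF.union | with_reducible apply IntF.iimage | with_reducible apply IntF.ite | with_reducible apply IntF.the | with_reducible apply IntF.irec | with_reducible apply IntF.succ | with_reducible apply IntF.val | with_reducible apply IntF.mk | (with_reducible refine Int.comp ?_ ?_; assumption) | (with_reducible refine Int.comp₂ ?_ ?_ ?_; assumption) | (with_reducible refine Int.comp₃ ?_ ?_ ?_ ?_; assumption) | (with_reducible refine Int.comp₄ ?_ ?_ ?_ ?_ ?_; assumption) | (with_reducible refine IntF.comp ?_ ?_; assumption) | (with_reducible refine IntF.comp₂ ?_ ?_ ?_; assumption) | (with_reducible refine IntF.comp₃ ?_ ?_ ?_ ?_; assumption) | with_reducible apply IntF.pair))) (a₀, a₀)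
      refine hkill z hz g hg (fun x hx => h5 _ (h7 x (h6 x hx)).1.2.2) fun x y hx hy hxy => ?_
      rw [← (h7 x (h6 x hx)).1.2.1, ← (h7 y (h6 y hy)).1.2.1, hxy]
  · exfalso
    obtain ⟨z, hz, h5⟩ := hGseg c hc.1 hc.2
    exact hkill z hz g hg (fun x hx => h5 _ fun h6 => iwo_asymm hG (h3 x).2 h6)
      fun x y hx hy hxy => h2 hxy

omit [ITy N β] in
include h in
theorem sq_seg (a : α) : SqP (N := N) (fun x => lt x a) := by
  have hlt := h.int
  refine iwo_ind h (p := fun a => SqP (N := N) (fun x => lt x a)) ?_ ?_ a
  · unfold SqP
    (repeat' (first | with_reducible exact IntF.id | with_reducible exact IntF.fst' | with_reducible exact IntF.snd' | with_reducible exact IntF.const _ | with_reducible exact Int.const _ | assumption | with_reducible apply Int.and | with_reducible apply Int.or | with_reducible apply Int.not | with_reducible apply Int.imp | with_reducible apply Int.iff | with_reducible apply Int.ne | with_reducible apply Int.eq | with_reducible apply Int.mem | with_reducible apply Int.subset | with_reducible apply Int.ltN | with_reducible apply Int.leN | with_reducible_and_instances apply Int.le | with_reducible_and_instances apply Int.lt | with_reducible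 apply Int.all | with_reducible apply Int.ex | with_reducible apply IntF.fst | with_reducible apply IntF.snd | with_reducible apply IntF.app | with_reducible apply IntF.inl | with_reducible apply IntF.inr | with_reducible_and_instances apply IntF.mul | with_reducible_and_instances apply IntF.inv | with_reducible_and_instances apply IntF.add | with_reducible_and_instances apply IntF.sub | with_reducible_and_instances apply IntF.neg | with_reducible_and_instances apply IntF.smul | with_reducible apply Int.fin | with_reducible apply IntF.sep | with_reducible apply IntF.lam | with_reducible apply IntF.insert | with_reducible apply IntF.singleton | with_reducible apply IntF.union | with_reducible apply IntF.iimage | with_reducible apply IntF.ite | with_reducible apply IntF.the | with_reducible apply IntF.irec | with_reducible apply IntF.succ | with_reducible apply IntF.val | with_reducible apply IntF.mk | (with_reducible refine Int.comp ?_ ?_; assumption) | (with_reducible refine Int.comp₂ ?_ ?_ ?_; assumption) | (with_reducible refine Int.comp₃ ?_ ?_ ?_ ?_; assumption) | (with_reducible refine Int.comp₄ ?_ ?_ ?_ ?_ ?_; assumption) | (with_reducible refine IntF.comp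 ?_ ?_; assumption) | (with_reducible refine IntF.comp₂ ?_ ?_ ?_; assumption) | (with_reducible refine IntF.comp₃ ?_ ?_ ?_ ?_; assumption) | with_reducible apply IntF.pair))
  · intro a ih
    exact hess_step h (by (repeat' (first | with_reducible exact IntF.id | with_reducible exact IntF.fst' | with_reducible exact IntF.snd' | with_reducible exact IntF.const _ | with_reducible exact Int.const _ | assumption | with_reducible apply Int.and | with_reducible apply Int.or | with_reducible apply Int.not | with_reducible apply Int.imp | with_reducible apply Int.iff | with_reducible apply Int.ne | with_reducible apply Int.eq | with_reducible apply Int.mem | with_reducible apply Int.subset | with_reducible apply Int.ltN | with_reducible apply Int.leN | with_reducible_and_instances apply Int.le | with_reducible_and_instances apply Int.lt | with_reducible apply Int.all | with_reducible apply Int.ex | with_reducible apply IntF.fst | with_reducible apply IntF.snd | with_reducible apply IntF.app | with_reducible apply IntF.inl | with_reducible apply IntF.inr | with_reducible_and_instances apply IntF.mul | with_reducible_and_instances apply IntF.inv | with_reducible_and_instances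 apply IntF.add | with_reducible_and_instances apply IntF.sub | with_reducible_and_instances apply IntF.neg | with_reducible_and_instances apply IntF.smul | with_reducible apply Int.fin | with_reducible apply IntF.sep | with_reducible apply IntF.lam | with_reducible apply IntF.insert | with_reducible apply IntF.singleton | with_reducible apply IntF.union | with_reducible apply IntF.iimage | with_reducible apply IntF.ite | with_reducible apply IntF.the | with_reducible apply IntF.irec | with_reducible apply IntF.succ | with_reducible apply IntF.val | with_reducible apply IntF.mk | (with_reducible refine Int.comp ?_ ?_; assumption) | (with_reducible refine Int.comp₂ ?_ ?_ ?_; assumption) | (with_reducible refine Int.comp₃ ?_ ?_ ?_ ?_; assumption) | (with_reducible refine Int.comp₄ ?_ ?_ ?_ ?_ ?_; assumption) | (with_reducible refine IntF.comp ?_ ?_; assumption) | (with_reducible refine IntF.comp₂ ?_ ?_ ?_; assumption) | (with_reducible refine IntF.comp₃ ?_ ?_ ?_ ?_; assumption) | with_reducible apply IntF.pair))) (fun x y hx hy => iwo_trans h hy hx) ih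

omit [ITy N β] in
include h in
/-- The square of an infinite well-ordered type injects into it. -/
theorem exists_sq (hinf : ¬ IFin (sep N fun _ : α => True)) :
    ∃ e : α × α → α, IntF N e ∧ Function.Injective e := by
  rcases hess_step h (A := fun _ => True) (Int.const _) (fun _ _ _ _ => trivial)
    fun a _ => sq_seg h a with h1 | ⟨e, -, h2⟩
  · exact absurd h1 hinf
  · exact ⟨fun q => e q, e.int, fun q q' hq => h2 q q' trivial trivial trivial trivial hq⟩

end

end Pool.Agent.Helper672.ZFA.V246
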