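import Pool.Agent.V11246.OrdP
import Pool.Agent.V11246.Cmp
import Pool.Agent.H310R3.Real

/-!
# The forcing is narrow
-/

set_option maxHeartbeats 1000000
set_option linter.all false
set_option synthInstance.maxSize 2000

namespace Pool.Agent.Helper672.ZFA.V246

open FirstOrder FirstOrder.Language
open H635 (IWO)
open Pool.Agent.H310
open Pool.Agent.H310Cards
open Pool.Agent.V11246 (IsOrdinal IsSuccCard IsForcing Compat IsAntichain IsCC IsPHom IsRange
  UnifNarrow Narrow Narrow₂)
open Pool.Agent.Helper672.Plain (LSet)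
open Pool.Agent.H635Amen (ZF)
open Pool.Agent.H310NAS (IsWellOrder)

universe u

section

attribute [local instance] Helper672.Plain.toL

variable {N : Type u} [LSet.Structure N] [hZ : ZF N]

local instance instModelL4 : IsModel N := Helper672.Plain.isModel_toL

variable {γ : Type u} [ITy N γ]

theorem isInj_relc {R u : N} {H : El R → γ} (hH : IntF N H) (hi : Function.Injective H)
    (hu : ∀ a, Mem (code (H a)) u) :
    IsInj (relc N (fun (a : El R) (c : γ) => H a = c)) R u := by
  have hI : Int N (fun q : El R × γ => H q.1 = q.2) := hH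
  refine ⟨⟨?_, ?_⟩, ?_⟩
  · intro q hq
    obtain ⟨a, c, rfl, rfl⟩ := (mem_relc hI).1 hq
    exact ⟨a.1, code (H a), a.2, hu a, ordPair_iff.2 rfl⟩
  · intro x hx
    refine ⟨code (H ⟨x, hx⟩), (app_relc hI).2 ⟨⟨x, hx⟩, _, rfl, rfl, rfl⟩, fun y hy => ?_⟩
    obtain ⟨a, c, rfl, h1, rfl⟩ := (app_relc hI).1 hy
    have h2 : a = ⟨x, hx⟩ := Subtype.ext h1.symm
    rw [h2]
  · intro x x' y h1 h2
    obtain ⟨a, c, rfl, rfl, rfl⟩ := (app_relc hI).1 h1
    obtain ⟨a', c', h3, rfl, h4⟩ := (app_relc hI).1 h2
    rw [hi ((ITy.inj h4).trans h3.symm)]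

/-- The inclusion of sets. -/
def incE {a b : N} (h : ∀ x, Mem x a → Mem x b) (x : El a) : El b := ⟨x.1, h x.1 x.2⟩

theorem int_incE {a b : N} (h : ∀ x, Mem x a → Mem x b) : IntF N (incE h) :=
  IntF.of_D (S := fun v => v 0 = v 1) (D.eqf (DF.var _) (DF.var _))
    fun x y => ⟨fun h1 => Subtype.ext h1, fun h1 => congrArg Subtype.val h1⟩

theorem incE_inj {a b : N} (h : ∀ x, Mem x a → Mem x b) {x y : El a}
    (hxy : incE h x = incE h y) : x = y :=
  Subtype.ext (congrArg (fun z : El b => z.1) hxy)

variable {k : N} (h : OmK N k)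

/-- The minimal conditions of a partial homomorphism with uncountable range. -/
theorem OmK.no_range (h : OmK N k) {f : N}
    (hf : letI := h.lin; letI := h.ile;
      IsPHom (relc N (Qle (N := N) (K := El k))) (dom N (QK N (El k))) f)
    {R : N} {g : El k → El R} (hg : IntF N g) (hgi : Function.Injective g)
    (hg' : ∀ x, ∃ p, App f p (g x).1) : False := by
  letI := h.lin
  letI := h.ile
  have h1 := iwo_prod h.om1.iwo h.om1.iwo
  have h2 := iwo_fin (β := QK N (El k)) (f := fun p => p.1) h1 (IntF.val IntF.id)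
    Subtype.val_injective fun p => p.2.1
  have hI0 : Int N (fun q : El R × QK N (El k) => Mem (op (code q.2) (code q.1)) f) :=
    Int.of_D₂ (S := fun v => Mem (op (v 1) (v 0)) f)
      (D.memf (DF.op (DF.var _) (DF.var _)) (DF.const _)) fun _ _ => Iff.rfl
  have hI : Int N (fun q : El k × QK N (El k) => Mem (op (code q.2) (code (g q.1))) f) :=
    Int.comp₂ (p := fun (a : El R) (p : QK N (El k)) => Mem (op (code p) (code a)) f) hI0
      (hg.comp IntF.fst') IntF.snd'
  obtain ⟨π, hπ, h3⟩ := exists_lf h2 (γ := El k)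
    (r := fun x p => Mem (op (code p) (code (g x))) f) hI
    ⟨∅, IFin.empty, fun a d d' h => by simp at h, fun a d h => by simp at h⟩
  have h4 : ∀ x, App f (code (π x)) (g x).1 := by
    intro x
    obtain ⟨p, hp⟩ := hg' x
    obtain ⟨q, h5, h6⟩ := hp
    obtain ⟨p', a, h7, h8, h9⟩ := hf.pairs q h6
    obtain ⟨rfl, rfl⟩ := op_inj ((ordPair_iff.1 h5).symm.trans (ordPair_iff.1 h9))
    obtain ⟨p, rfl⟩ := mem_domP.1 h7
    exact app_iff.2 (h3 x ⟨p, app_iff.1 ⟨q, h5, h6⟩⟩).1
  refine h.om1.cc hπ fun x y hxy hc => hxy (hgi (Subtype.ext ?_))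
  exact hf.hom _ _ _ _ (h4 x) (h4 y) (compat_iff.2 hc)

include h in
theorem OmK.not_fin : ¬ FinP N (fun _ : El k => True) := by
  letI := h.lin
  letI := h.ile
  intro h1
  obtain ⟨y₀⟩ := h.ne
  obtain ⟨m, hm⟩ := IFin.exists_bound (r := fun (c : El k) (m : El k) => c < m) (by (repeat' (first | with_reducible exact IntF.id | with_reducible exact IntF.fst' | with_reducible exact IntF.snd' | with_reducible exact IntF.const _ | with_reducible exact Int.const _ | assumption | with_reducible apply Int.and | with_reducible apply Int.or | with_reducible apply Int.not | with_reducible apply Int.imp | with_reducible apply Int.iff | with_reducible apply Int.ne | with_reducible apply Int.eq | with_reducible apply Int.mem | with_reducible apply Int.subset | with_reducible apply Int.ltN | with_reducible apply Int.leN | with_reducible_and_instances apply Int.le | with_reducible_and_instances apply Int.lt | with_reducible apply Int.all | with_reducible apply Int.ex | with_reducible apply IntF.fst | with_reducible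 apply IntF.snd | with_reducible apply IntF.app | with_reducible apply IntF.inl | with_reducible apply IntF.inr | with_reducible_and_instances apply IntF.mul | with_reducible_and_instances apply IntF.inv | with_reducible_and_instances apply IntF.add | with_reducible_and_instances apply IntF.sub | with_reducible_and_instances apply IntF.neg | with_reducible_and_instances apply IntF.smul | with_reducible apply Int.fin | with_reducible apply IntF.sep | with_reducible apply IntF.lam | with_reducible apply IntF.insert | with_reducible apply IntF.singleton | with_reducible apply IntF.union | with_reducible apply IntF.iimage | with_reducible apply IntF.ite | with_reducible apply IntF.the | with_reducible apply IntF.irec | with_reducible apply IntF.succ | with_reducible apply IntF.val | with_reducible apply IntF.mk | (with_reducible refine Int.comp ?_ ?_; assumption) | (with_reducible refine Int.comp₂ ?_ ?_ ?_; assumption) | (with_reducible refine Int.comp₃ ?_ ?_ ?_ ?_; assumption) | (with_reducible refine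 Int.comp₄ ?_ ?_ ?_ ?_ ?_; assumption) | (with_reducible refine IntF.comp ?_ ?_; assumption) | (with_reducible refine IntF.comp₂ ?_ ?_ ?_; assumption) | (with_reducible refine IntF.comp₃ ?_ ?_ ?_ ?_; assumption) | with_reducible apply IntF.pair)))
      (fun b c => ⟨max b c, fun a ha => ha.elim (fun h => h.trans_le (le_max_left _ _))
        fun h => h.trans_le (le_max_right _ _)⟩) ⟨y₀⟩ (h1.fin (Int.const _))
        fun c _ => h.om1.nomax c
  exact lt_irrefl m (hm m ((mem_sep (Int.const _)).2 trivial))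

theorem OmK.narrow : letI := h.lin; letI := h.ile;
    Narrow (relc N (Qle (N := N) (K := El k))) (dom N (QK N (El k))) (dom N (INat N)) := by
  letI := h.lin
  letI := h.ile
  intro n hn m hm hmn F hF R hR u hu
  have hRo : ∀ a, Mem a R → IsOrdinal a := by
    intro a ha
    obtain ⟨i, f, p, hi, h1, h2⟩ := (hR a).1 ha
    obtain ⟨f', h3, h4, h5⟩ := hF i hi
    rw [h4 f h1] at h2
    obtain ⟨q, h6, h7⟩ := h2
    obtain ⟨p', a', h8, h9, h10⟩ := h5.pairs q h7
    obtain ⟨rfl, rfl⟩ := op_inj ((ordPair_iff.1 h6).symm.trans (ordPair_iff.1 h10))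
    exact h9
  have hα := iwo_El hRo
  have hμ := iwo_El (R := m) fun x hx => isOrdinal_of_mem hm hx
  have hT : Int N (fun q : El m × El R => ∃ f p, Mem (op (code q.1) f) F ∧
      Mem (op p (code q.2)) f) :=
    Int.of_D₂ (S := fun v => ∃ f p, Mem (op (v 0) f) F ∧ Mem (op p (v 1)) f)
      (D.ex (D.ex (D.and (D.memf (DF.op (DF.var _) (DF.var _)) (DF.const _))
        (D.memf (DF.op (DF.var _) (DF.var _)) (DF.var _))))) fun _ _ => Iff.rfl
  obtain ⟨y₀⟩ := h.ne
  obtain ⟨ρ, hρ, h1⟩ := exists_rank hα h.iwo (T := fun (i : El m) (a : El R) =>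
    ∃ f p, Mem (op (code i) f) F ∧ Mem (op p (code a)) f) hT y₀ (by
      rintro i ⟨g, hg, hgi, h2⟩
      obtain ⟨f', h3, h4, h5⟩ := hF i.1 i.2
      refine h.no_range h5 hg hgi fun x => ?_
      obtain ⟨f, p, h6, h7⟩ := h2 x
      obtain rfl := h4 f (app_iff.2 h6)
      exact ⟨p, app_iff.2 h7⟩)
  -- the index
  by_cases hRn : ∃ a, Mem a R
  swap
  · exact ⟨_, isInj_relc (H := fun _ : El R => (0 : INat N)) (IntF.const _)
      (fun a => absurd ⟨a.1, a.2⟩ hRn) fun a => absurd ⟨a.1, a.2⟩ hRn⟩
  obtain ⟨a₀, ha₀⟩ := hRn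
  obtain ⟨i₀, -, -, hi₀, -, -⟩ := (hR a₀).1 ha₀
  obtain ⟨σ, hσ, h2⟩ := exists_lf hμ (γ := El R) (r := fun (a : El R) (i : El m) =>
    ∃ f p, Mem (op (code i) f) F ∧ Mem (op p (code a)) f) (Int.comp₂ (p := fun (i : El m)
      (a : El R) => ∃ f p, Mem (op (code i) f) F ∧ Mem (op p (code a)) f) hT IntF.snd'
        IntF.fst') ⟨i₀, hi₀⟩
  have h3 : ∀ a : El R, ∃ f p, Mem (op (code (σ a)) f) F ∧ Mem (op p (code a)) f := by
    intro a
    obtain ⟨i, f, p, hi, h4, h5⟩ := (hR a.1).1 a.2
    exact (h2 a ⟨⟨i, hi⟩, f, p, app_iff.1 h4, app_iff.1 h5⟩).1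
  by_cases hmk : Mem m k
  · -- a countable sequence
    have hinc : ∀ x, Mem x m → Mem x k := fun x hx => h.ord.1 m hmk x hx
    obtain ⟨j, hj, h4⟩ := h.cnt ⟨m, hmk⟩
    have hj' : IntF N (fun i : El m => j (incE hinc i)) := hj.comp (int_incE hinc)
    have hji : ∀ i i' : El m, j (incE hinc i) = j (incE hinc i') → i = i' := fun i i' h5 =>
      incE_inj hinc (h4 (incE hinc i) (incE hinc i') i.2 i'.2 h5)
    have hkI := h.iwo.int
    have hbI : Int N (fun q : INat N × El k => ∀ i : El m, j (incE hinc i) = q.1 →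
        ∀ a : El R, (∃ f p, Mem (op (code i) f) F ∧ Mem (op p (code a)) f) →
          Mem (ρ i a).1 q.2.1) := by
      refine Int.all (Int.imp (Int.eq (hj'.comp IntF.snd') (IntF.fst IntF.fst')) (Int.all
        (Int.imp ?_ ?_)))
      · exact Int.comp₂ (p := fun (i : El m) (a : El R) => ∃ f p, Mem (op (code i) f) F ∧
          Mem (op p (code a)) f) hT (IntF.snd IntF.fst') IntF.snd'
      · exact Int.comp₂ (p := fun x y : El k => Mem x.1 y.1) hkI
          (IntF.comp₂ (p := fun i a => ρ i a) hρ (IntF.snd IntF.fst') IntF.snd')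
          (IntF.snd (IntF.fst IntF.fst'))
    obtain ⟨b, hb, h5⟩ := exists_lf h.iwo (γ := INat N) (r := fun n b => ∀ i : El m,
      j (incE hinc i) = n → ∀ a : El R, (∃ f p, Mem (op (code i) f) F ∧
        Mem (op p (code a)) f) → Mem (ρ i a).1 b.1) hbI y₀
    obtain ⟨b', hb'⟩ := h.bdd b hb
    have h6 : ∀ (i : El m) (a : El R), (∃ f p, Mem (op (code i) f) F ∧
        Mem (op p (code a)) f) → Mem (ρ i a).1 b'.1 := by
      intro i a hia
      have h7 := (h5 (j (incE hinc i)) (by
        obtain ⟨c, hc⟩ := (h1 i).2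
        refine ⟨c, fun i' hi' a' ha' => ?_⟩
        obtain rfl := hji i' i hi'
        exact hc a' ha')).1 i rfl a hia
      exact iwo_trans h.iwo h7 (hb' _)
    obtain ⟨e, he, h7⟩ := h.cnt b'
    have hH : IntF N (fun a : El R => pr (j (incE hinc (σ a))) (e (ρ (σ a) a))) := by
      refine IntF.comp₂ (p := fun m n => pr m n) int_pr (hj'.comp hσ) (he.comp ?_)
      exact IntF.comp₂ (p := fun i a => ρ i a) hρ hσ IntF.id
    refine ⟨_, isInj_relc hH (fun a a' haa => ?_) fun a => ?_⟩
    · obtain ⟨h8, h9⟩ := pr_inj haa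
      have h10 := hji _ _ h8
      have h11 := h7 _ _ (h6 _ _ (h3 a)) (h6 _ _ (h3 a')) h9
      rw [← h10] at h11
      exact (h1 (σ a)).1 a a' (h3 a) (by rw [h10]; exact h3 a') h11
    · exact (hu _).2 (Or.inl (code_mem_domP _))
  · -- a long sequence
    have hinc : ∀ x, Mem x k → Mem x m := by
      rcases ord_tri hm h.ord with h4 | h4 | h4
      · exact absurd h4 hmk
      · intro x hx
        rw [h4]
        exact hx
      · exact fun x hx => hm.1 k h4 x hx
    have hinf : ¬ IFin (sep N fun _ : El m => True) := by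
      intro h4
      refine h.not_fin (FinP.of_inj (Int.const _) (int_incE hinc) (fun x y _ _ hxy => ?_)
        ((finP_iff (Int.const _)).2 h4) fun _ _ => trivial)
      exact incE_inj hinc hxy
    obtain ⟨s, hs, hsi⟩ := exists_sq hμ hinf
    have hH : IntF N (fun a : El R => s (σ a, incE hinc (ρ (σ a) a))) := by
      refine hs.comp (hσ.pair ((int_incE hinc).comp ?_))
      exact IntF.comp₂ (p := fun i a => ρ i a) hρ hσ IntF.id
    refine ⟨_, isInj_relc hH (fun a a' haa => ?_) fun a => ?_⟩
    · obtain ⟨h8, h9⟩ := Prod.mk.inj (hsi haa)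
      have h10 : ρ (σ a) a = ρ (σ a') a' := incE_inj hinc h9
      rw [← h8] at h10
      exact (h1 (σ a)).1 a a' (h3 a) (by rw [h8]; exact h3 a') h10
    · exact (hu _).2 (Or.inr (s (σ a, incE hinc (ρ (σ a) a))).2)

theorem OmK.final₂ (h : OmK N k) : ∃ θ P r : N, IsOmega θ ∧ IsForcing r P ∧ Narrow r P θ ∧
    ¬ UnifNarrow r P θ := by
  letI := h.lin
  letI := h.ile
  exact ⟨dom N (INat N), dom N (QK N (El k)), relc N (Qle (N := N) (K := El k)), isOmega_dom,
    isForcing_Q, h.narrow, h.not_unif⟩

end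

end Pool.Agent.Helper672.ZFA.V246
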