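import Mathlib

set_option autoImplicit false
set_option linter.unusedSectionVars false
set_option linter.unusedVariables false

namespace Pool.Agent.V11246.MM

open MeasureTheory Set Filter Topology
open scoped ENNReal symmDiff

/-- times with gaps at least `N` -/
def Gap {k : ℕ} (N : ℕ) (n : Fin (k + 1) → ℕ) : Prop :=
  n 0 = 0 ∧ ∀ i : Fin k, n i.castSucc + N ≤ n i.succ

/-- mixing of all orders -/
def MMix {Z : Type*} [MeasurableSpace Z] (m : Measure Z) (S : Z → Z) : Prop :=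
  ∀ k : ℕ, 2 ≤ k → ∀ A : Fin (k + 1) → Set Z, (∀ i, MeasurableSet (A i)) → ∀ ε : ℝ, 0 < ε →
    ∃ N : ℕ, ∀ n : Fin (k + 1) → ℕ, Gap N n →
      |m.real (⋂ i, S^[n i] ⁻¹' (A i)) - ∏ i, m.real (A i)| < ε

theorem abs_prod_sub {ι : Type*} (s : Finset ι) (a b : ι → ℝ) (ha : ∀ i, 0 ≤ a i ∧ a i ≤ 1)
    (hb : ∀ i, 0 ≤ b i ∧ b i ≤ 1) :
    |∏ i ∈ s, a i - ∏ i ∈ s, b i| ≤ ∑ i ∈ s, |a i - b i| := by
  classical
  induction s using Finset.induction_on with
  | empty => simp
  | insert j s hj ih =>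
    rw [Finset.prod_insert hj, Finset.prod_insert hj, Finset.sum_insert hj]
    have h1 : 0 ≤ ∏ i ∈ s, a i := Finset.prod_nonneg fun i _ => (ha i).1
    have h2 : ∏ i ∈ s, a i ≤ 1 := Finset.prod_le_one (fun i _ => (ha i).1) (fun i _ => (ha i).2)
    have e : a j * ∏ i ∈ s, a i - b j * ∏ i ∈ s, b i =
        (a j - b j) * ∏ i ∈ s, a i + b j * (∏ i ∈ s, a i - ∏ i ∈ s, b i) := by ring
    rw [e]
    refine (abs_add_le _ _).trans ?_
    rw [abs_mul, abs_mul, abs_of_nonneg h1, abs_of_nonneg (hb j).1]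
    have h3 := abs_nonneg (a j - b j)
    have h4 := abs_nonneg (∏ i ∈ s, a i - ∏ i ∈ s, b i)
    have h5 := (hb j).2
    have h6 := (hb j).1
    nlinarith

section
variable {Z : Type*} [MeasurableSpace Z] {m : Measure Z} [IsProbabilityMeasure m]

theorem intg (f : Z → ℝ) (hf : Measurable f) (C : ℝ) (hC : ∀ z, |f z| ≤ C) : Integrable f m :=
  Integrable.of_bound hf.aestronglyMeasurable C (Eventually.of_forall hC)

theorem int_comp {Z' : Type*} [MeasurableSpace Z'] {m' : Measure Z'} {f : Z → Z'}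
    (hf : MeasurePreserving f m m') (g : Z' → ℝ) (hg : Measurable g) :
    ∫ z, g (f z) ∂m = ∫ z, g z ∂m' := by
  rw [← hf.map_eq, integral_map hf.measurable.aemeasurable hg.aestronglyMeasurable]

theorem second_moment {L : ℕ} (hL : 0 < L) (f : Fin L → Z → ℝ) (hf : ∀ l, Measurable (f l))
    (h01 : ∀ l z, 0 ≤ f l z ∧ f l z ≤ 1) (c η : ℝ) (hc : 0 ≤ c ∧ c ≤ 1) (hη : 0 ≤ η)
    (h1 : ∀ l, |∫ z, f l z ∂m - c| ≤ η)
    (h2 : ∀ l l', l ≠ l' → |∫ z, f l z * f l' z ∂m - c ^ 2| ≤ η) (δ : ℝ) (hδ : 0 < δ)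
    (hsm : 1 / (L : ℝ) + 3 * η < δ ^ 2) :
    ∫ z, |(∑ l, f l z) / L - c| ∂m < δ := by
  have hLr : (0 : ℝ) < L := by exact_mod_cast hL
  have hFm : Measurable (fun z => (∑ l, f l z) / (L : ℝ) - c) :=
    ((Finset.measurable_sum _ fun l _ => hf l).div_const _).sub_const _
  have hSb : ∀ z, 0 ≤ (∑ l, f l z) / (L : ℝ) ∧ (∑ l, f l z) / (L : ℝ) ≤ 1 := by
    intro z
    constructor
    · exact div_nonneg (Finset.sum_nonneg fun l _ => (h01 l z).1) hLr.le
    · rw [div_le_one hLr]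
      calc ∑ l, f l z ≤ ∑ _l : Fin L, (1 : ℝ) := Finset.sum_le_sum fun l _ => (h01 l z).2
        _ = L := by simp
  have hFb : ∀ z, |(∑ l, f l z) / (L : ℝ) - c| ≤ 1 := by
    intro z
    rw [abs_le]
    have := hSb z
    constructor <;> linarith [hc.1, hc.2]
  -- the second moment
  have hff : ∀ l l', Integrable (fun z => f l z * f l' z) m := by
    intro l l'
    refine intg _ ((hf l).mul (hf l')) 1 (fun z => ?_)
    rw [abs_mul, abs_of_nonneg (h01 l z).1, abs_of_nonneg (h01 l' z).1]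
    exact mul_le_one₀ (h01 l z).2 (h01 l' z).1 (h01 l' z).2
  have hf1 : ∀ l, Integrable (f l) m := by
    intro l
    refine intg _ (hf l) 1 (fun z => ?_)
    rw [abs_of_nonneg (h01 l z).1]
    exact (h01 l z).2
  have e1 : ∀ z, ((∑ l, f l z) / (L : ℝ) - c) ^ 2 =
      (1 / (L : ℝ) ^ 2) * (∑ l, ∑ l', f l z * f l' z) - (2 * c / L) * (∑ l, f l z) + c ^ 2 := by
    intro z
    rw [← Finset.sum_mul_sum]
    field_simp
    ring
  have e2 : ∫ z, ((∑ l, f l z) / (L : ℝ) - c) ^ 2 ∂m =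
      (1 / (L : ℝ) ^ 2) * (∑ l, ∑ l', ∫ z, f l z * f l' z ∂m) -
        (2 * c / L) * (∑ l, ∫ z, f l z ∂m) + c ^ 2 := by
    simp_rw [e1]
    rw [integral_add, integral_sub, integral_const_mul, integral_const_mul, integral_const,
      integral_finsetSum _ (fun l _ => hf1 l),
      integral_finsetSum _ (fun l _ => integrable_finsetSum _ (fun l' _ => hff l l'))]
    · simp only [probReal_univ, one_smul]
      congr 3
      refine Finset.sum_congr rfl fun l _ => ?_
      rw [integral_finsetSum _ (fun l' _ => hff l l')]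
    · exact (integrable_finsetSum _ fun l _ => integrable_finsetSum _ fun l' _ => hff l l').const_mul _
    · exact (integrable_finsetSum _ fun l _ => hf1 l).const_mul _
    · exact ((integrable_finsetSum _ fun l _ => integrable_finsetSum _ fun l' _ => hff l l').const_mul _).sub
        ((integrable_finsetSum _ fun l _ => hf1 l).const_mul _)
    · exact integrable_const _
  have e3 : ∑ l, ∑ l', ∫ z, f l z * f l' z ∂m ≤ L + (L : ℝ) ^ 2 * (c ^ 2 + η) := by
    have h3 : ∀ l l' : Fin L, ∫ z, f l z * f l' z ∂m ≤ (if l = l' then 1 else 0) + (c ^ 2 + η) := by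
      intro l l'
      by_cases h : l = l'
      · rw [if_pos h]
        have h4 : ∫ z, f l z * f l' z ∂m ≤ ∫ _z, (1 : ℝ) ∂m := by
          refine integral_mono (hff l l') (integrable_const _) (fun z => ?_)
          exact mul_le_one₀ (h01 l z).2 (h01 l' z).1 (h01 l' z).2
        rw [integral_const] at h4
        simp only [probReal_univ, one_smul] at h4
        have := sq_nonneg c
        linarith
      · rw [if_neg h]
        have := (abs_le.1 (h2 l l' h)).2
        linarith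
    calc ∑ l, ∑ l', ∫ z, f l z * f l' z ∂m ≤
        ∑ l : Fin L, ∑ l' : Fin L, ((if l = l' then (1 : ℝ) else 0) + (c ^ 2 + η)) :=
          Finset.sum_le_sum fun l _ => Finset.sum_le_sum fun l' _ => h3 l l'
      _ = L + (L : ℝ) ^ 2 * (c ^ 2 + η) := by
        simp only [Finset.sum_add_distrib, Finset.sum_ite_eq, Finset.mem_univ, if_true,
          Finset.sum_const, Finset.card_univ, Fintype.card_fin, nsmul_eq_mul]
        ring
  have e4 : (L : ℝ) * (c - η) ≤ ∑ l, ∫ z, f l z ∂m := by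
    calc (L : ℝ) * (c - η) = ∑ _l : Fin L, (c - η) := by
          rw [Finset.sum_const, Finset.card_univ, Fintype.card_fin, nsmul_eq_mul]
      _ ≤ _ := Finset.sum_le_sum fun l _ => by
        have := (abs_le.1 (h1 l)).1
        linarith
  have e5 : ∫ z, ((∑ l, f l z) / (L : ℝ) - c) ^ 2 ∂m < δ ^ 2 := by
    rw [e2]
    refine lt_of_le_of_lt ?_ hsm
    have h5 : (1 / (L : ℝ) ^ 2) * (∑ l, ∑ l', ∫ z, f l z * f l' z ∂m) ≤
        (1 / (L : ℝ) ^ 2) * (L + (L : ℝ) ^ 2 * (c ^ 2 + η)) := by gcongr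
    have h6 : (2 * c / L) * ((L : ℝ) * (c - η)) ≤ (2 * c / L) * (∑ l, ∫ z, f l z ∂m) := by
      have : 0 ≤ 2 * c / (L : ℝ) := by
        have := hc.1
        positivity
      gcongr
    have h7 : (1 / (L : ℝ) ^ 2) * (L + (L : ℝ) ^ 2 * (c ^ 2 + η)) = 1 / L + (c ^ 2 + η) := by
      field_simp
    have h8 : (2 * c / L) * ((L : ℝ) * (c - η)) = 2 * c ^ 2 - 2 * c * η := by
      field_simp
    have h9 : c * η ≤ η := by
      have := hc.2
      nlinarith
    linarith
  have h10 : ∫ z, |(∑ l, f l z) / (L : ℝ) - c| ∂m ≤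
      ∫ z, (δ / 2 + ((∑ l, f l z) / (L : ℝ) - c) ^ 2 / (2 * δ)) ∂m := by
    refine integral_mono (intg _ hFm.abs 1 (fun z => by rw [abs_abs]; exact hFb z)) ?_ (fun z => ?_)
    · refine intg _ ((hFm.pow_const 2).div_const _ |>.const_add _) (δ / 2 + 1 / (2 * δ)) (fun z => ?_)
      rw [abs_of_nonneg (by positivity)]
      have : ((∑ l, f l z) / (L : ℝ) - c) ^ 2 ≤ 1 := by
        rw [sq_le_one_iff_abs_le_one]
        exact hFb z
      gcongr
    · show |(∑ l, f l z) / (L : ℝ) - c| ≤ _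
      set g := |(∑ l, f l z) / (L : ℝ) - c| with hg
      rw [← sq_abs, ← hg]
      have : 0 ≤ (g - δ) ^ 2 := sq_nonneg _
      rw [div_add_div _ _ (by norm_num) (by positivity), le_div_iff₀ (by positivity)]
      nlinarith
  refine lt_of_le_of_lt h10 ?_
  rw [integral_add (integrable_const _), integral_const, integral_div]
  · simp only [probReal_univ, one_smul]
    have : (∫ z, ((∑ l, f l z) / (L : ℝ) - c) ^ 2 ∂m) / (2 * δ) < δ ^ 2 / (2 * δ) := by gcongr
    have h11 : δ ^ 2 / (2 * δ) = δ / 2 := by field_simp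
    linarith
  · refine intg _ ((hFm.pow_const 2).div_const _) (1 / (2 * δ)) (fun z => ?_)
    rw [abs_of_nonneg (by positivity)]
    have : ((∑ l, f l z) / (L : ℝ) - c) ^ 2 ≤ 1 := by
      rw [sq_le_one_iff_abs_le_one]
      exact hFb z
    gcongr

end

end Pool.Agent.V11246.MM
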