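import Mathlib
import Pool.Agent.V11246.MMa

set_option autoImplicit false
set_option linter.unusedSectionVars false
set_option linter.unusedVariables false

namespace Pool.Agent.V11246.MM

open MeasureTheory Set Filter Topology
open scoped ENNReal symmDiff

section
variable {X : Type*} [MeasurableSpace X] {μ : Measure X} [IsProbabilityMeasure μ] {T : X → X}

theorem gap_two (N m : ℕ) (hm : N ≤ m) : Gap (k := 2) N ![0, m, m + N] := by
  refine ⟨rfl, fun i => ?_⟩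
  fin_cases i
  · show 0 + N ≤ m
    omega
  · show m + N ≤ m + N
    omega

theorem mix2 (hM : MMix μ T) (A B : Set X) (hA : MeasurableSet A) (hB : MeasurableSet B) (ε : ℝ)
    (hε : 0 < ε) : ∃ N : ℕ, ∀ m, N ≤ m → |μ.real (A ∩ T^[m] ⁻¹' B) - μ.real A * μ.real B| < ε := by
  obtain ⟨N, hN⟩ := hM 2 le_rfl ![A, B, univ] (by
    intro i
    fin_cases i
    · exact hA
    · exact hB
    · exact MeasurableSet.univ) ε hε
  refine ⟨N, fun m hm => ?_⟩
  have h1 := hN ![0, m, m + N] (gap_two N m hm)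
  have h2 : (⋂ i : Fin 3, T^[(![0, m, m + N] : Fin 3 → ℕ) i] ⁻¹' ((![A, B, univ] : Fin 3 → Set X) i)) =
      A ∩ T^[m] ⁻¹' B := by
    ext x
    simp [Fin.forall_fin_succ]
  rw [h2, Fin.prod_univ_three] at h1
  simpa using h1

theorem gap_mono {k : ℕ} {N N' : ℕ} (h : N' ≤ N) {n : Fin (k + 1) → ℕ} (hn : Gap N n) : Gap N' n :=
  ⟨hn.1, fun i => le_trans (by omega) (hn.2 i)⟩

/-- uniform choice over a finite type -/
theorem exists_unif {ι : Type*} [Finite ι] (P : ι → ℕ → Prop) (hP : ∀ i, ∃ N, ∀ N', N ≤ N' → P i N') :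
    ∃ N, ∀ i, P i N := by
  classical
  have := Fintype.ofFinite ι
  choose f hf using hP
  exact ⟨Finset.univ.sup f, fun i => hf i _ (Finset.le_sup (Finset.mem_univ i))⟩

theorem ergL (hT : MeasurePreserving T μ μ) (hM : MMix μ T) {W : Type} [Finite W] (P : W → Set X)
    (hP : ∀ w, MeasurableSet (P w)) (k : ℕ) (hk : 2 ≤ k) (δ : ℝ) (hδ : 0 < δ) :
    ∃ (L : ℕ) (t : Fin L → ℕ) (N : ℕ), 0 < L ∧ ∀ n : Fin (k + 1) → ℕ, Gap N n →
      ∀ w : Fin (k + 1) → W,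
        ∫ x, |(∑ l, ∏ j, (P (w j)).indicator (fun _ => (1 : ℝ)) (T^[t l] (T^[n j] x))) / L -
          ∏ j, μ.real (P (w j))| ∂μ < δ := by
  classical
  obtain ⟨η, hη⟩ : ∃ η : ℝ, η = δ ^ 2 / 12 := ⟨_, rfl⟩
  have hη0 : 0 < η := by rw [hη]; positivity
  obtain ⟨L, hL⟩ := exists_nat_gt (2 / δ ^ 2)
  have hLr : (0 : ℝ) < L := lt_trans (by positivity) hL
  have hL0 : 0 < L := by exact_mod_cast hLr
  have hsm : 1 / (L : ℝ) + 3 * η < δ ^ 2 := by
    have h1 : 1 / (L : ℝ) < δ ^ 2 / 2 := by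
      rw [div_lt_iff₀ (by positivity)] at hL
      rw [div_lt_div_iff₀ hLr (by norm_num)]
      linarith
    have h2 : 0 < δ ^ 2 := by positivity
    rw [hη]
    linarith
  -- the mixing time
  obtain ⟨M0, hM0⟩ : ∃ M0 : ℕ, ∀ w : W, ∀ m, M0 ≤ m →
      |μ.real (P w ∩ T^[m] ⁻¹' (P w)) - μ.real (P w) * μ.real (P w)| < η / (2 * (k + 1)) := by
    apply exists_unif (fun (w : W) (M0 : ℕ) => ∀ m, M0 ≤ m →
      |μ.real (P w ∩ T^[m] ⁻¹' (P w)) - μ.real (P w) * μ.real (P w)| < η / (2 * (k + 1)))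
    intro w
    obtain ⟨N, hN⟩ := mix2 hM (P w) (P w) (hP w) (hP w) (η / (2 * (k + 1))) (by positivity)
    exact ⟨N, fun N' h m hm => hN m (h.trans hm)⟩
  obtain ⟨t, ht⟩ : ∃ t : Fin L → ℕ, ∀ l, t l = (l : ℕ) * M0 := ⟨_, fun _ => rfl⟩
  -- the sets
  obtain ⟨N1, hN1⟩ : ∃ N : ℕ, ∀ q : Fin L × (Fin (k + 1) → W), ∀ n : Fin (k + 1) → ℕ, Gap N n →
      |μ.real (⋂ j, T^[n j] ⁻¹' (T^[t q.1] ⁻¹' (P (q.2 j)))) -
        ∏ j, μ.real (T^[t q.1] ⁻¹' (P (q.2 j)))| < η := by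
    apply exists_unif (fun (q : Fin L × (Fin (k + 1) → W)) (N : ℕ) => ∀ n : Fin (k + 1) → ℕ, Gap N n →
      |μ.real (⋂ j, T^[n j] ⁻¹' (T^[t q.1] ⁻¹' (P (q.2 j)))) -
        ∏ j, μ.real (T^[t q.1] ⁻¹' (P (q.2 j)))| < η)
    intro q
    obtain ⟨N, hN⟩ := hM k hk (fun j => T^[t q.1] ⁻¹' (P (q.2 j)))
      (fun j => (hT.measurable.iterate _) (hP _)) η hη0
    exact ⟨N, fun N' h n hn => hN n (gap_mono h hn)⟩
  obtain ⟨N2, hN2⟩ : ∃ N : ℕ, ∀ q : Fin L × Fin L × (Fin (k + 1) → W), ∀ n : Fin (k + 1) → ℕ, Gap N n →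
      |μ.real (⋂ j, T^[n j] ⁻¹' (T^[t q.1] ⁻¹' (P (q.2.2 j)) ∩ T^[t q.2.1] ⁻¹' (P (q.2.2 j)))) -
        ∏ j, μ.real (T^[t q.1] ⁻¹' (P (q.2.2 j)) ∩ T^[t q.2.1] ⁻¹' (P (q.2.2 j)))| < η / 2 := by
    apply exists_unif (fun (q : Fin L × Fin L × (Fin (k + 1) → W)) (N : ℕ) =>
      ∀ n : Fin (k + 1) → ℕ, Gap N n →
      |μ.real (⋂ j, T^[n j] ⁻¹' (T^[t q.1] ⁻¹' (P (q.2.2 j)) ∩ T^[t q.2.1] ⁻¹' (P (q.2.2 j)))) -
        ∏ j, μ.real (T^[t q.1] ⁻¹' (P (q.2.2 j)) ∩ T^[t q.2.1] ⁻¹' (P (q.2.2 j)))| < η / 2)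
    intro q
    obtain ⟨N, hN⟩ := hM k hk
      (fun j => T^[t q.1] ⁻¹' (P (q.2.2 j)) ∩ T^[t q.2.1] ⁻¹' (P (q.2.2 j)))
      (fun j => ((hT.measurable.iterate _) (hP _)).inter ((hT.measurable.iterate _) (hP _))) (η / 2)
      (by positivity)
    exact ⟨N, fun N' h n hn => hN n (gap_mono h hn)⟩
  -- invariance
  have hinv : ∀ (s : ℕ) (A : Set X), MeasurableSet A → μ.real (T^[s] ⁻¹' A) = μ.real A := by
    intro s A hA
    rw [measureReal_def, measureReal_def, (hT.iterate s).measure_preimage hA.nullMeasurableSet]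
  -- correlations at different times
  have hcorr : ∀ (l l' : Fin L) (w : W), l < l' →
      |μ.real (T^[t l] ⁻¹' (P w) ∩ T^[t l'] ⁻¹' (P w)) - μ.real (P w) * μ.real (P w)| <
        η / (2 * (k + 1)) := by
    intro l l' w hll
    have h1 : t l' = (t l' - t l) + t l := by
      have : t l ≤ t l' := by
        rw [ht, ht]
        exact Nat.mul_le_mul_right _ (le_of_lt hll)
      omega
    have h2 : T^[t l] ⁻¹' (P w) ∩ T^[t l'] ⁻¹' (P w) = T^[t l] ⁻¹' (P w ∩ T^[t l' - t l] ⁻¹' (P w)) := by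
      rw [preimage_inter]
      congr 1
      conv_lhs => rw [h1, Function.iterate_add]
      rfl
    rw [h2, hinv _ _ ((hP w).inter ((hT.measurable.iterate _) (hP w)))]
    apply hM0
    rw [ht, ht, ← Nat.sub_mul]
    have : 1 ≤ (l' : ℕ) - (l : ℕ) := by
      have : (l : ℕ) < l' := hll
      omega
    calc M0 = 1 * M0 := (one_mul _).symm
      _ ≤ _ := Nat.mul_le_mul_right _ this
  have hcorr' : ∀ (l l' : Fin L) (w : W), l ≠ l' →
      |μ.real (T^[t l] ⁻¹' (P w) ∩ T^[t l'] ⁻¹' (P w)) - μ.real (P w) * μ.real (P w)| <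
        η / (2 * (k + 1)) := by
    intro l l' w hll
    rcases lt_or_gt_of_ne hll with h | h
    · exact hcorr l l' w h
    · rw [inter_comm]
      exact hcorr l' l w h
  refine ⟨L, t, max N1 N2, hL0, fun n hn w => ?_⟩
  have hc01 : ∀ j, 0 ≤ μ.real (P (w j)) ∧ μ.real (P (w j)) ≤ 1 := fun j =>
    ⟨measureReal_nonneg, measureReal_le_one⟩
  -- the functions as indicators
  have hind : ∀ (l : Fin L) (x : X),
      ∏ j, (P (w j)).indicator (fun _ => (1 : ℝ)) (T^[t l] (T^[n j] x)) =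
      (⋂ j, T^[n j] ⁻¹' (T^[t l] ⁻¹' (P (w j)))).indicator (fun _ => (1 : ℝ)) x := by
    intro l x
    by_cases hx : x ∈ ⋂ j, T^[n j] ⁻¹' (T^[t l] ⁻¹' (P (w j)))
    · rw [indicator_of_mem hx]
      apply Finset.prod_eq_one
      intro j _
      exact indicator_of_mem (show T^[t l] (T^[n j] x) ∈ P (w j) from mem_iInter.1 hx j) _
    · rw [indicator_of_notMem hx]
      rw [mem_iInter, not_forall] at hx
      obtain ⟨j, hj⟩ := hx
      exact Finset.prod_eq_zero (Finset.mem_univ j)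
        (indicator_of_notMem (show T^[t l] (T^[n j] x) ∉ P (w j) from hj) _)
  have hmeas : ∀ l : Fin L, MeasurableSet (⋂ j, T^[n j] ⁻¹' (T^[t l] ⁻¹' (P (w j)))) := fun l =>
    MeasurableSet.iInter fun j => (hT.measurable.iterate _) ((hT.measurable.iterate _) (hP _))
  simp_rw [hind]
  apply second_moment hL0
    (fun l x => (⋂ j, T^[n j] ⁻¹' (T^[t l] ⁻¹' (P (w j)))).indicator (fun _ => (1 : ℝ)) x)
    _ _ _ η ⟨Finset.prod_nonneg fun j _ => (hc01 j).1,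
      Finset.prod_le_one (fun j _ => (hc01 j).1) (fun j _ => (hc01 j).2)⟩ hη0.le _ _ δ hδ hsm
  · intro l
    exact measurable_const.indicator (hmeas l)
  · intro l x
    exact ⟨indicator_nonneg (fun _ _ => zero_le_one) _, indicator_le_self' (fun _ _ => zero_le_one) _⟩
  · intro l
    show |∫ x, (⋂ j, T^[n j] ⁻¹' (T^[t l] ⁻¹' (P (w j)))).indicator (fun _ => (1 : ℝ)) x ∂μ - _| ≤ η
    rw [integral_indicator_const _ (hmeas l), smul_eq_mul, mul_one]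
    have h1 := hN1 (l, w) n (gap_mono (le_max_left _ _) hn)
    simp only at h1
    have h2 : ∏ j, μ.real (T^[t l] ⁻¹' (P (w j))) = ∏ j, μ.real (P (w j)) :=
      Finset.prod_congr rfl fun j _ => hinv _ _ (hP _)
    rw [h2] at h1
    exact h1.le
  · intro l l' hll
    have h0 : ∀ x, ((⋂ j, T^[n j] ⁻¹' (T^[t l] ⁻¹' (P (w j)))).indicator (fun _ => (1 : ℝ)) x) *
        ((⋂ j, T^[n j] ⁻¹' (T^[t l'] ⁻¹' (P (w j)))).indicator (fun _ => (1 : ℝ)) x) =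
        (⋂ j, T^[n j] ⁻¹' (T^[t l] ⁻¹' (P (w j)) ∩ T^[t l'] ⁻¹' (P (w j)))).indicator
          (fun _ => (1 : ℝ)) x := by
      intro x
      have e : (⋂ j, T^[n j] ⁻¹' (T^[t l] ⁻¹' (P (w j)) ∩ T^[t l'] ⁻¹' (P (w j)))) =
          (⋂ j, T^[n j] ⁻¹' (T^[t l] ⁻¹' (P (w j)))) ∩ (⋂ j, T^[n j] ⁻¹' (T^[t l'] ⁻¹' (P (w j)))) := by
        rw [← iInter_inter_distrib]
        rfl
      rw [e, ← inter_indicator_mul]
      simp
    simp_rw [h0]
    have hms : MeasurableSet (⋂ j, T^[n j] ⁻¹' (T^[t l] ⁻¹' (P (w j)) ∩ T^[t l'] ⁻¹' (P (w j)))) :=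
      MeasurableSet.iInter fun j => (hT.measurable.iterate _)
        (((hT.measurable.iterate _) (hP _)).inter ((hT.measurable.iterate _) (hP _)))
    rw [integral_indicator_const _ hms, smul_eq_mul, mul_one]
    have h1 := hN2 (l, l', w) n (gap_mono (le_max_right _ _) hn)
    simp only at h1
    have h2 := abs_prod_sub Finset.univ
      (fun j => μ.real (T^[t l] ⁻¹' (P (w j)) ∩ T^[t l'] ⁻¹' (P (w j))))
      (fun j => μ.real (P (w j)) * μ.real (P (w j)))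
      (fun j => ⟨measureReal_nonneg, measureReal_le_one⟩)
      (fun j => ⟨mul_nonneg (hc01 j).1 (hc01 j).1, mul_le_one₀ (hc01 j).2 (hc01 j).1 (hc01 j).2⟩)
    have h3 : ∑ j : Fin (k + 1), |μ.real (T^[t l] ⁻¹' (P (w j)) ∩ T^[t l'] ⁻¹' (P (w j))) -
        μ.real (P (w j)) * μ.real (P (w j))| ≤ η / 2 := by
      calc _ ≤ ∑ _j : Fin (k + 1), η / (2 * ((k : ℝ) + 1)) :=
            Finset.sum_le_sum fun j _ => (hcorr' l l' (w j) hll).le
        _ = η / 2 := by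
          rw [Finset.sum_const, Finset.card_univ, Fintype.card_fin, nsmul_eq_mul]
          push_cast
          field_simp
    rw [Finset.prod_mul_distrib, ← pow_two] at h2
    have h4 := abs_sub_le (μ.real (⋂ j, T^[n j] ⁻¹' (T^[t l] ⁻¹' (P (w j)) ∩ T^[t l'] ⁻¹' (P (w j)))))
      (∏ j, μ.real (T^[t l] ⁻¹' (P (w j)) ∩ T^[t l'] ⁻¹' (P (w j)))) ((∏ j, μ.real (P (w j))) ^ 2)
    linarith

end

end Pool.Agent.V11246.MM
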