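import Mathlib
import Pool.Agent.V11246.MMb

set_option autoImplicit false
set_option linter.unusedSectionVars false
set_option linter.unusedVariables false

namespace Pool.Agent.V11246.MM

open MeasureTheory Set Filter Topology
open scoped ENNReal symmDiff

theorem sum_fib {X : Type*} [MeasurableSpace X] {μ : Measure X} [IsProbabilityMeasure μ]
    {W : Type} [Fintype W] [MeasurableSpace W] [DiscreteMeasurableSpace W] (v : X → W)
    (hv : Measurable v) : ∑ w, μ.real (v ⁻¹' {w}) = 1 := by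
  classical
  have h1 : ∀ w, μ.real (v ⁻¹' {w}) = ∫ x, (v ⁻¹' {w}).indicator (fun _ => (1 : ℝ)) x ∂μ := by
    intro w
    rw [integral_indicator_const _ (hv (measurableSet_singleton w)), smul_eq_mul, mul_one]
  simp_rw [h1]
  rw [← integral_finsetSum]
  · have h2 : ∀ x, ∑ w, (v ⁻¹' {w}).indicator (fun _ => (1 : ℝ)) x = 1 := by
      intro x
      rw [Finset.sum_eq_single (v x)]
      · exact indicator_of_mem (show x ∈ v ⁻¹' {v x} from rfl) _
      · intro w _ hw
        exact indicator_of_notMem (show x ∉ v ⁻¹' {w} from fun h => hw (h : v x = w).symm) _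
      · intro h
        exact absurd (Finset.mem_univ _) h
    simp_rw [h2]
    simp
  · intro w _
    exact (integrable_const _).indicator (hv (measurableSet_singleton w))

theorem est {X Y : Type*} [MeasurableSpace X] [MeasurableSpace Y] {μ : Measure X} {ν : Measure Y}
    [IsProbabilityMeasure μ] [IsProbabilityMeasure ν] {T : X → X} (hT : Measurable T)
    {S : X × Y → X × Y} (hS : MeasurePreserving S (μ.prod ν) (μ.prod ν)) (hST : ∀ z, (S z).1 = T z.1)
    {Ψ : X × Y → X × Y} (hΨ : MeasurePreserving Ψ (μ.prod ν) (μ.prod ν))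
    {W : Type} [Fintype W] [MeasurableSpace W] [DiscreteMeasurableSpace W] (v : X → W)
    (hv : Measurable v) {k : ℕ} (e : Fin (k + 1) → W → Y → ℝ) (he : ∀ j w, Measurable (e j w))
    (he01 : ∀ j w y, 0 ≤ e j w y ∧ e j w y ≤ 1)
    (A : Fin (k + 1) → Set (X × Y)) (hA : ∀ j, MeasurableSet (A j)) {L : ℕ} (hL : 0 < L)
    (t : Fin L → ℕ) (n : Fin (k + 1) → ℕ) (δ₁ δ₂ δ₃ : ℝ)
    (ha : ∀ l j, ∫ z, |(A j).indicator (fun _ => (1 : ℝ)) (S^[t l] z) -
      e j (v (T^[t l] z.1)) (Ψ z).2| ∂(μ.prod ν) ≤ δ₁)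
    (hb : ∀ w : Fin (k + 1) → W, ∫ x, |(∑ l, ∏ j, (v ⁻¹' {w j}).indicator (fun _ => (1 : ℝ))
      (T^[t l] (T^[n j] x))) / L - ∏ j, μ.real (v ⁻¹' {w j})| ∂μ ≤ δ₂)
    (hc : ∀ j, ∫ y, |(∑ w, μ.real (v ⁻¹' {w}) * e j w y) - (μ.prod ν).real (A j)| ∂ν ≤ δ₃) :
    |(μ.prod ν).real (⋂ j, S^[n j] ⁻¹' (A j)) - ∏ j, (μ.prod ν).real (A j)| ≤
      (k + 1) * δ₁ + (Fintype.card (Fin (k + 1) → W)) * δ₂ + (k + 1) * δ₃ := by
  classical
  have hLr : (0 : ℝ) < L := by exact_mod_cast hL
  have hiter : ∀ (i : ℕ) (z : X × Y), (S^[i] z).1 = T^[i] z.1 := by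
    intro i
    induction i with
    | zero => intro z; rfl
    | succ i ih =>
      intro z
      rw [Function.iterate_succ_apply, Function.iterate_succ_apply, ih, hST]
  have hSi : ∀ i : ℕ, MeasurePreserving (S^[i]) (μ.prod ν) (μ.prod ν) := fun i => hS.iterate i
  have hSm : ∀ i : ℕ, Measurable (S^[i]) := fun i => (hSi i).measurable
  have hTm : ∀ i : ℕ, Measurable (T^[i]) := fun i => hT.iterate i
  have he' : ∀ j, Measurable (fun p : W × Y => e j p.1 p.2) := fun j =>
    measurable_from_prod_countable_right (fun w => he j w)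
  -- the functions
  obtain ⟨a, had⟩ : ∃ a : Fin L → Fin (k + 1) → X × Y → ℝ, ∀ l j z,
      a l j z = (A j).indicator (fun _ => (1 : ℝ)) (S^[t l] z) := ⟨_, fun _ _ _ => rfl⟩
  obtain ⟨b, hbd⟩ : ∃ b : Fin L → Fin (k + 1) → X × Y → ℝ, ∀ l j z,
      b l j z = e j (v (T^[t l] z.1)) (Ψ z).2 := ⟨_, fun _ _ _ => rfl⟩
  obtain ⟨y, hyd⟩ : ∃ y : Fin (k + 1) → X × Y → Y, ∀ j z, y j z = (Ψ (S^[n j] z)).2 :=
    ⟨_, fun _ _ => rfl⟩
  have ham : ∀ l j, Measurable (a l j) := by
    intro l j
    have : a l j = fun z => (A j).indicator (fun _ => (1 : ℝ)) (S^[t l] z) := funext (had l j)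
    rw [this]
    exact (measurable_const.indicator (hA j)).comp (hSm _)
  have hbm : ∀ l j, Measurable (b l j) := by
    intro l j
    have : b l j = fun z => e j (v (T^[t l] z.1)) (Ψ z).2 := funext (hbd l j)
    rw [this]
    exact (he' j).comp ((hv.comp ((hTm _).comp measurable_fst)).prodMk
      (measurable_snd.comp hΨ.measurable))
  have ha01 : ∀ l j z, 0 ≤ a l j z ∧ a l j z ≤ 1 := by
    intro l j z
    rw [had]
    exact ⟨indicator_nonneg (fun _ _ => zero_le_one) _, indicator_le_self' (fun _ _ => zero_le_one) _⟩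
  have hb01 : ∀ l j z, 0 ≤ b l j z ∧ b l j z ≤ 1 := by
    intro l j z
    rw [hbd]
    exact he01 _ _ _
  have habs : ∀ r s : ℝ, 0 ≤ r ∧ r ≤ 1 → 0 ≤ s ∧ s ≤ 1 → |r - s| ≤ 1 := by
    intro r s hr hs
    rw [abs_le]
    constructor <;> linarith [hr.1, hr.2, hs.1, hs.2]
  have hymp : ∀ j, MeasurePreserving (y j) (μ.prod ν) ν := by
    intro j
    have : y j = fun z => (Ψ (S^[n j] z)).2 := funext (hyd j)
    rw [this]
    exact measurePreserving_snd.comp (hΨ.comp (hSi (n j)))
  -- step 1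
  have step1 : ∀ l : Fin L, |(μ.prod ν).real (⋂ j, S^[n j] ⁻¹' (A j)) -
      ∫ z, ∏ j, b l j (S^[n j] z) ∂(μ.prod ν)| ≤ (k + 1) * δ₁ := by
    intro l
    have hms : MeasurableSet (⋂ j, S^[n j] ⁻¹' (A j)) := MeasurableSet.iInter fun j => (hSm _) (hA j)
    have h1 : (μ.prod ν).real (⋂ j, S^[n j] ⁻¹' (A j)) = ∫ z, ∏ j, a l j (S^[n j] z) ∂(μ.prod ν) := by
      have h2 : (μ.prod ν).real (⋂ j, S^[n j] ⁻¹' (A j)) =
          (μ.prod ν).real (S^[t l] ⁻¹' (⋂ j, S^[n j] ⁻¹' (A j))) := by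
        rw [measureReal_def, measureReal_def, (hSi (t l)).measure_preimage hms.nullMeasurableSet]
      have h3 : ∀ z, ∏ j, a l j (S^[n j] z) =
          (S^[t l] ⁻¹' (⋂ j, S^[n j] ⁻¹' (A j))).indicator (fun _ => (1 : ℝ)) z := by
        intro z
        have h4 : ∀ j, S^[t l] (S^[n j] z) = S^[n j] (S^[t l] z) := by
          intro j
          rw [← Function.iterate_add_apply, ← Function.iterate_add_apply, add_comm]
        by_cases hz : z ∈ S^[t l] ⁻¹' (⋂ j, S^[n j] ⁻¹' (A j))
        · rw [indicator_of_mem hz]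
          apply Finset.prod_eq_one
          intro j _
          rw [had, h4]
          exact indicator_of_mem (show S^[n j] (S^[t l] z) ∈ A j from mem_iInter.1 hz j) _
        · rw [indicator_of_notMem hz]
          have hz' : ¬ ∀ j, S^[n j] (S^[t l] z) ∈ A j := fun h => hz (mem_iInter.2 h)
          rw [not_forall] at hz'
          obtain ⟨j, hj⟩ := hz'
          apply Finset.prod_eq_zero (Finset.mem_univ j)
          rw [had, h4]
          exact indicator_of_notMem hj _
      rw [h2]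
      simp_rw [h3]
      rw [integral_indicator_const _ ((hSm _) hms), smul_eq_mul, mul_one]
    rw [h1]
    have hi1 : Integrable (fun z => ∏ j, a l j (S^[n j] z)) (μ.prod ν) := by
      refine intg _ (Finset.measurable_prod _ fun j _ => (ham l j).comp (hSm _)) 1 (fun z => ?_)
      rw [abs_of_nonneg (Finset.prod_nonneg fun j _ => (ha01 l j _).1)]
      exact Finset.prod_le_one (fun j _ => (ha01 l j _).1) (fun j _ => (ha01 l j _).2)
    have hi2 : Integrable (fun z => ∏ j, b l j (S^[n j] z)) (μ.prod ν) := by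
      refine intg _ (Finset.measurable_prod _ fun j _ => (hbm l j).comp (hSm _)) 1 (fun z => ?_)
      rw [abs_of_nonneg (Finset.prod_nonneg fun j _ => (hb01 l j _).1)]
      exact Finset.prod_le_one (fun j _ => (hb01 l j _).1) (fun j _ => (hb01 l j _).2)
    have hdm : ∀ j, Measurable (fun z => |a l j z - b l j z|) := fun j =>
      ((ham l j).sub (hbm l j)).abs
    have hi3 : ∀ j, Integrable (fun z => |a l j (S^[n j] z) - b l j (S^[n j] z)|) (μ.prod ν) := by
      intro j
      refine intg _ ((hdm j).comp (hSm _)) 1 (fun z => ?_)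
      rw [abs_abs]
      exact habs _ _ (ha01 _ _ _) (hb01 _ _ _)
    rw [← integral_sub hi1 hi2]
    refine (abs_integral_le_integral_abs).trans ?_
    calc ∫ z, |∏ j, a l j (S^[n j] z) - ∏ j, b l j (S^[n j] z)| ∂(μ.prod ν)
        ≤ ∫ z, ∑ j, |a l j (S^[n j] z) - b l j (S^[n j] z)| ∂(μ.prod ν) := by
          refine integral_mono (hi1.sub hi2).abs (integrable_finsetSum _ fun j _ => hi3 j) (fun z => ?_)
          exact abs_prod_sub Finset.univ (fun j => a l j (S^[n j] z)) (fun j => b l j (S^[n j] z))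
            (fun j => ha01 _ _ _) (fun j => hb01 _ _ _)
      _ = ∑ j, ∫ z, |a l j z - b l j z| ∂(μ.prod ν) := by
          rw [integral_finsetSum _ fun j _ => hi3 j]
          exact Finset.sum_congr rfl fun j _ => int_comp (hSi (n j)) _ (hdm j)
      _ ≤ ∑ _j : Fin (k + 1), δ₁ := Finset.sum_le_sum fun j _ => by
          have := ha l j
          simp_rw [had, hbd]
          exact this
      _ = (k + 1) * δ₁ := by
          rw [Finset.sum_const, Finset.card_univ, Fintype.card_fin, nsmul_eq_mul]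
          push_cast
          ring
  -- the averages
  obtain ⟨R, hRd⟩ : ∃ R : (Fin (k + 1) → W) → X → ℝ, ∀ w x, R w x =
      (∑ l, ∏ j, (v ⁻¹' {w j}).indicator (fun _ => (1 : ℝ)) (T^[t l] (T^[n j] x))) / L :=
    ⟨_, fun _ _ => rfl⟩
  obtain ⟨c, hcd⟩ : ∃ c : (Fin (k + 1) → W) → ℝ, ∀ w, c w = ∏ j, μ.real (v ⁻¹' {w j}) :=
    ⟨_, fun _ => rfl⟩
  obtain ⟨E, hEd⟩ : ∃ E : (Fin (k + 1) → W) → X × Y → ℝ, ∀ w z, E w z = ∏ j, e j (w j) (y j z) :=
    ⟨_, fun _ _ => rfl⟩
  have hIm : ∀ (l : Fin L) (w : Fin (k + 1) → W), Measurable (fun x => ∏ j,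
      (v ⁻¹' {w j}).indicator (fun _ => (1 : ℝ)) (T^[t l] (T^[n j] x))) := fun l w =>
    Finset.measurable_prod _ fun j _ => (measurable_const.indicator
      (hv (measurableSet_singleton _))).comp ((hTm _).comp (hTm _))
  have hI01 : ∀ (l : Fin L) (w : Fin (k + 1) → W) x, 0 ≤ ∏ j,
      (v ⁻¹' {w j}).indicator (fun _ => (1 : ℝ)) (T^[t l] (T^[n j] x)) ∧ ∏ j,
      (v ⁻¹' {w j}).indicator (fun _ => (1 : ℝ)) (T^[t l] (T^[n j] x)) ≤ 1 := by
    intro l w x
    have h1 : ∀ j, 0 ≤ (v ⁻¹' {w j}).indicator (fun _ => (1 : ℝ)) (T^[t l] (T^[n j] x)) :=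
      fun j => indicator_nonneg (fun _ _ => zero_le_one) _
    exact ⟨Finset.prod_nonneg fun j _ => h1 j,
      Finset.prod_le_one (fun j _ => h1 j) (fun j _ => indicator_le_self' (fun _ _ => zero_le_one) _)⟩
  have hRm : ∀ w, Measurable (R w) := by
    intro w
    have : R w = fun x => (∑ l, ∏ j, (v ⁻¹' {w j}).indicator (fun _ => (1 : ℝ))
      (T^[t l] (T^[n j] x))) / L := funext (hRd w)
    rw [this]
    exact (Finset.measurable_sum _ fun l _ => hIm l w).div_const _
  have hR01 : ∀ w x, 0 ≤ R w x ∧ R w x ≤ 1 := by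
    intro w x
    rw [hRd]
    constructor
    · exact div_nonneg (Finset.sum_nonneg fun l _ => (hI01 l w x).1) hLr.le
    · rw [div_le_one hLr]
      calc _ ≤ ∑ _l : Fin L, (1 : ℝ) := Finset.sum_le_sum fun l _ => (hI01 l w x).2
        _ = L := by simp
  have hEm : ∀ w, Measurable (E w) := by
    intro w
    have : E w = fun z => ∏ j, e j (w j) (y j z) := funext (hEd w)
    rw [this]
    exact Finset.measurable_prod _ fun j _ => (he j (w j)).comp (hymp j).measurable
  have hE01 : ∀ w z, 0 ≤ E w z ∧ E w z ≤ 1 := by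
    intro w z
    rw [hEd]
    exact ⟨Finset.prod_nonneg fun j _ => (he01 _ _ _).1,
      Finset.prod_le_one (fun j _ => (he01 _ _ _).1) (fun j _ => (he01 _ _ _).2)⟩
  have hc01 : ∀ w, 0 ≤ c w ∧ c w ≤ 1 := by
    intro w
    rw [hcd]
    exact ⟨Finset.prod_nonneg fun j _ => measureReal_nonneg,
      Finset.prod_le_one (fun j _ => measureReal_nonneg) (fun j _ => measureReal_le_one)⟩
  -- expansion
  have hexp : ∀ (l : Fin L) (z : X × Y), ∏ j, b l j (S^[n j] z) =
      ∑ w : Fin (k + 1) → W, (∏ j, (v ⁻¹' {w j}).indicator (fun _ => (1 : ℝ))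
        (T^[t l] (T^[n j] z.1))) * E w z := by
    intro l z
    rw [Finset.sum_eq_single (fun j => v (T^[t l] (T^[n j] z.1)))]
    · have h1 : ∏ j, (v ⁻¹' {v (T^[t l] (T^[n j] z.1))}).indicator (fun _ => (1 : ℝ))
          (T^[t l] (T^[n j] z.1)) = 1 := by
        apply Finset.prod_eq_one
        intro j _
        exact indicator_of_mem
          (show T^[t l] (T^[n j] z.1) ∈ v ⁻¹' {v (T^[t l] (T^[n j] z.1))} from rfl) _
      rw [h1, one_mul, hEd]
      refine Finset.prod_congr rfl fun j _ => ?_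
      rw [hbd, hiter, hyd]
    · intro w _ hw
      have : ∃ j, v (T^[t l] (T^[n j] z.1)) ≠ w j := by
        by_contra hcon
        push Not at hcon
        exact hw (funext fun j => (hcon j).symm)
      obtain ⟨j, hj⟩ := this
      rw [Finset.prod_eq_zero (Finset.mem_univ j), zero_mul]
      exact indicator_of_notMem (show T^[t l] (T^[n j] z.1) ∉ v ⁻¹' {w j} from fun h => hj h) _
    · intro h
      exact absurd (Finset.mem_univ _) h
  have hi4 : ∀ l : Fin L, Integrable (fun z => ∏ j, b l j (S^[n j] z)) (μ.prod ν) := by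
    intro l
    refine intg _ (Finset.measurable_prod _ fun j _ => (hbm l j).comp (hSm _)) 1 (fun z => ?_)
    rw [abs_of_nonneg (Finset.prod_nonneg fun j _ => (hb01 l j _).1)]
    exact Finset.prod_le_one (fun j _ => (hb01 l j _).1) (fun j _ => (hb01 l j _).2)
  have havg : (∑ l, ∫ z, ∏ j, b l j (S^[n j] z) ∂(μ.prod ν)) / L =
      ∫ z, ∑ w, R w z.1 * E w z ∂(μ.prod ν) := by
    rw [← integral_finsetSum _ fun l _ => hi4 l, ← integral_div]
    refine integral_congr_ae (Eventually.of_forall fun z => ?_)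
    show (∑ l, ∏ j, b l j (S^[n j] z)) / (L : ℝ) = ∑ w, R w z.1 * E w z
    simp_rw [hexp, hRd]
    rw [Finset.sum_comm, Finset.sum_div]
    refine Finset.sum_congr rfl fun w _ => ?_
    rw [← Finset.sum_mul]
    ring
  have step2 : |(μ.prod ν).real (⋂ j, S^[n j] ⁻¹' (A j)) - ∫ z, ∑ w, R w z.1 * E w z ∂(μ.prod ν)| ≤
      (k + 1) * δ₁ := by
    rw [← havg]
    have h1 : (μ.prod ν).real (⋂ j, S^[n j] ⁻¹' (A j)) -
        (∑ l, ∫ z, ∏ j, b l j (S^[n j] z) ∂(μ.prod ν)) / L =
        (∑ l : Fin L, ((μ.prod ν).real (⋂ j, S^[n j] ⁻¹' (A j)) -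
          ∫ z, ∏ j, b l j (S^[n j] z) ∂(μ.prod ν))) / L := by
      rw [Finset.sum_sub_distrib, Finset.sum_const, Finset.card_univ, Fintype.card_fin, nsmul_eq_mul]
      field_simp
    rw [h1, abs_div, abs_of_pos hLr, div_le_iff₀ hLr]
    refine (Finset.abs_sum_le_sum_abs _ _).trans ?_
    calc _ ≤ ∑ _l : Fin L, ((k : ℝ) + 1) * δ₁ := Finset.sum_le_sum fun l _ => step1 l
      _ = (k + 1) * δ₁ * L := by
        rw [Finset.sum_const, Finset.card_univ, Fintype.card_fin, nsmul_eq_mul]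
        ring
  have hi5 : ∀ w, Integrable (fun z : X × Y => R w z.1 * E w z) (μ.prod ν) := by
    intro w
    refine intg _ (((hRm w).comp measurable_fst).mul (hEm w)) 1 (fun z => ?_)
    rw [abs_of_nonneg (mul_nonneg (hR01 _ _).1 (hE01 _ _).1)]
    exact mul_le_one₀ (hR01 _ _).2 (hE01 _ _).1 (hE01 _ _).2
  have hi6 : ∀ w, Integrable (fun z : X × Y => c w * E w z) (μ.prod ν) := by
    intro w
    refine intg _ (measurable_const.mul (hEm w)) 1 (fun z => ?_)
    rw [abs_of_nonneg (mul_nonneg (hc01 _).1 (hE01 _ _).1)]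
    exact mul_le_one₀ (hc01 _).2 (hE01 _ _).1 (hE01 _ _).2
  have step3 : |∫ z, ∑ w, R w z.1 * E w z ∂(μ.prod ν) - ∫ z, ∑ w, c w * E w z ∂(μ.prod ν)| ≤
      (Fintype.card (Fin (k + 1) → W)) * δ₂ := by
    rw [integral_finsetSum _ fun w _ => hi5 w, integral_finsetSum _ fun w _ => hi6 w,
      ← Finset.sum_sub_distrib]
    refine (Finset.abs_sum_le_sum_abs _ _).trans ?_
    have h1 : ∀ w, |∫ z, R w z.1 * E w z ∂(μ.prod ν) - ∫ z, c w * E w z ∂(μ.prod ν)| ≤ δ₂ := by
      intro w
      rw [← integral_sub (hi5 w) (hi6 w)]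
      refine (abs_integral_le_integral_abs).trans ?_
      have hdm : Measurable (fun x => |R w x - c w|) := ((hRm w).sub_const _).abs
      have hdi : Integrable (fun z : X × Y => |R w z.1 - c w|) (μ.prod ν) := by
        refine intg _ (hdm.comp measurable_fst) 1 (fun z => ?_)
        rw [abs_abs]
        exact habs _ _ (hR01 _ _) (hc01 _)
      calc ∫ z, |R w z.1 * E w z - c w * E w z| ∂(μ.prod ν)
          ≤ ∫ z, |R w z.1 - c w| ∂(μ.prod ν) := by
            refine integral_mono ((hi5 w).sub (hi6 w)).abs hdi (fun z => ?_)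
            show |R w z.1 * E w z - c w * E w z| ≤ |R w z.1 - c w|
            rw [← sub_mul, abs_mul, abs_of_nonneg (hE01 w z).1]
            exact mul_le_of_le_one_right (abs_nonneg _) (hE01 w z).2
        _ = ∫ x, |R w x - c w| ∂μ :=
            int_comp (m := μ.prod ν) (f := Prod.fst) measurePreserving_fst _ hdm
        _ ≤ δ₂ := by
            have := hb w
            simp_rw [hRd, hcd]
            exact this
    calc _ ≤ ∑ _w : Fin (k + 1) → W, δ₂ := Finset.sum_le_sum fun w _ => h1 w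
      _ = _ := by rw [Finset.sum_const, Finset.card_univ, nsmul_eq_mul]
  -- the product form
  obtain ⟨F, hFd⟩ : ∃ F : Fin (k + 1) → Y → ℝ, ∀ j u, F j u = ∑ w, μ.real (v ⁻¹' {w}) * e j w u :=
    ⟨_, fun _ _ => rfl⟩
  have hFm : ∀ j, Measurable (F j) := by
    intro j
    have : F j = fun u => ∑ w, μ.real (v ⁻¹' {w}) * e j w u := funext (hFd j)
    rw [this]
    exact Finset.measurable_sum _ fun w _ => measurable_const.mul (he j w)
  have hF01 : ∀ j u, 0 ≤ F j u ∧ F j u ≤ 1 := by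
    intro j u
    rw [hFd]
    constructor
    · exact Finset.sum_nonneg fun w _ => mul_nonneg measureReal_nonneg (he01 _ _ _).1
    · rw [← sum_fib (μ := μ) v hv]
      exact Finset.sum_le_sum fun w _ => mul_le_of_le_one_right measureReal_nonneg (he01 _ _ _).2
  have hprod : ∀ z, ∑ w, c w * E w z = ∏ j, F j (y j z) := by
    intro z
    simp_rw [hFd]
    rw [Finset.prod_univ_sum, Fintype.piFinset_univ]
    refine Finset.sum_congr rfl fun w _ => ?_
    rw [hcd, hEd, ← Finset.prod_mul_distrib]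
  have step4 : |∫ z, ∑ w, c w * E w z ∂(μ.prod ν) - ∏ j, (μ.prod ν).real (A j)| ≤ (k + 1) * δ₃ := by
    simp_rw [hprod]
    have hi7 : Integrable (fun z => ∏ j, F j (y j z)) (μ.prod ν) := by
      refine intg _ (Finset.measurable_prod _ fun j _ => (hFm j).comp (hymp j).measurable) 1
        (fun z => ?_)
      rw [abs_of_nonneg (Finset.prod_nonneg fun j _ => (hF01 _ _).1)]
      exact Finset.prod_le_one (fun j _ => (hF01 _ _).1) (fun j _ => (hF01 _ _).2)
    have h1 : ∏ j, (μ.prod ν).real (A j) = ∫ _z : X × Y, ∏ j, (μ.prod ν).real (A j) ∂(μ.prod ν) := by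
      rw [integral_const]
      simp
    have hdm : ∀ j, Measurable (fun u => |F j u - (μ.prod ν).real (A j)|) := fun j =>
      ((hFm j).sub_const _).abs
    have hdi : ∀ j, Integrable (fun z => |F j (y j z) - (μ.prod ν).real (A j)|) (μ.prod ν) := by
      intro j
      refine intg _ ((hdm j).comp (hymp j).measurable) 1 (fun z => ?_)
      rw [abs_abs]
      exact habs _ _ (hF01 _ _) ⟨measureReal_nonneg, measureReal_le_one⟩
    rw [h1, ← integral_sub hi7 (integrable_const _)]
    refine (abs_integral_le_integral_abs).trans ?_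
    calc ∫ z, |∏ j, F j (y j z) - ∏ j, (μ.prod ν).real (A j)| ∂(μ.prod ν)
        ≤ ∫ z, ∑ j, |F j (y j z) - (μ.prod ν).real (A j)| ∂(μ.prod ν) := by
          refine integral_mono (hi7.sub (integrable_const _)).abs
            (integrable_finsetSum _ fun j _ => hdi j) (fun z => ?_)
          exact abs_prod_sub Finset.univ (fun j => F j (y j z)) (fun j => (μ.prod ν).real (A j))
            (fun j => hF01 _ _) (fun j => ⟨measureReal_nonneg, measureReal_le_one⟩)
      _ = ∑ j, ∫ u, |F j u - (μ.prod ν).real (A j)| ∂ν := by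
          rw [integral_finsetSum _ fun j _ => hdi j]
          exact Finset.sum_congr rfl fun j _ => int_comp (hymp j) _ (hdm j)
      _ ≤ ∑ _j : Fin (k + 1), δ₃ := Finset.sum_le_sum fun j _ => by
          have := hc j
          simp_rw [hFd]
          exact this
      _ = (k + 1) * δ₃ := by
          rw [Finset.sum_const, Finset.card_univ, Fintype.card_fin, nsmul_eq_mul]
          push_cast
          ring
  have h5 := abs_sub_le ((μ.prod ν).real (⋂ j, S^[n j] ⁻¹' (A j)))
    (∫ z, ∑ w, R w z.1 * E w z ∂(μ.prod ν)) (∏ j, (μ.prod ν).real (A j))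
  have h6 := abs_sub_le (∫ z, ∑ w, R w z.1 * E w z ∂(μ.prod ν))
    (∫ z, ∑ w, c w * E w z ∂(μ.prod ν)) (∏ j, (μ.prod ν).real (A j))
  linarith

end Pool.Agent.V11246.MM
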