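import Mathlib
import Pool.Agent.W744.NG.Stubs
import Pool.Agent.V11246.MMc

set_option autoImplicit false
set_option linter.unusedSectionVars false
set_option linter.unusedVariables false

namespace Pool.Agent.V11246.MM

open MeasureTheory Set Filter Topology
open scoped ENNReal symmDiff
open Pool.Agent.W744.NG

section
variable {X Y : Type} [MeasurableSpace X] [MeasurableSpace Y] {μ : Measure X} {ν : Measure Y}
  [IsProbabilityMeasure μ] [IsProbabilityMeasure ν] (D : YS μ)

/-- the points whose second coordinate lies in a set which depends on the label of the first -/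
def stp (r : ℕ) (C : (Fin r → ZMod 2) → Set Y) : Set (X × Y) := {z | z.2 ∈ C (D.v r z.1)}

theorem stp_meas (r : ℕ) (C : (Fin r → ZMod 2) → Set Y) (hC : ∀ w, MeasurableSet (C w)) :
    MeasurableSet (stp D r C) := by
  have : stp D r C = ⋃ w : Fin r → ZMod 2, ({x | D.v r x = w} ×ˢ (C w)) := by
    ext z
    simp [stp]
  rw [this]
  exact MeasurableSet.iUnion fun w => (D.meas r w).prod (hC w)

theorem stp_lift (r r' : ℕ) (h : r ≤ r') (C : (Fin r → ZMod 2) → Set Y)
    (hC : ∀ w, MeasurableSet (C w)) : ∃ C' : (Fin r' → ZMod 2) → Set Y,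
      (∀ w, MeasurableSet (C' w)) ∧ stp D r' C' = stp D r C := by
  classical
  refine ⟨fun w => if h : ∃ x, D.v r' x = w then C (D.v r h.choose) else ∅, ?_, ?_⟩
  · intro w
    dsimp only
    split_ifs
    · exact hC _
    · exact MeasurableSet.empty
  · ext z
    have hz : ∃ x, D.v r' x = D.v r' z.1 := ⟨z.1, rfl⟩
    show z.2 ∈ (if h : ∃ x, D.v r' x = D.v r' z.1 then C (D.v r h.choose) else ∅) ↔
      z.2 ∈ C (D.v r z.1)
    rw [dif_pos hz, D.ref r r' h _ _ hz.choose_spec]

/-- approximable sets -/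
def Appr (D : YS μ) (ν : Measure Y) (B : Set (X × Y)) : Prop :=
  ∀ ε : ℝ, 0 < ε → ∃ r0 : ℕ, ∀ r, r0 ≤ r → ∃ C : (Fin r → ZMod 2) → Set Y,
    (∀ w, MeasurableSet (C w)) ∧ (μ.prod ν).real (B ∆ stp D r C) < ε

theorem appr_of (B : Set (X × Y)) (h : ∀ ε : ℝ, 0 < ε → ∃ r : ℕ, ∃ C : (Fin r → ZMod 2) → Set Y,
    (∀ w, MeasurableSet (C w)) ∧ (μ.prod ν).real (B ∆ stp D r C) < ε) : Appr D ν B := by
  intro ε hε
  obtain ⟨r, C, h1, h2⟩ := h ε hε
  refine ⟨r, fun r' hr => ?_⟩
  obtain ⟨C', h3, h4⟩ := stp_lift D r r' hr C h1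
  exact ⟨C', h3, by rw [h4]; exact h2⟩

theorem appr_union (B B' : Set (X × Y)) (h : Appr D ν B) (h' : Appr D ν B') : Appr D ν (B ∪ B') := by
  intro ε hε
  obtain ⟨r1, h1⟩ := h (ε / 2) (by positivity)
  obtain ⟨r2, h2⟩ := h' (ε / 2) (by positivity)
  refine ⟨max r1 r2, fun r hr => ?_⟩
  obtain ⟨C, hC1, hC2⟩ := h1 r ((le_max_left _ _).trans hr)
  obtain ⟨C', hC1', hC2'⟩ := h2 r ((le_max_right _ _).trans hr)
  refine ⟨fun w => C w ∪ C' w, fun w => (hC1 w).union (hC1' w), ?_⟩
  have h3 : (B ∪ B') ∆ stp D r (fun w => C w ∪ C' w) ⊆ (B ∆ stp D r C) ∪ (B' ∆ stp D r C') := by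
    intro z hz
    simp only [mem_symmDiff, mem_union, stp, mem_setOf_eq] at hz ⊢
    tauto
  calc _ ≤ (μ.prod ν).real ((B ∆ stp D r C) ∪ (B' ∆ stp D r C')) := measureReal_mono h3
    _ ≤ _ := measureReal_union_le _ _
    _ < ε := by linarith

theorem appr_all (B : Set (X × Y)) (hB : MeasurableSet B) : Appr D ν B := by
  induction B, hB using MeasurableSpace.induction_on_inter generateFrom_prod.symm
    isPiSystem_prod with
  | empty =>
    apply appr_of
    intro ε hε
    refine ⟨0, fun _ => ∅, fun _ => MeasurableSet.empty, ?_⟩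
    have : (∅ : Set (X × Y)) ∆ stp D 0 (fun _ => ∅) = ∅ := by
      ext z
      simp [stp, mem_symmDiff]
    rw [this]
    simpa using hε
  | basic E hE =>
    obtain ⟨A, hA, B, hB, rfl⟩ := hE
    have hA' : MeasurableSet A := hA
    have hB' : MeasurableSet B := hB
    classical
    apply appr_of
    intro ε hε
    obtain ⟨r, s, hs⟩ := D.gen A hA' ε hε
    refine ⟨r, fun w => if w ∈ s then B else ∅, fun w => ?_, ?_⟩
    · dsimp only
      split_ifs
      · exact hB'
      · exact MeasurableSet.empty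
    · have h3 : (A ×ˢ B) ∆ stp D r (fun w => if w ∈ s then B else ∅) ⊆
          (A ∆ {x | D.v r x ∈ s}) ×ˢ (univ : Set Y) := by
        rintro ⟨x, y⟩ hz
        refine ⟨?_, mem_univ _⟩
        by_cases hx : D.v r x ∈ s
        · simp only [mem_symmDiff, mem_prod, stp, mem_setOf_eq, if_pos hx] at hz ⊢
          tauto
        · simp only [mem_symmDiff, mem_prod, stp, mem_setOf_eq, if_neg hx, mem_empty_iff_false] at hz ⊢
          tauto
      calc _ ≤ (μ.prod ν).real ((A ∆ {x | D.v r x ∈ s}) ×ˢ (univ : Set Y)) := measureReal_mono h3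
        _ = μ.real (A ∆ {x | D.v r x ∈ s}) := by
          rw [measureReal_prod_prod]
          simp
        _ < ε := hs
  | compl E hE ih =>
    intro ε hε
    obtain ⟨r0, h0⟩ := ih ε hε
    refine ⟨r0, fun r hr => ?_⟩
    obtain ⟨C, h1, h2⟩ := h0 r hr
    refine ⟨fun w => (C w)ᶜ, fun w => (h1 w).compl, ?_⟩
    have : Eᶜ ∆ stp D r (fun w => (C w)ᶜ) = E ∆ stp D r C := by
      ext z
      simp only [mem_symmDiff, mem_compl_iff, stp, mem_setOf_eq]
      tauto
    rw [this]
    exact h2
  | iUnion f hd hm ih =>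
    intro ε hε
    have hfin : ∀ N, Appr D ν (Set.accumulate f N) := by
      intro N
      induction N with
      | zero =>
        have : Set.accumulate f 0 = f 0 := by
          ext z
          simp [Set.accumulate_def]
        rw [this]
        exact ih 0
      | succ N ihN =>
        rw [Set.accumulate_succ]
        exact appr_union D _ _ ihN (ih (N + 1))
    have hlim := tendsto_measure_iUnion_accumulate (μ := μ.prod ν) (f := f)
    have hlim' : Tendsto (fun N => (μ.prod ν).real (Set.accumulate f N)) atTop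
        (𝓝 ((μ.prod ν).real (⋃ n, f n))) :=
      (ENNReal.tendsto_toReal (measure_ne_top _ _)).comp hlim
    obtain ⟨N, hN⟩ := ((tendsto_order.1 hlim').1 ((μ.prod ν).real (⋃ n, f n) - ε / 2)
      (by linarith)).exists
    obtain ⟨r0, h0⟩ := hfin N (ε / 2) (by positivity)
    refine ⟨r0, fun r hr => ?_⟩
    obtain ⟨C, h1, h2⟩ := h0 r hr
    refine ⟨C, h1, ?_⟩
    have hmN : MeasurableSet (Set.accumulate f N) :=
      MeasurableSet.biUnion (Set.to_countable _) fun n _ => hm n
    have hsub : Set.accumulate f N ⊆ ⋃ n, f n := Set.accumulate_subset_iUnion N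
    have h3 : (⋃ n, f n) ∆ stp D r C ⊆
        ((⋃ n, f n) \ Set.accumulate f N) ∪ (Set.accumulate f N ∆ stp D r C) := by
      intro z hz
      by_cases hz1 : z ∈ Set.accumulate f N
      · right
        have hz2 := hsub hz1
        rw [mem_symmDiff] at hz ⊢
        tauto
      · rw [mem_symmDiff] at hz
        rcases hz with ⟨a, b⟩ | ⟨a, b⟩
        · left
          exact ⟨a, hz1⟩
        · right
          rw [mem_symmDiff]
          exact Or.inr ⟨a, hz1⟩
    have h4 : (μ.prod ν).real ((⋃ n, f n) \ Set.accumulate f N) =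
        (μ.prod ν).real (⋃ n, f n) - (μ.prod ν).real (Set.accumulate f N) :=
      measureReal_diff hsub hmN
    calc _ ≤ (μ.prod ν).real (((⋃ n, f n) \ Set.accumulate f N) ∪ (Set.accumulate f N ∆ stp D r C)) :=
          measureReal_mono h3
      _ ≤ _ := measureReal_union_le _ _
      _ < ε := by
        rw [h4]
        linarith

/-! ### sections -/

theorem sec_meas (B : Set (X × Y)) (hB : MeasurableSet B) :
    Measurable (fun y => μ.real {x | (x, y) ∈ B}) :=
  (measurable_measure_prodMk_right hB).ennreal_toReal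

theorem sec_int (B : Set (X × Y)) (hB : MeasurableSet B) :
    ∫ y, μ.real {x | (x, y) ∈ B} ∂ν = (μ.prod ν).real B := by
  have h1 : (μ.prod ν) B = ∫⁻ y, μ {x | (x, y) ∈ B} ∂ν := Measure.prod_apply_symm hB
  rw [measureReal_def, h1]
  exact integral_toReal (measurable_measure_prodMk_right hB).aemeasurable
    (Eventually.of_forall fun y => measure_lt_top _ _)

theorem sec_diff (B B' : Set (X × Y)) (hB : MeasurableSet B) (hB' : MeasurableSet B') :
    ∫ y, |μ.real {x | (x, y) ∈ B} - μ.real {x | (x, y) ∈ B'}| ∂ν ≤ (μ.prod ν).real (B ∆ B') := by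
  rw [← sec_int (μ := μ) (ν := ν) _ (hB.symmDiff hB')]
  have hm1 := sec_meas (μ := μ) B hB
  have hm2 := sec_meas (μ := μ) B' hB'
  have hm3 := sec_meas (μ := μ) (B ∆ B') (hB.symmDiff hB')
  refine integral_mono (intg _ (hm1.sub hm2).abs 1 (fun y => ?_)) (intg _ hm3 1 (fun y => ?_))
    (fun y => ?_)
  · rw [abs_abs, abs_le]
    have h1 : 0 ≤ μ.real {x | (x, y) ∈ B} := measureReal_nonneg
    have h2 : 0 ≤ μ.real {x | (x, y) ∈ B'} := measureReal_nonneg
    have h3 : μ.real {x | (x, y) ∈ B} ≤ 1 := measureReal_le_one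
    have h4 : μ.real {x | (x, y) ∈ B'} ≤ 1 := measureReal_le_one
    constructor <;> linarith
  · rw [abs_of_nonneg measureReal_nonneg]
    exact measureReal_le_one
  · show |μ.real {x | (x, y) ∈ B} - μ.real {x | (x, y) ∈ B'}| ≤ μ.real {x | (x, y) ∈ B ∆ B'}
    have e1 : {x | (x, y) ∈ B} ⊆ {x | (x, y) ∈ B'} ∪ {x | (x, y) ∈ B ∆ B'} := by
      intro x hx
      by_cases h : (x, y) ∈ B'
      · exact Or.inl h
      · exact Or.inr (Or.inl ⟨hx, h⟩)
    have e2 : {x | (x, y) ∈ B'} ⊆ {x | (x, y) ∈ B} ∪ {x | (x, y) ∈ B ∆ B'} := by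
      intro x hx
      by_cases h : (x, y) ∈ B
      · exact Or.inl h
      · exact Or.inr (Or.inr ⟨hx, h⟩)
    have h1 := (measureReal_mono (μ := μ) e1).trans (measureReal_union_le _ _)
    have h2 := (measureReal_mono (μ := μ) e2).trans (measureReal_union_le _ _)
    rw [abs_le]
    constructor <;> linarith

end

end Pool.Agent.V11246.MM
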