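import Mathlib
import Pool.Agent.W744.NG.Dens
import Pool.Agent.V11246.MMd

set_option autoImplicit false
set_option linter.unusedSectionVars false
set_option linter.unusedVariables false

namespace Pool.Agent.V11246.MM

open MeasureTheory Set Filter Topology
open scoped ENNReal symmDiff
open Pool.H359R3 Pool.H359R3.IX
open Pool.Agent.W744.NG Pool.Agent.W744.NG.Dens

theorem v_symm {Y : Type} [MeasurableSpace Y] {ν : Measure Y} (D : YS ν) (r : ℕ)
    (w : Fin r → ZMod 2) (y : Y) : D.v r ((D.act r w).1.symm y) = D.v r y + w := by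
  have e1 := D.v_act r w ((D.act r w).1.symm y)
  rw [MeasurableEquiv.apply_symm_apply] at e1
  rw [e1, add_assoc]
  have e2 : w + w = 0 := by
    funext i
    show w i + w i = 0
    generalize w i = c
    revert c
    decide
  rw [e2, add_zero]

theorem hasSum_real {Z ι : Type*} [MeasurableSpace Z] {m : Measure Z} [IsProbabilityMeasure m]
    [Countable ι] (f : ι → Set Z) (hd : Pairwise (Function.onFun Disjoint f))
    (hm : ∀ i, MeasurableSet (f i)) : HasSum (fun i => m.real (f i)) (m.real (⋃ i, f i)) := by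
  have h1 : m (⋃ i, f i) = ∑' i, m (f i) := measure_iUnion hd hm
  have h2 : ∑' i, m (f i) ≠ ∞ := by
    rw [← h1]
    exact measure_ne_top _ _
  have h3 := ENNReal.hasSum_toReal h2
  rw [← ENNReal.tsum_toReal_eq (fun i => measure_ne_top _ _), ← h1] at h3
  exact h3

section
variable {X Y : Type} [MeasurableSpace X] [StandardBorelSpace X] [MeasurableSpace Y] [StandardBorelSpace Y]
  {μ : Measure X} {ν : Measure Y} [IsProbabilityMeasure μ] [IsProbabilityMeasure ν]

/-- averaging over the action in the fibre -/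
theorem avg_lim (D : YS ν) (B : Set (X × Y)) (hB : MeasurableSet B) (ε : ℝ) (hε : 0 < ε) :
    ∃ r0 : ℕ, ∀ r, r0 ≤ r → ∫ y, |(∑ g : Fin r → ZMod 2,
      μ.real {x | (x, (D.act r g).1.symm y) ∈ B}) / 2 ^ r - (μ.prod ν).real B| ∂ν < ε := by
  classical
  have hBs : MeasurableSet (Prod.swap ⁻¹' B : Set (Y × X)) := measurable_swap hB
  obtain ⟨r0, h0⟩ := appr_all (μ := ν) (ν := μ) D _ hBs (ε / 3) (by positivity)
  refine ⟨r0, fun r hr => ?_⟩
  obtain ⟨C, hC1, hC2⟩ := h0 r hr
  obtain ⟨B', hB'd⟩ : ∃ B' : Set (X × Y), B' = Prod.swap ⁻¹' (stp D r C) := ⟨_, rfl⟩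
  have hB' : MeasurableSet B' := by
    rw [hB'd]
    exact measurable_swap (stp_meas D r C hC1)
  have hdiff : (μ.prod ν).real (B ∆ B') < ε / 3 := by
    have h1 : B ∆ B' = Prod.swap ⁻¹' ((Prod.swap ⁻¹' B : Set (Y × X)) ∆ stp D r C) := by
      rw [hB'd, preimage_symmDiff]
      rfl
    rw [h1, measureReal_def, (Measure.measurePreserving_swap (μ := μ) (ν := ν)).measure_preimage
      (hBs.symmDiff (stp_meas D r C hC1)).nullMeasurableSet]
    exact hC2
  -- the functions
  obtain ⟨K, hK⟩ : ∃ K : Y → ℝ, ∀ y, K y = μ.real {x | (x, y) ∈ B} := ⟨_, fun _ => rfl⟩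
  obtain ⟨K', hK'⟩ : ∃ K' : Y → ℝ, ∀ y, K' y = μ.real {x | (x, y) ∈ B'} := ⟨_, fun _ => rfl⟩
  have hKm : Measurable K := by
    rw [show K = fun y => μ.real {x | (x, y) ∈ B} from funext hK]
    exact sec_meas B hB
  have hKm' : Measurable K' := by
    rw [show K' = fun y => μ.real {x | (x, y) ∈ B'} from funext hK']
    exact sec_meas B' hB'
  have hK01 : ∀ y, 0 ≤ K y ∧ K y ≤ 1 := fun y => by
    rw [hK]; exact ⟨measureReal_nonneg, measureReal_le_one⟩
  have hK01' : ∀ y, 0 ≤ K' y ∧ K' y ≤ 1 := fun y => by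
    rw [hK']; exact ⟨measureReal_nonneg, measureReal_le_one⟩
  have hKK : ∫ y, |K y - K' y| ∂ν < ε / 3 := by
    simp_rw [hK, hK']
    exact lt_of_le_of_lt (sec_diff B B' hB hB') hdiff
  obtain ⟨κ, hκ⟩ : ∃ κ : ℝ, κ = (∑ w : Fin r → ZMod 2, μ.real (C w)) / 2 ^ r := ⟨_, rfl⟩
  have hconst : ∀ y, (∑ g : Fin r → ZMod 2, K' ((D.act r g).1.symm y)) / 2 ^ r = κ := by
    intro y
    rw [hκ]
    congr 1
    have h1 : ∀ g : Fin r → ZMod 2, K' ((D.act r g).1.symm y) = μ.real (C (D.v r y + g)) := by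
      intro g
      rw [hK', hB'd]
      congr 1
      ext x
      show x ∈ C (D.v r ((D.act r g).1.symm y)) ↔ _
      rw [v_symm]
    simp_rw [h1]
    exact Equiv.sum_comp (Equiv.addLeft (D.v r y)) (fun w => μ.real (C w))
  have hsm : ∀ g : Fin r → ZMod 2, MeasurePreserving (⇑(D.act r g).1.symm) ν ν := fun g =>
    mp_symm (D.act r g)
  have hcard : (Fintype.card (Fin r → ZMod 2) : ℝ) = 2 ^ r := by
    rw [Fintype.card_fun, Fintype.card_fin, ZMod.card]
    push_cast
    rfl
  have h2r : (0 : ℝ) < 2 ^ r := by positivity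
  have hκ' : κ = (μ.prod ν).real B' := by
    have h1 : ∫ y, (∑ g : Fin r → ZMod 2, K' ((D.act r g).1.symm y)) / 2 ^ r ∂ν = κ := by
      simp_rw [hconst]
      simp
    rw [← h1, integral_div, integral_finsetSum]
    · have h2 : ∀ g : Fin r → ZMod 2, ∫ y, K' ((D.act r g).1.symm y) ∂ν = (μ.prod ν).real B' := by
        intro g
        rw [int_comp (hsm g) K' hKm']
        simp_rw [hK']
        exact sec_int B' hB'
      rw [Finset.sum_congr rfl (fun g _ => h2 g), Finset.sum_const, Finset.card_univ, nsmul_eq_mul,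
        hcard]
      field_simp
    · intro g _
      refine intg _ (hKm'.comp (hsm g).measurable) 1 (fun y => ?_)
      rw [abs_of_nonneg (hK01' _).1]
      exact (hK01' _).2
  have hκB : |κ - (μ.prod ν).real B| ≤ ε / 3 := by
    rw [hκ']
    have e1 := (measureReal_mono (μ := μ.prod ν) (show B ⊆ B' ∪ (B ∆ B') from by
      intro z hz
      by_cases h : z ∈ B'
      · exact Or.inl h
      · exact Or.inr (Or.inl ⟨hz, h⟩))).trans (measureReal_union_le _ _)
    have e2 := (measureReal_mono (μ := μ.prod ν) (show B' ⊆ B ∪ (B ∆ B') from by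
      intro z hz
      by_cases h : z ∈ B
      · exact Or.inl h
      · exact Or.inr (Or.inr ⟨hz, h⟩))).trans (measureReal_union_le _ _)
    rw [abs_le]
    constructor <;> linarith
  have hdm : Measurable (fun y => |K y - K' y|) := (hKm.sub hKm').abs
  have hd1 : ∀ y, |K y - K' y| ≤ 1 := by
    intro y
    rw [abs_le]
    have := hK01 y
    have := hK01' y
    constructor <;> linarith
  have hdi : ∀ g : Fin r → ZMod 2, Integrable (fun y => |K ((D.act r g).1.symm y) -
      K' ((D.act r g).1.symm y)|) ν := by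
    intro g
    refine intg _ (hdm.comp (hsm g).measurable) 1 (fun y => ?_)
    rw [abs_abs]
    exact hd1 _
  calc ∫ y, |(∑ g : Fin r → ZMod 2, μ.real {x | (x, (D.act r g).1.symm y) ∈ B}) / 2 ^ r -
        (μ.prod ν).real B| ∂ν
      ≤ ∫ y, ((∑ g : Fin r → ZMod 2, |K ((D.act r g).1.symm y) -
        K' ((D.act r g).1.symm y)|) / 2 ^ r + ε / 3) ∂ν := by
        refine integral_mono_of_nonneg (Eventually.of_forall fun y => abs_nonneg _)
          (((integrable_finsetSum _ fun g _ => hdi g).div_const _).add (integrable_const _))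
          (Eventually.of_forall fun y => ?_)
        show |(∑ g : Fin r → ZMod 2, μ.real {x | (x, (D.act r g).1.symm y) ∈ B}) / 2 ^ r -
          (μ.prod ν).real B| ≤ (∑ g : Fin r → ZMod 2, |K ((D.act r g).1.symm y) -
          K' ((D.act r g).1.symm y)|) / 2 ^ r + ε / 3
        simp_rw [← hK]
        have h3 := abs_sub_le ((∑ g : Fin r → ZMod 2, K ((D.act r g).1.symm y)) / 2 ^ r) κ
          ((μ.prod ν).real B)
        have h4 : |(∑ g : Fin r → ZMod 2, K ((D.act r g).1.symm y)) / 2 ^ r - κ| ≤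
            (∑ g : Fin r → ZMod 2, |K ((D.act r g).1.symm y) - K' ((D.act r g).1.symm y)|) / 2 ^ r := by
          rw [← hconst y, ← sub_div, ← Finset.sum_sub_distrib, abs_div, abs_of_pos h2r]
          gcongr
          exact Finset.abs_sum_le_sum_abs _ _
        linarith
    _ = ∫ y, |K y - K' y| ∂ν + ε / 3 := by
        rw [integral_add ((integrable_finsetSum _ fun g _ => hdi g).div_const _) (integrable_const _),
          integral_div, integral_finsetSum _ fun g _ => hdi g]
        have h5 : ∀ g : Fin r → ZMod 2, ∫ y, |K ((D.act r g).1.symm y) -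
            K' ((D.act r g).1.symm y)| ∂ν = ∫ y, |K y - K' y| ∂ν := fun g =>
          int_comp (hsm g) (fun y => |K y - K' y|) hdm
        rw [Finset.sum_congr rfl (fun g _ => h5 g), Finset.sum_const, Finset.card_univ,
          nsmul_eq_mul, hcard]
        simp only [integral_const, probReal_univ, one_smul]
        field_simp
    _ < ε := by linarith

/-! ### labels of the base -/

/-- the label of the point `T^(M-τ(x)) x` -/
def kap (T : AU μ) (D' : YS μ) (τ : X → ℕ) (r M : ℕ) (x : X) : Fin r → ZMod 2 :=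
  D'.v r ((T.1 : X → X)^[M] ((T.1.symm : X → X)^[τ x] x))

theorem kap_inv (T : AU μ) (D' : YS μ) (τ : X → ℕ) (r M : ℕ) (x : X) (h : τ (T.1 x) = τ x + 1) :
    kap T D' τ r M (T.1 x) = kap T D' τ r M x := by
  unfold kap
  rw [h, Function.iterate_succ_apply, T.1.symm_apply_apply]

theorem kap_meas (T : AU μ) (D' : YS μ) (τ : X → ℕ) (hτ : Measurable τ) (r M : ℕ)
    (w : Fin r → ZMod 2) : MeasurableSet {x | kap T D' τ r M x = w} := by
  have h1 : {x | kap T D' τ r M x = w} = ⋃ t : ℕ, (τ ⁻¹' {t} ∩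
      (fun x => (T.1 : X → X)^[M] ((T.1.symm : X → X)^[t] x)) ⁻¹' {x | D'.v r x = w}) := by
    ext x
    simp [kap]
  rw [h1]
  refine MeasurableSet.iUnion fun t => (hτ (measurableSet_singleton t)).inter ?_
  exact ((T.1.measurable.iterate M).comp (T.1.symm.measurable.iterate t)) (D'.meas r w)

theorem iter_cancel (T : AU μ) (t M : ℕ) (h : t ≤ M) (x : X) :
    (T.1 : X → X)^[M] ((T.1.symm : X → X)^[t] x) = (T.1 : X → X)^[M - t] x := by
  have h1 : M = (M - t) + t := by omega
  conv_lhs => rw [h1, Function.iterate_add_apply]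
  congr 1
  exact (Function.LeftInverse.iterate (g := (T.1 : X → X)) (f := (T.1.symm : X → X))
    (fun x => T.1.apply_symm_apply x) t) x

theorem kap_lim (T : AU μ) (hM : MMix μ (T.1 : X → X)) (D' : YS μ) (τ : X → ℕ) (hτ : Measurable τ)
    (r : ℕ) (C : Set X) (hC : MeasurableSet C) (w : Fin r → ZMod 2) :
    Tendsto (fun M => μ.real (C ∩ {x | kap T D' τ r M x = w})) atTop (𝓝 (μ.real C / 2 ^ r)) := by
  have hCt : ∀ t : ℕ, MeasurableSet (C ∩ τ ⁻¹' {t}) := fun t => hC.inter (hτ (measurableSet_singleton t))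
  have hdisj : Pairwise (Function.onFun Disjoint (fun t : ℕ => C ∩ τ ⁻¹' {t})) := by
    intro t t' htt
    rw [Function.onFun, Set.disjoint_left]
    rintro x ⟨_, h1⟩ ⟨_, h2⟩
    exact htt ((h1 : τ x = t).symm.trans h2)
  have hun : (⋃ t : ℕ, (C ∩ τ ⁻¹' {t})) = C := by
    ext x
    simp
  have hs1 := hasSum_real (m := μ) _ hdisj hCt
  rw [hun] at hs1
  have hs2 : ∀ M : ℕ, HasSum (fun t : ℕ => μ.real ((C ∩ τ ⁻¹' {t}) ∩
      (fun x => (T.1 : X → X)^[M] ((T.1.symm : X → X)^[t] x)) ⁻¹' {x | D'.v r x = w}))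
      (μ.real (C ∩ {x | kap T D' τ r M x = w})) := by
    intro M
    have h1 : C ∩ {x | kap T D' τ r M x = w} = ⋃ t : ℕ, ((C ∩ τ ⁻¹' {t}) ∩
        (fun x => (T.1 : X → X)^[M] ((T.1.symm : X → X)^[t] x)) ⁻¹' {x | D'.v r x = w}) := by
      ext x
      simp only [kap, mem_inter_iff, mem_iUnion, mem_setOf_eq, mem_preimage, mem_singleton_iff]
      constructor
      · rintro ⟨h1, h2⟩
        exact ⟨τ x, ⟨h1, rfl⟩, h2⟩
      · rintro ⟨t, ⟨h1, h2⟩, h3⟩
        subst h2
        exact ⟨h1, h3⟩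
    rw [h1]
    refine hasSum_real (m := μ) _ ?_ ?_
    · intro t t' htt
      exact (hdisj htt).mono inter_subset_left inter_subset_left
    · intro t
      exact (hCt t).inter
        (((T.1.measurable.iterate M).comp (T.1.symm.measurable.iterate t)) (D'.meas r w))
  have h2 : μ.real C / 2 ^ r = ∑' t : ℕ, μ.real (C ∩ τ ⁻¹' {t}) * (1 / 2 ^ r) := by
    rw [tsum_mul_right, hs1.tsum_eq]
    ring
  have h3 : (fun M => μ.real (C ∩ {x | kap T D' τ r M x = w})) = fun M : ℕ => ∑' t : ℕ,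
      μ.real ((C ∩ τ ⁻¹' {t}) ∩
      (fun x => (T.1 : X → X)^[M] ((T.1.symm : X → X)^[t] x)) ⁻¹' {x | D'.v r x = w}) :=
    funext fun M => (hs2 M).tsum_eq.symm
  rw [h2, h3]
  refine tendsto_tsum_of_dominated_convergence (bound := fun t : ℕ => μ.real (C ∩ τ ⁻¹' {t}))
    hs1.summable ?_ ?_
  · intro t
    rw [Metric.tendsto_atTop]
    intro ε hε
    obtain ⟨N, hN⟩ := mix2 hM (C ∩ τ ⁻¹' {t}) {x | D'.v r x = w} (hCt t) (D'.meas r w) ε hε
    refine ⟨N + t, fun M hMM => ?_⟩
    have h4 : (fun x => (T.1 : X → X)^[M] ((T.1.symm : X → X)^[t] x)) = (T.1 : X → X)^[M - t] :=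
      funext fun x => iter_cancel T t M (by omega) x
    rw [Real.dist_eq, h4, ← D'.unif r w]
    exact hN (M - t) (by omega)
  · refine Eventually.of_forall fun M t => ?_
    rw [Real.norm_of_nonneg measureReal_nonneg]
    exact measureReal_mono inter_subset_left

/-- for a fixed point of the fibre -/
theorem q_lim (T : AU μ) (hM : MMix μ (T.1 : X → X)) (D' : YS μ) (D : YS ν) (τ : X → ℕ)
    (hτ : Measurable τ) (r : ℕ) (B : Set (X × Y)) (hB : MeasurableSet B) (y : Y) :
    Tendsto (fun M => μ.real {x | (x, y) ∈ XiF D (kap T D' τ r M) ⁻¹' B}) atTop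
      (𝓝 ((∑ g : Fin r → ZMod 2, μ.real {x | (x, (D.act r g).1.symm y) ∈ B}) / 2 ^ r)) := by
  classical
  have hCg : ∀ g : Fin r → ZMod 2, MeasurableSet {x | (x, (D.act r g).1.symm y) ∈ B} := fun g =>
    measurable_prodMk_right hB
  have h1 : ∀ M : ℕ, μ.real {x | (x, y) ∈ XiF D (kap T D' τ r M) ⁻¹' B} =
      ∑ g : Fin r → ZMod 2, μ.real ({x | (x, (D.act r g).1.symm y) ∈ B} ∩
        {x | kap T D' τ r M x = g}) := by
    intro M
    rw [← measureReal_iUnion_fintype]
    · congr 1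
      ext x
      simp only [mem_setOf_eq, mem_preimage, mem_iUnion, mem_inter_iff, XiF]
      constructor
      · intro h
        exact ⟨_, h, rfl⟩
      · rintro ⟨g, h2, h3⟩
        rw [h3]
        exact h2
    · intro g g' hgg
      rw [Function.onFun, Set.disjoint_left]
      rintro x ⟨_, h2⟩ ⟨_, h3⟩
      exact hgg ((h2 : kap T D' τ r M x = g).symm.trans h3)
    · intro g
      exact (hCg g).inter (kap_meas T D' τ hτ r M g)
  simp_rw [h1, Finset.sum_div]
  exact tendsto_finset_sum _ fun g _ => kap_lim T hM D' τ hτ r _ (hCg g) g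

/-- the spread gauge -/
theorem spread (T : AU μ) (hM : MMix μ (T.1 : X → X)) (D' : YS μ) (D : YS ν) (τ : X → ℕ)
    (hτ : Measurable τ) {ι : Type} [Finite ι] (B : ι → Set (X × Y)) (hB : ∀ i, MeasurableSet (B i))
    (ε : ℝ) (hε : 0 < ε) : ∃ r M : ℕ, ∀ i, ∫ y, |μ.real {x | (x, y) ∈ XiF D (kap T D' τ r M) ⁻¹' (B i)} -
      (μ.prod ν).real (B i)| ∂ν < ε := by
  classical
  obtain ⟨r, hr⟩ : ∃ r : ℕ, ∀ i, ∫ y, |(∑ g : Fin r → ZMod 2,
      μ.real {x | (x, (D.act r g).1.symm y) ∈ B i}) / 2 ^ r - (μ.prod ν).real (B i)| ∂ν < ε / 2 := by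
    apply exists_unif (fun (i : ι) (r : ℕ) => ∫ y, |(∑ g : Fin r → ZMod 2,
      μ.real {x | (x, (D.act r g).1.symm y) ∈ B i}) / 2 ^ r - (μ.prod ν).real (B i)| ∂ν < ε / 2)
    intro i
    exact avg_lim D (B i) (hB i) (ε / 2) (by positivity)
  have hXi : ∀ M, MeasurePreserving (XiF D (kap T D' τ r M)) (μ.prod ν) (μ.prod ν) := fun M =>
    XiF_mp D (kap T D' τ r M) (fun w => kap_meas T D' τ hτ r M w)
  obtain ⟨Q, hQ⟩ : ∃ Q : ι → ℕ → Y → ℝ, ∀ i M y, Q i M y =
      μ.real {x | (x, y) ∈ XiF D (kap T D' τ r M) ⁻¹' (B i)} := ⟨_, fun _ _ _ => rfl⟩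
  obtain ⟨Av, hAv⟩ : ∃ Av : ι → Y → ℝ, ∀ i y, Av i y =
      (∑ g : Fin r → ZMod 2, μ.real {x | (x, (D.act r g).1.symm y) ∈ B i}) / 2 ^ r :=
    ⟨_, fun _ _ => rfl⟩
  have hQm : ∀ i M, Measurable (Q i M) := by
    intro i M
    rw [show Q i M = fun y => μ.real {x | (x, y) ∈ XiF D (kap T D' τ r M) ⁻¹' (B i)} from
      funext (hQ i M)]
    exact sec_meas _ ((hXi M).measurable (hB i))
  have hAvm : ∀ i, Measurable (Av i) := by
    intro i
    rw [show Av i = fun y => (∑ g : Fin r → ZMod 2,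
      μ.real {x | (x, (D.act r g).1.symm y) ∈ B i}) / 2 ^ r from funext (hAv i)]
    refine (Finset.measurable_sum _ fun g _ => ?_).div_const _
    exact (sec_meas (μ := μ) (B i) (hB i)).comp (D.act r g).1.symm.measurable
  have hQ01 : ∀ i M y, 0 ≤ Q i M y ∧ Q i M y ≤ 1 := fun i M y => by
    rw [hQ]; exact ⟨measureReal_nonneg, measureReal_le_one⟩
  have hcard : (Fintype.card (Fin r → ZMod 2) : ℝ) = 2 ^ r := by
    rw [Fintype.card_fun, Fintype.card_fin, ZMod.card]
    push_cast
    rfl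
  have hAv01 : ∀ i y, 0 ≤ Av i y ∧ Av i y ≤ 1 := by
    intro i y
    rw [hAv]
    constructor
    · exact div_nonneg (Finset.sum_nonneg fun g _ => measureReal_nonneg) (by positivity)
    · rw [div_le_one (by positivity), ← hcard]
      calc _ ≤ ∑ _g : Fin r → ZMod 2, (1 : ℝ) := Finset.sum_le_sum fun g _ => measureReal_le_one
        _ = _ := by simp
  have hlim : ∀ i, Tendsto (fun M => ∫ y, |Q i M y - Av i y| ∂ν) atTop (𝓝 0) := by
    intro i
    have h1 := tendsto_integral_of_dominated_convergence (μ := ν)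
      (F := fun M y => |Q i M y - Av i y|) (f := fun _ => (0 : ℝ)) (fun _ => (1 : ℝ))
      (fun M => ((hQm i M).sub (hAvm i)).abs.aestronglyMeasurable) (integrable_const _)
      (fun M => Eventually.of_forall fun y => by
        rw [Real.norm_eq_abs, abs_abs, abs_le]
        have := hQ01 i M y
        have := hAv01 i y
        constructor <;> linarith)
      (Eventually.of_forall fun y => by
        have h2 := q_lim T hM D' D τ hτ r (B i) (hB i) y
        rw [← hAv i y] at h2
        simp_rw [← hQ i] at h2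
        have h3 := (h2.sub_const (Av i y)).abs
        simpa using h3)
    simpa using h1
  have hev : ∀ᶠ M in atTop, ∀ i, ∫ y, |Q i M y - Av i y| ∂ν < ε / 2 := by
    rw [eventually_all]
    intro i
    exact (tendsto_order.1 (hlim i)).2 _ (by positivity)
  obtain ⟨M, hM'⟩ := hev.exists
  refine ⟨r, M, fun i => ?_⟩
  have h1 := hM' i
  have h2 := hr i
  simp_rw [← hAv i] at h2
  simp_rw [← hQ i M]
  have hi1 : Integrable (fun y => |Q i M y - Av i y|) ν := by
    refine intg _ ((hQm i M).sub (hAvm i)).abs 1 (fun y => ?_)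
    rw [abs_abs, abs_le]
    have := hQ01 i M y
    have := hAv01 i y
    constructor <;> linarith
  have hi2 : Integrable (fun y => |Av i y - (μ.prod ν).real (B i)|) ν := by
    refine intg _ ((hAvm i).sub_const _).abs 1 (fun y => ?_)
    rw [abs_abs, abs_le]
    have := hAv01 i y
    have h3 : 0 ≤ (μ.prod ν).real (B i) := measureReal_nonneg
    have h4 : (μ.prod ν).real (B i) ≤ 1 := measureReal_le_one
    constructor <;> linarith
  calc ∫ y, |Q i M y - (μ.prod ν).real (B i)| ∂ν
      ≤ ∫ y, (|Q i M y - Av i y| + |Av i y - (μ.prod ν).real (B i)|) ∂ν := by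
        refine integral_mono_of_nonneg (Eventually.of_forall fun y => abs_nonneg _) (hi1.add hi2)
          (Eventually.of_forall fun y => ?_)
        exact abs_sub_le _ _ _
    _ = ∫ y, |Q i M y - Av i y| ∂ν + ∫ y, |Av i y - (μ.prod ν).real (B i)| ∂ν := integral_add hi1 hi2
    _ < ε := by linarith

end

end Pool.Agent.V11246.MM
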