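import Mathlib
import Pool.Agent.W744.NG.Open
import Pool.Agent.W744.NG.Ind
import Pool.Agent.W744.NG.Theta
import Pool.Agent.V11246.MMe

set_option autoImplicit false
set_option linter.unusedSectionVars false
set_option linter.unusedVariables false

namespace Pool.Agent.V11246.MM

open MeasureTheory Set Filter Topology
open scoped ENNReal symmDiff
open Pool.H359R3 Pool.H359R3.IX
open Pool.Agent.W744.NG Pool.Agent.W744.NG.Dens

section
variable {X Y : Type} [MeasurableSpace X] [StandardBorelSpace X] [MeasurableSpace Y] [StandardBorelSpace Y]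
  {μ : Measure X} {ν : Measure Y} [IsProbabilityMeasure μ] [IsProbabilityMeasure ν]

theorem exists_tau (T : AU μ) (hM : MMix μ (T.1 : X → X)) (D' : YS μ) (δ : ℝ) (hδ : 0 < δ) :
    ∃ τ : X → ℕ, Measurable τ ∧ ∃ E : Set X, MeasurableSet E ∧ μ.real E < δ ∧
      ∀ x, x ∉ E → τ (T.1 x) = τ x + 1 := by
  classical
  obtain ⟨r, hr⟩ := exists_pow_lt_of_lt_one hδ (by norm_num : (1 / 2 : ℝ) < 1)
  obtain ⟨B0, hB0d⟩ : ∃ B0 : Set X, B0 = {x | D'.v r x = 0} := ⟨_, rfl⟩
  have hB0 : MeasurableSet B0 := by rw [hB0d]; exact D'.meas r 0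
  have hB0r : μ.real B0 = 1 / 2 ^ r := by rw [hB0d]; exact D'.unif r 0
  have hB0p : 0 < μ.real B0 := by rw [hB0r]; positivity
  have hB0s : μ.real B0 < δ := by
    rw [hB0r]
    rw [one_div_pow] at hr
    exact hr
  obtain ⟨G, hGd⟩ : ∃ G : Set X, G = {x | ∀ n : ℕ, (T.1.symm : X → X)^[n] x ∉ B0} := ⟨_, rfl⟩
  have hG : MeasurableSet G := by
    have : G = ⋂ n : ℕ, (T.1.symm : X → X)^[n] ⁻¹' B0ᶜ := by
      rw [hGd]
      ext x
      simp
    rw [this]
    exact MeasurableSet.iInter fun n => (T.1.symm.measurable.iterate n) hB0.compl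
  have hG0 : μ.real G = 0 := by
    have h1 : ∀ ε : ℝ, 0 < ε → μ.real B0 * μ.real G < ε := by
      intro ε hε
      obtain ⟨N, hN⟩ := mix2 hM B0 G hB0 hG ε hε
      have h2 := hN N le_rfl
      have h3 : B0 ∩ (T.1 : X → X)^[N] ⁻¹' G = ∅ := by
        rw [Set.eq_empty_iff_forall_notMem]
        rintro x ⟨h4, h5⟩
        rw [hGd] at h5
        apply h5 N
        have h6 : (T.1.symm : X → X)^[N] ((T.1 : X → X)^[N] x) = x :=
          (Function.LeftInverse.iterate (g := (T.1.symm : X → X)) (f := (T.1 : X → X))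
            (fun x => T.1.symm_apply_apply x) N) x
        rw [h6]
        exact h4
      rw [h3, measureReal_empty, zero_sub, abs_neg] at h2
      exact lt_of_le_of_lt (le_abs_self _) h2
    have h7 : μ.real B0 * μ.real G ≤ 0 := le_of_forall_pos_lt_add (fun ε hε => by
      rw [zero_add]; exact h1 ε hε)
    have h8 : 0 ≤ μ.real G := measureReal_nonneg
    nlinarith
  have hex : ∀ x, ∃ n : ℕ, (T.1.symm : X → X)^[n] x ∈ B0 ∨ x ∈ G := by
    intro x
    by_cases hx : x ∈ G
    · exact ⟨0, Or.inr hx⟩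
    · rw [hGd, mem_setOf_eq, not_forall] at hx
      obtain ⟨n, hn⟩ := hx
      exact ⟨n, Or.inl (not_not.1 hn)⟩
  refine ⟨fun x => Nat.find (hex x), ?_, (T.1 : X → X) ⁻¹' B0 ∪ G, ?_, ?_, ?_⟩
  · exact measurable_find hex (fun n => ((T.1.symm.measurable.iterate n) hB0).union hG)
  · exact (T.1.measurable hB0).union hG
  · refine lt_of_le_of_lt (measureReal_union_le _ _) ?_
    rw [hG0, add_zero, measureReal_def, T.2.measure_preimage hB0.nullMeasurableSet]
    exact hB0s
  · intro x hx
    rw [mem_union, not_or] at hx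
    obtain ⟨hx1, hx2⟩ := hx
    have hshift : ∀ n : ℕ, (T.1.symm : X → X)^[n + 1] (T.1 x) = (T.1.symm : X → X)^[n] x := by
      intro n
      rw [Function.iterate_succ_apply, T.1.symm_apply_apply]
    have hTG : T.1 x ∉ G := by
      intro h
      rw [hGd] at h hx2
      rw [mem_setOf_eq, not_forall] at hx2
      obtain ⟨n, hn⟩ := hx2
      have := h (n + 1)
      rw [hshift] at this
      exact hn this
    rw [Nat.find_eq_iff]
    constructor
    · left
      rw [hshift]
      rcases Nat.find_spec (hex x) with h | h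
      · exact h
      · exact absurd h hx2
    · intro m hm hcon
      rcases hcon with h | h
      · cases m with
        | zero => exact hx1 h
        | succ m =>
          rw [hshift] at h
          exact Nat.find_min (hex x) (Nat.lt_of_succ_lt_succ hm) (Or.inl h)
      · exact hTG h

/-- nearby cocycles have nearby iterates -/
theorem near (T : AU μ) (β : Coc X ν) (A : Set (X × Y)) (hA : MeasurableSet A) (i : ℕ) (δ : ℝ)
    (hδ : 0 < δ) : ∀ᶠ α in @nhds (Coc X ν) (tC μ ν) β,
      (μ.prod ν).real (((sk (T.1 : X → X) α)^[i] ⁻¹' A) ∆ ((sk (T.1 : X → X) β)^[i] ⁻¹' A)) < δ := by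
  obtain ⟨F⟩ := exists_DF (μ.prod ν)
  have h1 := Pool.Agent.W744.NG.Open.skA_cont (μ := μ) (ν := ν) Ind.main F T
  have h2 := cont_pow F i
  have h3 : @Continuous _ _ (tC μ ν) (un F).toTopologicalSpace
      (fun α : Coc X ν => powA (skA T α) i) :=
    @Continuous.comp _ _ _ (tC μ ν) (un F).toTopologicalSpace (un F).toTopologicalSpace _ _ h2 h1
  have h4 : Tendsto (fun α : Coc X ν => powA (skA T α) i) (@nhds (Coc X ν) (tC μ ν) β)
      (@nhds _ (un F).toTopologicalSpace (powA (skA T β) i)) :=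
    (@continuous_iff_continuousAt _ _ (tC μ ν) (un F).toTopologicalSpace _).1 h3 β
  have h5 := of_tendsto_un F _ _ _ h4 A hA (measure_lt_top _ _)
  have h6 : ∀ α : Coc X ν, ((powA (skA T α) i).1 : X × Y → X × Y) = (sk (T.1 : X → X) α)^[i] := by
    intro α
    funext z
    rw [powA_apply]
    rfl
  have h7 := (tendsto_order.1 h5).2 (ENNReal.ofReal δ) (ENNReal.ofReal_pos.2 hδ)
  filter_upwards [h7] with α hα
  rw [h6, h6] at hα
  rw [measureReal_def]
  exact ENNReal.toReal_lt_of_lt_ofReal hα

theorem ind_diff {Z : Type*} [MeasurableSpace Z] {m : Measure Z} [IsProbabilityMeasure m]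
    (B B' : Set Z) (hB : MeasurableSet B) (hB' : MeasurableSet B') :
    ∫ z, |B.indicator (fun _ => (1 : ℝ)) z - B'.indicator (fun _ => (1 : ℝ)) z| ∂m = m.real (B ∆ B') := by
  have h1 : ∀ z, |B.indicator (fun _ => (1 : ℝ)) z - B'.indicator (fun _ => (1 : ℝ)) z| =
      (B ∆ B').indicator (fun _ => (1 : ℝ)) z := by
    intro z
    by_cases h1 : z ∈ B
    · by_cases h2 : z ∈ B'
      · have h3 : z ∉ B ∆ B' := by rw [mem_symmDiff]; tauto
        rw [indicator_of_mem h1, indicator_of_mem h2, indicator_of_notMem h3]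
        simp
      · have h3 : z ∈ B ∆ B' := by rw [mem_symmDiff]; tauto
        rw [indicator_of_mem h1, indicator_of_notMem h2, indicator_of_mem h3]
        simp
    · by_cases h2 : z ∈ B'
      · have h3 : z ∈ B ∆ B' := by rw [mem_symmDiff]; tauto
        rw [indicator_of_notMem h1, indicator_of_mem h2, indicator_of_mem h3]
        simp
      · have h3 : z ∉ B ∆ B' := by rw [mem_symmDiff]; tauto
        rw [indicator_of_notMem h1, indicator_of_notMem h2, indicator_of_notMem h3]
        simp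
  simp_rw [h1]
  rw [integral_indicator_const _ (hB.symmDiff hB'), smul_eq_mul, mul_one]

theorem stp_sec (D' : YS μ) (ρ : ℕ) (C : (Fin ρ → ZMod 2) → Set Y) (y : Y) :
    ∑ w : Fin ρ → ZMod 2, μ.real (D'.v ρ ⁻¹' {w}) * (C w).indicator (fun _ => (1 : ℝ)) y =
      μ.real {x | (x, y) ∈ stp D' ρ C} := by
  classical
  have h1 : {x | (x, y) ∈ stp D' ρ C} = ⋃ w : Fin ρ → ZMod 2,
      (if y ∈ C w then D'.v ρ ⁻¹' {w} else ∅) := by
    ext x
    simp only [stp, mem_setOf_eq, mem_iUnion]
    constructor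
    · intro h
      refine ⟨D'.v ρ x, ?_⟩
      rw [if_pos h]
      rfl
    · rintro ⟨w, hw⟩
      split_ifs at hw with h
      · have h2 : D'.v ρ x = w := hw
        rw [h2]
        exact h
      · exact absurd hw (notMem_empty _)
  rw [h1, measureReal_iUnion_fintype]
  · refine Finset.sum_congr rfl fun w _ => ?_
    by_cases h : y ∈ C w
    · rw [if_pos h, indicator_of_mem h, mul_one]
    · rw [if_neg h, indicator_of_notMem h, mul_zero, measureReal_empty]
  · intro w w' hww
    rw [Function.onFun, Set.disjoint_left]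
    intro x h2 h3
    split_ifs at h2 h3
    · exact hww ((h2 : D'.v ρ x = w).symm.trans h3)
    · exact absurd h3 (notMem_empty _)
    · exact absurd h2 (notMem_empty _)
    · exact absurd h2 (notMem_empty _)
  · intro w
    split_ifs
    · exact D'.meas ρ w
    · exact MeasurableSet.empty

end

end Pool.Agent.V11246.MM
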