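import Mathlib
import Pool.Agent.W744.NG.Final
import Pool.Agent.W744.NG.YSt
import Pool.Agent.V11246.MMf

set_option autoImplicit false
set_option linter.unusedSectionVars false
set_option linter.unusedVariables false

namespace Pool.Agent.V11246.MM

open MeasureTheory Set Filter Topology
open scoped ENNReal symmDiff
open Pool.H359R3 Pool.H359R3.IX
open Pool.Agent.W744.NG Pool.Agent.W744.NG.Dens

section
variable {X Y : Type} [MeasurableSpace X] [StandardBorelSpace X] [MeasurableSpace Y] [StandardBorelSpace Y]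
  {μ : Measure X} {ν : Measure Y} [IsProbabilityMeasure μ] [IsProbabilityMeasure ν]

theorem dens (T : AU μ) (hM : MMix μ (T.1 : X → X)) (D' : YS μ) (D : YS ν) (k : ℕ) (hk : 2 ≤ k)
    (A : Fin (k + 1) → Set (X × Y)) (hA : ∀ j, MeasurableSet (A j)) (ε : ℝ) (hε : 0 < ε)
    (Φ : Coc X ν) (δ : ℝ) (hδ : 0 < δ) :
    ∃ β : Coc X ν, (∃ E : Set X, MeasurableSet E ∧ μ.real E < δ ∧ ∀ x, x ∉ E → β.1 x = Φ.1 x) ∧
      ∃ N : ℕ, ∀ᶠ α in @nhds (Coc X ν) (tC μ ν) β, ∀ n : Fin (k + 1) → ℕ, Gap N n →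
        |(μ.prod ν).real (⋂ j, (sk (T.1 : X → X) α)^[n j] ⁻¹' (A j)) - ∏ j, (μ.prod ν).real (A j)| <
          ε := by
  classical
  obtain ⟨η, hη⟩ : ∃ η : ℝ, η = ε / (6 * (k + 1)) := ⟨_, rfl⟩
  have hη0 : 0 < η := by rw [hη]; positivity
  obtain ⟨τ, hτ, E, hE1, hE2, hE3⟩ := exists_tau T hM D' δ hδ
  obtain ⟨θ, hθ⟩ := Theta.theta X Y μ ν T Φ τ hτ
  -- the sets in the first coordinates
  obtain ⟨B, hBd⟩ : ∃ B : Fin (k + 1) → Set (X × Y), ∀ j, B j = (sk (oneA : AU μ).1 θ) ⁻¹' (A j) :=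
    ⟨_, fun _ => rfl⟩
  have hB : ∀ j, MeasurableSet (B j) := fun j => by
    rw [hBd]; exact (sk_mp (oneA : AU μ) θ).measurable (hA j)
  have hBr : ∀ j, (μ.prod ν).real (B j) = (μ.prod ν).real (A j) := fun j => by
    rw [hBd, measureReal_def, (sk_mp (oneA : AU μ) θ).measure_preimage (hA j).nullMeasurableSet]
    rfl
  obtain ⟨r, M, hspr⟩ := spread T hM D' D τ hτ B hB η hη0
  obtain ⟨Γ, hΓd⟩ : ∃ Γ : X → Fin r → ZMod 2, Γ = kap T D' τ r M := ⟨_, rfl⟩
  have hΓ : ∀ w, MeasurableSet {x | Γ x = w} := fun w => by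
    rw [hΓd]; exact kap_meas T D' τ hτ r M w
  obtain ⟨β, hβ⟩ := Theta.alpha X Y μ ν T θ D r Γ hΓ
  refine ⟨β, ⟨E, hE1, hE2, ?_⟩, ?_⟩
  · intro x hx
    have h1 := hE3 x hx
    have h2 : Γ (T.1 x) = Γ x := by rw [hΓd]; exact kap_inv T D' τ r M x h1
    apply Subtype.ext
    apply MeasurableEquiv.ext
    funext y
    rw [hβ x y, h2, hθ x h1]
    simp
  -- the sets in the new coordinates
  obtain ⟨H, hHd⟩ : ∃ H : Fin (k + 1) → Set (X × Y), ∀ j, H j = XiF D Γ ⁻¹' (B j) :=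
    ⟨_, fun _ => rfl⟩
  have hXi : MeasurePreserving (XiF D Γ) (μ.prod ν) (μ.prod ν) := XiF_mp D Γ hΓ
  have hPsi : MeasurePreserving (PsiF D Γ θ) (μ.prod ν) (μ.prod ν) := PsiF_mp (μ := μ) D Γ hΓ θ
  have hH : ∀ j, MeasurableSet (H j) := fun j => by rw [hHd]; exact hXi.measurable (hB j)
  have hAH : ∀ j z, z ∈ A j ↔ PsiF D Γ θ z ∈ H j := by
    intro j z
    rw [hHd, hBd]
    show _ ↔ sk (oneA : AU μ).1 θ (XiF D Γ (PsiF D Γ θ z)) ∈ A j
    have h1 : sk (oneA : AU μ).1 θ (XiF D Γ (PsiF D Γ θ z)) = z := by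
      unfold Pool.Agent.W744.NG.sk XiF PsiF
      simp [oneA]
    rw [h1]
  obtain ⟨ρ, hρ⟩ : ∃ ρ : ℕ, ∀ j, ∃ C : (Fin ρ → ZMod 2) → Set Y, (∀ w, MeasurableSet (C w)) ∧
      (μ.prod ν).real (H j ∆ stp D' ρ C) < η := by
    apply exists_unif (fun (j : Fin (k + 1)) (ρ : ℕ) => ∃ C : (Fin ρ → ZMod 2) → Set Y,
      (∀ w, MeasurableSet (C w)) ∧ (μ.prod ν).real (H j ∆ stp D' ρ C) < η)
    intro j
    exact appr_all D' (H j) (hH j) η hη0
  choose C hC1 hC2 using hρ
  let mW : MeasurableSpace (Fin ρ → ZMod 2) := ⊤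
  have dW : DiscreteMeasurableSpace (Fin ρ → ZMod 2) := ⟨fun _ => trivial⟩
  have hv : Measurable (D'.v ρ) := meas_fin (D'.v ρ) (D'.meas ρ) id
  have hcp : (0 : ℝ) < Fintype.card (Fin (k + 1) → (Fin ρ → ZMod 2)) := by
    exact_mod_cast Fintype.card_pos
  obtain ⟨δ₂, hδ₂⟩ : ∃ δ₂ : ℝ, δ₂ = η / Fintype.card (Fin (k + 1) → (Fin ρ → ZMod 2)) := ⟨_, rfl⟩
  have hδ₂0 : 0 < δ₂ := by rw [hδ₂]; positivity
  obtain ⟨L, t, N, hL, hN⟩ := ergL (W := Fin ρ → ZMod 2) T.2 hM (fun w => D'.v ρ ⁻¹' {w})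
    (fun w => D'.meas ρ w) k hk δ₂ hδ₂0
  refine ⟨N, ?_⟩
  have hev : ∀ᶠ α in @nhds (Coc X ν) (tC μ ν) β, ∀ l : Fin L, ∀ j : Fin (k + 1),
      (μ.prod ν).real (((sk (T.1 : X → X) α)^[t l] ⁻¹' (A j)) ∆
        ((sk (T.1 : X → X) β)^[t l] ⁻¹' (A j))) < η := by
    rw [eventually_all]
    intro l
    rw [eventually_all]
    intro j
    exact near T β (A j) (hA j) (t l) η hη0
  filter_upwards [hev] with α hα n hn
  have hSα : MeasurePreserving (sk (T.1 : X → X) α) (μ.prod ν) (μ.prod ν) := sk_mp T α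
  have hSβ : MeasurePreserving (sk (T.1 : X → X) β) (μ.prod ν) (μ.prod ν) := sk_mp T β
  have hTm : Measurable (T.1 : X → X) := T.1.measurable
  have hkey := est (μ := μ) (ν := ν) (T := (T.1 : X → X)) hTm hSα (fun z => rfl) hPsi (D'.v ρ) hv
    (fun j w => (C j w).indicator (fun _ => (1 : ℝ)))
    (fun j w => measurable_const.indicator (hC1 j w))
    (fun j w y => ⟨indicator_nonneg (fun _ _ => zero_le_one) _,
      indicator_le_self' (fun _ _ => zero_le_one) _⟩)
    A hA hL t n (2 * η) δ₂ (2 * η) ?_ ?_ ?_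
  · refine lt_of_le_of_lt hkey ?_
    have h1 : (Fintype.card (Fin (k + 1) → (Fin ρ → ZMod 2)) : ℝ) * δ₂ = η := by
      rw [hδ₂]
      field_simp
    have h2 : ((k : ℝ) + 1) * (6 * η) = ε := by
      rw [hη]
      field_simp
    have h3 : (0 : ℝ) ≤ k := Nat.cast_nonneg k
    rw [h1]
    nlinarith
  · -- nearness to the step functions
    intro l j
    have hmS : Measurable ((sk (T.1 : X → X) α)^[t l]) := hSα.measurable.iterate _
    have hmSβ : Measurable ((sk (T.1 : X → X) β)^[t l]) := hSβ.measurable.iterate _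
    obtain ⟨Θ, hΘ⟩ : ∃ Θ : X × Y → X × Y, ∀ z, Θ z = ((T.1 : X → X)^[t l] z.1, (PsiF D Γ θ z).2) :=
      ⟨_, fun _ => rfl⟩
    have hΘmp : MeasurePreserving Θ (μ.prod ν) (μ.prod ν) := by
      have h1 : Θ = (fun z : X × Y => ((T.1 : X → X)^[t l] z.1, z.2)) ∘ (PsiF D Γ θ) := by
        funext z
        rw [hΘ]
        rfl
      rw [h1]
      exact ((T.2.iterate (t l)).prod (MeasurePreserving.id ν)).comp hPsi
    have e1 : ∀ z, (A j).indicator (fun _ => (1 : ℝ)) ((sk (T.1 : X → X) β)^[t l] z) =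
        (H j).indicator (fun _ => (1 : ℝ)) (Θ z) := by
      intro z
      have h1 := conj_iter D Γ T θ β hβ (t l) z
      have h2 : (sk (T.1 : X → X) β)^[t l] z ∈ A j ↔ Θ z ∈ H j := by
        rw [hAH, h1, hΘ]
      by_cases h3 : (sk (T.1 : X → X) β)^[t l] z ∈ A j
      · rw [indicator_of_mem h3, indicator_of_mem (h2.1 h3)]
      · rw [indicator_of_notMem h3, indicator_of_notMem (fun h => h3 (h2.2 h))]
    have e2 : ∀ z, (C j (D'.v ρ ((T.1 : X → X)^[t l] z.1))).indicator (fun _ => (1 : ℝ))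
        (PsiF D Γ θ z).2 = (stp D' ρ (C j)).indicator (fun _ => (1 : ℝ)) (Θ z) := by
      intro z
      have h2 : (PsiF D Γ θ z).2 ∈ C j (D'.v ρ ((T.1 : X → X)^[t l] z.1)) ↔
          Θ z ∈ stp D' ρ (C j) := by
        rw [hΘ]
        rfl
      by_cases h3 : (PsiF D Γ θ z).2 ∈ C j (D'.v ρ ((T.1 : X → X)^[t l] z.1))
      · rw [indicator_of_mem h3, indicator_of_mem (h2.1 h3)]
      · rw [indicator_of_notMem h3, indicator_of_notMem (fun h => h3 (h2.2 h))]
    have hsm := stp_meas D' ρ (C j) (hC1 j)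
    have i1 : ∫ z, |(A j).indicator (fun _ => (1 : ℝ)) ((sk (T.1 : X → X) α)^[t l] z) -
        (A j).indicator (fun _ => (1 : ℝ)) ((sk (T.1 : X → X) β)^[t l] z)| ∂(μ.prod ν) < η := by
      have h1 := ind_diff (m := μ.prod ν) ((sk (T.1 : X → X) α)^[t l] ⁻¹' (A j))
        ((sk (T.1 : X → X) β)^[t l] ⁻¹' (A j)) (hmS (hA j)) (hmSβ (hA j))
      have h2 := hα l j
      rw [← h1] at h2
      exact h2
    have hdm : Measurable (fun z => |(H j).indicator (fun _ => (1 : ℝ)) z -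
        (stp D' ρ (C j)).indicator (fun _ => (1 : ℝ)) z|) :=
      ((measurable_const.indicator (hH j)).sub (measurable_const.indicator hsm)).abs
    have i2 : ∫ z, |(H j).indicator (fun _ => (1 : ℝ)) (Θ z) -
        (stp D' ρ (C j)).indicator (fun _ => (1 : ℝ)) (Θ z)| ∂(μ.prod ν) < η := by
      rw [int_comp hΘmp (fun z => |(H j).indicator (fun _ => (1 : ℝ)) z -
        (stp D' ρ (C j)).indicator (fun _ => (1 : ℝ)) z|) hdm]
      rw [ind_diff (H j) _ (hH j) hsm]
      exact hC2 j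
    have hind1 : ∀ (Q : Set (X × Y)) z, |Q.indicator (fun _ => (1 : ℝ)) z| ≤ 1 := by
      intro Q z
      rw [abs_of_nonneg (indicator_nonneg (fun _ _ => zero_le_one) _)]
      exact indicator_le_self' (fun _ _ => zero_le_one) _
    have hg1 : Integrable (fun z => |(A j).indicator (fun _ => (1 : ℝ)) ((sk (T.1 : X → X) α)^[t l] z) -
        (A j).indicator (fun _ => (1 : ℝ)) ((sk (T.1 : X → X) β)^[t l] z)|) (μ.prod ν) := by
      refine intg _ (((measurable_const.indicator (hA j)).comp hmS).sub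
        ((measurable_const.indicator (hA j)).comp hmSβ)).abs 2 (fun z => ?_)
      rw [abs_abs]
      have h1 := hind1 (A j) ((sk (T.1 : X → X) α)^[t l] z)
      have h2 := hind1 (A j) ((sk (T.1 : X → X) β)^[t l] z)
      have := abs_sub ((A j).indicator (fun _ => (1 : ℝ)) ((sk (T.1 : X → X) α)^[t l] z))
        ((A j).indicator (fun _ => (1 : ℝ)) ((sk (T.1 : X → X) β)^[t l] z))
      linarith
    have hg2 : Integrable (fun z => |(H j).indicator (fun _ => (1 : ℝ)) (Θ z) -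
        (stp D' ρ (C j)).indicator (fun _ => (1 : ℝ)) (Θ z)|) (μ.prod ν) := by
      refine intg _ (hdm.comp hΘmp.measurable) 2 (fun z => ?_)
      rw [abs_abs]
      have h1 := hind1 (H j) (Θ z)
      have h2 := hind1 (stp D' ρ (C j)) (Θ z)
      have := abs_sub ((H j).indicator (fun _ => (1 : ℝ)) (Θ z))
        ((stp D' ρ (C j)).indicator (fun _ => (1 : ℝ)) (Θ z))
      linarith
    calc _ ≤ ∫ z, (|(A j).indicator (fun _ => (1 : ℝ)) ((sk (T.1 : X → X) α)^[t l] z) -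
        (A j).indicator (fun _ => (1 : ℝ)) ((sk (T.1 : X → X) β)^[t l] z)| +
        |(H j).indicator (fun _ => (1 : ℝ)) (Θ z) -
        (stp D' ρ (C j)).indicator (fun _ => (1 : ℝ)) (Θ z)|) ∂(μ.prod ν) := by
          refine integral_mono_of_nonneg (Eventually.of_forall fun z => abs_nonneg _) (hg1.add hg2)
            (Eventually.of_forall fun z => ?_)
          show |(A j).indicator (fun _ => (1 : ℝ)) ((sk (T.1 : X → X) α)^[t l] z) -
            (C j (D'.v ρ ((T.1 : X → X)^[t l] z.1))).indicator (fun _ => (1 : ℝ))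
            (PsiF D Γ θ z).2| ≤ _
          rw [e2]
          dsimp only
          rw [← e1 z]
          exact abs_sub_le _ _ _
      _ ≤ 2 * η := by
        rw [integral_add hg1 hg2]
        linarith
  · intro w
    exact (hN n hn w).le
  · -- the averages
    intro j
    have hsm := stp_meas D' ρ (C j) (hC1 j)
    have h1 := sec_diff (μ := μ) (ν := ν) _ _ hsm (hH j)
    rw [symmDiff_comm] at h1
    have h2 := hspr j
    rw [hBr, ← hΓd] at h2
    simp_rw [← hHd j] at h2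
    have hm1 := sec_meas (μ := μ) _ hsm
    have hm2 := sec_meas (μ := μ) _ (hH j)
    have hb : ∀ (Q : Set (X × Y)) y, |μ.real {x | (x, y) ∈ Q}| ≤ 1 := by
      intro Q y
      rw [abs_of_nonneg measureReal_nonneg]
      exact measureReal_le_one
    have hg1 : Integrable (fun y => |μ.real {x | (x, y) ∈ stp D' ρ (C j)} -
        μ.real {x | (x, y) ∈ H j}|) ν := by
      refine intg _ (hm1.sub hm2).abs 2 (fun y => ?_)
      rw [abs_abs]
      have h3 := hb (stp D' ρ (C j)) y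
      have h4 := hb (H j) y
      have := abs_sub (μ.real {x | (x, y) ∈ stp D' ρ (C j)}) (μ.real {x | (x, y) ∈ H j})
      linarith
    have hg2 : Integrable (fun y => |μ.real {x | (x, y) ∈ H j} - (μ.prod ν).real (A j)|) ν := by
      refine intg _ (hm2.sub_const _).abs 2 (fun y => ?_)
      rw [abs_abs]
      have h4 := hb (H j) y
      have h5 : |(μ.prod ν).real (A j)| ≤ 1 := by
        rw [abs_of_nonneg measureReal_nonneg]
        exact measureReal_le_one
      have := abs_sub (μ.real {x | (x, y) ∈ H j}) ((μ.prod ν).real (A j))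
      linarith
    calc _ ≤ ∫ y, (|μ.real {x | (x, y) ∈ stp D' ρ (C j)} - μ.real {x | (x, y) ∈ H j}| +
        |μ.real {x | (x, y) ∈ H j} - (μ.prod ν).real (A j)|) ∂ν := by
          refine integral_mono_of_nonneg (Eventually.of_forall fun z => abs_nonneg _) (hg1.add hg2)
            (Eventually.of_forall fun y => ?_)
          show |∑ w : Fin ρ → ZMod 2, μ.real (D'.v ρ ⁻¹' {w}) *
            (C j w).indicator (fun _ => (1 : ℝ)) y - (μ.prod ν).real (A j)| ≤ _
          rw [stp_sec]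
          exact abs_sub_le _ _ _
      _ ≤ 2 * η := by
        rw [integral_add hg1 hg2]
        have := hC2 j
        linarith

end

end Pool.Agent.V11246.MM
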