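import Mathlib
import Pool.Agent.V11246.MMg

set_option autoImplicit false
set_option linter.unusedSectionVars false
set_option linter.unusedVariables false

namespace Pool.Agent.V11246.MM

open MeasureTheory Set Filter Topology
open scoped ENNReal symmDiff
open Pool.H359R3 Pool.H359R3.IX
open Pool.Agent.W744.NG Pool.Agent.W744.NG.Dens

theorem real_diff {Z : Type*} [MeasurableSpace Z] {m : Measure Z} [IsProbabilityMeasure m]
    (A B C : Set Z) (h1 : A ⊆ B ∪ C) (h2 : B ⊆ A ∪ C) : |m.real A - m.real B| ≤ m.real C := by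
  have e1 := (measureReal_mono (μ := m) h1).trans (measureReal_union_le _ _)
  have e2 := (measureReal_mono (μ := m) h2).trans (measureReal_union_le _ _)
  rw [abs_le]
  constructor <;> linarith

theorem sd_cover {Z : Type*} (A B : Set Z) : A ⊆ B ∪ (A ∆ B) := by
  intro z hz
  by_cases h : z ∈ B
  · exact Or.inl h
  · exact Or.inr (Or.inl ⟨hz, h⟩)

/-- mixing of all orders can be checked on a dense family -/
theorem mmix_of {Z : Type*} [MeasurableSpace Z] {m : Measure Z} [IsProbabilityMeasure m] {S : Z → Z}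
    (hS : MeasurePreserving S m m) (F : DF m)
    (h : ∀ k : ℕ, 2 ≤ k → ∀ i : Fin (k + 1) → ℕ, ∀ ε : ℝ, 0 < ε → ∃ N : ℕ,
      ∀ n : Fin (k + 1) → ℕ, Gap N n →
        |m.real (⋂ j, S^[n j] ⁻¹' (F.C (i j))) - ∏ j, m.real (F.C (i j))| < ε) : MMix m S := by
  intro k hk A hA ε hε
  obtain ⟨η, hη⟩ : ∃ η : ℝ, η = ε / (4 * (k + 1)) := ⟨_, rfl⟩
  have hη0 : 0 < η := by rw [hη]; positivity
  have hap : ∀ j, ∃ i : ℕ, m.real (A j ∆ F.C i) < η := by
    intro j
    obtain ⟨i, hi⟩ := F.dense (A j) (hA j) (measure_lt_top _ _) (ENNReal.ofReal η)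
      (ENNReal.ofReal_pos.2 hη0)
    exact ⟨i, ENNReal.toReal_lt_of_lt_ofReal hi⟩
  choose i hi using hap
  obtain ⟨N, hN⟩ := h k hk i (ε / 2) (by positivity)
  refine ⟨N, fun n hn => ?_⟩
  have h1 := hN n hn
  have hsum : ∑ _j : Fin (k + 1), η = ε / 4 := by
    rw [Finset.sum_const, Finset.card_univ, Fintype.card_fin, nsmul_eq_mul, hη]
    push_cast
    field_simp
  have h2 : |m.real (⋂ j, S^[n j] ⁻¹' (A j)) - m.real (⋂ j, S^[n j] ⁻¹' (F.C (i j)))| ≤ ε / 4 := by
    refine (real_diff _ _ (⋃ j, S^[n j] ⁻¹' (A j ∆ F.C (i j))) ?_ ?_).trans ?_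
    · intro z hz
      by_cases h3 : z ∈ ⋂ j, S^[n j] ⁻¹' (F.C (i j))
      · exact Or.inl h3
      · rw [mem_iInter, not_forall] at h3
        obtain ⟨j, hj⟩ := h3
        exact Or.inr (mem_iUnion.2 ⟨j, Or.inl ⟨mem_iInter.1 hz j, hj⟩⟩)
    · intro z hz
      by_cases h3 : z ∈ ⋂ j, S^[n j] ⁻¹' (A j)
      · exact Or.inl h3
      · rw [mem_iInter, not_forall] at h3
        obtain ⟨j, hj⟩ := h3
        exact Or.inr (mem_iUnion.2 ⟨j, Or.inr ⟨mem_iInter.1 hz j, hj⟩⟩)
    · refine (measureReal_iUnion_fintype_le _).trans ?_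
      rw [← hsum]
      refine Finset.sum_le_sum fun j _ => ?_
      have h4 : m.real (S^[n j] ⁻¹' (A j ∆ F.C (i j))) = m.real (A j ∆ F.C (i j)) := by
        rw [measureReal_def, measureReal_def, (hS.iterate (n j)).measure_preimage
          ((hA j).symmDiff (F.meas _)).nullMeasurableSet]
      rw [h4]
      exact (hi j).le
  have h3 : |∏ j, m.real (F.C (i j)) - ∏ j, m.real (A j)| ≤ ε / 4 := by
    refine (abs_prod_sub Finset.univ (fun j => m.real (F.C (i j))) (fun j => m.real (A j))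
      (fun j => ⟨measureReal_nonneg, measureReal_le_one⟩)
      (fun j => ⟨measureReal_nonneg, measureReal_le_one⟩)).trans ?_
    rw [← hsum]
    refine Finset.sum_le_sum fun j _ => ?_
    refine (real_diff _ _ (A j ∆ F.C (i j)) ?_ (sd_cover _ _)).trans (hi j).le
    rw [symmDiff_comm]
    exact sd_cover _ _
  have h4 := abs_sub_le (m.real (⋂ j, S^[n j] ⁻¹' (A j))) (m.real (⋂ j, S^[n j] ⁻¹' (F.C (i j))))
    (∏ j, m.real (A j))
  have h5 := abs_sub_le (m.real (⋂ j, S^[n j] ⁻¹' (F.C (i j)))) (∏ j, m.real (F.C (i j)))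
    (∏ j, m.real (A j))
  linarith

theorem mmix_congr {Z : Type*} [MeasurableSpace Z] {m : Measure Z} {S S' : Z → Z}
    (hS : MeasurePreserving S m m) (h : ∀ᵐ z ∂m, S z = S' z) (h1 : MMix m S) : MMix m S' := by
  intro k hk A hA ε hε
  obtain ⟨N, hN⟩ := h1 k hk A hA ε hε
  refine ⟨N, fun n hn => ?_⟩
  have h2 : ∀ i : ℕ, ∀ᵐ z ∂m, S^[i] z = S'^[i] z := by
    intro i
    induction i with
    | zero => exact Eventually.of_forall fun z => rfl
    | succ i ih =>
      have h3 := hS.quasiMeasurePreserving.ae ih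
      filter_upwards [h3, h] with z hz1 hz2
      rw [Function.iterate_succ_apply, Function.iterate_succ_apply, hz1, hz2]
  have h4 : m.real (⋂ j, S'^[n j] ⁻¹' (A j)) = m.real (⋂ j, S^[n j] ⁻¹' (A j)) := by
    apply measureReal_congr
    have h5 : ∀ᵐ z ∂m, ∀ j, S^[n j] z = S'^[n j] z := by
      rw [eventually_all]
      exact fun j => h2 (n j)
    filter_upwards [h5] with z hz
    apply propext
    show z ∈ (⋂ j, S'^[n j] ⁻¹' (A j)) ↔ z ∈ (⋂ j, S^[n j] ⁻¹' (A j))
    rw [mem_iInter, mem_iInter]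
    refine forall_congr' fun j => ?_
    rw [mem_preimage, mem_preimage, hz j]
  rw [h4]
  exact hN n hn

section
variable {X Y : Type} [MeasurableSpace X] [StandardBorelSpace X] [MeasurableSpace Y] [StandardBorelSpace Y]
  {μ : Measure X} {ν : Measure Y} [IsProbabilityMeasure μ] [IsProbabilityMeasure ν]

/-- the generic cocycle -/
theorem generic (T : AU μ) (hM : MMix μ (T.1 : X → X)) (D' : YS μ) (D : YS ν) :
    {Φ : Coc X ν | MMix (μ.prod ν) (Pool.Agent.W744.NG.sk (T.1 : X → X) Φ)} ∈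
      @residual (Coc X ν) (tC μ ν) := by
  let _ : TopologicalSpace (Coc X ν) := tC μ ν
  obtain ⟨F⟩ := exists_DF (μ.prod ν)
  obtain ⟨U, hU⟩ : ∃ U : (Σ k : ℕ, (Fin (k + 1) → ℕ)) × ℕ → Set (Coc X ν), ∀ p, U p =
      {α | ∃ N : ℕ, ∀ n : Fin (p.1.1 + 1) → ℕ, Gap N n →
        |(μ.prod ν).real (⋂ j, (Pool.Agent.W744.NG.sk (T.1 : X → X) α)^[n j] ⁻¹' (F.C (p.1.2 j))) -
          ∏ j, (μ.prod ν).real (F.C (p.1.2 j))| < 1 / ((p.2 : ℝ) + 1)} := ⟨_, fun _ => rfl⟩
  have h1 : (⋂ p : (Σ k : ℕ, (Fin (k + 1) → ℕ)) × ℕ, {α | 2 ≤ p.1.1 → α ∈ U p}) ∈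
      residual (Coc X ν) := by
    rw [countable_iInter_mem]
    rintro ⟨⟨k, i⟩, m⟩
    by_cases hk : 2 ≤ k
    · have hε : (0 : ℝ) < 1 / ((m : ℝ) + 1) := by positivity
      have hres : interior (U ⟨⟨k, i⟩, m⟩) ∈ residual (Coc X ν) := by
        refine residual_of_dense_open isOpen_interior ?_
        rw [dense_iff_inter_open]
        intro O hO hne
        obtain ⟨Φ, hΦ⟩ := hne
        have h2 : ∀ l : ℕ, ∃ β : Coc X ν, (∃ E : Set X, MeasurableSet E ∧
            μ.real E < 1 / ((l : ℝ) + 1) ∧ ∀ x, x ∉ E → β.1 x = Φ.1 x) ∧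
            β ∈ interior (U ⟨⟨k, i⟩, m⟩) := by
          intro l
          obtain ⟨β, hβ, N, hN⟩ := dens T hM D' D k hk (fun j => F.C (i j)) (fun j => F.meas _)
            (1 / ((m : ℝ) + 1)) hε Φ (1 / ((l : ℝ) + 1)) (by positivity)
          refine ⟨β, hβ, ?_⟩
          rw [mem_interior_iff_mem_nhds]
          filter_upwards [hN] with α hα
          rw [hU]
          exact ⟨N, hα⟩
        choose β hβ hβ2 using h2
        choose E hE1 hE2 hE3 using hβ
        have h3 : Tendsto (fun l => μ.real (E l)) atTop (𝓝 0) :=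
          squeeze_zero (fun l => measureReal_nonneg) (fun l => (hE2 l).le)
            tendsto_one_div_add_atTop_nhds_zero_nat
        have h4 := Pool.Agent.W744.NG.Final.tend_of_agree (μ := μ) Ind.main Φ β E hE1 h3 hE3
        obtain ⟨l, hl⟩ := (h4.eventually (hO.mem_nhds hΦ)).exists
        exact ⟨β l, hl, hβ2 l⟩
      exact Filter.mem_of_superset hres (fun α hα _ => interior_subset hα)
    · exact Filter.mem_of_superset Filter.univ_mem (fun α _ h => absurd h hk)
  refine Filter.mem_of_superset h1 ?_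
  intro α hα
  rw [mem_iInter] at hα
  show MMix (μ.prod ν) (Pool.Agent.W744.NG.sk (T.1 : X → X) α)
  apply mmix_of (sk_mp T α) F
  intro k hk i ε hε
  obtain ⟨m, hm⟩ := exists_nat_one_div_lt hε
  have h2 := hα ⟨⟨k, i⟩, m⟩ hk
  rw [hU] at h2
  obtain ⟨N, hN⟩ := h2
  exact ⟨N, fun n hn => (hN n hn).trans hm⟩

end

end Pool.Agent.V11246.MM
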