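import Pool.Agent.V11246.CohP

/-!
# Cohen forcing in a plain model: the transfer of collapses
-/

set_option maxHeartbeats 1000000
set_option linter.all false
set_option synthInstance.maxSize 2000

namespace Pool.Agent.Helper672.ZFA.V246

open FirstOrder FirstOrder.Language
open H635 (IWO)
open Pool.Agent.H310
open Pool.Agent.H310Cards
open Pool.Agent.V11246 (IsOrdinal IsSuccCard IsBit Sub IsCond IsCohen NameAt ForcesSurj Collapses)
open Pool.Agent.Helper672.Plain (LSet)
open Pool.Agent.H635Amen (ZF)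

universe u

section

attribute [local instance] Helper672.Plain.toL

variable {M : Type u} [LSet.Structure M] [hZ : ZF M]

local instance instModelL6 : IsModel M := Helper672.Plain.isModel_toL

variable {K : Type u} [ITy M K] [LinearOrder K] [ILE M K] {B : Type u} [ITy M B]

theorem nameAt_iff {F q x y : M} : NameAt F q x y ↔ Mem (op q (op x y)) F := by
  unfold NameAt
  constructor
  · rintro ⟨t, h1, h2⟩
    rw [ordPair_iff] at h1
    subst h1
    exact app_iff.1 h2
  · intro h1
    exact ⟨_, ordPair_iff.2 rfl, app_iff.2 h1⟩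

theorem sub_iff {p q : Cd M K B} : Sub (code (M := M) p) (code q) ↔ Cle q p := by
  constructor
  · intro h c hc
    have h1 : Mem (code (M := M) c) (code (M := M) q.1) := h _ (mem_codeS.2 ⟨c, hc, rfl⟩)
    obtain ⟨c', hc', h2⟩ := mem_codeS.1 h1
    exact ITy.inj h2 ▸ hc'
  · intro h z hz
    replace hz : Mem z (code (M := M) p.1) := hz
    obtain ⟨c, hc, rfl⟩ := mem_codeS.1 hz
    have h1 : Mem (code (M := M) c) (code (M := M) q.1) := mem_codeS.2 ⟨c, h c hc, rfl⟩
    exact h1

theorem transfer (h : Crd M K) {l : M} (hlo : IsOrdinal l)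
    (hK : ∀ z, Mem z l ↔ ∃ x : K, code x = z)
    (hlt : ∀ x y : K, x < y ↔ Mem (code (M := M) x) (code y))
    (hB : ∀ z : M, IsBit z ↔ ∃ v : B, code v = z) {o i : B} (hoi : o ≠ i)
    {P : M} (hP : IsCohen P l) {p F b k k' : M} (hF : ForcesSurj P p F b k)
    (hno : ¬ ∃ g : El b → El k, IntF M g ∧ Function.Surjective g)
    {j : El k' → K} (hj : IntF M j) (hji : Function.Injective j) (y₀ : El k') :
    ∃ p' F', ForcesSurj P p' F' b k' := by
  have hPm : ∀ z, Mem z P ↔ ∃ q : Cd M K B, code q = z := by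
    intro z
    refine (hP z).trans ⟨exists_cond hlo hK hlt hB, ?_⟩
    rintro ⟨q, rfl⟩
    exact isCond_code hK hlt hB q
  have hPc : ∀ q : Cd M K B, Mem (code (M := M) q) P := fun q => (hPm _).2 ⟨q, rfl⟩
  obtain ⟨p₀, hp₀⟩ := (hPm p).1 hF.mem
  -- the name as an internal relation
  obtain ⟨F₀, hF₀, hF₀I⟩ : ∃ F₀ : Cd M K B → El b → El k → Prop,
      (∀ q ξ η, F₀ q ξ η ↔ NameAt F (code q) (code ξ) (code η)) ∧
      Int M (fun q : (Cd M K B × El b) × El k => F₀ q.1.1 q.1.2 q.2) := by
    refine ⟨fun q ξ η => Mem (op (code q) (op (code ξ) (code η))) F, fun q ξ η =>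
      nameAt_iff.symm, ?_⟩
    have h1 : Int M (fun q : Cd M K B × (El b × El k) =>
        Mem (op (code q.1) (op (code q.2.1) (code q.2.2))) F) := ⟨F, fun _ => Iff.rfl⟩
    refine Int.comp (p := fun q : Cd M K B × (El b × El k) =>
        Mem (op (code q.1) (op (code q.2.1) (code q.2.2))) F) h1
        (f := fun q : (Cd M K B × El b) × El k => (q.1.1, (q.1.2, q.2))) ?_
    (repeat' (first | with_reducible exact IntF.id | with_reducible exact IntF.fst' | with_reducible exact IntF.snd' | with_reducible exact IntF.const _ | with_reducible exact Int.const _ | assumption | with_reducible apply Int.and | with_reducible apply Int.or | with_reducible apply Int.not | with_reducible apply Int.imp | with_reducible apply Int.iff | with_reducible apply Int.ne | with_reducible apply Int.eq | with_reducible apply Int.mem | with_reducible apply Int.subset | with_reducible apply Int.ltN | with_reducible apply Int.leN | with_reducible_and_instances apply Int.le | with_reducible_and_instances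 apply Int.lt | with_reducible apply Int.all | with_reducible apply Int.ex | with_reducible apply IntF.fst | with_reducible apply IntF.snd | with_reducible apply IntF.app | with_reducible apply IntF.inl | with_reducible apply IntF.inr | with_reducible_and_instances apply IntF.mul | with_reducible_and_instances apply IntF.inv | with_reducible_and_instances apply IntF.add | with_reducible_and_instances apply IntF.sub | with_reducible_and_instances apply IntF.neg | with_reducible_and_instances apply IntF.smul | with_reducible apply Int.fin | with_reducible apply IntF.sep | with_reducible apply IntF.lam | with_reducible apply IntF.insert | with_reducible apply IntF.singleton | with_reducible apply IntF.union | with_reducible apply IntF.iimage | with_reducible apply IntF.ite | with_reducible apply IntF.the | with_reducible apply IntF.irec | with_reducible apply IntF.succ | with_reducible apply IntF.val | with_reducible apply IntF.mk | (with_reducible refine Int.comp ?_ ?_; assumption)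 | (with_reducible refine Int.comp₂ ?_ ?_ ?_; assumption) | (with_reducible refine Int.comp₃ ?_ ?_ ?_ ?_; assumption) | (with_reducible refine Int.comp₄ ?_ ?_ ?_ ?_ ?_; assumption) | (with_reducible refine IntF.comp ?_ ?_; assumption) | (with_reducible refine IntF.comp₂ ?_ ?_ ?_; assumption) | (with_reducible refine IntF.comp₃ ?_ ?_ ?_ ?_; assumption) | with_reducible apply IntF.pair))
  have hCI := int_Cle (M := M) (K := K) (B := B)
  have hDI := int_Dc hF₀I
  have hF1 : ∀ r q q' ξ η η', Cle r p₀ → Cle r q → Cle r q' → F₀ q ξ η → F₀ q' ξ η' →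
      η = η' := by
    intro r q q' ξ η η' h1 h2 h3 h4 h5
    refine ITy.inj (M := M) (hF.func (code r) (code q) (code q') (code ξ) (code η) (code η')
      (hPc r) ?_ (hPc q) (sub_iff.2 h2) (hPc q') (sub_iff.2 h3) ξ.2 η.2 η'.2
      ((hF₀ _ _ _).1 h4) ((hF₀ _ _ _).1 h5))
    rw [← hp₀]
    exact sub_iff.2 h1
  have htot : ∀ (ξ : El b) (r : Cd M K B), Cle r p₀ → ∃ s η, Cle s r ∧ Dc F₀ s ξ η := by
    intro ξ r hr
    obtain ⟨s, q, y, h1, h2, h3, h4, h5, h6⟩ := hF.total (code ξ) (code r) ξ.2 (hPc r) (by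
      rw [← hp₀]
      exact sub_iff.2 hr)
    obtain ⟨s, rfl⟩ := (hPm s).1 h1
    obtain ⟨q, rfl⟩ := (hPm q).1 h3
    exact ⟨s, ⟨y, h5⟩, sub_iff.1 h2, q, sub_iff.1 h4, (hF₀ _ _ _).2 h6⟩
  have hont : ∀ (η : El k) (r : Cd M K B), Cle r p₀ → ∃ s ξ, Cle s r ∧ Dc F₀ s ξ η := by
    intro η r hr
    obtain ⟨s, q, x, h1, h2, h3, h4, h5, h6⟩ := hF.onto (code η) (code r) η.2 (hPc r) (by
      rw [← hp₀]
      exact sub_iff.2 hr)
    obtain ⟨s, rfl⟩ := (hPm s).1 h1
    obtain ⟨q, rfl⟩ := (hPm q).1 h3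
    exact ⟨s, ⟨x, h5⟩, sub_iff.1 h2, q, sub_iff.1 h4, (hF₀ _ _ _).2 h6⟩
  -- no condition decides the name
  have hU : ∀ r, Cle r p₀ → ∃ ξ u u' η η', Cle u r ∧ Cle u' r ∧ Dc F₀ u ξ η ∧ Dc F₀ u' ξ η' ∧
      η ≠ η' := by
    intro r hr
    by_contra hcon
    push Not at hcon
    by_cases hk : ∃ y, Mem y k
    swap
    · -- then b is empty as well
      by_cases hb : ∃ x, Mem x b
      · obtain ⟨x, hx⟩ := hb
        obtain ⟨s, η, -, -⟩ := htot ⟨x, hx⟩ r hr
        exact hk ⟨η.1, η.2⟩
      · refine hno ⟨fun x => absurd ⟨x.1, x.2⟩ hb, ?_, fun y => absurd ⟨y.1, y.2⟩ hk⟩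
        exact (Int.const False).congr fun q => ⟨fun h1 => h1.elim, fun _ =>
          hb ⟨q.1.1, q.1.2⟩⟩
    obtain ⟨y₁, hy₁⟩ := hk
    have hI : Int M (fun q : El b × El k => ∃ u, Cle u r ∧ Dc F₀ u q.1 q.2) := by
      refine Int.ex (Int.and ?_ ?_)
      · exact Int.comp₂ (p := fun q p => Cle q p) hCI IntF.snd' (IntF.const r)
      · exact Int.comp₃ (p := fun q ξ η => Dc F₀ q ξ η) hDI IntF.snd' (IntF.fst IntF.fst')
          (IntF.snd IntF.fst')
    refine hno ⟨fun ξ => the (fun η => ∃ u, Cle u r ∧ Dc F₀ u ξ η) ⟨y₁, hy₁⟩,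
      IntF.the hI (IntF.const _), fun η => ?_⟩
    obtain ⟨s, ξ, h1, h2⟩ := hont η r hr
    refine ⟨ξ, the_eq ⟨η, ⟨s, h1, h2⟩, ?_⟩ ⟨s, h1, h2⟩⟩
    rintro η' ⟨s', h1', h2'⟩
    exact hcon ξ s' s η' η h1' h1 h2' h2
  obtain ⟨π₀, π₂, hPos⟩ := exists_pos h
  obtain ⟨hf, hfI, hfib⟩ := h.fib hj hji y₀
  obtain ⟨p₁, hp₁⟩ := exists_lft h p₀ hPos
  have hNI := int_Nf hPos (o := o) (i := i) hF₀I hfI y₀
  have hNI' : Int M (fun q : Cd M K B × (El b × El k') =>
      Nf π₀ π₂ o i F₀ hf y₀ q.1 q.2.1 q.2.2) := by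
    refine Int.comp₃ (p := fun q ξ y => Nf π₀ π₂ o i F₀ hf y₀ q ξ y) hNI ?_ ?_ ?_ <;> (repeat' (first | with_reducible exact IntF.id | with_reducible exact IntF.fst' | with_reducible exact IntF.snd' | with_reducible exact IntF.const _ | with_reducible exact Int.const _ | assumption | with_reducible apply Int.and | with_reducible apply Int.or | with_reducible apply Int.not | with_reducible apply Int.imp | with_reducible apply Int.iff | with_reducible apply Int.ne | with_reducible apply Int.eq | with_reducible apply Int.mem | with_reducible apply Int.subset | with_reducible apply Int.ltN | with_reducible apply Int.leN | with_reducible_and_instances apply Int.le | with_reducible_and_instances apply Int.lt | with_reducible apply Int.all | with_reducible apply Int.ex | with_reducible apply IntF.fst | with_reducible apply IntF.snd | with_reducible apply IntF.app | with_reducible apply IntF.inl | with_reducible apply IntF.inr | with_reducible_and_instances apply IntF.mul | with_reducible_and_instances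 apply IntF.inv | with_reducible_and_instances apply IntF.add | with_reducible_and_instances apply IntF.sub | with_reducible_and_instances apply IntF.neg | with_reducible_and_instances apply IntF.smul | with_reducible apply Int.fin | with_reducible apply IntF.sep | with_reducible apply IntF.lam | with_reducible apply IntF.insert | with_reducible apply IntF.singleton | with_reducible apply IntF.union | with_reducible apply IntF.iimage | with_reducible apply IntF.ite | with_reducible apply IntF.the | with_reducible apply IntF.irec | with_reducible apply IntF.succ | with_reducible apply IntF.val | with_reducible apply IntF.mk | (with_reducible refine Int.comp ?_ ?_; assumption) | (with_reducible refine Int.comp₂ ?_ ?_ ?_; assumption) | (with_reducible refine Int.comp₃ ?_ ?_ ?_ ?_; assumption) | (with_reducible refine Int.comp₄ ?_ ?_ ?_ ?_ ?_; assumption) | (with_reducible refine IntF.comp ?_ ?_; assumption) | (with_reducible refine IntF.comp₂ ?_ ?_ ?_; assumption) | (with_reducible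 refine IntF.comp₃ ?_ ?_ ?_ ?_; assumption) | with_reducible apply IntF.pair))
  have hN : ∀ (q : Cd M K B) (ξ : El b) (y : El k'),
      NameAt (relc M fun (q : Cd M K B) (c : El b × El k') => Nf π₀ π₂ o i F₀ hf y₀ q c.1 c.2)
        (code q) (code ξ) (code y) ↔ Nf π₀ π₂ o i F₀ hf y₀ q ξ y := by
    intro q ξ y
    rw [nameAt_iff, mem_relc hNI']
    constructor
    · rintro ⟨q', c, h1, h2⟩
      obtain ⟨h3, h4⟩ := op_inj h2
      have h5 := ITy.inj (M := M) h3
      have h6 : ((ξ, y) : El b × El k') = c := ITy.inj (M := M) h4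
      rw [h5]
      rw [← h6] at h1
      exact h1
    · intro h1
      exact ⟨q, (ξ, y), h1, rfl⟩
  refine ⟨code p₁, relc M fun (q : Cd M K B) (c : El b × El k') =>
    Nf π₀ π₂ o i F₀ hf y₀ q c.1 c.2, hPc p₁, ?_, ?_, ?_⟩
  · intro r q q' x y y' hr h1 hq h2 hq' h3 hx hy hy' h4 h5
    obtain ⟨r, rfl⟩ := (hPm r).1 hr
    obtain ⟨q, rfl⟩ := (hPm q).1 hq
    obtain ⟨q', rfl⟩ := (hPm q').1 hq'
    have h6 := (hN q ⟨x, hx⟩ ⟨y, hy⟩).1 h4
    have h7 := (hN q' ⟨x, hx⟩ ⟨y', hy'⟩).1 h5
    have h8 := nf_unique h hoi h6 h7 (Cle.cm (sub_iff.1 h2) (sub_iff.1 h3))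
    exact congrArg (fun z : El k' => z.1) h8
  · intro x r hx hr h1
    obtain ⟨r, rfl⟩ := (hPm r).1 hr
    obtain ⟨s, hs, y, hy⟩ := nf_total (π₀ := π₀) (π₂ := π₂) (o := o) (i := i) (F := F₀)
      (hf := hf) (y₀ := y₀) r ⟨x, hx⟩
    exact ⟨code s, code s, y.1, hPc s, sub_iff.2 hs, hPc s, sub_iff.2 (Cle.refl s), y.2,
      (hN s ⟨x, hx⟩ y).2 hy⟩
  · intro y r hy hr h1
    obtain ⟨r, rfl⟩ := (hPm r).1 hr
    obtain ⟨y, rfl⟩ : ∃ y' : El k', y'.1 = y := ⟨⟨y, hy⟩, rfl⟩
    obtain ⟨q, ξ, θ, h2, h3, h4⟩ := exists_wit h hPos hoi hF₀I hF1 hU (y := y)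
      (hfib y) (r := r) fun c hc => sub_iff.1 h1 _ ((hp₁ _).2 ⟨c, hc, rfl⟩)
    exact ⟨code q, code q, ξ.1, hPc q, sub_iff.2 h2, hPc q, sub_iff.2 (Cle.refl q), ξ.2,
      (hN q ξ y).2 (Or.inl ⟨θ, h3, h4⟩)⟩

theorem collapse {w₀ w₁ w₂ w₃ P : M} (h₀ : IsOmega w₀) (h₁ : IsSuccCard w₁ w₀)
    (h₂ : IsSuccCard w₂ w₁) (h₃ : IsSuccCard w₃ w₂) (hP : IsCohen P w₃) (hc : Collapses P w₁) :
    Collapses P w₂ ∧ Collapses P w₃ := by
  -- ordinals
  have hid : ∀ {a b : M}, (∀ x, Mem x a → Mem x b) → ∃ f, IsInj f a b := by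
    intro a b hab
    exact ⟨_, isInj_relc (int_incE hab) (fun x y hxy => incE_inj hab hxy) fun x => hab _ x.2⟩
  have hlt : ∀ {a b : M}, IsOrdinal a → IsSuccCard b a → Mem a b := by
    intro a b ha hb
    rcases ord_tri ha hb.ord with h | rfl | h
    · exact h
    · exact absurd (hid fun x hx => hx) hb.not_inj
    · exact absurd (hid fun x hx => ha.1 b h x hx) hb.not_inj
  have ho₀ : IsOrdinal w₀ := by
    have hm : ∀ z, Plain.Mem z w₀ ↔ ∃ n : INat M, code n = z := fun z => mem_omega h₀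
    constructor
    · intro x hx y hy
      obtain ⟨n, rfl⟩ := (hm x).1 hx
      replace hy : Mem y n.val := hy
      obtain ⟨m, -, rfl⟩ := mem_nat hy
      exact (hm _).2 ⟨m, rfl⟩
    · intro x hx y hy z hz
      obtain ⟨n, rfl⟩ := (hm x).1 hx
      replace hy : Mem y n.val := hy
      obtain ⟨m, hmn, rfl⟩ := mem_nat hy
      replace hz : Mem z m.val := hz
      obtain ⟨r, hrm, rfl⟩ := mem_nat hz
      exact hrm.trans hmn
  have m₀ : Mem w₀ w₁ := hlt ho₀ h₁
  have m₁ : Mem w₁ w₂ := hlt h₁.ord h₂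
  have m₂ : Mem w₂ w₃ := hlt h₂.ord h₃
  have m₀' : Mem w₀ w₃ := h₃.ord.1 _ m₂ _ (h₂.ord.1 _ m₁ _ m₀)
  obtain ⟨p, b, F, hb, hF⟩ := hc
  -- there is no surjection
  have hbo : IsOrdinal b := isOrdinal_of_mem h₁.ord hb
  have hno : ¬ ∃ g : El b → El w₁, IntF M g ∧ Function.Surjective g := by
    rintro ⟨g, hg, hgs⟩
    obtain ⟨f, hf, hfi⟩ := h₁.least b hb
    obtain ⟨φ, h4, h5⟩ := exists_fun (α := El b) (β := El w₀) hf (fun x => x.2)
      fun z hz => mem_El.1 hz
    have hφi : Function.Injective φ := by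
      intro x y hxy
      refine Subtype.ext (hfi _ _ (code (φ x)) ((h5 _ _).1 rfl) ?_)
      rw [hxy]
      exact (h5 _ _).1 rfl
    obtain ⟨x₀, -⟩ := hgs ⟨w₀, m₀⟩
    have hI : Int M (fun q : El w₁ × El b => g q.2 = q.1) := Int.eq (hg.comp IntF.snd') IntF.fst'
    obtain ⟨s, hs, h6⟩ := exists_lf (iwo_El fun _ hx => isOrdinal_of_mem hbo hx)
      (γ := El w₁) (r := fun y x => g x = y) hI x₀
    refine h₁.not_inj ⟨_, isInj_relc (h4.comp hs) (fun x y hxy => ?_) fun x => (φ _).2⟩
    have h7 := hφi hxy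
    rw [← (h6 x (hgs x)).1, ← (h6 y (hgs y)).1, h7]
  obtain ⟨two, o, i, htwo, hoi⟩ := exists_two (M := M)
  letI := olin h₃.ord
  letI := oile h₃.ord
  have hC : Crd M (El w₃) := crd_of h₃ h₀ m₀'
  have key : ∀ k', (∀ x, Mem x k' → Mem x w₃) → Mem w₀ k' →
      ∃ p' F', ForcesSurj P p' F' b k' := by
    intro k' hk' hw
    exact transfer (K := El w₃) (B := El two) hC h₃.ord (fun z => mem_El) (fun x y => Iff.rfl)
      (fun z => (htwo z).symm.trans mem_El) hoi hP hF hno (int_incE hk')
      (fun x y hxy => incE_inj hk' hxy) ⟨w₀, hw⟩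
  constructor
  · obtain ⟨p', F', h4⟩ := key w₂ (fun x hx => h₃.ord.1 _ m₂ _ hx) (h₂.ord.1 _ m₁ _ m₀)
    exact ⟨p', b, F', h₂.ord.1 _ m₁ _ hb, h4⟩
  · obtain ⟨p', F', h4⟩ := key w₃ (fun x hx => hx) m₀'
    exact ⟨p', b, F', h₃.ord.1 _ m₂ _ (h₂.ord.1 _ m₁ _ hb), h4⟩

end

end Pool.Agent.Helper672.ZFA.V246
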