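import Mathlib

set_option autoImplicit false
set_option linter.unusedSectionVars false
set_option linter.unusedVariables false

/-! # Finite-to-one Borel retractions of a countable Borel equivalence relation -/

namespace Pool.Agent.V11246.DA

open Set

universe u

section

variable {X : Type u} [MeasurableSpace X] [StandardBorelSpace X]
  (R : X → X → Prop) (s : ℕ → X → X)

/-- the points unmatched before stage `n` -/
def Um (S : Set X) : ℕ → Set X
  | 0 => S
  | n + 1 => {x | x ∈ Um S n ∧ ¬ (s n x ∈ Um S n ∧ s n x ≠ x)}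

/-- the points matched at stage `n` -/
def Mt (S : Set X) (n : ℕ) : Set X := {x | x ∈ Um s S n ∧ s n x ∈ Um s S n ∧ s n x ≠ x}

theorem Um_meas (hsm : ∀ n, Measurable (s n)) (S : Set X) (hS : MeasurableSet S) :
    ∀ n, MeasurableSet (Um s S n) := by
  intro n
  induction n with
  | zero => exact hS
  | succ n ih =>
    have h1 : MeasurableSet {x | s n x = x} := measurableSet_eq_fun (hsm n) measurable_id
    exact ih.inter ((((ih.preimage (hsm n)).inter h1.compl)).compl)

theorem Mt_meas (hsm : ∀ n, Measurable (s n)) (S : Set X) (hS : MeasurableSet S) (n : ℕ) :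
    MeasurableSet (Mt s S n) := by
  have h1 : MeasurableSet {x | s n x = x} := measurableSet_eq_fun (hsm n) measurable_id
  exact (Um_meas s hsm S hS n).inter (((Um_meas s hsm S hS n).preimage (hsm n)).inter h1.compl)

theorem Um_anti (S : Set X) : Antitone (Um s S) := antitone_nat_of_succ_le fun n x hx => hx.1

theorem Mt_disj (S : Set X) (n m : ℕ) (x : X) (hn : x ∈ Mt s S n) (hm : x ∈ Mt s S m) : n = m := by
  by_contra hne
  rcases Nat.lt_or_ge n m with h | h
  · have h1 : x ∈ Um s S (n + 1) := Um_anti s S h hm.1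
    exact h1.2 ⟨hn.2.1, hn.2.2⟩
  · have h1 : x ∈ Um s S (m + 1) := Um_anti s S (show m + 1 ≤ n by omega) hn.1
    exact h1.2 ⟨hm.2.1, hm.2.2⟩

theorem Mt_inv (hsi : ∀ n x, s n (s n x) = x) (S : Set X) (n : ℕ) (x : X) (h : x ∈ Mt s S n) :
    s n x ∈ Mt s S n := by
  refine ⟨h.2.1, ?_, ?_⟩
  · rw [hsi]
    exact h.1
  · rw [hsi]
    exact fun h2 => h.2.2 h2.symm

theorem match_exists (hR : Equivalence R) (hsm : ∀ n, Measurable (s n))
    (hsi : ∀ n x, s n (s n x) = x) (hs : ∀ x y, R x y ↔ ∃ n, s n x = y)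
    (S : Set X) (hS : MeasurableSet S) :
    ∃ τ : X → X, Measurable τ ∧ (∀ x, R x (τ x)) ∧ (∀ x, τ (τ x) = x) ∧ (∀ x ∈ S, τ x ∈ S) ∧
      ∀ x ∈ S, ∀ y ∈ S, τ x = x → τ y = y → R x y → x = y := by
  classical
  obtain ⟨F, hF0, hFs⟩ : ∃ F : ℕ → X → X, (∀ x, F 0 x = x) ∧ ∀ n x, F (n + 1) x = s n x :=
    ⟨fun n => Nat.casesOn n id s, fun x => rfl, fun n x => rfl⟩
  obtain ⟨p, hp0, hps⟩ : ∃ p : ℕ → X → Prop, (∀ x, p 0 x ↔ ∀ n, x ∉ Mt s S n) ∧
      ∀ n x, p (n + 1) x ↔ x ∈ Mt s S n :=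
    ⟨fun n x => Nat.casesOn n (∀ n, x ∉ Mt s S n) (fun n => x ∈ Mt s S n), fun x => Iff.rfl,
      fun n x => Iff.rfl⟩
  have hex : ∀ x, ∃ n, p n x := by
    intro x
    by_cases h : ∀ n, x ∉ Mt s S n
    · exact ⟨0, (hp0 x).2 h⟩
    · push Not at h
      obtain ⟨n, hn⟩ := h
      exact ⟨n + 1, (hps n x).2 hn⟩
  have hFm : ∀ n, Measurable (F n) := by
    intro n
    cases n with
    | zero =>
      have : F 0 = id := funext hF0
      rw [this]
      exact measurable_id
    | succ n =>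
      have : F (n + 1) = s n := funext (hFs n)
      rw [this]
      exact hsm n
  have hpm : ∀ n, MeasurableSet {x | p n x} := by
    intro n
    cases n with
    | zero =>
      have : {x | p 0 x} = ⋂ n, (Mt s S n)ᶜ := by
        ext x
        rw [mem_iInter]
        exact hp0 x
      rw [this]
      exact MeasurableSet.iInter fun n => (Mt_meas s hsm S hS n).compl
    | succ n =>
      have : {x | p (n + 1) x} = Mt s S n := by
        ext x
        exact hps n x
      rw [this]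
      exact Mt_meas s hsm S hS n
  obtain ⟨τ, hτ⟩ : ∃ τ : X → X, ∀ x, τ x = F (Nat.find (hex x)) x := ⟨_, fun _ => rfl⟩
  have hτ1 : ∀ n x, x ∈ Mt s S n → τ x = s n x := by
    intro n x hx
    have h1 : Nat.find (hex x) = n + 1 := by
      have h2 := Nat.find_spec (hex x)
      cases hc : Nat.find (hex x) with
      | zero =>
        rw [hc] at h2
        exact absurd hx ((hp0 x).1 h2 n)
      | succ m =>
        rw [hc] at h2
        rw [Mt_disj s S m n x ((hps m x).1 h2) hx]
    rw [hτ, h1, hFs]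
  have hτ2 : ∀ x, (∀ n, x ∉ Mt s S n) → τ x = x := by
    intro x hx
    have h1 : Nat.find (hex x) = 0 := by
      rw [Nat.find_eq_zero]
      exact (hp0 x).2 hx
    rw [hτ, h1, hF0]
  have hcase : ∀ x, (∃ n, x ∈ Mt s S n) ∨ ∀ n, x ∉ Mt s S n := by
    intro x
    by_cases h : ∃ n, x ∈ Mt s S n
    · exact Or.inl h
    · push Not at h
      exact Or.inr h
  refine ⟨τ, ?_, ?_, ?_, ?_, ?_⟩
  · have : τ = fun x => F (Nat.find (hex x)) x := funext hτ
    rw [this]
    exact Measurable.find hFm hpm hex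
  · intro x
    rcases hcase x with ⟨n, hn⟩ | h
    · rw [hτ1 n x hn]
      exact (hs _ _).2 ⟨n, rfl⟩
    · rw [hτ2 x h]
      exact hR.refl x
  · intro x
    rcases hcase x with ⟨n, hn⟩ | h
    · rw [hτ1 n x hn, hτ1 n _ (Mt_inv s hsi S n x hn), hsi]
    · rw [hτ2 x h, hτ2 x h]
  · intro x hx
    rcases hcase x with ⟨n, hn⟩ | h
    · rw [hτ1 n x hn]
      exact Um_anti s S (Nat.zero_le n) hn.2.1
    · rw [hτ2 x h]
      exact hx
  · intro x hx y hy h1 h2 hxy
    have hU : ∀ z ∈ S, τ z = z → ∀ n, z ∈ Um s S n := by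
      intro z hz hzτ n
      have hz2 : ∀ n, z ∉ Mt s S n := by
        intro n hn
        rw [hτ1 n z hn] at hzτ
        exact hn.2.2 hzτ
      induction n with
      | zero => exact hz
      | succ n ih =>
        refine ⟨ih, fun h => hz2 n ⟨ih, h.1, h.2⟩⟩
    obtain ⟨n, hn⟩ := (hs _ _).1 hxy
    by_contra hne
    have h3 := (hU x hx h1 (n + 1)).2
    apply h3
    rw [hn]
    exact ⟨hU y hy h2 n, fun h => hne h.symm⟩

/-- one halving step -/
theorem half_exists (hR : Equivalence R) (hsm : ∀ n, Measurable (s n))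
    (hsi : ∀ n x, s n (s n x) = x) (hs : ∀ x y, R x y ↔ ∃ n, s n x = y)
    (S : Set X) (hS : MeasurableSet S) (hinf : ∀ x, {y | R x y ∧ y ∈ S}.Infinite) :
    ∃ A : Set X, MeasurableSet A ∧ A ⊆ S ∧ (∀ x, {y | R x y ∧ y ∈ S \ A}.Infinite) ∧
      ∃ p q : X → X, Measurable p ∧ Measurable q ∧ (∀ x, R x (p x)) ∧ (∀ x, R x (q x)) ∧
        (∀ x ∈ S, p x ∈ A) ∧ (∀ x ∈ S, q x ∈ S \ A) ∧ (∀ y, {x | x ∈ S ∧ p x = y}.Finite) ∧
        ∀ y, {x | x ∈ S ∧ q x = y}.Finite := by
  classical
  obtain ⟨τ, hτm, hτR, hτi, hτS, hτf⟩ := match_exists R s hR hsm hsi hs S hS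
  let e : X → ℝ := MeasureTheory.embeddingReal X
  have he : Measurable e := MeasureTheory.measurable_embeddingReal X
  have hei : Function.Injective e := (MeasureTheory.measurableEmbedding_embeddingReal X).injective
  obtain ⟨A, hA⟩ : ∃ A : Set X, ∀ x, x ∈ A ↔ x ∈ S ∧ e x ≤ e (τ x) :=
    ⟨{x | x ∈ S ∧ e x ≤ e (τ x)}, fun x => Iff.rfl⟩
  have hAm : MeasurableSet A := by
    have : A = S ∩ {x | e x ≤ e (τ x)} := by
      ext x
      exact hA x
    rw [this]
    exact hS.inter (measurableSet_le he (he.comp hτm))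
  have hAS : A ⊆ S := fun x hx => ((hA x).1 hx).1
  have hτA : ∀ x ∈ S \ A, τ x ∈ A := by
    intro x hx
    have h1 : ¬ e x ≤ e (τ x) := fun h => hx.2 ((hA x).2 ⟨hx.1, h⟩)
    refine (hA _).2 ⟨hτS x hx.1, ?_⟩
    rw [hτi]
    exact le_of_lt (not_le.1 h1)
  have hτB : ∀ x ∈ A, τ x ≠ x → τ x ∈ S \ A := by
    intro x hx hne
    refine ⟨hτS x (hAS hx), fun h => ?_⟩
    have h1 := ((hA _).1 h).2
    rw [hτi] at h1
    exact hne (hei (le_antisymm h1 ((hA x).1 hx).2))
  have hBinf : ∀ x, {y | R x y ∧ y ∈ S \ A}.Infinite := by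
    intro x hfin
    apply hinf x
    have h1 : {y | R x y ∧ y ∈ S ∧ τ y = y}.Finite := by
      refine Set.Subsingleton.finite ?_
      rintro y ⟨h1, h2, h3⟩ z ⟨h4, h5, h6⟩
      exact hτf y h2 z h5 h3 h6 (hR.trans (hR.symm h1) h4)
    refine ((hfin.union (hfin.image τ)).union h1).subset ?_
    rintro y ⟨hy1, hy2⟩
    by_cases hyA : y ∈ A
    · by_cases hyτ : τ y = y
      · exact Or.inr ⟨hy1, hy2, hyτ⟩
      · exact Or.inl (Or.inr ⟨τ y, ⟨hR.trans hy1 (hτR y), hτB y hyA hyτ⟩, hτi y⟩)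
    · exact Or.inl (Or.inl ⟨hy1, hy2, hyA⟩)
  have hex : ∀ x, ∃ n, s n x ∈ S \ A := by
    intro x
    obtain ⟨y, hy1, hy2⟩ := (hBinf x).nonempty
    obtain ⟨n, hn⟩ := (hs _ _).1 hy1
    exact ⟨n, hn ▸ hy2⟩
  have hBm : MeasurableSet (S \ A) := hS.diff hAm
  obtain ⟨c, hc⟩ : ∃ c : X → X, ∀ x, c x = s (Nat.find (hex x)) x := ⟨_, fun _ => rfl⟩
  have hcm : Measurable c := by
    have : c = fun x => s (Nat.find (hex x)) x := funext hc
    rw [this]
    exact Measurable.find hsm (fun n => hBm.preimage (hsm n)) hex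
  have hcB : ∀ x, c x ∈ S \ A := by
    intro x
    rw [hc]
    exact Nat.find_spec (hex x)
  have hcR : ∀ x, R x (c x) := by
    intro x
    rw [hc]
    exact (hs _ _).2 ⟨_, rfl⟩
  refine ⟨A, hAm, hAS, hBinf, fun x => if x ∈ A then x else τ x,
    fun x => if x ∈ S \ A then x else if τ x = x then c x else τ x, ?_, ?_, ?_, ?_, ?_, ?_, ?_, ?_⟩
  · exact Measurable.ite hAm measurable_id hτm
  · exact Measurable.ite hBm measurable_id
      (Measurable.ite (measurableSet_eq_fun hτm measurable_id) hcm hτm)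
  · intro x
    dsimp only
    split_ifs
    · exact hR.refl x
    · exact hτR x
  · intro x
    dsimp only
    split_ifs
    · exact hR.refl x
    · exact hcR x
    · exact hτR x
  · intro x hx
    dsimp only
    split_ifs with h
    · exact h
    · exact hτA x ⟨hx, h⟩
  · intro x hx
    dsimp only
    by_cases h : x ∈ S \ A
    · rw [if_pos h]
      exact h
    · rw [if_neg h]
      have hxA : x ∈ A := by
        by_contra h2
        exact h ⟨hx, h2⟩
      by_cases h2 : τ x = x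
      · rw [if_pos h2]
        exact hcB x
      · rw [if_neg h2]
        exact hτB x hxA h2
  · intro y
    refine ((Set.finite_singleton y).union (Set.finite_singleton (τ y))).subset ?_
    rintro x ⟨hx, h⟩
    dsimp only at h
    split_ifs at h with h1
    · exact Or.inl h
    · right
      rw [mem_singleton_iff, ← h, hτi]
  · intro y
    have h1 : {x | R y x ∧ x ∈ S ∧ τ x = x}.Finite := by
      refine Set.Subsingleton.finite ?_
      rintro x ⟨h1, h2, h3⟩ z ⟨h4, h5, h6⟩
      exact hτf x h2 z h5 h3 h6 (hR.trans (hR.symm h1) h4)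
    refine (((Set.finite_singleton y).union (Set.finite_singleton (τ y))).union h1).subset ?_
    rintro x ⟨hx, h⟩
    dsimp only at h
    by_cases h2 : x ∈ S \ A
    · rw [if_pos h2] at h
      exact Or.inl (Or.inl h)
    · rw [if_neg h2] at h
      by_cases h3 : τ x = x
      · rw [if_pos h3] at h
        refine Or.inr ⟨?_, hx, h3⟩
        rw [← h]
        exact hR.symm (hcR x)
      · rw [if_neg h3] at h
        left; right
        rw [mem_singleton_iff, ← h, hτi]

/-- A Borel partition with finite-to-one Borel retractions onto all the pieces. -/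
theorem exists_retr (hR : Equivalence R) (hsm : ∀ n, Measurable (s n))
    (hsi : ∀ n x, s n (s n x) = x) (hs : ∀ x y, R x y ↔ ∃ n, s n x = y)
    (hinf : ∀ x, {y | R x y}.Infinite) :
    ∃ (ρ : X → ℕ) (f : ℕ → X → X), Measurable ρ ∧ (∀ n, Measurable (f n)) ∧ (∀ n x, R x (f n x)) ∧
      (∀ n x, ρ (f n x) = n) ∧ (∀ n x, ρ x = n → f n x = x) ∧ ∀ n y, {x | f n x = y}.Finite := by
  classical
  choose A hA1 hA2 hA3 p q hp1 hq1 hp2 hq2 hp3 hq3 hp4 hq4 using half_exists R s hR hsm hsi hs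
  let Ss : ℕ → {S : Set X // MeasurableSet S ∧ ∀ x, {y | R x y ∧ y ∈ S}.Infinite} := fun n =>
    Nat.rec ⟨univ, MeasurableSet.univ, fun x => by simpa using hinf x⟩
      (fun _ S => ⟨S.1 \ A S.1 S.2.1 S.2.2, S.2.1.diff (hA1 _ _ _), hA3 _ _ _⟩) n
  obtain ⟨S, hSe⟩ : ∃ S : ℕ → Set X, ∀ n, S n = (Ss n).1 := ⟨_, fun _ => rfl⟩
  obtain ⟨C, hCe⟩ : ∃ C : ℕ → Set X, ∀ n, C n = A (Ss n).1 (Ss n).2.1 (Ss n).2.2 := ⟨_, fun _ => rfl⟩
  obtain ⟨P, hPe⟩ : ∃ P : ℕ → X → X, ∀ n, P n = p (Ss n).1 (Ss n).2.1 (Ss n).2.2 := ⟨_, fun _ => rfl⟩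
  obtain ⟨Q, hQe⟩ : ∃ Q : ℕ → X → X, ∀ n, Q n = q (Ss n).1 (Ss n).2.1 (Ss n).2.2 := ⟨_, fun _ => rfl⟩
  have S0 : S 0 = univ := hSe 0
  have SS : ∀ n, S (n + 1) = S n \ C n := by
    intro n
    rw [hSe, hSe, hCe]
  have Sm : ∀ n, MeasurableSet (S n) := fun n => by
    rw [hSe]
    exact (Ss n).2.1
  have Cm : ∀ n, MeasurableSet (C n) := fun n => by
    rw [hCe]
    exact hA1 _ _ _
  have CS : ∀ n, C n ⊆ S n := fun n => by
    rw [hCe, hSe]
    exact hA2 _ _ _
  have Pm : ∀ n, Measurable (P n) := fun n => by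
    rw [hPe]
    exact hp1 _ _ _
  have Qm : ∀ n, Measurable (Q n) := fun n => by
    rw [hQe]
    exact hq1 _ _ _
  have PR : ∀ n x, R x (P n x) := fun n => by
    rw [hPe]
    exact hp2 _ _ _
  have QR : ∀ n x, R x (Q n x) := fun n => by
    rw [hQe]
    exact hq2 _ _ _
  have PC : ∀ n, ∀ x ∈ S n, P n x ∈ C n := fun n => by
    rw [hPe, hSe, hCe]
    exact hp3 _ _ _
  have QC : ∀ n, ∀ x ∈ S n, Q n x ∈ S (n + 1) := fun n => by
    rw [SS, hQe, hSe, hCe]
    exact hq3 _ _ _
  have Pf : ∀ n y, {x | x ∈ S n ∧ P n x = y}.Finite := fun n => by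
    rw [hPe, hSe]
    exact hp4 _ _ _
  have Qf : ∀ n y, {x | x ∈ S n ∧ Q n x = y}.Finite := fun n => by
    rw [hQe, hSe]
    exact hq4 _ _ _
  let W : ℕ → X → X := fun n => Nat.rec id (fun n g => Q n ∘ g) n
  have W0 : ∀ x, W 0 x = x := fun x => rfl
  have WS : ∀ n x, W (n + 1) x = Q n (W n x) := fun n x => rfl
  have Wm : ∀ n, Measurable (W n) := by
    intro n
    induction n with
    | zero => exact measurable_id
    | succ n ih => exact (Qm n).comp ih
  have WR : ∀ n x, R x (W n x) := by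
    intro n x
    induction n with
    | zero => exact hR.refl x
    | succ n ih =>
      rw [WS]
      exact hR.trans ih (QR n _)
  have WSm : ∀ n x, W n x ∈ S n := by
    intro n x
    induction n with
    | zero =>
      rw [S0]
      exact mem_univ _
    | succ n ih =>
      rw [WS]
      exact QC n _ ih
  have comp_fin : ∀ (g h : X → X) (S' : Set X), (∀ x, g x ∈ S') → (∀ y, {x | g x = y}.Finite) →
      (∀ y, {x | x ∈ S' ∧ h x = y}.Finite) → ∀ y, {x | h (g x) = y}.Finite := by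
    intro g h S' h1 h2 h3 y
    refine ((h3 y).biUnion fun z _ => h2 z).subset ?_
    intro x hx
    exact mem_iUnion₂.2 ⟨g x, ⟨h1 x, hx⟩, rfl⟩
  have Wf : ∀ n y, {x | W n x = y}.Finite := by
    intro n
    induction n with
    | zero =>
      intro y
      exact (Set.finite_singleton y).subset (fun x hx => hx)
    | succ n ih => exact comp_fin (W n) (Q n) (S n) (WSm n) ih (Qf n)
  have Santi : Antitone S := antitone_nat_of_succ_le fun n => by
    rw [SS]
    exact diff_subset
  have Cdisj : ∀ n m x, x ∈ C n → x ∈ C m → n = m := by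
    intro n m x hn hm
    by_contra hne
    rcases Nat.lt_or_ge n m with h | h
    · have h1 : x ∈ S (n + 1) := Santi h (CS m hm)
      rw [SS] at h1
      exact h1.2 hn
    · have h1 : x ∈ S (m + 1) := Santi (show m + 1 ≤ n by omega) (CS n hn)
      rw [SS] at h1
      exact h1.2 hm
  obtain ⟨ρ, hρ⟩ : ∃ ρ : X → ℕ, ∀ x, ρ x = if h : ∃ n, x ∈ C n then Nat.find h else 0 :=
    ⟨_, fun _ => rfl⟩
  have hρC : ∀ n x, x ∈ C n → ρ x = n := by
    intro n x hx
    have h : ∃ n, x ∈ C n := ⟨n, hx⟩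
    rw [hρ, dif_pos h]
    exact Cdisj _ _ x (Nat.find_spec h) hx
  have hρm : Measurable ρ := by
    refine measurable_to_countable' fun n => ?_
    have e1 : ρ ⁻¹' {n} = C n ∪ ((⋃ m, C m)ᶜ ∩ {x | n = 0}) := by
      ext x
      rw [mem_preimage, mem_singleton_iff, mem_union, mem_inter_iff, mem_compl_iff, mem_iUnion]
      constructor
      · intro h
        by_cases h2 : ∃ m, x ∈ C m
        · obtain ⟨m, hm⟩ := h2
          rw [hρC m x hm] at h
          rw [← h]
          exact Or.inl hm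
        · rw [hρ, dif_neg h2] at h
          exact Or.inr ⟨h2, h.symm⟩
      · rintro (h | ⟨h1, h2⟩)
        · exact hρC n x h
        · rw [hρ, dif_neg h1]
          exact h2.symm
    rw [e1]
    exact (Cm n).union ((MeasurableSet.iUnion Cm).compl.inter (MeasurableSet.const _))
  refine ⟨ρ, fun n x => if ρ x = n then x else P n (W n x), hρm, ?_, ?_, ?_, ?_, ?_⟩
  · intro n
    exact Measurable.ite ((measurableSet_singleton n).preimage hρm) measurable_id
      ((Pm n).comp (Wm n))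
  · intro n x
    dsimp only
    split_ifs
    · exact hR.refl x
    · exact hR.trans (WR n x) (PR n _)
  · intro n x
    dsimp only
    split_ifs with h
    · exact h
    · exact hρC n _ (PC n _ (WSm n x))
  · intro n x h
    dsimp only
    rw [if_pos h]
  · intro n y
    refine ((Set.finite_singleton y).union
      (comp_fin (W n) (P n) (S n) (WSm n) (Wf n) (Pf n) y)).subset ?_
    intro x hx
    have hx' : (if ρ x = n then x else P n (W n x)) = y := hx
    by_cases h : ρ x = n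
    · rw [if_pos h] at hx'
      exact Or.inl hx'
    · rw [if_neg h] at hx'
      exact Or.inr hx'

end

end Pool.Agent.V11246.DA
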