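import Mathlib
import Pool.Agent.H139R3.MF.Top

set_option autoImplicit false
set_option linter.unusedSectionVars false
set_option linter.unusedVariables false

/-! # Zero-dimensional Polish topologies and a compactification with countable remainder -/

namespace Pool.Agent.V11246.DA

open Set Filter Topology TopologicalSpace

universe u v

theorem step0 {X : Type u} {H : Type v} [t0 : TopologicalSpace X] [p0 : PolishSpace X]
    [MeasurableSpace X] [b0 : BorelSpace X] (g : ℕ → X → X) (hg : ∀ n, Measurable (g n))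
    [TopologicalSpace H] [SecondCountableTopology H] [MeasurableSpace H] [OpensMeasurableSpace H]
    (h : X → H) (hh : Measurable h) (t : TopologicalSpace X) (ht : t ≤ t0)
    (hp : @PolishSpace X t) :
    ∃ (t' : TopologicalSpace X) (B : ℕ → Set X), t' ≤ t ∧ @PolishSpace X t' ∧
      (∀ n, @Continuous X X t' t (g n)) ∧ @Continuous X H t' _ h ∧
      t = generateFrom (range B) ∧ ∀ n, @IsClopen X t' (B n) := by
  classical
  have hb : @BorelSpace X t _ := by
    constructor
    rw [b0.measurable_eq]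
    exact (MeasureTheory.borel_eq_borel_of_le hp p0 ht).symm
  obtain ⟨B, hB⟩ : ∃ B : ℕ → Set X, t = generateFrom (range B) := by
    obtain ⟨b, hbc, -, hb⟩ := @exists_countable_basis X t hp.toSecondCountableTopology
    have h1 : t = generateFrom (insert univ b) := by
      rw [hb.eq_generateFrom]
      refine le_antisymm ?_ (generateFrom_anti (subset_insert _ _))
      refine le_generateFrom ?_
      rintro v (rfl | hv)
      · exact @isOpen_univ X (generateFrom b)
      · exact isOpen_generateFrom_of_mem hv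
    obtain ⟨B, hB⟩ := (hbc.insert univ).exists_eq_range ⟨univ, mem_insert _ _⟩
    exact ⟨B, by rw [← hB]; exact h1⟩
  have hBm : ∀ n, MeasurableSet (B n) := by
    intro n
    have : @IsOpen X t (B n) := by
      rw [hB]
      exact isOpen_generateFrom_of_mem (mem_range_self n)
    exact @IsOpen.measurableSet X _ t _ _ this
  obtain ⟨h', hh'⟩ : ∃ h' : X → H × (ℕ → Bool), ∀ x, h' x = (h x, fun n => decide (x ∈ B n)) :=
    ⟨_, fun _ => rfl⟩
  have hh'm : Measurable h' := by
    have : h' = fun x => (h x, fun n => decide (x ∈ B n)) := funext hh'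
    rw [this]
    refine hh.prodMk (measurable_pi_lambda _ fun n => ?_)
    refine measurable_to_bool ?_
    have : (fun x => decide (x ∈ B n)) ⁻¹' {true} = B n := by
      ext x
      simp
    rw [this]
    exact hBm n
  obtain ⟨t', ht'1, ht'2, ht'3, ht'4⟩ := @Pool.Agent.H139R3.MF.step X (H × (ℕ → Bool)) t0 p0 _ b0
    g hg _ _ _ _ h' hh'm t ht hp
  refine ⟨t', B, ht'1, ht'2, ht'3, ?_, hB, ?_⟩
  · have h1 : h = fun x => (h' x).1 := by
      funext x
      rw [hh']
    rw [h1]
    exact @Continuous.comp X (H × (ℕ → Bool)) H t' _ _ _ _ continuous_fst ht'4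
  · intro n
    have h1 : B n = (fun x => (h' x).2 n) ⁻¹' {true} := by
      ext x
      rw [mem_preimage, hh']
      simp
    rw [h1]
    have h2 : @Continuous X Bool t' _ (fun x => (h' x).2 n) :=
      @Continuous.comp X (H × (ℕ → Bool)) Bool t' _ _ _ _
        ((continuous_apply n).comp continuous_snd) ht'4
    exact @IsClopen.preimage X Bool t' _ _ (isClopen_discrete _) _ h2

/-- A zero-dimensional Polish topology making countably many Borel maps continuous. -/
theorem exists_top {X : Type u} {H : Type v} [t0 : TopologicalSpace X] [p0 : PolishSpace X]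
    [MeasurableSpace X] [b0 : BorelSpace X] (g : ℕ → X → X) (hg : ∀ n, Measurable (g n))
    [TopologicalSpace H] [SecondCountableTopology H] [MeasurableSpace H] [OpensMeasurableSpace H]
    (h : X → H) (hh : Measurable h) :
    ∃ t : TopologicalSpace X, @PolishSpace X t ∧ @BorelSpace X t _ ∧
      (∀ n, @Continuous X X t t (g n)) ∧ @Continuous X H t _ h ∧
      ∃ c : ℕ → Set X, (∀ n, @IsClopen X t (c n)) ∧ t = generateFrom (range c) := by
  choose F B hF1 hF2 hF3 hF4 hF5 hF6 using @step0 X H t0 p0 _ b0 g hg _ _ _ _ h hh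
  let T : ℕ → {t : TopologicalSpace X // t ≤ t0 ∧ @PolishSpace X t} := fun n =>
    Nat.rec ⟨t0, le_rfl, p0⟩ (fun _ s => ⟨F s.1 s.2.1 s.2.2, (hF1 _ _ _).trans s.2.1,
      hF2 _ _ _⟩) n
  have T0 : (T 0).1 = t0 := rfl
  have TS : ∀ n, (T (n + 1)).1 = F (T n).1 (T n).2.1 (T n).2.2 := fun n => rfl
  have hle : (⨅ n, (T n).1) ≤ t0 := iInf_le_of_le 0 le_rfl
  have hp : @PolishSpace X (⨅ n, (T n).1) := by
    refine PolishSpace.iInf ⟨0, fun i => (T i).2.1⟩ (fun i => (T i).2.2)
  refine ⟨⨅ n, (T n).1, hp, ?_, ?_, ?_, ?_⟩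
  · refine @BorelSpace.mk X (⨅ n, (T n).1) _ ?_
    exact b0.measurable_eq.trans (MeasureTheory.borel_eq_borel_of_le hp p0 hle).symm
  · intro n
    rw [continuous_iInf_rng]
    intro k
    have e1 : @Continuous X X (T (k + 1)).1 (T k).1 (g n) := by
      rw [TS]
      exact hF3 _ _ _ n
    exact continuous_iInf_dom (i := k + 1) e1
  · have e1 : @Continuous X H (T (0 + 1)).1 _ h := by
      rw [TS]
      exact hF4 _ _ _
    exact continuous_iInf_dom (i := 0 + 1) e1
  · obtain ⟨c, hc⟩ : ∃ c : ℕ → Set X, ∀ n, c n = B (T (Nat.unpair n).1).1 (T (Nat.unpair n).1).2.1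
      (T (Nat.unpair n).1).2.2 (Nat.unpair n).2 := ⟨_, fun _ => rfl⟩
    refine ⟨c, ?_, ?_⟩
    · intro n
      rw [hc]
      have h1 := hF6 (T (Nat.unpair n).1).1 (T (Nat.unpair n).1).2.1 (T (Nat.unpair n).1).2.2
        (Nat.unpair n).2
      have h2 : (⨅ n, (T n).1) ≤ F (T (Nat.unpair n).1).1 (T (Nat.unpair n).1).2.1
          (T (Nat.unpair n).1).2.2 := iInf_le (fun n => (T n).1) ((Nat.unpair n).1 + 1)
      have h3 := @IsClopen.isOpen X (F (T (Nat.unpair n).1).1 (T (Nat.unpair n).1).2.1
          (T (Nat.unpair n).1).2.2) _ h1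
      have h4 := @IsOpen.mono X _ _ _ h3 h2
      have h5 := @IsClopen.compl X (F (T (Nat.unpair n).1).1 (T (Nat.unpair n).1).2.1
          (T (Nat.unpair n).1).2.2) _ h1
      have h6 := @IsClopen.isOpen X (F (T (Nat.unpair n).1).1 (T (Nat.unpair n).1).2.1
          (T (Nat.unpair n).1).2.2) _ h5
      have h7 := @IsOpen.mono X _ _ _ h6 h2
      exact ⟨@IsClosed.mk X (⨅ n, (T n).1) _ h7, h4⟩
    · have h1 : range c = ⋃ n, range (B (T n).1 (T n).2.1 (T n).2.2) := by
        ext v
        rw [mem_iUnion]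
        constructor
        · rintro ⟨n, rfl⟩
          exact ⟨(Nat.unpair n).1, (Nat.unpair n).2, (hc n).symm⟩
        · rintro ⟨n, m, rfl⟩
          refine ⟨Nat.pair n m, ?_⟩
          rw [hc, Nat.unpair_pair]
      rw [h1, generateFrom_iUnion]
      exact iInf_congr fun n => hF5 _ _ _

section

variable {X : Type u} [MetricSpace X]

theorem exists_cells (c : ℕ → Set X) (hc : ∀ n, IsClopen (c n))
    (ht : (inferInstance : TopologicalSpace X) = generateFrom (range c)) (n : ℕ) :
    ∃ z : X → ℕ, Continuous z ∧ ∀ x y, z x = z y → dist x y ≤ (1 / 2 : ℝ) ^ n := by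
  classical
  have hb := isTopologicalBasis_of_subbasis ht
  obtain ⟨b, hbe⟩ : ∃ b : Set (Set X), b = (fun f => ⋂₀ f) '' {f : Set (Set X) | f.Finite ∧ f ⊆ range c} :=
    ⟨_, rfl⟩
  rw [← hbe] at hb
  have hbc : b.Countable := by
    rw [hbe]
    exact (Set.countable_setOf_finite_subset (countable_range c)).image _
  have hbcl : ∀ v ∈ b, IsClopen v := by
    intro v hv
    rw [hbe] at hv
    obtain ⟨f, ⟨hf1, hf2⟩, rfl⟩ := hv
    show IsClopen (⋂₀ f)
    rw [sInter_eq_biInter]
    refine hf1.isClopen_biInter ?_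
    intro v hv
    obtain ⟨k, rfl⟩ := hf2 hv
    exact hc k
  by_cases hX : Nonempty X
  swap
  · exact ⟨fun _ => 0, continuous_const, fun x => absurd ⟨x⟩ hX⟩
  have hbne : b.Nonempty := by
    obtain ⟨x⟩ := hX
    obtain ⟨v, hv, -, -⟩ := hb.exists_subset_of_mem_open (mem_univ x) isOpen_univ
    exact ⟨v, hv⟩
  obtain ⟨q, hq⟩ := hbc.exists_eq_range hbne
  obtain ⟨q', hq'⟩ : ∃ q' : ℕ → Set X, ∀ k, q' k =
      if (∀ x ∈ q k, ∀ y ∈ q k, dist x y ≤ (1 / 2 : ℝ) ^ n) then q k else ∅ := ⟨_, fun _ => rfl⟩
  have hq1 : ∀ k, IsClopen (q' k) := by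
    intro k
    rw [hq']
    split_ifs
    · exact hbcl _ (hq ▸ mem_range_self k)
    · exact isClopen_empty
  have hq2 : ∀ k, ∀ x ∈ q' k, ∀ y ∈ q' k, dist x y ≤ (1 / 2 : ℝ) ^ n := by
    intro k
    rw [hq']
    split_ifs with h
    · exact h
    · intro x hx
      exact absurd hx (notMem_empty x)
  have hq3 : ∀ x, ∃ k, x ∈ q' k := by
    intro x
    obtain ⟨v, hv, hxv, hvs⟩ := hb.exists_subset_of_mem_open
      (Metric.mem_ball_self (x := x) (show (0 : ℝ) < (1 / 2) ^ (n + 1) by positivity))
      Metric.isOpen_ball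
    rw [hq] at hv
    obtain ⟨k, rfl⟩ := hv
    refine ⟨k, ?_⟩
    rw [hq', if_pos]
    · exact hxv
    · intro y hy y' hy'
      have h1 := Metric.mem_ball.1 (hvs hy)
      have h2 := Metric.mem_ball'.1 (hvs hy')
      have h3 := dist_triangle y x y'
      have h4 : (1 / 2 : ℝ) ^ n = (1 / 2) ^ (n + 1) + (1 / 2) ^ (n + 1) := by ring
      linarith
  obtain ⟨z, hz⟩ : ∃ z : X → ℕ, ∀ x, z x = Nat.find (hq3 x) := ⟨_, fun _ => rfl⟩
  have hz1 : ∀ x, x ∈ q' (z x) := fun x => by
    rw [hz]
    exact Nat.find_spec (hq3 x)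
  refine ⟨z, ?_, ?_⟩
  · rw [continuous_discrete_rng]
    intro k
    have e1 : z ⁻¹' {k} = q' k ∩ ⋂ j ∈ Finset.range k, (q' j)ᶜ := by
      ext x
      rw [mem_preimage, mem_singleton_iff, hz, Nat.find_eq_iff, mem_inter_iff, mem_iInter₂]
      refine and_congr Iff.rfl ⟨fun h j hj => h j (Finset.mem_range.1 hj), fun h j hj =>
        h j (Finset.mem_range.2 hj)⟩
    rw [e1]
    refine (hq1 k).2.inter ?_
    exact isOpen_biInter_finset fun j _ => (hq1 j).1.isOpen_compl
  · intro x y hxy
    exact hq2 (z x) x (hz1 x) y (hxy ▸ hz1 y)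

end

/-- the countable set of possible remainder points -/
theorem rem_countable : {w : ℕ × ℕ → Bool | (∀ n j, w (n, j + 1) = true → w (n, j) = true) ∧
    (∀ n j, w (n, j) = true → w (n + 1, j) = true) ∧ ∃ n, ∀ j, w (n, j) = true}.Countable := by
  classical
  obtain ⟨G, hG⟩ : ∃ G : (Σ n : ℕ, Fin n → ℕ) → (ℕ × ℕ → Bool), ∀ p m j, G p (m, j) =
      if h : m < p.1 then decide (j < p.2 ⟨m, h⟩) else true := ⟨fun p q =>
      if h : q.1 < p.1 then decide (q.2 < p.2 ⟨q.1, h⟩) else true, fun _ _ _ => rfl⟩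
  refine (countable_range G).mono ?_
  rintro w ⟨h1, h2, h3⟩
  have hn := Nat.find_spec h3
  have hmin : ∀ m, m < Nat.find h3 → ∃ j, w (m, j) = false := by
    intro m hm
    have := Nat.find_min h3 hm
    push Not at this
    obtain ⟨j, hj⟩ := this
    exact ⟨j, by simpa using hj⟩
  have hup : ∀ m, Nat.find h3 ≤ m → ∀ j, w (m, j) = true := by
    intro m hm
    induction m, hm using Nat.le_induction with
    | base => exact hn
    | succ m hm ih => exact fun j => h2 m j (ih j)
  refine ⟨⟨Nat.find h3, fun m => Nat.find (hmin m.1 m.2)⟩, ?_⟩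
  funext ⟨m, j⟩
  rw [hG]
  split_ifs with h
  · have h4 := Nat.find_spec (hmin m h)
    have h5 : ∀ i, Nat.find (hmin m h) ≤ i → w (m, i) = false := by
      intro i hi
      induction i, hi using Nat.le_induction with
      | base => exact h4
      | succ i hi ih =>
        by_contra hcon
        have h6 : w (m, i + 1) = true := by simpa using hcon
        have h7 := h1 m i h6
        rw [ih] at h7
        exact absurd h7 (by simp)
    by_cases hj : j < Nat.find (hmin m h)
    · have h6 := Nat.find_min (hmin m h) hj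
      have h7 : w (m, j) = true := by simpa using h6
      rw [h7]
      exact decide_eq_true hj
    · rw [h5 j (not_lt.1 hj)]
      exact decide_eq_false hj
  · exact (hup m (not_lt.1 h) j).symm

theorem exists_kappa {X : Type u} [TopologicalSpace X] [PolishSpace X] (c : ℕ → Set X)
    (hc : ∀ n, IsClopen (c n))
    (ht : (inferInstance : TopologicalSpace X) = generateFrom (range c)) :
    ∃ κ : X → (ℕ × ℕ → Bool), IsEmbedding κ ∧ (closure (range κ) \ range κ).Countable ∧
      (fun _ => false) ∉ closure (range κ) := by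
  classical
  let := upgradeIsCompletelyMetrizable X
  choose z hz1 hz2 using exists_cells c hc ht
  obtain ⟨E, hE⟩ : ∃ E : ℕ → X → ℕ, ∀ n x, E n x = 1 + ∑ i ∈ Finset.range n, z i x :=
    ⟨_, fun _ _ => rfl⟩
  have hEc : ∀ n, Continuous (E n) := by
    intro n
    have : E n = fun x => 1 + ∑ i ∈ Finset.range n, z i x := funext (hE n)
    rw [this]
    exact continuous_const.add (continuous_finsetSum _ fun i _ => hz1 i)
  have hES : ∀ n x, E (n + 1) x = E n x + z n x := by
    intro n x
    rw [hE, hE, Finset.sum_range_succ]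
    ring
  have hE1 : ∀ n x, 1 ≤ E n x := fun n x => by
    rw [hE]
    omega
  obtain ⟨κ, hκ⟩ : ∃ κ : X → (ℕ × ℕ → Bool), ∀ x n j, κ x (n, j) = decide (j < E n x) :=
    ⟨fun x p => decide (p.2 < E p.1 x), fun _ _ _ => rfl⟩
  have hκc : Continuous κ := by
    refine continuous_pi fun p => ?_
    obtain ⟨n, j⟩ := p
    have : (fun x => κ x (n, j)) = (fun k : ℕ => decide (j < k)) ∘ E n := funext fun x => hκ x n j
    rw [this]
    exact continuous_of_discreteTopology.comp (hEc n)
  have hind : IsInducing κ := by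
    rw [isInducing_iff_nhds]
    intro x
    refine le_antisymm (hκc.tendsto x).le_comap ?_
    rw [Metric.nhds_basis_ball.ge_iff]
    intro ε hε
    obtain ⟨n, hn⟩ := exists_pow_lt_of_lt_one hε (show (1 / 2 : ℝ) < 1 by norm_num)
    rw [mem_comap]
    refine ⟨({w | w (n, E n x) = false} ∩ {w | w (n, E n x - 1) = true}) ∩
      ({w | w (n + 1, E (n + 1) x) = false} ∩ {w | w (n + 1, E (n + 1) x - 1) = true}), ?_, ?_⟩
    · have ho : ∀ (p : ℕ × ℕ) (b : Bool), IsOpen {w : ℕ × ℕ → Bool | w p = b} := by
        intro p b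
        have h1 : Continuous fun w : ℕ × ℕ → Bool => w p := continuous_apply p
        exact (isOpen_discrete ({b} : Set Bool)).preimage h1
      refine IsOpen.mem_nhds (((ho _ _).inter (ho _ _)).inter ((ho _ _).inter (ho _ _))) ?_
      refine ⟨⟨?_, ?_⟩, ?_, ?_⟩
      · show κ x (n, E n x) = false
        rw [hκ]
        simp
      · show κ x (n, E n x - 1) = true
        rw [hκ]
        have := hE1 n x
        simp
        omega
      · show κ x (n + 1, E (n + 1) x) = false
        rw [hκ]
        simp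
      · show κ x (n + 1, E (n + 1) x - 1) = true
        rw [hκ]
        have := hE1 (n + 1) x
        simp
        omega
    · rintro y ⟨⟨h1, h2⟩, h3, h4⟩
      have h1' : κ y (n, E n x) = false := h1
      have h2' : κ y (n, E n x - 1) = true := h2
      have h3' : κ y (n + 1, E (n + 1) x) = false := h3
      have h4' : κ y (n + 1, E (n + 1) x - 1) = true := h4
      rw [hκ] at h1' h2' h3' h4'
      have h1'' : ¬ E n x < E n y := of_decide_eq_false h1'
      have h2'' : E n x - 1 < E n y := of_decide_eq_true h2'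
      have h3'' : ¬ E (n + 1) x < E (n + 1) y := of_decide_eq_false h3'
      have h4'' : E (n + 1) x - 1 < E (n + 1) y := of_decide_eq_true h4'
      have h5 := hES n x
      have h6 := hES n y
      have h7 : z n y = z n x := by omega
      exact lt_of_le_of_lt (hz2 n y x h7) hn
  have hcl : ∀ w ∈ closure (range κ), (∀ n j, w (n, j + 1) = true → w (n, j) = true) ∧
      (∀ n j, w (n, j) = true → w (n + 1, j) = true) ∧ w (0, 0) = true := by
    have hco : ∀ (p q : ℕ × ℕ), IsClosed {w : ℕ × ℕ → Bool | w p = true → w q = true} := by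
      intro p q
      have e1 : {w : ℕ × ℕ → Bool | w p = true → w q = true} =
          (fun w : ℕ × ℕ → Bool => (w p, w q)) ⁻¹' {r | r.1 = true → r.2 = true} := rfl
      rw [e1]
      exact (isClosed_discrete _).preimage ((continuous_apply p).prodMk (continuous_apply q))
    intro w hw
    refine ⟨fun n j => ?_, fun n j => ?_, ?_⟩
    · have h1 : closure (range κ) ⊆ {w | w (n, j + 1) = true → w (n, j) = true} := by
        refine closure_minimal ?_ (hco _ _)
        rintro _ ⟨x, rfl⟩ h
        rw [hκ] at h ⊢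
        have := of_decide_eq_true h
        exact decide_eq_true (by omega)
      exact h1 hw
    · have h1 : closure (range κ) ⊆ {w | w (n, j) = true → w (n + 1, j) = true} := by
        refine closure_minimal ?_ (hco _ _)
        rintro _ ⟨x, rfl⟩ h
        rw [hκ] at h ⊢
        have := of_decide_eq_true h
        have h2 := hES n x
        exact decide_eq_true (by omega)
      exact h1 hw
    · have h1 : closure (range κ) ⊆ {w | w (0, 0) = true} := by
        refine closure_minimal ?_ ?_
        · rintro _ ⟨x, rfl⟩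
          show κ x (0, 0) = true
          rw [hκ]
          exact decide_eq_true (hE1 0 x)
        · have h1 : Continuous fun w : ℕ × ℕ → Bool => w (0, 0) := continuous_apply (0, 0)
          exact (isClosed_discrete ({true} : Set Bool)).preimage h1
      exact h1 hw
  refine ⟨κ, hind.isEmbedding, rem_countable.mono ?_, ?_⟩
  · rintro w ⟨hw1, hw2⟩
    obtain ⟨h1, h2, -⟩ := hcl w hw1
    refine ⟨h1, h2, ?_⟩
    by_contra hcon
    push Not at hcon
    apply hw2
    have hfin : ∀ n, ∃ j, w (n, j) = false := by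
      intro n
      obtain ⟨j, hj⟩ := hcon n
      exact ⟨j, by simpa using hj⟩
    rw [mem_closure_iff_ultrafilter] at hw1
    obtain ⟨𝒰, h𝒰1, h𝒰2⟩ := hw1
    obtain ⟨𝒱, h𝒱⟩ : ∃ 𝒱 : Ultrafilter X, 𝒱.map κ = 𝒰 := by
      refine ⟨Ultrafilter.ofComapInfPrincipal (m := κ) (s := univ) (g := 𝒰) ?_, ?_⟩
      · rw [image_univ]
        exact h𝒰1
      · exact Ultrafilter.ofComapInfPrincipal_eq_of_map _
    have hlim : Tendsto κ 𝒱 (𝓝 w) := by
      show Filter.map κ (𝒱 : Filter X) ≤ 𝓝 w
      rw [← Ultrafilter.coe_map, h𝒱]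
      exact h𝒰2
    have hEv : ∀ n, ∀ᶠ x in (𝒱 : Filter X), E n x = Nat.find (hfin n) := by
      intro n
      have h3 : ∀ j ∈ Finset.range (Nat.find (hfin n) + 1), ∀ᶠ x in (𝒱 : Filter X),
          κ x (n, j) = w (n, j) := by
        intro j _
        have h4 : Tendsto (fun x => κ x (n, j)) 𝒱 (𝓝 (w (n, j))) :=
          ((continuous_apply (n, j)).tendsto w).comp hlim
        rw [nhds_discrete, tendsto_pure] at h4
        exact h4
      rw [← Filter.eventually_all_finset] at h3
      filter_upwards [h3] with x hx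
      have h5 := hx (Nat.find (hfin n)) (Finset.mem_range.2 (by omega))
      rw [Nat.find_spec (hfin n), hκ] at h5
      have h6 : ¬ Nat.find (hfin n) < E n x := of_decide_eq_false h5
      by_contra hne
      have h7 : E n x < Nat.find (hfin n) := by omega
      have h8 := hx (E n x) (Finset.mem_range.2 (by omega))
      have h9 := Nat.find_min (hfin n) h7
      rw [hκ] at h8
      apply h9
      rw [← h8]
      exact decide_eq_false (lt_irrefl _)
    have hzv : ∀ n, ∃ k, ∀ᶠ x in (𝒱 : Filter X), z n x = k := by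
      intro n
      refine ⟨Nat.find (hfin (n + 1)) - Nat.find (hfin n), ?_⟩
      filter_upwards [hEv n, hEv (n + 1)] with x h3 h4
      have := hES n x
      omega
    have hcau : Cauchy (𝒱 : Filter X) := by
      rw [Metric.cauchy_iff]
      refine ⟨𝒱.neBot, fun ε hε => ?_⟩
      obtain ⟨n, hn⟩ := exists_pow_lt_of_lt_one hε (show (1 / 2 : ℝ) < 1 by norm_num)
      obtain ⟨k, hk⟩ := hzv n
      refine ⟨{x | z n x = k}, hk, fun x hx y hy => ?_⟩
      have hx' : z n x = k := hx
      have hy' : z n y = k := hy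
      exact lt_of_le_of_lt (hz2 n x y (hx'.trans hy'.symm)) hn
    obtain ⟨x, hx⟩ := CompleteSpace.complete hcau
    have h3 : Tendsto κ 𝒱 (𝓝 (κ x)) := (hκc.tendsto x).mono_left hx
    exact ⟨x, tendsto_nhds_unique h3 hlim⟩
  · intro h
    have := (hcl _ h).2.2
    exact absurd this (by simp)

end Pool.Agent.V11246.DA
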