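import Mathlib

set_option autoImplicit false
set_option linter.unusedSectionVars false
set_option linter.unusedVariables false

/-! # A continuous copy of eventual equality in a class without isolated points -/

namespace Pool.Agent.V11246.DA

open Set Filter Topology TopologicalSpace

universe u

/-- eventual equality -/
def Eq0 (x y : ℕ → Bool) : Prop := ∃ N, ∀ n, N ≤ n → x n = y n

theorem Eq0.refl (x : ℕ → Bool) : Eq0 x x := ⟨0, fun _ _ => rfl⟩

theorem Eq0.symm {x y : ℕ → Bool} (h : Eq0 x y) : Eq0 y x := by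
  obtain ⟨N, hN⟩ := h
  exact ⟨N, fun n hn => (hN n hn).symm⟩

theorem Eq0.trans {x y z : ℕ → Bool} (h : Eq0 x y) (h' : Eq0 y z) : Eq0 x z := by
  obtain ⟨N, hN⟩ := h
  obtain ⟨M, hM⟩ := h'
  exact ⟨max N M, fun n hn => (hN n (le_trans (le_max_left _ _) hn)).trans
    (hM n (le_trans (le_max_right _ _) hn))⟩

section

variable {X : Type u} [MetricSpace X]

theorem ge_step (R : X → X → Prop) (hR : Equivalence R) (s : ℕ → X → X)
    (hsc : ∀ n, Continuous (s n)) (hsi : ∀ n x, s n (s n x) = x)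
    (hs : ∀ x y, R x y ↔ ∃ n, s n x = y) (x0 : X)
    (hx0 : ∀ U : Set X, IsOpen U → ∀ a ∈ U, R x0 a → {y | R x0 y ∧ y ∈ U}.Infinite)
    (n : ℕ) (r : ℝ) (hr : 0 < r) (U : Set X) (hU : IsOpen U) (hUC : ∃ a ∈ U, R x0 a)
    (Γ : Set (X ≃ₜ X)) (hΓ : Γ.Finite) :
    ∃ (V : Set X) (g : X ≃ₜ X), IsOpen V ∧ (∃ a ∈ V, R x0 a) ∧ (∀ x, R x (g x)) ∧
      closure V ⊆ U ∧ (∀ z ∈ closure V, g z ∈ U) ∧
      (∀ γ ∈ Γ, ∀ z ∈ closure V, ∀ z' ∈ closure V, dist (γ z) (γ z') < r ∧
        dist (γ (g z)) (γ (g z')) < r) ∧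
      (∀ γ ∈ Γ, ∀ δ ∈ Γ, ∀ z ∈ closure V, ∀ z' ∈ closure V, γ z ≠ δ (g z') ∧
        ∀ k ∈ Iic n, s k (γ z) ≠ δ (g z')) := by
  classical
  obtain ⟨a, haU, haC⟩ := hUC
  have hbad : (⋃ γ ∈ Γ, ⋃ δ ∈ Γ, ({δ.symm (γ a)} ∪ ⋃ k ∈ Iic n, {δ.symm (s k (γ a))})).Finite := by
    refine hΓ.biUnion fun γ _ => hΓ.biUnion fun δ _ => ?_
    exact (Set.finite_singleton _).union ((Set.finite_Iic n).biUnion fun k _ => Set.finite_singleton _)
  obtain ⟨b, ⟨hbC, hbU⟩, hb⟩ := (hx0 U hU a haU haC).exists_notMem_finite hbad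
  obtain ⟨m, hm⟩ := (hs a b).1 (hR.trans (hR.symm haC) hbC)
  let g : X ≃ₜ X :=
    { toFun := s m
      invFun := s m
      left_inv := hsi m
      right_inv := hsi m
      continuous_toFun := hsc m
      continuous_invFun := hsc m }
  have hg : ∀ x, g x = s m x := fun _ => rfl
  have hga : g a = b := hm
  have hb1 : ∀ γ ∈ Γ, ∀ δ ∈ Γ, γ a ≠ δ b := by
    intro γ hγ δ hδ h
    apply hb
    refine mem_iUnion₂.2 ⟨γ, hγ, mem_iUnion₂.2 ⟨δ, hδ, Or.inl ?_⟩⟩
    rw [mem_singleton_iff, h, δ.symm_apply_apply]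
  have hb2 : ∀ γ ∈ Γ, ∀ δ ∈ Γ, ∀ k ∈ Iic n, s k (γ a) ≠ δ b := by
    intro γ hγ δ hδ k hk h
    apply hb
    refine mem_iUnion₂.2 ⟨γ, hγ, mem_iUnion₂.2 ⟨δ, hδ, Or.inr (mem_iUnion₂.2 ⟨k, hk, ?_⟩)⟩⟩
    rw [mem_singleton_iff, h, δ.symm_apply_apply]
  have h1 : ∀ᶠ p in 𝓝 (a, a), ∀ γ ∈ Γ, dist (γ p.1) (γ p.2) < r ∧
      dist (γ (g p.1)) (γ (g p.2)) < r := by
    rw [Filter.eventually_all_finite hΓ]
    intro γ hγ
    have c1 : Continuous fun p : X × X => dist (γ p.1) (γ p.2) :=
      (γ.continuous.comp continuous_fst).dist (γ.continuous.comp continuous_snd)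
    have c2 : Continuous fun p : X × X => dist (γ (g p.1)) (γ (g p.2)) :=
      ((γ.continuous.comp g.continuous).comp continuous_fst).dist
        ((γ.continuous.comp g.continuous).comp continuous_snd)
    refine (c1.continuousAt.eventually_lt continuousAt_const ?_).and
      (c2.continuousAt.eventually_lt continuousAt_const ?_)
    · simpa using hr
    · simpa using hr
  have h2 : ∀ᶠ p in 𝓝 (a, a), ∀ γ ∈ Γ, ∀ δ ∈ Γ, γ p.1 ≠ δ (g p.2) ∧
      ∀ k ∈ Iic n, s k (γ p.1) ≠ δ (g p.2) := by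
    rw [Filter.eventually_all_finite hΓ]
    intro γ hγ
    rw [Filter.eventually_all_finite hΓ]
    intro δ hδ
    have c1 : Continuous fun p : X × X => γ p.1 := γ.continuous.comp continuous_fst
    have c2 : Continuous fun p : X × X => δ (g p.2) :=
      (δ.continuous.comp g.continuous).comp continuous_snd
    refine Filter.Eventually.and ((isOpen_ne_fun c1 c2).mem_nhds ?_) ?_
    · show γ a ≠ δ (g a)
      rw [hga]
      exact hb1 γ hγ δ hδ
    · rw [Filter.eventually_all_finite (Set.finite_Iic n)]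
      intro k hk
      have c3 : Continuous fun p : X × X => s k (γ p.1) := (hsc k).comp c1
      refine (isOpen_ne_fun c3 c2).mem_nhds ?_
      show s k (γ a) ≠ δ (g a)
      rw [hga]
      exact hb2 γ hγ δ hδ k hk
  have h3 := h1.and h2
  rw [nhds_prod_eq] at h3
  obtain ⟨t, ht, ht2'⟩ := Filter.mem_prod_self_iff.1 h3
  have ht2 : ∀ z ∈ t, ∀ z' ∈ t, (∀ γ ∈ Γ, dist (γ z) (γ z') < r ∧
      dist (γ (g z)) (γ (g z')) < r) ∧ ∀ γ ∈ Γ, ∀ δ ∈ Γ, γ z ≠ δ (g z') ∧
      ∀ k ∈ Iic n, s k (γ z) ≠ δ (g z') := by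
    intro z hz z' hz'
    exact ht2' (show (z, z') ∈ t ×ˢ t from ⟨hz, hz'⟩)
  have hN : t ∩ (U ∩ g ⁻¹' U) ∈ 𝓝 a := by
    refine Filter.inter_mem ht (Filter.inter_mem (hU.mem_nhds haU) ?_)
    apply (hU.preimage g.continuous).mem_nhds
    show g a ∈ U
    rw [hga]
    exact hbU
  obtain ⟨ε, hε, hεN⟩ := Metric.nhds_basis_closedBall.mem_iff.1 hN
  have hcl : closure (Metric.ball a ε) ⊆ Metric.closedBall a ε := Metric.closure_ball_subset_closedBall
  refine ⟨Metric.ball a ε, g, Metric.isOpen_ball, ⟨a, Metric.mem_ball_self hε, haC⟩,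
    fun x => (hs _ _).2 ⟨m, rfl⟩, fun z hz => (hεN (hcl hz)).2.1, fun z hz => (hεN (hcl hz)).2.2,
    ?_, ?_⟩
  · intro γ hγ z hz z' hz'
    exact (ht2 z (hεN (hcl hz)).1 z' (hεN (hcl hz')).1).1 γ hγ
  · intro γ hγ δ hδ z hz z' hz'
    exact (ht2 z (hεN (hcl hz)).1 z' (hεN (hcl hz')).1).2 γ hγ δ hδ

/-- the homeomorphism attached to the first `n` digits -/
noncomputable def gam (g : ℕ → X ≃ₜ X) (x : ℕ → Bool) : ℕ → X ≃ₜ X
  | 0 => Homeomorph.refl X
  | n + 1 => if x n then (g n).trans (gam g x n) else gam g x n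

theorem gam_true (g : ℕ → X ≃ₜ X) (x : ℕ → Bool) (n : ℕ) (h : x n = true) (z : X) :
    gam g x (n + 1) z = gam g x n (g n z) := by
  show (if x n then (g n).trans (gam g x n) else gam g x n) z = _
  rw [if_pos h]
  rfl

theorem gam_false (g : ℕ → X ≃ₜ X) (x : ℕ → Bool) (n : ℕ) (h : x n = false) (z : X) :
    gam g x (n + 1) z = gam g x n z := by
  show (if x n then (g n).trans (gam g x n) else gam g x n) z = _
  rw [h]
  rfl

/-- the finite set of homeomorphisms reached at stage `n` -/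
noncomputable def Gm (g : ℕ → X ≃ₜ X) : ℕ → Set (X ≃ₜ X)
  | 0 => {Homeomorph.refl X}
  | n + 1 => Gm g n ∪ (fun γ => (g n).trans γ) '' Gm g n

theorem gam_mem (g : ℕ → X ≃ₜ X) (x : ℕ → Bool) (n : ℕ) : gam g x n ∈ Gm g n := by
  induction n with
  | zero => exact mem_singleton _
  | succ n ih =>
    show (if x n then (g n).trans (gam g x n) else gam g x n) ∈ _
    split_ifs
    · exact Or.inr ⟨_, ih, rfl⟩
    · exact Or.inl ih

end

/-- A class without isolated points contains an injective Borel copy of eventual equality. -/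
theorem exists_copy {X : Type u} [TopologicalSpace X] [PolishSpace X] [MeasurableSpace X]
    [BorelSpace X] (R : X → X → Prop) (hR : Equivalence R) (s : ℕ → X → X)
    (hsc : ∀ n, Continuous (s n)) (hsi : ∀ n x, s n (s n x) = x)
    (hs : ∀ x y, R x y ↔ ∃ n, s n x = y) (x0 : X)
    (hx0 : ∀ U : Set X, IsOpen U → ∀ a ∈ U, R x0 a → {y | R x0 y ∧ y ∈ U}.Infinite) :
    ∃ ω : (ℕ → Bool) → X, Measurable ω ∧ Function.Injective ω ∧
      ∀ x y, R (ω x) (ω y) ↔ Eq0 x y := by
  classical
  let := upgradeIsCompletelyMetrizable X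
  choose V G hV1 hV2 hV3 hV4 hV5 hV6 hV7 using
    fun (n : ℕ) => ge_step R hR s hsc hsi hs x0 hx0 n ((1 / 2 : ℝ) ^ n) (by positivity)
  -- state: open set meeting the class, finite set of homeomorphisms
  let St : ℕ → {p : Set X × Set (X ≃ₜ X) // IsOpen p.1 ∧ (∃ a ∈ p.1, R x0 a) ∧ p.2.Finite} := fun n =>
    Nat.rec ⟨(univ, {Homeomorph.refl X}), isOpen_univ, ⟨x0, mem_univ _, hR.refl x0⟩,
        Set.finite_singleton _⟩
      (fun n p => ⟨(V n p.1.1 p.2.1 p.2.2.1 p.1.2 p.2.2.2,
        p.1.2 ∪ (fun γ => (G n p.1.1 p.2.1 p.2.2.1 p.1.2 p.2.2.2).trans γ) '' p.1.2),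
        hV1 _ _ _ _ _ _, hV2 _ _ _ _ _ _, p.2.2.2.union (p.2.2.2.image _)⟩) n
  obtain ⟨U, hUe⟩ : ∃ U : ℕ → Set X, ∀ n, U n = (St n).1.1 := ⟨_, fun _ => rfl⟩
  obtain ⟨g, hge⟩ : ∃ g : ℕ → X ≃ₜ X, ∀ n, g n = G n (St n).1.1 (St n).2.1 (St n).2.2.1 (St n).1.2
    (St n).2.2.2 := ⟨_, fun _ => rfl⟩
  have hΓ : ∀ n, Gm g n = (St n).1.2 := by
    intro n
    induction n with
    | zero => rfl
    | succ n ih =>
      show Gm g n ∪ (fun γ => (g n).trans γ) '' Gm g n = _
      rw [ih, hge]
  have hU1 : ∀ n, U (n + 1) = V n (St n).1.1 (St n).2.1 (St n).2.2.1 (St n).1.2 (St n).2.2.2 := by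
    intro n
    rw [hUe]
  have hUC : ∀ n, ∃ a ∈ U n, R x0 a := by
    intro n
    rw [hUe]
    exact (St n).2.2.1
  have gR : ∀ n x, R x (g n x) := by
    intro n
    rw [hge]
    exact hV3 _ _ _ _ _ _
  have Usub : ∀ n, closure (U (n + 1)) ⊆ U n := by
    intro n
    rw [hU1, hUe]
    exact hV4 _ _ _ _ _ _
  have gU : ∀ n, ∀ z ∈ closure (U (n + 1)), g n z ∈ U n := by
    intro n
    rw [hU1, hUe, hge]
    exact hV5 _ _ _ _ _ _
  have hdist : ∀ n, ∀ γ ∈ Gm g n, ∀ z ∈ closure (U (n + 1)), ∀ z' ∈ closure (U (n + 1)),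
      dist (γ z) (γ z') < (1 / 2 : ℝ) ^ n ∧ dist (γ (g n z)) (γ (g n z')) < (1 / 2 : ℝ) ^ n := by
    intro n
    rw [hU1, hΓ, hge]
    exact hV6 _ _ _ _ _ _
  have hsep : ∀ n, ∀ γ ∈ Gm g n, ∀ δ ∈ Gm g n, ∀ z ∈ closure (U (n + 1)),
      ∀ z' ∈ closure (U (n + 1)), γ z ≠ δ (g n z') ∧ ∀ k ∈ Iic n, s k (γ z) ≠ δ (g n z') := by
    intro n
    rw [hU1, hΓ, hge]
    exact hV7 _ _ _ _ _ _
  choose a ha haC using hUC
  have gamR : ∀ (x : ℕ → Bool) n z, R z (gam g x n z) := by
    intro x n
    induction n with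
    | zero =>
      intro z
      exact hR.refl z
    | succ n ih =>
      intro z
      cases hx : x n with
      | true =>
        rw [gam_true g x n hx]
        exact hR.trans (gR n z) (ih _)
      | false =>
        rw [gam_false g x n hx]
        exact ih z
  -- the nested closed sets
  obtain ⟨D, hD⟩ : ∃ D : (ℕ → Bool) → ℕ → Set X, ∀ x n, D x n = gam g x n '' closure (U n) :=
    ⟨_, fun _ _ => rfl⟩
  have hDc : ∀ x n, IsClosed (D x n) := by
    intro x n
    rw [hD]
    exact (gam g x n).isClosedMap _ isClosed_closure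
  have hDsub : ∀ x n, D x (n + 1) ⊆ D x n := by
    intro x n
    rw [hD, hD]
    rintro _ ⟨z, hz, rfl⟩
    cases hx : x n with
    | true =>
      rw [gam_true g x n hx]
      exact ⟨_, subset_closure (gU n z hz), rfl⟩
    | false =>
      rw [gam_false g x n hx]
      exact ⟨_, subset_closure (Usub n hz), rfl⟩
  have hDanti : ∀ x, Antitone (D x) := fun x => antitone_nat_of_succ_le (hDsub x)
  have hDd : ∀ x n, ∀ p ∈ D x (n + 1), ∀ q ∈ D x (n + 1), dist p q < (1 / 2 : ℝ) ^ n := by
    intro x n p hp q hq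
    rw [hD] at hp hq
    obtain ⟨z, hz, rfl⟩ := hp
    obtain ⟨z', hz', rfl⟩ := hq
    cases hx : x n with
    | true =>
      rw [gam_true g x n hx, gam_true g x n hx]
      exact (hdist n _ (gam_mem g x n) z hz z' hz').2
    | false =>
      rw [gam_false g x n hx, gam_false g x n hx]
      exact (hdist n _ (gam_mem g x n) z hz z' hz').1
  obtain ⟨c, hc⟩ : ∃ c : ℕ → (ℕ → Bool) → X, ∀ n x, c n x = gam g x n (a n) := ⟨_, fun _ _ => rfl⟩
  have hcD : ∀ x n m, n ≤ m → c m x ∈ D x n := by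
    intro x n m h
    apply hDanti x h
    rw [hD, hc]
    exact ⟨_, subset_closure (ha m), rfl⟩
  have hcau : ∀ x, CauchySeq fun n => c n x := by
    intro x
    rw [← cauchySeq_shift 1]
    refine cauchySeq_of_le_tendsto_0 (fun n => (1 / 2 : ℝ) ^ n) ?_
      (tendsto_pow_atTop_nhds_zero_of_lt_one (by norm_num) (by norm_num))
    intro n m N hn hm
    exact (hDd x N _ (hcD x (N + 1) (n + 1) (by omega)) _ (hcD x (N + 1) (m + 1) (by omega))).le
  have hlim : ∀ x, ∃ p, Tendsto (fun n => c n x) atTop (𝓝 p) := fun x =>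
    cauchySeq_tendsto_of_complete (hcau x)
  choose ω hω using hlim
  have hωD : ∀ x n, ω x ∈ D x n := by
    intro x n
    refine (hDc x n).mem_of_tendsto (hω x) ?_
    filter_upwards [eventually_ge_atTop n] with m hm
    exact hcD x n m hm
  have hmeas : Measurable ω := by
    refine measurable_of_tendsto_metrizable (f := c) ?_ (tendsto_pi_nhds.2 hω)
    intro n
    have h1 : ∀ n z, Measurable fun x : ℕ → Bool => gam g x n z := by
      intro n
      induction n with
      | zero =>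
        intro z
        exact measurable_const
      | succ n ih =>
        intro z
        have e1 : (fun x : ℕ → Bool => gam g x (n + 1) z) =
            fun x => if x n = true then gam g x n (g n z) else gam g x n z := by
          funext x
          cases hx : x n with
          | true =>
            rw [gam_true g x n hx, if_pos rfl]
          | false =>
            rw [gam_false g x n hx, if_neg (by simp)]
        rw [e1]
        refine Measurable.ite ?_ (ih _) (ih _)
        exact (measurableSet_singleton true).preimage (measurable_pi_apply n)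
    have e1 : c n = fun x => gam g x n (a n) := funext (hc n)
    rw [e1]
    exact h1 n _
  -- the two directions
  have hsep2 : ∀ x y n, x n = false → y n = true → ω x ≠ ω y ∧ ∀ k ≤ n, s k (ω x) ≠ ω y := by
    intro x y n hx hy
    have h1 := hωD x (n + 1)
    have h2 := hωD y (n + 1)
    rw [hD] at h1 h2
    obtain ⟨z, hz, hz2⟩ := h1
    obtain ⟨z', hz', hz2'⟩ := h2
    rw [gam_false g x n hx] at hz2
    rw [gam_true g y n hy] at hz2'
    have h3 := hsep n _ (gam_mem g x n) _ (gam_mem g y n) z hz z' hz'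
    rw [hz2, hz2'] at h3
    exact h3
  have hfwd : ∀ x y, Eq0 x y → R (ω x) (ω y) := by
    rintro x y ⟨N, hN⟩
    have h1 : ∀ m, ∃ δ : X → X, ∀ z, gam g x (N + m) z = gam g x N (δ z) ∧
        gam g y (N + m) z = gam g y N (δ z) := by
      intro m
      induction m with
      | zero => exact ⟨id, fun z => ⟨rfl, rfl⟩⟩
      | succ m ih =>
        obtain ⟨δ, hδ⟩ := ih
        cases hx : x (N + m) with
        | true =>
          have hy : y (N + m) = true := by
            rw [← hN _ (by omega)]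
            exact hx
          refine ⟨fun z => δ (g (N + m) z), fun z => ⟨?_, ?_⟩⟩
          · rw [← Nat.add_assoc, gam_true g x _ hx]
            exact (hδ _).1
          · rw [← Nat.add_assoc, gam_true g y _ hy]
            exact (hδ _).2
        | false =>
          have hy : y (N + m) = false := by
            rw [← hN _ (by omega)]
            exact hx
          refine ⟨δ, fun z => ⟨?_, ?_⟩⟩
          · rw [← Nat.add_assoc, gam_false g x _ hx]
            exact (hδ _).1
          · rw [← Nat.add_assoc, gam_false g y _ hy]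
            exact (hδ _).2
    have h2 : ∀ m, c (N + m) x = gam g x N ((gam g y N).symm (c (N + m) y)) := by
      intro m
      obtain ⟨δ, hδ⟩ := h1 m
      rw [hc, hc, (hδ _).1, (hδ _).2, Homeomorph.symm_apply_apply]
    have h3 : Tendsto (fun m => c (N + m) x) atTop (𝓝 (ω x)) := by
      have := (tendsto_add_atTop_iff_nat N).2 (hω x)
      refine this.congr fun m => ?_
      rw [Nat.add_comm]
    have h4 : Tendsto (fun m => c (N + m) y) atTop (𝓝 (ω y)) := by
      have := (tendsto_add_atTop_iff_nat N).2 (hω y)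
      refine this.congr fun m => ?_
      rw [Nat.add_comm]
    have h5 : Tendsto (fun m => c (N + m) x) atTop
        (𝓝 (gam g x N ((gam g y N).symm (ω y)))) := by
      have h6 : Continuous fun z => gam g x N ((gam g y N).symm z) :=
        (gam g x N).continuous.comp (gam g y N).symm.continuous
      have h7 := (h6.tendsto (ω y)).comp h4
      refine h7.congr fun m => ?_
      exact (h2 m).symm
    have h6 := tendsto_nhds_unique h3 h5
    have h7 := gamR x N ((gam g y N).symm (ω y))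
    have h8 := gamR y N ((gam g y N).symm (ω y))
    rw [Homeomorph.apply_symm_apply] at h8
    rw [← h6] at h7
    exact hR.trans (hR.symm h7) h8
  refine ⟨ω, hmeas, ?_, ?_⟩
  · intro x y hxy
    by_contra hne
    obtain ⟨n, hn⟩ := Function.ne_iff.1 hne
    cases hx : x n with
    | true =>
      have hy : y n = false := by
        cases h : y n with
        | true => exact absurd (hx.trans h.symm) hn
        | false => rfl
      exact (hsep2 y x n hy hx).1 hxy.symm
    | false =>
      have hy : y n = true := by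
        cases h : y n with
        | true => rfl
        | false => exact absurd (hx.trans h.symm) hn
      exact (hsep2 x y n hx hy).1 hxy
  · intro x y
    refine ⟨fun h => ?_, hfwd x y⟩
    obtain ⟨k, hk⟩ := (hs _ _).1 h
    refine ⟨k, fun n hkn => ?_⟩
    by_contra hn
    cases hx : x n with
    | true =>
      have hy : y n = false := by
        cases h : y n with
        | true => exact absurd (hx.trans h.symm) hn
        | false => rfl
      refine (hsep2 y x n hy hx).2 k hkn ?_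
      rw [← hk, hsi]
    | false =>
      have hy : y n = true := by
        cases h : y n with
        | true => rfl
        | false => exact absurd (hx.trans h.symm) hn
      exact (hsep2 x y n hx hy).2 k hkn hk

end Pool.Agent.V11246.DA
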