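import Mathlib
import Pool.Agent.V11246.DAb

set_option autoImplicit false
set_option linter.unusedSectionVars false
set_option linter.unusedVariables false

/-! # Non-smooth relations absorb a compressible hyperfinite one -/

namespace Pool.Agent.V11246.DA

open Set Filter Topology TopologicalSpace

universe u v

theorem exists_no_isolated {X : Type u} [TopologicalSpace X] [PolishSpace X] [MeasurableSpace X]
    [BorelSpace X] (R : X → X → Prop) (hR : Equivalence R) (s : ℕ → X → X)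
    (hsc : ∀ n, Continuous (s n)) (hs : ∀ x y, R x y ↔ ∃ n, s n x = y)
    (hns : ¬ ∃ S : Set X, MeasurableSet S ∧ ∀ x, ∃! y, y ∈ S ∧ R x y) :
    ∃ x0, ∀ U : Set X, IsOpen U → ∀ a ∈ U, R x0 a → {y | R x0 y ∧ y ∈ U}.Infinite := by
  classical
  by_contra hcon
  push Not at hcon
  apply hns
  by_cases hX : Nonempty X
  swap
  · exact ⟨∅, MeasurableSet.empty, fun x => absurd ⟨x⟩ hX⟩
  obtain ⟨b, hbc, -, hb⟩ := exists_countable_basis X
  have hbne : b.Nonempty := by
    obtain ⟨x⟩ := hX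
    obtain ⟨v, hv, -, -⟩ := hb.exists_subset_of_mem_open (mem_univ x) isOpen_univ
    exact ⟨v, hv⟩
  obtain ⟨B, hB⟩ := hbc.exists_eq_range hbne
  have hBo : ∀ n, IsOpen (B n) := fun n => hb.isOpen (hB ▸ mem_range_self n)
  obtain ⟨ι, hι⟩ : ∃ ι : ℕ → X → Prop, ∀ n x, ι n x ↔ ∃ k, s k x ∈ B n ∧
      ∀ l, s l x ∈ B n → s l x = s k x := ⟨_, fun _ _ => Iff.rfl⟩
  have hι2 : ∀ n x, ι n x ↔ ∃ y, R x y ∧ y ∈ B n ∧ ∀ z, R x z → z ∈ B n → z = y := by
    intro n x
    rw [hι]
    constructor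
    · rintro ⟨k, hk1, hk2⟩
      refine ⟨s k x, (hs _ _).2 ⟨k, rfl⟩, hk1, fun z hz hzB => ?_⟩
      obtain ⟨l, rfl⟩ := (hs _ _).1 hz
      exact hk2 l hzB
    · rintro ⟨y, hy, hyB, h⟩
      obtain ⟨k, rfl⟩ := (hs _ _).1 hy
      exact ⟨k, hyB, fun l hl => h _ ((hs _ _).2 ⟨l, rfl⟩) hl⟩
  have hex : ∀ x, ∃ n, ι n x := by
    intro x
    obtain ⟨U, hU, a, haU, hRa, hfin⟩ := hcon x
    have hfin2 : ({y | R x y ∧ y ∈ U} \ {a}).Finite := hfin.subset diff_subset
    have hO : IsOpen (U ∩ ({y | R x y ∧ y ∈ U} \ {a})ᶜ) := hU.inter hfin2.isClosed.isOpen_compl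
    obtain ⟨v, hv, hav, hvU⟩ := hb.exists_subset_of_mem_open
      (show a ∈ U ∩ ({y | R x y ∧ y ∈ U} \ {a})ᶜ from ⟨haU, fun h => h.2 rfl⟩) hO
    rw [hB] at hv
    obtain ⟨n, rfl⟩ := hv
    refine ⟨n, (hι2 n x).2 ⟨a, hRa, hav, fun z hz hzB => ?_⟩⟩
    by_contra hne
    exact (hvU hzB).2 ⟨⟨hz, (hvU hzB).1⟩, hne⟩
  have hinv : ∀ x y, R x y → ∀ n, ι n x ↔ ι n y := by
    intro x y hxy n
    rw [hι2, hι2]
    have h1 : ∀ z, R x z ↔ R y z := fun z =>
      ⟨fun h => hR.trans (hR.symm hxy) h, fun h => hR.trans hxy h⟩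
    simp only [h1]
  have hfind : ∀ x y, R x y → Nat.find (hex x) = Nat.find (hex y) := by
    intro x y hxy
    have h1 : (fun n => ι n x) = fun n => ι n y := funext fun n => propext (hinv x y hxy n)
    refine le_antisymm ?_ ?_
    · exact Nat.find_min' _ ((hinv x y hxy _).2 (Nat.find_spec (hex y)))
    · exact Nat.find_min' _ ((hinv x y hxy _).1 (Nat.find_spec (hex x)))
  obtain ⟨F, hF⟩ : ∃ F : ℕ → X → Prop, ∀ n x, F n x ↔ x ∈ B n := ⟨_, fun _ _ => Iff.rfl⟩
  refine ⟨{x | F (Nat.find (hex x)) x}, ?_, ?_⟩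
  · have h1 : Measurable fun x => F (Nat.find (hex x)) x := by
      refine Measurable.find (fun n => ?_) (fun n => ?_) hex
      · apply measurable_to_prop
        have : F n ⁻¹' {True} = B n := by
          ext x
          rw [mem_preimage, mem_singleton_iff, eq_iff_iff, hF]
          simp
        rw [this]
        exact (hBo n).measurableSet
      · have e1 : {x | ι n x} = ⋃ k, ({x | s k x ∈ B n} ∩ ⋂ l, ({x | s l x ∈ B n}ᶜ ∪
            {x | s l x = s k x})) := by
          ext x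
          rw [mem_iUnion]
          refine (hι n x).trans (exists_congr fun k => and_congr Iff.rfl ?_)
          rw [mem_iInter]
          refine forall_congr' fun l => ?_
          rw [mem_union, mem_compl_iff]
          exact imp_iff_not_or
        rw [e1]
        have hm : ∀ k, MeasurableSet {x | s k x ∈ B n} := fun k =>
          ((hBo n).preimage (hsc k)).measurableSet
        refine MeasurableSet.iUnion fun k => (hm k).inter (MeasurableSet.iInter fun l =>
          (hm l).compl.union ?_)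
        exact (isClosed_eq (hsc l) (hsc k)).measurableSet
    exact h1.setOf
  · intro x
    obtain ⟨y, hy1, hy2, hy3⟩ := (hι2 _ x).1 (Nat.find_spec (hex x))
    refine ⟨y, ⟨?_, hy1⟩, ?_⟩
    · show F (Nat.find (hex y)) y
      rw [hF, ← hfind x y hy1]
      exact hy2
    · rintro z ⟨hz1, hz2⟩
      have hz3 : F (Nat.find (hex z)) z := hz1
      rw [hF, ← hfind x z hz2] at hz3
      exact hy3 z hz2 hz3

/-- Cantor-Schröder-Bernstein for Borel injections respecting a correspondence -/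
theorem csb {α : Type u} {β : Type v} [MeasurableSpace α] [StandardBorelSpace α] [MeasurableSpace β]
    [StandardBorelSpace β] (f : α → β) (g : β → α) (hf : Measurable f) (hg : Measurable g)
    (hfi : Function.Injective f) (hgi : Function.Injective g) (P : α → β → Prop)
    (h1 : ∀ a, P a (f a)) (h2 : ∀ b, P (g b) b) :
    ∃ h : α → β, Measurable h ∧ Function.Bijective h ∧ ∀ a, P a (h a) := by
  classical
  have hfe : MeasurableEmbedding f := hf.measurableEmbedding hfi
  have hge : MeasurableEmbedding g := hg.measurableEmbedding hgi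
  let A : ℕ → Set α := fun n => Nat.rec (range g)ᶜ (fun _ S => (g ∘ f) '' S) n
  have A0 : A 0 = (range g)ᶜ := rfl
  have AS : ∀ n, A (n + 1) = (g ∘ f) '' A n := fun n => rfl
  have Am : ∀ n, MeasurableSet (A n) := by
    intro n
    induction n with
    | zero =>
      rw [A0]
      exact hge.measurableSet_range.compl
    | succ n ih =>
      rw [AS]
      exact (hge.comp hfe).measurableSet_image.2 ih
  obtain ⟨w, hwm, hw⟩ := hge.exists_measurable_extend measurable_id (fun a => ⟨f a⟩)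
  have hw' : ∀ b, w (g b) = b := fun b => congrFun hw b
  have Bm : MeasurableSet (⋃ n, A n) := MeasurableSet.iUnion Am
  obtain ⟨B, hB⟩ : ∃ B : Set α, B = ⋃ n, A n := ⟨_, rfl⟩
  rw [← hB] at Bm
  have hgf : ∀ a ∈ B, g (f a) ∈ B := by
    intro a ha
    rw [hB, mem_iUnion] at ha ⊢
    obtain ⟨n, hn⟩ := ha
    exact ⟨n + 1, by rw [AS]; exact ⟨a, hn, rfl⟩⟩
  have hout : ∀ a, a ∉ B → ∃ b, g b = a := by
    intro a ha
    by_contra h
    apply ha
    rw [hB, mem_iUnion]
    refine ⟨0, ?_⟩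
    rw [A0]
    rintro ⟨b, hb⟩
    exact h ⟨b, hb⟩
  have hin : ∀ b, g b ∈ B → ∃ a ∈ B, f a = b := by
    intro b hb
    rw [hB, mem_iUnion] at hb
    obtain ⟨n, hn⟩ := hb
    cases n with
    | zero =>
      rw [A0] at hn
      exact absurd ⟨b, rfl⟩ hn
    | succ n =>
      rw [AS] at hn
      obtain ⟨a, ha, hab⟩ := hn
      refine ⟨a, ?_, hgi hab⟩
      rw [hB, mem_iUnion]
      exact ⟨n, ha⟩
  refine ⟨fun a => if a ∈ B then f a else w a, Measurable.ite Bm hf hwm, ⟨?_, ?_⟩, ?_⟩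
  · intro a a' h
    dsimp only at h
    by_cases ha : a ∈ B
    · by_cases ha' : a' ∈ B
      · rw [if_pos ha, if_pos ha'] at h
        exact hfi h
      · rw [if_pos ha, if_neg ha'] at h
        obtain ⟨b, rfl⟩ := hout a' ha'
        rw [hw'] at h
        exact absurd (h ▸ hgf a ha) ha'
    · obtain ⟨b, rfl⟩ := hout a ha
      by_cases ha' : a' ∈ B
      · rw [if_neg ha, if_pos ha', hw'] at h
        exact absurd (h ▸ hgf a' ha') ha
      · obtain ⟨b', rfl⟩ := hout a' ha'
        rw [if_neg ha, if_neg ha', hw', hw'] at h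
        rw [h]
  · intro b
    by_cases hb : g b ∈ B
    · obtain ⟨a, ha, hab⟩ := hin b hb
      refine ⟨a, ?_⟩
      dsimp only
      rw [if_pos ha, hab]
    · refine ⟨g b, ?_⟩
      dsimp only
      rw [if_neg hb, hw']
  · intro a
    dsimp only
    split_ifs with ha
    · exact h1 a
    · obtain ⟨b, rfl⟩ := hout a ha
      rw [hw']
      exact h2 b

/-! ### coding -/

/-- the code of a natural number, a sequence and a finite modification -/
def cd (k : ℕ) (x : ℕ → Bool) (F : Finset ℕ) : ℕ → Bool := fun i =>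
  if i % 2 = 0 then x (i / 2)
  else xor (decide ((Nat.unpair (i / 2)).1 = k)) (decide (i / 2 ∈ F))

theorem cd_even (k : ℕ) (x : ℕ → Bool) (F : Finset ℕ) (i : ℕ) : cd k x F (2 * i) = x i := by
  unfold cd
  rw [if_pos (by omega)]
  congr 1
  omega

theorem cd_odd (k : ℕ) (x : ℕ → Bool) (F : Finset ℕ) (i : ℕ) : cd k x F (2 * i + 1) =
    xor (decide ((Nat.unpair i).1 = k)) (decide (i ∈ F)) := by
  unfold cd
  rw [if_neg (by omega)]
  have : (2 * i + 1) / 2 = i := by omega
  rw [this]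

theorem cd_eq0 (k l : ℕ) (x y : ℕ → Bool) (F G : Finset ℕ) :
    Eq0 (cd k x F) (cd l y G) ↔ k = l ∧ Eq0 x y := by
  constructor
  · rintro ⟨N, hN⟩
    refine ⟨?_, N, ?_⟩
    · obtain ⟨M, hM⟩ : ∃ M, ∀ i ∈ F ∪ G, i < M := by
        obtain ⟨M, hM⟩ := (F ∪ G).bddAbove
        exact ⟨M + 1, fun i hi => Nat.lt_succ_of_le (hM hi)⟩
      have h1 := hN (2 * Nat.pair k (N + M) + 1) (by
        have := Nat.right_le_pair k (N + M)
        omega)
      have h2 : Nat.pair k (N + M) ∉ F := by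
        intro h
        have h3 := hM _ (Finset.mem_union_left _ h)
        have := Nat.right_le_pair k (N + M)
        omega
      have h3 : Nat.pair k (N + M) ∉ G := by
        intro h
        have h3 := hM _ (Finset.mem_union_right _ h)
        have := Nat.right_le_pair k (N + M)
        omega
      rw [cd_odd, cd_odd, Nat.unpair_pair, decide_eq_false h2, decide_eq_false h3, Bool.xor_false,
        Bool.xor_false] at h1
      simpa using h1
    · intro n hn
      have h1 := hN (2 * n) (by omega)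
      rwa [cd_even, cd_even] at h1
  · rintro ⟨rfl, N, hN⟩
    obtain ⟨M, hM⟩ : ∃ M, ∀ i ∈ F ∪ G, i < M := by
      obtain ⟨M, hM⟩ := (F ∪ G).bddAbove
      exact ⟨M + 1, fun i hi => Nat.lt_succ_of_le (hM hi)⟩
    refine ⟨2 * (N + M), fun n hn => ?_⟩
    rcases Nat.even_or_odd' n with ⟨i, rfl | rfl⟩
    · rw [cd_even, cd_even]
      exact hN i (by omega)
    · have h2 : i ∉ F := by
        intro h
        have h3 := hM _ (Finset.mem_union_left _ h)
        omega
      have h3 : i ∉ G := by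
        intro h
        have h3 := hM _ (Finset.mem_union_right _ h)
        omega
      rw [cd_odd, cd_odd, decide_eq_false h2, decide_eq_false h3]

theorem cd_inj (k l : ℕ) (x y : ℕ → Bool) (F G : Finset ℕ) (h : cd k x F = cd l y G) :
    k = l ∧ x = y ∧ F = G := by
  have h0 : k = l := ((cd_eq0 k l x y F G).1 (h ▸ Eq0.refl _)).1
  subst h0
  refine ⟨rfl, ?_, ?_⟩
  · funext i
    have := congrFun h (2 * i)
    rwa [cd_even, cd_even] at this
  · ext i
    have := congrFun h (2 * i + 1)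
    rw [cd_odd, cd_odd] at this
    have key : ∀ b p q : Bool, xor b p = xor b q → p = q := by decide
    have h1 := key _ _ _ this
    simpa using h1

theorem cd_meas (k : ℕ) (F : Finset ℕ) : Measurable fun x : ℕ → Bool => cd k x F := by
  refine measurable_pi_lambda _ fun i => ?_
  unfold cd
  by_cases h : i % 2 = 0
  · simp only [h, if_true]
    exact measurable_pi_apply _
  · simp only [h, if_false]
    exact measurable_const

/-- the relation `E₀ × I_ℕ` -/
def EB (c d : (ℕ → Bool) × ℕ) : Prop := Eq0 c.1 d.1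

/-- the sum of `R` and `E₀ × I_ℕ` -/
def SumR {X : Type u} (R : X → X → Prop) : X ⊕ ((ℕ → Bool) × ℕ) → X ⊕ ((ℕ → Bool) × ℕ) → Prop
  | Sum.inl x, Sum.inl y => R x y
  | Sum.inr c, Sum.inr d => EB c d
  | _, _ => False

theorem exists_j {X : Type u} [MeasurableSpace X] [StandardBorelSpace X] (R : X → X → Prop)
    (hR : Equivalence R) (s : ℕ → X → X) (hsm : ∀ n, Measurable (s n))
    (hsi : ∀ n x, s n (s n x) = x) (hs : ∀ x y, R x y ↔ ∃ n, s n x = y)
    (ω : (ℕ → Bool) → X) (hωm : Measurable ω) (hωi : Function.Injective ω)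
    (hω : ∀ x y, R (ω x) (ω y) ↔ Eq0 x y) :
    ∃ j : ℕ × ((ℕ → Bool) × ℕ) → X, Measurable j ∧ Function.Injective j ∧
      (∀ k c l d, R (j (k, c)) (j (l, d)) ↔ k = l ∧ EB c d) ∧
      ∀ p x, R (j p) x → ∃ q, j q = x := by
  classical
  let enF : ℕ ≃ Finset ℕ := (Denumerable.eqv (Finset ℕ)).symm
  obtain ⟨w, hw⟩ : ∃ w : ℕ × (ℕ → Bool) → X, ∀ p, w p = ω (cd p.1 p.2 ∅) := ⟨_, fun _ => rfl⟩
  have hwm : Measurable w := by
    refine measurable_from_prod_countable_right fun k => ?_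
    have : (fun x => w (k, x)) = fun x => ω (cd k x ∅) := funext fun x => hw _
    rw [this]
    exact hωm.comp (cd_meas k ∅)
  have hwi : Function.Injective w := by
    rintro ⟨k, x⟩ ⟨l, y⟩ h
    rw [hw, hw] at h
    obtain ⟨h1, h2, -⟩ := cd_inj _ _ _ _ _ _ (hωi h)
    exact Prod.ext h1 h2
  have hwe : MeasurableEmbedding w := hwm.measurableEmbedding hwi
  obtain ⟨A, hA⟩ : ∃ A : Set X, ∀ a, a ∈ A ↔ ∃ n, s n a ∈ range w := ⟨_, fun _ => Iff.rfl⟩
  have hAm : MeasurableSet A := by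
    have : A = ⋃ n, s n ⁻¹' range w := by
      ext a
      rw [mem_iUnion]
      exact hA a
    rw [this]
    exact MeasurableSet.iUnion fun n => hwe.measurableSet_range.preimage (hsm n)
  have hA2 : ∀ a, a ∈ A ↔ ∃ p, R (w p) a := by
    intro a
    rw [hA]
    constructor
    · rintro ⟨n, p, hp⟩
      refine ⟨p, ?_⟩
      rw [hp]
      exact hR.symm ((hs _ _).2 ⟨n, rfl⟩)
    · rintro ⟨p, hp⟩
      obtain ⟨n, hn⟩ := (hs _ _).1 (hR.symm hp)
      exact ⟨n, p, hn.symm⟩
  have : StandardBorelSpace A := hAm.standardBorel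
  -- the first injection
  obtain ⟨u, hu⟩ : ∃ u : ℕ × ((ℕ → Bool) × ℕ) → X, ∀ p, u p = ω (cd p.1 p.2.1 (enF p.2.2)) :=
    ⟨_, fun _ => rfl⟩
  have hRu : ∀ p, R (w (p.1, p.2.1)) (u p) := by
    intro p
    rw [hw, hu, hω, cd_eq0]
    exact ⟨rfl, Eq0.refl _⟩
  have hum : Measurable u := by
    refine measurable_from_prod_countable_right fun k => ?_
    have e1 : (fun c : (ℕ → Bool) × ℕ => u (k, c)) = fun c => ω (cd k c.1 (enF c.2)) :=
      funext fun c => hu _
    rw [e1]
    refine measurable_from_prod_countable_left fun n => ?_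
    exact hωm.comp (cd_meas k (enF n))
  have hui : Function.Injective u := by
    rintro ⟨k, x, n⟩ ⟨l, y, m⟩ h
    rw [hu, hu] at h
    obtain ⟨h1, h2, h3⟩ := cd_inj _ _ _ _ _ _ (hωi h)
    exact Prod.ext h1 (Prod.ext h2 (enF.injective h3))
  obtain ⟨uA, huA⟩ : ∃ uA : ℕ × ((ℕ → Bool) × ℕ) → A, ∀ p, (uA p : X) = u p :=
    ⟨fun p => ⟨u p, (hA2 _).2 ⟨_, hRu p⟩⟩, fun _ => rfl⟩
  have huAm : Measurable uA := by
    refine (MeasurableEmbedding.subtype_coe hAm).measurable_comp_iff.1 ?_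
    have : (Subtype.val ∘ uA) = u := funext huA
    rw [this]
    exact hum
  -- the second injection
  obtain ⟨wi, hwim, hwi2⟩ := hwe.exists_measurable_extend measurable_id (fun a => ⟨(0, fun _ => false)⟩)
  have hwi3 : ∀ p, wi (w p) = p := fun p => congrFun hwi2 p
  have hexA : ∀ a : A, ∃ n, s n a ∈ range w := fun a => (hA _).1 a.2
  obtain ⟨v, hv⟩ : ∃ v : A → ℕ × ((ℕ → Bool) × ℕ), ∀ a, v a =
      ((wi (s (Nat.find (hexA a)) a)).1, ((wi (s (Nat.find (hexA a)) a)).2, Nat.find (hexA a))) :=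
    ⟨_, fun _ => rfl⟩
  have hvm : Measurable v := by
    have : v = fun a : A => (((wi (s (Nat.find (hexA a)) a)).1, ((wi (s (Nat.find (hexA a)) a)).2,
      Nat.find (hexA a))) : ℕ × ((ℕ → Bool) × ℕ)) := funext hv
    rw [this]
    refine Measurable.find (f := fun (n : ℕ) (a : A) => (((wi (s n a)).1, ((wi (s n a)).2, n)) :
      ℕ × ((ℕ → Bool) × ℕ))) (p := fun (n : ℕ) (a : A) => s n a ∈ range w)
      (fun n => ?_) (fun n => ?_) hexA
    · have h1 : Measurable fun a : A => wi (s n a) := hwim.comp ((hsm n).comp measurable_subtype_coe)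
      exact (measurable_fst.comp h1).prodMk ((measurable_snd.comp h1).prodMk measurable_const)
    · exact hwe.measurableSet_range.preimage ((hsm n).comp measurable_subtype_coe)
  have hvw : ∀ a : A, w ((v a).1, (v a).2.1) = s (Nat.find (hexA a)) a := by
    intro a
    obtain ⟨p, hp⟩ := Nat.find_spec (hexA a)
    rw [hv]
    dsimp only
    rw [← hp, hwi3]
  have hv3 : ∀ a : A, (v a).2.2 = Nat.find (hexA a) := fun a => by rw [hv]
  have hvi : Function.Injective v := by
    intro a a' h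
    have h1 := hvw a
    have h2 := hvw a'
    have h3 : Nat.find (hexA a) = Nat.find (hexA a') := by rw [← hv3, ← hv3, h]
    rw [h, h2, ← h3] at h1
    have h4 := congrArg (s (Nat.find (hexA a))) h1
    rw [hsi, hsi] at h4
    exact (Subtype.ext h4).symm
  obtain ⟨h, hh1, hh2, hh3⟩ := csb uA v huAm hvm
    (fun p q hpq => hui (by rw [← huA, ← huA, hpq])) hvi
    (fun p a => R (w (p.1, p.2.1)) a)
    (fun p => by
      show R (w (p.1, p.2.1)) (uA p)
      rw [huA]
      exact hRu p)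
    (fun a => by
      show R (w ((v a).1, (v a).2.1)) a
      rw [hvw]
      exact hR.symm ((hs _ _).2 ⟨_, rfl⟩))
  refine ⟨fun p => (h p : X), measurable_subtype_coe.comp hh1,
    fun p q hpq => hh2.1 (Subtype.ext hpq), ?_, ?_⟩
  · intro k c l d
    have h1 := hh3 (k, c)
    have h2 := hh3 (l, d)
    have h3 : R (h (k, c) : X) (h (l, d) : X) ↔ R (w (k, c.1)) (w (l, d.1)) := by
      constructor
      · intro h4
        exact hR.trans h1 (hR.trans h4 (hR.symm h2))
      · intro h4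
        exact hR.trans (hR.symm h1) (hR.trans h4 h2)
    show R (h (k, c) : X) (h (l, d) : X) ↔ _
    rw [h3, hw, hw, hω, cd_eq0]
    rfl
  · intro p x hx
    have h1 : x ∈ A := (hA2 x).2 ⟨_, hR.trans (hh3 p) hx⟩
    obtain ⟨q, hq⟩ := hh2.2 ⟨x, h1⟩
    exact ⟨q, congrArg Subtype.val hq⟩

theorem absorb {X : Type u} [MeasurableSpace X] [StandardBorelSpace X] (R : X → X → Prop)
    (hR : Equivalence R) (j : ℕ × ((ℕ → Bool) × ℕ) → X) (hjm : Measurable j)
    (hji : Function.Injective j) (hj1 : ∀ k c l d, R (j (k, c)) (j (l, d)) ↔ k = l ∧ EB c d)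
    (hj2 : ∀ p x, R (j p) x → ∃ q, j q = x) :
    ∃ H : X ⊕ ((ℕ → Bool) × ℕ) → X, Measurable H ∧ Function.Bijective H ∧
      ∀ p q, R (H p) (H q) ↔ SumR R p q := by
  classical
  have hje : MeasurableEmbedding j := hjm.measurableEmbedding hji
  obtain ⟨i, him, hi⟩ := hje.exists_measurable_extend measurable_id
    (fun a => ⟨(0, (fun _ => false), 0)⟩)
  have hi' : ∀ p, i (j p) = p := fun p => congrFun hi p
  obtain ⟨sh, hsh⟩ : ∃ sh : X → X, ∀ x, sh x = if x ∈ range j then j ((i x).1 + 1, (i x).2) else x :=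
    ⟨_, fun _ => rfl⟩
  have hsh1 : ∀ k c, sh (j (k, c)) = j (k + 1, c) := by
    intro k c
    rw [hsh, if_pos ⟨_, rfl⟩, hi']
  have hsh2 : ∀ x, x ∉ range j → sh x = x := fun x hx => by rw [hsh, if_neg hx]
  have hshm : Measurable sh := by
    have : sh = fun x => if x ∈ range j then j ((i x).1 + 1, (i x).2) else x := funext hsh
    rw [this]
    refine Measurable.ite hje.measurableSet_range ?_ measurable_id
    refine hjm.comp (Measurable.prodMk ?_ (measurable_snd.comp him))
    exact (measurable_from_top (f := fun n : ℕ => n + 1)).comp (measurable_fst.comp him)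
  have hRr : ∀ x y, R x y → x ∈ range j → y ∈ range j := by
    rintro _ y h ⟨p, rfl⟩
    exact hj2 p y h
  have hshR : ∀ x y, R (sh x) (sh y) ↔ R x y := by
    intro x y
    by_cases hx : x ∈ range j
    · obtain ⟨⟨k, c⟩, rfl⟩ := hx
      by_cases hy : y ∈ range j
      · obtain ⟨⟨l, d⟩, rfl⟩ := hy
        rw [hsh1, hsh1, hj1, hj1]
        constructor
        · rintro ⟨h1, h2⟩
          exact ⟨by omega, h2⟩
        · rintro ⟨h1, h2⟩
          exact ⟨by omega, h2⟩
      · rw [hsh1, hsh2 y hy]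
        exact ⟨fun h => absurd (hRr _ _ h ⟨_, rfl⟩) hy, fun h => absurd (hRr _ _ h ⟨_, rfl⟩) hy⟩
    · by_cases hy : y ∈ range j
      · obtain ⟨⟨l, d⟩, rfl⟩ := hy
        rw [hsh1, hsh2 x hx]
        exact ⟨fun h => absurd (hRr _ _ (hR.symm h) ⟨_, rfl⟩) hx,
          fun h => absurd (hRr _ _ (hR.symm h) ⟨_, rfl⟩) hx⟩
      · rw [hsh2 x hx, hsh2 y hy]
  have hshi : Function.Injective sh := by
    intro x y h
    by_cases hx : x ∈ range j
    · obtain ⟨⟨k, c⟩, rfl⟩ := hx
      by_cases hy : y ∈ range j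
      · obtain ⟨⟨l, d⟩, rfl⟩ := hy
        rw [hsh1, hsh1] at h
        have h1 := hji h
        rw [Prod.mk.injEq] at h1
        rw [show k = l by omega, h1.2]
      · rw [hsh1, hsh2 y hy] at h
        exact absurd ⟨_, h⟩ hy
    · by_cases hy : y ∈ range j
      · obtain ⟨⟨l, d⟩, rfl⟩ := hy
        rw [hsh1, hsh2 x hx] at h
        exact absurd ⟨_, h.symm⟩ hx
      · rwa [hsh2 x hx, hsh2 y hy] at h
  have hsh0 : ∀ x c, sh x ≠ j (0, c) := by
    intro x c h
    by_cases hx : x ∈ range j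
    · obtain ⟨⟨k, d⟩, rfl⟩ := hx
      rw [hsh1] at h
      have h1 := hji h
      rw [Prod.mk.injEq] at h1
      omega
    · rw [hsh2 x hx] at h
      exact hx ⟨_, h.symm⟩
  have hshR0 : ∀ x c, ¬ R (sh x) (j (0, c)) := by
    intro x c h
    by_cases hx : x ∈ range j
    · obtain ⟨⟨k, d⟩, rfl⟩ := hx
      rw [hsh1, hj1] at h
      omega
    · rw [hsh2 x hx] at h
      exact hx (hRr _ _ (hR.symm h) ⟨_, rfl⟩)
  refine ⟨Sum.elim sh (fun c => j (0, c)), ?_, ⟨?_, ?_⟩, ?_⟩
  · exact hshm.sumElim (hjm.comp (measurable_const.prodMk measurable_id))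
  · rintro (x | c) (y | d) h
    · exact congrArg _ (hshi h)
    · exact absurd h (hsh0 x d)
    · exact absurd h.symm (hsh0 y c)
    · have h1 := hji h
      rw [Prod.mk.injEq] at h1
      rw [h1.2]
  · intro x
    by_cases hx : x ∈ range j
    · obtain ⟨⟨k, c⟩, rfl⟩ := hx
      cases k with
      | zero => exact ⟨Sum.inr c, rfl⟩
      | succ k => exact ⟨Sum.inl (j (k, c)), hsh1 k c⟩
    · exact ⟨Sum.inl x, hsh2 x hx⟩
  · rintro (x | c) (y | d)
    · exact hshR x y
    · exact ⟨fun h => absurd h (hshR0 x d), fun h => h.elim⟩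
    · exact ⟨fun h => absurd (hR.symm h) (hshR0 y c), fun h => h.elim⟩
    · show R (j (0, c)) (j (0, d)) ↔ EB c d
      rw [hj1]
      exact ⟨fun h => h.2, fun h => ⟨rfl, h⟩⟩

end Pool.Agent.V11246.DA
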