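import Mathlib
import Pool.Agent.V11246.DAc

set_option autoImplicit false
set_option linter.unusedSectionVars false
set_option linter.unusedVariables false

/-! # The Polish space carrying a minimal `K_σ` copy -/

namespace Pool.Agent.V11246.DA

open Set Filter Topology TopologicalSpace

universe u

abbrev CB : Type := (ℕ → Bool) × ℕ
abbrev KK : Type := ℕ × ℕ → Bool
abbrev II : Type := Finset ℕ × ℕ

def chi (F : Finset ℕ) : ℕ → Bool := fun n => decide (n ∈ F)

theorem chi_inj (F G : Finset ℕ) (h : chi F = chi G) : F = G := by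
  ext n
  have := congrFun h n
  simpa [chi] using this

def wt (i : II) : CB := (chi i.1, i.2)

theorem wt_inj (i j : II) (h : wt i = wt j) : i = j := by
  have h1 : (wt i).1 = (wt j).1 := by rw [h]
  have h2 : (wt i).2 = (wt j).2 := by rw [h]
  exact Prod.ext (chi_inj _ _ h1) h2

theorem chi_eq0 (F G : Finset ℕ) : Eq0 (chi F) (chi G) := by
  obtain ⟨M, hM⟩ := (F ∪ G).bddAbove
  refine ⟨M + 1, fun n hn => ?_⟩
  have h1 : n ∉ F := fun h => by
    have := hM (Finset.mem_union_left G h)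
    omega
  have h2 : n ∉ G := fun h => by
    have := hM (Finset.mem_union_right F h)
    omega
  simp [chi, h1, h2]

theorem eq0_chi (x : ℕ → Bool) (F : Finset ℕ) (h : Eq0 x (chi F)) : ∃ G, x = chi G := by
  obtain ⟨N, hN⟩ := h
  obtain ⟨M, hM⟩ := F.bddAbove
  refine ⟨(Finset.range (N + M + 1)).filter fun n => x n = true, ?_⟩
  funext n
  by_cases hn : n < N + M + 1
  · simp [chi, hn]
  · have h1 : x n = false := by
      rw [hN n (by omega)]
      have h2 : n ∉ F := fun h => by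
        have := hM h
        omega
      simp [chi, h2]
    simp [chi, h1]

/-- the first difference -/
noncomputable def fd (x y : ℕ → Bool) : ℕ := sInf {n | x n ≠ y n}

theorem fd_ne {x y : ℕ → Bool} (h : x ≠ y) : x (fd x y) ≠ y (fd x y) :=
  Nat.sInf_mem (s := {n | x n ≠ y n}) (Function.ne_iff.1 h)

theorem fd_lt {x y : ℕ → Bool} {n : ℕ} (h : n < fd x y) : x n = y n := by
  by_contra hne
  exact Nat.notMem_of_lt_sInf h hne

theorem fd_eq {x y : ℕ → Bool} {k : ℕ} (h1 : x k ≠ y k) (h2 : ∀ n < k, x n = y n) : fd x y = k := by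
  have h3 : fd x y ≤ k := Nat.sInf_le h1
  by_contra hne
  have h4 : fd x y < k := lt_of_le_of_ne h3 hne
  exact fd_ne (fun h => h1 (congrFun h k)) (h2 _ h4)

def cyl (b : CB) (N : ℕ) : Set CB := {c | c.2 = b.2 ∧ ∀ n < N, c.1 n = b.1 n}

theorem cyl_self (b : CB) (N : ℕ) : b ∈ cyl b N := ⟨rfl, fun _ _ => rfl⟩

theorem cyl_anti (b : CB) {N M : ℕ} (h : N ≤ M) : cyl b M ⊆ cyl b N :=
  fun c hc => ⟨hc.1, fun n hn => hc.2 n (lt_of_lt_of_le hn h)⟩

theorem cyl_open (b : CB) (N : ℕ) : IsOpen (cyl b N) := by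
  have e1 : cyl b N = {c : CB | c.2 = b.2} ∩ ⋂ n ∈ Finset.range N, {c : CB | c.1 n = b.1 n} := by
    ext c
    rw [mem_inter_iff, mem_iInter₂]
    exact and_congr Iff.rfl ⟨fun h n hn => h n (Finset.mem_range.1 hn),
      fun h n hn => h n (Finset.mem_range.2 hn)⟩
  rw [e1]
  refine IsOpen.inter ?_ (isOpen_biInter_finset fun n _ => ?_)
  · exact (isOpen_discrete ({b.2} : Set ℕ)).preimage continuous_snd
  · have h1 : Continuous fun c : CB => c.1 n := (continuous_apply n).comp continuous_fst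
    exact (isOpen_discrete ({b.1 n} : Set Bool)).preimage h1

theorem cyl_basis (b : CB) (U : Set CB) (hU : U ∈ 𝓝 b) : ∃ N, cyl b N ⊆ U := by
  obtain ⟨x, m⟩ := b
  obtain ⟨U1, hU1, U2, hU2, hUU⟩ := mem_nhds_prod_iff.1 hU
  obtain ⟨V, hVU, hV, hx⟩ := mem_nhds_iff.1 hU1
  obtain ⟨W, ⟨z, n, rfl⟩, hzW, hWV⟩ :=
    (PiNat.isTopologicalBasis_cylinders (fun _ : ℕ => Bool)).exists_subset_of_mem_open hx hV
  refine ⟨n, ?_⟩
  rintro ⟨x', m'⟩ ⟨h1, h2⟩
  have h1' : m' = m := h1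
  subst h1'
  have h3 : x' ∈ PiNat.cylinder z n := by
    rw [PiNat.mem_cylinder_iff] at hzW ⊢
    intro i hi
    exact (h2 i hi).trans (hzW i hi)
  exact hUU ⟨hVU (hWV h3), mem_of_mem_nhds hU2⟩

section lam

variable (P : II → ℕ → KK)

/-- locations -/
noncomputable def lam (i : II) (b : CB) : KK :=
  if b.2 = i.2 then P i (fd b.1 (chi i.1)) else P i 0

theorem lam_loc (i : II) (b : CB) (h : b ≠ wt i) :
    ∃ N, ∀ c ∈ cyl b N, c ≠ wt i ∧ lam P i c = lam P i b := by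
  by_cases h2 : b.2 = i.2
  · have h1 : b.1 ≠ chi i.1 := fun h3 => h (Prod.ext h3 h2)
    refine ⟨fd b.1 (chi i.1) + 1, ?_⟩
    rintro c ⟨hc1, hc2⟩
    have h3 : c.1 (fd b.1 (chi i.1)) ≠ chi i.1 (fd b.1 (chi i.1)) := by
      rw [hc2 _ (Nat.lt_succ_self _)]
      exact fd_ne h1
    have h4 : fd c.1 (chi i.1) = fd b.1 (chi i.1) := by
      refine fd_eq h3 fun n hn => ?_
      rw [hc2 n (by omega)]
      exact fd_lt hn
    refine ⟨fun h5 => h3 (by rw [h5]; rfl), ?_⟩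
    unfold lam
    rw [if_pos (hc1.trans h2), if_pos h2, h4]
  · refine ⟨0, ?_⟩
    rintro c ⟨hc1, -⟩
    have h3 : c.2 ≠ i.2 := by rw [hc1]; exact h2
    refine ⟨fun h5 => h3 (by rw [h5]; rfl), ?_⟩
    unfold lam
    rw [if_neg h3, if_neg h2]

theorem lam_ev (i : II) (b : CB) (h : b ≠ wt i) :
    ∀ᶠ c in 𝓝 b, c ≠ wt i ∧ lam P i c = lam P i b := by
  obtain ⟨N, hN⟩ := lam_loc P i b h
  filter_upwards [(cyl_open b N).mem_nhds (cyl_self b N)] with c hc
  exact hN c hc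

theorem lam_meas (i : II) : Measurable (lam P i) := by
  refine measurable_of_isOpen fun O hO => ?_
  have h1 : IsOpen (lam P i ⁻¹' O \ {wt i}) := by
    rw [isOpen_iff_mem_nhds]
    rintro b ⟨hb1, hb2⟩
    filter_upwards [lam_ev P i b hb2] with c hc
    refine ⟨?_, hc.1⟩
    show lam P i c ∈ O
    rw [hc.2]
    exact hb1
  have h2 : lam P i ⁻¹' O = (lam P i ⁻¹' O \ {wt i}) ∪ (lam P i ⁻¹' O ∩ {wt i}) :=
    (diff_union_inter _ _).symm
  rw [h2]
  refine h1.measurableSet.union (Set.Subsingleton.measurableSet ?_)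
  exact Set.subsingleton_singleton.anti inter_subset_right

theorem lam_range (i : II) (b : CB) : ∃ k, lam P i b = P i k := by
  unfold lam
  split_ifs
  · exact ⟨_, rfl⟩
  · exact ⟨_, rfl⟩

variable (Xh : II → Set KK)

/-- The carrier. -/
def YY : Set (CB × (II → KK)) := {y | ∀ i, y.2 i ∈ Xh i ∧ (y.1 ≠ wt i → y.2 i = lam P i y.1)}

theorem YY_closed (hX : ∀ i, IsClosed (Xh i)) : IsClosed (YY P Xh) := by
  have e1 : YY P Xh = ⋂ i, ({y : CB × (II → KK) | y.2 i ∈ Xh i} ∩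
      {y : CB × (II → KK) | y.1 ≠ wt i → y.2 i = lam P i y.1}) := by
    ext y
    rw [mem_iInter]
    exact Iff.rfl
  rw [e1]
  have hc : ∀ i, Continuous (fun y : CB × (II → KK) => y.2 i) := fun i =>
    (continuous_apply i).comp continuous_snd
  refine isClosed_iInter (fun i => IsClosed.inter ((hX i).preimage (hc i)) ?_)
  rw [← isOpen_compl_iff, isOpen_iff_eventually]
  intro y hy
  have hy1 : y.1 ≠ wt i ∧ y.2 i ≠ lam P i y.1 := by
    simpa only [mem_compl_iff, mem_ofPred_eq, Classical.not_imp] using hy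
  have h1 : ∀ᶠ y' in 𝓝 y, y'.1 ≠ wt i ∧ lam P i y'.1 = lam P i y.1 :=
    continuous_fst.continuousAt.eventually (lam_ev P i y.1 hy1.1)
  have h2 : ∀ᶠ y' in 𝓝 y, y'.2 i ≠ lam P i y.1 :=
    ((hc i).continuousAt (x := y)).eventually_ne hy1.2
  filter_upwards [h1, h2] with y' h1' h2'
  intro h
  have h3 := h h1'.1
  rw [h1'.2] at h3
  exact h2' h3

open Classical in
/-- the point over `wt i` at location `c` -/
noncomputable def yi (i : II) (c : KK) : CB × (II → KK) :=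
  (wt i, fun j => if j = i then c else lam P j (wt i))

/-- the point over `b` -/
noncomputable def yb (b : CB) : CB × (II → KK) := (b, fun j => lam P j b)

theorem yi_self (i : II) (c : KK) : (yi P i c).2 i = c := if_pos rfl

theorem yi_mem (hP : ∀ i k, P i k ∈ Xh i) (i : II) (c : KK) (hc : c ∈ Xh i) : yi P i c ∈ YY P Xh := by
  intro j
  by_cases h : j = i
  · subst h
    rw [yi_self]
    exact ⟨hc, fun h => absurd rfl h⟩
  · have e1 : (yi P i c).2 j = lam P j (wt i) := if_neg h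
    rw [e1]
    obtain ⟨k, hk⟩ := lam_range P j (wt i)
    refine ⟨hk ▸ hP j k, fun _ => rfl⟩

theorem yb_mem (hP : ∀ i k, P i k ∈ Xh i) (b : CB) : yb P b ∈ YY P Xh := by
  intro j
  obtain ⟨k, hk⟩ := lam_range P j b
  refine ⟨?_, fun _ => rfl⟩
  show lam P j b ∈ _
  rw [hk]
  exact hP j k

theorem yi_of (y : CB × (II → KK)) (hy : y ∈ YY P Xh) (i : II) (h : y.1 = wt i) :
    y = yi P i (y.2 i) := by
  refine Prod.ext h ?_
  funext j
  by_cases hj : j = i
  · subst hj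
    rw [yi_self]
  · have e1 : (yi P i (y.2 i)).2 j = lam P j (wt i) := if_neg hj
    rw [e1, (hy j).2 (fun h2 => hj (wt_inj _ _ (h2.symm.trans h))), h]

theorem yb_of (y : CB × (II → KK)) (hy : y ∈ YY P Xh) (h : y.1 ∉ range wt) : y = yb P y.1 := by
  refine Prod.ext rfl ?_
  funext j
  exact (hy j).2 (fun h2 => h ⟨j, h2.symm⟩)

theorem yi_inj (i j : II) (c d : KK) (h : yi P i c = yi P j d) : i = j ∧ c = d := by
  have h1 : i = j := wt_inj _ _ (congrArg Prod.fst h)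
  subst h1
  refine ⟨rfl, ?_⟩
  have := congrFun (congrArg Prod.snd h) i
  rwa [yi_self, yi_self] at this

/-- Every nonempty open subset of the carrier contains everything over a small cylinder. -/
theorem exists_cyl (y : CB × (II → KK)) (hy : y ∈ YY P Xh)
    (hd : ∀ i, ∀ c ∈ Xh i, ∀ O : Set KK, IsOpen O → c ∈ O → ∀ N, ∃ k ≥ N, P i k ∈ O)
    (O : Set (CB × (II → KK))) (hO : IsOpen O) (hyO : y ∈ O) :
    ∃ (i : II) (N : ℕ), ∀ y' ∈ YY P Xh, y'.1 ∈ cyl (wt i) N → y' ∈ O := by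
  classical
  obtain ⟨u, v, hu, hv, hyu, hyv, huv⟩ := isOpen_prod_iff.1 hO y.1 y.2 hyO
  obtain ⟨G, B, hB, hGB⟩ := isOpen_pi_iff.1 hv _ hyv
  obtain ⟨N0, hN0⟩ := cyl_basis y.1 u (hu.mem_nhds hyu)
  have h1 : ∀ i, ∃ N, y.1 ≠ wt i → ∀ c ∈ cyl y.1 N, c ≠ wt i ∧ lam P i c = lam P i y.1 := by
    intro i
    by_cases h : y.1 = wt i
    · exact ⟨0, fun h2 => absurd h h2⟩
    · obtain ⟨N, hN⟩ := lam_loc P i y.1 h
      exact ⟨N, fun _ => hN⟩
  choose M hM using h1
  obtain ⟨N1, hN1a, hN1b⟩ : ∃ N1, N0 ≤ N1 ∧ ∀ i ∈ G, M i ≤ N1 :=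
    ⟨max N0 (G.sup M), le_max_left _ _, fun i hi => le_trans (Finset.le_sup hi) (le_max_right _ _)⟩
  have h2 : ∀ i ∈ G, y.1 ≠ wt i → ∀ y' ∈ YY P Xh, y'.1 ∈ cyl y.1 N1 → y'.2 i ∈ B i := by
    intro i hi hne y' hy' hc
    have h3 := hM i hne _ (cyl_anti _ (hN1b i hi) hc)
    rw [(hy' i).2 h3.1, h3.2, ← (hy i).2 hne]
    exact (hB i hi).2
  by_cases hex : ∃ i ∈ G, y.1 = wt i
  · obtain ⟨i, hi, hyi⟩ := hex
    obtain ⟨k, hk1, hk2⟩ := hd i (y.2 i) (hy i).1 (B i) (hB i hi).1 (hB i hi).2 N1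
    obtain ⟨F, hF1, hF2⟩ : ∃ F : Finset ℕ, (∀ n < k, chi F n = chi i.1 n) ∧
        chi F k ≠ chi i.1 k := by
      refine ⟨symmDiff i.1 {k}, ?_, ?_⟩
      · intro n hn
        have : n ≠ k := by omega
        simp [chi, Finset.mem_symmDiff, this]
      · by_cases hki : k ∈ i.1
        · simp [chi, Finset.mem_symmDiff, hki]
        · simp [chi, Finset.mem_symmDiff, hki]
    refine ⟨(F, i.2), k + 1, ?_⟩
    intro y' hy' hc
    have hc1 : y'.1.2 = i.2 := hc.1
    have hc2 : ∀ n < k + 1, y'.1.1 n = chi F n := hc.2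
    have h4 : y'.1 ∈ cyl y.1 N1 := by
      rw [hyi]
      refine ⟨hc1, fun n hn => ?_⟩
      rw [hc2 n (by omega), hF1 n (by omega)]
      rfl
    have h5 : y'.1.1 k ≠ chi i.1 k := by
      rw [hc2 k (by omega)]
      exact hF2
    have h6 : fd y'.1.1 (chi i.1) = k := by
      refine fd_eq h5 fun n hn => ?_
      rw [hc2 n (by omega), hF1 n hn]
    refine huv ⟨hN0 (cyl_anti _ hN1a h4), hGB ?_⟩
    intro i' hi'
    by_cases hii : i' = i
    · subst hii
      have h7 : y'.1 ≠ wt i' := fun h => h5 (by rw [h]; rfl)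
      show y'.2 i' ∈ B i'
      rw [(hy' i').2 h7]
      unfold lam
      rw [if_pos hc1, h6]
      exact hk2
    · exact h2 i' hi' (fun h => hii (wt_inj _ _ (h.symm.trans hyi))) y' hy' h4
  · push Not at hex
    refine ⟨((Finset.range N1).filter fun n => y.1.1 n = true, y.1.2), N1, ?_⟩
    intro y' hy' hc
    have hc1 : y'.1.2 = y.1.2 := hc.1
    have h4 : y'.1 ∈ cyl y.1 N1 := by
      refine ⟨hc1, fun n hn => ?_⟩
      rw [hc.2 n hn]
      simp [wt, chi, hn]
    exact huv ⟨hN0 (cyl_anti _ hN1a h4), hGB fun i' hi' => h2 i' hi' (hex i' hi') y' hy' h4⟩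

end lam

end Pool.Agent.V11246.DA
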