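import Mathlib
import Pool.Agent.V11246.DAe

set_option autoImplicit false
set_option linter.unusedSectionVars false
set_option linter.unusedVariables false

/-! # The relation on the carrier is `K_σ` -/

namespace Pool.Agent.V11246.DA

open Set Filter Topology TopologicalSpace

universe u

/-- the data of the construction -/
structure Dat (X : Type u) [TopologicalSpace X] where
  R : X → X → Prop
  hR : Equivalence R
  s : ℕ → X → X
  sc : ∀ n, Continuous (s n)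
  si : ∀ n x, s n (s n x) = x
  hs : ∀ x y, R x y ↔ ∃ n, s n x = y
  ρ : X → II
  ρc : ∀ i, IsClopen (ρ ⁻¹' {i})
  f : II → X → X
  fc : ∀ i, Continuous (f i)
  fR : ∀ i x, R x (f i x)
  fρ : ∀ i x, ρ (f i x) = i
  fid : ∀ i x, ρ x = i → f i x = x
  fp : ∀ i x, ∃ m : ℕ, ∀ᶠ y in 𝓝 x, ∀ z, f i z = y → ∃ l ≤ m, z = s l y
  κ : X → KK
  κe : IsEmbedding κ
  κr : (closure (range κ) \ range κ).Countable
  κo : (fun _ => false) ∉ closure (range κ)
  zs : ℕ → Option X
  zs1 : ∀ N, ∃ k ≥ N, zs k = none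
  zs2 : ∀ U : Set X, IsOpen U → U.Nonempty → ∀ N, ∃ k ≥ N, ∃ z ∈ U, zs k = some z

namespace Dat

variable {X : Type u} [TopologicalSpace X] (D : Dat X)

/-- the extra point -/
def o : KK := fun _ => false

/-- the piece of index `i` -/
def Zk (i : II) : Set KK := D.κ '' (D.ρ ⁻¹' {i})

/-- the fibre over `wt i` -/
def Xh (i : II) : Set KK := closure (D.Zk i) ∪ {o}

/-- the locations -/
def P (i : II) (k : ℕ) : KK := match D.zs k with
  | none => o
  | some z => D.κ (D.f i z)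

theorem P_none (i : II) (k : ℕ) (h : D.zs k = none) : D.P i k = o := by
  unfold P
  rw [h]

theorem P_some (i : II) (k : ℕ) (z : X) (h : D.zs k = some z) : D.P i k = D.κ (D.f i z) := by
  unfold P
  rw [h]

theorem Xh_closed (i : II) : IsClosed (D.Xh i) := isClosed_closure.union isClosed_singleton

theorem o_mem (i : II) : o ∈ D.Xh i := Or.inr rfl

theorem P_mem (i : II) (k : ℕ) : D.P i k ∈ D.Xh i := by
  cases h : D.zs k with
  | none =>
    rw [D.P_none i k h]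
    exact D.o_mem i
  | some z =>
    rw [D.P_some i k z h]
    exact Or.inl (subset_closure ⟨_, D.fρ i z, rfl⟩)

theorem P_dense (i : II) (c : KK) (hc : c ∈ D.Xh i) (O : Set KK) (hO : IsOpen O) (hcO : c ∈ O)
    (N : ℕ) : ∃ k ≥ N, D.P i k ∈ O := by
  rcases hc with hc | hc
  · obtain ⟨_, hx, x, hx2, rfl⟩ := mem_closure_iff.1 hc O hO hcO
    have h1 : IsOpen ((fun z => D.κ (D.f i z)) ⁻¹' O) :=
      hO.preimage (D.κe.continuous.comp (D.fc i))
    have h2 : ((fun z => D.κ (D.f i z)) ⁻¹' O).Nonempty := by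
      refine ⟨x, ?_⟩
      show D.κ (D.f i x) ∈ O
      rw [D.fid i x hx2]
      exact hx
    obtain ⟨k, hk, z, hz, hkz⟩ := D.zs2 _ h1 h2 N
    refine ⟨k, hk, ?_⟩
    rw [D.P_some i k z hkz]
    exact hz
  · have hc' : c = o := hc
    subst hc'
    obtain ⟨k, hk, hk2⟩ := D.zs1 N
    refine ⟨k, hk, ?_⟩
    rw [D.P_none i k hk2]
    exact hcO

theorem Zk_sub (i : II) : D.Zk i ⊆ closure (range D.κ) :=
  (image_subset_range _ _).trans subset_closure

theorem mem_Zk_of (i : II) (x : X) (h : D.κ x ∈ D.Xh i) : D.ρ x = i := by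
  rcases h with h | h
  · have h1 : x ∈ D.κ ⁻¹' closure (D.κ '' (D.ρ ⁻¹' {i})) := h
    rw [← D.κe.isInducing.closure_eq_preimage_closure_image, (D.ρc i).1.closure_eq] at h1
    exact h1
  · exfalso
    apply D.κo
    have h2 : D.κ x = fun _ => false := h
    rw [← h2]
    exact subset_closure ⟨x, rfl⟩

theorem o_notMem (i : II) : o ∉ D.Zk i := fun h => D.κo (D.Zk_sub i h)

/-- remainder points -/
def Rem : Set (II × KK) := {p | p.2 ∈ D.Xh p.1 ∧ p.2 ∉ D.Zk p.1}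

theorem Rem_countable : D.Rem.Countable := by
  have h1 : (univ ×ˢ (({o} : Set KK) ∪ (closure (range D.κ) \ range D.κ)) : Set (II × KK)).Countable :=
    (Set.countable_univ (α := II)).prod ((Set.countable_singleton _).union D.κr)
  refine h1.mono ?_
  rintro ⟨i, c⟩ ⟨hc1, hc2⟩
  refine ⟨mem_univ _, ?_⟩
  rcases hc1 with h | h
  · right
    refine ⟨closure_mono (image_subset_range _ _) h, ?_⟩
    rintro ⟨x, rfl⟩
    apply hc2
    exact ⟨x, D.mem_Zk_of i x (Or.inl h), rfl⟩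
  · exact Or.inl h

theorem Rem_infinite : D.Rem.Infinite := by
  refine Set.infinite_of_injective_forall_mem (f := fun i : II => (i, o)) ?_ ?_
  · intro i j h
    exact congrArg Prod.fst h
  · intro i
    exact ⟨D.o_mem i, D.o_notMem i⟩

/-- the relation between the fibres -/
def GG (i j : II) : Set (KK × KK) := {p | (∃ x x', D.κ x = p.1 ∧ D.κ x' = p.2 ∧ D.ρ x = i ∧
  D.ρ x' = j ∧ D.R x x') ∨ (p.1 ∉ D.Zk i ∧ p.2 ∉ D.Zk j)}

theorem GG_symm (i j : II) (c d : KK) (h : (c, d) ∈ D.GG i j) : (d, c) ∈ D.GG j i := by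
  rcases h with ⟨x, x', h1, h2, h3, h4, h5⟩ | ⟨h1, h2⟩
  · exact Or.inl ⟨x', x, h2, h1, h4, h3, D.hR.symm h5⟩
  · exact Or.inr ⟨h2, h1⟩

/-- properness of the retractions -/
theorem proper (i : II) (𝒱 : Ultrafilter X) (x : X)
    (h : Tendsto (fun z => D.κ (D.f i z)) 𝒱 (𝓝 (D.κ x))) : ∃ z, (𝒱 : Filter X) ≤ 𝓝 z ∧ D.f i z = x := by
  have h1 : Tendsto (D.f i) 𝒱 (𝓝 x) := by
    rw [D.κe.isInducing.tendsto_nhds_iff]
    exact h
  obtain ⟨m, hm⟩ := D.fp i x
  have h2 : ∀ᶠ z in (𝒱 : Filter X), ∃ l ∈ Iic m, z = D.s l (D.f i z) := by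
    filter_upwards [h1.eventually hm] with z hz
    obtain ⟨l, hl, h⟩ := hz z rfl
    exact ⟨l, hl, h⟩
  obtain ⟨l, hl⟩ : ∃ l, ∀ᶠ z in (𝒱 : Filter X), z = D.s l (D.f i z) := by
    have h3 : {z | ∃ l ∈ Iic m, z = D.s l (D.f i z)} = ⋃ l ∈ Iic m, {z | z = D.s l (D.f i z)} := by
      ext z
      rw [mem_iUnion₂]
      exact ⟨fun ⟨l, h1, h2⟩ => ⟨l, h1, h2⟩, fun ⟨l, h1, h2⟩ => ⟨l, h1, h2⟩⟩
    have h4 : (⋃ l ∈ Iic m, {z | z = D.s l (D.f i z)}) ∈ 𝒱 := by
      rw [← h3]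
      exact h2
    rw [Ultrafilter.finite_biUnion_mem_iff (Set.finite_Iic m)] at h4
    obtain ⟨l, -, hl⟩ := h4
    exact ⟨l, hl⟩
  have h3 : Tendsto (fun z => D.s l (D.f i z)) 𝒱 (𝓝 (D.s l x)) := ((D.sc l).tendsto x).comp h1
  have h4 : (𝒱 : Filter X) ≤ 𝓝 (D.s l x) := by
    have h5 : Tendsto id (𝒱 : Filter X) (𝓝 (D.s l x)) := by
      refine h3.congr' ?_
      filter_upwards [hl] with z hz
      exact hz.symm
    exact h5
  refine ⟨D.s l x, h4, ?_⟩
  have h5 : Tendsto (fun z => D.κ (D.f i z)) 𝒱 (𝓝 (D.κ (D.f i (D.s l x)))) :=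
    ((D.κe.continuous.comp (D.fc i)).tendsto _).mono_left h4
  exact D.κe.injective (tendsto_nhds_unique h5 h)

theorem K1 (i j : II) (c d : KK) (h : (c, d) ∈ closure (range fun k => (D.P i k, D.P j k))) :
    (c, d) ∈ D.GG i j := by
  rw [mem_closure_iff_ultrafilter] at h
  obtain ⟨𝒰', h1, h2⟩ := h
  obtain ⟨𝒰, h𝒰⟩ : ∃ 𝒰 : Ultrafilter ℕ, 𝒰.map (fun k => (D.P i k, D.P j k)) = 𝒰' := by
    refine ⟨Ultrafilter.ofComapInfPrincipal (m := fun k => (D.P i k, D.P j k)) (s := univ)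
      (g := 𝒰') ?_, ?_⟩
    · rw [image_univ]
      exact h1
    · exact Ultrafilter.ofComapInfPrincipal_eq_of_map _
  have h3 : Tendsto (fun k => (D.P i k, D.P j k)) 𝒰 (𝓝 (c, d)) := by
    show Filter.map _ (𝒰 : Filter ℕ) ≤ 𝓝 (c, d)
    rw [← Ultrafilter.coe_map, h𝒰]
    exact h2
  have h3a : Tendsto (fun k => D.P i k) 𝒰 (𝓝 c) := (continuous_fst.tendsto (c, d)).comp h3
  have h3b : Tendsto (fun k => D.P j k) 𝒰 (𝓝 d) := (continuous_snd.tendsto (c, d)).comp h3
  by_cases hn : ∀ᶠ k in (𝒰 : Filter ℕ), D.zs k = none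
  · have h4 : c = o := by
      refine tendsto_nhds_unique h3a (tendsto_const_nhds.congr' ?_)
      filter_upwards [hn] with k hk
      exact (D.P_none i k hk).symm
    have h5 : d = o := by
      refine tendsto_nhds_unique h3b (tendsto_const_nhds.congr' ?_)
      filter_upwards [hn] with k hk
      exact (D.P_none j k hk).symm
    subst h4 h5
    exact Or.inr ⟨D.o_notMem i, D.o_notMem j⟩
  · rw [Ultrafilter.eventually_not.symm] at hn
    obtain ⟨k0, hk0⟩ := hn.exists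
    obtain ⟨x0, hx0⟩ := Option.ne_none_iff_exists'.1 hk0
    obtain ⟨g, hg⟩ : ∃ g : ℕ → X, ∀ k z, D.zs k = some z → g k = z := by
      refine ⟨fun k => (D.zs k).getD x0, fun k z hk => ?_⟩
      show (D.zs k).getD x0 = z
      rw [hk]
      rfl
    have h4 : ∀ l, (fun k => D.P l k) =ᶠ[(𝒰 : Filter ℕ)] fun k => D.κ (D.f l (g k)) := by
      intro l
      filter_upwards [hn] with k hk
      obtain ⟨z, hz⟩ := Option.ne_none_iff_exists'.1 hk
      rw [D.P_some l k z hz, hg k z hz]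
    have h5 : Tendsto (fun z => D.κ (D.f i z)) (𝒰.map g) (𝓝 c) := by
      rw [Ultrafilter.coe_map, tendsto_map'_iff]
      exact h3a.congr' (h4 i)
    have h6 : Tendsto (fun z => D.κ (D.f j z)) (𝒰.map g) (𝓝 d) := by
      rw [Ultrafilter.coe_map, tendsto_map'_iff]
      exact h3b.congr' (h4 j)
    have key : ∀ (i j : II) (c d : KK), Tendsto (fun z => D.κ (D.f i z)) (𝒰.map g) (𝓝 c) →
        Tendsto (fun z => D.κ (D.f j z)) (𝒰.map g) (𝓝 d) → c ∈ D.Zk i → (c, d) ∈ D.GG i j := by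
      rintro i j _ d h5 h6 ⟨x, hx, rfl⟩
      obtain ⟨z, hz1, hz2⟩ := D.proper i (𝒰.map g) x h5
      have h7 : Tendsto (fun z => D.κ (D.f j z)) (𝒰.map g) (𝓝 (D.κ (D.f j z))) :=
        ((D.κe.continuous.comp (D.fc j)).tendsto z).mono_left hz1
      have h8 := tendsto_nhds_unique h6 h7
      refine Or.inl ⟨x, D.f j z, rfl, h8.symm, hx, D.fρ j z, ?_⟩
      rw [← hz2]
      exact D.hR.trans (D.hR.symm (D.fR i z)) (D.fR j z)
    by_cases hc : c ∈ D.Zk i
    · exact key i j c d h5 h6 hc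
    · by_cases hd : d ∈ D.Zk j
      · exact D.GG_symm j i d c (key j i d c h6 h5 hd)
      · exact Or.inr ⟨hc, hd⟩

/-- the graph of an involution between two pieces -/
def Gr (i j : II) (n : ℕ) : Set (KK × KK) :=
  (fun x => (D.κ x, D.κ (D.s n x))) '' {x | D.ρ x = i ∧ D.ρ (D.s n x) = j}

theorem K2 (i j : II) (n : ℕ) (c d : KK) (h : (c, d) ∈ closure (D.Gr i j n)) :
    (c, d) ∈ D.GG i j := by
  rw [mem_closure_iff_ultrafilter] at h
  obtain ⟨𝒰', h1, h2⟩ := h
  obtain ⟨𝒱, h𝒱0, h𝒱⟩ : ∃ 𝒱 : Ultrafilter X, {x | D.ρ x = i ∧ D.ρ (D.s n x) = j} ∈ 𝒱 ∧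
      𝒱.map (fun x => (D.κ x, D.κ (D.s n x))) = 𝒰' := by
    refine ⟨Ultrafilter.ofComapInfPrincipal (m := fun x => (D.κ x, D.κ (D.s n x)))
      (s := {x | D.ρ x = i ∧ D.ρ (D.s n x) = j}) (g := 𝒰') h1,
      Ultrafilter.ofComapInfPrincipal_mem _, ?_⟩
    exact Ultrafilter.ofComapInfPrincipal_eq_of_map _
  have h3 : Tendsto (fun x => (D.κ x, D.κ (D.s n x))) 𝒱 (𝓝 (c, d)) := by
    show Filter.map _ (𝒱 : Filter X) ≤ 𝓝 (c, d)
    rw [← Ultrafilter.coe_map, h𝒱]
    exact h2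
  have h3a : Tendsto (fun x => D.κ x) 𝒱 (𝓝 c) := (continuous_fst.tendsto (c, d)).comp h3
  have h3b : Tendsto (fun x => D.κ (D.s n x)) 𝒱 (𝓝 d) := (continuous_snd.tendsto (c, d)).comp h3
  by_cases hc : c ∈ D.Zk i
  · obtain ⟨x, hx, rfl⟩ := hc
    have h4 : Tendsto id (𝒱 : Filter X) (𝓝 x) := by
      rw [D.κe.isInducing.tendsto_nhds_iff]
      exact h3a
    have h5 : Tendsto (fun x => D.κ (D.s n x)) 𝒱 (𝓝 (D.κ (D.s n x))) :=
      ((D.κe.continuous.comp (D.sc n)).tendsto x).comp h4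
    have h6 := tendsto_nhds_unique h3b h5
    refine Or.inl ⟨x, D.s n x, rfl, h6.symm, hx, ?_, (D.hs _ _).2 ⟨n, rfl⟩⟩
    have h7 : IsClosed {x | D.ρ (D.s n x) = j} := (D.ρc j).1.preimage (D.sc n)
    refine h7.mem_of_tendsto h4 ?_
    filter_upwards [h𝒱0] with x hx
    exact hx.2
  · by_cases hd : d ∈ D.Zk j
    · obtain ⟨x, hx, rfl⟩ := hd
      have h4 : Tendsto (D.s n) (𝒱 : Filter X) (𝓝 x) := by
        rw [D.κe.isInducing.tendsto_nhds_iff]
        exact h3b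
      have h4' : Tendsto id (𝒱 : Filter X) (𝓝 (D.s n x)) := by
        refine (((D.sc n).tendsto x).comp h4).congr fun z => ?_
        exact D.si n z
      have h5 : Tendsto (fun x => D.κ x) 𝒱 (𝓝 (D.κ (D.s n x))) :=
        (D.κe.continuous.tendsto _).comp h4'
      have h6 := tendsto_nhds_unique h3a h5
      exfalso
      apply hc
      refine ⟨D.s n x, ?_, h6.symm⟩
      refine (D.ρc i).1.mem_of_tendsto h4' ?_
      filter_upwards [h𝒱0] with x hx
      exact hx.1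
    · exact Or.inr ⟨hc, hd⟩

/-- the carrier as a type -/
abbrev Yt : Type := ↥(YY D.P D.Xh)

theorem polishAmb : PolishSpace (CB × (II → KK)) := by
  have h1 : IsCompletelyMetrizableSpace (CB × (II → KK)) := inferInstance
  have h2 : SecondCountableTopology (CB × (II → KK)) := inferInstance
  exact {}

instance instPolishYt : PolishSpace D.Yt :=
  @IsClosed.polishSpace _ _ polishAmb _ (YY_closed D.P D.Xh D.Xh_closed)

/-- the relation on the carrier -/
def FF (y y' : D.Yt) : Prop := (y.1.1 ∉ range wt ∧ y'.1.1 ∉ range wt ∧ Eq0 y.1.1.1 y'.1.1.1) ∨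
  ∃ i j, y.1.1 = wt i ∧ y'.1.1 = wt j ∧ (y.1.2 i, y'.1.2 j) ∈ D.GG i j

theorem base_cont : Continuous fun y : D.Yt => y.1.1 := continuous_fst.comp continuous_subtype_val

theorem loc_cont (i : II) : Continuous fun y : D.Yt => y.1.2 i :=
  (continuous_apply i).comp (continuous_snd.comp continuous_subtype_val)

theorem slice_compact (n : ℕ) : IsCompact {y : D.Yt | y.1.1.2 = n} := by
  have h1 : IsClosedEmbedding (Subtype.val : D.Yt → CB × (II → KK)) :=
    (YY_closed D.P D.Xh D.Xh_closed).isClosedEmbedding_subtypeVal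
  have h2 : IsCompact (((univ : Set (ℕ → Bool)) ×ˢ ({n} : Set ℕ)) ×ˢ (univ : Set (II → KK))) :=
    (isCompact_univ.prod isCompact_singleton).prod isCompact_univ
  have h3 := h1.isCompact_preimage h2
  have e1 : {y : D.Yt | y.1.1.2 = n} = (Subtype.val : D.Yt → CB × (II → KK)) ⁻¹'
      (((univ : Set (ℕ → Bool)) ×ˢ ({n} : Set ℕ)) ×ˢ (univ : Set (II → KK))) := by
    ext y
    constructor
    · intro h
      exact ⟨⟨mem_univ _, h⟩, mem_univ _⟩
    · intro h
      exact h.1.2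
  rw [e1]
  exact h3

theorem compact_of (C : Set (D.Yt × D.Yt)) (hC : IsClosed C) (n m : ℕ)
    (h : ∀ p ∈ C, p.1.1.1.2 = n ∧ p.2.1.1.2 = m) : IsCompact C :=
  IsCompact.of_isClosed_subset ((D.slice_compact n).prod (D.slice_compact m)) hC
    fun p hp => ⟨(h p hp).1, (h p hp).2⟩

/-- pairs over the graph of a translation of the base -/
def QQ (c : Finset ℕ) (n m : ℕ) : Set (D.Yt × D.Yt) := {p | (p.1.1.1.2 = n ∧ p.2.1.1.2 = m) ∧
  (∀ k, p.2.1.1.1 k = xor (p.1.1.1.1 k) (chi c k)) ∧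
  ∀ F : Finset ℕ, (p.1.1.2 (F, n), p.2.1.2 (symmDiff F c, m)) ∈
    closure (range fun k => (D.P (F, n) k, D.P (symmDiff F c, m) k))}

theorem QQ_closed (c : Finset ℕ) (n m : ℕ) : IsClosed (D.QQ c n m) := by
  have c1 : Continuous fun p : D.Yt × D.Yt => p.1.1.1 := D.base_cont.comp continuous_fst
  have c2 : Continuous fun p : D.Yt × D.Yt => p.2.1.1 := D.base_cont.comp continuous_snd
  have h1 : IsClosed {p : D.Yt × D.Yt | p.1.1.1.2 = n} :=
    isClosed_eq (continuous_snd.comp c1) continuous_const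
  have h2 : IsClosed {p : D.Yt × D.Yt | p.2.1.1.2 = m} :=
    isClosed_eq (continuous_snd.comp c2) continuous_const
  have h3 : IsClosed (⋂ k, {p : D.Yt × D.Yt | p.2.1.1.1 k = xor (p.1.1.1.1 k) (chi c k)}) := by
    refine isClosed_iInter fun k => ?_
    have h1 : Continuous fun p : D.Yt × D.Yt => p.2.1.1.1 k :=
      (continuous_apply k).comp (continuous_fst.comp c2)
    have h2 : Continuous fun p : D.Yt × D.Yt => p.1.1.1.1 k :=
      (continuous_apply k).comp (continuous_fst.comp c1)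
    have h3 : Continuous fun p : D.Yt × D.Yt => xor (p.1.1.1.1 k) (chi c k) :=
      (continuous_of_discreteTopology (f := fun b : Bool => xor b (chi c k))).comp h2
    exact isClosed_eq h1 h3
  have h4 : IsClosed (⋂ F : Finset ℕ, {p : D.Yt × D.Yt |
      (p.1.1.2 (F, n), p.2.1.2 (symmDiff F c, m)) ∈
      closure (range fun k => (D.P (F, n) k, D.P (symmDiff F c, m) k))}) := by
    refine isClosed_iInter fun F => ?_
    exact isClosed_closure.preimage (((D.loc_cont _).comp continuous_fst).prodMk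
      ((D.loc_cont _).comp continuous_snd))
  have e1 : D.QQ c n m = ({p : D.Yt × D.Yt | p.1.1.1.2 = n} ∩ {p : D.Yt × D.Yt | p.2.1.1.2 = m}) ∩
      ((⋂ k, {p : D.Yt × D.Yt | p.2.1.1.1 k = xor (p.1.1.1.1 k) (chi c k)}) ∩
      (⋂ F : Finset ℕ, {p : D.Yt × D.Yt | (p.1.1.2 (F, n), p.2.1.2 (symmDiff F c, m)) ∈
      closure (range fun k => (D.P (F, n) k, D.P (symmDiff F c, m) k))})) := by
    ext p
    rw [mem_inter_iff, mem_inter_iff, mem_inter_iff, mem_iInter, mem_iInter]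
    exact Iff.rfl
  rw [e1]
  exact (h1.inter h2).inter (h3.inter h4)

end Dat

end Pool.Agent.V11246.DA
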