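import Mathlib
import Pool.Agent.V11246.DAf

set_option autoImplicit false
set_option linter.unusedSectionVars false
set_option linter.unusedVariables false

/-! # `K_σ`, density of classes, and the Borel isomorphism -/

namespace Pool.Agent.V11246.DA

open Set Filter Topology TopologicalSpace

universe u

theorem chi_symm (F c : Finset ℕ) (k : ℕ) : chi (symmDiff F c) k = xor (chi F k) (chi c k) := by
  by_cases h1 : k ∈ F <;> by_cases h2 : k ∈ c <;> simp [chi, Finset.mem_symmDiff, h1, h2]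

theorem fd_xor (x y c : ℕ → Bool) : fd (fun k => xor (x k) (c k)) (fun k => xor (y k) (c k)) = fd x y := by
  unfold fd
  congr 1
  ext k
  show xor (x k) (c k) ≠ xor (y k) (c k) ↔ x k ≠ y k
  cases x k <;> cases y k <;> cases c k <;> decide

namespace Dat

variable {X : Type u} [TopologicalSpace X] (D : Dat X)

/-- pairs over graphs of involutions -/
def LL (i j : II) (n : ℕ) : Set (D.Yt × D.Yt) := {p | p.1.1.1 = wt i ∧ p.2.1.1 = wt j ∧
  (p.1.1.2 i, p.2.1.2 j) ∈ closure (D.Gr i j n)}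

theorem LL_closed (i j : II) (n : ℕ) : IsClosed (D.LL i j n) := by
  have c1 : Continuous fun p : D.Yt × D.Yt => p.1.1.1 := D.base_cont.comp continuous_fst
  have c2 : Continuous fun p : D.Yt × D.Yt => p.2.1.1 := D.base_cont.comp continuous_snd
  have h1 : IsClosed {p : D.Yt × D.Yt | p.1.1.1 = wt i} := isClosed_eq c1 continuous_const
  have h2 : IsClosed {p : D.Yt × D.Yt | p.2.1.1 = wt j} := isClosed_eq c2 continuous_const
  have h3 : IsClosed {p : D.Yt × D.Yt | (p.1.1.2 i, p.2.1.2 j) ∈ closure (D.Gr i j n)} :=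
    isClosed_closure.preimage (((D.loc_cont _).comp continuous_fst).prodMk
      ((D.loc_cont _).comp continuous_snd))
  exact h1.inter (h2.inter h3)

theorem lam_pair (c F : Finset ℕ) (b b' : CB) (h : ∀ k, b'.1 k = xor (b.1 k) (chi c k)) :
    (lam D.P (F, b.2) b, lam D.P (symmDiff F c, b'.2) b') ∈
      range (fun k => (D.P (F, b.2) k, D.P (symmDiff F c, b'.2) k)) := by
  refine ⟨fd b.1 (chi F), ?_⟩
  have e1 : b'.1 = fun k => xor (b.1 k) (chi c k) := funext h
  have e2 : chi (symmDiff F c) = fun k => xor (chi F k) (chi c k) := funext (chi_symm F c)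
  have e3 : fd b'.1 (chi (symmDiff F c)) = fd b.1 (chi F) := by
    rw [e1, e2, fd_xor]
  unfold lam
  rw [if_pos rfl, if_pos rfl]
  show _ = (D.P (F, b.2) (fd b.1 (chi F)), D.P (symmDiff F c, b'.2) (fd b'.1 (chi (symmDiff F c))))
  rw [e3]

theorem FF_sigma : ∃ K : ℕ → Set (D.Yt × D.Yt), (∀ n, IsCompact (K n)) ∧
    {p : D.Yt × D.Yt | D.FF p.1 p.2} = ⋃ n, K n := by
  classical
  have hP := D.P_mem
  obtain ⟨pt, hpt⟩ : ∃ pt : D.Rem → D.Yt, ∀ r, (pt r).1 = yi D.P r.1.1 r.1.2 :=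
    ⟨fun r => ⟨yi D.P r.1.1 r.1.2, yi_mem D.P D.Xh hP _ _ r.2.1⟩, fun r => rfl⟩
  have hRc : Countable D.Rem := D.Rem_countable.to_subtype
  obtain ⟨J, hJ1, hJ2⟩ : ∃ J : (Finset ℕ × ℕ × ℕ) ⊕ ((II × II × ℕ) ⊕ (D.Rem × D.Rem)) →
      Set (D.Yt × D.Yt), (∀ a, IsCompact (J a)) ∧ {p : D.Yt × D.Yt | D.FF p.1 p.2} = ⋃ a, J a := by
    refine ⟨Sum.elim (fun a => D.QQ a.1 a.2.1 a.2.2)
      (Sum.elim (fun a => D.LL a.1 a.2.1 a.2.2) (fun a => {(pt a.1, pt a.2)})), ?_, ?_⟩
    · rintro (⟨c, n, m⟩ | ⟨i, j, n⟩ | ⟨a, b⟩)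
      · exact D.compact_of _ (D.QQ_closed c n m) n m fun p hp => hp.1
      · refine D.compact_of _ (D.LL_closed i j n) i.2 j.2 fun p hp => ⟨?_, ?_⟩
        · rw [hp.1]
          rfl
        · rw [hp.2.1]
          rfl
      · exact isCompact_singleton
    · ext p
      rw [mem_iUnion]
      constructor
      · rintro (⟨h1, h2, h3⟩ | ⟨i, j, h1, h2, h3⟩)
        · obtain ⟨N, hN⟩ := h3
          obtain ⟨c, hc⟩ : ∃ c : Finset ℕ, ∀ k, p.2.1.1.1 k = xor (p.1.1.1.1 k) (chi c k) := by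
            refine ⟨(Finset.range N).filter fun k => p.1.1.1.1 k ≠ p.2.1.1.1 k, fun k => ?_⟩
            by_cases hk : k < N
            · by_cases hne : p.1.1.1.1 k = p.2.1.1.1 k
              · simp [chi, hk, hne]
              · have : chi ((Finset.range N).filter fun k => p.1.1.1.1 k ≠ p.2.1.1.1 k) k = true := by
                  simp [chi, hk, hne]
                rw [this]
                revert hne
                cases p.1.1.1.1 k <;> cases p.2.1.1.1 k <;> decide
            · have : chi ((Finset.range N).filter fun k => p.1.1.1.1 k ≠ p.2.1.1.1 k) k = false := by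
                simp [chi, hk]
              rw [this, ← hN k (by omega), Bool.xor_false]
          refine ⟨Sum.inl (c, p.1.1.1.2, p.2.1.1.2), ⟨rfl, rfl⟩, hc, fun F => ?_⟩
          apply subset_closure
          have e1 : p.1.1.2 (F, p.1.1.1.2) = lam D.P (F, p.1.1.1.2) p.1.1.1 :=
            (p.1.2 _).2 fun h => h1 ⟨_, h.symm⟩
          have e2 : p.2.1.2 (symmDiff F c, p.2.1.1.2) = lam D.P (symmDiff F c, p.2.1.1.2) p.2.1.1 :=
            (p.2.2 _).2 fun h => h2 ⟨_, h.symm⟩
          rw [e1, e2]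
          exact D.lam_pair c F p.1.1.1 p.2.1.1 hc
        · rcases h3 with ⟨x, x', h4, h5, h6, h7, h8⟩ | ⟨h4, h5⟩
          · obtain ⟨n, rfl⟩ := (D.hs _ _).1 h8
            refine ⟨Sum.inr (Sum.inl (i, j, n)), h1, h2, subset_closure ⟨x, ⟨h6, h7⟩, ?_⟩⟩
            exact Prod.ext h4 h5
          · refine ⟨Sum.inr (Sum.inr (⟨(i, p.1.1.2 i), (p.1.2 i).1, h4⟩,
              ⟨(j, p.2.1.2 j), (p.2.2 j).1, h5⟩)), ?_⟩
            show p ∈ ({(pt _, pt _)} : Set (D.Yt × D.Yt))
            rw [mem_singleton_iff]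
            refine Prod.ext (Subtype.ext ?_) (Subtype.ext ?_)
            · show p.1.1 = (pt _).1
              rw [hpt]
              exact yi_of D.P D.Xh _ p.1.2 i h1
            · show p.2.1 = (pt _).1
              rw [hpt]
              exact yi_of D.P D.Xh _ p.2.2 j h2
      · rintro ⟨(⟨c, n, m⟩ | ⟨i, j, n⟩ | ⟨a, b⟩), hp⟩
        · obtain ⟨⟨h1, h2⟩, h3, h4⟩ := hp
          dsimp only at h1 h2 h3 h4
          by_cases hw : p.1.1.1 ∈ range wt
          · obtain ⟨⟨F, n'⟩, hF⟩ := hw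
            right
            have h5 : n' = n := by
              rw [← h1, ← hF]
              rfl
            subst h5
            refine ⟨(F, n'), (symmDiff F c, m), hF.symm, ?_, D.K1 _ _ _ _ (h4 F)⟩
            refine Prod.ext ?_ h2
            funext k
            rw [h3 k, ← hF]
            exact (chi_symm F c k).symm
          · left
            refine ⟨hw, ?_, ?_⟩
            · rintro ⟨⟨G, m'⟩, hG⟩
              apply hw
              refine ⟨(symmDiff G c, n), Prod.ext ?_ h1.symm⟩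
              funext k
              show chi (symmDiff G c) k = p.1.1.1.1 k
              have h5 := h3 k
              rw [← hG] at h5
              have h6 : chi G k = xor (p.1.1.1.1 k) (chi c k) := h5
              rw [chi_symm, h6]
              cases p.1.1.1.1 k <;> cases chi c k <;> decide
            · obtain ⟨M, hM⟩ := c.bddAbove
              refine ⟨M + 1, fun k hk => ?_⟩
              have h5 : k ∉ c := fun h => by
                have := hM h
                omega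
              rw [h3 k]
              simp [chi, h5]
        · obtain ⟨h1, h2, h3⟩ := hp
          exact Or.inr ⟨i, j, h1, h2, D.K2 _ _ _ _ _ h3⟩
        · have hp' : p = (pt a, pt b) := hp
          subst hp'
          right
          refine ⟨a.1.1, b.1.1, ?_, ?_, ?_⟩
          · show (pt a).1.1 = _
            rw [hpt]
            rfl
          · show (pt b).1.1 = _
            rw [hpt]
            rfl
          · show ((pt a).1.2 a.1.1, (pt b).1.2 b.1.1) ∈ _
            rw [hpt, hpt, yi_self, yi_self]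
            exact Or.inr ⟨a.2.2, b.2.2⟩
  obtain ⟨d, hd⟩ := exists_surjective_nat ((Finset ℕ × ℕ × ℕ) ⊕ ((II × II × ℕ) ⊕ (D.Rem × D.Rem)))
  refine ⟨fun n => J (d n), fun n => hJ1 _, ?_⟩
  rw [hJ2]
  exact (hd.iUnion_comp J).symm

theorem FF_dense (y : D.Yt) : Dense {z | D.FF y z} := by
  classical
  have hP := D.P_mem
  rw [dense_iff_inter_open]
  intro U hU ⟨y0, hy0⟩
  obtain ⟨O, hO, rfl⟩ := isOpen_induced_iff.1 hU
  obtain ⟨i, N, hN⟩ := exists_cyl D.P D.Xh y0.1 y0.2 D.P_dense O hO hy0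
  by_cases hw : y.1.1 ∈ range wt
  · obtain ⟨j, hj⟩ := hw
    by_cases hc : y.1.2 j ∈ D.Zk j
    · obtain ⟨x, hx, hxc⟩ := hc
      have hm : D.κ (D.f i x) ∈ D.Xh i := Or.inl (subset_closure ⟨_, D.fρ i x, rfl⟩)
      refine ⟨⟨yi D.P i (D.κ (D.f i x)), yi_mem D.P D.Xh hP _ _ hm⟩, ?_, ?_⟩
      · exact hN _ (yi_mem D.P D.Xh hP _ _ hm) (cyl_self _ _)
      · refine Or.inr ⟨j, i, hj.symm, rfl, ?_⟩
        show (y.1.2 j, (yi D.P i (D.κ (D.f i x))).2 i) ∈ _
        rw [yi_self]
        exact Or.inl ⟨x, D.f i x, hxc, rfl, hx, D.fρ i x, D.fR i x⟩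
    · refine ⟨⟨yi D.P i o, yi_mem D.P D.Xh hP _ _ (D.o_mem i)⟩, ?_, ?_⟩
      · exact hN _ (yi_mem D.P D.Xh hP _ _ (D.o_mem i)) (cyl_self _ _)
      · refine Or.inr ⟨j, i, hj.symm, rfl, ?_⟩
        show (y.1.2 j, (yi D.P i o).2 i) ∈ _
        rw [yi_self]
        exact Or.inr ⟨hc, D.o_notMem i⟩
  · obtain ⟨b, hb⟩ : ∃ b : CB, b = ((fun n => if n < N then chi i.1 n else y.1.1.1 n), i.2) := ⟨_, rfl⟩
    have h1 : Eq0 y.1.1.1 b.1 := by
      refine ⟨N, fun n hn => ?_⟩
      rw [hb]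
      show _ = if n < N then chi i.1 n else y.1.1.1 n
      rw [if_neg (by omega)]
    have h2 : b ∉ range wt := by
      rintro ⟨G, hG⟩
      rw [← hG] at h1
      obtain ⟨G', hG'⟩ := eq0_chi _ _ h1
      exact hw ⟨(G', y.1.1.2), Prod.ext hG'.symm rfl⟩
    refine ⟨⟨yb D.P b, yb_mem D.P D.Xh hP b⟩, ?_, ?_⟩
    · refine hN _ (yb_mem D.P D.Xh hP b) ?_
      show b ∈ cyl (wt i) N
      rw [hb]
      refine ⟨rfl, fun n hn => ?_⟩
      show (if n < N then chi i.1 n else y.1.1.1 n) = chi i.1 n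
      rw [if_pos hn]
    · exact Or.inl ⟨hw, h2, h1⟩

/-- the relation on the ambient space -/
def FF0 (y y' : CB × (II → KK)) : Prop := (y.1 ∉ range wt ∧ y'.1 ∉ range wt ∧ Eq0 y.1.1 y'.1.1) ∨
  ∃ i j, y.1 = wt i ∧ y'.1 = wt j ∧ (y.2 i, y'.2 j) ∈ D.GG i j

theorem FF0_yi (i j : II) (c d : KK) : D.FF0 (yi D.P i c) (yi D.P j d) ↔ (c, d) ∈ D.GG i j := by
  constructor
  · rintro (⟨h, -, -⟩ | ⟨i', j', h1, h2, h3⟩)
    · exact absurd ⟨i, rfl⟩ h
    · have h4 : i = i' := wt_inj _ _ h1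
      have h5 : j = j' := wt_inj _ _ h2
      subst h4 h5
      rwa [yi_self, yi_self] at h3
  · intro h
    refine Or.inr ⟨i, j, rfl, rfl, ?_⟩
    rwa [yi_self, yi_self]

theorem FF0_yb (b b' : CB) (hb : b ∉ range wt) (hb' : b' ∉ range wt) :
    D.FF0 (yb D.P b) (yb D.P b') ↔ Eq0 b.1 b'.1 := by
  constructor
  · rintro (⟨-, -, h⟩ | ⟨i', j', h1, h2, h3⟩)
    · exact h
    · exact absurd ⟨i', h1.symm⟩ hb
  · intro h
    exact Or.inl ⟨hb, hb', h⟩

theorem FF0_yib (i : II) (c : KK) (b : CB) (hb : b ∉ range wt) : ¬ D.FF0 (yi D.P i c) (yb D.P b) := by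
  rintro (⟨h, -, -⟩ | ⟨i', j', h1, h2, h3⟩)
  · exact h ⟨i, rfl⟩
  · exact hb ⟨j', h2.symm⟩

theorem FF0_ybi (i : II) (c : KK) (b : CB) (hb : b ∉ range wt) : ¬ D.FF0 (yb D.P b) (yi D.P i c) := by
  rintro (⟨-, h, -⟩ | ⟨i', j', h1, h2, h3⟩)
  · exact h ⟨i, rfl⟩
  · exact hb ⟨i', h1.symm⟩

theorem exists_iso [MeasurableSpace X] [BorelSpace X] :
    ∃ Ψ : X ⊕ CB → D.Yt, Measurable Ψ ∧ Function.Bijective Ψ ∧
      ∀ p q, D.FF (Ψ p) (Ψ q) ↔ SumR D.R p q := by
  classical
  have hP := D.P_mem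
  have hRc : Countable D.Rem := D.Rem_countable.to_subtype
  have hRi : Infinite D.Rem := D.Rem_infinite.to_subtype
  obtain ⟨e⟩ : Nonempty (II ≃ D.Rem) := nonempty_equiv_of_countable
  obtain ⟨Ψ0, hl, hr1, hr2⟩ : ∃ Ψ0 : X ⊕ CB → CB × (II → KK),
      (∀ x, Ψ0 (Sum.inl x) = yi D.P (D.ρ x) (D.κ x)) ∧
      (∀ i, Ψ0 (Sum.inr (wt i)) = yi D.P (e i).1.1 (e i).1.2) ∧
      ∀ b, b ∉ range wt → Ψ0 (Sum.inr b) = yb D.P b := by
    refine ⟨Sum.elim (fun x => yi D.P (D.ρ x) (D.κ x)) (fun b => if h : ∃ i, wt i = b then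
      yi D.P (e h.choose).1.1 (e h.choose).1.2 else yb D.P b), fun x => rfl, fun i => ?_, fun b hb => ?_⟩
    · have h : ∃ i', wt i' = wt i := ⟨i, rfl⟩
      have h2 : h.choose = i := wt_inj _ _ h.choose_spec
      show (if h : ∃ i', wt i' = wt i then yi D.P (e h.choose).1.1 (e h.choose).1.2
        else yb D.P (wt i)) = _
      rw [dif_pos h, h2]
    · show (if h : ∃ i, wt i = b then yi D.P (e h.choose).1.1 (e h.choose).1.2
        else yb D.P b) = _
      have hb2 : ¬ ∃ i, wt i = b := hb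
      rw [dif_neg hb2]
  have hmem : ∀ p, Ψ0 p ∈ YY D.P D.Xh := by
    rintro (x | b)
    · rw [hl]
      exact yi_mem D.P D.Xh hP _ _ (Or.inl (subset_closure ⟨x, rfl, rfl⟩))
    · by_cases hb : b ∈ range wt
      · obtain ⟨i, rfl⟩ := hb
        rw [hr1]
        exact yi_mem D.P D.Xh hP _ _ (e i).2.1
      · rw [hr2 b hb]
        exact yb_mem D.P D.Xh hP b
  have hm1 : Measurable fun x => Ψ0 (Sum.inl x) := by
    have h1 : (fun x => Ψ0 (Sum.inl x)) = fun x => yi D.P (D.ρ x) (D.κ x) := funext hl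
    rw [h1]
    apply Continuous.measurable
    rw [continuous_iff_continuousAt]
    intro x
    have h2 : Continuous fun x' => yi D.P (D.ρ x) (D.κ x') := by
      refine continuous_const.prodMk (continuous_pi fun j => ?_)
      by_cases hj : j = D.ρ x
      · simp only [hj, if_true]
        exact D.κe.continuous
      · simp only [hj, if_false]
        exact continuous_const
    refine h2.continuousAt.congr ?_
    filter_upwards [(D.ρc (D.ρ x)).2.mem_nhds rfl] with x' hx'
    have hx'' : D.ρ x' = D.ρ x := hx'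
    rw [hx'']
  have hm2 : Measurable fun b => Ψ0 (Sum.inr b) := by
    have h1 : Measurable fun b => yb D.P b := by
      refine measurable_id.prodMk (measurable_pi_lambda _ fun j => ?_)
      exact lam_meas D.P j
    refine h1.measurable_of_countable_ne ?_
    refine (countable_range wt).mono ?_
    intro b hb
    by_contra hne
    exact hb (hr2 b hne).symm
  have hm : Measurable Ψ0 := by
    have : Ψ0 = Sum.elim (fun x => Ψ0 (Sum.inl x)) (fun b => Ψ0 (Sum.inr b)) := by
      funext p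
      rcases p with x | b <;> rfl
    rw [this]
    exact hm1.sumElim hm2
  refine ⟨fun p => ⟨Ψ0 p, hmem p⟩, hm.subtype_mk, ⟨?_, ?_⟩, ?_⟩
  · intro p q hpq
    have h : Ψ0 p = Ψ0 q := congrArg Subtype.val hpq
    rcases p with x | b
    · rcases q with x' | b'
      · rw [hl, hl] at h
        rw [D.κe.injective (yi_inj _ _ _ _ _ h).2]
      · by_cases hb' : b' ∈ range wt
        · obtain ⟨i, rfl⟩ := hb'
          rw [hl, hr1] at h
          obtain ⟨h1, h2⟩ := yi_inj _ _ _ _ _ h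
          exfalso
          apply (e i).2.2
          rw [← h1, ← h2]
          exact ⟨x, rfl, rfl⟩
        · rw [hl, hr2 b' hb'] at h
          exact absurd ⟨_, congrArg Prod.fst h⟩ hb'
    · rcases q with x' | b'
      · by_cases hb : b ∈ range wt
        · obtain ⟨i, rfl⟩ := hb
          rw [hl, hr1] at h
          obtain ⟨h1, h2⟩ := yi_inj _ _ _ _ _ h
          exfalso
          apply (e i).2.2
          rw [h1, h2]
          exact ⟨x', rfl, rfl⟩
        · rw [hl, hr2 b hb] at h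
          exact absurd ⟨_, (congrArg Prod.fst h).symm⟩ hb
      · by_cases hb : b ∈ range wt
        · obtain ⟨i, rfl⟩ := hb
          by_cases hb' : b' ∈ range wt
          · obtain ⟨j, rfl⟩ := hb'
            rw [hr1, hr1] at h
            obtain ⟨h1, h2⟩ := yi_inj _ _ _ _ _ h
            rw [e.injective (Subtype.ext (Prod.ext h1 h2))]
          · rw [hr1, hr2 b' hb'] at h
            exact absurd ⟨_, congrArg Prod.fst h⟩ hb'
        · by_cases hb' : b' ∈ range wt
          · obtain ⟨j, rfl⟩ := hb'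
            rw [hr1, hr2 b hb] at h
            exact absurd ⟨_, (congrArg Prod.fst h).symm⟩ hb
          · rw [hr2 b hb, hr2 b' hb'] at h
            have h1 : b = b' := congrArg Prod.fst h
            rw [h1]
  · intro y
    by_cases hw : y.1.1 ∈ range wt
    · obtain ⟨i, hi⟩ := hw
      have h1 := yi_of D.P D.Xh y.1 y.2 i hi.symm
      by_cases hc : y.1.2 i ∈ D.Zk i
      · obtain ⟨x, hx, hxc⟩ := hc
        refine ⟨Sum.inl x, Subtype.ext ?_⟩
        show Ψ0 (Sum.inl x) = y.1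
        have hx' : D.ρ x = i := hx
        rw [hl, hx', hxc, ← h1]
      · refine ⟨Sum.inr (wt (e.symm ⟨(i, y.1.2 i), (y.2 i).1, hc⟩)), Subtype.ext ?_⟩
        show Ψ0 (Sum.inr (wt _)) = y.1
        rw [hr1, e.apply_symm_apply]
        exact h1.symm
    · refine ⟨Sum.inr y.1.1, Subtype.ext ?_⟩
      show Ψ0 (Sum.inr _) = y.1
      rw [hr2 _ hw]
      exact (yb_of D.P D.Xh y.1 y.2 hw).symm
  · intro p q
    show D.FF0 (Ψ0 p) (Ψ0 q) ↔ SumR D.R p q
    rcases p with x | b
    · rcases q with x' | b'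
      · rw [hl, hl, FF0_yi]
        constructor
        · rintro (⟨z, z', h1, h2, -, -, h5⟩ | ⟨h1, -⟩)
          · have h1' : z = x := D.κe.injective h1
            have h2' : z' = x' := D.κe.injective h2
            subst h1' h2'
            exact h5
          · exact absurd ⟨x, rfl, rfl⟩ h1
        · intro h
          exact Or.inl ⟨x, x', rfl, rfl, rfl, rfl, h⟩
      · refine ⟨fun h => ?_, fun h => h.elim⟩
        by_cases hb' : b' ∈ range wt
        · obtain ⟨i, rfl⟩ := hb'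
          rw [hl, hr1, FF0_yi] at h
          rcases h with ⟨z, z', h1, h2, h3, h4, h5⟩ | ⟨h1, -⟩
          · exact absurd ⟨z', h4, h2⟩ (e i).2.2
          · exact absurd ⟨x, rfl, rfl⟩ h1
        · rw [hl, hr2 b' hb'] at h
          exact absurd h (D.FF0_yib _ _ _ hb')
    · rcases q with x' | b'
      · refine ⟨fun h => ?_, fun h => h.elim⟩
        by_cases hb : b ∈ range wt
        · obtain ⟨i, rfl⟩ := hb
          rw [hl, hr1, FF0_yi] at h
          rcases h with ⟨z, z', h1, h2, h3, h4, h5⟩ | ⟨-, h1⟩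
          · exact absurd ⟨z, h3, h1⟩ (e i).2.2
          · exact absurd ⟨x', rfl, rfl⟩ h1
        · rw [hl, hr2 b hb] at h
          exact absurd h (D.FF0_ybi _ _ _ hb)
      · show D.FF0 (Ψ0 (Sum.inr b)) (Ψ0 (Sum.inr b')) ↔ Eq0 b.1 b'.1
        by_cases hb : b ∈ range wt
        · obtain ⟨i, rfl⟩ := hb
          by_cases hb' : b' ∈ range wt
          · obtain ⟨j, rfl⟩ := hb'
            rw [hr1, hr1, FF0_yi]
            exact ⟨fun _ => chi_eq0 _ _, fun _ => Or.inr ⟨(e i).2.2, (e j).2.2⟩⟩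
          · rw [hr1, hr2 b' hb']
            refine ⟨fun h => absurd h (D.FF0_yib _ _ _ hb'), fun h => ?_⟩
            obtain ⟨G, hG⟩ := eq0_chi _ _ h.symm
            exact absurd ⟨(G, b'.2), Prod.ext hG.symm rfl⟩ hb'
        · by_cases hb' : b' ∈ range wt
          · obtain ⟨j, rfl⟩ := hb'
            rw [hr1, hr2 b hb]
            refine ⟨fun h => absurd h (D.FF0_ybi _ _ _ hb), fun h => ?_⟩
            obtain ⟨G, hG⟩ := eq0_chi _ _ h
            exact absurd ⟨(G, b.2), Prod.ext hG.symm rfl⟩ hb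
          · rw [hr2 b hb, hr2 b' hb']
            exact D.FF0_yb b b' hb hb'

end Dat

end Pool.Agent.V11246.DA
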