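import Mathlib
import Pool.Agent.H139R3.FM
import Pool.Agent.V11246.DAa
import Pool.Agent.V11246.DAd
import Pool.Agent.V11246.DAg

set_option autoImplicit false
set_option linter.unusedSectionVars false
set_option linter.unusedVariables false

/-! # Minimal `K_σ` realizations of non-smooth aperiodic countable Borel equivalence relations -/

namespace Pool.Agent.V11246.DA

open Set Filter Topology TopologicalSpace

universe u v

theorem exists_mequiv {α : Type u} {α' : Type} {β : Type v} [MeasurableSpace α]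
    [StandardBorelSpace α] [MeasurableSpace α'] [StandardBorelSpace α']
    [MeasurableSpace β] [StandardBorelSpace β] (f : α ⊕ α' → β) (hf : Measurable f)
    (hb : Function.Bijective f) : ∃ e : (α ⊕ α') ≃ᵐ β, ∀ a, e a = f a := by
  have h1 : MeasurableEmbedding fun a => f (Sum.inl a) :=
    (hf.comp measurable_inl).measurableEmbedding fun a b h => Sum.inl_injective (hb.1 h)
  have h2 : MeasurableEmbedding fun a => f (Sum.inr a) :=
    (hf.comp measurable_inr).measurableEmbedding fun a b h => Sum.inr_injective (hb.1 h)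
  let fe : α ⊕ α' ≃ β := Equiv.ofBijective f hb
  refine ⟨{ toEquiv := fe
            measurable_toFun := hf
            measurable_invFun := by
              intro t ht
              have h3 := h1.measurableSet_image.2 (ht.preimage measurable_inl)
              have h4 := h2.measurableSet_image.2 (ht.preimage measurable_inr)
              have e1 : fe.symm ⁻¹' t = ((fun a => f (Sum.inl a)) '' (Sum.inl ⁻¹' t)) ∪
                  ((fun a => f (Sum.inr a)) '' (Sum.inr ⁻¹' t)) := by
                rw [← Equiv.image_eq_preimage_symm fe t]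
                ext y
                constructor
                · rintro ⟨x | x, hx, rfl⟩
                  · exact Or.inl ⟨x, hx, rfl⟩
                  · exact Or.inr ⟨x, hx, rfl⟩
                · rintro (⟨x, hx, rfl⟩ | ⟨x, hx, rfl⟩)
                  · exact ⟨Sum.inl x, hx, rfl⟩
                  · exact ⟨Sum.inr x, hx, rfl⟩
              show MeasurableSet (fe.symm ⁻¹' t)
              rw [e1]
              exact h3.union h4 }, fun a => rfl⟩

theorem locCompact {X : Type u} [TopologicalSpace X] (D : Dat X) : LocallyCompactSpace D.Yt := by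
  have h1 : IsClosedEmbedding (Subtype.val : D.Yt → CB × (II → KK)) :=
    (YY_closed D.P D.Xh D.Xh_closed).isClosedEmbedding_subtypeVal
  have h2 : LocallyCompactSpace (CB × (II → KK)) := inferInstance
  exact h1.locallyCompactSpace

theorem final {X : Type u} [MeasurableSpace X] [StandardBorelSpace X] (R : X → X → Prop)
    (hR : Equivalence R) (hm : MeasurableSet {p : X × X | R p.1 p.2})
    (hc : ∀ x, {y | R x y}.Countable) (hinf : ∀ x, {y | R x y}.Infinite)
    (hns : ¬ ∃ S : Set X, MeasurableSet S ∧ ∀ x, ∃! y, y ∈ S ∧ R x y) :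
    ∃ (Y : Type) (_ : TopologicalSpace Y) (_ : PolishSpace Y) (_ : LocallyCompactSpace Y)
      (_ : MeasurableSpace Y) (_ : BorelSpace Y) (f : X ≃ᵐ Y),
      (∃ K : ℕ → Set (Y × Y), (∀ n, IsCompact (K n)) ∧
        {p : Y × Y | R (f.symm p.1) (f.symm p.2)} = ⋃ n, K n) ∧
      ∀ y, Dense {z | R (f.symm y) (f.symm z)} := by
  classical
  obtain ⟨s, hsm, hsi, hs⟩ := Pool.Agent.H139R3.FM.feldman_moore R hR hm hc
  obtain ⟨ρ0, f0, hρ0m, hf0m, hf0R, hf0ρ, hf0id, hf0fin⟩ := exists_retr R s hR hsm hsi hs hinf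
  have hXne : Nonempty X := by
    by_contra hcon
    exact hns ⟨∅, MeasurableSet.empty, fun x => absurd ⟨x⟩ hcon⟩
  obtain ⟨Bs, hBs⟩ : ∃ Bs : ℕ × ℕ → Set X, ∀ p y, y ∈ Bs p ↔
      ∀ z, f0 p.1 z = y → ∃ l ≤ p.2, z = s l y :=
    ⟨fun p => {y | ∀ z, f0 p.1 z = y → ∃ l ≤ p.2, z = s l y}, fun _ _ => Iff.rfl⟩
  have hBsm : ∀ p, MeasurableSet (Bs p) := by
    intro p
    have e1 : Bs p = ⋂ k, ({y | f0 p.1 (s k y) = y}ᶜ ∪ ⋃ l ∈ Iic p.2, {y | s k y = s l y}) := by
      ext y
      rw [hBs, mem_iInter]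
      constructor
      · intro h k
        by_cases h2 : f0 p.1 (s k y) = y
        · obtain ⟨l, hl, h3⟩ := h _ h2
          exact Or.inr (mem_iUnion₂.2 ⟨l, hl, h3⟩)
        · exact Or.inl h2
      · intro h z hz
        obtain ⟨k, rfl⟩ := (hs y z).1 (by
          rw [← hz]
          exact hR.symm (hf0R _ _))
        rcases h k with h2 | h2
        · exact absurd hz h2
        · obtain ⟨l, hl, h3⟩ := mem_iUnion₂.1 h2
          exact ⟨l, hl, h3⟩
    rw [e1]
    refine MeasurableSet.iInter fun k => MeasurableSet.union ?_ ?_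
    · exact (measurableSet_eq_fun ((hf0m _).comp (hsm k)) measurable_id).compl
    · exact MeasurableSet.iUnion fun l => MeasurableSet.iUnion fun _ =>
        measurableSet_eq_fun (hsm k) (hsm l)
  have hBs2 : ∀ n y, ∃ m, y ∈ Bs (n, m) := by
    intro n y
    have h1 : ∀ z, ∃ l, f0 n z = y → z = s l y := by
      intro z
      by_cases hz : f0 n z = y
      · obtain ⟨l, hl⟩ := (hs y z).1 (by
          rw [← hz]
          exact hR.symm (hf0R _ _))
        exact ⟨l, fun _ => hl.symm⟩
      · exact ⟨0, fun h => absurd h hz⟩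
    choose L hL using h1
    obtain ⟨m, hm⟩ := ((hf0fin n y).image L).bddAbove
    refine ⟨m, (hBs _ _).2 fun z hz => ⟨L z, hm ⟨z, hz, rfl⟩, hL z hz⟩⟩
  obtain ⟨g, hg1, hg2⟩ : ∃ g : ℕ → X → X, (∀ n, g (2 * n) = s n) ∧ ∀ n, g (2 * n + 1) = f0 n := by
    refine ⟨fun n => if n % 2 = 0 then s (n / 2) else f0 (n / 2), fun n => ?_, fun n => ?_⟩
    · show (if (2 * n) % 2 = 0 then s ((2 * n) / 2) else f0 ((2 * n) / 2)) = s n
      rw [if_pos (by omega)]
      congr 1
      omega
    · show (if (2 * n + 1) % 2 = 0 then s ((2 * n + 1) / 2) else f0 ((2 * n + 1) / 2)) = f0 n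
      rw [if_neg (by omega)]
      congr 1
      omega
  have hgm : ∀ n, Measurable (g n) := by
    intro n
    rcases Nat.even_or_odd' n with ⟨i, rfl | rfl⟩
    · rw [hg1]
      exact hsm i
    · rw [hg2]
      exact hf0m i
  have hhm : Measurable fun x : X => (ρ0 x, fun p : ℕ × ℕ => decide (x ∈ Bs p)) := by
    refine hρ0m.prodMk (measurable_pi_lambda _ fun p => ?_)
    refine measurable_to_bool ?_
    have : (fun x => decide (x ∈ Bs p)) ⁻¹' {true} = Bs p := by
      ext x
      simp
    rw [this]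
    exact hBsm p
  let t0 := upgradeStandardBorel X
  obtain ⟨t, hp, hb, hcont, hhc, c, hcl, hgen⟩ := exists_top g hgm
    (fun x : X => (ρ0 x, fun p : ℕ × ℕ => decide (x ∈ Bs p))) hhm
  clear t0
  have := hp
  have := hb
  have hsc : ∀ n, Continuous (s n) := fun n => by
    rw [← hg1]
    exact hcont _
  have hf0c : ∀ n, Continuous (f0 n) := fun n => by
    rw [← hg2]
    exact hcont _
  have hρ0c : Continuous ρ0 := continuous_fst.comp hhc
  have hBso : ∀ p, IsOpen (Bs p) := by
    intro p
    have h1 : Continuous fun x => decide (x ∈ Bs p) := (continuous_apply p).comp (continuous_snd.comp hhc)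
    have h2 : Bs p = (fun x => decide (x ∈ Bs p)) ⁻¹' {true} := by
      ext x
      simp
    rw [h2]
    exact (isOpen_discrete ({true} : Set Bool)).preimage h1
  obtain ⟨κ, hκ1, hκ2, hκ3⟩ := exists_kappa c hcl hgen
  -- absorption
  obtain ⟨x0, hx0⟩ := exists_no_isolated R hR s hsc hs hns
  obtain ⟨ω, hω1, hω2, hω3⟩ := exists_copy R hR s hsc hsi hs x0 hx0
  obtain ⟨j, hj1, hj2, hj3, hj4⟩ := exists_j R hR s hsm hsi hs ω hω1 hω2 hω3
  obtain ⟨H, hH1, hH2, hH3⟩ := absorb R hR j hj1 hj2 hj3 hj4
  -- the data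
  let e : II ≃ ℕ := Denumerable.eqv II
  obtain ⟨zs, hzs1, hzs2⟩ : ∃ zs : ℕ → Option X, (∀ k, (Nat.unpair k).1 = 0 → zs k = none) ∧
      ∀ k m, (Nat.unpair k).1 = m + 1 → zs k = some (denseSeq X m) := by
    refine ⟨fun k => if (Nat.unpair k).1 = 0 then none else
      some (denseSeq X ((Nat.unpair k).1 - 1)), ?_, ?_⟩
    · intro k hk
      dsimp only
      rw [if_pos hk]
    · intro k m hk
      dsimp only
      rw [if_neg (by omega), hk, Nat.add_sub_cancel]
  let D : Dat X :=
    { R := R
      hR := hR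
      s := s
      sc := hsc
      si := hsi
      hs := hs
      ρ := fun x => e.symm (ρ0 x)
      ρc := by
        intro i
        have h1 : (fun x => e.symm (ρ0 x)) ⁻¹' {i} = ρ0 ⁻¹' {e i} := by
          ext x
          rw [mem_preimage, mem_preimage, mem_singleton_iff, mem_singleton_iff, Equiv.symm_apply_eq]
        rw [h1]
        exact (isClopen_discrete _).preimage hρ0c
      f := fun i => f0 (e i)
      fc := fun i => hf0c _
      fR := fun i => hf0R _
      fρ := by
        intro i x
        rw [hf0ρ, e.symm_apply_apply]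
      fid := by
        intro i x hx
        apply hf0id
        rw [← hx, e.apply_symm_apply]
      fp := by
        intro i x
        obtain ⟨m, hm⟩ := hBs2 (e i) x
        refine ⟨m, ?_⟩
        filter_upwards [(hBso _).mem_nhds hm] with y hy
        exact (hBs _ _).1 hy
      κ := κ
      κe := hκ1
      κr := hκ2
      κo := hκ3
      zs := zs
      zs1 := by
        intro N
        refine ⟨Nat.pair 0 N, Nat.right_le_pair 0 N, hzs1 _ ?_⟩
        rw [Nat.unpair_pair]
      zs2 := by
        intro U hU hne N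
        obtain ⟨_, hz, m, rfl⟩ := (denseRange_denseSeq X).inter_open_nonempty U hU hne
        refine ⟨Nat.pair (m + 1) N, Nat.right_le_pair _ N, _, hz, hzs2 _ m ?_⟩
        rw [Nat.unpair_pair] }
  obtain ⟨Ψ, hΨ1, hΨ2, hΨ3⟩ := D.exists_iso
  obtain ⟨K, hK1, hK2⟩ := D.FF_sigma
  obtain ⟨eH, heH⟩ := exists_mequiv H hH1 hH2
  obtain ⟨eΨ, heΨ⟩ := exists_mequiv Ψ hΨ1 hΨ2
  have key : ∀ y z : D.Yt, R ((eH.symm.trans eΨ).symm y) ((eH.symm.trans eΨ).symm z) ↔ D.FF y z := by
    intro y z
    obtain ⟨p, rfl⟩ := hΨ2.2 y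
    obtain ⟨q, rfl⟩ := hΨ2.2 z
    have h1 : ∀ p, (eH.symm.trans eΨ).symm (Ψ p) = H p := by
      intro p
      rw [← heΨ, ← heH]
      show eH.symm.symm (eΨ.symm (eΨ p)) = _
      rw [eΨ.symm_apply_apply]
      rfl
    rw [h1, h1, hH3, hΨ3]
  refine ⟨D.Yt, inferInstance, inferInstance, locCompact D, inferInstance, inferInstance,
    eH.symm.trans eΨ,
    ⟨K, hK1, ?_⟩, ?_⟩
  · rw [← hK2]
    ext p
    exact key p.1 p.2
  · intro y
    have h1 : {z | R ((eH.symm.trans eΨ).symm y) ((eH.symm.trans eΨ).symm z)} = {z | D.FF y z} := by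
      ext z
      exact key y z
    rw [h1]
    exact D.FF_dense y

end Pool.Agent.V11246.DA
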