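import Pool.Agent.V11246.NcoF

/-!
# Countable unions of countable sets that are not cuf sets
-/

set_option maxHeartbeats 1000000
set_option linter.all false
set_option synthInstance.maxSize 2000

namespace Pool.Agent.Helper672.ZFA.V246

open FirstOrder FirstOrder.Language
open H635 (IWO)
open Pool.Agent.H310
open Pool.Agent.H310Cards
open Pool.Agent.Helper672.Plain (LSet)
open Pool.Agent.H310Top (IsTopology IsCuf)
open Pool.Agent.V11246

universe u

section

attribute [local instance] Helper672.Plain.toL

variable {N : Type u} [LSet.Structure N] [hZ : Helper672.Plain.Zermelo N]

local instance instModelXg : IsModel N := Helper672.Plain.isModel_toL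

noncomputable local instance instPElXg (x : N) : ITy N (Helper672.Plain.El x) :=
  (inferInstance : ITy N (El x))

variable {a : N}

theorem union_of_CB {B : INat N × Plain.El a → Prop} (hB : CB B) : IsCtblUnion a := by
  have hBi := hB.int
  have hG : IntF N (fun n : INat N => sep N fun b : Plain.El a => B (n, b)) := by (repeat' (first | with_reducible exact IntF.id | with_reducible exact IntF.fst' | with_reducible exact IntF.snd' | with_reducible exact IntF.const _ | with_reducible exact Int.const _ | assumption | with_reducible apply Int.and | with_reducible apply Int.or | with_reducible apply Int.not | with_reducible apply Int.imp | with_reducible apply Int.iff | with_reducible apply Int.ne | with_reducible apply Int.eq | with_reducible apply Int.mem | with_reducible apply Int.subset | with_reducible apply Int.ltN | with_reducible apply Int.leN | with_reducible_and_instances apply Int.le | with_reducible_and_instances apply Int.lt | with_reducible apply Int.all | with_reducible apply Int.ex | with_reducible apply IntF.fst | with_reducible apply IntF.snd | with_reducible apply IntF.app | with_reducible apply IntF.inl | with_reducible apply IntF.inr | with_reducible_and_instances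 apply IntF.mul | with_reducible_and_instances apply IntF.inv | with_reducible_and_instances apply IntF.add | with_reducible_and_instances apply IntF.sub | with_reducible_and_instances apply IntF.neg | with_reducible_and_instances apply IntF.smul | with_reducible apply Int.fin | with_reducible apply IntF.sep | with_reducible apply IntF.lam | with_reducible apply IntF.insert | with_reducible apply IntF.singleton | with_reducible apply IntF.union | with_reducible apply IntF.iimage | with_reducible apply IntF.ite | with_reducible apply IntF.the | with_reducible apply IntF.irec | with_reducible apply IntF.succ | with_reducible apply IntF.val | with_reducible apply IntF.mk | (with_reducible refine Int.comp ?_ ?_; assumption) | (with_reducible refine Int.comp₂ ?_ ?_ ?_; assumption) | (with_reducible refine Int.comp₃ ?_ ?_ ?_ ?_; assumption) | (with_reducible refine Int.comp₄ ?_ ?_ ?_ ?_ ?_; assumption) | (with_reducible refine IntF.comp ?_ ?_; assumption) | (with_reducible refine IntF.comp₂ ?_ ?_ ?_; assumption) | (with_reducible refine IntF.comp₃ ?_ ?_ ?_ ?_; assumption) | with_reducible apply IntF.pair))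
  have hI : Int N (fun U : IPow N (Plain.El a) => ∃ n, U = sep N fun b : Plain.El a => B (n, b)) := by
    (repeat' (first | with_reducible exact IntF.id | with_reducible exact IntF.fst' | with_reducible exact IntF.snd' | with_reducible exact IntF.const _ | with_reducible exact Int.const _ | assumption | with_reducible apply Int.and | with_reducible apply Int.or | with_reducible apply Int.not | with_reducible apply Int.imp | with_reducible apply Int.iff | with_reducible apply Int.ne | with_reducible apply Int.eq | with_reducible apply Int.mem | with_reducible apply Int.subset | with_reducible apply Int.ltN | with_reducible apply Int.leN | with_reducible_and_instances apply Int.le | with_reducible_and_instances apply Int.lt | with_reducible apply Int.all | with_reducible apply Int.ex | with_reducible apply IntF.fst | with_reducible apply IntF.snd | with_reducible apply IntF.app | with_reducible apply IntF.inl | with_reducible apply IntF.inr | with_reducible_and_instances apply IntF.mul | with_reducible_and_instances apply IntF.inv | with_reducible_and_instances apply IntF.add | with_reducible_and_instances apply IntF.sub | with_reducible_and_instances apply IntF.neg | with_reducible_and_instances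 apply IntF.smul | with_reducible apply Int.fin | with_reducible apply IntF.sep | with_reducible apply IntF.lam | with_reducible apply IntF.insert | with_reducible apply IntF.singleton | with_reducible apply IntF.union | with_reducible apply IntF.iimage | with_reducible apply IntF.ite | with_reducible apply IntF.the | with_reducible apply IntF.irec | with_reducible apply IntF.succ | with_reducible apply IntF.val | with_reducible apply IntF.mk | (with_reducible refine Int.comp ?_ ?_; assumption) | (with_reducible refine Int.comp₂ ?_ ?_ ?_; assumption) | (with_reducible refine Int.comp₃ ?_ ?_ ?_ ?_; assumption) | (with_reducible refine Int.comp₄ ?_ ?_ ?_ ?_ ?_; assumption) | (with_reducible refine IntF.comp ?_ ?_; assumption) | (with_reducible refine IntF.comp₂ ?_ ?_ ?_; assumption) | (with_reducible refine IntF.comp₃ ?_ ?_ ?_ ?_; assumption) | with_reducible apply IntF.pair))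
  have hs : ∀ n, Int N (fun b : Plain.El a => B (n, b)) := fun n => by (repeat' (first | with_reducible exact IntF.id | with_reducible exact IntF.fst' | with_reducible exact IntF.snd' | with_reducible exact IntF.const _ | with_reducible exact Int.const _ | assumption | with_reducible apply Int.and | with_reducible apply Int.or | with_reducible apply Int.not | with_reducible apply Int.imp | with_reducible apply Int.iff | with_reducible apply Int.ne | with_reducible apply Int.eq | with_reducible apply Int.mem | with_reducible apply Int.subset | with_reducible apply Int.ltN | with_reducible apply Int.leN | with_reducible_and_instances apply Int.le | with_reducible_and_instances apply Int.lt | with_reducible apply Int.all | with_reducible apply Int.ex | with_reducible apply IntF.fst | with_reducible apply IntF.snd | with_reducible apply IntF.app | with_reducible apply IntF.inl | with_reducible apply IntF.inr | with_reducible_and_instances apply IntF.mul | with_reducible_and_instances apply IntF.inv | with_reducible_and_instances apply IntF.add | with_reducible_and_instances apply IntF.sub | with_reducible_and_instances apply IntF.neg | with_reducible_and_instances apply IntF.smul |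 with_reducible apply Int.fin | with_reducible apply IntF.sep | with_reducible apply IntF.lam | with_reducible apply IntF.insert | with_reducible apply IntF.singleton | with_reducible apply IntF.union | with_reducible apply IntF.iimage | with_reducible apply IntF.ite | with_reducible apply IntF.the | with_reducible apply IntF.irec | with_reducible apply IntF.succ | with_reducible apply IntF.val | with_reducible apply IntF.mk | (with_reducible refine Int.comp ?_ ?_; assumption) | (with_reducible refine Int.comp₂ ?_ ?_ ?_; assumption) | (with_reducible refine Int.comp₃ ?_ ?_ ?_ ?_; assumption) | (with_reducible refine Int.comp₄ ?_ ?_ ?_ ?_ ?_; assumption) | (with_reducible refine IntF.comp ?_ ?_; assumption) | (with_reducible refine IntF.comp₂ ?_ ?_ ?_; assumption) | (with_reducible refine IntF.comp₃ ?_ ?_ ?_ ?_; assumption) | with_reducible apply IntF.pair))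
  refine ⟨dom N (INat N), code (sep N fun U : IPow N (Plain.El a) =>
      ∃ n, U = sep N fun b : Plain.El a => B (n, b)),
    code (⟨_, hG⟩ : IFun N (INat N) (IPow N (Plain.El a))), isOmega_dom,
    isFun_code _ (fun z => mem_domP) fun n => ?_, fun u hu => ?_, fun z => ?_⟩
  · exact mem_codeB'.2 ((mem_sep hI).2 ⟨n, rfl⟩)
  · obtain ⟨U, hU, rfl⟩ := mem_codeB.1 hu
    obtain ⟨n, rfl⟩ := (mem_sep hI).1 hU
    exact isCtble_of_ctb ((hB.cnt n).mono fun b hb => (mem_sep (hs n)).1 hb)
  · constructor
    · intro hz
      obtain ⟨n, hn⟩ := hB.cov ⟨z, hz⟩
      exact ⟨code n, _, app_code.2 ⟨n, rfl, rfl⟩, mem_codeB.2 ⟨⟨z, hz⟩,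
        (mem_sep (hs n)).2 hn, rfl⟩⟩
    · rintro ⟨n, u, h1, h2⟩
      obtain ⟨n, rfl, rfl⟩ := app_code.1 h1
      obtain ⟨b, -, rfl⟩ := mem_codeB.1 h2
      exact b.2

theorem not_cuf_of_CB {B : INat N × Plain.El a → Prop} (hB : CB B) : ¬ IsCuf a := by
  rintro ⟨w, s, f, hw, hf, hs, hu⟩
  obtain ⟨b, hb⟩ := hB.ncuf (fun q => ∃ u, App f (code q.1) u ∧ Mem (code q.2) u) (int_appm f)
    fun n => by
      obtain ⟨u, h1, h2⟩ := hf.2 (code n) ((mem_omega hw).2 ⟨n, rfl⟩)
      obtain ⟨U, rfl⟩ := exists_codeB (α := Plain.El a) (u := u) fun z hz =>
        ⟨⟨z, (hu z).2 ⟨_, _, h1, hz⟩⟩, rfl⟩
      refine ⟨U, fin_of_isFinite (hs _ (app_dom hf h1).2), fun b hb => ?_⟩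
      obtain ⟨u', h3, h4⟩ := hb
      rw [h2 u' h3] at h4
      exact mem_codeB'.1 h4
  obtain ⟨n, u, h1, h2⟩ := (hu b.1).1 b.2
  obtain ⟨n, rfl⟩ := (mem_omega hw).1 (app_dom hf h1).1
  exact hb n ⟨u, h1, h2⟩

end

end Pool.Agent.Helper672.ZFA.V246
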