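import Pool.Agent.H310R3.PM6
import Pool.Agent.V11246.NcoG

/-!
# Countable blocks of generic elements: the group
-/

set_option maxHeartbeats 1000000
set_option linter.all false
set_option synthInstance.maxSize 2000

namespace Pool.Agent.Helper672.ZFA.V246

open FirstOrder FirstOrder.Language
open Pool.Agent.Helper672.ZFA
open Pool.Agent.Helper672.ZFA.H635 (IPerm)
open Pool.Agent.Helper672.ZFA.H310M
open Pool.Agent.H310

universe u

variable (M : Type u) [L.Structure M] [hM : IsModel M]

/-- The elements of a block: the natural numbers and the permutations of the natural numbers. -/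
abbrev Yb : Type u := INat M ⊕ IPerm M (INat M)

/-- The index set. -/
abbrev Xb : Type u := INat M × Yb M

variable {M}

/-- The action on a block. -/
noncomputable def act (σ : IPerm M (INat M)) (y : Yb M) : Yb M := match y with
  | Sum.inl i => Sum.inl (σ.1.1 i)
  | Sum.inr τ => Sum.inr (σ * τ)

theorem int_act : IntF M (fun q : IPerm M (INat M) × Yb M => act q.1 q.2) := by
  refine IntF.of_rel (r := fun q y => (∃ i, q.2 = Sum.inl i ∧ y = Sum.inl (q.1.1.1 i)) ∨
    ∃ τ, q.2 = Sum.inr τ ∧ y = Sum.inr (q.1 * τ)) (by (repeat' (first | with_reducible exact IntF.id | with_reducible exact IntF.fst' | with_reducible exact IntF.snd' | with_reducible exact IntF.const _ | with_reducible exact Int.const _ | assumption | with_reducible apply Int.and | with_reducible apply Int.or | with_reducible apply Int.not | with_reducible apply Int.imp | with_reducible apply Int.iff | with_reducible apply Int.ne | with_reducible apply Int.eq | with_reducible apply Int.mem | with_reducible apply Int.subset | with_reducible apply Int.ltN | with_reducible apply Int.leN | with_reducible_and_instances apply Int.le | with_reducible_and_instances apply Int.lt | with_reducible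 apply Int.all | with_reducible apply Int.ex | with_reducible apply IntF.fst | with_reducible apply IntF.snd | with_reducible apply IntF.app | with_reducible apply IntF.inl | with_reducible apply IntF.inr | with_reducible_and_instances apply IntF.mul | with_reducible_and_instances apply IntF.inv | with_reducible_and_instances apply IntF.add | with_reducible_and_instances apply IntF.sub | with_reducible_and_instances apply IntF.neg | with_reducible_and_instances apply IntF.smul | with_reducible apply Int.fin | with_reducible apply IntF.sep | with_reducible apply IntF.lam | with_reducible apply IntF.insert | with_reducible apply IntF.singleton | with_reducible apply IntF.union | with_reducible apply IntF.iimage | with_reducible apply IntF.ite | with_reducible apply IntF.the | with_reducible apply IntF.irec | with_reducible apply IntF.succ | with_reducible apply IntF.val | with_reducible apply IntF.mk | (with_reducible refine Int.comp ?_ ?_; assumption) | (with_reducible refine Int.comp₂ ?_ ?_ ?_; assumption) | (with_reducible refine Int.comp₃ ?_ ?_ ?_ ?_; assumption) | (with_reducible refine Int.comp₄ ?_ ?_ ?_ ?_ ?_; assumption) | (with_reducible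 refine IntF.comp ?_ ?_; assumption) | (with_reducible refine IntF.comp₂ ?_ ?_ ?_; assumption) | (with_reducible refine IntF.comp₃ ?_ ?_ ?_ ?_; assumption) | with_reducible apply IntF.pair))) fun q y => ?_
  obtain ⟨σ, z⟩ := q
  constructor
  · rintro (⟨i, h, rfl⟩ | ⟨τ, h, rfl⟩)
    · have h' : z = Sum.inl i := h
      subst h'
      rfl
    · have h' : z = Sum.inr τ := h
      subst h'
      rfl
  · rintro rfl
    rcases z with i | τ
    · exact Or.inl ⟨i, rfl, rfl⟩
    · exact Or.inr ⟨τ, rfl, rfl⟩

theorem act_mul (σ σ' : IPerm M (INat M)) (y : Yb M) : act (σ * σ') y = act σ (act σ' y) := by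
  rcases y with i | τ
  · exact congrArg Sum.inl (IPerm.mul_apply σ σ' i)
  · exact congrArg Sum.inr (mul_assoc σ σ' τ)

theorem act_one (y : Yb M) : act (1 : IPerm M (INat M)) y = y := by
  rcases y with i | τ
  · exact congrArg Sum.inl (IPerm.one_apply i)
  · exact congrArg Sum.inr (one_mul τ)

variable (M) in
/-- The automorphisms. -/
def HB : Subgroup (IPerm M (Xb M)) where
  carrier := {g | ∀ n, ∃ σ, ∀ y, g.1.1 (n, y) = (n, act σ y)}
  mul_mem' {a b} ha hb := by
    intro n
    obtain ⟨σ, h1⟩ := ha n
    obtain ⟨τ, h2⟩ := hb n
    refine ⟨σ * τ, fun y => ?_⟩
    rw [IPerm.mul_apply, h2, h1, act_mul]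
  one_mem' n := ⟨1, fun y => by rw [IPerm.one_apply, act_one]⟩
  inv_mem' {a} ha := by
    intro n
    obtain ⟨σ, h1⟩ := ha n
    refine ⟨σ⁻¹, fun y => ?_⟩
    change a.1.2 (n, y) = _
    have h2 := h1 (act σ⁻¹ y)
    rw [← act_mul, mul_inv_cancel, act_one] at h2
    rw [← h2]
    exact a.2.2 _

variable (M) in
/-- The automorphisms. -/
def ZB : PGr M (Xb M) where
  H := HB M
  int := by
    have h1 := int_act (M := M)
    change Int M (fun g : IPerm M (Xb M) => ∀ n, ∃ σ : IPerm M (INat M),
      ∀ y : Yb M, g.1.1 (n, y) = (n, act σ y))
    (repeat' (first | with_reducible exact IntF.id | with_reducible exact IntF.fst' | with_reducible exact IntF.snd' | with_reducible exact IntF.const _ | with_reducible exact Int.const _ | assumption | with_reducible apply Int.and | with_reducible apply Int.or | with_reducible apply Int.not | with_reducible apply Int.imp | with_reducible apply Int.iff | with_reducible apply Int.ne | with_reducible apply Int.eq | with_reducible apply Int.mem | with_reducible apply Int.subset | with_reducible apply Int.ltN | with_reducible apply Int.leN | with_reducible_and_instances apply Int.le | with_reducible_and_instances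 apply Int.lt | with_reducible apply Int.all | with_reducible apply Int.ex | with_reducible apply IntF.fst | with_reducible apply IntF.snd | with_reducible apply IntF.app | with_reducible apply IntF.inl | with_reducible apply IntF.inr | with_reducible_and_instances apply IntF.mul | with_reducible_and_instances apply IntF.inv | with_reducible_and_instances apply IntF.add | with_reducible_and_instances apply IntF.sub | with_reducible_and_instances apply IntF.neg | with_reducible_and_instances apply IntF.smul | with_reducible apply Int.fin | with_reducible apply IntF.sep | with_reducible apply IntF.lam | with_reducible apply IntF.insert | with_reducible apply IntF.singleton | with_reducible apply IntF.union | with_reducible apply IntF.iimage | with_reducible apply IntF.ite | with_reducible apply IntF.the | with_reducible apply IntF.irec | with_reducible apply IntF.succ | with_reducible apply IntF.val | with_reducible apply IntF.mk | (with_reducible refine Int.comp ?_ ?_; assumption) | (with_reducible refine Int.comp₂ ?_ ?_ ?_; assumption) | (with_reducible refine Int.comp₃ ?_ ?_ ?_ ?_; assumption) | (with_reducible refine Int.comp₄ ?_ ?_ ?_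 ?_ ?_; assumption) | (with_reducible refine IntF.comp ?_ ?_; assumption) | (with_reducible refine IntF.comp₂ ?_ ?_ ?_; assumption) | (with_reducible refine IntF.comp₃ ?_ ?_ ?_ ?_; assumption) | with_reducible apply IntF.pair))

theorem mem_HB {g : IPerm M (Xb M)} : g ∈ (ZB M).H ↔ ∀ n, ∃ σ, ∀ y, g.1.1 (n, y) = (n, act σ y) :=
  Iff.rfl

theorem mem_HB' {g : IPerm M (Xb M)} (hg : g ∈ (ZB M).H) {n i : INat M} :
    ∃ i', g.1.1 (n, Sum.inl i) = (n, Sum.inl i') := by
  obtain ⟨σ, h⟩ := mem_HB.1 hg n
  exact ⟨_, h _⟩

theorem fix_of {g : IPerm M (Xb M)} (hg : g ∈ (ZB M).H) {n : INat M}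
    (h : g.1.1 (n, Sum.inr 1) = (n, Sum.inr 1)) (y : Yb M) : g.1.1 (n, y) = (n, y) := by
  obtain ⟨σ, h1⟩ := mem_HB.1 hg n
  have h2 := h1 (Sum.inr 1)
  rw [h] at h2
  have h3 : (Sum.inr 1 : Yb M) = act σ (Sum.inr 1) := congrArg Prod.snd h2
  have h4 : (1 : IPerm M (INat M)) = σ * 1 := Sum.inr_injective h3
  rw [mul_one] at h4
  rw [h1, ← h4, act_one]

open Classical in
/-- A permutation of one block. -/
theorem exists_bl (n₀ : INat M) (σ : IPerm M (INat M)) : ∃ g ∈ (ZB M).H,
    (∀ n y, n ≠ n₀ → g.1.1 (n, y) = (n, y)) ∧ ∀ y, g.1.1 (n₀, y) = (n₀, act σ y) := by
  have h1 := int_act (M := M)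
  have h2 : ∀ σ : IPerm M (INat M), IntF M (fun q : Xb M => if q.1 = n₀ then (q.1, act σ q.2) else q) :=
    fun σ => by (repeat' (first | with_reducible exact IntF.id | with_reducible exact IntF.fst' | with_reducible exact IntF.snd' | with_reducible exact IntF.const _ | with_reducible exact Int.const _ | assumption | with_reducible apply Int.and | with_reducible apply Int.or | with_reducible apply Int.not | with_reducible apply Int.imp | with_reducible apply Int.iff | with_reducible apply Int.ne | with_reducible apply Int.eq | with_reducible apply Int.mem | with_reducible apply Int.subset | with_reducible apply Int.ltN | with_reducible apply Int.leN | with_reducible_and_instances apply Int.le | with_reducible_and_instances apply Int.lt | with_reducible apply Int.all | with_reducible apply Int.ex | with_reducible apply IntF.fst | with_reducible apply IntF.snd | with_reducible apply IntF.app | with_reducible apply IntF.inl | with_reducible apply IntF.inr | with_reducible_and_instances apply IntF.mul | with_reducible_and_instances apply IntF.inv | with_reducible_and_instances apply IntF.add | with_reducible_and_instances apply IntF.sub |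 with_reducible_and_instances apply IntF.neg | with_reducible_and_instances apply IntF.smul | with_reducible apply Int.fin | with_reducible apply IntF.sep | with_reducible apply IntF.lam | with_reducible apply IntF.insert | with_reducible apply IntF.singleton | with_reducible apply IntF.union | with_reducible apply IntF.iimage | with_reducible apply IntF.ite | with_reducible apply IntF.the | with_reducible apply IntF.irec | with_reducible apply IntF.succ | with_reducible apply IntF.val | with_reducible apply IntF.mk | (with_reducible refine Int.comp ?_ ?_; assumption) | (with_reducible refine Int.comp₂ ?_ ?_ ?_; assumption) | (with_reducible refine Int.comp₃ ?_ ?_ ?_ ?_; assumption) | (with_reducible refine Int.comp₄ ?_ ?_ ?_ ?_ ?_; assumption) | (with_reducible refine IntF.comp ?_ ?_; assumption) | (with_reducible refine IntF.comp₂ ?_ ?_ ?_; assumption) | (with_reducible refine IntF.comp₃ ?_ ?_ ?_ ?_; assumption) | with_reducible apply IntF.pair))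
  have h3 : ∀ σ : IPerm M (INat M), ∀ q : Xb M,
      (if (if q.1 = n₀ then (q.1, act σ⁻¹ q.2) else q).1 = n₀ then
        ((if q.1 = n₀ then (q.1, act σ⁻¹ q.2) else q).1,
          act σ (if q.1 = n₀ then (q.1, act σ⁻¹ q.2) else q).2) else
          (if q.1 = n₀ then (q.1, act σ⁻¹ q.2) else q)) = q := by
    intro σ q
    by_cases h : q.1 = n₀
    · rw [if_pos h, if_pos (show (q.1, act σ⁻¹ q.2).1 = n₀ from h)]
      refine Prod.ext rfl ?_
      change act σ (act σ⁻¹ q.2) = q.2
      rw [← act_mul, mul_inv_cancel, act_one]
    · rw [if_neg h, if_neg h]
  refine ⟨⟨(⟨_, h2 σ⟩, ⟨_, h2 σ⁻¹⟩), h3 σ, fun q => ?_⟩, ?_, ?_, ?_⟩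
  · have h4 := h3 σ⁻¹ q
    rw [inv_inv] at h4
    exact h4
  · intro n
    by_cases h : n = n₀
    · exact ⟨σ, fun y => if_pos h⟩
    · exact ⟨1, fun y => (if_neg h).trans (by rw [act_one])⟩
  · intro n y h
    exact if_neg h
  · intro y
    exact if_pos rfl

open Classical in
/-- Transpositions. -/
theorem exists_tr (i : INat M) : ∃ σ : IPerm M (INat M), σ.1.1 0 = i := by
  have h : IntF M (fun k : INat M => if k = 0 then i else if k = i then 0 else k) := by (repeat' (first | with_reducible exact IntF.id | with_reducible exact IntF.fst' | with_reducible exact IntF.snd' | with_reducible exact IntF.const _ | with_reducible exact Int.const _ | assumption | with_reducible apply Int.and | with_reducible apply Int.or | with_reducible apply Int.not | with_reducible apply Int.imp | with_reducible apply Int.iff | with_reducible apply Int.ne | with_reducible apply Int.eq | with_reducible apply Int.mem | with_reducible apply Int.subset | with_reducible apply Int.ltN | with_reducible apply Int.leN | with_reducible_and_instances apply Int.le | with_reducible_and_instances apply Int.lt | with_reducible apply Int.all | with_reducible apply Int.ex |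 with_reducible apply IntF.fst | with_reducible apply IntF.snd | with_reducible apply IntF.app | with_reducible apply IntF.inl | with_reducible apply IntF.inr | with_reducible_and_instances apply IntF.mul | with_reducible_and_instances apply IntF.inv | with_reducible_and_instances apply IntF.add | with_reducible_and_instances apply IntF.sub | with_reducible_and_instances apply IntF.neg | with_reducible_and_instances apply IntF.smul | with_reducible apply Int.fin | with_reducible apply IntF.sep | with_reducible apply IntF.lam | with_reducible apply IntF.insert | with_reducible apply IntF.singleton | with_reducible apply IntF.union | with_reducible apply IntF.iimage | with_reducible apply IntF.ite | with_reducible apply IntF.the | with_reducible apply IntF.irec | with_reducible apply IntF.succ | with_reducible apply IntF.val | with_reducible apply IntF.mk | (with_reducible refine Int.comp ?_ ?_; assumption) | (with_reducible refine Int.comp₂ ?_ ?_ ?_; assumption) | (with_reducible refine Int.comp₃ ?_ ?_ ?_ ?_; assumption) | (with_reducible refine Int.comp₄ ?_ ?_ ?_ ?_ ?_; assumption) | (with_reducible refine IntF.comp ?_ ?_; assumption) |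 (with_reducible refine IntF.comp₂ ?_ ?_ ?_; assumption) | (with_reducible refine IntF.comp₃ ?_ ?_ ?_ ?_; assumption) | with_reducible apply IntF.pair))
  refine ⟨IPerm.ofInv _ h fun k => ?_, if_pos rfl⟩
  by_cases h1 : k = 0
  · rw [if_pos h1]
    by_cases h2 : i = 0
    · rw [if_pos h2, h2, h1]
    · rw [if_neg h2, if_pos rfl, h1]
  · rw [if_neg h1]
    by_cases h2 : k = i
    · rw [if_pos h2, if_pos rfl, h2]
    · rw [if_neg h2, if_neg h1, if_neg h2]

/-- Transpositions of a block. -/
theorem exists_mv (n₀ i : INat M) : ∃ g ∈ (ZB M).H,
    (∀ n y, n ≠ n₀ → g.1.1 (n, y) = (n, y)) ∧ g.1.1 (n₀, Sum.inl 0) = (n₀, Sum.inl i) := by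
  obtain ⟨σ, hσ⟩ := exists_tr i
  obtain ⟨g, h1, h2, h3⟩ := exists_bl n₀ σ
  refine ⟨g, h1, h2, ?_⟩
  rw [h3]
  exact congrArg (fun k => (n₀, Sum.inl k)) hσ

/-- Finite sets miss a block. -/
theorem exists_miss (E : FS M (Xb M)) : ∃ n₀ : INat M, ∀ x, x ∈ E.1 → x.1 ≠ n₀ := by
  have h1 : FinP M (fun n : INat M => ∃ x, x ∈ E.1 ∧ x.1 = n) := by
    refine (FinP.image (p := fun x : Xb M => x ∈ E.1) (f := fun x => x.1) ⟨E.1, E.2, fun a h => h⟩
      (by (repeat' (first | with_reducible exact IntF.id | with_reducible exact IntF.fst' | with_reducible exact IntF.snd' | with_reducible exact IntF.const _ | with_reducible exact Int.const _ | assumption | with_reducible apply Int.and | with_reducible apply Int.or | with_reducible apply Int.not | with_reducible apply Int.imp | with_reducible apply Int.iff | with_reducible apply Int.ne | with_reducible apply Int.eq | with_reducible apply Int.mem | with_reducible apply Int.subset | with_reducible apply Int.ltN | with_reducible apply Int.leN | with_reducible_and_instances apply Int.le | with_reducible_and_instances apply Int.lt | with_reducible apply Int.all | with_reducible apply Int.ex | with_reducible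 apply IntF.fst | with_reducible apply IntF.snd | with_reducible apply IntF.app | with_reducible apply IntF.inl | with_reducible apply IntF.inr | with_reducible_and_instances apply IntF.mul | with_reducible_and_instances apply IntF.inv | with_reducible_and_instances apply IntF.add | with_reducible_and_instances apply IntF.sub | with_reducible_and_instances apply IntF.neg | with_reducible_and_instances apply IntF.smul | with_reducible apply Int.fin | with_reducible apply IntF.sep | with_reducible apply IntF.lam | with_reducible apply IntF.insert | with_reducible apply IntF.singleton | with_reducible apply IntF.union | with_reducible apply IntF.iimage | with_reducible apply IntF.ite | with_reducible apply IntF.the | with_reducible apply IntF.irec | with_reducible apply IntF.succ | with_reducible apply IntF.val | with_reducible apply IntF.mk | (with_reducible refine Int.comp ?_ ?_; assumption) | (with_reducible refine Int.comp₂ ?_ ?_ ?_; assumption) | (with_reducible refine Int.comp₃ ?_ ?_ ?_ ?_; assumption) | (with_reducible refine Int.comp₄ ?_ ?_ ?_ ?_ ?_; assumption) | (with_reducible refine IntF.comp ?_ ?_; assumption) | (with_reducible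 refine IntF.comp₂ ?_ ?_ ?_; assumption) | (with_reducible refine IntF.comp₃ ?_ ?_ ?_ ?_; assumption) | with_reducible apply IntF.pair)))).mono fun n h => h
  obtain ⟨n, hn⟩ := h1.bound
  refine ⟨n.succ, fun x hx h => ?_⟩
  have h2 := hn x.1 ⟨x, hx, rfl⟩
  rw [h] at h2
  exact absurd h2 (not_le.2 (INat.lt_succ_self n))

end Pool.Agent.Helper672.ZFA.V246
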