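import Pool.Agent.H310R3.PM6

/-!
# Blocks of generic elements with a given group

A sequence of blocks; on each block acts a given group, and one of the elements of the block
determines all of them.
-/

set_option maxHeartbeats 1000000
set_option linter.all false
set_option synthInstance.maxSize 2000

namespace Pool.Agent.Helper672.ZFA.V246G

open FirstOrder FirstOrder.Language
open Pool.Agent.Helper672.ZFA
open Pool.Agent.Helper672.ZFA.H635 (IPerm SymSys IsGen NN EqFam CollL nn_ext nn_zf)
open Pool.Agent.Helper672.ZFA.H310M
open Pool.Agent.H310
open Pool.Agent.Helper672.Plain (LSet)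

universe u

variable (M : Type u) [L.Structure M] [hM : IsModel M] (Y : Type u) [ITy M Y]

/-- The elements of a block. -/
abbrev Yb : Type u := Y ⊕ IPerm M Y

/-- The index set. -/
abbrev Xb : Type u := INat M × Yb M Y

variable {M Y}

/-- The action on a block. -/
noncomputable def act (σ : IPerm M Y) (y : Yb M Y) : Yb M Y := match y with
  | Sum.inl i => Sum.inl (σ.1.1 i)
  | Sum.inr τ => Sum.inr (σ * τ)

theorem int_act : IntF M (fun q : IPerm M Y × Yb M Y => act q.1 q.2) := by
  refine IntF.of_rel (r := fun q y => (∃ i, q.2 = Sum.inl i ∧ y = Sum.inl (q.1.1.1 i)) ∨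
    ∃ τ, q.2 = Sum.inr τ ∧ y = Sum.inr (q.1 * τ)) (by (repeat' (first | with_reducible exact IntF.id | with_reducible exact IntF.fst' | with_reducible exact IntF.snd' | with_reducible exact IntF.const _ | with_reducible exact Int.const _ | assumption | with_reducible apply Int.and | with_reducible apply Int.or | with_reducible apply Int.not | with_reducible apply Int.imp | with_reducible apply Int.iff | with_reducible apply Int.ne | with_reducible apply Int.eq | with_reducible apply Int.mem | with_reducible apply Int.subset | with_reducible apply Int.ltN | with_reducible apply Int.leN | with_reducible_and_instances apply Int.le | with_reducible_and_instances apply Int.lt | with_reducible apply Int.all | with_reducible apply Int.ex | with_reducible apply IntF.fst | with_reducible apply IntF.snd | with_reducible apply IntF.app | with_reducible apply IntF.inl | with_reducible apply IntF.inr | with_reducible_and_instances apply IntF.mul | with_reducible_and_instances apply IntF.inv | with_reducible_and_instances apply IntF.add | with_reducible_and_instances apply IntF.sub | with_reducible_and_instances apply IntF.neg | with_reducible_and_instances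 apply IntF.smul | with_reducible apply Int.fin | with_reducible apply IntF.sep | with_reducible apply IntF.lam | with_reducible apply IntF.insert | with_reducible apply IntF.singleton | with_reducible apply IntF.union | with_reducible apply IntF.iimage | with_reducible apply IntF.ite | with_reducible apply IntF.the | with_reducible apply IntF.irec | with_reducible apply IntF.succ | with_reducible apply IntF.val | with_reducible apply IntF.mk | (with_reducible refine Int.comp ?_ ?_; assumption) | (with_reducible refine Int.comp₂ ?_ ?_ ?_; assumption) | (with_reducible refine Int.comp₃ ?_ ?_ ?_ ?_; assumption) | (with_reducible refine Int.comp₄ ?_ ?_ ?_ ?_ ?_; assumption) | (with_reducible refine IntF.comp ?_ ?_; assumption) | (with_reducible refine IntF.comp₂ ?_ ?_ ?_; assumption) | (with_reducible refine IntF.comp₃ ?_ ?_ ?_ ?_; assumption) | with_reducible apply IntF.pair))) fun q y => ?_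
  obtain ⟨σ, z⟩ := q
  constructor
  · rintro (⟨i, h, rfl⟩ | ⟨τ, h, rfl⟩)
    · have h' : z = Sum.inl i := h
      subst h'
      rfl
    · have h' : z = Sum.inr τ := h
      subst h'
      rfl
  · rintro rfl
    rcases z with i | τ
    · exact Or.inl ⟨i, rfl, rfl⟩
    · exact Or.inr ⟨τ, rfl, rfl⟩

theorem act_mul (σ σ' : IPerm M Y) (y : Yb M Y) : act (σ * σ') y = act σ (act σ' y) := by
  rcases y with i | τ
  · exact congrArg Sum.inl (IPerm.mul_apply σ σ' i)
  · exact congrArg Sum.inr (mul_assoc σ σ' τ)

theorem act_one (y : Yb M Y) : act (1 : IPerm M Y) y = y := by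
  rcases y with i | τ
  · exact congrArg Sum.inl (IPerm.one_apply i)
  · exact congrArg Sum.inr (one_mul τ)

variable (R : PGr M Y)

/-- The automorphisms. -/
def HB : Subgroup (IPerm M (Xb M Y)) where
  carrier := {g | ∀ n, ∃ σ ∈ R.H, ∀ y, g.1.1 (n, y) = (n, act σ y)}
  mul_mem' {a b} ha hb := by
    intro n
    obtain ⟨σ, h0, h1⟩ := ha n
    obtain ⟨τ, h0', h2⟩ := hb n
    refine ⟨σ * τ, R.H.mul_mem h0 h0', fun y => ?_⟩
    rw [IPerm.mul_apply, h2, h1, act_mul]
  one_mem' n := ⟨1, R.H.one_mem, fun y => by rw [IPerm.one_apply, act_one]⟩
  inv_mem' {a} ha := by
    intro n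
    obtain ⟨σ, h0, h1⟩ := ha n
    refine ⟨σ⁻¹, R.H.inv_mem h0, fun y => ?_⟩
    change a.1.2 (n, y) = _
    have h2 := h1 (act σ⁻¹ y)
    rw [← act_mul, mul_inv_cancel, act_one] at h2
    rw [← h2]
    exact a.2.2 _

/-- The automorphisms. -/
def ZB : PGr M (Xb M Y) where
  H := HB R
  int := by
    have h1 := int_act (M := M) (Y := Y)
    have h2 := R.int
    change Int M (fun g : IPerm M (Xb M Y) => ∀ n, ∃ σ : IPerm M Y, σ ∈ R.H ∧
      ∀ y : Yb M Y, g.1.1 (n, y) = (n, act σ y))
    (repeat' (first | with_reducible exact IntF.id | with_reducible exact IntF.fst' | with_reducible exact IntF.snd' | with_reducible exact IntF.const _ | with_reducible exact Int.const _ | assumption | with_reducible apply Int.and | with_reducible apply Int.or | with_reducible apply Int.not | with_reducible apply Int.imp | with_reducible apply Int.iff | with_reducible apply Int.ne | with_reducible apply Int.eq | with_reducible apply Int.mem | with_reducible apply Int.subset | with_reducible apply Int.ltN | with_reducible apply Int.leN | with_reducible_and_instances apply Int.le | with_reducible_and_instances apply Int.lt | with_reducible apply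 Int.all | with_reducible apply Int.ex | with_reducible apply IntF.fst | with_reducible apply IntF.snd | with_reducible apply IntF.app | with_reducible apply IntF.inl | with_reducible apply IntF.inr | with_reducible_and_instances apply IntF.mul | with_reducible_and_instances apply IntF.inv | with_reducible_and_instances apply IntF.add | with_reducible_and_instances apply IntF.sub | with_reducible_and_instances apply IntF.neg | with_reducible_and_instances apply IntF.smul | with_reducible apply Int.fin | with_reducible apply IntF.sep | with_reducible apply IntF.lam | with_reducible apply IntF.insert | with_reducible apply IntF.singleton | with_reducible apply IntF.union | with_reducible apply IntF.iimage | with_reducible apply IntF.ite | with_reducible apply IntF.the | with_reducible apply IntF.irec | with_reducible apply IntF.succ | with_reducible apply IntF.val | with_reducible apply IntF.mk | (with_reducible refine Int.comp ?_ ?_; assumption) | (with_reducible refine Int.comp₂ ?_ ?_ ?_; assumption) | (with_reducible refine Int.comp₃ ?_ ?_ ?_ ?_; assumption) | (with_reducible refine Int.comp₄ ?_ ?_ ?_ ?_ ?_; assumption)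 | (with_reducible refine IntF.comp ?_ ?_; assumption) | (with_reducible refine IntF.comp₂ ?_ ?_ ?_; assumption) | (with_reducible refine IntF.comp₃ ?_ ?_ ?_ ?_; assumption) | with_reducible apply IntF.pair))

variable {R}

theorem mem_HB {g : IPerm M (Xb M Y)} :
    g ∈ (ZB R).H ↔ ∀ n, ∃ σ ∈ R.H, ∀ y, g.1.1 (n, y) = (n, act σ y) := Iff.rfl

theorem mem_HB' {g : IPerm M (Xb M Y)} (hg : g ∈ (ZB R).H) (n : INat M) :
    ∃ σ ∈ R.H, ∀ i, g.1.1 (n, Sum.inl i) = (n, Sum.inl (σ.1.1 i)) := by
  obtain ⟨σ, h0, h⟩ := mem_HB.1 hg n
  exact ⟨σ, h0, fun i => h _⟩

theorem fix_of {g : IPerm M (Xb M Y)} (hg : g ∈ (ZB R).H) {n : INat M}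
    (h : g.1.1 (n, Sum.inr 1) = (n, Sum.inr 1)) (y : Yb M Y) : g.1.1 (n, y) = (n, y) := by
  obtain ⟨σ, -, h1⟩ := mem_HB.1 hg n
  have h2 := h1 (Sum.inr 1)
  rw [h] at h2
  have h3 : (Sum.inr 1 : Yb M Y) = act σ (Sum.inr 1) := congrArg Prod.snd h2
  have h4 : (1 : IPerm M Y) = σ * 1 := Sum.inr_injective h3
  rw [mul_one] at h4
  rw [h1, ← h4, act_one]

open Classical in
/-- A permutation of one block. -/
theorem exists_bl (n₀ : INat M) {σ : IPerm M Y} (hσ : σ ∈ R.H) : ∃ g ∈ (ZB R).H,
    (∀ n y, n ≠ n₀ → g.1.1 (n, y) = (n, y)) ∧ ∀ y, g.1.1 (n₀, y) = (n₀, act σ y) := by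
  have h1 := int_act (M := M) (Y := Y)
  have h2 : ∀ σ : IPerm M Y, IntF M (fun q : Xb M Y => if q.1 = n₀ then (q.1, act σ q.2) else q) :=
    fun σ => by (repeat' (first | with_reducible exact IntF.id | with_reducible exact IntF.fst' | with_reducible exact IntF.snd' | with_reducible exact IntF.const _ | with_reducible exact Int.const _ | assumption | with_reducible apply Int.and | with_reducible apply Int.or | with_reducible apply Int.not | with_reducible apply Int.imp | with_reducible apply Int.iff | with_reducible apply Int.ne | with_reducible apply Int.eq | with_reducible apply Int.mem | with_reducible apply Int.subset | with_reducible apply Int.ltN | with_reducible apply Int.leN | with_reducible_and_instances apply Int.le | with_reducible_and_instances apply Int.lt | with_reducible apply Int.all | with_reducible apply Int.ex | with_reducible apply IntF.fst | with_reducible apply IntF.snd | with_reducible apply IntF.app | with_reducible apply IntF.inl | with_reducible apply IntF.inr | with_reducible_and_instances apply IntF.mul | with_reducible_and_instances apply IntF.inv | with_reducible_and_instances apply IntF.add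 | with_reducible_and_instances apply IntF.sub | with_reducible_and_instances apply IntF.neg | with_reducible_and_instances apply IntF.smul | with_reducible apply Int.fin | with_reducible apply IntF.sep | with_reducible apply IntF.lam | with_reducible apply IntF.insert | with_reducible apply IntF.singleton | with_reducible apply IntF.union | with_reducible apply IntF.iimage | with_reducible apply IntF.ite | with_reducible apply IntF.the | with_reducible apply IntF.irec | with_reducible apply IntF.succ | with_reducible apply IntF.val | with_reducible apply IntF.mk | (with_reducible refine Int.comp ?_ ?_; assumption) | (with_reducible refine Int.comp₂ ?_ ?_ ?_; assumption) | (with_reducible refine Int.comp₃ ?_ ?_ ?_ ?_; assumption) | (with_reducible refine Int.comp₄ ?_ ?_ ?_ ?_ ?_; assumption) | (with_reducible refine IntF.comp ?_ ?_; assumption) | (with_reducible refine IntF.comp₂ ?_ ?_ ?_; assumption) | (with_reducible refine IntF.comp₃ ?_ ?_ ?_ ?_; assumption) | with_reducible apply IntF.pair))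
  have h3 : ∀ σ : IPerm M Y, ∀ q : Xb M Y,
      (if (if q.1 = n₀ then (q.1, act σ⁻¹ q.2) else q).1 = n₀ then
        ((if q.1 = n₀ then (q.1, act σ⁻¹ q.2) else q).1,
          act σ (if q.1 = n₀ then (q.1, act σ⁻¹ q.2) else q).2) else
          (if q.1 = n₀ then (q.1, act σ⁻¹ q.2) else q)) = q := by
    intro σ q
    by_cases h : q.1 = n₀
    · rw [if_pos h, if_pos (show (q.1, act σ⁻¹ q.2).1 = n₀ from h)]
      refine Prod.ext rfl ?_
      change act σ (act σ⁻¹ q.2) = q.2
      rw [← act_mul, mul_inv_cancel, act_one]
    · rw [if_neg h, if_neg h]
  refine ⟨⟨(⟨_, h2 σ⟩, ⟨_, h2 σ⁻¹⟩), h3 σ, fun q => ?_⟩, ?_, ?_, ?_⟩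
  · have h4 := h3 σ⁻¹ q
    rw [inv_inv] at h4
    exact h4
  · intro n
    by_cases h : n = n₀
    · exact ⟨σ, hσ, fun y => if_pos h⟩
    · exact ⟨1, R.H.one_mem, fun y => (if_neg h).trans (by rw [act_one])⟩
  · intro n y h
    exact if_neg h
  · intro y
    exact if_pos rfl

/-- Finite sets miss a block. -/
theorem exists_miss (E : FS M (Xb M Y)) : ∃ n₀ : INat M, ∀ x, x ∈ E.1 → x.1 ≠ n₀ := by
  have h1 : FinP M (fun n : INat M => ∃ x, x ∈ E.1 ∧ x.1 = n) := by
    refine (FinP.image (p := fun x : Xb M Y => x ∈ E.1) (f := fun x => x.1)
      ⟨E.1, E.2, fun a h => h⟩ (by (repeat' (first | with_reducible exact IntF.id | with_reducible exact IntF.fst' | with_reducible exact IntF.snd' | with_reducible exact IntF.const _ | with_reducible exact Int.const _ | assumption | with_reducible apply Int.and | with_reducible apply Int.or | with_reducible apply Int.not | with_reducible apply Int.imp | with_reducible apply Int.iff | with_reducible apply Int.ne | with_reducible apply Int.eq | with_reducible apply Int.mem | with_reducible apply Int.subset | with_reducible apply Int.ltN | with_reducible apply Int.leN | with_reducible_and_instances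 apply Int.le | with_reducible_and_instances apply Int.lt | with_reducible apply Int.all | with_reducible apply Int.ex | with_reducible apply IntF.fst | with_reducible apply IntF.snd | with_reducible apply IntF.app | with_reducible apply IntF.inl | with_reducible apply IntF.inr | with_reducible_and_instances apply IntF.mul | with_reducible_and_instances apply IntF.inv | with_reducible_and_instances apply IntF.add | with_reducible_and_instances apply IntF.sub | with_reducible_and_instances apply IntF.neg | with_reducible_and_instances apply IntF.smul | with_reducible apply Int.fin | with_reducible apply IntF.sep | with_reducible apply IntF.lam | with_reducible apply IntF.insert | with_reducible apply IntF.singleton | with_reducible apply IntF.union | with_reducible apply IntF.iimage | with_reducible apply IntF.ite | with_reducible apply IntF.the | with_reducible apply IntF.irec | with_reducible apply IntF.succ | with_reducible apply IntF.val | with_reducible apply IntF.mk | (with_reducible refine Int.comp ?_ ?_; assumption) | (with_reducible refine Int.comp₂ ?_ ?_ ?_; assumption) | (with_reducible refine Int.comp₃ ?_ ?_ ?_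 ?_; assumption) | (with_reducible refine Int.comp₄ ?_ ?_ ?_ ?_ ?_; assumption) | (with_reducible refine IntF.comp ?_ ?_; assumption) | (with_reducible refine IntF.comp₂ ?_ ?_ ?_; assumption) | (with_reducible refine IntF.comp₃ ?_ ?_ ?_ ?_; assumption) | with_reducible apply IntF.pair)))).mono fun n h => h
  obtain ⟨n, hn⟩ := h1.bound
  refine ⟨n.succ, fun x hx h => ?_⟩
  have h2 := hn x.1 ⟨x, hx, rfl⟩
  rw [h] at h2
  exact absurd h2 (not_le.2 (INat.lt_succ_self n))

/-! ### The extension -/

variable {G : Set (Co M (Xb M Y))} (hG : IsGen M G) (hC : CollL M)

variable (R) in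
/-- The model. -/
abbrev Nb : Type u := NN (SS (ZB R)) hG

theorem exists_ab : ∃ z : Nb R hG, ∀ w, Mem w z ↔ ∃ n i, w = cc (ZB R) hG (n, Sum.inl i) := by
  obtain ⟨z, hz⟩ := EF.set hG (ef_cc (Z := ZB R) hG)
    (Y := fun x : Xb M Y => ∃ n i, x = (n, Sum.inl i)) (by (repeat' (first | with_reducible exact IntF.id | with_reducible exact IntF.fst' | with_reducible exact IntF.snd' | with_reducible exact IntF.const _ | with_reducible exact Int.const _ | assumption | with_reducible apply Int.and | with_reducible apply Int.or | with_reducible apply Int.not | with_reducible apply Int.imp | with_reducible apply Int.iff | with_reducible apply Int.ne | with_reducible apply Int.eq | with_reducible apply Int.mem | with_reducible apply Int.subset | with_reducible apply Int.ltN | with_reducible apply Int.leN | with_reducible_and_instances apply Int.le | with_reducible_and_instances apply Int.lt | with_reducible apply Int.all | with_reducible apply Int.ex | with_reducible apply IntF.fst | with_reducible apply IntF.snd | with_reducible apply IntF.app | with_reducible apply IntF.inl | with_reducible apply IntF.inr | with_reducible_and_instances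 apply IntF.mul | with_reducible_and_instances apply IntF.inv | with_reducible_and_instances apply IntF.add | with_reducible_and_instances apply IntF.sub | with_reducible_and_instances apply IntF.neg | with_reducible_and_instances apply IntF.smul | with_reducible apply Int.fin | with_reducible apply IntF.sep | with_reducible apply IntF.lam | with_reducible apply IntF.insert | with_reducible apply IntF.singleton | with_reducible apply IntF.union | with_reducible apply IntF.iimage | with_reducible apply IntF.ite | with_reducible apply IntF.the | with_reducible apply IntF.irec | with_reducible apply IntF.succ | with_reducible apply IntF.val | with_reducible apply IntF.mk | (with_reducible refine Int.comp ?_ ?_; assumption) | (with_reducible refine Int.comp₂ ?_ ?_ ?_; assumption) | (with_reducible refine Int.comp₃ ?_ ?_ ?_ ?_; assumption) | (with_reducible refine Int.comp₄ ?_ ?_ ?_ ?_ ?_; assumption) | (with_reducible refine IntF.comp ?_ ?_; assumption) | (with_reducible refine IntF.comp₂ ?_ ?_ ?_; assumption) | (with_reducible refine IntF.comp₃ ?_ ?_ ?_ ?_; assumption) | with_reducible apply IntF.pair))) (E := fs0 M (Xb M Y))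 (by
      rintro g hg - c ⟨n, i, rfl⟩
      obtain ⟨σ, -, h⟩ := mem_HB' hg n
      exact ⟨n, _, h i⟩)
  refine ⟨z, fun w => (hz w).trans ⟨?_, ?_⟩⟩
  · rintro ⟨c, ⟨n, i, rfl⟩, rfl⟩
    exact ⟨n, i, rfl⟩
  · rintro ⟨n, i, rfl⟩
    exact ⟨_, ⟨n, i, rfl⟩, rfl⟩

variable (R) in
/-- The union of the blocks. -/
noncomputable def ab : Nb R hG := (exists_ab hG).choose

theorem mem_ab {w : Nb R hG} : Mem w (ab R hG) ↔ ∃ n i, w = cc (ZB R) hG (n, Sum.inl i) :=
  (exists_ab hG).choose_spec w

variable (R) in
/-- The elements. -/
noncomputable def eb (n : INat M) (i : Y) : El (ab R hG) :=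
  ⟨cc (ZB R) hG (n, Sum.inl i), (mem_ab hG).2 ⟨n, i, rfl⟩⟩

theorem eb_surj (a : El (ab R hG)) : ∃ n i, eb R hG n i = a := by
  obtain ⟨n, i, h⟩ := (mem_ab hG).1 a.2
  exact ⟨n, i, Subtype.ext h.symm⟩

theorem eb_inj {n n' : INat M} {i i' : Y} (h : eb R hG n i = eb R hG n' i') :
    n = n' ∧ i = i' := by
  have h1 := (cc_inj hG).1 (congrArg Subtype.val h)
  exact ⟨congrArg Prod.fst h1, Sum.inl_injective (congrArg Prod.snd h1)⟩

theorem eb_inj' {n n' : INat M} {i i' : Y}
    (h : cc (ZB R) hG (n, Sum.inl i) = cc (ZB R) hG (n', Sum.inl i')) : n = n' ∧ i = i' :=
  eb_inj (R := R) hG (Subtype.ext h)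

/-- Pairs of a natural number and an element of a block. -/
theorem ef_pair : EF (ZB R) hG (fun (g : IPerm M (Xb M Y)) (q : INat M × Xb M Y) =>
    (q.1, g.1.1 q.2)) (fun q => op (nn (ZB R) hG q.1) (cc (ZB R) hG q.2)) := by
  refine EF.op hG (fun g b => ?_) ?_ ?_
  · exact Prod.ext rfl (g.2.2 _)
  · exact EF.comp hG (ef_nn hG) (φ := fun q : INat M × Xb M Y => q.1) (by (repeat' (first | with_reducible exact IntF.id | with_reducible exact IntF.fst' | with_reducible exact IntF.snd' | with_reducible exact IntF.const _ | with_reducible exact Int.const _ | assumption | with_reducible apply Int.and | with_reducible apply Int.or | with_reducible apply Int.not | with_reducible apply Int.imp | with_reducible apply Int.iff | with_reducible apply Int.ne | with_reducible apply Int.eq | with_reducible apply Int.mem | with_reducible apply Int.subset | with_reducible apply Int.ltN | with_reducible apply Int.leN | with_reducible_and_instances apply Int.le | with_reducible_and_instances apply Int.lt | with_reducible apply Int.all | with_reducible apply Int.ex | with_reducible apply IntF.fst | with_reducible apply IntF.snd | with_reducible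 apply IntF.app | with_reducible apply IntF.inl | with_reducible apply IntF.inr | with_reducible_and_instances apply IntF.mul | with_reducible_and_instances apply IntF.inv | with_reducible_and_instances apply IntF.add | with_reducible_and_instances apply IntF.sub | with_reducible_and_instances apply IntF.neg | with_reducible_and_instances apply IntF.smul | with_reducible apply Int.fin | with_reducible apply IntF.sep | with_reducible apply IntF.lam | with_reducible apply IntF.insert | with_reducible apply IntF.singleton | with_reducible apply IntF.union | with_reducible apply IntF.iimage | with_reducible apply IntF.ite | with_reducible apply IntF.the | with_reducible apply IntF.irec | with_reducible apply IntF.succ | with_reducible apply IntF.val | with_reducible apply IntF.mk | (with_reducible refine Int.comp ?_ ?_; assumption) | (with_reducible refine Int.comp₂ ?_ ?_ ?_; assumption) | (with_reducible refine Int.comp₃ ?_ ?_ ?_ ?_; assumption) | (with_reducible refine Int.comp₄ ?_ ?_ ?_ ?_ ?_; assumption) | (with_reducible refine IntF.comp ?_ ?_; assumption) | (with_reducible refine IntF.comp₂ ?_ ?_ ?_; assumption) | (with_reducible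 refine IntF.comp₃ ?_ ?_ ?_ ?_; assumption) | with_reducible apply IntF.pair))) fun g b => rfl
  · exact EF.comp hG (ef_cc hG) (φ := fun q : INat M × Xb M Y => q.2) (by (repeat' (first | with_reducible exact IntF.id | with_reducible exact IntF.fst' | with_reducible exact IntF.snd' | with_reducible exact IntF.const _ | with_reducible exact Int.const _ | assumption | with_reducible apply Int.and | with_reducible apply Int.or | with_reducible apply Int.not | with_reducible apply Int.imp | with_reducible apply Int.iff | with_reducible apply Int.ne | with_reducible apply Int.eq | with_reducible apply Int.mem | with_reducible apply Int.subset | with_reducible apply Int.ltN | with_reducible apply Int.leN | with_reducible_and_instances apply Int.le | with_reducible_and_instances apply Int.lt | with_reducible apply Int.all | with_reducible apply Int.ex | with_reducible apply IntF.fst | with_reducible apply IntF.snd | with_reducible apply IntF.app | with_reducible apply IntF.inl | with_reducible apply IntF.inr | with_reducible_and_instances apply IntF.mul | with_reducible_and_instances apply IntF.inv | with_reducible_and_instances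 apply IntF.add | with_reducible_and_instances apply IntF.sub | with_reducible_and_instances apply IntF.neg | with_reducible_and_instances apply IntF.smul | with_reducible apply Int.fin | with_reducible apply IntF.sep | with_reducible apply IntF.lam | with_reducible apply IntF.insert | with_reducible apply IntF.singleton | with_reducible apply IntF.union | with_reducible apply IntF.iimage | with_reducible apply IntF.ite | with_reducible apply IntF.the | with_reducible apply IntF.irec | with_reducible apply IntF.succ | with_reducible apply IntF.val | with_reducible apply IntF.mk | (with_reducible refine Int.comp ?_ ?_; assumption) | (with_reducible refine Int.comp₂ ?_ ?_ ?_; assumption) | (with_reducible refine Int.comp₃ ?_ ?_ ?_ ?_; assumption) | (with_reducible refine Int.comp₄ ?_ ?_ ?_ ?_ ?_; assumption) | (with_reducible refine IntF.comp ?_ ?_; assumption) | (with_reducible refine IntF.comp₂ ?_ ?_ ?_; assumption) | (with_reducible refine IntF.comp₃ ?_ ?_ ?_ ?_; assumption) | with_reducible apply IntF.pair))) fun g b => rfl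

/-- Invariant relations between natural numbers and elements. -/
theorem exists_relN {Q : INat M × (INat M × Y) → Prop} (hQ : Int M Q)
    (hinv : ∀ σ ∈ R.H, ∀ k n y, Q (k, (n, y)) → Q (k, (n, σ.1.1 y))) :
    ∃ P : INat (Nb R hG) × El (ab R hG) → Prop, Int (Nb R hG) P ∧
      ∀ k n y, P (nnN (ZB R) hG hC k, eb R hG n y) ↔ Q (k, (n, y)) := by
  obtain ⟨z, hz⟩ := EF.set hG (ef_pair (R := R) hG)
    (Y := fun q : INat M × Xb M Y => ∃ k n y, q = (k, (n, Sum.inl y)) ∧ Q (k, (n, y)))
    (by (repeat' (first | with_reducible exact IntF.id | with_reducible exact IntF.fst' | with_reducible exact IntF.snd' | with_reducible exact IntF.const _ | with_reducible exact Int.const _ | assumption | with_reducible apply Int.and | with_reducible apply Int.or | with_reducible apply Int.not | with_reducible apply Int.imp | with_reducible apply Int.iff | with_reducible apply Int.ne | with_reducible apply Int.eq | with_reducible apply Int.mem | with_reducible apply Int.subset | with_reducible apply Int.ltN | with_reducible apply Int.leN | with_reducible_and_instances apply Int.le | with_reducible_and_instances apply Int.lt | with_reducible apply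 Int.all | with_reducible apply Int.ex | with_reducible apply IntF.fst | with_reducible apply IntF.snd | with_reducible apply IntF.app | with_reducible apply IntF.inl | with_reducible apply IntF.inr | with_reducible_and_instances apply IntF.mul | with_reducible_and_instances apply IntF.inv | with_reducible_and_instances apply IntF.add | with_reducible_and_instances apply IntF.sub | with_reducible_and_instances apply IntF.neg | with_reducible_and_instances apply IntF.smul | with_reducible apply Int.fin | with_reducible apply IntF.sep | with_reducible apply IntF.lam | with_reducible apply IntF.insert | with_reducible apply IntF.singleton | with_reducible apply IntF.union | with_reducible apply IntF.iimage | with_reducible apply IntF.ite | with_reducible apply IntF.the | with_reducible apply IntF.irec | with_reducible apply IntF.succ | with_reducible apply IntF.val | with_reducible apply IntF.mk | (with_reducible refine Int.comp ?_ ?_; assumption) | (with_reducible refine Int.comp₂ ?_ ?_ ?_; assumption) | (with_reducible refine Int.comp₃ ?_ ?_ ?_ ?_; assumption) | (with_reducible refine Int.comp₄ ?_ ?_ ?_ ?_ ?_; assumption)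 | (with_reducible refine IntF.comp ?_ ?_; assumption) | (with_reducible refine IntF.comp₂ ?_ ?_ ?_; assumption) | (with_reducible refine IntF.comp₃ ?_ ?_ ?_ ?_; assumption) | with_reducible apply IntF.pair))) (E := fs0 M (Xb M Y)) (by
      rintro g hg - c ⟨k, n, y, rfl, h⟩
      obtain ⟨σ, hσ, h'⟩ := mem_HB' hg n
      exact ⟨k, n, _, congrArg (fun x => (k, x)) (h' y), hinv σ hσ k n y h⟩)
  refine ⟨fun q => Mem (code q) z, ⟨z, fun q => Iff.rfl⟩, fun k n y => ?_⟩
  refine (hz _).trans ⟨?_, fun h => ⟨(k, (n, Sum.inl y)), ⟨k, n, y, rfl, h⟩, rfl⟩⟩
  rintro ⟨c, ⟨k', n', y', rfl, h⟩, h2⟩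
  obtain ⟨h3, h4⟩ := op_inj h2
  obtain ⟨rfl, rfl⟩ := eb_inj' hG h4
  obtain rfl := (nn_inj hG).1 h3
  exact h

/-- Relations between natural numbers and elements of one block. -/
theorem exists_relB (n : INat M) {Q : INat M × Y → Prop} (hQ : Int M Q) :
    ∃ P : INat (Nb R hG) × El (ab R hG) → Prop, Int (Nb R hG) P ∧
      ∀ k n' y, P (nnN (ZB R) hG hC k, eb R hG n' y) ↔ n' = n ∧ Q (k, y) := by
  obtain ⟨z, hz⟩ := EF.set hG (ef_pair (R := R) hG)
    (Y := fun q : INat M × Xb M Y => ∃ k y, q = (k, (n, Sum.inl y)) ∧ Q (k, y))
    (by (repeat' (first | with_reducible exact IntF.id | with_reducible exact IntF.fst' | with_reducible exact IntF.snd' | with_reducible exact IntF.const _ | with_reducible exact Int.const _ | assumption | with_reducible apply Int.and | with_reducible apply Int.or | with_reducible apply Int.not | with_reducible apply Int.imp | with_reducible apply Int.iff | with_reducible apply Int.ne | with_reducible apply Int.eq | with_reducible apply Int.mem | with_reducible apply Int.subset | with_reducible apply Int.ltN | with_reducible apply Int.leN | with_reducible_and_instances apply Int.le | with_reducible_and_instances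 apply Int.lt | with_reducible apply Int.all | with_reducible apply Int.ex | with_reducible apply IntF.fst | with_reducible apply IntF.snd | with_reducible apply IntF.app | with_reducible apply IntF.inl | with_reducible apply IntF.inr | with_reducible_and_instances apply IntF.mul | with_reducible_and_instances apply IntF.inv | with_reducible_and_instances apply IntF.add | with_reducible_and_instances apply IntF.sub | with_reducible_and_instances apply IntF.neg | with_reducible_and_instances apply IntF.smul | with_reducible apply Int.fin | with_reducible apply IntF.sep | with_reducible apply IntF.lam | with_reducible apply IntF.insert | with_reducible apply IntF.singleton | with_reducible apply IntF.union | with_reducible apply IntF.iimage | with_reducible apply IntF.ite | with_reducible apply IntF.the | with_reducible apply IntF.irec | with_reducible apply IntF.succ | with_reducible apply IntF.val | with_reducible apply IntF.mk | (with_reducible refine Int.comp ?_ ?_; assumption) | (with_reducible refine Int.comp₂ ?_ ?_ ?_; assumption) | (with_reducible refine Int.comp₃ ?_ ?_ ?_ ?_; assumption) | (with_reducible refine Int.comp₄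 ?_ ?_ ?_ ?_ ?_; assumption) | (with_reducible refine IntF.comp ?_ ?_; assumption) | (with_reducible refine IntF.comp₂ ?_ ?_ ?_; assumption) | (with_reducible refine IntF.comp₃ ?_ ?_ ?_ ?_; assumption) | with_reducible apply IntF.pair))) (E := fs1 (n, Sum.inr 1)) (by
      rintro g hg hE c ⟨k, y, rfl, h⟩
      have h1 := fix_of hg (hE _ (mem_fs1.2 rfl)) (Sum.inl y)
      exact ⟨k, y, congrArg (fun x => (k, x)) h1, h⟩)
  refine ⟨fun q => Mem (code q) z, ⟨z, fun q => Iff.rfl⟩, fun k n' y => ?_⟩
  refine (hz _).trans ⟨?_, ?_⟩
  · rintro ⟨c, ⟨k', y', rfl, h⟩, h2⟩
    obtain ⟨h3, h4⟩ := op_inj h2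
    obtain ⟨rfl, rfl⟩ := eb_inj' hG h4
    obtain rfl := (nn_inj hG).1 h3
    exact ⟨rfl, h⟩
  · rintro ⟨rfl, h⟩
    exact ⟨(k, (n', Sum.inl y)), ⟨k, y, rfl, h⟩, rfl⟩

/-- Homogeneity. -/
theorem exists_hom {W : INat (Nb R hG) × El (ab R hG) → Prop} (hW : Int (Nb R hG) W) :
    ∃ E : FS M (Xb M Y), ∀ n, (∀ x, x ∈ E.1 → x.1 ≠ n) → ∀ σ ∈ R.H, ∀ k y,
      W (nnN (ZB R) hG hC k, eb R hG n y) → W (nnN (ZB R) hG hC k, eb R hG n (σ.1.1 y)) := by
  obtain ⟨z, hz⟩ := hW
  obtain ⟨E, hE⟩ := support hG z
  refine ⟨E, fun n hn σ hσ k y h => ?_⟩
  obtain ⟨g, hg, h2, h3⟩ := exists_bl n hσ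
  have h4 := hE _ _ _ _ (ef_pair hG) g hg (fun x hx => h2 x.1 x.2 (hn x hx))
    (k, (n, Sum.inl y)) ((hz _).2 h)
  have h5 : g.1.1 (n, Sum.inl y) = (n, Sum.inl (σ.1.1 y)) := h3 _
  rw [h5] at h4
  exact (hz (nnN (ZB R) hG hC k, eb R hG n (σ.1.1 y))).1 h4

end Pool.Agent.Helper672.ZFA.V246G
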