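import Pool.Agent.V11246.Blk

/-!
# Countable blocks of generic elements: the extension
-/

set_option maxHeartbeats 1000000
set_option linter.all false
set_option synthInstance.maxSize 2000

namespace Pool.Agent.Helper672.ZFA.V246

open FirstOrder FirstOrder.Language
open Pool.Agent.Helper672.ZFA
open Pool.Agent.Helper672.ZFA.H635 (IPerm SymSys IsGen NN EqFam CollL nn_ext nn_zf)
open Pool.Agent.Helper672.ZFA.H310M
open Pool.Agent.H310
open Pool.Agent.Helper672.Plain (LSet)

universe u

variable {M : Type u} [L.Structure M] [hM : IsModel M]
variable {G : Set (Co M (Xb M))} (hG : IsGen M G) (hC : CollL M)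

/-- The model. -/
abbrev Nb : Type u := NN (SS (ZB M)) hG

theorem ef_pair : EF (ZB M) hG (fun (g : IPerm M (Xb M)) (q : INat M × Xb M) => (q.1, g.1.1 q.2))
    (fun q => op (nn (ZB M) hG q.1) (cc (ZB M) hG q.2)) := by
  refine EF.op hG (fun g b => ?_) ?_ ?_
  · exact Prod.ext rfl (g.2.2 _)
  · exact EF.comp hG (ef_nn hG) (φ := fun q : INat M × Xb M => q.1) (by (repeat' (first | with_reducible exact IntF.id | with_reducible exact IntF.fst' | with_reducible exact IntF.snd' | with_reducible exact IntF.const _ | with_reducible exact Int.const _ | assumption | with_reducible apply Int.and | with_reducible apply Int.or | with_reducible apply Int.not | with_reducible apply Int.imp | with_reducible apply Int.iff | with_reducible apply Int.ne | with_reducible apply Int.eq | with_reducible apply Int.mem | with_reducible apply Int.subset | with_reducible apply Int.ltN | with_reducible apply Int.leN | with_reducible_and_instances apply Int.le | with_reducible_and_instances apply Int.lt | with_reducible apply Int.all | with_reducible apply Int.ex | with_reducible apply IntF.fst | with_reducible apply IntF.snd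 | with_reducible apply IntF.app | with_reducible apply IntF.inl | with_reducible apply IntF.inr | with_reducible_and_instances apply IntF.mul | with_reducible_and_instances apply IntF.inv | with_reducible_and_instances apply IntF.add | with_reducible_and_instances apply IntF.sub | with_reducible_and_instances apply IntF.neg | with_reducible_and_instances apply IntF.smul | with_reducible apply Int.fin | with_reducible apply IntF.sep | with_reducible apply IntF.lam | with_reducible apply IntF.insert | with_reducible apply IntF.singleton | with_reducible apply IntF.union | with_reducible apply IntF.iimage | with_reducible apply IntF.ite | with_reducible apply IntF.the | with_reducible apply IntF.irec | with_reducible apply IntF.succ | with_reducible apply IntF.val | with_reducible apply IntF.mk | (with_reducible refine Int.comp ?_ ?_; assumption) | (with_reducible refine Int.comp₂ ?_ ?_ ?_; assumption) | (with_reducible refine Int.comp₃ ?_ ?_ ?_ ?_; assumption) | (with_reducible refine Int.comp₄ ?_ ?_ ?_ ?_ ?_; assumption) | (with_reducible refine IntF.comp ?_ ?_; assumption) | (with_reducible refine IntF.comp₂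 ?_ ?_ ?_; assumption) | (with_reducible refine IntF.comp₃ ?_ ?_ ?_ ?_; assumption) | with_reducible apply IntF.pair))) fun g b => rfl
  · exact EF.comp hG (ef_cc hG) (φ := fun q : INat M × Xb M => q.2) (by (repeat' (first | with_reducible exact IntF.id | with_reducible exact IntF.fst' | with_reducible exact IntF.snd' | with_reducible exact IntF.const _ | with_reducible exact Int.const _ | assumption | with_reducible apply Int.and | with_reducible apply Int.or | with_reducible apply Int.not | with_reducible apply Int.imp | with_reducible apply Int.iff | with_reducible apply Int.ne | with_reducible apply Int.eq | with_reducible apply Int.mem | with_reducible apply Int.subset | with_reducible apply Int.ltN | with_reducible apply Int.leN | with_reducible_and_instances apply Int.le | with_reducible_and_instances apply Int.lt | with_reducible apply Int.all | with_reducible apply Int.ex | with_reducible apply IntF.fst | with_reducible apply IntF.snd | with_reducible apply IntF.app | with_reducible apply IntF.inl | with_reducible apply IntF.inr | with_reducible_and_instances apply IntF.mul | with_reducible_and_instances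 apply IntF.inv | with_reducible_and_instances apply IntF.add | with_reducible_and_instances apply IntF.sub | with_reducible_and_instances apply IntF.neg | with_reducible_and_instances apply IntF.smul | with_reducible apply Int.fin | with_reducible apply IntF.sep | with_reducible apply IntF.lam | with_reducible apply IntF.insert | with_reducible apply IntF.singleton | with_reducible apply IntF.union | with_reducible apply IntF.iimage | with_reducible apply IntF.ite | with_reducible apply IntF.the | with_reducible apply IntF.irec | with_reducible apply IntF.succ | with_reducible apply IntF.val | with_reducible apply IntF.mk | (with_reducible refine Int.comp ?_ ?_; assumption) | (with_reducible refine Int.comp₂ ?_ ?_ ?_; assumption) | (with_reducible refine Int.comp₃ ?_ ?_ ?_ ?_; assumption) | (with_reducible refine Int.comp₄ ?_ ?_ ?_ ?_ ?_; assumption) | (with_reducible refine IntF.comp ?_ ?_; assumption) | (with_reducible refine IntF.comp₂ ?_ ?_ ?_; assumption) | (with_reducible refine IntF.comp₃ ?_ ?_ ?_ ?_; assumption) | with_reducible apply IntF.pair))) fun g b => rfl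

theorem exists_ab : ∃ z : Nb hG, ∀ w, Mem w z ↔ ∃ n i, w = cc (ZB M) hG (n, Sum.inl i) := by
  obtain ⟨z, hz⟩ := EF.set hG (ef_cc (Z := ZB M) hG)
    (Y := fun x : Xb M => ∃ n i, x = (n, Sum.inl i)) (by (repeat' (first | with_reducible exact IntF.id | with_reducible exact IntF.fst' | with_reducible exact IntF.snd' | with_reducible exact IntF.const _ | with_reducible exact Int.const _ | assumption | with_reducible apply Int.and | with_reducible apply Int.or | with_reducible apply Int.not | with_reducible apply Int.imp | with_reducible apply Int.iff | with_reducible apply Int.ne | with_reducible apply Int.eq | with_reducible apply Int.mem | with_reducible apply Int.subset | with_reducible apply Int.ltN | with_reducible apply Int.leN | with_reducible_and_instances apply Int.le | with_reducible_and_instances apply Int.lt | with_reducible apply Int.all | with_reducible apply Int.ex | with_reducible apply IntF.fst | with_reducible apply IntF.snd | with_reducible apply IntF.app | with_reducible apply IntF.inl | with_reducible apply IntF.inr | with_reducible_and_instances apply IntF.mul | with_reducible_and_instances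 apply IntF.inv | with_reducible_and_instances apply IntF.add | with_reducible_and_instances apply IntF.sub | with_reducible_and_instances apply IntF.neg | with_reducible_and_instances apply IntF.smul | with_reducible apply Int.fin | with_reducible apply IntF.sep | with_reducible apply IntF.lam | with_reducible apply IntF.insert | with_reducible apply IntF.singleton | with_reducible apply IntF.union | with_reducible apply IntF.iimage | with_reducible apply IntF.ite | with_reducible apply IntF.the | with_reducible apply IntF.irec | with_reducible apply IntF.succ | with_reducible apply IntF.val | with_reducible apply IntF.mk | (with_reducible refine Int.comp ?_ ?_; assumption) | (with_reducible refine Int.comp₂ ?_ ?_ ?_; assumption) | (with_reducible refine Int.comp₃ ?_ ?_ ?_ ?_; assumption) | (with_reducible refine Int.comp₄ ?_ ?_ ?_ ?_ ?_; assumption) | (with_reducible refine IntF.comp ?_ ?_; assumption) | (with_reducible refine IntF.comp₂ ?_ ?_ ?_; assumption) | (with_reducible refine IntF.comp₃ ?_ ?_ ?_ ?_; assumption) | with_reducible apply IntF.pair))) (E := fs0 M (Xb M)) (by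
      rintro g hg - c ⟨n, i, rfl⟩
      obtain ⟨i', h⟩ := mem_HB' hg (n := n) (i := i)
      exact ⟨n, i', h⟩)
  refine ⟨z, fun w => (hz w).trans ⟨?_, ?_⟩⟩
  · rintro ⟨c, ⟨n, i, rfl⟩, rfl⟩
    exact ⟨n, i, rfl⟩
  · rintro ⟨n, i, rfl⟩
    exact ⟨_, ⟨n, i, rfl⟩, rfl⟩

/-- The union of the blocks. -/
noncomputable def ab : Nb hG := (exists_ab hG).choose

theorem mem_ab {w : Nb hG} : Mem w (ab hG) ↔ ∃ n i, w = cc (ZB M) hG (n, Sum.inl i) :=
  (exists_ab hG).choose_spec w

/-- The elements. -/
noncomputable def eb (n i : INat M) : El (ab hG) :=
  ⟨cc (ZB M) hG (n, Sum.inl i), (mem_ab hG).2 ⟨n, i, rfl⟩⟩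

theorem eb_surj (a : El (ab hG)) : ∃ n i, eb hG n i = a := by
  obtain ⟨n, i, h⟩ := (mem_ab hG).1 a.2
  exact ⟨n, i, Subtype.ext h.symm⟩

theorem eb_inj {n i n' i' : INat M} (h : eb hG n i = eb hG n' i') : n = n' ∧ i = i' := by
  have h1 := (cc_inj hG).1 (congrArg Subtype.val h)
  exact ⟨congrArg Prod.fst h1, Sum.inl_injective (congrArg Prod.snd h1)⟩

theorem exists_zb : ∃ z : Nb hG, ∀ w, Mem w z ↔
    ∃ n i, w = op (nn (ZB M) hG n) (cc (ZB M) hG (n, Sum.inl i)) := by
  obtain ⟨z, hz⟩ := EF.set hG (ef_pair hG)
    (Y := fun q : INat M × Xb M => ∃ n i, q = (n, (n, Sum.inl i))) (by (repeat' (first | with_reducible exact IntF.id | with_reducible exact IntF.fst' | with_reducible exact IntF.snd' | with_reducible exact IntF.const _ | with_reducible exact Int.const _ | assumption | with_reducible apply Int.and | with_reducible apply Int.or | with_reducible apply Int.not | with_reducible apply Int.imp | with_reducible apply Int.iff | with_reducible apply Int.ne | with_reducible apply Int.eq | with_reducible apply Int.mem | with_reducible apply Int.subset | with_reducible apply Int.ltN | with_reducible apply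 Int.leN | with_reducible_and_instances apply Int.le | with_reducible_and_instances apply Int.lt | with_reducible apply Int.all | with_reducible apply Int.ex | with_reducible apply IntF.fst | with_reducible apply IntF.snd | with_reducible apply IntF.app | with_reducible apply IntF.inl | with_reducible apply IntF.inr | with_reducible_and_instances apply IntF.mul | with_reducible_and_instances apply IntF.inv | with_reducible_and_instances apply IntF.add | with_reducible_and_instances apply IntF.sub | with_reducible_and_instances apply IntF.neg | with_reducible_and_instances apply IntF.smul | with_reducible apply Int.fin | with_reducible apply IntF.sep | with_reducible apply IntF.lam | with_reducible apply IntF.insert | with_reducible apply IntF.singleton | with_reducible apply IntF.union | with_reducible apply IntF.iimage | with_reducible apply IntF.ite | with_reducible apply IntF.the | with_reducible apply IntF.irec | with_reducible apply IntF.succ | with_reducible apply IntF.val | with_reducible apply IntF.mk | (with_reducible refine Int.comp ?_ ?_; assumption) | (with_reducible refine Int.comp₂ ?_ ?_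 ?_; assumption) | (with_reducible refine Int.comp₃ ?_ ?_ ?_ ?_; assumption) | (with_reducible refine Int.comp₄ ?_ ?_ ?_ ?_ ?_; assumption) | (with_reducible refine IntF.comp ?_ ?_; assumption) | (with_reducible refine IntF.comp₂ ?_ ?_ ?_; assumption) | (with_reducible refine IntF.comp₃ ?_ ?_ ?_ ?_; assumption) | with_reducible apply IntF.pair)))
    (E := fs0 M (Xb M)) (by
      rintro g hg - c ⟨n, i, rfl⟩
      obtain ⟨i', h⟩ := mem_HB' hg (n := n) (i := i)
      exact ⟨n, i', congrArg (fun x => (n, x)) h⟩)
  refine ⟨z, fun w => (hz w).trans ⟨?_, ?_⟩⟩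
  · rintro ⟨c, ⟨n, i, rfl⟩, rfl⟩
    exact ⟨n, i, rfl⟩
  · rintro ⟨n, i, rfl⟩
    exact ⟨_, ⟨n, i, rfl⟩, rfl⟩

theorem exists_ze (n : INat M) : ∃ z : Nb hG, ∀ w, Mem w z ↔
    ∃ i, w = op (nn (ZB M) hG i) (cc (ZB M) hG (n, Sum.inl i)) := by
  obtain ⟨z, hz⟩ := EF.set hG (ef_pair hG)
    (Y := fun q : INat M × Xb M => ∃ i, q = (i, (n, Sum.inl i))) (by (repeat' (first | with_reducible exact IntF.id | with_reducible exact IntF.fst' | with_reducible exact IntF.snd' | with_reducible exact IntF.const _ | with_reducible exact Int.const _ | assumption | with_reducible apply Int.and | with_reducible apply Int.or | with_reducible apply Int.not | with_reducible apply Int.imp | with_reducible apply Int.iff | with_reducible apply Int.ne | with_reducible apply Int.eq | with_reducible apply Int.mem | with_reducible apply Int.subset | with_reducible apply Int.ltN | with_reducible apply Int.leN | with_reducible_and_instances apply Int.le | with_reducible_and_instances apply Int.lt | with_reducible apply Int.all | with_reducible apply Int.ex | with_reducible apply IntF.fst | with_reducible apply IntF.snd | with_reducible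 apply IntF.app | with_reducible apply IntF.inl | with_reducible apply IntF.inr | with_reducible_and_instances apply IntF.mul | with_reducible_and_instances apply IntF.inv | with_reducible_and_instances apply IntF.add | with_reducible_and_instances apply IntF.sub | with_reducible_and_instances apply IntF.neg | with_reducible_and_instances apply IntF.smul | with_reducible apply Int.fin | with_reducible apply IntF.sep | with_reducible apply IntF.lam | with_reducible apply IntF.insert | with_reducible apply IntF.singleton | with_reducible apply IntF.union | with_reducible apply IntF.iimage | with_reducible apply IntF.ite | with_reducible apply IntF.the | with_reducible apply IntF.irec | with_reducible apply IntF.succ | with_reducible apply IntF.val | with_reducible apply IntF.mk | (with_reducible refine Int.comp ?_ ?_; assumption) | (with_reducible refine Int.comp₂ ?_ ?_ ?_; assumption) | (with_reducible refine Int.comp₃ ?_ ?_ ?_ ?_; assumption) | (with_reducible refine Int.comp₄ ?_ ?_ ?_ ?_ ?_; assumption) | (with_reducible refine IntF.comp ?_ ?_; assumption) | (with_reducible refine IntF.comp₂ ?_ ?_ ?_;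 assumption) | (with_reducible refine IntF.comp₃ ?_ ?_ ?_ ?_; assumption) | with_reducible apply IntF.pair)))
    (E := fs1 (n, Sum.inr 1)) (by
      rintro g hg hE c ⟨i, rfl⟩
      have h1 := fix_of hg (hE _ (mem_fs1.2 rfl)) (Sum.inl i)
      exact ⟨i, congrArg (fun x => (i, x)) h1⟩)
  refine ⟨z, fun w => (hz w).trans ⟨?_, ?_⟩⟩
  · rintro ⟨c, ⟨i, rfl⟩, rfl⟩
    exact ⟨i, rfl⟩
  · rintro ⟨i, rfl⟩
    exact ⟨_, ⟨i, rfl⟩, rfl⟩

/-- The sequence of the blocks. -/
def BB (q : INat (Nb hG) × El (ab hG)) : Prop := Mem (code q) (exists_zb hG).choose

theorem BB_iff {m n i : INat M} : BB hG (nnN (ZB M) hG hC m, eb hG n i) ↔ m = n := by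
  refine ((exists_zb hG).choose_spec _).trans ⟨?_, ?_⟩
  · rintro ⟨n', i', h⟩
    obtain ⟨h1, h2⟩ := op_inj h
    have h3 := (cc_inj hG).1 h2
    exact ((nn_inj hG).1 h1).trans (congrArg Prod.fst h3).symm
  · rintro rfl
    exact ⟨m, i, rfl⟩

include hC in
theorem cb : CB (M := Nb hG) (BB hG) where
  int := ⟨_, fun q => Iff.rfl⟩
  cov a := by
    obtain ⟨n, i, rfl⟩ := eb_surj hG a
    exact ⟨nnN (ZB M) hG hC n, (BB_iff hG hC).2 rfl⟩
  cnt n := by
    obtain ⟨n, rfl⟩ := nnN_surj hG hC n
    obtain ⟨z, hz⟩ := exists_ze hG n
    have hI : Int (Nb hG) (fun q : El (ab hG) × INat (Nb hG) => Mem (op q.2.val q.1.1) z) :=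
      Int.of_D₂ (S := fun v => Mem (op (v 1) (v 0)) z)
        (D.memf (DF.op (DF.var _) (DF.var _)) (DF.const _)) fun _ _ => Iff.rfl
    have hF : IntF (Nb hG) (fun a : El (ab hG) =>
      the (fun k : INat (Nb hG) => Mem (op k.val a.1) z) 0) := IntF.the hI (IntF.const _)
    have key : ∀ i, the (fun k : INat (Nb hG) => Mem (op k.val (eb hG n i).1) z) 0 =
        nnN (ZB M) hG hC i := by
      intro i
      refine the_eq ⟨nnN (ZB M) hG hC i, (hz _).2 ⟨i, rfl⟩, fun k hk => ?_⟩ ((hz _).2 ⟨i, rfl⟩)
      obtain ⟨k, rfl⟩ := nnN_surj hG hC k
      obtain ⟨i', h⟩ := (hz _).1 hk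
      obtain ⟨h1, h2⟩ := op_inj h
      rw [(nn_inj hG).1 h1, Sum.inl_injective (congrArg Prod.snd ((cc_inj hG).1 h2))]
    refine ⟨_, hF, fun a b ha hb hab => ?_⟩
    obtain ⟨n', i, rfl⟩ := eb_surj hG a
    obtain ⟨n'', i', rfl⟩ := eb_surj hG b
    obtain rfl := (BB_iff hG hC).1 ha
    obtain rfl := (BB_iff hG hC).1 hb
    have h1 : nnN (ZB M) hG hC i = nnN (ZB M) hG hC i' := (key i).symm.trans (hab.trans (key i'))
    rw [(nnN_inj hG hC).1 h1]
  ncuf W hW hfin := by
    by_contra hcon
    push Not at hcon
    obtain ⟨z, hz⟩ := hW
    obtain ⟨E, hE⟩ := support hG z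
    obtain ⟨n₀, hn₀⟩ := exists_miss E
    obtain ⟨m, hm⟩ := hcon (eb hG n₀ 0)
    obtain ⟨m, rfl⟩ := nnN_surj hG hC m
    have h1 : ∀ i, W (nnN (ZB M) hG hC m, eb hG n₀ i) := by
      intro i
      obtain ⟨g, hg, h2, h3⟩ := exists_mv n₀ i
      have h4 := hE _ _ _ _ (ef_pair hG) g hg (fun x hx => h2 x.1 x.2 (hn₀ x hx))
        (m, (n₀, Sum.inl 0)) ((hz _).2 hm)
      rw [h3] at h4
      exact (hz (nnN (ZB M) hG hC m, eb hG n₀ i)).1 h4
    obtain ⟨y, hy⟩ := exists_ze hG n₀
    have hI : Int (Nb hG) (fun q : INat (Nb hG) × El (ab hG) => Mem (op q.1.val q.2.1) y) :=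
      ⟨y, fun q => Iff.rfl⟩
    have hF : IntF (Nb hG) (fun k : INat (Nb hG) =>
      the (fun a : El (ab hG) => Mem (op k.val a.1) y) (eb hG 0 0)) := IntF.the hI (IntF.const _)
    have key : ∀ i, the (fun a : El (ab hG) => Mem (op (nnN (ZB M) hG hC i).val a.1) y)
        (eb hG 0 0) = eb hG n₀ i := by
      intro i
      refine the_eq ⟨eb hG n₀ i, (hy _).2 ⟨i, rfl⟩, fun a ha => ?_⟩ ((hy _).2 ⟨i, rfl⟩)
      obtain ⟨n, i', rfl⟩ := eb_surj hG a
      obtain ⟨i'', h⟩ := (hy _).1 ha
      obtain ⟨h1, h2⟩ := op_inj h
      have h3 := (cc_inj hG).1 h2
      have h4 : n = n₀ := congrArg Prod.fst h3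
      have h5 : i' = i'' := Sum.inl_injective (congrArg Prod.snd h3)
      rw [h4, h5, (nn_inj hG).1 h1]
    refine not_finP_nat (M := Nb hG) (FinP.of_inj (Int.const _) hF ?_
      (hfin (nnN (ZB M) hG hC m)) ?_)
    · intro k k' _ _ h
      obtain ⟨i, rfl⟩ := nnN_surj hG hC k
      obtain ⟨i', rfl⟩ := nnN_surj hG hC k'
      rw [key, key] at h
      rw [(eb_inj hG h).2]
    · intro k _
      obtain ⟨i, rfl⟩ := nnN_surj hG hC k
      rw [key]
      exact h1 i

end Pool.Agent.Helper672.ZFA.V246
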