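import Pool.Agent.V11246.BlkN
import Pool.Agent.H635R2.Coll
import Pool.Agent.H635R2.Ext

/-!
# Countable blocks of generic elements: models
-/

set_option maxHeartbeats 1000000
set_option linter.all false
set_option synthInstance.maxSize 2000

namespace Pool.Agent.Helper672.ZFA.V246

open FirstOrder FirstOrder.Language
open Pool.Agent.Helper672.Plain (LSet)
open Pool.Agent.H310Cards
open Pool.Agent.H310
open Pool.Agent.Helper672.ZFA.H310M
open Pool.Agent.H635Amen (ZF)
open Pool.Agent.H310Top (IsTopology IsCuf)
open Pool.Agent.V11246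
open H635 (CollL isModel_of_zermelo coll_of_zf exists_countable_sub toL nn_zf)

universe u

theorem exists_union' (M : Type u) [L.Structure M] [IsModel M] [Countable M] (hC : CollL M) :
    ∃ (N : Type u) (_ : LSet.Structure N) (_ : ZF N) (a : N), IsCtblUnion a ∧ ¬ IsCuf a := by
  have p₀ : Co M (Xb M) := ⟨∅, fun i k d d' h => absurd h (by simp), IFin.empty⟩
  obtain ⟨G, hG⟩ := H635.exists_gen (M := M) p₀
  have hzf : ZF (Nb hG) := nn_zf hG hC
  exact ⟨Nb hG, inferInstance, hzf, ab hG, union_of_CB (cb hG hC), not_cuf_of_CB (cb hG hC)⟩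

section

attribute [local instance] toL

theorem exists_union_c (M : Type u) [LSet.Structure M] [Countable M] (h : ZF M) :
    ∃ (N : Type u) (_ : LSet.Structure N) (_ : ZF N) (a : N), IsCtblUnion a ∧ ¬ IsCuf a := by
  have hM : IsModel M := isModel_of_zermelo h.toZermelo
  exact exists_union' M (coll_of_zf h)

end

theorem exists_union (M : Type u) [LSet.Structure M] (h : ZF M) :
    ∃ (N : Type u) (_ : LSet.Structure N) (_ : ZF N) (a : N), IsCtblUnion a ∧ ¬ IsCuf a := by
  obtain ⟨M₀, h1, h2⟩ := exists_countable_sub M h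
  exact exists_union_c M₀ h2

end Pool.Agent.Helper672.ZFA.V246
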