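import Pool.Agent.V11246.Asm

/-!
# More on plain models: finite sets, functions
-/

set_option maxHeartbeats 1000000
set_option linter.all false
set_option synthInstance.maxSize 2000

namespace Pool.Agent.Helper672.ZFA.V246

open FirstOrder FirstOrder.Language
open H635 (IWO)
open Pool.Agent.H310
open Pool.Agent.H310Cards
open Pool.Agent.Helper672.Plain (LSet)

universe u

section

attribute [local instance] Helper672.Plain.toL

variable {N : Type u} [LSet.Structure N] [hZ : Helper672.Plain.Zermelo N]

local instance instModelB : IsModel N := Helper672.Plain.isModel_toL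

variable {α β γ : Type u} [ITy N α] [ITy N β] [ITy N γ]

theorem exists_codeB {u : N} (h : ∀ z, Mem z u → ∃ a : α, code a = z) :
    ∃ U : IPow N α, code U = u := by
  have hs : Int N (fun a : α => Mem (code a) u) := ⟨u, fun a => Iff.rfl⟩
  refine ⟨⟨_, hs⟩, extM fun t => ?_⟩
  refine (mem_code_pow (s := (⟨_, hs⟩ : IPow N α))).trans ⟨?_, fun ht => ?_⟩
  · rintro ⟨a, ha, rfl⟩
    exact ha
  · obtain ⟨a, rfl⟩ := h t ht
    exact ⟨a, ht, rfl⟩

theorem mem_codeB {U : IPow N α} {z : N} : Mem z (code (M := N) U) ↔ ∃ a, a ∈ U ∧ code a = z :=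
  mem_code_pow (s := U)

theorem mem_codeB' {U : IPow N α} {a : α} : Mem (code a) (code (M := N) U) ↔ a ∈ U := by
  rw [mem_codeB]
  constructor
  · rintro ⟨b, hb, h⟩
    rwa [← ITy.inj h]
  · exact fun h => ⟨a, h, rfl⟩

theorem natB {n : N} : IsNat n ↔ ∃ m : INat N, m.val = n :=
  ⟨fun h => ⟨⟨n, fun i hi => h i (ind_iff.1 hi)⟩, rfl⟩,
    fun ⟨m, h⟩ i hi => h ▸ m.prop i (ind_iff.2 hi)⟩

theorem isFinite_of_fin {s : IPow N α} (h : IFin s) : IsFinite (code (M := N) s) := by
  obtain ⟨e, n, h2, h3, h4⟩ := exists_BN h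
  have hI : Int N (fun q : α × INat N => q.1 ∈ s ∧ e q.1 = q.2) := by (repeat' (first | with_reducible exact IntF.id | with_reducible exact IntF.fst' | with_reducible exact IntF.snd' | with_reducible exact IntF.const _ | with_reducible exact Int.const _ | assumption | with_reducible apply Int.and | with_reducible apply Int.or | with_reducible apply Int.not | with_reducible apply Int.imp | with_reducible apply Int.iff | with_reducible apply Int.ne | with_reducible apply Int.eq | with_reducible apply Int.mem | with_reducible apply Int.subset | with_reducible apply Int.ltN | with_reducible apply Int.leN | with_reducible_and_instances apply Int.le | with_reducible_and_instances apply Int.lt | with_reducible apply Int.all | with_reducible apply Int.ex | with_reducible apply IntF.fst | with_reducible apply IntF.snd | with_reducible apply IntF.app | with_reducible apply IntF.inl | with_reducible apply IntF.inr | with_reducible_and_instances apply IntF.mul | with_reducible_and_instances apply IntF.inv | with_reducible_and_instances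 apply IntF.add | with_reducible_and_instances apply IntF.sub | with_reducible_and_instances apply IntF.neg | with_reducible_and_instances apply IntF.smul | with_reducible apply Int.fin | with_reducible apply IntF.sep | with_reducible apply IntF.lam | with_reducible apply IntF.insert | with_reducible apply IntF.singleton | with_reducible apply IntF.union | with_reducible apply IntF.iimage | with_reducible apply IntF.ite | with_reducible apply IntF.the | with_reducible apply IntF.irec | with_reducible apply IntF.succ | with_reducible apply IntF.val | with_reducible apply IntF.mk | (with_reducible refine Int.comp ?_ ?_; assumption) | (with_reducible refine Int.comp₂ ?_ ?_ ?_; assumption) | (with_reducible refine Int.comp₃ ?_ ?_ ?_ ?_; assumption) | (with_reducible refine Int.comp₄ ?_ ?_ ?_ ?_ ?_; assumption) | (with_reducible refine IntF.comp ?_ ?_; assumption) | (with_reducible refine IntF.comp₂ ?_ ?_ ?_; assumption) | (with_reducible refine IntF.comp₃ ?_ ?_ ?_ ?_; assumption) | with_reducible apply IntF.pair))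
  have hf : ∀ x y, App (relc N fun (a : α) (k : INat N) => a ∈ s ∧ e a = k) x y ↔
      ∃ a : α, a ∈ s ∧ code a = x ∧ code (e a) = y := by
    intro x y
    rw [app_relc hI]
    constructor
    · rintro ⟨a, k, ⟨h5, rfl⟩, rfl, rfl⟩
      exact ⟨a, h5, rfl, rfl⟩
    · rintro ⟨a, h5, rfl, rfl⟩
      exact ⟨a, e a, ⟨h5, rfl⟩, rfl, rfl⟩
  refine ⟨n.val, relc N fun (a : α) (k : INat N) => a ∈ s ∧ e a = k, natB.2 ⟨n, rfl⟩,
    ⟨⟨fun q hq => ?_, fun x hx => ?_⟩, fun x x' y h5 h6 => ?_⟩, fun y hy => ?_⟩
  · obtain ⟨a, k, ⟨h5, rfl⟩, rfl⟩ := (mem_relc hI).1 hq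
    exact ⟨code a, (e a).val, mem_codeB.2 ⟨a, h5, rfl⟩, h2 a h5, ordPair_iff.2 rfl⟩
  · obtain ⟨a, h5, rfl⟩ := mem_codeB.1 hx
    refine ⟨code (e a), (hf _ _).2 ⟨a, h5, rfl, rfl⟩, fun y hy => ?_⟩
    obtain ⟨b, h6, h7, h8⟩ := (hf _ _).1 hy
    rw [← h8, ITy.inj h7]
  · obtain ⟨a, h7, rfl, h8⟩ := (hf _ _).1 h5
    obtain ⟨b, h9, rfl, h10⟩ := (hf _ _).1 h6
    rw [h3 a b h7 h9 (ITy.inj (h8.trans h10.symm))]
  · replace hy : Mem y n.val := hy
    obtain ⟨m, h5, rfl⟩ := mem_nat hy
    obtain ⟨b, hb, rfl⟩ := h4 m h5
    exact ⟨code b, (hf _ _).2 ⟨b, hb, rfl, rfl⟩⟩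

theorem fin_of_isFinite {s : IPow N α} (h : IsFinite (code (M := N) s)) : IFin s := by
  have h1 : FinP N (fun a : α => a ∈ s) := finP_of_finite (t := code (M := N) s) s.int_mem
    (fun z => mem_codeB) h
  have h2 : sep N (fun a : α => a ∈ s) = s := IPow.ext' fun a => mem_sep s.int_mem
  rw [← h2]
  exact h1.fin s.int_mem

theorem isFinite_iff {s : IPow N α} : IsFinite (code (M := N) s) ↔ IFin s :=
  ⟨fin_of_isFinite, isFinite_of_fin⟩

end

end Pool.Agent.Helper672.ZFA.V246
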