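import Pool.Agent.V11246.NDefs

/-!
# Cohen forcing in a model of ZF: definitions

The language `LSet` of set theory has one binary relation symbol. In a structure `M` for it,
`Mem x y` says that `x` is an element of `y` in the sense of `M`. `Mem`, `LSet` and `IsOrdPair`
are from `Pool.Agent.Helper672.SIK.Plain`, `App`, `IsInj` and `IsOmega` from
`Pool.Agent.H310R3.Cards`, `IsOrdinal` and `IsSuccCard` from `Pool.Agent.V11246.NDefs`, and the
class `ZF` of the models of ZF from `Pool.Agent.H635R2.Statement`.
-/

namespace Pool.Agent.V11246

open FirstOrder FirstOrder.Language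
open Pool.Agent.Helper672.Plain (LSet Mem IsOrdPair)
open Pool.Agent.H310Cards

universe u

variable {M : Type u} [LSet.Structure M]

/-- `v` is `0` (the empty set) or `1` (the set whose only element is the empty set). -/
def IsBit (v : M) : Prop := (∀ z, ¬ Mem z v) ∨ ∀ z, Mem z v ↔ ∀ y, ¬ Mem y z

/-- `a` is a subset of `b`. -/
def Sub (a b : M) : Prop := ∀ z, Mem z a → Mem z b

/-- `p` is a partial function from `l` to `{0, 1}` whose domain `d` has an injection to an
element `a` of `l`. For an infinite cardinal `l` this says that the cardinality of the domain is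
less than `l`. -/
structure IsCond (l p : M) : Prop where
  pairs : ∀ q, Mem q p → ∃ x v, Mem x l ∧ IsBit v ∧ IsOrdPair q x v
  func : ∀ x v v', App p x v → App p x v' → v = v'
  small : ∃ d a f, (∀ x, Mem x d ↔ ∃ v, App p x v) ∧ Mem a l ∧ IsInj f d a

/-- `P` is the set of the conditions of the Cohen forcing `Add(l, 1)`. The order is reverse
inclusion: `q ≤ p` if `Sub p q`. -/
def IsCohen (P l : M) : Prop := ∀ p, Mem p P ↔ IsCond l p

/-- The pair `(q, (x, y))` is an element of `F`: for a generic filter `G` that contains `q`, the
pair `(x, y)` is an element of the set named by `F`, which is the set of the pairs `(x, y)` such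
that `(q, (x, y))` is in `F` for some `q` in `G`. -/
def NameAt (F q x y : M) : Prop := ∃ t, IsOrdPair t x y ∧ App F q t

/-- The condition `p` of the forcing `P` (with the order of reverse inclusion) forces that the
set named by `F` restricts to a surjective function from `b` to `k`. -/
structure ForcesSurj (P p F b k : M) : Prop where
  mem : Mem p P
  func : ∀ r q q' x y y', Mem r P → Sub p r → Mem q P → Sub q r → Mem q' P → Sub q' r →
    Mem x b → Mem y k → Mem y' k → NameAt F q x y → NameAt F q' x y' → y = y'
  total : ∀ x r, Mem x b → Mem r P → Sub p r →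
    ∃ s q y, Mem s P ∧ Sub r s ∧ Mem q P ∧ Sub q s ∧ Mem y k ∧ NameAt F q x y
  onto : ∀ y r, Mem y k → Mem r P → Sub p r →
    ∃ s q x, Mem s P ∧ Sub r s ∧ Mem q P ∧ Sub q s ∧ Mem x b ∧ NameAt F q x y

/-- The forcing `P` collapses the cardinal `k`: some condition forces that some set is a
surjective function from an element `b` of `k` to `k`. -/
def Collapses (P k : M) : Prop := ∃ p b F, Mem b k ∧ ForcesSurj P p F b k

end Pool.Agent.V11246
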