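import Pool.Agent.H310R3.TopDefs
import Pool.Agent.H310R3.MetDefs

/-!
# Loeb spaces and Cantor complete metrics in a structure for the language of set theory
-/

namespace Pool.Agent.V11246

open FirstOrder FirstOrder.Language
open Pool.Agent.Helper672.Plain (LSet Mem El IsOrdPair)
open Pool.Agent.H310Cards
open Pool.Agent.H310Top (IsClosed)
open Pool.Agent.H310Metric (IsMetric)
open Pool.Agent.H635Amen (IsReals)

universe u

variable {M : Type u} [LSet.Structure M]

/-- `y` is a compact subset of the space with the set of points `x` and the set of open sets `t`: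
every family `c` of open sets that covers `y` has a finite subfamily that covers `y`. -/
def IsCompactSub (t x y : M) : Prop :=
  (∀ z, Mem z y → Mem z x) ∧ ∀ c, (∀ u, Mem u c → Mem u t) →
    (∀ z, Mem z y → ∃ u, Mem u c ∧ Mem z u) →
      ∃ c', IsFinite c' ∧ (∀ u, Mem u c' → Mem u c) ∧ ∀ z, Mem z y → ∃ u, Mem u c' ∧ Mem z u

/-- The nonempty sets with the property `P` form a set `k` that has a choice function `f`. -/
def HasChoice (P : M → Prop) : Prop :=
  ∃ k s f, (∀ c, Mem c k ↔ P c ∧ ∃ z, Mem z c) ∧ IsFun f k s ∧ ∀ c y, App f c y → Mem y c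

/-- The space is a Loeb space: the family of its nonempty closed subsets has a choice function. -/
def IsLoeb (t x : M) : Prop := HasChoice fun c => IsClosed t x c

/-- The space is a K-Loeb space: the family of its nonempty compact subsets has a choice
function. -/
def IsKLoeb (t x : M) : Prop := HasChoice fun c => IsCompactSub t x c

/-- `t` is the topology induced by `d` on `x`. -/
def IsMetricTop {x r : M} [Field (El r)] [LinearOrder (El r)] (d : El x → El x → El r) (t : M) :
    Prop :=
  ∀ u, Mem u t ↔ (∀ z, Mem z u → Mem z x) ∧ ∀ a : El x, Mem a.1 u →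
    ∃ ε : El r, 0 < ε ∧ ∀ b : El x, d a b < ε → Mem b.1 u

/-- `d` is Cantor complete: every decreasing sequence `f` of nonempty closed sets (indexed by the
set `w` of the natural numbers, whose order is the membership relation) whose diameters tend to
`0` has a common point. -/
def IsCantorComplete {x r : M} [Field (El r)] [LinearOrder (El r)] (d : El x → El x → El r)
    (t : M) : Prop :=
  ∀ w s f, IsOmega w → IsFun f w s →
    (∀ n u, App f n u → IsClosed t x u ∧ ∃ z, Mem z u) →
    (∀ n m u v, App f n u → App f m v → Mem n m → ∀ z, Mem z v → Mem z u) →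
    (∀ ε : El r, 0 < ε → ∃ n u, App f n u ∧ ∀ a b : El x, Mem a.1 u → Mem b.1 u → d a b < ε) →
      ∃ z, ∀ n u, App f n u → Mem z u

/-- The space is Cantor completely metrizable: its topology is induced by a Cantor complete
metric. -/
def IsCantorCompletelyMetrizable (t x : M) : Prop :=
  ∃ (r : M) (_ : Field (El r)) (_ : LinearOrder (El r)) (_ : IsStrictOrderedRing (El r)),
    IsReals r ∧ ∃ d : El x → El x → El r, IsMetric d ∧ IsMetricTop d t ∧ IsCantorComplete d t

end Pool.Agent.V11246
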