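import Pool.Agent.V11246.CctN
import Pool.Agent.H310R3.Met

/-!
# The metric of a tree of integer sequences
-/

set_option maxHeartbeats 1000000
set_option linter.all false
set_option synthInstance.maxSize 2000

namespace Pool.Agent.Helper672.ZFA.V246C

open FirstOrder FirstOrder.Language
open Pool.Agent.Helper672.ZFA
open Pool.Agent.Helper672.Plain (LSet)
open Pool.Agent.Helper672.ZFA.H635 (toL plainN_ordPair plainN_graph plainN_opGraph)
open Pool.Agent.H635Amen (IsReals)
open Pool.Agent.H310Cards
open Pool.Agent.H310Metric
open Pool.Agent.H310

universe u u₁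

attribute [local instance] toL

variable {N : Type u} [LSet.Structure N] [hM : IsModel N]

noncomputable local instance instPElCc (x : N) : ITy N (Helper672.Plain.El x) :=
  (inferInstance : ITy N (El x))

theorem exists_d {a : N} {D : INat N × (Helper672.Plain.El a × Helper672.Plain.El a) → Prop}
    (h : CT N D) {r : N} [Field (Helper672.Plain.El r)] [LinearOrder (Helper672.Plain.El r)]
    [IsStrictOrderedRing (Helper672.Plain.El r)] (hr : IsReals r) :
    ∃ d : Helper672.Plain.El a → Helper672.Plain.El a → Helper672.Plain.El r,
      IsMetric d ∧ ∃ q : INat N → Helper672.Plain.El r, (∀ n, 0 < q n) ∧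
        (∀ ε, 0 < ε → ∃ n, q n < ε) ∧ (∀ n x y, D (n, (x, y)) → d x y ≤ q n) ∧
        ∀ n x y, d x y < q n → D (n, (x, y)) := by
  obtain ⟨q, hq, hpos, hanti, hlim⟩ := exists_q hr
  have hD := h.int
  have hqi : ∀ m n, q m < q n → n < m := by
    intro m n hmn
    by_contra hc
    rcases (not_lt.1 hc).lt_or_eq with h1 | rfl
    · exact lt_asymm hmn (hanti _ _ h1)
    · exact lt_irrefl _ hmn
  have hle : ∀ m n, m ≤ n → q n ≤ q m := by
    intro m n hmn
    rcases hmn.lt_or_eq with h1 | rfl
    · exact (hanti _ _ h1).le
    · exact le_rfl
  have hR : Int N (fun c : (Helper672.Plain.El a × Helper672.Plain.El a) × Helper672.Plain.El r =>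
      Rd D q 0 c.1.1 c.1.2 c.2) := by
    unfold Rd
    (repeat' (first | with_reducible exact IntF.id | with_reducible exact IntF.fst' | with_reducible exact IntF.snd' | with_reducible exact IntF.const _ | with_reducible exact Int.const _ | assumption | with_reducible apply Int.and | with_reducible apply Int.or | with_reducible apply Int.not | with_reducible apply Int.imp | with_reducible apply Int.iff | with_reducible apply Int.ne | with_reducible apply Int.eq | with_reducible apply Int.mem | with_reducible apply Int.subset | with_reducible apply Int.ltN | with_reducible apply Int.leN | with_reducible_and_instances apply Int.le | with_reducible_and_instances apply Int.lt | with_reducible apply Int.all | with_reducible apply Int.ex | with_reducible apply IntF.fst | with_reducible apply IntF.snd | with_reducible apply IntF.app | with_reducible apply IntF.inl | with_reducible apply IntF.inr | with_reducible_and_instances apply IntF.mul | with_reducible_and_instances apply IntF.inv | with_reducible_and_instances apply IntF.add | with_reducible_and_instances apply IntF.sub | with_reducible_and_instances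 apply IntF.neg | with_reducible_and_instances apply IntF.smul | with_reducible apply Int.fin | with_reducible apply IntF.sep | with_reducible apply IntF.lam | with_reducible apply IntF.insert | with_reducible apply IntF.singleton | with_reducible apply IntF.union | with_reducible apply IntF.iimage | with_reducible apply IntF.ite | with_reducible apply IntF.the | with_reducible apply IntF.irec | with_reducible apply IntF.succ | with_reducible apply IntF.val | with_reducible apply IntF.mk | (with_reducible refine Int.comp ?_ ?_; assumption) | (with_reducible refine Int.comp₂ ?_ ?_ ?_; assumption) | (with_reducible refine Int.comp₃ ?_ ?_ ?_ ?_; assumption) | (with_reducible refine Int.comp₄ ?_ ?_ ?_ ?_ ?_; assumption) | (with_reducible refine IntF.comp ?_ ?_; assumption) | (with_reducible refine IntF.comp₂ ?_ ?_ ?_; assumption) | (with_reducible refine IntF.comp₃ ?_ ?_ ?_ ?_; assumption) | with_reducible apply IntF.pair))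
  have hex : ∀ x y, ∃ z, Rd D q 0 x y z := by
    intro x y
    by_cases hxy : x = y
    · exact ⟨0, Or.inl ⟨hxy, rfl⟩⟩
    · have h1 : ∃ n, ¬ D (n, (x, y)) := by
        by_contra hc
        push Not at hc
        exact hxy (h.sep _ _ hc)
      obtain ⟨n, hn, hmin⟩ := INat.exists_least (p := fun n => ¬ D (n, (x, y))) (by (repeat' (first | with_reducible exact IntF.id | with_reducible exact IntF.fst' | with_reducible exact IntF.snd' | with_reducible exact IntF.const _ | with_reducible exact Int.const _ | assumption | with_reducible apply Int.and | with_reducible apply Int.or | with_reducible apply Int.not | with_reducible apply Int.imp | with_reducible apply Int.iff | with_reducible apply Int.ne | with_reducible apply Int.eq | with_reducible apply Int.mem | with_reducible apply Int.subset | with_reducible apply Int.ltN | with_reducible apply Int.leN | with_reducible_and_instances apply Int.le | with_reducible_and_instances apply Int.lt | with_reducible apply Int.all | with_reducible apply Int.ex | with_reducible apply IntF.fst | with_reducible apply IntF.snd | with_reducible apply IntF.app | with_reducible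 apply IntF.inl | with_reducible apply IntF.inr | with_reducible_and_instances apply IntF.mul | with_reducible_and_instances apply IntF.inv | with_reducible_and_instances apply IntF.add | with_reducible_and_instances apply IntF.sub | with_reducible_and_instances apply IntF.neg | with_reducible_and_instances apply IntF.smul | with_reducible apply Int.fin | with_reducible apply IntF.sep | with_reducible apply IntF.lam | with_reducible apply IntF.insert | with_reducible apply IntF.singleton | with_reducible apply IntF.union | with_reducible apply IntF.iimage | with_reducible apply IntF.ite | with_reducible apply IntF.the | with_reducible apply IntF.irec | with_reducible apply IntF.succ | with_reducible apply IntF.val | with_reducible apply IntF.mk | (with_reducible refine Int.comp ?_ ?_; assumption) | (with_reducible refine Int.comp₂ ?_ ?_ ?_; assumption) | (with_reducible refine Int.comp₃ ?_ ?_ ?_ ?_; assumption) | (with_reducible refine Int.comp₄ ?_ ?_ ?_ ?_ ?_; assumption) | (with_reducible refine IntF.comp ?_ ?_; assumption) | (with_reducible refine IntF.comp₂ ?_ ?_ ?_; assumption) | (with_reducible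 refine IntF.comp₃ ?_ ?_ ?_ ?_; assumption) | with_reducible apply IntF.pair))) h1
      rcases INat.eq_zero_or_succ n with rfl | ⟨m, rfl⟩
      · exact absurd (h.zero _ _) hn
      · refine ⟨q m, Or.inr ⟨m, ?_, hn, rfl⟩⟩
        by_contra hc
        exact absurd (INat.lt_succ_self m) (not_lt.2 (hmin m hc))
  have huniq : ∀ x y z z', Rd D q 0 x y z → Rd D q 0 x y z' → z = z' := by
    rintro x y z z' (⟨rfl, rfl⟩ | ⟨n, h1, h2, rfl⟩) (⟨h3, rfl⟩ | ⟨m, h3, h4, rfl⟩)
    · rfl
    · exact absurd (h.refl _ _) h4
    · rw [h3] at h2
      exact absurd (h.refl _ _) h2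
    · rcases lt_trichotomy n m with h5 | rfl | h5
      · exact absurd (h.le _ _ _ _ (INat.succ_le_iff.2 h5) h3) h2
      · rfl
      · exact absurd (h.le _ _ _ _ (INat.succ_le_iff.2 h5) h1) h4
  choose d hd using hex
  have hd' : ∀ x y z, d x y = z ↔ Rd D q 0 x y z := fun x y z =>
    ⟨fun h => h ▸ hd x y, fun h => huniq _ _ _ _ (hd x y) h⟩
  have hself : ∀ x, d x x = 0 := fun x => (hd' _ _ _).2 (Or.inl ⟨rfl, rfl⟩)
  have hnonneg : ∀ x y, 0 ≤ d x y := by
    intro x y
    rcases hd x y with ⟨-, h1⟩ | ⟨n, -, -, h1⟩
    · exact h1.ge
    · rw [h1]
      exact (hpos n).le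
  have hdle : ∀ n x y, D (n, (x, y)) → d x y ≤ q n := by
    intro n x y hn
    rcases hd x y with ⟨-, h1⟩ | ⟨m, h1, h2, h3⟩
    · rw [h1]
      exact (hpos n).le
    · rw [h3]
      refine hle _ _ ?_
      by_contra hc
      exact h2 (h.le _ _ _ _ (INat.succ_le_iff.2 (not_le.1 hc)) hn)
  have hdlt : ∀ n x y, d x y < q n → D (n.succ, (x, y)) := by
    intro n x y hn
    rcases hd x y with ⟨h0, h1⟩ | ⟨m, h1, h2, h3⟩
    · rw [h0]
      exact h.refl _ _
    · rw [h3] at hn
      exact h.le _ _ _ _ (INat.succ_le_iff.2 (hqi _ _ hn)) h1
  refine ⟨d, ⟨?_, ?_, ?_, ?_⟩, q, hpos, hlim, hdle, fun n x y hn =>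
    h.le _ _ _ _ (INat.le_succ_self n) (hdlt n x y hn)⟩
  · obtain ⟨g, hg⟩ := hR
    refine ⟨g, fun x y z => (hd' x y z).trans ?_⟩
    rw [plainN_opGraph]
    exact (hg ((x, y), z)).symm
  · intro x y
    refine ⟨fun h1 => ?_, fun h1 => h1 ▸ hself x⟩
    rcases hd x y with ⟨h0, -⟩ | ⟨n, -, -, h2⟩
    · exact h0
    · rw [h1] at h2
      exact absurd h2 (hpos n).ne
  · intro x y
    rw [hd']
    rcases hd y x with ⟨h1, h2⟩ | ⟨n, h1, h2, h3⟩
    · exact Or.inl ⟨h1.symm, h2⟩
    · exact Or.inr ⟨n, h.symm _ _ _ h1, fun h4 => h2 (h.symm _ _ _ h4), h3⟩
  · intro x y z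
    rcases hd x z with ⟨-, h1⟩ | ⟨n, h1, h2, h3⟩
    · rw [h1]
      exact add_nonneg (hnonneg _ _) (hnonneg _ _)
    · by_contra hc
      push Not at hc
      rw [h3] at hc
      have h4 : d x y < q n := by
        have := hnonneg y z
        linarith
      have h5 : d y z < q n := by
        have := hnonneg x y
        linarith
      exact h2 (h.trans _ _ _ _ (hdlt _ _ _ h4) (hdlt _ _ _ h5))

end Pool.Agent.Helper672.ZFA.V246C
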