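import Pool.Agent.V11246.Cct

/-!
# A tree of integer sequences: the symmetric extension
-/

set_option maxHeartbeats 1000000
set_option linter.all false
set_option synthInstance.maxSize 2000

namespace Pool.Agent.Helper672.ZFA.V246C

open FirstOrder FirstOrder.Language
open Pool.Agent.Helper672.ZFA
open Pool.Agent.Helper672.ZFA.IZ
open Pool.Agent.Helper672.ZFA.H635 (IPerm NN IsGen CollL)
open Pool.Agent.Helper672.ZFA.H310M
open Pool.Agent.H310

universe u

section

variable {N : Type u} [L.Structure N] [hN : IsModel N] {α : Type u} [ITy N α]

/-- Open sets. -/
def OpE (E : INat N × (α × α) → Prop) (U : IPow N α) : Prop :=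
  ∀ a, a ∈ U → ∃ m, ∀ b, E (m, (a, b)) → b ∈ U

/-- Compact sets. -/
def CoE (E : INat N × (α × α) → Prop) (s : IPow N α) : Prop :=
  ∀ C : IPow N (IPow N α), (∀ U, U ∈ C → OpE E U) → (∀ a, a ∈ s → ∃ U, U ∈ C ∧ a ∈ U) →
    ∃ C' : IPow N (IPow N α), IFin C' ∧ (∀ U, U ∈ C' → U ∈ C) ∧ ∀ a, a ∈ s → ∃ U, U ∈ C' ∧ a ∈ U

/-- The structure of the space. -/
structure CT (N : Type u) [L.Structure N] [IsModel N] {α : Type u} [ITy N α]
    (E : INat N × (α × α) → Prop) : Prop where
  int : Int N E
  refl : ∀ k a, E (k, (a, a))
  symm : ∀ k a b, E (k, (a, b)) → E (k, (b, a))
  trans : ∀ k a b c, E (k, (a, b)) → E (k, (b, c)) → E (k, (a, c))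
  le : ∀ k k' a b, k ≤ k' → E (k', (a, b)) → E (k, (a, b))
  zero : ∀ a b, E (0, (a, b))
  sep : ∀ a b, (∀ k, E (k, (a, b))) → a = b
  reps : ∀ k, ∃ s : IPow N α, IFin s ∧ ∀ a, ∃ b, b ∈ s ∧ E (k, (a, b))
  complete : ∀ K : INat N × α → Prop, Int N K → (∀ k, ∃ a, K (k, a)) →
    (∀ k a b, K (k, a) → K (k, b) → E (k, (a, b))) →
    (∀ k a b, K (k, a) → E (k, (a, b)) → K (k, b)) →
    (∀ k k' a, k ≤ k' → K (k', a) → K (k, a)) → ∃ a, ∀ k, K (k, a)
  fin : ∀ s : IPow N α, CoE E s → IFin s
  lin : ∃ L : α × α → Prop, Int N L ∧ (∀ a, ¬ L (a, a)) ∧
    (∀ a b c, L (a, b) → L (b, c) → L (a, c)) ∧ ∀ a b, a ≠ b → L (a, b) ∨ L (b, a)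
  noch : ∃ A : INat N × (α × α) → Prop, Int N A ∧ (∀ k a, A (k, (a, a))) ∧
    (∀ k a b, ¬ A (k, (a, b)) → ∃ m, ∀ c, E (m, (b, c)) → ¬ A (k, (a, c))) ∧
    ∀ F : INat N × (α × α) → Prop, Int N F → (∀ k a b, F (k, (a, b)) → A (k, (a, b))) →
      (∀ k a a', (∀ c, A (k, (a, c)) ↔ A (k, (a', c))) → ∀ b, F (k, (a, b)) → F (k, (a', b))) →
      (∀ k a, ∃ b, F (k, (a, b))) → (∀ k a b b', F (k, (a, b)) → F (k, (a, b')) → b = b') → False

end

variable {M : Type u} [L.Structure M] [hM : IsModel M]

/-! ### In the ground model -/

theorem exists_far (E : FS M (Xc M)) {x : Xc M} (hx : ¬ x ∈ E.1) :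
    ∃ k, ∀ e, e ∈ E.1 → ¬ Ek k x e := by
  have h1 := int_Ek (M := M)
  have h2 : Int M (fun q : Xc M × INat M => ¬ Ek q.2 x q.1) := by
    refine Int.not ?_
    exact Int.comp (p := fun q : INat M × (Xc M × Xc M) => Ek q.1 q.2.1 q.2.2)
      (f := fun q : Xc M × INat M => (q.2, (x, q.1))) h1 (by (repeat' (first | with_reducible exact IntF.id | with_reducible exact IntF.fst' | with_reducible exact IntF.snd' | with_reducible exact IntF.const _ | with_reducible exact Int.const _ | assumption | with_reducible apply Int.and | with_reducible apply Int.or | with_reducible apply Int.not | with_reducible apply Int.imp | with_reducible apply Int.iff | with_reducible apply Int.ne | with_reducible apply Int.eq | with_reducible apply Int.mem | with_reducible apply Int.subset | with_reducible apply Int.ltN | with_reducible apply Int.leN | with_reducible_and_instances apply Int.le | with_reducible_and_instances apply Int.lt | with_reducible apply Int.all | with_reducible apply Int.ex | with_reducible apply IntF.fst | with_reducible apply IntF.snd | with_reducible apply IntF.app | with_reducible apply IntF.inl | with_reducible apply IntF.inr | with_reducible_and_instances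 apply IntF.mul | with_reducible_and_instances apply IntF.inv | with_reducible_and_instances apply IntF.add | with_reducible_and_instances apply IntF.sub | with_reducible_and_instances apply IntF.neg | with_reducible_and_instances apply IntF.smul | with_reducible apply Int.fin | with_reducible apply IntF.sep | with_reducible apply IntF.lam | with_reducible apply IntF.insert | with_reducible apply IntF.singleton | with_reducible apply IntF.union | with_reducible apply IntF.iimage | with_reducible apply IntF.ite | with_reducible apply IntF.the | with_reducible apply IntF.irec | with_reducible apply IntF.succ | with_reducible apply IntF.val | with_reducible apply IntF.mk | (with_reducible refine Int.comp ?_ ?_; assumption) | (with_reducible refine Int.comp₂ ?_ ?_ ?_; assumption) | (with_reducible refine Int.comp₃ ?_ ?_ ?_ ?_; assumption) | (with_reducible refine Int.comp₄ ?_ ?_ ?_ ?_ ?_; assumption) | (with_reducible refine IntF.comp ?_ ?_; assumption) | (with_reducible refine IntF.comp₂ ?_ ?_ ?_; assumption) | (with_reducible refine IntF.comp₃ ?_ ?_ ?_ ?_; assumption) | with_reducible apply IntF.pair)))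
  refine IFin.exists_bound (r := fun e k => ¬ Ek k x e) h2 ?_ ⟨0⟩ E.2 ?_
  · intro b c
    refine ⟨max b c, fun a h h' => ?_⟩
    rcases h with h | h
    · exact h (h'.le (le_max_left _ _))
    · exact h (h'.le (le_max_right _ _))
  · intro e he
    by_contra hc
    push Not at hc
    exact hx (Ek.sep hc ▸ he)

theorem tr_self_ne (k : INat M) (x : Xc M) : ¬ Ek k.succ x (tr k x 1 x) := by
  intro h
  have h1 := (h k (INat.lt_succ_self k)).neg
  rw [tr_pos (Ek.refl k x)] at h1
  have h2 : Dv k.succ (of (1 : INat M)) := by
    rw [of_one]
    have e : -(x k - (x k + 1)) = (1 : IZ M) := by ring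
    rwa [e] at h1
  have h3 := t3_le_of_dvd (INat.succ_ne_zero 0) h2
  have h4 : k.succ < 1 := lt_of_lt_of_le (lt_t3 k.succ) h3
  rcases INat.lt_succ_iff'.1 (show k.succ < (0 : INat M).succ from h4) with h5 | h5
  · exact INat.not_lt_zero h5
  · exact INat.succ_ne_zero _ h5

theorem exists_out (E : FS M (Xc M)) : ∃ x, ¬ x ∈ E.1 := by
  by_contra hc
  push Not at hc
  obtain ⟨x⟩ : Nonempty (Xc M) := ⟨lam M fun _ => 0⟩
  have h1 : IFin (sep M fun y => y ∈ E.1 ∧ y ≠ x) := E.2.subset fun y hy =>
    ((mem_sep (by (repeat' (first | with_reducible exact IntF.id | with_reducible exact IntF.fst' | with_reducible exact IntF.snd' | with_reducible exact IntF.const _ | with_reducible exact Int.const _ | assumption | with_reducible apply Int.and | with_reducible apply Int.or | with_reducible apply Int.not | with_reducible apply Int.imp | with_reducible apply Int.iff | with_reducible apply Int.ne | with_reducible apply Int.eq | with_reducible apply Int.mem | with_reducible apply Int.subset | with_reducible apply Int.ltN | with_reducible apply Int.leN | with_reducible_and_instances apply Int.le | with_reducible_and_instances apply Int.lt | with_reducible apply Int.all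 | with_reducible apply Int.ex | with_reducible apply IntF.fst | with_reducible apply IntF.snd | with_reducible apply IntF.app | with_reducible apply IntF.inl | with_reducible apply IntF.inr | with_reducible_and_instances apply IntF.mul | with_reducible_and_instances apply IntF.inv | with_reducible_and_instances apply IntF.add | with_reducible_and_instances apply IntF.sub | with_reducible_and_instances apply IntF.neg | with_reducible_and_instances apply IntF.smul | with_reducible apply Int.fin | with_reducible apply IntF.sep | with_reducible apply IntF.lam | with_reducible apply IntF.insert | with_reducible apply IntF.singleton | with_reducible apply IntF.union | with_reducible apply IntF.iimage | with_reducible apply IntF.ite | with_reducible apply IntF.the | with_reducible apply IntF.irec | with_reducible apply IntF.succ | with_reducible apply IntF.val | with_reducible apply IntF.mk | (with_reducible refine Int.comp ?_ ?_; assumption) | (with_reducible refine Int.comp₂ ?_ ?_ ?_; assumption) | (with_reducible refine Int.comp₃ ?_ ?_ ?_ ?_; assumption) | (with_reducible refine Int.comp₄ ?_ ?_ ?_ ?_ ?_; assumption) | (with_reducible refine IntF.comp ?_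 ?_; assumption) | (with_reducible refine IntF.comp₂ ?_ ?_ ?_; assumption) | (with_reducible refine IntF.comp₃ ?_ ?_ ?_ ?_; assumption) | with_reducible apply IntF.pair)))).1 hy).1
  obtain ⟨k, hk⟩ := exists_far (⟨_, h1⟩ : FS M (Xc M)) (x := x) fun h =>
    ((mem_sep (by (repeat' (first | with_reducible exact IntF.id | with_reducible exact IntF.fst' | with_reducible exact IntF.snd' | with_reducible exact IntF.const _ | with_reducible exact Int.const _ | assumption | with_reducible apply Int.and | with_reducible apply Int.or | with_reducible apply Int.not | with_reducible apply Int.imp | with_reducible apply Int.iff | with_reducible apply Int.ne | with_reducible apply Int.eq | with_reducible apply Int.mem | with_reducible apply Int.subset | with_reducible apply Int.ltN | with_reducible apply Int.leN | with_reducible_and_instances apply Int.le | with_reducible_and_instances apply Int.lt | with_reducible apply Int.all | with_reducible apply Int.ex | with_reducible apply IntF.fst | with_reducible apply IntF.snd | with_reducible apply IntF.app | with_reducible apply IntF.inl | with_reducible apply IntF.inr | with_reducible_and_instances apply IntF.mul | with_reducible_and_instances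 apply IntF.inv | with_reducible_and_instances apply IntF.add | with_reducible_and_instances apply IntF.sub | with_reducible_and_instances apply IntF.neg | with_reducible_and_instances apply IntF.smul | with_reducible apply Int.fin | with_reducible apply IntF.sep | with_reducible apply IntF.lam | with_reducible apply IntF.insert | with_reducible apply IntF.singleton | with_reducible apply IntF.union | with_reducible apply IntF.iimage | with_reducible apply IntF.ite | with_reducible apply IntF.the | with_reducible apply IntF.irec | with_reducible apply IntF.succ | with_reducible apply IntF.val | with_reducible apply IntF.mk | (with_reducible refine Int.comp ?_ ?_; assumption) | (with_reducible refine Int.comp₂ ?_ ?_ ?_; assumption) | (with_reducible refine Int.comp₃ ?_ ?_ ?_ ?_; assumption) | (with_reducible refine Int.comp₄ ?_ ?_ ?_ ?_ ?_; assumption) | (with_reducible refine IntF.comp ?_ ?_; assumption) | (with_reducible refine IntF.comp₂ ?_ ?_ ?_; assumption) | (with_reducible refine IntF.comp₃ ?_ ?_ ?_ ?_; assumption) | with_reducible apply IntF.pair)))).1 h).2 rfl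
  refine hk (tr k x 1 x) ((mem_sep (by (repeat' (first | with_reducible exact IntF.id | with_reducible exact IntF.fst' | with_reducible exact IntF.snd' | with_reducible exact IntF.const _ | with_reducible exact Int.const _ | assumption | with_reducible apply Int.and | with_reducible apply Int.or | with_reducible apply Int.not | with_reducible apply Int.imp | with_reducible apply Int.iff | with_reducible apply Int.ne | with_reducible apply Int.eq | with_reducible apply Int.mem | with_reducible apply Int.subset | with_reducible apply Int.ltN | with_reducible apply Int.leN | with_reducible_and_instances apply Int.le | with_reducible_and_instances apply Int.lt | with_reducible apply Int.all | with_reducible apply Int.ex | with_reducible apply IntF.fst | with_reducible apply IntF.snd | with_reducible apply IntF.app | with_reducible apply IntF.inl | with_reducible apply IntF.inr | with_reducible_and_instances apply IntF.mul | with_reducible_and_instances apply IntF.inv | with_reducible_and_instances apply IntF.add | with_reducible_and_instances apply IntF.sub | with_reducible_and_instances apply IntF.neg | with_reducible_and_instances apply IntF.smul | with_reducible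 apply Int.fin | with_reducible apply IntF.sep | with_reducible apply IntF.lam | with_reducible apply IntF.insert | with_reducible apply IntF.singleton | with_reducible apply IntF.union | with_reducible apply IntF.iimage | with_reducible apply IntF.ite | with_reducible apply IntF.the | with_reducible apply IntF.irec | with_reducible apply IntF.succ | with_reducible apply IntF.val | with_reducible apply IntF.mk | (with_reducible refine Int.comp ?_ ?_; assumption) | (with_reducible refine Int.comp₂ ?_ ?_ ?_; assumption) | (with_reducible refine Int.comp₃ ?_ ?_ ?_ ?_; assumption) | (with_reducible refine Int.comp₄ ?_ ?_ ?_ ?_ ?_; assumption) | (with_reducible refine IntF.comp ?_ ?_; assumption) | (with_reducible refine IntF.comp₂ ?_ ?_ ?_; assumption) | (with_reducible refine IntF.comp₃ ?_ ?_ ?_ ?_; assumption) | with_reducible apply IntF.pair)))).2 ⟨hc _, fun e => ?_⟩) (Ek_tr.2 (Ek.refl k x))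
  have h2 := tr_self_ne k x
  rw [e] at h2
  exact h2 (Ek.refl _ _)

theorem tr_fix {E : FS M (Xc M)} {k : INat M} {x : Xc M} (h : ∀ e, e ∈ E.1 → ¬ Ek k x e) (c : IZ M)
    {g : IPerm M (Xc M)} (hg : ∀ y, g.1.1 y = tr k x c y) (e : Xc M) (he : e ∈ E.1) :
    g.1.1 e = e := by
  rw [hg, tr_neg (h e he)]

/-! ### In the extension -/

variable {G : Set (Co M (Xc M))} (hG : IsGen M G) (hC : CollL M)

/-- Homogeneity. -/
theorem exists_hom₂ {X : Type u} [ITy M X] {Z : PGr M X} {G : Set (Co M X)} (hG : IsGen M G)
    (hC : CollL M) {W : INat (NN (SS Z) hG) × (El (AA Z hG) × El (AA Z hG)) → Prop}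
    (hW : Int (NN (SS Z) hG) W) :
    ∃ E : FS M X, ∀ g ∈ Z.H, (∀ x, x ∈ E.1 → g.1.1 x = x) → ∀ n x y,
      W (nnN Z hG hC n, (cA Z hG x, cA Z hG y)) →
        W (nnN Z hG hC n, (cA Z hG (g.1.1 x), cA Z hG (g.1.1 y))) := by
  obtain ⟨z, hz⟩ := hW
  obtain ⟨E, hE⟩ := support hG z
  have h1 : EF Z hG (fun (g : IPerm M X) (q : INat M × (X × X)) => (q.1, (g.1.1 q.2.1, g.1.1 q.2.2)))
      (fun q => op (nn Z hG q.1) (op (cc Z hG q.2.1) (cc Z hG q.2.2))) := by
    refine EF.op hG (fun g b => ?_) ?_ (EF.op hG (fun g b => ?_) ?_ ?_)
    · exact Prod.ext rfl (Prod.ext (g.2.2 _) (g.2.2 _))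
    · exact EF.comp hG (ef_nn hG) (φ := fun q : INat M × (X × X) => q.1) (by (repeat' (first | with_reducible exact IntF.id | with_reducible exact IntF.fst' | with_reducible exact IntF.snd' | with_reducible exact IntF.const _ | with_reducible exact Int.const _ | assumption | with_reducible apply Int.and | with_reducible apply Int.or | with_reducible apply Int.not | with_reducible apply Int.imp | with_reducible apply Int.iff | with_reducible apply Int.ne | with_reducible apply Int.eq | with_reducible apply Int.mem | with_reducible apply Int.subset | with_reducible apply Int.ltN | with_reducible apply Int.leN | with_reducible_and_instances apply Int.le | with_reducible_and_instances apply Int.lt | with_reducible apply Int.all | with_reducible apply Int.ex | with_reducible apply IntF.fst | with_reducible apply IntF.snd | with_reducible apply IntF.app | with_reducible apply IntF.inl | with_reducible apply IntF.inr | with_reducible_and_instances apply IntF.mul | with_reducible_and_instances apply IntF.inv | with_reducible_and_instances apply IntF.add | with_reducible_and_instances apply IntF.sub | with_reducible_and_instances apply IntF.neg | with_reducible_and_instances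 apply IntF.smul | with_reducible apply Int.fin | with_reducible apply IntF.sep | with_reducible apply IntF.lam | with_reducible apply IntF.insert | with_reducible apply IntF.singleton | with_reducible apply IntF.union | with_reducible apply IntF.iimage | with_reducible apply IntF.ite | with_reducible apply IntF.the | with_reducible apply IntF.irec | with_reducible apply IntF.succ | with_reducible apply IntF.val | with_reducible apply IntF.mk | (with_reducible refine Int.comp ?_ ?_; assumption) | (with_reducible refine Int.comp₂ ?_ ?_ ?_; assumption) | (with_reducible refine Int.comp₃ ?_ ?_ ?_ ?_; assumption) | (with_reducible refine Int.comp₄ ?_ ?_ ?_ ?_ ?_; assumption) | (with_reducible refine IntF.comp ?_ ?_; assumption) | (with_reducible refine IntF.comp₂ ?_ ?_ ?_; assumption) | (with_reducible refine IntF.comp₃ ?_ ?_ ?_ ?_; assumption) | with_reducible apply IntF.pair))) fun _ _ => rfl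
    · exact Prod.ext rfl (Prod.ext (g.2.2 _) (g.2.2 _))
    · exact EF.comp hG (ef_cc hG) (φ := fun q : INat M × (X × X) => q.2.1) (by (repeat' (first | with_reducible exact IntF.id | with_reducible exact IntF.fst' | with_reducible exact IntF.snd' | with_reducible exact IntF.const _ | with_reducible exact Int.const _ | assumption | with_reducible apply Int.and | with_reducible apply Int.or | with_reducible apply Int.not | with_reducible apply Int.imp | with_reducible apply Int.iff | with_reducible apply Int.ne | with_reducible apply Int.eq | with_reducible apply Int.mem | with_reducible apply Int.subset | with_reducible apply Int.ltN | with_reducible apply Int.leN | with_reducible_and_instances apply Int.le | with_reducible_and_instances apply Int.lt | with_reducible apply Int.all | with_reducible apply Int.ex | with_reducible apply IntF.fst | with_reducible apply IntF.snd | with_reducible apply IntF.app | with_reducible apply IntF.inl | with_reducible apply IntF.inr | with_reducible_and_instances apply IntF.mul | with_reducible_and_instances apply IntF.inv | with_reducible_and_instances apply IntF.add | with_reducible_and_instances apply IntF.sub |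 with_reducible_and_instances apply IntF.neg | with_reducible_and_instances apply IntF.smul | with_reducible apply Int.fin | with_reducible apply IntF.sep | with_reducible apply IntF.lam | with_reducible apply IntF.insert | with_reducible apply IntF.singleton | with_reducible apply IntF.union | with_reducible apply IntF.iimage | with_reducible apply IntF.ite | with_reducible apply IntF.the | with_reducible apply IntF.irec | with_reducible apply IntF.succ | with_reducible apply IntF.val | with_reducible apply IntF.mk | (with_reducible refine Int.comp ?_ ?_; assumption) | (with_reducible refine Int.comp₂ ?_ ?_ ?_; assumption) | (with_reducible refine Int.comp₃ ?_ ?_ ?_ ?_; assumption) | (with_reducible refine Int.comp₄ ?_ ?_ ?_ ?_ ?_; assumption) | (with_reducible refine IntF.comp ?_ ?_; assumption) | (with_reducible refine IntF.comp₂ ?_ ?_ ?_; assumption) | (with_reducible refine IntF.comp₃ ?_ ?_ ?_ ?_; assumption) | with_reducible apply IntF.pair))) fun _ _ => rfl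
    · exact EF.comp hG (ef_cc hG) (φ := fun q : INat M × (X × X) => q.2.2) (by (repeat' (first | with_reducible exact IntF.id | with_reducible exact IntF.fst' | with_reducible exact IntF.snd' | with_reducible exact IntF.const _ | with_reducible exact Int.const _ | assumption | with_reducible apply Int.and | with_reducible apply Int.or | with_reducible apply Int.not | with_reducible apply Int.imp | with_reducible apply Int.iff | with_reducible apply Int.ne | with_reducible apply Int.eq | with_reducible apply Int.mem | with_reducible apply Int.subset | with_reducible apply Int.ltN | with_reducible apply Int.leN | with_reducible_and_instances apply Int.le | with_reducible_and_instances apply Int.lt | with_reducible apply Int.all | with_reducible apply Int.ex | with_reducible apply IntF.fst | with_reducible apply IntF.snd | with_reducible apply IntF.app | with_reducible apply IntF.inl | with_reducible apply IntF.inr | with_reducible_and_instances apply IntF.mul | with_reducible_and_instances apply IntF.inv | with_reducible_and_instances apply IntF.add | with_reducible_and_instances apply IntF.sub | with_reducible_and_instances apply IntF.neg | with_reducible_and_instances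 apply IntF.smul | with_reducible apply Int.fin | with_reducible apply IntF.sep | with_reducible apply IntF.lam | with_reducible apply IntF.insert | with_reducible apply IntF.singleton | with_reducible apply IntF.union | with_reducible apply IntF.iimage | with_reducible apply IntF.ite | with_reducible apply IntF.the | with_reducible apply IntF.irec | with_reducible apply IntF.succ | with_reducible apply IntF.val | with_reducible apply IntF.mk | (with_reducible refine Int.comp ?_ ?_; assumption) | (with_reducible refine Int.comp₂ ?_ ?_ ?_; assumption) | (with_reducible refine Int.comp₃ ?_ ?_ ?_ ?_; assumption) | (with_reducible refine Int.comp₄ ?_ ?_ ?_ ?_ ?_; assumption) | (with_reducible refine IntF.comp ?_ ?_; assumption) | (with_reducible refine IntF.comp₂ ?_ ?_ ?_; assumption) | (with_reducible refine IntF.comp₃ ?_ ?_ ?_ ?_; assumption) | with_reducible apply IntF.pair))) fun _ _ => rfl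
  refine ⟨E, fun g hg hgE n x y h => ?_⟩
  exact (hz _).1 (hE _ _ _ _ h1 g hg hgE (n, (x, y)) ((hz _).2 h))

/-- Homogeneity. -/
theorem exists_hom₁ {X : Type u} [ITy M X] {Z : PGr M X} {G : Set (Co M X)} (hG : IsGen M G)
    (hC : CollL M) {W : INat (NN (SS Z) hG) × El (AA Z hG) → Prop}
    (hW : Int (NN (SS Z) hG) W) :
    ∃ E : FS M X, ∀ g ∈ Z.H, (∀ x, x ∈ E.1 → g.1.1 x = x) → ∀ n x,
      W (nnN Z hG hC n, cA Z hG x) → W (nnN Z hG hC n, cA Z hG (g.1.1 x)) := by
  obtain ⟨E, hE⟩ := exists_hom₂ hG hC (Z := Z) (W := fun q => W (q.1, q.2.1))
    (Int.comp (p := W) (f := fun q : INat (NN (SS Z) hG) × (El (AA Z hG) × El (AA Z hG)) =>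
      (q.1, q.2.1)) hW (by (repeat' (first | with_reducible exact IntF.id | with_reducible exact IntF.fst' | with_reducible exact IntF.snd' | with_reducible exact IntF.const _ | with_reducible exact Int.const _ | assumption | with_reducible apply Int.and | with_reducible apply Int.or | with_reducible apply Int.not | with_reducible apply Int.imp | with_reducible apply Int.iff | with_reducible apply Int.ne | with_reducible apply Int.eq | with_reducible apply Int.mem | with_reducible apply Int.subset | with_reducible apply Int.ltN | with_reducible apply Int.leN | with_reducible_and_instances apply Int.le | with_reducible_and_instances apply Int.lt | with_reducible apply Int.all | with_reducible apply Int.ex | with_reducible apply IntF.fst | with_reducible apply IntF.snd | with_reducible apply IntF.app | with_reducible apply IntF.inl | with_reducible apply IntF.inr | with_reducible_and_instances apply IntF.mul | with_reducible_and_instances apply IntF.inv | with_reducible_and_instances apply IntF.add | with_reducible_and_instances apply IntF.sub | with_reducible_and_instances apply IntF.neg | with_reducible_and_instances apply IntF.smul | with_reducible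 apply Int.fin | with_reducible apply IntF.sep | with_reducible apply IntF.lam | with_reducible apply IntF.insert | with_reducible apply IntF.singleton | with_reducible apply IntF.union | with_reducible apply IntF.iimage | with_reducible apply IntF.ite | with_reducible apply IntF.the | with_reducible apply IntF.irec | with_reducible apply IntF.succ | with_reducible apply IntF.val | with_reducible apply IntF.mk | (with_reducible refine Int.comp ?_ ?_; assumption) | (with_reducible refine Int.comp₂ ?_ ?_ ?_; assumption) | (with_reducible refine Int.comp₃ ?_ ?_ ?_ ?_; assumption) | (with_reducible refine Int.comp₄ ?_ ?_ ?_ ?_ ?_; assumption) | (with_reducible refine IntF.comp ?_ ?_; assumption) | (with_reducible refine IntF.comp₂ ?_ ?_ ?_; assumption) | (with_reducible refine IntF.comp₃ ?_ ?_ ?_ ?_; assumption) | with_reducible apply IntF.pair))))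
  exact ⟨E, fun g hg hgE n x h => hE g hg hgE n x x h⟩

include hC in
theorem exists_CT : ∃ E : INat (NN (SS (ZC M)) hG) × (El (AA (ZC M) hG) × El (AA (ZC M) hG)) → Prop,
    CT (NN (SS (ZC M)) hG) E := by
  obtain ⟨E, hE, hE'⟩ := exists_rel (Z := ZC M) hG hC (R := fun q => Ek q.1 q.2.1 q.2.2)
    int_Ek fun g hg n x y h => ((mem_HC hg).1 n x y).2 h
  refine ⟨E, hE, ?_, ?_, ?_, ?_, ?_, ?_, ?_, ?_, ?_, ?_, ?_⟩
  · intro k a
    obtain ⟨k, rfl⟩ := nnN_surj hG hC k
    obtain ⟨x, rfl⟩ := cA_surj hG a
    exact (hE' _ _ _).2 (Ek.refl _ _)
  · intro k a b h
    obtain ⟨k, rfl⟩ := nnN_surj hG hC k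
    obtain ⟨x, rfl⟩ := cA_surj hG a
    obtain ⟨y, rfl⟩ := cA_surj hG b
    exact (hE' _ _ _).2 ((hE' _ _ _).1 h).symm
  · intro k a b c h h'
    obtain ⟨k, rfl⟩ := nnN_surj hG hC k
    obtain ⟨x, rfl⟩ := cA_surj hG a
    obtain ⟨y, rfl⟩ := cA_surj hG b
    obtain ⟨z, rfl⟩ := cA_surj hG c
    exact (hE' _ _ _).2 (((hE' _ _ _).1 h).trans ((hE' _ _ _).1 h'))
  · intro k k' a b hk h
    obtain ⟨k, rfl⟩ := nnN_surj hG hC k
    obtain ⟨k', rfl⟩ := nnN_surj hG hC k'
    obtain ⟨x, rfl⟩ := cA_surj hG a
    obtain ⟨y, rfl⟩ := cA_surj hG b
    refine (hE' _ _ _).2 (((hE' _ _ _).1 h).le ?_)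
    by_contra hc
    exact absurd ((nnN_lt hG hC).2 (not_le.1 hc)) (not_lt.2 hk)
  · intro a b
    obtain ⟨x, rfl⟩ := cA_surj hG a
    obtain ⟨y, rfl⟩ := cA_surj hG b
    rw [← nnN_zero hG hC]
    exact (hE' _ _ _).2 (Ek.zero _ _)
  · intro a b h
    obtain ⟨x, rfl⟩ := cA_surj hG a
    obtain ⟨y, rfl⟩ := cA_surj hG b
    exact congrArg _ (Ek.sep fun k => (hE' _ _ _).1 (h _))
  · intro k
    obtain ⟨k, rfl⟩ := nnN_surj hG hC k
    obtain ⟨F, hF, h1⟩ := exists_reps k
    obtain ⟨s, hs, h2⟩ := exists_fin (Z := ZC M) hG hC ⟨F, hF⟩
    refine ⟨s, hs, fun a => ?_⟩
    obtain ⟨x, rfl⟩ := cA_surj hG a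
    obtain ⟨y, hy, h3⟩ := h1 x
    exact ⟨_, (h2 y).2 hy, (hE' _ _ _).2 h3⟩
  · intro K hK hne hcl hcl' hmono
    obtain ⟨E₀, hE₀⟩ := exists_hom₁ hG hC hK
    by_contra hc
    push Not at hc
    obtain ⟨t, ht, ht'⟩ := exists_fin (Z := ZC M) hG hC E₀
    obtain ⟨k₀, hk₀⟩ := IFin.exists_bound (r := fun a k => ¬ K (k, a))
      (by
        refine Int.not ?_
        exact Int.comp (p := K) (f := fun q : El (AA (ZC M) hG) × INat (NN (SS (ZC M)) hG) =>
          (q.2, q.1)) hK (by (repeat' (first | with_reducible exact IntF.id | with_reducible exact IntF.fst' | with_reducible exact IntF.snd' | with_reducible exact IntF.const _ | with_reducible exact Int.const _ | assumption | with_reducible apply Int.and | with_reducible apply Int.or | with_reducible apply Int.not | with_reducible apply Int.imp | with_reducible apply Int.iff | with_reducible apply Int.ne | with_reducible apply Int.eq | with_reducible apply Int.mem | with_reducible apply Int.subset | with_reducible apply Int.ltN | with_reducible apply Int.leN | with_reducible_and_instances apply Int.le | with_reducible_and_instances apply Int.lt | with_reducible apply Int.all | with_reducible apply Int.ex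 | with_reducible apply IntF.fst | with_reducible apply IntF.snd | with_reducible apply IntF.app | with_reducible apply IntF.inl | with_reducible apply IntF.inr | with_reducible_and_instances apply IntF.mul | with_reducible_and_instances apply IntF.inv | with_reducible_and_instances apply IntF.add | with_reducible_and_instances apply IntF.sub | with_reducible_and_instances apply IntF.neg | with_reducible_and_instances apply IntF.smul | with_reducible apply Int.fin | with_reducible apply IntF.sep | with_reducible apply IntF.lam | with_reducible apply IntF.insert | with_reducible apply IntF.singleton | with_reducible apply IntF.union | with_reducible apply IntF.iimage | with_reducible apply IntF.ite | with_reducible apply IntF.the | with_reducible apply IntF.irec | with_reducible apply IntF.succ | with_reducible apply IntF.val | with_reducible apply IntF.mk | (with_reducible refine Int.comp ?_ ?_; assumption) | (with_reducible refine Int.comp₂ ?_ ?_ ?_; assumption) | (with_reducible refine Int.comp₃ ?_ ?_ ?_ ?_; assumption) | (with_reducible refine Int.comp₄ ?_ ?_ ?_ ?_ ?_; assumption) | (with_reducible refine IntF.comp ?_ ?_; assumption) | (with_reducible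 refine IntF.comp₂ ?_ ?_ ?_; assumption) | (with_reducible refine IntF.comp₃ ?_ ?_ ?_ ?_; assumption) | with_reducible apply IntF.pair))))
      (fun b c => ⟨max b c, fun a h h' => by
        rcases h with h | h
        · exact h (hmono _ _ _ (le_max_left _ _) h')
        · exact h (hmono _ _ _ (le_max_right _ _) h')⟩) ⟨0⟩ ht fun a _ => hc a
    obtain ⟨k, rfl⟩ := nnN_surj hG hC k₀
    obtain ⟨a, ha⟩ := hne (nnN (ZC M) hG hC k.succ)
    obtain ⟨x, rfl⟩ := cA_surj hG a
    have hlek : nnN (ZC M) hG hC k ≤ nnN (ZC M) hG hC k.succ := by
      rw [nnN_succ hG hC]
      exact INat.le_succ_self _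
    have hx : K (nnN (ZC M) hG hC k, cA (ZC M) hG x) := hmono _ _ _ hlek ha
    have hfar : ∀ e, e ∈ E₀.1 → ¬ Ek k x e := fun e he h =>
      hk₀ _ ((ht' e).2 he) (hcl' _ _ _ hx ((hE' _ _ _).2 h))
    obtain ⟨g, hg, hg'⟩ := exists_tr k x 1
    have h1 := hE₀ g hg (tr_fix hfar 1 hg') _ _ ha
    rw [hg'] at h1
    exact tr_self_ne k x ((hE' _ _ _).1 (hcl _ _ _ ha h1))
  · intro s hs
    obtain ⟨E₀, hE₀⟩ := exists_hom₁ hG hC (Z := ZC M)
      (W := fun q : INat (NN (SS (ZC M)) hG) × El (AA (ZC M) hG) => q.2 ∈ s) (by (repeat' (first | with_reducible exact IntF.id | with_reducible exact IntF.fst' | with_reducible exact IntF.snd' | with_reducible exact IntF.const _ | with_reducible exact Int.const _ | assumption | with_reducible apply Int.and | with_reducible apply Int.or | with_reducible apply Int.not | with_reducible apply Int.imp | with_reducible apply Int.iff | with_reducible apply Int.ne | with_reducible apply Int.eq | with_reducible apply Int.mem | with_reducible apply Int.subset | with_reducible apply Int.ltN | with_reducible apply Int.leN | with_reducible_and_instances apply Int.le | with_reducible_and_instances apply Int.lt | with_reducible apply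 Int.all | with_reducible apply Int.ex | with_reducible apply IntF.fst | with_reducible apply IntF.snd | with_reducible apply IntF.app | with_reducible apply IntF.inl | with_reducible apply IntF.inr | with_reducible_and_instances apply IntF.mul | with_reducible_and_instances apply IntF.inv | with_reducible_and_instances apply IntF.add | with_reducible_and_instances apply IntF.sub | with_reducible_and_instances apply IntF.neg | with_reducible_and_instances apply IntF.smul | with_reducible apply Int.fin | with_reducible apply IntF.sep | with_reducible apply IntF.lam | with_reducible apply IntF.insert | with_reducible apply IntF.singleton | with_reducible apply IntF.union | with_reducible apply IntF.iimage | with_reducible apply IntF.ite | with_reducible apply IntF.the | with_reducible apply IntF.irec | with_reducible apply IntF.succ | with_reducible apply IntF.val | with_reducible apply IntF.mk | (with_reducible refine Int.comp ?_ ?_; assumption) | (with_reducible refine Int.comp₂ ?_ ?_ ?_; assumption) | (with_reducible refine Int.comp₃ ?_ ?_ ?_ ?_; assumption) | (with_reducible refine Int.comp₄ ?_ ?_ ?_ ?_ ?_; assumption) | (with_reducible refine IntF.comp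 ?_ ?_; assumption) | (with_reducible refine IntF.comp₂ ?_ ?_ ?_; assumption) | (with_reducible refine IntF.comp₃ ?_ ?_ ?_ ?_; assumption) | with_reducible apply IntF.pair)))
    by_contra hinf
    obtain ⟨x, hxs, hxE⟩ : ∃ x, cA (ZC M) hG x ∈ s ∧ ¬ x ∈ E₀.1 := by
      by_contra hc
      push Not at hc
      obtain ⟨t, ht, ht'⟩ := exists_fin (Z := ZC M) hG hC E₀
      refine hinf (ht.subset fun a ha => ?_)
      obtain ⟨x, rfl⟩ := cA_surj hG a
      exact (ht' x).2 (hc x ha)
    obtain ⟨k, hk⟩ := exists_far E₀ hxE
    have hmem : ∀ c : IZ M, cA (ZC M) hG (tr k x c x) ∈ s := by
      intro c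
      obtain ⟨g, hg, hg'⟩ := exists_tr k x c
      have h1 := hE₀ g hg (tr_fix hk c hg') 0 x hxs
      rwa [hg'] at h1
    have hDk := int_Dk (M := M)
    have hDv := int_Dv (M := M)
    have hRi : Int M (fun q : INat M × (Xc M × Xc M) => ∃ z, Dk k z q.2.2 q.2.1 ∧
        Dv q.1 (z + z + 1)) := by
      refine Int.ex (Int.and ?_ ?_)
      · exact Int.comp (p := fun q : (INat M × IZ M) × (Xc M × Xc M) =>
          Dk q.1.1 q.1.2 q.2.1 q.2.2) (f := fun q : (INat M × (Xc M × Xc M)) × IZ M =>
            ((k, q.2), (q.1.2.2, q.1.2.1))) hDk (by (repeat' (first | with_reducible exact IntF.id | with_reducible exact IntF.fst' | with_reducible exact IntF.snd' | with_reducible exact IntF.const _ | with_reducible exact Int.const _ | assumption | with_reducible apply Int.and | with_reducible apply Int.or | with_reducible apply Int.not | with_reducible apply Int.imp | with_reducible apply Int.iff | with_reducible apply Int.ne | with_reducible apply Int.eq | with_reducible apply Int.mem | with_reducible apply Int.subset | with_reducible apply Int.ltN | with_reducible apply Int.leN | with_reducible_and_instances apply Int.le | with_reducible_and_instances apply Int.lt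 | with_reducible apply Int.all | with_reducible apply Int.ex | with_reducible apply IntF.fst | with_reducible apply IntF.snd | with_reducible apply IntF.app | with_reducible apply IntF.inl | with_reducible apply IntF.inr | with_reducible_and_instances apply IntF.mul | with_reducible_and_instances apply IntF.inv | with_reducible_and_instances apply IntF.add | with_reducible_and_instances apply IntF.sub | with_reducible_and_instances apply IntF.neg | with_reducible_and_instances apply IntF.smul | with_reducible apply Int.fin | with_reducible apply IntF.sep | with_reducible apply IntF.lam | with_reducible apply IntF.insert | with_reducible apply IntF.singleton | with_reducible apply IntF.union | with_reducible apply IntF.iimage | with_reducible apply IntF.ite | with_reducible apply IntF.the | with_reducible apply IntF.irec | with_reducible apply IntF.succ | with_reducible apply IntF.val | with_reducible apply IntF.mk | (with_reducible refine Int.comp ?_ ?_; assumption) | (with_reducible refine Int.comp₂ ?_ ?_ ?_; assumption) | (with_reducible refine Int.comp₃ ?_ ?_ ?_ ?_; assumption) | (with_reducible refine Int.comp₄ ?_ ?_ ?_ ?_ ?_; assumption) | (with_reducible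 refine IntF.comp ?_ ?_; assumption) | (with_reducible refine IntF.comp₂ ?_ ?_ ?_; assumption) | (with_reducible refine IntF.comp₃ ?_ ?_ ?_ ?_; assumption) | with_reducible apply IntF.pair)))
      · exact Int.comp (p := fun q : INat M × IZ M => Dv q.1 q.2)
          (f := fun q : (INat M × (Xc M × Xc M)) × IZ M => (q.1.1, q.2 + q.2 + 1)) hDv (by (repeat' (first | with_reducible exact IntF.id | with_reducible exact IntF.fst' | with_reducible exact IntF.snd' | with_reducible exact IntF.const _ | with_reducible exact Int.const _ | assumption | with_reducible apply Int.and | with_reducible apply Int.or | with_reducible apply Int.not | with_reducible apply Int.imp | with_reducible apply Int.iff | with_reducible apply Int.ne | with_reducible apply Int.eq | with_reducible apply Int.mem | with_reducible apply Int.subset | with_reducible apply Int.ltN | with_reducible apply Int.leN | with_reducible_and_instances apply Int.le | with_reducible_and_instances apply Int.lt | with_reducible apply Int.all | with_reducible apply Int.ex | with_reducible apply IntF.fst | with_reducible apply IntF.snd | with_reducible apply IntF.app | with_reducible apply IntF.inl | with_reducible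 apply IntF.inr | with_reducible_and_instances apply IntF.mul | with_reducible_and_instances apply IntF.inv | with_reducible_and_instances apply IntF.add | with_reducible_and_instances apply IntF.sub | with_reducible_and_instances apply IntF.neg | with_reducible_and_instances apply IntF.smul | with_reducible apply Int.fin | with_reducible apply IntF.sep | with_reducible apply IntF.lam | with_reducible apply IntF.insert | with_reducible apply IntF.singleton | with_reducible apply IntF.union | with_reducible apply IntF.iimage | with_reducible apply IntF.ite | with_reducible apply IntF.the | with_reducible apply IntF.irec | with_reducible apply IntF.succ | with_reducible apply IntF.val | with_reducible apply IntF.mk | (with_reducible refine Int.comp ?_ ?_; assumption) | (with_reducible refine Int.comp₂ ?_ ?_ ?_; assumption) | (with_reducible refine Int.comp₃ ?_ ?_ ?_ ?_; assumption) | (with_reducible refine Int.comp₄ ?_ ?_ ?_ ?_ ?_; assumption) | (with_reducible refine IntF.comp ?_ ?_; assumption) | (with_reducible refine IntF.comp₂ ?_ ?_ ?_; assumption) | (with_reducible refine IntF.comp₃ ?_ ?_ ?_ ?_; assumption) | with_reducible apply IntF.pair)))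
    obtain ⟨R, hR, hR'⟩ := exists_rel (Z := ZC M) hG hC
      (R := fun q => ∃ z, Dk k z q.2.2 q.2.1 ∧ Dv q.1 (z + z + 1)) hRi (by
        rintro g hg n x y ⟨z, h1, h2⟩
        exact ⟨z, ((mem_HC hg).2 k z y x).2 h1, h2⟩)
    have hmono : ∀ j j' b, j ≤ j' → R (j', (cA (ZC M) hG x, b)) → R (j, (cA (ZC M) hG x, b)) := by
      intro j j' b hj h
      obtain ⟨j, rfl⟩ := nnN_surj hG hC j
      obtain ⟨j', rfl⟩ := nnN_surj hG hC j'
      obtain ⟨y, rfl⟩ := cA_surj hG b
      obtain ⟨z, h1, h2⟩ := (hR' _ _ _).1 h
      refine (hR' _ _ _).2 ⟨z, h1, h2.le ?_⟩
      by_contra hc
      exact absurd ((nnN_lt hG hC).2 (not_le.1 hc)) (not_lt.2 hj)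
    have hCi : Int (NN (SS (ZC M)) hG) (fun U : IPow (NN (SS (ZC M)) hG) (El (AA (ZC M) hG)) =>
        ∃ j, ∀ b, b ∈ U ↔ ¬ R (j, (cA (ZC M) hG x, b))) := by (repeat' (first | with_reducible exact IntF.id | with_reducible exact IntF.fst' | with_reducible exact IntF.snd' | with_reducible exact IntF.const _ | with_reducible exact Int.const _ | assumption | with_reducible apply Int.and | with_reducible apply Int.or | with_reducible apply Int.not | with_reducible apply Int.imp | with_reducible apply Int.iff | with_reducible apply Int.ne | with_reducible apply Int.eq | with_reducible apply Int.mem | with_reducible apply Int.subset | with_reducible apply Int.ltN | with_reducible apply Int.leN | with_reducible_and_instances apply Int.le | with_reducible_and_instances apply Int.lt | with_reducible apply Int.all | with_reducible apply Int.ex | with_reducible apply IntF.fst | with_reducible apply IntF.snd | with_reducible apply IntF.app | with_reducible apply IntF.inl | with_reducible apply IntF.inr | with_reducible_and_instances apply IntF.mul | with_reducible_and_instances apply IntF.inv | with_reducible_and_instances apply IntF.add | with_reducible_and_instances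 apply IntF.sub | with_reducible_and_instances apply IntF.neg | with_reducible_and_instances apply IntF.smul | with_reducible apply Int.fin | with_reducible apply IntF.sep | with_reducible apply IntF.lam | with_reducible apply IntF.insert | with_reducible apply IntF.singleton | with_reducible apply IntF.union | with_reducible apply IntF.iimage | with_reducible apply IntF.ite | with_reducible apply IntF.the | with_reducible apply IntF.irec | with_reducible apply IntF.succ | with_reducible apply IntF.val | with_reducible apply IntF.mk | (with_reducible refine Int.comp ?_ ?_; assumption) | (with_reducible refine Int.comp₂ ?_ ?_ ?_; assumption) | (with_reducible refine Int.comp₃ ?_ ?_ ?_ ?_; assumption) | (with_reducible refine Int.comp₄ ?_ ?_ ?_ ?_ ?_; assumption) | (with_reducible refine IntF.comp ?_ ?_; assumption) | (with_reducible refine IntF.comp₂ ?_ ?_ ?_; assumption) | (with_reducible refine IntF.comp₃ ?_ ?_ ?_ ?_; assumption) | with_reducible apply IntF.pair))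
    obtain ⟨C', hC', hsub, hcov⟩ := hs (sep _ fun U => ∃ j, ∀ b, b ∈ U ↔
        ¬ R (j, (cA (ZC M) hG x, b))) (by
      intro U hU a ha
      obtain ⟨j, hj⟩ := (mem_sep hCi).1 hU
      obtain ⟨j, rfl⟩ := nnN_surj hG hC j
      obtain ⟨y, rfl⟩ := cA_surj hG a
      have h1 := (hj _).1 ha
      rw [hR'] at h1
      by_cases hag : ∀ i, i < k → x i = y i
      · have hz : Dk k (y k - x k) y x := ⟨fun i hi => (hag i hi).symm, rfl⟩
        refine ⟨nnN (ZC M) hG hC (max j k.succ), fun b hb => ?_⟩
        obtain ⟨y', rfl⟩ := cA_surj hG b
        refine (hj _).2 ?_
        rw [hR']
        rintro ⟨z', h2, h3⟩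
        refine h1 ⟨_, hz, ?_⟩
        have h4 := ((hE' _ _ _).1 hb) k (lt_of_lt_of_le (INat.lt_succ_self k) (le_max_right _ _))
        have h5 : Dv j (y k - y' k) := h4.le (le_max_left _ _)
        have h6 := h2.2
        have h7 := h3.add (h5.add h5)
        rw [← h6] at h7
        have e : y' k - x k + (y' k - x k) + 1 + (y k - y' k + (y k - y' k)) =
          y k - x k + (y k - x k) + 1 := by ring
        rwa [e] at h7
      · push Not at hag
        obtain ⟨i, hi, hne⟩ := hag
        obtain ⟨n, hn⟩ : ∃ n, ¬ Dv n (x i - y i) := by
          by_contra hc
          push Not at hc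
          exact hne (sub_eq_zero.1 (Dv.sep hc))
        refine ⟨nnN (ZC M) hG hC (max n k), fun b hb => ?_⟩
        obtain ⟨y', rfl⟩ := cA_surj hG b
        refine (hj _).2 ?_
        rw [hR']
        rintro ⟨z', h2, -⟩
        have h3 := h2.1 i hi
        have h4 := ((hE' _ _ _).1 hb) i (lt_of_lt_of_le hi (le_max_right _ _))
        rw [h3] at h4
        have h5 := h4.neg
        rw [neg_sub] at h5
        exact hn (h5.le (le_max_left _ _))) (by
      intro a _
      obtain ⟨y, rfl⟩ := cA_surj hG a
      obtain ⟨j, hj⟩ : ∃ j, ¬ R (nnN (ZC M) hG hC j, (cA (ZC M) hG x, cA (ZC M) hG y)) := by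
        by_contra hc
        push Not at hc
        refine Dv.not_half (y k - x k) fun n => ?_
        obtain ⟨z, h1, h2⟩ := (hR' _ _ _).1 (hc n)
        rw [h1.2]
        exact h2
      refine ⟨sep _ fun b => ¬ R (nnN (ZC M) hG hC j, (cA (ZC M) hG x, b)), ?_, ?_⟩
      · refine (mem_sep hCi).2 ⟨nnN (ZC M) hG hC j, fun b => mem_sep (by (repeat' (first | with_reducible exact IntF.id | with_reducible exact IntF.fst' | with_reducible exact IntF.snd' | with_reducible exact IntF.const _ | with_reducible exact Int.const _ | assumption | with_reducible apply Int.and | with_reducible apply Int.or | with_reducible apply Int.not | with_reducible apply Int.imp | with_reducible apply Int.iff | with_reducible apply Int.ne | with_reducible apply Int.eq | with_reducible apply Int.mem | with_reducible apply Int.subset | with_reducible apply Int.ltN | with_reducible apply Int.leN | with_reducible_and_instances apply Int.le | with_reducible_and_instances apply Int.lt | with_reducible apply Int.all | with_reducible apply Int.ex | with_reducible apply IntF.fst | with_reducible apply IntF.snd | with_reducible apply IntF.app | with_reducible apply IntF.inl | with_reducible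 apply IntF.inr | with_reducible_and_instances apply IntF.mul | with_reducible_and_instances apply IntF.inv | with_reducible_and_instances apply IntF.add | with_reducible_and_instances apply IntF.sub | with_reducible_and_instances apply IntF.neg | with_reducible_and_instances apply IntF.smul | with_reducible apply Int.fin | with_reducible apply IntF.sep | with_reducible apply IntF.lam | with_reducible apply IntF.insert | with_reducible apply IntF.singleton | with_reducible apply IntF.union | with_reducible apply IntF.iimage | with_reducible apply IntF.ite | with_reducible apply IntF.the | with_reducible apply IntF.irec | with_reducible apply IntF.succ | with_reducible apply IntF.val | with_reducible apply IntF.mk | (with_reducible refine Int.comp ?_ ?_; assumption) | (with_reducible refine Int.comp₂ ?_ ?_ ?_; assumption) | (with_reducible refine Int.comp₃ ?_ ?_ ?_ ?_; assumption) | (with_reducible refine Int.comp₄ ?_ ?_ ?_ ?_ ?_; assumption) | (with_reducible refine IntF.comp ?_ ?_; assumption) | (with_reducible refine IntF.comp₂ ?_ ?_ ?_; assumption) | (with_reducible refine IntF.comp₃ ?_ ?_ ?_ ?_; assumption) | with_reducible apply IntF.pair)))⟩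
      · exact (mem_sep (by (repeat' (first | with_reducible exact IntF.id | with_reducible exact IntF.fst' | with_reducible exact IntF.snd' | with_reducible exact IntF.const _ | with_reducible exact Int.const _ | assumption | with_reducible apply Int.and | with_reducible apply Int.or | with_reducible apply Int.not | with_reducible apply Int.imp | with_reducible apply Int.iff | with_reducible apply Int.ne | with_reducible apply Int.eq | with_reducible apply Int.mem | with_reducible apply Int.subset | with_reducible apply Int.ltN | with_reducible apply Int.leN | with_reducible_and_instances apply Int.le | with_reducible_and_instances apply Int.lt | with_reducible apply Int.all | with_reducible apply Int.ex | with_reducible apply IntF.fst | with_reducible apply IntF.snd | with_reducible apply IntF.app | with_reducible apply IntF.inl | with_reducible apply IntF.inr | with_reducible_and_instances apply IntF.mul | with_reducible_and_instances apply IntF.inv | with_reducible_and_instances apply IntF.add | with_reducible_and_instances apply IntF.sub | with_reducible_and_instances apply IntF.neg | with_reducible_and_instances apply IntF.smul | with_reducible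 apply Int.fin | with_reducible apply IntF.sep | with_reducible apply IntF.lam | with_reducible apply IntF.insert | with_reducible apply IntF.singleton | with_reducible apply IntF.union | with_reducible apply IntF.iimage | with_reducible apply IntF.ite | with_reducible apply IntF.the | with_reducible apply IntF.irec | with_reducible apply IntF.succ | with_reducible apply IntF.val | with_reducible apply IntF.mk | (with_reducible refine Int.comp ?_ ?_; assumption) | (with_reducible refine Int.comp₂ ?_ ?_ ?_; assumption) | (with_reducible refine Int.comp₃ ?_ ?_ ?_ ?_; assumption) | (with_reducible refine Int.comp₄ ?_ ?_ ?_ ?_ ?_; assumption) | (with_reducible refine IntF.comp ?_ ?_; assumption) | (with_reducible refine IntF.comp₂ ?_ ?_ ?_; assumption) | (with_reducible refine IntF.comp₃ ?_ ?_ ?_ ?_; assumption) | with_reducible apply IntF.pair)))).2 hj)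
    obtain ⟨j₀, hj₀⟩ := IFin.exists_bound (M := NN (SS (ZC M)) hG)
      (r := fun (U : IPow (NN (SS (ZC M)) hG) (El (AA (ZC M) hG))) j =>
        ∀ b, b ∈ U → ¬ R (j, (cA (ZC M) hG x, b))) (by (repeat' (first | with_reducible exact IntF.id | with_reducible exact IntF.fst' | with_reducible exact IntF.snd' | with_reducible exact IntF.const _ | with_reducible exact Int.const _ | assumption | with_reducible apply Int.and | with_reducible apply Int.or | with_reducible apply Int.not | with_reducible apply Int.imp | with_reducible apply Int.iff | with_reducible apply Int.ne | with_reducible apply Int.eq | with_reducible apply Int.mem | with_reducible apply Int.subset | with_reducible apply Int.ltN | with_reducible apply Int.leN | with_reducible_and_instances apply Int.le | with_reducible_and_instances apply Int.lt | with_reducible apply Int.all | with_reducible apply Int.ex | with_reducible apply IntF.fst | with_reducible apply IntF.snd | with_reducible apply IntF.app | with_reducible apply IntF.inl | with_reducible apply IntF.inr | with_reducible_and_instances apply IntF.mul | with_reducible_and_instances apply IntF.inv | with_reducible_and_instances apply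 IntF.add | with_reducible_and_instances apply IntF.sub | with_reducible_and_instances apply IntF.neg | with_reducible_and_instances apply IntF.smul | with_reducible apply Int.fin | with_reducible apply IntF.sep | with_reducible apply IntF.lam | with_reducible apply IntF.insert | with_reducible apply IntF.singleton | with_reducible apply IntF.union | with_reducible apply IntF.iimage | with_reducible apply IntF.ite | with_reducible apply IntF.the | with_reducible apply IntF.irec | with_reducible apply IntF.succ | with_reducible apply IntF.val | with_reducible apply IntF.mk | (with_reducible refine Int.comp ?_ ?_; assumption) | (with_reducible refine Int.comp₂ ?_ ?_ ?_; assumption) | (with_reducible refine Int.comp₃ ?_ ?_ ?_ ?_; assumption) | (with_reducible refine Int.comp₄ ?_ ?_ ?_ ?_ ?_; assumption) | (with_reducible refine IntF.comp ?_ ?_; assumption) | (with_reducible refine IntF.comp₂ ?_ ?_ ?_; assumption) | (with_reducible refine IntF.comp₃ ?_ ?_ ?_ ?_; assumption) | with_reducible apply IntF.pair)))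
      (fun b c => ⟨max b c, fun a h a' ha' h' => by
        rcases h with h | h
        · exact h a' ha' (hmono _ _ _ (le_max_left _ _) h')
        · exact h a' ha' (hmono _ _ _ (le_max_right _ _) h')⟩) ⟨0⟩ hC' fun U hU => by
          obtain ⟨j, hj⟩ := (mem_sep hCi).1 (hsub U hU)
          exact ⟨j, fun b hb => (hj b).1 hb⟩
    obtain ⟨j, rfl⟩ := nnN_surj hG hC j₀
    obtain ⟨b, hb⟩ := Dv.half j
    obtain ⟨U, hU, hU'⟩ := hcov _ (hmem (of b))
    refine hj₀ U hU _ hU' ((hR' _ _ _).2 ⟨of b, ⟨fun i hi => ?_, ?_⟩, hb⟩)
    · rw [tr_ne hi.ne]
    · rw [tr_pos (Ek.refl k x), add_sub_cancel_left]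
  · have hDk := int_Dk (M := M)
    have hNg := int_Ng (M := M)
    have hRi : Int M (fun q : INat M × (Xc M × Xc M) => ∃ i z, Ng z ∧ Dk i z q.2.1 q.2.2) := by
      refine Int.ex (Int.ex (Int.and ?_ ?_))
      · exact Int.comp (p := fun z : IZ M => Ng z) (f := fun q :
          ((INat M × (Xc M × Xc M)) × INat M) × IZ M => q.2) hNg (by (repeat' (first | with_reducible exact IntF.id | with_reducible exact IntF.fst' | with_reducible exact IntF.snd' | with_reducible exact IntF.const _ | with_reducible exact Int.const _ | assumption | with_reducible apply Int.and | with_reducible apply Int.or | with_reducible apply Int.not | with_reducible apply Int.imp | with_reducible apply Int.iff | with_reducible apply Int.ne | with_reducible apply Int.eq | with_reducible apply Int.mem | with_reducible apply Int.subset | with_reducible apply Int.ltN | with_reducible apply Int.leN | with_reducible_and_instances apply Int.le | with_reducible_and_instances apply Int.lt | with_reducible apply Int.all | with_reducible apply Int.ex | with_reducible apply IntF.fst | with_reducible apply IntF.snd | with_reducible apply IntF.app | with_reducible apply IntF.inl | with_reducible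 apply IntF.inr | with_reducible_and_instances apply IntF.mul | with_reducible_and_instances apply IntF.inv | with_reducible_and_instances apply IntF.add | with_reducible_and_instances apply IntF.sub | with_reducible_and_instances apply IntF.neg | with_reducible_and_instances apply IntF.smul | with_reducible apply Int.fin | with_reducible apply IntF.sep | with_reducible apply IntF.lam | with_reducible apply IntF.insert | with_reducible apply IntF.singleton | with_reducible apply IntF.union | with_reducible apply IntF.iimage | with_reducible apply IntF.ite | with_reducible apply IntF.the | with_reducible apply IntF.irec | with_reducible apply IntF.succ | with_reducible apply IntF.val | with_reducible apply IntF.mk | (with_reducible refine Int.comp ?_ ?_; assumption) | (with_reducible refine Int.comp₂ ?_ ?_ ?_; assumption) | (with_reducible refine Int.comp₃ ?_ ?_ ?_ ?_; assumption) | (with_reducible refine Int.comp₄ ?_ ?_ ?_ ?_ ?_; assumption) | (with_reducible refine IntF.comp ?_ ?_; assumption) | (with_reducible refine IntF.comp₂ ?_ ?_ ?_; assumption) | (with_reducible refine IntF.comp₃ ?_ ?_ ?_ ?_; assumption) | with_reducible apply IntF.pair)))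
      · exact Int.comp (p := fun q : (INat M × IZ M) × (Xc M × Xc M) =>
          Dk q.1.1 q.1.2 q.2.1 q.2.2) (f := fun q : ((INat M × (Xc M × Xc M)) × INat M) × IZ M =>
            ((q.1.2, q.2), q.1.1.2)) hDk (by (repeat' (first | with_reducible exact IntF.id | with_reducible exact IntF.fst' | with_reducible exact IntF.snd' | with_reducible exact IntF.const _ | with_reducible exact Int.const _ | assumption | with_reducible apply Int.and | with_reducible apply Int.or | with_reducible apply Int.not | with_reducible apply Int.imp | with_reducible apply Int.iff | with_reducible apply Int.ne | with_reducible apply Int.eq | with_reducible apply Int.mem | with_reducible apply Int.subset | with_reducible apply Int.ltN | with_reducible apply Int.leN | with_reducible_and_instances apply Int.le | with_reducible_and_instances apply Int.lt | with_reducible apply Int.all | with_reducible apply Int.ex | with_reducible apply IntF.fst | with_reducible apply IntF.snd | with_reducible apply IntF.app | with_reducible apply IntF.inl | with_reducible apply IntF.inr | with_reducible_and_instances apply IntF.mul | with_reducible_and_instances apply IntF.inv | with_reducible_and_instances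 apply IntF.add | with_reducible_and_instances apply IntF.sub | with_reducible_and_instances apply IntF.neg | with_reducible_and_instances apply IntF.smul | with_reducible apply Int.fin | with_reducible apply IntF.sep | with_reducible apply IntF.lam | with_reducible apply IntF.insert | with_reducible apply IntF.singleton | with_reducible apply IntF.union | with_reducible apply IntF.iimage | with_reducible apply IntF.ite | with_reducible apply IntF.the | with_reducible apply IntF.irec | with_reducible apply IntF.succ | with_reducible apply IntF.val | with_reducible apply IntF.mk | (with_reducible refine Int.comp ?_ ?_; assumption) | (with_reducible refine Int.comp₂ ?_ ?_ ?_; assumption) | (with_reducible refine Int.comp₃ ?_ ?_ ?_ ?_; assumption) | (with_reducible refine Int.comp₄ ?_ ?_ ?_ ?_ ?_; assumption) | (with_reducible refine IntF.comp ?_ ?_; assumption) | (with_reducible refine IntF.comp₂ ?_ ?_ ?_; assumption) | (with_reducible refine IntF.comp₃ ?_ ?_ ?_ ?_; assumption) | with_reducible apply IntF.pair)))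
    obtain ⟨R, hR, hR'⟩ := exists_rel (Z := ZC M) hG hC
      (R := fun q => ∃ i z, Ng z ∧ Dk i z q.2.1 q.2.2) hRi (by
        rintro g hg n x y ⟨i, z, h1, h2⟩
        exact ⟨i, z, h1, ((mem_HC hg).2 i z x y).2 h2⟩)
    refine ⟨fun q => R (nnN (ZC M) hG hC 0, q), ?_, fun a h => ?_, fun a b c h h' => ?_,
      fun a b hab => ?_⟩
    · exact Int.comp (p := R) (f := fun q : El (AA (ZC M) hG) × El (AA (ZC M) hG) =>
        (nnN (ZC M) hG hC 0, q)) hR (by (repeat' (first | with_reducible exact IntF.id | with_reducible exact IntF.fst' | with_reducible exact IntF.snd' | with_reducible exact IntF.const _ | with_reducible exact Int.const _ | assumption | with_reducible apply Int.and | with_reducible apply Int.or | with_reducible apply Int.not | with_reducible apply Int.imp | with_reducible apply Int.iff | with_reducible apply Int.ne | with_reducible apply Int.eq | with_reducible apply Int.mem | with_reducible apply Int.subset | with_reducible apply Int.ltN | with_reducible apply Int.leN | with_reducible_and_instances apply Int.le | with_reducible_and_instances apply Int.lt | with_reducible apply Int.all | with_reducible apply Int.ex | with_reducible apply IntF.fst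 | with_reducible apply IntF.snd | with_reducible apply IntF.app | with_reducible apply IntF.inl | with_reducible apply IntF.inr | with_reducible_and_instances apply IntF.mul | with_reducible_and_instances apply IntF.inv | with_reducible_and_instances apply IntF.add | with_reducible_and_instances apply IntF.sub | with_reducible_and_instances apply IntF.neg | with_reducible_and_instances apply IntF.smul | with_reducible apply Int.fin | with_reducible apply IntF.sep | with_reducible apply IntF.lam | with_reducible apply IntF.insert | with_reducible apply IntF.singleton | with_reducible apply IntF.union | with_reducible apply IntF.iimage | with_reducible apply IntF.ite | with_reducible apply IntF.the | with_reducible apply IntF.irec | with_reducible apply IntF.succ | with_reducible apply IntF.val | with_reducible apply IntF.mk | (with_reducible refine Int.comp ?_ ?_; assumption) | (with_reducible refine Int.comp₂ ?_ ?_ ?_; assumption) | (with_reducible refine Int.comp₃ ?_ ?_ ?_ ?_; assumption) | (with_reducible refine Int.comp₄ ?_ ?_ ?_ ?_ ?_; assumption) | (with_reducible refine IntF.comp ?_ ?_; assumption) | (with_reducible refine IntF.comp₂ ?_ ?_ ?_;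 assumption) | (with_reducible refine IntF.comp₃ ?_ ?_ ?_ ?_; assumption) | with_reducible apply IntF.pair)))
    · obtain ⟨x, rfl⟩ := cA_surj hG a
      obtain ⟨i, z, h1, h2⟩ := (hR' _ _ _).1 h
      refine h1.ne ?_
      rw [← h2.2, sub_self]
    · obtain ⟨x, rfl⟩ := cA_surj hG a
      obtain ⟨y, rfl⟩ := cA_surj hG b
      obtain ⟨w, rfl⟩ := cA_surj hG c
      obtain ⟨i, z, h1, h2⟩ := (hR' _ _ _).1 h
      obtain ⟨i', z', h1', h2'⟩ := (hR' _ _ _).1 h'
      refine (hR' _ _ _).2 ?_
      rcases lt_trichotomy i i' with h3 | rfl | h3
      · refine ⟨i, z, h1, fun j hj => (h2.1 j hj).trans (h2'.1 j (hj.trans h3)), ?_⟩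
        rw [← h2'.1 i h3]
        exact h2.2
      · refine ⟨i, z + z', h1.add h1', fun j hj => (h2.1 j hj).trans (h2'.1 j hj), ?_⟩
        rw [← h2.2, ← h2'.2]
        ring
      · refine ⟨i', z', h1', fun j hj => (h2.1 j (hj.trans h3)).trans (h2'.1 j hj), ?_⟩
        rw [h2.1 i' h3]
        exact h2'.2
    · obtain ⟨x, rfl⟩ := cA_surj hG a
      obtain ⟨y, rfl⟩ := cA_surj hG b
      have h0 : ∃ i, x i ≠ y i := by
        by_contra hc
        push Not at hc
        exact hab (congrArg _ (IFun.ext' hc))
      obtain ⟨i, hi, hmin⟩ := INat.exists_least (p := fun i => x i ≠ y i) (by (repeat' (first | with_reducible exact IntF.id | with_reducible exact IntF.fst' | with_reducible exact IntF.snd' | with_reducible exact IntF.const _ | with_reducible exact Int.const _ | assumption | with_reducible apply Int.and | with_reducible apply Int.or | with_reducible apply Int.not | with_reducible apply Int.imp | with_reducible apply Int.iff | with_reducible apply Int.ne | with_reducible apply Int.eq | with_reducible apply Int.mem | with_reducible apply Int.subset | with_reducible apply Int.ltN | with_reducible apply Int.leN | with_reducible_and_instances apply Int.le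 | with_reducible_and_instances apply Int.lt | with_reducible apply Int.all | with_reducible apply Int.ex | with_reducible apply IntF.fst | with_reducible apply IntF.snd | with_reducible apply IntF.app | with_reducible apply IntF.inl | with_reducible apply IntF.inr | with_reducible_and_instances apply IntF.mul | with_reducible_and_instances apply IntF.inv | with_reducible_and_instances apply IntF.add | with_reducible_and_instances apply IntF.sub | with_reducible_and_instances apply IntF.neg | with_reducible_and_instances apply IntF.smul | with_reducible apply Int.fin | with_reducible apply IntF.sep | with_reducible apply IntF.lam | with_reducible apply IntF.insert | with_reducible apply IntF.singleton | with_reducible apply IntF.union | with_reducible apply IntF.iimage | with_reducible apply IntF.ite | with_reducible apply IntF.the | with_reducible apply IntF.irec | with_reducible apply IntF.succ | with_reducible apply IntF.val | with_reducible apply IntF.mk | (with_reducible refine Int.comp ?_ ?_; assumption) | (with_reducible refine Int.comp₂ ?_ ?_ ?_; assumption) | (with_reducible refine Int.comp₃ ?_ ?_ ?_ ?_; assumption) | (with_reducible refine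 Int.comp₄ ?_ ?_ ?_ ?_ ?_; assumption) | (with_reducible refine IntF.comp ?_ ?_; assumption) | (with_reducible refine IntF.comp₂ ?_ ?_ ?_; assumption) | (with_reducible refine IntF.comp₃ ?_ ?_ ?_ ?_; assumption) | with_reducible apply IntF.pair))) h0
      have h1 : ∀ j, j < i → x j = y j := fun j hj => by
        by_contra hc
        exact absurd hj (not_lt.2 (hmin j hc))
      rcases Ng.tri (x i - y i) with h2 | h2 | h2
      · exact absurd (sub_eq_zero.1 h2) hi
      · exact Or.inl ((hR' _ _ _).2 ⟨i, _, h2, h1, rfl⟩)
      · refine Or.inr ((hR' _ _ _).2 ⟨i, _, h2, fun j hj => (h1 j hj).symm, ?_⟩)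
        rw [neg_sub]
  · have hDk := int_Dk (M := M)
    have hRi : Int M (fun q : INat M × (Xc M × Xc M) => ∃ z, Dk q.1 z q.2.1 q.2.2) := by
      refine Int.ex ?_
      exact Int.comp (p := fun q : (INat M × IZ M) × (Xc M × Xc M) =>
          Dk q.1.1 q.1.2 q.2.1 q.2.2) (f := fun q : (INat M × (Xc M × Xc M)) × IZ M =>
            ((q.1.1, q.2), q.1.2)) hDk (by (repeat' (first | with_reducible exact IntF.id | with_reducible exact IntF.fst' | with_reducible exact IntF.snd' | with_reducible exact IntF.const _ | with_reducible exact Int.const _ | assumption | with_reducible apply Int.and | with_reducible apply Int.or | with_reducible apply Int.not | with_reducible apply Int.imp | with_reducible apply Int.iff | with_reducible apply Int.ne | with_reducible apply Int.eq | with_reducible apply Int.mem | with_reducible apply Int.subset | with_reducible apply Int.ltN | with_reducible apply Int.leN | with_reducible_and_instances apply Int.le | with_reducible_and_instances apply Int.lt | with_reducible apply Int.all | with_reducible apply Int.ex | with_reducible apply IntF.fst | with_reducible apply IntF.snd | with_reducible apply IntF.app | with_reducible apply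 IntF.inl | with_reducible apply IntF.inr | with_reducible_and_instances apply IntF.mul | with_reducible_and_instances apply IntF.inv | with_reducible_and_instances apply IntF.add | with_reducible_and_instances apply IntF.sub | with_reducible_and_instances apply IntF.neg | with_reducible_and_instances apply IntF.smul | with_reducible apply Int.fin | with_reducible apply IntF.sep | with_reducible apply IntF.lam | with_reducible apply IntF.insert | with_reducible apply IntF.singleton | with_reducible apply IntF.union | with_reducible apply IntF.iimage | with_reducible apply IntF.ite | with_reducible apply IntF.the | with_reducible apply IntF.irec | with_reducible apply IntF.succ | with_reducible apply IntF.val | with_reducible apply IntF.mk | (with_reducible refine Int.comp ?_ ?_; assumption) | (with_reducible refine Int.comp₂ ?_ ?_ ?_; assumption) | (with_reducible refine Int.comp₃ ?_ ?_ ?_ ?_; assumption) | (with_reducible refine Int.comp₄ ?_ ?_ ?_ ?_ ?_; assumption) | (with_reducible refine IntF.comp ?_ ?_; assumption) | (with_reducible refine IntF.comp₂ ?_ ?_ ?_; assumption) | (with_reducible refine IntF.comp₃ ?_ ?_ ?_ ?_; assumption) | with_reducible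 apply IntF.pair)))
    obtain ⟨A, hA, hA'⟩ := exists_rel (Z := ZC M) hG hC
      (R := fun q => ∃ z, Dk q.1 z q.2.1 q.2.2) hRi (by
        rintro g hg n x y ⟨z, h2⟩
        exact ⟨z, ((mem_HC hg).2 n z x y).2 h2⟩)
    have hA'' : ∀ k x y, A (nnN (ZC M) hG hC k, (cA (ZC M) hG x, cA (ZC M) hG y)) ↔
        ∀ i, i < k → x i = y i := fun k x y => (hA' _ _ _).trans
      ⟨fun ⟨z, h⟩ => h.1, fun h => ⟨_, h, rfl⟩⟩
    refine ⟨A, hA, fun k a => ?_, fun k a b h => ?_, fun F hF h1 h2 h3 h4 => ?_⟩
    · obtain ⟨k, rfl⟩ := nnN_surj hG hC k
      obtain ⟨x, rfl⟩ := cA_surj hG a
      exact (hA'' _ _ _).2 fun _ _ => rfl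
    · obtain ⟨k, rfl⟩ := nnN_surj hG hC k
      obtain ⟨x, rfl⟩ := cA_surj hG a
      obtain ⟨y, rfl⟩ := cA_surj hG b
      rw [hA''] at h
      push Not at h
      obtain ⟨i, hi, hne⟩ := h
      obtain ⟨n, hn⟩ : ∃ n, ¬ Dv n (x i - y i) := by
        by_contra hc
        push Not at hc
        exact hne (sub_eq_zero.1 (Dv.sep hc))
      refine ⟨nnN (ZC M) hG hC (max n k), fun c hc => ?_⟩
      obtain ⟨y', rfl⟩ := cA_surj hG c
      rw [hA'']
      intro h2
      have h4 := ((hE' _ _ _).1 hc) i (lt_of_lt_of_le hi (le_max_right _ _))
      rw [← h2 i hi] at h4
      have h5 := h4.neg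
      rw [neg_sub] at h5
      exact hn (h5.le (le_max_left _ _))
    · obtain ⟨E₀, hE₀⟩ := exists_hom₂ hG hC (Z := ZC M) hF
      obtain ⟨x, hx⟩ := exists_out E₀
      obtain ⟨k, hk⟩ := exists_far E₀ hx
      obtain ⟨b, hb⟩ := h3 (nnN (ZC M) hG hC k) (cA (ZC M) hG x)
      obtain ⟨y, rfl⟩ := cA_surj hG b
      obtain ⟨g, hg, hg'⟩ := exists_tr k x 1
      have h5 := hE₀ g hg (tr_fix hk 1 hg') _ _ _ hb
      have h6 := h2 _ _ (cA (ZC M) hG x) (fun c => by
        obtain ⟨w, rfl⟩ := cA_surj hG c
        rw [hA'', hA'']
        refine forall_congr' fun i => forall_congr' fun hi => ?_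
        rw [hg', tr_ne hi.ne]) _ h5
      have h7 := (cA_inj hG).1 (h4 _ _ _ _ hb h6)
      have h8 : Ek k x y := fun j hj => by
        rw [(hA'' _ _ _).1 (h1 _ _ _ hb) j hj, sub_self]
        exact Dv.zero
      have h9 : y k = y k + 1 := by
        have e := congrArg (fun w : Xc M => w k) h7
        change y k = g.1.1 y k at e
        rw [hg', tr_pos h8] at e
        exact e
      have h10 : (1 : IZ M) = 0 := by
        have := congrArg (fun z => z - y k) h9
        simpa using this.symm
      exact one_ne_zero h10

end Pool.Agent.Helper672.ZFA.V246C
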