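import Pool.Agent.V11246.CubeDefs

/-!
# Intersections of countable families of clopen sets, and N-compactness: definitions

`Mem` and `LSet` are from `Pool.Agent.Helper672.SIK.Plain`, `IsOmega`, `IsFun`, `IsInj`, `App` and
`IsFinite` from `Pool.Agent.H310R3.Cards`, `IsTopology` and `IsCuf` from
`Pool.Agent.H310R3.TopDefs`, `IsFunSet` and `IsCubeTop` from `Pool.Agent.V11246.CubeDefs`.
-/

namespace Pool.Agent.V11246

open FirstOrder FirstOrder.Language
open Pool.Agent.Helper672.Plain (LSet Mem)
open Pool.Agent.H310Cards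

universe u

variable {M : Type u} [LSet.Structure M]

/-- `a` is countable (finite or countably infinite): it injects into the set of the natural
numbers. -/
def IsCtble (a : M) : Prop := ∃ w f, IsOmega w ∧ IsInj f a w

/-- `a` is the union of a sequence (indexed by the set of the natural numbers) of countable
sets. -/
def IsCtblUnion (a : M) : Prop :=
  ∃ w s f, IsOmega w ∧ IsFun f w s ∧ (∀ u, Mem u s → IsCtble u) ∧
    ∀ z, Mem z a ↔ ∃ n u, App f n u ∧ Mem z u

/-- `u` is a clopen subset of the space `x` with the topology `t`. -/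
def IsClopen (t x u : M) : Prop :=
  Mem u t ∧ ∃ v, Mem v t ∧ ∀ z, Mem z v ↔ Mem z x ∧ ¬ Mem z u

/-- The space is a T1 space. -/
def IsT1 (t x : M) : Prop :=
  ∀ y z, Mem y x → Mem z x → y ≠ z → ∃ u, Mem u t ∧ Mem y u ∧ ¬ Mem z u

/-- The space is zero-dimensional: the clopen sets form a base. -/
def IsZeroDim (t x : M) : Prop :=
  ∀ u z, Mem u t → Mem z u → ∃ v, IsClopen t x v ∧ Mem z v ∧ ∀ y, Mem y v → Mem y u

/-- `a` is the intersection of a nonempty countable family of clopen sets. -/
def IsCdelta (t x a : M) : Prop :=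
  ∃ c, IsCtble c ∧ (∃ u, Mem u c) ∧ (∀ u, Mem u c → IsClopen t x u) ∧
    ∀ z, Mem z a ↔ ∀ u, Mem u c → Mem z u

/-- `F` is a filter in the family of the intersections of nonempty countable families of clopen
sets. -/
structure IsCdFilter (t x F : M) : Prop where
  ne : ∃ a, Mem a F
  mem : ∀ a, Mem a F → IsCdelta t x a ∧ ∃ z, Mem z a
  inter : ∀ a b c, Mem a F → Mem b F → (∀ z, Mem z c ↔ Mem z a ∧ Mem z b) → Mem c F
  up : ∀ a b, Mem a F → IsCdelta t x b → (∀ z, Mem z a → Mem z b) → Mem b F

/-- `F` is an ultrafilter in this family: a maximal filter. -/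
def IsCdUltra (t x F : M) : Prop :=
  IsCdFilter t x F ∧ ∀ G, IsCdFilter t x G → (∀ a, Mem a F → Mem a G) → ∀ a, Mem a G → Mem a F

/-- The family `F` has the countable intersection property. -/
def HasCip (F : M) : Prop :=
  ∀ c, IsCtble c → (∃ u, Mem u c) → (∀ u, Mem u c → Mem u F) → ∃ z, ∀ u, Mem u c → Mem z u

/-- The family `F` is fixed: its intersection is nonempty. -/
def IsFixed (F : M) : Prop := ∃ z, ∀ u, Mem u F → Mem z u

/-- The space `x` with the topology `t` is N-compact: for some nonempty `j` it is homeomorphic to a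
closed subspace of the product `c` (with the product topology `s`) of copies, indexed by `j`, of
the discrete space `w` of the natural numbers. The injection `h` is a homeomorphism onto its image
(the open sets of `x` are the preimages of the open sets of `c`), and the complement `v` of
the image is open. -/
def IsNCompact (t x : M) : Prop :=
  ∃ j w c s h, (∃ i, Mem i j) ∧ IsOmega w ∧ IsFunSet c j w ∧ IsCubeTop s c j ∧ IsInj h x c ∧
    (∀ u, Mem u t ↔ (∀ z, Mem z u → Mem z x) ∧
      ∃ v, Mem v s ∧ ∀ z f, App h z f → (Mem z u ↔ Mem f v)) ∧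
    ∃ v, Mem v s ∧ ∀ f, Mem f c → (Mem f v ↔ ¬ ∃ z, App h z f)

end Pool.Agent.V11246
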