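import Pool.Agent.V11246.CubeR

/-!
# Cantor cubes exist
-/

set_option maxHeartbeats 1000000
set_option linter.all false
set_option synthInstance.maxSize 2000

namespace Pool.Agent.Helper672.ZFA.V246

open FirstOrder FirstOrder.Language
open H635 (IWO)
open Pool.Agent.H310
open Pool.Agent.H310Cards
open Pool.Agent.Helper672.Plain (LSet)
open Pool.Agent.H310Top (IsTopology)
open Pool.Agent.V11246 (IsTwo IsFunSet IsCubeTop IsStronglyZeroDim)

universe u

section

attribute [local instance] Helper672.Plain.toL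

variable {N : Type u} [LSet.Structure N] [hZ : Helper672.Plain.Zermelo N]

local instance instModelX : IsModel N := Helper672.Plain.isModel_toL

noncomputable local instance instPElX (x : N) : ITy N (Helper672.Plain.El x) :=
  (inferInstance : ITy N (El x))

variable {j d : N}

theorem isFunSet_dom : IsFunSet (dom N (IFun N (Plain.El j) (Plain.El d))) j d := by
  intro f
  rw [mem_domP]
  constructor
  · rintro ⟨φ, rfl⟩
    exact isFun_code φ (fun z => ⟨fun h => ⟨⟨z, h⟩, rfl⟩, fun ⟨x, h⟩ => h ▸ x.2⟩) fun a => (φ a).2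
  · intro hf
    obtain ⟨φ, h1, h2⟩ := exists_fun (α := Plain.El j) (β := Plain.El d) hf (fun x => x.2)
      fun z hz => ⟨⟨z, hz⟩, rfl⟩
    refine ⟨⟨φ, h1⟩, extM fun q => ?_⟩
    constructor
    · intro hq
      obtain ⟨a, rfl⟩ := mem_code_fun.1 hq
      exact app_iff.1 ((h2 a (φ a)).1 rfl)
    · intro hq
      obtain ⟨x, y, h3, h4, h5⟩ := hf.1 q hq
      refine mem_code_fun.2 ⟨⟨x, h3⟩, ?_⟩
      rw [ordPair_iff] at h5
      rw [h5]
      rw [h5] at hq
      have h6 := (h2 ⟨x, h3⟩ ⟨y, h4⟩).2 (app_iff.2 hq)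
      change op x y = op x (code (φ ⟨x, h3⟩))
      rw [h6]
      rfl

/-- Open sets of functions. -/
def OpF (U : IPow N (IFun N (Plain.El j) (Plain.El d))) : Prop :=
  ∀ f, f ∈ U → ∃ S : IPow N (Plain.El j), IFin S ∧
    ∀ g : IFun N (Plain.El j) (Plain.El d), (∀ i, i ∈ S → f i = g i) → g ∈ U

theorem int_OpF : Int N (OpF (N := N) (j := j) (d := d)) := by
  unfold OpF
  (repeat' (first | with_reducible exact IntF.id | with_reducible exact IntF.fst' | with_reducible exact IntF.snd' | with_reducible exact IntF.const _ | with_reducible exact Int.const _ | assumption | with_reducible apply Int.and | with_reducible apply Int.or | with_reducible apply Int.not | with_reducible apply Int.imp | with_reducible apply Int.iff | with_reducible apply Int.ne | with_reducible apply Int.eq | with_reducible apply Int.mem | with_reducible apply Int.subset | with_reducible apply Int.ltN | with_reducible apply Int.leN | with_reducible_and_instances apply Int.le | with_reducible_and_instances apply Int.lt | with_reducible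 apply Int.all | with_reducible apply Int.ex | with_reducible apply IntF.fst | with_reducible apply IntF.snd | with_reducible apply IntF.app | with_reducible apply IntF.inl | with_reducible apply IntF.inr | with_reducible_and_instances apply IntF.mul | with_reducible_and_instances apply IntF.inv | with_reducible_and_instances apply IntF.add | with_reducible_and_instances apply IntF.sub | with_reducible_and_instances apply IntF.neg | with_reducible_and_instances apply IntF.smul | with_reducible apply Int.fin | with_reducible apply IntF.sep | with_reducible apply IntF.lam | with_reducible apply IntF.insert | with_reducible apply IntF.singleton | with_reducible apply IntF.union | with_reducible apply IntF.iimage | with_reducible apply IntF.ite | with_reducible apply IntF.the | with_reducible apply IntF.irec | with_reducible apply IntF.succ | with_reducible apply IntF.val | with_reducible apply IntF.mk | (with_reducible refine Int.comp ?_ ?_; assumption) | (with_reducible refine Int.comp₂ ?_ ?_ ?_; assumption)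 | (with_reducible refine Int.comp₃ ?_ ?_ ?_ ?_; assumption) | (with_reducible refine Int.comp₄ ?_ ?_ ?_ ?_ ?_; assumption) | (with_reducible refine IntF.comp ?_ ?_; assumption) | (with_reducible refine IntF.comp₂ ?_ ?_ ?_; assumption) | (with_reducible refine IntF.comp₃ ?_ ?_ ?_ ?_; assumption) | with_reducible apply IntF.pair))

theorem isCubeTop_dom : IsCubeTop (code (M := N) (sep N (OpF (N := N) (j := j) (d := d))))
    (dom N (IFun N (Plain.El j) (Plain.El d))) j := by
  intro u
  constructor
  · intro hu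
    obtain ⟨U, hU, rfl⟩ := mem_codeB.1 hu
    rw [mem_sep int_OpF] at hU
    refine ⟨fun f hf => ?_, fun f hf => ?_⟩
    · obtain ⟨f, -, rfl⟩ := mem_codeB.1 hf
      exact code_mem_domP f
    · obtain ⟨f, hf', rfl⟩ := mem_codeB.1 hf
      obtain ⟨S, h1, h2⟩ := hU f hf'
      refine ⟨code S, isFinite_of_fin h1, fun i hi => ?_, fun g hg h3 => ?_⟩
      · obtain ⟨i, -, rfl⟩ := mem_codeB.1 hi
        exact i.2
      · obtain ⟨g, rfl⟩ := mem_domP.1 hg
        refine mem_codeB'.2 (h2 g fun i hi => ?_)
        have h4 := h3 (code i) (code (f i)) (mem_codeB'.2 hi) (app_code.2 ⟨i, rfl, rfl⟩)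
        obtain ⟨i', h5, h6⟩ := app_code.1 h4
        rw [ITy.inj h5] at h6
        exact (ITy.inj h6).symm
  · rintro ⟨h1, h2⟩
    obtain ⟨U, rfl⟩ := exists_codeB (α := IFun N (Plain.El j) (Plain.El d)) fun z hz =>
      mem_domP.1 (h1 z hz)
    refine mem_codeB'.2 ((mem_sep int_OpF).2 fun f hf => ?_)
    obtain ⟨s, h3, h4, h5⟩ := h2 (code f) (mem_codeB'.2 hf)
    obtain ⟨S, rfl⟩ := exists_codeB (α := Plain.El j) fun z hz => ⟨⟨z, h4 z hz⟩, rfl⟩
    refine ⟨S, fin_of_isFinite h3, fun g hg => ?_⟩
    refine mem_codeB'.1 (h5 (code g) (code_mem_domP g) fun i y hi hy => ?_)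
    obtain ⟨i, hi', rfl⟩ := mem_codeB.1 hi
    obtain ⟨i', h6, h7⟩ := app_code.1 hy
    rw [ITy.inj h6] at h7
    rw [← h7]
    exact app_code.2 ⟨i, rfl, by rw [hg i hi']⟩

theorem isTopology_of {t c : N} (ht : IsCubeTop t c j) : IsTopology t c := by
  refine ⟨fun u hu => ((ht u).1 hu).1, ?_, ?_, ?_⟩
  · refine (ht c).2 ⟨fun _ h => h, fun f hf => ?_⟩
    refine ⟨code (∅ : IPow N (Plain.El j)), isFinite_of_fin IFin.empty, fun i hi => ?_,
      fun g hg _ => hg⟩
    obtain ⟨i, -, rfl⟩ := mem_codeB.1 hi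
    exact i.2
  · intro u v w hu hv hw
    refine (ht w).2 ⟨fun f hf => ((ht u).1 hu).1 f ((hw f).1 hf).1, fun f hf => ?_⟩
    obtain ⟨s, h1, h2, h3⟩ := ((ht u).1 hu).2 f ((hw f).1 hf).1
    obtain ⟨s', h1', h2', h3'⟩ := ((ht v).1 hv).2 f ((hw f).1 hf).2
    obtain ⟨S, rfl⟩ := exists_codeB (α := Plain.El j) fun z hz => ⟨⟨z, h2 z hz⟩, rfl⟩
    obtain ⟨S', rfl⟩ := exists_codeB (α := Plain.El j) fun z hz => ⟨⟨z, h2' z hz⟩, rfl⟩
    refine ⟨code (S ∪ S'), isFinite_of_fin ((fin_of_isFinite h1).union (fin_of_isFinite h1')),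
      fun i hi => ?_, fun g hg h4 => (hw g).2 ⟨h3 g hg fun i y hi hy => ?_,
        h3' g hg fun i y hi hy => ?_⟩⟩
    · obtain ⟨i, -, rfl⟩ := mem_codeB.1 hi
      exact i.2
    · obtain ⟨i, hi', rfl⟩ := mem_codeB.1 hi
      exact h4 _ _ (mem_codeB'.2 (mem_union.2 (Or.inl hi'))) hy
    · obtain ⟨i, hi', rfl⟩ := mem_codeB.1 hi
      exact h4 _ _ (mem_codeB'.2 (mem_union.2 (Or.inr hi'))) hy
  · intro k w hk hw
    refine (ht w).2 ⟨fun f hf => ?_, fun f hf => ?_⟩
    · obtain ⟨u, h1, h2⟩ := (hw f).1 hf
      exact ((ht u).1 (hk u h1)).1 f h2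
    · obtain ⟨u, h1, h2⟩ := (hw f).1 hf
      obtain ⟨s, h3, h4, h5⟩ := ((ht u).1 (hk u h1)).2 f h2
      exact ⟨s, h3, h4, fun g hg h6 => (hw g).2 ⟨u, h1, h5 g hg h6⟩⟩

theorem exists_cube (j d : N) : ∃ c t, IsFunSet c j d ∧ IsCubeTop t c j ∧ IsTopology t c :=
  ⟨_, _, isFunSet_dom, isCubeTop_dom, isTopology_of isCubeTop_dom⟩

end

end Pool.Agent.Helper672.ZFA.V246
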