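import Pool.Agent.V11246.Nco2
import Pool.Agent.V11246.CubeX
import Pool.Agent.V11246.CdDefs

/-!
# A countable union of countable sets that is not a cuf set gives a space
-/

set_option maxHeartbeats 1000000
set_option linter.all false
set_option synthInstance.maxSize 2000

namespace Pool.Agent.Helper672.ZFA.V246

open FirstOrder FirstOrder.Language
open H635 (IWO)
open Pool.Agent.H310
open Pool.Agent.H310Cards
open Pool.Agent.Helper672.Plain (LSet)
open Pool.Agent.H310Top (IsTopology IsCuf)
open Pool.Agent.V11246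

universe u

section

attribute [local instance] Helper672.Plain.toL

variable {N : Type u} [LSet.Structure N] [hZ : Helper672.Plain.Zermelo N]

local instance instModelY : IsModel N := Helper672.Plain.isModel_toL

noncomputable local instance instPElY (x : N) : ITy N (Helper672.Plain.El x) :=
  (inferInstance : ITy N (El x))

section tools

variable {α β : Type u} [ITy N α] [ITy N β]

theorem int_opm (g : N) : Int N (fun q : α × β => Mem (op (code q.1) (code q.2)) g) :=
  ⟨g, fun q => Iff.rfl⟩

theorem int_appm (f : N) : Int N (fun q : α × β => ∃ u, App f (code q.1) u ∧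
    Mem (code q.2) u) := by
  refine Int.of_D₂ (S := fun v => ∃ u, Mem (op (v 0) u) f ∧ Mem (v 1) u) ?_ fun a b => ?_
  · exact D.ex (D.and (D.memf (DF.op (DF.var _) (DF.var _)) (DF.const _))
      (D.memf (DF.var _) (DF.var _)))
  · refine exists_congr fun u => and_congr_left fun _ => ?_
    exact app_iff.symm

theorem ctb_of_isCtble {P : α → Prop} {u : N} (h : IsCtble u)
    (hP : ∀ x, P x → Mem (code x) u) : Ctb N P := by
  obtain ⟨w, g, hw, hg⟩ := h
  have hr : Int N (fun q : α × INat N => Mem (op (code q.1) (code q.2)) g) := int_opm g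
  refine ⟨fun x => the (fun k : INat N => Mem (op (code x) (code k)) g) 0,
    IntF.the hr (IntF.const _), fun x y hx hy hxy => ?_⟩
  have h3 : ∀ x, P x → App g (code x) (code (the (fun k : INat N =>
      Mem (op (code x) (code k)) g) 0)) := by
    intro x hx
    obtain ⟨y, hy, hu⟩ := hg.1.2 (code x) (hP x hx)
    obtain ⟨q, h4, h5⟩ := hy
    obtain ⟨x', y', h8, h9, h10⟩ := hg.1.1 q h5
    obtain ⟨-, rfl⟩ := op_inj ((ordPair_iff.1 h4).symm.trans (ordPair_iff.1 h10))
    obtain ⟨k, rfl⟩ := (mem_omega hw).1 h9
    have h12 : App g (code x) (code k) := ⟨q, h4, h5⟩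
    have h13 : the (fun k : INat N => Mem (op (code x) (code k)) g) 0 = k :=
      the_eq ⟨k, app_iff.1 h12, fun k' hk' => ITy.inj (hu _ (app_iff.2 hk'))⟩ (app_iff.1 h12)
    rw [h13]
    exact h12
  have h4 := h3 x hx
  have h5 := h3 y hy
  rw [show (the (fun k : INat N => Mem (op (code x) (code k)) g) 0) =
    the (fun k : INat N => Mem (op (code y) (code k)) g) 0 from hxy] at h4
  exact ITy.inj (hg.2 _ _ _ h4 h5)

theorem isCtble_of_ctb {S : IPow N α} (h : Ctb N (fun x => x ∈ S)) :
    IsCtble (code (M := N) S) := by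
  obtain ⟨e, he, h1⟩ := h
  have hI : Int N (fun q : α × INat N => q.1 ∈ S ∧ e q.1 = q.2) := by (repeat' (first | with_reducible exact IntF.id | with_reducible exact IntF.fst' | with_reducible exact IntF.snd' | with_reducible exact IntF.const _ | with_reducible exact Int.const _ | assumption | with_reducible apply Int.and | with_reducible apply Int.or | with_reducible apply Int.not | with_reducible apply Int.imp | with_reducible apply Int.iff | with_reducible apply Int.ne | with_reducible apply Int.eq | with_reducible apply Int.mem | with_reducible apply Int.subset | with_reducible apply Int.ltN | with_reducible apply Int.leN | with_reducible_and_instances apply Int.le | with_reducible_and_instances apply Int.lt | with_reducible apply Int.all | with_reducible apply Int.ex | with_reducible apply IntF.fst | with_reducible apply IntF.snd | with_reducible apply IntF.app | with_reducible apply IntF.inl | with_reducible apply IntF.inr | with_reducible_and_instances apply IntF.mul | with_reducible_and_instances apply IntF.inv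 | with_reducible_and_instances apply IntF.add | with_reducible_and_instances apply IntF.sub | with_reducible_and_instances apply IntF.neg | with_reducible_and_instances apply IntF.smul | with_reducible apply Int.fin | with_reducible apply IntF.sep | with_reducible apply IntF.lam | with_reducible apply IntF.insert | with_reducible apply IntF.singleton | with_reducible apply IntF.union | with_reducible apply IntF.iimage | with_reducible apply IntF.ite | with_reducible apply IntF.the | with_reducible apply IntF.irec | with_reducible apply IntF.succ | with_reducible apply IntF.val | with_reducible apply IntF.mk | (with_reducible refine Int.comp ?_ ?_; assumption) | (with_reducible refine Int.comp₂ ?_ ?_ ?_; assumption) | (with_reducible refine Int.comp₃ ?_ ?_ ?_ ?_; assumption) | (with_reducible refine Int.comp₄ ?_ ?_ ?_ ?_ ?_; assumption) | (with_reducible refine IntF.comp ?_ ?_; assumption) | (with_reducible refine IntF.comp₂ ?_ ?_ ?_; assumption) | (with_reducible refine IntF.comp₃ ?_ ?_ ?_ ?_; assumption) | with_reducible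 apply IntF.pair))
  refine ⟨dom N (INat N), relc N (fun (a : α) (k : INat N) => a ∈ S ∧ e a = k), isOmega_dom,
    ⟨fun q hq => ?_, fun x hx => ?_⟩, fun x x' y h5 h6 => ?_⟩
  · obtain ⟨a, k, ⟨h5, rfl⟩, rfl⟩ := (mem_relc hI).1 hq
    exact ⟨code a, code (e a), mem_codeB.2 ⟨a, h5, rfl⟩, code_mem_domP _, ordPair_iff.2 rfl⟩
  · obtain ⟨a, h5, rfl⟩ := mem_codeB.1 hx
    refine ⟨code (e a), (app_relc' hI).2 ⟨h5, rfl⟩, fun y hy => ?_⟩
    obtain ⟨b, k, ⟨h6, rfl⟩, h7, rfl⟩ := (app_relc hI).1 hy
    rw [ITy.inj h7]
  · obtain ⟨a, k, ⟨h7, rfl⟩, rfl, rfl⟩ := (app_relc hI).1 h5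
    obtain ⟨b, k', ⟨h8, rfl⟩, rfl, h9⟩ := (app_relc hI).1 h6
    rw [h1 a b h7 h8 (ITy.inj h9)]

theorem isCtble_iff {S : IPow N α} : IsCtble (code (M := N) S) ↔ Ctb N (fun x => x ∈ S) :=
  ⟨fun h => ctb_of_isCtble h fun x hx => mem_codeB'.2 hx, isCtble_of_ctb⟩

end tools

variable {a : N}

theorem exists_CB (h : IsCtblUnion a) (h' : ¬ IsCuf a) : ∃ B : INat N × Plain.El a → Prop, CB B := by
  obtain ⟨w, s, f, hw, hf, hs, hu⟩ := h
  refine ⟨fun q => ∃ u, App f (code q.1) u ∧ Mem (code q.2) u, int_appm f, fun b => ?_,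
    fun n => ?_, fun W hW hfin => ?_⟩
  · obtain ⟨n, u, h1, h2⟩ := (hu b.1).1 b.2
    obtain ⟨q, h3, h4⟩ := h1
    obtain ⟨x', y', h8, h9, h10⟩ := hf.1 q h4
    obtain ⟨rfl, rfl⟩ := op_inj ((ordPair_iff.1 h3).symm.trans (ordPair_iff.1 h10))
    obtain ⟨n, rfl⟩ := (mem_omega hw).1 h8
    exact ⟨n, u, ⟨q, h3, h4⟩, h2⟩
  · obtain ⟨u, h1, h2⟩ := hf.2 (code n) ((mem_omega hw).2 ⟨n, rfl⟩)
    have h3 : Helper672.Plain.Mem u s := by
      obtain ⟨q, h3, h4⟩ := h1
      obtain ⟨x', y', h8, h9, h10⟩ := hf.1 q h4
      obtain ⟨-, rfl⟩ := op_inj ((ordPair_iff.1 h3).symm.trans (ordPair_iff.1 h10))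
      exact h9
    refine ctb_of_isCtble (hs u h3) ?_
    rintro b ⟨u', h4, h5⟩
    rw [← h2 u' h4]
    exact h5
  · by_contra hcon
    push Not at hcon
    refine h' ?_
    have hG : IntF N (fun n : INat N => sep N fun b : Plain.El a => W (n, b)) := by (repeat' (first | with_reducible exact IntF.id | with_reducible exact IntF.fst' | with_reducible exact IntF.snd' | with_reducible exact IntF.const _ | with_reducible exact Int.const _ | assumption | with_reducible apply Int.and | with_reducible apply Int.or | with_reducible apply Int.not | with_reducible apply Int.imp | with_reducible apply Int.iff | with_reducible apply Int.ne | with_reducible apply Int.eq | with_reducible apply Int.mem | with_reducible apply Int.subset | with_reducible apply Int.ltN | with_reducible apply Int.leN | with_reducible_and_instances apply Int.le | with_reducible_and_instances apply Int.lt | with_reducible apply Int.all | with_reducible apply Int.ex | with_reducible apply IntF.fst | with_reducible apply IntF.snd | with_reducible apply IntF.app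 | with_reducible apply IntF.inl | with_reducible apply IntF.inr | with_reducible_and_instances apply IntF.mul | with_reducible_and_instances apply IntF.inv | with_reducible_and_instances apply IntF.add | with_reducible_and_instances apply IntF.sub | with_reducible_and_instances apply IntF.neg | with_reducible_and_instances apply IntF.smul | with_reducible apply Int.fin | with_reducible apply IntF.sep | with_reducible apply IntF.lam | with_reducible apply IntF.insert | with_reducible apply IntF.singleton | with_reducible apply IntF.union | with_reducible apply IntF.iimage | with_reducible apply IntF.ite | with_reducible apply IntF.the | with_reducible apply IntF.irec | with_reducible apply IntF.succ | with_reducible apply IntF.val | with_reducible apply IntF.mk | (with_reducible refine Int.comp ?_ ?_; assumption) | (with_reducible refine Int.comp₂ ?_ ?_ ?_; assumption) | (with_reducible refine Int.comp₃ ?_ ?_ ?_ ?_; assumption) | (with_reducible refine Int.comp₄ ?_ ?_ ?_ ?_ ?_; assumption) | (with_reducible refine IntF.comp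 ?_ ?_; assumption) | (with_reducible refine IntF.comp₂ ?_ ?_ ?_; assumption) | (with_reducible refine IntF.comp₃ ?_ ?_ ?_ ?_; assumption) | with_reducible apply IntF.pair))
    have hFI : Int N (fun F : IPow N (Plain.El a) => IFin F) := by (repeat' (first | with_reducible exact IntF.id | with_reducible exact IntF.fst' | with_reducible exact IntF.snd' | with_reducible exact IntF.const _ | with_reducible exact Int.const _ | assumption | with_reducible apply Int.and | with_reducible apply Int.or | with_reducible apply Int.not | with_reducible apply Int.imp | with_reducible apply Int.iff | with_reducible apply Int.ne | with_reducible apply Int.eq | with_reducible apply Int.mem | with_reducible apply Int.subset | with_reducible apply Int.ltN | with_reducible apply Int.leN | with_reducible_and_instances apply Int.le | with_reducible_and_instances apply Int.lt | with_reducible apply Int.all | with_reducible apply Int.ex | with_reducible apply IntF.fst | with_reducible apply IntF.snd | with_reducible apply IntF.app | with_reducible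 apply IntF.inl | with_reducible apply IntF.inr | with_reducible_and_instances apply IntF.mul | with_reducible_and_instances apply IntF.inv | with_reducible_and_instances apply IntF.add | with_reducible_and_instances apply IntF.sub | with_reducible_and_instances apply IntF.neg | with_reducible_and_instances apply IntF.smul | with_reducible apply Int.fin | with_reducible apply IntF.sep | with_reducible apply IntF.lam | with_reducible apply IntF.insert | with_reducible apply IntF.singleton | with_reducible apply IntF.union | with_reducible apply IntF.iimage | with_reducible apply IntF.ite | with_reducible apply IntF.the | with_reducible apply IntF.irec | with_reducible apply IntF.succ | with_reducible apply IntF.val | with_reducible apply IntF.mk | (with_reducible refine Int.comp ?_ ?_; assumption) | (with_reducible refine Int.comp₂ ?_ ?_ ?_; assumption) | (with_reducible refine Int.comp₃ ?_ ?_ ?_ ?_; assumption) | (with_reducible refine Int.comp₄ ?_ ?_ ?_ ?_ ?_; assumption) | (with_reducible refine IntF.comp ?_ ?_; assumption)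 | (with_reducible refine IntF.comp₂ ?_ ?_ ?_; assumption) | (with_reducible refine IntF.comp₃ ?_ ?_ ?_ ?_; assumption) | with_reducible apply IntF.pair))
    have hWn : ∀ n, Int N (fun b : Plain.El a => W (n, b)) := fun n => by (repeat' (first | with_reducible exact IntF.id | with_reducible exact IntF.fst' | with_reducible exact IntF.snd' | with_reducible exact IntF.const _ | with_reducible exact Int.const _ | assumption | with_reducible apply Int.and | with_reducible apply Int.or | with_reducible apply Int.not | with_reducible apply Int.imp | with_reducible apply Int.iff | with_reducible apply Int.ne | with_reducible apply Int.eq | with_reducible apply Int.mem | with_reducible apply Int.subset | with_reducible apply Int.ltN | with_reducible apply Int.leN | with_reducible_and_instances apply Int.le | with_reducible_and_instances apply Int.lt | with_reducible apply Int.all | with_reducible apply Int.ex | with_reducible apply IntF.fst | with_reducible apply IntF.snd | with_reducible apply IntF.app | with_reducible apply IntF.inl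 | with_reducible apply IntF.inr | with_reducible_and_instances apply IntF.mul | with_reducible_and_instances apply IntF.inv | with_reducible_and_instances apply IntF.add | with_reducible_and_instances apply IntF.sub | with_reducible_and_instances apply IntF.neg | with_reducible_and_instances apply IntF.smul | with_reducible apply Int.fin | with_reducible apply IntF.sep | with_reducible apply IntF.lam | with_reducible apply IntF.insert | with_reducible apply IntF.singleton | with_reducible apply IntF.union | with_reducible apply IntF.iimage | with_reducible apply IntF.ite | with_reducible apply IntF.the | with_reducible apply IntF.irec | with_reducible apply IntF.succ | with_reducible apply IntF.val | with_reducible apply IntF.mk | (with_reducible refine Int.comp ?_ ?_; assumption) | (with_reducible refine Int.comp₂ ?_ ?_ ?_; assumption) | (with_reducible refine Int.comp₃ ?_ ?_ ?_ ?_; assumption) | (with_reducible refine Int.comp₄ ?_ ?_ ?_ ?_ ?_; assumption) | (with_reducible refine IntF.comp ?_ ?_; assumption) | (with_reducible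 refine IntF.comp₂ ?_ ?_ ?_; assumption) | (with_reducible refine IntF.comp₃ ?_ ?_ ?_ ?_; assumption) | with_reducible apply IntF.pair))
    refine ⟨dom N (INat N), code (sep N fun F : IPow N (Plain.El a) => IFin F),
      code (⟨_, hG⟩ : IFun N (INat N) (IPow N (Plain.El a))), isOmega_dom,
      isFun_code _ (fun z => mem_domP) fun n => ?_, fun u hu' => ?_, fun z => ?_⟩
    · exact mem_codeB'.2 ((mem_sep hFI).2 ((hfin n).fin (hWn n)))
    · obtain ⟨F, hF, rfl⟩ := mem_codeB.1 hu'
      exact isFinite_of_fin ((mem_sep hFI).1 hF)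
    · constructor
      · intro hz
        obtain ⟨n, hn⟩ := hcon ⟨z, hz⟩
        exact ⟨code n, _, app_code.2 ⟨n, rfl, rfl⟩, mem_codeB.2 ⟨⟨z, hz⟩,
          (mem_sep (hWn n)).2 hn, rfl⟩⟩
      · rintro ⟨n, u, h1, h2⟩
        obtain ⟨n, rfl, rfl⟩ := app_code.1 h1
        obtain ⟨b, -, rfl⟩ := mem_codeB.1 h2
        exact b.2

variable (a) in
/-- The set of the points. -/
noncomputable def xx : N := code (M := N) (sep N fun s : IPow N (Plain.El a) => Pt s)

variable (a) in
/-- The topology. -/
noncomputable def tt : N := code (M := N) (sep N fun U : IPow N (IPow N (Plain.El a)) => Opx U)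

theorem mem_xx {z : N} : Plain.Mem z (xx a) ↔ ∃ s : IPow N (Plain.El a), Pt s ∧ code s = z := by
  have h := int_Pt (M := N) (A := Plain.El a)
  constructor
  · intro hz
    obtain ⟨s, h1, h2⟩ := mem_codeB.1 hz
    exact ⟨s, (mem_sep h).1 h1, h2⟩
  · rintro ⟨s, h1, h2⟩
    exact mem_codeB.2 ⟨s, (mem_sep h).2 h1, h2⟩

theorem mem_tt {z : N} : Plain.Mem z (tt a) ↔
    ∃ U : IPow N (IPow N (Plain.El a)), Opx U ∧ code U = z := by
  have h := int_Opx (M := N) (A := Plain.El a)
  constructor
  · intro hz
    obtain ⟨s, h1, h2⟩ := mem_codeB.1 hz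
    exact ⟨s, (mem_sep h).1 h1, h2⟩
  · rintro ⟨s, h1, h2⟩
    exact mem_codeB.2 ⟨s, (mem_sep h).2 h1, h2⟩

theorem mem_tt' {U : IPow N (IPow N (Plain.El a))} : Plain.Mem (code U) (tt a) ↔ Opx U := by
  rw [mem_tt]
  constructor
  · rintro ⟨V, h1, h2⟩
    rwa [← ITy.inj h2]
  · exact fun h => ⟨U, h, rfl⟩

theorem exists_setx {u : N} (h : ∀ z, Plain.Mem z u → Plain.Mem z (xx a)) :
    ∃ U : IPow N (IPow N (Plain.El a)), code U = u ∧ ∀ s, s ∈ U → Pt s := by
  obtain ⟨U, rfl⟩ := exists_codeB (α := IPow N (Plain.El a)) (u := u) fun z hz => by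
    obtain ⟨s, -, h1⟩ := mem_xx.1 (h z hz)
    exact ⟨s, h1⟩
  refine ⟨U, rfl, fun s hs => ?_⟩
  obtain ⟨s', h1, h2⟩ := mem_xx.1 (h _ (mem_codeB'.2 hs))
  rwa [← ITy.inj h2]

theorem isTopology_tt : IsTopology (tt a) (xx a) := by
  have hPt := int_Pt (M := N) (A := Plain.El a)
  refine ⟨fun u hu z hz => ?_, ?_, fun u v w hu hv hw => ?_, fun c w hc hw => ?_⟩
  · obtain ⟨U, h1, rfl⟩ := mem_tt.1 hu
    obtain ⟨s, h2, rfl⟩ := mem_codeB.1 hz
    exact mem_xx.2 ⟨s, h1.1 s h2, rfl⟩
  · exact mem_tt'.2 clx_all.1
  · obtain ⟨U, h1, rfl⟩ := mem_tt.1 hu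
    obtain ⟨V, h2, rfl⟩ := mem_tt.1 hv
    have hI : Int N (fun s : IPow N (Plain.El a) => s ∈ U ∧ s ∈ V) := by (repeat' (first | with_reducible exact IntF.id | with_reducible exact IntF.fst' | with_reducible exact IntF.snd' | with_reducible exact IntF.const _ | with_reducible exact Int.const _ | assumption | with_reducible apply Int.and | with_reducible apply Int.or | with_reducible apply Int.not | with_reducible apply Int.imp | with_reducible apply Int.iff | with_reducible apply Int.ne | with_reducible apply Int.eq | with_reducible apply Int.mem | with_reducible apply Int.subset | with_reducible apply Int.ltN | with_reducible apply Int.leN | with_reducible_and_instances apply Int.le | with_reducible_and_instances apply Int.lt | with_reducible apply Int.all | with_reducible apply Int.ex | with_reducible apply IntF.fst | with_reducible apply IntF.snd | with_reducible apply IntF.app | with_reducible apply IntF.inl | with_reducible apply IntF.inr | with_reducible_and_instances apply IntF.mul | with_reducible_and_instances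 apply IntF.inv | with_reducible_and_instances apply IntF.add | with_reducible_and_instances apply IntF.sub | with_reducible_and_instances apply IntF.neg | with_reducible_and_instances apply IntF.smul | with_reducible apply Int.fin | with_reducible apply IntF.sep | with_reducible apply IntF.lam | with_reducible apply IntF.insert | with_reducible apply IntF.singleton | with_reducible apply IntF.union | with_reducible apply IntF.iimage | with_reducible apply IntF.ite | with_reducible apply IntF.the | with_reducible apply IntF.irec | with_reducible apply IntF.succ | with_reducible apply IntF.val | with_reducible apply IntF.mk | (with_reducible refine Int.comp ?_ ?_; assumption) | (with_reducible refine Int.comp₂ ?_ ?_ ?_; assumption) | (with_reducible refine Int.comp₃ ?_ ?_ ?_ ?_; assumption) | (with_reducible refine Int.comp₄ ?_ ?_ ?_ ?_ ?_; assumption) | (with_reducible refine IntF.comp ?_ ?_; assumption) | (with_reducible refine IntF.comp₂ ?_ ?_ ?_; assumption) | (with_reducible refine IntF.comp₃ ?_ ?_ ?_ ?_; assumption)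 | with_reducible apply IntF.pair))
    have h3 : w = code (M := N) (sep N fun s : IPow N (Plain.El a) => s ∈ U ∧ s ∈ V) := by
      refine extM fun z => ⟨fun hz => ?_, fun hz => ?_⟩
      · obtain ⟨h4, h5⟩ := (hw z).1 hz
        obtain ⟨s, h6, rfl⟩ := mem_codeB.1 h4
        exact mem_codeB'.2 ((mem_sep hI).2 ⟨h6, mem_codeB'.1 h5⟩)
      · obtain ⟨s, h6, rfl⟩ := mem_codeB.1 hz
        rw [mem_sep hI] at h6
        exact (hw _).2 ⟨mem_codeB'.2 h6.1, mem_codeB'.2 h6.2⟩
    rw [h3]
    refine mem_tt'.2 ⟨fun s hs => h1.1 s ((mem_sep hI).1 hs).1, fun s hs => ?_⟩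
    obtain ⟨F, h4, h5⟩ := h1.2 s ((mem_sep hI).1 hs).1
    obtain ⟨F', h4', h5'⟩ := h2.2 s ((mem_sep hI).1 hs).2
    exact ⟨F ∪ F', h4.union h4', fun y hy => (mem_sep hI).2
      ⟨h5 y (hy.mono fun j hj => mem_union.2 (Or.inl hj)),
        h5' y (hy.mono fun j hj => mem_union.2 (Or.inr hj))⟩⟩
  · obtain ⟨W, rfl, hW⟩ := exists_setx (a := a) (u := w) fun z hz => by
      obtain ⟨u, h1, h2⟩ := (hw z).1 hz
      obtain ⟨U, h3, rfl⟩ := mem_tt.1 (hc u h1)
      obtain ⟨s, h4, rfl⟩ := mem_codeB.1 h2
      exact mem_xx.2 ⟨s, h3.1 s h4, rfl⟩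
    refine mem_tt'.2 ⟨hW, fun s hs => ?_⟩
    obtain ⟨u, h1, h2⟩ := (hw _).1 (mem_codeB'.2 hs)
    obtain ⟨U, h3, rfl⟩ := mem_tt.1 (hc u h1)
    obtain ⟨F, h4, h5⟩ := h3.2 s (mem_codeB'.1 h2)
    exact ⟨F, h4, fun y hy => mem_codeB'.1 ((hw _).2 ⟨_, h1, mem_codeB'.2 (h5 y hy)⟩)⟩

theorem isClopen_iff {U : IPow N (IPow N (Plain.El a))} :
    IsClopen (tt a) (xx a) (code U) ↔ Clx U := by
  constructor
  · rintro ⟨h1, v, h2, h3⟩
    obtain ⟨V, h4, rfl⟩ := mem_tt.1 h2
    have h5 : cmp U = V := by
      refine IPow.ext' fun s => ?_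
      rw [mem_cmp]
      constructor
      · rintro ⟨h6, h7⟩
        exact mem_codeB'.1 ((h3 _).2 ⟨mem_xx.2 ⟨s, h6, rfl⟩, fun h8 => h7 (mem_codeB'.1 h8)⟩)
      · intro h6
        exact ⟨h4.1 s h6, fun h7 => ((h3 _).1 (mem_codeB'.2 h6)).2 (mem_codeB'.2 h7)⟩
    exact ⟨mem_tt'.1 h1, h5.symm ▸ h4⟩
  · rintro ⟨h1, h2⟩
    refine ⟨mem_tt'.2 h1, code (cmp U), mem_tt'.2 h2, fun z => ⟨fun hz => ?_, fun hz => ?_⟩⟩
    · obtain ⟨s, h3, rfl⟩ := mem_codeB.1 hz
      rw [mem_cmp] at h3
      exact ⟨mem_xx.2 ⟨s, h3.1, rfl⟩, fun h4 => h3.2 (mem_codeB'.1 h4)⟩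
    · obtain ⟨s, h3, rfl⟩ := mem_xx.1 hz.1
      exact mem_codeB'.2 (mem_cmp.2 ⟨h3, fun h4 => hz.2 (mem_codeB'.2 h4)⟩)

theorem isT1_tt : IsT1 (tt a) (xx a) := by
  intro y z hy hz hyz
  obtain ⟨s, hs, rfl⟩ := mem_xx.1 hy
  obtain ⟨s', hs', rfl⟩ := mem_xx.1 hz
  have hne : ∃ b, ¬ (b ∈ s ↔ b ∈ s') := by
    by_contra h
    push Not at h
    exact hyz (congrArg code (IPow.ext' h))
  obtain ⟨b, hb⟩ := hne
  exact ⟨code (VV s b), mem_tt'.2 (clx_VV s b).1, mem_codeB'.2 (mem_VV.2 ⟨hs, Iff.rfl⟩),
    fun h => hb (mem_VV.1 (mem_codeB'.1 h)).2.symm⟩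

theorem clx_cyl {y : IPow N (Plain.El a)} {F : IPow N (Plain.El a)} (hF : IFin F) :
    ∃ U : IPow N (IPow N (Plain.El a)), Clx U ∧ ∀ s, s ∈ U ↔ Pt s ∧ Ag F y s := by
  have hPt := int_Pt (M := N) (A := Plain.El a)
  have hAg := int_Ag (M := N) (J := Plain.El a)
  have hI : Int N (fun s : IPow N (Plain.El a) => Pt s ∧ Ag F y s) :=
    Int.and hPt (Int.comp (p := fun q : (IPow N (Plain.El a) × IPow N (Plain.El a)) ×
      IPow N (Plain.El a) => Ag q.1.1 q.1.2 q.2) (f := fun s => ((F, y), s)) hAg (by (repeat' (first | with_reducible exact IntF.id | with_reducible exact IntF.fst' | with_reducible exact IntF.snd' | with_reducible exact IntF.const _ | with_reducible exact Int.const _ | assumption | with_reducible apply Int.and | with_reducible apply Int.or | with_reducible apply Int.not | with_reducible apply Int.imp | with_reducible apply Int.iff | with_reducible apply Int.ne | with_reducible apply Int.eq | with_reducible apply Int.mem | with_reducible apply Int.subset | with_reducible apply Int.ltN | with_reducible apply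 Int.leN | with_reducible_and_instances apply Int.le | with_reducible_and_instances apply Int.lt | with_reducible apply Int.all | with_reducible apply Int.ex | with_reducible apply IntF.fst | with_reducible apply IntF.snd | with_reducible apply IntF.app | with_reducible apply IntF.inl | with_reducible apply IntF.inr | with_reducible_and_instances apply IntF.mul | with_reducible_and_instances apply IntF.inv | with_reducible_and_instances apply IntF.add | with_reducible_and_instances apply IntF.sub | with_reducible_and_instances apply IntF.neg | with_reducible_and_instances apply IntF.smul | with_reducible apply Int.fin | with_reducible apply IntF.sep | with_reducible apply IntF.lam | with_reducible apply IntF.insert | with_reducible apply IntF.singleton | with_reducible apply IntF.union | with_reducible apply IntF.iimage | with_reducible apply IntF.ite | with_reducible apply IntF.the | with_reducible apply IntF.irec | with_reducible apply IntF.succ | with_reducible apply IntF.val | with_reducible apply IntF.mk | (with_reducible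 refine Int.comp ?_ ?_; assumption) | (with_reducible refine Int.comp₂ ?_ ?_ ?_; assumption) | (with_reducible refine Int.comp₃ ?_ ?_ ?_ ?_; assumption) | (with_reducible refine Int.comp₄ ?_ ?_ ?_ ?_ ?_; assumption) | (with_reducible refine IntF.comp ?_ ?_; assumption) | (with_reducible refine IntF.comp₂ ?_ ?_ ?_; assumption) | (with_reducible refine IntF.comp₃ ?_ ?_ ?_ ?_; assumption) | with_reducible apply IntF.pair))))
  refine ⟨sep N fun s => Pt s ∧ Ag F y s, ⟨?_, ?_⟩, fun s => mem_sep hI⟩
  · exact opx_of (fun s hs => ((mem_sep hI).1 hs).1) fun s hs => ⟨F, hF, fun s' h1 h2 =>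
      (mem_sep hI).2 ⟨h1, ((mem_sep hI).1 hs).2.trans h2⟩⟩
  · exact opx_of (fun s hs => (mem_cmp.1 hs).1) fun s hs => ⟨F, hF, fun s' h1 h2 =>
      mem_cmp.2 ⟨h1, fun h3 => (mem_cmp.1 hs).2 ((mem_sep hI).2 ⟨(mem_cmp.1 hs).1,
        ((mem_sep hI).1 h3).2.trans h2.symm⟩)⟩⟩

theorem isZeroDim_tt : IsZeroDim (tt a) (xx a) := by
  intro u z hu hz
  obtain ⟨U, h1, rfl⟩ := mem_tt.1 hu
  obtain ⟨s, h2, rfl⟩ := mem_codeB.1 hz
  obtain ⟨F, h3, h4⟩ := h1.2 s h2
  obtain ⟨V, h5, h6⟩ := clx_cyl (y := s) h3
  refine ⟨code V, isClopen_iff.2 h5, mem_codeB'.2 ((h6 s).2 ⟨h1.1 s h2, Ag.refl _ _⟩),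
    fun y hy => ?_⟩
  obtain ⟨s', h7, rfl⟩ := mem_codeB.1 hy
  exact mem_codeB'.2 (h4 s' ((h6 s').1 h7).2)

theorem isCdelta_iff {C : IPow N (IPow N (Plain.El a))} :
    IsCdelta (tt a) (xx a) (code C) ↔ Cdx C := by
  constructor
  · rintro ⟨c, h1, h2, h3, h4⟩
    obtain ⟨S, rfl⟩ := exists_codeB (α := IPow N (IPow N (Plain.El a))) (u := c) fun u hu => by
      obtain ⟨U, -, h5⟩ := mem_tt.1 (h3 u hu).1
      exact ⟨U, h5⟩
    refine ⟨S, isCtble_iff.1 h1, ?_, fun U hU => isClopen_iff.1 (h3 _ (mem_codeB'.2 hU)),
      fun s => ?_⟩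
    · obtain ⟨u, hu⟩ := h2
      obtain ⟨U, hU, -⟩ := mem_codeB.1 hu
      exact ⟨U, hU⟩
    · constructor
      · intro hs U hU
        exact mem_codeB'.1 ((h4 _).1 (mem_codeB'.2 hs) _ (mem_codeB'.2 hU))
      · intro h
        refine mem_codeB'.1 ((h4 _).2 fun u hu => ?_)
        obtain ⟨U, hU, rfl⟩ := mem_codeB.1 hu
        exact mem_codeB'.2 (h U hU)
  · rintro ⟨S, h1, h2, h3, h4⟩
    refine ⟨code S, isCtble_iff.2 h1, ?_, fun u hu => ?_, fun z => ⟨fun hz u hu => ?_,
      fun hz => ?_⟩⟩
    · obtain ⟨U, hU⟩ := h2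
      exact ⟨code U, mem_codeB'.2 hU⟩
    · obtain ⟨U, hU, rfl⟩ := mem_codeB.1 hu
      exact isClopen_iff.2 (h3 U hU)
    · obtain ⟨U, hU, rfl⟩ := mem_codeB.1 hu
      obtain ⟨s, hs, rfl⟩ := mem_codeB.1 hz
      exact mem_codeB'.2 ((h4 s).1 hs U hU)
    · obtain ⟨U₀, hU₀⟩ := h2
      obtain ⟨s, hs, rfl⟩ := mem_codeB.1 (hz _ (mem_codeB'.2 hU₀))
      exact mem_codeB'.2 ((h4 s).2 fun U hU => mem_codeB'.1 (hz _ (mem_codeB'.2 hU)))

theorem cdelta_code {c : N} (h : IsCdelta (tt a) (xx a) c) :
    ∃ C : IPow N (IPow N (Plain.El a)), code C = c := by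
  obtain ⟨C, hC, -⟩ := exists_setx (a := a) (u := c) fun z hz => by
    obtain ⟨S, -, ⟨u, hu⟩, h3, h4⟩ := h
    exact isTopology_tt.sub u (h3 u hu).1 z ((h4 z).1 hz u hu)
  exact ⟨C, hC⟩

theorem exists_filter {F : N} (h : IsCdFilter (tt a) (xx a) F) :
    ∃ S : IPow N (IPow N (IPow N (Plain.El a))), code S = F ∧ CdF S := by
  obtain ⟨S, rfl⟩ := exists_codeB (α := IPow N (IPow N (Plain.El a))) (u := F) fun u hu =>
    cdelta_code (h.mem u hu).1
  refine ⟨S, rfl, ?_, fun C hC => ?_, fun C D E hC hD hE => ?_, fun C D hC hD hCD => ?_⟩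
  · obtain ⟨c, hc⟩ := h.ne
    obtain ⟨C, hC, -⟩ := mem_codeB.1 hc
    exact ⟨C, hC⟩
  · obtain ⟨h1, z, h2⟩ := h.mem _ (mem_codeB'.2 hC)
    obtain ⟨s, hs, -⟩ := mem_codeB.1 h2
    exact ⟨isCdelta_iff.1 h1, s, hs⟩
  · refine mem_codeB'.1 (h.inter _ _ _ (mem_codeB'.2 hC) (mem_codeB'.2 hD) fun z =>
      ⟨fun hz => ?_, fun hz => ?_⟩)
    · obtain ⟨s, hs, rfl⟩ := mem_codeB.1 hz
      exact ⟨mem_codeB'.2 ((hE s).1 hs).1, mem_codeB'.2 ((hE s).1 hs).2⟩
    · obtain ⟨s, hs, rfl⟩ := mem_codeB.1 hz.1
      exact mem_codeB'.2 ((hE s).2 ⟨hs, mem_codeB'.1 hz.2⟩)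
  · refine mem_codeB'.1 (h.up _ _ (mem_codeB'.2 hC) (isCdelta_iff.2 hD) fun z hz => ?_)
    obtain ⟨s, hs, rfl⟩ := mem_codeB.1 hz
    exact mem_codeB'.2 (hCD s hs)

theorem isCdFilter_code {S : IPow N (IPow N (IPow N (Plain.El a)))} (h : CdF S) :
    IsCdFilter (tt a) (xx a) (code S) := by
  refine ⟨?_, fun c hc => ?_, fun c d e hc hd he => ?_, fun c d hc hd hcd => ?_⟩
  · obtain ⟨C, hC⟩ := h.ne
    exact ⟨code C, mem_codeB'.2 hC⟩
  · obtain ⟨C, hC, rfl⟩ := mem_codeB.1 hc
    obtain ⟨h1, s, hs⟩ := h.mem C hC
    exact ⟨isCdelta_iff.2 h1, code s, mem_codeB'.2 hs⟩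
  · obtain ⟨C, hC, rfl⟩ := mem_codeB.1 hc
    obtain ⟨D, hD, rfl⟩ := mem_codeB.1 hd
    obtain ⟨E, rfl⟩ := exists_codeB (α := IPow N (Plain.El a)) (u := e) fun z hz => by
      obtain ⟨s, -, h1⟩ := mem_codeB.1 ((he z).1 hz).1
      exact ⟨s, h1⟩
    exact mem_codeB'.2 (h.inter C D E hC hD fun s => ⟨fun hs => ⟨mem_codeB'.1
      ((he _).1 (mem_codeB'.2 hs)).1, mem_codeB'.1 ((he _).1 (mem_codeB'.2 hs)).2⟩,
      fun hs => mem_codeB'.1 ((he _).2 ⟨mem_codeB'.2 hs.1, mem_codeB'.2 hs.2⟩)⟩)
  · obtain ⟨C, hC, rfl⟩ := mem_codeB.1 hc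
    obtain ⟨D, rfl⟩ := cdelta_code hd
    exact mem_codeB'.2 (h.up C D hC (isCdelta_iff.1 hd) fun s hs =>
      mem_codeB'.1 (hcd _ (mem_codeB'.2 hs)))

theorem isFixed_of {B : INat N × Plain.El a → Prop} (hB : CB B) {F : N}
    (hF : IsCdUltra (tt a) (xx a) F) (hc : HasCip F) : IsFixed F := by
  obtain ⟨S, rfl, hS⟩ := exists_filter hF.1
  obtain ⟨s, hs⟩ := fixed_of hS (fun G hG hSG C hC => mem_codeB'.1 (hF.2 (code G)
    (isCdFilter_code hG) (fun c hc => by
      obtain ⟨D, hD, rfl⟩ := mem_codeB.1 hc
      exact mem_codeB'.2 (hSG D hD)) _ (mem_codeB'.2 hC))) (fun T h1 h2 h3 => by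
    obtain ⟨U₀, hU₀⟩ := h2
    obtain ⟨z, hz⟩ := hc (code T) (isCtble_iff.2 h1) ⟨code U₀, mem_codeB'.2 hU₀⟩ fun u hu => by
      obtain ⟨U, hU, rfl⟩ := mem_codeB.1 hu
      exact mem_codeB'.2 (h3 U hU)
    obtain ⟨s, hs, rfl⟩ := mem_codeB.1 (hz _ (mem_codeB'.2 hU₀))
    exact ⟨s, fun U hU => mem_codeB'.1 (hz _ (mem_codeB'.2 hU))⟩) hB
  refine ⟨code s, fun u hu => ?_⟩
  obtain ⟨U, hU, rfl⟩ := mem_codeB.1 hu
  exact mem_codeB'.2 (hs U hU)

end

end Pool.Agent.Helper672.ZFA.V246
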