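import Pool.Agent.V11246.Cube
import Pool.Agent.H310R3.Real

/-!
# Countable predicates
-/

set_option maxHeartbeats 1000000
set_option linter.all false
set_option synthInstance.maxSize 2000

namespace Pool.Agent.Helper672.ZFA.V246

open FirstOrder FirstOrder.Language
open Pool.Agent.Helper672.ZFA
open Pool.Agent.H310

universe u u₁

section

variable {M : Type u} [L.Structure M] [hM : IsModel M] {α β : Type u₁} [ITy M α] [ITy M β]

variable (M) in
/-- Countable predicates. -/
def Ctb (P : α → Prop) : Prop :=
  ∃ e : α → INat M, IntF M e ∧ ∀ a b, P a → P b → e a = e b → a = b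

theorem Ctb.mono {P Q : α → Prop} (h : Ctb M Q) (hPQ : ∀ a, P a → Q a) : Ctb M P := by
  obtain ⟨e, he, h1⟩ := h
  exact ⟨e, he, fun a b ha hb => h1 a b (hPQ a ha) (hPQ b hb)⟩

theorem Ctb.eq (a : α) : Ctb M (fun x => x = a) :=
  ⟨fun _ => 0, IntF.const _, fun x y hx hy _ => hx.trans hy.symm⟩

theorem Ctb.nat : Ctb M (fun _ : INat M => True) := ⟨fun n => n, IntF.id, fun _ _ _ _ h => h⟩

theorem Ctb.fin {s : IPow M α} (hs : IFin s) : Ctb M (fun x => x ∈ s) := by
  obtain ⟨n, f, h1, h2⟩ := hs.sz
  exact ⟨f, f.2, fun a b ha hb => h2 a b ha hb⟩

open Classical in
theorem Ctb.or {P Q : α → Prop} (hP : Int M P) (h : Ctb M P) (h' : Ctb M Q) :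
    Ctb M (fun x => P x ∨ Q x) := by
  obtain ⟨e, he, h1⟩ := h
  obtain ⟨e', he', h1'⟩ := h'
  have hp : IntF M (fun q : INat M × INat M => pr q.1 q.2) := int_pr
  have hI : IntF M (fun x : α => if P x then pr 0 (e x) else pr (INat.succ 0) (e' x)) := by (repeat' (first | with_reducible exact IntF.id | with_reducible exact IntF.fst' | with_reducible exact IntF.snd' | with_reducible exact IntF.const _ | with_reducible exact Int.const _ | assumption | with_reducible apply Int.and | with_reducible apply Int.or | with_reducible apply Int.not | with_reducible apply Int.imp | with_reducible apply Int.iff | with_reducible apply Int.ne | with_reducible apply Int.eq | with_reducible apply Int.mem | with_reducible apply Int.subset | with_reducible apply Int.ltN | with_reducible apply Int.leN | with_reducible_and_instances apply Int.le | with_reducible_and_instances apply Int.lt | with_reducible apply Int.all | with_reducible apply Int.ex | with_reducible apply IntF.fst | with_reducible apply IntF.snd | with_reducible apply IntF.app | with_reducible apply IntF.inl | with_reducible apply IntF.inr | with_reducible_and_instances apply IntF.mul | with_reducible_and_instances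 apply IntF.inv | with_reducible_and_instances apply IntF.add | with_reducible_and_instances apply IntF.sub | with_reducible_and_instances apply IntF.neg | with_reducible_and_instances apply IntF.smul | with_reducible apply Int.fin | with_reducible apply IntF.sep | with_reducible apply IntF.lam | with_reducible apply IntF.insert | with_reducible apply IntF.singleton | with_reducible apply IntF.union | with_reducible apply IntF.iimage | with_reducible apply IntF.ite | with_reducible apply IntF.the | with_reducible apply IntF.irec | with_reducible apply IntF.succ | with_reducible apply IntF.val | with_reducible apply IntF.mk | (with_reducible refine Int.comp ?_ ?_; assumption) | (with_reducible refine Int.comp₂ ?_ ?_ ?_; assumption) | (with_reducible refine Int.comp₃ ?_ ?_ ?_ ?_; assumption) | (with_reducible refine Int.comp₄ ?_ ?_ ?_ ?_ ?_; assumption) | (with_reducible refine IntF.comp ?_ ?_; assumption) | (with_reducible refine IntF.comp₂ ?_ ?_ ?_; assumption) | (with_reducible refine IntF.comp₃ ?_ ?_ ?_ ?_; assumption) | with_reducible apply IntF.pair))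
  refine ⟨_, hI, fun a b ha hb hab => ?_⟩
  by_cases h2 : P a <;> by_cases h3 : P b
  · rw [if_pos h2, if_pos h3] at hab
    exact h1 a b h2 h3 (pr_inj hab).2
  · rw [if_pos h2, if_neg h3] at hab
    exact absurd (pr_inj hab).1.symm (INat.succ_ne_zero _)
  · rw [if_neg h2, if_pos h3] at hab
    exact absurd (pr_inj hab).1 (INat.succ_ne_zero _)
  · rw [if_neg h2, if_neg h3] at hab
    exact h1' a b (ha.resolve_left h2) (hb.resolve_left h3) (pr_inj hab).2

theorem Ctb.image {P : α → Prop} (hP : Int M P) (h : Ctb M P) {f : α → β} (hf : IntF M f) :
    Ctb M (fun b => ∃ a, P a ∧ f a = b) := by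
  obtain ⟨e, he, h1⟩ := h
  have hI : Int M (fun q : β × INat M => (∃ a, P a ∧ f a = q.1 ∧ e a = q.2) ∧
      ∀ k, (∃ a, P a ∧ f a = q.1 ∧ e a = k) → q.2 ≤ k) := by (repeat' (first | with_reducible exact IntF.id | with_reducible exact IntF.fst' | with_reducible exact IntF.snd' | with_reducible exact IntF.const _ | with_reducible exact Int.const _ | assumption | with_reducible apply Int.and | with_reducible apply Int.or | with_reducible apply Int.not | with_reducible apply Int.imp | with_reducible apply Int.iff | with_reducible apply Int.ne | with_reducible apply Int.eq | with_reducible apply Int.mem | with_reducible apply Int.subset | with_reducible apply Int.ltN | with_reducible apply Int.leN | with_reducible_and_instances apply Int.le | with_reducible_and_instances apply Int.lt | with_reducible apply Int.all | with_reducible apply Int.ex | with_reducible apply IntF.fst | with_reducible apply IntF.snd | with_reducible apply IntF.app | with_reducible apply IntF.inl | with_reducible apply IntF.inr | with_reducible_and_instances apply IntF.mul | with_reducible_and_instances apply IntF.inv | with_reducible_and_instances apply IntF.add | with_reducible_and_instances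 apply IntF.sub | with_reducible_and_instances apply IntF.neg | with_reducible_and_instances apply IntF.smul | with_reducible apply Int.fin | with_reducible apply IntF.sep | with_reducible apply IntF.lam | with_reducible apply IntF.insert | with_reducible apply IntF.singleton | with_reducible apply IntF.union | with_reducible apply IntF.iimage | with_reducible apply IntF.ite | with_reducible apply IntF.the | with_reducible apply IntF.irec | with_reducible apply IntF.succ | with_reducible apply IntF.val | with_reducible apply IntF.mk | (with_reducible refine Int.comp ?_ ?_; assumption) | (with_reducible refine Int.comp₂ ?_ ?_ ?_; assumption) | (with_reducible refine Int.comp₃ ?_ ?_ ?_ ?_; assumption) | (with_reducible refine Int.comp₄ ?_ ?_ ?_ ?_ ?_; assumption) | (with_reducible refine IntF.comp ?_ ?_; assumption) | (with_reducible refine IntF.comp₂ ?_ ?_ ?_; assumption) | (with_reducible refine IntF.comp₃ ?_ ?_ ?_ ?_; assumption) | with_reducible apply IntF.pair))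
  have hF : IntF M (fun b : β => the (fun n : INat M => (∃ a, P a ∧ f a = b ∧ e a = n) ∧
      ∀ k, (∃ a, P a ∧ f a = b ∧ e a = k) → n ≤ k) 0) := IntF.the hI (IntF.const _)
  have key : ∀ b, (∃ a, P a ∧ f a = b) → ∃ a, P a ∧ f a = b ∧
      e a = the (fun n : INat M => (∃ a, P a ∧ f a = b ∧ e a = n) ∧
        ∀ k, (∃ a, P a ∧ f a = b ∧ e a = k) → n ≤ k) 0 := by
    rintro b ⟨a, ha, hab⟩
    have hI2 : Int M (fun n : INat M => ∃ a, P a ∧ f a = b ∧ e a = n) := by (repeat' (first | with_reducible exact IntF.id | with_reducible exact IntF.fst' | with_reducible exact IntF.snd' | with_reducible exact IntF.const _ | with_reducible exact Int.const _ | assumption | with_reducible apply Int.and | with_reducible apply Int.or | with_reducible apply Int.not | with_reducible apply Int.imp | with_reducible apply Int.iff | with_reducible apply Int.ne | with_reducible apply Int.eq | with_reducible apply Int.mem | with_reducible apply Int.subset | with_reducible apply Int.ltN | with_reducible apply Int.leN | with_reducible_and_instances apply Int.le | with_reducible_and_instances apply Int.lt | with_reducible apply Int.all | with_reducible apply Int.ex |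 with_reducible apply IntF.fst | with_reducible apply IntF.snd | with_reducible apply IntF.app | with_reducible apply IntF.inl | with_reducible apply IntF.inr | with_reducible_and_instances apply IntF.mul | with_reducible_and_instances apply IntF.inv | with_reducible_and_instances apply IntF.add | with_reducible_and_instances apply IntF.sub | with_reducible_and_instances apply IntF.neg | with_reducible_and_instances apply IntF.smul | with_reducible apply Int.fin | with_reducible apply IntF.sep | with_reducible apply IntF.lam | with_reducible apply IntF.insert | with_reducible apply IntF.singleton | with_reducible apply IntF.union | with_reducible apply IntF.iimage | with_reducible apply IntF.ite | with_reducible apply IntF.the | with_reducible apply IntF.irec | with_reducible apply IntF.succ | with_reducible apply IntF.val | with_reducible apply IntF.mk | (with_reducible refine Int.comp ?_ ?_; assumption) | (with_reducible refine Int.comp₂ ?_ ?_ ?_; assumption) | (with_reducible refine Int.comp₃ ?_ ?_ ?_ ?_; assumption) | (with_reducible refine Int.comp₄ ?_ ?_ ?_ ?_ ?_; assumption) | (with_reducible refine IntF.comp ?_ ?_; assumption) |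 (with_reducible refine IntF.comp₂ ?_ ?_ ?_; assumption) | (with_reducible refine IntF.comp₃ ?_ ?_ ?_ ?_; assumption) | with_reducible apply IntF.pair))
    obtain ⟨n, h2, h3⟩ := INat.least hI2 ⟨e a, a, ha, hab, rfl⟩
    have h4 : the (fun n : INat M => (∃ a, P a ∧ f a = b ∧ e a = n) ∧
        ∀ k, (∃ a, P a ∧ f a = b ∧ e a = k) → n ≤ k) 0 = n :=
      the_eq ⟨n, ⟨h2, h3⟩, fun m hm => le_antisymm (hm.2 n h2) (h3 m hm.1)⟩ ⟨h2, h3⟩
    rw [h4]
    exact h2
  refine ⟨_, hF, fun b b' hb hb' hbb => ?_⟩
  obtain ⟨a, h2, h3, h4⟩ := key b hb
  obtain ⟨a', h2', h3', h4'⟩ := key b' hb'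
  rw [← h3, ← h3', h1 a a' h2 h2' (h4.trans (hbb.trans h4'.symm))]

end

end Pool.Agent.Helper672.ZFA.V246
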