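import Pool.Agent.V11246.Bri
import Pool.Agent.V11246.Ctb
import Pool.Agent.H310R3.TopDefs

/-!
# Spaces from internal data
-/

set_option maxHeartbeats 1000000
set_option linter.all false
set_option synthInstance.maxSize 2000

namespace Pool.Agent.Helper672.ZFA.V246

open FirstOrder FirstOrder.Language
open H635 (IWO)
open Pool.Agent.H310
open Pool.Agent.H310Cards
open Pool.Agent.Helper672.Plain (LSet)
open Pool.Agent.H310Top

universe u

section

attribute [local instance] Helper672.Plain.toL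

variable {N : Type u} [LSet.Structure N] [hZ : Helper672.Plain.Zermelo N]

local instance instModelSp : IsModel N := Helper672.Plain.isModel_toL

noncomputable local instance instPElSp (x : N) : ITy N (Helper672.Plain.El x) :=
  (inferInstance : ITy N (El x))

variable {α : Type u} [ITy N α] {P : α → Prop} {O : IPow N α → Prop}

/-- The set of the points. -/
noncomputable def xs (P : α → Prop) : N := code (M := N) (sep N P)

/-- The topology. -/
noncomputable def ts (O : IPow N α → Prop) : N := code (M := N) (sep N O)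

/-- The open sets of a space. -/
structure SpO (N : Type u) [LSet.Structure N] [Helper672.Plain.Zermelo N] {α : Type u} [ITy N α]
    (P : α → Prop) (O : IPow N α → Prop) : Prop where
  iP : Int N P
  iO : Int N O
  sub : ∀ U, O U → ∀ s, s ∈ U → P s
  univ : ∀ U, (∀ s, s ∈ U ↔ P s) → O U
  inter : ∀ U V W, O U → O V → (∀ s, s ∈ W ↔ s ∈ U ∧ s ∈ V) → O W
  union : ∀ c : IPow N (IPow N α), ∀ W, (∀ U, U ∈ c → O U) →
    (∀ s, s ∈ W ↔ ∃ U, U ∈ c ∧ s ∈ U) → O W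

variable (h : SpO N P O)

include h

theorem mem_xs {z : N} : Plain.Mem z (xs P) ↔ ∃ s, P s ∧ code s = z := by
  constructor
  · intro hz
    obtain ⟨s, h1, h2⟩ := mem_codeB.1 hz
    exact ⟨s, (mem_sep h.iP).1 h1, h2⟩
  · rintro ⟨s, h1, h2⟩
    exact mem_codeB.2 ⟨s, (mem_sep h.iP).2 h1, h2⟩

theorem mem_xs' {s : α} : Plain.Mem (code s) (xs (N := N) P) ↔ P s := by
  rw [mem_xs h]
  constructor
  · rintro ⟨t, h1, h2⟩
    rwa [← ITy.inj h2]
  · exact fun h => ⟨s, h, rfl⟩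

theorem mem_ts {z : N} : Plain.Mem z (ts O) ↔ ∃ U, O U ∧ code U = z := by
  constructor
  · intro hz
    obtain ⟨s, h1, h2⟩ := mem_codeB.1 hz
    exact ⟨s, (mem_sep h.iO).1 h1, h2⟩
  · rintro ⟨s, h1, h2⟩
    exact mem_codeB.2 ⟨s, (mem_sep h.iO).2 h1, h2⟩

theorem mem_ts' {U : IPow N α} : Plain.Mem (code U) (ts O) ↔ O U := by
  rw [mem_ts h]
  constructor
  · rintro ⟨V, h1, h2⟩
    rwa [← ITy.inj h2]
  · exact fun h => ⟨U, h, rfl⟩

/-- Subsets. -/
theorem exists_sub {u : N} (hu : ∀ z, Plain.Mem z u → Plain.Mem z (xs P)) :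
    ∃ U : IPow N α, code U = u ∧ ∀ s, s ∈ U → P s := by
  obtain ⟨U, rfl⟩ := exists_codeB (α := α) (u := u) fun z hz => by
    obtain ⟨s, -, h1⟩ := (mem_xs h).1 (hu z hz)
    exact ⟨s, h1⟩
  exact ⟨U, rfl, fun s hs => (mem_xs' h).1 (hu _ (mem_codeB'.2 hs))⟩

/-- Families of open sets. -/
theorem exists_fam {u : N} (hu : ∀ z, Plain.Mem z u → Plain.Mem z (ts O)) :
    ∃ c : IPow N (IPow N α), code c = u ∧ ∀ U, U ∈ c → O U := by
  obtain ⟨U, rfl⟩ := exists_codeB (α := IPow N α) (u := u) fun z hz => by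
    obtain ⟨s, -, h1⟩ := (mem_ts h).1 (hu z hz)
    exact ⟨s, h1⟩
  exact ⟨U, rfl, fun s hs => (mem_ts' h).1 (hu _ (mem_codeB'.2 hs))⟩

theorem isTopology_ts : IsTopology (ts O) (xs P) := by
  refine ⟨fun u hu z hz => ?_, ?_, fun u v w hu hv hw => ?_, fun c w hc hw => ?_⟩
  · obtain ⟨U, h1, rfl⟩ := (mem_ts h).1 hu
    obtain ⟨s, h2, rfl⟩ := mem_codeB.1 hz
    exact (mem_xs' h).2 (h.sub U h1 s h2)
  · exact (mem_ts' h).2 (h.univ _ fun s => mem_sep h.iP)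
  · obtain ⟨U, h1, rfl⟩ := (mem_ts h).1 hu
    obtain ⟨V, h2, rfl⟩ := (mem_ts h).1 hv
    obtain ⟨W, rfl⟩ := exists_codeB (α := α) (u := w) fun z hz => by
      obtain ⟨s, -, h3⟩ := mem_codeB.1 ((hw z).1 hz).1
      exact ⟨s, h3⟩
    refine (mem_ts' h).2 (h.inter U V W h1 h2 fun s => ⟨fun hs => ?_, fun hs => ?_⟩)
    · have h3 := (hw _).1 (mem_codeB'.2 hs)
      exact ⟨mem_codeB'.1 h3.1, mem_codeB'.1 h3.2⟩
    · exact mem_codeB'.1 ((hw _).2 ⟨mem_codeB'.2 hs.1, mem_codeB'.2 hs.2⟩)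
  · obtain ⟨C, rfl, h1⟩ := exists_fam h hc
    obtain ⟨W, rfl⟩ := exists_codeB (α := α) (u := w) fun z hz => by
      obtain ⟨u, h2, h3⟩ := (hw z).1 hz
      obtain ⟨U, -, rfl⟩ := mem_codeB.1 h2
      obtain ⟨s, -, h4⟩ := mem_codeB.1 h3
      exact ⟨s, h4⟩
    refine (mem_ts' h).2 (h.union C W h1 fun s => ⟨fun hs => ?_, ?_⟩)
    · obtain ⟨u, h2, h3⟩ := (hw _).1 (mem_codeB'.2 hs)
      obtain ⟨U, h4, rfl⟩ := mem_codeB.1 h2
      exact ⟨U, h4, mem_codeB'.1 h3⟩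
    · rintro ⟨U, h2, h3⟩
      exact mem_codeB'.1 ((hw _).2 ⟨_, mem_codeB'.2 h2, mem_codeB'.2 h3⟩)

theorem isCompact_ts (hc : ∀ c : IPow N (IPow N α), (∀ U, U ∈ c → O U) →
    (∀ s, P s → ∃ U, U ∈ c ∧ s ∈ U) → ∃ c' : IPow N (IPow N α), IFin c' ∧ (∀ U, U ∈ c' → U ∈ c) ∧
      ∀ s, P s → ∃ U, U ∈ c' ∧ s ∈ U) : IsCompact (ts O) (xs P) := by
  intro c h1 h2
  obtain ⟨C, rfl, h3⟩ := exists_fam h h1
  obtain ⟨c', h4, h5, h6⟩ := hc C h3 fun s hs => by
    obtain ⟨u, h4, h5⟩ := h2 _ ((mem_xs' h).2 hs)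
    obtain ⟨U, h6, rfl⟩ := mem_codeB.1 h4
    exact ⟨U, h6, mem_codeB'.1 h5⟩
  refine ⟨code c', isFinite_of_fin h4, fun u hu => ?_, fun z hz => ?_⟩
  · obtain ⟨U, h7, rfl⟩ := mem_codeB.1 hu
    exact mem_codeB'.2 (h5 U h7)
  · obtain ⟨s, h7, rfl⟩ := (mem_xs h).1 hz
    obtain ⟨U, h8, h9⟩ := h6 s h7
    exact ⟨code U, mem_codeB'.2 h8, mem_codeB'.2 h9⟩

theorem compact_of (hc : IsCompact (ts O) (xs P)) (c : IPow N (IPow N α))
    (h1 : ∀ U, U ∈ c → O U) (h2 : ∀ s, P s → ∃ U, U ∈ c ∧ s ∈ U) :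
    ∃ c' : IPow N (IPow N α), IFin c' ∧ (∀ U, U ∈ c' → U ∈ c) ∧
      ∀ s, P s → ∃ U, U ∈ c' ∧ s ∈ U := by
  obtain ⟨c', h3, h4, h5⟩ := hc (code c) (fun u hu => by
    obtain ⟨U, h7, rfl⟩ := mem_codeB.1 hu
    exact (mem_ts' h).2 (h1 U h7)) fun z hz => by
      obtain ⟨s, h7, rfl⟩ := (mem_xs h).1 hz
      obtain ⟨U, h8, h9⟩ := h2 s h7
      exact ⟨code U, mem_codeB'.2 h8, mem_codeB'.2 h9⟩
  obtain ⟨C, rfl⟩ := exists_codeB (α := IPow N α) (u := c') fun z hz => by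
    obtain ⟨U, -, h6⟩ := mem_codeB.1 (h4 z hz)
    exact ⟨U, h6⟩
  refine ⟨C, fin_of_isFinite h3, fun U hU => mem_codeB'.1 (h4 _ (mem_codeB'.2 hU)),
    fun s hs => ?_⟩
  obtain ⟨u, h6, h7⟩ := h5 _ ((mem_xs' h).2 hs)
  obtain ⟨U, h8, rfl⟩ := mem_codeB.1 h6
  exact ⟨U, h8, mem_codeB'.1 h7⟩

theorem isHausdorff_ts (hH : ∀ s s', P s → P s' → s ≠ s' → ∃ U V, O U ∧ O V ∧ s ∈ U ∧ s' ∈ V ∧
    ∀ a, a ∈ U → ¬ a ∈ V) : IsHausdorff (ts O) (xs P) := by
  intro y z hy hz hyz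
  obtain ⟨s, h1, rfl⟩ := (mem_xs h).1 hy
  obtain ⟨s', h2, rfl⟩ := (mem_xs h).1 hz
  obtain ⟨U, V, h3, h4, h5, h6, h7⟩ := hH s s' h1 h2 fun e => hyz (congrArg code e)
  refine ⟨code U, code V, (mem_ts' h).2 h3, (mem_ts' h).2 h4, mem_codeB'.2 h5, mem_codeB'.2 h6,
    fun a ha ha' => ?_⟩
  obtain ⟨t, h8, rfl⟩ := mem_codeB.1 ha
  exact h7 t h8 (mem_codeB'.1 ha')

theorem isBase_ts {S : IPow N (IPow N α)} (h1 : ∀ U, U ∈ S → O U)
    (h2 : ∀ U s, O U → s ∈ U → ∃ V, V ∈ S ∧ s ∈ V ∧ ∀ t, t ∈ V → t ∈ U) :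
    IsBase (code S) (ts O) := by
  refine ⟨fun u hu => ?_, fun u z hu hz => ?_⟩
  · obtain ⟨U, h7, rfl⟩ := mem_codeB.1 hu
    exact (mem_ts' h).2 (h1 U h7)
  · obtain ⟨U, h3, rfl⟩ := (mem_ts h).1 hu
    obtain ⟨s, h4, rfl⟩ := mem_codeB.1 hz
    obtain ⟨V, h5, h6, h7⟩ := h2 U s h3 h4
    refine ⟨code V, mem_codeB'.2 h5, mem_codeB'.2 h6, fun y hy => ?_⟩
    obtain ⟨t, h8, rfl⟩ := mem_codeB.1 hy
    exact mem_codeB'.2 (h7 t h8)

theorem isClosed_ts {C : IPow N α} : IsClosed (ts O) (xs P) (code C) ↔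
    (∀ s, s ∈ C → P s) ∧ ∃ U, O U ∧ ∀ s, s ∈ U ↔ P s ∧ ¬ s ∈ C := by
  constructor
  · rintro ⟨h1, u, h2, h3⟩
    obtain ⟨U, h4, rfl⟩ := (mem_ts h).1 h2
    refine ⟨fun s hs => (mem_xs' h).1 (h1 _ (mem_codeB'.2 hs)), U, h4,
      fun s => ⟨fun hs => ?_, fun hs => ?_⟩⟩
    · have h5 := (h3 _).1 (mem_codeB'.2 hs)
      exact ⟨(mem_xs' h).1 h5.1, fun h6 => h5.2 (mem_codeB'.2 h6)⟩
    · exact mem_codeB'.1 ((h3 _).2 ⟨(mem_xs' h).2 hs.1, fun h6 => hs.2 (mem_codeB'.1 h6)⟩)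
  · rintro ⟨h1, U, h2, h3⟩
    refine ⟨fun z hz => ?_, code U, (mem_ts' h).2 h2, fun z => ?_⟩
    · obtain ⟨s, h4, rfl⟩ := mem_codeB.1 hz
      exact (mem_xs' h).2 (h1 s h4)
    · constructor
      · intro hz
        obtain ⟨s, h4, rfl⟩ := mem_codeB.1 hz
        exact ⟨(mem_xs' h).2 ((h3 s).1 h4).1, fun h5 => ((h3 s).1 h4).2 (mem_codeB'.1 h5)⟩
      · rintro ⟨h4, h5⟩
        obtain ⟨s, h6, rfl⟩ := (mem_xs h).1 h4
        exact mem_codeB'.2 ((h3 s).2 ⟨h6, fun h7 => h5 (mem_codeB'.2 h7)⟩)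

omit h in
/-- The union of a sequence of finite families. -/
theorem isCuf_of {S : INat N → IPow N α} (hS : IntF N S) (hf : ∀ n, IFin (S n)) {T : IPow N α}
    (hT : ∀ a, a ∈ T ↔ ∃ n, a ∈ S n) : IsCuf (code (M := N) T) := by
  have hI : Int N (fun U : IPow N α => IFin U) := by (repeat' (first | with_reducible exact IntF.id | with_reducible exact IntF.fst' | with_reducible exact IntF.snd' | with_reducible exact IntF.const _ | with_reducible exact Int.const _ | assumption | with_reducible apply Int.and | with_reducible apply Int.or | with_reducible apply Int.not | with_reducible apply Int.imp | with_reducible apply Int.iff | with_reducible apply Int.ne | with_reducible apply Int.eq | with_reducible apply Int.mem | with_reducible apply Int.subset | with_reducible apply Int.ltN | with_reducible apply Int.leN | with_reducible_and_instances apply Int.le | with_reducible_and_instances apply Int.lt | with_reducible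 apply Int.all | with_reducible apply Int.ex | with_reducible apply IntF.fst | with_reducible apply IntF.snd | with_reducible apply IntF.app | with_reducible apply IntF.inl | with_reducible apply IntF.inr | with_reducible_and_instances apply IntF.mul | with_reducible_and_instances apply IntF.inv | with_reducible_and_instances apply IntF.add | with_reducible_and_instances apply IntF.sub | with_reducible_and_instances apply IntF.neg | with_reducible_and_instances apply IntF.smul | with_reducible apply Int.fin | with_reducible apply IntF.sep | with_reducible apply IntF.lam | with_reducible apply IntF.insert | with_reducible apply IntF.singleton | with_reducible apply IntF.union | with_reducible apply IntF.iimage | with_reducible apply IntF.ite | with_reducible apply IntF.the | with_reducible apply IntF.irec | with_reducible apply IntF.succ | with_reducible apply IntF.val | with_reducible apply IntF.mk |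 (with_reducible refine Int.comp ?_ ?_; assumption) | (with_reducible refine Int.comp₂ ?_ ?_ ?_; assumption) | (with_reducible refine Int.comp₃ ?_ ?_ ?_ ?_; assumption) | (with_reducible refine Int.comp₄ ?_ ?_ ?_ ?_ ?_; assumption) | (with_reducible refine IntF.comp ?_ ?_; assumption) | (with_reducible refine IntF.comp₂ ?_ ?_ ?_; assumption) | (with_reducible refine IntF.comp₃ ?_ ?_ ?_ ?_; assumption) | with_reducible apply IntF.pair))
  refine ⟨dom N (INat N), code (sep N fun U : IPow N α => IFin U),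
    code (⟨_, hS⟩ : IFun N (INat N) (IPow N α)), isOmega_dom,
    isFun_code _ (fun z => mem_domP) fun n => ?_, fun u hu => ?_, fun z => ?_⟩
  · exact mem_codeB'.2 ((mem_sep hI).2 (hf n))
  · obtain ⟨U, hU, rfl⟩ := mem_codeB.1 hu
    exact isFinite_of_fin ((mem_sep hI).1 hU)
  · constructor
    · intro hz
      obtain ⟨a, ha, rfl⟩ := mem_codeB.1 hz
      obtain ⟨n, hn⟩ := (hT a).1 ha
      exact ⟨code n, _, app_code.2 ⟨n, rfl, rfl⟩, mem_codeB'.2 hn⟩
    · rintro ⟨n, u, h1, h2⟩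
      obtain ⟨n, rfl, rfl⟩ := app_code.1 h1
      obtain ⟨a, ha, rfl⟩ := mem_codeB.1 h2
      exact mem_codeB'.2 ((hT a).2 ⟨n, ha⟩)

/-- Multiple choice functions on the closed sets. -/
theorem weaklyLoeb_of (hw : IsWeaklyLoeb (ts O) (xs P)) : ∃ f : N, ∀ C : IPow N α,
    (∀ s, s ∈ C → P s) → (∃ U, O U ∧ ∀ s, s ∈ U ↔ P s ∧ ¬ s ∈ C) → (∃ s, s ∈ C) →
      ∃ F : IPow N α, App f (code C) (code F) ∧ (∀ y, App f (code C) y → y = code F) ∧ IFin F ∧
        (∃ s, s ∈ F) ∧ ∀ s, s ∈ F → s ∈ C := by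
  obtain ⟨k, t, f, h1, h2, h3⟩ := hw
  refine ⟨f, fun C h4 h5 h6 => ?_⟩
  obtain ⟨s₀, hs₀⟩ := h6
  have h7 : Plain.Mem (code C) k := (h1 _).2 ⟨(isClosed_ts h).2 ⟨h4, h5⟩, _, mem_codeB'.2 hs₀⟩
  obtain ⟨y, h8, h9⟩ := h2.2 _ h7
  obtain ⟨h10, ⟨z, hz⟩, h11⟩ := h3 _ _ h8
  obtain ⟨F, rfl⟩ := exists_codeB (α := α) (u := y) fun z hz => by
    obtain ⟨s, -, h12⟩ := mem_codeB.1 (h11 z hz)
    exact ⟨s, h12⟩
  obtain ⟨s, hs, -⟩ := mem_codeB.1 hz
  exact ⟨F, h8, h9, fin_of_isFinite h10, ⟨s, hs⟩,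
    fun s hs => mem_codeB'.1 (h11 _ (mem_codeB'.2 hs))⟩

end

end Pool.Agent.Helper672.ZFA.V246
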