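import Pool.Agent.V11246.CctM
import Pool.Agent.V11246.CcDefs
import Pool.Agent.V11246.Spc
import Pool.Agent.V11246.NcoR
import Pool.Agent.H635R2.Coll
import Pool.Agent.H635R2.Ext

/-!
# A Cantor completely metrizable space with a cuf base that is not a Loeb space
-/

set_option maxHeartbeats 1000000
set_option linter.all false
set_option synthInstance.maxSize 2000

namespace Pool.Agent.Helper672.ZFA.V246C

open FirstOrder FirstOrder.Language
open Pool.Agent.Helper672.ZFA
open Pool.Agent.Helper672.Plain (LSet)
open Pool.Agent.H635Amen (IsReals ZF)
open Pool.Agent.H310Cards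
open Pool.Agent.H310Top (IsTopology IsBase IsCuf IsClosed)
open Pool.Agent.H310Metric (IsMetric)
open Pool.Agent.H310
open Pool.Agent.V11246
open Pool.Agent.Helper672.ZFA.V246

universe u

section

attribute [local instance] Helper672.Plain.toL

variable {N : Type u} [LSet.Structure N] [hZ : Helper672.Plain.Zermelo N]

local instance instModelCc : IsModel N := Helper672.Plain.isModel_toL

noncomputable local instance instPElCq (x : N) : ITy N (Helper672.Plain.El x) :=
  (inferInstance : ITy N (El x))

variable {a : N} {E : INat N × (Helper672.Plain.El a × Helper672.Plain.El a) → Prop} (h : CT N E)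

include h

theorem int_OpE : Int N (OpE E) := by
  have h1 := h.int
  unfold OpE
  (repeat' (first | with_reducible exact IntF.id | with_reducible exact IntF.fst' | with_reducible exact IntF.snd' | with_reducible exact IntF.const _ | with_reducible exact Int.const _ | assumption | with_reducible apply Int.and | with_reducible apply Int.or | with_reducible apply Int.not | with_reducible apply Int.imp | with_reducible apply Int.iff | with_reducible apply Int.ne | with_reducible apply Int.eq | with_reducible apply Int.mem | with_reducible apply Int.subset | with_reducible apply Int.ltN | with_reducible apply Int.leN | with_reducible_and_instances apply Int.le | with_reducible_and_instances apply Int.lt | with_reducible apply Int.all | with_reducible apply Int.ex | with_reducible apply IntF.fst | with_reducible apply IntF.snd | with_reducible apply IntF.app | with_reducible apply IntF.inl | with_reducible apply IntF.inr | with_reducible_and_instances apply IntF.mul | with_reducible_and_instances apply IntF.inv | with_reducible_and_instances apply IntF.add | with_reducible_and_instances apply IntF.sub | with_reducible_and_instances apply IntF.neg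 | with_reducible_and_instances apply IntF.smul | with_reducible apply Int.fin | with_reducible apply IntF.sep | with_reducible apply IntF.lam | with_reducible apply IntF.insert | with_reducible apply IntF.singleton | with_reducible apply IntF.union | with_reducible apply IntF.iimage | with_reducible apply IntF.ite | with_reducible apply IntF.the | with_reducible apply IntF.irec | with_reducible apply IntF.succ | with_reducible apply IntF.val | with_reducible apply IntF.mk | (with_reducible refine Int.comp ?_ ?_; assumption) | (with_reducible refine Int.comp₂ ?_ ?_ ?_; assumption) | (with_reducible refine Int.comp₃ ?_ ?_ ?_ ?_; assumption) | (with_reducible refine Int.comp₄ ?_ ?_ ?_ ?_ ?_; assumption) | (with_reducible refine IntF.comp ?_ ?_; assumption) | (with_reducible refine IntF.comp₂ ?_ ?_ ?_; assumption) | (with_reducible refine IntF.comp₃ ?_ ?_ ?_ ?_; assumption) | with_reducible apply IntF.pair))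

theorem spo : SpO N (fun _ : Helper672.Plain.El a => True) (OpE E) := by
  refine ⟨Int.const _, int_OpE h, fun _ _ _ _ => trivial, fun U hU s hs => ⟨0, fun b _ => (hU b).2 trivial⟩,
    fun U V W hU hV hW s hs => ?_, fun c W hc hW s hs => ?_⟩
  · obtain ⟨h1, h2⟩ := (hW s).1 hs
    obtain ⟨m, hm⟩ := hU s h1
    obtain ⟨m', hm'⟩ := hV s h2
    exact ⟨max m m', fun b hb => (hW b).2 ⟨hm b (h.le _ _ _ _ (le_max_left _ _) hb),
      hm' b (h.le _ _ _ _ (le_max_right _ _) hb)⟩⟩
  · obtain ⟨U, h1, h2⟩ := (hW s).1 hs
    obtain ⟨m, hm⟩ := hc U h1 s h2
    exact ⟨m, fun b hb => (hW b).2 ⟨U, h1, hm b hb⟩⟩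

theorem xs_eq : xs (fun _ : Helper672.Plain.El a => True) = a := by
  refine (instModelCc (N := N)).ext _ _ trivial trivial fun z => ?_
  refine (mem_xs (spo h)).trans ⟨?_, fun hz => ⟨⟨z, hz⟩, trivial, rfl⟩⟩
  rintro ⟨s, -, rfl⟩
  exact s.2

theorem topo : IsTopology (ts (OpE E)) a := by
  have := isTopology_ts (spo h)
  rwa [xs_eq h] at this

/-- Subsets. -/
theorem exists_subE {u : N} (hu : ∀ z, Plain.Mem z u → Plain.Mem z a) :
    ∃ U : IPow N (Plain.El a), code U = u := by
  obtain ⟨U, hU, -⟩ := exists_sub (spo h) (u := u) (by rwa [xs_eq h])
  exact ⟨U, hU⟩

omit h in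
theorem mem_E {U : IPow N (Plain.El a)} {x : Plain.El a} : Plain.Mem x.1 (code (M := N) U) ↔ x ∈ U :=
  mem_codeB' (N := N) (α := Plain.El a) (U := U) (a := x)

theorem closed_iff {C : IPow N (Plain.El a)} : IsClosed (ts (OpE E)) a (code C) ↔
    ∀ x, ¬ x ∈ C → ∃ m, ∀ b, E (m, (x, b)) → ¬ b ∈ C := by
  have h1 := isClosed_ts (spo h) (C := C)
  rw [xs_eq h] at h1
  obtain ⟨V, hV⟩ : ∃ V : IPow N (Plain.El a), ∀ x, x ∈ V ↔ ¬ x ∈ C :=
    ⟨sep N fun x => ¬ x ∈ C, fun x => mem_sep (by (repeat' (first | with_reducible exact IntF.id | with_reducible exact IntF.fst' | with_reducible exact IntF.snd' | with_reducible exact IntF.const _ | with_reducible exact Int.const _ | assumption | with_reducible apply Int.and | with_reducible apply Int.or | with_reducible apply Int.not | with_reducible apply Int.imp | with_reducible apply Int.iff | with_reducible apply Int.ne | with_reducible apply Int.eq | with_reducible apply Int.mem | with_reducible apply Int.subset | with_reducible apply Int.ltN | with_reducible apply Int.leN | with_reducible_and_instances apply Int.le | with_reducible_and_instances apply Int.lt | with_reducible apply Int.all | with_reducible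 apply Int.ex | with_reducible apply IntF.fst | with_reducible apply IntF.snd | with_reducible apply IntF.app | with_reducible apply IntF.inl | with_reducible apply IntF.inr | with_reducible_and_instances apply IntF.mul | with_reducible_and_instances apply IntF.inv | with_reducible_and_instances apply IntF.add | with_reducible_and_instances apply IntF.sub | with_reducible_and_instances apply IntF.neg | with_reducible_and_instances apply IntF.smul | with_reducible apply Int.fin | with_reducible apply IntF.sep | with_reducible apply IntF.lam | with_reducible apply IntF.insert | with_reducible apply IntF.singleton | with_reducible apply IntF.union | with_reducible apply IntF.iimage | with_reducible apply IntF.ite | with_reducible apply IntF.the | with_reducible apply IntF.irec | with_reducible apply IntF.succ | with_reducible apply IntF.val | with_reducible apply IntF.mk | (with_reducible refine Int.comp ?_ ?_; assumption) | (with_reducible refine Int.comp₂ ?_ ?_ ?_; assumption) | (with_reducible refine Int.comp₃ ?_ ?_ ?_ ?_; assumption) | (with_reducible refine Int.comp₄ ?_ ?_ ?_ ?_ ?_; assumption) | (with_reducible refine IntF.comp ?_ ?_; assumption)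 | (with_reducible refine IntF.comp₂ ?_ ?_ ?_; assumption) | (with_reducible refine IntF.comp₃ ?_ ?_ ?_ ?_; assumption) | with_reducible apply IntF.pair)))⟩
  refine h1.trans ⟨?_, fun h2 => ⟨fun _ _ => trivial, V, ?_, fun s => ?_⟩⟩
  · rintro ⟨-, U, hU, h2⟩ x hx
    obtain ⟨m, hm⟩ := hU x ((h2 x).2 ⟨trivial, hx⟩)
    exact ⟨m, fun b hb => ((h2 b).1 (hm b hb)).2⟩
  · intro x hx
    obtain ⟨m, hm⟩ := h2 x ((hV x).1 hx)
    exact ⟨m, fun b hb => (hV b).2 (hm b hb)⟩
  · rw [hV]
    exact ⟨fun h3 => ⟨trivial, h3⟩, fun h3 => h3.2⟩

/-! ### The metric -/

theorem isCCM : IsCantorCompletelyMetrizable (ts (OpE E)) a := by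
  obtain ⟨r, i1, i2, i3, hr⟩ := H635.exists_reals hZ
  obtain ⟨d, hd, q, hpos, hlim, hdle, hdlt⟩ := exists_d (hM := instModelCc) (D := E) h hr
  have hE := h.int
  refine ⟨r, i1, i2, i3, hr, d, hd, fun u => ⟨fun hu => ?_, fun hu => ?_⟩, ?_⟩
  · obtain ⟨U, hU, rfl⟩ := (mem_ts (spo h)).1 hu
    refine ⟨fun z hz => ?_, fun x hx => ?_⟩
    · obtain ⟨s, -, rfl⟩ := mem_codeB.1 hz
      exact s.2
    · obtain ⟨m, hm⟩ := hU x (mem_E.1 hx)
      exact ⟨q m, hpos m, fun b hb => mem_E.2 (hm b (hdlt _ _ _ hb))⟩
  · obtain ⟨U, rfl⟩ := exists_subE h hu.1
    refine (mem_ts' (spo h)).2 fun x hx => ?_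
    obtain ⟨ε, hε, h1⟩ := hu.2 x (mem_E.2 hx)
    obtain ⟨n, hn⟩ := hlim ε hε
    exact ⟨n, fun b hb => mem_E.1 (h1 b ((hdle _ _ _ hb).trans_lt hn))⟩
  · intro w s f hw hf hcl hdec hdiam
    obtain ⟨W, hWi, hW⟩ : ∃ W : INat N × Plain.El a → Prop, Int N W ∧ ∀ q, W q ↔
        ∃ u, App f (code q.1) u ∧ Mem (code q.2) u := ⟨_, int_appm f, fun q => Iff.rfl⟩
    have hval : ∀ n : INat N, ∃ u, App f (code n) u ∧ ∀ y : Plain.El a, W (n, y) ↔ Plain.Mem y.1 u := by
      intro n
      obtain ⟨u, hu, huniq⟩ := hf.2 (code n) ((mem_omega hw).2 ⟨n, rfl⟩)
      refine ⟨u, hu, fun y => (hW _).trans ⟨?_, fun h1 => ⟨u, hu, h1⟩⟩⟩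
      rintro ⟨u', h1, h2⟩
      obtain rfl := huniq u' h1
      exact h2
    have hWne : ∀ n, ∃ y, W (n, y) := by
      intro n
      obtain ⟨u, hu, h1⟩ := hval n
      obtain ⟨h2, z, hz⟩ := hcl _ _ hu
      exact ⟨⟨z, h2.1 z hz⟩, (h1 _).2 hz⟩
    have hWle : ∀ n m y, n ≤ m → W (m, y) → W (n, y) := by
      intro n m y hnm hy
      rcases INat.le_iff'.1 hnm with h0 | rfl
      · obtain ⟨u, hu, h1⟩ := hval n
        obtain ⟨v, hv, h2⟩ := hval m
        exact (h1 _).2 (hdec _ _ _ _ hu hv h0 _ ((h2 _).1 hy))
      · exact hy
    have hWd : ∀ k, ∃ n, ∀ y y', W (n, y) → W (n, y') → E (k, (y, y')) := by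
      intro k
      obtain ⟨n', u, hu, h1⟩ := hdiam (q k) (hpos k)
      obtain ⟨q', hq1, hq2⟩ := hu
      obtain ⟨x', y', h8, h9, h10⟩ := hf.1 q' hq2
      obtain ⟨h11, -⟩ := op_inj ((ordPair_iff.1 hq1).symm.trans (ordPair_iff.1 h10))
      obtain ⟨n, hn⟩ := (mem_omega hw).1 h8
      have hn' : n' = code n := h11.trans hn.symm
      subst hn'
      obtain ⟨u', hu', h2⟩ := hval n
      obtain rfl : u' = u := (hf.2 (code n) ((mem_omega hw).2 ⟨n, rfl⟩)).unique hu' ⟨q', hq1, hq2⟩
      exact ⟨n, fun y y' hy hy' => hdlt _ _ _ (h1 y y' ((h2 y).1 hy) ((h2 y').1 hy'))⟩
    obtain ⟨x, hx⟩ := h.complete (fun q => ∃ n, ∀ y, W (n, y) → E (q.1, (y, q.2))) (by (repeat' (first | with_reducible exact IntF.id | with_reducible exact IntF.fst' | with_reducible exact IntF.snd' | with_reducible exact IntF.const _ | with_reducible exact Int.const _ | assumption | with_reducible apply Int.and | with_reducible apply Int.or | with_reducible apply Int.not | with_reducible apply Int.imp | with_reducible apply Int.iff | with_reducible apply Int.ne | with_reducible apply Int.eq | with_reducible apply Int.mem | with_reducible apply Int.subset | with_reducible apply Int.ltN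 | with_reducible apply Int.leN | with_reducible_and_instances apply Int.le | with_reducible_and_instances apply Int.lt | with_reducible apply Int.all | with_reducible apply Int.ex | with_reducible apply IntF.fst | with_reducible apply IntF.snd | with_reducible apply IntF.app | with_reducible apply IntF.inl | with_reducible apply IntF.inr | with_reducible_and_instances apply IntF.mul | with_reducible_and_instances apply IntF.inv | with_reducible_and_instances apply IntF.add | with_reducible_and_instances apply IntF.sub | with_reducible_and_instances apply IntF.neg | with_reducible_and_instances apply IntF.smul | with_reducible apply Int.fin | with_reducible apply IntF.sep | with_reducible apply IntF.lam | with_reducible apply IntF.insert | with_reducible apply IntF.singleton | with_reducible apply IntF.union | with_reducible apply IntF.iimage | with_reducible apply IntF.ite | with_reducible apply IntF.the | with_reducible apply IntF.irec | with_reducible apply IntF.succ | with_reducible apply IntF.val | with_reducible apply IntF.mk | (with_reducible refine Int.comp ?_ ?_; assumption) | (with_reducible refine Int.comp₂ ?_ ?_ ?_; assumption)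 | (with_reducible refine Int.comp₃ ?_ ?_ ?_ ?_; assumption) | (with_reducible refine Int.comp₄ ?_ ?_ ?_ ?_ ?_; assumption) | (with_reducible refine IntF.comp ?_ ?_; assumption) | (with_reducible refine IntF.comp₂ ?_ ?_ ?_; assumption) | (with_reducible refine IntF.comp₃ ?_ ?_ ?_ ?_; assumption) | with_reducible apply IntF.pair)))
      (fun k => by
        obtain ⟨n, hn⟩ := hWd k
        obtain ⟨y, hy⟩ := hWne n
        exact ⟨y, n, fun y' hy' => hn y' y hy' hy⟩)
      (fun k x y hx hy => by
        obtain ⟨n, hn⟩ := hx
        obtain ⟨m, hm⟩ := hy
        obtain ⟨z, hz⟩ := hWne (max n m)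
        exact h.trans _ _ _ _ (h.symm _ _ _ (hn z (hWle _ _ _ (le_max_left _ _) hz)))
          (hm z (hWle _ _ _ (le_max_right _ _) hz)))
      (fun k x y hx hxy => by
        obtain ⟨n, hn⟩ := hx
        exact ⟨n, fun z hz => h.trans _ _ _ _ (hn z hz) hxy⟩)
      (fun k k' x hk hx => by
        obtain ⟨n, hn⟩ := hx
        exact ⟨n, fun z hz => h.le _ _ _ _ hk (hn z hz)⟩)
    refine ⟨x.1, fun n' u hu => ?_⟩
    have hu0 := hu
    obtain ⟨q', hq1, hq2⟩ := hu
    obtain ⟨x', y', h8, h9, h10⟩ := hf.1 q' hq2
    obtain ⟨h11, -⟩ := op_inj ((ordPair_iff.1 hq1).symm.trans (ordPair_iff.1 h10))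
    obtain ⟨n, hn⟩ := (mem_omega hw).1 h8
    have hn' : n' = code n := h11.trans hn.symm
    subst hn'
    obtain ⟨u', hu', h2⟩ := hval n
    obtain rfl : u' = u := (hf.2 (code n) ((mem_omega hw).2 ⟨n, rfl⟩)).unique hu' hu0
    obtain ⟨hcl1, -⟩ := hcl _ _ hu'
    obtain ⟨C, rfl⟩ := exists_subE h hcl1.1
    by_contra hc
    obtain ⟨m, hm⟩ := (closed_iff h).1 hcl1 x fun h3 => hc (mem_E.2 h3)
    obtain ⟨n₁, hn₁⟩ := hx m
    obtain ⟨z, hz⟩ := hWne (max n n₁)
    refine hm z (h.symm _ _ _ (hn₁ z (hWle _ _ _ (le_max_right _ _) hz))) ?_
    exact mem_E.1 ((h2 z).1 (hWle _ _ _ (le_max_left _ _) hz))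

/-! ### Compact sets -/

omit h in
theorem coE_of_fin {Y : IPow N (Plain.El a)} (hY : IFin Y) : CoE E Y := by
  intro C _
  refine IFin.ind (p := fun Y : IPow N (Plain.El a) => (∀ x, x ∈ Y → ∃ U, U ∈ C ∧ x ∈ U) →
    ∃ C' : IPow N (IPow N (Plain.El a)), IFin C' ∧ (∀ U, U ∈ C' → U ∈ C) ∧
      ∀ x, x ∈ Y → ∃ U, U ∈ C' ∧ x ∈ U) (by (repeat' (first | with_reducible exact IntF.id | with_reducible exact IntF.fst' | with_reducible exact IntF.snd' | with_reducible exact IntF.const _ | with_reducible exact Int.const _ | assumption | with_reducible apply Int.and | with_reducible apply Int.or | with_reducible apply Int.not | with_reducible apply Int.imp | with_reducible apply Int.iff | with_reducible apply Int.ne | with_reducible apply Int.eq | with_reducible apply Int.mem | with_reducible apply Int.subset | with_reducible apply Int.ltN | with_reducible apply Int.leN | with_reducible_and_instances apply Int.le | with_reducible_and_instances apply Int.lt | with_reducible apply Int.all | with_reducible apply Int.ex | with_reducible apply IntF.fst | with_reducible apply IntF.snd | with_reducible apply IntF.app | with_reducible apply IntF.inl | with_reducible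 apply IntF.inr | with_reducible_and_instances apply IntF.mul | with_reducible_and_instances apply IntF.inv | with_reducible_and_instances apply IntF.add | with_reducible_and_instances apply IntF.sub | with_reducible_and_instances apply IntF.neg | with_reducible_and_instances apply IntF.smul | with_reducible apply Int.fin | with_reducible apply IntF.sep | with_reducible apply IntF.lam | with_reducible apply IntF.insert | with_reducible apply IntF.singleton | with_reducible apply IntF.union | with_reducible apply IntF.iimage | with_reducible apply IntF.ite | with_reducible apply IntF.the | with_reducible apply IntF.irec | with_reducible apply IntF.succ | with_reducible apply IntF.val | with_reducible apply IntF.mk | (with_reducible refine Int.comp ?_ ?_; assumption) | (with_reducible refine Int.comp₂ ?_ ?_ ?_; assumption) | (with_reducible refine Int.comp₃ ?_ ?_ ?_ ?_; assumption) | (with_reducible refine Int.comp₄ ?_ ?_ ?_ ?_ ?_; assumption) | (with_reducible refine IntF.comp ?_ ?_; assumption) | (with_reducible refine IntF.comp₂ ?_ ?_ ?_; assumption) | (with_reducible refine IntF.comp₃ ?_ ?_ ?_ ?_; assumption) | with_reducible apply IntF.pair)))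 ?_ ?_ Y hY
  · intro _
    exact ⟨∅, IFin.empty, fun U hU => absurd hU (by simp), fun x hx => absurd hx (by simp)⟩
  · intro s x _ _ ih h1
    obtain ⟨C', h2, h3, h4⟩ := ih fun y hy => h1 y (mem_insert.2 (Or.inr hy))
    obtain ⟨U, h5, h6⟩ := h1 x (mem_insert.2 (Or.inl rfl))
    refine ⟨insert U C', h2.insert U, fun V hV => ?_, fun y hy => ?_⟩
    · rcases mem_insert.1 hV with rfl | hV
      · exact h5
      · exact h3 V hV
    · rcases mem_insert.1 hy with rfl | hy
      · exact ⟨U, mem_insert.2 (Or.inl rfl), h6⟩
      · obtain ⟨V, h7, h8⟩ := h4 y hy
        exact ⟨V, mem_insert.2 (Or.inr h7), h8⟩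

theorem compact_iff {Y : IPow N (Plain.El a)} : IsCompactSub (ts (OpE E)) a (code Y) ↔ IFin Y := by
  constructor
  · rintro ⟨-, h1⟩
    refine h.fin Y fun C hC hcov => ?_
    obtain ⟨c', h3, h4, h5⟩ := h1 (code C) (fun u hu => by
      obtain ⟨U, h7, rfl⟩ := mem_codeB.1 hu
      exact (mem_ts' (spo h)).2 (hC U h7)) fun z hz => by
        obtain ⟨s, h7, rfl⟩ := mem_codeB.1 hz
        obtain ⟨U, h8, h9⟩ := hcov s h7
        exact ⟨code U, mem_codeB'.2 h8, mem_codeB'.2 h9⟩
    obtain ⟨C', rfl⟩ := exists_codeB (α := IPow N (Plain.El a)) (u := c') fun z hz => by
      obtain ⟨U, -, h6⟩ := mem_codeB.1 (h4 z hz)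
      exact ⟨U, h6⟩
    refine ⟨C', fin_of_isFinite h3, fun U hU => mem_codeB'.1 (h4 _ (mem_codeB'.2 hU)),
      fun s hs => ?_⟩
    obtain ⟨u, h6, h7⟩ := h5 _ (mem_codeB'.2 hs)
    obtain ⟨U, h8, rfl⟩ := mem_codeB.1 h6
    exact ⟨U, h8, mem_codeB'.1 h7⟩
  · intro hY
    refine ⟨fun z hz => ?_, fun c h1 h2 => ?_⟩
    · obtain ⟨s, -, rfl⟩ := mem_codeB.1 hz
      exact s.2
    · obtain ⟨C, rfl, h3⟩ := exists_fam (spo h) h1
      obtain ⟨c', h4, h5, h6⟩ := coE_of_fin (E := E) hY C h3 fun s hs => by
        obtain ⟨u, h4, h5⟩ := h2 _ (mem_codeB'.2 hs)
        obtain ⟨U, h6, rfl⟩ := mem_codeB.1 h4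
        exact ⟨U, h6, mem_codeB'.1 h5⟩
      refine ⟨code c', isFinite_of_fin h4, fun u hu => ?_, fun z hz => ?_⟩
      · obtain ⟨U, h7, rfl⟩ := mem_codeB.1 hu
        exact mem_codeB'.2 (h5 U h7)
      · obtain ⟨s, h7, rfl⟩ := mem_codeB.1 hz
        obtain ⟨U, h8, h9⟩ := h6 s h7
        exact ⟨code U, mem_codeB'.2 h8, mem_codeB'.2 h9⟩

theorem isKLoeb : IsKLoeb (ts (OpE E)) a := by
  obtain ⟨L, hL, hirr, htr, htot⟩ := h.lin
  have hI : Int N (fun Y : IPow N (Plain.El a) => IFin Y ∧ ∃ b, b ∈ Y) := by (repeat' (first | with_reducible exact IntF.id | with_reducible exact IntF.fst' | with_reducible exact IntF.snd' | with_reducible exact IntF.const _ | with_reducible exact Int.const _ | assumption | with_reducible apply Int.and | with_reducible apply Int.or | with_reducible apply Int.not | with_reducible apply Int.imp | with_reducible apply Int.iff | with_reducible apply Int.ne | with_reducible apply Int.eq | with_reducible apply Int.mem | with_reducible apply Int.subset | with_reducible apply Int.ltN | with_reducible apply Int.leN | with_reducible_and_instances apply Int.le | with_reducible_and_instances apply Int.lt | with_reducible apply Int.all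 | with_reducible apply Int.ex | with_reducible apply IntF.fst | with_reducible apply IntF.snd | with_reducible apply IntF.app | with_reducible apply IntF.inl | with_reducible apply IntF.inr | with_reducible_and_instances apply IntF.mul | with_reducible_and_instances apply IntF.inv | with_reducible_and_instances apply IntF.add | with_reducible_and_instances apply IntF.sub | with_reducible_and_instances apply IntF.neg | with_reducible_and_instances apply IntF.smul | with_reducible apply Int.fin | with_reducible apply IntF.sep | with_reducible apply IntF.lam | with_reducible apply IntF.insert | with_reducible apply IntF.singleton | with_reducible apply IntF.union | with_reducible apply IntF.iimage | with_reducible apply IntF.ite | with_reducible apply IntF.the | with_reducible apply IntF.irec | with_reducible apply IntF.succ | with_reducible apply IntF.val | with_reducible apply IntF.mk | (with_reducible refine Int.comp ?_ ?_; assumption) | (with_reducible refine Int.comp₂ ?_ ?_ ?_; assumption) | (with_reducible refine Int.comp₃ ?_ ?_ ?_ ?_; assumption) | (with_reducible refine Int.comp₄ ?_ ?_ ?_ ?_ ?_; assumption) | (with_reducible refine IntF.comp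 ?_ ?_; assumption) | (with_reducible refine IntF.comp₂ ?_ ?_ ?_; assumption) | (with_reducible refine IntF.comp₃ ?_ ?_ ?_ ?_; assumption) | with_reducible apply IntF.pair))
  obtain ⟨R, hRi, hR⟩ : ∃ R : IPow N (Plain.El a) → Plain.El a → Prop,
      Int N (fun q : IPow N (Plain.El a) × Plain.El a => R q.1 q.2) ∧
        ∀ Y b, R Y b ↔ IFin Y ∧ b ∈ Y ∧ ∀ c, c ∈ Y → ¬ L (c, b) := ⟨_, by (repeat' (first | with_reducible exact IntF.id | with_reducible exact IntF.fst' | with_reducible exact IntF.snd' | with_reducible exact IntF.const _ | with_reducible exact Int.const _ | assumption | with_reducible apply Int.and | with_reducible apply Int.or | with_reducible apply Int.not | with_reducible apply Int.imp | with_reducible apply Int.iff | with_reducible apply Int.ne | with_reducible apply Int.eq | with_reducible apply Int.mem | with_reducible apply Int.subset | with_reducible apply Int.ltN | with_reducible apply Int.leN | with_reducible_and_instances apply Int.le | with_reducible_and_instances apply Int.lt | with_reducible apply Int.all | with_reducible apply Int.ex | with_reducible apply IntF.fst | with_reducible apply IntF.snd | with_reducible apply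 IntF.app | with_reducible apply IntF.inl | with_reducible apply IntF.inr | with_reducible_and_instances apply IntF.mul | with_reducible_and_instances apply IntF.inv | with_reducible_and_instances apply IntF.add | with_reducible_and_instances apply IntF.sub | with_reducible_and_instances apply IntF.neg | with_reducible_and_instances apply IntF.smul | with_reducible apply Int.fin | with_reducible apply IntF.sep | with_reducible apply IntF.lam | with_reducible apply IntF.insert | with_reducible apply IntF.singleton | with_reducible apply IntF.union | with_reducible apply IntF.iimage | with_reducible apply IntF.ite | with_reducible apply IntF.the | with_reducible apply IntF.irec | with_reducible apply IntF.succ | with_reducible apply IntF.val | with_reducible apply IntF.mk | (with_reducible refine Int.comp ?_ ?_; assumption) | (with_reducible refine Int.comp₂ ?_ ?_ ?_; assumption) | (with_reducible refine Int.comp₃ ?_ ?_ ?_ ?_; assumption) | (with_reducible refine Int.comp₄ ?_ ?_ ?_ ?_ ?_; assumption) | (with_reducible refine IntF.comp ?_ ?_; assumption) | (with_reducible refine IntF.comp₂ ?_ ?_ ?_; assumption) | (with_reducible refine IntF.comp₃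 ?_ ?_ ?_ ?_; assumption) | with_reducible apply IntF.pair)), fun _ _ => Iff.rfl⟩
  have hk : ∀ c, Plain.Mem c (code (M := N) (sep N fun Y : IPow N (Plain.El a) =>
      IFin Y ∧ ∃ b, b ∈ Y)) ↔ IsCompactSub (ts (OpE E)) a c ∧ ∃ z, Plain.Mem z c := by
    intro c
    constructor
    · intro hc
      obtain ⟨Y, hY, rfl⟩ := mem_codeB.1 hc
      obtain ⟨h1, b, hb⟩ := (mem_sep hI).1 hY
      exact ⟨(compact_iff h).2 h1, b.1, mem_E.2 hb⟩
    · rintro ⟨h1, z, hz⟩
      obtain ⟨Y, rfl⟩ := exists_subE h h1.1
      obtain ⟨b, hb, -⟩ := mem_codeB.1 hz
      exact mem_codeB'.2 ((mem_sep hI).2 ⟨(compact_iff h).1 h1, b, hb⟩)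
  refine ⟨_, a, relc N R, hk, ⟨fun q hq => ?_, fun c hc => ?_⟩, fun c y hcy => ?_⟩
  · obtain ⟨Y, b, h1, rfl⟩ := (mem_relc hRi).1 hq
    obtain ⟨h2, h3, -⟩ := (hR _ _).1 h1
    exact ⟨code Y, code b, mem_codeB'.2 ((mem_sep hI).2 ⟨h2, b, h3⟩), b.2, ordPair_iff.2 rfl⟩
  · obtain ⟨Y, hY, rfl⟩ := mem_codeB.1 hc
    obtain ⟨h1, b, hb⟩ := (mem_sep hI).1 hY
    obtain ⟨m, hm, hmin⟩ := IFin.exists_min (lt := fun x y => L (x, y)) (by (repeat' (first | with_reducible exact IntF.id | with_reducible exact IntF.fst' | with_reducible exact IntF.snd' | with_reducible exact IntF.const _ | with_reducible exact Int.const _ | assumption | with_reducible apply Int.and | with_reducible apply Int.or | with_reducible apply Int.not | with_reducible apply Int.imp | with_reducible apply Int.iff | with_reducible apply Int.ne | with_reducible apply Int.eq | with_reducible apply Int.mem | with_reducible apply Int.subset | with_reducible apply Int.ltN | with_reducible apply Int.leN | with_reducible_and_instances apply Int.le | with_reducible_and_instances apply Int.lt | with_reducible apply Int.all | with_reducible apply Int.ex | with_reducible apply IntF.fst | with_reducible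 apply IntF.snd | with_reducible apply IntF.app | with_reducible apply IntF.inl | with_reducible apply IntF.inr | with_reducible_and_instances apply IntF.mul | with_reducible_and_instances apply IntF.inv | with_reducible_and_instances apply IntF.add | with_reducible_and_instances apply IntF.sub | with_reducible_and_instances apply IntF.neg | with_reducible_and_instances apply IntF.smul | with_reducible apply Int.fin | with_reducible apply IntF.sep | with_reducible apply IntF.lam | with_reducible apply IntF.insert | with_reducible apply IntF.singleton | with_reducible apply IntF.union | with_reducible apply IntF.iimage | with_reducible apply IntF.ite | with_reducible apply IntF.the | with_reducible apply IntF.irec | with_reducible apply IntF.succ | with_reducible apply IntF.val | with_reducible apply IntF.mk | (with_reducible refine Int.comp ?_ ?_; assumption) | (with_reducible refine Int.comp₂ ?_ ?_ ?_; assumption) | (with_reducible refine Int.comp₃ ?_ ?_ ?_ ?_; assumption) | (with_reducible refine Int.comp₄ ?_ ?_ ?_ ?_ ?_; assumption) | (with_reducible refine IntF.comp ?_ ?_; assumption) | (with_reducible refine IntF.comp₂ ?_ ?_ ?_; assumption)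 | (with_reducible refine IntF.comp₃ ?_ ?_ ?_ ?_; assumption) | with_reducible apply IntF.pair))) hirr htr h1
      ⟨b, hb⟩
    refine ⟨code m, (app_relc' hRi).2 ((hR _ _).2 ⟨h1, hm, hmin⟩), fun y hy => ?_⟩
    obtain ⟨Y', b', h2, h3, rfl⟩ := (app_relc hRi).1 hy
    rw [← ITy.inj h3] at h2
    obtain ⟨-, h4, h5⟩ := (hR _ _).1 h2
    refine congrArg _ ?_
    by_contra hne
    rcases htot _ _ hne with h6 | h6
    · exact hmin _ h4 h6
    · exact h5 _ hm h6
  · obtain ⟨Y, b, h1, rfl, rfl⟩ := (app_relc hRi).1 hcy
    exact mem_codeB'.2 ((hR _ _).1 h1).2.1

/-! ### The base -/

theorem exists_base : ∃ b, IsBase b (ts (OpE E)) ∧ IsCuf b := by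
  have hE := h.int
  obtain ⟨S, hS, hS'⟩ : ∃ S : INat N → IPow N (IPow N (Plain.El a)), IntF N S ∧
      ∀ k U, U ∈ S k ↔ ∃ x, ∀ b, b ∈ U ↔ E (k, (x, b)) := by
    refine ⟨fun k => sep N fun U => ∃ x, ∀ b, b ∈ U ↔ E (k, (x, b)), by (repeat' (first | with_reducible exact IntF.id | with_reducible exact IntF.fst' | with_reducible exact IntF.snd' | with_reducible exact IntF.const _ | with_reducible exact Int.const _ | assumption | with_reducible apply Int.and | with_reducible apply Int.or | with_reducible apply Int.not | with_reducible apply Int.imp | with_reducible apply Int.iff | with_reducible apply Int.ne | with_reducible apply Int.eq | with_reducible apply Int.mem | with_reducible apply Int.subset | with_reducible apply Int.ltN | with_reducible apply Int.leN | with_reducible_and_instances apply Int.le | with_reducible_and_instances apply Int.lt | with_reducible apply Int.all | with_reducible apply Int.ex | with_reducible apply IntF.fst | with_reducible apply IntF.snd | with_reducible apply IntF.app | with_reducible apply IntF.inl | with_reducible apply IntF.inr | with_reducible_and_instances apply IntF.mul | with_reducible_and_instances apply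 IntF.inv | with_reducible_and_instances apply IntF.add | with_reducible_and_instances apply IntF.sub | with_reducible_and_instances apply IntF.neg | with_reducible_and_instances apply IntF.smul | with_reducible apply Int.fin | with_reducible apply IntF.sep | with_reducible apply IntF.lam | with_reducible apply IntF.insert | with_reducible apply IntF.singleton | with_reducible apply IntF.union | with_reducible apply IntF.iimage | with_reducible apply IntF.ite | with_reducible apply IntF.the | with_reducible apply IntF.irec | with_reducible apply IntF.succ | with_reducible apply IntF.val | with_reducible apply IntF.mk | (with_reducible refine Int.comp ?_ ?_; assumption) | (with_reducible refine Int.comp₂ ?_ ?_ ?_; assumption) | (with_reducible refine Int.comp₃ ?_ ?_ ?_ ?_; assumption) | (with_reducible refine Int.comp₄ ?_ ?_ ?_ ?_ ?_; assumption) | (with_reducible refine IntF.comp ?_ ?_; assumption) | (with_reducible refine IntF.comp₂ ?_ ?_ ?_; assumption) | (with_reducible refine IntF.comp₃ ?_ ?_ ?_ ?_; assumption) | with_reducible apply IntF.pair)), fun k U => ?_⟩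
    exact mem_sep (by (repeat' (first | with_reducible exact IntF.id | with_reducible exact IntF.fst' | with_reducible exact IntF.snd' | with_reducible exact IntF.const _ | with_reducible exact Int.const _ | assumption | with_reducible apply Int.and | with_reducible apply Int.or | with_reducible apply Int.not | with_reducible apply Int.imp | with_reducible apply Int.iff | with_reducible apply Int.ne | with_reducible apply Int.eq | with_reducible apply Int.mem | with_reducible apply Int.subset | with_reducible apply Int.ltN | with_reducible apply Int.leN | with_reducible_and_instances apply Int.le | with_reducible_and_instances apply Int.lt | with_reducible apply Int.all | with_reducible apply Int.ex | with_reducible apply IntF.fst | with_reducible apply IntF.snd | with_reducible apply IntF.app | with_reducible apply IntF.inl | with_reducible apply IntF.inr | with_reducible_and_instances apply IntF.mul | with_reducible_and_instances apply IntF.inv | with_reducible_and_instances apply IntF.add | with_reducible_and_instances apply IntF.sub | with_reducible_and_instances apply IntF.neg | with_reducible_and_instances apply IntF.smul | with_reducible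 apply Int.fin | with_reducible apply IntF.sep | with_reducible apply IntF.lam | with_reducible apply IntF.insert | with_reducible apply IntF.singleton | with_reducible apply IntF.union | with_reducible apply IntF.iimage | with_reducible apply IntF.ite | with_reducible apply IntF.the | with_reducible apply IntF.irec | with_reducible apply IntF.succ | with_reducible apply IntF.val | with_reducible apply IntF.mk | (with_reducible refine Int.comp ?_ ?_; assumption) | (with_reducible refine Int.comp₂ ?_ ?_ ?_; assumption) | (with_reducible refine Int.comp₃ ?_ ?_ ?_ ?_; assumption) | (with_reducible refine Int.comp₄ ?_ ?_ ?_ ?_ ?_; assumption) | (with_reducible refine IntF.comp ?_ ?_; assumption) | (with_reducible refine IntF.comp₂ ?_ ?_ ?_; assumption) | (with_reducible refine IntF.comp₃ ?_ ?_ ?_ ?_; assumption) | with_reducible apply IntF.pair)))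
  have hT : ∀ U, U ∈ (sep N fun U => ∃ k, U ∈ S k) ↔ ∃ k, U ∈ S k := fun U => mem_sep (by (repeat' (first | with_reducible exact IntF.id | with_reducible exact IntF.fst' | with_reducible exact IntF.snd' | with_reducible exact IntF.const _ | with_reducible exact Int.const _ | assumption | with_reducible apply Int.and | with_reducible apply Int.or | with_reducible apply Int.not | with_reducible apply Int.imp | with_reducible apply Int.iff | with_reducible apply Int.ne | with_reducible apply Int.eq | with_reducible apply Int.mem | with_reducible apply Int.subset | with_reducible apply Int.ltN | with_reducible apply Int.leN | with_reducible_and_instances apply Int.le | with_reducible_and_instances apply Int.lt | with_reducible apply Int.all | with_reducible apply Int.ex | with_reducible apply IntF.fst | with_reducible apply IntF.snd | with_reducible apply IntF.app | with_reducible apply IntF.inl | with_reducible apply IntF.inr | with_reducible_and_instances apply IntF.mul | with_reducible_and_instances apply IntF.inv | with_reducible_and_instances apply IntF.add | with_reducible_and_instances apply IntF.sub | with_reducible_and_instances apply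 IntF.neg | with_reducible_and_instances apply IntF.smul | with_reducible apply Int.fin | with_reducible apply IntF.sep | with_reducible apply IntF.lam | with_reducible apply IntF.insert | with_reducible apply IntF.singleton | with_reducible apply IntF.union | with_reducible apply IntF.iimage | with_reducible apply IntF.ite | with_reducible apply IntF.the | with_reducible apply IntF.irec | with_reducible apply IntF.succ | with_reducible apply IntF.val | with_reducible apply IntF.mk | (with_reducible refine Int.comp ?_ ?_; assumption) | (with_reducible refine Int.comp₂ ?_ ?_ ?_; assumption) | (with_reducible refine Int.comp₃ ?_ ?_ ?_ ?_; assumption) | (with_reducible refine Int.comp₄ ?_ ?_ ?_ ?_ ?_; assumption) | (with_reducible refine IntF.comp ?_ ?_; assumption) | (with_reducible refine IntF.comp₂ ?_ ?_ ?_; assumption) | (with_reducible refine IntF.comp₃ ?_ ?_ ?_ ?_; assumption) | with_reducible apply IntF.pair)))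
  have hB := isBase_ts (spo h) (S := sep N fun U => ∃ k, U ∈ S k) (by
    intro U hU x hx
    obtain ⟨k, hk⟩ := (hT U).1 hU
    obtain ⟨y, hy⟩ := (hS' k U).1 hk
    exact ⟨k, fun b hb => (hy b).2 (h.trans _ _ _ _ ((hy x).1 hx) hb)⟩) (by
    intro U x hU hx
    obtain ⟨k, hk⟩ := hU x hx
    have hV : ∀ b, b ∈ (sep N fun b => E (k, (x, b))) ↔ E (k, (x, b)) := fun b => mem_sep (by (repeat' (first | with_reducible exact IntF.id | with_reducible exact IntF.fst' | with_reducible exact IntF.snd' | with_reducible exact IntF.const _ | with_reducible exact Int.const _ | assumption | with_reducible apply Int.and | with_reducible apply Int.or | with_reducible apply Int.not | with_reducible apply Int.imp | with_reducible apply Int.iff | with_reducible apply Int.ne | with_reducible apply Int.eq | with_reducible apply Int.mem | with_reducible apply Int.subset | with_reducible apply Int.ltN | with_reducible apply Int.leN | with_reducible_and_instances apply Int.le | with_reducible_and_instances apply Int.lt | with_reducible apply Int.all | with_reducible apply Int.ex | with_reducible apply IntF.fst | with_reducible apply IntF.snd | with_reducible apply IntF.app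 | with_reducible apply IntF.inl | with_reducible apply IntF.inr | with_reducible_and_instances apply IntF.mul | with_reducible_and_instances apply IntF.inv | with_reducible_and_instances apply IntF.add | with_reducible_and_instances apply IntF.sub | with_reducible_and_instances apply IntF.neg | with_reducible_and_instances apply IntF.smul | with_reducible apply Int.fin | with_reducible apply IntF.sep | with_reducible apply IntF.lam | with_reducible apply IntF.insert | with_reducible apply IntF.singleton | with_reducible apply IntF.union | with_reducible apply IntF.iimage | with_reducible apply IntF.ite | with_reducible apply IntF.the | with_reducible apply IntF.irec | with_reducible apply IntF.succ | with_reducible apply IntF.val | with_reducible apply IntF.mk | (with_reducible refine Int.comp ?_ ?_; assumption) | (with_reducible refine Int.comp₂ ?_ ?_ ?_; assumption) | (with_reducible refine Int.comp₃ ?_ ?_ ?_ ?_; assumption) | (with_reducible refine Int.comp₄ ?_ ?_ ?_ ?_ ?_; assumption) | (with_reducible refine IntF.comp ?_ ?_; assumption) | (with_reducible refine IntF.comp₂ ?_ ?_ ?_; assumption) | (with_reducible refine IntF.comp₃ ?_ ?_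 ?_ ?_; assumption) | with_reducible apply IntF.pair)))
    exact ⟨_, (hT _).2 ⟨k, (hS' k _).2 ⟨x, hV⟩⟩, (hV x).2 (h.refl _ _), fun b hb =>
      hk b ((hV b).1 hb)⟩)
  refine ⟨_, hB, isCuf_of hS (fun k => ?_) hT⟩
  obtain ⟨s, hs, h1⟩ := h.reps k
  have hf : IntF N (fun x => sep N fun b => E (k, (x, b))) := by (repeat' (first | with_reducible exact IntF.id | with_reducible exact IntF.fst' | with_reducible exact IntF.snd' | with_reducible exact IntF.const _ | with_reducible exact Int.const _ | assumption | with_reducible apply Int.and | with_reducible apply Int.or | with_reducible apply Int.not | with_reducible apply Int.imp | with_reducible apply Int.iff | with_reducible apply Int.ne | with_reducible apply Int.eq | with_reducible apply Int.mem | with_reducible apply Int.subset | with_reducible apply Int.ltN | with_reducible apply Int.leN | with_reducible_and_instances apply Int.le | with_reducible_and_instances apply Int.lt | with_reducible apply Int.all | with_reducible apply Int.ex | with_reducible apply IntF.fst | with_reducible apply IntF.snd | with_reducible apply IntF.app | with_reducible apply IntF.inl | with_reducible apply IntF.inr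 | with_reducible_and_instances apply IntF.mul | with_reducible_and_instances apply IntF.inv | with_reducible_and_instances apply IntF.add | with_reducible_and_instances apply IntF.sub | with_reducible_and_instances apply IntF.neg | with_reducible_and_instances apply IntF.smul | with_reducible apply Int.fin | with_reducible apply IntF.sep | with_reducible apply IntF.lam | with_reducible apply IntF.insert | with_reducible apply IntF.singleton | with_reducible apply IntF.union | with_reducible apply IntF.iimage | with_reducible apply IntF.ite | with_reducible apply IntF.the | with_reducible apply IntF.irec | with_reducible apply IntF.succ | with_reducible apply IntF.val | with_reducible apply IntF.mk | (with_reducible refine Int.comp ?_ ?_; assumption) | (with_reducible refine Int.comp₂ ?_ ?_ ?_; assumption) | (with_reducible refine Int.comp₃ ?_ ?_ ?_ ?_; assumption) | (with_reducible refine Int.comp₄ ?_ ?_ ?_ ?_ ?_; assumption) | (with_reducible refine IntF.comp ?_ ?_; assumption) | (with_reducible refine IntF.comp₂ ?_ ?_ ?_; assumption) | (with_reducible refine IntF.comp₃ ?_ ?_ ?_ ?_; assumption) | with_reducible apply IntF.pair))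
  refine (hs.image hf).subset fun U hU => ?_
  obtain ⟨x, hx⟩ := (hS' k U).1 hU
  obtain ⟨y, hy, hxy⟩ := h1 x
  refine (mem_iimage hf).2 ⟨y, hy, ?_⟩
  refine IPow.ext' fun b => ?_
  rw [mem_sep (by (repeat' (first | with_reducible exact IntF.id | with_reducible exact IntF.fst' | with_reducible exact IntF.snd' | with_reducible exact IntF.const _ | with_reducible exact Int.const _ | assumption | with_reducible apply Int.and | with_reducible apply Int.or | with_reducible apply Int.not | with_reducible apply Int.imp | with_reducible apply Int.iff | with_reducible apply Int.ne | with_reducible apply Int.eq | with_reducible apply Int.mem | with_reducible apply Int.subset | with_reducible apply Int.ltN | with_reducible apply Int.leN | with_reducible_and_instances apply Int.le | with_reducible_and_instances apply Int.lt | with_reducible apply Int.all | with_reducible apply Int.ex | with_reducible apply IntF.fst | with_reducible apply IntF.snd | with_reducible apply IntF.app | with_reducible apply IntF.inl | with_reducible apply IntF.inr | with_reducible_and_instances apply IntF.mul | with_reducible_and_instances apply IntF.inv | with_reducible_and_instances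 apply IntF.add | with_reducible_and_instances apply IntF.sub | with_reducible_and_instances apply IntF.neg | with_reducible_and_instances apply IntF.smul | with_reducible apply Int.fin | with_reducible apply IntF.sep | with_reducible apply IntF.lam | with_reducible apply IntF.insert | with_reducible apply IntF.singleton | with_reducible apply IntF.union | with_reducible apply IntF.iimage | with_reducible apply IntF.ite | with_reducible apply IntF.the | with_reducible apply IntF.irec | with_reducible apply IntF.succ | with_reducible apply IntF.val | with_reducible apply IntF.mk | (with_reducible refine Int.comp ?_ ?_; assumption) | (with_reducible refine Int.comp₂ ?_ ?_ ?_; assumption) | (with_reducible refine Int.comp₃ ?_ ?_ ?_ ?_; assumption) | (with_reducible refine Int.comp₄ ?_ ?_ ?_ ?_ ?_; assumption) | (with_reducible refine IntF.comp ?_ ?_; assumption) | (with_reducible refine IntF.comp₂ ?_ ?_ ?_; assumption) | (with_reducible refine IntF.comp₃ ?_ ?_ ?_ ?_; assumption) | with_reducible apply IntF.pair))), hx]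
  exact ⟨fun h2 => h.trans _ _ _ _ hxy h2, fun h2 => h.trans _ _ _ _ (h.symm _ _ _ hxy) h2⟩

/-! ### The space is not a Loeb space -/

theorem not_loeb : ¬ IsLoeb (ts (OpE E)) a := by
  rintro ⟨k, s, f, hk, hf, hch⟩
  obtain ⟨A, hA, hrefl, hcl, hno⟩ := h.noch
  obtain ⟨S, hS, hS'⟩ : ∃ S : INat N × Plain.El a → IPow N (Plain.El a), IntF N S ∧
      ∀ q b, b ∈ S q ↔ A (q.1, (q.2, b)) :=
    ⟨fun q => sep N fun b => A (q.1, (q.2, b)), by (repeat' (first | with_reducible exact IntF.id | with_reducible exact IntF.fst' | with_reducible exact IntF.snd' | with_reducible exact IntF.const _ | with_reducible exact Int.const _ | assumption | with_reducible apply Int.and | with_reducible apply Int.or | with_reducible apply Int.not | with_reducible apply Int.imp | with_reducible apply Int.iff | with_reducible apply Int.ne | with_reducible apply Int.eq | with_reducible apply Int.mem | with_reducible apply Int.subset | with_reducible apply Int.ltN | with_reducible apply Int.leN | with_reducible_and_instances apply Int.le | with_reducible_and_instances apply Int.lt | with_reducible apply Int.all | with_reducible apply Int.ex | with_reducible apply IntF.fst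 | with_reducible apply IntF.snd | with_reducible apply IntF.app | with_reducible apply IntF.inl | with_reducible apply IntF.inr | with_reducible_and_instances apply IntF.mul | with_reducible_and_instances apply IntF.inv | with_reducible_and_instances apply IntF.add | with_reducible_and_instances apply IntF.sub | with_reducible_and_instances apply IntF.neg | with_reducible_and_instances apply IntF.smul | with_reducible apply Int.fin | with_reducible apply IntF.sep | with_reducible apply IntF.lam | with_reducible apply IntF.insert | with_reducible apply IntF.singleton | with_reducible apply IntF.union | with_reducible apply IntF.iimage | with_reducible apply IntF.ite | with_reducible apply IntF.the | with_reducible apply IntF.irec | with_reducible apply IntF.succ | with_reducible apply IntF.val | with_reducible apply IntF.mk | (with_reducible refine Int.comp ?_ ?_; assumption) | (with_reducible refine Int.comp₂ ?_ ?_ ?_; assumption) | (with_reducible refine Int.comp₃ ?_ ?_ ?_ ?_; assumption) | (with_reducible refine Int.comp₄ ?_ ?_ ?_ ?_ ?_; assumption) | (with_reducible refine IntF.comp ?_ ?_; assumption) | (with_reducible refine IntF.comp₂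 ?_ ?_ ?_; assumption) | (with_reducible refine IntF.comp₃ ?_ ?_ ?_ ?_; assumption) | with_reducible apply IntF.pair)), fun q b => mem_sep (by (repeat' (first | with_reducible exact IntF.id | with_reducible exact IntF.fst' | with_reducible exact IntF.snd' | with_reducible exact IntF.const _ | with_reducible exact Int.const _ | assumption | with_reducible apply Int.and | with_reducible apply Int.or | with_reducible apply Int.not | with_reducible apply Int.imp | with_reducible apply Int.iff | with_reducible apply Int.ne | with_reducible apply Int.eq | with_reducible apply Int.mem | with_reducible apply Int.subset | with_reducible apply Int.ltN | with_reducible apply Int.leN | with_reducible_and_instances apply Int.le | with_reducible_and_instances apply Int.lt | with_reducible apply Int.all | with_reducible apply Int.ex | with_reducible apply IntF.fst | with_reducible apply IntF.snd | with_reducible apply IntF.app | with_reducible apply IntF.inl | with_reducible apply IntF.inr | with_reducible_and_instances apply IntF.mul | with_reducible_and_instances apply IntF.inv | with_reducible_and_instances apply IntF.add | with_reducible_and_instances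 apply IntF.sub | with_reducible_and_instances apply IntF.neg | with_reducible_and_instances apply IntF.smul | with_reducible apply Int.fin | with_reducible apply IntF.sep | with_reducible apply IntF.lam | with_reducible apply IntF.insert | with_reducible apply IntF.singleton | with_reducible apply IntF.union | with_reducible apply IntF.iimage | with_reducible apply IntF.ite | with_reducible apply IntF.the | with_reducible apply IntF.irec | with_reducible apply IntF.succ | with_reducible apply IntF.val | with_reducible apply IntF.mk | (with_reducible refine Int.comp ?_ ?_; assumption) | (with_reducible refine Int.comp₂ ?_ ?_ ?_; assumption) | (with_reducible refine Int.comp₃ ?_ ?_ ?_ ?_; assumption) | (with_reducible refine Int.comp₄ ?_ ?_ ?_ ?_ ?_; assumption) | (with_reducible refine IntF.comp ?_ ?_; assumption) | (with_reducible refine IntF.comp₂ ?_ ?_ ?_; assumption) | (with_reducible refine IntF.comp₃ ?_ ?_ ?_ ?_; assumption) | with_reducible apply IntF.pair)))⟩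
  have hO : Int N (fun q : IPow N (Plain.El a) × Plain.El a => Mem (op (code q.1) (code q.2)) f) :=
    int_opm f
  have hSk : ∀ n x, Plain.Mem (code (S (n, x))) k := fun n x =>
    (hk _).2 ⟨(closed_iff h).2 fun y hy => by
      rw [hS'] at hy
      obtain ⟨m, hm⟩ := hcl _ _ _ hy
      refine ⟨m, fun b hb => ?_⟩
      rw [hS']
      exact hm b hb, x.1, mem_E.2 ((hS' _ _).2 (hrefl _ _))⟩
  refine hno (fun q => Mem (op (code (S (q.1, q.2.1))) (code q.2.2)) f)
    (Int.comp (p := fun q : IPow N (Plain.El a) × Plain.El a => Mem (op (code q.1) (code q.2)) f)
      (f := fun q : INat N × (Plain.El a × Plain.El a) => (S (q.1, q.2.1), q.2.2)) hO (by (repeat' (first | with_reducible exact IntF.id | with_reducible exact IntF.fst' | with_reducible exact IntF.snd' | with_reducible exact IntF.const _ | with_reducible exact Int.const _ | assumption | with_reducible apply Int.and | with_reducible apply Int.or | with_reducible apply Int.not | with_reducible apply Int.imp | with_reducible apply Int.iff | with_reducible apply Int.ne | with_reducible apply Int.eq | with_reducible apply Int.mem | with_reducible apply Int.subset | with_reducible apply Int.ltN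 | with_reducible apply Int.leN | with_reducible_and_instances apply Int.le | with_reducible_and_instances apply Int.lt | with_reducible apply Int.all | with_reducible apply Int.ex | with_reducible apply IntF.fst | with_reducible apply IntF.snd | with_reducible apply IntF.app | with_reducible apply IntF.inl | with_reducible apply IntF.inr | with_reducible_and_instances apply IntF.mul | with_reducible_and_instances apply IntF.inv | with_reducible_and_instances apply IntF.add | with_reducible_and_instances apply IntF.sub | with_reducible_and_instances apply IntF.neg | with_reducible_and_instances apply IntF.smul | with_reducible apply Int.fin | with_reducible apply IntF.sep | with_reducible apply IntF.lam | with_reducible apply IntF.insert | with_reducible apply IntF.singleton | with_reducible apply IntF.union | with_reducible apply IntF.iimage | with_reducible apply IntF.ite | with_reducible apply IntF.the | with_reducible apply IntF.irec | with_reducible apply IntF.succ | with_reducible apply IntF.val | with_reducible apply IntF.mk | (with_reducible refine Int.comp ?_ ?_; assumption) | (with_reducible refine Int.comp₂ ?_ ?_ ?_; assumption)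 | (with_reducible refine Int.comp₃ ?_ ?_ ?_ ?_; assumption) | (with_reducible refine Int.comp₄ ?_ ?_ ?_ ?_ ?_; assumption) | (with_reducible refine IntF.comp ?_ ?_; assumption) | (with_reducible refine IntF.comp₂ ?_ ?_ ?_; assumption) | (with_reducible refine IntF.comp₃ ?_ ?_ ?_ ?_; assumption) | with_reducible apply IntF.pair))))
    ?_ ?_ ?_ ?_
  · intro n x b h1
    exact (hS' _ _).1 (mem_codeB'.1 (hch _ _ (app_iff.2 h1)))
  · intro n x x' h1 b h2
    have h3 : S (n, x) = S (n, x') := IPow.ext' fun c => by
      rw [hS', hS']
      exact h1 c
    change Mem (op (code (S (n, x'))) (code b)) f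
    rw [← h3]
    exact h2
  · intro n x
    obtain ⟨y, hy, -⟩ := hf.2 _ (hSk n x)
    obtain ⟨b, -, rfl⟩ := mem_codeB.1 (hch _ _ hy)
    exact ⟨b, app_iff.1 hy⟩
  · intro n x b b' h1 h2
    exact ITy.inj ((hf.2 _ (hSk n x)).unique (app_iff.2 h1) (app_iff.2 h2))

end

end Pool.Agent.Helper672.ZFA.V246C
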