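import Pool.Agent.V11246.CctR

/-!
# A Cantor completely metrizable space with a cuf base that is not a Loeb space: the model
-/

set_option maxHeartbeats 1000000
set_option linter.all false
set_option synthInstance.maxSize 2000

namespace Pool.Agent.Helper672.ZFA.V246C

open FirstOrder FirstOrder.Language
open Pool.Agent.Helper672.ZFA
open Pool.Agent.Helper672.Plain (LSet)
open Pool.Agent.H310Cards
open Pool.Agent.H310
open Pool.Agent.Helper672.ZFA.H310M (Co SS AA)
open Pool.Agent.H635Amen (ZF)
open Pool.Agent.H310Top (IsTopology IsBase IsCuf)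
open Pool.Agent.V11246
open Pool.Agent.Helper672.ZFA.V246 (ts)
open Pool.Agent.Helper672.ZFA.H635 (CollL isModel_of_zermelo coll_of_zf exists_countable_sub toL nn_zf)

universe u

/-- The statement in the model. -/
def HasCc (N : Type u) [LSet.Structure N] : Prop :=
  ∃ x t : N, IsTopology t x ∧ IsCantorCompletelyMetrizable t x ∧ IsKLoeb t x ∧
    (∃ b, IsBase b t ∧ IsCuf b) ∧ ¬ IsLoeb t x

section

attribute [local instance] Helper672.Plain.toL

theorem hasCc_of {N : Type u} [LSet.Structure N] [hZ : Helper672.Plain.Zermelo N]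
    (hh : letI : IsModel N := Helper672.Plain.isModel_toL
      ∃ (a : N) (E : INat N × (El a × El a) → Prop), CT N E) : HasCc N := by
  letI : IsModel N := Helper672.Plain.isModel_toL
  obtain ⟨a, E, hE⟩ := hh
  exact ⟨a, ts (OpE E), topo hE, isCCM hE, isKLoeb hE, exists_base hE, not_loeb hE⟩

end

theorem exists_cc' (M : Type u) [L.Structure M] [IsModel M] [Countable M] (hC : CollL M) :
    ∃ (N : Type u) (_ : LSet.Structure N), ZF N ∧ HasCc N := by
  have p₀ : Co M (Xc M) := ⟨∅, fun i k d d' h => absurd h (by simp), IFin.empty⟩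
  obtain ⟨G, hG⟩ := H635.exists_gen (M := M) p₀
  have hzf : ZF (H635.NN (SS (ZC M)) hG) := nn_zf hG hC
  obtain ⟨E, hE⟩ := exists_CT hG hC
  have hz : Helper672.Plain.Zermelo (H635.NN (SS (ZC M)) hG) := hzf.toZermelo
  exact ⟨H635.NN (SS (ZC M)) hG, inferInstance, hzf, hasCc_of (hZ := hz) ⟨_, E, hE⟩⟩

section

attribute [local instance] toL

theorem exists_cc_c (M : Type u) [LSet.Structure M] [Countable M] (h : ZF M) :
    ∃ (N : Type u) (_ : LSet.Structure N), ZF N ∧ HasCc N := by
  have hM : IsModel M := isModel_of_zermelo h.toZermelo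
  exact exists_cc' M (coll_of_zf h)

end

theorem exists_cc (M : Type u) [LSet.Structure M] (h : ZF M) :
    ∃ (N : Type u) (_ : LSet.Structure N), ZF N ∧ HasCc N := by
  obtain ⟨M₀, h1, h2⟩ := exists_countable_sub M h
  exact exists_cc_c M₀ h2

end Pool.Agent.Helper672.ZFA.V246C
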