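import Pool.Agent.V11246.Coh

/-!
# Cohen forcing at an initial ordinal that adds a function: density
-/

set_option maxHeartbeats 1000000
set_option linter.all false
set_option synthInstance.maxSize 2000

namespace Pool.Agent.Helper672.ZFA.V246

open FirstOrder FirstOrder.Language
open H635 (IWO)
open Pool.Agent.H310

universe u

section

variable {M : Type u} [L.Structure M] [hM : IsModel M] {K : Type u} [ITy M K] [LinearOrder K]
  [ILE M K] {B : Type u} [ITy M B]
variable (h : Crd M K)
variable {π₀ : K → K} {π₂ : K × (K × K) → K} (hP : Pos M K π₀ π₂)
variable {D E Y : Type u} [ITy M D] [ITy M E] [ITy M Y]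

include h in
/-- Adding a small set to a condition. -/
theorem exists_add {p : Cd M K B} {S : IPow M (K × B)} (hS : Sml K S)
    (h1 : ∀ x v v', (x, v) ∈ S → (x, v') ∈ S → v = v')
    (h2 : ∀ x v v', (x, v) ∈ p.1 → (x, v') ∈ S → v = v') :
    ∃ r : Cd M K B, ∀ c, c ∈ r.1 ↔ c ∈ p.1 ∨ c ∈ S := by
  obtain ⟨r, hr⟩ := Cm.union h (p := p) (q := ⟨S, h1, hS⟩) h2
  exact ⟨r, fun c => by rw [hr, mem_union]⟩

include h hP in
theorem exists_wit {o i : B} (hoi : o ≠ i) {F : Cd M K B → D → E → Prop}
    (hF : Int M (fun q : (Cd M K B × D) × E => F q.1.1 q.1.2 q.2)) {p₀ : Cd M K B}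
    (hF1 : ∀ r q q' ξ η η', Cle r p₀ → Cle r q → Cle r q' → F q ξ η → F q' ξ η' → η = η')
    (hU : ∀ r, Cle r p₀ → ∃ ξ u u' η η', Cle u r ∧ Cle u' r ∧ Dc F u ξ η ∧ Dc F u' ξ η' ∧
      η ≠ η')
    {hf : K → Y} {y : Y} (hfib : ∀ a, ∃ b, a < b ∧ hf b = y) {r : Cd M K B}
    (hr : ∀ c, c ∈ p₀.1 → (π₀ c.1, c.2) ∈ r.1) :
    ∃ q ξ θ, Cle q r ∧ Wit π₀ π₂ o i F q ξ θ ∧ hf θ = y := by
  classical
  have h0 := hP.int₀
  have h2 := hP.int₂
  obtain ⟨a₀⟩ : Nonempty K := by
    obtain ⟨j, hj, hi, w, hw⟩ := h.om
    exact ⟨w⟩
  -- the touched coordinates
  have hX₀I : Int M (fun a : K => ∃ j z v, (π₂ (a, (j, z)), v) ∈ r.1) := by (repeat' (first | with_reducible exact IntF.id | with_reducible exact IntF.fst' | with_reducible exact IntF.snd' | with_reducible exact IntF.const _ | with_reducible exact Int.const _ | assumption | with_reducible apply Int.and | with_reducible apply Int.or | with_reducible apply Int.not | with_reducible apply Int.imp | with_reducible apply Int.iff | with_reducible apply Int.ne | with_reducible apply Int.eq | with_reducible apply Int.mem | with_reducible apply Int.subset | with_reducible apply Int.ltN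 | with_reducible apply Int.leN | with_reducible_and_instances apply Int.le | with_reducible_and_instances apply Int.lt | with_reducible apply Int.all | with_reducible apply Int.ex | with_reducible apply IntF.fst | with_reducible apply IntF.snd | with_reducible apply IntF.app | with_reducible apply IntF.inl | with_reducible apply IntF.inr | with_reducible_and_instances apply IntF.mul | with_reducible_and_instances apply IntF.inv | with_reducible_and_instances apply IntF.add | with_reducible_and_instances apply IntF.sub | with_reducible_and_instances apply IntF.neg | with_reducible_and_instances apply IntF.smul | with_reducible apply Int.fin | with_reducible apply IntF.sep | with_reducible apply IntF.lam | with_reducible apply IntF.insert | with_reducible apply IntF.singleton | with_reducible apply IntF.union | with_reducible apply IntF.iimage | with_reducible apply IntF.ite | with_reducible apply IntF.the | with_reducible apply IntF.irec | with_reducible apply IntF.succ | with_reducible apply IntF.val | with_reducible apply IntF.mk | (with_reducible refine Int.comp ?_ ?_; assumption) | (with_reducible refine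 Int.comp₂ ?_ ?_ ?_; assumption) | (with_reducible refine Int.comp₃ ?_ ?_ ?_ ?_; assumption) | (with_reducible refine Int.comp₄ ?_ ?_ ?_ ?_ ?_; assumption) | (with_reducible refine IntF.comp ?_ ?_; assumption) | (with_reducible refine IntF.comp₂ ?_ ?_ ?_; assumption) | (with_reducible refine IntF.comp₃ ?_ ?_ ?_ ?_; assumption) | with_reducible apply IntF.pair))
  have hX₀ : Sml K (sep M fun a : K => ∃ j z v, (π₂ (a, (j, z)), v) ∈ r.1) := by
    have hg : IntF M (fun c : K × B => the (fun a : K => ∃ j z, π₂ (a, (j, z)) = c.1) a₀) := by
      (repeat' (first | with_reducible exact IntF.id | with_reducible exact IntF.fst' | with_reducible exact IntF.snd' | with_reducible exact IntF.const _ | with_reducible exact Int.const _ | assumption | with_reducible apply Int.and | with_reducible apply Int.or | with_reducible apply Int.not | with_reducible apply Int.imp | with_reducible apply Int.iff | with_reducible apply Int.ne | with_reducible apply Int.eq | with_reducible apply Int.mem | with_reducible apply Int.subset | with_reducible apply Int.ltN | with_reducible apply Int.leN | with_reducible_and_instances apply Int.le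 | with_reducible_and_instances apply Int.lt | with_reducible apply Int.all | with_reducible apply Int.ex | with_reducible apply IntF.fst | with_reducible apply IntF.snd | with_reducible apply IntF.app | with_reducible apply IntF.inl | with_reducible apply IntF.inr | with_reducible_and_instances apply IntF.mul | with_reducible_and_instances apply IntF.inv | with_reducible_and_instances apply IntF.add | with_reducible_and_instances apply IntF.sub | with_reducible_and_instances apply IntF.neg | with_reducible_and_instances apply IntF.smul | with_reducible apply Int.fin | with_reducible apply IntF.sep | with_reducible apply IntF.lam | with_reducible apply IntF.insert | with_reducible apply IntF.singleton | with_reducible apply IntF.union | with_reducible apply IntF.iimage | with_reducible apply IntF.ite | with_reducible apply IntF.the | with_reducible apply IntF.irec | with_reducible apply IntF.succ | with_reducible apply IntF.val | with_reducible apply IntF.mk | (with_reducible refine Int.comp ?_ ?_; assumption) | (with_reducible refine Int.comp₂ ?_ ?_ ?_; assumption) | (with_reducible refine Int.comp₃ ?_ ?_ ?_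 ?_; assumption) | (with_reducible refine Int.comp₄ ?_ ?_ ?_ ?_ ?_; assumption) | (with_reducible refine IntF.comp ?_ ?_; assumption) | (with_reducible refine IntF.comp₂ ?_ ?_ ?_; assumption) | (with_reducible refine IntF.comp₃ ?_ ?_ ?_ ?_; assumption) | with_reducible apply IntF.pair))
    refine (r.2.2.image h hg).subset fun a ha => ?_
    obtain ⟨j, z, v, h3⟩ := (mem_sep hX₀I).1 ha
    refine (mem_iimage hg).2 ⟨_, h3, the_eq ⟨a, ⟨j, z, rfl⟩, ?_⟩ ⟨j, z, rfl⟩⟩
    rintro a' ⟨j', z', h4⟩
    exact (Prod.mk.inj (hP.inj₂ h4)).1
  obtain ⟨r₀, hr₀⟩ := exists_low r hP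
  have hS₀I : Int M (fun c : K × B => c.2 = o ∧ c.1 ∈ (sep M fun a : K =>
      ∃ j z v, (π₂ (a, (j, z)), v) ∈ r.1) ∧ ¬ ∃ v, (c.1, v) ∈ r₀.1) := by (repeat' (first | with_reducible exact IntF.id | with_reducible exact IntF.fst' | with_reducible exact IntF.snd' | with_reducible exact IntF.const _ | with_reducible exact Int.const _ | assumption | with_reducible apply Int.and | with_reducible apply Int.or | with_reducible apply Int.not | with_reducible apply Int.imp | with_reducible apply Int.iff | with_reducible apply Int.ne | with_reducible apply Int.eq | with_reducible apply Int.mem | with_reducible apply Int.subset | with_reducible apply Int.ltN | with_reducible apply Int.leN | with_reducible_and_instances apply Int.le | with_reducible_and_instances apply Int.lt | with_reducible apply Int.all | with_reducible apply Int.ex | with_reducible apply IntF.fst | with_reducible apply IntF.snd | with_reducible apply IntF.app | with_reducible apply IntF.inl | with_reducible apply IntF.inr | with_reducible_and_instances apply IntF.mul | with_reducible_and_instances apply IntF.inv | with_reducible_and_instances apply IntF.add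 | with_reducible_and_instances apply IntF.sub | with_reducible_and_instances apply IntF.neg | with_reducible_and_instances apply IntF.smul | with_reducible apply Int.fin | with_reducible apply IntF.sep | with_reducible apply IntF.lam | with_reducible apply IntF.insert | with_reducible apply IntF.singleton | with_reducible apply IntF.union | with_reducible apply IntF.iimage | with_reducible apply IntF.ite | with_reducible apply IntF.the | with_reducible apply IntF.irec | with_reducible apply IntF.succ | with_reducible apply IntF.val | with_reducible apply IntF.mk | (with_reducible refine Int.comp ?_ ?_; assumption) | (with_reducible refine Int.comp₂ ?_ ?_ ?_; assumption) | (with_reducible refine Int.comp₃ ?_ ?_ ?_ ?_; assumption) | (with_reducible refine Int.comp₄ ?_ ?_ ?_ ?_ ?_; assumption) | (with_reducible refine IntF.comp ?_ ?_; assumption) | (with_reducible refine IntF.comp₂ ?_ ?_ ?_; assumption) | (with_reducible refine IntF.comp₃ ?_ ?_ ?_ ?_; assumption) | with_reducible apply IntF.pair))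
  have hS₀ : Sml K (sep M fun c : K × B => c.2 = o ∧ c.1 ∈ (sep M fun a : K =>
      ∃ j z v, (π₂ (a, (j, z)), v) ∈ r.1) ∧ ¬ ∃ v, (c.1, v) ∈ r₀.1) := by
    refine hX₀.of_inj (f := fun c : K × B => c.1) IntF.fst' (fun c hc => ?_)
      fun c c' hc hc' hcc => ?_
    · exact ((mem_sep hS₀I).1 hc).2.1
    · exact Prod.ext hcc (((mem_sep hS₀I).1 hc).1.trans ((mem_sep hS₀I).1 hc').1.symm)
  obtain ⟨p, hp⟩ := exists_add h (p := r₀) hS₀ (fun x v v' h3 h4 => by
      rw [mem_sep hS₀I] at h3 h4
      exact h3.1.trans h4.1.symm) fun x v v' h3 h4 => by
        rw [mem_sep hS₀I] at h4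
        exact absurd ⟨v, h3⟩ h4.2.2
  have hpd : ∀ a j z v, (π₂ (a, (j, z)), v) ∈ r.1 → ∃ v, (a, v) ∈ p.1 := by
    intro a j z v h3
    by_cases h4 : ∃ v, (a, v) ∈ r₀.1
    · obtain ⟨v, hv⟩ := h4
      exact ⟨v, (hp _).2 (Or.inl hv)⟩
    · exact ⟨o, (hp _).2 (Or.inr ((mem_sep hS₀I).2 ⟨rfl, (mem_sep hX₀I).2 ⟨j, z, v, h3⟩, h4⟩))⟩
  have hpp : Cle p p₀ := fun c hc => (hp c).2 (Or.inl ((hr₀ c).2 (hr c hc)))
  obtain ⟨ξ, u, u', η, η', hu, hu', hDu, hDu', hηη⟩ := hU p hpp
  -- the hitting set
  have hXI : Int M (fun x : K => (∃ v, (x, v) ∈ u.1 ∨ (x, v) ∈ u'.1) ∧ ¬ ∃ v, (x, v) ∈ p.1) := by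
    (repeat' (first | with_reducible exact IntF.id | with_reducible exact IntF.fst' | with_reducible exact IntF.snd' | with_reducible exact IntF.const _ | with_reducible exact Int.const _ | assumption | with_reducible apply Int.and | with_reducible apply Int.or | with_reducible apply Int.not | with_reducible apply Int.imp | with_reducible apply Int.iff | with_reducible apply Int.ne | with_reducible apply Int.eq | with_reducible apply Int.mem | with_reducible apply Int.subset | with_reducible apply Int.ltN | with_reducible apply Int.leN | with_reducible_and_instances apply Int.le | with_reducible_and_instances apply Int.lt | with_reducible apply Int.all | with_reducible apply Int.ex | with_reducible apply IntF.fst | with_reducible apply IntF.snd | with_reducible apply IntF.app | with_reducible apply IntF.inl | with_reducible apply IntF.inr | with_reducible_and_instances apply IntF.mul | with_reducible_and_instances apply IntF.inv | with_reducible_and_instances apply IntF.add | with_reducible_and_instances apply IntF.sub | with_reducible_and_instances apply IntF.neg | with_reducible_and_instances apply IntF.smul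 | with_reducible apply Int.fin | with_reducible apply IntF.sep | with_reducible apply IntF.lam | with_reducible apply IntF.insert | with_reducible apply IntF.singleton | with_reducible apply IntF.union | with_reducible apply IntF.iimage | with_reducible apply IntF.ite | with_reducible apply IntF.the | with_reducible apply IntF.irec | with_reducible apply IntF.succ | with_reducible apply IntF.val | with_reducible apply IntF.mk | (with_reducible refine Int.comp ?_ ?_; assumption) | (with_reducible refine Int.comp₂ ?_ ?_ ?_; assumption) | (with_reducible refine Int.comp₃ ?_ ?_ ?_ ?_; assumption) | (with_reducible refine Int.comp₄ ?_ ?_ ?_ ?_ ?_; assumption) | (with_reducible refine IntF.comp ?_ ?_; assumption) | (with_reducible refine IntF.comp₂ ?_ ?_ ?_; assumption) | (with_reducible refine IntF.comp₃ ?_ ?_ ?_ ?_; assumption) | with_reducible apply IntF.pair))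
  have hX : Sml K (sep M fun x : K => (∃ v, (x, v) ∈ u.1 ∨ (x, v) ∈ u'.1) ∧
      ¬ ∃ v, (x, v) ∈ p.1) := by
    refine ((u.2.2.union h u'.2.2).image h (f := fun c : K × B => c.1) IntF.fst').subset
      fun x hx => ?_
    obtain ⟨⟨v, h3⟩, -⟩ := (mem_sep hXI).1 hx
    exact (mem_iimage IntF.fst').2 ⟨(x, v), mem_union.2 h3, rfl⟩
  obtain ⟨X, hXd⟩ : ∃ X : IPow M K, X = sep M fun x : K =>
      (∃ v, (x, v) ∈ u.1 ∨ (x, v) ∈ u'.1) ∧ ¬ ∃ v, (x, v) ∈ p.1 := ⟨_, rfl⟩
  rw [← hXd] at hX
  have hXm : ∀ x, x ∈ X ↔ (∃ v, (x, v) ∈ u.1 ∨ (x, v) ∈ u'.1) ∧ ¬ ∃ v, (x, v) ∈ p.1 := by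
    intro x
    rw [hXd]
    exact mem_sep hXI
  -- the free third coordinate
  have hg₃ : IntF M (fun c : K × B => the (fun z : K => ∃ a j, π₂ (a, (j, z)) = c.1) a₀) := by
    (repeat' (first | with_reducible exact IntF.id | with_reducible exact IntF.fst' | with_reducible exact IntF.snd' | with_reducible exact IntF.const _ | with_reducible exact Int.const _ | assumption | with_reducible apply Int.and | with_reducible apply Int.or | with_reducible apply Int.not | with_reducible apply Int.imp | with_reducible apply Int.iff | with_reducible apply Int.ne | with_reducible apply Int.eq | with_reducible apply Int.mem | with_reducible apply Int.subset | with_reducible apply Int.ltN | with_reducible apply Int.leN | with_reducible_and_instances apply Int.le | with_reducible_and_instances apply Int.lt | with_reducible apply Int.all | with_reducible apply Int.ex | with_reducible apply IntF.fst | with_reducible apply IntF.snd | with_reducible apply IntF.app | with_reducible apply IntF.inl | with_reducible apply IntF.inr | with_reducible_and_instances apply IntF.mul | with_reducible_and_instances apply IntF.inv | with_reducible_and_instances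 apply IntF.add | with_reducible_and_instances apply IntF.sub | with_reducible_and_instances apply IntF.neg | with_reducible_and_instances apply IntF.smul | with_reducible apply Int.fin | with_reducible apply IntF.sep | with_reducible apply IntF.lam | with_reducible apply IntF.insert | with_reducible apply IntF.singleton | with_reducible apply IntF.union | with_reducible apply IntF.iimage | with_reducible apply IntF.ite | with_reducible apply IntF.the | with_reducible apply IntF.irec | with_reducible apply IntF.succ | with_reducible apply IntF.val | with_reducible apply IntF.mk | (with_reducible refine Int.comp ?_ ?_; assumption) | (with_reducible refine Int.comp₂ ?_ ?_ ?_; assumption) | (with_reducible refine Int.comp₃ ?_ ?_ ?_ ?_; assumption) | (with_reducible refine Int.comp₄ ?_ ?_ ?_ ?_ ?_; assumption) | (with_reducible refine IntF.comp ?_ ?_; assumption) | (with_reducible refine IntF.comp₂ ?_ ?_ ?_; assumption) | (with_reducible refine IntF.comp₃ ?_ ?_ ?_ ?_; assumption) | with_reducible apply IntF.pair))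
  obtain ⟨zs, hzs⟩ := r.2.2.not_onto h hg₃
  have hzf : ∀ a j v, ¬ (π₂ (a, (j, zs)), v) ∈ r.1 := by
    intro a j v h3
    refine hzs _ h3 (the_eq ⟨zs, ⟨a, j, rfl⟩, ?_⟩ ⟨a, j, rfl⟩)
    rintro z' ⟨a', j', h4⟩
    exact (Prod.mk.inj (Prod.mk.inj (hP.inj₂ h4)).2).2
  obtain ⟨θ, hθ, hfθ⟩ := hfib zs
  -- the new condition
  obtain ⟨l, hl⟩ := exists_lft h u hP
  have hcl : Cm r l := by
    intro x v v' h3 h4
    obtain ⟨d, hd, h5⟩ := (hl _).1 h4
    obtain ⟨rfl, rfl⟩ := Prod.mk.inj h5
    have h6 : (d.1, v) ∈ u.1 := hu _ ((hp _).2 (Or.inl ((hr₀ (d.1, v)).2 h3)))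
    exact u.2.1 _ _ _ h6 hd
  obtain ⟨q₁, hq₁⟩ := hcl.union h
  have hT₃I : Int M (fun c : K × B => ∃ a j z, a ∈ X ∧ j < θ ∧ z < j ∧
      c = (π₂ (a, (j, z)), o)) := by (repeat' (first | with_reducible exact IntF.id | with_reducible exact IntF.fst' | with_reducible exact IntF.snd' | with_reducible exact IntF.const _ | with_reducible exact Int.const _ | assumption | with_reducible apply Int.and | with_reducible apply Int.or | with_reducible apply Int.not | with_reducible apply Int.imp | with_reducible apply Int.iff | with_reducible apply Int.ne | with_reducible apply Int.eq | with_reducible apply Int.mem | with_reducible apply Int.subset | with_reducible apply Int.ltN | with_reducible apply Int.leN | with_reducible_and_instances apply Int.le | with_reducible_and_instances apply Int.lt | with_reducible apply Int.all | with_reducible apply Int.ex | with_reducible apply IntF.fst | with_reducible apply IntF.snd | with_reducible apply IntF.app | with_reducible apply IntF.inl | with_reducible apply IntF.inr | with_reducible_and_instances apply IntF.mul | with_reducible_and_instances apply IntF.inv | with_reducible_and_instances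 apply IntF.add | with_reducible_and_instances apply IntF.sub | with_reducible_and_instances apply IntF.neg | with_reducible_and_instances apply IntF.smul | with_reducible apply Int.fin | with_reducible apply IntF.sep | with_reducible apply IntF.lam | with_reducible apply IntF.insert | with_reducible apply IntF.singleton | with_reducible apply IntF.union | with_reducible apply IntF.iimage | with_reducible apply IntF.ite | with_reducible apply IntF.the | with_reducible apply IntF.irec | with_reducible apply IntF.succ | with_reducible apply IntF.val | with_reducible apply IntF.mk | (with_reducible refine Int.comp ?_ ?_; assumption) | (with_reducible refine Int.comp₂ ?_ ?_ ?_; assumption) | (with_reducible refine Int.comp₃ ?_ ?_ ?_ ?_; assumption) | (with_reducible refine Int.comp₄ ?_ ?_ ?_ ?_ ?_; assumption) | (with_reducible refine IntF.comp ?_ ?_; assumption) | (with_reducible refine IntF.comp₂ ?_ ?_ ?_; assumption) | (with_reducible refine IntF.comp₃ ?_ ?_ ?_ ?_; assumption) | with_reducible apply IntF.pair))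
  have hT₃ : Sml K (sep M fun c : K × B => ∃ a j z, a ∈ X ∧ j < θ ∧ z < j ∧
      c = (π₂ (a, (j, z)), o)) := by
    have hg : IntF M (fun t : K × (K × K) => (π₂ t, o)) := by (repeat' (first | with_reducible exact IntF.id | with_reducible exact IntF.fst' | with_reducible exact IntF.snd' | with_reducible exact IntF.const _ | with_reducible exact Int.const _ | assumption | with_reducible apply Int.and | with_reducible apply Int.or | with_reducible apply Int.not | with_reducible apply Int.imp | with_reducible apply Int.iff | with_reducible apply Int.ne | with_reducible apply Int.eq | with_reducible apply Int.mem | with_reducible apply Int.subset | with_reducible apply Int.ltN | with_reducible apply Int.leN | with_reducible_and_instances apply Int.le | with_reducible_and_instances apply Int.lt | with_reducible apply Int.all | with_reducible apply Int.ex | with_reducible apply IntF.fst | with_reducible apply IntF.snd | with_reducible apply IntF.app | with_reducible apply IntF.inl | with_reducible apply IntF.inr | with_reducible_and_instances apply IntF.mul | with_reducible_and_instances apply IntF.inv | with_reducible_and_instances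 apply IntF.add | with_reducible_and_instances apply IntF.sub | with_reducible_and_instances apply IntF.neg | with_reducible_and_instances apply IntF.smul | with_reducible apply Int.fin | with_reducible apply IntF.sep | with_reducible apply IntF.lam | with_reducible apply IntF.insert | with_reducible apply IntF.singleton | with_reducible apply IntF.union | with_reducible apply IntF.iimage | with_reducible apply IntF.ite | with_reducible apply IntF.the | with_reducible apply IntF.irec | with_reducible apply IntF.succ | with_reducible apply IntF.val | with_reducible apply IntF.mk | (with_reducible refine Int.comp ?_ ?_; assumption) | (with_reducible refine Int.comp₂ ?_ ?_ ?_; assumption) | (with_reducible refine Int.comp₃ ?_ ?_ ?_ ?_; assumption) | (with_reducible refine Int.comp₄ ?_ ?_ ?_ ?_ ?_; assumption) | (with_reducible refine IntF.comp ?_ ?_; assumption) | (with_reducible refine IntF.comp₂ ?_ ?_ ?_; assumption) | (with_reducible refine IntF.comp₃ ?_ ?_ ?_ ?_; assumption) | with_reducible apply IntF.pair))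
    refine ((hX.prod h ((Sml.seg θ).prod h (Sml.seg θ))).image h hg).subset fun c hc => ?_
    obtain ⟨a, j, z, ha, hj, hz, rfl⟩ := (mem_sep hT₃I).1 hc
    have hI : Int M (fun x : K => x < θ) := by (repeat' (first | with_reducible exact IntF.id | with_reducible exact IntF.fst' | with_reducible exact IntF.snd' | with_reducible exact IntF.const _ | with_reducible exact Int.const _ | assumption | with_reducible apply Int.and | with_reducible apply Int.or | with_reducible apply Int.not | with_reducible apply Int.imp | with_reducible apply Int.iff | with_reducible apply Int.ne | with_reducible apply Int.eq | with_reducible apply Int.mem | with_reducible apply Int.subset | with_reducible apply Int.ltN | with_reducible apply Int.leN | with_reducible_and_instances apply Int.le | with_reducible_and_instances apply Int.lt | with_reducible apply Int.all | with_reducible apply Int.ex | with_reducible apply IntF.fst | with_reducible apply IntF.snd | with_reducible apply IntF.app | with_reducible apply IntF.inl | with_reducible apply IntF.inr | with_reducible_and_instances apply IntF.mul | with_reducible_and_instances apply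 IntF.inv | with_reducible_and_instances apply IntF.add | with_reducible_and_instances apply IntF.sub | with_reducible_and_instances apply IntF.neg | with_reducible_and_instances apply IntF.smul | with_reducible apply Int.fin | with_reducible apply IntF.sep | with_reducible apply IntF.lam | with_reducible apply IntF.insert | with_reducible apply IntF.singleton | with_reducible apply IntF.union | with_reducible apply IntF.iimage | with_reducible apply IntF.ite | with_reducible apply IntF.the | with_reducible apply IntF.irec | with_reducible apply IntF.succ | with_reducible apply IntF.val | with_reducible apply IntF.mk | (with_reducible refine Int.comp ?_ ?_; assumption) | (with_reducible refine Int.comp₂ ?_ ?_ ?_; assumption) | (with_reducible refine Int.comp₃ ?_ ?_ ?_ ?_; assumption) | (with_reducible refine Int.comp₄ ?_ ?_ ?_ ?_ ?_; assumption) | (with_reducible refine IntF.comp ?_ ?_; assumption) | (with_reducible refine IntF.comp₂ ?_ ?_ ?_; assumption) | (with_reducible refine IntF.comp₃ ?_ ?_ ?_ ?_; assumption) | with_reducible apply IntF.pair))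
    exact (mem_iimage hg).2 ⟨(a, (j, z)), mem_iprod.2 ⟨ha, mem_iprod.2 ⟨(mem_sep hI).2 hj,
      (mem_sep hI).2 (hz.trans hj)⟩⟩, rfl⟩
  have hXr : ∀ a, a ∈ X → ∀ j z v, ¬ (π₂ (a, (j, z)), v) ∈ r.1 := by
    intro a ha j z v h3
    exact ((hXm a).1 ha).2 (hpd a j z v h3)
  obtain ⟨q₂, hq₂⟩ := exists_add h (p := q₁) hT₃ (fun x v v' h3 h4 => by
      rw [mem_sep hT₃I] at h3 h4
      obtain ⟨a, j, z, ha, hj, hz, h5⟩ := h3
      obtain ⟨a', j', z', ha', hj', hz', h5'⟩ := h4
      exact (Prod.mk.inj h5).2.trans (Prod.mk.inj h5').2.symm) fun x v v' h3 h4 => by
    rw [mem_sep hT₃I] at h4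
    obtain ⟨a, j, z, ha, hj, hz, h5⟩ := h4
    obtain ⟨rfl, rfl⟩ := Prod.mk.inj h5
    rw [hq₁, mem_union] at h3
    rcases h3 with h3 | h3
    · exact absurd h3 (hXr a ha j z v)
    · obtain ⟨d, hd, h6⟩ := (hl _).1 h3
      exact absurd (Prod.mk.inj h6).1 (hP.ne _ _)
  have hT₄I : Int M (fun c : K × B => ∃ d, d ∈ u.1 ∧ c = (π₂ (d.1, (θ, zs)), i)) := by (repeat' (first | with_reducible exact IntF.id | with_reducible exact IntF.fst' | with_reducible exact IntF.snd' | with_reducible exact IntF.const _ | with_reducible exact Int.const _ | assumption | with_reducible apply Int.and | with_reducible apply Int.or | with_reducible apply Int.not | with_reducible apply Int.imp | with_reducible apply Int.iff | with_reducible apply Int.ne | with_reducible apply Int.eq | with_reducible apply Int.mem | with_reducible apply Int.subset | with_reducible apply Int.ltN | with_reducible apply Int.leN | with_reducible_and_instances apply Int.le | with_reducible_and_instances apply Int.lt | with_reducible apply Int.all | with_reducible apply Int.ex | with_reducible apply IntF.fst | with_reducible apply IntF.snd | with_reducible apply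 IntF.app | with_reducible apply IntF.inl | with_reducible apply IntF.inr | with_reducible_and_instances apply IntF.mul | with_reducible_and_instances apply IntF.inv | with_reducible_and_instances apply IntF.add | with_reducible_and_instances apply IntF.sub | with_reducible_and_instances apply IntF.neg | with_reducible_and_instances apply IntF.smul | with_reducible apply Int.fin | with_reducible apply IntF.sep | with_reducible apply IntF.lam | with_reducible apply IntF.insert | with_reducible apply IntF.singleton | with_reducible apply IntF.union | with_reducible apply IntF.iimage | with_reducible apply IntF.ite | with_reducible apply IntF.the | with_reducible apply IntF.irec | with_reducible apply IntF.succ | with_reducible apply IntF.val | with_reducible apply IntF.mk | (with_reducible refine Int.comp ?_ ?_; assumption) | (with_reducible refine Int.comp₂ ?_ ?_ ?_; assumption) | (with_reducible refine Int.comp₃ ?_ ?_ ?_ ?_; assumption) | (with_reducible refine Int.comp₄ ?_ ?_ ?_ ?_ ?_; assumption) | (with_reducible refine IntF.comp ?_ ?_; assumption) | (with_reducible refine IntF.comp₂ ?_ ?_ ?_; assumption)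 | (with_reducible refine IntF.comp₃ ?_ ?_ ?_ ?_; assumption) | with_reducible apply IntF.pair))
  have hT₄ : Sml K (sep M fun c : K × B => ∃ d, d ∈ u.1 ∧ c = (π₂ (d.1, (θ, zs)), i)) := by
    have hg : IntF M (fun d : K × B => (π₂ (d.1, (θ, zs)), i)) := by (repeat' (first | with_reducible exact IntF.id | with_reducible exact IntF.fst' | with_reducible exact IntF.snd' | with_reducible exact IntF.const _ | with_reducible exact Int.const _ | assumption | with_reducible apply Int.and | with_reducible apply Int.or | with_reducible apply Int.not | with_reducible apply Int.imp | with_reducible apply Int.iff | with_reducible apply Int.ne | with_reducible apply Int.eq | with_reducible apply Int.mem | with_reducible apply Int.subset | with_reducible apply Int.ltN | with_reducible apply Int.leN | with_reducible_and_instances apply Int.le | with_reducible_and_instances apply Int.lt | with_reducible apply Int.all | with_reducible apply Int.ex | with_reducible apply IntF.fst | with_reducible apply IntF.snd | with_reducible apply IntF.app | with_reducible apply IntF.inl | with_reducible apply IntF.inr | with_reducible_and_instances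 apply IntF.mul | with_reducible_and_instances apply IntF.inv | with_reducible_and_instances apply IntF.add | with_reducible_and_instances apply IntF.sub | with_reducible_and_instances apply IntF.neg | with_reducible_and_instances apply IntF.smul | with_reducible apply Int.fin | with_reducible apply IntF.sep | with_reducible apply IntF.lam | with_reducible apply IntF.insert | with_reducible apply IntF.singleton | with_reducible apply IntF.union | with_reducible apply IntF.iimage | with_reducible apply IntF.ite | with_reducible apply IntF.the | with_reducible apply IntF.irec | with_reducible apply IntF.succ | with_reducible apply IntF.val | with_reducible apply IntF.mk | (with_reducible refine Int.comp ?_ ?_; assumption) | (with_reducible refine Int.comp₂ ?_ ?_ ?_; assumption) | (with_reducible refine Int.comp₃ ?_ ?_ ?_ ?_; assumption) | (with_reducible refine Int.comp₄ ?_ ?_ ?_ ?_ ?_; assumption) | (with_reducible refine IntF.comp ?_ ?_; assumption) | (with_reducible refine IntF.comp₂ ?_ ?_ ?_; assumption) | (with_reducible refine IntF.comp₃ ?_ ?_ ?_ ?_; assumption) | with_reducible apply IntF.pair))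
    refine (u.2.2.image h hg).subset fun c hc => ?_
    obtain ⟨d, hd, rfl⟩ := (mem_sep hT₄I).1 hc
    exact (mem_iimage hg).2 ⟨d, hd, rfl⟩
  obtain ⟨q, hq⟩ := exists_add h (p := q₂) hT₄ (fun x v v' h3 h4 => by
      rw [mem_sep hT₄I] at h3 h4
      obtain ⟨d, hd, h5⟩ := h3
      obtain ⟨d', hd', h5'⟩ := h4
      exact (Prod.mk.inj h5).2.trans (Prod.mk.inj h5').2.symm) fun x v v' h3 h4 => by
    rw [mem_sep hT₄I] at h4
    obtain ⟨d, hd, h5⟩ := h4
    obtain ⟨rfl, rfl⟩ := Prod.mk.inj h5
    rw [hq₂, mem_sep hT₃I, hq₁, mem_union] at h3
    rcases h3 with (h3 | h3) | h3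
    · exact absurd h3 (hzf _ _ _)
    · obtain ⟨d', hd', h6⟩ := (hl _).1 h3
      exact absurd (Prod.mk.inj h6).1 (hP.ne _ _)
    · obtain ⟨a', j', z', ha', hj', hz', h6⟩ := h3
      have h7 := (Prod.mk.inj (Prod.mk.inj (hP.inj₂ (Prod.mk.inj h6).1)).2).1
      exact absurd (h7 ▸ hj') (lt_irrefl _)
  have hqr : Cle q r := fun c hc => (hq c).2 (Or.inl ((hq₂ c).2 (Or.inl (by
    rw [hq₁, mem_union]
    exact Or.inl hc))))
  have hql : ∀ c, c ∈ u.1 → (π₀ c.1, c.2) ∈ q.1 := fun c hc =>
    (hq _).2 (Or.inl ((hq₂ _).2 (Or.inl (by
      rw [hq₁, mem_union]
      exact Or.inr ((hl _).2 ⟨c, hc, rfl⟩)))))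
  refine ⟨q, ξ, θ, hqr, ⟨⟨u, hql, ⟨η, hDu⟩, fun c hc => ?_⟩, X, fun a ha j z hj hz => ?_,
    fun s hs hDs => ?_⟩, hfθ⟩
  · exact ⟨θ, zs, le_rfl, hθ, (hq _).2 (Or.inr ((mem_sep hT₄I).2 ⟨c, hc, rfl⟩))⟩
  · exact (hq _).2 (Or.inl ((hq₂ _).2 (Or.inr ((mem_sep hT₃I).2 ⟨a, j, z, ha, hj, hz, rfl⟩))))
  · by_contra hcon
    push Not at hcon
    obtain ⟨η₂, t, ht, hFt⟩ := hDs
    obtain ⟨t₁, ht₁, hFt₁⟩ := hDu
    obtain ⟨t₂, ht₂, hFt₂⟩ := hDu'
    have hsu : Cm s u := fun x v v' h3 h4 => hs x v v' h3 (hql _ h4)
    have hsu' : Cm s u' := by
      intro x v v' h3 h4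
      have h5 : ¬ x ∈ X := hcon _ h3
      rw [hXm] at h5
      have h6 : ∃ v, (x, v) ∈ p.1 := by
        by_contra h6
        exact h5 ⟨⟨v', Or.inr h4⟩, h6⟩
      obtain ⟨w, hw⟩ := h6
      rw [hsu x v w h3 (hu _ hw)]
      exact u'.2.1 _ _ _ (hu' _ hw) h4
    obtain ⟨m, hm, hm'⟩ := hsu.ext h
    obtain ⟨m', hm₁, hm₁'⟩ := hsu'.ext h
    have e1 := hF1 m t t₁ ξ η₂ η (hm'.trans (hu.trans hpp)) (hm.trans ht) (hm'.trans ht₁)
      hFt hFt₁
    have e2 := hF1 m' t t₂ ξ η₂ η' (hm₁'.trans (hu'.trans hpp)) (hm₁.trans ht)
      (hm₁'.trans ht₂) hFt hFt₂
    exact hηη (e1.symm.trans e2)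

/-- The name of the new function. -/
def Nf (π₀ : K → K) (π₂ : K × (K × K) → K) (o i : B) (F : Cd M K B → D → E → Prop) (hf : K → Y)
    (y₀ : Y) (q : Cd M K B) (ξ : D) (y : Y) : Prop :=
  (∃ θ, Wit π₀ π₂ o i F q ξ θ ∧ hf θ = y) ∨
    ((∀ r, Cle r q → ∀ θ, ¬ Wit π₀ π₂ o i F r ξ θ) ∧ y = y₀)

include hP in
theorem int_Nf {o i : B} {F : Cd M K B → D → E → Prop}
    (hF : Int M (fun q : (Cd M K B × D) × E => F q.1.1 q.1.2 q.2)) {hf : K → Y}
    (hfI : IntF M hf) (y₀ : Y) :
    Int M (fun q : (Cd M K B × D) × Y => Nf π₀ π₂ o i F hf y₀ q.1.1 q.1.2 q.2) := by
  have h1 := int_Wit hP (o := o) (i := i) hF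
  have h2 := int_Cle (M := M) (K := K) (B := B)
  unfold Nf
  (repeat' (first | with_reducible exact IntF.id | with_reducible exact IntF.fst' | with_reducible exact IntF.snd' | with_reducible exact IntF.const _ | with_reducible exact Int.const _ | assumption | with_reducible apply Int.and | with_reducible apply Int.or | with_reducible apply Int.not | with_reducible apply Int.imp | with_reducible apply Int.iff | with_reducible apply Int.ne | with_reducible apply Int.eq | with_reducible apply Int.mem | with_reducible apply Int.subset | with_reducible apply Int.ltN | with_reducible apply Int.leN | with_reducible_and_instances apply Int.le | with_reducible_and_instances apply Int.lt | with_reducible apply Int.all | with_reducible apply Int.ex | with_reducible apply IntF.fst | with_reducible apply IntF.snd | with_reducible apply IntF.app | with_reducible apply IntF.inl | with_reducible apply IntF.inr | with_reducible_and_instances apply IntF.mul | with_reducible_and_instances apply IntF.inv | with_reducible_and_instances apply IntF.add | with_reducible_and_instances apply IntF.sub | with_reducible_and_instances apply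 IntF.neg | with_reducible_and_instances apply IntF.smul | with_reducible apply Int.fin | with_reducible apply IntF.sep | with_reducible apply IntF.lam | with_reducible apply IntF.insert | with_reducible apply IntF.singleton | with_reducible apply IntF.union | with_reducible apply IntF.iimage | with_reducible apply IntF.ite | with_reducible apply IntF.the | with_reducible apply IntF.irec | with_reducible apply IntF.succ | with_reducible apply IntF.val | with_reducible apply IntF.mk | (with_reducible refine Int.comp ?_ ?_; assumption) | (with_reducible refine Int.comp₂ ?_ ?_ ?_; assumption) | (with_reducible refine Int.comp₃ ?_ ?_ ?_ ?_; assumption) | (with_reducible refine Int.comp₄ ?_ ?_ ?_ ?_ ?_; assumption) | (with_reducible refine IntF.comp ?_ ?_; assumption) | (with_reducible refine IntF.comp₂ ?_ ?_ ?_; assumption) | (with_reducible refine IntF.comp₃ ?_ ?_ ?_ ?_; assumption) | with_reducible apply IntF.pair))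

theorem nf_unique (h : Crd M K) {o i : B} (hoi : o ≠ i) {F : Cd M K B → D → E → Prop}
    {hf : K → Y} {y₀ : Y} {q q' : Cd M K B} {ξ : D} {y y' : Y}
    (hq : Nf π₀ π₂ o i F hf y₀ q ξ y) (hq' : Nf π₀ π₂ o i F hf y₀ q' ξ y') (hc : Cm q q') :
    y = y' := by
  rcases hq with ⟨θ, h1, rfl⟩ | ⟨h1, rfl⟩ <;> rcases hq' with ⟨θ', h1', rfl⟩ | ⟨h1', rfl⟩
  · rw [h1.unique hoi h1' hc]
  · obtain ⟨s, hs, hs'⟩ := hc.ext h
    exact absurd (h1.mono hs) (h1' s hs' θ)
  · obtain ⟨s, hs, hs'⟩ := hc.ext h
    exact absurd (h1'.mono hs') (h1 s hs θ')
  · rfl

theorem nf_total {o i : B} {F : Cd M K B → D → E → Prop} {hf : K → Y} {y₀ : Y}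
    (r : Cd M K B) (ξ : D) : ∃ s, Cle s r ∧ ∃ y, Nf π₀ π₂ o i F hf y₀ s ξ y := by
  by_cases h1 : ∃ s θ, Cle s r ∧ Wit π₀ π₂ o i F s ξ θ
  · obtain ⟨s, θ, h2, h3⟩ := h1
    exact ⟨s, h2, hf θ, Or.inl ⟨θ, h3, rfl⟩⟩
  · push Not at h1
    exact ⟨r, Cle.refl r, y₀, Or.inr ⟨fun s hs θ => h1 s θ hs, rfl⟩⟩

end

end Pool.Agent.Helper672.ZFA.V246
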