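import Pool.Agent.V11246.CDefs
import Pool.Agent.V11246.Coh2
import Pool.Agent.V11246.Nar

/-!
# Cohen forcing in a plain model
-/

set_option maxHeartbeats 1000000
set_option linter.all false
set_option synthInstance.maxSize 2000

namespace Pool.Agent.Helper672.ZFA.V246

open FirstOrder FirstOrder.Language
open H635 (IWO)
open Pool.Agent.H310
open Pool.Agent.H310Cards
open Pool.Agent.V11246 (IsOrdinal IsSuccCard IsBit Sub IsCond IsCohen NameAt ForcesSurj Collapses)
open Pool.Agent.Helper672.Plain (LSet)
open Pool.Agent.H635Amen (ZF)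

universe u

section

attribute [local instance] Helper672.Plain.toL

variable {M : Type u} [LSet.Structure M] [hZ : ZF M]

local instance instModelL5 : IsModel M := Helper672.Plain.isModel_toL

theorem exists_two : ∃ (t : M) (o i : El t), (∀ z, Mem z t ↔ IsBit z) ∧ o ≠ i := by
  obtain ⟨e, -, he⟩ := small_empty (M := M)
  have h1 : ∀ z, ¬ Mem z e := fun z hz => by
    have := (he z).1 hz
    exact this
  have h2 : ∀ z, Mem z (up e e) ↔ ∀ y, ¬ Mem y z := by
    intro z
    rw [mem_up]
    constructor
    · rintro (rfl | rfl) <;> exact h1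
    · intro h3
      exact Or.inl (hZ.ext z e fun y => ⟨fun hy => absurd hy (h3 y), fun hy => absurd hy (h1 y)⟩)
  refine ⟨up e (up e e), ⟨e, mem_up.2 (Or.inl rfl)⟩, ⟨up e e, mem_up.2 (Or.inr rfl)⟩,
    fun z => ?_, fun h => ?_⟩
  · rw [mem_up]
    constructor
    · rintro (rfl | rfl)
      · exact Or.inl h1
      · exact Or.inr h2
    · rintro (h3 | h3)
      · exact Or.inl (hZ.ext z e fun y => ⟨fun hy => absurd hy (h3 y),
          fun hy => absurd hy (h1 y)⟩)
      · exact Or.inr (hZ.ext z _ fun y => (h3 y).trans (h2 y).symm)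
  · have h3 : e = up e e := congrArg Subtype.val h
    have h4 : Mem e (up e e) := mem_up.2 (Or.inl rfl)
    rw [← h3] at h4
    exact h1 _ h4

variable {l : M} (hl : IsOrdinal l)

/-- The linear order of an ordinal. -/
@[reducible] noncomputable def olin (hl : IsOrdinal l) : LinearOrder (El l) :=
  iwoLin (iwo_El fun _ hx => isOrdinal_of_mem hl hx)

theorem oile (hl : IsOrdinal l) : letI := olin hl; ILE M (El l) := by
  letI := olin hl
  exact ⟨Int.or (iwo_El fun _ hx => isOrdinal_of_mem hl hx).int (Int.eq IntF.fst' IntF.snd')⟩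

theorem crd_of {t w : M} (hs : IsSuccCard l t) (hw : IsOmega w) (hwl : Mem w l) :
    letI := olin hs.ord; letI := oile hs.ord; Crd M (El l) := by
  letI := olin hs.ord
  letI := oile hs.ord
  refine ⟨(iwo_El fun _ hx => isOrdinal_of_mem hs.ord hx).wf, ?_, ?_⟩
  · rintro b ⟨e, he, hei, hb⟩
    obtain ⟨f, hf, hfi⟩ := hs.least b.1 b.2
    obtain ⟨φ, h1, h2⟩ := exists_fun (α := El b.1) (β := El t) hf (fun x => x.2)
      fun z hz => mem_El.1 hz
    have hφi : Function.Injective φ := by
      intro x y hxy
      refine Subtype.ext (hfi _ _ (code (φ x)) ((h2 _ _).1 rfl) ?_)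
      rw [hxy]
      exact (h2 _ _).1 rfl
    have hb' : ∀ x, Mem (e x).1 b.1 := hb
    have hψ : IntF M (fun x : El l => mkE (hb' x)) := by
      refine (Int.comp₂ (p := fun (x : El l) (y : El b.1) => x.1 = y.1) ?_ (he.comp IntF.fst')
        IntF.snd').congr fun q => ?_
      · exact Int.of_D₂ (S := fun v => v 0 = v 1) (D.eqf (DF.var _) (DF.var _))
          fun _ _ => Iff.rfl
      · exact ⟨fun h => Subtype.ext h, fun h => congrArg (fun z : El b.1 => z.1) h⟩
    refine hs.not_inj ⟨_, isInj_relc (h1.comp hψ) (fun x y hxy => ?_) fun x => (φ _).2⟩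
    have h3 := hφi hxy
    exact hei (Subtype.ext (congrArg (fun z : El b.1 => z.1) h3))
  · have hm : ∀ n : INat M, Mem (code n) w := fun n => (mem_omega hw).2 ⟨n, rfl⟩
    refine ⟨fun n => ⟨code n, hs.ord.1 w hwl _ (hm n)⟩, ?_, fun n m hnm => ?_, ⟨w, hwl⟩,
      fun n => hm n⟩
    · exact IntF.of_D (S := fun v => v 0 = v 1) (D.eqf (DF.var _) (DF.var _))
        fun x y => ⟨fun h1 => Subtype.ext h1, fun h1 => congrArg Subtype.val h1⟩
    · exact ITy.inj (M := M) (congrArg (fun z : El l => z.1) hnm)

variable {K : Type u} [ITy M K] [LinearOrder K] [ILE M K] {B : Type u} [ITy M B]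

theorem mem_codeS {γ : Type u} [ITy M γ] {s : IPow M γ} {z : M} :
    Mem z (code (M := M) s) ↔ ∃ a, a ∈ s ∧ code a = z := mem_code_pow

theorem app_code_pow {p : IPow M (K × B)} {x v : M} : App (code (M := M) p) x v ↔
    ∃ c : K × B, c ∈ p ∧ x = code c.1 ∧ v = code c.2 := by
  rw [app_iff]
  constructor
  · intro h
    obtain ⟨c, h1, h2⟩ := mem_code_pow.1 h
    obtain ⟨h3, h4⟩ := op_inj h2
    exact ⟨c, h1, h3.symm, h4.symm⟩
  · rintro ⟨c, h1, rfl, rfl⟩
    exact mem_code_pow.2 ⟨c, h1, rfl⟩

theorem isCond_code {l : M} (hK : ∀ z, Mem z l ↔ ∃ x : K, code x = z)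
    (hlt : ∀ x y : K, x < y ↔ Mem (code (M := M) x) (code y))
    (hB : ∀ z : M, IsBit z ↔ ∃ v : B, code v = z) (p : Cd M K B) : IsCond l (code (M := M) p) := by
  obtain ⟨b, e, h1, h2⟩ := p.2.2
  have happ : ∀ x v, App (code (M := M) p) x v ↔ ∃ c : K × B, c ∈ p.1 ∧ x = code c.1 ∧
      v = code c.2 := fun x v => app_code_pow (p := p.1)
  refine ⟨?_, ?_, ?_⟩
  · intro q hq
    replace hq : Mem q (code (M := M) p.1) := hq
    obtain ⟨c, h3, rfl⟩ := mem_code_pow.1 hq
    exact ⟨code c.1, code c.2, (hK _).2 ⟨_, rfl⟩, (hB _).2 ⟨_, rfl⟩, ordPair_iff.2 rfl⟩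
  · intro x v v' h3 h4
    obtain ⟨c, h5, rfl, rfl⟩ := (happ _ _).1 h3
    obtain ⟨c', h5', h6, rfl⟩ := (happ _ _).1 h4
    have h7 : c.1 = c'.1 := ITy.inj h6
    rw [p.2.1 c.1 c.2 c'.2 h5 (by rw [h7]; exact h5')]
  · have hdI : Int M (fun x : K => ∃ v, (x, v) ∈ p.1) := by (repeat' (first | with_reducible exact IntF.id | with_reducible exact IntF.fst' | with_reducible exact IntF.snd' | with_reducible exact IntF.const _ | with_reducible exact Int.const _ | assumption | with_reducible apply Int.and | with_reducible apply Int.or | with_reducible apply Int.not | with_reducible apply Int.imp | with_reducible apply Int.iff | with_reducible apply Int.ne | with_reducible apply Int.eq | with_reducible apply Int.mem | with_reducible apply Int.subset | with_reducible apply Int.ltN | with_reducible apply Int.leN | with_reducible_and_instances apply Int.le | with_reducible_and_instances apply Int.lt | with_reducible apply Int.all | with_reducible apply Int.ex | with_reducible apply IntF.fst | with_reducible apply IntF.snd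 | with_reducible apply IntF.app | with_reducible apply IntF.inl | with_reducible apply IntF.inr | with_reducible_and_instances apply IntF.mul | with_reducible_and_instances apply IntF.inv | with_reducible_and_instances apply IntF.add | with_reducible_and_instances apply IntF.sub | with_reducible_and_instances apply IntF.neg | with_reducible_and_instances apply IntF.smul | with_reducible apply Int.fin | with_reducible apply IntF.sep | with_reducible apply IntF.lam | with_reducible apply IntF.insert | with_reducible apply IntF.singleton | with_reducible apply IntF.union | with_reducible apply IntF.iimage | with_reducible apply IntF.ite | with_reducible apply IntF.the | with_reducible apply IntF.irec | with_reducible apply IntF.succ | with_reducible apply IntF.val | with_reducible apply IntF.mk | (with_reducible refine Int.comp ?_ ?_; assumption) | (with_reducible refine Int.comp₂ ?_ ?_ ?_; assumption) | (with_reducible refine Int.comp₃ ?_ ?_ ?_ ?_; assumption) | (with_reducible refine Int.comp₄ ?_ ?_ ?_ ?_ ?_;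 assumption) | (with_reducible refine IntF.comp ?_ ?_; assumption) | (with_reducible refine IntF.comp₂ ?_ ?_ ?_; assumption) | (with_reducible refine IntF.comp₃ ?_ ?_ ?_ ?_; assumption) | with_reducible apply IntF.pair))
    have hrI : Int M (fun q : K × K => ∃ v, (q.1, v) ∈ p.1 ∧ e (q.1, v) = q.2) := by (repeat' (first | with_reducible exact IntF.id | with_reducible exact IntF.fst' | with_reducible exact IntF.snd' | with_reducible exact IntF.const _ | with_reducible exact Int.const _ | assumption | with_reducible apply Int.and | with_reducible apply Int.or | with_reducible apply Int.not | with_reducible apply Int.imp | with_reducible apply Int.iff | with_reducible apply Int.ne | with_reducible apply Int.eq | with_reducible apply Int.mem | with_reducible apply Int.subset | with_reducible apply Int.ltN | with_reducible apply Int.leN | with_reducible_and_instances apply Int.le | with_reducible_and_instances apply Int.lt | with_reducible apply Int.all | with_reducible apply Int.ex | with_reducible apply IntF.fst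 | with_reducible apply IntF.snd | with_reducible apply IntF.app | with_reducible apply IntF.inl | with_reducible apply IntF.inr | with_reducible_and_instances apply IntF.mul | with_reducible_and_instances apply IntF.inv | with_reducible_and_instances apply IntF.add | with_reducible_and_instances apply IntF.sub | with_reducible_and_instances apply IntF.neg | with_reducible_and_instances apply IntF.smul | with_reducible apply Int.fin | with_reducible apply IntF.sep | with_reducible apply IntF.lam | with_reducible apply IntF.insert | with_reducible apply IntF.singleton | with_reducible apply IntF.union | with_reducible apply IntF.iimage | with_reducible apply IntF.ite | with_reducible apply IntF.the | with_reducible apply IntF.irec | with_reducible apply IntF.succ | with_reducible apply IntF.val | with_reducible apply IntF.mk | (with_reducible refine Int.comp ?_ ?_; assumption) | (with_reducible refine Int.comp₂ ?_ ?_ ?_; assumption) | (with_reducible refine Int.comp₃ ?_ ?_ ?_ ?_; assumption) | (with_reducible refine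 Int.comp₄ ?_ ?_ ?_ ?_ ?_; assumption) | (with_reducible refine IntF.comp ?_ ?_; assumption) | (with_reducible refine IntF.comp₂ ?_ ?_ ?_; assumption) | (with_reducible refine IntF.comp₃ ?_ ?_ ?_ ?_; assumption) | with_reducible apply IntF.pair))
    have hd : ∀ x, Mem x (code (M := M) (sep M fun x : K => ∃ v, (x, v) ∈ p.1)) ↔
        ∃ c, c ∈ p.1 ∧ x = code c.1 := by
      intro x
      rw [mem_codeS]
      constructor
      · rintro ⟨a, ha, rfl⟩
        obtain ⟨v, hv⟩ := (mem_sep hdI).1 ha
        exact ⟨(a, v), hv, rfl⟩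
      · rintro ⟨c, hc, rfl⟩
        exact ⟨c.1, (mem_sep hdI).2 ⟨c.2, hc⟩, rfl⟩
    refine ⟨code (M := M) (sep M fun x : K => ∃ v, (x, v) ∈ p.1), code b,
      relc M (fun (x y : K) => ∃ v, (x, v) ∈ p.1 ∧ e (x, v) = y), fun x => ?_,
      (hK _).2 ⟨_, rfl⟩, ⟨⟨?_, ?_⟩, ?_⟩⟩
    · refine (hd x).trans ⟨?_, ?_⟩
      · rintro ⟨c, hc, rfl⟩
        exact ⟨code c.2, (happ _ _).2 ⟨c, hc, rfl, rfl⟩⟩
      · rintro ⟨v, hv⟩
        obtain ⟨c, hc, rfl, -⟩ := (happ _ _).1 hv
        exact ⟨c, hc, rfl⟩
    · intro q hq
      obtain ⟨x, y, ⟨v, hv, rfl⟩, rfl⟩ := (mem_relc hrI).1 hq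
      exact ⟨code x, code (e (x, v)), (hd _).2 ⟨(x, v), hv, rfl⟩, (hlt _ _).1 (h1 _ hv),
        ordPair_iff.2 rfl⟩
    · intro x hx
      obtain ⟨c, hc, rfl⟩ := (hd _).1 hx
      refine ⟨code (e c), (app_relc' hrI).2 ⟨c.2, hc, rfl⟩, fun y hy => ?_⟩
      obtain ⟨x', y', ⟨v, hv, rfl⟩, h5, rfl⟩ := (app_relc hrI).1 hy
      have h6 : c.1 = x' := ITy.inj h5
      subst h6
      have h7 : c = (c.1, v) := Prod.ext rfl (p.2.1 c.1 c.2 v hc hv)
      rw [← h7]
    · intro x x' y h3 h4
      obtain ⟨x₁, y₁, ⟨v, hv, rfl⟩, rfl, rfl⟩ := (app_relc hrI).1 h3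
      obtain ⟨x₂, y₂, ⟨v', hv', rfl⟩, rfl, h5⟩ := (app_relc hrI).1 h4
      have h6 := h2 _ _ hv hv' (ITy.inj h5)
      rw [(Prod.mk.inj h6).1]

theorem exists_cond {l : M} (hlo : IsOrdinal l) (hK : ∀ z, Mem z l ↔ ∃ x : K, code x = z)
    (hlt : ∀ x y : K, x < y ↔ Mem (code (M := M) x) (code y))
    (hB : ∀ z : M, IsBit z ↔ ∃ v : B, code v = z) {z : M} (hz : IsCond l z) :
    ∃ p : Cd M K B, code p = z := by
  have hI : Int M (fun c : K × B => Mem (code (M := M) c) z) := ⟨z, fun _ => Iff.rfl⟩
  have hm : ∀ c : K × B, c ∈ (sep M fun c : K × B => Mem (code (M := M) c) z) ↔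
      App z (code c.1) (code c.2) := fun c => (mem_sep hI).trans app_iff.symm
  obtain ⟨d, a, f, hd, ha, ⟨hf1, hf2⟩, hf3⟩ := hz.small
  obtain ⟨b, rfl⟩ := (hK a).1 ha
  have hrI : Int M (fun q : (K × B) × K => Mem (op (code q.1.1) (code q.2)) f) := by
    have h1 : Int M (fun q : K × K => Mem (op (code q.1) (code q.2)) f) := ⟨f, fun _ => Iff.rfl⟩
    exact Int.comp₂ (p := fun x y : K => Mem (op (code x) (code y)) f) h1
      (IntF.fst IntF.fst') IntF.snd'
  have he : IntF M (fun c : K × B => the (fun y : K => Mem (op (code c.1) (code y)) f) b) :=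
    IntF.the hrI (IntF.const _)
  have hev : ∀ c : K × B, App z (code c.1) (code c.2) → ∃ y : K, y < b ∧
      App f (code c.1) (code y) ∧
      the (fun y : K => Mem (op (code c.1) (code y)) f) b = y := by
    intro c hc
    obtain ⟨y, hy, hu⟩ := hf2 (code c.1) ((hd _).2 ⟨_, hc⟩)
    obtain ⟨q, h1, h2⟩ := hy
    obtain ⟨x', y', h3, h4, h5⟩ := hf1 q h2
    obtain ⟨-, rfl⟩ := op_inj ((ordPair_iff.1 h1).symm.trans (ordPair_iff.1 h5))
    obtain ⟨y, rfl⟩ := (hK y).1 (hlo.1 _ ha _ h4)
    refine ⟨y, (hlt _ _).2 h4, ⟨q, h1, h2⟩, the_eq ⟨y, app_iff.1 ⟨q, h1, h2⟩, fun y' hy' => ?_⟩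
      (app_iff.1 ⟨q, h1, h2⟩)⟩
    exact ITy.inj (hu _ (app_iff.2 hy'))
  refine ⟨⟨sep M fun c : K × B => Mem (code (M := M) c) z, fun x v v' h1 h2 => ?_,
    b, ⟨_, he⟩, fun c hc => ?_, fun c c' hc hc' hcc => ?_⟩, hZ.ext _ _ fun w => ?_⟩
  · exact ITy.inj (hz.func _ _ _ ((hm _).1 h1) ((hm _).1 h2))
  · obtain ⟨y, h1, -, h2⟩ := hev c ((hm _).1 hc)
    change the (fun y : K => Mem (op (code c.1) (code y)) f) b < b
    rw [h2]
    exact h1
  · change the (fun y : K => Mem (op (code c.1) (code y)) f) b =
      the (fun y : K => Mem (op (code c'.1) (code y)) f) b at hcc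
    obtain ⟨y, -, h1, h2⟩ := hev c ((hm _).1 hc)
    obtain ⟨y', -, h1', h2'⟩ := hev c' ((hm _).1 hc')
    rw [h2, h2'] at hcc
    subst hcc
    have h3 : code (M := M) c.1 = code c'.1 := hf3 _ _ _ h1 h1'
    have h4 : App z (code c.1) (code c'.2) := by
      rw [h3]
      exact (hm _).1 hc'
    exact Prod.ext (ITy.inj h3) (ITy.inj (hz.func _ _ _ ((hm _).1 hc) h4))
  · have h0 : Mem w (code (M := M) (sep M fun c : K × B => Mem (code (M := M) c) z)) ↔
        Mem w z := by
      rw [mem_codeS]
      constructor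
      · rintro ⟨c, hc, rfl⟩
        exact (mem_sep hI).1 hc
      · intro hw
        obtain ⟨x, v, hx, hv, h1⟩ := hz.pairs w hw
        obtain ⟨x, rfl⟩ := (hK _).1 hx
        obtain ⟨v, rfl⟩ := (hB _).1 hv
        rw [ordPair_iff] at h1
        subst h1
        exact ⟨(x, v), (mem_sep hI).2 hw, rfl⟩
    exact h0

end

end Pool.Agent.Helper672.ZFA.V246
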