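import Pool.Agent.V11246.Cond

/-!
# Homogeneity of the collapse
-/

set_option maxHeartbeats 1000000
set_option linter.all false
set_option synthInstance.maxSize 2000

namespace Pool.Agent.Helper672.ZFA.V246

open FirstOrder FirstOrder.Language
open H635 (IPerm SymSys)
open Pool.Agent.H310

universe u

section nat

variable {M : Type u} [L.Structure M] [hM : IsModel M]

theorem exists_add {a b : INat M} (h : a ≤ b) : ∃ c, b = c + a := by
  rcases INat.total a b with ⟨c, hc⟩ | ⟨c, hc⟩
  · exact ⟨c, by rw [hc, add_comm]⟩
  · refine ⟨0, ?_⟩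
    have h1 : b ≤ a := by
      rw [hc]
      exact le_add_r b c
    rw [zero_add, le_antisymm h h1]

theorem add_lt_r {a b : INat M} (c : INat M) (h : a < b) : a + c < b + c := by
  obtain ⟨d, rfl⟩ := exists_add h.le
  refine lt_of_le_of_ne ?_ fun h1 => ?_
  · rw [add_assoc]
    exact le_add_l d (a + c)
  · rw [add_right_cancel h1.symm] at h
    exact lt_irrefl _ h

theorem not_add_lt (a b : INat M) : ¬ a + b < b := fun h =>
  absurd (le_add_l a b) (not_le.2 h)

open Classical in
/-- The swap of the numbers below `m` and the numbers from `m` to `m + m`. -/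
noncomputable def sw (m n : INat M) : INat M :=
  if n < m then n + m else if n < m + m then (if h : ∃ k, n = k + m then h.choose else n) else n

theorem sw_lt {m n : INat M} (h : n < m) : sw m n = n + m := by
  unfold sw
  rw [if_pos h]

theorem sw_add {m k : INat M} (h : k < m) : sw m (k + m) = k := by
  unfold sw
  have h1 : ∃ j, k + m = j + m := ⟨k, rfl⟩
  rw [if_neg (not_add_lt k m), if_pos (add_lt_r m h), dif_pos h1]
  exact (add_right_cancel h1.choose_spec).symm

theorem sw_ge {m n : INat M} (h : m + m ≤ n) : sw m n = n := by
  unfold sw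
  rw [if_neg (not_lt.2 ((le_add_l m m).trans h)), if_neg (not_lt.2 h)]

theorem sw_cases (m n : INat M) : n < m ∨ (∃ k, k < m ∧ n = k + m) ∨ m + m ≤ n := by
  rcases lt_or_ge n m with h | h
  · exact Or.inl h
  rcases lt_or_ge n (m + m) with h1 | h1
  · obtain ⟨k, rfl⟩ := exists_add h
    refine Or.inr (Or.inl ⟨k, ?_, rfl⟩)
    rcases lt_or_ge k m with h2 | h2
    · exact h2
    · obtain ⟨d, rfl⟩ := exists_add h2
      exfalso
      rw [add_assoc] at h1
      exact not_add_lt _ _ h1
  · exact Or.inr (Or.inr h1)

theorem sw_sw (m n : INat M) : sw m (sw m n) = n := by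
  rcases sw_cases m n with h | ⟨k, h, rfl⟩ | h
  · rw [sw_lt h, sw_add h]
  · rw [sw_add h, sw_lt h]
  · rw [sw_ge h, sw_ge h]

theorem sw_iff {m n k : INat M} : sw m n = k ↔
    (n < m ∧ k = n + m) ∨ (k < m ∧ n = k + m) ∨ (m + m ≤ n ∧ k = n) := by
  constructor
  · rintro rfl
    rcases sw_cases m n with h | ⟨k, h, rfl⟩ | h
    · exact Or.inl ⟨h, sw_lt h⟩
    · rw [sw_add h]
      exact Or.inr (Or.inl ⟨h, rfl⟩)
    · exact Or.inr (Or.inr ⟨h, sw_ge h⟩)
  · rintro (⟨h, rfl⟩ | ⟨h, rfl⟩ | ⟨h, rfl⟩)
    · exact sw_lt h
    · exact sw_add h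
    · exact sw_ge h

theorem int_sw : IntF M (fun q : INat M × INat M => sw q.1 q.2) := by
  refine IntF.of_rel (r := fun (q : INat M × INat M) (k : INat M) =>
    (q.2 < q.1 ∧ k = q.2 + q.1) ∨ (k < q.1 ∧ q.2 = k + q.1) ∨ (q.1 + q.1 ≤ q.2 ∧ k = q.2))
    (by (repeat' (first | with_reducible exact IntF.id | with_reducible exact IntF.fst' | with_reducible exact IntF.snd' | with_reducible exact IntF.const _ | with_reducible exact Int.const _ | assumption | with_reducible apply Int.and | with_reducible apply Int.or | with_reducible apply Int.not | with_reducible apply Int.imp | with_reducible apply Int.iff | with_reducible apply Int.ne | with_reducible apply Int.eq | with_reducible apply Int.mem | with_reducible apply Int.subset | with_reducible apply Int.ltN | with_reducible apply Int.leN | with_reducible_and_instances apply Int.le | with_reducible_and_instances apply Int.lt | with_reducible apply Int.all | with_reducible apply Int.ex | with_reducible apply IntF.fst | with_reducible apply IntF.snd | with_reducible apply IntF.app | with_reducible apply IntF.inl | with_reducible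 apply IntF.inr | with_reducible_and_instances apply IntF.mul | with_reducible_and_instances apply IntF.inv | with_reducible_and_instances apply IntF.add | with_reducible_and_instances apply IntF.sub | with_reducible_and_instances apply IntF.neg | with_reducible_and_instances apply IntF.smul | with_reducible apply Int.fin | with_reducible apply IntF.sep | with_reducible apply IntF.lam | with_reducible apply IntF.insert | with_reducible apply IntF.singleton | with_reducible apply IntF.union | with_reducible apply IntF.iimage | with_reducible apply IntF.ite | with_reducible apply IntF.the | with_reducible apply IntF.irec | with_reducible apply IntF.succ | with_reducible apply IntF.val | with_reducible apply IntF.mk | (with_reducible refine Int.comp ?_ ?_; assumption) | (with_reducible refine Int.comp₂ ?_ ?_ ?_; assumption) | (with_reducible refine Int.comp₃ ?_ ?_ ?_ ?_; assumption) | (with_reducible refine Int.comp₄ ?_ ?_ ?_ ?_ ?_; assumption) | (with_reducible refine IntF.comp ?_ ?_; assumption) | (with_reducible refine IntF.comp₂ ?_ ?_ ?_; assumption) | (with_reducible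 refine IntF.comp₃ ?_ ?_ ?_ ?_; assumption) | with_reducible apply IntF.pair))) fun q k => sw_iff.symm

end nat

section

variable {M : Type u} [L.Structure M] [hM : IsModel M] {K : Type u} [ITy M K] [LinearOrder K]
  [ILE M K]

open Classical in
/-- The involution of the places. -/
noncomputable def ivf (b : K) (m : INat M) (c : Pl M K) : Pl M K :=
  if c.1 < b then c else (c.1, sw m c.2)

theorem int_ivf (b : K) (m : INat M) : IntF M (ivf b m) := by
  have h := int_sw (M := M)
  unfold ivf
  (repeat' (first | with_reducible exact IntF.id | with_reducible exact IntF.fst' | with_reducible exact IntF.snd' | with_reducible exact IntF.const _ | with_reducible exact Int.const _ | assumption | with_reducible apply Int.and | with_reducible apply Int.or | with_reducible apply Int.not | with_reducible apply Int.imp | with_reducible apply Int.iff | with_reducible apply Int.ne | with_reducible apply Int.eq | with_reducible apply Int.mem | with_reducible apply Int.subset | with_reducible apply Int.ltN | with_reducible apply Int.leN | with_reducible_and_instances apply Int.le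 | with_reducible_and_instances apply Int.lt | with_reducible apply Int.all | with_reducible apply Int.ex | with_reducible apply IntF.fst | with_reducible apply IntF.snd | with_reducible apply IntF.app | with_reducible apply IntF.inl | with_reducible apply IntF.inr | with_reducible_and_instances apply IntF.mul | with_reducible_and_instances apply IntF.inv | with_reducible_and_instances apply IntF.add | with_reducible_and_instances apply IntF.sub | with_reducible_and_instances apply IntF.neg | with_reducible_and_instances apply IntF.smul | with_reducible apply Int.fin | with_reducible apply IntF.sep | with_reducible apply IntF.lam | with_reducible apply IntF.insert | with_reducible apply IntF.singleton | with_reducible apply IntF.union | with_reducible apply IntF.iimage | with_reducible apply IntF.ite | with_reducible apply IntF.the | with_reducible apply IntF.irec | with_reducible apply IntF.succ | with_reducible apply IntF.val | with_reducible apply IntF.mk | (with_reducible refine Int.comp ?_ ?_; assumption) | (with_reducible refine Int.comp₂ ?_ ?_ ?_; assumption)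 | (with_reducible refine Int.comp₃ ?_ ?_ ?_ ?_; assumption) | (with_reducible refine Int.comp₄ ?_ ?_ ?_ ?_ ?_; assumption) | (with_reducible refine IntF.comp ?_ ?_; assumption) | (with_reducible refine IntF.comp₂ ?_ ?_ ?_; assumption) | (with_reducible refine IntF.comp₃ ?_ ?_ ?_ ?_; assumption) | with_reducible apply IntF.pair))

theorem ivf_fst (b : K) (m : INat M) (c : Pl M K) : (ivf b m c).1 = c.1 := by
  unfold ivf
  split_ifs <;> rfl

theorem ivf_ivf (b : K) (m : INat M) (c : Pl M K) : ivf b m (ivf b m c) = c := by
  by_cases h : c.1 < b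
  · have h1 : ivf b m c = c := if_pos h
    rw [h1, h1]
  · have h1 : ivf b m c = (c.1, sw m c.2) := if_neg h
    have h2 : ivf b m (c.1, sw m c.2) = (c.1, sw m (sw m c.2)) := if_neg h
    rw [h1, h2, sw_sw]

/-- The involution as an automorphism. -/
noncomputable def iv (b : K) (m : INat M) : Au M K :=
  ⟨IPerm.ofInv (ivf b m) (int_ivf b m) (ivf_ivf b m), fun c => ivf_fst b m c⟩

theorem ac_iv (b : K) (m : INat M) (c : Pl M K) : ac (iv b m) c = ivf b m c := rfl

theorem aci_iv (b : K) (m : INat M) (c : Pl M K) : aci (iv b m) c = ivf b m c := rfl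

theorem Ub_iv (b : K) (m : INat M) : Ub b (iv b m) := fun c hc => if_pos hc

/-- Homogeneity. -/
theorem exists_mv (b : K) (p q : Pc M K) (h : q ≤ rs b p) :
    ∃ π : Au M K, Ub b π ∧ ∃ r, r ≤ q ∧ r ≤ π • p := by
  obtain ⟨m₁, h1⟩ := exists_bd p
  obtain ⟨m₂, h2⟩ := exists_bd q
  have h1' : ∀ c d, (c, d) ∈ p.1 → c.2 < max m₁ m₂ := fun c d hc =>
    lt_of_lt_of_le (h1 c.1 c.2 d hc) (le_max_left _ _)
  have h2' : ∀ c d, (c, d) ∈ q.1 → c.2 < max m₁ m₂ := fun c d hc =>
    lt_of_lt_of_le (h2 c.1 c.2 d hc) (le_max_right _ _)
  set m := max m₁ m₂ with hm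
  refine ⟨iv b m, Ub_iv b m, ?_⟩
  have hs : ∀ c d, (c, d) ∈ (iv b m • p).1 ↔ (ivf b m c, d) ∈ p.1 := fun c d => by
    rw [mem_sm, aci_iv]
  have hc : IsCd (q.1 ∪ (iv b m • p).1) := by
    refine ⟨q.2.1.union (iv b m • p).2.1, ?_, ?_⟩
    · have key : ∀ c d d', (c, d) ∈ q.1 → (c, d') ∈ (iv b m • p).1 → d = d' := by
        intro c d d' hd hd'
        rw [hs] at hd'
        by_cases hcb : c.1 < b
        · have h3 : ivf b m c = c := if_pos hcb
          rw [h3] at hd'
          exact q.2.2.1 c d d' hd (h _ (mem_rs.2 ⟨hd', hcb⟩))
        · have h3 : ivf b m c = (c.1, sw m c.2) := if_neg hcb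
          rw [h3] at hd'
          have h4 := h1' _ _ hd'
          dsimp only at h4
          rw [sw_lt (h2' _ _ hd)] at h4
          exact absurd h4 (not_add_lt _ _)
      intro c d d' hd hd'
      rcases mem_union.1 hd with hd | hd <;> rcases mem_union.1 hd' with hd' | hd'
      · exact q.2.2.1 c d d' hd hd'
      · exact key c d d' hd hd'
      · exact (key c d' d hd' hd).symm
      · exact (iv b m • p).2.2.1 c d d' hd hd'
    · intro c d hd
      rcases mem_union.1 hd with hd | hd
      · exact q.2.2.2 c d hd
      · exact (iv b m • p).2.2.2 c d hd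
  exact ⟨⟨_, hc⟩, fun c hc => mem_union.2 (Or.inl hc), fun c hc => mem_union.2 (Or.inr hc)⟩

/-- Compatibility with the restriction. -/
theorem exists_ext_rs (b : K) (p q : Pc M K) (h : q ≤ rs b p) (hq : rs b q = q) :
    ∃ r, r ≤ q ∧ r ≤ p := by
  have hc : IsCd (q.1 ∪ p.1) := by
    refine ⟨q.2.1.union p.2.1, ?_, ?_⟩
    · have key : ∀ c d d', (c, d) ∈ q.1 → (c, d') ∈ p.1 → d = d' := by
        intro c d d' hd hd'
        have h3 : c.1 < b := by
          rw [← hq] at hd
          exact (mem_rs.1 hd).2
        exact q.2.2.1 c d d' hd (h _ (mem_rs.2 ⟨hd', h3⟩))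
      intro c d d' hd hd'
      rcases mem_union.1 hd with hd | hd <;> rcases mem_union.1 hd' with hd' | hd'
      · exact q.2.2.1 c d d' hd hd'
      · exact key c d d' hd hd'
      · exact (key c d' d hd' hd).symm
      · exact p.2.2.1 c d d' hd hd'
    · intro c d hd
      rcases mem_union.1 hd with hd | hd
      · exact q.2.2.2 c d hd
      · exact p.2.2.2 c d hd
  exact ⟨⟨_, hc⟩, fun c hc => mem_union.2 (Or.inl hc), fun c hc => mem_union.2 (Or.inr hc)⟩

/-- Adding a cell. -/
theorem exists_add_cell (p : Pc M K) (c : Pl M K) (d : K) (hd : d < c.1)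
    (h : ¬ ∃ d', (c, d') ∈ p.1) : ∃ q, q ≤ p ∧ (c, d) ∈ q.1 := by
  have hc : IsCd (insert (c, d) p.1) := by
    refine ⟨p.2.1.insert _, ?_, ?_⟩
    · intro c' d' d'' hd' hd''
      rcases mem_insert.1 hd' with hd' | hd' <;> rcases mem_insert.1 hd'' with hd'' | hd''
      · rw [(Prod.mk.inj hd').2, (Prod.mk.inj hd'').2]
      · rw [(Prod.mk.inj hd').1] at hd''
        exact absurd ⟨_, hd''⟩ h
      · rw [(Prod.mk.inj hd'').1] at hd'
        exact absurd ⟨_, hd'⟩ h
      · exact p.2.2.1 c' d' d'' hd' hd''
    · intro c' d' hd'
      rcases mem_insert.1 hd' with hd' | hd'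
      · rw [(Prod.mk.inj hd').1, (Prod.mk.inj hd').2]
        exact hd
      · exact p.2.2.2 c' d' hd'
  exact ⟨⟨_, hc⟩, fun c hc => mem_insert.2 (Or.inr hc), mem_insert.2 (Or.inl rfl)⟩

end

end Pool.Agent.Helper672.ZFA.V246
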