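import Pool.Agent.H310R3.TopDefs
import Pool.Agent.H635R2.Statement

/-!
# Cantor cubes and strong zero-dimensionality in a structure for the language of set theory

`Mem`, `El` and `LSet` are from `Pool.Agent.Helper672.SIK.Plain`, `IsFun`, `App` and `IsFinite`
from `Pool.Agent.H310R3.Cards`, and `IsReals` from `Pool.Agent.H635R2.Statement`.
-/

namespace Pool.Agent.V11246

open FirstOrder FirstOrder.Language
open Pool.Agent.Helper672.Plain (LSet Mem El)
open Pool.Agent.H310Cards
open Pool.Agent.H635Amen (IsReals)

universe u

variable {M : Type u} [LSet.Structure M]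

/-- `d` has exactly two elements. -/
def IsTwo (d : M) : Prop := ∃ a b, a ≠ b ∧ ∀ z, Mem z d ↔ z = a ∨ z = b

/-- `c` is the set of all functions from `j` to `d`. -/
def IsFunSet (c j d : M) : Prop := ∀ f, Mem f c ↔ IsFun f j d

/-- `t` is the product topology on the set `c` of the functions on `j` with values in a discrete
space: a subset `u` of `c` is open if and only if for every `f` in `u` there is a finite subset
`s` of `j` such that all `g` in `c` that agree with `f` on `s` are in `u`. -/
def IsCubeTop (t c j : M) : Prop :=
  ∀ u, Mem u t ↔ (∀ f, Mem f u → Mem f c) ∧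
    ∀ f, Mem f u → ∃ s, IsFinite s ∧ (∀ i, Mem i s → Mem i j) ∧
      ∀ g, Mem g c → (∀ i y, Mem i s → App f i y → App g i y) → Mem g u

/-- The function `φ` from the space `x` with the topology `t` to the ordered field `r` is in the
model, and it is continuous. -/
structure IsContinuousIn {x r : M} [Field (El r)] [LinearOrder (El r)] (t : M)
    (φ : El x → El r) : Prop where
  graph : ∃ g, ∀ (a : El x) (y : El r), φ a = y ↔ App g a.1 y.1
  cont : ∀ (a : El x) (ε : El r), 0 < ε →
    ∃ u, Mem u t ∧ Mem a.1 u ∧ ∀ b : El x, Mem b.1 u → |φ b - φ a| < ε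

/-- The sets `a` and `b` are completely separated in the space `x` with the topology `t`: there is
a continuous function from `x` to the unit interval of the field of real numbers of the model that
is zero on `a` and one on `b`. -/
def IsSeparated (t x a b : M) : Prop :=
  ∃ (r : M) (_ : Field (El r)) (_ : LinearOrder (El r)) (_ : IsStrictOrderedRing (El r)),
    IsReals r ∧ ∃ φ : El x → El r, IsContinuousIn t φ ∧ (∀ z, 0 ≤ φ z ∧ φ z ≤ 1) ∧
      (∀ z : El x, Mem z.1 a → φ z = 0) ∧ ∀ z : El x, Mem z.1 b → φ z = 1

/-- The space `x` with the topology `t` is strongly zero-dimensional: for all completely separated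
subsets `a` and `b` there is a clopen set `u` (with complement `v`) that contains `a` and is
disjoint from `b`. -/
def IsStronglyZeroDim (t x : M) : Prop :=
  ∀ a b, (∀ z, Mem z a → Mem z x) → (∀ z, Mem z b → Mem z x) → IsSeparated t x a b →
    ∃ u v, Mem u t ∧ Mem v t ∧ (∀ z, Mem z v ↔ Mem z x ∧ ¬ Mem z u) ∧
      (∀ z, Mem z a → Mem z u) ∧ ∀ z, Mem z b → ¬ Mem z u

end Pool.Agent.V11246
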