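import Pool.Agent.V11246.Bri
import Pool.Agent.V11246.Cube
import Pool.Agent.V11246.CubeDefs

/-!
# Cantor cubes are strongly zero-dimensional
-/

set_option maxHeartbeats 1000000
set_option linter.all false
set_option synthInstance.maxSize 2000

namespace Pool.Agent.Helper672.ZFA.V246

open FirstOrder FirstOrder.Language
open H635 (IWO)
open Pool.Agent.H310
open Pool.Agent.H310Cards
open Pool.Agent.Helper672.Plain (LSet)
open Pool.Agent.H635Amen (IsReals)
open Pool.Agent.V11246 (IsTwo IsFunSet IsCubeTop IsContinuousIn IsSeparated IsStronglyZeroDim)

universe u

section

attribute [local instance] Helper672.Plain.toL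

variable {N : Type u} [LSet.Structure N] [hZ : Helper672.Plain.Zermelo N]

local instance instModelC : IsModel N := Helper672.Plain.isModel_toL

noncomputable local instance instPElC (x : N) : ITy N (Helper672.Plain.El x) :=
  (inferInstance : ITy N (El x))

theorem int_app_const (e : N) {x y : N} : Int N (fun q : Plain.El x × Plain.El y => App q.1.1 q.2.1 e) := by
  refine Int.of_D₂ (S := fun v => Mem (op (v 1) e) (v 0)) ?_ fun a b => ?_
  · exact D.memf (DF.op (DF.var _) (DF.const _)) (DF.var _)
  · exact app_iff.symm

section cube

variable {j d c t : N} {e₀ e₁ : N} (hne : e₀ ≠ e₁) (hd : ∀ z, Mem z d ↔ z = e₀ ∨ z = e₁)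
  (hc : IsFunSet c j d)

/-- The set of the points where the value is the first element. -/
noncomputable def toS (e₀ : N) (j : N) (f : Plain.El c) : IPow N (Plain.El j) :=
  sep N fun i : Plain.El j => App f.1 i.1 e₀

theorem mem_toS {f : Plain.El c} {i : Plain.El j} : i ∈ toS e₀ j f ↔ App f.1 i.1 e₀ := by
  have h := int_app_const e₀ (x := c) (y := j)
  exact mem_sep (Int.slice (p := fun (f : Plain.El c) (i : Plain.El j) => App f.1 i.1 e₀) h f)

theorem int_toS : IntF N (fun f : Plain.El c => toS e₀ j f) :=
  IntF.sep (int_app_const e₀ (x := c) (y := j))

include hne hd hc in
theorem app_or {f : Plain.El c} {i : Plain.El j} : (App f.1 i.1 e₀ ∧ ¬ App f.1 i.1 e₁) ∨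
    (App f.1 i.1 e₁ ∧ ¬ App f.1 i.1 e₀) := by
  have hf : IsFun f.1 j d := (hc _).1 f.2
  obtain ⟨y, hy, hu⟩ := hf.2 i.1 i.2
  obtain ⟨q, h1, h2⟩ := hy
  obtain ⟨x', y', h3, h4, h5⟩ := hf.1 q h2
  obtain ⟨-, rfl⟩ := op_inj ((ordPair_iff.1 h1).symm.trans (ordPair_iff.1 h5))
  rcases (hd y).1 h4 with rfl | rfl
  · exact Or.inl ⟨⟨q, h1, h2⟩, fun h => hne (hu _ h).symm⟩
  · exact Or.inr ⟨⟨q, h1, h2⟩, fun h => hne (hu _ h)⟩

include hne hd hc in
theorem app_iff_not {f : Plain.El c} {i : Plain.El j} : App f.1 i.1 e₁ ↔ ¬ App f.1 i.1 e₀ := by
  rcases app_or hne hd hc (f := f) (i := i) with h | h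
  · exact ⟨fun h1 => absurd h1 h.2, fun h1 => absurd h.1 h1⟩
  · exact ⟨fun _ => h.2, fun _ => h.1⟩

include hd hc in
theorem app_val {f : Plain.El c} {i y : N} (h : App f.1 i y) : Mem i j ∧ (y = e₀ ∨ y = e₁) := by
  have hf : IsFun f.1 j d := (hc _).1 f.2
  obtain ⟨q, h1, h2⟩ := h
  obtain ⟨x', y', h3, h4, h5⟩ := hf.1 q h2
  obtain ⟨rfl, rfl⟩ := op_inj ((ordPair_iff.1 h1).symm.trans (ordPair_iff.1 h5))
  exact ⟨h3, (hd y).1 h4⟩

include hne hd hc in
theorem toS_inj {f g : Plain.El c} (h : toS e₀ j f = toS e₀ j g) : f = g := by
  have hs : ∀ {f g : Plain.El c}, toS e₀ j f = toS e₀ j g → ∀ q, Mem q f.1 → Mem q g.1 := by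
    intro f g h q hq
    have hf : IsFun f.1 j d := (hc _).1 f.2
    obtain ⟨i, y, h1, h2, h3⟩ := hf.1 q hq
    have h4 : ∀ k : Plain.El j, App f.1 k.1 e₀ ↔ App g.1 k.1 e₀ := fun k => by
      rw [← mem_toS, ← mem_toS, h]
    rw [ordPair_iff] at h3
    rw [h3] at hq ⊢
    have hq' : App f.1 i y := app_iff.2 hq
    refine app_iff.1 ?_
    rcases (hd y).1 h2 with rfl | rfl
    · exact (h4 ⟨i, h1⟩).1 hq'
    · refine (app_iff_not hne hd hc (f := g) (i := ⟨i, h1⟩)).2 fun h5 => ?_
      exact (app_iff_not hne hd hc (f := f) (i := ⟨i, h1⟩)).1 hq' ((h4 ⟨i, h1⟩).2 h5)
  exact Subtype.ext (extM fun q => ⟨hs h q, hs h.symm q⟩)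

include hne hd hc in
theorem exists_toS (x : IPow N (Plain.El j)) : ∃ f : Plain.El c, toS e₀ j f = x := by
  have he0 : Mem e₀ d := (hd _).2 (Or.inl rfl)
  have he1 : Mem e₁ d := (hd _).2 (Or.inr rfl)
  let a0 : Plain.El d := ⟨e₀, he0⟩
  let a1 : Plain.El d := ⟨e₁, he1⟩
  have hne' : a0 ≠ a1 := fun h => hne (congrArg Subtype.val h)
  have hI : Int N (fun q : Plain.El j × Plain.El d => (q.1 ∈ x ∧ q.2 = a0) ∨ (¬ q.1 ∈ x ∧ q.2 = a1)) := by (repeat' (first | with_reducible exact IntF.id | with_reducible exact IntF.fst' | with_reducible exact IntF.snd' | with_reducible exact IntF.const _ | with_reducible exact Int.const _ | assumption | with_reducible apply Int.and | with_reducible apply Int.or | with_reducible apply Int.not | with_reducible apply Int.imp | with_reducible apply Int.iff | with_reducible apply Int.ne | with_reducible apply Int.eq | with_reducible apply Int.mem | with_reducible apply Int.subset | with_reducible apply Int.ltN | with_reducible apply Int.leN | with_reducible_and_instances apply Int.le | with_reducible_and_instances apply Int.lt | with_reducible apply Int.all | with_reducible apply Int.ex | with_reducible apply IntF.fst | with_reducible apply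 IntF.snd | with_reducible apply IntF.app | with_reducible apply IntF.inl | with_reducible apply IntF.inr | with_reducible_and_instances apply IntF.mul | with_reducible_and_instances apply IntF.inv | with_reducible_and_instances apply IntF.add | with_reducible_and_instances apply IntF.sub | with_reducible_and_instances apply IntF.neg | with_reducible_and_instances apply IntF.smul | with_reducible apply Int.fin | with_reducible apply IntF.sep | with_reducible apply IntF.lam | with_reducible apply IntF.insert | with_reducible apply IntF.singleton | with_reducible apply IntF.union | with_reducible apply IntF.iimage | with_reducible apply IntF.ite | with_reducible apply IntF.the | with_reducible apply IntF.irec | with_reducible apply IntF.succ | with_reducible apply IntF.val | with_reducible apply IntF.mk | (with_reducible refine Int.comp ?_ ?_; assumption) | (with_reducible refine Int.comp₂ ?_ ?_ ?_; assumption) | (with_reducible refine Int.comp₃ ?_ ?_ ?_ ?_; assumption) | (with_reducible refine Int.comp₄ ?_ ?_ ?_ ?_ ?_; assumption) | (with_reducible refine IntF.comp ?_ ?_; assumption) | (with_reducible refine IntF.comp₂ ?_ ?_ ?_; assumption) | (with_reducible refine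 IntF.comp₃ ?_ ?_ ?_ ?_; assumption) | with_reducible apply IntF.pair))
  have hf : IsFun (relc N fun (i : Plain.El j) (y : Plain.El d) => (i ∈ x ∧ y = a0) ∨ (¬ i ∈ x ∧ y = a1))
      j d := by
    refine ⟨fun q hq => ?_, fun i hi => ?_⟩
    · obtain ⟨i, y, -, rfl⟩ := (mem_relc hI).1 hq
      exact ⟨i.1, y.1, i.2, y.2, ordPair_iff.2 rfl⟩
    · by_cases h : (⟨i, hi⟩ : Plain.El j) ∈ x
      · refine ⟨e₀, (app_relc hI).2 ⟨⟨i, hi⟩, a0, Or.inl ⟨h, rfl⟩, rfl, rfl⟩, fun y hy => ?_⟩
        obtain ⟨i', y', h1, h2, rfl⟩ := (app_relc hI).1 hy
        have h3 : i' = ⟨i, hi⟩ := Subtype.ext h2.symm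
        subst h3
        rcases h1 with h1 | h1
        · rw [h1.2]; rfl
        · exact absurd h h1.1
      · refine ⟨e₁, (app_relc hI).2 ⟨⟨i, hi⟩, a1, Or.inr ⟨h, rfl⟩, rfl, rfl⟩, fun y hy => ?_⟩
        obtain ⟨i', y', h1, h2, rfl⟩ := (app_relc hI).1 hy
        have h3 : i' = ⟨i, hi⟩ := Subtype.ext h2.symm
        subst h3
        rcases h1 with h1 | h1
        · exact absurd h1.1 h
        · rw [h1.2]; rfl
  refine ⟨⟨_, (hc _).2 hf⟩, IPow.ext' fun i => ?_⟩
  rw [mem_toS]
  constructor
  · intro h
    have h' : App (relc N fun (i : Plain.El j) (y : Plain.El d) =>
      (i ∈ x ∧ y = a0) ∨ (¬ i ∈ x ∧ y = a1)) i.1 e₀ := h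
    obtain ⟨i', y', h1, h2, h3⟩ := (app_relc hI).1 h'
    have h4 : i' = i := Subtype.ext h2.symm
    subst h4
    rcases h1 with h1 | h1
    · exact h1.1
    · rw [h1.2] at h3
      exact absurd h3 hne
  · intro h
    have h' : App (relc N fun (i : Plain.El j) (y : Plain.El d) =>
      (i ∈ x ∧ y = a0) ∨ (¬ i ∈ x ∧ y = a1)) i.1 e₀ :=
      (app_relc hI).2 ⟨i, a0, Or.inl ⟨h, rfl⟩, rfl, rfl⟩
    exact h'

include hne hd hc in
theorem agree_iff {f g : Plain.El c} {S : IPow N (Plain.El j)} :
    (∀ i y, Mem i (code (M := N) S) → App f.1 i y → App g.1 i y) ↔
      Ag S (toS e₀ j f) (toS e₀ j g) := by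
  constructor
  · intro h i hi
    rw [mem_toS, mem_toS]
    refine ⟨fun h1 => h _ _ (mem_codeB'.2 hi) h1, fun h1 => ?_⟩
    by_contra h2
    have h3 := (app_iff_not hne hd hc).2 h2
    exact (app_iff_not hne hd hc).1 (h _ _ (mem_codeB'.2 hi) h3) h1
  · intro h i y hi hy
    obtain ⟨i, hi', rfl⟩ := mem_codeB.1 hi
    obtain ⟨h1, rfl | rfl⟩ := app_val hd hc hy
    · have h2 := h i hi'
      rw [mem_toS, mem_toS] at h2
      exact h2.1 hy
    · have h2 := h i hi'
      rw [mem_toS, mem_toS] at h2
      exact (app_iff_not hne hd hc).2 fun h3 => (app_iff_not hne hd hc).1 hy (h2.2 h3)

variable (ht : IsCubeTop t c j)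

include hne hd hc ht in
theorem mem_top_of_opn {W : IPow N (Plain.El j) → Prop} (hW : Int N W) (hO : Opn W) :
    Mem (code (M := N) (sep N fun f : Plain.El c => W (toS e₀ j f))) t := by
  have hI : Int N (fun f : Plain.El c => W (toS e₀ j f)) := by
    have h := int_toS (e₀ := e₀) (j := j) (c := c)
    (repeat' (first | with_reducible exact IntF.id | with_reducible exact IntF.fst' | with_reducible exact IntF.snd' | with_reducible exact IntF.const _ | with_reducible exact Int.const _ | assumption | with_reducible apply Int.and | with_reducible apply Int.or | with_reducible apply Int.not | with_reducible apply Int.imp | with_reducible apply Int.iff | with_reducible apply Int.ne | with_reducible apply Int.eq | with_reducible apply Int.mem | with_reducible apply Int.subset | with_reducible apply Int.ltN | with_reducible apply Int.leN | with_reducible_and_instances apply Int.le | with_reducible_and_instances apply Int.lt | with_reducible apply Int.all | with_reducible apply Int.ex | with_reducible apply IntF.fst | with_reducible apply IntF.snd | with_reducible apply IntF.app | with_reducible apply IntF.inl | with_reducible apply IntF.inr | with_reducible_and_instances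 apply IntF.mul | with_reducible_and_instances apply IntF.inv | with_reducible_and_instances apply IntF.add | with_reducible_and_instances apply IntF.sub | with_reducible_and_instances apply IntF.neg | with_reducible_and_instances apply IntF.smul | with_reducible apply Int.fin | with_reducible apply IntF.sep | with_reducible apply IntF.lam | with_reducible apply IntF.insert | with_reducible apply IntF.singleton | with_reducible apply IntF.union | with_reducible apply IntF.iimage | with_reducible apply IntF.ite | with_reducible apply IntF.the | with_reducible apply IntF.irec | with_reducible apply IntF.succ | with_reducible apply IntF.val | with_reducible apply IntF.mk | (with_reducible refine Int.comp ?_ ?_; assumption) | (with_reducible refine Int.comp₂ ?_ ?_ ?_; assumption) | (with_reducible refine Int.comp₃ ?_ ?_ ?_ ?_; assumption) | (with_reducible refine Int.comp₄ ?_ ?_ ?_ ?_ ?_; assumption) | (with_reducible refine IntF.comp ?_ ?_; assumption) | (with_reducible refine IntF.comp₂ ?_ ?_ ?_; assumption) | (with_reducible refine IntF.comp₃ ?_ ?_ ?_ ?_; assumption) | with_reducible apply IntF.pair))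
  refine (ht _).2 ⟨fun f hf => ?_, fun f hf => ?_⟩
  · obtain ⟨f, -, rfl⟩ := mem_codeB.1 hf
    exact f.2
  · obtain ⟨f, hf', rfl⟩ := mem_codeB.1 hf
    rw [mem_sep hI] at hf'
    obtain ⟨F, h1, h2⟩ := hO _ hf'
    refine ⟨code F, isFinite_of_fin h1, fun i hi => ?_, fun g hg h3 => ?_⟩
    · obtain ⟨i, -, rfl⟩ := mem_codeB.1 hi
      exact i.2
    · have h4 := (agree_iff hne hd hc (f := f) (g := ⟨g, hg⟩)).1 h3
      exact mem_codeB.2 ⟨⟨g, hg⟩, (mem_sep hI).2 (h2 _ h4), rfl⟩

include hne hd hc ht in
theorem opn_of_mem_top {φ : Plain.El c → Prop} (h : ∀ f, φ f → ∃ u, Mem u t ∧ Mem f.1 u ∧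
    ∀ g : Plain.El c, Mem g.1 u → φ g) : Opn (fun x : IPow N (Plain.El j) => ∃ f : Plain.El c, toS e₀ j f = x ∧
      φ f) := by
  rintro x ⟨f, rfl, hf⟩
  obtain ⟨u, h1, h2, h3⟩ := h f hf
  obtain ⟨s, h4, h5, h6⟩ := ((ht u).1 h1).2 f.1 h2
  obtain ⟨S, rfl⟩ := exists_codeB (α := Plain.El j) fun z hz => ⟨⟨z, h5 z hz⟩, rfl⟩
  refine ⟨S, fin_of_isFinite h4, fun y hy => ?_⟩
  obtain ⟨g, rfl⟩ := exists_toS hne hd hc y
  exact ⟨g, rfl, h3 g (h6 g.1 g.2 ((agree_iff hne hd hc).2 hy))⟩

end cube

theorem isStronglyZeroDim {j d c t : N} (hd : IsTwo d) (hc : IsFunSet c j d)
    (ht : IsCubeTop t c j) : IsStronglyZeroDim t c := by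
  obtain ⟨e₀, e₁, hne, hd⟩ := hd
  rintro a b ha hb ⟨r, iF, iL, iS, hr, φ, hφ, h01, hφa, hφb⟩
  have hle : Int N (fun q : Plain.El r × Plain.El r => q.1 ≤ q.2) := by
    obtain ⟨g, hg⟩ := hr.le
    exact ⟨g, fun q => (app_iff.symm).trans (hg q.1 q.2).symm⟩
  have hφI : IntF N φ := by
    obtain ⟨g, hg⟩ := hφ.graph
    refine ⟨g, fun q => ?_⟩
    exact (app_iff.symm).trans (hg q.1 q.2).symm
  haveI : ILE N (Plain.El r) := ⟨hle⟩
  have hlt₁ : ∀ e : Plain.El r, Int N (fun f : Plain.El c => φ f < e) := by
    intro e
    have h : Int N (fun f : Plain.El c => ¬ e ≤ φ f) := by (repeat' (first | with_reducible exact IntF.id | with_reducible exact IntF.fst' | with_reducible exact IntF.snd' | with_reducible exact IntF.const _ | with_reducible exact Int.const _ | assumption | with_reducible apply Int.and | with_reducible apply Int.or | with_reducible apply Int.not | with_reducible apply Int.imp | with_reducible apply Int.iff | with_reducible apply Int.ne | with_reducible apply Int.eq | with_reducible apply Int.mem | with_reducible apply Int.subset | with_reducible apply Int.ltN | with_reducible apply Int.leN | with_reducible_and_instances apply Int.le | with_reducible_and_instances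 apply Int.lt | with_reducible apply Int.all | with_reducible apply Int.ex | with_reducible apply IntF.fst | with_reducible apply IntF.snd | with_reducible apply IntF.app | with_reducible apply IntF.inl | with_reducible apply IntF.inr | with_reducible_and_instances apply IntF.mul | with_reducible_and_instances apply IntF.inv | with_reducible_and_instances apply IntF.add | with_reducible_and_instances apply IntF.sub | with_reducible_and_instances apply IntF.neg | with_reducible_and_instances apply IntF.smul | with_reducible apply Int.fin | with_reducible apply IntF.sep | with_reducible apply IntF.lam | with_reducible apply IntF.insert | with_reducible apply IntF.singleton | with_reducible apply IntF.union | with_reducible apply IntF.iimage | with_reducible apply IntF.ite | with_reducible apply IntF.the | with_reducible apply IntF.irec | with_reducible apply IntF.succ | with_reducible apply IntF.val | with_reducible apply IntF.mk | (with_reducible refine Int.comp ?_ ?_; assumption) | (with_reducible refine Int.comp₂ ?_ ?_ ?_; assumption) | (with_reducible refine Int.comp₃ ?_ ?_ ?_ ?_; assumption) | (with_reducible refine Int.comp₄ ?_ ?_ ?_ ?_ ?_; assumption) | (with_reducible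 refine IntF.comp ?_ ?_; assumption) | (with_reducible refine IntF.comp₂ ?_ ?_ ?_; assumption) | (with_reducible refine IntF.comp₃ ?_ ?_ ?_ ?_; assumption) | with_reducible apply IntF.pair))
    exact h.congr fun f => not_le
  have hlt₂ : ∀ e : Plain.El r, Int N (fun f : Plain.El c => e < φ f) := by
    intro e
    have h : Int N (fun f : Plain.El c => ¬ φ f ≤ e) := by (repeat' (first | with_reducible exact IntF.id | with_reducible exact IntF.fst' | with_reducible exact IntF.snd' | with_reducible exact IntF.const _ | with_reducible exact Int.const _ | assumption | with_reducible apply Int.and | with_reducible apply Int.or | with_reducible apply Int.not | with_reducible apply Int.imp | with_reducible apply Int.iff | with_reducible apply Int.ne | with_reducible apply Int.eq | with_reducible apply Int.mem | with_reducible apply Int.subset | with_reducible apply Int.ltN | with_reducible apply Int.leN | with_reducible_and_instances apply Int.le | with_reducible_and_instances apply Int.lt | with_reducible apply Int.all | with_reducible apply Int.ex | with_reducible apply IntF.fst | with_reducible apply IntF.snd | with_reducible apply IntF.app | with_reducible apply IntF.inl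 | with_reducible apply IntF.inr | with_reducible_and_instances apply IntF.mul | with_reducible_and_instances apply IntF.inv | with_reducible_and_instances apply IntF.add | with_reducible_and_instances apply IntF.sub | with_reducible_and_instances apply IntF.neg | with_reducible_and_instances apply IntF.smul | with_reducible apply Int.fin | with_reducible apply IntF.sep | with_reducible apply IntF.lam | with_reducible apply IntF.insert | with_reducible apply IntF.singleton | with_reducible apply IntF.union | with_reducible apply IntF.iimage | with_reducible apply IntF.ite | with_reducible apply IntF.the | with_reducible apply IntF.irec | with_reducible apply IntF.succ | with_reducible apply IntF.val | with_reducible apply IntF.mk | (with_reducible refine Int.comp ?_ ?_; assumption) | (with_reducible refine Int.comp₂ ?_ ?_ ?_; assumption) | (with_reducible refine Int.comp₃ ?_ ?_ ?_ ?_; assumption) | (with_reducible refine Int.comp₄ ?_ ?_ ?_ ?_ ?_; assumption) | (with_reducible refine IntF.comp ?_ ?_; assumption) | (with_reducible refine IntF.comp₂ ?_ ?_ ?_; assumption) | (with_reducible refine IntF.comp₃ ?_ ?_ ?_ ?_; assumption) | with_reducible apply IntF.pair))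
    exact h.congr fun f => not_le
  have htS := int_toS (e₀ := e₀) (j := j) (c := c)
  set p : Plain.El r := 1 / 3 with hp
  set q : Plain.El r := 2 / 3 with hq
  have hpq : p < q := by
    rw [hp, hq]
    linarith
  have hp0 : 0 < p := by
    rw [hp]
    positivity
  have hq1 : q < 1 := by
    rw [hq]
    linarith
  have hU₁ : Int N (fun x : IPow N (Plain.El j) => ∃ f : Plain.El c, toS e₀ j f = x ∧ φ f < q) := by
    have h := hlt₁ q
    (repeat' (first | with_reducible exact IntF.id | with_reducible exact IntF.fst' | with_reducible exact IntF.snd' | with_reducible exact IntF.const _ | with_reducible exact Int.const _ | assumption | with_reducible apply Int.and | with_reducible apply Int.or | with_reducible apply Int.not | with_reducible apply Int.imp | with_reducible apply Int.iff | with_reducible apply Int.ne | with_reducible apply Int.eq | with_reducible apply Int.mem | with_reducible apply Int.subset | with_reducible apply Int.ltN | with_reducible apply Int.leN | with_reducible_and_instances apply Int.le | with_reducible_and_instances apply Int.lt | with_reducible apply Int.all | with_reducible apply Int.ex | with_reducible apply IntF.fst | with_reducible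 apply IntF.snd | with_reducible apply IntF.app | with_reducible apply IntF.inl | with_reducible apply IntF.inr | with_reducible_and_instances apply IntF.mul | with_reducible_and_instances apply IntF.inv | with_reducible_and_instances apply IntF.add | with_reducible_and_instances apply IntF.sub | with_reducible_and_instances apply IntF.neg | with_reducible_and_instances apply IntF.smul | with_reducible apply Int.fin | with_reducible apply IntF.sep | with_reducible apply IntF.lam | with_reducible apply IntF.insert | with_reducible apply IntF.singleton | with_reducible apply IntF.union | with_reducible apply IntF.iimage | with_reducible apply IntF.ite | with_reducible apply IntF.the | with_reducible apply IntF.irec | with_reducible apply IntF.succ | with_reducible apply IntF.val | with_reducible apply IntF.mk | (with_reducible refine Int.comp ?_ ?_; assumption) | (with_reducible refine Int.comp₂ ?_ ?_ ?_; assumption) | (with_reducible refine Int.comp₃ ?_ ?_ ?_ ?_; assumption) | (with_reducible refine Int.comp₄ ?_ ?_ ?_ ?_ ?_; assumption) | (with_reducible refine IntF.comp ?_ ?_; assumption) | (with_reducible refine IntF.comp₂ ?_ ?_ ?_; assumption) | (with_reducible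 refine IntF.comp₃ ?_ ?_ ?_ ?_; assumption) | with_reducible apply IntF.pair))
  have hV₁ : Int N (fun x : IPow N (Plain.El j) => ∃ f : Plain.El c, toS e₀ j f = x ∧ q < φ f) := by
    have h := hlt₂ q
    (repeat' (first | with_reducible exact IntF.id | with_reducible exact IntF.fst' | with_reducible exact IntF.snd' | with_reducible exact IntF.const _ | with_reducible exact Int.const _ | assumption | with_reducible apply Int.and | with_reducible apply Int.or | with_reducible apply Int.not | with_reducible apply Int.imp | with_reducible apply Int.iff | with_reducible apply Int.ne | with_reducible apply Int.eq | with_reducible apply Int.mem | with_reducible apply Int.subset | with_reducible apply Int.ltN | with_reducible apply Int.leN | with_reducible_and_instances apply Int.le | with_reducible_and_instances apply Int.lt | with_reducible apply Int.all | with_reducible apply Int.ex | with_reducible apply IntF.fst | with_reducible apply IntF.snd | with_reducible apply IntF.app | with_reducible apply IntF.inl | with_reducible apply IntF.inr | with_reducible_and_instances apply IntF.mul | with_reducible_and_instances apply IntF.inv | with_reducible_and_instances apply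 IntF.add | with_reducible_and_instances apply IntF.sub | with_reducible_and_instances apply IntF.neg | with_reducible_and_instances apply IntF.smul | with_reducible apply Int.fin | with_reducible apply IntF.sep | with_reducible apply IntF.lam | with_reducible apply IntF.insert | with_reducible apply IntF.singleton | with_reducible apply IntF.union | with_reducible apply IntF.iimage | with_reducible apply IntF.ite | with_reducible apply IntF.the | with_reducible apply IntF.irec | with_reducible apply IntF.succ | with_reducible apply IntF.val | with_reducible apply IntF.mk | (with_reducible refine Int.comp ?_ ?_; assumption) | (with_reducible refine Int.comp₂ ?_ ?_ ?_; assumption) | (with_reducible refine Int.comp₃ ?_ ?_ ?_ ?_; assumption) | (with_reducible refine Int.comp₄ ?_ ?_ ?_ ?_ ?_; assumption) | (with_reducible refine IntF.comp ?_ ?_; assumption) | (with_reducible refine IntF.comp₂ ?_ ?_ ?_; assumption) | (with_reducible refine IntF.comp₃ ?_ ?_ ?_ ?_; assumption) | with_reducible apply IntF.pair))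
  have hU₂ : Int N (fun x : IPow N (Plain.El j) => ∃ f : Plain.El c, toS e₀ j f = x ∧ φ f < p) := by
    have h := hlt₁ p
    (repeat' (first | with_reducible exact IntF.id | with_reducible exact IntF.fst' | with_reducible exact IntF.snd' | with_reducible exact IntF.const _ | with_reducible exact Int.const _ | assumption | with_reducible apply Int.and | with_reducible apply Int.or | with_reducible apply Int.not | with_reducible apply Int.imp | with_reducible apply Int.iff | with_reducible apply Int.ne | with_reducible apply Int.eq | with_reducible apply Int.mem | with_reducible apply Int.subset | with_reducible apply Int.ltN | with_reducible apply Int.leN | with_reducible_and_instances apply Int.le | with_reducible_and_instances apply Int.lt | with_reducible apply Int.all | with_reducible apply Int.ex | with_reducible apply IntF.fst | with_reducible apply IntF.snd | with_reducible apply IntF.app | with_reducible apply IntF.inl | with_reducible apply IntF.inr | with_reducible_and_instances apply IntF.mul | with_reducible_and_instances apply IntF.inv | with_reducible_and_instances apply IntF.add | with_reducible_and_instances apply IntF.sub | with_reducible_and_instances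 apply IntF.neg | with_reducible_and_instances apply IntF.smul | with_reducible apply Int.fin | with_reducible apply IntF.sep | with_reducible apply IntF.lam | with_reducible apply IntF.insert | with_reducible apply IntF.singleton | with_reducible apply IntF.union | with_reducible apply IntF.iimage | with_reducible apply IntF.ite | with_reducible apply IntF.the | with_reducible apply IntF.irec | with_reducible apply IntF.succ | with_reducible apply IntF.val | with_reducible apply IntF.mk | (with_reducible refine Int.comp ?_ ?_; assumption) | (with_reducible refine Int.comp₂ ?_ ?_ ?_; assumption) | (with_reducible refine Int.comp₃ ?_ ?_ ?_ ?_; assumption) | (with_reducible refine Int.comp₄ ?_ ?_ ?_ ?_ ?_; assumption) | (with_reducible refine IntF.comp ?_ ?_; assumption) | (with_reducible refine IntF.comp₂ ?_ ?_ ?_; assumption) | (with_reducible refine IntF.comp₃ ?_ ?_ ?_ ?_; assumption) | with_reducible apply IntF.pair))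
  have hV₂ : Int N (fun x : IPow N (Plain.El j) => ∃ f : Plain.El c, toS e₀ j f = x ∧ p < φ f) := by
    have h := hlt₂ p
    (repeat' (first | with_reducible exact IntF.id | with_reducible exact IntF.fst' | with_reducible exact IntF.snd' | with_reducible exact IntF.const _ | with_reducible exact Int.const _ | assumption | with_reducible apply Int.and | with_reducible apply Int.or | with_reducible apply Int.not | with_reducible apply Int.imp | with_reducible apply Int.iff | with_reducible apply Int.ne | with_reducible apply Int.eq | with_reducible apply Int.mem | with_reducible apply Int.subset | with_reducible apply Int.ltN | with_reducible apply Int.leN | with_reducible_and_instances apply Int.le | with_reducible_and_instances apply Int.lt | with_reducible apply Int.all | with_reducible apply Int.ex | with_reducible apply IntF.fst | with_reducible apply IntF.snd | with_reducible apply IntF.app | with_reducible apply IntF.inl | with_reducible apply IntF.inr | with_reducible_and_instances apply IntF.mul | with_reducible_and_instances apply IntF.inv | with_reducible_and_instances apply IntF.add | with_reducible_and_instances apply IntF.sub | with_reducible_and_instances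 apply IntF.neg | with_reducible_and_instances apply IntF.smul | with_reducible apply Int.fin | with_reducible apply IntF.sep | with_reducible apply IntF.lam | with_reducible apply IntF.insert | with_reducible apply IntF.singleton | with_reducible apply IntF.union | with_reducible apply IntF.iimage | with_reducible apply IntF.ite | with_reducible apply IntF.the | with_reducible apply IntF.irec | with_reducible apply IntF.succ | with_reducible apply IntF.val | with_reducible apply IntF.mk | (with_reducible refine Int.comp ?_ ?_; assumption) | (with_reducible refine Int.comp₂ ?_ ?_ ?_; assumption) | (with_reducible refine Int.comp₃ ?_ ?_ ?_ ?_; assumption) | (with_reducible refine Int.comp₄ ?_ ?_ ?_ ?_ ?_; assumption) | (with_reducible refine IntF.comp ?_ ?_; assumption) | (with_reducible refine IntF.comp₂ ?_ ?_ ?_; assumption) | (with_reducible refine IntF.comp₃ ?_ ?_ ?_ ?_; assumption) | with_reducible apply IntF.pair))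
  have o₁ : ∀ e : Plain.El r, Opn (fun x : IPow N (Plain.El j) => ∃ f : Plain.El c, toS e₀ j f = x ∧ φ f < e) := by
    intro e
    refine opn_of_mem_top hne hd hc ht fun f hf => ?_
    obtain ⟨u, h1, h2, h3⟩ := hφ.cont f (e - φ f) (by linarith)
    refine ⟨u, h1, h2, fun g hg => ?_⟩
    have h4 := (abs_lt.1 (h3 g hg)).2
    linarith
  have o₂ : ∀ e : Plain.El r, Opn (fun x : IPow N (Plain.El j) => ∃ f : Plain.El c, toS e₀ j f = x ∧ e < φ f) := by
    intro e
    refine opn_of_mem_top hne hd hc ht fun f hf => ?_
    obtain ⟨u, h1, h2, h3⟩ := hφ.cont f (φ f - e) (by linarith)
    refine ⟨u, h1, h2, fun g hg => ?_⟩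
    have h4 := (abs_lt.1 (h3 g hg)).1
    linarith
  obtain ⟨h1, h2, h3, h4⟩ := clopen_of hU₁ hV₁ hU₂ hV₂
    (by
      rintro x ⟨f, rfl, hf⟩ ⟨g, h5, hg⟩
      rw [toS_inj hne hd hc h5] at hg
      exact absurd hf (not_lt.2 hg.le))
    (by
      rintro x ⟨f, rfl, hf⟩ ⟨g, h5, hg⟩
      rw [toS_inj hne hd hc h5] at hg
      exact absurd hf (not_lt.2 hg.le))
    (o₁ q) (o₂ q) (o₁ p) (o₂ p)
    (by
      intro x
      obtain ⟨f, rfl⟩ := exists_toS hne hd hc x
      rcases lt_or_ge (φ f) q with h | h
      · exact Or.inl ⟨f, rfl, h⟩
      · exact Or.inr ⟨f, rfl, hpq.trans_le h⟩)
  have hC := int_Cl hU₁ hV₁ hU₂ hV₂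
  refine ⟨_, _, mem_top_of_opn hne hd hc ht hC h1, mem_top_of_opn hne hd hc ht hC.not h2,
    fun z => ?_, fun z hz => ?_, fun z hz hz' => ?_⟩
  · constructor
    · intro hz
      obtain ⟨f, hf, rfl⟩ := mem_codeB.1 hz
      rw [mem_sep (by (repeat' (first | with_reducible exact IntF.id | with_reducible exact IntF.fst' | with_reducible exact IntF.snd' | with_reducible exact IntF.const _ | with_reducible exact Int.const _ | assumption | with_reducible apply Int.and | with_reducible apply Int.or | with_reducible apply Int.not | with_reducible apply Int.imp | with_reducible apply Int.iff | with_reducible apply Int.ne | with_reducible apply Int.eq | with_reducible apply Int.mem | with_reducible apply Int.subset | with_reducible apply Int.ltN | with_reducible apply Int.leN | with_reducible_and_instances apply Int.le | with_reducible_and_instances apply Int.lt | with_reducible apply Int.all | with_reducible apply Int.ex | with_reducible apply IntF.fst | with_reducible apply IntF.snd | with_reducible apply IntF.app | with_reducible apply IntF.inl | with_reducible apply IntF.inr | with_reducible_and_instances apply IntF.mul | with_reducible_and_instances apply IntF.inv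 | with_reducible_and_instances apply IntF.add | with_reducible_and_instances apply IntF.sub | with_reducible_and_instances apply IntF.neg | with_reducible_and_instances apply IntF.smul | with_reducible apply Int.fin | with_reducible apply IntF.sep | with_reducible apply IntF.lam | with_reducible apply IntF.insert | with_reducible apply IntF.singleton | with_reducible apply IntF.union | with_reducible apply IntF.iimage | with_reducible apply IntF.ite | with_reducible apply IntF.the | with_reducible apply IntF.irec | with_reducible apply IntF.succ | with_reducible apply IntF.val | with_reducible apply IntF.mk | (with_reducible refine Int.comp ?_ ?_; assumption) | (with_reducible refine Int.comp₂ ?_ ?_ ?_; assumption) | (with_reducible refine Int.comp₃ ?_ ?_ ?_ ?_; assumption) | (with_reducible refine Int.comp₄ ?_ ?_ ?_ ?_ ?_; assumption) | (with_reducible refine IntF.comp ?_ ?_; assumption) | (with_reducible refine IntF.comp₂ ?_ ?_ ?_; assumption) | (with_reducible refine IntF.comp₃ ?_ ?_ ?_ ?_; assumption) | with_reducible apply IntF.pair)))] at hf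
      refine ⟨f.2, fun hz' => ?_⟩
      obtain ⟨g, hg, h5⟩ := mem_codeB.1 hz'
      rw [mem_sep (by (repeat' (first | with_reducible exact IntF.id | with_reducible exact IntF.fst' | with_reducible exact IntF.snd' | with_reducible exact IntF.const _ | with_reducible exact Int.const _ | assumption | with_reducible apply Int.and | with_reducible apply Int.or | with_reducible apply Int.not | with_reducible apply Int.imp | with_reducible apply Int.iff | with_reducible apply Int.ne | with_reducible apply Int.eq | with_reducible apply Int.mem | with_reducible apply Int.subset | with_reducible apply Int.ltN | with_reducible apply Int.leN | with_reducible_and_instances apply Int.le | with_reducible_and_instances apply Int.lt | with_reducible apply Int.all | with_reducible apply Int.ex | with_reducible apply IntF.fst | with_reducible apply IntF.snd | with_reducible apply IntF.app | with_reducible apply IntF.inl | with_reducible apply IntF.inr | with_reducible_and_instances apply IntF.mul | with_reducible_and_instances apply IntF.inv | with_reducible_and_instances apply IntF.add | with_reducible_and_instances apply IntF.sub | with_reducible_and_instances apply IntF.neg |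 with_reducible_and_instances apply IntF.smul | with_reducible apply Int.fin | with_reducible apply IntF.sep | with_reducible apply IntF.lam | with_reducible apply IntF.insert | with_reducible apply IntF.singleton | with_reducible apply IntF.union | with_reducible apply IntF.iimage | with_reducible apply IntF.ite | with_reducible apply IntF.the | with_reducible apply IntF.irec | with_reducible apply IntF.succ | with_reducible apply IntF.val | with_reducible apply IntF.mk | (with_reducible refine Int.comp ?_ ?_; assumption) | (with_reducible refine Int.comp₂ ?_ ?_ ?_; assumption) | (with_reducible refine Int.comp₃ ?_ ?_ ?_ ?_; assumption) | (with_reducible refine Int.comp₄ ?_ ?_ ?_ ?_ ?_; assumption) | (with_reducible refine IntF.comp ?_ ?_; assumption) | (with_reducible refine IntF.comp₂ ?_ ?_ ?_; assumption) | (with_reducible refine IntF.comp₃ ?_ ?_ ?_ ?_; assumption) | with_reducible apply IntF.pair)))] at hg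
      rw [ITy.inj h5] at hg
      exact hf hg
    · rintro ⟨hz, h5⟩
      exact mem_codeB.2 ⟨⟨z, hz⟩, (mem_sep (by (repeat' (first | with_reducible exact IntF.id | with_reducible exact IntF.fst' | with_reducible exact IntF.snd' | with_reducible exact IntF.const _ | with_reducible exact Int.const _ | assumption | with_reducible apply Int.and | with_reducible apply Int.or | with_reducible apply Int.not | with_reducible apply Int.imp | with_reducible apply Int.iff | with_reducible apply Int.ne | with_reducible apply Int.eq | with_reducible apply Int.mem | with_reducible apply Int.subset | with_reducible apply Int.ltN | with_reducible apply Int.leN | with_reducible_and_instances apply Int.le | with_reducible_and_instances apply Int.lt | with_reducible apply Int.all | with_reducible apply Int.ex | with_reducible apply IntF.fst | with_reducible apply IntF.snd | with_reducible apply IntF.app | with_reducible apply IntF.inl | with_reducible apply IntF.inr | with_reducible_and_instances apply IntF.mul | with_reducible_and_instances apply IntF.inv | with_reducible_and_instances apply IntF.add | with_reducible_and_instances apply IntF.sub | with_reducible_and_instances apply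 IntF.neg | with_reducible_and_instances apply IntF.smul | with_reducible apply Int.fin | with_reducible apply IntF.sep | with_reducible apply IntF.lam | with_reducible apply IntF.insert | with_reducible apply IntF.singleton | with_reducible apply IntF.union | with_reducible apply IntF.iimage | with_reducible apply IntF.ite | with_reducible apply IntF.the | with_reducible apply IntF.irec | with_reducible apply IntF.succ | with_reducible apply IntF.val | with_reducible apply IntF.mk | (with_reducible refine Int.comp ?_ ?_; assumption) | (with_reducible refine Int.comp₂ ?_ ?_ ?_; assumption) | (with_reducible refine Int.comp₃ ?_ ?_ ?_ ?_; assumption) | (with_reducible refine Int.comp₄ ?_ ?_ ?_ ?_ ?_; assumption) | (with_reducible refine IntF.comp ?_ ?_; assumption) | (with_reducible refine IntF.comp₂ ?_ ?_ ?_; assumption) | (with_reducible refine IntF.comp₃ ?_ ?_ ?_ ?_; assumption) | with_reducible apply IntF.pair)))).2 fun h6 => h5 (mem_codeB.2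
        ⟨⟨z, hz⟩, (mem_sep (by (repeat' (first | with_reducible exact IntF.id | with_reducible exact IntF.fst' | with_reducible exact IntF.snd' | with_reducible exact IntF.const _ | with_reducible exact Int.const _ | assumption | with_reducible apply Int.and | with_reducible apply Int.or | with_reducible apply Int.not | with_reducible apply Int.imp | with_reducible apply Int.iff | with_reducible apply Int.ne | with_reducible apply Int.eq | with_reducible apply Int.mem | with_reducible apply Int.subset | with_reducible apply Int.ltN | with_reducible apply Int.leN | with_reducible_and_instances apply Int.le | with_reducible_and_instances apply Int.lt | with_reducible apply Int.all | with_reducible apply Int.ex | with_reducible apply IntF.fst | with_reducible apply IntF.snd | with_reducible apply IntF.app | with_reducible apply IntF.inl | with_reducible apply IntF.inr | with_reducible_and_instances apply IntF.mul | with_reducible_and_instances apply IntF.inv | with_reducible_and_instances apply IntF.add | with_reducible_and_instances apply IntF.sub | with_reducible_and_instances apply IntF.neg | with_reducible_and_instances apply IntF.smul | with_reducible apply Int.fin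 | with_reducible apply IntF.sep | with_reducible apply IntF.lam | with_reducible apply IntF.insert | with_reducible apply IntF.singleton | with_reducible apply IntF.union | with_reducible apply IntF.iimage | with_reducible apply IntF.ite | with_reducible apply IntF.the | with_reducible apply IntF.irec | with_reducible apply IntF.succ | with_reducible apply IntF.val | with_reducible apply IntF.mk | (with_reducible refine Int.comp ?_ ?_; assumption) | (with_reducible refine Int.comp₂ ?_ ?_ ?_; assumption) | (with_reducible refine Int.comp₃ ?_ ?_ ?_ ?_; assumption) | (with_reducible refine Int.comp₄ ?_ ?_ ?_ ?_ ?_; assumption) | (with_reducible refine IntF.comp ?_ ?_; assumption) | (with_reducible refine IntF.comp₂ ?_ ?_ ?_; assumption) | (with_reducible refine IntF.comp₃ ?_ ?_ ?_ ?_; assumption) | with_reducible apply IntF.pair)))).2 h6, rfl⟩), rfl⟩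
  · refine mem_codeB.2 ⟨⟨z, ha z hz⟩, (mem_sep (by (repeat' (first | with_reducible exact IntF.id | with_reducible exact IntF.fst' | with_reducible exact IntF.snd' | with_reducible exact IntF.const _ | with_reducible exact Int.const _ | assumption | with_reducible apply Int.and | with_reducible apply Int.or | with_reducible apply Int.not | with_reducible apply Int.imp | with_reducible apply Int.iff | with_reducible apply Int.ne | with_reducible apply Int.eq | with_reducible apply Int.mem | with_reducible apply Int.subset | with_reducible apply Int.ltN | with_reducible apply Int.leN | with_reducible_and_instances apply Int.le | with_reducible_and_instances apply Int.lt | with_reducible apply Int.all | with_reducible apply Int.ex | with_reducible apply IntF.fst | with_reducible apply IntF.snd | with_reducible apply IntF.app | with_reducible apply IntF.inl | with_reducible apply IntF.inr | with_reducible_and_instances apply IntF.mul | with_reducible_and_instances apply IntF.inv | with_reducible_and_instances apply IntF.add | with_reducible_and_instances apply IntF.sub | with_reducible_and_instances apply IntF.neg | with_reducible_and_instances apply IntF.smul | with_reducible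 apply Int.fin | with_reducible apply IntF.sep | with_reducible apply IntF.lam | with_reducible apply IntF.insert | with_reducible apply IntF.singleton | with_reducible apply IntF.union | with_reducible apply IntF.iimage | with_reducible apply IntF.ite | with_reducible apply IntF.the | with_reducible apply IntF.irec | with_reducible apply IntF.succ | with_reducible apply IntF.val | with_reducible apply IntF.mk | (with_reducible refine Int.comp ?_ ?_; assumption) | (with_reducible refine Int.comp₂ ?_ ?_ ?_; assumption) | (with_reducible refine Int.comp₃ ?_ ?_ ?_ ?_; assumption) | (with_reducible refine Int.comp₄ ?_ ?_ ?_ ?_ ?_; assumption) | (with_reducible refine IntF.comp ?_ ?_; assumption) | (with_reducible refine IntF.comp₂ ?_ ?_ ?_; assumption) | (with_reducible refine IntF.comp₃ ?_ ?_ ?_ ?_; assumption) | with_reducible apply IntF.pair)))).2 (h3 _ ⟨⟨z, ha z hz⟩, rfl, ?_⟩), rfl⟩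
    rw [hφa ⟨z, ha z hz⟩ hz]
    exact hp0
  · obtain ⟨f, hf, h5⟩ := mem_codeB.1 hz'
    rw [mem_sep (by (repeat' (first | with_reducible exact IntF.id | with_reducible exact IntF.fst' | with_reducible exact IntF.snd' | with_reducible exact IntF.const _ | with_reducible exact Int.const _ | assumption | with_reducible apply Int.and | with_reducible apply Int.or | with_reducible apply Int.not | with_reducible apply Int.imp | with_reducible apply Int.iff | with_reducible apply Int.ne | with_reducible apply Int.eq | with_reducible apply Int.mem | with_reducible apply Int.subset | with_reducible apply Int.ltN | with_reducible apply Int.leN | with_reducible_and_instances apply Int.le | with_reducible_and_instances apply Int.lt | with_reducible apply Int.all | with_reducible apply Int.ex | with_reducible apply IntF.fst | with_reducible apply IntF.snd | with_reducible apply IntF.app | with_reducible apply IntF.inl | with_reducible apply IntF.inr | with_reducible_and_instances apply IntF.mul | with_reducible_and_instances apply IntF.inv | with_reducible_and_instances apply IntF.add | with_reducible_and_instances apply IntF.sub | with_reducible_and_instances apply IntF.neg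 | with_reducible_and_instances apply IntF.smul | with_reducible apply Int.fin | with_reducible apply IntF.sep | with_reducible apply IntF.lam | with_reducible apply IntF.insert | with_reducible apply IntF.singleton | with_reducible apply IntF.union | with_reducible apply IntF.iimage | with_reducible apply IntF.ite | with_reducible apply IntF.the | with_reducible apply IntF.irec | with_reducible apply IntF.succ | with_reducible apply IntF.val | with_reducible apply IntF.mk | (with_reducible refine Int.comp ?_ ?_; assumption) | (with_reducible refine Int.comp₂ ?_ ?_ ?_; assumption) | (with_reducible refine Int.comp₃ ?_ ?_ ?_ ?_; assumption) | (with_reducible refine Int.comp₄ ?_ ?_ ?_ ?_ ?_; assumption) | (with_reducible refine IntF.comp ?_ ?_; assumption) | (with_reducible refine IntF.comp₂ ?_ ?_ ?_; assumption) | (with_reducible refine IntF.comp₃ ?_ ?_ ?_ ?_; assumption) | with_reducible apply IntF.pair)))] at hf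
    refine h4 _ ⟨f, rfl, ?_⟩ hf
    have h6 : Helper672.Plain.Mem f.1 b := by
      have h7 : f.1 = z := h5
      rw [h7]
      exact hz
    rw [hφb f h6]
    exact hq1

end

end Pool.Agent.Helper672.ZFA.V246
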