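import Pool.Agent.V11246.RDefs

/-!
# Remainders of compactifications: definitions

In a structure `M` for the language of set theory, a topological space is a pair of elements `x`
(the set of the points) and `t` (the set of the open sets). `Mem` and `LSet` are from
`Pool.Agent.Helper672.SIK.Plain`, `IsOmega`, `IsBij`, `App` and `IsFinite` from
`Pool.Agent.H310R3.Cards`, `IsTopology`, `IsCompact` and `IsHausdorff` from
`Pool.Agent.H310R3.TopDefs`, and `IsDenum` (there is a bijection with `ω`) from
`Pool.Agent.V11246.RDefs`.
-/

namespace Pool.Agent.V11246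

open FirstOrder FirstOrder.Language
open Pool.Agent.Helper672.Plain (LSet Mem)
open Pool.Agent.H310Cards
open Pool.Agent.H310Top (IsTopology IsCompact IsHausdorff)

universe u

section

variable {M : Type u} [LSet.Structure M]

/-- `t` is the discrete topology on `x`: the elements of `t` are the subsets of `x`. -/
def IsDiscrete (t x : M) : Prop := ∀ u, Mem u t ↔ ∀ z, Mem z u → Mem z x

/-- `r` is the topology of the subspace `y` of the space with the topology `t`. -/
def IsSubTop (r y t : M) : Prop :=
  ∀ u, Mem u r ↔ ∃ v, Mem v t ∧ ∀ z, Mem z u ↔ Mem z v ∧ Mem z y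

/-- `h` is a homeomorphism of the space `x` with the topology `t` onto the space `y` with the
topology `s`: a bijection such that a subset `u` of `x` is open if and only if its image `v` is
open. -/
def IsHomeo (h t x s y : M) : Prop :=
  IsBij h x y ∧ ∀ u v, (∀ z, Mem z u → Mem z x) → (∀ b, Mem b v ↔ ∃ a, Mem a u ∧ App h a b) →
    (Mem u t ↔ Mem v s)

/-- The space `k` with the topology `s` and the map `h` are a Hausdorff compactification of the
space `x` with the topology `t`: `k` is a compact Hausdorff space and `h` is a homeomorphism of
`x` onto a dense subspace `e` of `k`. -/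
def IsHComp (s k h e t x : M) : Prop :=
  IsTopology s k ∧ IsCompact s k ∧ IsHausdorff s k ∧ (∀ z, Mem z e → Mem z k) ∧
    (∃ r, IsSubTop r e s ∧ IsHomeo h t x r e) ∧
      ∀ u, Mem u s → (∃ z, Mem z u) → ∃ z, Mem z u ∧ Mem z e

/-- The space `y` with the topology `r` is a remainder of the space `x` with the topology `t`: it
is homeomorphic to the subspace `c` of the points of some Hausdorff compactification of `x` that
are not in the image of `x`. -/
def IsRemainder (r y t x : M) : Prop :=
  ∃ s k h e c q j, IsHComp s k h e t x ∧ (∀ z, Mem z c ↔ Mem z k ∧ ¬ Mem z e) ∧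
    IsSubTop q c s ∧ IsHomeo j r y q c

/-- The space `x` with the topology `t` has a denumerable remainder. -/
def HasDenumRem (t x : M) : Prop :=
  ∃ s k h e c, IsHComp s k h e t x ∧ (∀ z, Mem z c ↔ Mem z k ∧ ¬ Mem z e) ∧ IsDenum c

/-- The space `y` with the topology `r` is the one-point compactification of the discrete space of
the natural numbers: `y` is the union of `ω` and of `{i}`, for some `i` that is not in `ω`, and
the open sets are the subsets `u` of `y` such that, if `i` is in `u`, then the complement of `u`
is finite. -/
def IsNInf (r y : M) : Prop :=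
  ∃ w i, IsOmega w ∧ ¬ Mem i w ∧ (∀ z, Mem z y ↔ Mem z w ∨ z = i) ∧
    ∀ u, Mem u r ↔ (∀ z, Mem z u → Mem z y) ∧
      (Mem i u → ∃ f, IsFinite f ∧ ∀ z, Mem z y → ¬ Mem z u → Mem z f)

/-- The subset `v` of the space with the topology `t` is compact. -/
def IsCptSet (t v : M) : Prop :=
  ∀ c, (∀ u, Mem u c → Mem u t) → (∀ z, Mem z v → ∃ u, Mem u c ∧ Mem z u) →
    ∃ c', IsFinite c' ∧ (∀ u, Mem u c' → Mem u c) ∧ ∀ z, Mem z v → ∃ u, Mem u c' ∧ Mem z u

/-- The space is locally compact: every point is in an open set `u` that is contained in a compact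
subset `v`. -/
def IsLocComp (t x : M) : Prop :=
  ∀ z, Mem z x → ∃ u v, Mem u t ∧ Mem z u ∧ (∀ a, Mem a u → Mem a v) ∧ (∀ a, Mem a v → Mem a x) ∧
    IsCptSet t v

end

variable (M : Type u) [LSet.Structure M]

/-- If an infinite discrete space has a denumerable remainder, then the one-point compactification
of the discrete space of the natural numbers is a remainder of it. -/
def DRD : Prop :=
  ∀ t x : M, IsDiscrete t x → ¬ IsFinite x → HasDenumRem t x →
    ∃ r y, IsNInf r y ∧ IsRemainder r y t x

/-- If a locally compact Hausdorff space has a denumerable remainder, then the one-point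
compactification of the discrete space of the natural numbers is a remainder of it. -/
def DRL : Prop :=
  ∀ t x : M, IsTopology t x → IsHausdorff t x → IsLocComp t x → HasDenumRem t x →
    ∃ r y, IsNInf r y ∧ IsRemainder r y t x

end Pool.Agent.V11246
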