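import Pool.Agent.H635R2.Tools
import Pool.Agent.H310R3.NA8

/-!
# Small types: the types of a universe below an internal well-order
-/

set_option maxHeartbeats 1000000
set_option linter.all false
set_option synthInstance.maxSize 2000

namespace Pool.Agent.Helper672.ZFA.V246

open FirstOrder FirstOrder.Language
open H635
open Pool.Agent.Helper672.Plain (LSet)

universe u

section

variable (M : Type u) [L.Structure M] [hM : IsModel M] (K : Type u) [ITy M K] [LinearOrder K]
  [ILE M K]

/-- A universe of the model such that every function from `K` to an element of the universe has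
an unbounded fibre. -/
structure Uni where
  U : M → Prop
  prod : ∀ x y, U x → U y → ∃ z, U z ∧ ∀ a b, Mem a x → Mem b y → Mem (op a b) z
  pow : ∀ x, U x → ∃ z, U z ∧ ∀ y, IsSet y → (∀ w, Mem w y → Mem w x) → Mem y z
  nat : ∃ z, U z ∧ ∀ n : INat M, Mem n.val z
  seg : ∀ b : K, ∃ z, U z ∧ ∀ a : K, a < b → Mem (code a) z
  ph : ∀ x, U x → ∀ h : K → El x, IntF M h → ∃ z, ∀ a, ∃ b, a < b ∧ h b = z
  wf : ∀ s : IPow M K, (∃ a, a ∈ s) → ∃ a, a ∈ s ∧ ∀ b, b ∈ s → ¬ b < a
  ne : Nonempty K

end

section

variable {M : Type u} [L.Structure M] [hM : IsModel M] {K : Type u} [ITy M K] [LinearOrder K]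
  [ILE M K] (W : Uni M K)
variable {α β : Type u} [ITy M α] [ITy M β]

/-- Small types. -/
def Sm (α : Type u) [ITy M α] : Prop :=
  ∃ x, W.U x ∧ ∃ e : α → El x, IntF M e ∧ Function.Injective e

/-- An element of a set. -/
def mkE {x z : M} (h : Mem z x) : El x := ⟨z, h⟩

theorem int_mkE {x : M} (h : ∀ a : α, Mem (code a) x) :
    IntF M (fun a : α => mkE (h a)) :=
  IntF.of_D (S := fun v => v 0 = v 1) (D.eqf (DF.var _) (DF.var _))
    fun _ _ => ⟨fun h => Subtype.ext h, fun h => congrArg Subtype.val h⟩

variable {W}

theorem sm_of_code {x : M} (hx : W.U x) (h : ∀ a : α, Mem (code a) x) : Sm W α :=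
  ⟨x, hx, _, int_mkE h, fun _ _ hab => ITy.inj (M := M) (congrArg (fun z : El x => z.1) hab)⟩

theorem Sm.of_inj (h : Sm W β) {f : α → β} (hf : IntF M f) (hi : Function.Injective f) :
    Sm W α := by
  obtain ⟨x, hx, e, he, h1⟩ := h
  exact ⟨x, hx, fun a => e (f a), he.comp hf, fun a b hab => hi (h1 hab)⟩

theorem Sm.prod (h : Sm W α) (h' : Sm W β) : Sm W (α × β) := by
  obtain ⟨x, hx, e, he, h1⟩ := h
  obtain ⟨y, hy, e', he', h1'⟩ := h'
  obtain ⟨z, hz, h2⟩ := W.prod x y hx hy
  have h3 : Sm W (El x × El y) := sm_of_code hz fun q => h2 _ _ q.1.2 q.2.2
  refine h3.of_inj (f := fun q : α × β => (e q.1, e' q.2))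
    ((he.comp IntF.fst').pair (he'.comp IntF.snd')) fun q q' hq => ?_
  obtain ⟨h4, h5⟩ := Prod.mk.inj hq
  exact Prod.ext (h1 h4) (h1' h5)

theorem Sm.pow (h : Sm W α) : Sm W (IPow M α) := by
  obtain ⟨x, hx, e, he, h1⟩ := h
  obtain ⟨z, hz, h2⟩ := W.pow x hx
  have h3 : Sm W (IPow M (El x)) := sm_of_code hz fun s => by
    refine h2 _ s.int.small.isSet fun w hw => ?_
    obtain ⟨a, -, rfl⟩ := mem_code_pow.1 hw
    exact a.2
  have hI : IntF M (fun s : IPow M α => iimage e s) := by (repeat' (first | with_reducible exact IntF.id | with_reducible exact IntF.fst' | with_reducible exact IntF.snd' | with_reducible exact IntF.const _ | with_reducible exact Int.const _ | assumption | with_reducible apply Int.and | with_reducible apply Int.or | with_reducible apply Int.not | with_reducible apply Int.imp | with_reducible apply Int.iff | with_reducible apply Int.ne | with_reducible apply Int.eq | with_reducible apply Int.mem | with_reducible apply Int.subset | with_reducible apply Int.ltN | with_reducible apply Int.leN | with_reducible_and_instances apply Int.le | with_reducible_and_instances apply Int.lt | with_reducible apply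 Int.all | with_reducible apply Int.ex | with_reducible apply IntF.fst | with_reducible apply IntF.snd | with_reducible apply IntF.app | with_reducible apply IntF.inl | with_reducible apply IntF.inr | with_reducible_and_instances apply IntF.mul | with_reducible_and_instances apply IntF.inv | with_reducible_and_instances apply IntF.add | with_reducible_and_instances apply IntF.sub | with_reducible_and_instances apply IntF.neg | with_reducible_and_instances apply IntF.smul | with_reducible apply Int.fin | with_reducible apply IntF.sep | with_reducible apply IntF.lam | with_reducible apply IntF.insert | with_reducible apply IntF.singleton | with_reducible apply IntF.union | with_reducible apply IntF.iimage | with_reducible apply IntF.ite | with_reducible apply IntF.the | with_reducible apply IntF.irec | with_reducible apply IntF.succ | with_reducible apply IntF.val | with_reducible apply IntF.mk | (with_reducible refine Int.comp ?_ ?_; assumption) | (with_reducible refine Int.comp₂ ?_ ?_ ?_; assumption) | (with_reducible refine Int.comp₃ ?_ ?_ ?_ ?_; assumption) | (with_reducible refine Int.comp₄ ?_ ?_ ?_ ?_ ?_; assumption)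 | (with_reducible refine IntF.comp ?_ ?_; assumption) | (with_reducible refine IntF.comp₂ ?_ ?_ ?_; assumption) | (with_reducible refine IntF.comp₃ ?_ ?_ ?_ ?_; assumption) | with_reducible apply IntF.pair))
  refine h3.of_inj (f := fun s : IPow M α => iimage e s) hI fun s t hst => IPow.ext' fun a => ?_
  have h4 : ∀ s : IPow M α, a ∈ s ↔ e a ∈ iimage e s := fun s => by
    rw [mem_iimage he]
    exact ⟨fun h => ⟨a, h, rfl⟩, fun ⟨b, h, h5⟩ => h1 h5 ▸ h⟩
  rw [h4, h4]
  dsimp only at hst
  rw [hst]

variable (W) in
theorem sm_nat : Sm W (INat M) := by
  obtain ⟨z, hz, h⟩ := W.nat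
  exact sm_of_code hz h

instance factSeg (b : K) : Fact (Int M (fun a : K => a < b)) := ⟨by (repeat' (first | with_reducible exact IntF.id | with_reducible exact IntF.fst' | with_reducible exact IntF.snd' | with_reducible exact IntF.const _ | with_reducible exact Int.const _ | assumption | with_reducible apply Int.and | with_reducible apply Int.or | with_reducible apply Int.not | with_reducible apply Int.imp | with_reducible apply Int.iff | with_reducible apply Int.ne | with_reducible apply Int.eq | with_reducible apply Int.mem | with_reducible apply Int.subset | with_reducible apply Int.ltN | with_reducible apply Int.leN | with_reducible_and_instances apply Int.le | with_reducible_and_instances apply Int.lt | with_reducible apply Int.all | with_reducible apply Int.ex | with_reducible apply IntF.fst | with_reducible apply IntF.snd | with_reducible apply IntF.app | with_reducible apply IntF.inl | with_reducible apply IntF.inr | with_reducible_and_instances apply IntF.mul | with_reducible_and_instances apply IntF.inv | with_reducible_and_instances apply IntF.add | with_reducible_and_instances apply IntF.sub | with_reducible_and_instances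 apply IntF.neg | with_reducible_and_instances apply IntF.smul | with_reducible apply Int.fin | with_reducible apply IntF.sep | with_reducible apply IntF.lam | with_reducible apply IntF.insert | with_reducible apply IntF.singleton | with_reducible apply IntF.union | with_reducible apply IntF.iimage | with_reducible apply IntF.ite | with_reducible apply IntF.the | with_reducible apply IntF.irec | with_reducible apply IntF.succ | with_reducible apply IntF.val | with_reducible apply IntF.mk | (with_reducible refine Int.comp ?_ ?_; assumption) | (with_reducible refine Int.comp₂ ?_ ?_ ?_; assumption) | (with_reducible refine Int.comp₃ ?_ ?_ ?_ ?_; assumption) | (with_reducible refine Int.comp₄ ?_ ?_ ?_ ?_ ?_; assumption) | (with_reducible refine IntF.comp ?_ ?_; assumption) | (with_reducible refine IntF.comp₂ ?_ ?_ ?_; assumption) | (with_reducible refine IntF.comp₃ ?_ ?_ ?_ ?_; assumption) | with_reducible apply IntF.pair))⟩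

variable (W) in
theorem sm_seg (b : K) : Sm W {a : K // a < b} := by
  obtain ⟨z, hz, h⟩ := W.seg b
  exact sm_of_code hz fun a => h a.1 a.2

theorem Sm.unb (h : Sm W α) {f : K → α} (hf : IntF M f) : ∃ z, ∀ a, ∃ b, a < b ∧ f b = z := by
  obtain ⟨x, hx, e, he, h1⟩ := h
  obtain ⟨z, hz⟩ := W.ph x hx (fun a => e (f a)) (he.comp hf)
  obtain ⟨a₀⟩ := W.ne
  obtain ⟨b₀, -, hb₀⟩ := hz a₀
  refine ⟨f b₀, fun a => ?_⟩
  obtain ⟨b, h2, h3⟩ := hz a
  exact ⟨b, h2, h1 (h3.trans hb₀.symm)⟩

theorem Sm.bdd (h : Sm W α) {r : α → K → Prop} (hr : Int M (fun q : α × K => r q.1 q.2))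
    (hf : ∀ x a a', r x a → r x a' → a = a') : ∃ b, ∀ x a, r x a → a < b := by
  by_contra hc
  push Not at hc
  have hI : IntF M (fun a : K => sep M fun x : α => ∃ a', a' ≤ a ∧ r x a') := by
    (repeat' (first | with_reducible exact IntF.id | with_reducible exact IntF.fst' | with_reducible exact IntF.snd' | with_reducible exact IntF.const _ | with_reducible exact Int.const _ | assumption | with_reducible apply Int.and | with_reducible apply Int.or | with_reducible apply Int.not | with_reducible apply Int.imp | with_reducible apply Int.iff | with_reducible apply Int.ne | with_reducible apply Int.eq | with_reducible apply Int.mem | with_reducible apply Int.subset | with_reducible apply Int.ltN | with_reducible apply Int.leN | with_reducible_and_instances apply Int.le | with_reducible_and_instances apply Int.lt | with_reducible apply Int.all | with_reducible apply Int.ex | with_reducible apply IntF.fst | with_reducible apply IntF.snd | with_reducible apply IntF.app | with_reducible apply IntF.inl | with_reducible apply IntF.inr | with_reducible_and_instances apply IntF.mul | with_reducible_and_instances apply IntF.inv |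 with_reducible_and_instances apply IntF.add | with_reducible_and_instances apply IntF.sub | with_reducible_and_instances apply IntF.neg | with_reducible_and_instances apply IntF.smul | with_reducible apply Int.fin | with_reducible apply IntF.sep | with_reducible apply IntF.lam | with_reducible apply IntF.insert | with_reducible apply IntF.singleton | with_reducible apply IntF.union | with_reducible apply IntF.iimage | with_reducible apply IntF.ite | with_reducible apply IntF.the | with_reducible apply IntF.irec | with_reducible apply IntF.succ | with_reducible apply IntF.val | with_reducible apply IntF.mk | (with_reducible refine Int.comp ?_ ?_; assumption) | (with_reducible refine Int.comp₂ ?_ ?_ ?_; assumption) | (with_reducible refine Int.comp₃ ?_ ?_ ?_ ?_; assumption) | (with_reducible refine Int.comp₄ ?_ ?_ ?_ ?_ ?_; assumption) | (with_reducible refine IntF.comp ?_ ?_; assumption) | (with_reducible refine IntF.comp₂ ?_ ?_ ?_; assumption) | (with_reducible refine IntF.comp₃ ?_ ?_ ?_ ?_; assumption) | with_reducible apply IntF.pair))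
  have hm : ∀ a x, x ∈ (sep M fun x : α => ∃ a', a' ≤ a ∧ r x a') ↔ ∃ a', a' ≤ a ∧ r x a' :=
    fun a x => mem_sep (by (repeat' (first | with_reducible exact IntF.id | with_reducible exact IntF.fst' | with_reducible exact IntF.snd' | with_reducible exact IntF.const _ | with_reducible exact Int.const _ | assumption | with_reducible apply Int.and | with_reducible apply Int.or | with_reducible apply Int.not | with_reducible apply Int.imp | with_reducible apply Int.iff | with_reducible apply Int.ne | with_reducible apply Int.eq | with_reducible apply Int.mem | with_reducible apply Int.subset | with_reducible apply Int.ltN | with_reducible apply Int.leN | with_reducible_and_instances apply Int.le | with_reducible_and_instances apply Int.lt | with_reducible apply Int.all | with_reducible apply Int.ex | with_reducible apply IntF.fst | with_reducible apply IntF.snd | with_reducible apply IntF.app | with_reducible apply IntF.inl | with_reducible apply IntF.inr | with_reducible_and_instances apply IntF.mul | with_reducible_and_instances apply IntF.inv | with_reducible_and_instances apply IntF.add | with_reducible_and_instances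 apply IntF.sub | with_reducible_and_instances apply IntF.neg | with_reducible_and_instances apply IntF.smul | with_reducible apply Int.fin | with_reducible apply IntF.sep | with_reducible apply IntF.lam | with_reducible apply IntF.insert | with_reducible apply IntF.singleton | with_reducible apply IntF.union | with_reducible apply IntF.iimage | with_reducible apply IntF.ite | with_reducible apply IntF.the | with_reducible apply IntF.irec | with_reducible apply IntF.succ | with_reducible apply IntF.val | with_reducible apply IntF.mk | (with_reducible refine Int.comp ?_ ?_; assumption) | (with_reducible refine Int.comp₂ ?_ ?_ ?_; assumption) | (with_reducible refine Int.comp₃ ?_ ?_ ?_ ?_; assumption) | (with_reducible refine Int.comp₄ ?_ ?_ ?_ ?_ ?_; assumption) | (with_reducible refine IntF.comp ?_ ?_; assumption) | (with_reducible refine IntF.comp₂ ?_ ?_ ?_; assumption) | (with_reducible refine IntF.comp₃ ?_ ?_ ?_ ?_; assumption) | with_reducible apply IntF.pair)))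
  obtain ⟨z, hz⟩ := h.pow.unb hI
  obtain ⟨a₀⟩ := W.ne
  obtain ⟨b₀, -, h0⟩ := hz a₀
  obtain ⟨b₁, h01, h1⟩ := hz b₀
  obtain ⟨x, a, hx, ha⟩ := hc b₁
  obtain ⟨b₂, h12, h2⟩ := hz a
  have h3 : x ∈ z := by
    rw [← h2, hm]
    exact ⟨a, h12.le, hx⟩
  rw [← h0, hm] at h3
  obtain ⟨a', h4, h5⟩ := h3
  rw [hf x a' a h5 hx] at h4
  exact absurd (lt_of_lt_of_le h01 ha) (not_lt.2 h4)

/-- There is no sequence of injections to a small type. -/
theorem Sm.no_seq (h : Sm W α) {s : K → K → α} (hs : IntF M (fun q : K × K => s q.1 q.2))
    (hi : ∀ a ξ ξ', ξ < a → ξ' < a → s a ξ = s a ξ' → ξ = ξ') : False := by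
  have hI : IntF M (fun a : K => sep M fun q : α × α => ∃ ξ ξ', ξ < ξ' ∧ ξ' < a ∧
      q.1 = s a ξ ∧ q.2 = s a ξ') := by
    (repeat' (first | with_reducible exact IntF.id | with_reducible exact IntF.fst' | with_reducible exact IntF.snd' | with_reducible exact IntF.const _ | with_reducible exact Int.const _ | assumption | with_reducible apply Int.and | with_reducible apply Int.or | with_reducible apply Int.not | with_reducible apply Int.imp | with_reducible apply Int.iff | with_reducible apply Int.ne | with_reducible apply Int.eq | with_reducible apply Int.mem | with_reducible apply Int.subset | with_reducible apply Int.ltN | with_reducible apply Int.leN | with_reducible_and_instances apply Int.le | with_reducible_and_instances apply Int.lt | with_reducible apply Int.all | with_reducible apply Int.ex | with_reducible apply IntF.fst | with_reducible apply IntF.snd | with_reducible apply IntF.app | with_reducible apply IntF.inl | with_reducible apply IntF.inr | with_reducible_and_instances apply IntF.mul | with_reducible_and_instances apply IntF.inv | with_reducible_and_instances apply IntF.add | with_reducible_and_instances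 apply IntF.sub | with_reducible_and_instances apply IntF.neg | with_reducible_and_instances apply IntF.smul | with_reducible apply Int.fin | with_reducible apply IntF.sep | with_reducible apply IntF.lam | with_reducible apply IntF.insert | with_reducible apply IntF.singleton | with_reducible apply IntF.union | with_reducible apply IntF.iimage | with_reducible apply IntF.ite | with_reducible apply IntF.the | with_reducible apply IntF.irec | with_reducible apply IntF.succ | with_reducible apply IntF.val | with_reducible apply IntF.mk | (with_reducible refine Int.comp ?_ ?_; assumption) | (with_reducible refine Int.comp₂ ?_ ?_ ?_; assumption) | (with_reducible refine Int.comp₃ ?_ ?_ ?_ ?_; assumption) | (with_reducible refine Int.comp₄ ?_ ?_ ?_ ?_ ?_; assumption) | (with_reducible refine IntF.comp ?_ ?_; assumption) | (with_reducible refine IntF.comp₂ ?_ ?_ ?_; assumption) | (with_reducible refine IntF.comp₃ ?_ ?_ ?_ ?_; assumption) | with_reducible apply IntF.pair))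
  have hm : ∀ a (q : α × α), q ∈ (sep M fun q : α × α => ∃ ξ ξ', ξ < ξ' ∧ ξ' < a ∧
      q.1 = s a ξ ∧ q.2 = s a ξ') ↔ ∃ ξ ξ', ξ < ξ' ∧ ξ' < a ∧ q.1 = s a ξ ∧ q.2 = s a ξ' :=
    fun a q => mem_sep (by (repeat' (first | with_reducible exact IntF.id | with_reducible exact IntF.fst' | with_reducible exact IntF.snd' | with_reducible exact IntF.const _ | with_reducible exact Int.const _ | assumption | with_reducible apply Int.and | with_reducible apply Int.or | with_reducible apply Int.not | with_reducible apply Int.imp | with_reducible apply Int.iff | with_reducible apply Int.ne | with_reducible apply Int.eq | with_reducible apply Int.mem | with_reducible apply Int.subset | with_reducible apply Int.ltN | with_reducible apply Int.leN | with_reducible_and_instances apply Int.le | with_reducible_and_instances apply Int.lt | with_reducible apply Int.all | with_reducible apply Int.ex | with_reducible apply IntF.fst | with_reducible apply IntF.snd | with_reducible apply IntF.app | with_reducible apply IntF.inl | with_reducible apply IntF.inr | with_reducible_and_instances apply IntF.mul | with_reducible_and_instances apply IntF.inv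 | with_reducible_and_instances apply IntF.add | with_reducible_and_instances apply IntF.sub | with_reducible_and_instances apply IntF.neg | with_reducible_and_instances apply IntF.smul | with_reducible apply Int.fin | with_reducible apply IntF.sep | with_reducible apply IntF.lam | with_reducible apply IntF.insert | with_reducible apply IntF.singleton | with_reducible apply IntF.union | with_reducible apply IntF.iimage | with_reducible apply IntF.ite | with_reducible apply IntF.the | with_reducible apply IntF.irec | with_reducible apply IntF.succ | with_reducible apply IntF.val | with_reducible apply IntF.mk | (with_reducible refine Int.comp ?_ ?_; assumption) | (with_reducible refine Int.comp₂ ?_ ?_ ?_; assumption) | (with_reducible refine Int.comp₃ ?_ ?_ ?_ ?_; assumption) | (with_reducible refine Int.comp₄ ?_ ?_ ?_ ?_ ?_; assumption) | (with_reducible refine IntF.comp ?_ ?_; assumption) | (with_reducible refine IntF.comp₂ ?_ ?_ ?_; assumption) | (with_reducible refine IntF.comp₃ ?_ ?_ ?_ ?_; assumption) | with_reducible apply IntF.pair)))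
  obtain ⟨z, hz⟩ := (h.prod h).pow.unb hI
  obtain ⟨a₀⟩ := W.ne
  obtain ⟨b₀, -, -⟩ := hz a₀
  obtain ⟨b₁, h01, -⟩ := hz b₀
  obtain ⟨a, h1a, h1⟩ := hz b₁
  obtain ⟨b₃, ha3, -⟩ := hz a
  obtain ⟨a', h3a', h2⟩ := hz b₃
  have hR : ∀ ξ ξ', ξ < ξ' → ξ' < a → ∃ ζ ζ', ζ < ζ' ∧ ζ' < a' ∧ s a ξ = s a' ζ ∧
      s a ξ' = s a' ζ' := by
    intro ξ ξ' h3 h4
    have h5 : ((s a ξ, s a ξ') : α × α) ∈ z := by
      rw [← h1, hm]
      exact ⟨ξ, ξ', h3, h4, rfl, rfl⟩
    rw [← h2, hm] at h5
    exact h5
  have hR' : ∀ ξ ξ', ξ < ξ' → ξ' < a' → ∃ ζ ζ', ζ < ζ' ∧ ζ' < a ∧ s a' ξ = s a ζ ∧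
      s a' ξ' = s a ζ' := by
    intro ξ ξ' h3 h4
    have h5 : ((s a' ξ, s a' ξ') : α × α) ∈ z := by
      rw [← h2, hm]
      exact ⟨ξ, ξ', h3, h4, rfl, rfl⟩
    rw [← h1, hm] at h5
    exact h5
  have haa' : a < a' := ha3.trans h3a'
  have key : ∀ ξ, ξ < a → s a ξ = s a' ξ := by
    by_contra hc
    push Not at hc
    have hIc : Int M (fun ξ => ξ < a ∧ ¬ s a ξ = s a' ξ) := by (repeat' (first | with_reducible exact IntF.id | with_reducible exact IntF.fst' | with_reducible exact IntF.snd' | with_reducible exact IntF.const _ | with_reducible exact Int.const _ | assumption | with_reducible apply Int.and | with_reducible apply Int.or | with_reducible apply Int.not | with_reducible apply Int.imp | with_reducible apply Int.iff | with_reducible apply Int.ne | with_reducible apply Int.eq | with_reducible apply Int.mem | with_reducible apply Int.subset | with_reducible apply Int.ltN | with_reducible apply Int.leN | with_reducible_and_instances apply Int.le | with_reducible_and_instances apply Int.lt | with_reducible apply Int.all | with_reducible apply Int.ex | with_reducible apply IntF.fst | with_reducible apply IntF.snd | with_reducible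 apply IntF.app | with_reducible apply IntF.inl | with_reducible apply IntF.inr | with_reducible_and_instances apply IntF.mul | with_reducible_and_instances apply IntF.inv | with_reducible_and_instances apply IntF.add | with_reducible_and_instances apply IntF.sub | with_reducible_and_instances apply IntF.neg | with_reducible_and_instances apply IntF.smul | with_reducible apply Int.fin | with_reducible apply IntF.sep | with_reducible apply IntF.lam | with_reducible apply IntF.insert | with_reducible apply IntF.singleton | with_reducible apply IntF.union | with_reducible apply IntF.iimage | with_reducible apply IntF.ite | with_reducible apply IntF.the | with_reducible apply IntF.irec | with_reducible apply IntF.succ | with_reducible apply IntF.val | with_reducible apply IntF.mk | (with_reducible refine Int.comp ?_ ?_; assumption) | (with_reducible refine Int.comp₂ ?_ ?_ ?_; assumption) | (with_reducible refine Int.comp₃ ?_ ?_ ?_ ?_; assumption) | (with_reducible refine Int.comp₄ ?_ ?_ ?_ ?_ ?_; assumption) | (with_reducible refine IntF.comp ?_ ?_; assumption) | (with_reducible refine IntF.comp₂ ?_ ?_ ?_; assumption) | (with_reducible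 refine IntF.comp₃ ?_ ?_ ?_ ?_; assumption) | with_reducible apply IntF.pair))
    obtain ⟨ξ, h3, h4⟩ := W.wf (sep M fun ξ => ξ < a ∧ ¬ s a ξ = s a' ξ) (by
      obtain ⟨ξ, h5, h6⟩ := hc
      exact ⟨ξ, (mem_sep hIc).2 ⟨h5, h6⟩⟩)
    obtain ⟨h5, h6⟩ := (mem_sep hIc).1 h3
    have h7 : ∀ η, η < ξ → s a η = s a' η := by
      intro η hη
      by_contra h8
      exact h4 η ((mem_sep hIc).2 ⟨hη.trans h5, h8⟩) hη
    have h8 : ∃ ζ, ζ < a' ∧ s a ξ = s a' ζ := by
      rcases lt_trichotomy ξ b₀ with h9 | h9 | h9
      · obtain ⟨ζ, ζ', h10, h11, h12, -⟩ := hR ξ b₀ h9 (h01.trans h1a)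
        exact ⟨ζ, h10.trans h11, h12⟩
      · obtain ⟨ζ, ζ', h10, h11, h12, -⟩ := hR ξ b₁ (h9 ▸ h01) h1a
        exact ⟨ζ, h10.trans h11, h12⟩
      · obtain ⟨ζ, ζ', h10, h11, -, h12⟩ := hR b₀ ξ h9 h5
        exact ⟨ζ', h11, h12⟩
    obtain ⟨ζ, h9, h10⟩ := h8
    rcases lt_trichotomy ζ ξ with h11 | h11 | h11
    · have h12 := hi a ξ ζ h5 (h11.trans h5) (h10.trans (h7 ζ h11).symm)
      exact absurd h11 (h12 ▸ lt_irrefl _)
    · exact h6 (h11 ▸ h10)
    · obtain ⟨η, η', h12, h13, h14, h15⟩ := hR' ξ ζ h11 h9
      have h16 : η' = ξ := hi a η' ξ h13 h5 (h15.symm.trans h10.symm)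
      subst h16
      have h17 := hi a' η' η (h5.trans haa') ((h12.trans h13).trans haa')
        (h14.trans (h7 η h12))
      exact absurd h12 (h17 ▸ lt_irrefl _)
  obtain ⟨η, η', h12, h13, h14, -⟩ := hR' a b₃ ha3 h3a'
  have h15 := hi a' a η haa' ((h12.trans h13).trans haa') (h14.trans (key η (h12.trans h13)))
  exact absurd (h12.trans h13) (h15 ▸ lt_irrefl _)

end

end Pool.Agent.Helper672.ZFA.V246
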