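import Pool.Agent.V11246.Cover
import Pool.Agent.V11246.Small

/-!
# The collapsed well-order in the extension
-/

set_option maxHeartbeats 1000000
set_option linter.all false
set_option synthInstance.maxSize 2000

namespace Pool.Agent.Helper672.ZFA.V246

open FirstOrder FirstOrder.Language
open H635
open Pool.Agent.Helper672.Plain (LSet)

universe u

section

variable {M : Type u} [L.Structure M] [hM : IsModel M] {K : Type u} [ITy M K] [LinearOrder K]
  [ILE M K] [Nonempty K]

/-- The support of a condition is below `b`. -/
def PbP (b : K) (p : Pc M K) : Prop := rs b p = p

instance factPb (b : K) : Fact (Int M (fun p : Pc M K => PbP b p)) := ⟨by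
  have h := int_rs (M := M) (K := K)
  unfold PbP
  refine Int.eq (IntF.comp₂ (p := fun b p => rs b p) h (IntF.const b) IntF.id) IntF.id⟩

variable (M) in
/-- The conditions with support below `b`. -/
abbrev Pb (b : K) : Type u := {p : Pc M K // PbP b p}

theorem sm_Pb (W : Uni M K) (b : K) : Sm W (Pb M b) := by
  have h1 : Sm W (IPow M (({a : K // a < b} × INat M) × {a : K // a < b})) :=
    (((sm_seg W b).prod (sm_nat W)).prod (sm_seg W b)).pow
  have hI : IntF M (fun p : Pb M b => sep M fun c : ({a : K // a < b} × INat M) ×
      {a : K // a < b} => (((c.1.1.1, c.1.2), c.2.1) : Cl M K) ∈ p.1.1) := by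
    (repeat' (first | with_reducible exact IntF.id | with_reducible exact IntF.fst' | with_reducible exact IntF.snd' | with_reducible exact IntF.const _ | with_reducible exact Int.const _ | assumption | with_reducible apply Int.and | with_reducible apply Int.or | with_reducible apply Int.not | with_reducible apply Int.imp | with_reducible apply Int.iff | with_reducible apply Int.ne | with_reducible apply Int.eq | with_reducible apply Int.mem | with_reducible apply Int.subset | with_reducible apply Int.ltN | with_reducible apply Int.leN | with_reducible_and_instances apply Int.le | with_reducible_and_instances apply Int.lt | with_reducible apply Int.all | with_reducible apply Int.ex | with_reducible apply IntF.fst | with_reducible apply IntF.snd | with_reducible apply IntF.app | with_reducible apply IntF.inl | with_reducible apply IntF.inr | with_reducible_and_instances apply IntF.mul | with_reducible_and_instances apply IntF.inv | with_reducible_and_instances apply IntF.add | with_reducible_and_instances apply IntF.sub | with_reducible_and_instances apply IntF.neg | with_reducible_and_instances apply IntF.smul | with_reducible apply Int.fin | with_reducible apply IntF.sep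 | with_reducible apply IntF.lam | with_reducible apply IntF.insert | with_reducible apply IntF.singleton | with_reducible apply IntF.union | with_reducible apply IntF.iimage | with_reducible apply IntF.ite | with_reducible apply IntF.the | with_reducible apply IntF.irec | with_reducible apply IntF.succ | with_reducible apply IntF.val | with_reducible apply IntF.mk | (with_reducible refine Int.comp ?_ ?_; assumption) | (with_reducible refine Int.comp₂ ?_ ?_ ?_; assumption) | (with_reducible refine Int.comp₃ ?_ ?_ ?_ ?_; assumption) | (with_reducible refine Int.comp₄ ?_ ?_ ?_ ?_ ?_; assumption) | (with_reducible refine IntF.comp ?_ ?_; assumption) | (with_reducible refine IntF.comp₂ ?_ ?_ ?_; assumption) | (with_reducible refine IntF.comp₃ ?_ ?_ ?_ ?_; assumption) | with_reducible apply IntF.pair))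
  refine h1.of_inj hI fun p q hpq => ?_
  have hm : ∀ (p : Pb M b) (c : ({a : K // a < b} × INat M) × {a : K // a < b}),
      c ∈ (sep M fun c : ({a : K // a < b} × INat M) × {a : K // a < b} =>
        (((c.1.1.1, c.1.2), c.2.1) : Cl M K) ∈ p.1.1) ↔
      (((c.1.1.1, c.1.2), c.2.1) : Cl M K) ∈ p.1.1 := fun p c => mem_sep (by (repeat' (first | with_reducible exact IntF.id | with_reducible exact IntF.fst' | with_reducible exact IntF.snd' | with_reducible exact IntF.const _ | with_reducible exact Int.const _ | assumption | with_reducible apply Int.and | with_reducible apply Int.or | with_reducible apply Int.not | with_reducible apply Int.imp | with_reducible apply Int.iff | with_reducible apply Int.ne | with_reducible apply Int.eq | with_reducible apply Int.mem | with_reducible apply Int.subset | with_reducible apply Int.ltN | with_reducible apply Int.leN | with_reducible_and_instances apply Int.le | with_reducible_and_instances apply Int.lt | with_reducible apply Int.all | with_reducible apply Int.ex | with_reducible apply IntF.fst | with_reducible apply IntF.snd | with_reducible apply IntF.app | with_reducible apply IntF.inl | with_reducible apply IntF.inr | with_reducible_and_instances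 apply IntF.mul | with_reducible_and_instances apply IntF.inv | with_reducible_and_instances apply IntF.add | with_reducible_and_instances apply IntF.sub | with_reducible_and_instances apply IntF.neg | with_reducible_and_instances apply IntF.smul | with_reducible apply Int.fin | with_reducible apply IntF.sep | with_reducible apply IntF.lam | with_reducible apply IntF.insert | with_reducible apply IntF.singleton | with_reducible apply IntF.union | with_reducible apply IntF.iimage | with_reducible apply IntF.ite | with_reducible apply IntF.the | with_reducible apply IntF.irec | with_reducible apply IntF.succ | with_reducible apply IntF.val | with_reducible apply IntF.mk | (with_reducible refine Int.comp ?_ ?_; assumption) | (with_reducible refine Int.comp₂ ?_ ?_ ?_; assumption) | (with_reducible refine Int.comp₃ ?_ ?_ ?_ ?_; assumption) | (with_reducible refine Int.comp₄ ?_ ?_ ?_ ?_ ?_; assumption) | (with_reducible refine IntF.comp ?_ ?_; assumption) | (with_reducible refine IntF.comp₂ ?_ ?_ ?_; assumption) | (with_reducible refine IntF.comp₃ ?_ ?_ ?_ ?_; assumption) | with_reducible apply IntF.pair)))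
  have key : ∀ p q : Pb M b, (sep M fun c : ({a : K // a < b} × INat M) × {a : K // a < b} =>
        (((c.1.1.1, c.1.2), c.2.1) : Cl M K) ∈ p.1.1) =
      (sep M fun c : ({a : K // a < b} × INat M) × {a : K // a < b} =>
        (((c.1.1.1, c.1.2), c.2.1) : Cl M K) ∈ q.1.1) → ∀ c, c ∈ p.1.1 → c ∈ q.1.1 := by
    intro p q hpq c hc
    obtain ⟨⟨a, n⟩, d⟩ := c
    have h2 : a < b := by
      have h3 := hc
      have h4 : rs b p.1 = p.1 := p.2
      rw [← h4] at h3
      exact (mem_rs.1 h3).2
    have h3 : d < a := p.1.2.2.2 _ _ hc
    have h4 := (hm p ((⟨a, h2⟩, n), ⟨d, h3.trans h2⟩)).2 hc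
    rw [hpq] at h4
    exact (hm q _).1 h4
  exact Subtype.ext (Subtype.ext (IPow.ext' fun c => ⟨key p q hpq c, key q p hpq.symm c⟩))

variable (W : Uni M K) {G : Set (Pc M K)} (hG : IsGen M G)

include W in
theorem iwoK : IWO M K (fun a b => a < b) :=
  ⟨by (repeat' (first | with_reducible exact IntF.id | with_reducible exact IntF.fst' | with_reducible exact IntF.snd' | with_reducible exact IntF.const _ | with_reducible exact Int.const _ | assumption | with_reducible apply Int.and | with_reducible apply Int.or | with_reducible apply Int.not | with_reducible apply Int.imp | with_reducible apply Int.iff | with_reducible apply Int.ne | with_reducible apply Int.eq | with_reducible apply Int.mem | with_reducible apply Int.subset | with_reducible apply Int.ltN | with_reducible apply Int.leN | with_reducible_and_instances apply Int.le | with_reducible_and_instances apply Int.lt | with_reducible apply Int.all | with_reducible apply Int.ex | with_reducible apply IntF.fst | with_reducible apply IntF.snd | with_reducible apply IntF.app | with_reducible apply IntF.inl | with_reducible apply IntF.inr | with_reducible_and_instances apply IntF.mul | with_reducible_and_instances apply IntF.inv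 | with_reducible_and_instances apply IntF.add | with_reducible_and_instances apply IntF.sub | with_reducible_and_instances apply IntF.neg | with_reducible_and_instances apply IntF.smul | with_reducible apply Int.fin | with_reducible apply IntF.sep | with_reducible apply IntF.lam | with_reducible apply IntF.insert | with_reducible apply IntF.singleton | with_reducible apply IntF.union | with_reducible apply IntF.iimage | with_reducible apply IntF.ite | with_reducible apply IntF.the | with_reducible apply IntF.irec | with_reducible apply IntF.succ | with_reducible apply IntF.val | with_reducible apply IntF.mk | (with_reducible refine Int.comp ?_ ?_; assumption) | (with_reducible refine Int.comp₂ ?_ ?_ ?_; assumption) | (with_reducible refine Int.comp₃ ?_ ?_ ?_ ?_; assumption) | (with_reducible refine Int.comp₄ ?_ ?_ ?_ ?_ ?_; assumption) | (with_reducible refine IntF.comp ?_ ?_; assumption) | (with_reducible refine IntF.comp₂ ?_ ?_ ?_; assumption) | (with_reducible refine IntF.comp₃ ?_ ?_ ?_ ?_; assumption) | with_reducible apply IntF.pair)), fun a b => lt_trichotomy a b, W.wf⟩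

theorem iwoN : IWO M (INat M) (fun a b => a < b) := by
  refine ⟨by (repeat' (first | with_reducible exact IntF.id | with_reducible exact IntF.fst' | with_reducible exact IntF.snd' | with_reducible exact IntF.const _ | with_reducible exact Int.const _ | assumption | with_reducible apply Int.and | with_reducible apply Int.or | with_reducible apply Int.not | with_reducible apply Int.imp | with_reducible apply Int.iff | with_reducible apply Int.ne | with_reducible apply Int.eq | with_reducible apply Int.mem | with_reducible apply Int.subset | with_reducible apply Int.ltN | with_reducible apply Int.leN | with_reducible_and_instances apply Int.le | with_reducible_and_instances apply Int.lt | with_reducible apply Int.all | with_reducible apply Int.ex | with_reducible apply IntF.fst | with_reducible apply IntF.snd | with_reducible apply IntF.app | with_reducible apply IntF.inl | with_reducible apply IntF.inr | with_reducible_and_instances apply IntF.mul | with_reducible_and_instances apply IntF.inv | with_reducible_and_instances apply IntF.add | with_reducible_and_instances apply IntF.sub | with_reducible_and_instances apply IntF.neg | with_reducible_and_instances apply IntF.smul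 | with_reducible apply Int.fin | with_reducible apply IntF.sep | with_reducible apply IntF.lam | with_reducible apply IntF.insert | with_reducible apply IntF.singleton | with_reducible apply IntF.union | with_reducible apply IntF.iimage | with_reducible apply IntF.ite | with_reducible apply IntF.the | with_reducible apply IntF.irec | with_reducible apply IntF.succ | with_reducible apply IntF.val | with_reducible apply IntF.mk | (with_reducible refine Int.comp ?_ ?_; assumption) | (with_reducible refine Int.comp₂ ?_ ?_ ?_; assumption) | (with_reducible refine Int.comp₃ ?_ ?_ ?_ ?_; assumption) | (with_reducible refine Int.comp₄ ?_ ?_ ?_ ?_ ?_; assumption) | (with_reducible refine IntF.comp ?_ ?_; assumption) | (with_reducible refine IntF.comp₂ ?_ ?_ ?_; assumption) | (with_reducible refine IntF.comp₃ ?_ ?_ ?_ ?_; assumption) | with_reducible apply IntF.pair)), fun a b => lt_trichotomy a b, fun s hs => ?_⟩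
  obtain ⟨n, h1, h2⟩ := INat.exists_least (p := fun n => n ∈ s) (by (repeat' (first | with_reducible exact IntF.id | with_reducible exact IntF.fst' | with_reducible exact IntF.snd' | with_reducible exact IntF.const _ | with_reducible exact Int.const _ | assumption | with_reducible apply Int.and | with_reducible apply Int.or | with_reducible apply Int.not | with_reducible apply Int.imp | with_reducible apply Int.iff | with_reducible apply Int.ne | with_reducible apply Int.eq | with_reducible apply Int.mem | with_reducible apply Int.subset | with_reducible apply Int.ltN | with_reducible apply Int.leN | with_reducible_and_instances apply Int.le | with_reducible_and_instances apply Int.lt | with_reducible apply Int.all | with_reducible apply Int.ex | with_reducible apply IntF.fst | with_reducible apply IntF.snd | with_reducible apply IntF.app | with_reducible apply IntF.inl | with_reducible apply IntF.inr | with_reducible_and_instances apply IntF.mul | with_reducible_and_instances apply IntF.inv | with_reducible_and_instances apply IntF.add | with_reducible_and_instances apply IntF.sub | with_reducible_and_instances apply IntF.neg | with_reducible_and_instances apply IntF.smul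 | with_reducible apply Int.fin | with_reducible apply IntF.sep | with_reducible apply IntF.lam | with_reducible apply IntF.insert | with_reducible apply IntF.singleton | with_reducible apply IntF.union | with_reducible apply IntF.iimage | with_reducible apply IntF.ite | with_reducible apply IntF.the | with_reducible apply IntF.irec | with_reducible apply IntF.succ | with_reducible apply IntF.val | with_reducible apply IntF.mk | (with_reducible refine Int.comp ?_ ?_; assumption) | (with_reducible refine Int.comp₂ ?_ ?_ ?_; assumption) | (with_reducible refine Int.comp₃ ?_ ?_ ?_ ?_; assumption) | (with_reducible refine Int.comp₄ ?_ ?_ ?_ ?_ ?_; assumption) | (with_reducible refine IntF.comp ?_ ?_; assumption) | (with_reducible refine IntF.comp₂ ?_ ?_ ?_; assumption) | (with_reducible refine IntF.comp₃ ?_ ?_ ?_ ?_; assumption) | with_reducible apply IntF.pair))) hs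
  exact ⟨n, h1, fun b hb h3 => absurd (h2 b hb) (not_le.2 h3)⟩

/-- The ordinals of the extension given by `K`. -/
noncomputable def kk (a : K) : NN (Sc M K) hG := od (Sc M K) hG (iwoK W) a

/-- The natural numbers of the extension. -/
noncomputable def nv (n : INat M) : NN (Sc M K) hG := od (Sc M K) hG iwoN n

theorem kk_fam : EqFam hG (fun (_ : Au M K) (a : K) => a) (fun a => kk W hG a) :=
  od_fam hG (iwoK W)

theorem nv_fam : EqFam hG (fun (_ : Au M K) (a : INat M) => a) (fun a => nv hG a) :=
  od_fam hG iwoN

variable {ε : Type u} [ITy M ε]

theorem ext_bdd (hε : Sm W ε) {g : ε → NN (Sc M K) hG}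
    (hg : EqFam hG (fun (_ : Au M K) (a : ε) => a) g) (x : NN (Sc M K) hG)
    (hf : ∀ c a a', Plain.Mem (op (g c) (kk W hG a)) x → Plain.Mem (op (g c) (kk W hG a')) x →
      a = a') : ∃ b, ∀ c a, Plain.Mem (op (g c) (kk W hG a)) x → a < b := by
  have h1 : EqFam hG (fun (_ : Au M K) (c : ε × K) => c) (fun c => g c.1) :=
    hg.comp (φ := fun c : ε × K => c.1) IntF.fst' fun _ _ => rfl
  have h2 : EqFam hG (fun (_ : Au M K) (c : ε × K) => c) (fun c => kk W hG c.2) :=
    (kk_fam W hG).comp (φ := fun c : ε × K => c.2) IntF.snd' fun _ _ => rfl
  obtain ⟨b, F, hF, hF1, hF2, hF3, hF4⟩ := exists_cover hG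
    (EqFam.op (fun _ _ => rfl) h1 h2) x
  have h3 : Sm W (ε × Pb M b) := hε.prod (sm_Pb W b)
  obtain ⟨b', hb'⟩ := h3.bdd (r := fun c d => F c.1 c.2.1 d) (by
    refine Int.comp₃ (p := fun c p d => F c p d) hF ?_ ?_ ?_ <;> (repeat' (first | with_reducible exact IntF.id | with_reducible exact IntF.fst' | with_reducible exact IntF.snd' | with_reducible exact IntF.const _ | with_reducible exact Int.const _ | assumption | with_reducible apply Int.and | with_reducible apply Int.or | with_reducible apply Int.not | with_reducible apply Int.imp | with_reducible apply Int.iff | with_reducible apply Int.ne | with_reducible apply Int.eq | with_reducible apply Int.mem | with_reducible apply Int.subset | with_reducible apply Int.ltN | with_reducible apply Int.leN | with_reducible_and_instances apply Int.le | with_reducible_and_instances apply Int.lt | with_reducible apply Int.all | with_reducible apply Int.ex | with_reducible apply IntF.fst | with_reducible apply IntF.snd | with_reducible apply IntF.app | with_reducible apply IntF.inl | with_reducible apply IntF.inr | with_reducible_and_instances apply IntF.mul | with_reducible_and_instances apply IntF.inv | with_reducible_and_instances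 apply IntF.add | with_reducible_and_instances apply IntF.sub | with_reducible_and_instances apply IntF.neg | with_reducible_and_instances apply IntF.smul | with_reducible apply Int.fin | with_reducible apply IntF.sep | with_reducible apply IntF.lam | with_reducible apply IntF.insert | with_reducible apply IntF.singleton | with_reducible apply IntF.union | with_reducible apply IntF.iimage | with_reducible apply IntF.ite | with_reducible apply IntF.the | with_reducible apply IntF.irec | with_reducible apply IntF.succ | with_reducible apply IntF.val | with_reducible apply IntF.mk | (with_reducible refine Int.comp ?_ ?_; assumption) | (with_reducible refine Int.comp₂ ?_ ?_ ?_; assumption) | (with_reducible refine Int.comp₃ ?_ ?_ ?_ ?_; assumption) | (with_reducible refine Int.comp₄ ?_ ?_ ?_ ?_ ?_; assumption) | (with_reducible refine IntF.comp ?_ ?_; assumption) | (with_reducible refine IntF.comp₂ ?_ ?_ ?_; assumption) | (with_reducible refine IntF.comp₃ ?_ ?_ ?_ ?_; assumption) | with_reducible apply IntF.pair)))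
    fun x a a' hx hx' => hF1 _ _ _ _ hx hx'
  refine ⟨b', fun c a hc => ?_⟩
  obtain ⟨p, hp, h4⟩ := hF4 c a hc fun d' hd' => hf c d' a hd' hc
  exact hb' (c, ⟨p, hF2 _ _ _ h4⟩) a h4

theorem ext_noseq (x : NN (Sc M K) hG)
    (hf : ∀ a ξ, ξ < a → ∃ n, Plain.Mem (op (op (kk W hG a) (kk W hG ξ)) (nv hG n)) x ∧
      ∀ n', Plain.Mem (op (op (kk W hG a) (kk W hG ξ)) (nv hG n')) x → n' = n)
    (hi : ∀ a ξ ξ' n, ξ < a → ξ' < a → Plain.Mem (op (op (kk W hG a) (kk W hG ξ)) (nv hG n)) x →
      Plain.Mem (op (op (kk W hG a) (kk W hG ξ')) (nv hG n)) x → ξ = ξ') : False := by
  have h1 : EqFam hG (fun (_ : Au M K) (c : (K × K) × INat M) => c) (fun c => kk W hG c.1.1) :=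
    (kk_fam W hG).comp (φ := fun c : (K × K) × INat M => c.1.1) (by (repeat' (first | with_reducible exact IntF.id | with_reducible exact IntF.fst' | with_reducible exact IntF.snd' | with_reducible exact IntF.const _ | with_reducible exact Int.const _ | assumption | with_reducible apply Int.and | with_reducible apply Int.or | with_reducible apply Int.not | with_reducible apply Int.imp | with_reducible apply Int.iff | with_reducible apply Int.ne | with_reducible apply Int.eq | with_reducible apply Int.mem | with_reducible apply Int.subset | with_reducible apply Int.ltN | with_reducible apply Int.leN | with_reducible_and_instances apply Int.le | with_reducible_and_instances apply Int.lt | with_reducible apply Int.all | with_reducible apply Int.ex | with_reducible apply IntF.fst | with_reducible apply IntF.snd | with_reducible apply IntF.app | with_reducible apply IntF.inl | with_reducible apply IntF.inr | with_reducible_and_instances apply IntF.mul | with_reducible_and_instances apply IntF.inv | with_reducible_and_instances apply IntF.add | with_reducible_and_instances apply IntF.sub | with_reducible_and_instances apply IntF.neg | with_reducible_and_instances apply IntF.smul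 | with_reducible apply Int.fin | with_reducible apply IntF.sep | with_reducible apply IntF.lam | with_reducible apply IntF.insert | with_reducible apply IntF.singleton | with_reducible apply IntF.union | with_reducible apply IntF.iimage | with_reducible apply IntF.ite | with_reducible apply IntF.the | with_reducible apply IntF.irec | with_reducible apply IntF.succ | with_reducible apply IntF.val | with_reducible apply IntF.mk | (with_reducible refine Int.comp ?_ ?_; assumption) | (with_reducible refine Int.comp₂ ?_ ?_ ?_; assumption) | (with_reducible refine Int.comp₃ ?_ ?_ ?_ ?_; assumption) | (with_reducible refine Int.comp₄ ?_ ?_ ?_ ?_ ?_; assumption) | (with_reducible refine IntF.comp ?_ ?_; assumption) | (with_reducible refine IntF.comp₂ ?_ ?_ ?_; assumption) | (with_reducible refine IntF.comp₃ ?_ ?_ ?_ ?_; assumption) | with_reducible apply IntF.pair))) fun _ _ => rfl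
  have h2 : EqFam hG (fun (_ : Au M K) (c : (K × K) × INat M) => c) (fun c => kk W hG c.1.2) :=
    (kk_fam W hG).comp (φ := fun c : (K × K) × INat M => c.1.2) (by (repeat' (first | with_reducible exact IntF.id | with_reducible exact IntF.fst' | with_reducible exact IntF.snd' | with_reducible exact IntF.const _ | with_reducible exact Int.const _ | assumption | with_reducible apply Int.and | with_reducible apply Int.or | with_reducible apply Int.not | with_reducible apply Int.imp | with_reducible apply Int.iff | with_reducible apply Int.ne | with_reducible apply Int.eq | with_reducible apply Int.mem | with_reducible apply Int.subset | with_reducible apply Int.ltN | with_reducible apply Int.leN | with_reducible_and_instances apply Int.le | with_reducible_and_instances apply Int.lt | with_reducible apply Int.all | with_reducible apply Int.ex | with_reducible apply IntF.fst | with_reducible apply IntF.snd | with_reducible apply IntF.app | with_reducible apply IntF.inl | with_reducible apply IntF.inr | with_reducible_and_instances apply IntF.mul | with_reducible_and_instances apply IntF.inv | with_reducible_and_instances apply IntF.add | with_reducible_and_instances apply IntF.sub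 | with_reducible_and_instances apply IntF.neg | with_reducible_and_instances apply IntF.smul | with_reducible apply Int.fin | with_reducible apply IntF.sep | with_reducible apply IntF.lam | with_reducible apply IntF.insert | with_reducible apply IntF.singleton | with_reducible apply IntF.union | with_reducible apply IntF.iimage | with_reducible apply IntF.ite | with_reducible apply IntF.the | with_reducible apply IntF.irec | with_reducible apply IntF.succ | with_reducible apply IntF.val | with_reducible apply IntF.mk | (with_reducible refine Int.comp ?_ ?_; assumption) | (with_reducible refine Int.comp₂ ?_ ?_ ?_; assumption) | (with_reducible refine Int.comp₃ ?_ ?_ ?_ ?_; assumption) | (with_reducible refine Int.comp₄ ?_ ?_ ?_ ?_ ?_; assumption) | (with_reducible refine IntF.comp ?_ ?_; assumption) | (with_reducible refine IntF.comp₂ ?_ ?_ ?_; assumption) | (with_reducible refine IntF.comp₃ ?_ ?_ ?_ ?_; assumption) | with_reducible apply IntF.pair))) fun _ _ => rfl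
  have h3 : EqFam hG (fun (_ : Au M K) (c : (K × K) × INat M) => c) (fun c => nv hG c.2) :=
    (nv_fam hG).comp (φ := fun c : (K × K) × INat M => c.2) (by (repeat' (first | with_reducible exact IntF.id | with_reducible exact IntF.fst' | with_reducible exact IntF.snd' | with_reducible exact IntF.const _ | with_reducible exact Int.const _ | assumption | with_reducible apply Int.and | with_reducible apply Int.or | with_reducible apply Int.not | with_reducible apply Int.imp | with_reducible apply Int.iff | with_reducible apply Int.ne | with_reducible apply Int.eq | with_reducible apply Int.mem | with_reducible apply Int.subset | with_reducible apply Int.ltN | with_reducible apply Int.leN | with_reducible_and_instances apply Int.le | with_reducible_and_instances apply Int.lt | with_reducible apply Int.all | with_reducible apply Int.ex | with_reducible apply IntF.fst | with_reducible apply IntF.snd | with_reducible apply IntF.app | with_reducible apply IntF.inl | with_reducible apply IntF.inr | with_reducible_and_instances apply IntF.mul | with_reducible_and_instances apply IntF.inv | with_reducible_and_instances apply IntF.add | with_reducible_and_instances apply IntF.sub | with_reducible_and_instances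 apply IntF.neg | with_reducible_and_instances apply IntF.smul | with_reducible apply Int.fin | with_reducible apply IntF.sep | with_reducible apply IntF.lam | with_reducible apply IntF.insert | with_reducible apply IntF.singleton | with_reducible apply IntF.union | with_reducible apply IntF.iimage | with_reducible apply IntF.ite | with_reducible apply IntF.the | with_reducible apply IntF.irec | with_reducible apply IntF.succ | with_reducible apply IntF.val | with_reducible apply IntF.mk | (with_reducible refine Int.comp ?_ ?_; assumption) | (with_reducible refine Int.comp₂ ?_ ?_ ?_; assumption) | (with_reducible refine Int.comp₃ ?_ ?_ ?_ ?_; assumption) | (with_reducible refine Int.comp₄ ?_ ?_ ?_ ?_ ?_; assumption) | (with_reducible refine IntF.comp ?_ ?_; assumption) | (with_reducible refine IntF.comp₂ ?_ ?_ ?_; assumption) | (with_reducible refine IntF.comp₃ ?_ ?_ ?_ ?_; assumption) | with_reducible apply IntF.pair))) fun _ _ => rfl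
  obtain ⟨b, F, hF, hF1, hF2, hF3, hF4⟩ := exists_cover hG
    (EqFam.op (fun _ _ => rfl) (EqFam.op (fun _ _ => rfl) h1 h2) h3) x
  have hsm : Sm W (IPow M (Pb M b × INat M)) := ((sm_Pb W b).prod (sm_nat W)).pow
  have hI : Int M (fun q : (K × K) × (Pb M b × INat M) => F q.1 q.2.1.1 q.2.2 ∧
      ¬ ∃ ξ, ξ < q.1.2 ∧ F (q.1.1, ξ) q.2.1.1 q.2.2) := by
    refine Int.and ?_ (Int.not (Int.ex (Int.and ?_ ?_)))
    · refine Int.comp₃ (p := fun c p d => F c p d) hF ?_ ?_ ?_ <;> (repeat' (first | with_reducible exact IntF.id | with_reducible exact IntF.fst' | with_reducible exact IntF.snd' | with_reducible exact IntF.const _ | with_reducible exact Int.const _ | assumption | with_reducible apply Int.and | with_reducible apply Int.or | with_reducible apply Int.not | with_reducible apply Int.imp | with_reducible apply Int.iff | with_reducible apply Int.ne | with_reducible apply Int.eq | with_reducible apply Int.mem | with_reducible apply Int.subset | with_reducible apply Int.ltN | with_reducible apply Int.leN | with_reducible_and_instances apply Int.le | with_reducible_and_instances apply Int.lt | with_reducible apply Int.all | with_reducible apply Int.ex | with_reducible apply IntF.fst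 | with_reducible apply IntF.snd | with_reducible apply IntF.app | with_reducible apply IntF.inl | with_reducible apply IntF.inr | with_reducible_and_instances apply IntF.mul | with_reducible_and_instances apply IntF.inv | with_reducible_and_instances apply IntF.add | with_reducible_and_instances apply IntF.sub | with_reducible_and_instances apply IntF.neg | with_reducible_and_instances apply IntF.smul | with_reducible apply Int.fin | with_reducible apply IntF.sep | with_reducible apply IntF.lam | with_reducible apply IntF.insert | with_reducible apply IntF.singleton | with_reducible apply IntF.union | with_reducible apply IntF.iimage | with_reducible apply IntF.ite | with_reducible apply IntF.the | with_reducible apply IntF.irec | with_reducible apply IntF.succ | with_reducible apply IntF.val | with_reducible apply IntF.mk | (with_reducible refine Int.comp ?_ ?_; assumption) | (with_reducible refine Int.comp₂ ?_ ?_ ?_; assumption) | (with_reducible refine Int.comp₃ ?_ ?_ ?_ ?_; assumption) | (with_reducible refine Int.comp₄ ?_ ?_ ?_ ?_ ?_; assumption) | (with_reducible refine IntF.comp ?_ ?_; assumption) | (with_reducible refine IntF.comp₂ ?_ ?_ ?_; assumption) | (with_reducible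 refine IntF.comp₃ ?_ ?_ ?_ ?_; assumption) | with_reducible apply IntF.pair))
    · (repeat' (first | with_reducible exact IntF.id | with_reducible exact IntF.fst' | with_reducible exact IntF.snd' | with_reducible exact IntF.const _ | with_reducible exact Int.const _ | assumption | with_reducible apply Int.and | with_reducible apply Int.or | with_reducible apply Int.not | with_reducible apply Int.imp | with_reducible apply Int.iff | with_reducible apply Int.ne | with_reducible apply Int.eq | with_reducible apply Int.mem | with_reducible apply Int.subset | with_reducible apply Int.ltN | with_reducible apply Int.leN | with_reducible_and_instances apply Int.le | with_reducible_and_instances apply Int.lt | with_reducible apply Int.all | with_reducible apply Int.ex | with_reducible apply IntF.fst | with_reducible apply IntF.snd | with_reducible apply IntF.app | with_reducible apply IntF.inl | with_reducible apply IntF.inr | with_reducible_and_instances apply IntF.mul | with_reducible_and_instances apply IntF.inv | with_reducible_and_instances apply IntF.add | with_reducible_and_instances apply IntF.sub | with_reducible_and_instances apply IntF.neg | with_reducible_and_instances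 apply IntF.smul | with_reducible apply Int.fin | with_reducible apply IntF.sep | with_reducible apply IntF.lam | with_reducible apply IntF.insert | with_reducible apply IntF.singleton | with_reducible apply IntF.union | with_reducible apply IntF.iimage | with_reducible apply IntF.ite | with_reducible apply IntF.the | with_reducible apply IntF.irec | with_reducible apply IntF.succ | with_reducible apply IntF.val | with_reducible apply IntF.mk | (with_reducible refine Int.comp ?_ ?_; assumption) | (with_reducible refine Int.comp₂ ?_ ?_ ?_; assumption) | (with_reducible refine Int.comp₃ ?_ ?_ ?_ ?_; assumption) | (with_reducible refine Int.comp₄ ?_ ?_ ?_ ?_ ?_; assumption) | (with_reducible refine IntF.comp ?_ ?_; assumption) | (with_reducible refine IntF.comp₂ ?_ ?_ ?_; assumption) | (with_reducible refine IntF.comp₃ ?_ ?_ ?_ ?_; assumption) | with_reducible apply IntF.pair))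
    · refine Int.comp₃ (p := fun c p d => F c p d) hF ?_ ?_ ?_ <;> (repeat' (first | with_reducible exact IntF.id | with_reducible exact IntF.fst' | with_reducible exact IntF.snd' | with_reducible exact IntF.const _ | with_reducible exact Int.const _ | assumption | with_reducible apply Int.and | with_reducible apply Int.or | with_reducible apply Int.not | with_reducible apply Int.imp | with_reducible apply Int.iff | with_reducible apply Int.ne | with_reducible apply Int.eq | with_reducible apply Int.mem | with_reducible apply Int.subset | with_reducible apply Int.ltN | with_reducible apply Int.leN | with_reducible_and_instances apply Int.le | with_reducible_and_instances apply Int.lt | with_reducible apply Int.all | with_reducible apply Int.ex | with_reducible apply IntF.fst | with_reducible apply IntF.snd | with_reducible apply IntF.app | with_reducible apply IntF.inl | with_reducible apply IntF.inr | with_reducible_and_instances apply IntF.mul | with_reducible_and_instances apply IntF.inv | with_reducible_and_instances apply IntF.add | with_reducible_and_instances apply IntF.sub | with_reducible_and_instances apply IntF.neg | with_reducible_and_instances apply IntF.smul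 | with_reducible apply Int.fin | with_reducible apply IntF.sep | with_reducible apply IntF.lam | with_reducible apply IntF.insert | with_reducible apply IntF.singleton | with_reducible apply IntF.union | with_reducible apply IntF.iimage | with_reducible apply IntF.ite | with_reducible apply IntF.the | with_reducible apply IntF.irec | with_reducible apply IntF.succ | with_reducible apply IntF.val | with_reducible apply IntF.mk | (with_reducible refine Int.comp ?_ ?_; assumption) | (with_reducible refine Int.comp₂ ?_ ?_ ?_; assumption) | (with_reducible refine Int.comp₃ ?_ ?_ ?_ ?_; assumption) | (with_reducible refine Int.comp₄ ?_ ?_ ?_ ?_ ?_; assumption) | (with_reducible refine IntF.comp ?_ ?_; assumption) | (with_reducible refine IntF.comp₂ ?_ ?_ ?_; assumption) | (with_reducible refine IntF.comp₃ ?_ ?_ ?_ ?_; assumption) | with_reducible apply IntF.pair))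
  have hs : IntF M (fun q : K × K => sep M fun c : Pb M b × INat M => F q c.1.1 c.2 ∧
      ¬ ∃ ξ, ξ < q.2 ∧ F (q.1, ξ) c.1.1 c.2) := IntF.sep hI
  have hm : ∀ (q : K × K) (c : Pb M b × INat M), c ∈ (sep M fun c : Pb M b × INat M =>
      F q c.1.1 c.2 ∧ ¬ ∃ ξ, ξ < q.2 ∧ F (q.1, ξ) c.1.1 c.2) ↔ (F q c.1.1 c.2 ∧
      ¬ ∃ ξ, ξ < q.2 ∧ F (q.1, ξ) c.1.1 c.2) := fun q c => mem_sep (Int.slice (p := fun
        (q : K × K) (c : Pb M b × INat M) => F q c.1.1 c.2 ∧
      ¬ ∃ ξ, ξ < q.2 ∧ F (q.1, ξ) c.1.1 c.2) hI q)
  have key : ∀ a ξ ξ', ξ < ξ' → ξ' < a → (sep M fun c : Pb M b × INat M =>
      F (a, ξ) c.1.1 c.2 ∧ ¬ ∃ ξ₁, ξ₁ < ξ ∧ F (a, ξ₁) c.1.1 c.2) ≠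
      (sep M fun c : Pb M b × INat M =>
      F (a, ξ') c.1.1 c.2 ∧ ¬ ∃ ξ₁, ξ₁ < ξ' ∧ F (a, ξ₁) c.1.1 c.2) := by
    intro a ξ ξ' h4 h5 h6
    obtain ⟨n, h7, h8⟩ := hf a ξ (h4.trans h5)
    obtain ⟨p, hp, h9⟩ := hF4 (a, ξ) n h7 h8
    have h10 := (hm (a, ξ) (⟨p, hF2 _ _ _ h9⟩, n)).2 ⟨h9, fun ⟨ξ₁, h11, h12⟩ => by
      have h13 := hF3 _ _ _ h12 hp
      have h14 := hi a ξ₁ ξ n (h11.trans (h4.trans h5)) (h4.trans h5) h13 h7
      exact absurd h11 (h14 ▸ lt_irrefl _)⟩
    dsimp only at h10
    rw [h6] at h10
    exact ((hm (a, ξ') _).1 h10).2 ⟨ξ, h4, h9⟩
  refine hsm.no_seq (s := fun a ξ => sep M fun c : Pb M b × INat M => F (a, ξ) c.1.1 c.2 ∧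
      ¬ ∃ ξ₁, ξ₁ < ξ ∧ F (a, ξ₁) c.1.1 c.2) hs fun a ξ ξ' h4 h5 h6 => ?_
  rcases lt_trichotomy ξ ξ' with h7 | h7 | h7
  · exact absurd h6 (key a ξ ξ' h7 h5)
  · exact h7
  · exact absurd h6.symm (key a ξ' ξ h7 h4)

include hG in
theorem gen_unique {a : K} {n : INat M} {d d' : K} (h : ∃ p, p ∈ G ∧ ((a, n), d) ∈ p.1)
    (h' : ∃ p, p ∈ G ∧ ((a, n), d') ∈ p.1) : d = d' := by
  obtain ⟨p, hp, h1⟩ := h
  obtain ⟨p', hp', h1'⟩ := h'
  obtain ⟨r, -, h2, h3⟩ := hG.dir p p' hp hp'
  exact r.2.2.1 _ _ _ (h2 _ h1) (h3 _ h1')

include hG in
theorem gen_total {a ξ : K} (h : ξ < a) (n : INat M) :
    ∃ d, ∃ p, p ∈ G ∧ ((a, n), d) ∈ p.1 := by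
  obtain ⟨p, hp, d, h1⟩ := hG.dense (fun p => ∃ d, ((a, n), d) ∈ p.1) (by (repeat' (first | with_reducible exact IntF.id | with_reducible exact IntF.fst' | with_reducible exact IntF.snd' | with_reducible exact IntF.const _ | with_reducible exact Int.const _ | assumption | with_reducible apply Int.and | with_reducible apply Int.or | with_reducible apply Int.not | with_reducible apply Int.imp | with_reducible apply Int.iff | with_reducible apply Int.ne | with_reducible apply Int.eq | with_reducible apply Int.mem | with_reducible apply Int.subset | with_reducible apply Int.ltN | with_reducible apply Int.leN | with_reducible_and_instances apply Int.le | with_reducible_and_instances apply Int.lt | with_reducible apply Int.all | with_reducible apply Int.ex | with_reducible apply IntF.fst | with_reducible apply IntF.snd | with_reducible apply IntF.app | with_reducible apply IntF.inl | with_reducible apply IntF.inr | with_reducible_and_instances apply IntF.mul | with_reducible_and_instances apply IntF.inv | with_reducible_and_instances apply IntF.add | with_reducible_and_instances apply IntF.sub | with_reducible_and_instances apply IntF.neg | with_reducible_and_instances apply IntF.smul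 | with_reducible apply Int.fin | with_reducible apply IntF.sep | with_reducible apply IntF.lam | with_reducible apply IntF.insert | with_reducible apply IntF.singleton | with_reducible apply IntF.union | with_reducible apply IntF.iimage | with_reducible apply IntF.ite | with_reducible apply IntF.the | with_reducible apply IntF.irec | with_reducible apply IntF.succ | with_reducible apply IntF.val | with_reducible apply IntF.mk | (with_reducible refine Int.comp ?_ ?_; assumption) | (with_reducible refine Int.comp₂ ?_ ?_ ?_; assumption) | (with_reducible refine Int.comp₃ ?_ ?_ ?_ ?_; assumption) | (with_reducible refine Int.comp₄ ?_ ?_ ?_ ?_ ?_; assumption) | (with_reducible refine IntF.comp ?_ ?_; assumption) | (with_reducible refine IntF.comp₂ ?_ ?_ ?_; assumption) | (with_reducible refine IntF.comp₃ ?_ ?_ ?_ ?_; assumption) | with_reducible apply IntF.pair))) fun p => by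
    by_cases h1 : ∃ d, ((a, n), d) ∈ p.1
    · exact ⟨p, le_rfl, h1⟩
    · obtain ⟨q, h2, h3⟩ := exists_add_cell p (a, n) ξ h h1
      exact ⟨q, h2, ξ, h3⟩
  exact ⟨d, p, hp, h1⟩

include hG in
theorem gen_onto {a ξ : K} (h : ξ < a) : ∃ n : INat M, ∃ p, p ∈ G ∧ ((a, n), ξ) ∈ p.1 := by
  obtain ⟨p, hp, n, h1⟩ := hG.dense (fun p => ∃ n : INat M, ((a, n), ξ) ∈ p.1) (by (repeat' (first | with_reducible exact IntF.id | with_reducible exact IntF.fst' | with_reducible exact IntF.snd' | with_reducible exact IntF.const _ | with_reducible exact Int.const _ | assumption | with_reducible apply Int.and | with_reducible apply Int.or | with_reducible apply Int.not | with_reducible apply Int.imp | with_reducible apply Int.iff | with_reducible apply Int.ne | with_reducible apply Int.eq | with_reducible apply Int.mem | with_reducible apply Int.subset | with_reducible apply Int.ltN | with_reducible apply Int.leN | with_reducible_and_instances apply Int.le | with_reducible_and_instances apply Int.lt | with_reducible apply Int.all | with_reducible apply Int.ex | with_reducible apply IntF.fst | with_reducible apply IntF.snd | with_reducible apply IntF.app | with_reducible apply IntF.inl | with_reducible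 apply IntF.inr | with_reducible_and_instances apply IntF.mul | with_reducible_and_instances apply IntF.inv | with_reducible_and_instances apply IntF.add | with_reducible_and_instances apply IntF.sub | with_reducible_and_instances apply IntF.neg | with_reducible_and_instances apply IntF.smul | with_reducible apply Int.fin | with_reducible apply IntF.sep | with_reducible apply IntF.lam | with_reducible apply IntF.insert | with_reducible apply IntF.singleton | with_reducible apply IntF.union | with_reducible apply IntF.iimage | with_reducible apply IntF.ite | with_reducible apply IntF.the | with_reducible apply IntF.irec | with_reducible apply IntF.succ | with_reducible apply IntF.val | with_reducible apply IntF.mk | (with_reducible refine Int.comp ?_ ?_; assumption) | (with_reducible refine Int.comp₂ ?_ ?_ ?_; assumption) | (with_reducible refine Int.comp₃ ?_ ?_ ?_ ?_; assumption) | (with_reducible refine Int.comp₄ ?_ ?_ ?_ ?_ ?_; assumption) | (with_reducible refine IntF.comp ?_ ?_; assumption) | (with_reducible refine IntF.comp₂ ?_ ?_ ?_; assumption) | (with_reducible refine IntF.comp₃ ?_ ?_ ?_ ?_; assumption) | with_reducible apply IntF.pair)))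
    fun p => by
      obtain ⟨m, hm⟩ := exists_bd p
      obtain ⟨q, h2, h3⟩ := exists_add_cell p (a, m) ξ h fun ⟨d, hd⟩ =>
        lt_irrefl _ (hm _ _ _ hd)
      exact ⟨q, h2, m, h3⟩
  exact ⟨n, p, hp, h1⟩

/-- The generic enumeration of an ordinal. -/
theorem exists_enumN {a b : K} (hab : a < b) : ∃ x : NN (Sc M K) hG, ∀ w, Plain.Mem w x ↔
    ∃ n ξ, w = op (nv hG n) (kk W hG ξ) ∧ ∃ p, p ∈ G ∧ ((a, n), ξ) ∈ p.1 := by
  have h1 : EqFam hG (fun (_ : Au M K) (c : INat M × K) => c) (fun c => nv hG c.1) :=
    (nv_fam hG).comp (φ := fun c : INat M × K => c.1) IntF.fst' fun _ _ => rfl
  have h2 : EqFam hG (fun (_ : Au M K) (c : INat M × K) => c) (fun c => kk W hG c.2) :=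
    (kk_fam W hG).comp (φ := fun c : INat M × K => c.2) IntF.snd' fun _ _ => rfl
  obtain ⟨α, _, E, h, g, hg, h3, h4⟩ := EqFam.op (fun _ _ => rfl) h1 h2
  obtain ⟨z, hz⟩ := exists_set hG h (Q := fun y p => ∃ (n : INat M) (ξ : K), y = g (n, ξ) ∧
      (((a, n), ξ) : Cl M K) ∈ p.1) (by (repeat' (first | with_reducible exact IntF.id | with_reducible exact IntF.fst' | with_reducible exact IntF.snd' | with_reducible exact IntF.const _ | with_reducible exact Int.const _ | assumption | with_reducible apply Int.and | with_reducible apply Int.or | with_reducible apply Int.not | with_reducible apply Int.imp | with_reducible apply Int.iff | with_reducible apply Int.ne | with_reducible apply Int.eq | with_reducible apply Int.mem | with_reducible apply Int.subset | with_reducible apply Int.ltN | with_reducible apply Int.leN | with_reducible_and_instances apply Int.le | with_reducible_and_instances apply Int.lt | with_reducible apply Int.all | with_reducible apply Int.ex | with_reducible apply IntF.fst | with_reducible apply IntF.snd | with_reducible apply IntF.app | with_reducible apply IntF.inl | with_reducible apply IntF.inr | with_reducible_and_instances apply IntF.mul | with_reducible_and_instances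 apply IntF.inv | with_reducible_and_instances apply IntF.add | with_reducible_and_instances apply IntF.sub | with_reducible_and_instances apply IntF.neg | with_reducible_and_instances apply IntF.smul | with_reducible apply Int.fin | with_reducible apply IntF.sep | with_reducible apply IntF.lam | with_reducible apply IntF.insert | with_reducible apply IntF.singleton | with_reducible apply IntF.union | with_reducible apply IntF.iimage | with_reducible apply IntF.ite | with_reducible apply IntF.the | with_reducible apply IntF.irec | with_reducible apply IntF.succ | with_reducible apply IntF.val | with_reducible apply IntF.mk | (with_reducible refine Int.comp ?_ ?_; assumption) | (with_reducible refine Int.comp₂ ?_ ?_ ?_; assumption) | (with_reducible refine Int.comp₃ ?_ ?_ ?_ ?_; assumption) | (with_reducible refine Int.comp₄ ?_ ?_ ?_ ?_ ?_; assumption) | (with_reducible refine IntF.comp ?_ ?_; assumption) | (with_reducible refine IntF.comp₂ ?_ ?_ ?_; assumption) | (with_reducible refine IntF.comp₃ ?_ ?_ ?_ ?_; assumption) | with_reducible apply IntF.pair))) ⟨b, by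
    rintro π hπ y r ⟨n, ξ, rfl, h5⟩ q hq
    refine ⟨q, le_rfl, _, q, ⟨n, ξ, rfl, ?_⟩, le_rfl, h4 π q (n, ξ)⟩
    refine hq _ (mem_sm.2 ?_)
    have h6 : ac π (a, n) = (a, n) := hπ (a, n) hab
    have h7 : aci π (a, n) = (a, n) := by
      have := congrArg (aci π) h6
      rwa [aci_ac, eq_comm] at this
    rw [h7]
    exact h5⟩
  refine ⟨z, fun w => (hz w).trans ?_⟩
  constructor
  · rintro ⟨y, s, hs, ⟨n, ξ, rfl, h5⟩, rfl⟩
    exact ⟨n, ξ, (h3 (n, ξ)).symm, s, hs, h5⟩
  · rintro ⟨n, ξ, rfl, p, hp, h5⟩
    exact ⟨g (n, ξ), p, hp, ⟨n, ξ, rfl, h5⟩, h3 (n, ξ)⟩

end

end Pool.Agent.Helper672.ZFA.V246
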