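import Pool.Agent.TH821.NegChain

set_option autoImplicit false

/-!
# The periodic chain of the pretzel knots P(3, -3, 2k+1)

`a j, X j, Z j, c j` are order automorphisms of a complete linear order, `Z j` fixes the fixed
points of `a (j+1)`, and

* `a j = a (j+1) ∘ (X j)⁻¹ ∘ a (j+1) ∘ X j`,
* `c j = Z j ∘ X j`, `c (j+1) = X j ∘ (a (j+1))⁻¹ ∘ Z j ∘ X j`.

If everything is periodic in `j` then every point is fixed by all `a j` and `X j`.
-/

namespace Pool.Agent.V11246.IT

open Pool.Agent.TH821.Hex Pool.Agent.TH821.Neg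

variable {Ω : Type*} [CompleteLinearOrder Ω]

/-- The chain. -/
structure IChain (a X Z c : ℕ → Ω ≃o Ω) : Prop where
  hz : ∀ j o, a (j + 1) o = o → Z j o = o
  ha : ∀ j y, a j y = a (j + 1) ((X j).symm (a (j + 1) (X j y)))
  hc : ∀ j y, c j y = Z j (X j y)
  hc' : ∀ j y, c (j + 1) y = X j ((a (j + 1)).symm (Z j (X j y)))

theorem IChain.dual {a X Z c : ℕ → Ω ≃o Ω} (h : IChain a X Z c) :
    IChain (Ω := Ωᵒᵈ) (fun j => (a j).dual) (fun j => (X j).dual) (fun j => (Z j).dual)
      (fun j => (c j).dual) :=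
  ⟨fun j o ho => h.hz j o ho, fun j y => h.ha j y, fun j y => h.hc j y, fun j y => h.hc' j y⟩

section chain
variable {a X Z c : ℕ → Ω ≃o Ω} {N : ℕ}

/-- A fixed point `f` of `a j` between `y` and `c j y > y` gives a fixed point `g > f` of
`a (j+1)` below `c (j+1) y`. -/
theorem IChain.step (h : IChain a X Z c) (j : ℕ) {y f : Ω} (hy : y < c j y) (hf : a j f = f)
    (h1 : y ≤ f) (h2 : f ≤ c j y) : ∃ g, a (j + 1) g = g ∧ f < g ∧ g ≤ c (j + 1) y := by
  -- `e X f = X e⁻¹ f`
  have he : a (j + 1) (X j f) = X j ((a (j + 1)).symm f) := by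
    have := h.ha j f
    rw [hf] at this
    have h3 := congrArg (fun t => X j ((a (j + 1)).symm t)) this
    simp only [OrderIso.symm_apply_apply, OrderIso.apply_symm_apply] at h3
    exact h3.symm
  have hcf : f ≤ Z j (X j y) := by rw [← h.hc]; exact h2
  have hup : ∀ o, a (j + 1) o = o → o ≤ X j f → o ≤ c (j + 1) y := by
    intro o ho ho'
    have h3 : X j ((a (j + 1)).symm f) ≤ c (j + 1) y := by
      rw [h.hc']
      exact (X j).le_iff_le.mpr ((a (j + 1)).symm.le_iff_le.mpr hcf)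
    refine le_trans ?_ h3
    rw [← he, ← ho]
    exact (a (j + 1)).le_iff_le.mpr ho'
  have hnone : ∀ o, a (j + 1) o = o → X j f ≤ o → f ≤ o := by
    intro o ho ho'
    have h3 : Z j (X j y) ≤ Z j o := (Z j).le_iff_le.mpr (((X j).le_iff_le.mpr h1).trans ho')
    rw [h.hz j o ho] at h3
    exact hcf.trans h3
  rcases lt_trichotomy (a (j + 1) f) f with e1 | e1 | e1
  · -- `e` is down at `f`, up at `X f`
    have e2 : X j f < a (j + 1) (X j f) := by
      rw [he]
      apply (X j).lt_iff_lt.mpr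
      rw [lt_symm_iff]; exact e1
    rcases le_or_gt (X j f) f with h3 | h3
    · exfalso
      obtain ⟨o, o1, o2, o3⟩ := fixUD (a (j + 1)) h3 e2 e1.le
      have h4 := hnone o o3 o1.le
      have h5 : o = f := le_antisymm o2 h4
      rw [h5] at o3
      exact absurd o3 e1.ne
    · obtain ⟨o, o1, o2, o3⟩ := fixDU (a (j + 1)) h3.le e1 e2.le
      exact ⟨o, o3, o1, hup o o3 o2⟩
  · -- `e f = f`
    have e2 : a (j + 1) (X j f) = X j f := by
      rw [he]
      congr 1
      rw [OrderIso.symm_apply_eq]; exact e1.symm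
    rcases lt_or_ge f (X j f) with h3 | h3
    · exact ⟨X j f, e2, h3, hup _ e2 le_rfl⟩
    · exfalso
      have h4 := hnone _ e2 le_rfl
      have h5 : X j f = f := le_antisymm h3 h4
      have h6 : Z j f = f := h.hz j f e1
      have h7 : Z j (X j y) ≤ Z j (X j f) :=
        (Z j).le_iff_le.mpr ((X j).le_iff_le.mpr h1)
      rw [h5, h6] at h7
      have h8 : Z j (X j y) = Z j (X j f) := by
        rw [h5, h6]; exact le_antisymm h7 hcf
      have h9 : y = f := (X j).injective ((Z j).injective h8)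
      rw [h.hc, h8, h5, h6, h9] at hy
      exact lt_irrefl _ hy
  · -- `e` is up at `f`, down at `X f`
    have e2 : a (j + 1) (X j f) < X j f := by
      rw [he]
      apply (X j).lt_iff_lt.mpr
      rw [symm_lt_iff']; exact e1
    rcases le_or_gt (X j f) f with h3 | h3
    · exfalso
      obtain ⟨o, o1, o2, o3⟩ := fixDU (a (j + 1)) h3 e2 e1.le
      have h4 := hnone o o3 o1.le
      have h5 : o = f := le_antisymm o2 h4
      rw [h5] at o3
      exact absurd o3 e1.ne'
    · obtain ⟨o, o1, o2, o3⟩ := fixUD (a (j + 1)) h3.le e1 e2.le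
      exact ⟨o, o3, o1, hup o o3 o2⟩

/-- The greatest fixed point of `g` below `t`. -/
noncomputable def low (g : Ω ≃o Ω) (t : Ω) : Ω := sSup {f | g f = f ∧ f ≤ t}

theorem low_le (g : Ω ≃o Ω) (t : Ω) : low g t ≤ t := sSup_le fun _ hf => hf.2

theorem le_low {g : Ω ≃o Ω} {t f : Ω} (h1 : g f = f) (h2 : f ≤ t) : f ≤ low g t :=
  le_sSup ⟨h1, h2⟩

theorem low_fix (g : Ω ≃o Ω) (t : Ω) : g (low g t) = low g t := by
  have key : g '' {f | g f = f ∧ f ≤ t} = {f | g f = f ∧ f ≤ t} := by
    ext f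
    constructor
    · rintro ⟨f', ⟨h1, h2⟩, rfl⟩
      rw [h1]; exact ⟨h1, h2⟩
    · rintro ⟨h1, h2⟩
      exact ⟨f, ⟨h1, h2⟩, h1⟩
  show g (sSup _) = sSup _
  rw [g.map_sSup_eq_sSup_symm_preimage]
  congr 1
  ext f
  constructor
  · intro hf
    have h1 : g (g.symm f) = g.symm f ∧ g.symm f ≤ t := hf
    have h2 : f = g.symm f := by
      have := h1.1
      rwa [g.apply_symm_apply] at this
    rw [h2]; exact h1
  · rintro ⟨h1, h2⟩
    have h3 : g.symm f = f := by rw [OrderIso.symm_apply_eq]; exact h1.symm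
    show g (g.symm f) = g.symm f ∧ g.symm f ≤ t
    rw [h3]; exact ⟨h1, h2⟩

/-- `c i` does not move a fixed point of `a i` up. -/
theorem IChain.not_up (h : IChain a X Z c) (hN : 0 < N) (pa : ∀ j, a (j + N) = a j)
    (pc : ∀ j, c (j + N) = c j) (i : ℕ) {y : Ω} (hy : a i y = y) : ¬ y < c i y := by
  intro hlt
  have key : ∀ j, i ≤ j → y < c j y ∧ y ≤ low (a j) (c j y) := by
    intro j hj
    induction j, hj using Nat.le_induction with
    | base => exact ⟨hlt, le_low hy hlt.le⟩
    | succ j _ ih =>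
      obtain ⟨g, g1, g2, g3⟩ := h.step j ih.1 (low_fix (a j) (c j y)) ih.2 (low_le _ _)
      have h1 : y < g := lt_of_le_of_lt ih.2 g2
      exact ⟨h1.trans_le g3, h1.le.trans (le_low g1 g3)⟩
  refine no_incr (u := fun j => low (a j) (c j y)) (i := i) hN ?_ ?_
  · show low (a (i + N)) (c (i + N) y) = low (a i) (c i y)
    rw [pa, pc]
  · intro j hj
    obtain ⟨h1, h2⟩ := key j hj
    obtain ⟨g, g1, g2, g3⟩ := h.step j h1 (low_fix (a j) (c j y)) h2 (low_le _ _)
    exact g2.trans_le (le_low g1 g3)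

/-- `c i` fixes the fixed points of `a i`. -/
theorem IChain.cfix (h : IChain a X Z c) (hN : 0 < N) (pa : ∀ j, a (j + N) = a j)
    (pc : ∀ j, c (j + N) = c j) (i : ℕ) {y : Ω} (hy : a i y = y) : c i y = y := by
  have h1 : ¬ y < c i y := h.not_up hN pa pc i hy
  have h2 : ¬ c i y < y := IChain.not_up (Ω := Ωᵒᵈ) h.dual hN
    (fun j => congrArg OrderIso.dual (pa j)) (fun j => congrArg OrderIso.dual (pc j)) i hy
  exact le_antisymm (not_lt.mp h1) (not_lt.mp h2)

/-- `X j` fixes the fixed points of `a (j+1)`. -/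
theorem IChain.xfix (h : IChain a X Z c) (hN : 0 < N) (pa : ∀ j, a (j + N) = a j)
    (pc : ∀ j, c (j + N) = c j) (j : ℕ) {f : Ω} (hf : a (j + 1) f = f) : X j f = f := by
  have h1 := h.cfix hN pa pc (j + 1) hf
  rw [h.hc'] at h1
  have h2 : Z j f = f := h.hz j f hf
  have h3 : (a (j + 1)).symm f = f := by rw [OrderIso.symm_apply_eq]; exact hf.symm
  rcases lt_trichotomy (X j f) f with h4 | h4 | h4
  · exfalso
    have h5 : Z j (X j f) < f := by
      have := (Z j).lt_iff_lt.mpr h4
      rwa [h2] at this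
    have h6 : (a (j + 1)).symm (Z j (X j f)) < f := by
      have := (a (j + 1)).symm.lt_iff_lt.mpr h5
      rwa [h3] at this
    have h7 := (X j).lt_iff_lt.mpr h6
    rw [h1] at h7
    exact absurd h7 (not_lt.mpr h4.le)
  · exact h4
  · exfalso
    have h5 : f < Z j (X j f) := by
      have := (Z j).lt_iff_lt.mpr h4
      rwa [h2] at this
    have h6 : f < (a (j + 1)).symm (Z j (X j f)) := by
      have := (a (j + 1)).symm.lt_iff_lt.mpr h5
      rwa [h3] at this
    have h7 := (X j).lt_iff_lt.mpr h6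
    rw [h1] at h7
    exact absurd h7 (not_lt.mpr h4.le)

/-- `a (j+1)` up at `y` implies `a j y > a (j+1) y`. -/
theorem IChain.down_step (h : IChain a X Z c) (hN : 0 < N) (pa : ∀ j, a (j + N) = a j)
    (pc : ∀ j, c (j + N) = c j) (j : ℕ) {y : Ω} (hy : y < a (j + 1) y) :
    a (j + 1) y < a j y := by
  have h1 : X j y < a (j + 1) (X j y) := by
    by_contra hcon
    rw [not_lt] at hcon
    rcases le_total y (X j y) with h2 | h2
    · obtain ⟨o, o1, o2, o3⟩ := fixUD (a (j + 1)) h2 hy hcon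
      have h3 := (X j).lt_iff_lt.mpr o1
      rw [h.xfix hN pa pc j o3] at h3
      exact absurd h3 (not_lt.mpr o2)
    · obtain ⟨o, o1, o2, o3⟩ := fixNU (a (j + 1)) h2 hcon hy
      have h3 := (X j).lt_iff_lt.mpr o2
      rw [h.xfix hN pa pc j o3] at h3
      exact absurd h3 (not_lt.mpr o1)
  rw [h.ha j]
  apply (a (j + 1)).lt_iff_lt.mpr
  rw [lt_symm_iff]
  exact h1

theorem per_mul (pa : ∀ j, a (j + N) = a j) (j : ℕ) : ∀ k, a (j + k * N) = a j
  | 0 => by simp
  | k + 1 => by rw [Nat.succ_mul, ← Nat.add_assoc, pa, per_mul pa j k]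

/-- no `a i` moves a point up. -/
theorem IChain.a_le (h : IChain a X Z c) (hN : 0 < N) (pa : ∀ j, a (j + N) = a j)
    (pc : ∀ j, c (j + N) = c j) (i : ℕ) (y : Ω) : a i y ≤ y := by
  by_contra hcon
  rw [not_le] at hcon
  -- `a j` is up at `y` for all `j`
  have h1 : ∀ k j, j + k = i + j * N → y < a j y := by
    intro k j hk
    have h2 : y < a (j + k) y := by rw [hk, per_mul pa]; exact hcon
    clear hk
    induction k with
    | zero => exact h2
    | succ k ih =>
      apply ih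
      exact h2.trans (h.down_step hN pa pc (j + k) h2)
  have h2 : ∀ j, y < a j y := by
    intro j
    have h3 : j ≤ i + j * N := by nlinarith
    exact h1 (i + j * N - j) j (by omega)
  refine no_incr (Ω := Ωᵒᵈ) (u := fun j => OrderDual.toDual (a j y)) (i := 0) hN ?_ ?_
  · show a (0 + N) y = a 0 y
    rw [pa]
  · intro j _
    exact h.down_step hN pa pc j (h2 (j + 1))

/-- every point is fixed by all `a j` and `X j`. -/
theorem IChain.fixed (h : IChain a X Z c) (hN : 0 < N) (pa : ∀ j, a (j + N) = a j)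
    (pc : ∀ j, c (j + N) = c j) (j : ℕ) (y : Ω) : a j y = y ∧ X j y = y := by
  have h1 : ∀ i, a i y = y := by
    intro i
    have h2 : a i y ≤ y := h.a_le hN pa pc i y
    have h3 : y ≤ a i y := IChain.a_le (Ω := Ωᵒᵈ) h.dual hN
      (fun j => congrArg OrderIso.dual (pa j)) (fun j => congrArg OrderIso.dual (pc j)) i y
    exact le_antisymm h2 h3
  exact ⟨h1 j, h.xfix hN pa pc j (h1 (j + 1))⟩

end chain

end Pool.Agent.V11246.IT
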