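import Pool.Agent.V11246.PGroup
import Pool.Agent.V11246.IChain

set_option autoImplicit false

/-!
# Left-ordered groups and the relations of the pretzel knots P(3, -3, 2k+1)
-/

namespace Pool.Agent.V11246.IT

open Pool.Agent.W705.Borr Pool.Agent.TH821.Chain Pool.Agent.TH821.Hex

/-- The relations between the elements `x i, v i, w i` and `r i`. -/
structure IRel {H : Type*} [Group H] {n : ℕ} (x v w r : ZMod n → H)
    (e : ZMod n → ℤ) (f : ZMod n → ℕ) : Prop where
  prod : ∀ i, x i * v i * w i = 1
  fpos : ∀ i, 0 < f i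
  pow : ∀ i, r i ^ f i = w i ^ e i
  relA : ∀ i, x (i + 1) * x (i + 1) * v (i + 1) * v (i + 1) = x i * x i * v i * v i * w i
  relB : ∀ i, (r (i + 1) * v (i + 1))⁻¹ = x i * (r i * v i)⁻¹

/-- `a i` -/
def aa {H : Type*} [Group H] {n : ℕ} (x v : ZMod n → H) (i : ZMod n) : H :=
  x i * x i * v i * v i

/-- `c i` -/
def cc {H : Type*} [Group H] {n : ℕ} (x v r : ZMod n → H) (i : ZMod n) : H :=
  x i * x i * v i * v i * (r i * v i)⁻¹

section alg
variable {H : Type*} [Group H] {n : ℕ} {x v w r : ZMod n → H} {e : ZMod n → ℤ} {f : ZMod n → ℕ}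

theorem IRel.w_eq (R : IRel x v w r e f) (i : ZMod n) : w i = (x i * v i)⁻¹ := by
  have := R.prod i
  rw [eq_inv_iff_mul_eq_one]
  calc w i * (x i * v i) = (x i * v i)⁻¹ * (x i * v i * w i) * (x i * v i) := by group
    _ = 1 := by rw [this]; group

theorem IRel.a_next (R : IRel x v w r e f) (i : ZMod n) :
    aa x v (i + 1) = x i * (x i * v i) * (x i)⁻¹ := by
  unfold aa
  rw [R.relA, R.w_eq]
  group

theorem IRel.ha (R : IRel x v w r e f) (i : ZMod n) :
    aa x v i = aa x v (i + 1) * ((x i)⁻¹ * (aa x v (i + 1) * x i)) := by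
  rw [R.a_next]
  unfold aa
  group

theorem IRel.z_eq (R : IRel x v w r e f) (i : ZMod n) :
    cc x v r i * (x i)⁻¹ = x i * ((w i)⁻¹ * ((r i)⁻¹ * (x i)⁻¹)) := by
  rw [R.w_eq]
  unfold cc
  group

theorem IRel.hc' (R : IRel x v w r e f) (i : ZMod n) :
    cc x v r (i + 1) = x i * ((aa x v (i + 1))⁻¹ * cc x v r i) := by
  have h1 : cc x v r (i + 1) = aa x v (i + 1) * (r (i + 1) * v (i + 1))⁻¹ := rfl
  rw [h1, R.relB, R.a_next]
  unfold cc
  group

end alg

section act
variable {H : Type*} [Group H] [LinearOrder H] (hinv : ∀ a b c : H, a ≤ b ↔ c * a ≤ c * b)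

theorem act_zpow_fix (w : H) (e : ℤ) {o : LowerSet H} (h : act hinv w o = o) :
    act hinv (w ^ e) o = o := by
  have key : ∀ k : ℕ, act hinv (w ^ k) o = o := by
    intro k
    rw [act_pow]
    exact Function.iterate_fixed h k
  rcases Int.eq_nat_or_neg e with ⟨k, rfl | rfl⟩
  · rw [zpow_natCast]; exact key k
  · rw [zpow_neg, zpow_natCast, act_inv, OrderIso.symm_apply_eq]
    exact (key k).symm

theorem pow_fix {r w : H} {e : ℤ} {f : ℕ} (hf : 0 < f) (h : r ^ f = w ^ e) {o : LowerSet H}
    (ho : act hinv w o = o) : act hinv r o = o := by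
  have h1 : (act hinv r)^[f] o = o := by
    rw [← act_pow, h]; exact act_zpow_fix hinv w e ho
  have h2 : (OrderIso.refl (LowerSet H))^[f] o = o := by
    have : ((OrderIso.refl (LowerSet H) : LowerSet H ≃o LowerSet H) :
      LowerSet H → LowerSet H) = id := rfl
    rw [this, Function.iterate_id]; rfl
  rcases lt_trichotomy (act hinv r o) o with h3 | h3 | h3
  · have h4 := PS.iter_lt (g := act hinv r) (h := OrderIso.refl (LowerSet H))
      (fun z => rfl) h3 f hf
    rw [h1, h2] at h4
    exact absurd h4 (lt_irrefl _)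
  · exact h3
  · have h4 := PS.iter_lt (g := OrderIso.refl (LowerSet H)) (h := act hinv r)
      (fun z => rfl) h3 f hf
    rw [h1, h2] at h4
    exact absurd h4 (lt_irrefl _)

include hinv in
/-- In a left-ordered group the relations force triviality. -/
theorem rel_trivial {n : ℕ} (hn : 0 < n) {x v w r : ZMod n → H} {e : ZMod n → ℤ}
    {f : ZMod n → ℕ} (R : IRel x v w r e f) (i : ZMod n) :
    x i = 1 ∧ v i = 1 ∧ w i = 1 ∧ r i = 1 := by
  have : NeZero n := ⟨hn.ne'⟩
  have hN0 : ∀ j : ℕ, ((j + n : ℕ) : ZMod n) = (j : ZMod n) := by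
    intro j; push_cast; rw [ZMod.natCast_self, add_zero]
  have hC : IChain (fun j : ℕ => act hinv (aa x v j)) (fun j : ℕ => act hinv (x j))
      (fun j : ℕ => act hinv (cc x v r j * (x j)⁻¹)) (fun j : ℕ => act hinv (cc x v r j)) := by
    refine ⟨?_, ?_, ?_, ?_⟩
    · intro j o ho
      have h1 : act hinv (aa x v ((j : ZMod n) + 1)) o = o := by
        have := ho
        simp only [Nat.cast_add, Nat.cast_one] at this
        exact this
      rw [R.a_next, act_mul, act_mul, act_inv] at h1
      -- `w` fixes `x⁻¹ o`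
      have h2 : act hinv (x (j : ZMod n) * v j) ((act hinv (x (j : ZMod n))).symm o) =
          (act hinv (x (j : ZMod n))).symm o := by
        rw [← (act hinv (x (j : ZMod n))).injective.eq_iff, OrderIso.apply_symm_apply]
        exact h1
      have h3 : act hinv (w (j : ZMod n)) ((act hinv (x (j : ZMod n))).symm o) =
          (act hinv (x (j : ZMod n))).symm o := by
        rw [R.w_eq, act_inv, OrderIso.symm_apply_eq]; exact h2.symm
      have h4 := pow_fix hinv (R.fpos j) (R.pow j) h3
      show act hinv (cc x v r (j : ZMod n) * (x (j : ZMod n))⁻¹) o = o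
      rw [R.z_eq, act_mul, act_mul, act_mul, act_inv, act_inv, act_inv]
      have h5 : (act hinv (r (j : ZMod n))).symm ((act hinv (x (j : ZMod n))).symm o) =
          (act hinv (x (j : ZMod n))).symm o := by
        rw [OrderIso.symm_apply_eq]; exact h4.symm
      have h6 : (act hinv (w (j : ZMod n))).symm ((act hinv (x (j : ZMod n))).symm o) =
          (act hinv (x (j : ZMod n))).symm o := by
        rw [OrderIso.symm_apply_eq]; exact h3.symm
      rw [h5, h6, OrderIso.apply_symm_apply]
    · intro j y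
      simp only [← act_inv, ← act_mul]
      rw [Nat.cast_add, Nat.cast_one]
      exact congrArg (fun g => act hinv g y) (R.ha (j : ZMod n))
    · intro j y
      simp only [← act_mul]
      rw [inv_mul_cancel_right]
    · intro j y
      simp only [← act_inv, ← act_mul]
      rw [Nat.cast_add, Nat.cast_one, inv_mul_cancel_right]
      exact congrArg (fun g => act hinv g y) (R.hc' (j : ZMod n))
  have pa : ∀ j : ℕ, act hinv (aa x v ((j + n : ℕ) : ZMod n)) = act hinv (aa x v (j : ZMod n)) := by
    intro j; rw [hN0]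
  have pc : ∀ j : ℕ, act hinv (cc x v r ((j + n : ℕ) : ZMod n)) =
      act hinv (cc x v r (j : ZMod n)) := by
    intro j; rw [hN0]
  have hi : ((i.val : ℕ) : ZMod n) = i := ZMod.natCast_zmod_val i
  have hx : x i = 1 := by
    apply eq_one_of_act hinv
    intro y
    have := (hC.fixed hn pa pc i.val y).2
    simp only [hi] at this
    exact this
  have ha : aa x v i = 1 := by
    apply eq_one_of_act hinv
    intro y
    have := (hC.fixed hn pa pc i.val y).1
    simp only [hi] at this
    exact this
  have hv : v i = 1 := by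
    apply eq_one_of_act hinv
    intro y
    have h1 : v i * v i = 1 := by
      have := ha
      unfold aa at this
      rwa [hx, one_mul, one_mul] at this
    refine pow_fix hinv (r := v i) (w := v i) (e := 0) (f := 2) two_pos ?_ (o := y) ?_
    · rw [pow_two, h1, zpow_zero]
    · -- not available: `v` fixes `y`
      by_contra hne
      rcases lt_or_gt_of_ne hne with h2 | h2
      · have h3 := (act hinv (v i)).lt_iff_lt.mpr h2
        rw [← act_mul, h1, act_one] at h3
        exact absurd (h3.trans h2) (lt_irrefl _)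
      · have h3 := (act hinv (v i)).lt_iff_lt.mpr h2
        rw [← act_mul, h1, act_one] at h3
        exact absurd (h3.trans h2) (lt_irrefl _)
  have hw : w i = 1 := by rw [R.w_eq, hx, hv, one_mul, inv_one]
  have hr : r i = 1 := by
    apply eq_one_of_act hinv
    intro y
    refine pow_fix hinv (R.fpos i) (R.pow i) ?_
    rw [hw, act_one]
  exact ⟨hx, hv, hw, hr⟩

end act

section kernel
open Pool.Agent.TH821.Cyc
variable {G : Type*} [Group G] {n : ℕ}

/-- Homomorphisms from the kernel of `d` to a left-ordered group are trivial. -/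
theorem hom_trivial (hn : 0 < n) {s X V : G} (hs : s ^ n = 1)
    (hgen : ∀ K : Subgroup G, s ∈ K → X ∈ K → V ∈ K → K = ⊤)
    (d : G →* Multiplicative (ZMod n)) (ds : d s = Multiplicative.ofAdd 1) (dX : d X = 1)
    (dV : d V = 1) (k : ℤ)
    (A : s * (X * X * V * V) * s⁻¹ = X * X * V * V * (X * V)⁻¹)
    (B : s * (((X * V)⁻¹ ^ k * V)⁻¹) * s⁻¹ = X * ((X * V)⁻¹ ^ k * V)⁻¹)
    {H : Type*} [Group H] [LinearOrder H] (hinv : ∀ a b c : H, a ≤ b ↔ c * a ≤ c * b)
    (φ : d.ker →* H) (g : d.ker) : φ g = 1 := by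
  set X' : d.ker := ⟨X, dX⟩ with hX'
  set V' : d.ker := ⟨V, dV⟩ with hV'
  set W' : d.ker := (X' * V')⁻¹ with hW'
  have key : ∀ (i : ZMod n) (x y : d.ker), s * x.1 * s⁻¹ = y.1 →
      φ (ck d s (i + 1) x) = φ (ck d s i y) := by
    intro i x y hxy
    congr 1
    apply Subtype.ext
    show cj s x.1 (i + 1) = cj s y.1 i
    rw [cj_shift hn hs, hxy]
  have R : IRel (fun i => φ (ck d s i X')) (fun i => φ (ck d s i V')) (fun i => φ (ck d s i W'))
      (fun i => φ (ck d s i W') ^ k) (fun _ => k) (fun _ => 1) := by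
    refine ⟨?_, ?_, ?_, ?_, ?_⟩
    · intro i
      show φ (ck d s i X') * φ (ck d s i V') * φ (ck d s i W') = 1
      rw [← map_mul, ← map_mul, ← map_mul, ← map_mul, hW', mul_inv_cancel, map_one, map_one]
    · intro i; exact one_pos
    · intro i; exact pow_one _
    · intro i
      have := key i (X' * X' * V' * V') (X' * X' * V' * V' * W') A
      simpa only [map_mul, map_inv] using this
    · intro i
      have := key i ((W' ^ k * V')⁻¹) (X' * (W' ^ k * V')⁻¹) B
      simpa only [map_mul, map_inv, map_zpow] using this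
  have triv := fun i => rel_trivial hinv hn R i
  have h1 : N n s X V ≤ φ.ker.map d.ker.subtype := by
    unfold N
    rw [Subgroup.closure_le]
    rintro _ (⟨i, rfl⟩ | ⟨i, rfl⟩)
    · exact ⟨ck d s i X', (triv i).1, rfl⟩
    · exact ⟨ck d s i V', (triv i).2.1, rfl⟩
  obtain ⟨g', hg', hgg⟩ := h1 (ker_le hn hs hgen d ds dX dV g.2)
  have : g' = g := Subtype.ext hgg
  rw [← this]; exact hg'

end kernel

end Pool.Agent.V11246.IT
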