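import Pool.Agent.V11246.UD
import Pool.Agent.V11246.Small
import Pool.Agent.H310R3.Bridge

/-!
# Models with a universe
-/

set_option maxHeartbeats 1000000
set_option linter.all false
set_option synthInstance.maxSize 2000

namespace Pool.Agent.V11246

open FirstOrder FirstOrder.Language
open Pool.Agent.Helper672.Plain (LSet Mem IsOrdPair IsPair)
open Pool.Agent.H310Cards

universe u

/-- There is a universe with a regular well-ordered set of the same height. -/
def HasU (M : Type u) [LSet.Structure M] : Prop := ∃ u k : M,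
  (∀ x y, Mem x k → Mem y k → Mem x y ∨ x = y ∨ Mem y x) ∧
  (∀ x y z, Mem x k → Mem y k → Mem z k → Mem x y → Mem y z → Mem x z) ∧
  (∃ x, Mem x k) ∧
  (∀ x y, Mem x u → Mem y u → ∃ z, Mem z u ∧ ∀ a b q, Mem a x → Mem b y → IsOrdPair q a b →
    Mem q z) ∧
  (∀ x, Mem x u → ∃ z, Mem z u ∧ ∀ y, (∀ w, Mem w y → Mem w x) → Mem y z) ∧
  (∃ z, Mem z u ∧ IsInductive z) ∧
  (∀ b, Mem b k → Mem b u) ∧
  ∀ x f, Mem x u → (∀ a, Mem a k → ∃ z, Mem z x ∧ App f a z) →
    ∃ z, ∀ a, Mem a k → ∃ b, Mem b k ∧ Mem a b ∧ App f b z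

theorem ud_hasU : UD.{u} Empty (fun N _ _ => HasU N) := by
  unfold HasU
  (repeat' (first | with_reducible exact UD.mem _ _ | with_reducible exact UD.eq _ _ | with_reducible exact UD.pair _ _ _ | with_reducible exact UD.ordPair _ _ _ | with_reducible exact UD.app _ _ _ | with_reducible exact UD.ind _ | assumption | with_reducible apply UD.and | with_reducible apply UD.or | with_reducible apply UD.not | with_reducible apply UD.imp | with_reducible apply UD.iff | with_reducible apply UD.all | with_reducible apply UD.ex))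

theorem HasU.sub {M : Type u} [LSet.Structure M] (h : HasU M)
    (S : LSet.ElementarySubstructure M) : HasU S := (ud_hasU.sub S).2 h

end Pool.Agent.V11246

namespace Pool.Agent.Helper672.ZFA.V246

open FirstOrder FirstOrder.Language
open Pool.Agent.Helper672.Plain (LSet)
open Pool.Agent.H310Cards
open Pool.Agent.H310
open Pool.Agent.H635Amen (ZF)
open Pool.Agent.V11246

universe u

section

attribute [local instance] Helper672.Plain.toL

variable {M : Type u} [LSet.Structure M] [hZ : ZF M]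

local instance instModelL'' : IsModel M := Helper672.Plain.isModel_toL

theorem zf_irrefl (x : M) : ¬ Mem x x := by
  intro h
  have hup : ∀ z, Plain.Mem z (ZFA.up x x) ↔ z = x ∨ z = x := fun z => mem_up (M := M)
  obtain ⟨y, h1, h2⟩ := hZ.foundation (ZFA.up x x) ⟨x, (hup x).2 (Or.inl rfl)⟩
  have h3 : y = x := ((hup y).1 h1).elim id id
  subst h3
  exact h2 y h1 h

theorem zf_asymm {x y : M} (h : Mem x y) (h' : Mem y x) : False := by
  have hup : ∀ z, Plain.Mem z (ZFA.up x y) ↔ z = x ∨ z = y := fun z => mem_up (M := M)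
  obtain ⟨z, h1, h2⟩ := hZ.foundation (ZFA.up x y) ⟨x, (hup x).2 (Or.inl rfl)⟩
  rcases (hup z).1 h1 with rfl | rfl
  · exact h2 y ((hup y).2 (Or.inr rfl)) h'
  · exact h2 x ((hup x).2 (Or.inl rfl)) h

/-- The linear order of a set that is linearly ordered by membership. -/
@[reducible] noncomputable def memLin (k : M)
    (h1 : ∀ x y, Mem x k → Mem y k → Mem x y ∨ x = y ∨ Mem y x)
    (h2 : ∀ x y z, Mem x k → Mem y k → Mem z k → Mem x y → Mem y z → Mem x z) :
    LinearOrder (El k) where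
  lt a b := Mem a.1 b.1
  le a b := Mem a.1 b.1 ∨ a = b
  le_refl a := Or.inr rfl
  le_trans a b c := by
    rintro (h3 | rfl) (h4 | rfl)
    · exact Or.inl (h2 a.1 b.1 c.1 a.2 b.2 c.2 h3 h4)
    · exact Or.inl h3
    · exact Or.inl h4
    · exact Or.inr rfl
  lt_iff_le_not_ge a b := by
    constructor
    · intro h3
      refine ⟨Or.inl h3, ?_⟩
      rintro (h4 | rfl)
      · exact zf_asymm h3 h4
      · exact zf_irrefl _ h3
    · rintro ⟨h3 | rfl, h4⟩
      · exact h3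
      · exact absurd (Or.inr rfl) h4
  le_antisymm a b := by
    rintro (h3 | rfl) (h4 | h4)
    · exact (zf_asymm h3 h4).elim
    · exact h4.symm
    · rfl
    · rfl
  le_total a b := by
    rcases h1 a.1 b.1 a.2 b.2 with h3 | h3 | h3
    · exact Or.inl (Or.inl h3)
    · exact Or.inl (Or.inr (Subtype.ext h3))
    · exact Or.inr (Or.inl h3)
  toDecidableLE := Classical.decRel _

theorem exists_uni (h : HasU M) : ∃ (k : M) (_ : LinearOrder (El k)) (_ : ILE M (El k)),
    Nonempty (Uni M (El k)) := by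
  obtain ⟨u, k, h1, h2, h3, h4, h5, h6, h7, h8⟩ := h
  letI := memLin k h1 h2
  have hI : Int M (fun q : El k × El k => Mem q.1.1 q.2.1) :=
    Int.of_D₂ (S := fun v => Mem (v 0) (v 1)) (D.memf (DF.var _) (DF.var _)) fun _ _ => Iff.rfl
  have hI' : ILE M (El k) := ⟨Int.or hI (Int.eq IntF.fst' IntF.snd')⟩
  refine ⟨k, inferInstance, hI', ⟨⟨fun x => Mem x u, ?_, ?_, ?_, ?_, ?_, ?_, ?_⟩⟩⟩
  · intro x y hx hy
    obtain ⟨z, hz, h9⟩ := h4 x y hx hy
    exact ⟨z, hz, fun a b ha hb => h9 a b _ ha hb (ordPair_iff.2 rfl)⟩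
  · intro x hx
    obtain ⟨z, hz, h9⟩ := h5 x hx
    exact ⟨z, hz, fun y _ hy => h9 y hy⟩
  · obtain ⟨z, hz, h9⟩ := h6
    exact ⟨z, hz, fun n => n.prop z (ind_iff.2 h9)⟩
  · intro b
    exact ⟨b.1, h7 _ b.2, fun a ha => ha⟩
  · intro x hx f hf
    obtain ⟨z, hz⟩ := h8 x (code (M := M) (⟨f, hf⟩ : IFun M (El k) (El x))) hx
      fun a ha => ⟨(f ⟨a, ha⟩).1, (f ⟨a, ha⟩).2, app_code.2 ⟨⟨a, ha⟩, rfl, rfl⟩⟩
    have h9 : ∀ a : El k, ∃ b : El k, a < b ∧ (f b).1 = z := by
      intro a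
      obtain ⟨b, hb, hab, h10⟩ := hz a.1 a.2
      obtain ⟨b', rfl, h11⟩ := app_code.1 h10
      exact ⟨b', hab, h11⟩
    obtain ⟨a₀, ha₀⟩ := h3
    obtain ⟨b₀, -, hb₀⟩ := h9 ⟨a₀, ha₀⟩
    refine ⟨f b₀, fun a => ?_⟩
    obtain ⟨b, hb, h10⟩ := h9 a
    exact ⟨b, hb, Subtype.ext (h10.trans hb₀.symm)⟩
  · intro s hs
    obtain ⟨a, ha⟩ := hs
    have h0 : ∀ z, Helper672.Plain.Mem z (code (M := M) s) ↔
        ∃ a, a ∈ s ∧ code a = z := fun z => mem_code_pow (M := M)
    obtain ⟨y, h10, h11⟩ := hZ.foundation (code (M := M) s) ⟨a.1, (h0 _).2 ⟨a, ha, rfl⟩⟩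
    obtain ⟨a, h12, rfl⟩ := (h0 _).1 h10
    exact ⟨a, h12, fun b hb h13 => h11 b.1 ((h0 _).2 ⟨b, hb, rfl⟩) h13⟩
  · obtain ⟨x, hx⟩ := h3
    exact ⟨⟨x, hx⟩⟩

end

end Pool.Agent.Helper672.ZFA.V246
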