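import Pool.Agent.V11246.Inac
import Mathlib.SetTheory.ZFC.VonNeumann
import Mathlib.SetTheory.Cardinal.Regular

/-!
# The sets of Lean have a universe
-/

set_option maxHeartbeats 1000000
set_option linter.all false

namespace Pool.Agent.V11246

open FirstOrder FirstOrder.Language
open Pool.Agent.Helper672.Plain (LSet Mem IsOrdPair IsPair)
open Pool.Agent.H310Cards
open Pool.Agent.H310.NA (zs zf_zs mem_zs ordPair_zs)
open ZFSet Order Cardinal

section

attribute [local instance] zs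

theorem rank_zpair (a b : ZFSet.{1}) :
    rank (ZFSet.pair a b) = succ (max (succ (rank a)) (succ (rank b))) := by
  rw [ZFSet.pair, rank_pair, rank_pair, rank_singleton]
  refine le_antisymm (max_le ?_ le_rfl) (le_max_right _ _)
  exact succ_le_succ (le_max_left _ _)

theorem hasU_zs : HasU ZFSet.{1} := by
  have hlim : IsSuccLimit Ordinal.univ.{0, 1} := by
    rw [← ord_univ]
    exact isSuccLimit_ord IsInaccessible.univ.aleph0_lt.le
  have hreg : Cardinal.IsRegular Cardinal.univ.{0, 1} := IsInaccessible.univ.isRegular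
  have hU : ∀ x : ZFSet.{1}, Mem x (ZFSet.vonNeumann Ordinal.univ.{0, 1}) ↔
      rank x < Ordinal.univ.{0, 1} := fun x => mem_vonNeumann
  have hk : ∀ x : ZFSet.{1}, Mem x (Ordinal.toZFSet Ordinal.univ.{0, 1}) ↔
      ∃ a < Ordinal.univ.{0, 1}, Ordinal.toZFSet a = x := fun x => Ordinal.mem_toZFSet_iff
  refine ⟨ZFSet.vonNeumann Ordinal.univ.{0, 1}, Ordinal.toZFSet Ordinal.univ.{0, 1},
    ?_, ?_, ?_, ?_, ?_, ?_, ?_, ?_⟩
  · intro x y hx hy
    obtain ⟨a, -, rfl⟩ := (hk x).1 hx
    obtain ⟨b, -, rfl⟩ := (hk y).1 hy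
    rcases lt_trichotomy a b with h | h | h
    · exact Or.inl (Ordinal.toZFSet_mem_toZFSet_iff.2 h)
    · exact Or.inr (Or.inl (h ▸ rfl))
    · exact Or.inr (Or.inr (Ordinal.toZFSet_mem_toZFSet_iff.2 h))
  · intro x y z hx hy hz h1 h2
    obtain ⟨a, -, rfl⟩ := (hk x).1 hx
    obtain ⟨b, -, rfl⟩ := (hk y).1 hy
    obtain ⟨c, -, rfl⟩ := (hk z).1 hz
    exact Ordinal.toZFSet_mem_toZFSet_iff.2 ((Ordinal.toZFSet_mem_toZFSet_iff.1 h1).trans
      (Ordinal.toZFSet_mem_toZFSet_iff.1 h2))
  · exact ⟨Ordinal.toZFSet 0, (hk _).2 ⟨0, hlim.bot_lt, rfl⟩⟩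
  · intro x y hx hy
    rw [hU] at hx hy
    refine ⟨ZFSet.vonNeumann (succ (succ (max (rank x) (rank y)))), ?_, ?_⟩
    · rw [hU, rank_vonNeumann]
      exact hlim.succ_lt (hlim.succ_lt (max_lt hx hy))
    · intro a b q ha hb hq
      rw [ordPair_zs] at hq
      subst hq
      refine mem_vonNeumann.2 ?_
      change rank (ZFSet.pair a b) < _
      rw [rank_zpair, lt_succ_iff, succ_le_succ_iff]
      exact max_le ((succ_le_of_lt (rank_lt_of_mem ha)).trans (le_max_left _ _))
        ((succ_le_of_lt (rank_lt_of_mem hb)).trans (le_max_right _ _))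
  · intro x hx
    rw [hU] at hx
    refine ⟨powerset x, ?_, ?_⟩
    · rw [hU, rank_powerset]
      exact hlim.succ_lt hx
    · intro y hy
      exact mem_powerset.2 fun z hz => hy z hz
  · refine ⟨ZFSet.vonNeumann Ordinal.omega0, ?_, ?_, ?_⟩
    · rw [hU, rank_vonNeumann, ← ord_univ, lt_ord, Ordinal.card_omega0]
      exact IsInaccessible.univ.aleph0_lt
    · refine ⟨∅, mem_vonNeumann.2 ?_, fun z => ZFSet.notMem_empty z⟩
      change rank ∅ < _
      rw [rank_empty]
      exact Ordinal.omega0_pos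
    · intro n hn
      refine ⟨insert n n, mem_vonNeumann.2 ?_, fun z => (ZFSet.mem_insert_iff).trans or_comm⟩
      have h1 : rank n < Ordinal.omega0 := mem_vonNeumann.1 hn
      change rank (insert n n) < _
      rw [rank_insert]
      exact max_lt (Ordinal.isSuccLimit_omega0.succ_lt h1) h1
  · intro b hb
    exact Ordinal.toZFSet_subset_vonNeumann _ hb
  · intro x f hx hf
    rw [hU] at hx
    by_contra hcon
    push Not at hcon
    have h1 : ∀ z : ZFSet.{1}, ∃ a < Ordinal.univ.{0, 1}, ∀ b < Ordinal.univ.{0, 1}, a < b →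
        ¬ App f (Ordinal.toZFSet b) z := by
      intro z
      obtain ⟨a, ha, h2⟩ := hcon z
      obtain ⟨a, ha', rfl⟩ := (hk a).1 ha
      exact ⟨a, ha', fun b hb hab => h2 _ ((hk _).2 ⟨b, hb, rfl⟩)
        (Ordinal.toZFSet_mem_toZFSet_iff.2 hab)⟩
    choose a ha h2 using h1
    have hc : #(Shrink.{1} x) < Cardinal.univ.{0, 1} := by
      have h3 : card x ≤ card (ZFSet.vonNeumann (rank x)) := card_mono (subset_vonNeumann_self x)
      rw [card_vonNeumann] at h3
      refine lt_of_le_of_lt h3 ?_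
      rw [← preBeth_univ, preBeth_lt_preBeth]
      exact hx
    have h3 : (⨆ s : Shrink.{1} x, a ((equivShrink x).symm s).1) < Ordinal.univ.{0, 1} := by
      rw [← ord_univ] at ha ⊢
      exact iSup_lt_ord_of_isRegular hreg hc fun s => ha _
    have h4 := hlim.succ_lt h3
    obtain ⟨z, hz, h5⟩ := hf (Ordinal.toZFSet (succ (⨆ s : Shrink.{1} x,
      a ((equivShrink x).symm s).1))) ((hk _).2 ⟨_, h4, rfl⟩)
    refine h2 z _ h4 (lt_succ_of_le ?_) h5
    have h6 := Ordinal.le_iSup (fun s : Shrink.{1} x => a ((equivShrink x).symm s).1)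
      (equivShrink x ⟨z, hz⟩)
    simpa using h6

end

end Pool.Agent.V11246
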