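import Pool.Agent.V11246.CcDefs
import Pool.Agent.V11246.CdDefs

/-!
# Compact metrizable spaces and countable unions: definitions

`Mem`, `LSet` and `El` are from `Pool.Agent.Helper672.SIK.Plain`, `IsOmega`, `IsFun`, `App` and
`IsFinite` from `Pool.Agent.H310R3.Cards`, `IsCompact` from `Pool.Agent.H310R3.TopDefs`, `IsMetric`
from `Pool.Agent.H310R3.MetDefs`, `IsMetricTop` from `Pool.Agent.V11246.CcDefs`, `IsCtble` and
`IsCtblUnion` from `Pool.Agent.V11246.CdDefs` and `IsReals` from
`Pool.Agent.H635R2.Statement`.
-/

namespace Pool.Agent.V11246

open FirstOrder FirstOrder.Language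
open Pool.Agent.Helper672.Plain (LSet Mem El)
open Pool.Agent.H310Cards
open Pool.Agent.H310Top (IsCompact)
open Pool.Agent.H310Metric (IsMetric)
open Pool.Agent.H635Amen (IsReals)

universe u

section

variable {M : Type u} [LSet.Structure M]

/-- The space `x` with the topology `t` is metrizable: `t` is the topology of a metric on `x` with
values in the ordered field `r` of the real numbers of the model. -/
def IsMetrizable (t x : M) : Prop :=
  ∃ (r : M) (_ : Field (El r)) (_ : LinearOrder (El r)) (_ : IsStrictOrderedRing (El r)),
    IsReals r ∧ ∃ d : El x → El x → El r, IsMetric d ∧ IsMetricTop d t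

/-- The space is separable: it has a countable dense subset `s`. -/
def IsSeparable (t x : M) : Prop :=
  ∃ s, IsCtble s ∧ (∀ z, Mem z s → Mem z x) ∧
    ∀ u, Mem u t → (∃ z, Mem z u) → ∃ z, Mem z u ∧ Mem z s

end

variable (M : Type u) [LSet.Structure M]

/-- Every compact metrizable space is separable. -/
def MCS : Prop := ∀ t x : M, IsCompact t x → IsMetrizable t x → IsSeparable t x

/-- The union of a countable family of countable sets is countable. -/
def CUC : Prop := ∀ a : M, IsCtblUnion a → IsCtble a

end Pool.Agent.V11246
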