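import Pool.Agent.H635R2.Perm
import Pool.Agent.H635R2.Sys
import Pool.Agent.H635R2.Tools
import Pool.Agent.Helper672.ZFA.Fin
import Pool.Agent.V11246.Ctb

/-!
# Countable conditions over a group of columns: the symmetric system
-/

set_option maxHeartbeats 1000000
set_option linter.all false
set_option synthInstance.maxSize 2000

namespace Pool.Agent.Helper672.ZFA.V246K

open FirstOrder FirstOrder.Language
open Pool.Agent.Helper672.ZFA.H635 (IPerm SymSys)
open Pool.Agent.Helper672.ZFA.V246 (Ctb)

universe u u₁

section

variable {M : Type u} [L.Structure M] [hM : IsModel M] {α : Type u₁} [ITy M α]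

/-- Countable sets. -/
def Cb (s : IPow M α) : Prop :=
  ∃ f : IFun M α (INat M), ∀ a b, a ∈ s → b ∈ s → f a = f b → a = b

theorem int_Cb : Int M (fun s : IPow M α => Cb s) := by
  unfold Cb
  (repeat' (first | with_reducible exact IntF.id | with_reducible exact IntF.fst' | with_reducible exact IntF.snd' | with_reducible exact IntF.const _ | with_reducible exact Int.const _ | assumption | with_reducible apply Int.and | with_reducible apply Int.or | with_reducible apply Int.not | with_reducible apply Int.imp | with_reducible apply Int.iff | with_reducible apply Int.ne | with_reducible apply Int.eq | with_reducible apply Int.mem | with_reducible apply Int.subset | with_reducible apply Int.ltN | with_reducible apply Int.leN | with_reducible_and_instances apply Int.le | with_reducible_and_instances apply Int.lt | with_reducible apply Int.all | with_reducible apply Int.ex | with_reducible apply IntF.fst | with_reducible apply IntF.snd | with_reducible apply IntF.app | with_reducible apply IntF.inl | with_reducible apply IntF.inr | with_reducible_and_instances apply IntF.mul | with_reducible_and_instances apply IntF.inv | with_reducible_and_instances apply IntF.add | with_reducible_and_instances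 apply IntF.sub | with_reducible_and_instances apply IntF.neg | with_reducible_and_instances apply IntF.smul | with_reducible apply Int.fin | with_reducible apply IntF.sep | with_reducible apply IntF.lam | with_reducible apply IntF.insert | with_reducible apply IntF.singleton | with_reducible apply IntF.union | with_reducible apply IntF.iimage | with_reducible apply IntF.ite | with_reducible apply IntF.the | with_reducible apply IntF.irec | with_reducible apply IntF.succ | with_reducible apply IntF.val | with_reducible apply IntF.mk | (with_reducible refine Int.comp ?_ ?_; assumption) | (with_reducible refine Int.comp₂ ?_ ?_ ?_; assumption) | (with_reducible refine Int.comp₃ ?_ ?_ ?_ ?_; assumption) | (with_reducible refine Int.comp₄ ?_ ?_ ?_ ?_ ?_; assumption) | (with_reducible refine IntF.comp ?_ ?_; assumption) | (with_reducible refine IntF.comp₂ ?_ ?_ ?_; assumption) | (with_reducible refine IntF.comp₃ ?_ ?_ ?_ ?_; assumption) | with_reducible apply IntF.pair))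

theorem cb_of {s : IPow M α} (h : Ctb M (fun a => a ∈ s)) : Cb s := by
  obtain ⟨e, he, h⟩ := h
  exact ⟨⟨e, he⟩, fun a b ha hb => h a b ha hb⟩

theorem Cb.ctb {s : IPow M α} (h : Cb s) : Ctb M (fun a => a ∈ s) := by
  obtain ⟨e, h⟩ := h
  exact ⟨fun a => e a, e.2, fun a b ha hb => h a b ha hb⟩

instance factCb : Fact (Int M (fun s : IPow M α => Cb s)) := ⟨int_Cb⟩

theorem Cb.sub {s t : IPow M α} (h : Cb t) (h' : ∀ a, a ∈ s → a ∈ t) : Cb s :=
  cb_of (h.ctb.mono h')

theorem Cb.union {s t : IPow M α} (h : Cb s) (h' : Cb t) : Cb (s ∪ t) :=
  cb_of ((Ctb.or (by (repeat' (first | with_reducible exact IntF.id | with_reducible exact IntF.fst' | with_reducible exact IntF.snd' | with_reducible exact IntF.const _ | with_reducible exact Int.const _ | assumption | with_reducible apply Int.and | with_reducible apply Int.or | with_reducible apply Int.not | with_reducible apply Int.imp | with_reducible apply Int.iff | with_reducible apply Int.ne | with_reducible apply Int.eq | with_reducible apply Int.mem | with_reducible apply Int.subset | with_reducible apply Int.ltN | with_reducible apply Int.leN | with_reducible_and_instances apply Int.le | with_reducible_and_instances apply Int.lt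 | with_reducible apply Int.all | with_reducible apply Int.ex | with_reducible apply IntF.fst | with_reducible apply IntF.snd | with_reducible apply IntF.app | with_reducible apply IntF.inl | with_reducible apply IntF.inr | with_reducible_and_instances apply IntF.mul | with_reducible_and_instances apply IntF.inv | with_reducible_and_instances apply IntF.add | with_reducible_and_instances apply IntF.sub | with_reducible_and_instances apply IntF.neg | with_reducible_and_instances apply IntF.smul | with_reducible apply Int.fin | with_reducible apply IntF.sep | with_reducible apply IntF.lam | with_reducible apply IntF.insert | with_reducible apply IntF.singleton | with_reducible apply IntF.union | with_reducible apply IntF.iimage | with_reducible apply IntF.ite | with_reducible apply IntF.the | with_reducible apply IntF.irec | with_reducible apply IntF.succ | with_reducible apply IntF.val | with_reducible apply IntF.mk | (with_reducible refine Int.comp ?_ ?_; assumption) | (with_reducible refine Int.comp₂ ?_ ?_ ?_; assumption) | (with_reducible refine Int.comp₃ ?_ ?_ ?_ ?_; assumption) | (with_reducible refine Int.comp₄ ?_ ?_ ?_ ?_ ?_; assumption) | (with_reducible refine IntF.comp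 ?_ ?_; assumption) | (with_reducible refine IntF.comp₂ ?_ ?_ ?_; assumption) | (with_reducible refine IntF.comp₃ ?_ ?_ ?_ ?_; assumption) | with_reducible apply IntF.pair))) h.ctb h'.ctb).mono fun a ha => mem_union.1 ha)

theorem Cb.empty : Cb (∅ : IPow M α) := cb_of (Ctb.fin IFin.empty)

theorem Cb.image {β : Type u₁} [ITy M β] {s : IPow M α} (h : Cb s) {f : α → β} (hf : IntF M f) :
    Cb (iimage f s) := by
  refine cb_of ((Ctb.image (P := fun a => a ∈ s) (by (repeat' (first | with_reducible exact IntF.id | with_reducible exact IntF.fst' | with_reducible exact IntF.snd' | with_reducible exact IntF.const _ | with_reducible exact Int.const _ | assumption | with_reducible apply Int.and | with_reducible apply Int.or | with_reducible apply Int.not | with_reducible apply Int.imp | with_reducible apply Int.iff | with_reducible apply Int.ne | with_reducible apply Int.eq | with_reducible apply Int.mem | with_reducible apply Int.subset | with_reducible apply Int.ltN | with_reducible apply Int.leN | with_reducible_and_instances apply Int.le | with_reducible_and_instances apply Int.lt | with_reducible apply Int.all | with_reducible apply Int.ex | with_reducible apply IntF.fst | with_reducible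 apply IntF.snd | with_reducible apply IntF.app | with_reducible apply IntF.inl | with_reducible apply IntF.inr | with_reducible_and_instances apply IntF.mul | with_reducible_and_instances apply IntF.inv | with_reducible_and_instances apply IntF.add | with_reducible_and_instances apply IntF.sub | with_reducible_and_instances apply IntF.neg | with_reducible_and_instances apply IntF.smul | with_reducible apply Int.fin | with_reducible apply IntF.sep | with_reducible apply IntF.lam | with_reducible apply IntF.insert | with_reducible apply IntF.singleton | with_reducible apply IntF.union | with_reducible apply IntF.iimage | with_reducible apply IntF.ite | with_reducible apply IntF.the | with_reducible apply IntF.irec | with_reducible apply IntF.succ | with_reducible apply IntF.val | with_reducible apply IntF.mk | (with_reducible refine Int.comp ?_ ?_; assumption) | (with_reducible refine Int.comp₂ ?_ ?_ ?_; assumption) | (with_reducible refine Int.comp₃ ?_ ?_ ?_ ?_; assumption) | (with_reducible refine Int.comp₄ ?_ ?_ ?_ ?_ ?_; assumption) | (with_reducible refine IntF.comp ?_ ?_; assumption) | (with_reducible refine IntF.comp₂ ?_ ?_ ?_; assumption) | (with_reducible refine IntF.comp₃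 ?_ ?_ ?_ ?_; assumption) | with_reducible apply IntF.pair))) h.ctb hf).mono fun b hb => ?_)
  exact (mem_iimage hf).1 hb

end

variable (M : Type u) [L.Structure M] [hM : IsModel M] (Y : Type u) [ITy M Y]

/-- Columns: a set with levels and a group of permutations. -/
structure Cols where
  lev : Y → INat M
  int_lev : IntF M lev
  C : INat M → IPerm M Y → Prop
  int_C : Int M (fun q : INat M × IPerm M Y => C q.1 q.2)
  one : ∀ k, C k 1
  mul : ∀ k a b, C k a → C k b → C k (a * b)
  inv : ∀ k a, C k a → C k a⁻¹
  anti : ∀ k k' a, k ≤ k' → C k' a → C k a
  conj : ∀ k a b, C 0 a → C k b → C k (a⁻¹ * b * a)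
  lev_eq : ∀ a, C 0 a → ∀ y, lev (a.1.1 y) = lev y
  fix : ∀ k a, C k a → ∀ y, lev y < k → a.1.1 y = y

variable (Ω : Type u) [ITy M Ω] (V : Type u) [ITy M V]

/-- The indices. -/
abbrev Ix : Type u := Y × (Ω × INat M)

/-- The cells. -/
abbrev Ce : Type u := Ix M Y Ω × (Ω × V)

variable {M Y Ω V}

/-- The conditions. -/
def IsCk (p : IPow M (Ce M Y Ω V)) : Prop :=
  (∀ (i : Ix M Y Ω) (d : Ω) (v v' : V), (i, (d, v)) ∈ p → (i, (d, v')) ∈ p → v = v') ∧ Cb p

theorem int_isCk : Int M (IsCk (M := M) (Y := Y) (Ω := Ω) (V := V)) := by
  have h : Int M (fun s : IPow M (Ce M Y Ω V) => Cb s) := int_Cb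
  unfold IsCk
  (repeat' (first | with_reducible exact IntF.id | with_reducible exact IntF.fst' | with_reducible exact IntF.snd' | with_reducible exact IntF.const _ | with_reducible exact Int.const _ | assumption | with_reducible apply Int.and | with_reducible apply Int.or | with_reducible apply Int.not | with_reducible apply Int.imp | with_reducible apply Int.iff | with_reducible apply Int.ne | with_reducible apply Int.eq | with_reducible apply Int.mem | with_reducible apply Int.subset | with_reducible apply Int.ltN | with_reducible apply Int.leN | with_reducible_and_instances apply Int.le | with_reducible_and_instances apply Int.lt | with_reducible apply Int.all | with_reducible apply Int.ex | with_reducible apply IntF.fst | with_reducible apply IntF.snd | with_reducible apply IntF.app | with_reducible apply IntF.inl | with_reducible apply IntF.inr | with_reducible_and_instances apply IntF.mul | with_reducible_and_instances apply IntF.inv | with_reducible_and_instances apply IntF.add | with_reducible_and_instances apply IntF.sub | with_reducible_and_instances apply IntF.neg | with_reducible_and_instances apply IntF.smul | with_reducible apply Int.fin | with_reducible apply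 IntF.sep | with_reducible apply IntF.lam | with_reducible apply IntF.insert | with_reducible apply IntF.singleton | with_reducible apply IntF.union | with_reducible apply IntF.iimage | with_reducible apply IntF.ite | with_reducible apply IntF.the | with_reducible apply IntF.irec | with_reducible apply IntF.succ | with_reducible apply IntF.val | with_reducible apply IntF.mk | (with_reducible refine Int.comp ?_ ?_; assumption) | (with_reducible refine Int.comp₂ ?_ ?_ ?_; assumption) | (with_reducible refine Int.comp₃ ?_ ?_ ?_ ?_; assumption) | (with_reducible refine Int.comp₄ ?_ ?_ ?_ ?_ ?_; assumption) | (with_reducible refine IntF.comp ?_ ?_; assumption) | (with_reducible refine IntF.comp₂ ?_ ?_ ?_; assumption) | (with_reducible refine IntF.comp₃ ?_ ?_ ?_ ?_; assumption) | with_reducible apply IntF.pair))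

instance factCk : Fact (Int M (IsCk (M := M) (Y := Y) (Ω := Ω) (V := V))) := ⟨int_isCk⟩

variable (M Y Ω V) in
/-- The notion of forcing. -/
abbrev Pk : Type u := {p : IPow M (Ce M Y Ω V) // IsCk p}

instance instPre : Preorder (Pk M Y Ω V) where
  le p q := ∀ c, c ∈ q.1 → c ∈ p.1
  le_refl _ _ h := h
  le_trans _ _ _ h h' c hc := h c (h' c hc)

theorem le_pk {p q : Pk M Y Ω V} : p ≤ q ↔ ∀ c, c ∈ q.1 → c ∈ p.1 := Iff.rfl

instance instILE : ILE M (Pk M Y Ω V) where
  out := by
    change Int M (fun q : Pk M Y Ω V × Pk M Y Ω V => ∀ c, c ∈ q.2.1 → c ∈ q.1.1)
    (repeat' (first | with_reducible exact IntF.id | with_reducible exact IntF.fst' | with_reducible exact IntF.snd' | with_reducible exact IntF.const _ | with_reducible exact Int.const _ | assumption | with_reducible apply Int.and | with_reducible apply Int.or | with_reducible apply Int.not | with_reducible apply Int.imp | with_reducible apply Int.iff | with_reducible apply Int.ne | with_reducible apply Int.eq | with_reducible apply Int.mem | with_reducible apply Int.subset | with_reducible apply Int.ltN | with_reducible apply Int.leN | with_reducible_and_instances apply Int.le | with_reducible_and_instances apply Int.lt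 | with_reducible apply Int.all | with_reducible apply Int.ex | with_reducible apply IntF.fst | with_reducible apply IntF.snd | with_reducible apply IntF.app | with_reducible apply IntF.inl | with_reducible apply IntF.inr | with_reducible_and_instances apply IntF.mul | with_reducible_and_instances apply IntF.inv | with_reducible_and_instances apply IntF.add | with_reducible_and_instances apply IntF.sub | with_reducible_and_instances apply IntF.neg | with_reducible_and_instances apply IntF.smul | with_reducible apply Int.fin | with_reducible apply IntF.sep | with_reducible apply IntF.lam | with_reducible apply IntF.insert | with_reducible apply IntF.singleton | with_reducible apply IntF.union | with_reducible apply IntF.iimage | with_reducible apply IntF.ite | with_reducible apply IntF.the | with_reducible apply IntF.irec | with_reducible apply IntF.succ | with_reducible apply IntF.val | with_reducible apply IntF.mk | (with_reducible refine Int.comp ?_ ?_; assumption) | (with_reducible refine Int.comp₂ ?_ ?_ ?_; assumption) | (with_reducible refine Int.comp₃ ?_ ?_ ?_ ?_; assumption) | (with_reducible refine Int.comp₄ ?_ ?_ ?_ ?_ ?_; assumption) | (with_reducible refine IntF.comp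 ?_ ?_; assumption) | (with_reducible refine IntF.comp₂ ?_ ?_ ?_; assumption) | (with_reducible refine IntF.comp₃ ?_ ?_ ?_ ?_; assumption) | with_reducible apply IntF.pair))

variable (K : Cols M Y)

/-- The conditions for automorphisms. -/
def IsG (g : IPerm M (Ix M Y Ω)) : Prop :=
  ∃ c : IPerm M Y, K.C 0 c ∧ ∀ i, (g.1.1 i).1 = c.1.1 i.1

theorem int_isG : Int M (IsG (Ω := Ω) K) := by
  have h := K.int_C
  unfold IsG
  (repeat' (first | with_reducible exact IntF.id | with_reducible exact IntF.fst' | with_reducible exact IntF.snd' | with_reducible exact IntF.const _ | with_reducible exact Int.const _ | assumption | with_reducible apply Int.and | with_reducible apply Int.or | with_reducible apply Int.not | with_reducible apply Int.imp | with_reducible apply Int.iff | with_reducible apply Int.ne | with_reducible apply Int.eq | with_reducible apply Int.mem | with_reducible apply Int.subset | with_reducible apply Int.ltN | with_reducible apply Int.leN | with_reducible_and_instances apply Int.le | with_reducible_and_instances apply Int.lt | with_reducible apply Int.all | with_reducible apply Int.ex | with_reducible apply IntF.fst | with_reducible apply IntF.snd | with_reducible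 apply IntF.app | with_reducible apply IntF.inl | with_reducible apply IntF.inr | with_reducible_and_instances apply IntF.mul | with_reducible_and_instances apply IntF.inv | with_reducible_and_instances apply IntF.add | with_reducible_and_instances apply IntF.sub | with_reducible_and_instances apply IntF.neg | with_reducible_and_instances apply IntF.smul | with_reducible apply Int.fin | with_reducible apply IntF.sep | with_reducible apply IntF.lam | with_reducible apply IntF.insert | with_reducible apply IntF.singleton | with_reducible apply IntF.union | with_reducible apply IntF.iimage | with_reducible apply IntF.ite | with_reducible apply IntF.the | with_reducible apply IntF.irec | with_reducible apply IntF.succ | with_reducible apply IntF.val | with_reducible apply IntF.mk | (with_reducible refine Int.comp ?_ ?_; assumption) | (with_reducible refine Int.comp₂ ?_ ?_ ?_; assumption) | (with_reducible refine Int.comp₃ ?_ ?_ ?_ ?_; assumption) | (with_reducible refine Int.comp₄ ?_ ?_ ?_ ?_ ?_; assumption) | (with_reducible refine IntF.comp ?_ ?_; assumption) | (with_reducible refine IntF.comp₂ ?_ ?_ ?_; assumption) | (with_reducible refine IntF.comp₃ ?_ ?_ ?_ ?_; assumption)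 | with_reducible apply IntF.pair))

variable {K}

theorem col_mul {k : INat M} {g h : IPerm M (Ix M Y Ω)} (hg : ∃ c : IPerm M Y, K.C k c ∧
    ∀ i, (g.1.1 i).1 = c.1.1 i.1) (hh : ∃ c : IPerm M Y, K.C k c ∧ ∀ i, (h.1.1 i).1 = c.1.1 i.1) :
    ∃ c : IPerm M Y, K.C k c ∧ ∀ i, ((g * h).1.1 i).1 = c.1.1 i.1 := by
  obtain ⟨c, h1, h2⟩ := hg
  obtain ⟨c', h1', h2'⟩ := hh
  refine ⟨c * c', K.mul _ _ _ h1 h1', fun i => ?_⟩
  rw [IPerm.mul_apply, IPerm.mul_apply, h2, h2']

theorem col_inv {k : INat M} {g : IPerm M (Ix M Y Ω)} (hg : ∃ c : IPerm M Y, K.C k c ∧
    ∀ i, (g.1.1 i).1 = c.1.1 i.1) :
    ∃ c : IPerm M Y, K.C k c ∧ ∀ i, ((g⁻¹).1.1 i).1 = c.1.1 i.1 := by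
  obtain ⟨c, h1, h2⟩ := hg
  refine ⟨c⁻¹, K.inv _ _ h1, fun i => ?_⟩
  have e1 : g.1.1 (g.1.2 i) = i := g.2.1 i
  have e2 : ∀ y, c.1.2 (c.1.1 y) = y := c.2.2
  have h3 := h2 (g.1.2 i)
  rw [e1] at h3
  rw [IPerm.inv_apply, IPerm.inv_apply, h3, e2]

theorem col_one {k : INat M} : ∃ c : IPerm M Y, K.C k c ∧
    ∀ i, ((1 : IPerm M (Ix M Y Ω)).1.1 i).1 = c.1.1 i.1 :=
  ⟨1, K.one k, fun i => by rw [IPerm.one_apply, IPerm.one_apply]⟩

variable (K Ω) in
/-- The group of automorphisms. -/
def GH : Subgroup (IPerm M (Ix M Y Ω)) where
  carrier := {π | IsG K π}
  mul_mem' h h' := col_mul h h'
  one_mem' := col_one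
  inv_mem' h := col_inv h

instance factG : Fact (Int M (fun π : IPerm M (Ix M Y Ω) => π ∈ GH Ω K)) := ⟨int_isG K⟩

variable (K Ω) in
/-- The group of automorphisms. -/
abbrev Ga : Type u := {π : IPerm M (Ix M Y Ω) // π ∈ GH Ω K}

/-- The action on the indices. -/
def ap (π : Ga Ω K) : Ix M Y Ω → Ix M Y Ω := fun i => π.1.1.1 i

/-- The inverse action on the indices. -/
def api (π : Ga Ω K) : Ix M Y Ω → Ix M Y Ω := fun i => π.1.1.2 i

section

variable (π σ : Ga Ω K) (i : Ix M Y Ω)

theorem ap_api : ap π (api π i) = i := π.1.2.1 i
theorem api_ap : api π (ap π i) = i := π.1.2.2 i
theorem ap_mul : ap (π * σ) i = ap π (ap σ i) := IPerm.mul_apply _ _ _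
theorem api_mul : api (π * σ) i = api σ (api π i) := IPerm.mul_apply₂ _ _ _
theorem ap_inv : ap π⁻¹ i = api π i := rfl
theorem api_inv : api π⁻¹ i = ap π i := rfl
theorem ap_one : ap (1 : Ga Ω K) i = i := IPerm.one_apply _
theorem api_one : api (1 : Ga Ω K) i = i := IPerm.one_apply₂ _

theorem ap_inj {i j : Ix M Y Ω} (h : ap π i = ap π j) : i = j := by
  have := congrArg (api π) h
  rwa [api_ap, api_ap] at this

end

theorem int_ap : IntF M (fun q : Ga Ω K × Ix M Y Ω => ap q.1 q.2) := by
  unfold ap
  (repeat' (first | with_reducible exact IntF.id | with_reducible exact IntF.fst' | with_reducible exact IntF.snd' | with_reducible exact IntF.const _ | with_reducible exact Int.const _ | assumption | with_reducible apply Int.and | with_reducible apply Int.or | with_reducible apply Int.not | with_reducible apply Int.imp | with_reducible apply Int.iff | with_reducible apply Int.ne | with_reducible apply Int.eq | with_reducible apply Int.mem | with_reducible apply Int.subset | with_reducible apply Int.ltN | with_reducible apply Int.leN | with_reducible_and_instances apply Int.le | with_reducible_and_instances apply Int.lt | with_reducible apply Int.all | with_reducible apply Int.ex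 | with_reducible apply IntF.fst | with_reducible apply IntF.snd | with_reducible apply IntF.app | with_reducible apply IntF.inl | with_reducible apply IntF.inr | with_reducible_and_instances apply IntF.mul | with_reducible_and_instances apply IntF.inv | with_reducible_and_instances apply IntF.add | with_reducible_and_instances apply IntF.sub | with_reducible_and_instances apply IntF.neg | with_reducible_and_instances apply IntF.smul | with_reducible apply Int.fin | with_reducible apply IntF.sep | with_reducible apply IntF.lam | with_reducible apply IntF.insert | with_reducible apply IntF.singleton | with_reducible apply IntF.union | with_reducible apply IntF.iimage | with_reducible apply IntF.ite | with_reducible apply IntF.the | with_reducible apply IntF.irec | with_reducible apply IntF.succ | with_reducible apply IntF.val | with_reducible apply IntF.mk | (with_reducible refine Int.comp ?_ ?_; assumption) | (with_reducible refine Int.comp₂ ?_ ?_ ?_; assumption) | (with_reducible refine Int.comp₃ ?_ ?_ ?_ ?_; assumption) | (with_reducible refine Int.comp₄ ?_ ?_ ?_ ?_ ?_; assumption) | (with_reducible refine IntF.comp ?_ ?_; assumption) | (with_reducible refine IntF.comp₂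 ?_ ?_ ?_; assumption) | (with_reducible refine IntF.comp₃ ?_ ?_ ?_ ?_; assumption) | with_reducible apply IntF.pair))

theorem int_api : IntF M (fun q : Ga Ω K × Ix M Y Ω => api q.1 q.2) := by
  unfold api
  (repeat' (first | with_reducible exact IntF.id | with_reducible exact IntF.fst' | with_reducible exact IntF.snd' | with_reducible exact IntF.const _ | with_reducible exact Int.const _ | assumption | with_reducible apply Int.and | with_reducible apply Int.or | with_reducible apply Int.not | with_reducible apply Int.imp | with_reducible apply Int.iff | with_reducible apply Int.ne | with_reducible apply Int.eq | with_reducible apply Int.mem | with_reducible apply Int.subset | with_reducible apply Int.ltN | with_reducible apply Int.leN | with_reducible_and_instances apply Int.le | with_reducible_and_instances apply Int.lt | with_reducible apply Int.all | with_reducible apply Int.ex | with_reducible apply IntF.fst | with_reducible apply IntF.snd | with_reducible apply IntF.app | with_reducible apply IntF.inl | with_reducible apply IntF.inr | with_reducible_and_instances apply IntF.mul | with_reducible_and_instances apply IntF.inv | with_reducible_and_instances apply IntF.add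 | with_reducible_and_instances apply IntF.sub | with_reducible_and_instances apply IntF.neg | with_reducible_and_instances apply IntF.smul | with_reducible apply Int.fin | with_reducible apply IntF.sep | with_reducible apply IntF.lam | with_reducible apply IntF.insert | with_reducible apply IntF.singleton | with_reducible apply IntF.union | with_reducible apply IntF.iimage | with_reducible apply IntF.ite | with_reducible apply IntF.the | with_reducible apply IntF.irec | with_reducible apply IntF.succ | with_reducible apply IntF.val | with_reducible apply IntF.mk | (with_reducible refine Int.comp ?_ ?_; assumption) | (with_reducible refine Int.comp₂ ?_ ?_ ?_; assumption) | (with_reducible refine Int.comp₃ ?_ ?_ ?_ ?_; assumption) | (with_reducible refine Int.comp₄ ?_ ?_ ?_ ?_ ?_; assumption) | (with_reducible refine IntF.comp ?_ ?_; assumption) | (with_reducible refine IntF.comp₂ ?_ ?_ ?_; assumption) | (with_reducible refine IntF.comp₃ ?_ ?_ ?_ ?_; assumption) | with_reducible apply IntF.pair))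

instance instMul : IMul M (Ga Ω K) where
  out := by
    refine IntF.mk ?_
    have h : IntF M (fun q : Ga Ω K × Ga Ω K => q.1.1 * q.2.1) := by
      (repeat' (first | with_reducible exact IntF.id | with_reducible exact IntF.fst' | with_reducible exact IntF.snd' | with_reducible exact IntF.const _ | with_reducible exact Int.const _ | assumption | with_reducible apply Int.and | with_reducible apply Int.or | with_reducible apply Int.not | with_reducible apply Int.imp | with_reducible apply Int.iff | with_reducible apply Int.ne | with_reducible apply Int.eq | with_reducible apply Int.mem | with_reducible apply Int.subset | with_reducible apply Int.ltN | with_reducible apply Int.leN | with_reducible_and_instances apply Int.le | with_reducible_and_instances apply Int.lt | with_reducible apply Int.all | with_reducible apply Int.ex | with_reducible apply IntF.fst | with_reducible apply IntF.snd | with_reducible apply IntF.app | with_reducible apply IntF.inl | with_reducible apply IntF.inr | with_reducible_and_instances apply IntF.mul | with_reducible_and_instances apply IntF.inv | with_reducible_and_instances apply IntF.add | with_reducible_and_instances apply IntF.sub | with_reducible_and_instances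 apply IntF.neg | with_reducible_and_instances apply IntF.smul | with_reducible apply Int.fin | with_reducible apply IntF.sep | with_reducible apply IntF.lam | with_reducible apply IntF.insert | with_reducible apply IntF.singleton | with_reducible apply IntF.union | with_reducible apply IntF.iimage | with_reducible apply IntF.ite | with_reducible apply IntF.the | with_reducible apply IntF.irec | with_reducible apply IntF.succ | with_reducible apply IntF.val | with_reducible apply IntF.mk | (with_reducible refine Int.comp ?_ ?_; assumption) | (with_reducible refine Int.comp₂ ?_ ?_ ?_; assumption) | (with_reducible refine Int.comp₃ ?_ ?_ ?_ ?_; assumption) | (with_reducible refine Int.comp₄ ?_ ?_ ?_ ?_ ?_; assumption) | (with_reducible refine IntF.comp ?_ ?_; assumption) | (with_reducible refine IntF.comp₂ ?_ ?_ ?_; assumption) | (with_reducible refine IntF.comp₃ ?_ ?_ ?_ ?_; assumption) | with_reducible apply IntF.pair))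
    exact h

instance instInv : IInv M (Ga Ω K) where
  out := by
    refine IntF.mk ?_
    have h : IntF M (fun q : Ga Ω K => q.1⁻¹) := by
      (repeat' (first | with_reducible exact IntF.id | with_reducible exact IntF.fst' | with_reducible exact IntF.snd' | with_reducible exact IntF.const _ | with_reducible exact Int.const _ | assumption | with_reducible apply Int.and | with_reducible apply Int.or | with_reducible apply Int.not | with_reducible apply Int.imp | with_reducible apply Int.iff | with_reducible apply Int.ne | with_reducible apply Int.eq | with_reducible apply Int.mem | with_reducible apply Int.subset | with_reducible apply Int.ltN | with_reducible apply Int.leN | with_reducible_and_instances apply Int.le | with_reducible_and_instances apply Int.lt | with_reducible apply Int.all | with_reducible apply Int.ex | with_reducible apply IntF.fst | with_reducible apply IntF.snd | with_reducible apply IntF.app | with_reducible apply IntF.inl | with_reducible apply IntF.inr | with_reducible_and_instances apply IntF.mul | with_reducible_and_instances apply IntF.inv | with_reducible_and_instances apply IntF.add | with_reducible_and_instances apply IntF.sub | with_reducible_and_instances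 apply IntF.neg | with_reducible_and_instances apply IntF.smul | with_reducible apply Int.fin | with_reducible apply IntF.sep | with_reducible apply IntF.lam | with_reducible apply IntF.insert | with_reducible apply IntF.singleton | with_reducible apply IntF.union | with_reducible apply IntF.iimage | with_reducible apply IntF.ite | with_reducible apply IntF.the | with_reducible apply IntF.irec | with_reducible apply IntF.succ | with_reducible apply IntF.val | with_reducible apply IntF.mk | (with_reducible refine Int.comp ?_ ?_; assumption) | (with_reducible refine Int.comp₂ ?_ ?_ ?_; assumption) | (with_reducible refine Int.comp₃ ?_ ?_ ?_ ?_; assumption) | (with_reducible refine Int.comp₄ ?_ ?_ ?_ ?_ ?_; assumption) | (with_reducible refine IntF.comp ?_ ?_; assumption) | (with_reducible refine IntF.comp₂ ?_ ?_ ?_; assumption) | (with_reducible refine IntF.comp₃ ?_ ?_ ?_ ?_; assumption) | with_reducible apply IntF.pair))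
    exact h

theorem int_smul_aux (π : Ga Ω K) (p : Pk M Y Ω V) :
    Int M (fun c : Ce M Y Ω V => (api π c.1, c.2) ∈ p.1) := by
  have h : IntF M (fun q : Ga Ω K × Ix M Y Ω => api q.1 q.2) := int_api
  (repeat' (first | with_reducible exact IntF.id | with_reducible exact IntF.fst' | with_reducible exact IntF.snd' | with_reducible exact IntF.const _ | with_reducible exact Int.const _ | assumption | with_reducible apply Int.and | with_reducible apply Int.or | with_reducible apply Int.not | with_reducible apply Int.imp | with_reducible apply Int.iff | with_reducible apply Int.ne | with_reducible apply Int.eq | with_reducible apply Int.mem | with_reducible apply Int.subset | with_reducible apply Int.ltN | with_reducible apply Int.leN | with_reducible_and_instances apply Int.le | with_reducible_and_instances apply Int.lt | with_reducible apply Int.all | with_reducible apply Int.ex | with_reducible apply IntF.fst | with_reducible apply IntF.snd | with_reducible apply IntF.app | with_reducible apply IntF.inl | with_reducible apply IntF.inr | with_reducible_and_instances apply IntF.mul | with_reducible_and_instances apply IntF.inv | with_reducible_and_instances apply IntF.add |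 with_reducible_and_instances apply IntF.sub | with_reducible_and_instances apply IntF.neg | with_reducible_and_instances apply IntF.smul | with_reducible apply Int.fin | with_reducible apply IntF.sep | with_reducible apply IntF.lam | with_reducible apply IntF.insert | with_reducible apply IntF.singleton | with_reducible apply IntF.union | with_reducible apply IntF.iimage | with_reducible apply IntF.ite | with_reducible apply IntF.the | with_reducible apply IntF.irec | with_reducible apply IntF.succ | with_reducible apply IntF.val | with_reducible apply IntF.mk | (with_reducible refine Int.comp ?_ ?_; assumption) | (with_reducible refine Int.comp₂ ?_ ?_ ?_; assumption) | (with_reducible refine Int.comp₃ ?_ ?_ ?_ ?_; assumption) | (with_reducible refine Int.comp₄ ?_ ?_ ?_ ?_ ?_; assumption) | (with_reducible refine IntF.comp ?_ ?_; assumption) | (with_reducible refine IntF.comp₂ ?_ ?_ ?_; assumption) | (with_reducible refine IntF.comp₃ ?_ ?_ ?_ ?_; assumption) | with_reducible apply IntF.pair))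

theorem smul_cond (π : Ga Ω K) (p : Pk M Y Ω V) :
    IsCk (sep M fun c : Ce M Y Ω V => (api π c.1, c.2) ∈ p.1) := by
  have hI := int_smul_aux π p
  obtain ⟨h1, h2⟩ := p.2
  constructor
  · intro i d v v' hd hd'
    exact h1 _ _ _ _ ((mem_sep hI).1 hd) ((mem_sep hI).1 hd')
  · have hs : IntF M (fun c : Ce M Y Ω V => (ap π c.1, c.2)) := by
      have h : IntF M (fun q : Ga Ω K × Ix M Y Ω => ap q.1 q.2) := int_ap
      (repeat' (first | with_reducible exact IntF.id | with_reducible exact IntF.fst' | with_reducible exact IntF.snd' | with_reducible exact IntF.const _ | with_reducible exact Int.const _ | assumption | with_reducible apply Int.and | with_reducible apply Int.or | with_reducible apply Int.not | with_reducible apply Int.imp | with_reducible apply Int.iff | with_reducible apply Int.ne | with_reducible apply Int.eq | with_reducible apply Int.mem | with_reducible apply Int.subset | with_reducible apply Int.ltN | with_reducible apply Int.leN | with_reducible_and_instances apply Int.le | with_reducible_and_instances apply Int.lt | with_reducible apply Int.all | with_reducible apply Int.ex | with_reducible apply IntF.fst | with_reducible apply IntF.snd | with_reducible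 apply IntF.app | with_reducible apply IntF.inl | with_reducible apply IntF.inr | with_reducible_and_instances apply IntF.mul | with_reducible_and_instances apply IntF.inv | with_reducible_and_instances apply IntF.add | with_reducible_and_instances apply IntF.sub | with_reducible_and_instances apply IntF.neg | with_reducible_and_instances apply IntF.smul | with_reducible apply Int.fin | with_reducible apply IntF.sep | with_reducible apply IntF.lam | with_reducible apply IntF.insert | with_reducible apply IntF.singleton | with_reducible apply IntF.union | with_reducible apply IntF.iimage | with_reducible apply IntF.ite | with_reducible apply IntF.the | with_reducible apply IntF.irec | with_reducible apply IntF.succ | with_reducible apply IntF.val | with_reducible apply IntF.mk | (with_reducible refine Int.comp ?_ ?_; assumption) | (with_reducible refine Int.comp₂ ?_ ?_ ?_; assumption) | (with_reducible refine Int.comp₃ ?_ ?_ ?_ ?_; assumption) | (with_reducible refine Int.comp₄ ?_ ?_ ?_ ?_ ?_; assumption) | (with_reducible refine IntF.comp ?_ ?_; assumption) | (with_reducible refine IntF.comp₂ ?_ ?_ ?_; assumption) | (with_reducible refine IntF.comp₃ ?_ ?_ ?_ ?_; assumption)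 | with_reducible apply IntF.pair))
    refine (h2.image hs).sub fun c hc => ?_
    rw [mem_sep hI] at hc
    rw [mem_iimage hs]
    exact ⟨_, hc, Prod.ext (ap_api π c.1) rfl⟩

noncomputable instance instSMul : SMul (Ga Ω K) (Pk M Y Ω V) :=
  ⟨fun π p => ⟨sep M fun c : Ce M Y Ω V => (api π c.1, c.2) ∈ p.1, smul_cond π p⟩⟩

theorem mem_smul' {π : Ga Ω K} {p : Pk M Y Ω V} {c : Ce M Y Ω V} :
    c ∈ (π • p).1 ↔ (api π c.1, c.2) ∈ p.1 := mem_sep (int_smul_aux π p)

theorem mem_smul₂ {π : Ga Ω K} {p : Pk M Y Ω V} {i : Ix M Y Ω} {w : Ω × V} :
    (i, w) ∈ (π • p).1 ↔ (api π i, w) ∈ p.1 := mem_smul'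

theorem ap_mem_smul {π : Ga Ω K} {p : Pk M Y Ω V} {i : Ix M Y Ω} {w : Ω × V} :
    (ap π i, w) ∈ (π • p).1 ↔ (i, w) ∈ p.1 := by
  rw [mem_smul₂, api_ap]

noncomputable instance instAct : MulAction (Ga Ω K) (Pk M Y Ω V) where
  one_smul p := Subtype.ext (IPow.ext' fun c => by rw [mem_smul', api_one])
  mul_smul π σ p := Subtype.ext (IPow.ext' fun c => by
    rw [mem_smul', mem_smul', mem_smul', api_mul])

instance instISMul : ISMul M (Ga Ω K) (Pk M Y Ω V) where
  out := by
    have h : IntF M (fun q : Ga Ω K × Ix M Y Ω => api q.1 q.2) := int_api
    refine IntF.of_rel (r := fun (q : Ga Ω K × Pk M Y Ω V) (p : Pk M Y Ω V) =>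
      ∀ c : Ce M Y Ω V, c ∈ p.1 ↔ (api q.1 c.1, c.2) ∈ q.2.1) (by (repeat' (first | with_reducible exact IntF.id | with_reducible exact IntF.fst' | with_reducible exact IntF.snd' | with_reducible exact IntF.const _ | with_reducible exact Int.const _ | assumption | with_reducible apply Int.and | with_reducible apply Int.or | with_reducible apply Int.not | with_reducible apply Int.imp | with_reducible apply Int.iff | with_reducible apply Int.ne | with_reducible apply Int.eq | with_reducible apply Int.mem | with_reducible apply Int.subset | with_reducible apply Int.ltN | with_reducible apply Int.leN | with_reducible_and_instances apply Int.le | with_reducible_and_instances apply Int.lt | with_reducible apply Int.all | with_reducible apply Int.ex | with_reducible apply IntF.fst | with_reducible apply IntF.snd | with_reducible apply IntF.app | with_reducible apply IntF.inl | with_reducible apply IntF.inr | with_reducible_and_instances apply IntF.mul | with_reducible_and_instances apply IntF.inv | with_reducible_and_instances apply IntF.add | with_reducible_and_instances apply IntF.sub | with_reducible_and_instances apply IntF.neg | with_reducible_and_instances apply IntF.smul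 | with_reducible apply Int.fin | with_reducible apply IntF.sep | with_reducible apply IntF.lam | with_reducible apply IntF.insert | with_reducible apply IntF.singleton | with_reducible apply IntF.union | with_reducible apply IntF.iimage | with_reducible apply IntF.ite | with_reducible apply IntF.the | with_reducible apply IntF.irec | with_reducible apply IntF.succ | with_reducible apply IntF.val | with_reducible apply IntF.mk | (with_reducible refine Int.comp ?_ ?_; assumption) | (with_reducible refine Int.comp₂ ?_ ?_ ?_; assumption) | (with_reducible refine Int.comp₃ ?_ ?_ ?_ ?_; assumption) | (with_reducible refine Int.comp₄ ?_ ?_ ?_ ?_ ?_; assumption) | (with_reducible refine IntF.comp ?_ ?_; assumption) | (with_reducible refine IntF.comp₂ ?_ ?_ ?_; assumption) | (with_reducible refine IntF.comp₃ ?_ ?_ ?_ ?_; assumption) | with_reducible apply IntF.pair))) fun q p => ?_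
    constructor
    · intro h1
      exact Subtype.ext (IPow.ext' fun c => mem_smul'.trans (h1 c).symm)
    · rintro rfl c
      exact mem_smul'

variable (M Y Ω) in
/-- The supports. -/
abbrev Su : Type u := INat M × {S : IPow M (Ix M Y Ω) // Cb S}

/-- The part of the support in the low levels. -/
def La (K : Cols M Y) (l : Su M Y Ω) (i : Ix M Y Ω) : Prop := K.lev i.1 < l.1 ∧ i ∈ l.2.1

theorem int_La : Int M (fun q : Su M Y Ω × Ix M Y Ω => La K q.1 q.2) := by
  have h := K.int_lev
  unfold La
  (repeat' (first | with_reducible exact IntF.id | with_reducible exact IntF.fst' | with_reducible exact IntF.snd' | with_reducible exact IntF.const _ | with_reducible exact Int.const _ | assumption | with_reducible apply Int.and | with_reducible apply Int.or | with_reducible apply Int.not | with_reducible apply Int.imp | with_reducible apply Int.iff | with_reducible apply Int.ne | with_reducible apply Int.eq | with_reducible apply Int.mem | with_reducible apply Int.subset | with_reducible apply Int.ltN | with_reducible apply Int.leN | with_reducible_and_instances apply Int.le | with_reducible_and_instances apply Int.lt | with_reducible apply Int.all | with_reducible apply Int.ex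 | with_reducible apply IntF.fst | with_reducible apply IntF.snd | with_reducible apply IntF.app | with_reducible apply IntF.inl | with_reducible apply IntF.inr | with_reducible_and_instances apply IntF.mul | with_reducible_and_instances apply IntF.inv | with_reducible_and_instances apply IntF.add | with_reducible_and_instances apply IntF.sub | with_reducible_and_instances apply IntF.neg | with_reducible_and_instances apply IntF.smul | with_reducible apply Int.fin | with_reducible apply IntF.sep | with_reducible apply IntF.lam | with_reducible apply IntF.insert | with_reducible apply IntF.singleton | with_reducible apply IntF.union | with_reducible apply IntF.iimage | with_reducible apply IntF.ite | with_reducible apply IntF.the | with_reducible apply IntF.irec | with_reducible apply IntF.succ | with_reducible apply IntF.val | with_reducible apply IntF.mk | (with_reducible refine Int.comp ?_ ?_; assumption) | (with_reducible refine Int.comp₂ ?_ ?_ ?_; assumption) | (with_reducible refine Int.comp₃ ?_ ?_ ?_ ?_; assumption) | (with_reducible refine Int.comp₄ ?_ ?_ ?_ ?_ ?_; assumption) | (with_reducible refine IntF.comp ?_ ?_; assumption) | (with_reducible refine IntF.comp₂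 ?_ ?_ ?_; assumption) | (with_reducible refine IntF.comp₃ ?_ ?_ ?_ ?_; assumption) | with_reducible apply IntF.pair))

/-- The columns are moved by `c`. -/
def Co (π : Ga Ω K) (c : IPerm M Y) : Prop := ∀ i, (ap π i).1 = c.1.1 i.1

theorem int_Co : Int M (fun q : Ga Ω K × IPerm M Y => Co q.1 q.2) := by
  have h : IntF M (fun q : Ga Ω K × Ix M Y Ω => ap q.1 q.2) := int_ap
  unfold Co
  (repeat' (first | with_reducible exact IntF.id | with_reducible exact IntF.fst' | with_reducible exact IntF.snd' | with_reducible exact IntF.const _ | with_reducible exact Int.const _ | assumption | with_reducible apply Int.and | with_reducible apply Int.or | with_reducible apply Int.not | with_reducible apply Int.imp | with_reducible apply Int.iff | with_reducible apply Int.ne | with_reducible apply Int.eq | with_reducible apply Int.mem | with_reducible apply Int.subset | with_reducible apply Int.ltN | with_reducible apply Int.leN | with_reducible_and_instances apply Int.le | with_reducible_and_instances apply Int.lt | with_reducible apply Int.all | with_reducible apply Int.ex | with_reducible apply IntF.fst | with_reducible apply IntF.snd | with_reducible apply IntF.app | with_reducible apply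 IntF.inl | with_reducible apply IntF.inr | with_reducible_and_instances apply IntF.mul | with_reducible_and_instances apply IntF.inv | with_reducible_and_instances apply IntF.add | with_reducible_and_instances apply IntF.sub | with_reducible_and_instances apply IntF.neg | with_reducible_and_instances apply IntF.smul | with_reducible apply Int.fin | with_reducible apply IntF.sep | with_reducible apply IntF.lam | with_reducible apply IntF.insert | with_reducible apply IntF.singleton | with_reducible apply IntF.union | with_reducible apply IntF.iimage | with_reducible apply IntF.ite | with_reducible apply IntF.the | with_reducible apply IntF.irec | with_reducible apply IntF.succ | with_reducible apply IntF.val | with_reducible apply IntF.mk | (with_reducible refine Int.comp ?_ ?_; assumption) | (with_reducible refine Int.comp₂ ?_ ?_ ?_; assumption) | (with_reducible refine Int.comp₃ ?_ ?_ ?_ ?_; assumption) | (with_reducible refine Int.comp₄ ?_ ?_ ?_ ?_ ?_; assumption) | (with_reducible refine IntF.comp ?_ ?_; assumption) | (with_reducible refine IntF.comp₂ ?_ ?_ ?_; assumption) | (with_reducible refine IntF.comp₃ ?_ ?_ ?_ ?_; assumption) | with_reducible apply IntF.pair))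

/-- The subgroups. -/
def Uk (l : Su M Y Ω) (π : Ga Ω K) : Prop :=
  (∃ c : IPerm M Y, K.C l.1 c ∧ Co π c) ∧ ∀ i, La K l i → ap π i = i

theorem exists_col (π : Ga Ω K) : ∃ c : IPerm M Y, K.C 0 c ∧ Co π c := π.2

theorem zero_le_nat (k : INat M) : (0 : INat M) ≤ k := by
  rcases le_total (0 : INat M) k with h | h
  · exact h
  · rcases h.lt_or_eq with h | h
    · exact (INat.not_lt_zero h).elim
    · rw [h]

theorem int_Uk : Int M (fun q : Su M Y Ω × Ga Ω K => Uk q.1 q.2) := by
  have h1 : IntF M (fun q : Ga Ω K × Ix M Y Ω => ap q.1 q.2) := int_ap
  have h2 : Int M (fun q : Ga Ω K × IPerm M Y => Co q.1 q.2) := int_Co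
  have h3 : Int M (fun q : Su M Y Ω × Ix M Y Ω => La K q.1 q.2) := int_La
  have h4 := K.int_C
  unfold Uk
  (repeat' (first | with_reducible exact IntF.id | with_reducible exact IntF.fst' | with_reducible exact IntF.snd' | with_reducible exact IntF.const _ | with_reducible exact Int.const _ | assumption | with_reducible apply Int.and | with_reducible apply Int.or | with_reducible apply Int.not | with_reducible apply Int.imp | with_reducible apply Int.iff | with_reducible apply Int.ne | with_reducible apply Int.eq | with_reducible apply Int.mem | with_reducible apply Int.subset | with_reducible apply Int.ltN | with_reducible apply Int.leN | with_reducible_and_instances apply Int.le | with_reducible_and_instances apply Int.lt | with_reducible apply Int.all | with_reducible apply Int.ex | with_reducible apply IntF.fst | with_reducible apply IntF.snd | with_reducible apply IntF.app | with_reducible apply IntF.inl | with_reducible apply IntF.inr | with_reducible_and_instances apply IntF.mul | with_reducible_and_instances apply IntF.inv | with_reducible_and_instances apply IntF.add | with_reducible_and_instances apply IntF.sub | with_reducible_and_instances apply IntF.neg | with_reducible_and_instances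 apply IntF.smul | with_reducible apply Int.fin | with_reducible apply IntF.sep | with_reducible apply IntF.lam | with_reducible apply IntF.insert | with_reducible apply IntF.singleton | with_reducible apply IntF.union | with_reducible apply IntF.iimage | with_reducible apply IntF.ite | with_reducible apply IntF.the | with_reducible apply IntF.irec | with_reducible apply IntF.succ | with_reducible apply IntF.val | with_reducible apply IntF.mk | (with_reducible refine Int.comp ?_ ?_; assumption) | (with_reducible refine Int.comp₂ ?_ ?_ ?_; assumption) | (with_reducible refine Int.comp₃ ?_ ?_ ?_ ?_; assumption) | (with_reducible refine Int.comp₄ ?_ ?_ ?_ ?_ ?_; assumption) | (with_reducible refine IntF.comp ?_ ?_; assumption) | (with_reducible refine IntF.comp₂ ?_ ?_ ?_; assumption) | (with_reducible refine IntF.comp₃ ?_ ?_ ?_ ?_; assumption) | with_reducible apply IntF.pair))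

variable (K Ω V) in
/-- The symmetric system. -/
noncomputable def Sk : SymSys M (Pk M Y Ω V) (Ga Ω K) (Su M Y Ω) where
  smul_le π p q h c hc := mem_smul'.2 (h _ (mem_smul'.1 hc))
  U := Uk
  int_U := int_Uk
  nonempty := ⟨(0, ⟨∅, Cb.empty⟩)⟩
  one l := ⟨⟨1, K.one _, fun i => by rw [ap_one, IPerm.one_apply]⟩, fun i _ => ap_one i⟩
  mul l a b ha hb := by
    refine ⟨col_mul ha.1 hb.1, fun i hi => ?_⟩
    rw [ap_mul, hb.2 i hi, ha.2 i hi]
  inv l a ha := by
    refine ⟨col_inv ha.1, fun i hi => ?_⟩
    have h := congrArg (api a) (ha.2 i hi)
    rw [api_ap] at h
    rw [ap_inv]
    exact h.symm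
  dir l l' := by
    rcases le_total l.1 l'.1 with h | h
    · refine ⟨(l'.1, ⟨l.2.1 ∪ l'.2.1, l.2.2.union l'.2.2⟩), fun a ha => ⟨?_, ?_⟩⟩
      · obtain ⟨⟨c, h1, h2⟩, h3⟩ := ha
        exact ⟨⟨c, K.anti _ _ _ h h1, h2⟩, fun i hi =>
          h3 i ⟨lt_of_lt_of_le hi.1 h, mem_union.2 (Or.inl hi.2)⟩⟩
      · obtain ⟨⟨c, h1, h2⟩, h3⟩ := ha
        exact ⟨⟨c, h1, h2⟩, fun i hi => h3 i ⟨hi.1, mem_union.2 (Or.inr hi.2)⟩⟩
    · refine ⟨(l.1, ⟨l.2.1 ∪ l'.2.1, l.2.2.union l'.2.2⟩), fun a ha => ⟨?_, ?_⟩⟩
      · obtain ⟨⟨c, h1, h2⟩, h3⟩ := ha
        exact ⟨⟨c, h1, h2⟩, fun i hi => h3 i ⟨hi.1, mem_union.2 (Or.inl hi.2)⟩⟩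
      · obtain ⟨⟨c, h1, h2⟩, h3⟩ := ha
        exact ⟨⟨c, K.anti _ _ _ h h1, h2⟩, fun i hi =>
          h3 i ⟨lt_of_lt_of_le hi.1 h, mem_union.2 (Or.inr hi.2)⟩⟩
  conj π l := by
    have hI : IntF M (fun i : Ix M Y Ω => ap π i) := by
      have h : IntF M (fun q : Ga Ω K × Ix M Y Ω => ap q.1 q.2) := int_ap
      (repeat' (first | with_reducible exact IntF.id | with_reducible exact IntF.fst' | with_reducible exact IntF.snd' | with_reducible exact IntF.const _ | with_reducible exact Int.const _ | assumption | with_reducible apply Int.and | with_reducible apply Int.or | with_reducible apply Int.not | with_reducible apply Int.imp | with_reducible apply Int.iff | with_reducible apply Int.ne | with_reducible apply Int.eq | with_reducible apply Int.mem | with_reducible apply Int.subset | with_reducible apply Int.ltN | with_reducible apply Int.leN | with_reducible_and_instances apply Int.le | with_reducible_and_instances apply Int.lt | with_reducible apply Int.all | with_reducible apply Int.ex | with_reducible apply IntF.fst | with_reducible apply IntF.snd | with_reducible apply IntF.app | with_reducible apply IntF.inl | with_reducible apply IntF.inr | with_reducible_and_instances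 apply IntF.mul | with_reducible_and_instances apply IntF.inv | with_reducible_and_instances apply IntF.add | with_reducible_and_instances apply IntF.sub | with_reducible_and_instances apply IntF.neg | with_reducible_and_instances apply IntF.smul | with_reducible apply Int.fin | with_reducible apply IntF.sep | with_reducible apply IntF.lam | with_reducible apply IntF.insert | with_reducible apply IntF.singleton | with_reducible apply IntF.union | with_reducible apply IntF.iimage | with_reducible apply IntF.ite | with_reducible apply IntF.the | with_reducible apply IntF.irec | with_reducible apply IntF.succ | with_reducible apply IntF.val | with_reducible apply IntF.mk | (with_reducible refine Int.comp ?_ ?_; assumption) | (with_reducible refine Int.comp₂ ?_ ?_ ?_; assumption) | (with_reducible refine Int.comp₃ ?_ ?_ ?_ ?_; assumption) | (with_reducible refine Int.comp₄ ?_ ?_ ?_ ?_ ?_; assumption) | (with_reducible refine IntF.comp ?_ ?_; assumption) | (with_reducible refine IntF.comp₂ ?_ ?_ ?_; assumption) | (with_reducible refine IntF.comp₃ ?_ ?_ ?_ ?_; assumption) | with_reducible apply IntF.pair))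
    refine ⟨(l.1, ⟨iimage (ap π) l.2.1, l.2.2.image hI⟩), fun a ha => ⟨?_, fun i hi => ?_⟩⟩
    · obtain ⟨⟨c, h1, h2⟩, h3⟩ := ha
      obtain ⟨d, h4, h5⟩ := exists_col π
      refine ⟨d⁻¹ * c * d, K.conj _ _ _ h4 h1, fun i => ?_⟩
      rw [ap_mul, ap_mul, IPerm.mul_apply, IPerm.mul_apply, ← h5, ← h2]
      have h6 := h5 (ap π⁻¹ (ap a (ap π i)))
      rw [ap_inv, ap_api] at h6
      rw [h6, ap_inv, IPerm.inv_apply, d.2.2]
    · rw [ap_mul, ap_mul, ha.2, ap_inv, api_ap]
      obtain ⟨d, h4, h5⟩ := exists_col π
      refine ⟨?_, (mem_iimage hI).2 ⟨i, hi.2, rfl⟩⟩
      rw [h5, K.lev_eq d h4]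
      exact hi.1

theorem Sk_U {l : Su M Y Ω} {π : Ga Ω K} : (Sk Ω V K).U l π ↔
    (∃ c : IPerm M Y, K.C l.1 c ∧ Co π c) ∧ ∀ i, La K l i → ap π i = i := Iff.rfl

end Pool.Agent.Helper672.ZFA.V246K
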