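import Pool.Agent.H310R3.NA8
import Pool.Agent.H310R3.Bridge

/-!
# Internal well-orders
-/

set_option maxHeartbeats 1000000
set_option linter.all false
set_option synthInstance.maxSize 2000

namespace Pool.Agent.Helper672.ZFA.V246

open FirstOrder FirstOrder.Language
open H635 (IWO)
open Pool.Agent.H310

universe u u₁ u₂ u₃

section

variable {N : Type u} [L.Structure N] [hN : IsModel N]
variable {α β γ : Type u} [ITy N α] [ITy N β] [ITy N γ]
variable {lt : α → α → Prop} (h : IWO N α lt)

include h

theorem iwo_irrefl (a : α) : ¬ lt a a := by
  obtain ⟨b, h1, h2⟩ := h.wf {a} ⟨a, mem_singleton.2 rfl⟩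
  rw [mem_singleton] at h1
  subst h1
  exact h2 b (mem_singleton.2 rfl)

theorem iwo_asymm {a b : α} (h1 : lt a b) (h2 : lt b a) : False := by
  obtain ⟨c, h3, h4⟩ := h.wf (insert a {b}) ⟨a, mem_insert.2 (Or.inl rfl)⟩
  rcases mem_insert.1 h3 with rfl | h5
  · exact h4 b (mem_insert.2 (Or.inr (mem_singleton.2 rfl))) h2
  · rw [mem_singleton] at h5
    subst h5
    exact h4 a (mem_insert.2 (Or.inl rfl)) h1

theorem iwo_trans {a b c : α} (h1 : lt a b) (h2 : lt b c) : lt a c := by
  rcases h.tri a c with h3 | rfl | h3
  · exact h3
  · exact (iwo_asymm h h1 h2).elim
  · obtain ⟨d, h4, h5⟩ := h.wf (insert a (insert b {c})) ⟨a, mem_insert.2 (Or.inl rfl)⟩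
    rcases mem_insert.1 h4 with rfl | h6
    · exact (h5 c (mem_insert.2 (Or.inr (mem_insert.2 (Or.inr (mem_singleton.2 rfl))))) h3).elim
    · rcases mem_insert.1 h6 with rfl | h6
      · exact (h5 a (mem_insert.2 (Or.inl rfl)) h1).elim
      · rw [mem_singleton] at h6
        subst h6
        exact (h5 b (mem_insert.2 (Or.inr (mem_insert.2 (Or.inl rfl)))) h2).elim

/-- Least elements of internal predicates. -/
theorem iwo_least {p : α → Prop} (hp : Int N p) (hne : ∃ a, p a) :
    ∃ a, p a ∧ ∀ b, p b → ¬ lt b a := by
  obtain ⟨a, ha⟩ := hne
  obtain ⟨b, h1, h2⟩ := h.wf (sep N p) ⟨a, (mem_sep hp).2 ha⟩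
  exact ⟨b, (mem_sep hp).1 h1, fun c hc => h2 c ((mem_sep hp).2 hc)⟩

/-- Induction along an internal well-order. -/
theorem iwo_ind {p : α → Prop} (hp : Int N p) (hi : ∀ a, (∀ b, lt b a → p b) → p a) (a : α) :
    p a := by
  by_contra hc
  obtain ⟨b, h1, h2⟩ := iwo_least h (p := fun a => ¬ p a) hp.not ⟨a, hc⟩
  refine h1 (hi b fun c hcb => ?_)
  by_contra h3
  exact h2 c h3 hcb

/-- The function that chooses least elements. -/
theorem exists_lf {r : γ → α → Prop} (hr : Int N (fun q : γ × α => r q.1 q.2)) (d : α) :
    ∃ φ : γ → α, IntF N φ ∧ ∀ c, (∃ a, r c a) → r c (φ c) ∧ ∀ a, r c a → ¬ lt a (φ c) := by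
  have hlt := h.int
  have hI : Int N (fun q : γ × α => r q.1 q.2 ∧ ∀ b, r q.1 b → ¬ lt b q.2) := by (repeat' (first | with_reducible exact IntF.id | with_reducible exact IntF.fst' | with_reducible exact IntF.snd' | with_reducible exact IntF.const _ | with_reducible exact Int.const _ | assumption | with_reducible apply Int.and | with_reducible apply Int.or | with_reducible apply Int.not | with_reducible apply Int.imp | with_reducible apply Int.iff | with_reducible apply Int.ne | with_reducible apply Int.eq | with_reducible apply Int.mem | with_reducible apply Int.subset | with_reducible apply Int.ltN | with_reducible apply Int.leN | with_reducible_and_instances apply Int.le | with_reducible_and_instances apply Int.lt | with_reducible apply Int.all | with_reducible apply Int.ex | with_reducible apply IntF.fst | with_reducible apply IntF.snd | with_reducible apply IntF.app | with_reducible apply IntF.inl | with_reducible apply IntF.inr | with_reducible_and_instances apply IntF.mul | with_reducible_and_instances apply IntF.inv | with_reducible_and_instances apply IntF.add | with_reducible_and_instances apply IntF.sub | with_reducible_and_instances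 apply IntF.neg | with_reducible_and_instances apply IntF.smul | with_reducible apply Int.fin | with_reducible apply IntF.sep | with_reducible apply IntF.lam | with_reducible apply IntF.insert | with_reducible apply IntF.singleton | with_reducible apply IntF.union | with_reducible apply IntF.iimage | with_reducible apply IntF.ite | with_reducible apply IntF.the | with_reducible apply IntF.irec | with_reducible apply IntF.succ | with_reducible apply IntF.val | with_reducible apply IntF.mk | (with_reducible refine Int.comp ?_ ?_; assumption) | (with_reducible refine Int.comp₂ ?_ ?_ ?_; assumption) | (with_reducible refine Int.comp₃ ?_ ?_ ?_ ?_; assumption) | (with_reducible refine Int.comp₄ ?_ ?_ ?_ ?_ ?_; assumption) | (with_reducible refine IntF.comp ?_ ?_; assumption) | (with_reducible refine IntF.comp₂ ?_ ?_ ?_; assumption) | (with_reducible refine IntF.comp₃ ?_ ?_ ?_ ?_; assumption) | with_reducible apply IntF.pair))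
  refine ⟨fun c => the (fun a => r c a ∧ ∀ b, r c b → ¬ lt b a) d,
    IntF.the hI (IntF.const _), fun c hc => ?_⟩
  have h1 : Int N (r c) := Int.slice hr c
  obtain ⟨a, h2, h3⟩ := iwo_least h h1 hc
  have hu : ∃! a, r c a ∧ ∀ b, r c b → ¬ lt b a := by
    refine ⟨a, ⟨h2, h3⟩, ?_⟩
    rintro b ⟨h4, h5⟩
    rcases h.tri a b with h6 | h6 | h6
    · exact absurd h6 (h5 a h2)
    · exact h6.symm
    · exact absurd h6 (h3 b h4)
  exact the_spec hu

/-- Pull-back along an injection. -/
theorem iwo_comap {f : β → α} (hf : IntF N f) (hi : Function.Injective f) :
    IWO N β (fun a b => lt (f a) (f b)) := by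
  have hlt := h.int
  refine ⟨?_, fun a b => ?_, fun s hs => ?_⟩
  · exact Int.comp₂ (p := fun a b => lt a b) hlt (hf.comp IntF.fst') (hf.comp IntF.snd')
  · rcases h.tri (f a) (f b) with h1 | h1 | h1
    · exact Or.inl h1
    · exact Or.inr (Or.inl (hi h1))
    · exact Or.inr (Or.inr h1)
  · obtain ⟨a, ha⟩ := hs
    obtain ⟨b, hb, h1⟩ := h.wf (iimage f s) ⟨f a, (mem_iimage hf).2 ⟨a, ha, rfl⟩⟩
    obtain ⟨c, hc, rfl⟩ := (mem_iimage hf).1 hb
    exact ⟨c, hc, fun d hd => h1 (f d) ((mem_iimage hf).2 ⟨d, hd, rfl⟩)⟩

/-- The lexicographic product. -/
theorem iwo_prod {lt' : β → β → Prop} (h' : IWO N β lt') :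
    IWO N (α × β) (fun a b => lt a.1 b.1 ∨ (a.1 = b.1 ∧ lt' a.2 b.2)) := by
  have hlt := h.int
  have hlt' := h'.int
  refine ⟨by (repeat' (first | with_reducible exact IntF.id | with_reducible exact IntF.fst' | with_reducible exact IntF.snd' | with_reducible exact IntF.const _ | with_reducible exact Int.const _ | assumption | with_reducible apply Int.and | with_reducible apply Int.or | with_reducible apply Int.not | with_reducible apply Int.imp | with_reducible apply Int.iff | with_reducible apply Int.ne | with_reducible apply Int.eq | with_reducible apply Int.mem | with_reducible apply Int.subset | with_reducible apply Int.ltN | with_reducible apply Int.leN | with_reducible_and_instances apply Int.le | with_reducible_and_instances apply Int.lt | with_reducible apply Int.all | with_reducible apply Int.ex | with_reducible apply IntF.fst | with_reducible apply IntF.snd | with_reducible apply IntF.app | with_reducible apply IntF.inl | with_reducible apply IntF.inr | with_reducible_and_instances apply IntF.mul | with_reducible_and_instances apply IntF.inv | with_reducible_and_instances apply IntF.add | with_reducible_and_instances apply IntF.sub |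 with_reducible_and_instances apply IntF.neg | with_reducible_and_instances apply IntF.smul | with_reducible apply Int.fin | with_reducible apply IntF.sep | with_reducible apply IntF.lam | with_reducible apply IntF.insert | with_reducible apply IntF.singleton | with_reducible apply IntF.union | with_reducible apply IntF.iimage | with_reducible apply IntF.ite | with_reducible apply IntF.the | with_reducible apply IntF.irec | with_reducible apply IntF.succ | with_reducible apply IntF.val | with_reducible apply IntF.mk | (with_reducible refine Int.comp ?_ ?_; assumption) | (with_reducible refine Int.comp₂ ?_ ?_ ?_; assumption) | (with_reducible refine Int.comp₃ ?_ ?_ ?_ ?_; assumption) | (with_reducible refine Int.comp₄ ?_ ?_ ?_ ?_ ?_; assumption) | (with_reducible refine IntF.comp ?_ ?_; assumption) | (with_reducible refine IntF.comp₂ ?_ ?_ ?_; assumption) | (with_reducible refine IntF.comp₃ ?_ ?_ ?_ ?_; assumption) | with_reducible apply IntF.pair)), fun a b => ?_, fun s hs => ?_⟩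
  · rcases h.tri a.1 b.1 with h1 | h1 | h1
    · exact Or.inl (Or.inl h1)
    · rcases h'.tri a.2 b.2 with h2 | h2 | h2
      · exact Or.inl (Or.inr ⟨h1, h2⟩)
      · exact Or.inr (Or.inl (Prod.ext h1 h2))
      · exact Or.inr (Or.inr (Or.inr ⟨h1.symm, h2⟩))
    · exact Or.inr (Or.inr (Or.inl h1))
  · obtain ⟨⟨a, b⟩, hab⟩ := hs
    obtain ⟨a₀, ⟨b₁, h1⟩, h2⟩ := iwo_least h (p := fun a => ∃ b, (a, b) ∈ s) (by (repeat' (first | with_reducible exact IntF.id | with_reducible exact IntF.fst' | with_reducible exact IntF.snd' | with_reducible exact IntF.const _ | with_reducible exact Int.const _ | assumption | with_reducible apply Int.and | with_reducible apply Int.or | with_reducible apply Int.not | with_reducible apply Int.imp | with_reducible apply Int.iff | with_reducible apply Int.ne | with_reducible apply Int.eq | with_reducible apply Int.mem | with_reducible apply Int.subset | with_reducible apply Int.ltN | with_reducible apply Int.leN | with_reducible_and_instances apply Int.le | with_reducible_and_instances apply Int.lt | with_reducible apply Int.all | with_reducible apply Int.ex | with_reducible apply IntF.fst | with_reducible apply IntF.snd |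 with_reducible apply IntF.app | with_reducible apply IntF.inl | with_reducible apply IntF.inr | with_reducible_and_instances apply IntF.mul | with_reducible_and_instances apply IntF.inv | with_reducible_and_instances apply IntF.add | with_reducible_and_instances apply IntF.sub | with_reducible_and_instances apply IntF.neg | with_reducible_and_instances apply IntF.smul | with_reducible apply Int.fin | with_reducible apply IntF.sep | with_reducible apply IntF.lam | with_reducible apply IntF.insert | with_reducible apply IntF.singleton | with_reducible apply IntF.union | with_reducible apply IntF.iimage | with_reducible apply IntF.ite | with_reducible apply IntF.the | with_reducible apply IntF.irec | with_reducible apply IntF.succ | with_reducible apply IntF.val | with_reducible apply IntF.mk | (with_reducible refine Int.comp ?_ ?_; assumption) | (with_reducible refine Int.comp₂ ?_ ?_ ?_; assumption) | (with_reducible refine Int.comp₃ ?_ ?_ ?_ ?_; assumption) | (with_reducible refine Int.comp₄ ?_ ?_ ?_ ?_ ?_; assumption) | (with_reducible refine IntF.comp ?_ ?_; assumption) | (with_reducible refine IntF.comp₂ ?_ ?_ ?_; assumption) | (with_reducible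 refine IntF.comp₃ ?_ ?_ ?_ ?_; assumption) | with_reducible apply IntF.pair))) ⟨a, b, hab⟩
    obtain ⟨b₀, h3, h4⟩ := iwo_least h' (p := fun b => (a₀, b) ∈ s) (by (repeat' (first | with_reducible exact IntF.id | with_reducible exact IntF.fst' | with_reducible exact IntF.snd' | with_reducible exact IntF.const _ | with_reducible exact Int.const _ | assumption | with_reducible apply Int.and | with_reducible apply Int.or | with_reducible apply Int.not | with_reducible apply Int.imp | with_reducible apply Int.iff | with_reducible apply Int.ne | with_reducible apply Int.eq | with_reducible apply Int.mem | with_reducible apply Int.subset | with_reducible apply Int.ltN | with_reducible apply Int.leN | with_reducible_and_instances apply Int.le | with_reducible_and_instances apply Int.lt | with_reducible apply Int.all | with_reducible apply Int.ex | with_reducible apply IntF.fst | with_reducible apply IntF.snd | with_reducible apply IntF.app | with_reducible apply IntF.inl | with_reducible apply IntF.inr | with_reducible_and_instances apply IntF.mul | with_reducible_and_instances apply IntF.inv | with_reducible_and_instances apply IntF.add | with_reducible_and_instances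 apply IntF.sub | with_reducible_and_instances apply IntF.neg | with_reducible_and_instances apply IntF.smul | with_reducible apply Int.fin | with_reducible apply IntF.sep | with_reducible apply IntF.lam | with_reducible apply IntF.insert | with_reducible apply IntF.singleton | with_reducible apply IntF.union | with_reducible apply IntF.iimage | with_reducible apply IntF.ite | with_reducible apply IntF.the | with_reducible apply IntF.irec | with_reducible apply IntF.succ | with_reducible apply IntF.val | with_reducible apply IntF.mk | (with_reducible refine Int.comp ?_ ?_; assumption) | (with_reducible refine Int.comp₂ ?_ ?_ ?_; assumption) | (with_reducible refine Int.comp₃ ?_ ?_ ?_ ?_; assumption) | (with_reducible refine Int.comp₄ ?_ ?_ ?_ ?_ ?_; assumption) | (with_reducible refine IntF.comp ?_ ?_; assumption) | (with_reducible refine IntF.comp₂ ?_ ?_ ?_; assumption) | (with_reducible refine IntF.comp₃ ?_ ?_ ?_ ?_; assumption) | with_reducible apply IntF.pair))) ⟨b₁, h1⟩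
    refine ⟨(a₀, b₀), h3, ?_⟩
    rintro ⟨a', b'⟩ h5 (h6 | ⟨h6, h7⟩)
    · exact h2 a' ⟨b', h5⟩ h6
    · dsimp only at h6 h7
      subst h6
      exact h4 b' h5 h7

/-- The linear order of an internal well-order. -/
@[reducible] noncomputable def iwoLin : LinearOrder α where
  lt a b := lt a b
  le a b := lt a b ∨ a = b
  le_refl a := Or.inr rfl
  le_trans a b c := by
    rintro (h1 | rfl) (h2 | rfl)
    · exact Or.inl (iwo_trans h h1 h2)
    · exact Or.inl h1
    · exact Or.inl h2
    · exact Or.inr rfl
  lt_iff_le_not_ge a b := by
    constructor
    · intro h1
      refine ⟨Or.inl h1, ?_⟩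
      rintro (h2 | rfl)
      · exact iwo_asymm h h1 h2
      · exact iwo_irrefl h _ h1
    · rintro ⟨h1 | rfl, h2⟩
      · exact h1
      · exact absurd (Or.inr rfl) h2
  le_antisymm a b := by
    rintro (h1 | rfl) (h2 | h2)
    · exact (iwo_asymm h h1 h2).elim
    · exact h2.symm
    · rfl
    · rfl
  le_total a b := by
    rcases h.tri a b with h1 | h1 | h1
    · exact Or.inl (Or.inl h1)
    · exact Or.inl (Or.inr h1)
    · exact Or.inr (Or.inl h1)
  toDecidableLE := Classical.decRel _

end

theorem iwoNn {N : Type u} [L.Structure N] [hN : IsModel N] :
    IWO N (INat N) (fun a b => a < b) := by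
  refine ⟨by (repeat' (first | with_reducible exact IntF.id | with_reducible exact IntF.fst' | with_reducible exact IntF.snd' | with_reducible exact IntF.const _ | with_reducible exact Int.const _ | assumption | with_reducible apply Int.and | with_reducible apply Int.or | with_reducible apply Int.not | with_reducible apply Int.imp | with_reducible apply Int.iff | with_reducible apply Int.ne | with_reducible apply Int.eq | with_reducible apply Int.mem | with_reducible apply Int.subset | with_reducible apply Int.ltN | with_reducible apply Int.leN | with_reducible_and_instances apply Int.le | with_reducible_and_instances apply Int.lt | with_reducible apply Int.all | with_reducible apply Int.ex | with_reducible apply IntF.fst | with_reducible apply IntF.snd | with_reducible apply IntF.app | with_reducible apply IntF.inl | with_reducible apply IntF.inr | with_reducible_and_instances apply IntF.mul | with_reducible_and_instances apply IntF.inv | with_reducible_and_instances apply IntF.add | with_reducible_and_instances apply IntF.sub | with_reducible_and_instances apply IntF.neg | with_reducible_and_instances apply IntF.smul | with_reducible apply Int.fin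 | with_reducible apply IntF.sep | with_reducible apply IntF.lam | with_reducible apply IntF.insert | with_reducible apply IntF.singleton | with_reducible apply IntF.union | with_reducible apply IntF.iimage | with_reducible apply IntF.ite | with_reducible apply IntF.the | with_reducible apply IntF.irec | with_reducible apply IntF.succ | with_reducible apply IntF.val | with_reducible apply IntF.mk | (with_reducible refine Int.comp ?_ ?_; assumption) | (with_reducible refine Int.comp₂ ?_ ?_ ?_; assumption) | (with_reducible refine Int.comp₃ ?_ ?_ ?_ ?_; assumption) | (with_reducible refine Int.comp₄ ?_ ?_ ?_ ?_ ?_; assumption) | (with_reducible refine IntF.comp ?_ ?_; assumption) | (with_reducible refine IntF.comp₂ ?_ ?_ ?_; assumption) | (with_reducible refine IntF.comp₃ ?_ ?_ ?_ ?_; assumption) | with_reducible apply IntF.pair)), fun a b => lt_trichotomy a b, fun s hs => ?_⟩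
  obtain ⟨n, h1, h2⟩ := INat.exists_least (p := fun n => n ∈ s) (by (repeat' (first | with_reducible exact IntF.id | with_reducible exact IntF.fst' | with_reducible exact IntF.snd' | with_reducible exact IntF.const _ | with_reducible exact Int.const _ | assumption | with_reducible apply Int.and | with_reducible apply Int.or | with_reducible apply Int.not | with_reducible apply Int.imp | with_reducible apply Int.iff | with_reducible apply Int.ne | with_reducible apply Int.eq | with_reducible apply Int.mem | with_reducible apply Int.subset | with_reducible apply Int.ltN | with_reducible apply Int.leN | with_reducible_and_instances apply Int.le | with_reducible_and_instances apply Int.lt | with_reducible apply Int.all | with_reducible apply Int.ex | with_reducible apply IntF.fst | with_reducible apply IntF.snd | with_reducible apply IntF.app | with_reducible apply IntF.inl | with_reducible apply IntF.inr | with_reducible_and_instances apply IntF.mul | with_reducible_and_instances apply IntF.inv | with_reducible_and_instances apply IntF.add | with_reducible_and_instances apply IntF.sub | with_reducible_and_instances apply IntF.neg | with_reducible_and_instances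 apply IntF.smul | with_reducible apply Int.fin | with_reducible apply IntF.sep | with_reducible apply IntF.lam | with_reducible apply IntF.insert | with_reducible apply IntF.singleton | with_reducible apply IntF.union | with_reducible apply IntF.iimage | with_reducible apply IntF.ite | with_reducible apply IntF.the | with_reducible apply IntF.irec | with_reducible apply IntF.succ | with_reducible apply IntF.val | with_reducible apply IntF.mk | (with_reducible refine Int.comp ?_ ?_; assumption) | (with_reducible refine Int.comp₂ ?_ ?_ ?_; assumption) | (with_reducible refine Int.comp₃ ?_ ?_ ?_ ?_; assumption) | (with_reducible refine Int.comp₄ ?_ ?_ ?_ ?_ ?_; assumption) | (with_reducible refine IntF.comp ?_ ?_; assumption) | (with_reducible refine IntF.comp₂ ?_ ?_ ?_; assumption) | (with_reducible refine IntF.comp₃ ?_ ?_ ?_ ?_; assumption) | with_reducible apply IntF.pair))) hs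
  exact ⟨n, h1, fun b hb h3 => absurd (h2 b hb) (not_le.2 h3)⟩

/-! ### Finite subsets -/

section fin

variable {N : Type u} [L.Structure N] [hN : IsModel N]
variable {α : Type u} [ITy N α]
variable {lt : α → α → Prop} (h : IWO N α lt)

/-- The order of finite sets. -/
def flt (lt : α → α → Prop) (s t : IPow N α) : Prop :=
  ∃ m, m ∈ t ∧ ¬ m ∈ s ∧ ∀ y, lt m y → (y ∈ s ↔ y ∈ t)

include h

theorem int_flt : Int N (fun q : IPow N α × IPow N α => flt lt q.1 q.2) := by
  have hlt := h.int
  unfold flt
  (repeat' (first | with_reducible exact IntF.id | with_reducible exact IntF.fst' | with_reducible exact IntF.snd' | with_reducible exact IntF.const _ | with_reducible exact Int.const _ | assumption | with_reducible apply Int.and | with_reducible apply Int.or | with_reducible apply Int.not | with_reducible apply Int.imp | with_reducible apply Int.iff | with_reducible apply Int.ne | with_reducible apply Int.eq | with_reducible apply Int.mem | with_reducible apply Int.subset | with_reducible apply Int.ltN | with_reducible apply Int.leN | with_reducible_and_instances apply Int.le | with_reducible_and_instances apply Int.lt | with_reducible apply Int.all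 | with_reducible apply Int.ex | with_reducible apply IntF.fst | with_reducible apply IntF.snd | with_reducible apply IntF.app | with_reducible apply IntF.inl | with_reducible apply IntF.inr | with_reducible_and_instances apply IntF.mul | with_reducible_and_instances apply IntF.inv | with_reducible_and_instances apply IntF.add | with_reducible_and_instances apply IntF.sub | with_reducible_and_instances apply IntF.neg | with_reducible_and_instances apply IntF.smul | with_reducible apply Int.fin | with_reducible apply IntF.sep | with_reducible apply IntF.lam | with_reducible apply IntF.insert | with_reducible apply IntF.singleton | with_reducible apply IntF.union | with_reducible apply IntF.iimage | with_reducible apply IntF.ite | with_reducible apply IntF.the | with_reducible apply IntF.irec | with_reducible apply IntF.succ | with_reducible apply IntF.val | with_reducible apply IntF.mk | (with_reducible refine Int.comp ?_ ?_; assumption) | (with_reducible refine Int.comp₂ ?_ ?_ ?_; assumption) | (with_reducible refine Int.comp₃ ?_ ?_ ?_ ?_; assumption) | (with_reducible refine Int.comp₄ ?_ ?_ ?_ ?_ ?_; assumption) | (with_reducible refine IntF.comp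 ?_ ?_; assumption) | (with_reducible refine IntF.comp₂ ?_ ?_ ?_; assumption) | (with_reducible refine IntF.comp₃ ?_ ?_ ?_ ?_; assumption) | with_reducible apply IntF.pair))

theorem fin_max {s : IPow N α} (hs : IFin s) (hne : ∃ a, a ∈ s) :
    ∃ a, a ∈ s ∧ ∀ b, b ∈ s → ¬ lt a b :=
  IFin.exists_min (lt := fun a b => lt b a) (Int.comp₂ (p := fun a b => lt a b) h.int IntF.snd'
    IntF.fst') (iwo_irrefl h) (fun a b c h1 h2 => iwo_trans h h2 h1) hs hne

theorem flt_tri {s t : IPow N α} (hs : IFin s) (ht : IFin t) :
    flt lt s t ∨ s = t ∨ flt lt t s := by
  by_cases hst : s = t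
  · exact Or.inr (Or.inl hst)
  have hI : Int N (fun y => ¬ (y ∈ s ↔ y ∈ t)) := by (repeat' (first | with_reducible exact IntF.id | with_reducible exact IntF.fst' | with_reducible exact IntF.snd' | with_reducible exact IntF.const _ | with_reducible exact Int.const _ | assumption | with_reducible apply Int.and | with_reducible apply Int.or | with_reducible apply Int.not | with_reducible apply Int.imp | with_reducible apply Int.iff | with_reducible apply Int.ne | with_reducible apply Int.eq | with_reducible apply Int.mem | with_reducible apply Int.subset | with_reducible apply Int.ltN | with_reducible apply Int.leN | with_reducible_and_instances apply Int.le | with_reducible_and_instances apply Int.lt | with_reducible apply Int.all | with_reducible apply Int.ex | with_reducible apply IntF.fst | with_reducible apply IntF.snd | with_reducible apply IntF.app | with_reducible apply IntF.inl | with_reducible apply IntF.inr | with_reducible_and_instances apply IntF.mul | with_reducible_and_instances apply IntF.inv | with_reducible_and_instances apply IntF.add | with_reducible_and_instances apply IntF.sub | with_reducible_and_instances apply IntF.neg | with_reducible_and_instances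 apply IntF.smul | with_reducible apply Int.fin | with_reducible apply IntF.sep | with_reducible apply IntF.lam | with_reducible apply IntF.insert | with_reducible apply IntF.singleton | with_reducible apply IntF.union | with_reducible apply IntF.iimage | with_reducible apply IntF.ite | with_reducible apply IntF.the | with_reducible apply IntF.irec | with_reducible apply IntF.succ | with_reducible apply IntF.val | with_reducible apply IntF.mk | (with_reducible refine Int.comp ?_ ?_; assumption) | (with_reducible refine Int.comp₂ ?_ ?_ ?_; assumption) | (with_reducible refine Int.comp₃ ?_ ?_ ?_ ?_; assumption) | (with_reducible refine Int.comp₄ ?_ ?_ ?_ ?_ ?_; assumption) | (with_reducible refine IntF.comp ?_ ?_; assumption) | (with_reducible refine IntF.comp₂ ?_ ?_ ?_; assumption) | (with_reducible refine IntF.comp₃ ?_ ?_ ?_ ?_; assumption) | with_reducible apply IntF.pair))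
  have hfin : IFin (sep N fun y => ¬ (y ∈ s ↔ y ∈ t)) := by
    refine (hs.union ht).subset fun y hy => ?_
    have h1 := (mem_sep hI).1 hy
    rw [mem_union]
    tauto
  obtain ⟨m, h1, h2⟩ := fin_max h hfin (by
    by_contra hc
    refine hst (IPow.ext' fun y => ?_)
    by_contra h3
    exact hc ⟨y, (mem_sep hI).2 h3⟩)
  have h3 := (mem_sep hI).1 h1
  have h4 : ∀ y, lt m y → (y ∈ s ↔ y ∈ t) := by
    intro y hy
    by_contra h5
    exact h2 y ((mem_sep hI).2 h5) hy
  by_cases h5 : m ∈ s
  · exact Or.inr (Or.inr ⟨m, h5, fun h6 => h3 ⟨fun _ => h6, fun _ => h5⟩, fun y hy =>
      (h4 y hy).symm⟩)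
  · have h6 : m ∈ t := by
      by_contra h6
      exact h3 ⟨fun h7 => absurd h7 h5, fun h7 => absurd h7 h6⟩
    exact Or.inl ⟨m, h6, h5, h4⟩

omit h in
/-- A family of finite sets bounded by `x` has a least element. -/
def FLB (lt : α → α → Prop) (x : α) : Prop :=
  ∀ S : IPow N (IPow N α), (∃ s, s ∈ S) → (∀ s, s ∈ S → IFin s ∧ ∀ y, y ∈ s → lt y x) →
    ∃ s, s ∈ S ∧ ∀ t, t ∈ S → ¬ flt lt t s

theorem flb_step (S : IPow N (IPow N α)) (hne : ∃ s, s ∈ S) (hS : ∀ s, s ∈ S → IFin s)
    (hx : ∀ s, s ∈ S → ∀ y, y ∈ s → FLB (N := N) lt y) :
    ∃ s, s ∈ S ∧ ∀ t, t ∈ S → ¬ flt lt t s := by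
  have hlt := h.int
  by_cases h0 : (∅ : IPow N α) ∈ S
  · refine ⟨∅, h0, ?_⟩
    rintro t ht ⟨m, h1, -⟩
    simp at h1
  have hmax : ∀ s, s ∈ S → ∃ m, m ∈ s ∧ ∀ y, y ∈ s → ¬ lt m y := by
    intro s hs
    refine fin_max h (hS s hs) ?_
    by_contra hc
    push Not at hc
    refine h0 ?_
    have : s = ∅ := IPow.ext' fun y => by simp [hc y]
    exact this ▸ hs
  obtain ⟨s₀, hs₀⟩ := hne
  obtain ⟨m₀, hm₀, hm₀'⟩ := hmax s₀ hs₀
  obtain ⟨m, ⟨s₁, h1, h2, h3⟩, h4⟩ := iwo_least h (p := fun m => ∃ s, s ∈ S ∧ m ∈ s ∧
    ∀ y, y ∈ s → ¬ lt m y) (by (repeat' (first | with_reducible exact IntF.id | with_reducible exact IntF.fst' | with_reducible exact IntF.snd' | with_reducible exact IntF.const _ | with_reducible exact Int.const _ | assumption | with_reducible apply Int.and | with_reducible apply Int.or | with_reducible apply Int.not | with_reducible apply Int.imp | with_reducible apply Int.iff | with_reducible apply Int.ne | with_reducible apply Int.eq | with_reducible apply Int.mem | with_reducible apply Int.subset | with_reducible apply Int.ltN | with_reducible apply Int.leN | with_reducible_and_instances apply Int.le | with_reducible_and_instances apply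 Int.lt | with_reducible apply Int.all | with_reducible apply Int.ex | with_reducible apply IntF.fst | with_reducible apply IntF.snd | with_reducible apply IntF.app | with_reducible apply IntF.inl | with_reducible apply IntF.inr | with_reducible_and_instances apply IntF.mul | with_reducible_and_instances apply IntF.inv | with_reducible_and_instances apply IntF.add | with_reducible_and_instances apply IntF.sub | with_reducible_and_instances apply IntF.neg | with_reducible_and_instances apply IntF.smul | with_reducible apply Int.fin | with_reducible apply IntF.sep | with_reducible apply IntF.lam | with_reducible apply IntF.insert | with_reducible apply IntF.singleton | with_reducible apply IntF.union | with_reducible apply IntF.iimage | with_reducible apply IntF.ite | with_reducible apply IntF.the | with_reducible apply IntF.irec | with_reducible apply IntF.succ | with_reducible apply IntF.val | with_reducible apply IntF.mk | (with_reducible refine Int.comp ?_ ?_; assumption) | (with_reducible refine Int.comp₂ ?_ ?_ ?_; assumption) | (with_reducible refine Int.comp₃ ?_ ?_ ?_ ?_; assumption) | (with_reducible refine Int.comp₄ ?_ ?_ ?_ ?_ ?_; assumption)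 | (with_reducible refine IntF.comp ?_ ?_; assumption) | (with_reducible refine IntF.comp₂ ?_ ?_ ?_; assumption) | (with_reducible refine IntF.comp₃ ?_ ?_ ?_ ?_; assumption) | with_reducible apply IntF.pair))) ⟨m₀, s₀, hs₀, hm₀, hm₀'⟩
  have hI : Int N (fun t : IPow N α => ∃ s, s ∈ S ∧ m ∈ s ∧ (∀ y, y ∈ s → ¬ lt m y) ∧
    ∀ y, y ∈ t ↔ (y ∈ s ∧ ¬ y = m)) := by (repeat' (first | with_reducible exact IntF.id | with_reducible exact IntF.fst' | with_reducible exact IntF.snd' | with_reducible exact IntF.const _ | with_reducible exact Int.const _ | assumption | with_reducible apply Int.and | with_reducible apply Int.or | with_reducible apply Int.not | with_reducible apply Int.imp | with_reducible apply Int.iff | with_reducible apply Int.ne | with_reducible apply Int.eq | with_reducible apply Int.mem | with_reducible apply Int.subset | with_reducible apply Int.ltN | with_reducible apply Int.leN | with_reducible_and_instances apply Int.le | with_reducible_and_instances apply Int.lt | with_reducible apply Int.all | with_reducible apply Int.ex | with_reducible apply IntF.fst | with_reducible apply IntF.snd | with_reducible apply IntF.app | with_reducible apply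 IntF.inl | with_reducible apply IntF.inr | with_reducible_and_instances apply IntF.mul | with_reducible_and_instances apply IntF.inv | with_reducible_and_instances apply IntF.add | with_reducible_and_instances apply IntF.sub | with_reducible_and_instances apply IntF.neg | with_reducible_and_instances apply IntF.smul | with_reducible apply Int.fin | with_reducible apply IntF.sep | with_reducible apply IntF.lam | with_reducible apply IntF.insert | with_reducible apply IntF.singleton | with_reducible apply IntF.union | with_reducible apply IntF.iimage | with_reducible apply IntF.ite | with_reducible apply IntF.the | with_reducible apply IntF.irec | with_reducible apply IntF.succ | with_reducible apply IntF.val | with_reducible apply IntF.mk | (with_reducible refine Int.comp ?_ ?_; assumption) | (with_reducible refine Int.comp₂ ?_ ?_ ?_; assumption) | (with_reducible refine Int.comp₃ ?_ ?_ ?_ ?_; assumption) | (with_reducible refine Int.comp₄ ?_ ?_ ?_ ?_ ?_; assumption) | (with_reducible refine IntF.comp ?_ ?_; assumption) | (with_reducible refine IntF.comp₂ ?_ ?_ ?_; assumption) | (with_reducible refine IntF.comp₃ ?_ ?_ ?_ ?_; assumption) | with_reducible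 apply IntF.pair))
  have hrem : ∀ s : IPow N α, ∃ t : IPow N α, ∀ y, y ∈ t ↔ (y ∈ s ∧ ¬ y = m) := fun s =>
    ⟨sep N fun y => y ∈ s ∧ ¬ y = m, fun y => mem_sep (by (repeat' (first | with_reducible exact IntF.id | with_reducible exact IntF.fst' | with_reducible exact IntF.snd' | with_reducible exact IntF.const _ | with_reducible exact Int.const _ | assumption | with_reducible apply Int.and | with_reducible apply Int.or | with_reducible apply Int.not | with_reducible apply Int.imp | with_reducible apply Int.iff | with_reducible apply Int.ne | with_reducible apply Int.eq | with_reducible apply Int.mem | with_reducible apply Int.subset | with_reducible apply Int.ltN | with_reducible apply Int.leN | with_reducible_and_instances apply Int.le | with_reducible_and_instances apply Int.lt | with_reducible apply Int.all | with_reducible apply Int.ex | with_reducible apply IntF.fst | with_reducible apply IntF.snd | with_reducible apply IntF.app | with_reducible apply IntF.inl | with_reducible apply IntF.inr | with_reducible_and_instances apply IntF.mul | with_reducible_and_instances apply IntF.inv | with_reducible_and_instances apply IntF.add | with_reducible_and_instances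 apply IntF.sub | with_reducible_and_instances apply IntF.neg | with_reducible_and_instances apply IntF.smul | with_reducible apply Int.fin | with_reducible apply IntF.sep | with_reducible apply IntF.lam | with_reducible apply IntF.insert | with_reducible apply IntF.singleton | with_reducible apply IntF.union | with_reducible apply IntF.iimage | with_reducible apply IntF.ite | with_reducible apply IntF.the | with_reducible apply IntF.irec | with_reducible apply IntF.succ | with_reducible apply IntF.val | with_reducible apply IntF.mk | (with_reducible refine Int.comp ?_ ?_; assumption) | (with_reducible refine Int.comp₂ ?_ ?_ ?_; assumption) | (with_reducible refine Int.comp₃ ?_ ?_ ?_ ?_; assumption) | (with_reducible refine Int.comp₄ ?_ ?_ ?_ ?_ ?_; assumption) | (with_reducible refine IntF.comp ?_ ?_; assumption) | (with_reducible refine IntF.comp₂ ?_ ?_ ?_; assumption) | (with_reducible refine IntF.comp₃ ?_ ?_ ?_ ?_; assumption) | with_reducible apply IntF.pair)))⟩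
  have hlm : ∀ (s : IPow N α) y, (∀ y, y ∈ s → ¬ lt m y) → y ∈ s → ¬ y = m → lt y m := by
    intro s y h5 h6 h7
    rcases h.tri y m with h8 | h8 | h8
    · exact h8
    · exact absurd h8 h7
    · exact absurd h8 (h5 y h6)
  obtain ⟨t₀, ht₀, h5⟩ := hx s₁ h1 m h2 (sep N fun t : IPow N α => ∃ s, s ∈ S ∧ m ∈ s ∧
    (∀ y, y ∈ s → ¬ lt m y) ∧ ∀ y, y ∈ t ↔ (y ∈ s ∧ ¬ y = m)) (by
      obtain ⟨t, ht⟩ := hrem s₁
      exact ⟨t, (mem_sep hI).2 ⟨s₁, h1, h2, h3, ht⟩⟩) (by
      intro t ht
      obtain ⟨s, h6, h7, h8, h9⟩ := (mem_sep hI).1 ht
      exact ⟨(hS s h6).subset fun y hy => ((h9 y).1 hy).1, fun y hy =>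
        hlm s y h8 ((h9 y).1 hy).1 ((h9 y).1 hy).2⟩)
  obtain ⟨s, h6, h7, h8, h9⟩ := (mem_sep hI).1 ht₀
  refine ⟨s, h6, ?_⟩
  rintro t ht ⟨w, hw, hw', hwy⟩
  obtain ⟨k, hk, hk'⟩ := hmax t ht
  have hkm : k = m := by
    rcases h.tri k m with h10 | h10 | h10
    · exact absurd h10 (h4 k ⟨t, ht, hk, hk'⟩)
    · exact h10
    · exfalso
      have h11 : ¬ k ∈ s := fun h12 => h8 k h12 h10
      rcases h.tri w k with h12 | h12 | h12
      · exact h11 ((hwy k h12).1 hk)
      · exact h11 (h12 ▸ hw)
      · exact h8 w hw (iwo_trans h h10 h12)
  subst hkm
  have hwk : ¬ w = k := fun h10 => hw' (h10 ▸ hk)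
  obtain ⟨t', ht'⟩ := hrem t
  refine h5 t' ((mem_sep hI).2 ⟨t, ht, hk, hk', ht'⟩) ⟨w, (h9 w).2 ⟨hw, hwk⟩,
    fun h10 => hw' ((ht' w).1 h10).1, fun y hy => ?_⟩
  rw [ht', h9, hwy y hy]

theorem flb_all (x : α) : FLB (N := N) lt x := by
  have hf := int_flt h
  have hlt := h.int
  refine iwo_ind h (p := fun x => FLB (N := N) lt x) ?_ (fun x ih => ?_) x
  · have hf' : Int N (fun s : IPow N α => IFin s) := Int.fin IntF.id
    unfold FLB
    (repeat' (first | with_reducible exact IntF.id | with_reducible exact IntF.fst' | with_reducible exact IntF.snd' | with_reducible exact IntF.const _ | with_reducible exact Int.const _ | assumption | with_reducible apply Int.and | with_reducible apply Int.or | with_reducible apply Int.not | with_reducible apply Int.imp | with_reducible apply Int.iff | with_reducible apply Int.ne | with_reducible apply Int.eq | with_reducible apply Int.mem | with_reducible apply Int.subset | with_reducible apply Int.ltN | with_reducible apply Int.leN | with_reducible_and_instances apply Int.le | with_reducible_and_instances apply Int.lt | with_reducible apply Int.all | with_reducible apply Int.ex | with_reducible apply IntF.fst |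 with_reducible apply IntF.snd | with_reducible apply IntF.app | with_reducible apply IntF.inl | with_reducible apply IntF.inr | with_reducible_and_instances apply IntF.mul | with_reducible_and_instances apply IntF.inv | with_reducible_and_instances apply IntF.add | with_reducible_and_instances apply IntF.sub | with_reducible_and_instances apply IntF.neg | with_reducible_and_instances apply IntF.smul | with_reducible apply Int.fin | with_reducible apply IntF.sep | with_reducible apply IntF.lam | with_reducible apply IntF.insert | with_reducible apply IntF.singleton | with_reducible apply IntF.union | with_reducible apply IntF.iimage | with_reducible apply IntF.ite | with_reducible apply IntF.the | with_reducible apply IntF.irec | with_reducible apply IntF.succ | with_reducible apply IntF.val | with_reducible apply IntF.mk | (with_reducible refine Int.comp ?_ ?_; assumption) | (with_reducible refine Int.comp₂ ?_ ?_ ?_; assumption) | (with_reducible refine Int.comp₃ ?_ ?_ ?_ ?_; assumption) | (with_reducible refine Int.comp₄ ?_ ?_ ?_ ?_ ?_; assumption) | (with_reducible refine IntF.comp ?_ ?_; assumption) | (with_reducible refine IntF.comp₂ ?_ ?_ ?_;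 assumption) | (with_reducible refine IntF.comp₃ ?_ ?_ ?_ ?_; assumption) | with_reducible apply IntF.pair))
  · intro S hne hS
    exact flb_step h S hne (fun s hs => (hS s hs).1) fun s hs y hy => ih y ((hS s hs).2 y hy)

/-- The finite subsets of a well-ordered type are well-ordered. -/
theorem iwo_fin {β : Type u} [ITy N β] {f : β → IPow N α} (hf : IntF N f)
    (hi : Function.Injective f) (hfin : ∀ b, IFin (f b)) :
    IWO N β (fun a b => flt lt (f a) (f b)) := by
  have hF := int_flt h
  refine ⟨?_, fun a b => ?_, fun S hne => ?_⟩
  · exact Int.comp₂ (p := fun s t => flt lt s t) hF (hf.comp IntF.fst') (hf.comp IntF.snd')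
  · rcases flt_tri h (hfin a) (hfin b) with h1 | h1 | h1
    · exact Or.inl h1
    · exact Or.inr (Or.inl (hi h1))
    · exact Or.inr (Or.inr h1)
  · obtain ⟨b, hb⟩ := hne
    obtain ⟨s, h1, h2⟩ := flb_step h (iimage f S) ⟨f b, (mem_iimage hf).2 ⟨b, hb, rfl⟩⟩
      (fun s hs => by
        obtain ⟨c, -, rfl⟩ := (mem_iimage hf).1 hs
        exact hfin c) fun s hs y hy => flb_all h y
    obtain ⟨c, hc, rfl⟩ := (mem_iimage hf).1 h1
    exact ⟨c, hc, fun d hd => h2 (f d) ((mem_iimage hf).2 ⟨d, hd, rfl⟩)⟩

end fin

end Pool.Agent.Helper672.ZFA.V246
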