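import Pool.Agent.V11246.Ka
import Pool.Agent.V11246.WO

/-!
# Moving conditions
-/

set_option maxHeartbeats 1000000
set_option linter.all false
set_option synthInstance.maxSize 2000

namespace Pool.Agent.Helper672.ZFA.V246K

open FirstOrder FirstOrder.Language
open Pool.Agent.Helper672.ZFA.H635 (IPerm SymSys IWO IsGen)
open Pool.Agent.Helper672.ZFA.V246 (Ctb exists_lf)
open Pool.Agent.H310

universe u u₁

section

variable {M : Type u} [L.Structure M] [hM : IsModel M]

/-- Choice in the ground model. -/
def AC (M : Type u) [L.Structure M] [IsModel M] : Prop :=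
  ∀ (β : Type u) (_ : ITy M β), ∃ lt : β → β → Prop, IWO M β lt

theorem AC.choice (hA : AC M) {γ β : Type u} [ITy M γ] [ITy M β] {r : γ → β → Prop}
    (hr : Int M (fun q : γ × β => r q.1 q.2)) (h : ∀ c, ∃ b, r c b) (d : γ) :
    ∃ e : γ → β, IntF M e ∧ ∀ c, r c (e c) := by
  obtain ⟨lt, hlt⟩ := hA β inferInstance
  obtain ⟨b, -⟩ := h d
  obtain ⟨e, he, h1⟩ := exists_lf hlt hr b
  exact ⟨e, he, fun c => (h1 c (h c)).1⟩

theorem Ctb.prodN {α : Type u} [ITy M α] {P : α → Prop} (h : Ctb M P) :
    Ctb M (fun q : INat M × α => P q.2) := by
  obtain ⟨e, he, h1⟩ := h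
  have hp : IntF M (fun q : INat M × INat M => pr q.1 q.2) := int_pr
  refine ⟨fun q => pr q.1 (e q.2), by (repeat' (first | with_reducible exact IntF.id | with_reducible exact IntF.fst' | with_reducible exact IntF.snd' | with_reducible exact IntF.const _ | with_reducible exact Int.const _ | assumption | with_reducible apply Int.and | with_reducible apply Int.or | with_reducible apply Int.not | with_reducible apply Int.imp | with_reducible apply Int.iff | with_reducible apply Int.ne | with_reducible apply Int.eq | with_reducible apply Int.mem | with_reducible apply Int.subset | with_reducible apply Int.ltN | with_reducible apply Int.leN | with_reducible_and_instances apply Int.le | with_reducible_and_instances apply Int.lt | with_reducible apply Int.all | with_reducible apply Int.ex | with_reducible apply IntF.fst | with_reducible apply IntF.snd | with_reducible apply IntF.app | with_reducible apply IntF.inl | with_reducible apply IntF.inr | with_reducible_and_instances apply IntF.mul | with_reducible_and_instances apply IntF.inv | with_reducible_and_instances apply IntF.add | with_reducible_and_instances apply IntF.sub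 | with_reducible_and_instances apply IntF.neg | with_reducible_and_instances apply IntF.smul | with_reducible apply Int.fin | with_reducible apply IntF.sep | with_reducible apply IntF.lam | with_reducible apply IntF.insert | with_reducible apply IntF.singleton | with_reducible apply IntF.union | with_reducible apply IntF.iimage | with_reducible apply IntF.ite | with_reducible apply IntF.the | with_reducible apply IntF.irec | with_reducible apply IntF.succ | with_reducible apply IntF.val | with_reducible apply IntF.mk | (with_reducible refine Int.comp ?_ ?_; assumption) | (with_reducible refine Int.comp₂ ?_ ?_ ?_; assumption) | (with_reducible refine Int.comp₃ ?_ ?_ ?_ ?_; assumption) | (with_reducible refine Int.comp₄ ?_ ?_ ?_ ?_ ?_; assumption) | (with_reducible refine IntF.comp ?_ ?_; assumption) | (with_reducible refine IntF.comp₂ ?_ ?_ ?_; assumption) | (with_reducible refine IntF.comp₃ ?_ ?_ ?_ ?_; assumption) | with_reducible apply IntF.pair)), fun a b ha hb hab => ?_⟩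
  obtain ⟨h2, h3⟩ := pr_inj hab
  exact Prod.ext h2 (h1 _ _ ha hb h3)

theorem Ctb.unionN (hA : AC M) {α : Type u} [ITy M α] {P : INat M → α → Prop}
    (hP : Int M (fun q : INat M × α => P q.1 q.2)) (h : ∀ n, Ctb M (P n)) :
    Ctb M (fun a => ∃ n, P n a) := by
  have hr : Int M (fun q : INat M × IFun M α (INat M) =>
      ∀ a b, P q.1 a → P q.1 b → q.2 a = q.2 b → a = b) := by (repeat' (first | with_reducible exact IntF.id | with_reducible exact IntF.fst' | with_reducible exact IntF.snd' | with_reducible exact IntF.const _ | with_reducible exact Int.const _ | assumption | with_reducible apply Int.and | with_reducible apply Int.or | with_reducible apply Int.not | with_reducible apply Int.imp | with_reducible apply Int.iff | with_reducible apply Int.ne | with_reducible apply Int.eq | with_reducible apply Int.mem | with_reducible apply Int.subset | with_reducible apply Int.ltN | with_reducible apply Int.leN | with_reducible_and_instances apply Int.le | with_reducible_and_instances apply Int.lt | with_reducible apply Int.all | with_reducible apply Int.ex | with_reducible apply IntF.fst | with_reducible apply IntF.snd |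 with_reducible apply IntF.app | with_reducible apply IntF.inl | with_reducible apply IntF.inr | with_reducible_and_instances apply IntF.mul | with_reducible_and_instances apply IntF.inv | with_reducible_and_instances apply IntF.add | with_reducible_and_instances apply IntF.sub | with_reducible_and_instances apply IntF.neg | with_reducible_and_instances apply IntF.smul | with_reducible apply Int.fin | with_reducible apply IntF.sep | with_reducible apply IntF.lam | with_reducible apply IntF.insert | with_reducible apply IntF.singleton | with_reducible apply IntF.union | with_reducible apply IntF.iimage | with_reducible apply IntF.ite | with_reducible apply IntF.the | with_reducible apply IntF.irec | with_reducible apply IntF.succ | with_reducible apply IntF.val | with_reducible apply IntF.mk | (with_reducible refine Int.comp ?_ ?_; assumption) | (with_reducible refine Int.comp₂ ?_ ?_ ?_; assumption) | (with_reducible refine Int.comp₃ ?_ ?_ ?_ ?_; assumption) | (with_reducible refine Int.comp₄ ?_ ?_ ?_ ?_ ?_; assumption) | (with_reducible refine IntF.comp ?_ ?_; assumption) | (with_reducible refine IntF.comp₂ ?_ ?_ ?_;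 assumption) | (with_reducible refine IntF.comp₃ ?_ ?_ ?_ ?_; assumption) | with_reducible apply IntF.pair))
  obtain ⟨e, he, h1⟩ := hA.choice (γ := INat M) (β := IFun M α (INat M))
    (r := fun n f => ∀ a b, P n a → P n b → f a = f b → a = b) hr (fun n => by
    obtain ⟨f, hf, h2⟩ := h n
    exact ⟨⟨f, hf⟩, fun a b ha hb => h2 a b ha hb⟩) 0
  have hp : IntF M (fun q : INat M × INat M => pr q.1 q.2) := int_pr
  have hI : Ctb M (fun q : INat M × α => P q.1 q.2) := by
    refine ⟨fun q => pr q.1 (e q.1 q.2), by (repeat' (first | with_reducible exact IntF.id | with_reducible exact IntF.fst' | with_reducible exact IntF.snd' | with_reducible exact IntF.const _ | with_reducible exact Int.const _ | assumption | with_reducible apply Int.and | with_reducible apply Int.or | with_reducible apply Int.not | with_reducible apply Int.imp | with_reducible apply Int.iff | with_reducible apply Int.ne | with_reducible apply Int.eq | with_reducible apply Int.mem | with_reducible apply Int.subset | with_reducible apply Int.ltN | with_reducible apply Int.leN | with_reducible_and_instances apply Int.le | with_reducible_and_instances apply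 Int.lt | with_reducible apply Int.all | with_reducible apply Int.ex | with_reducible apply IntF.fst | with_reducible apply IntF.snd | with_reducible apply IntF.app | with_reducible apply IntF.inl | with_reducible apply IntF.inr | with_reducible_and_instances apply IntF.mul | with_reducible_and_instances apply IntF.inv | with_reducible_and_instances apply IntF.add | with_reducible_and_instances apply IntF.sub | with_reducible_and_instances apply IntF.neg | with_reducible_and_instances apply IntF.smul | with_reducible apply Int.fin | with_reducible apply IntF.sep | with_reducible apply IntF.lam | with_reducible apply IntF.insert | with_reducible apply IntF.singleton | with_reducible apply IntF.union | with_reducible apply IntF.iimage | with_reducible apply IntF.ite | with_reducible apply IntF.the | with_reducible apply IntF.irec | with_reducible apply IntF.succ | with_reducible apply IntF.val | with_reducible apply IntF.mk | (with_reducible refine Int.comp ?_ ?_; assumption) | (with_reducible refine Int.comp₂ ?_ ?_ ?_; assumption) | (with_reducible refine Int.comp₃ ?_ ?_ ?_ ?_; assumption) | (with_reducible refine Int.comp₄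 ?_ ?_ ?_ ?_ ?_; assumption) | (with_reducible refine IntF.comp ?_ ?_; assumption) | (with_reducible refine IntF.comp₂ ?_ ?_ ?_; assumption) | (with_reducible refine IntF.comp₃ ?_ ?_ ?_ ?_; assumption) | with_reducible apply IntF.pair)), fun a b ha hb hab => ?_⟩
    obtain ⟨h2, h3⟩ := pr_inj hab
    obtain ⟨n, x⟩ := a
    obtain ⟨m, y⟩ := b
    change n = m at h2
    subst h2
    exact Prod.ext rfl (h1 n _ _ ha hb h3)
  refine (Ctb.image hP hI (f := fun q : INat M × α => q.2) (by (repeat' (first | with_reducible exact IntF.id | with_reducible exact IntF.fst' | with_reducible exact IntF.snd' | with_reducible exact IntF.const _ | with_reducible exact Int.const _ | assumption | with_reducible apply Int.and | with_reducible apply Int.or | with_reducible apply Int.not | with_reducible apply Int.imp | with_reducible apply Int.iff | with_reducible apply Int.ne | with_reducible apply Int.eq | with_reducible apply Int.mem | with_reducible apply Int.subset | with_reducible apply Int.ltN | with_reducible apply Int.leN | with_reducible_and_instances apply Int.le | with_reducible_and_instances apply Int.lt | with_reducible apply Int.all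 | with_reducible apply Int.ex | with_reducible apply IntF.fst | with_reducible apply IntF.snd | with_reducible apply IntF.app | with_reducible apply IntF.inl | with_reducible apply IntF.inr | with_reducible_and_instances apply IntF.mul | with_reducible_and_instances apply IntF.inv | with_reducible_and_instances apply IntF.add | with_reducible_and_instances apply IntF.sub | with_reducible_and_instances apply IntF.neg | with_reducible_and_instances apply IntF.smul | with_reducible apply Int.fin | with_reducible apply IntF.sep | with_reducible apply IntF.lam | with_reducible apply IntF.insert | with_reducible apply IntF.singleton | with_reducible apply IntF.union | with_reducible apply IntF.iimage | with_reducible apply IntF.ite | with_reducible apply IntF.the | with_reducible apply IntF.irec | with_reducible apply IntF.succ | with_reducible apply IntF.val | with_reducible apply IntF.mk | (with_reducible refine Int.comp ?_ ?_; assumption) | (with_reducible refine Int.comp₂ ?_ ?_ ?_; assumption) | (with_reducible refine Int.comp₃ ?_ ?_ ?_ ?_; assumption) | (with_reducible refine Int.comp₄ ?_ ?_ ?_ ?_ ?_; assumption) | (with_reducible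 refine IntF.comp ?_ ?_; assumption) | (with_reducible refine IntF.comp₂ ?_ ?_ ?_; assumption) | (with_reducible refine IntF.comp₃ ?_ ?_ ?_ ?_; assumption) | with_reducible apply IntF.pair)))).mono ?_
  rintro a ⟨n, hn⟩
  exact ⟨(n, a), hn, rfl⟩

end

variable {M : Type u} [L.Structure M] [hM : IsModel M] {Y : Type u} [ITy M Y]
variable {Ω : Type u} [ITy M Ω] {V : Type u} [ITy M V] {K : Cols M Y}

/-- The indices of a condition. -/
noncomputable def idx (p : Pk M Y Ω V) : IPow M (Ix M Y Ω) := iimage (fun c : Ce M Y Ω V => c.1) p.1

theorem mem_idx {p : Pk M Y Ω V} {i : Ix M Y Ω} : i ∈ idx p ↔ ∃ w, (i, w) ∈ p.1 := by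
  unfold idx
  rw [mem_iimage (by (repeat' (first | with_reducible exact IntF.id | with_reducible exact IntF.fst' | with_reducible exact IntF.snd' | with_reducible exact IntF.const _ | with_reducible exact Int.const _ | assumption | with_reducible apply Int.and | with_reducible apply Int.or | with_reducible apply Int.not | with_reducible apply Int.imp | with_reducible apply Int.iff | with_reducible apply Int.ne | with_reducible apply Int.eq | with_reducible apply Int.mem | with_reducible apply Int.subset | with_reducible apply Int.ltN | with_reducible apply Int.leN | with_reducible_and_instances apply Int.le | with_reducible_and_instances apply Int.lt | with_reducible apply Int.all | with_reducible apply Int.ex | with_reducible apply IntF.fst | with_reducible apply IntF.snd | with_reducible apply IntF.app | with_reducible apply IntF.inl | with_reducible apply IntF.inr | with_reducible_and_instances apply IntF.mul | with_reducible_and_instances apply IntF.inv | with_reducible_and_instances apply IntF.add | with_reducible_and_instances apply IntF.sub | with_reducible_and_instances apply IntF.neg | with_reducible_and_instances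 apply IntF.smul | with_reducible apply Int.fin | with_reducible apply IntF.sep | with_reducible apply IntF.lam | with_reducible apply IntF.insert | with_reducible apply IntF.singleton | with_reducible apply IntF.union | with_reducible apply IntF.iimage | with_reducible apply IntF.ite | with_reducible apply IntF.the | with_reducible apply IntF.irec | with_reducible apply IntF.succ | with_reducible apply IntF.val | with_reducible apply IntF.mk | (with_reducible refine Int.comp ?_ ?_; assumption) | (with_reducible refine Int.comp₂ ?_ ?_ ?_; assumption) | (with_reducible refine Int.comp₃ ?_ ?_ ?_ ?_; assumption) | (with_reducible refine Int.comp₄ ?_ ?_ ?_ ?_ ?_; assumption) | (with_reducible refine IntF.comp ?_ ?_; assumption) | (with_reducible refine IntF.comp₂ ?_ ?_ ?_; assumption) | (with_reducible refine IntF.comp₃ ?_ ?_ ?_ ?_; assumption) | with_reducible apply IntF.pair)))]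
  constructor
  · rintro ⟨⟨a, w⟩, h1, rfl⟩
    exact ⟨w, h1⟩
  · rintro ⟨w, h⟩
    exact ⟨(i, w), h, rfl⟩

theorem cb_idx (p : Pk M Y Ω V) : Cb (idx p) := p.2.2.image (by (repeat' (first | with_reducible exact IntF.id | with_reducible exact IntF.fst' | with_reducible exact IntF.snd' | with_reducible exact IntF.const _ | with_reducible exact Int.const _ | assumption | with_reducible apply Int.and | with_reducible apply Int.or | with_reducible apply Int.not | with_reducible apply Int.imp | with_reducible apply Int.iff | with_reducible apply Int.ne | with_reducible apply Int.eq | with_reducible apply Int.mem | with_reducible apply Int.subset | with_reducible apply Int.ltN | with_reducible apply Int.leN | with_reducible_and_instances apply Int.le | with_reducible_and_instances apply Int.lt | with_reducible apply Int.all | with_reducible apply Int.ex | with_reducible apply IntF.fst | with_reducible apply IntF.snd | with_reducible apply IntF.app | with_reducible apply IntF.inl | with_reducible apply IntF.inr | with_reducible_and_instances apply IntF.mul | with_reducible_and_instances apply IntF.inv | with_reducible_and_instances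 apply IntF.add | with_reducible_and_instances apply IntF.sub | with_reducible_and_instances apply IntF.neg | with_reducible_and_instances apply IntF.smul | with_reducible apply Int.fin | with_reducible apply IntF.sep | with_reducible apply IntF.lam | with_reducible apply IntF.insert | with_reducible apply IntF.singleton | with_reducible apply IntF.union | with_reducible apply IntF.iimage | with_reducible apply IntF.ite | with_reducible apply IntF.the | with_reducible apply IntF.irec | with_reducible apply IntF.succ | with_reducible apply IntF.val | with_reducible apply IntF.mk | (with_reducible refine Int.comp ?_ ?_; assumption) | (with_reducible refine Int.comp₂ ?_ ?_ ?_; assumption) | (with_reducible refine Int.comp₃ ?_ ?_ ?_ ?_; assumption) | (with_reducible refine Int.comp₄ ?_ ?_ ?_ ?_ ?_; assumption) | (with_reducible refine IntF.comp ?_ ?_; assumption) | (with_reducible refine IntF.comp₂ ?_ ?_ ?_; assumption) | (with_reducible refine IntF.comp₃ ?_ ?_ ?_ ?_; assumption) | with_reducible apply IntF.pair)))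

/-- Restrictions. -/
noncomputable def rs (B : IPow M (Ix M Y Ω)) (p : Pk M Y Ω V) : Pk M Y Ω V :=
  ⟨sep M fun c : Ce M Y Ω V => c ∈ p.1 ∧ c.1 ∈ B, by
    have hI : Int M (fun c : Ce M Y Ω V => c ∈ p.1 ∧ c.1 ∈ B) := by (repeat' (first | with_reducible exact IntF.id | with_reducible exact IntF.fst' | with_reducible exact IntF.snd' | with_reducible exact IntF.const _ | with_reducible exact Int.const _ | assumption | with_reducible apply Int.and | with_reducible apply Int.or | with_reducible apply Int.not | with_reducible apply Int.imp | with_reducible apply Int.iff | with_reducible apply Int.ne | with_reducible apply Int.eq | with_reducible apply Int.mem | with_reducible apply Int.subset | with_reducible apply Int.ltN | with_reducible apply Int.leN | with_reducible_and_instances apply Int.le | with_reducible_and_instances apply Int.lt | with_reducible apply Int.all | with_reducible apply Int.ex | with_reducible apply IntF.fst | with_reducible apply IntF.snd | with_reducible apply IntF.app | with_reducible apply IntF.inl | with_reducible apply IntF.inr | with_reducible_and_instances apply IntF.mul | with_reducible_and_instances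 apply IntF.inv | with_reducible_and_instances apply IntF.add | with_reducible_and_instances apply IntF.sub | with_reducible_and_instances apply IntF.neg | with_reducible_and_instances apply IntF.smul | with_reducible apply Int.fin | with_reducible apply IntF.sep | with_reducible apply IntF.lam | with_reducible apply IntF.insert | with_reducible apply IntF.singleton | with_reducible apply IntF.union | with_reducible apply IntF.iimage | with_reducible apply IntF.ite | with_reducible apply IntF.the | with_reducible apply IntF.irec | with_reducible apply IntF.succ | with_reducible apply IntF.val | with_reducible apply IntF.mk | (with_reducible refine Int.comp ?_ ?_; assumption) | (with_reducible refine Int.comp₂ ?_ ?_ ?_; assumption) | (with_reducible refine Int.comp₃ ?_ ?_ ?_ ?_; assumption) | (with_reducible refine Int.comp₄ ?_ ?_ ?_ ?_ ?_; assumption) | (with_reducible refine IntF.comp ?_ ?_; assumption) | (with_reducible refine IntF.comp₂ ?_ ?_ ?_; assumption) | (with_reducible refine IntF.comp₃ ?_ ?_ ?_ ?_; assumption) | with_reducible apply IntF.pair))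
    refine ⟨fun i d v v' h h' => p.2.1 i d v v' ((mem_sep hI).1 h).1 ((mem_sep hI).1 h').1,
      p.2.2.sub fun c hc => ((mem_sep hI).1 hc).1⟩⟩

theorem mem_rs {B : IPow M (Ix M Y Ω)} {p : Pk M Y Ω V} {c : Ce M Y Ω V} :
    c ∈ (rs B p).1 ↔ c ∈ p.1 ∧ c.1 ∈ B := by
  unfold rs
  exact mem_sep (p := fun c : Ce M Y Ω V => c ∈ p.1 ∧ c.1 ∈ B) (by (repeat' (first | with_reducible exact IntF.id | with_reducible exact IntF.fst' | with_reducible exact IntF.snd' | with_reducible exact IntF.const _ | with_reducible exact Int.const _ | assumption | with_reducible apply Int.and | with_reducible apply Int.or | with_reducible apply Int.not | with_reducible apply Int.imp | with_reducible apply Int.iff | with_reducible apply Int.ne | with_reducible apply Int.eq | with_reducible apply Int.mem | with_reducible apply Int.subset | with_reducible apply Int.ltN | with_reducible apply Int.leN | with_reducible_and_instances apply Int.le | with_reducible_and_instances apply Int.lt | with_reducible apply Int.all | with_reducible apply Int.ex | with_reducible apply IntF.fst | with_reducible apply IntF.snd | with_reducible apply IntF.app | with_reducible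 apply IntF.inl | with_reducible apply IntF.inr | with_reducible_and_instances apply IntF.mul | with_reducible_and_instances apply IntF.inv | with_reducible_and_instances apply IntF.add | with_reducible_and_instances apply IntF.sub | with_reducible_and_instances apply IntF.neg | with_reducible_and_instances apply IntF.smul | with_reducible apply Int.fin | with_reducible apply IntF.sep | with_reducible apply IntF.lam | with_reducible apply IntF.insert | with_reducible apply IntF.singleton | with_reducible apply IntF.union | with_reducible apply IntF.iimage | with_reducible apply IntF.ite | with_reducible apply IntF.the | with_reducible apply IntF.irec | with_reducible apply IntF.succ | with_reducible apply IntF.val | with_reducible apply IntF.mk | (with_reducible refine Int.comp ?_ ?_; assumption) | (with_reducible refine Int.comp₂ ?_ ?_ ?_; assumption) | (with_reducible refine Int.comp₃ ?_ ?_ ?_ ?_; assumption) | (with_reducible refine Int.comp₄ ?_ ?_ ?_ ?_ ?_; assumption) | (with_reducible refine IntF.comp ?_ ?_; assumption) | (with_reducible refine IntF.comp₂ ?_ ?_ ?_; assumption) | (with_reducible refine IntF.comp₃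 ?_ ?_ ?_ ?_; assumption) | with_reducible apply IntF.pair)))

theorem int_rs : IntF M (fun q : IPow M (Ix M Y Ω) × Pk M Y Ω V => rs q.1 q.2) := by
  refine IntF.of_rel (r := fun (q : IPow M (Ix M Y Ω) × Pk M Y Ω V) (p : Pk M Y Ω V) =>
      ∀ c : Ce M Y Ω V, c ∈ p.1 ↔ c ∈ q.2.1 ∧ c.1 ∈ q.1) (by (repeat' (first | with_reducible exact IntF.id | with_reducible exact IntF.fst' | with_reducible exact IntF.snd' | with_reducible exact IntF.const _ | with_reducible exact Int.const _ | assumption | with_reducible apply Int.and | with_reducible apply Int.or | with_reducible apply Int.not | with_reducible apply Int.imp | with_reducible apply Int.iff | with_reducible apply Int.ne | with_reducible apply Int.eq | with_reducible apply Int.mem | with_reducible apply Int.subset | with_reducible apply Int.ltN | with_reducible apply Int.leN | with_reducible_and_instances apply Int.le | with_reducible_and_instances apply Int.lt | with_reducible apply Int.all | with_reducible apply Int.ex | with_reducible apply IntF.fst | with_reducible apply IntF.snd | with_reducible apply IntF.app | with_reducible apply IntF.inl | with_reducible apply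 IntF.inr | with_reducible_and_instances apply IntF.mul | with_reducible_and_instances apply IntF.inv | with_reducible_and_instances apply IntF.add | with_reducible_and_instances apply IntF.sub | with_reducible_and_instances apply IntF.neg | with_reducible_and_instances apply IntF.smul | with_reducible apply Int.fin | with_reducible apply IntF.sep | with_reducible apply IntF.lam | with_reducible apply IntF.insert | with_reducible apply IntF.singleton | with_reducible apply IntF.union | with_reducible apply IntF.iimage | with_reducible apply IntF.ite | with_reducible apply IntF.the | with_reducible apply IntF.irec | with_reducible apply IntF.succ | with_reducible apply IntF.val | with_reducible apply IntF.mk | (with_reducible refine Int.comp ?_ ?_; assumption) | (with_reducible refine Int.comp₂ ?_ ?_ ?_; assumption) | (with_reducible refine Int.comp₃ ?_ ?_ ?_ ?_; assumption) | (with_reducible refine Int.comp₄ ?_ ?_ ?_ ?_ ?_; assumption) | (with_reducible refine IntF.comp ?_ ?_; assumption) | (with_reducible refine IntF.comp₂ ?_ ?_ ?_; assumption) | (with_reducible refine IntF.comp₃ ?_ ?_ ?_ ?_; assumption) | with_reducible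 apply IntF.pair))) fun q p => ?_
  constructor
  · intro h1
    exact Subtype.ext (IPow.ext' fun c => mem_rs.trans (h1 c).symm)
  · rintro rfl c
    exact mem_rs

theorem le_rs (B : IPow M (Ix M Y Ω)) (p : Pk M Y Ω V) : p ≤ rs B p := fun c hc => (mem_rs.1 hc).1

theorem rs_mono {B : IPow M (Ix M Y Ω)} {p q : Pk M Y Ω V} (h : p ≤ q) : rs B p ≤ rs B q :=
  fun c hc => mem_rs.2 ⟨h c (mem_rs.1 hc).1, (mem_rs.1 hc).2⟩

/-- The part of the support in the low levels. -/
noncomputable def LaS (K : Cols M Y) (l : Su M Y Ω) : IPow M (Ix M Y Ω) := sep M (La K l)

theorem mem_LaS {l : Su M Y Ω} {i : Ix M Y Ω} : i ∈ LaS K l ↔ La K l i := by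
  have h : Int M (fun q : Su M Y Ω × Ix M Y Ω => La K q.1 q.2) := int_La
  unfold LaS
  exact mem_sep (by (repeat' (first | with_reducible exact IntF.id | with_reducible exact IntF.fst' | with_reducible exact IntF.snd' | with_reducible exact IntF.const _ | with_reducible exact Int.const _ | assumption | with_reducible apply Int.and | with_reducible apply Int.or | with_reducible apply Int.not | with_reducible apply Int.imp | with_reducible apply Int.iff | with_reducible apply Int.ne | with_reducible apply Int.eq | with_reducible apply Int.mem | with_reducible apply Int.subset | with_reducible apply Int.ltN | with_reducible apply Int.leN | with_reducible_and_instances apply Int.le | with_reducible_and_instances apply Int.lt | with_reducible apply Int.all | with_reducible apply Int.ex | with_reducible apply IntF.fst | with_reducible apply IntF.snd | with_reducible apply IntF.app | with_reducible apply IntF.inl | with_reducible apply IntF.inr | with_reducible_and_instances apply IntF.mul | with_reducible_and_instances apply IntF.inv | with_reducible_and_instances apply IntF.add | with_reducible_and_instances apply IntF.sub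 | with_reducible_and_instances apply IntF.neg | with_reducible_and_instances apply IntF.smul | with_reducible apply Int.fin | with_reducible apply IntF.sep | with_reducible apply IntF.lam | with_reducible apply IntF.insert | with_reducible apply IntF.singleton | with_reducible apply IntF.union | with_reducible apply IntF.iimage | with_reducible apply IntF.ite | with_reducible apply IntF.the | with_reducible apply IntF.irec | with_reducible apply IntF.succ | with_reducible apply IntF.val | with_reducible apply IntF.mk | (with_reducible refine Int.comp ?_ ?_; assumption) | (with_reducible refine Int.comp₂ ?_ ?_ ?_; assumption) | (with_reducible refine Int.comp₃ ?_ ?_ ?_ ?_; assumption) | (with_reducible refine Int.comp₄ ?_ ?_ ?_ ?_ ?_; assumption) | (with_reducible refine IntF.comp ?_ ?_; assumption) | (with_reducible refine IntF.comp₂ ?_ ?_ ?_; assumption) | (with_reducible refine IntF.comp₃ ?_ ?_ ?_ ?_; assumption) | with_reducible apply IntF.pair)))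

theorem cb_LaS (l : Su M Y Ω) : Cb (LaS K l) := l.2.2.sub fun i hi => (mem_LaS.1 hi).2

theorem exists_join {p q : Pk M Y Ω V} (h : ∀ (i : Ix M Y Ω) (d : Ω) (v v' : V),
    (i, (d, v)) ∈ p.1 → (i, (d, v')) ∈ q.1 → v = v') :
    ∃ r : Pk M Y Ω V, (∀ c, c ∈ r.1 ↔ c ∈ p.1 ∨ c ∈ q.1) ∧ r ≤ p ∧ r ≤ q := by
  refine ⟨⟨p.1 ∪ q.1, fun i d v v' h1 h2 => ?_, p.2.2.union q.2.2⟩, fun c => mem_union,
    fun c hc => mem_union.2 (Or.inl hc), fun c hc => mem_union.2 (Or.inr hc)⟩
  rcases mem_union.1 h1 with h1 | h1 <;> rcases mem_union.1 h2 with h2 | h2
  · exact p.2.1 i d v v' h1 h2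
  · exact h i d v v' h1 h2
  · exact (h i d v' v h2 h1).symm
  · exact q.2.1 i d v v' h1 h2

theorem exists_fresh (hΩ : ¬ Ctb M (fun _ : Ω => True)) {S : IPow M (Ix M Y Ω)} (hS : Cb S) :
    ∃ δ : Ω, ∀ i, i ∈ S → i.2.1 ≠ δ := by
  by_contra hcon
  push Not at hcon
  apply hΩ
  refine (Ctb.image (P := fun i : Ix M Y Ω => i ∈ S) (by (repeat' (first | with_reducible exact IntF.id | with_reducible exact IntF.fst' | with_reducible exact IntF.snd' | with_reducible exact IntF.const _ | with_reducible exact Int.const _ | assumption | with_reducible apply Int.and | with_reducible apply Int.or | with_reducible apply Int.not | with_reducible apply Int.imp | with_reducible apply Int.iff | with_reducible apply Int.ne | with_reducible apply Int.eq | with_reducible apply Int.mem | with_reducible apply Int.subset | with_reducible apply Int.ltN | with_reducible apply Int.leN | with_reducible_and_instances apply Int.le | with_reducible_and_instances apply Int.lt | with_reducible apply Int.all | with_reducible apply Int.ex | with_reducible apply IntF.fst | with_reducible apply IntF.snd | with_reducible apply IntF.app | with_reducible apply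 IntF.inl | with_reducible apply IntF.inr | with_reducible_and_instances apply IntF.mul | with_reducible_and_instances apply IntF.inv | with_reducible_and_instances apply IntF.add | with_reducible_and_instances apply IntF.sub | with_reducible_and_instances apply IntF.neg | with_reducible_and_instances apply IntF.smul | with_reducible apply Int.fin | with_reducible apply IntF.sep | with_reducible apply IntF.lam | with_reducible apply IntF.insert | with_reducible apply IntF.singleton | with_reducible apply IntF.union | with_reducible apply IntF.iimage | with_reducible apply IntF.ite | with_reducible apply IntF.the | with_reducible apply IntF.irec | with_reducible apply IntF.succ | with_reducible apply IntF.val | with_reducible apply IntF.mk | (with_reducible refine Int.comp ?_ ?_; assumption) | (with_reducible refine Int.comp₂ ?_ ?_ ?_; assumption) | (with_reducible refine Int.comp₃ ?_ ?_ ?_ ?_; assumption) | (with_reducible refine Int.comp₄ ?_ ?_ ?_ ?_ ?_; assumption) | (with_reducible refine IntF.comp ?_ ?_; assumption) | (with_reducible refine IntF.comp₂ ?_ ?_ ?_; assumption) | (with_reducible refine IntF.comp₃ ?_ ?_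 ?_ ?_; assumption) | with_reducible apply IntF.pair))) hS.ctb
    (f := fun i : Ix M Y Ω => i.2.1) (by (repeat' (first | with_reducible exact IntF.id | with_reducible exact IntF.fst' | with_reducible exact IntF.snd' | with_reducible exact IntF.const _ | with_reducible exact Int.const _ | assumption | with_reducible apply Int.and | with_reducible apply Int.or | with_reducible apply Int.not | with_reducible apply Int.imp | with_reducible apply Int.iff | with_reducible apply Int.ne | with_reducible apply Int.eq | with_reducible apply Int.mem | with_reducible apply Int.subset | with_reducible apply Int.ltN | with_reducible apply Int.leN | with_reducible_and_instances apply Int.le | with_reducible_and_instances apply Int.lt | with_reducible apply Int.all | with_reducible apply Int.ex | with_reducible apply IntF.fst | with_reducible apply IntF.snd | with_reducible apply IntF.app | with_reducible apply IntF.inl | with_reducible apply IntF.inr | with_reducible_and_instances apply IntF.mul | with_reducible_and_instances apply IntF.inv | with_reducible_and_instances apply IntF.add | with_reducible_and_instances apply IntF.sub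 | with_reducible_and_instances apply IntF.neg | with_reducible_and_instances apply IntF.smul | with_reducible apply Int.fin | with_reducible apply IntF.sep | with_reducible apply IntF.lam | with_reducible apply IntF.insert | with_reducible apply IntF.singleton | with_reducible apply IntF.union | with_reducible apply IntF.iimage | with_reducible apply IntF.ite | with_reducible apply IntF.the | with_reducible apply IntF.irec | with_reducible apply IntF.succ | with_reducible apply IntF.val | with_reducible apply IntF.mk | (with_reducible refine Int.comp ?_ ?_; assumption) | (with_reducible refine Int.comp₂ ?_ ?_ ?_; assumption) | (with_reducible refine Int.comp₃ ?_ ?_ ?_ ?_; assumption) | (with_reducible refine Int.comp₄ ?_ ?_ ?_ ?_ ?_; assumption) | (with_reducible refine IntF.comp ?_ ?_; assumption) | (with_reducible refine IntF.comp₂ ?_ ?_ ?_; assumption) | (with_reducible refine IntF.comp₃ ?_ ?_ ?_ ?_; assumption) | with_reducible apply IntF.pair)))).mono ?_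
  intro δ _
  obtain ⟨i, h1, h2⟩ := hcon δ
  exact ⟨i, h1, h2⟩

theorem exists_sw {D : IPow M (Ix M Y Ω)} {f : Ix M Y Ω → INat M} (hf : IntF M f)
    (hi : ∀ i j, i ∈ D → j ∈ D → f i = f j → i = j) {δ : Ω} (hδ : ∀ i, i ∈ D → i.2.1 ≠ δ) :
    ∃ τ : Ga Ω K, Co τ 1 ∧ (∀ i, i ∈ D → ap τ i = (i.1, (δ, f i))) ∧
      (∀ i, i ∈ D → ap τ (i.1, (δ, f i)) = i) ∧
      ∀ i, ¬ i ∈ D → (∀ j, j ∈ D → i ≠ (j.1, (δ, f j))) → ap τ i = i := by
  let r : Ix M Y Ω → Ix M Y Ω → Prop := fun i i' => (i ∈ D ∧ i' = (i.1, (δ, f i))) ∨
    (i' ∈ D ∧ i = (i'.1, (δ, f i'))) ∨
    (¬ i ∈ D ∧ (∀ j, j ∈ D → i ≠ (j.1, (δ, f j))) ∧ i' = i)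
  have hr : Int M (fun q : Ix M Y Ω × Ix M Y Ω => r q.1 q.2) := by
    change Int M (fun q : Ix M Y Ω × Ix M Y Ω => (q.1 ∈ D ∧ q.2 = (q.1.1, (δ, f q.1))) ∨
      (q.2 ∈ D ∧ q.1 = (q.2.1, (δ, f q.2))) ∨
      (¬ q.1 ∈ D ∧ (∀ j, j ∈ D → q.1 ≠ (j.1, (δ, f j))) ∧ q.2 = q.1))
    (repeat' (first | with_reducible exact IntF.id | with_reducible exact IntF.fst' | with_reducible exact IntF.snd' | with_reducible exact IntF.const _ | with_reducible exact Int.const _ | assumption | with_reducible apply Int.and | with_reducible apply Int.or | with_reducible apply Int.not | with_reducible apply Int.imp | with_reducible apply Int.iff | with_reducible apply Int.ne | with_reducible apply Int.eq | with_reducible apply Int.mem | with_reducible apply Int.subset | with_reducible apply Int.ltN | with_reducible apply Int.leN | with_reducible_and_instances apply Int.le | with_reducible_and_instances apply Int.lt | with_reducible apply Int.all | with_reducible apply Int.ex | with_reducible apply IntF.fst | with_reducible apply IntF.snd | with_reducible apply IntF.app | with_reducible apply IntF.inl | with_reducible apply IntF.inr | with_reducible_and_instances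 apply IntF.mul | with_reducible_and_instances apply IntF.inv | with_reducible_and_instances apply IntF.add | with_reducible_and_instances apply IntF.sub | with_reducible_and_instances apply IntF.neg | with_reducible_and_instances apply IntF.smul | with_reducible apply Int.fin | with_reducible apply IntF.sep | with_reducible apply IntF.lam | with_reducible apply IntF.insert | with_reducible apply IntF.singleton | with_reducible apply IntF.union | with_reducible apply IntF.iimage | with_reducible apply IntF.ite | with_reducible apply IntF.the | with_reducible apply IntF.irec | with_reducible apply IntF.succ | with_reducible apply IntF.val | with_reducible apply IntF.mk | (with_reducible refine Int.comp ?_ ?_; assumption) | (with_reducible refine Int.comp₂ ?_ ?_ ?_; assumption) | (with_reducible refine Int.comp₃ ?_ ?_ ?_ ?_; assumption) | (with_reducible refine Int.comp₄ ?_ ?_ ?_ ?_ ?_; assumption) | (with_reducible refine IntF.comp ?_ ?_; assumption) | (with_reducible refine IntF.comp₂ ?_ ?_ ?_; assumption) | (with_reducible refine IntF.comp₃ ?_ ?_ ?_ ?_; assumption) | with_reducible apply IntF.pair))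
  have hu : ∀ i a b, r i a → r i b → a = b := by
    intro i a b ha hb
    rcases ha with ⟨h1, h2⟩ | ⟨h1, h2⟩ | ⟨h1, h2, h3⟩ <;>
      rcases hb with ⟨h1', h2'⟩ | ⟨h1', h2'⟩ | ⟨h1', h2', h3'⟩
    · rw [h2, h2']
    · rw [h2'] at h1
      exact absurd rfl (hδ _ h1)
    · exact absurd h1 h1'
    · rw [h2] at h1'
      exact absurd rfl (hδ _ h1')
    · have h3 := h2.symm.trans h2'
      exact hi _ _ h1 h1' (congrArg (fun x : Ix M Y Ω => x.2.2) h3)
    · exact absurd h2 (h2' _ h1)
    · exact absurd h1' h1
    · exact absurd h2' (h2 _ h1')
    · rw [h3, h3']
  have ht : ∀ i, ∃ a, r i a := by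
    intro i
    by_cases h1 : i ∈ D
    · exact ⟨_, Or.inl ⟨h1, rfl⟩⟩
    · by_cases h2 : ∃ j, j ∈ D ∧ i = (j.1, (δ, f j))
      · obtain ⟨j, h2, h3⟩ := h2
        exact ⟨j, Or.inr (Or.inl ⟨h2, h3⟩)⟩
      · push Not at h2
        exact ⟨i, Or.inr (Or.inr ⟨h1, h2, rfl⟩)⟩
  have hsym : ∀ i a, r i a → r a i := by
    rintro i a (⟨h1, h2⟩ | ⟨h1, h2⟩ | ⟨h1, h2, h3⟩)
    · exact Or.inr (Or.inl ⟨h1, h2⟩)
    · exact Or.inl ⟨h1, h2⟩
    · rw [h3]
      exact Or.inr (Or.inr ⟨h1, h2, rfl⟩)
  have hs : IntF M (fun i => the (r i) i) := IntF.the hr IntF.id
  have hsp : ∀ i, r i (the (r i) i) := by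
    intro i
    obtain ⟨a, ha⟩ := ht i
    exact the_spec ⟨a, ha, fun b hb => hu i b a hb ha⟩
  have hse : ∀ i a, r i a → the (r i) i = a := fun i a h => hu i _ _ (hsp i) h
  have hinv : ∀ i, the (r (the (r i) i)) (the (r i) i) = i := fun i => hse _ _ (hsym _ _ (hsp i))
  have hc : ∀ i a, r i a → a.1 = i.1 := by
    rintro i a (⟨h1, h2⟩ | ⟨h1, h2⟩ | ⟨h1, h2, h3⟩)
    · rw [h2]
    · rw [h2]
    · rw [h3]
  have hco : ∀ i, ((IPerm.ofInv (fun i => the (r i) i) hs hinv).1.1 i).1 =
      (1 : IPerm M Y).1.1 i.1 := by
    intro i
    rw [IPerm.one_apply]
    exact hc _ _ (hsp i)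
  refine ⟨⟨IPerm.ofInv (fun i => the (r i) i) hs hinv, ⟨1, K.one 0, hco⟩⟩, hco, ?_, ?_, ?_⟩
  · intro i h1
    exact hse _ _ (Or.inl ⟨h1, rfl⟩)
  · intro i h1
    exact hse _ _ (Or.inr (Or.inl ⟨h1, rfl⟩))
  · intro i h1 h2
    exact hse _ _ (Or.inr (Or.inr ⟨h1, h2, rfl⟩))

theorem exists_lift {c : IPerm M Y} (hc : K.C 0 c) :
    ∃ τ : Ga Ω K, ∀ i, ap τ i = (c.1.1 i.1, i.2) := by
  have h1 : IntF M (fun i : Ix M Y Ω => (c.1.1 i.1, i.2)) := by (repeat' (first | with_reducible exact IntF.id | with_reducible exact IntF.fst' | with_reducible exact IntF.snd' | with_reducible exact IntF.const _ | with_reducible exact Int.const _ | assumption | with_reducible apply Int.and | with_reducible apply Int.or | with_reducible apply Int.not | with_reducible apply Int.imp | with_reducible apply Int.iff | with_reducible apply Int.ne | with_reducible apply Int.eq | with_reducible apply Int.mem | with_reducible apply Int.subset | with_reducible apply Int.ltN | with_reducible apply Int.leN | with_reducible_and_instances apply Int.le | with_reducible_and_instances apply Int.lt | with_reducible apply Int.all | with_reducible apply Int.ex |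 with_reducible apply IntF.fst | with_reducible apply IntF.snd | with_reducible apply IntF.app | with_reducible apply IntF.inl | with_reducible apply IntF.inr | with_reducible_and_instances apply IntF.mul | with_reducible_and_instances apply IntF.inv | with_reducible_and_instances apply IntF.add | with_reducible_and_instances apply IntF.sub | with_reducible_and_instances apply IntF.neg | with_reducible_and_instances apply IntF.smul | with_reducible apply Int.fin | with_reducible apply IntF.sep | with_reducible apply IntF.lam | with_reducible apply IntF.insert | with_reducible apply IntF.singleton | with_reducible apply IntF.union | with_reducible apply IntF.iimage | with_reducible apply IntF.ite | with_reducible apply IntF.the | with_reducible apply IntF.irec | with_reducible apply IntF.succ | with_reducible apply IntF.val | with_reducible apply IntF.mk | (with_reducible refine Int.comp ?_ ?_; assumption) | (with_reducible refine Int.comp₂ ?_ ?_ ?_; assumption) | (with_reducible refine Int.comp₃ ?_ ?_ ?_ ?_; assumption) | (with_reducible refine Int.comp₄ ?_ ?_ ?_ ?_ ?_; assumption) | (with_reducible refine IntF.comp ?_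 ?_; assumption) | (with_reducible refine IntF.comp₂ ?_ ?_ ?_; assumption) | (with_reducible refine IntF.comp₃ ?_ ?_ ?_ ?_; assumption) | with_reducible apply IntF.pair))
  have h2 : IntF M (fun i : Ix M Y Ω => (c.1.2 i.1, i.2)) := by (repeat' (first | with_reducible exact IntF.id | with_reducible exact IntF.fst' | with_reducible exact IntF.snd' | with_reducible exact IntF.const _ | with_reducible exact Int.const _ | assumption | with_reducible apply Int.and | with_reducible apply Int.or | with_reducible apply Int.not | with_reducible apply Int.imp | with_reducible apply Int.iff | with_reducible apply Int.ne | with_reducible apply Int.eq | with_reducible apply Int.mem | with_reducible apply Int.subset | with_reducible apply Int.ltN | with_reducible apply Int.leN | with_reducible_and_instances apply Int.le | with_reducible_and_instances apply Int.lt | with_reducible apply Int.all | with_reducible apply Int.ex | with_reducible apply IntF.fst | with_reducible apply IntF.snd | with_reducible apply IntF.app | with_reducible apply IntF.inl | with_reducible apply IntF.inr | with_reducible_and_instances apply IntF.mul | with_reducible_and_instances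 apply IntF.inv | with_reducible_and_instances apply IntF.add | with_reducible_and_instances apply IntF.sub | with_reducible_and_instances apply IntF.neg | with_reducible_and_instances apply IntF.smul | with_reducible apply Int.fin | with_reducible apply IntF.sep | with_reducible apply IntF.lam | with_reducible apply IntF.insert | with_reducible apply IntF.singleton | with_reducible apply IntF.union | with_reducible apply IntF.iimage | with_reducible apply IntF.ite | with_reducible apply IntF.the | with_reducible apply IntF.irec | with_reducible apply IntF.succ | with_reducible apply IntF.val | with_reducible apply IntF.mk | (with_reducible refine Int.comp ?_ ?_; assumption) | (with_reducible refine Int.comp₂ ?_ ?_ ?_; assumption) | (with_reducible refine Int.comp₃ ?_ ?_ ?_ ?_; assumption) | (with_reducible refine Int.comp₄ ?_ ?_ ?_ ?_ ?_; assumption) | (with_reducible refine IntF.comp ?_ ?_; assumption) | (with_reducible refine IntF.comp₂ ?_ ?_ ?_; assumption) | (with_reducible refine IntF.comp₃ ?_ ?_ ?_ ?_; assumption) | with_reducible apply IntF.pair))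
  refine ⟨⟨⟨(⟨fun i : Ix M Y Ω => (c.1.1 i.1, i.2), h1⟩, ⟨fun i : Ix M Y Ω => (c.1.2 i.1, i.2), h2⟩),
    fun i => Prod.ext (c.2.1 i.1) rfl, fun i => Prod.ext (c.2.2 i.1) rfl⟩, ⟨c, hc, fun i => rfl⟩⟩,
    fun i => rfl⟩

theorem exists_mv {c : IPerm M Y} (hc : K.C 0 c) {Fx : Ix M Y Ω → Prop} (hFx : Int M Fx)
    (hcF : ∀ i, Fx i → c.1.1 i.1 = i.1) {S : IPow M (Ix M Y Ω)} {f : Ix M Y Ω → INat M}
    (hf : IntF M f) (hi : ∀ i j, i ∈ S → j ∈ S → f i = f j → i = j) {δ : Ω}
    (hδ : ∀ i, i ∈ S → i.2.1 ≠ δ) (hδ' : ∀ i, Fx i → i.2.1 ≠ δ) :
    ∃ σ : Ga Ω K, Co σ c ∧ (∀ i, Fx i → ap σ i = i) ∧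
      ∀ i, i ∈ S → ¬ Fx i → ap σ i = (c.1.1 i.1, (δ, f i)) := by
  obtain ⟨t, ht⟩ := exists_lift (Ω := Ω) hc
  have hb : IntF M (fun i : Ix M Y Ω => (c.1.2 i.1, i.2)) := by (repeat' (first | with_reducible exact IntF.id | with_reducible exact IntF.fst' | with_reducible exact IntF.snd' | with_reducible exact IntF.const _ | with_reducible exact Int.const _ | assumption | with_reducible apply Int.and | with_reducible apply Int.or | with_reducible apply Int.not | with_reducible apply Int.imp | with_reducible apply Int.iff | with_reducible apply Int.ne | with_reducible apply Int.eq | with_reducible apply Int.mem | with_reducible apply Int.subset | with_reducible apply Int.ltN | with_reducible apply Int.leN | with_reducible_and_instances apply Int.le | with_reducible_and_instances apply Int.lt | with_reducible apply Int.all | with_reducible apply Int.ex | with_reducible apply IntF.fst | with_reducible apply IntF.snd | with_reducible apply IntF.app | with_reducible apply IntF.inl | with_reducible apply IntF.inr | with_reducible_and_instances apply IntF.mul | with_reducible_and_instances apply IntF.inv | with_reducible_and_instances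 apply IntF.add | with_reducible_and_instances apply IntF.sub | with_reducible_and_instances apply IntF.neg | with_reducible_and_instances apply IntF.smul | with_reducible apply Int.fin | with_reducible apply IntF.sep | with_reducible apply IntF.lam | with_reducible apply IntF.insert | with_reducible apply IntF.singleton | with_reducible apply IntF.union | with_reducible apply IntF.iimage | with_reducible apply IntF.ite | with_reducible apply IntF.the | with_reducible apply IntF.irec | with_reducible apply IntF.succ | with_reducible apply IntF.val | with_reducible apply IntF.mk | (with_reducible refine Int.comp ?_ ?_; assumption) | (with_reducible refine Int.comp₂ ?_ ?_ ?_; assumption) | (with_reducible refine Int.comp₃ ?_ ?_ ?_ ?_; assumption) | (with_reducible refine Int.comp₄ ?_ ?_ ?_ ?_ ?_; assumption) | (with_reducible refine IntF.comp ?_ ?_; assumption) | (with_reducible refine IntF.comp₂ ?_ ?_ ?_; assumption) | (with_reducible refine IntF.comp₃ ?_ ?_ ?_ ?_; assumption) | with_reducible apply IntF.pair))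
  have hI : Int M (fun i : Ix M Y Ω => (c.1.2 i.1, i.2) ∈ S ∧ ¬ Fx (c.1.2 i.1, i.2)) := by
    refine Int.and (by (repeat' (first | with_reducible exact IntF.id | with_reducible exact IntF.fst' | with_reducible exact IntF.snd' | with_reducible exact IntF.const _ | with_reducible exact Int.const _ | assumption | with_reducible apply Int.and | with_reducible apply Int.or | with_reducible apply Int.not | with_reducible apply Int.imp | with_reducible apply Int.iff | with_reducible apply Int.ne | with_reducible apply Int.eq | with_reducible apply Int.mem | with_reducible apply Int.subset | with_reducible apply Int.ltN | with_reducible apply Int.leN | with_reducible_and_instances apply Int.le | with_reducible_and_instances apply Int.lt | with_reducible apply Int.all | with_reducible apply Int.ex | with_reducible apply IntF.fst | with_reducible apply IntF.snd | with_reducible apply IntF.app | with_reducible apply IntF.inl | with_reducible apply IntF.inr | with_reducible_and_instances apply IntF.mul | with_reducible_and_instances apply IntF.inv | with_reducible_and_instances apply IntF.add | with_reducible_and_instances apply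 IntF.sub | with_reducible_and_instances apply IntF.neg | with_reducible_and_instances apply IntF.smul | with_reducible apply Int.fin | with_reducible apply IntF.sep | with_reducible apply IntF.lam | with_reducible apply IntF.insert | with_reducible apply IntF.singleton | with_reducible apply IntF.union | with_reducible apply IntF.iimage | with_reducible apply IntF.ite | with_reducible apply IntF.the | with_reducible apply IntF.irec | with_reducible apply IntF.succ | with_reducible apply IntF.val | with_reducible apply IntF.mk | (with_reducible refine Int.comp ?_ ?_; assumption) | (with_reducible refine Int.comp₂ ?_ ?_ ?_; assumption) | (with_reducible refine Int.comp₃ ?_ ?_ ?_ ?_; assumption) | (with_reducible refine Int.comp₄ ?_ ?_ ?_ ?_ ?_; assumption) | (with_reducible refine IntF.comp ?_ ?_; assumption) | (with_reducible refine IntF.comp₂ ?_ ?_ ?_; assumption) | (with_reducible refine IntF.comp₃ ?_ ?_ ?_ ?_; assumption) | with_reducible apply IntF.pair))) (Int.not ?_)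
    exact Int.comp (p := Fx) (f := fun i : Ix M Y Ω => (c.1.2 i.1, i.2)) hFx hb
  have hf' : IntF M (fun i : Ix M Y Ω => f (c.1.2 i.1, i.2)) := hf.comp hb
  obtain ⟨τ, h1, h2, h3, h4⟩ := exists_sw (K := K) (D := sep M fun i : Ix M Y Ω =>
    (c.1.2 i.1, i.2) ∈ S ∧ ¬ Fx (c.1.2 i.1, i.2)) hf' (by
      intro i j hi' hj' hij
      rw [mem_sep hI] at hi' hj'
      have h5 := hi _ _ hi'.1 hj'.1 hij
      have h6 := congrArg (fun x : Ix M Y Ω => c.1.1 x.1) h5
      beta_reduce at h6
      rw [c.2.1, c.2.1] at h6
      have h7 : i.2 = j.2 := (Prod.ext_iff.1 h5).2
      exact Prod.ext h6 h7) (δ := δ) (by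
      intro i hi'
      rw [mem_sep hI] at hi'
      exact hδ (c.1.2 i.1, i.2) hi'.1)
  have e1 : ∀ y, c.1.2 (c.1.1 y) = y := c.2.2
  refine ⟨τ * t, fun i => ?_, fun i hF => ?_, fun i hS hF => ?_⟩
  · rw [ap_mul, h1, ht, IPerm.one_apply]
  · have h5 : ap t i = i := by rw [ht, hcF i hF]
    rw [ap_mul, h5]
    refine h4 i (fun h6 => ?_) fun j hj h6 => ?_
    · rw [mem_sep hI] at h6
      have h7 : c.1.2 i.1 = i.1 := by
        have := e1 i.1
        rwa [hcF i hF] at this
      rw [h7] at h6
      exact h6.2 hF
    · have := hδ' i hF
      rw [h6] at this
      exact this rfl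
  · rw [ap_mul, ht, h2]
    · exact Prod.ext rfl (Prod.ext rfl (congrArg f (Prod.ext (e1 i.1) rfl)))
    · rw [mem_sep hI]
      have h5 : (c.1.2 (c.1.1 i.1), i.2) = i := Prod.ext (e1 i.1) rfl
      beta_reduce
      rw [h5]
      exact ⟨hS, hF⟩

theorem fresh_lem (hΩ : ¬ Ctb M (fun _ : Ω => True)) {B : IPow M (Ix M Y Ω)} (hB : Cb B)
    {p q : Pk M Y Ω V} (h : q ≤ rs B p) : ∃ σ : Ga Ω K, Co σ 1 ∧ (∀ i, i ∈ B → ap σ i = i) ∧
      ∃ r, r ≤ p ∧ r ≤ σ • q := by
  obtain ⟨f, hf⟩ := cb_idx q
  obtain ⟨δ, hδ⟩ := exists_fresh hΩ (((cb_idx q).union hB).union (cb_idx p))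
  obtain ⟨σ, h1, h2, h3⟩ := exists_mv (K := K) (c := 1) (K.one 0) (Fx := fun i => i ∈ B) (by (repeat' (first | with_reducible exact IntF.id | with_reducible exact IntF.fst' | with_reducible exact IntF.snd' | with_reducible exact IntF.const _ | with_reducible exact Int.const _ | assumption | with_reducible apply Int.and | with_reducible apply Int.or | with_reducible apply Int.not | with_reducible apply Int.imp | with_reducible apply Int.iff | with_reducible apply Int.ne | with_reducible apply Int.eq | with_reducible apply Int.mem | with_reducible apply Int.subset | with_reducible apply Int.ltN | with_reducible apply Int.leN | with_reducible_and_instances apply Int.le | with_reducible_and_instances apply Int.lt | with_reducible apply Int.all | with_reducible apply Int.ex | with_reducible apply IntF.fst | with_reducible apply IntF.snd | with_reducible apply IntF.app | with_reducible apply IntF.inl | with_reducible apply IntF.inr | with_reducible_and_instances apply IntF.mul | with_reducible_and_instances apply IntF.inv | with_reducible_and_instances apply IntF.add | with_reducible_and_instances apply IntF.sub | with_reducible_and_instances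 apply IntF.neg | with_reducible_and_instances apply IntF.smul | with_reducible apply Int.fin | with_reducible apply IntF.sep | with_reducible apply IntF.lam | with_reducible apply IntF.insert | with_reducible apply IntF.singleton | with_reducible apply IntF.union | with_reducible apply IntF.iimage | with_reducible apply IntF.ite | with_reducible apply IntF.the | with_reducible apply IntF.irec | with_reducible apply IntF.succ | with_reducible apply IntF.val | with_reducible apply IntF.mk | (with_reducible refine Int.comp ?_ ?_; assumption) | (with_reducible refine Int.comp₂ ?_ ?_ ?_; assumption) | (with_reducible refine Int.comp₃ ?_ ?_ ?_ ?_; assumption) | (with_reducible refine Int.comp₄ ?_ ?_ ?_ ?_ ?_; assumption) | (with_reducible refine IntF.comp ?_ ?_; assumption) | (with_reducible refine IntF.comp₂ ?_ ?_ ?_; assumption) | (with_reducible refine IntF.comp₃ ?_ ?_ ?_ ?_; assumption) | with_reducible apply IntF.pair)))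
    (fun i _ => IPerm.one_apply _) (S := idx q) (f := fun i => f i) f.2 hf (δ := δ)
    (fun i hi => hδ i (mem_union.2 (Or.inl (mem_union.2 (Or.inl hi)))))
    (fun i hi => hδ i (mem_union.2 (Or.inl (mem_union.2 (Or.inr hi)))))
  obtain ⟨r, -, h4, h5⟩ := exists_join (p := p) (q := σ • q) (by
    intro i d v v' hv hv'
    rw [mem_smul₂] at hv'
    have h6 : api σ i ∈ idx q := mem_idx.2 ⟨_, hv'⟩
    by_cases h7 : api σ i ∈ B
    · have h8 := h2 _ h7
      rw [ap_api] at h8
      rw [← h8] at h7 hv'
      exact q.2.1 _ _ _ _ (h _ (mem_rs.2 ⟨hv, h7⟩)) hv'
    · have h8 := h3 _ h6 h7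
      rw [ap_api] at h8
      have h9 := hδ i (mem_union.2 (Or.inr (mem_idx.2 ⟨_, hv⟩)))
      rw [h8] at h9
      exact absurd rfl h9)
  exact ⟨σ, h1, h2, r, h4, h5⟩

theorem gen_lem {G : Set (Pk M Y Ω V)} (hG : IsGen M G) (hΩ : ¬ Ctb M (fun _ : Ω => True))
    (l : Su M Y Ω) {c : IPerm M Y} (hc : K.C l.1 c) (r : Pk M Y Ω V) (hr : rs (LaS K l) r ∈ G)
    {S D : IPow M (Ix M Y Ω)} (hS : Cb S) (hD : Cb D) :
    ∃ σ : Ga Ω K, Uk l σ ∧ Co σ c ∧ (∀ i, i ∈ S → ¬ La K l i → ¬ ap σ i ∈ D) ∧ σ • r ∈ G := by
  have i1 : IntF M (fun q : Ga Ω K × Ix M Y Ω => ap q.1 q.2) := int_ap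
  have i2 : Int M (fun q : Ga Ω K × IPerm M Y => Co q.1 q.2) := int_Co
  have i3 : Int M (fun q : Su M Y Ω × Ga Ω K => Uk q.1 q.2) := int_Uk
  have i4 : Int M (fun q : Su M Y Ω × Ix M Y Ω => La K q.1 q.2) := int_La
  obtain ⟨p, hp, -, σ, h1, h2, h3, h4⟩ := hG.dense_below (s := fun p => ∃ σ : Ga Ω K,
    Uk l σ ∧ Co σ c ∧ (∀ i, i ∈ S → ¬ La K l i → ¬ ap σ i ∈ D) ∧ p ≤ σ • r) (by (repeat' (first | with_reducible exact IntF.id | with_reducible exact IntF.fst' | with_reducible exact IntF.snd' | with_reducible exact IntF.const _ | with_reducible exact Int.const _ | assumption | with_reducible apply Int.and | with_reducible apply Int.or | with_reducible apply Int.not | with_reducible apply Int.imp | with_reducible apply Int.iff | with_reducible apply Int.ne | with_reducible apply Int.eq | with_reducible apply Int.mem | with_reducible apply Int.subset | with_reducible apply Int.ltN | with_reducible apply Int.leN | with_reducible_and_instances apply Int.le | with_reducible_and_instances apply Int.lt | with_reducible apply Int.all | with_reducible apply Int.ex | with_reducible apply IntF.fst | with_reducible apply IntF.snd |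 with_reducible apply IntF.app | with_reducible apply IntF.inl | with_reducible apply IntF.inr | with_reducible_and_instances apply IntF.mul | with_reducible_and_instances apply IntF.inv | with_reducible_and_instances apply IntF.add | with_reducible_and_instances apply IntF.sub | with_reducible_and_instances apply IntF.neg | with_reducible_and_instances apply IntF.smul | with_reducible apply Int.fin | with_reducible apply IntF.sep | with_reducible apply IntF.lam | with_reducible apply IntF.insert | with_reducible apply IntF.singleton | with_reducible apply IntF.union | with_reducible apply IntF.iimage | with_reducible apply IntF.ite | with_reducible apply IntF.the | with_reducible apply IntF.irec | with_reducible apply IntF.succ | with_reducible apply IntF.val | with_reducible apply IntF.mk | (with_reducible refine Int.comp ?_ ?_; assumption) | (with_reducible refine Int.comp₂ ?_ ?_ ?_; assumption) | (with_reducible refine Int.comp₃ ?_ ?_ ?_ ?_; assumption) | (with_reducible refine Int.comp₄ ?_ ?_ ?_ ?_ ?_; assumption) | (with_reducible refine IntF.comp ?_ ?_; assumption) | (with_reducible refine IntF.comp₂ ?_ ?_ ?_;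 assumption) | (with_reducible refine IntF.comp₃ ?_ ?_ ?_ ?_; assumption) | with_reducible apply IntF.pair))) hr (by
      intro p hp
      have hS' := hS.union (cb_idx r)
      obtain ⟨f, hf⟩ := id hS'
      obtain ⟨δ, hδ⟩ := exists_fresh hΩ (((hS'.union hD).union (cb_idx p)).union l.2.2)
      obtain ⟨σ, h1, h2, h3⟩ := exists_mv (K := K) (c := c) (K.anti _ _ _ (zero_le_nat _) hc)
        (Fx := La K l) (by (repeat' (first | with_reducible exact IntF.id | with_reducible exact IntF.fst' | with_reducible exact IntF.snd' | with_reducible exact IntF.const _ | with_reducible exact Int.const _ | assumption | with_reducible apply Int.and | with_reducible apply Int.or | with_reducible apply Int.not | with_reducible apply Int.imp | with_reducible apply Int.iff | with_reducible apply Int.ne | with_reducible apply Int.eq | with_reducible apply Int.mem | with_reducible apply Int.subset | with_reducible apply Int.ltN | with_reducible apply Int.leN | with_reducible_and_instances apply Int.le | with_reducible_and_instances apply Int.lt | with_reducible apply Int.all | with_reducible apply Int.ex | with_reducible apply IntF.fst | with_reducible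 apply IntF.snd | with_reducible apply IntF.app | with_reducible apply IntF.inl | with_reducible apply IntF.inr | with_reducible_and_instances apply IntF.mul | with_reducible_and_instances apply IntF.inv | with_reducible_and_instances apply IntF.add | with_reducible_and_instances apply IntF.sub | with_reducible_and_instances apply IntF.neg | with_reducible_and_instances apply IntF.smul | with_reducible apply Int.fin | with_reducible apply IntF.sep | with_reducible apply IntF.lam | with_reducible apply IntF.insert | with_reducible apply IntF.singleton | with_reducible apply IntF.union | with_reducible apply IntF.iimage | with_reducible apply IntF.ite | with_reducible apply IntF.the | with_reducible apply IntF.irec | with_reducible apply IntF.succ | with_reducible apply IntF.val | with_reducible apply IntF.mk | (with_reducible refine Int.comp ?_ ?_; assumption) | (with_reducible refine Int.comp₂ ?_ ?_ ?_; assumption) | (with_reducible refine Int.comp₃ ?_ ?_ ?_ ?_; assumption) | (with_reducible refine Int.comp₄ ?_ ?_ ?_ ?_ ?_; assumption) | (with_reducible refine IntF.comp ?_ ?_; assumption) | (with_reducible refine IntF.comp₂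 ?_ ?_ ?_; assumption) | (with_reducible refine IntF.comp₃ ?_ ?_ ?_ ?_; assumption) | with_reducible apply IntF.pair)))
        (fun i hi => K.fix _ _ hc _ hi.1) (S := S ∪ idx r) (f := fun i => f i) f.2 hf (δ := δ)
        (fun i hi => hδ i (mem_union.2 (Or.inl (mem_union.2 (Or.inl (mem_union.2 (Or.inl hi)))))))
        (fun i hi => hδ i (mem_union.2 (Or.inr hi.2)))
      have h0 : ∀ i, i ∈ S ∪ idx r → ¬ La K l i → (ap σ i).2.1 = δ := by
        intro i hi hn
        rw [h3 i hi hn]
      obtain ⟨r', -, h4, h5⟩ := exists_join (p := p) (q := σ • r) (by
        intro i d v v' hv hv'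
        rw [mem_smul₂] at hv'
        have h6 : api σ i ∈ idx r := mem_idx.2 ⟨_, hv'⟩
        by_cases h7 : La K l (api σ i)
        · have h8 := h2 _ h7
          rw [ap_api] at h8
          rw [← h8] at h7 hv'
          exact p.2.1 _ _ _ _ hv (hp _ (mem_rs.2 ⟨hv', mem_LaS.2 h7⟩))
        · have h8 := h0 _ (mem_union.2 (Or.inr h6)) h7
          rw [ap_api] at h8
          exact absurd h8 (hδ i (mem_union.2 (Or.inl (mem_union.2 (Or.inr (mem_idx.2 ⟨_, hv⟩)))))))
      refine ⟨r', h4, σ, ⟨⟨c, hc, h1⟩, h2⟩, h1, fun i hi hn hD' => ?_, h5⟩
      exact hδ _ (mem_union.2 (Or.inl (mem_union.2 (Or.inl (mem_union.2 (Or.inr hD'))))))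
        (h0 i (mem_union.2 (Or.inl hi)) hn))
  exact ⟨σ, h1, h2, h3, hG.up _ _ hp h4⟩

theorem seq_lem (hA : AC M) (hΩ : ¬ Ctb M (fun _ : Ω => True)) (l : Su M Y Ω)
    {c : INat M → IPerm M Y} (hcI : IntF M c) (hc : ∀ j, K.C l.1 (c j)) {S : IPow M (Ix M Y Ω)}
    (hS : Cb S) : ∃ π : INat M → Ga Ω K, IntF M π ∧ (∀ j, Uk l (π j)) ∧ (∀ j, Co (π j) (c j)) ∧
      ∀ j j' i i', i ∈ S → i' ∈ S → ap (π j) i = ap (π j') i' → (j = j' ∧ i = i') ∨
        (i = i' ∧ La K l i) := by
  have i1 : IntF M (fun q : Ga Ω K × Ix M Y Ω => ap q.1 q.2) := int_ap
  have i2 : Int M (fun q : Ga Ω K × IPerm M Y => Co q.1 q.2) := int_Co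
  have i3 : Int M (fun q : Su M Y Ω × Ga Ω K => Uk q.1 q.2) := int_Uk
  have i4 : Int M (fun q : Su M Y Ω × Ix M Y Ω => La K q.1 q.2) := int_La
  have hp : IntF M (fun q : INat M × INat M => pr q.1 q.2) := int_pr
  obtain ⟨f, hf⟩ := id hS
  obtain ⟨δ, hδ⟩ := exists_fresh hΩ (hS.union l.2.2)
  have j1 : IntF M (fun q : (INat M × Ga Ω K) × Ix M Y Ω => q.1.1) := IntF.fst IntF.fst'
  have j2 : IntF M (fun q : (INat M × Ga Ω K) × Ix M Y Ω => q.1.2) := IntF.snd IntF.fst'
  have j3 : IntF M (fun q : (INat M × Ga Ω K) × Ix M Y Ω => q.2) := IntF.snd'
  have j4 : IntF M (fun q : (INat M × Ga Ω K) × Ix M Y Ω => c q.1.1) := IntF.comp hcI j1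
  have j5 : IntF M (fun q : (INat M × Ga Ω K) × Ix M Y Ω => (c q.1.1).1.1 q.2.1) :=
    IntF.app (IntF.fst (IntF.val j4)) (IntF.fst j3)
  have j6 : IntF M (fun q : (INat M × Ga Ω K) × Ix M Y Ω => pr q.1.1 (f q.2)) :=
    IntF.comp₂ (p := fun a b : INat M => pr a b) hp j1 (IntF.app (IntF.const f) j3)
  have hI1 : Int M (fun q : (INat M × Ga Ω K) × Ix M Y Ω => ap q.1.2 q.2 =
      (((c q.1.1).1.1 q.2.1, (δ, pr q.1.1 (f q.2))) : Ix M Y Ω)) :=
    Int.eq (IntF.comp₂ (p := fun (g : Ga Ω K) i => ap g i) i1 j2 j3)
      (IntF.pair j5 (IntF.pair (IntF.const _) j6))
  have hI2 : Int M (fun q : INat M × Ga Ω K => ∀ i, i ∈ S → ¬ La K l i →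
      ap q.2 i = (((c q.1).1.1 i.1, (δ, pr q.1 (f i))) : Ix M Y Ω)) := by
    refine Int.all (Int.imp (Int.mem j3 (IntF.const _)) (Int.imp (Int.not ?_) hI1))
    exact Int.comp₂ (p := fun (l : Su M Y Ω) i => La K l i) i4 (IntF.const _) j3
  have hI3 : Int M (fun q : INat M × Ga Ω K => Uk l q.2 ∧ Co q.2 (c q.1) ∧ ∀ i, i ∈ S →
      ¬ La K l i → ap q.2 i = (((c q.1).1.1 i.1, (δ, pr q.1 (f i))) : Ix M Y Ω)) := by
    refine Int.and ?_ (Int.and ?_ hI2)
    · exact Int.comp₂ (p := fun (l : Su M Y Ω) (g : Ga Ω K) => Uk l g) i3 (IntF.const _) IntF.snd'
    · exact Int.comp₂ (p := fun (g : Ga Ω K) c => Co g c) i2 IntF.snd' (IntF.comp hcI IntF.fst')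
  obtain ⟨π, h1, h2⟩ := hA.choice (γ := INat M) (β := Ga Ω K) (r := fun j π =>
    Uk l π ∧ Co π (c j) ∧ ∀ i, i ∈ S → ¬ La K l i → ap π i = ((c j).1.1 i.1, (δ, pr j (f i))))
    hI3 (fun j => by
      obtain ⟨σ, h1, h2, h3⟩ := exists_mv (K := K) (c := c j) (K.anti _ _ _ (zero_le_nat _) (hc j))
        (Fx := La K l) (Int.comp₂ (p := fun (l : Su M Y Ω) i => La K l i) i4 (IntF.const _) IntF.id)
        (fun i hi => K.fix _ _ (hc j) _ hi.1) (S := S)
        (f := fun i => pr j (f i)) (IntF.comp₂ (p := fun a b : INat M => pr a b) hp
          (IntF.const _) f.2) (fun i i' hi hi' he => hf _ _ hi hi' (pr_inj he).2)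
        (δ := δ) (fun i hi => hδ i (mem_union.2 (Or.inl hi)))
        (fun i hi => hδ i (mem_union.2 (Or.inr hi.2)))
      exact ⟨σ, ⟨⟨_, hc j, h1⟩, h2⟩, h1, h3⟩) 0
  refine ⟨π, h1, fun j => (h2 j).1, fun j => (h2 j).2.1, fun j j' i i' hi hi' he => ?_⟩
  by_cases h3 : La K l i <;> by_cases h4 : La K l i'
  · rw [(h2 j).1.2 i h3, (h2 j').1.2 i' h4] at he
    exact Or.inr ⟨he, h3⟩
  · rw [(h2 j).1.2 i h3, (h2 j').2.2 i' hi' h4] at he
    have := hδ i (mem_union.2 (Or.inl hi))
    rw [he] at this
    exact absurd rfl this
  · rw [(h2 j).2.2 i hi h3, (h2 j').1.2 i' h4] at he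
    have := hδ i' (mem_union.2 (Or.inl hi'))
    rw [← he] at this
    exact absurd rfl this
  · rw [(h2 j).2.2 i hi h3, (h2 j').2.2 i' hi' h4] at he
    have h5 := pr_inj (congrArg (fun x : Ix M Y Ω => x.2.2) he)
    exact Or.inl ⟨h5.1, hf _ _ hi hi' h5.2⟩

theorem seq_union (l : Su M Y Ω) {π : INat M → Ga Ω K} (hπ : IntF M π) {S : IPow M (Ix M Y Ω)}
    (hu : ∀ j, Uk l (π j)) (hinj : ∀ j j' i i', i ∈ S → i' ∈ S → ap (π j) i = ap (π j') i' →
      (j = j' ∧ i = i') ∨ (i = i' ∧ La K l i)) {q : Pk M Y Ω V} (hq : ∀ i, i ∈ idx q → i ∈ S) :
    ∃ r : Pk M Y Ω V, (∀ j, r ≤ π j • q) ∧ rs (LaS K l) q ≤ rs (LaS K l) r := by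
  have i1 : IntF M (fun q : Ga Ω K × Ix M Y Ω => ap q.1 q.2) := int_ap
  have i2 : IntF M (fun q : Ga Ω K × Ix M Y Ω => api q.1 q.2) := int_api
  have hI0 : IntF M (fun x : Ce M Y Ω V × INat M => (π x.2 • q).1) :=
    IntF.val (IntF.smul (IntF.comp hπ IntF.snd') (IntF.const _))
  have hI : Int M (fun c : Ce M Y Ω V => ∃ j : INat M, c ∈ (π j • q).1) :=
    Int.ex (Int.mem IntF.fst' hI0)
  have hJ : IntF M (fun x : INat M × Ce M Y Ω V => ap (π x.1) x.2.1) :=
    IntF.comp₂ (p := fun (g : Ga Ω K) i => ap g i) i1 (IntF.comp hπ IntF.fst')
      (IntF.fst IntF.snd')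
  refine ⟨⟨sep M fun c : Ce M Y Ω V => ∃ j : INat M, c ∈ (π j • q).1, ?_, ?_⟩, ?_, ?_⟩
  · intro i d v v' h1 h2
    rw [mem_sep hI] at h1 h2
    obtain ⟨j, h1⟩ := h1
    obtain ⟨j', h2⟩ := h2
    rw [mem_smul₂] at h1 h2
    have h3 : api (π j) i = api (π j') i := by
      rcases hinj j j' (api (π j) i) (api (π j') i) (hq _ (mem_idx.2 ⟨_, h1⟩))
        (hq _ (mem_idx.2 ⟨_, h2⟩)) (by rw [ap_api, ap_api]) with h | h
      · exact h.2
      · exact h.1
    rw [h3] at h1
    exact q.2.1 _ _ _ _ h1 h2
  · refine cb_of ((Ctb.image (P := fun x : INat M × Ce M Y Ω V => x.2 ∈ q.1)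
      (Int.mem IntF.snd' (IntF.const _))
      (Ctb.prodN q.2.2.ctb) (f := fun x : INat M × Ce M Y Ω V => (ap (π x.1) x.2.1, x.2.2))
      (IntF.pair hJ (IntF.snd IntF.snd'))).mono ?_)
    intro c hc
    rw [mem_sep hI] at hc
    obtain ⟨j, hc⟩ := hc
    rw [mem_smul'] at hc
    exact ⟨(j, (api (π j) c.1, c.2)), hc, Prod.ext (ap_api _ _) rfl⟩
  · intro j c hc
    exact (mem_sep hI).2 ⟨j, hc⟩
  · intro c hc
    obtain ⟨h1, h2⟩ := mem_rs.1 hc
    obtain ⟨j, h1⟩ := (mem_sep hI).1 h1
    rw [mem_smul'] at h1
    refine mem_rs.2 ⟨?_, h2⟩
    have h3 := (hu j).2 _ (mem_LaS.1 h2)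
    have h4 : api (π j) c.1 = c.1 := by
      have := congrArg (api (π j)) h3
      rw [api_ap] at this
      exact this.symm
    rw [h4] at h1
    exact h1

end Pool.Agent.Helper672.ZFA.V246K
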