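import Pool.Agent.H635R2.Fam
import Pool.Agent.H635R2.Pow
import Pool.Agent.H635R2.Zf
import Pool.Agent.H310R3.NA8

/-!
# Membership of check names in a set of the extension
-/

set_option maxHeartbeats 1000000
set_option linter.all false
set_option synthInstance.maxSize 2000

namespace Pool.Agent.Helper672.ZFA.V246

open FirstOrder FirstOrder.Language
open H635
open Pool.Agent.Helper672.Plain (LSet)

universe u

section

variable {M : Type u} [L.Structure M] [hM : IsModel M]
variable {P Γ : Type u} [ITy M P] [Preorder P] [ILE M P] [ITy M Γ] [Group Γ] [IMul M Γ]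
  [IInv M Γ] [MulAction Γ P] [ISMul M Γ P]
variable {Λ : Type u} [ITy M Λ] {S : SymSys M P Γ Λ}
variable {ε δ : Type u} [ITy M ε] [ITy M δ]
variable {G : Set P} (hG : IsGen M G)

theorem exists_T {f : ε → NN S hG} (hf : EqFam hG (fun (_ : Γ) (c : ε) => c) f) (x : NN S hG) :
    ∃ (T : ε → P → Prop) (l : Λ), Int M (fun q : ε × P => T q.1 q.2) ∧
      (∀ c p q, T c p → q ≤ p → T c q) ∧ (∀ c p, (∀ q, q ≤ p → ∃ r, r ≤ q ∧ T c r) → T c p) ∧
      (∀ c, Plain.Mem (f c) x ↔ ∃ p, p ∈ G ∧ T c p) ∧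
      ∀ π, S.U l π → ∀ c p, T c p → T c (π • p) := by
  obtain ⟨α, _, E, h, g, hg, h1, h2⟩ := hf
  obtain ⟨x, rfl⟩ := exists_mk hG x
  obtain ⟨l, hl⟩ := x.good.sym x.root
  have hI := h.int.fmem x.int
  refine ⟨fun c p => FMem M E x.E p (g c) x.root, l, ?_, ?_, ?_, ?_, ?_⟩
  · exact Int.comp₃ (p := fun p a b => FMem M E x.E p a b) hI IntF.snd' (hg.comp IntF.fst')
      (IntF.const _)
  · intro c p q hT hq
    exact hT.mono hq
  · intro c p hp
    exact FMem.of_dense hp
  · intro c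
    rw [h1, mk_eq_nd, mem_nd_nd]
  · intro π hπ c p hT
    have h3 := fmem_tw S π hT
    exact FMem.congr_left h.int (h.int.tw π) x.int
      ((h2 π (π • p) c).symm (h.int.tw π) h.int)
      (FMem.congr_right (h.int.tw π) (x.int.tw π) x.int h3 (hl π hπ (π • p)))

end

end Pool.Agent.Helper672.ZFA.V246
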