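import Pool.Agent.V11246.Kb
import Pool.Agent.V11246.Tee

/-!
# Restriction and copying
-/

set_option maxHeartbeats 1000000
set_option linter.all false
set_option synthInstance.maxSize 2000

namespace Pool.Agent.Helper672.ZFA.H635

open FirstOrder FirstOrder.Language
open Pool.Agent.Helper672.Plain (LSet)

universe u

section

variable {M : Type u} [L.Structure M] [hM : IsModel M]
variable {P Γ : Type u} [ITy M P] [Preorder P] [ILE M P] [ITy M Γ] [Group Γ] [IMul M Γ]
  [IInv M Γ] [MulAction Γ P] [ISMul M Γ P]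
variable {Λ : Type u} [ITy M Λ] {S : SymSys M P Γ Λ}
variable {α ε δ : Type u} [ITy M α] [ITy M ε] [ITy M δ]
variable {G : Set P} (hG : IsGen M G)

theorem exists_T' {act : Γ → ε → ε} {f : ε → NN S hG} (hf : EqFam hG act f) (x : NN S hG) :
    ∃ (T : ε → P → Prop) (l : Λ), Int M (fun q : ε × P => T q.1 q.2) ∧
      (∀ c p q, T c p → q ≤ p → T c q) ∧ (∀ c p, (∀ q, q ≤ p → ∃ r, r ≤ q ∧ T c r) → T c p) ∧
      (∀ c, Plain.Mem (f c) x ↔ ∃ p, p ∈ G ∧ T c p) ∧
      ∀ π, S.U l π → ∀ c p, T c p → T (act π c) (π • p) := by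
  obtain ⟨α, _, E, h, g, hg, h1, h2⟩ := hf
  obtain ⟨x, rfl⟩ := exists_mk hG x
  obtain ⟨l, hl⟩ := x.good.sym x.root
  have hI := h.int.fmem x.int
  refine ⟨fun c p => FMem M E x.E p (g c) x.root, l, ?_, ?_, ?_, ?_, ?_⟩
  · exact Int.comp₃ (p := fun p a b => FMem M E x.E p a b) hI IntF.snd' (hg.comp IntF.fst')
      (IntF.const _)
  · intro c p q hT hq
    exact hT.mono hq
  · intro c p hp
    exact FMem.of_dense hp
  · intro c
    rw [h1, mk_eq_nd, mem_nd_nd]
  · intro π hπ c p hT
    have h3 := fmem_tw S π hT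
    exact FMem.congr_left h.int (h.int.tw π) x.int
      ((h2 π (π • p) c).symm (h.int.tw π) h.int)
      (FMem.congr_right (h.int.tw π) (x.int.tw π) x.int h3 (hl π hπ (π • p)))

theorem exists_TR {act : Γ → ε → ε} {f : ε → NN S hG} (hf : EqFam hG act f) (x : NN S hG)
    {R : ε → ε → Prop} (hR : Int M (fun q : ε × ε => R q.1 q.2)) (hr : ∀ c, R c c)
    (ht : ∀ a b c, R a b → R b c → R a c) (hRf : ∀ a b, R a b → f a = f b)
    (hRa : ∀ π a b, R a b → R (act π a) (act π b)) :
    ∃ (T : ε → P → Prop) (l : Λ), Int M (fun q : ε × P => T q.1 q.2) ∧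
      (∀ c p q, T c p → q ≤ p → T c q) ∧ (∀ c p, (∀ q, q ≤ p → ∃ r, r ≤ q ∧ T c r) → T c p) ∧
      (∀ c, Plain.Mem (f c) x ↔ ∃ p, p ∈ G ∧ T c p) ∧
      (∀ π, S.U l π → ∀ c p, T c p → T (act π c) (π • p)) ∧
      ∀ c c' p, R c c' → T c' p → T c p := by
  obtain ⟨T, l, h1, h2, h3, h4, h5⟩ := exists_T' hG hf x
  refine ⟨fun c p => ∀ q, q ≤ p → ∃ r, r ≤ q ∧ ∃ c', R c c' ∧ T c' r, l, ?_, ?_, ?_, ?_, ?_, ?_⟩
  · (repeat' (first | with_reducible exact IntF.id | with_reducible exact IntF.fst' | with_reducible exact IntF.snd' | with_reducible exact IntF.const _ | with_reducible exact Int.const _ | assumption | with_reducible apply Int.and | with_reducible apply Int.or | with_reducible apply Int.not | with_reducible apply Int.imp | with_reducible apply Int.iff | with_reducible apply Int.ne | with_reducible apply Int.eq | with_reducible apply Int.mem | with_reducible apply Int.subset | with_reducible apply Int.ltN | with_reducible apply Int.leN | with_reducible_and_instances apply Int.le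 | with_reducible_and_instances apply Int.lt | with_reducible apply Int.all | with_reducible apply Int.ex | with_reducible apply IntF.fst | with_reducible apply IntF.snd | with_reducible apply IntF.app | with_reducible apply IntF.inl | with_reducible apply IntF.inr | with_reducible_and_instances apply IntF.mul | with_reducible_and_instances apply IntF.inv | with_reducible_and_instances apply IntF.add | with_reducible_and_instances apply IntF.sub | with_reducible_and_instances apply IntF.neg | with_reducible_and_instances apply IntF.smul | with_reducible apply Int.fin | with_reducible apply IntF.sep | with_reducible apply IntF.lam | with_reducible apply IntF.insert | with_reducible apply IntF.singleton | with_reducible apply IntF.union | with_reducible apply IntF.iimage | with_reducible apply IntF.ite | with_reducible apply IntF.the | with_reducible apply IntF.irec | with_reducible apply IntF.succ | with_reducible apply IntF.val | with_reducible apply IntF.mk | (with_reducible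 refine Int.comp ?_ ?_; assumption) | (with_reducible refine Int.comp₂ ?_ ?_ ?_; assumption) | (with_reducible refine Int.comp₃ ?_ ?_ ?_ ?_; assumption) | (with_reducible refine Int.comp₄ ?_ ?_ ?_ ?_ ?_; assumption) | (with_reducible refine IntF.comp ?_ ?_; assumption) | (with_reducible refine IntF.comp₂ ?_ ?_ ?_; assumption) | (with_reducible refine IntF.comp₃ ?_ ?_ ?_ ?_; assumption) | with_reducible apply IntF.pair))
  · intro c p q h6 hq r hr'
    exact h6 r (hr'.trans hq)
  · intro c p h6 q hq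
    obtain ⟨r, hr', h7⟩ := h6 q hq
    obtain ⟨s, hs, h8⟩ := h7 r le_rfl
    exact ⟨s, hs.trans hr', h8⟩
  · intro c
    constructor
    · intro h6
      obtain ⟨p, hp, h7⟩ := (h4 c).1 h6
      exact ⟨p, hp, fun q hq => ⟨q, le_rfl, c, hr c, h2 _ _ _ h7 hq⟩⟩
    · rintro ⟨p, hp, h6⟩
      obtain ⟨q, hq, -, c', h7, h8⟩ := hG.dense_below (s := fun r => ∃ c', R c c' ∧ T c' r)
        (by (repeat' (first | with_reducible exact IntF.id | with_reducible exact IntF.fst' | with_reducible exact IntF.snd' | with_reducible exact IntF.const _ | with_reducible exact Int.const _ | assumption | with_reducible apply Int.and | with_reducible apply Int.or | with_reducible apply Int.not | with_reducible apply Int.imp | with_reducible apply Int.iff | with_reducible apply Int.ne | with_reducible apply Int.eq | with_reducible apply Int.mem | with_reducible apply Int.subset | with_reducible apply Int.ltN | with_reducible apply Int.leN | with_reducible_and_instances apply Int.le | with_reducible_and_instances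 apply Int.lt | with_reducible apply Int.all | with_reducible apply Int.ex | with_reducible apply IntF.fst | with_reducible apply IntF.snd | with_reducible apply IntF.app | with_reducible apply IntF.inl | with_reducible apply IntF.inr | with_reducible_and_instances apply IntF.mul | with_reducible_and_instances apply IntF.inv | with_reducible_and_instances apply IntF.add | with_reducible_and_instances apply IntF.sub | with_reducible_and_instances apply IntF.neg | with_reducible_and_instances apply IntF.smul | with_reducible apply Int.fin | with_reducible apply IntF.sep | with_reducible apply IntF.lam | with_reducible apply IntF.insert | with_reducible apply IntF.singleton | with_reducible apply IntF.union | with_reducible apply IntF.iimage | with_reducible apply IntF.ite | with_reducible apply IntF.the | with_reducible apply IntF.irec | with_reducible apply IntF.succ | with_reducible apply IntF.val | with_reducible apply IntF.mk | (with_reducible refine Int.comp ?_ ?_; assumption)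 | (with_reducible refine Int.comp₂ ?_ ?_ ?_; assumption) | (with_reducible refine Int.comp₃ ?_ ?_ ?_ ?_; assumption) | (with_reducible refine Int.comp₄ ?_ ?_ ?_ ?_ ?_; assumption) | (with_reducible refine IntF.comp ?_ ?_; assumption) | (with_reducible refine IntF.comp₂ ?_ ?_ ?_; assumption) | (with_reducible refine IntF.comp₃ ?_ ?_ ?_ ?_; assumption) | with_reducible apply IntF.pair))) hp h6
      rw [hRf _ _ h7]
      exact (h4 c').2 ⟨q, hq, h8⟩
  · intro π hπ c p h6 q hq
    obtain ⟨r, hr', c', h7, h8⟩ := h6 (π⁻¹ • q) ((smul_le_iff' S π).1 hq)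
    refine ⟨π • r, ?_, act π c', hRa _ _ _ h7, h5 π hπ _ _ h8⟩
    have := S.smul_le π hr'
    rwa [smul_inv_smul] at this
  · intro c c' p h6 h7 q hq
    obtain ⟨r, hr', c'', h8, h9⟩ := h7 q hq
    exact ⟨r, hr', c'', ht _ _ _ h6 h8, h9⟩

theorem nd_og_eq' {E : α → P → α → Prop} (h : Good S E) {l : Λ} {a : α} (hl : Sy S E l a)
    (π : Γ) {σ : Γ} (hσ : S.U l σ) :
    nd hG (good_og h) ((π * σ, a) : Γ × α) = nd hG (good_og h) ((π, a) : Γ × α) := by
  refine nd_eq_of hG _ _ fun p => ?_
  have hI := ig_og (Γ := Γ) h.int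
  have h1 := feq_og (M := M) (E := E) (π * σ) p a
  have h2 := feq_og (M := M) (E := E) π p a
  have h3 := feq_tw S π (hl σ hσ (π⁻¹ • p))
  rw [smul_inv_smul, ← tw_mul] at h3
  exact (h1.symm (h.int.tw _) hI).trans hI (h.int.tw _) hI (h3.trans (h.int.tw _) (h.int.tw _) hI h2)

theorem EqFam.setP {act : Γ → ε → ε} {f : ε → NN S hG} (hf : EqFam hG act f) {Z : ε → P → Prop}
    (hZ : Int M (fun q : ε × P => Z q.1 q.2))
    (hs : ∃ l, ∀ π, S.U l π → ∀ c r, Z c r → Z (act π c) (π • r)) :
    ∃ z : NN S hG, ∀ w, Plain.Mem w z ↔ ∃ c r, r ∈ G ∧ Z c r ∧ w = f c := by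
  obtain ⟨α, _, E, h, g, hg, h1, h2⟩ := hf
  obtain ⟨l, hl⟩ := hs
  have hQ : Int M (fun q : α × P => ∃ c, Z c q.2 ∧ q.1 = g c) := by (repeat' (first | with_reducible exact IntF.id | with_reducible exact IntF.fst' | with_reducible exact IntF.snd' | with_reducible exact IntF.const _ | with_reducible exact Int.const _ | assumption | with_reducible apply Int.and | with_reducible apply Int.or | with_reducible apply Int.not | with_reducible apply Int.imp | with_reducible apply Int.iff | with_reducible apply Int.ne | with_reducible apply Int.eq | with_reducible apply Int.mem | with_reducible apply Int.subset | with_reducible apply Int.ltN | with_reducible apply Int.leN | with_reducible_and_instances apply Int.le | with_reducible_and_instances apply Int.lt | with_reducible apply Int.all | with_reducible apply Int.ex | with_reducible apply IntF.fst | with_reducible apply IntF.snd | with_reducible apply IntF.app | with_reducible apply IntF.inl | with_reducible apply IntF.inr | with_reducible_and_instances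 apply IntF.mul | with_reducible_and_instances apply IntF.inv | with_reducible_and_instances apply IntF.add | with_reducible_and_instances apply IntF.sub | with_reducible_and_instances apply IntF.neg | with_reducible_and_instances apply IntF.smul | with_reducible apply Int.fin | with_reducible apply IntF.sep | with_reducible apply IntF.lam | with_reducible apply IntF.insert | with_reducible apply IntF.singleton | with_reducible apply IntF.union | with_reducible apply IntF.iimage | with_reducible apply IntF.ite | with_reducible apply IntF.the | with_reducible apply IntF.irec | with_reducible apply IntF.succ | with_reducible apply IntF.val | with_reducible apply IntF.mk | (with_reducible refine Int.comp ?_ ?_; assumption) | (with_reducible refine Int.comp₂ ?_ ?_ ?_; assumption) | (with_reducible refine Int.comp₃ ?_ ?_ ?_ ?_; assumption) | (with_reducible refine Int.comp₄ ?_ ?_ ?_ ?_ ?_; assumption) | (with_reducible refine IntF.comp ?_ ?_; assumption) | (with_reducible refine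 IntF.comp₂ ?_ ?_ ?_; assumption) | (with_reducible refine IntF.comp₃ ?_ ?_ ?_ ?_; assumption) | with_reducible apply IntF.pair))
  obtain ⟨z, hz⟩ := exists_set hG h (Q := fun x r => ∃ c, Z c r ∧ x = g c) hQ ⟨l, by
    rintro π hπ _ r ⟨c, hc, rfl⟩ q hq
    exact ⟨q, le_rfl, g (act π c), π • r, ⟨_, hl π hπ c r hc, rfl⟩, hq, h2 π q c⟩⟩
  refine ⟨z, fun w => (hz w).trans ?_⟩
  constructor
  · rintro ⟨_, s, hs, ⟨c, hc, rfl⟩, rfl⟩
    exact ⟨c, s, hs, hc, (h1 c).symm⟩
  · rintro ⟨c, r, hr, hc, rfl⟩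
    exact ⟨g c, r, hr, ⟨c, hc, rfl⟩, h1 c⟩

end

end Pool.Agent.Helper672.ZFA.H635

namespace Pool.Agent.Helper672.ZFA.V246K

open FirstOrder FirstOrder.Language
open Pool.Agent.Helper672.ZFA.H635 (IPerm SymSys IWO IsGen)
open Pool.Agent.Helper672.ZFA.V246 (Ctb exists_lf)
open Pool.Agent.H310

universe u

variable {M : Type u} [L.Structure M] [hM : IsModel M] {Y : Type u} [ITy M Y]
variable {Ω : Type u} [ITy M Ω] {V : Type u} [ITy M V] {K : Cols M Y}

/-- A binary forcing relation with the supports `l0` and `la`. -/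
structure Fr (l0 la : Su M Y Ω) (T : Ga Ω K → Ga Ω K → Pk M Y Ω V → Prop) : Prop where
  mono : ∀ π π' p q, T π π' p → q ≤ p → T π π' q
  dense : ∀ π π' p, (∀ q, q ≤ p → ∃ r, r ≤ q ∧ T π π' r) → T π π' p
  eqv : ∀ σ, Uk l0 σ → ∀ π π' p, T π π' p → T (σ * π) (σ * π') (σ • p)
  cong : ∀ π π' u u' p, Uk la u → Uk la u' → T (π * u) (π' * u') p → T π π' p

theorem Uk.one {l : Su M Y Ω} : Uk l (1 : Ga Ω K) := (Sk Ω Ω K).one l
theorem Uk.mul {l : Su M Y Ω} {a b : Ga Ω K} (ha : Uk l a) (hb : Uk l b) : Uk l (a * b) :=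
  (Sk Ω Ω K).mul l a b ha hb
theorem Uk.inv {l : Su M Y Ω} {a : Ga Ω K} (ha : Uk l a) : Uk l a⁻¹ := (Sk Ω Ω K).inv l a ha

theorem Co.inv_mul {π σ : Ga Ω K} (h : ∀ i, (ap π i).1 = (ap σ i).1) : Co (π⁻¹ * σ) 1 := by
  intro i
  obtain ⟨c, -, hc⟩ := exists_col π
  rw [IPerm.one_apply, ap_mul, ap_inv]
  have h1 := hc (api π (ap σ i))
  have h2 := hc i
  rw [ap_api] at h1
  rw [h i] at h2
  rw [h2] at h1
  have h3 := congrArg c.1.2 h1
  rw [c.2.2, c.2.2] at h3
  exact h3.symm

theorem uk_of {l : Su M Y Ω} {π : Ga Ω K} (h : Co π 1) (h' : ∀ i, La K l i → ap π i = i) :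
    Uk l π := ⟨⟨1, K.one _, h⟩, h'⟩

/-- The image of the support. -/
noncomputable def im (π : Ga Ω K) (A : IPow M (Ix M Y Ω)) : IPow M (Ix M Y Ω) := iimage (ap π) A

theorem int_ap' (π : Ga Ω K) : IntF M (fun i : Ix M Y Ω => ap π i) :=
  IntF.comp₂ (p := fun (g : Ga Ω K) i => ap g i) int_ap (IntF.const _) IntF.id

theorem int_api' (π : Ga Ω K) : IntF M (fun i : Ix M Y Ω => api π i) :=
  IntF.comp₂ (p := fun (g : Ga Ω K) i => api g i) int_api (IntF.const _) IntF.id

theorem mem_im {π : Ga Ω K} {A : IPow M (Ix M Y Ω)} {i : Ix M Y Ω} :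
    i ∈ im π A ↔ ∃ j, j ∈ A ∧ ap π j = i := mem_iimage (int_ap' π)

theorem cb_im {π : Ga Ω K} {A : IPow M (Ix M Y Ω)} (h : Cb A) : Cb (im π A) :=
  h.image (int_ap' π)

variable {l0 la : Su M Y Ω} {T : Ga Ω K → Ga Ω K → Pk M Y Ω V → Prop}

theorem Fr.res (hT : Fr l0 la T) (hΩ : ¬ Ctb M (fun _ : Ω => True))
    (hl : ∀ i, La K l0 i → La K la i) {π π' : Ga Ω K} (hπ : Uk l0 π) {p : Pk M Y Ω V}
    (h : T π π' p) : T π π' (rs (im π (LaS K la) ∪ im π' (LaS K la)) p) := by
  refine hT.dense _ _ _ fun q hq => ?_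
  obtain ⟨σ, h1, h2, r, h3, h4⟩ := fresh_lem (K := K) hΩ
    ((cb_im (cb_LaS la)).union (cb_im (cb_LaS la))) hq
  have h5 : Uk l0 σ := uk_of h1 fun i hi => h2 i (mem_union.2 (Or.inl (mem_im.2
    ⟨i, mem_LaS.2 (hl i hi), hπ.2 i hi⟩)))
  refine ⟨σ⁻¹ • r, ?_, ?_⟩
  · exact (H635.smul_le_iff' (Sk Ω V K) σ).1 h4
  · have h6 := hT.eqv _ h5.inv _ _ _ (hT.mono _ _ _ _ h h3)
    have key : ∀ τ : Ga Ω K, (∀ i, i ∈ im τ (LaS K la) → ap σ i = i) → Uk la (τ⁻¹ * (σ⁻¹ * τ)) := by
      intro τ hτ
      refine uk_of (Co.inv_mul fun i => ?_) fun i hi => ?_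
      · rw [ap_mul, ap_inv]
        have h7 := h1 (api σ (ap τ i))
        rw [ap_api, IPerm.one_apply] at h7
        exact h7
      · rw [ap_mul, ap_mul, ap_inv, ap_inv]
        have h7 := hτ (ap τ i) (mem_im.2 ⟨i, mem_LaS.2 hi, rfl⟩)
        have h8 : api σ (ap τ i) = ap τ i := by
          have := congrArg (api σ) h7
          rw [api_ap] at this
          exact this.symm
        rw [h8, api_ap]
    refine hT.cong π π' _ _ _ (key π fun i hi => h2 i (mem_union.2 (Or.inl hi)))
      (key π' fun i hi => h2 i (mem_union.2 (Or.inr hi))) ?_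
    rw [mul_inv_cancel_left, mul_inv_cancel_left]
    exact h6

/-- Mutually fresh elements. -/
def MF (K : Cols M Y) (l0 la : Su M Y Ω) (π π' : Ga Ω K) : Prop :=
  ∀ i j, La K la i → La K la j → ap π i = ap π' j → i = j ∧ La K l0 i

theorem Fr.copy (hT : Fr l0 la T) (hΩ : ¬ Ctb M (fun _ : Ω => True))
    (hl : ∀ i, La K l0 i → La K la i) {π₁ π₁' π π' : Ga Ω K} (h1 : Uk l0 π₁) (h1' : Uk l0 π₁')
    (hπ : Uk l0 π) (hπ' : Uk l0 π') (hc : ∀ i, (ap (π * π₁⁻¹ * π₁') i).1 = (ap π' i).1)
    (hm1 : MF K l0 la π₁ π₁') (hm : MF K l0 la π π') {r : Pk M Y Ω V} (h : T π₁ π₁' r)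
    {r' : Pk M Y Ω V} (hr : r' ≤ π • (π₁⁻¹ • r)) (hr' : r' ≤ π' • (π₁'⁻¹ • r)) : T π π' r' := by
  set μ : Ga Ω K := π * π₁⁻¹ * π₁' with hμ
  have iLa : Int M (fun i : Ix M Y Ω => La K l0 i) :=
    Int.comp₂ (p := fun (l : Su M Y Ω) i => La K l i) int_La (IntF.const _) IntF.id
  have iLb : Int M (fun i : Ix M Y Ω => La K la i) :=
    Int.comp₂ (p := fun (l : Su M Y Ω) i => La K l i) int_La (IntF.const _) IntF.id
  obtain ⟨f, hf⟩ := cb_LaS (K := K) la
  obtain ⟨δ, hδ⟩ := exists_fresh hΩ (((cb_im (π := π) (cb_LaS la)).union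
    (cb_im (π := μ) (cb_LaS la))).union (cb_im (π := π') (cb_LaS la)))
  have hδ1 : ∀ i, La K la i → (ap π i).2.1 ≠ δ := fun i hi =>
    hδ _ (mem_union.2 (Or.inl (mem_union.2 (Or.inl (mem_im.2 ⟨i, mem_LaS.2 hi, rfl⟩)))))
  have hδ2 : ∀ i, La K la i → (ap μ i).2.1 ≠ δ := fun i hi =>
    hδ _ (mem_union.2 (Or.inl (mem_union.2 (Or.inr (mem_im.2 ⟨i, mem_LaS.2 hi, rfl⟩)))))
  have hδ3 : ∀ i, La K la i → (ap π' i).2.1 ≠ δ := fun i hi =>
    hδ _ (mem_union.2 (Or.inr (mem_im.2 ⟨i, mem_LaS.2 hi, rfl⟩)))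
  have sw : ∀ ν : Ga Ω K, (∀ i, La K la i → (ap ν i).2.1 ≠ δ) → ∃ τ : Ga Ω K, Co τ 1 ∧
      (∀ i, La K la i → ¬ La K l0 i → ap τ (ap ν i) = ((ap ν i).1, (δ, f i))) ∧
      (∀ i, La K la i → ¬ La K l0 i → ap τ ((ap ν i).1, (δ, f i)) = ap ν i) ∧
      ∀ x : Ix M Y Ω, x.2.1 ≠ δ → (∀ i, La K la i → ¬ La K l0 i → x ≠ ap ν i) → ap τ x = x := by
    intro ν hν
    have hI : Int M (fun x : Ix M Y Ω => La K la (api ν x) ∧ ¬ La K l0 (api ν x)) :=
      Int.and (Int.comp (p := fun i => La K la i) iLb (int_api' ν))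
        (Int.not (Int.comp (p := fun i => La K l0 i) iLa (int_api' ν)))
    obtain ⟨τ, a1, a2, a3, a4⟩ := exists_sw (K := K) (D := sep M fun x : Ix M Y Ω =>
      La K la (api ν x) ∧ ¬ La K l0 (api ν x)) (f := fun x => f (api ν x))
      (IntF.app (IntF.const _) (int_api' ν)) (fun i j hi hj hij => by
        have h5 := hf _ _ (mem_LaS.2 ((mem_sep hI).1 hi).1) (mem_LaS.2 ((mem_sep hI).1 hj).1) hij
        have h6 := congrArg (ap ν) h5
        rwa [ap_api, ap_api] at h6) (δ := δ) (fun i hi => by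
        have := hν _ ((mem_sep hI).1 hi).1
        rwa [ap_api] at this)
    refine ⟨τ, a1, fun i hi hn => ?_, fun i hi hn => ?_, fun x hx hx' => ?_⟩
    · have h5 := a2 (ap ν i) ((mem_sep hI).2 (by rw [api_ap]; exact ⟨hi, hn⟩))
      rw [api_ap] at h5
      exact h5
    · have h5 := a3 (ap ν i) ((mem_sep hI).2 (by rw [api_ap]; exact ⟨hi, hn⟩))
      rw [api_ap] at h5
      exact h5
    · refine a4 x (fun h5 => ?_) fun j hj h5 => ?_
      · have h6 := (mem_sep hI).1 h5
        exact hx' (api ν x) h6.1 h6.2 (ap_api _ _).symm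
      · rw [h5] at hx
        exact hx rfl
  obtain ⟨τ₁, a1, a2, a3, a4⟩ := sw μ hδ2
  obtain ⟨τ₂, b1, b2, b3, b4⟩ := sw π' hδ3
  have e1 : ∀ i, La K la i → ap (τ₂ * τ₁) (ap π i) = ap π i := by
    intro i hi
    rw [ap_mul, a4 _ (hδ1 i hi), b4 _ (hδ1 i hi)]
    · intro j hj hn h5
      obtain ⟨h6, h7⟩ := hm i j hi hj h5
      rw [h6] at h7
      exact hn h7
    · intro j hj hn h5
      rw [hμ, ap_mul, ap_mul] at h5
      have h6 := ap_inj _ h5
      rw [ap_inv] at h6
      have h7 := congrArg (ap π₁) h6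
      rw [ap_api] at h7
      obtain ⟨h8, h9⟩ := hm1 i j hi hj h7
      rw [h8] at h9
      exact hn h9
  have f0 : ∀ i, La K l0 i → ap μ i = i := by
    intro i hi
    exact ((hπ.mul h1.inv).mul h1').2 i hi
  have e2 : ∀ i, La K la i → ap (τ₂ * τ₁) (ap μ i) = ap π' i := by
    intro i hi
    by_cases hn : La K l0 i
    · rw [f0 i hn, hπ'.2 i hn]
      have := e1 i hi
      rwa [hπ.2 i hn] at this
    · rw [ap_mul, a2 i hi hn, hc i, b3 i hi hn]
  have hcτ : Co (τ₂ * τ₁) 1 := by
    intro i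
    rw [ap_mul, b1, a1, IPerm.one_apply, IPerm.one_apply]
  have hτ : Uk l0 (τ₂ * τ₁) := uk_of hcτ fun i hi => by
    have := e1 i (hl i hi)
    rwa [hπ.2 i hi] at this
  set ρ : Ga Ω K := (τ₂ * τ₁) * (π * π₁⁻¹) with hρ
  have hρU : Uk l0 ρ := hτ.mul (hπ.mul h1.inv)
  have g1 : ρ * π₁ = (τ₂ * τ₁) * π := by rw [hρ, mul_assoc, mul_assoc π, inv_mul_cancel, mul_one]
  have g2 : ρ * π₁' = (τ₂ * τ₁) * μ := by rw [hρ, hμ, mul_assoc]
  have h5 := hT.eqv ρ hρU _ _ _ h
  have h6 : T π π' (ρ • r) := by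
    refine hT.cong π π' (π⁻¹ * (ρ * π₁)) (π'⁻¹ * (ρ * π₁')) _ ?_ ?_ ?_
    · rw [g1]
      refine uk_of (Co.inv_mul fun i => ?_) fun i hi => ?_
      · rw [ap_mul, hcτ, IPerm.one_apply]
      · rw [ap_mul, ap_mul, e1 i hi, ap_inv, api_ap]
    · rw [g2]
      refine uk_of (Co.inv_mul fun i => ?_) fun i hi => ?_
      · rw [ap_mul, hcτ, IPerm.one_apply, hc]
      · rw [ap_mul, ap_mul, e2 i hi, ap_inv, api_ap]
    · rw [mul_inv_cancel_left, mul_inv_cancel_left]
      exact h5
  refine hT.mono _ _ _ _ (hT.res hΩ hl hπ h6) ?_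
  rintro ⟨x, w⟩ hx
  obtain ⟨h7, h8⟩ := mem_rs.1 hx
  rw [mem_smul₂] at h7
  rcases mem_union.1 h8 with h8 | h8
  · obtain ⟨i, hi, rfl⟩ := mem_im.1 h8
    have h9 : api ρ (ap π i) = ap π₁ i := by
      have h10 : ap ρ (ap π₁ i) = ap π i := by
        rw [← ap_mul, g1, ap_mul, e1 i (mem_LaS.1 hi)]
      rw [← h10, api_ap]
    rw [h9] at h7
    refine hr _ ?_
    rw [ap_mem_smul, mem_smul₂, api_inv]
    exact h7
  · obtain ⟨i, hi, rfl⟩ := mem_im.1 h8
    have h9 : api ρ (ap π' i) = ap π₁' i := by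
      have h10 : ap ρ (ap π₁' i) = ap π' i := by
        rw [← ap_mul, g2, ap_mul, e2 i (mem_LaS.1 hi)]
      rw [← h10, api_ap]
    rw [h9] at h7
    refine hr' _ ?_
    rw [ap_mem_smul, mem_smul₂, api_inv]
    exact h7

end Pool.Agent.Helper672.ZFA.V246K
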