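import Pool.Agent.V11246.Kc
import Pool.Agent.H635R2.Coll

/-!
# Natural numbers, well-orders and sequences in the extension
-/

set_option maxHeartbeats 1000000
set_option linter.all false
set_option synthInstance.maxSize 2000

namespace Pool.Agent.Helper672.ZFA.H635

open FirstOrder FirstOrder.Language
open Pool.Agent.Helper672.Plain (LSet)
open Pool.Agent.Helper672.ZFA.V246 (iwoNn)

universe u

section

variable {M : Type u} [L.Structure M] [hM : IsModel M]
variable {P Γ : Type u} [ITy M P] [Preorder P] [ILE M P] [ITy M Γ] [Group Γ] [IMul M Γ]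
  [IInv M Γ] [MulAction Γ P] [ISMul M Γ P]
variable {Λ : Type u} [ITy M Λ] {S : SymSys M P Γ Λ}
variable {α ε δ : Type u} [ITy M α] [ITy M ε] [ITy M δ]
variable {G : Set P} (hG : IsGen M G)

variable (S) in
/-- The natural numbers. -/
noncomputable def nm (n : INat M) : NN S hG := od S hG iwoNn n

theorem nm_fam : EqFam hG (fun (_ : Γ) (n : INat M) => n) (fun n => nm S hG n) := od_fam hG iwoNn

theorem mem_nm {w : NN S hG} {n : INat M} : Mem w (nm S hG n) ↔ ∃ m, m < n ∧ w = nm S hG m :=
  mem_od hG iwoNn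

variable (hC : CollL M)

include hC in
theorem nm_inj {m n : INat M} : nm S hG m = nm S hG n ↔ m = n :=
  ⟨fun h => od_inj hG iwoNn hC h, fun h => h ▸ rfl⟩

theorem exists_omS : ∃ z : NN S hG, ∀ w, Mem w z ↔ ∃ n, w = nm S hG n := exists_Od hG iwoNn

theorem extS {x y : NN S hG} (h : ∀ z, Mem z x ↔ Mem z y) : x = y := nn_ext hG h

include hC in
theorem isNat_nm (n : INat M) (i : NN S hG) (hi : Ind i) : Mem (nm S hG n) i := by
  by_contra hc
  obtain ⟨o, ho⟩ := exists_omS (S := S) hG
  have hS : Small {z : NN S hG | Mem z o ∧ z ∈ {z | ¬ Mem z i}} :=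
    small_sep (D.not (D.memf (DF.var _) (DF.const _))) o
  obtain ⟨y, hy, hmin⟩ := (nn_zf hG hC).foundation hS.elt
    ⟨nm S hG n, hS.mem.2 ⟨(ho _).2 ⟨n, rfl⟩, hc⟩⟩
  obtain ⟨h1, h2⟩ := hS.mem.1 hy
  obtain ⟨m, rfl⟩ := (ho _).1 h1
  rcases INat.eq_zero_or_succ m with rfl | ⟨k, rfl⟩
  · obtain ⟨e, he, -, h0⟩ := hi.1
    refine h2 ?_
    have : nm S hG (0 : INat M) = e := extS hG fun z => ⟨fun h => ?_, fun h => absurd h (h0 z)⟩
    · rw [this]
      exact he
    · obtain ⟨m, hm, -⟩ := (mem_nm hG).1 h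
      exact absurd hm INat.not_lt_zero
  · have hk : Mem (nm S hG k) i := by
      by_contra hk
      exact hmin (nm S hG k) (hS.mem.2 ⟨(ho _).2 ⟨k, rfl⟩, hk⟩)
        ((mem_nm hG).2 ⟨k, INat.lt_succ_self k, rfl⟩)
    obtain ⟨s, hs, -, h3⟩ := hi.2 _ hk
    refine h2 ?_
    have : nm S hG k.succ = s := extS hG fun z => by
      rw [h3 z, mem_nm, mem_nm]
      constructor
      · rintro ⟨m, hm, rfl⟩
        rcases INat.lt_succ_iff'.1 hm with hm | rfl
        · exact Or.inl ⟨m, hm, rfl⟩
        · exact Or.inr rfl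
      · rintro (⟨m, hm, rfl⟩ | rfl)
        · exact ⟨m, hm.trans (INat.lt_succ_self k), rfl⟩
        · exact ⟨k, INat.lt_succ_self k, rfl⟩
    rw [this]
    exact hs

variable (S) in
/-- The natural numbers of the extension. -/
noncomputable def nmN (n : INat M) : INat (NN S hG) := ⟨nm S hG n, fun i hi => isNat_nm hG hC n i hi⟩

theorem nmN_val (n : INat M) : (nmN S hG hC n).val = nm S hG n := rfl

theorem nmN_zero : nmN S hG hC 0 = 0 := by
  refine INat.ext (extS hG fun z => ?_)
  rw [nmN_val, mem_nm]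
  constructor
  · rintro ⟨m, hm, -⟩
    exact absurd hm INat.not_lt_zero
  · exact fun h => absurd h INat.not_mem_zero

theorem nmN_succ (n : INat M) : nmN S hG hC n.succ = (nmN S hG hC n).succ := by
  refine INat.ext (extS hG fun z => ?_)
  rw [INat.mem_succ, nmN_val, nmN_val, mem_nm, mem_nm]
  constructor
  · rintro ⟨m, hm, rfl⟩
    rcases INat.lt_succ_iff'.1 hm with hm | rfl
    · exact Or.inl ⟨m, hm, rfl⟩
    · exact Or.inr rfl
  · rintro (⟨m, hm, rfl⟩ | rfl)
    · exact ⟨m, hm.trans (INat.lt_succ_self n), rfl⟩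
    · exact ⟨n, INat.lt_succ_self n, rfl⟩

theorem nmN_surj (m : INat (NN S hG)) : ∃ n, nmN S hG hC n = m := by
  obtain ⟨o, ho⟩ := exists_omS (S := S) hG
  have h := m.prop o ⟨⟨(0 : INat (NN S hG)).val, (ho _).2 ⟨0, ?_⟩, trivial,
    fun z => INat.not_mem_zero⟩, fun z hz => ?_⟩
  · obtain ⟨n, hn⟩ := (ho _).1 h
    exact ⟨n, INat.ext hn.symm⟩
  · rw [← nmN_zero hG hC, nmN_val]
  · obtain ⟨n, rfl⟩ := (ho _).1 hz
    refine ⟨(nmN S hG hC n).succ.val, (ho _).2 ⟨n.succ, ?_⟩, trivial, fun z => INat.mem_succ⟩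
    rw [← nmN_succ, nmN_val]

theorem nmN_inj {m n : INat M} : nmN S hG hC m = nmN S hG hC n ↔ m = n := by
  refine ⟨fun h => ?_, fun h => h ▸ rfl⟩
  have := congrArg INat.val h
  exact (nm_inj hG hC).1 this

theorem nmN_lt {m n : INat M} : nmN S hG hC m < nmN S hG hC n ↔ m < n := by
  rw [INat.lt_def, nmN_val, nmN_val, mem_nm]
  constructor
  · rintro ⟨k, hk, h⟩
    rwa [(nm_inj hG hC).1 h]
  · exact fun h => ⟨m, h, rfl⟩

include hC in
theorem iwo_Od {lt : δ → δ → Prop} (hlt : IWO M δ lt) :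
    IWO (NN S hG) (El (Od S hG hlt)) (fun x y => Mem x.1 y.1) := by
  refine ⟨?_, ?_, ?_⟩
  · exact Int.of_D₂ (S := fun v => Mem (v 0) (v 1)) (D.memf (DF.var _) (DF.var _))
      fun _ _ => Iff.rfl
  · intro x y
    obtain ⟨a, ha⟩ := (mem_Od hG hlt).1 x.2
    obtain ⟨b, hb⟩ := (mem_Od hG hlt).1 y.2
    rcases hlt.tri a b with h | h | h
    · left
      rw [ha, hb]
      exact (mem_od hG hlt).2 ⟨a, h, rfl⟩
    · right
      left
      exact Subtype.ext (by rw [ha, hb, h])
    · right
      right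
      rw [ha, hb]
      exact (mem_od hG hlt).2 ⟨b, h, rfl⟩
  · intro s hne
    obtain ⟨x, hx⟩ := hne
    have h0 : ∀ z, Plain.Mem z (code (M := NN S hG) s) ↔
        ∃ a, a ∈ s ∧ code a = z := fun z => mem_code_pow (M := NN S hG)
    obtain ⟨y, h1, h2⟩ := (nn_zf hG hC).foundation (code (M := NN S hG) s)
      ⟨x.1, (h0 _).2 ⟨x, hx, rfl⟩⟩
    obtain ⟨a, h3, rfl⟩ := (h0 _).1 h1
    exact ⟨a, h3, fun b hb h4 => h2 b.1 ((h0 _).2 ⟨b, hb, rfl⟩) h4⟩

include hC in
/-- Sequences. -/
theorem exists_seq {act : Γ → ε → ε} (hact : ∀ π b, act π⁻¹ (act π b) = b) {f : ε → NN S hG}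
    (hf : EqFam hG act f) {R : ε → ε → Prop}
    (hR : Int M (fun q : ε × ε => R q.1 q.2)) (ht : ∀ a b c, R a b → R b c → R a c)
    (hr : ∀ c, R c c) (hRf : ∀ a b, R a b → f a = f b) (hRa : ∀ π a b, R a b → R (act π a) (act π b))
    {s : INat M → ε} (hs : IntF M s) {l : Λ} (hl : ∀ π, S.U l π → ∀ j, R (act π (s j)) (s j))
    {z : NN S hG} (hz : ∀ j, Mem (f (s j)) z) :
    ∃ t : INat (NN S hG) → El z, IntF (NN S hG) t ∧ ∀ j, (t (nmN S hG hC j)).1 = f (s j) := by
  have hF : EqFam hG (fun (π : Γ) (q : INat M × ε) => (q.1, act π q.2))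
      (fun q => ZFA.op (nm S hG q.1) (f q.2)) := by
    refine EqFam.op (fun π b => ?_) ?_ ?_
    · exact Prod.ext rfl (hact π b.2)
    · exact EqFam.comp (nm_fam (S := S) hG) (φ := fun q : INat M × ε => q.1) IntF.fst'
        fun _ _ => rfl
    · exact EqFam.comp hf (φ := fun q : INat M × ε => q.2) IntF.snd' fun _ _ => rfl
  obtain ⟨y, hy⟩ := EqFam.set hF (Z := fun q : INat M × ε => R q.2 (s q.1)) (by (repeat' (first | with_reducible exact IntF.id | with_reducible exact IntF.fst' | with_reducible exact IntF.snd' | with_reducible exact IntF.const _ | with_reducible exact Int.const _ | assumption | with_reducible apply Int.and | with_reducible apply Int.or | with_reducible apply Int.not | with_reducible apply Int.imp | with_reducible apply Int.iff | with_reducible apply Int.ne | with_reducible apply Int.eq | with_reducible apply Int.mem | with_reducible apply Int.subset | with_reducible apply Int.ltN | with_reducible apply Int.leN | with_reducible_and_instances apply Int.le | with_reducible_and_instances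 apply Int.lt | with_reducible apply Int.all | with_reducible apply Int.ex | with_reducible apply IntF.fst | with_reducible apply IntF.snd | with_reducible apply IntF.app | with_reducible apply IntF.inl | with_reducible apply IntF.inr | with_reducible_and_instances apply IntF.mul | with_reducible_and_instances apply IntF.inv | with_reducible_and_instances apply IntF.add | with_reducible_and_instances apply IntF.sub | with_reducible_and_instances apply IntF.neg | with_reducible_and_instances apply IntF.smul | with_reducible apply Int.fin | with_reducible apply IntF.sep | with_reducible apply IntF.lam | with_reducible apply IntF.insert | with_reducible apply IntF.singleton | with_reducible apply IntF.union | with_reducible apply IntF.iimage | with_reducible apply IntF.ite | with_reducible apply IntF.the | with_reducible apply IntF.irec | with_reducible apply IntF.succ | with_reducible apply IntF.val | with_reducible apply IntF.mk | (with_reducible refine Int.comp ?_ ?_; assumption)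 | (with_reducible refine Int.comp₂ ?_ ?_ ?_; assumption) | (with_reducible refine Int.comp₃ ?_ ?_ ?_ ?_; assumption) | (with_reducible refine Int.comp₄ ?_ ?_ ?_ ?_ ?_; assumption) | (with_reducible refine IntF.comp ?_ ?_; assumption) | (with_reducible refine IntF.comp₂ ?_ ?_ ?_; assumption) | (with_reducible refine IntF.comp₃ ?_ ?_ ?_ ?_; assumption) | with_reducible apply IntF.pair)))
    ⟨l, fun π hπ c hc => ht _ _ _ (hRa π _ _ hc) (hl π hπ c.1)⟩
  have hy' : ∀ j x, Mem (ZFA.op (nm S hG j) x) y ↔ x = f (s j) := by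
    intro j x
    refine (hy _).trans ⟨?_, ?_⟩
    · rintro ⟨⟨j', c⟩, h1, h2⟩
      obtain ⟨h3, h4⟩ := op_inj h2
      obtain rfl := (nm_inj hG hC).1 h3
      rw [h4]
      exact hRf _ _ h1
    · rintro rfl
      exact ⟨(j, s j), hr _, rfl⟩
  have hI : Int (NN S hG) (fun q : INat (NN S hG) × El z => Mem (ZFA.op q.1.val q.2.1) y) :=
    Int.of_D₂ (S := fun v => Mem (ZFA.op (v 0) (v 1)) y)
      (D.memf (DF.op (DF.var _) (DF.var _)) (DF.const _)) fun _ _ => Iff.rfl
  refine ⟨fun m => the (fun x : El z => Mem (ZFA.op m.val x.1) y) ⟨f (s 0), hz 0⟩,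
    IntF.the hI (IntF.const _), fun j => ?_⟩
  have := the_eq (p := fun x : El z => Mem (ZFA.op (nmN S hG hC j).val x.1) y)
    (d := ⟨f (s 0), hz 0⟩) (a := ⟨f (s j), hz j⟩)
    ⟨⟨f (s j), hz j⟩, (hy' _ _).2 rfl, fun x hx => Subtype.ext ((hy' _ _).1 hx)⟩ ((hy' _ _).2 rfl)
  beta_reduce
  rw [this]

end

end Pool.Agent.Helper672.ZFA.H635
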