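import Pool.Agent.V11246.Kd

/-!
# Countable closure and totally bounded sets
-/

set_option maxHeartbeats 1000000
set_option linter.all false
set_option synthInstance.maxSize 2000

namespace Pool.Agent.Helper672.ZFA.V246K

open FirstOrder FirstOrder.Language
open Pool.Agent.Helper672.ZFA.H635 (IPerm SymSys IWO IsGen NN EqFam nm nmN CollL)
open Pool.Agent.Helper672.ZFA.V246 (Ctb exists_lf)
open Pool.Agent.H310

universe u

variable {M : Type u} [L.Structure M] [hM : IsModel M] {Y : Type u} [ITy M Y]
variable {Ω : Type u} [ITy M Ω] {V : Type u} [ITy M V] {K : Cols M Y}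

theorem exists_inf (hA : AC M) {a : INat M → Pk M Y Ω V} (ha : IntF M a)
    (hd : ∀ n, a n.succ ≤ a n) : ∃ r : Pk M Y Ω V, ∀ n, r ≤ a n := by
  have hle : ∀ n m, n ≤ m → a m ≤ a n := by
    intro n m h
    refine INat.ind (p := fun m => n ≤ m → a m ≤ a n) (by (repeat' (first | with_reducible exact IntF.id | with_reducible exact IntF.fst' | with_reducible exact IntF.snd' | with_reducible exact IntF.const _ | with_reducible exact Int.const _ | assumption | with_reducible apply Int.and | with_reducible apply Int.or | with_reducible apply Int.not | with_reducible apply Int.imp | with_reducible apply Int.iff | with_reducible apply Int.ne | with_reducible apply Int.eq | with_reducible apply Int.mem | with_reducible apply Int.subset | with_reducible apply Int.ltN | with_reducible apply Int.leN | with_reducible_and_instances apply Int.le | with_reducible_and_instances apply Int.lt | with_reducible apply Int.all | with_reducible apply Int.ex | with_reducible apply IntF.fst | with_reducible apply IntF.snd | with_reducible apply IntF.app | with_reducible apply IntF.inl | with_reducible apply IntF.inr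 | with_reducible_and_instances apply IntF.mul | with_reducible_and_instances apply IntF.inv | with_reducible_and_instances apply IntF.add | with_reducible_and_instances apply IntF.sub | with_reducible_and_instances apply IntF.neg | with_reducible_and_instances apply IntF.smul | with_reducible apply Int.fin | with_reducible apply IntF.sep | with_reducible apply IntF.lam | with_reducible apply IntF.insert | with_reducible apply IntF.singleton | with_reducible apply IntF.union | with_reducible apply IntF.iimage | with_reducible apply IntF.ite | with_reducible apply IntF.the | with_reducible apply IntF.irec | with_reducible apply IntF.succ | with_reducible apply IntF.val | with_reducible apply IntF.mk | (with_reducible refine Int.comp ?_ ?_; assumption) | (with_reducible refine Int.comp₂ ?_ ?_ ?_; assumption) | (with_reducible refine Int.comp₃ ?_ ?_ ?_ ?_; assumption) | (with_reducible refine Int.comp₄ ?_ ?_ ?_ ?_ ?_; assumption) | (with_reducible refine IntF.comp ?_ ?_; assumption) | (with_reducible refine IntF.comp₂ ?_ ?_ ?_; assumption) | (with_reducible refine IntF.comp₃ ?_ ?_ ?_ ?_;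 assumption) | with_reducible apply IntF.pair))) ?_ ?_ m h
    · intro h
      have : n = 0 := le_antisymm h (zero_le_nat n)
      rw [this]
    · intro m ih h
      rcases h.lt_or_eq with h | h
      · exact (hd m).trans (ih (INat.lt_succ_iff.1 h))
      · rw [h]
  have hI0 : Int M (fun q : INat M × Ce M Y Ω V => q.2 ∈ (a q.1).1) :=
    Int.mem IntF.snd' (IntF.val (ha.comp IntF.fst'))
  have hI : Int M (fun c : Ce M Y Ω V => ∃ n, c ∈ (a n).1) :=
    Int.ex (Int.mem IntF.fst' (IntF.val (ha.comp IntF.snd')))
  refine ⟨⟨sep M fun c => ∃ n, c ∈ (a n).1, ?_, ?_⟩, fun n c hc => (mem_sep hI).2 ⟨n, hc⟩⟩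
  · intro i d v v' h h'
    obtain ⟨n, h⟩ := (mem_sep hI).1 h
    obtain ⟨m, h'⟩ := (mem_sep hI).1 h'
    rcases le_total n m with hnm | hnm
    · exact (a m).2.1 i d v v' (hle n m hnm _ h) h'
    · exact (a n).2.1 i d v v' h (hle m n hnm _ h')
  · refine cb_of ((Ctb.unionN hA (P := fun n c => c ∈ (a n).1) hI0
      fun n => (a n).2.2.ctb).mono fun c hc => (mem_sep hI).1 hc)

variable {G : Set (Pk M Y Ω V)} (hG : IsGen M G)
include hG

theorem sigma_gen (hA : AC M) {D : INat M → Pk M Y Ω V → Prop}
    (hD : Int M (fun q : INat M × Pk M Y Ω V => D q.1 q.2)) (h : ∀ n, ∃ q, q ∈ G ∧ D n q) :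
    ∃ q, q ∈ G ∧ ∀ n, ∃ q', q ≤ q' ∧ D n q' := by
  have hE : Int M (fun q : INat M × Pk M Y Ω V => ∃ q', q.2 ≤ q' ∧ D q.1 q') := by (repeat' (first | with_reducible exact IntF.id | with_reducible exact IntF.fst' | with_reducible exact IntF.snd' | with_reducible exact IntF.const _ | with_reducible exact Int.const _ | assumption | with_reducible apply Int.and | with_reducible apply Int.or | with_reducible apply Int.not | with_reducible apply Int.imp | with_reducible apply Int.iff | with_reducible apply Int.ne | with_reducible apply Int.eq | with_reducible apply Int.mem | with_reducible apply Int.subset | with_reducible apply Int.ltN | with_reducible apply Int.leN | with_reducible_and_instances apply Int.le | with_reducible_and_instances apply Int.lt | with_reducible apply Int.all | with_reducible apply Int.ex | with_reducible apply IntF.fst | with_reducible apply IntF.snd | with_reducible apply IntF.app | with_reducible apply IntF.inl | with_reducible apply IntF.inr | with_reducible_and_instances apply IntF.mul | with_reducible_and_instances apply IntF.inv | with_reducible_and_instances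 apply IntF.add | with_reducible_and_instances apply IntF.sub | with_reducible_and_instances apply IntF.neg | with_reducible_and_instances apply IntF.smul | with_reducible apply Int.fin | with_reducible apply IntF.sep | with_reducible apply IntF.lam | with_reducible apply IntF.insert | with_reducible apply IntF.singleton | with_reducible apply IntF.union | with_reducible apply IntF.iimage | with_reducible apply IntF.ite | with_reducible apply IntF.the | with_reducible apply IntF.irec | with_reducible apply IntF.succ | with_reducible apply IntF.val | with_reducible apply IntF.mk | (with_reducible refine Int.comp ?_ ?_; assumption) | (with_reducible refine Int.comp₂ ?_ ?_ ?_; assumption) | (with_reducible refine Int.comp₃ ?_ ?_ ?_ ?_; assumption) | (with_reducible refine Int.comp₄ ?_ ?_ ?_ ?_ ?_; assumption) | (with_reducible refine IntF.comp ?_ ?_; assumption) | (with_reducible refine IntF.comp₂ ?_ ?_ ?_; assumption) | (with_reducible refine IntF.comp₃ ?_ ?_ ?_ ?_; assumption) | with_reducible apply IntF.pair))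
  obtain ⟨q, hq, h1⟩ := hG.dense (fun q => (∀ n, ∃ q', q ≤ q' ∧ D n q') ∨
    ∃ n, ∀ r, r ≤ q → ¬ ∃ q', r ≤ q' ∧ D n q') (by (repeat' (first | with_reducible exact IntF.id | with_reducible exact IntF.fst' | with_reducible exact IntF.snd' | with_reducible exact IntF.const _ | with_reducible exact Int.const _ | assumption | with_reducible apply Int.and | with_reducible apply Int.or | with_reducible apply Int.not | with_reducible apply Int.imp | with_reducible apply Int.iff | with_reducible apply Int.ne | with_reducible apply Int.eq | with_reducible apply Int.mem | with_reducible apply Int.subset | with_reducible apply Int.ltN | with_reducible apply Int.leN | with_reducible_and_instances apply Int.le | with_reducible_and_instances apply Int.lt | with_reducible apply Int.all | with_reducible apply Int.ex | with_reducible apply IntF.fst | with_reducible apply IntF.snd | with_reducible apply IntF.app | with_reducible apply IntF.inl | with_reducible apply IntF.inr | with_reducible_and_instances apply IntF.mul | with_reducible_and_instances apply IntF.inv | with_reducible_and_instances apply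 IntF.add | with_reducible_and_instances apply IntF.sub | with_reducible_and_instances apply IntF.neg | with_reducible_and_instances apply IntF.smul | with_reducible apply Int.fin | with_reducible apply IntF.sep | with_reducible apply IntF.lam | with_reducible apply IntF.insert | with_reducible apply IntF.singleton | with_reducible apply IntF.union | with_reducible apply IntF.iimage | with_reducible apply IntF.ite | with_reducible apply IntF.the | with_reducible apply IntF.irec | with_reducible apply IntF.succ | with_reducible apply IntF.val | with_reducible apply IntF.mk | (with_reducible refine Int.comp ?_ ?_; assumption) | (with_reducible refine Int.comp₂ ?_ ?_ ?_; assumption) | (with_reducible refine Int.comp₃ ?_ ?_ ?_ ?_; assumption) | (with_reducible refine Int.comp₄ ?_ ?_ ?_ ?_ ?_; assumption) | (with_reducible refine IntF.comp ?_ ?_; assumption) | (with_reducible refine IntF.comp₂ ?_ ?_ ?_; assumption) | (with_reducible refine IntF.comp₃ ?_ ?_ ?_ ?_; assumption) | with_reducible apply IntF.pair))) (by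
      intro p
      by_cases h2 : ∃ q, q ≤ p ∧ ∃ n, ∀ r, r ≤ q → ¬ ∃ q', r ≤ q' ∧ D n q'
      · obtain ⟨q, h3, h4⟩ := h2
        exact ⟨q, h3, Or.inr h4⟩
      · have h3 : ∀ q, q ≤ p → ∀ n, ∃ r, r ≤ q ∧ ∃ q', r ≤ q' ∧ D n q' := by
          intro q hq n
          by_contra hcon
          exact h2 ⟨q, hq, n, fun r hr hr' => hcon ⟨r, hr, hr'⟩⟩
        obtain ⟨e, he, h4⟩ := hA.choice (γ := INat M × Pk M Y Ω V) (β := Pk M Y Ω V)
          (r := fun c r => r ≤ c.2 ∧ (c.2 ≤ p → ∃ q', r ≤ q' ∧ D c.1 q')) (by (repeat' (first | with_reducible exact IntF.id | with_reducible exact IntF.fst' | with_reducible exact IntF.snd' | with_reducible exact IntF.const _ | with_reducible exact Int.const _ | assumption | with_reducible apply Int.and | with_reducible apply Int.or | with_reducible apply Int.not | with_reducible apply Int.imp | with_reducible apply Int.iff | with_reducible apply Int.ne | with_reducible apply Int.eq | with_reducible apply Int.mem | with_reducible apply Int.subset | with_reducible apply Int.ltN | with_reducible apply Int.leN | with_reducible_and_instances apply Int.le | with_reducible_and_instances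 apply Int.lt | with_reducible apply Int.all | with_reducible apply Int.ex | with_reducible apply IntF.fst | with_reducible apply IntF.snd | with_reducible apply IntF.app | with_reducible apply IntF.inl | with_reducible apply IntF.inr | with_reducible_and_instances apply IntF.mul | with_reducible_and_instances apply IntF.inv | with_reducible_and_instances apply IntF.add | with_reducible_and_instances apply IntF.sub | with_reducible_and_instances apply IntF.neg | with_reducible_and_instances apply IntF.smul | with_reducible apply Int.fin | with_reducible apply IntF.sep | with_reducible apply IntF.lam | with_reducible apply IntF.insert | with_reducible apply IntF.singleton | with_reducible apply IntF.union | with_reducible apply IntF.iimage | with_reducible apply IntF.ite | with_reducible apply IntF.the | with_reducible apply IntF.irec | with_reducible apply IntF.succ | with_reducible apply IntF.val | with_reducible apply IntF.mk | (with_reducible refine Int.comp ?_ ?_; assumption) | (with_reducible refine Int.comp₂ ?_ ?_ ?_; assumption) | (with_reducible refine Int.comp₃ ?_ ?_ ?_ ?_; assumption)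 | (with_reducible refine Int.comp₄ ?_ ?_ ?_ ?_ ?_; assumption) | (with_reducible refine IntF.comp ?_ ?_; assumption) | (with_reducible refine IntF.comp₂ ?_ ?_ ?_; assumption) | (with_reducible refine IntF.comp₃ ?_ ?_ ?_ ?_; assumption) | with_reducible apply IntF.pair))) (by
            rintro ⟨n, q⟩
            by_cases hq : q ≤ p
            · obtain ⟨r, h5, h6⟩ := h3 q hq n
              exact ⟨r, h5, fun _ => h6⟩
            · exact ⟨q, le_rfl, fun h => absurd h hq⟩) (0, p)
        have hf : IntF M (fun q : INat M × Pk M Y Ω V => (fun n q => e (n, q)) q.1 q.2) := by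
          exact he.comp (IntF.pair IntF.fst' IntF.snd')
        have ha : IntF M (fun n : INat M => irec p (fun n q => e (n, q)) n) := by
          refine IntF.irec (IntF.const _) ?_ IntF.id
          exact he.comp (IntF.pair (IntF.snd IntF.fst') IntF.snd')
        have e0 : irec p (fun n q => e (n, q)) (0 : INat M) = p := irec_zero hf
        have e1 : ∀ n, irec p (fun n q => e (n, q)) (INat.succ n) =
          e (n, irec p (fun n q => e (n, q)) n) := fun n => irec_succ hf n
        have hle : ∀ n, irec p (fun n q => e (n, q)) n ≤ p := by
          refine INat.ind (p := fun n => irec p (fun n q => e (n, q)) n ≤ p) (by (repeat' (first | with_reducible exact IntF.id | with_reducible exact IntF.fst' | with_reducible exact IntF.snd' | with_reducible exact IntF.const _ | with_reducible exact Int.const _ | assumption | with_reducible apply Int.and | with_reducible apply Int.or | with_reducible apply Int.not | with_reducible apply Int.imp | with_reducible apply Int.iff | with_reducible apply Int.ne | with_reducible apply Int.eq | with_reducible apply Int.mem | with_reducible apply Int.subset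 | with_reducible apply Int.ltN | with_reducible apply Int.leN | with_reducible_and_instances apply Int.le | with_reducible_and_instances apply Int.lt | with_reducible apply Int.all | with_reducible apply Int.ex | with_reducible apply IntF.fst | with_reducible apply IntF.snd | with_reducible apply IntF.app | with_reducible apply IntF.inl | with_reducible apply IntF.inr | with_reducible_and_instances apply IntF.mul | with_reducible_and_instances apply IntF.inv | with_reducible_and_instances apply IntF.add | with_reducible_and_instances apply IntF.sub | with_reducible_and_instances apply IntF.neg | with_reducible_and_instances apply IntF.smul | with_reducible apply Int.fin | with_reducible apply IntF.sep | with_reducible apply IntF.lam | with_reducible apply IntF.insert | with_reducible apply IntF.singleton | with_reducible apply IntF.union | with_reducible apply IntF.iimage | with_reducible apply IntF.ite | with_reducible apply IntF.the | with_reducible apply IntF.irec | with_reducible apply IntF.succ | with_reducible apply IntF.val | with_reducible apply IntF.mk | (with_reducible refine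 Int.comp ?_ ?_; assumption) | (with_reducible refine Int.comp₂ ?_ ?_ ?_; assumption) | (with_reducible refine Int.comp₃ ?_ ?_ ?_ ?_; assumption) | (with_reducible refine Int.comp₄ ?_ ?_ ?_ ?_ ?_; assumption) | (with_reducible refine IntF.comp ?_ ?_; assumption) | (with_reducible refine IntF.comp₂ ?_ ?_ ?_; assumption) | (with_reducible refine IntF.comp₃ ?_ ?_ ?_ ?_; assumption) | with_reducible apply IntF.pair))) ?_ ?_
          · rw [e0]
          · intro n ih
            rw [e1]
            exact (h4 _).1.trans ih
        obtain ⟨r, hr⟩ := exists_inf hA ha (fun n => by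
          rw [e1]
          exact (h4 _).1)
        refine ⟨r, (hr 0).trans (hle 0), Or.inl fun n => ?_⟩
        obtain ⟨q', h5, h6⟩ := (h4 (n, irec p (fun n q => e (n, q)) n)).2 (hle n)
        refine ⟨q', ?_, h6⟩
        have h7 := hr n.succ
        rw [e1] at h7
        exact h7.trans h5)
  rcases h1 with h1 | ⟨n, h1⟩
  · exact ⟨q, hq, h1⟩
  · obtain ⟨q₂, h2, h3⟩ := h n
    obtain ⟨r, -, h4, h5⟩ := hG.dir q q₂ hq h2
    exact absurd ⟨q₂, h5, h3⟩ (h1 r h4)

omit hG

theorem mem_rs_smul {l : Su M Y Ω} {π : Ga Ω K} (hπ : Uk l π) {q : Pk M Y Ω V}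
    {c : Ce M Y Ω V} : c ∈ (rs (LaS K l) (π • q)).1 ↔ c ∈ (rs (LaS K l) q).1 := by
  rw [mem_rs, mem_rs]
  constructor
  · rintro ⟨h1, h2⟩
    rw [mem_smul'] at h1
    have h3 : api π c.1 = c.1 := by
      have := congrArg (api π) (hπ.2 _ (mem_LaS.1 h2))
      rw [api_ap] at this
      exact this.symm
    rw [h3] at h1
    exact ⟨h1, h2⟩
  · rintro ⟨h1, h2⟩
    refine ⟨?_, h2⟩
    rw [mem_smul']
    have h3 : api π c.1 = c.1 := by
      have := congrArg (api π) (hπ.2 _ (mem_LaS.1 h2))
      rw [api_ap] at this
      exact this.symm
    rw [h3]
    exact h1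

theorem rs_smul {l : Su M Y Ω} {π : Ga Ω K} (hπ : Uk l π) {q : Pk M Y Ω V} :
    rs (LaS K l) (π • q) = rs (LaS K l) q := Subtype.ext (IPow.ext' fun _ => mem_rs_smul hπ)

/-- The data of the argument. -/
structure Core (T : INat M → Ga Ω K → Ga Ω K → Pk M Y Ω V → Prop)
    (F : Ga Ω K → NN (Sk Ω V K) hG) (w z : NN (Sk Ω V K) hG) (l0 la : Su M Y Ω)
    (p₀ : Pk M Y Ω V) : Prop where
  hl : ∀ i, La K l0 i → La K la i
  int : Int M (fun q : ((INat M × Ga Ω K) × Ga Ω K) × Pk M Y Ω V => T q.1.1.1 q.1.1.2 q.1.2 q.2)
  fr : ∀ n, Fr l0 la (T n)
  truth : ∀ n π π', Mem (op (nm (Sk Ω V K) hG n) (op (F π) (F π'))) w ↔ ∃ p, p ∈ G ∧ T n π π' p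
  fam : EqFam hG (fun σ π => σ * π) F
  cong : ∀ π u, Uk la u → F (π * u) = F π
  p0 : p₀ ∈ G
  mem : ∀ π, Uk l0 π → π • p₀ ∈ G → Mem (F π) z
  symm : ∀ n u v, Mem u z → Mem v z → Mem (op (nm (Sk Ω V K) hG n) (op u v)) w →
    Mem (op (nm (Sk Ω V K) hG n) (op v u)) w
  trans : ∀ n u v x, Mem u z → Mem v z → Mem x z → Mem (op (nm (Sk Ω V K) hG n.succ) (op u v)) w →
    Mem (op (nm (Sk Ω V K) hG n.succ) (op v x)) w → Mem (op (nm (Sk Ω V K) hG n) (op u x)) w
  stb : ∀ s : INat (NN (Sk Ω V K) hG) → El z, IntF (NN (Sk Ω V K) hG) s →
    ∀ n : INat (NN (Sk Ω V K) hG), ∃ J : IPow (NN (Sk Ω V K) hG) (INat (NN (Sk Ω V K) hG)), IFin J ∧ ∀ i, ∃ j, j ∈ J ∧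
      Mem (op n.val (op (s i).1 (s j).1)) w

variable {l0 la : Su M Y Ω} (hΩ : ¬ Ctb M (fun _ : Ω => True))
include hG hΩ

theorem stepA (hA : AC M) {q₀ : Pk M Y Ω V} (hq : q₀ ∈ G) {c : INat M → IPerm M Y}
    (hc : IntF M c) (hcC : ∀ j, K.C l0.1 (c j)) : ∃ s : INat M → Ga Ω K, IntF M s ∧
      (∀ j, Uk l0 (s j)) ∧ (∀ j, Co (s j) (c j)) ∧ (∀ j, s j • q₀ ∈ G) ∧
      ∀ j j', j ≠ j' → MF K l0 la (s j) (s j') := by
  obtain ⟨π, h1, h2, h3, h4⟩ := seq_lem (Ω := Ω) (K := K) hA hΩ l0 hc hcC
    ((cb_LaS (K := K) la).union (cb_idx q₀))
  obtain ⟨r, h5, h6⟩ := seq_union l0 h1 h2 h4 (q := q₀) fun i hi => mem_union.2 (Or.inr hi)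
  obtain ⟨σ, h7, h8, -, h9⟩ := gen_lem hG hΩ l0 (K.one l0.1) r
    (hG.up _ _ (hG.up _ _ hq (le_rs _ _)) h6) Cb.empty Cb.empty
  refine ⟨fun j => σ * π j, IntF.mul (IntF.const _) h1, fun j => h7.mul (h2 j), fun j i => ?_,
    fun j => ?_, fun j j' hj i i' hi hi' he => ?_⟩
  · rw [ap_mul, h8, h3 j, IPerm.one_apply]
  · rw [mul_smul]
    exact hG.up _ _ h9 ((Sk Ω V K).smul_le σ (h5 j))
  · rw [ap_mul, ap_mul] at he
    rcases h4 j j' i i' (mem_union.2 (Or.inl (mem_LaS.2 hi)))
      (mem_union.2 (Or.inl (mem_LaS.2 hi'))) (ap_inj _ he) with h | h
    · exact absurd h.1 hj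
    · exact h

theorem exists_fr {c : IPerm M Y} (hc : K.C l0.1 c)
    {q : Pk M Y Ω V} (hq : rs (LaS K l0) q ∈ G)
    {D : IPow M (Ix M Y Ω)} (hD : Cb D) :
    ∃ σ : Ga Ω K, Uk l0 σ ∧ Co σ c ∧ σ • q ∈ G ∧
      ∀ π : Ga Ω K, Uk l0 π → (∀ i, La K la i → ap π i ∈ D) → MF K l0 la π σ := by
  obtain ⟨σ, h1, h2, h3, h4⟩ := gen_lem hG hΩ l0 hc q hq (cb_LaS (K := K) la) hD
  refine ⟨σ, h1, h2, h4, fun π hπ hD' i j hi hj he => ?_⟩
  by_cases h5 : La K l0 j
  · rw [h1.2 j h5] at he
    have h6 := hπ.2 j h5
    have h7 := ap_inj _ (he.trans h6.symm)
    rw [h7]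
    exact ⟨rfl, h5⟩
  · refine absurd ?_ (h3 j (mem_LaS.2 hj) h5)
    rw [← he]
    exact hD' i hi

end Pool.Agent.Helper672.ZFA.V246K
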