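import Pool.Agent.V11246.Ke

/-!
# Totally bounded sets: the elements have the same support
-/

set_option maxHeartbeats 1000000
set_option linter.all false
set_option synthInstance.maxSize 2000

namespace Pool.Agent.Helper672.ZFA.V246K

open FirstOrder FirstOrder.Language
open Pool.Agent.Helper672.ZFA.H635 (IPerm SymSys IWO IsGen NN EqFam nm nmN CollL)
open Pool.Agent.Helper672.ZFA.V246 (Ctb exists_lf)
open Pool.Agent.H310

universe u

section pig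

variable {N : Type u} [L.Structure N] [hN : IsModel N]

theorem exists_pig {D : INat N → Prop} {α : Type u} [ITy N α] {h : INat N → α} (hh : IntF N h)
    {p : α → Prop} (hp : FinP N p) (hm : ∀ i, p (h i)) : ∃ i j, i ≠ j ∧ h i = h j := by
  by_contra hcon
  push Not at hcon
  refine not_finP_nat (M := N) ?_
  exact FinP.of_inj (Int.const _) hh (fun a a' _ _ e => by
    by_contra hne
    exact hcon a a' hne e) hp fun a _ => hm a

/-- Two distinct indices that are close in three sequences. -/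
theorem exists_pig3 {E₁ E₂ E₃ : INat N → INat N → Prop}
    (h1 : Int N (fun q : INat N × INat N => E₁ q.1 q.2))
    (h2 : Int N (fun q : INat N × INat N => E₂ q.1 q.2))
    (h3 : Int N (fun q : INat N × INat N => E₃ q.1 q.2))
    (k1 : ∃ J : IPow N (INat N), IFin J ∧ ∀ i, ∃ j, j ∈ J ∧ E₁ i j)
    (k2 : ∃ J : IPow N (INat N), IFin J ∧ ∀ i, ∃ j, j ∈ J ∧ E₂ i j)
    (k3 : ∃ J : IPow N (INat N), IFin J ∧ ∀ i, ∃ j, j ∈ J ∧ E₃ i j) :
    ∃ i j, i ≠ j ∧ (∃ k, E₁ i k ∧ E₁ j k) ∧ (∃ k, E₂ i k ∧ E₂ j k) ∧ ∃ k, E₃ i k ∧ E₃ j k := by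
  have key : ∀ E : INat N → INat N → Prop, Int N (fun q : INat N × INat N => E q.1 q.2) →
      (∃ J : IPow N (INat N), IFin J ∧ ∀ i, ∃ j, j ∈ J ∧ E i j) →
      ∃ h : INat N → INat N, IntF N h ∧ (∀ i, E i (h i)) ∧
        ∃ J : IPow N (INat N), IFin J ∧ ∀ i, h i ∈ J := by
    rintro E hE ⟨J, hJ, h⟩
    obtain ⟨e, he, h4⟩ := exists_lf (V246.iwoNn (N := N)) (γ := INat N)
      (r := fun i j => j ∈ J ∧ E i j)
      (Int.and (Int.mem IntF.snd' (IntF.const _)) hE) (0 : INat N)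
    exact ⟨e, he, fun i => (h4 i (h i)).1.2, J, hJ, fun i => (h4 i (h i)).1.1⟩
  obtain ⟨e1, a1, a2, J1, a3, a4⟩ := key E₁ h1 k1
  obtain ⟨e2, b1, b2, J2, b3, b4⟩ := key E₂ h2 k2
  obtain ⟨e3, c1, c2, J3, c3, c4⟩ := key E₃ h3 k3
  obtain ⟨i, j, hij, he⟩ := exists_pig (D := fun _ => True)
    (h := fun i => (e1 i, (e2 i, e3 i))) (IntF.pair a1 (IntF.pair b1 c1))
    (p := fun q : INat N × (INat N × INat N) => q ∈ iprod J1 (iprod J2 J3))
    ⟨_, a3.prod (b3.prod c3), fun _ h => h⟩ (fun i => mem_iprod.2 ⟨a4 i, mem_iprod.2 ⟨b4 i, c4 i⟩⟩)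
  obtain ⟨he1, he2⟩ := Prod.ext_iff.1 he
  obtain ⟨he2, he3⟩ := Prod.ext_iff.1 he2
  change e1 i = e1 j at he1
  change e2 i = e2 j at he2
  change e3 i = e3 j at he3
  refine ⟨i, j, hij, ⟨e1 i, a2 i, ?_⟩, ⟨e2 i, b2 i, ?_⟩, ⟨e3 i, c2 i, ?_⟩⟩
  · rw [he1]
    exact a2 j
  · rw [he2]
    exact b2 j
  · rw [he3]
    exact c2 j

end pig

variable {M : Type u} [L.Structure M] [hM : IsModel M] {Y : Type u} [ITy M Y]
variable {Ω : Type u} [ITy M Ω] {V : Type u} [ITy M V] {K : Cols M Y}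
variable {G : Set (Pk M Y Ω V)} {hG : IsGen M G}
variable {T : INat M → Ga Ω K → Ga Ω K → Pk M Y Ω V → Prop}
variable {F : Ga Ω K → NN (Sk Ω V K) hG} {w z : NN (Sk Ω V K) hG} {l0 la : Su M Y Ω}
variable {p₀ : Pk M Y Ω V}

theorem int_MF : Int M (fun q : Ga Ω K × Ga Ω K => MF K l0 la q.1 q.2) := by
  have j1 : IntF M (fun q : ((Ga Ω K × Ga Ω K) × Ix M Y Ω) × Ix M Y Ω => q.1.1.1) :=
    IntF.fst (IntF.fst IntF.fst')
  have j2 : IntF M (fun q : ((Ga Ω K × Ga Ω K) × Ix M Y Ω) × Ix M Y Ω => q.1.1.2) :=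
    IntF.snd (IntF.fst IntF.fst')
  have j3 : IntF M (fun q : ((Ga Ω K × Ga Ω K) × Ix M Y Ω) × Ix M Y Ω => q.1.2) :=
    IntF.snd IntF.fst'
  have j4 : IntF M (fun q : ((Ga Ω K × Ga Ω K) × Ix M Y Ω) × Ix M Y Ω => q.2) := IntF.snd'
  unfold MF
  refine Int.all (Int.all (Int.imp ?_ (Int.imp ?_ (Int.imp ?_ (Int.and ?_ ?_)))))
  · exact Int.comp₂ (p := fun (l : Su M Y Ω) i => La K l i) int_La (IntF.const _) j3
  · exact Int.comp₂ (p := fun (l : Su M Y Ω) i => La K l i) int_La (IntF.const _) j4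
  · exact Int.eq (IntF.comp₂ (p := fun (g : Ga Ω K) i => ap g i) int_ap j1 j3)
      (IntF.comp₂ (p := fun (g : Ga Ω K) i => ap g i) int_ap j2 j4)
  · exact Int.eq j3 j4
  · exact Int.comp₂ (p := fun (l : Su M Y Ω) i => La K l i) int_La (IntF.const _) j3

/-- Fresh pairs. -/
def FPf (l0 la : Su M Y Ω) (T : INat M → Ga Ω K → Ga Ω K → Pk M Y Ω V → Prop) (n : INat M)
    (q₁ q₂ : Pk M Y Ω V) : Prop :=
  ∀ π π' : Ga Ω K, Uk l0 π → Uk l0 π' → MF K l0 la π π' → (∀ i, (ap π i).1 = (ap π' i).1) →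
    ∀ r', r' ≤ π • q₁ → r' ≤ π' • q₂ → T n π π' r'

theorem int_FPf (hT : Int M (fun q : ((INat M × Ga Ω K) × Ga Ω K) × Pk M Y Ω V =>
    T q.1.1.1 q.1.1.2 q.1.2 q.2)) :
    Int M (fun q : (INat M × Pk M Y Ω V) × Pk M Y Ω V => FPf l0 la T q.1.1 q.1.2 q.2) := by
  have i1 : Int M (fun q : Su M Y Ω × Ga Ω K => Uk q.1 q.2) := int_Uk
  have i2 : IntF M (fun q : Ga Ω K × Ix M Y Ω => ap q.1 q.2) := int_ap
  unfold FPf
  refine Int.all (Int.all (Int.imp ?_ (Int.imp ?_ (Int.imp ?_ (Int.imp ?_ (Int.all (Int.imp ?_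
    (Int.imp ?_ ?_))))))))
  · exact Int.comp₂ (p := fun (l : Su M Y Ω) (g : Ga Ω K) => Uk l g) i1 (IntF.const _)
      (IntF.snd IntF.fst')
  · exact Int.comp₂ (p := fun (l : Su M Y Ω) (g : Ga Ω K) => Uk l g) i1 (IntF.const _) IntF.snd'
  · exact Int.comp₂ (p := fun a b : Ga Ω K => MF K l0 la a b) int_MF (IntF.snd IntF.fst') IntF.snd'
  · refine Int.all (Int.eq (IntF.fst ?_) (IntF.fst ?_))
    · exact IntF.comp₂ (p := fun (g : Ga Ω K) i => ap g i) i2 (IntF.snd (IntF.fst IntF.fst'))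
        IntF.snd'
    · exact IntF.comp₂ (p := fun (g : Ga Ω K) i => ap g i) i2 (IntF.snd IntF.fst') IntF.snd'
  · exact Int.le IntF.snd' (IntF.smul (IntF.snd (IntF.fst IntF.fst'))
      (IntF.snd (IntF.fst (IntF.fst (IntF.fst IntF.fst')))))
  · exact Int.le IntF.snd' (IntF.smul (IntF.snd IntF.fst')
      (IntF.snd (IntF.fst (IntF.fst IntF.fst'))))
  · exact Int.comp₄ (p := fun n a b r => T n a b r) hT
      (IntF.fst (IntF.fst (IntF.fst (IntF.fst IntF.fst'))))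
      (IntF.snd (IntF.fst IntF.fst')) (IntF.snd IntF.fst') IntF.snd'

section

variable (hX : Core hG T F w z l0 la p₀) (hC : CollL M) (hA : AC M)
  (hΩ : ¬ Ctb M (fun _ : Ω => True))
include hX

include hΩ in
theorem stepC {q₀ : Pk M Y Ω V} {s s' : Ga Ω K} (hs : Uk l0 s) (hs' : Uk l0 s')
    (hm : MF K l0 la s s') (hq : s • q₀ ∈ G) (hq' : s' • q₀ ∈ G) {n : INat M}
    (hW : Mem (op (nm (Sk Ω V K) hG n) (op (F s) (F s'))) w) :
    ∃ q₁ q₂, q₁ ≤ q₀ ∧ q₂ ≤ q₀ ∧ rs (LaS K l0) q₁ ∈ G ∧ rs (LaS K l0) q₂ = rs (LaS K l0) q₁ ∧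
      ∀ π π' : Ga Ω K, Uk l0 π → Uk l0 π' → MF K l0 la π π' →
        (∀ i, (ap (π * s⁻¹ * s') i).1 = (ap π' i).1) →
        ∀ r', r' ≤ π • q₁ → r' ≤ π' • q₂ → T n π π' r' := by
  obtain ⟨p, hp, h1⟩ := (hX.truth n s s').1 hW
  obtain ⟨p', hp', h2, h3⟩ := hG.dir _ _ hp hq
  obtain ⟨r, hr, h4, h5⟩ := hG.dir _ _ hp' hq'
  refine ⟨s⁻¹ • r, s'⁻¹ • r, (H635.smul_le_iff' (Sk Ω V K) s).1 (h4.trans h3),
    (H635.smul_le_iff' (Sk Ω V K) s').1 h5, ?_, ?_, ?_⟩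
  · rw [rs_smul hs.inv]
    exact hG.up _ _ hr (le_rs _ _)
  · rw [rs_smul hs.inv, rs_smul hs'.inv]
  · intro π π' hπ hπ' hm' hc r' h6 h7
    exact (hX.fr n).copy hΩ hX.hl hs hs' hπ hπ' hc hm hm' ((hX.fr n).mono _ _ _ _ h1 (h4.trans h2))
      h6 h7

include hC hA in
theorem exists_t {s : INat M → Ga Ω K} (hs : IntF M s) (hU : ∀ j, Uk l0 (s j))
    (hp : ∀ j, s j • p₀ ∈ G) : ∃ t : INat (NN (Sk Ω V K) hG) → El z,
      IntF (NN (Sk Ω V K) hG) t ∧ ∀ j, (t (nmN (Sk Ω V K) hG hC j)).1 = F (s j) := by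
  have i1 : Int M (fun q : Su M Y Ω × Ga Ω K => Uk q.1 q.2) := int_Uk
  have i2 : IntF M (fun q : Ga Ω K × Ix M Y Ω => ap q.1 q.2) := int_ap
  have hR : Int M (fun q : Ga Ω K × Ga Ω K => Uk la (q.1⁻¹ * q.2)) :=
    Int.comp₂ (p := fun (l : Su M Y Ω) (g : Ga Ω K) => Uk l g) i1 (IntF.const _)
      (IntF.mul (IntF.inv IntF.fst') IntF.snd')
  have hJ : IntF M (fun x : INat M × Ix M Y Ω => ap (s x.1) x.2) :=
    IntF.comp₂ (p := fun (g : Ga Ω K) i => ap g i) i2 (IntF.comp hs IntF.fst') IntF.snd'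
  have hcb : Ctb M (fun i : Ix M Y Ω => ∃ x : INat M × Ix M Y Ω, x.2 ∈ LaS K la ∧
      ap (s x.1) x.2 = i) := Ctb.image (P := fun x : INat M × Ix M Y Ω => x.2 ∈ LaS K la)
      (Int.mem IntF.snd' (IntF.const _)) (Ctb.prodN (cb_LaS la).ctb) hJ
  have hI : Int M (fun i : Ix M Y Ω => ∃ x : INat M × Ix M Y Ω, x.2 ∈ LaS K la ∧
      ap (s x.1) x.2 = i) := Int.ex (Int.and (Int.mem (IntF.snd IntF.snd') (IntF.const _))
      (Int.eq (IntF.comp hJ IntF.snd') IntF.fst'))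
  refine H635.exists_seq (act := fun σ π : Ga Ω K => σ * π) hG hC
    (fun π b => inv_mul_cancel_left _ _) hX.fam
    (R := fun a b => Uk la (a⁻¹ * b)) hR ?_ ?_ ?_ ?_ hs
    (l := (la.1, ⟨sep M fun i : Ix M Y Ω => ∃ x : INat M × Ix M Y Ω, x.2 ∈ LaS K la ∧
      ap (s x.1) x.2 = i, ?_⟩)) ?_ ?_
  · intro a b c h1 h2
    have := h1.mul h2
    rwa [mul_assoc, mul_inv_cancel_left] at this
  · intro c
    rw [inv_mul_cancel]
    exact Uk.one
  · intro a b h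
    have := hX.cong a _ h
    rw [mul_inv_cancel_left] at this
    exact this.symm
  · intro π a b h
    rw [mul_inv_rev, mul_assoc, inv_mul_cancel_left]
    exact h
  · exact cb_of (hcb.mono fun i hi => (mem_sep hI).1 hi)
  · rintro π ⟨⟨c, h1, h2⟩, h3⟩ j
    have h4 : Uk la ((s j)⁻¹ * π * s j) := by
      obtain ⟨d, h5, h6⟩ := exists_col (s j)
      refine ⟨⟨d⁻¹ * c * d, K.conj _ _ _ h5 h1, fun i => ?_⟩, fun i hi => ?_⟩
      · rw [ap_mul, ap_mul, IPerm.mul_apply, IPerm.mul_apply, ← h6, ← h2]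
        have h7 := h6 (ap (s j)⁻¹ (ap π (ap (s j) i)))
        rw [ap_inv, ap_api] at h7
        rw [h7, ap_inv, IPerm.inv_apply, d.2.2]
      · have h7 : ap π (ap (s j) i) = ap (s j) i := by
          refine h3 _ ⟨?_, (mem_sep hI).2 ⟨(j, i), mem_LaS.2 hi, rfl⟩⟩
          rw [h6, K.lev_eq d h5]
          exact hi.1
        rw [ap_mul, ap_mul, h7, ap_inv, api_ap]
    have h5 := h4.inv
    rw [mul_inv_rev, mul_inv_rev, inv_inv] at h5
    have h6 : (π * s j)⁻¹ * s j = (s j)⁻¹ * (π⁻¹ * s j) := by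
      rw [mul_inv_rev, mul_assoc]
    change Uk la ((π * s j)⁻¹ * s j)
    rw [h6]
    exact h5
  · intro j
    exact hX.mem _ (hU j) (hp j)

end

end Pool.Agent.Helper672.ZFA.V246K
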