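import Pool.Agent.V11246.Kf

/-!
# Totally bounded sets: the main argument
-/

set_option maxHeartbeats 1000000
set_option linter.all false
set_option synthInstance.maxSize 2000

namespace Pool.Agent.Helper672.ZFA.V246K

open FirstOrder FirstOrder.Language
open Pool.Agent.Helper672.ZFA.H635 (IPerm SymSys IWO IsGen NN EqFam nm nmN CollL)
open Pool.Agent.Helper672.ZFA.V246 (Ctb exists_lf)
open Pool.Agent.H310

universe u

/-- The property of the group of the columns: there are no nontrivial precompact quotients. -/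
def Star {M : Type u} [L.Structure M] [hM : IsModel M] {Y : Type u} [ITy M Y] (K : Cols M Y) :
    Prop :=
  ∀ (k : INat M) (Q : INat M → IPerm M Y → Prop), (∀ n, Q n 1) →
    (∀ n g, K.C k g → Q n g → Q n g⁻¹) →
    (∀ n g h, K.C k g → K.C k h → Q n.succ g → Q n.succ h → Q n (g * h)) →
    (∀ n (c₁ c₂ c₃ : INat M → IPerm M Y), IntF M c₁ → IntF M c₂ → IntF M c₃ →
      (∀ j, K.C k (c₁ j)) → (∀ j, K.C k (c₂ j)) → (∀ j, K.C k (c₃ j)) →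
      ∃ i j, i ≠ j ∧ Q n ((c₁ i)⁻¹ * c₁ j) ∧ Q n ((c₂ i)⁻¹ * c₂ j) ∧ Q n ((c₃ i)⁻¹ * c₃ j)) →
    ∀ n g, K.C k g → Q n g

variable {M : Type u} [L.Structure M] [hM : IsModel M] {Y : Type u} [ITy M Y]
variable {Ω : Type u} [ITy M Ω] {V : Type u} [ITy M V] {K : Cols M Y}
variable {G : Set (Pk M Y Ω V)} {hG : IsGen M G}
variable {T : INat M → Ga Ω K → Ga Ω K → Pk M Y Ω V → Prop}
variable {F : Ga Ω K → NN (Sk Ω V K) hG} {w z : NN (Sk Ω V K) hG} {l0 la : Su M Y Ω}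
variable {p₀ : Pk M Y Ω V}

variable (hX : Core hG T F w z l0 la p₀) (hC : CollL M) (hA : AC M)
  (hΩ : ¬ Ctb M (fun _ : Ω => True))
include hX hC hA hΩ

/-- The relation on the extension. -/
def Wr (hG : IsGen M G) (w : NN (Sk Ω V K) hG) (n : INat M) (u v : NN (Sk Ω V K) hG) : Prop :=
  Mem (op (nm (Sk Ω V K) hG n) (op u v)) w

theorem stb' {t : INat (NN (Sk Ω V K) hG) → El z} (ht : IntF (NN (Sk Ω V K) hG) t) (n : INat M) :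
    ∃ J : IPow (NN (Sk Ω V K) hG) (INat (NN (Sk Ω V K) hG)), IFin J ∧ ∀ i, ∃ j, j ∈ J ∧
      Wr hG w n (t i).1 (t j).1 := hX.stb t ht (nmN (Sk Ω V K) hG hC n)

theorem int_Wr {t : INat (NN (Sk Ω V K) hG) → El z} (ht : IntF (NN (Sk Ω V K) hG) t)
    (n : INat M) : Int (NN (Sk Ω V K) hG)
      (fun q : INat (NN (Sk Ω V K) hG) × INat (NN (Sk Ω V K) hG) =>
        Wr hG w n (t q.1).1 (t q.2).1) := by
  have h : Int (NN (Sk Ω V K) hG) (fun q : El z × El z => Wr hG w n q.1.1 q.2.1) :=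
    Int.of_D₂ (S := fun v => Mem (op (nm (Sk Ω V K) hG n) (op (v 0) (v 1))) w)
      (D.memf (DF.op (DF.const _) (DF.op (DF.var _) (DF.var _))) (DF.const _)) fun _ _ => Iff.rfl
  exact Int.comp₂ (p := fun a b : El z => Wr hG w n a.1 b.1) h (IntF.comp ht IntF.fst')
    (IntF.comp ht IntF.snd')

theorem step1 (n : INat M) : ∃ q, q ∈ G ∧ ∃ q₂, q₂ ≤ p₀ ∧ rs (LaS K l0) q₂ = rs (LaS K l0) q ∧
    FPf l0 la T n q q₂ := by
  have iF : Int M (fun q : (INat M × Pk M Y Ω V) × Pk M Y Ω V => FPf l0 la T q.1.1 q.1.2 q.2) :=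
    int_FPf hX.int
  have iD : Int M (fun q : Pk M Y Ω V => ∃ q₂, q₂ ≤ p₀ ∧ rs (LaS K l0) q₂ = rs (LaS K l0) q ∧
      FPf l0 la T n q q₂) := by
    refine Int.ex (Int.and (Int.le IntF.snd' (IntF.const _)) (Int.and (Int.eq ?_ ?_) ?_))
    · exact IntF.comp₂ (p := fun B (q : Pk M Y Ω V) => rs B q) int_rs (IntF.const _) IntF.snd'
    · exact IntF.comp₂ (p := fun B (q : Pk M Y Ω V) => rs B q) int_rs (IntF.const _) IntF.fst'
    · exact Int.comp₃ (p := fun n a b => FPf l0 la T n a b) iF (IntF.const _) IntF.fst' IntF.snd'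
  obtain ⟨q, hq, h1⟩ := hG.dense (fun q => (∃ q₂, q₂ ≤ p₀ ∧ rs (LaS K l0) q₂ = rs (LaS K l0) q ∧
    FPf l0 la T n q q₂) ∨ ∀ q', q' ≤ q → ¬ ∃ q₂, q₂ ≤ p₀ ∧ rs (LaS K l0) q₂ = rs (LaS K l0) q' ∧
    FPf l0 la T n q' q₂) (Int.or iD (Int.all (Int.imp (Int.le IntF.snd' IntF.fst')
      (Int.not (Int.comp (f := fun q : Pk M Y Ω V × Pk M Y Ω V => q.2) (p := fun q =>
        ∃ q₂, q₂ ≤ p₀ ∧ rs (LaS K l0) q₂ = rs (LaS K l0) q ∧ FPf l0 la T n q q₂) iD IntF.snd')))))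
    (by
      intro p
      by_cases h2 : ∃ q, q ≤ p ∧ ∃ q₂, q₂ ≤ p₀ ∧ rs (LaS K l0) q₂ = rs (LaS K l0) q ∧
        FPf l0 la T n q q₂
      · obtain ⟨q, h3, h4⟩ := h2
        exact ⟨q, h3, Or.inl h4⟩
      · exact ⟨p, le_rfl, Or.inr fun q' hq' h3 => h2 ⟨q', hq', h3⟩⟩)
  rcases h1 with h1 | h1
  · exact ⟨q, hq, h1⟩
  · exfalso
    obtain ⟨q₀, hq₀, h2, h3⟩ := hG.dir _ _ hq hX.p0
    obtain ⟨s, a1, a2, a3, a4, a5⟩ := stepA (l0 := l0) (la := la) hG hΩ hA hq₀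
      (c := fun _ => 1) (IntF.const _) fun j => K.one _
    obtain ⟨t, b1, b2⟩ := exists_t hX hC hA a1 a2 fun j =>
      hG.up _ _ (a4 j) ((Sk Ω V K).smul_le _ h3)
    obtain ⟨i, j, hij, ⟨k, c1, c2⟩, -, -⟩ := exists_pig3
      (E₁ := fun i j => Wr hG w n.succ (t i).1 (t j).1)
      (E₂ := fun i j => Wr hG w n.succ (t i).1 (t j).1)
      (E₃ := fun i j => Wr hG w n.succ (t i).1 (t j).1)
      (int_Wr hX hC hA hΩ b1 _) (int_Wr hX hC hA hΩ b1 _) (int_Wr hX hC hA hΩ b1 _)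
      (stb' hX hC hA hΩ b1 _) (stb' hX hC hA hΩ b1 _) (stb' hX hC hA hΩ b1 _)
    obtain ⟨i, rfl⟩ := H635.nmN_surj hG hC i
    obtain ⟨j, rfl⟩ := H635.nmN_surj hG hC j
    have hij' : i ≠ j := fun h => hij (by rw [h])
    have hW := hX.trans n _ _ _ (t (nmN (Sk Ω V K) hG hC i)).2 (t k).2
      (t (nmN (Sk Ω V K) hG hC j)).2 c1 (hX.symm _ _ _ (t (nmN (Sk Ω V K) hG hC j)).2 (t k).2 c2)
    rw [b2, b2] at hW
    obtain ⟨q₁, q₂, d1, d2, d3, d4, d5⟩ := stepC hX hΩ (a2 i) (a2 j) (a5 i j hij') (a4 i) (a4 j) hW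
    refine h1 q₁ (d1.trans h2) ⟨q₂, d2.trans h3, d4, fun π π' hπ hπ' hm hc r' hr hr' => ?_⟩
    refine d5 π π' hπ hπ' hm (fun x => ?_) r' hr hr'
    rw [← hc x, ap_mul, ap_mul]
    obtain ⟨d, -, hd⟩ := exists_col π
    rw [hd, hd]
    congr 1
    have e1 := a3 i (ap (s i)⁻¹ (ap (s j) x))
    rw [ap_inv, ap_api, a3 j, IPerm.one_apply, IPerm.one_apply] at e1
    exact e1.symm

/-- The elements with the same column part are close. -/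
theorem step1' : ∃ q, q ∈ G ∧ q ≤ p₀ ∧ ∀ n, ∀ π π' : Ga Ω K, Uk l0 π → Uk l0 π' →
    (∀ i, (ap π i).1 = (ap π' i).1) → π • q ∈ G → π' • q ∈ G → Wr hG w n (F π) (F π') := by
  have iF : Int M (fun q : (INat M × Pk M Y Ω V) × Pk M Y Ω V => FPf l0 la T q.1.1 q.1.2 q.2) :=
    int_FPf hX.int
  obtain ⟨q, hq, h1⟩ := sigma_gen hG hA (D := fun n q => ∃ q₂, q₂ ≤ p₀ ∧
    rs (LaS K l0) q₂ = rs (LaS K l0) q ∧ FPf l0 la T n q q₂) (by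
      refine Int.ex (Int.and (Int.le IntF.snd' (IntF.const _)) (Int.and (Int.eq ?_ ?_) ?_))
      · exact IntF.comp₂ (p := fun B (q : Pk M Y Ω V) => rs B q) int_rs (IntF.const _) IntF.snd'
      · exact IntF.comp₂ (p := fun B (q : Pk M Y Ω V) => rs B q) int_rs (IntF.const _)
          (IntF.snd IntF.fst')
      · exact Int.comp₃ (p := fun n a b => FPf l0 la T n a b) iF (IntF.fst IntF.fst')
          (IntF.snd IntF.fst') IntF.snd') (step1 hX hC hA hΩ)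
  obtain ⟨q', hq', h2, h3⟩ := hG.dir _ _ hq hX.p0
  refine ⟨q', hq', h3, fun n π π' hπ hπ' hc h4 h5 => ?_⟩
  obtain ⟨q₁, h6, q₂, h7, h8, h9⟩ := h1 n.succ
  have h10 : π • q₁ ∈ G := hG.up _ _ h4 ((Sk Ω V K).smul_le _ (h2.trans h6))
  have h11 : π' • q₁ ∈ G := hG.up _ _ h5 ((Sk Ω V K).smul_le _ (h2.trans h6))
  obtain ⟨⟨c, h12, h13⟩, h14⟩ := id hπ
  obtain ⟨σ, e1, e2, e3, e4⟩ := exists_fr (l0 := l0) (la := la) hG hΩ h12 (q := q₂) (by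
      rw [h8, ← rs_smul hπ]
      exact hG.up _ _ h10 (le_rs _ _)) (D := im π (LaS K la) ∪ im π' (LaS K la))
      ((cb_im (cb_LaS la)).union (cb_im (cb_LaS la)))
  have key : ∀ τ : Ga Ω K, Uk l0 τ → (∀ i, (ap τ i).1 = (ap π i).1) → τ • q₁ ∈ G →
      (∀ i, La K la i → ap τ i ∈ im π (LaS K la) ∪ im π' (LaS K la)) →
      Wr hG w n.succ (F τ) (F σ) := by
    intro τ hτ hc' hq hD
    obtain ⟨r, hr, f1, f2⟩ := hG.dir _ _ hq e3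
    exact (hX.truth _ _ _).2 ⟨r, hr, h9 τ σ hτ e1 (e4 τ hτ hD) (fun i => by
      rw [hc', h13, e2]) r f1 f2⟩
  have m1 := hX.mem π hπ (hG.up _ _ h4 ((Sk Ω V K).smul_le _ h3))
  have m2 := hX.mem π' hπ' (hG.up _ _ h5 ((Sk Ω V K).smul_le _ h3))
  have m3 := hX.mem σ e1 (hG.up _ _ e3 ((Sk Ω V K).smul_le _ h7))
  have g1 := key π hπ (fun i => rfl) h10 fun i hi => mem_union.2 (Or.inl (mem_im.2
    ⟨i, mem_LaS.2 hi, rfl⟩))
  have g2 := key π' hπ' (fun i => (hc i).symm) h11 fun i hi => mem_union.2 (Or.inr (mem_im.2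
    ⟨i, mem_LaS.2 hi, rfl⟩))
  exact hX.trans n _ _ _ m1 m3 m2 g1 (hX.symm _ _ _ m2 m3 g2)

/-- Relation of the column parts. -/
def CR (π : Ga Ω K) (g : IPerm M Y) (π' : Ga Ω K) : Prop :=
  ∀ i : Ix M Y Ω, (ap π' i).1 = (ap π (g.1.1 i.1, i.2)).1

/-- The elements whose column parts differ by a given element are close. -/
theorem core (hS : Star K) (hsep : ∀ u v, Mem u z → Mem v z → (∀ n, Wr hG w n u v) → u = v) :
    ∃ q, q ∈ G ∧ ∀ π : Ga Ω K, Uk l0 π → π • q ∈ G → F π = F 1 := by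
  obtain ⟨q, hq, hq0, hN1⟩ := step1' hX hC hA hΩ
  refine ⟨q, hq, ?_⟩
  have hmem : ∀ π : Ga Ω K, Uk l0 π → π • q ∈ G → Mem (F π) z := fun π hπ h =>
    hX.mem π hπ (hG.up _ _ h ((Sk Ω V K).smul_le _ hq0))
  have hone : (1 : Ga Ω K) • q ∈ G := by
    rw [one_smul]
    exact hq
  let Q : INat M → IPerm M Y → Prop := fun n g => ∀ π π' : Ga Ω K, Uk l0 π → Uk l0 π' →
    (∀ i : Ix M Y Ω, (ap π' i).1 = (ap π (g.1.1 i.1, i.2)).1) → π • q ∈ G → π' • q ∈ G →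
    Wr hG w n (F π) (F π')
  have hrs : rs (LaS K l0) q ∈ G := hG.up _ _ hq (le_rs _ _)
  have hQ1 : ∀ n, Q n 1 := by
    intro n π π' hπ hπ' hc h1 h2
    refine hN1 n π π' hπ hπ' (fun i => ?_) h1 h2
    rw [hc i, IPerm.one_apply]
  have hQinv : ∀ n g, K.C l0.1 g → Q n g → Q n g⁻¹ := by
    intro n g hg h π π' hπ hπ' hc h1 h2
    refine hX.symm _ _ _ (hmem _ hπ' h2) (hmem _ hπ h1) (h π' π hπ' hπ (fun i => ?_) h2 h1)
    rw [hc (g.1.1 i.1, i.2), IPerm.inv_apply, g.2.2]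
  have hQmul : ∀ n g h, K.C l0.1 g → K.C l0.1 h → Q n.succ g → Q n.succ h → Q n (g * h) := by
    intro n g h hg hh h1 h2 π π' hπ hπ' hc h3 h4
    obtain ⟨⟨c, h5, h6⟩, h7⟩ := id hπ
    obtain ⟨σ, e1, e2, e3, -⟩ := exists_fr (l0 := l0) (la := la) hG hΩ (K.mul _ _ _ h5 hg) hrs
      Cb.empty
    refine hX.trans n _ (F σ) _ (hmem _ hπ h3) (hmem _ e1 e3) (hmem _ hπ' h4)
      (h1 π σ hπ e1 (fun i => ?_) h3 e3) (h2 σ π' e1 hπ' (fun i => ?_) e3 h4)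
    · rw [e2, h6, IPerm.mul_apply]
    · rw [hc, h6, e2, IPerm.mul_apply, IPerm.mul_apply]
  have hone' : ∀ c : INat M → IPerm M Y, IntF M c → (∀ j, K.C l0.1 (c j)) →
      ∃ t : INat (NN (Sk Ω V K) hG) → El z, IntF (NN (Sk Ω V K) hG) t ∧
        ∀ n j j', j ≠ j' → Wr hG w n.succ.succ (t (nmN (Sk Ω V K) hG hC j)).1
          (t (nmN (Sk Ω V K) hG hC j')).1 → Q n ((c j)⁻¹ * c j') := by
    intro c hc hcC
    obtain ⟨s, a1, a2, a3, a4, a5⟩ := stepA (l0 := l0) (la := la) hG hΩ hA hq hc hcC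
    obtain ⟨t, b1, b2⟩ := exists_t hX hC hA a1 a2 fun j =>
      hG.up _ _ (a4 j) ((Sk Ω V K).smul_le _ hq0)
    refine ⟨t, b1, fun n j j' hj hW π π' hπ hπ' hcr h1 h2 => ?_⟩
    rw [b2, b2] at hW
    obtain ⟨q₁, q₂, d1, d2, d3, d4, d5⟩ := stepC hX hΩ (a2 j) (a2 j') (a5 j j' hj) (a4 j) (a4 j') hW
    obtain ⟨⟨cπ, h3, h4⟩, -⟩ := id hπ
    obtain ⟨⟨cπ', h3', h4'⟩, -⟩ := id hπ'
    obtain ⟨π₂, e1, e2, e3, -⟩ := exists_fr (l0 := l0) (la := la) hG hΩ h3 d3 Cb.empty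
    obtain ⟨π₃, f1, f2, f3, f4⟩ := exists_fr (l0 := l0) (la := la) hG hΩ h3' (q := q₂)
      (by rw [d4]; exact d3) (D := im π₂ (LaS K la)) (cb_im (cb_LaS la))
    obtain ⟨r, hr, k1, k2⟩ := hG.dir _ _ e3 f3
    have hm := f4 π₂ e1 fun i hi => mem_im.2 ⟨i, mem_LaS.2 hi, rfl⟩
    have k3 : Wr hG w n.succ.succ (F π₂) (F π₃) := by
      refine (hX.truth _ _ _).2 ⟨r, hr, d5 π₂ π₃ e1 f1 hm (fun i => ?_) r k1 k2⟩
      rw [ap_mul, ap_mul, e2, f2]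
      have k4 := hcr i
      rw [h4, h4', IPerm.mul_apply] at k4
      rw [k4]
      congr 1
      have k5 := a3 j (ap (s j)⁻¹ (ap (s j') i))
      rw [ap_inv, ap_api, a3 j'] at k5
      rw [ap_inv, k5, IPerm.inv_apply, (c j).2.2]
    have k6 := hN1 n.succ.succ π π₂ hπ e1 (fun i => by rw [h4, e2]) h1
      (hG.up _ _ e3 ((Sk Ω V K).smul_le _ d1))
    have k7 := hN1 n.succ π₃ π' f1 hπ' (fun i => by rw [h4', f2])
      (hG.up _ _ f3 ((Sk Ω V K).smul_le _ d2)) h2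
    have m1 := hmem _ hπ h1
    have m2 := hmem _ e1 (hG.up _ _ e3 ((Sk Ω V K).smul_le _ d1))
    have m3 := hmem _ f1 (hG.up _ _ f3 ((Sk Ω V K).smul_le _ d2))
    have m4 := hmem _ hπ' h2
    exact hX.trans n _ _ _ m1 m3 m4 (hX.trans n.succ _ _ _ m1 m2 m3 k6 k3) k7
  have hpig : ∀ n (c₁ c₂ c₃ : INat M → IPerm M Y), IntF M c₁ → IntF M c₂ → IntF M c₃ →
      (∀ j, K.C l0.1 (c₁ j)) → (∀ j, K.C l0.1 (c₂ j)) → (∀ j, K.C l0.1 (c₃ j)) →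
      ∃ i j, i ≠ j ∧ Q n ((c₁ i)⁻¹ * c₁ j) ∧ Q n ((c₂ i)⁻¹ * c₂ j) ∧ Q n ((c₃ i)⁻¹ * c₃ j) := by
    intro n c₁ c₂ c₃ i1 i2 i3 k1 k2 k3
    obtain ⟨t₁, a1, a2⟩ := hone' c₁ i1 k1
    obtain ⟨t₂, b1, b2⟩ := hone' c₂ i2 k2
    obtain ⟨t₃, d1, d2⟩ := hone' c₃ i3 k3
    obtain ⟨i, j, hij, ⟨x1, x2, x3⟩, ⟨y1, y2, y3⟩, ⟨w1, w2, w3⟩⟩ := exists_pig3
      (int_Wr hX hC hA hΩ a1 n.succ.succ.succ) (int_Wr hX hC hA hΩ b1 n.succ.succ.succ)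
      (int_Wr hX hC hA hΩ d1 n.succ.succ.succ)
      (stb' hX hC hA hΩ a1 _) (stb' hX hC hA hΩ b1 _) (stb' hX hC hA hΩ d1 _)
    obtain ⟨i, rfl⟩ := H635.nmN_surj hG hC i
    obtain ⟨j, rfl⟩ := H635.nmN_surj hG hC j
    have hij' : i ≠ j := fun h => hij (by rw [h])
    refine ⟨i, j, hij', a2 n i j hij' ?_, b2 n i j hij' ?_, d2 n i j hij' ?_⟩
    · exact hX.trans _ _ _ _ (t₁ _).2 (t₁ x1).2 (t₁ _).2 x2 (hX.symm _ _ _ (t₁ _).2 (t₁ x1).2 x3)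
    · exact hX.trans _ _ _ _ (t₂ _).2 (t₂ y1).2 (t₂ _).2 y2 (hX.symm _ _ _ (t₂ _).2 (t₂ y1).2 y3)
    · exact hX.trans _ _ _ _ (t₃ _).2 (t₃ w1).2 (t₃ _).2 w2 (hX.symm _ _ _ (t₃ _).2 (t₃ w1).2 w3)
  have hall := hS l0.1 Q hQ1 hQinv hQmul hpig
  intro π hπ hπq
  obtain ⟨⟨c, h1, h2⟩, h3⟩ := id hπ
  refine (hsep _ _ (hmem _ Uk.one hone) (hmem _ hπ hπq) fun n => ?_).symm
  exact hall n c h1 1 π Uk.one hπ (fun i => by rw [h2, ap_one]) hone hπq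

end Pool.Agent.Helper672.ZFA.V246K
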