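import Pool.Agent.V11246.Kg

/-!
# Totally bounded sets are well-orderable
-/

set_option maxHeartbeats 1000000
set_option linter.all false
set_option synthInstance.maxSize 2000

namespace Pool.Agent.Helper672.ZFA.H635

open FirstOrder FirstOrder.Language
open Pool.Agent.Helper672.Plain (LSet)

universe u

section

variable {M : Type u} [L.Structure M] [hM : IsModel M]
variable {P Γ : Type u} [ITy M P] [Preorder P] [ILE M P] [ITy M Γ] [Group Γ] [IMul M Γ]
  [IInv M Γ] [MulAction Γ P] [ISMul M Γ P]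
variable {Λ : Type u} [ITy M Λ] {S : SymSys M P Γ Λ}
variable {G : Set P} (hG : IsGen M G)

/-- A support of an element of the extension. -/
def IsSupp (x : NN S hG) (l : Λ) : Prop :=
  ∀ (ε : Type u) (_ : ITy M ε) (act : Γ → ε → ε) (f : ε → NN S hG), EqFam hG act f →
    ∃ (T : ε → P → Prop), Int M (fun q : ε × P => T q.1 q.2) ∧
      (∀ c p q, T c p → q ≤ p → T c q) ∧ (∀ c p, (∀ q, q ≤ p → ∃ r, r ≤ q ∧ T c r) → T c p) ∧
      (∀ c, Plain.Mem (f c) x ↔ ∃ p, p ∈ G ∧ T c p) ∧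
      ∀ π, S.U l π → ∀ c p, T c p → T (act π c) (π • p)

theorem exists_supp (x : NN S hG) : ∃ l, IsSupp hG x l := by
  obtain ⟨x, rfl⟩ := exists_mk hG x
  obtain ⟨l, hl⟩ := x.good.sym x.root
  refine ⟨l, ?_⟩
  rintro ε _ act f ⟨α, _, E, h, g, hg, h1, h2⟩
  have hI := h.int.fmem x.int
  refine ⟨fun c p => FMem M E x.E p (g c) x.root, ?_, ?_, ?_, ?_, ?_⟩
  · exact Int.comp₃ (p := fun p a b => FMem M E x.E p a b) hI IntF.snd' (hg.comp IntF.fst')
      (IntF.const _)
  · intro c p q hT hq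
    exact hT.mono hq
  · intro c p hp
    exact FMem.of_dense hp
  · intro c
    rw [h1, mk_eq_nd, mem_nd_nd]
  · intro π hπ c p hT
    have h3 := fmem_tw S π hT
    exact FMem.congr_left h.int (h.int.tw π) x.int
      ((h2 π (π • p) c).symm (h.int.tw π) h.int)
      (FMem.congr_right (h.int.tw π) (x.int.tw π) x.int h3 (hl π hπ (π • p)))

theorem exists_graph (x : NN S hG) : ∃ (α : Type u) (_ : ITy M α) (E : α → P → α → Prop)
    (h : Good S E) (r : α), x = nd hG h r := by
  obtain ⟨x, rfl⟩ := exists_mk hG x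
  exact ⟨_, _, x.E, x.good, x.root, mk_eq_nd hG x⟩

variable {hG}

theorem IsSupp.mono {x : NN S hG} {l l' : Λ} (h : IsSupp hG x l) (hl : ∀ π, S.U l' π → S.U l π) :
    IsSupp hG x l' := by
  intro ε _ act f hf
  obtain ⟨T, h1, h2, h3, h4, h5⟩ := h ε _ act f hf
  exact ⟨T, h1, h2, h3, h4, fun π hπ => h5 π (hl π hπ)⟩

theorem IsSupp.tr {x : NN S hG} {l : Λ} (h : IsSupp hG x l) {ε : Type u} [ITy M ε]
    {act : Γ → ε → ε} {f : ε → NN S hG} (hf : EqFam hG act f)
    {R : ε → ε → Prop} (hR : Int M (fun q : ε × ε => R q.1 q.2)) (hr : ∀ c, R c c)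
    (ht : ∀ a b c, R a b → R b c → R a c) (hRf : ∀ a b, R a b → f a = f b)
    (hRa : ∀ π a b, R a b → R (act π a) (act π b)) :
    ∃ (T : ε → P → Prop), Int M (fun q : ε × P => T q.1 q.2) ∧
      (∀ c p q, T c p → q ≤ p → T c q) ∧ (∀ c p, (∀ q, q ≤ p → ∃ r, r ≤ q ∧ T c r) → T c p) ∧
      (∀ c, Plain.Mem (f c) x ↔ ∃ p, p ∈ G ∧ T c p) ∧
      (∀ π, S.U l π → ∀ c p, T c p → T (act π c) (π • p)) ∧
      ∀ c c' p, R c c' → T c' p → T c p := by
  obtain ⟨T, h1, h2, h3, h4, h5⟩ := h ε _ act f hf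
  refine ⟨fun c p => ∀ q, q ≤ p → ∃ r, r ≤ q ∧ ∃ c', R c c' ∧ T c' r, ?_, ?_, ?_, ?_, ?_, ?_⟩
  · (repeat' (first | with_reducible exact IntF.id | with_reducible exact IntF.fst' | with_reducible exact IntF.snd' | with_reducible exact IntF.const _ | with_reducible exact Int.const _ | assumption | with_reducible apply Int.and | with_reducible apply Int.or | with_reducible apply Int.not | with_reducible apply Int.imp | with_reducible apply Int.iff | with_reducible apply Int.ne | with_reducible apply Int.eq | with_reducible apply Int.mem | with_reducible apply Int.subset | with_reducible apply Int.ltN | with_reducible apply Int.leN | with_reducible_and_instances apply Int.le | with_reducible_and_instances apply Int.lt | with_reducible apply Int.all | with_reducible apply Int.ex | with_reducible apply IntF.fst | with_reducible apply IntF.snd | with_reducible apply IntF.app | with_reducible apply IntF.inl | with_reducible apply IntF.inr | with_reducible_and_instances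 apply IntF.mul | with_reducible_and_instances apply IntF.inv | with_reducible_and_instances apply IntF.add | with_reducible_and_instances apply IntF.sub | with_reducible_and_instances apply IntF.neg | with_reducible_and_instances apply IntF.smul | with_reducible apply Int.fin | with_reducible apply IntF.sep | with_reducible apply IntF.lam | with_reducible apply IntF.insert | with_reducible apply IntF.singleton | with_reducible apply IntF.union | with_reducible apply IntF.iimage | with_reducible apply IntF.ite | with_reducible apply IntF.the | with_reducible apply IntF.irec | with_reducible apply IntF.succ | with_reducible apply IntF.val | with_reducible apply IntF.mk | (with_reducible refine Int.comp ?_ ?_; assumption) | (with_reducible refine Int.comp₂ ?_ ?_ ?_; assumption) | (with_reducible refine Int.comp₃ ?_ ?_ ?_ ?_; assumption) | (with_reducible refine Int.comp₄ ?_ ?_ ?_ ?_ ?_; assumption) | (with_reducible refine IntF.comp ?_ ?_; assumption)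 | (with_reducible refine IntF.comp₂ ?_ ?_ ?_; assumption) | (with_reducible refine IntF.comp₃ ?_ ?_ ?_ ?_; assumption) | with_reducible apply IntF.pair))
  · intro c p q h6 hq r hr'
    exact h6 r (hr'.trans hq)
  · intro c p h6 q hq
    obtain ⟨r, hr', h7⟩ := h6 q hq
    obtain ⟨s, hs, h8⟩ := h7 r le_rfl
    exact ⟨s, hs.trans hr', h8⟩
  · intro c
    constructor
    · intro h6
      obtain ⟨p, hp, h7⟩ := (h4 c).1 h6
      exact ⟨p, hp, fun q hq => ⟨q, le_rfl, c, hr c, h2 _ _ _ h7 hq⟩⟩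
    · rintro ⟨p, hp, h6⟩
      obtain ⟨q, hq, -, c', h7, h8⟩ := hG.dense_below (s := fun r => ∃ c', R c c' ∧ T c' r)
        (by (repeat' (first | with_reducible exact IntF.id | with_reducible exact IntF.fst' | with_reducible exact IntF.snd' | with_reducible exact IntF.const _ | with_reducible exact Int.const _ | assumption | with_reducible apply Int.and | with_reducible apply Int.or | with_reducible apply Int.not | with_reducible apply Int.imp | with_reducible apply Int.iff | with_reducible apply Int.ne | with_reducible apply Int.eq | with_reducible apply Int.mem | with_reducible apply Int.subset | with_reducible apply Int.ltN | with_reducible apply Int.leN | with_reducible_and_instances apply Int.le | with_reducible_and_instances apply Int.lt | with_reducible apply Int.all | with_reducible apply Int.ex | with_reducible apply IntF.fst | with_reducible apply IntF.snd | with_reducible apply IntF.app | with_reducible apply IntF.inl | with_reducible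 apply IntF.inr | with_reducible_and_instances apply IntF.mul | with_reducible_and_instances apply IntF.inv | with_reducible_and_instances apply IntF.add | with_reducible_and_instances apply IntF.sub | with_reducible_and_instances apply IntF.neg | with_reducible_and_instances apply IntF.smul | with_reducible apply Int.fin | with_reducible apply IntF.sep | with_reducible apply IntF.lam | with_reducible apply IntF.insert | with_reducible apply IntF.singleton | with_reducible apply IntF.union | with_reducible apply IntF.iimage | with_reducible apply IntF.ite | with_reducible apply IntF.the | with_reducible apply IntF.irec | with_reducible apply IntF.succ | with_reducible apply IntF.val | with_reducible apply IntF.mk | (with_reducible refine Int.comp ?_ ?_; assumption) | (with_reducible refine Int.comp₂ ?_ ?_ ?_; assumption) | (with_reducible refine Int.comp₃ ?_ ?_ ?_ ?_; assumption) | (with_reducible refine Int.comp₄ ?_ ?_ ?_ ?_ ?_; assumption) | (with_reducible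 refine IntF.comp ?_ ?_; assumption) | (with_reducible refine IntF.comp₂ ?_ ?_ ?_; assumption) | (with_reducible refine IntF.comp₃ ?_ ?_ ?_ ?_; assumption) | with_reducible apply IntF.pair))) hp h6
      rw [hRf _ _ h7]
      exact (h4 c').2 ⟨q, hq, h8⟩
  · intro π hπ c p h6 q hq
    obtain ⟨r, hr', c', h7, h8⟩ := h6 (π⁻¹ • q) ((smul_le_iff' S π).1 hq)
    refine ⟨π • r, ?_, act π c', hRa _ _ _ h7, h5 π hπ _ _ h8⟩
    have := S.smul_le π hr'
    rwa [smul_inv_smul] at this
  · intro c c' p h6 h7 q hq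
    obtain ⟨r, hr', c'', h8, h9⟩ := h7 q hq
    exact ⟨r, hr', c'', ht _ _ _ h6 h8, h9⟩

end

end Pool.Agent.Helper672.ZFA.H635

namespace Pool.Agent.Helper672.ZFA.V246K

open FirstOrder FirstOrder.Language
open Pool.Agent.Helper672.ZFA.H635 (IPerm SymSys IWO IsGen NN EqFam nm nmN CollL od Od nd good_og
  IsSupp exists_supp Good Sy)
open Pool.Agent.Helper672.ZFA.V246 (Ctb exists_lf iwo_comap)
open Pool.Agent.H310

universe u

variable {M : Type u} [L.Structure M] [hM : IsModel M] {Y : Type u} [ITy M Y]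
variable {Ω : Type u} [ITy M Ω] {V : Type u} [ITy M V] {K : Cols M Y}
variable {G : Set (Pk M Y Ω V)} {hG : IsGen M G}

theorem exists_dir (l l' : Su M Y Ω) : ∃ l'' : Su M Y Ω, (∀ i, La K l i → La K l'' i) ∧
    (∀ i, La K l' i → La K l'' i) ∧ ∀ u : Ga Ω K, Uk l'' u → Uk l u ∧ Uk l' u := by
  refine ⟨(max l.1 l'.1, ⟨l.2.1 ∪ l'.2.1, l.2.2.union l'.2.2⟩), ?_, ?_, ?_⟩
  · rintro i ⟨h1, h2⟩
    exact ⟨lt_of_lt_of_le h1 (le_max_left _ _), mem_union.2 (Or.inl h2)⟩
  · rintro i ⟨h1, h2⟩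
    exact ⟨lt_of_lt_of_le h1 (le_max_right _ _), mem_union.2 (Or.inr h2)⟩
  · rintro u ⟨⟨c, h1, h2⟩, h3⟩
    refine ⟨⟨⟨c, K.anti _ _ _ (le_max_left _ _) h1, h2⟩, fun i hi => h3 i ?_⟩,
      ⟨⟨c, K.anti _ _ _ (le_max_right _ _) h1, h2⟩, fun i hi => h3 i ?_⟩⟩
    · exact ⟨lt_of_lt_of_le hi.1 (le_max_left _ _), mem_union.2 (Or.inl hi.2)⟩
    · exact ⟨lt_of_lt_of_le hi.1 (le_max_right _ _), mem_union.2 (Or.inr hi.2)⟩

theorem wo_main (hC : CollL M) (hA : AC M) (hΩ : ¬ Ctb M (fun _ : Ω => True)) (hS : Star K)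
    {β : Type u} [ITy M β] {ltβ : β → β → Prop} (hβ : IWO M β ltβ)
    (X w e : NN (Sk Ω V K) hG) (he : ∀ x, Mem x X → ∃ b, Mem (op x (od (Sk Ω V K) hG hβ b)) e)
    (hsymm : ∀ n u v, Mem u X → Mem v X → Wr hG w n u v → Wr hG w n v u)
    (htrans : ∀ n u v x, Mem u X → Mem v X → Mem x X → Wr hG w n.succ u v → Wr hG w n.succ v x →
      Wr hG w n u x)
    (hsep : ∀ u v, Mem u X → Mem v X → (∀ n, Wr hG w n u v) → u = v)
    (hstb : ∀ b (z : NN (Sk Ω V K) hG),
      (∀ x, Mem x z ↔ Mem x X ∧ Mem (op x (od (Sk Ω V K) hG hβ b)) e) →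
      ∀ s : INat (NN (Sk Ω V K) hG) → El z, IntF (NN (Sk Ω V K) hG) s →
      ∀ n : INat (NN (Sk Ω V K) hG), ∃ J : IPow (NN (Sk Ω V K) hG) (INat (NN (Sk Ω V K) hG)),
        IFin J ∧ ∀ i, ∃ j, j ∈ J ∧ Mem (op n.val (op (s i).1 (s j).1)) w) :
    ∃ lt, IWO (NN (Sk Ω V K) hG) (El X) lt := by
  have i1 : Int M (fun q : Su M Y Ω × Ga Ω K => Uk q.1 q.2) := int_Uk
  have i2 : IntF M (fun q : Ga Ω K × Ix M Y Ω => ap q.1 q.2) := int_ap
  by_cases hne : ∃ x, Mem x X
  swap
  · refine ⟨fun _ _ => False, Int.const _, fun a => absurd ⟨a.1, a.2⟩ hne, fun s ⟨a, _⟩ =>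
      absurd ⟨a.1, a.2⟩ hne⟩
  obtain ⟨α, _, E, h, r, hXr⟩ := H635.exists_graph hG X
  obtain ⟨lw, hlw⟩ := exists_supp hG w
  obtain ⟨le, hle⟩ := exists_supp hG e
  obtain ⟨lX, hlX⟩ := exists_supp hG X
  obtain ⟨l1, -, -, hl1⟩ := exists_dir (K := K) lw le
  obtain ⟨l0, -, -, hl0⟩ := exists_dir (K := K) l1 lX
  have hw0 : IsSupp hG w l0 := hlw.mono fun π hπ => (hl1 π (hl0 π hπ).1).1
  have he0 : IsSupp hG e l0 := hle.mono fun π hπ => (hl1 π (hl0 π hπ).1).2
  have hX0 : IsSupp hG X l0 := hlX.mono fun π hπ => (hl0 π hπ).2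
  have hog := H635.og_fam hG h
  have hel : ∀ x, Mem x X → ∃ a, x = nd hG (good_og h) ((1, a) : Ga Ω K × α) := by
    intro x hx
    rw [hXr] at hx
    obtain ⟨a, s, -, -, rfl⟩ := (H635.mem_nd hG h).1 hx
    exact ⟨a, (H635.nd_og_one hG h a).symm⟩
  have key : ∀ x, Mem x X → ∃ (a : α) (q : Pk M Y Ω V), q ∈ G ∧
      x = nd hG (good_og h) ((1, a) : Ga Ω K × α) ∧ ∀ π : Ga Ω K, Uk l0 π → π • q ∈ G →
        nd hG (good_og h) ((π, a) : Ga Ω K × α) = x := by
    intro x hx
    obtain ⟨a, rfl⟩ := hel x hx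
    obtain ⟨b, hb⟩ := he _ hx
    obtain ⟨la0, hla0⟩ := h.sym a
    obtain ⟨la, a1, a2, a3⟩ := exists_dir (K := K) l0 la0
    have hF : EqFam hG (fun σ π : Ga Ω K => σ * π)
        (fun π => nd hG (good_og h) ((π, a) : Ga Ω K × α)) :=
      EqFam.comp hog (φ := fun π : Ga Ω K => (π, a)) (IntF.pair IntF.id (IntF.const _))
        fun _ _ => rfl
    have hact : ∀ π b : Ga Ω K, π⁻¹ * (π * b) = b := fun π b => inv_mul_cancel_left _ _
    have hcong : ∀ π u : Ga Ω K, Uk la u → nd hG (good_og h) ((π * u, a) : Ga Ω K × α) =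
        nd hG (good_og h) ((π, a) : Ga Ω K × α) := fun π u hu =>
      H635.nd_og_eq' hG h hla0 π (a3 u hu).2
    -- the forcing relation for `w`
    have hfw : EqFam hG (fun (σ : Ga Ω K) (c : INat M × (Ga Ω K × Ga Ω K)) =>
        (c.1, (σ * c.2.1, σ * c.2.2))) (fun c => op (nm (Sk Ω V K) hG c.1)
          (op (nd hG (good_og h) ((c.2.1, a) : Ga Ω K × α))
            (nd hG (good_og h) ((c.2.2, a) : Ga Ω K × α)))) := by
      have hac : ∀ (π : Ga Ω K) (b : INat M × (Ga Ω K × Ga Ω K)),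
          (b.1, (π⁻¹ * (π * b.2.1), π⁻¹ * (π * b.2.2))) = b := fun π b => by
        rw [hact, hact]
      refine EqFam.op hac ?_ (EqFam.op hac ?_ ?_)
      · exact EqFam.comp (H635.nm_fam (S := Sk Ω V K) hG)
          (φ := fun c : INat M × (Ga Ω K × Ga Ω K) => c.1) IntF.fst' fun _ _ => rfl
      · exact EqFam.comp hF (φ := fun c : INat M × (Ga Ω K × Ga Ω K) => c.2.1)
          (IntF.fst IntF.snd') fun _ _ => rfl
      · exact EqFam.comp hF (φ := fun c : INat M × (Ga Ω K × Ga Ω K) => c.2.2)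
          (IntF.snd IntF.snd') fun _ _ => rfl
    have hR : Int M (fun q : (INat M × (Ga Ω K × Ga Ω K)) × (INat M × (Ga Ω K × Ga Ω K)) =>
        q.1.1 = q.2.1 ∧ Uk la (q.1.2.1⁻¹ * q.2.2.1) ∧ Uk la (q.1.2.2⁻¹ * q.2.2.2)) := by
      refine Int.and (Int.eq (IntF.fst IntF.fst') (IntF.fst IntF.snd')) (Int.and ?_ ?_)
      · exact Int.comp₂ (p := fun (l : Su M Y Ω) (g : Ga Ω K) => Uk l g) i1 (IntF.const _)
          (IntF.mul (IntF.inv (IntF.fst (IntF.snd IntF.fst'))) (IntF.fst (IntF.snd IntF.snd')))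
      · exact Int.comp₂ (p := fun (l : Su M Y Ω) (g : Ga Ω K) => Uk l g) i1 (IntF.const _)
          (IntF.mul (IntF.inv (IntF.snd (IntF.snd IntF.fst'))) (IntF.snd (IntF.snd IntF.snd')))
    have hRf0 : ∀ π π' : Ga Ω K, Uk la (π⁻¹ * π') → nd hG (good_og h) ((π, a) : Ga Ω K × α) =
        nd hG (good_og h) ((π', a) : Ga Ω K × α) := by
      intro π π' h1
      have := hcong π _ h1
      rw [mul_inv_cancel_left] at this
      exact this.symm
    obtain ⟨T, t1, t2, t3, t4, t5, t6⟩ := hw0.tr hfw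
      (R := fun c c' => c.1 = c'.1 ∧ Uk la (c.2.1⁻¹ * c'.2.1) ∧ Uk la (c.2.2⁻¹ * c'.2.2)) hR
      (fun c => ⟨rfl, by rw [inv_mul_cancel]; exact Uk.one, by rw [inv_mul_cancel]; exact Uk.one⟩)
      (fun c c' c'' h1 h2 => ⟨h1.1.trans h2.1, by
        have := h1.2.1.mul h2.2.1
        rwa [mul_assoc, mul_inv_cancel_left] at this, by
        have := h1.2.2.mul h2.2.2
        rwa [mul_assoc, mul_inv_cancel_left] at this⟩)
      (fun c c' h1 => by
        beta_reduce
        rw [h1.1, hRf0 _ _ h1.2.1, hRf0 _ _ h1.2.2])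
      (fun π c c' h1 => ⟨h1.1, by
        rw [mul_inv_rev, mul_assoc, inv_mul_cancel_left]
        exact h1.2.1, by
        rw [mul_inv_rev, mul_assoc, inv_mul_cancel_left]
        exact h1.2.2⟩)
    -- the forcing relation for `e`
    have hfe : EqFam hG (fun (σ : Ga Ω K) (π : Ga Ω K) => σ * π)
        (fun π => op (nd hG (good_og h) ((π, a) : Ga Ω K × α)) (od (Sk Ω V K) hG hβ b)) := by
      refine EqFam.op hact hF ?_
      exact EqFam.comp (H635.od_fam (S := Sk Ω V K) hG hβ) (φ := fun _ : Ga Ω K => b)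
        (IntF.const _) fun _ _ => rfl
    obtain ⟨Te, e1, e2, e3, e4, e5⟩ := he0 _ _ _ _ hfe
    obtain ⟨p1, hp1, hTe⟩ := (e4 1).1 hb
    obtain ⟨TX, x1, x2, x3, x4, x5⟩ := hX0 _ _ _ _ hF
    obtain ⟨p2, hp2, hTX⟩ := (x4 1).1 hx
    obtain ⟨p₀, hp₀, hp1', hp2'⟩ := hG.dir _ _ hp1 hp2
    have hsz : Small {y : NN (Sk Ω V K) hG | Mem y X ∧ y ∈ {y : NN (Sk Ω V K) hG |
        Mem (op y (od (Sk Ω V K) hG hβ b)) e}} :=
      small_sep (D.memf (DF.op (DF.var _) (DF.const _)) (DF.const _)) X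
    have hz : ∀ y, Mem y hsz.elt ↔ Mem y X ∧ Mem (op y (od (Sk Ω V K) hG hβ b)) e :=
      fun y => hsz.mem
    have hX : Core hG (fun n π π' p => T (n, (π, π')) p)
        (fun π => nd hG (good_og h) ((π, a) : Ga Ω K × α)) w hsz.elt l0 la p₀ := by
      refine ⟨a1, ?_, fun n => ⟨?_, ?_, ?_, ?_⟩, ?_, hF, hcong, hp₀, ?_, ?_, ?_, ?_⟩
      · exact Int.comp₂ (p := fun c p => T c p) t1 (IntF.pair (IntF.fst (IntF.fst IntF.fst'))
          (IntF.pair (IntF.snd (IntF.fst IntF.fst')) (IntF.snd IntF.fst'))) IntF.snd'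
      · intro π π' p q h1 h2
        exact t2 _ _ _ h1 h2
      · intro π π' p h1
        exact t3 _ _ h1
      · intro σ hσ π π' p h1
        exact t5 σ hσ _ _ h1
      · intro π π' u u' p hu hu' h1
        refine t6 _ (n, (π * u, π' * u')) _ ⟨rfl, ?_, ?_⟩ h1
        · change Uk la (π⁻¹ * (π * u))
          rwa [inv_mul_cancel_left]
        · change Uk la (π'⁻¹ * (π' * u'))
          rwa [inv_mul_cancel_left]
      · intro n π π'
        exact t4 (n, (π, π'))
      · intro π hπ hp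
        refine (hz _).2 ⟨(x4 π).2 ⟨_, hp, ?_⟩, (e4 π).2 ⟨_, hp, ?_⟩⟩
        · have := x5 π hπ 1 p₀ (x2 _ _ _ hTX hp2')
          rwa [mul_one] at this
        · have := e5 π hπ 1 p₀ (e2 _ _ _ hTe hp1')
          rwa [mul_one] at this
      · intro n u v hu hv h1
        exact hsymm n u v ((hz _).1 hu).1 ((hz _).1 hv).1 h1
      · intro n u v x hu hv hx' h1 h2
        exact htrans n u v x ((hz _).1 hu).1 ((hz _).1 hv).1 ((hz _).1 hx').1 h1 h2
      · exact hstb b hsz.elt hz
    obtain ⟨q, hq, hq'⟩ := core hX hC hA hΩ hS fun u v hu hv h1 =>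
      hsep u v ((hz _).1 hu).1 ((hz _).1 hv).1 h1
    exact ⟨a, q, hq, rfl, hq'⟩
  obtain ⟨lt, hlt⟩ := hA (α × Pk M Y Ω V) inferInstance
  have hfR : EqFam hG (fun (σ : Ga Ω K) (c : (α × Pk M Y Ω V) × Ga Ω K) => (c.1, σ * c.2))
      (fun c => op (od (Sk Ω V K) hG hlt c.1) (nd hG (good_og h) ((c.2, c.1.1) : Ga Ω K × α))) := by
    refine EqFam.op (fun π b => by rw [inv_mul_cancel_left]) ?_ ?_
    · exact EqFam.comp (H635.od_fam (S := Sk Ω V K) hG hlt)
        (φ := fun c : (α × Pk M Y Ω V) × Ga Ω K => c.1) IntF.fst' fun _ _ => rfl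
    · exact EqFam.comp hog (φ := fun c : (α × Pk M Y Ω V) × Ga Ω K => (c.2, c.1.1))
        (IntF.pair IntF.snd' (IntF.fst IntF.fst')) fun _ _ => rfl
  have hZ : Int M (fun q : ((α × Pk M Y Ω V) × Ga Ω K) × Pk M Y Ω V =>
      Uk l0 q.1.2 ∧ q.2 = q.1.2 • q.1.1.2) := by
    refine Int.and ?_ (Int.eq IntF.snd' (IntF.smul (IntF.snd IntF.fst')
      (IntF.snd (IntF.fst IntF.fst'))))
    exact Int.comp₂ (p := fun (l : Su M Y Ω) (g : Ga Ω K) => Uk l g) i1 (IntF.const _)
      (IntF.snd IntF.fst')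
  obtain ⟨zR, hzR⟩ := H635.EqFam.setP hG hfR (Z := fun c r => Uk l0 c.2 ∧ r = c.2 • c.1.2) hZ
    ⟨l0, fun π hπ c r h1 => ⟨Uk.mul hπ h1.1, by rw [h1.2]; exact (mul_smul _ _ _).symm⟩⟩
  have hI : Int (NN (Sk Ω V K) hG) (fun q : El X × El (Od (Sk Ω V K) hG hlt) =>
      Mem (op q.2.1 q.1.1) zR ∧ ∀ y, Mem (op q.2.1 y) zR → y = q.1.1) :=
    Int.of_D₂ (S := fun v => Mem (op (v 1) (v 0)) zR ∧ ∀ y, Mem (op (v 1) y) zR → y = v 0)
      (D.and (D.memf (DF.op (DF.var _) (DF.var _)) (DF.const _)) (D.all (D.imp (D.memf (DF.op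
        (DF.var _) (DF.var _)) (DF.const _)) (D.eqf (DF.var _) (DF.var _))))) fun _ _ => Iff.rfl
  have hcode : ∀ x : El X, ∃ o : El (Od (Sk Ω V K) hG hlt),
      Mem (op o.1 x.1) zR ∧ ∀ y, Mem (op o.1 y) zR → y = x.1 := by
    intro x
    obtain ⟨a, q, hq, h1, h2⟩ := key x.1 x.2
    refine ⟨⟨od (Sk Ω V K) hG hlt (a, q), (H635.mem_Od hG hlt).2 ⟨_, rfl⟩⟩, ?_, ?_⟩
    · refine (hzR _).2 ⟨((a, q), 1), q, hq, ⟨Uk.one, by rw [one_smul]⟩, ?_⟩
      change op _ x.1 = op _ _
      rw [h1]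
    · intro y hy
      obtain ⟨c, r', hr', h3, h4⟩ := (hzR _).1 hy
      obtain ⟨h5, h6⟩ := op_inj h4
      have h7 := H635.od_inj hG hlt hC h5
      rw [h6, ← h7]
      refine h2 c.2 h3.1 ?_
      have h8 := h3.2
      rw [← h7] at h8
      rw [← h8]
      exact hr'
  obtain ⟨x0, hx0⟩ := hne
  obtain ⟨o0, -⟩ := hcode ⟨x0, hx0⟩
  obtain ⟨φ, h1, h2⟩ := exists_lf (H635.iwo_Od hG hC hlt) (γ := El X)
    (r := fun x o => Mem (op o.1 x.1) zR ∧ ∀ y, Mem (op o.1 y) zR → y = x.1) hI o0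
  refine ⟨_, iwo_comap (H635.iwo_Od hG hC hlt) h1 fun x y hxy => ?_⟩
  have h3 := (h2 x (hcode x)).1
  have h4 := (h2 y (hcode y)).1
  rw [← hxy] at h4
  exact Subtype.ext (h4.2 _ h3.1)

end Pool.Agent.Helper672.ZFA.V246K
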