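import Pool.Agent.V11246.Ku
import Pool.Agent.V11246.Kh
import Pool.Agent.V11246.Cmp

/-!
# Nets in well-ordered sets, and the principle in the extension
-/

set_option maxHeartbeats 1000000
set_option linter.all false
set_option synthInstance.maxSize 2000

namespace Pool.Agent.Helper672.ZFA.V246K

open FirstOrder FirstOrder.Language
open Pool.Agent.Helper672.ZFA.H635 (IPerm SymSys IWO IsGen NN EqFam nm nmN CollL od Od)
open Pool.Agent.Helper672.ZFA.V246 (Ctb exists_lf iwo_comap iwo_fin exists_rank iwoNn flt)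
open Pool.Agent.H310

universe u

section

variable {N : Type u} [L.Structure N] [hN : IsModel N] {α : Type u} [ITy N α]
variable {lt : α → α → Prop} (h : IWO N α lt)
include h

theorem ctb_fin_union {F : INat N → IPow N α} (hF : IntF N F) (hfin : ∀ n, IFin (F n)) :
    Ctb N (fun x => ∃ n, x ∈ F n) := by
  have hT : Int N (fun q : INat N × α => q.2 ∈ F q.1) := Int.mem IntF.snd' (hF.comp IntF.fst')
  obtain ⟨ρ, h1, h2⟩ := exists_rank h (iwoNn (N := N)) hT 0 (fun n => by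
    rintro ⟨g, hg, hi, hgm⟩
    exact not_finP_nat (M := N) (FinP.of_inj (Int.const _) hg (fun a a' _ _ e => hi e)
      (q := fun x => x ∈ F n) ⟨F n, hfin n, fun _ h => h⟩ fun a _ => hgm a))
  obtain ⟨e, he, h3⟩ := exists_lf (iwoNn (N := N)) (γ := α) (r := fun x n => x ∈ F n)
    (Int.mem IntF.fst' (hF.comp IntF.snd')) 0
  have hp : IntF N (fun q : INat N × INat N => pr q.1 q.2) := int_pr
  refine ⟨fun x => pr (e x) (ρ (e x) x), ?_, fun a b ha hb hab => ?_⟩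
  · exact IntF.comp₂ (p := fun a b : INat N => pr a b) hp he
      (IntF.comp₂ (p := fun n x => ρ n x) h1 he IntF.id)
  · obtain ⟨h4, h5⟩ := pr_inj hab
    have h6 := (h3 b hb).1
    rw [← h4] at h5 h6
    exact (h2 (e a)).1 _ _ (h3 a ha).1 h6 h5

theorem exists_dense {E : INat N → α → α → Prop}
    (hE : Int N (fun q : (INat N × α) × α => E q.1.1 q.1.2 q.2))
    (hnet : ∀ n, ∃ s : IPow N α, IFin s ∧ ∀ x, ∃ y, y ∈ s ∧ E n x y) :
    ∃ D : IPow N α, Ctb N (fun x => x ∈ D) ∧ ∀ n x, ∃ y, y ∈ D ∧ E n x y := by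
  have hf : Int N (fun s : IPow N α => IFin s) := Int.fin IntF.id
  have hfa : Fact (Int N (fun s : IPow N α => IFin s)) := ⟨hf⟩
  have hw := iwo_fin h (β := {s : IPow N α // IFin s}) (f := fun s => s.1) IntF.val'
    (fun a b hab => Subtype.ext hab) fun b => b.2
  have hr : Int N (fun q : INat N × {s : IPow N α // IFin s} => ∀ x, ∃ y, y ∈ q.2.1 ∧ E q.1 x y) := by
    refine Int.all (Int.ex (Int.and (Int.mem IntF.snd' (IntF.val (IntF.snd (IntF.fst IntF.fst')))) ?_))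
    exact Int.comp₃ (p := fun n x y => E n x y) hE (IntF.fst (IntF.fst IntF.fst'))
      (IntF.snd IntF.fst') IntF.snd'
  obtain ⟨e, he, h1⟩ := exists_lf hw (γ := INat N) (r := fun n s => ∀ x, ∃ y, y ∈ s.1 ∧ E n x y)
    hr ⟨∅, IFin.empty⟩
  have h2 : ∀ n x, ∃ y, y ∈ (e n).1 ∧ E n x y := fun n => by
    obtain ⟨s, hs, h3⟩ := hnet n
    exact (h1 n ⟨⟨s, hs⟩, h3⟩).1
  have hF : IntF N (fun n => (e n).1) := IntF.val he
  have hI : Int N (fun x => ∃ n, x ∈ (e n).1) :=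
    Int.ex (Int.mem IntF.fst' (hF.comp IntF.snd'))
  refine ⟨sep N fun x => ∃ n, x ∈ (e n).1, (ctb_fin_union h hF fun n => (e n).2).mono
    fun x hx => (mem_sep hI).1 hx, fun n x => ?_⟩
  obtain ⟨y, hy, h3⟩ := h2 n x
  exact ⟨y, (mem_sep hI).2 ⟨n, hy⟩, h3⟩

end

/-- Totally bounded sets are well-orderable. -/
def TBW (N : Type u) [L.Structure N] [IsModel N] : Prop :=
  ∀ (X : N) (W : INat N → El X → El X → Prop),
    Int N (fun q : (INat N × El X) × El X => W q.1.1 q.1.2 q.2) →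
    (∀ n u v, W n u v → W n v u) → (∀ n u v x, W n.succ u v → W n.succ v x → W n u x) →
    (∀ u v, (∀ n, W n u v) → u = v) →
    (∀ s : INat N → El X, IntF N s → ∀ n, ∃ J : IPow N (INat N), IFin J ∧ ∀ i, ∃ j, j ∈ J ∧
      W n (s i) (s j)) → ∃ lt, IWO N (El X) lt

variable {M : Type u} [L.Structure M] [hM : IsModel M] {Y : Type u} [ITy M Y]
variable {Ω : Type u} [ITy M Ω] {V : Type u} [ITy M V] {K : Cols M Y}
variable {G : Set (Pk M Y Ω V)} {hG : IsGen M G}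

theorem tbw_NN (hC : CollL M) (hA : AC M) (hΩ : ¬ Ctb M (fun _ : Ω => True)) (hS : Star K) :
    TBW (NN (Sk Ω V K) hG) := by
  intro X W hW hsymm htrans hsep hstb
  have hW' : Int (NN (Sk Ω V K) hG)
      (fun q : INat (NN (Sk Ω V K) hG) × (El X × El X) => W q.1 q.2.1 q.2.2) :=
    Int.comp₃ (p := fun n x y => W n x y) hW IntF.fst' (IntF.fst IntF.snd') (IntF.snd IntF.snd')
  obtain ⟨w, hw⟩ := hW'
  have hw' : ∀ (n : INat M) (u v : El X), Wr hG w n u.1 v.1 ↔ W (nmN (Sk Ω V K) hG hC n) u v :=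
    fun n u v => hw (nmN (Sk Ω V K) hG hC n, (u, v))
  have hI : Int (NN (Sk Ω V K) hG) (fun q : El X × INat (NN (Sk Ω V K) hG) => q.2 = 0) :=
    Int.eq IntF.snd' (IntF.const _)
  have h0 : od (Sk Ω V K) hG (iwoNn (N := M)) 0 = (0 : INat (NN (Sk Ω V K) hG)).val := by
    rw [← H635.nmN_zero hG hC]
    rfl
  refine wo_main hC hA hΩ hS (iwoNn (N := M)) X w (code (M := NN (Sk Ω V K) hG)
    (sep (NN (Sk Ω V K) hG) fun q : El X × INat (NN (Sk Ω V K) hG) => q.2 = 0)) ?_ ?_ ?_ ?_ ?_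
  · intro x hx
    refine ⟨0, ?_⟩
    rw [h0]
    exact (mem_code_pow (M := NN (Sk Ω V K) hG)).2 ⟨(⟨x, hx⟩, 0), (mem_sep hI).2 rfl, rfl⟩
  · intro n u v hu hv h1
    exact (hw' n ⟨v, hv⟩ ⟨u, hu⟩).2 (hsymm _ _ _ ((hw' n ⟨u, hu⟩ ⟨v, hv⟩).1 h1))
  · intro n u v x hu hv hx h1 h2
    refine (hw' n ⟨u, hu⟩ ⟨x, hx⟩).2 (htrans _ _ ⟨v, hv⟩ _ ?_ ?_)
    · rw [← H635.nmN_succ]
      exact (hw' n.succ ⟨u, hu⟩ ⟨v, hv⟩).1 h1
    · rw [← H635.nmN_succ]
      exact (hw' n.succ ⟨v, hv⟩ ⟨x, hx⟩).1 h2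
  · intro u v hu hv h1
    have := hsep ⟨u, hu⟩ ⟨v, hv⟩ fun n => by
      obtain ⟨n, rfl⟩ := H635.nmN_surj hG hC n
      exact (hw' n ⟨u, hu⟩ ⟨v, hv⟩).1 (h1 n)
    exact congrArg Subtype.val this
  · intro b z hz s hs n
    let φ : El z → El X := fun x => ⟨x.1, ((hz x.1).1 x.2).1⟩
    have hi : IntF (NN (Sk Ω V K) hG) φ := by
      refine IntF.of_rel (r := fun (x : El z) (y : El X) => y.1 = x.1) ?_ fun x y => ?_
      · exact Int.of_D₂ (S := fun v => v 1 = v 0) (D.eqf (DF.var _) (DF.var _)) fun _ _ => Iff.rfl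
      · exact ⟨fun h => Subtype.ext h.symm, fun h => by rw [← h]⟩
    obtain ⟨J, hJ, h1⟩ := hstb (fun i => φ (s i)) (hi.comp hs) n
    refine ⟨J, hJ, fun i => ?_⟩
    obtain ⟨j, hj, h2⟩ := h1 i
    refine ⟨j, hj, ?_⟩
    exact (hw (n, (φ (s i), φ (s j)))).2 h2

end Pool.Agent.Helper672.ZFA.V246K
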