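import Pool.Agent.V11246.Kp
import Pool.Agent.V11246.Kv

/-!
# The levels of the columns in the extension
-/

set_option maxHeartbeats 1000000
set_option linter.all false
set_option synthInstance.maxSize 2000

namespace Pool.Agent.Helper672.ZFA.V246K

open FirstOrder FirstOrder.Language
open Pool.Agent.Helper672.ZFA.H635 (IPerm SymSys IWO IsGen NN EqFam nm nmN CollL od Od)
open Pool.Agent.Helper672.ZFA.V246 (Ctb exists_lf)
open Pool.Agent.H310

universe u

variable {M : Type u} [L.Structure M] [hM : IsModel M]

theorem ctb_Ve (hA : AC M) : Ctb M (fun _ : Ve M => True) := by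
  have hB : Int M (fun q : INat M × Ve M => ∀ x, x ∈ q.2.1 → x < q.1) :=
    Int.all (Int.imp (Int.mem IntF.snd' (IntF.val (IntF.snd IntF.fst')))
      (Int.ltN IntF.snd' (IntF.fst IntF.fst')))
  obtain ⟨F, hF, hF'⟩ : ∃ F : INat M → IPow M (Ve M), IntF M F ∧
      ∀ n v, v ∈ F n ↔ ∀ x, x ∈ v.1 → x < n :=
    ⟨fun n => sep M fun v => ∀ x, x ∈ v.1 → x < n, IntF.sep hB, fun n v =>
      mem_sep (Int.comp (f := fun v : Ve M => (n, v)) hB (IntF.pair (IntF.const _) IntF.id))⟩
  have hins : IntF M (fun q : INat M × Ve M => (⟨insert q.1 q.2.1, q.2.2.insert q.1⟩ : Ve M)) := by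
    refine IntF.mk ?_
    exact IntF.insert IntF.fst' (IntF.val IntF.snd')
  have herase : IntF M (fun q : INat M × Ve M => (⟨sep M fun x => x ∈ q.2.1 ∧ x ≠ q.1,
      q.2.2.subset fun x hx => ((mem_sep (by (repeat' (first | with_reducible exact IntF.id | with_reducible exact IntF.fst' | with_reducible exact IntF.snd' | with_reducible exact IntF.const _ | with_reducible exact Int.const _ | assumption | with_reducible apply Int.and | with_reducible apply Int.or | with_reducible apply Int.not | with_reducible apply Int.imp | with_reducible apply Int.iff | with_reducible apply Int.ne | with_reducible apply Int.eq | with_reducible apply Int.mem | with_reducible apply Int.subset | with_reducible apply Int.ltN | with_reducible apply Int.leN | with_reducible_and_instances apply Int.le | with_reducible_and_instances apply Int.lt | with_reducible apply Int.all | with_reducible apply Int.ex | with_reducible apply IntF.fst | with_reducible apply IntF.snd | with_reducible apply IntF.app | with_reducible apply IntF.inl | with_reducible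 apply IntF.inr | with_reducible_and_instances apply IntF.mul | with_reducible_and_instances apply IntF.inv | with_reducible_and_instances apply IntF.add | with_reducible_and_instances apply IntF.sub | with_reducible_and_instances apply IntF.neg | with_reducible_and_instances apply IntF.smul | with_reducible apply Int.fin | with_reducible apply IntF.sep | with_reducible apply IntF.lam | with_reducible apply IntF.insert | with_reducible apply IntF.singleton | with_reducible apply IntF.union | with_reducible apply IntF.iimage | with_reducible apply IntF.ite | with_reducible apply IntF.the | with_reducible apply IntF.irec | with_reducible apply IntF.succ | with_reducible apply IntF.val | with_reducible apply IntF.mk | (with_reducible refine Int.comp ?_ ?_; assumption) | (with_reducible refine Int.comp₂ ?_ ?_ ?_; assumption) | (with_reducible refine Int.comp₃ ?_ ?_ ?_ ?_; assumption) | (with_reducible refine Int.comp₄ ?_ ?_ ?_ ?_ ?_; assumption) | (with_reducible refine IntF.comp ?_ ?_; assumption) | (with_reducible refine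 IntF.comp₂ ?_ ?_ ?_; assumption) | (with_reducible refine IntF.comp₃ ?_ ?_ ?_ ?_; assumption) | with_reducible apply IntF.pair)))).1 hx).1⟩ : Ve M)) := by
    refine IntF.mk ?_
    exact IntF.sep (Int.and (Int.mem IntF.snd' (IntF.val (IntF.snd IntF.fst')))
      (Int.not (Int.eq IntF.snd' (IntF.fst IntF.fst'))))
  have hfin : ∀ n, IFin (F n) := by
    refine INat.ind (Int.fin hF) ?_ ?_
    · refine (IFin.singleton (⟨∅, IFin.empty⟩ : Ve M)).subset fun v hv => ?_
      rw [mem_singleton]
      refine Subtype.ext (IPow.ext' fun x => ?_)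
      exact ⟨fun hx => absurd ((hF' _ _).1 hv x hx) INat.not_lt_zero, fun hx => absurd hx (by simp)⟩
    · intro n ih
      have hg : IntF M (fun v : Ve M => (⟨insert n v.1, v.2.insert n⟩ : Ve M)) :=
        IntF.comp (f := fun v : Ve M => (n, v)) hins (IntF.pair (IntF.const _) IntF.id)
      refine (ih.union (ih.image hg)).subset fun v hv => ?_
      rw [mem_union, mem_iimage hg]
      by_cases hn : n ∈ v.1
      · right
        have hI : Int M (fun x : INat M => x ∈ v.1 ∧ x ≠ n) := by (repeat' (first | with_reducible exact IntF.id | with_reducible exact IntF.fst' | with_reducible exact IntF.snd' | with_reducible exact IntF.const _ | with_reducible exact Int.const _ | assumption | with_reducible apply Int.and | with_reducible apply Int.or | with_reducible apply Int.not | with_reducible apply Int.imp | with_reducible apply Int.iff | with_reducible apply Int.ne | with_reducible apply Int.eq | with_reducible apply Int.mem | with_reducible apply Int.subset | with_reducible apply Int.ltN | with_reducible apply Int.leN | with_reducible_and_instances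 apply Int.le | with_reducible_and_instances apply Int.lt | with_reducible apply Int.all | with_reducible apply Int.ex | with_reducible apply IntF.fst | with_reducible apply IntF.snd | with_reducible apply IntF.app | with_reducible apply IntF.inl | with_reducible apply IntF.inr | with_reducible_and_instances apply IntF.mul | with_reducible_and_instances apply IntF.inv | with_reducible_and_instances apply IntF.add | with_reducible_and_instances apply IntF.sub | with_reducible_and_instances apply IntF.neg | with_reducible_and_instances apply IntF.smul | with_reducible apply Int.fin | with_reducible apply IntF.sep | with_reducible apply IntF.lam | with_reducible apply IntF.insert | with_reducible apply IntF.singleton | with_reducible apply IntF.union | with_reducible apply IntF.iimage | with_reducible apply IntF.ite | with_reducible apply IntF.the | with_reducible apply IntF.irec | with_reducible apply IntF.succ | with_reducible apply IntF.val | with_reducible apply IntF.mk | (with_reducible refine Int.comp ?_ ?_; assumption)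 | (with_reducible refine Int.comp₂ ?_ ?_ ?_; assumption) | (with_reducible refine Int.comp₃ ?_ ?_ ?_ ?_; assumption) | (with_reducible refine Int.comp₄ ?_ ?_ ?_ ?_ ?_; assumption) | (with_reducible refine IntF.comp ?_ ?_; assumption) | (with_reducible refine IntF.comp₂ ?_ ?_ ?_; assumption) | (with_reducible refine IntF.comp₃ ?_ ?_ ?_ ?_; assumption) | with_reducible apply IntF.pair))
        refine ⟨⟨sep M fun x => x ∈ v.1 ∧ x ≠ n, v.2.subset fun x hx => ((mem_sep hI).1 hx).1⟩,
          (hF' _ _).2 fun x hx => ?_, Subtype.ext (IPow.ext' fun x => ?_)⟩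
        · obtain ⟨h1, h2⟩ := (mem_sep hI).1 hx
          exact (INat.lt_succ_iff'.1 ((hF' _ _).1 hv x h1)).resolve_right h2
        · rw [mem_insert]
          change x = n ∨ x ∈ (sep M fun x : INat M => x ∈ v.1 ∧ x ≠ n) ↔ _
          rw [mem_sep hI]
          constructor
          · rintro (rfl | h)
            · exact hn
            · exact h.1
          · intro h
            by_cases hx : x = n
            · exact Or.inl hx
            · exact Or.inr ⟨h, hx⟩
      · left
        refine (hF' _ _).2 fun x hx => ?_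
        refine (INat.lt_succ_iff'.1 ((hF' _ _).1 hv x hx)).resolve_right fun h => ?_
        exact hn (h ▸ hx)
  obtain ⟨lt, hlt⟩ := hA (Ve M) inferInstance
  refine (ctb_fin_union hlt hF hfin).mono fun v _ => ?_
  have hb : ∀ s : IPow M (INat M), IFin s → ∃ n : INat M, ∀ x, x ∈ s → x < n := by
    refine IFin.ind (p := fun s : IPow M (INat M) => ∃ n : INat M, ∀ x, x ∈ s → x < n) ?_ ?_ ?_
    · exact Int.ex (Int.all (Int.imp (Int.mem IntF.snd' (IntF.fst IntF.fst'))
        (Int.ltN IntF.snd' (IntF.snd IntF.fst'))))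
    · exact ⟨0, fun x hx => absurd hx (by simp)⟩
    · rintro s x _ _ ⟨n, hn⟩
      refine ⟨max n x.succ, fun y hy => ?_⟩
      rcases mem_insert.1 hy with rfl | hy
      · exact lt_of_lt_of_le (INat.lt_succ_self _) (le_max_right _ _)
      · exact lt_of_lt_of_le (hn y hy) (le_max_left _ _)
  obtain ⟨n, hn⟩ := hb v.1 v.2
  exact ⟨n, (hF' _ _).2 hn⟩

variable {Ω : Type u} [ITy M Ω] {V : Type u} [ITy M V] {hs : Std M}
variable {G : Set (Pk M (Yt M) Ω V)} (hG : IsGen M G)

/-- The columns in the extension. -/
theorem exists_cols (hC : CollL M) (hA : AC M) (hΩ : ¬ Ctb M (fun _ : Ω => True)) {v0 v1 : V}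
    (hv : v0 ≠ v1) : ∃ (cg : Yt M → NN (Sk Ω V (Kt hs)) hG) (A : NN (Sk Ω V (Kt hs)) hG)
      (lv : El A → INat (NN (Sk Ω V (Kt hs)) hG)),
      EqFam hG (fun (π : Ga Ω (Kt hs)) y => (cm π).1.1 y) cg ∧ (∀ y y', cg y = cg y' → y = y') ∧
      (∀ w, Plain.Mem w A ↔ ∃ y, w = cg y) ∧ IntF (NN (Sk Ω V (Kt hs)) hG) lv ∧
      (∀ y (hy : Plain.Mem (cg y) A), lv ⟨cg y, hy⟩ = nmN (Sk Ω V (Kt hs)) hG hC y.1) ∧
      (∀ n, Ctb (NN (Sk Ω V (Kt hs)) hG) (fun x => lv x = n)) ∧
      ¬ Ctb (NN (Sk Ω V (Kt hs)) hG) (fun _ : El A => True) := by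
  have hω : Nonempty Ω := by
    by_contra h
    exact hΩ ⟨fun _ => 0, IntF.const _, fun a _ _ _ _ => absurd ⟨a⟩ h⟩
  obtain ⟨ω⟩ := hω
  obtain ⟨cg, hcg, hinj⟩ := exists_cg (K := Kt hs) hG hC hA hΩ hv
  obtain ⟨A, hA'⟩ := EqFam.set hcg (Z := fun _ => True) (Int.const _)
    ⟨((0, ⟨∅, Cb.empty⟩) : Su M (Yt M) Ω), fun _ _ _ _ => trivial⟩
  have hA1 : ∀ w, Plain.Mem w A ↔ ∃ y, w = cg y := fun w =>
    (hA' w).trans ⟨fun ⟨a, _, h⟩ => ⟨a, h⟩, fun ⟨a, h⟩ => ⟨a, trivial, h⟩⟩
  obtain ⟨lv, hlv, hlv'⟩ := exists_fn hG hC ω hcg hinj hA1 (φ := fun y : Yt M => y.1) IntF.fst'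
    (D' := fun _ => True) (Int.const _) 0 (fun c hc y _ => ⟨trivial, (Kt hs).lev_eq c hc y⟩)
  refine ⟨cg, A, lv, hcg, hinj, hA1, hlv, fun y hy => hlv' y hy trivial, fun n => ?_, ?_⟩
  · obtain ⟨k, rfl⟩ := H635.nmN_surj hG hC n
    obtain ⟨e, he, h1⟩ := ctb_Ve hA
    obtain ⟨F, hF, hF'⟩ := exists_fn hG hC ω hcg hinj hA1 (φ := fun y : Yt M => e y.2)
      (he.comp IntF.snd') (D' := fun y => y.1 = k) (Int.eq IntF.fst' (IntF.const _)) k.succ
      (fun c hc y hy => by
        have h2 : c.1.1 y = y := (Kt hs).fix _ c hc y (by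
          change y.1 < k.succ
          rw [hy]
          exact INat.lt_succ_self _)
        rw [h2]
        exact ⟨hy, rfl⟩)
    refine ⟨F, hF, ?_⟩
    rintro ⟨x, hx⟩ ⟨x', hx'⟩ h2 h3 h4
    obtain ⟨y, rfl⟩ := (hA1 x).1 hx
    obtain ⟨y', rfl⟩ := (hA1 x').1 hx'
    change lv _ = _ at h2 h3
    rw [hlv' y hx trivial, H635.nmN_inj] at h2
    rw [hlv' y' hx' trivial, H635.nmN_inj] at h3
    rw [hF' y hx h2, hF' y' hx' h3, H635.nmN_inj] at h4
    have h5 : y = y' := Prod.ext (h2.trans h3.symm) (h1 _ _ trivial trivial h4)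
    subst h5
    rfl
  · rintro ⟨h, hI, h1⟩
    obtain ⟨x, hx⟩ : Int (NN (Sk Ω V (Kt hs)) hG) (fun q : El A × INat (NN (Sk Ω V (Kt hs)) hG) =>
      h q.1 = q.2) := hI
    have hx' : ∀ y (hy : Plain.Mem (cg y) A) (m : INat M),
        Plain.Mem (ZFA.op (cg y) (nm (Sk Ω V (Kt hs)) hG m)) x ↔
          h ⟨cg y, hy⟩ = nmN (Sk Ω V (Kt hs)) hG hC m := fun y hy m =>
      hx (⟨cg y, hy⟩, nmN (Sk Ω V (Kt hs)) hG hC m)
    obtain ⟨k, hk⟩ := col_invar hG hΩ (act := fun (π : Ga Ω (Kt hs)) (q : Yt M × INat M) =>
      ((cm π).1.1 q.1, q.2)) (ac := fun c q => (c.1.1 q.1, q.2))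
      (fun π c hc t => Prod.ext (cm_eq ω hc t.1) rfl) (pair_fam hG ω hcg) x
    have h01 : (INat.succ 0 : INat M) ≠ 0 := fun h => by
      have := INat.lt_succ_self (0 : INat M)
      rw [h] at this
      exact INat.not_lt_zero this
    let y : Yt M := (k, ⟨{0}, IFin.singleton 0⟩)
    have hy : Plain.Mem (cg y) A := (hA1 _).2 ⟨y, rfl⟩
    obtain ⟨m, hm⟩ := H635.nmN_surj hG hC (h ⟨cg y, hy⟩)
    have h2 := hk (tv k (INat.succ 0) 0) (Ct.gen ⟨k, _, _, le_rfl, rfl⟩) (y, m)
      ((hx' y hy m).2 hm.symm)
    have hy' : Plain.Mem (cg (tvf k (INat.succ 0) 0 y)) A := (hA1 _).2 ⟨_, rfl⟩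
    have h3 := (hx' (tvf k (INat.succ 0) 0 y) hy' m).1 h2
    have h4 := h1 _ _ trivial trivial (h3.trans hm)
    have h5 := hinj _ _ (congrArg Subtype.val h4)
    have h6 : (INat.succ 0 : INat M) ∈ (tvf k (INat.succ 0) 0 y).2.1 := by
      rw [mem_tvf]
      intro h
      have h7 := h.2 ⟨rfl, h01, rfl, mem_singleton.2 rfl⟩
      exact h01 (mem_singleton.1 h7)
    rw [h5] at h6
    exact h01 (mem_singleton.1 h6)

end Pool.Agent.Helper672.ZFA.V246K
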