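import Pool.Agent.V11246.Kx
import Pool.Agent.V11246.Kq
import Pool.Agent.H310R3.NA12

/-!
# The ground model and the extension
-/

set_option maxHeartbeats 1000000
set_option linter.all false
set_option synthInstance.maxSize 2000

namespace Pool.Agent.Helper672.ZFA.V246X

open FirstOrder FirstOrder.Language
open Pool.Agent.Helper672.ZFA
open Pool.Agent.Helper672.Plain (LSet)
open Pool.Agent.Helper672.ZFA.H635 (IPerm SymSys IWO IsGen NN EqFam nm nmN CollL od Od toL nn_zf
  isModel_of_zermelo coll_of_zf exists_countable_sub)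
open Pool.Agent.H310Cards
open Pool.Agent.H310
open Pool.Agent.H310NAS (WO)
open Pool.Agent.H635Amen (ZF)
open Pool.Agent.V11246
open Pool.Agent.Helper672.ZFA.V246 (Ctb exists_lf iwoNn mem_codeB mem_codeB' exists_codeB
  fin_of_isFinite isFinite_of_fin isCtble_iff ctb_of_isCtble isOmega_dom mem_domP
  iwo_comap)
open Pool.Agent.Helper672.ZFA.V246K hiding AC

universe u

section

attribute [local instance] Helper672.Plain.toL

variable {N : Type u} [LSet.Structure N] [hZ : Helper672.Plain.Zermelo N]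

local instance instModelKn : IsModel N := Helper672.Plain.isModel_toL

noncomputable local instance instPElKn (x : N) : ITy N (Helper672.Plain.El x) :=
  (inferInstance : ITy N (El x))

theorem ctb_of_cuc (h : CUC N) {A : N} {lv : Helper672.Plain.El A → INat N} (hlv : IntF N lv)
    (hc : ∀ n, Ctb N (fun x => lv x = n)) : Ctb N (fun _ : Helper672.Plain.El A => True) := by
  have hG : IntF N (fun n : INat N => sep N fun b : Helper672.Plain.El A => lv b = n) :=
    IntF.sep (Int.eq (hlv.comp IntF.snd') IntF.fst')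
  have hFI : Int N (fun F : IPow N (Helper672.Plain.El A) => Cb F) := int_Cb
  have hWn : ∀ n, Int N (fun b : Helper672.Plain.El A => lv b = n) := fun n =>
    Int.eq hlv (IntF.const _)
  refine ctb_of_isCtble (h A ⟨dom N (INat N), code (sep N fun F : IPow N (Helper672.Plain.El A) =>
      Cb F), code (⟨_, hG⟩ : IFun N (INat N) (IPow N (Helper672.Plain.El A))), isOmega_dom,
      isFun_code _ (fun z => mem_domP) fun n => ?_, fun u hu' => ?_, fun z => ?_⟩)
    (fun x _ => x.2)
  · exact mem_codeB'.2 ((mem_sep hFI).2 (cb_of ((hc n).mono fun b hb => (mem_sep (hWn n)).1 hb)))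
  · obtain ⟨F, hF, rfl⟩ := mem_codeB.1 hu'
    exact isCtble_iff.2 ((mem_sep hFI).1 hF).ctb
  · constructor
    · intro hz
      exact ⟨code (lv ⟨z, hz⟩), _, app_code.2 ⟨_, rfl, rfl⟩, mem_codeB.2 ⟨⟨z, hz⟩,
        (mem_sep (hWn _)).2 rfl, rfl⟩⟩
    · rintro ⟨n, u, h1, h2⟩
      obtain ⟨n, rfl, rfl⟩ := app_code.1 h1
      obtain ⟨b, -, rfl⟩ := mem_codeB.1 h2
      exact b.2

end

section

variable {M : Type u} [L.Structure M] [hM : IsModel M]

theorem ac_of (h : ∀ x : M, ∃ lt : El x → El x → Prop, IWO M (El x) lt) : V246K.AC M := by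
  intro β _
  obtain ⟨lt, hlt⟩ := h (dom M β)
  refine ⟨_, iwo_comap hlt (f := fun b : β => (⟨code b, code_mem_dom b⟩ : El (dom M β))) ?_
    fun a b hab => ITy.inj (congrArg Subtype.val hab)⟩
  refine IntF.of_rel (r := fun (b : β) (x : El (dom M β)) => code (M := M) b = x.1) ?_
    fun b x => ?_
  · exact Int.of_D₂ (S := fun v => v 0 = v 1) (D.eqf (DF.var _) (DF.var _)) fun _ _ => Iff.rfl
  · exact ⟨fun h => Subtype.ext h, fun h => congrArg Subtype.val h⟩

theorem std_of (h : WellFounded (fun x y : M => Mem x y)) : Std M := by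
  intro p h0 hs n
  have key : ∀ x : M, ∀ n : INat M, n.val = x → p n := by
    intro x
    refine h.induction (C := fun x => ∀ n : INat M, n.val = x → p n) x ?_
    intro x ih n hn
    rcases INat.eq_zero_or_succ n with rfl | ⟨m, rfl⟩
    · exact h0
    · refine hs m (ih m.val ?_ m rfl)
      rw [← hn]
      exact INat.mem_succ.2 (Or.inr rfl)
  exact key _ n rfl

theorem not_ctb_pow : ¬ Ctb M (fun _ : IPow M (INat M) => True) := by
  rintro ⟨e, he, h⟩
  have hI : Int M (fun n : INat M => ∃ x : IPow M (INat M), e x = n ∧ ¬ n ∈ x) :=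
    Int.ex (Int.and (Int.eq (he.comp IntF.snd') IntF.fst') (Int.not (Int.mem IntF.fst' IntF.snd')))
  by_cases hc : e (sep M fun n => ∃ x, e x = n ∧ ¬ n ∈ x) ∈
      (sep M fun n => ∃ x, e x = n ∧ ¬ n ∈ x)
  · obtain ⟨x, h1, h2⟩ := (mem_sep hI).1 hc
    rw [h _ _ trivial trivial h1] at h2
    exact h2 hc
  · exact hc ((mem_sep hI).2 ⟨_, rfl, hc⟩)

theorem pow_ne : (∅ : IPow M (INat M)) ≠ {0} := fun h => by
  have h1 : (0 : INat M) ∈ ({0} : IPow M (INat M)) := mem_singleton.2 rfl
  rw [← h] at h1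
  exact absurd h1 (by simp)

theorem exists_k' (M : Type u) [L.Structure M] [IsModel M] [Countable M] (hC : CollL M)
    (hA : V246K.AC M) (hs : Std M) :
    ∃ (N : Type u) (_ : LSet.Structure N), ZF N ∧ MCS N ∧ ¬ CUC N := by
  have p₀ : Pk M (Yt M) (IPow M (INat M)) (IPow M (INat M)) :=
    ⟨∅, fun i d v v' h => absurd h (by simp), Cb.empty⟩
  obtain ⟨G, hG⟩ := H635.exists_gen (M := M) p₀
  have hzf : ZF (NN (Sk (IPow M (INat M)) (IPow M (INat M)) (Kt hs)) hG) := nn_zf hG hC
  have hz : Helper672.Plain.Zermelo (NN (Sk (IPow M (INat M)) (IPow M (INat M)) (Kt hs)) hG) :=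
    hzf.toZermelo
  refine ⟨NN (Sk (IPow M (INat M)) (IPow M (INat M)) (Kt hs)) hG, inferInstance, hzf,
    mcs_of_tbw (hZ := hz) (tbw_NN hC hA not_ctb_pow (star_Kt hs)), fun hcuc => ?_⟩
  obtain ⟨cg, A, lv, -, -, -, h1, -, h2, h3⟩ := exists_cols (hs := hs) hG hC hA not_ctb_pow
    (pow_ne (M := M))
  exact h3 (ctb_of_cuc (hZ := hz) hcuc h1 h2)

end

section

attribute [local instance] toL

theorem exists_k_c (M : Type u) [LSet.Structure M] [Countable M] (h : ZF M) (hW : WO M)
    (hw : WellFounded (fun x y : M => Helper672.Plain.Mem x y)) :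
    ∃ (N : Type u) (_ : LSet.Structure N), ZF N ∧ MCS N ∧ ¬ CUC N := by
  have hM : IsModel M := isModel_of_zermelo h.toZermelo
  exact exists_k' M (coll_of_zf h) (ac_of (H310.NA.iwo_of hW)) (std_of hw)

end

/-- There is a model. -/
theorem exists_k : ∃ (N : Type 1) (_ : LSet.Structure N), ZF N ∧ MCS N ∧ ¬ CUC N := by
  letI := H310.NA.zs.{0}
  obtain ⟨M₀, h1, h2⟩ := exists_countable_sub ZFSet.{0} H310.NA.zf_zs
  refine exists_k_c M₀ h2 (H310.NA.wo_substructure M₀ H310.NA.wo_zs) ?_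
  have hwf : WellFounded (fun x y : ZFSet.{0} => x ∈ y) := ZFSet.mem_wf
  refine Subrelation.wf (r := fun x y : M₀ => (x : ZFSet.{0}) ∈ (y : ZFSet.{0})) ?_
    (InvImage.wf (fun x : M₀ => (x : ZFSet.{0})) hwf)
  intro x y hxy
  exact (H635.mem_coe M₀).1 hxy

end Pool.Agent.Helper672.ZFA.V246X
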