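import Pool.Agent.V11246.Kd

/-!
# The columns in the extension
-/

set_option maxHeartbeats 1000000
set_option linter.all false
set_option synthInstance.maxSize 2000

namespace Pool.Agent.Helper672.ZFA.H635

open FirstOrder FirstOrder.Language
open Pool.Agent.Helper672.Plain (LSet)

universe u

section

variable {M : Type u} [L.Structure M] [hM : IsModel M]
variable {P Γ : Type u} [ITy M P] [Preorder P] [ILE M P] [ITy M Γ] [Group Γ] [IMul M Γ]
  [IInv M Γ] [MulAction Γ P] [ISMul M Γ P]
variable {Λ : Type u} [ITy M Λ] {S : SymSys M P Γ Λ}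
variable {ε δ : Type u} [ITy M ε] [ITy M δ]
variable {G : Set P} (hG : IsGen M G)

/-- Families of sets. -/
theorem EqFam.setsP {act : Γ → ε → ε} {act' : Γ → δ → δ}
    (ha : ∀ π b, act' π⁻¹ (act' π b) = b) {f : ε → NN S hG} (hf : EqFam hG act f)
    {Z : δ → ε → P → Prop} (hZ : Int M (fun q : (δ × ε) × P => Z q.1.1 q.1.2 q.2))
    (h : ∀ π d c r, Z d c r → Z (act' π d) (act π c) (π • r))
    (hs : ∀ d, ∃ l, ∀ π, S.U l π → act' π d = d) :
    ∃ g : δ → NN S hG, EqFam hG act' g ∧
      ∀ d w, Plain.Mem w (g d) ↔ ∃ c r, r ∈ G ∧ Z d c r ∧ w = f c := by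
  obtain ⟨α, _, E, h0, g, hg, h1, h2⟩ := hf
  have hQ : Int M (fun q : (α × P) × δ => ∃ c, Z q.2 c q.1.2 ∧ q.1.1 = g c) := by (repeat' (first | with_reducible exact IntF.id | with_reducible exact IntF.fst' | with_reducible exact IntF.snd' | with_reducible exact IntF.const _ | with_reducible exact Int.const _ | assumption | with_reducible apply Int.and | with_reducible apply Int.or | with_reducible apply Int.not | with_reducible apply Int.imp | with_reducible apply Int.iff | with_reducible apply Int.ne | with_reducible apply Int.eq | with_reducible apply Int.mem | with_reducible apply Int.subset | with_reducible apply Int.ltN | with_reducible apply Int.leN | with_reducible_and_instances apply Int.le | with_reducible_and_instances apply Int.lt | with_reducible apply Int.all | with_reducible apply Int.ex | with_reducible apply IntF.fst | with_reducible apply IntF.snd | with_reducible apply IntF.app | with_reducible apply IntF.inl | with_reducible apply IntF.inr | with_reducible_and_instances apply IntF.mul | with_reducible_and_instances apply IntF.inv | with_reducible_and_instances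 apply IntF.add | with_reducible_and_instances apply IntF.sub | with_reducible_and_instances apply IntF.neg | with_reducible_and_instances apply IntF.smul | with_reducible apply Int.fin | with_reducible apply IntF.sep | with_reducible apply IntF.lam | with_reducible apply IntF.insert | with_reducible apply IntF.singleton | with_reducible apply IntF.union | with_reducible apply IntF.iimage | with_reducible apply IntF.ite | with_reducible apply IntF.the | with_reducible apply IntF.irec | with_reducible apply IntF.succ | with_reducible apply IntF.val | with_reducible apply IntF.mk | (with_reducible refine Int.comp ?_ ?_; assumption) | (with_reducible refine Int.comp₂ ?_ ?_ ?_; assumption) | (with_reducible refine Int.comp₃ ?_ ?_ ?_ ?_; assumption) | (with_reducible refine Int.comp₄ ?_ ?_ ?_ ?_ ?_; assumption) | (with_reducible refine IntF.comp ?_ ?_; assumption) | (with_reducible refine IntF.comp₂ ?_ ?_ ?_; assumption) | (with_reducible refine IntF.comp₃ ?_ ?_ ?_ ?_; assumption) | with_reducible apply IntF.pair))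
  have hext : Good S (extG E (fun x p d => ∃ c, Z d c p ∧ x = g c)) := by
    refine good_extG h0 hQ fun d => ?_
    obtain ⟨l, hl⟩ := hs d
    refine ⟨l, ?_⟩
    rintro π hπ x r ⟨c, hc, rfl⟩ q hq
    have h3 := h π d c r hc
    rw [hl π hπ] at h3
    exact ⟨q, le_rfl, _, π • r, ⟨_, h3, rfl⟩, hq, h2 π q c⟩
  refine ⟨fun d => nd hG hext (Sum.inr d), ⟨_, _, _, hext, fun d => Sum.inr d, by (repeat' (first | with_reducible exact IntF.id | with_reducible exact IntF.fst' | with_reducible exact IntF.snd' | with_reducible exact IntF.const _ | with_reducible exact Int.const _ | assumption | with_reducible apply Int.and | with_reducible apply Int.or | with_reducible apply Int.not | with_reducible apply Int.imp | with_reducible apply Int.iff | with_reducible apply Int.ne | with_reducible apply Int.eq | with_reducible apply Int.mem | with_reducible apply Int.subset | with_reducible apply Int.ltN | with_reducible apply Int.leN | with_reducible_and_instances apply Int.le | with_reducible_and_instances apply Int.lt | with_reducible apply Int.all | with_reducible apply Int.ex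 | with_reducible apply IntF.fst | with_reducible apply IntF.snd | with_reducible apply IntF.app | with_reducible apply IntF.inl | with_reducible apply IntF.inr | with_reducible_and_instances apply IntF.mul | with_reducible_and_instances apply IntF.inv | with_reducible_and_instances apply IntF.add | with_reducible_and_instances apply IntF.sub | with_reducible_and_instances apply IntF.neg | with_reducible_and_instances apply IntF.smul | with_reducible apply Int.fin | with_reducible apply IntF.sep | with_reducible apply IntF.lam | with_reducible apply IntF.insert | with_reducible apply IntF.singleton | with_reducible apply IntF.union | with_reducible apply IntF.iimage | with_reducible apply IntF.ite | with_reducible apply IntF.the | with_reducible apply IntF.irec | with_reducible apply IntF.succ | with_reducible apply IntF.val | with_reducible apply IntF.mk | (with_reducible refine Int.comp ?_ ?_; assumption) | (with_reducible refine Int.comp₂ ?_ ?_ ?_; assumption) | (with_reducible refine Int.comp₃ ?_ ?_ ?_ ?_; assumption) | (with_reducible refine Int.comp₄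 ?_ ?_ ?_ ?_ ?_; assumption) | (with_reducible refine IntF.comp ?_ ?_; assumption) | (with_reducible refine IntF.comp₂ ?_ ?_ ?_; assumption) | (with_reducible refine IntF.comp₃ ?_ ?_ ?_ ?_; assumption) | with_reducible apply IntF.pair)),
    fun c => rfl, fun π p d => ?_⟩, fun d w => ?_⟩
  · refine feq_equivQ (S := S) h0.int hQ (act := act') ha ?_ π p d
    rintro π b x r ⟨c, hc, rfl⟩ q hq
    exact ⟨q, le_rfl, _, π • r, ⟨_, h π b c r hc, rfl⟩, hq, h2 π q c⟩
  · rw [mem_nd_inr hG h0 hext]
    constructor
    · rintro ⟨x, s, hs, ⟨c, hc, rfl⟩, rfl⟩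
      exact ⟨c, s, hs, hc, (h1 c).symm⟩
    · rintro ⟨c, r, hr, hc, rfl⟩
      exact ⟨g c, r, hr, ⟨c, hc, rfl⟩, h1 c⟩

end

end Pool.Agent.Helper672.ZFA.H635

namespace Pool.Agent.Helper672.ZFA.V246K

open FirstOrder FirstOrder.Language
open Pool.Agent.Helper672.ZFA.H635 (IPerm SymSys IWO IsGen NN EqFam nm nmN CollL od Od)
open Pool.Agent.Helper672.ZFA.V246 (Ctb exists_lf)
open Pool.Agent.H310

universe u

variable {M : Type u} [L.Structure M] [hM : IsModel M] {Y : Type u} [ITy M Y]
variable {Ω : Type u} [ITy M Ω] {V : Type u} [ITy M V] {K : Cols M Y}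

/-- The permutation of the columns. -/
noncomputable def cm (π : Ga Ω K) : IPerm M Y := (exists_col π).choose

theorem cm_C (π : Ga Ω K) : K.C 0 (cm π) := (exists_col π).choose_spec.1

theorem cm_co (π : Ga Ω K) : Co π (cm π) := (exists_col π).choose_spec.2

theorem cm_eq (ω : Ω) {π : Ga Ω K} {c : IPerm M Y} (h : Co π c) (y : Y) :
    (cm π).1.1 y = c.1.1 y := by
  have h1 := h (y, (ω, 0))
  have h2 := cm_co π (y, (ω, 0))
  exact h2.symm.trans h1

theorem cm_inv (ω : Ω) (π : Ga Ω K) (y : Y) : (cm π⁻¹).1.1 ((cm π).1.1 y) = y := by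
  have h1 := cm_co π (y, (ω, 0))
  have h2 := cm_co π⁻¹ (ap π (y, (ω, 0)))
  rw [ap_inv, api_ap] at h2
  rw [← h1, ← h2]

theorem exists_add (p : Pk M Y Ω V) (i : Ix M Y Ω) (d : Ω) (v : V)
    (h : ∀ v', ¬ (i, (d, v')) ∈ p.1) :
    ∃ q : Pk M Y Ω V, q ≤ p ∧ ∀ c, c ∈ q.1 ↔ c ∈ p.1 ∨ c = (i, (d, v)) := by
  have hs : IsCk ({(i, (d, v))} : IPow M (Ce M Y Ω V)) := by
    refine ⟨fun i' d' v1 v2 h1 h2 => ?_, cb_of (Ctb.fin (IFin.singleton _))⟩
    have e1 := mem_singleton.1 h1
    have e2 := mem_singleton.1 h2
    have e3 := e1.trans e2.symm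
    exact congrArg (fun c : Ce M Y Ω V => c.2.2) e3
  obtain ⟨r, h1, h2, -⟩ := exists_join (p := p) (q := ⟨_, hs⟩) (fun i' d' v1 v2 h1 h2 => by
    have e1 := mem_singleton.1 h2
    have e2 : i' = i := congrArg (fun c : Ce M Y Ω V => c.1) e1
    have e3 : d' = d := congrArg (fun c : Ce M Y Ω V => c.2.1) e1
    rw [e2, e3] at h1
    exact absurd h1 (h v1))
  refine ⟨r, h2, fun c => ?_⟩
  rw [h1]
  exact or_congr_right mem_singleton

variable {G : Set (Pk M Y Ω V)} (hG : IsGen M G)

include hG in
theorem exists_gd (hΩ : ¬ Ctb M (fun _ : Ω => True)) {i j : Ix M Y Ω} (hij : i ≠ j) (v0 v1 : V) :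
    ∃ p, p ∈ G ∧ ∃ d, (i, (d, v0)) ∈ p.1 ∧ (j, (d, v1)) ∈ p.1 := by
  refine hG.dense (fun p => ∃ d, (i, (d, v0)) ∈ p.1 ∧ (j, (d, v1)) ∈ p.1) (by (repeat' (first | with_reducible exact IntF.id | with_reducible exact IntF.fst' | with_reducible exact IntF.snd' | with_reducible exact IntF.const _ | with_reducible exact Int.const _ | assumption | with_reducible apply Int.and | with_reducible apply Int.or | with_reducible apply Int.not | with_reducible apply Int.imp | with_reducible apply Int.iff | with_reducible apply Int.ne | with_reducible apply Int.eq | with_reducible apply Int.mem | with_reducible apply Int.subset | with_reducible apply Int.ltN | with_reducible apply Int.leN | with_reducible_and_instances apply Int.le | with_reducible_and_instances apply Int.lt | with_reducible apply Int.all | with_reducible apply Int.ex | with_reducible apply IntF.fst | with_reducible apply IntF.snd | with_reducible apply IntF.app | with_reducible apply IntF.inl | with_reducible apply IntF.inr | with_reducible_and_instances apply IntF.mul | with_reducible_and_instances apply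 IntF.inv | with_reducible_and_instances apply IntF.add | with_reducible_and_instances apply IntF.sub | with_reducible_and_instances apply IntF.neg | with_reducible_and_instances apply IntF.smul | with_reducible apply Int.fin | with_reducible apply IntF.sep | with_reducible apply IntF.lam | with_reducible apply IntF.insert | with_reducible apply IntF.singleton | with_reducible apply IntF.union | with_reducible apply IntF.iimage | with_reducible apply IntF.ite | with_reducible apply IntF.the | with_reducible apply IntF.irec | with_reducible apply IntF.succ | with_reducible apply IntF.val | with_reducible apply IntF.mk | (with_reducible refine Int.comp ?_ ?_; assumption) | (with_reducible refine Int.comp₂ ?_ ?_ ?_; assumption) | (with_reducible refine Int.comp₃ ?_ ?_ ?_ ?_; assumption) | (with_reducible refine Int.comp₄ ?_ ?_ ?_ ?_ ?_; assumption) | (with_reducible refine IntF.comp ?_ ?_; assumption) | (with_reducible refine IntF.comp₂ ?_ ?_ ?_; assumption) | (with_reducible refine IntF.comp₃ ?_ ?_ ?_ ?_; assumption) | with_reducible apply IntF.pair))) fun p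 => ?_
  have h0 : ∃ d : Ω, ∀ c, c ∈ p.1 → c.2.1 ≠ d := by
    by_contra hcon
    push Not at hcon
    apply hΩ
    refine (Ctb.image (P := fun c : Ce M Y Ω V => c ∈ p.1) (by (repeat' (first | with_reducible exact IntF.id | with_reducible exact IntF.fst' | with_reducible exact IntF.snd' | with_reducible exact IntF.const _ | with_reducible exact Int.const _ | assumption | with_reducible apply Int.and | with_reducible apply Int.or | with_reducible apply Int.not | with_reducible apply Int.imp | with_reducible apply Int.iff | with_reducible apply Int.ne | with_reducible apply Int.eq | with_reducible apply Int.mem | with_reducible apply Int.subset | with_reducible apply Int.ltN | with_reducible apply Int.leN | with_reducible_and_instances apply Int.le | with_reducible_and_instances apply Int.lt | with_reducible apply Int.all | with_reducible apply Int.ex | with_reducible apply IntF.fst | with_reducible apply IntF.snd | with_reducible apply IntF.app | with_reducible apply IntF.inl | with_reducible apply IntF.inr | with_reducible_and_instances apply IntF.mul | with_reducible_and_instances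 apply IntF.inv | with_reducible_and_instances apply IntF.add | with_reducible_and_instances apply IntF.sub | with_reducible_and_instances apply IntF.neg | with_reducible_and_instances apply IntF.smul | with_reducible apply Int.fin | with_reducible apply IntF.sep | with_reducible apply IntF.lam | with_reducible apply IntF.insert | with_reducible apply IntF.singleton | with_reducible apply IntF.union | with_reducible apply IntF.iimage | with_reducible apply IntF.ite | with_reducible apply IntF.the | with_reducible apply IntF.irec | with_reducible apply IntF.succ | with_reducible apply IntF.val | with_reducible apply IntF.mk | (with_reducible refine Int.comp ?_ ?_; assumption) | (with_reducible refine Int.comp₂ ?_ ?_ ?_; assumption) | (with_reducible refine Int.comp₃ ?_ ?_ ?_ ?_; assumption) | (with_reducible refine Int.comp₄ ?_ ?_ ?_ ?_ ?_; assumption) | (with_reducible refine IntF.comp ?_ ?_; assumption) | (with_reducible refine IntF.comp₂ ?_ ?_ ?_; assumption) | (with_reducible refine IntF.comp₃ ?_ ?_ ?_ ?_; assumption) | with_reducible apply IntF.pair)))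 p.2.2.ctb
      (f := fun c : Ce M Y Ω V => c.2.1) (by (repeat' (first | with_reducible exact IntF.id | with_reducible exact IntF.fst' | with_reducible exact IntF.snd' | with_reducible exact IntF.const _ | with_reducible exact Int.const _ | assumption | with_reducible apply Int.and | with_reducible apply Int.or | with_reducible apply Int.not | with_reducible apply Int.imp | with_reducible apply Int.iff | with_reducible apply Int.ne | with_reducible apply Int.eq | with_reducible apply Int.mem | with_reducible apply Int.subset | with_reducible apply Int.ltN | with_reducible apply Int.leN | with_reducible_and_instances apply Int.le | with_reducible_and_instances apply Int.lt | with_reducible apply Int.all | with_reducible apply Int.ex | with_reducible apply IntF.fst | with_reducible apply IntF.snd | with_reducible apply IntF.app | with_reducible apply IntF.inl | with_reducible apply IntF.inr | with_reducible_and_instances apply IntF.mul | with_reducible_and_instances apply IntF.inv | with_reducible_and_instances apply IntF.add | with_reducible_and_instances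 apply IntF.sub | with_reducible_and_instances apply IntF.neg | with_reducible_and_instances apply IntF.smul | with_reducible apply Int.fin | with_reducible apply IntF.sep | with_reducible apply IntF.lam | with_reducible apply IntF.insert | with_reducible apply IntF.singleton | with_reducible apply IntF.union | with_reducible apply IntF.iimage | with_reducible apply IntF.ite | with_reducible apply IntF.the | with_reducible apply IntF.irec | with_reducible apply IntF.succ | with_reducible apply IntF.val | with_reducible apply IntF.mk | (with_reducible refine Int.comp ?_ ?_; assumption) | (with_reducible refine Int.comp₂ ?_ ?_ ?_; assumption) | (with_reducible refine Int.comp₃ ?_ ?_ ?_ ?_; assumption) | (with_reducible refine Int.comp₄ ?_ ?_ ?_ ?_ ?_; assumption) | (with_reducible refine IntF.comp ?_ ?_; assumption) | (with_reducible refine IntF.comp₂ ?_ ?_ ?_; assumption) | (with_reducible refine IntF.comp₃ ?_ ?_ ?_ ?_; assumption) | with_reducible apply IntF.pair)))).mono ?_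
    intro d _
    obtain ⟨c, h1, h2⟩ := hcon d
    exact ⟨c, h1, h2⟩
  obtain ⟨d, hd⟩ := h0
  obtain ⟨q, h1, h2⟩ := exists_add p i d v0 (fun v' h => hd _ h rfl)
  obtain ⟨r, h3, h4⟩ := exists_add q j d v1 (fun v' h => by
    rcases (h2 _).1 h with h5 | h5
    · exact hd _ h5 rfl
    · exact hij (congrArg Prod.fst h5).symm)
  exact ⟨r, h3.trans h1, d, h3 _ ((h2 _).2 (Or.inr rfl)), (h4 _).2 (Or.inr rfl)⟩

theorem exists_xg {ltO : Ω → Ω → Prop} (hO : IWO M Ω ltO) {ltV : V → V → Prop}
    (hV : IWO M V ltV) : ∃ xg : Ix M Y Ω → NN (Sk Ω V K) hG, EqFam hG (fun π i => ap π i) xg ∧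
      ∀ i w, Plain.Mem w (xg i) ↔ ∃ (c : Ω × V) (r : Pk M Y Ω V), r ∈ G ∧ (i, c) ∈ r.1 ∧
        w = ZFA.op (od (Sk Ω V K) hG hO c.1) (od (Sk Ω V K) hG hV c.2) := by
  have h1 : EqFam hG (fun (_ : Ga Ω K) (c : Ω × V) => c) (fun c : Ω × V =>
      ZFA.op (od (Sk Ω V K) hG hO c.1) (od (Sk Ω V K) hG hV c.2)) := by
    refine EqFam.op (fun _ _ => rfl) ?_ ?_
    · exact EqFam.comp (H635.od_fam hG hO) (φ := fun c : Ω × V => c.1) IntF.fst' fun _ _ => rfl
    · exact EqFam.comp (H635.od_fam hG hV) (φ := fun c : Ω × V => c.2) IntF.snd' fun _ _ => rfl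
  exact EqFam.setsP hG (act' := fun π i => ap π i) (fun π i => by
    change ap π⁻¹ (ap π i) = i
    rw [ap_inv, api_ap]) h1 (Z := fun i c p => (i, c) ∈ p.1)
    (Int.mem (IntF.pair (IntF.fst IntF.fst') (IntF.snd IntF.fst')) (IntF.val IntF.snd'))
    (fun π i c r h => ap_mem_smul.2 h)
    (fun i => ⟨((K.lev i.1).succ, ⟨{i}, cb_of (Ctb.fin (IFin.singleton _))⟩),
      fun π hπ => hπ.2 i ⟨INat.lt_succ_self _, mem_singleton.2 rfl⟩⟩)

theorem exists_cg (hC : CollL M) (hA : AC M) (hΩ : ¬ Ctb M (fun _ : Ω => True)) {v0 v1 : V}
    (hv : v0 ≠ v1) :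
    ∃ cg : Y → NN (Sk Ω V K) hG, EqFam hG (fun π y => (cm π).1.1 y) cg ∧
      ∀ y y', cg y = cg y' → y = y' := by
  obtain ⟨ltO, hO⟩ := hA Ω inferInstance
  obtain ⟨ltV, hV⟩ := hA V inferInstance
  have hω : Nonempty Ω := by
    by_contra h
    exact hΩ ⟨fun _ => 0, IntF.const _, fun a _ _ _ _ => absurd ⟨a⟩ h⟩
  obtain ⟨ω⟩ := hω
  obtain ⟨xg, h1, h2⟩ := exists_xg (K := K) hG hO hV
  have hxi : ∀ i j, xg i = xg j → i = j := by
    intro i j hij
    by_contra hne
    obtain ⟨p, hp, d, h3, h4⟩ := exists_gd hG hΩ hne v0 v1
    have h5 := (h2 i _).2 ⟨(d, v0), p, hp, h3, rfl⟩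
    rw [hij, h2] at h5
    obtain ⟨⟨d', v'⟩, r, hr, h6, h7⟩ := h5
    obtain ⟨h8, h9⟩ := op_inj h7
    have h8' : d = d' := H635.od_inj hG hO hC h8
    have h9' : v0 = v' := H635.od_inj hG hV hC h9
    subst h8' h9'
    obtain ⟨t, -, ht1, ht2⟩ := hG.dir _ _ hp hr
    exact hv (t.2.1 j d v0 v1 (ht2 _ h6) (ht1 _ h4))
  obtain ⟨cg, h3, h4⟩ := EqFam.setsP hG (act' := fun (π : Ga Ω K) (y : Y) => (cm π).1.1 y)
    (fun π y => cm_inv ω π y) h1 (Z := fun y i _ => i.1 = y)
    (Int.eq (IntF.fst (IntF.snd IntF.fst')) (IntF.fst IntF.fst'))
    (fun π y i r h => by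
      change (ap π i).1 = (cm π).1.1 y
      rw [cm_co π i]
      exact congrArg _ h)
    (fun y => ⟨((K.lev y).succ, ⟨∅, Cb.empty⟩), fun π hπ => by
      obtain ⟨⟨c, hc, hc'⟩, -⟩ := hπ
      change (cm π).1.1 y = y
      rw [cm_eq ω hc']
      exact K.fix _ _ hc _ (INat.lt_succ_self _)⟩)
  refine ⟨cg, h3, fun y y' hyy => ?_⟩
  obtain ⟨p, hp⟩ := hG.ne
  have h5 := (h4 y _).2 ⟨(y, (ω, 0)), p, hp, rfl, rfl⟩
  rw [hyy, h4] at h5
  obtain ⟨i, r, -, h6, h7⟩ := h5
  rw [← h6, ← hxi _ _ h7]

/-- Invariance under the permutations of the columns. -/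
theorem col_invar {ε : Type u} [ITy M ε] (hΩ : ¬ Ctb M (fun _ : Ω => True)) {act : Ga Ω K → ε → ε}
    {ac : IPerm M Y → ε → ε} (hact : ∀ π c, Co π c → ∀ t, act π t = ac c t)
    {F : ε → NN (Sk Ω V K) hG} (hF : EqFam hG act F) (x : NN (Sk Ω V K) hG) :
    ∃ k, ∀ c, K.C k c → ∀ t, Plain.Mem (F t) x → Plain.Mem (F (ac c t)) x := by
  obtain ⟨T, l, hTI, hTm, hTd, hTf, hTe⟩ := H635.exists_T' hG hF x
  refine ⟨l.1, fun c hc t ht => ?_⟩
  obtain ⟨p, hp, h1⟩ := (hTf t).1 ht
  obtain ⟨π, h2, h3, -, h4⟩ := gen_lem hG hΩ l hc p (hG.up _ _ hp (le_rs _ _))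
    (S := ∅) (D := ∅) Cb.empty Cb.empty
  have h5 := hTe π h2 t p h1
  rw [hact π c h3] at h5
  exact (hTf _).2 ⟨_, h4, h5⟩

theorem pair_fam (ω : Ω) {cg : Y → NN (Sk Ω V K) hG}
    (hcg : EqFam hG (fun (π : Ga Ω K) y => (cm π).1.1 y) cg) :
    EqFam hG (fun (π : Ga Ω K) (q : Y × INat M) => ((cm π).1.1 q.1, q.2))
      (fun q => ZFA.op (cg q.1) (nm (Sk Ω V K) hG q.2)) := by
  refine EqFam.op (fun π b => ?_) ?_ ?_
  · exact Prod.ext (cm_inv ω π b.1) rfl
  · exact EqFam.comp hcg (φ := fun q : Y × INat M => q.1) IntF.fst' fun _ _ => rfl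
  · exact EqFam.comp (H635.nm_fam (S := Sk Ω V K) hG) (φ := fun q : Y × INat M => q.2)
      IntF.snd' fun _ _ => rfl

theorem exists_fn (hC : CollL M) (ω : Ω) {cg : Y → NN (Sk Ω V K) hG}
    (hcg : EqFam hG (fun (π : Ga Ω K) y => (cm π).1.1 y) cg) (hinj : ∀ y y', cg y = cg y' → y = y')
    {A : NN (Sk Ω V K) hG} (hA : ∀ w, Plain.Mem w A ↔ ∃ y, w = cg y)
    {φ : Y → INat M} (hφ : IntF M φ) {D' : Y → Prop} (hD : Int M D') (k : INat M)
    (hk : ∀ c, K.C k c → ∀ y, D' y → D' (c.1.1 y) ∧ φ (c.1.1 y) = φ y) :
    ∃ F : El A → INat (NN (Sk Ω V K) hG), IntF (NN (Sk Ω V K) hG) F ∧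
      ∀ y (hy : Plain.Mem (cg y) A), D' y → F ⟨cg y, hy⟩ = nmN (Sk Ω V K) hG hC (φ y) := by
  obtain ⟨z, hz⟩ := EqFam.set (pair_fam hG ω hcg) (Z := fun q : Y × INat M => D' q.1 ∧ φ q.1 = q.2)
    (by (repeat' (first | with_reducible exact IntF.id | with_reducible exact IntF.fst' | with_reducible exact IntF.snd' | with_reducible exact IntF.const _ | with_reducible exact Int.const _ | assumption | with_reducible apply Int.and | with_reducible apply Int.or | with_reducible apply Int.not | with_reducible apply Int.imp | with_reducible apply Int.iff | with_reducible apply Int.ne | with_reducible apply Int.eq | with_reducible apply Int.mem | with_reducible apply Int.subset | with_reducible apply Int.ltN | with_reducible apply Int.leN | with_reducible_and_instances apply Int.le | with_reducible_and_instances apply Int.lt | with_reducible apply Int.all | with_reducible apply Int.ex | with_reducible apply IntF.fst | with_reducible apply IntF.snd | with_reducible apply IntF.app | with_reducible apply IntF.inl | with_reducible apply IntF.inr | with_reducible_and_instances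 apply IntF.mul | with_reducible_and_instances apply IntF.inv | with_reducible_and_instances apply IntF.add | with_reducible_and_instances apply IntF.sub | with_reducible_and_instances apply IntF.neg | with_reducible_and_instances apply IntF.smul | with_reducible apply Int.fin | with_reducible apply IntF.sep | with_reducible apply IntF.lam | with_reducible apply IntF.insert | with_reducible apply IntF.singleton | with_reducible apply IntF.union | with_reducible apply IntF.iimage | with_reducible apply IntF.ite | with_reducible apply IntF.the | with_reducible apply IntF.irec | with_reducible apply IntF.succ | with_reducible apply IntF.val | with_reducible apply IntF.mk | (with_reducible refine Int.comp ?_ ?_; assumption) | (with_reducible refine Int.comp₂ ?_ ?_ ?_; assumption) | (with_reducible refine Int.comp₃ ?_ ?_ ?_ ?_; assumption) | (with_reducible refine Int.comp₄ ?_ ?_ ?_ ?_ ?_; assumption) | (with_reducible refine IntF.comp ?_ ?_; assumption) | (with_reducible refine IntF.comp₂ ?_ ?_ ?_; assumption) | (with_reducible refine IntF.comp₃ ?_ ?_ ?_ ?_; assumption)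 | with_reducible apply IntF.pair))) ⟨((k, ⟨∅, Cb.empty⟩) : Su M Y Ω), fun π hπ q hq => by
      obtain ⟨⟨c, hc, hc'⟩, -⟩ := hπ
      change D' ((cm π).1.1 q.1) ∧ φ ((cm π).1.1 q.1) = q.2
      rw [cm_eq ω hc']
      obtain ⟨h1, h2⟩ := hk c hc q.1 hq.1
      exact ⟨h1, h2.trans hq.2⟩⟩
  have hI : Int (NN (Sk Ω V K) hG) (fun q : El A × INat (NN (Sk Ω V K) hG) =>
      Mem (ZFA.op q.1.1 q.2.val) z) :=
    Int.of_D₂ (S := fun v => Mem (ZFA.op (v 0) (v 1)) z)
      (D.memf (DF.op (DF.var _) (DF.var _)) (DF.const _)) fun _ _ => Iff.rfl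
  refine ⟨fun x => the (fun m : INat (NN (Sk Ω V K) hG) => Mem (ZFA.op x.1 m.val) z) 0,
    IntF.the hI (IntF.const _), fun y hy hDy => ?_⟩
  have h1 : ∀ m, Mem (ZFA.op (cg y) (INat.val m)) z ↔ m = nmN (Sk Ω V K) hG hC (φ y) := by
    intro m
    refine (hz _).trans ?_
    constructor
    · rintro ⟨⟨y', n⟩, ⟨-, h2⟩, h3⟩
      obtain ⟨h4, h5⟩ := op_inj h3
      have h6 := hinj _ _ h4
      change y = y' at h6
      change φ y' = n at h2
      rw [h6, h2]
      exact INat.ext h5
    · rintro rfl
      exact ⟨(y, φ y), ⟨hDy, rfl⟩, rfl⟩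
  exact the_eq (p := fun m : INat (NN (Sk Ω V K) hG) => Mem (ZFA.op (cg y) m.val) z) (d := 0)
    ⟨_, (h1 _).2 rfl, fun m hm => (h1 m).1 hm⟩ ((h1 _).2 rfl)

end Pool.Agent.Helper672.ZFA.V246K
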