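import Pool.Agent.V11246.Pd
import Pool.Agent.V11246.WO

/-!
# Failures of choice principles for compact metrizable spaces
-/

set_option maxHeartbeats 1000000
set_option linter.all false
set_option synthInstance.maxSize 2000

namespace Pool.Agent.Helper672.ZFA.V246P

open FirstOrder FirstOrder.Language
open Pool.Agent.Helper672.ZFA
open Pool.Agent.Helper672.Plain (LSet)
open Pool.Agent.H635Amen (IsReals ZF)
open Pool.Agent.H310Cards
open Pool.Agent.H310Top (IsTopology IsCompact)
open Pool.Agent.H310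
open Pool.Agent.V11246
open Pool.Agent.Helper672.ZFA.V246

universe u

section internal

variable {N : Type u} [L.Structure N] [hN : IsModel N] {α : Type u} [ITy N α]
variable {lv : α → INat N} (hlv : IntF N lv) (hc : ∀ n, Ctb N (fun x => lv x = n))

/-- Sets with at most one element. -/
def Q1 (lv : α → INat N) (n : INat N) (S : IPow N α) : Prop :=
  (∀ x, x ∈ S → lv x = n) ∧ ∀ x y, x ∈ S → y ∈ S → x = y

/-- Tournaments. -/
def Tn (lv : α → INat N) (n : INat N) (R : IPow N (α × α)) : Prop :=
  (∀ q, q ∈ R → lv q.1 = n ∧ lv q.2 = n ∧ q.1 ≠ q.2) ∧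
    ∀ a b, lv a = n → lv b = n → a ≠ b → ((a, b) ∈ R ↔ ¬ (b, a) ∈ R)

/-- Tournaments and the empty set. -/
def Tz (lv : α → INat N) (n : INat N) (R : IPow N (α × α)) : Prop :=
  Tn lv n R ∨ ∀ q, ¬ q ∈ R

include hlv

theorem int_Q1 : Int N (fun q : INat N × IPow N α => Q1 lv q.1 q.2) := by
  unfold Q1
  (repeat' (first | with_reducible exact IntF.id | with_reducible exact IntF.fst' | with_reducible exact IntF.snd' | with_reducible exact IntF.const _ | with_reducible exact Int.const _ | assumption | with_reducible apply Int.and | with_reducible apply Int.or | with_reducible apply Int.not | with_reducible apply Int.imp | with_reducible apply Int.iff | with_reducible apply Int.ne | with_reducible apply Int.eq | with_reducible apply Int.mem | with_reducible apply Int.subset | with_reducible apply Int.ltN | with_reducible apply Int.leN | with_reducible_and_instances apply Int.le | with_reducible_and_instances apply Int.lt | with_reducible apply Int.all | with_reducible apply Int.ex | with_reducible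 apply IntF.fst | with_reducible apply IntF.snd | with_reducible apply IntF.app | with_reducible apply IntF.inl | with_reducible apply IntF.inr | with_reducible_and_instances apply IntF.mul | with_reducible_and_instances apply IntF.inv | with_reducible_and_instances apply IntF.add | with_reducible_and_instances apply IntF.sub | with_reducible_and_instances apply IntF.neg | with_reducible_and_instances apply IntF.smul | with_reducible apply Int.fin | with_reducible apply IntF.sep | with_reducible apply IntF.lam | with_reducible apply IntF.insert | with_reducible apply IntF.singleton | with_reducible apply IntF.union | with_reducible apply IntF.iimage | with_reducible apply IntF.ite | with_reducible apply IntF.the | with_reducible apply IntF.irec | with_reducible apply IntF.succ | with_reducible apply IntF.val | with_reducible apply IntF.mk | (with_reducible refine Int.comp ?_ ?_; assumption) | (with_reducible refine Int.comp₂ ?_ ?_ ?_; assumption) | (with_reducible refine Int.comp₃ ?_ ?_ ?_ ?_; assumption)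 | (with_reducible refine Int.comp₄ ?_ ?_ ?_ ?_ ?_; assumption) | (with_reducible refine IntF.comp ?_ ?_; assumption) | (with_reducible refine IntF.comp₂ ?_ ?_ ?_; assumption) | (with_reducible refine IntF.comp₃ ?_ ?_ ?_ ?_; assumption) | with_reducible apply IntF.pair))

theorem int_Tn : Int N (fun q : INat N × IPow N (α × α) => Tn lv q.1 q.2) := by
  unfold Tn
  (repeat' (first | with_reducible exact IntF.id | with_reducible exact IntF.fst' | with_reducible exact IntF.snd' | with_reducible exact IntF.const _ | with_reducible exact Int.const _ | assumption | with_reducible apply Int.and | with_reducible apply Int.or | with_reducible apply Int.not | with_reducible apply Int.imp | with_reducible apply Int.iff | with_reducible apply Int.ne | with_reducible apply Int.eq | with_reducible apply Int.mem | with_reducible apply Int.subset | with_reducible apply Int.ltN | with_reducible apply Int.leN | with_reducible_and_instances apply Int.le | with_reducible_and_instances apply Int.lt | with_reducible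 apply Int.all | with_reducible apply Int.ex | with_reducible apply IntF.fst | with_reducible apply IntF.snd | with_reducible apply IntF.app | with_reducible apply IntF.inl | with_reducible apply IntF.inr | with_reducible_and_instances apply IntF.mul | with_reducible_and_instances apply IntF.inv | with_reducible_and_instances apply IntF.add | with_reducible_and_instances apply IntF.sub | with_reducible_and_instances apply IntF.neg | with_reducible_and_instances apply IntF.smul | with_reducible apply Int.fin | with_reducible apply IntF.sep | with_reducible apply IntF.lam | with_reducible apply IntF.insert | with_reducible apply IntF.singleton | with_reducible apply IntF.union | with_reducible apply IntF.iimage | with_reducible apply IntF.ite | with_reducible apply IntF.the | with_reducible apply IntF.irec | with_reducible apply IntF.succ | with_reducible apply IntF.val | with_reducible apply IntF.mk | (with_reducible refine Int.comp ?_ ?_; assumption) | (with_reducible refine Int.comp₂ ?_ ?_ ?_;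 assumption) | (with_reducible refine Int.comp₃ ?_ ?_ ?_ ?_; assumption) | (with_reducible refine Int.comp₄ ?_ ?_ ?_ ?_ ?_; assumption) | (with_reducible refine IntF.comp ?_ ?_; assumption) | (with_reducible refine IntF.comp₂ ?_ ?_ ?_; assumption) | (with_reducible refine IntF.comp₃ ?_ ?_ ?_ ?_; assumption) | with_reducible apply IntF.pair))

theorem int_Tz : Int N (fun q : INat N × IPow N (α × α) => Tz lv q.1 q.2) := by
  have h := int_Tn hlv
  unfold Tz
  (repeat' (first | with_reducible exact IntF.id | with_reducible exact IntF.fst' | with_reducible exact IntF.snd' | with_reducible exact IntF.const _ | with_reducible exact Int.const _ | assumption | with_reducible apply Int.and | with_reducible apply Int.or | with_reducible apply Int.not | with_reducible apply Int.imp | with_reducible apply Int.iff | with_reducible apply Int.ne | with_reducible apply Int.eq | with_reducible apply Int.mem | with_reducible apply Int.subset | with_reducible apply Int.ltN | with_reducible apply Int.leN | with_reducible_and_instances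 apply Int.le | with_reducible_and_instances apply Int.lt | with_reducible apply Int.all | with_reducible apply Int.ex | with_reducible apply IntF.fst | with_reducible apply IntF.snd | with_reducible apply IntF.app | with_reducible apply IntF.inl | with_reducible apply IntF.inr | with_reducible_and_instances apply IntF.mul | with_reducible_and_instances apply IntF.inv | with_reducible_and_instances apply IntF.add | with_reducible_and_instances apply IntF.sub | with_reducible_and_instances apply IntF.neg | with_reducible_and_instances apply IntF.smul | with_reducible apply Int.fin | with_reducible apply IntF.sep | with_reducible apply IntF.lam | with_reducible apply IntF.insert | with_reducible apply IntF.singleton | with_reducible apply IntF.union | with_reducible apply IntF.iimage | with_reducible apply IntF.ite | with_reducible apply IntF.the | with_reducible apply IntF.irec | with_reducible apply IntF.succ | with_reducible apply IntF.val | with_reducible apply IntF.mk | (with_reducible refine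 Int.comp ?_ ?_; assumption) | (with_reducible refine Int.comp₂ ?_ ?_ ?_; assumption) | (with_reducible refine Int.comp₃ ?_ ?_ ?_ ?_; assumption) | (with_reducible refine Int.comp₄ ?_ ?_ ?_ ?_ ?_; assumption) | (with_reducible refine IntF.comp ?_ ?_; assumption) | (with_reducible refine IntF.comp₂ ?_ ?_ ?_; assumption) | (with_reducible refine IntF.comp₃ ?_ ?_ ?_ ?_; assumption) | with_reducible apply IntF.pair))

include hc

theorem cc_Q1 (n : INat N) : ∃ (B : α → Prop) (e : α → INat N), CC (Q1 lv n) B e := by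
  obtain ⟨e, he, h1⟩ := hc n
  refine ⟨fun x => lv x = n, e, Int.comp₂ (p := fun n S => Q1 lv n S) (int_Q1 hlv) (IntF.const _)
    IntF.id, Int.eq hlv (IntF.const _), he, h1, fun S hS => hS.1, fun S hS => ?_⟩
  by_contra hcon
  push Not at hcon
  refine hS ⟨fun x hx => ?_, fun x y hx hy => ?_⟩
  · obtain ⟨S', h2, h3⟩ := hcon {x} (IFin.singleton x)
    exact h3.1 x ((h2 x (mem_singleton.2 rfl)).1 hx)
  · obtain ⟨S', h2, h3⟩ := hcon ({x} ∪ {y}) ((IFin.singleton x).union (IFin.singleton y))
    exact h3.2 x y ((h2 x (mem_union.2 (Or.inl (mem_singleton.2 rfl)))).1 hx)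
      ((h2 y (mem_union.2 (Or.inr (mem_singleton.2 rfl)))).1 hy)

theorem cc_Tn (n : INat N) : ∃ (B : α × α → Prop) (e : α × α → INat N), CC (Tn lv n) B e := by
  obtain ⟨e, he, h1⟩ := hc n
  have hp : IntF N (fun q : INat N × INat N => pr q.1 q.2) := int_pr
  refine ⟨fun q => lv q.1 = n ∧ lv q.2 = n, fun q => pr (e q.1) (e q.2),
    Int.comp₂ (p := fun n S => Tn lv n S) (int_Tn hlv) (IntF.const _) IntF.id,
    Int.and (Int.eq (hlv.comp IntF.fst') (IntF.const _)) (Int.eq (hlv.comp IntF.snd')
      (IntF.const _)), IntF.comp₂ (p := fun a b : INat N => pr a b) hp (he.comp IntF.fst')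
      (he.comp IntF.snd'), fun a b ha hb hab => ?_, fun S hS q hq => ⟨(hS.1 q hq).1,
      (hS.1 q hq).2.1⟩, fun S hS => ?_⟩
  · obtain ⟨h2, h3⟩ := pr_inj hab
    exact Prod.ext (h1 _ _ ha.1 hb.1 h2) (h1 _ _ ha.2 hb.2 h3)
  · by_contra hcon
    push Not at hcon
    refine hS ⟨fun q hq => ?_, fun a b ha hb hab => ?_⟩
    · obtain ⟨S', h2, h3⟩ := hcon {q} (IFin.singleton q)
      exact h3.1 q ((h2 q (mem_singleton.2 rfl)).1 hq)
    · obtain ⟨S', h2, h3⟩ := hcon ({(a, b)} ∪ {(b, a)})
        ((IFin.singleton _).union (IFin.singleton _))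
      rw [h2 (a, b) (mem_union.2 (Or.inl (mem_singleton.2 rfl))),
        h2 (b, a) (mem_union.2 (Or.inr (mem_singleton.2 rfl)))]
      exact h3.2 a b ha hb hab

theorem cc_Tz (n : INat N) : ∃ (B : α × α → Prop) (e : α × α → INat N), CC (Tz lv n) B e := by
  obtain ⟨B, e, h⟩ := cc_Tn hlv hc n
  refine ⟨B, e, Int.comp₂ (p := fun n S => Tz lv n S) (int_Tz hlv) (IntF.const _) IntF.id,
    h.iB, h.ie, h.inj, fun S hS i hi => ?_, fun S hS => ?_⟩
  · rcases hS with hS | hS
    · exact h.sub S hS i hi
    · exact absurd hi (hS i)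
  · have h1 : ¬ Tn lv n S := fun h1 => hS (Or.inl h1)
    have h2 : ∃ q, q ∈ S := by
      by_contra h2
      push Not at h2
      exact hS (Or.inr h2)
    obtain ⟨q, hq⟩ := h2
    obtain ⟨F, hF, h3⟩ := h.cl S h1
    refine ⟨F ∪ {q}, hF.union (IFin.singleton q), fun S' h4 => ?_⟩
    rintro (h5 | h5)
    · exact h3 S' (fun i hi => h4 i (mem_union.2 (Or.inl hi))) h5
    · exact h5 q ((h4 q (mem_union.2 (Or.inr (mem_singleton.2 rfl)))).1 hq)

theorem exists_Tn (n : INat N) : ∃ R, Tn lv n R := by
  obtain ⟨e, he, h1⟩ := hc n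
  have hI : Int N (fun q : α × α => (lv q.1 = n ∧ lv q.2 = n) ∧ e q.1 < e q.2) :=
    Int.and (Int.and (Int.eq (hlv.comp IntF.fst') (IntF.const _)) (Int.eq (hlv.comp IntF.snd')
      (IntF.const _))) (Int.ltN (he.comp IntF.fst') (he.comp IntF.snd'))
  refine ⟨sep N fun q : α × α => (lv q.1 = n ∧ lv q.2 = n) ∧ e q.1 < e q.2, fun q hq => ?_,
    fun a b ha hb hab => ?_⟩
  · obtain ⟨⟨h2, h3⟩, h4⟩ := (mem_sep hI).1 hq
    exact ⟨h2, h3, fun h5 => absurd h4 (by rw [h5]; exact lt_irrefl _)⟩
  · rw [mem_sep hI, mem_sep hI]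
    constructor
    · rintro ⟨-, h2⟩ ⟨-, h3⟩
      exact lt_asymm h2 h3
    · intro h2
      refine ⟨⟨ha, hb⟩, ?_⟩
      rcases lt_trichotomy (e a) (e b) with h3 | h3 | h3
      · exact h3
      · exact absurd (h1 a b ha hb h3) hab
      · exact absurd ⟨⟨hb, ha⟩, h3⟩ h2

end internal

section

attribute [local instance] Helper672.Plain.toL

variable {N : Type u} [LSet.Structure N] [hZ : Helper672.Plain.Zermelo N]

local instance instModelPe : IsModel N := Helper672.Plain.isModel_toL

noncomputable local instance instPElPe (x : N) : ITy N (Helper672.Plain.El x) :=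
  (inferInstance : ITy N (El x))

variable {α : Type u} [ITy N α]
variable {lv : α → INat N} (hlv : IntF N lv) (hc : ∀ n, Ctb N (fun x => lv x = n))

include hlv hc

theorem ctb_of_cpms (h : CPMS N) : Ctb N (fun _ : α => True) := by
  have hQ := int_Q1 hlv
  have hs := spo_pp hQ (cc_Q1 hlv hc)
  obtain ⟨s, h1, h2, h3⟩ := h _ _ _ _ _ (isCMSeq hQ (cc_Q1 hlv hc))
    (isProduct_pp hQ (cc_Q1 hlv hc)) (isProductTop_pp hQ (cc_Q1 hlv hc))
  obtain ⟨D, rfl, hD⟩ := exists_sub hs h2
  obtain ⟨eD, heD, h4⟩ := isCtble_iff.1 h1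
  have key : ∀ x : α, ∃ φ, φ ∈ D ∧ x ∈ φ (lv x) := by
    intro x
    have hI : Int N (fun φ : IFun N (INat N) (IPow N α) => Pp (Q1 lv) φ ∧ x ∈ φ (lv x)) :=
      Int.and (int_Pp hQ) (Int.mem (IntF.const _) (IntF.app IntF.id (IntF.const _)))
    have hI2 : Int N (fun S : IPow N α => Q1 lv (lv x) S ∧ x ∈ S) :=
      Int.and (Int.comp₂ (p := fun n S => Q1 lv n S) hQ (IntF.const _) IntF.id)
        (Int.mem (IntF.const _) IntF.id)
    have hI3 : Int N (fun q : INat N × α => q.2 = x ∧ q.1 = lv x) :=
      Int.and (Int.eq IntF.snd' (IntF.const _)) (Int.eq IntF.fst' (IntF.const _))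
    have hφ : IntF N (fun n : INat N => sep N fun y : α => y = x ∧ n = lv x) := IntF.sep hI3
    have hφ' : ∀ n y, y ∈ (lam N fun n : INat N => sep N fun y : α => y = x ∧ n = lv x) n ↔
        y = x ∧ n = lv x := fun n y => by
      rw [lam_apply hφ]
      exact mem_sep (Int.comp (f := fun y : α => (n, y)) hI3 (IntF.pair (IntF.const _) IntF.id))
    have hO : Ot (Q1 lv) (sep N fun φ : IFun N (INat N) (IPow N α) =>
        Pp (Q1 lv) φ ∧ x ∈ φ (lv x)) := by
      refine ⟨fun φ hφ => ((mem_sep hI).1 hφ).1,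
        fun φ hφ => ⟨{(lv x, sep N fun S : IPow N α => Q1 lv (lv x) S ∧ x ∈ S)},
          IFin.singleton _, fun q hq => ?_, fun φ' hφ' h5 => ?_⟩⟩
      · rw [mem_singleton.1 hq]
        exact ⟨⟨fun S hS => ((mem_sep hI2).1 hS).1, fun S hS => ⟨{x}, IFin.singleton x,
          fun S' hS' h5 => (mem_sep hI2).2 ⟨hS', (h5 x (mem_singleton.2 rfl)).1
            ((mem_sep hI2).1 hS).2⟩⟩⟩, (mem_sep hI2).2 ⟨((mem_sep hI).1 hφ).1 _,
            ((mem_sep hI).1 hφ).2⟩⟩
      · exact (mem_sep hI).2 ⟨hφ', ((mem_sep hI2).1 (h5 _ (mem_singleton.2 rfl))).2⟩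
    have hne : (lam N fun n : INat N => sep N fun y : α => y = x ∧ n = lv x) ∈
        (sep N fun φ : IFun N (INat N) (IPow N α) => Pp (Q1 lv) φ ∧ x ∈ φ (lv x)) := by
      refine (mem_sep hI).2 ⟨fun n => ⟨fun y hy => ?_, fun y y' hy hy' => ?_⟩, ?_⟩
      · obtain ⟨h5, h6⟩ := (hφ' n y).1 hy
        rw [h5, h6]
      · rw [((hφ' n y).1 hy).1, ((hφ' n y').1 hy').1]
      · exact (hφ' _ _).2 ⟨rfl, rfl⟩
    obtain ⟨z, hz1, hz2⟩ := h3 (code (M := N) (sep N fun φ : IFun N (INat N) (IPow N α) =>
      Pp (Q1 lv) φ ∧ x ∈ φ (lv x))) ((mem_ts' hs).2 hO) ⟨_, mem_codeB'.2 hne⟩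
    obtain ⟨φ, h5, rfl⟩ := mem_codeB.1 hz1
    exact ⟨φ, mem_codeB'.1 hz2, ((mem_sep hI).1 h5).2⟩
  have hr : Int N (fun q : α × INat N => ∃ φ : IFun N (INat N) (IPow N α), φ ∈ D ∧
      eD φ = q.2 ∧ q.1 ∈ φ (lv q.1)) := by
    refine Int.ex (Int.and (Int.mem IntF.snd' (IntF.const _)) (Int.and (Int.eq
      (heD.comp IntF.snd') (IntF.snd IntF.fst')) (Int.mem (IntF.fst IntF.fst')
        (IntF.app IntF.snd' (hlv.comp (IntF.fst IntF.fst'))))))
  obtain ⟨f, hf, h5⟩ := exists_lf (iwoNn (N := N)) (γ := α) (r := fun x k =>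
    ∃ φ : IFun N (INat N) (IPow N α), φ ∈ D ∧ eD φ = k ∧ x ∈ φ (lv x)) hr 0
  have h6 : ∀ x, ∃ φ : IFun N (INat N) (IPow N α), φ ∈ D ∧ eD φ = f x ∧ x ∈ φ (lv x) := fun x => by
    obtain ⟨φ, h7, h8⟩ := key x
    exact (h5 x ⟨eD φ, φ, h7, rfl, h8⟩).1
  have hp : IntF N (fun q : INat N × INat N => pr q.1 q.2) := int_pr
  refine ⟨fun x => pr (lv x) (f x), IntF.comp₂ (p := fun a b : INat N => pr a b) hp hlv hf,
    fun x y _ _ hxy => ?_⟩
  obtain ⟨h7, h8⟩ := pr_inj hxy
  obtain ⟨φ, h9, h10, h11⟩ := h6 x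
  obtain ⟨φ', h9', h10', h11'⟩ := h6 y
  have h12 : φ = φ' := h4 _ _ h9 h9' ((h10.trans h8).trans h10'.symm)
  rw [← h12, ← h7] at h11'
  exact (hD φ h9 (lv x)).2 x y h11 h11'

theorem not_caccm (hno : ∀ φ : IFun N (INat N) (IPow N (α × α)), ¬ ∀ n, Tn lv n (φ n)) :
    ¬ CACCM N := by
  intro h
  have hQ := int_Tn hlv
  have hcc := cc_Tn hlv hc
  obtain ⟨s, g, h1, h2⟩ := h _ _ _ (isCMSeq hQ hcc) fun n x hx => by
    obtain ⟨n, rfl, rfl⟩ := (app_sqx hQ).1 hx
    obtain ⟨R, hR⟩ := exists_Tn hlv hc n
    obtain ⟨B, e, h5⟩ := hcc n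
    exact ⟨code R, (mem_xs' (spo_cc h5)).2 hR⟩
  have hv : ∀ (n : INat N) y, App g (code n) y → ∃ S : IPow N (α × α), Tn lv n S ∧ code S = y := by
    intro n y hy
    have h3 := h2 (code n) (xs (Tn lv n)) y ((app_sqx hQ).2 ⟨n, rfl, rfl⟩) hy
    obtain ⟨B, e, h5⟩ := hcc n
    exact (mem_xs (spo_cc h5)).1 h3
  obtain ⟨φ, rfl⟩ := exists_ifun (β := IPow N (α × α)) isOmega_dom h1 fun n y hy => by
    obtain ⟨S, -, h3⟩ := hv n y hy
    exact ⟨S, h3⟩
  refine hno φ fun n => ?_
  obtain ⟨S, h3, h4⟩ := hv n (code (φ n)) (app_code.2 ⟨n, rfl, rfl⟩)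
  rwa [← ITy.inj h4]

theorem not_cpmc (h2 : ∀ n, ∃ a b, lv a = n ∧ lv b = n ∧ a ≠ b)
    (hno : ∀ φ : IFun N (INat N) (IPow N (α × α)), ¬ ∀ n, Tn lv n (φ n)) : ¬ CPMC N := by
  intro h
  have hQ := int_Tz hlv
  have hcc := cc_Tz hlv hc
  have hs := spo_pp hQ hcc
  have hcomp := h _ _ _ _ _ (isCMSeq hQ hcc) (isProduct_pp hQ hcc) (isProductTop_pp hQ hcc)
  have hU : Int N (fun q : INat N × IFun N (INat N) (IPow N (α × α)) =>
      Pp (Tz lv) q.2 ∧ ∀ x, ¬ x ∈ q.2 q.1) :=
    Int.and (Int.comp (int_Pp hQ) IntF.snd') (Int.all (Int.not (Int.mem IntF.snd'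
      (IntF.app (IntF.snd IntF.fst') (IntF.fst IntF.fst')))))
  have hUn : ∀ n, Int N (fun φ : IFun N (INat N) (IPow N (α × α)) =>
      Pp (Tz lv) φ ∧ ∀ x, ¬ x ∈ φ n) := fun n =>
    Int.comp (f := fun φ : IFun N (INat N) (IPow N (α × α)) => (n, φ)) hU
      (IntF.pair (IntF.const _) IntF.id)
  have hF : IntF N (fun n : INat N => sep N fun φ : IFun N (INat N) (IPow N (α × α)) =>
      Pp (Tz lv) φ ∧ ∀ x, ¬ x ∈ φ n) := IntF.sep hU
  have hcI : Int N (fun U : IPow N (IFun N (INat N) (IPow N (α × α))) =>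
      ∃ n : INat N, U = sep N fun φ => Pp (Tz lv) φ ∧ ∀ x, ¬ x ∈ φ n) :=
    Int.ex (Int.eq IntF.fst' (hF.comp IntF.snd'))
  have hno' : ∀ φ : IFun N (INat N) (IPow N (α × α)), Pp (Tz lv) φ → ∃ n, ∀ x, ¬ x ∈ φ n := by
    intro φ hφ
    by_contra hcon
    push Not at hcon
    refine hno φ fun n => (hφ n).resolve_right fun h3 => ?_
    obtain ⟨x, hx⟩ := hcon n
    exact h3 x hx
  obtain ⟨c', h3, h4, h5⟩ := compact_of hs hcomp (sep N fun U => ∃ n : INat N,
    U = sep N fun φ => Pp (Tz lv) φ ∧ ∀ x, ¬ x ∈ φ n) (fun U hU' => by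
      obtain ⟨n, rfl⟩ := (mem_sep hcI).1 hU'
      refine ⟨fun φ hφ => ((mem_sep (hUn n)).1 hφ).1, fun φ hφ =>
        ⟨{(n, {∅})}, IFin.singleton _, fun q hq => ?_, fun φ' hφ' h6 => ?_⟩⟩
      · rw [mem_singleton.1 hq]
        refine ⟨⟨fun S hS => ?_, fun S hS => ?_⟩, mem_singleton.2 (IPow.ext' fun x => ?_)⟩
        · rw [mem_singleton.1 hS]
          exact Or.inr fun x hx => absurd hx (by simp)
        · obtain ⟨a, b, ha, hb, hab⟩ := h2 n
          refine ⟨{(a, b)} ∪ {(b, a)}, (IFin.singleton _).union (IFin.singleton _),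
            fun S' hS' h6 => ?_⟩
          rw [mem_singleton.1 hS] at h6
          have h7 := h6 (a, b) (mem_union.2 (Or.inl (mem_singleton.2 rfl)))
          have h8 := h6 (b, a) (mem_union.2 (Or.inr (mem_singleton.2 rfl)))
          have h7' : ¬ (a, b) ∈ S' := fun h9 => absurd (h7.2 h9) (by simp)
          have h8' : ¬ (b, a) ∈ S' := fun h9 => absurd (h8.2 h9) (by simp)
          rcases hS' with h9 | h9
          · exact absurd ((h9.2 a b ha hb hab).2 h8') h7'
          · exact mem_singleton.2 (IPow.ext' fun x => ⟨fun h10 => absurd h10 (h9 x),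
              fun h10 => absurd h10 (by simp)⟩)
        · exact ⟨fun h7 => absurd h7 (((mem_sep (hUn n)).1 hφ).2 x), fun h7 => absurd h7 (by simp)⟩
      · refine (mem_sep (hUn n)).2 ⟨hφ', fun x hx => ?_⟩
        have h7 : φ' n = ∅ := mem_singleton.1 (h6 _ (mem_singleton.2 rfl))
        rw [h7] at hx
        exact absurd hx (by simp)) (fun φ hφ => by
      obtain ⟨n, hn⟩ := hno' φ hφ
      exact ⟨_, (mem_sep hcI).2 ⟨n, rfl⟩, (mem_sep (hUn n)).2 ⟨hφ, hn⟩⟩)
  obtain ⟨m, hm⟩ := IFin.exists_bound (α := IPow N (IFun N (INat N) (IPow N (α × α))))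
    (r := fun U k => ∃ n : INat N, n < k ∧ U = sep N fun φ => Pp (Tz lv) φ ∧ ∀ x, ¬ x ∈ φ n)
    (Int.ex (Int.and (Int.ltN IntF.snd' (IntF.snd IntF.fst')) (Int.eq (IntF.fst IntF.fst')
      (hF.comp IntF.snd')))) (fun b c => ⟨max b c, fun U hU' => by
        rcases hU' with ⟨n, h6, h7⟩ | ⟨n, h6, h7⟩
        · exact ⟨n, lt_of_lt_of_le h6 (le_max_left _ _), h7⟩
        · exact ⟨n, lt_of_lt_of_le h6 (le_max_right _ _), h7⟩⟩) ⟨0⟩ h3 (fun U hU' => by
      obtain ⟨n, hn⟩ := (mem_sep hcI).1 (h4 U hU')
      exact ⟨n.succ, n, INat.lt_succ_self n, hn⟩)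
  have key : ∀ m : INat N, ∃ φ : IFun N (INat N) (IPow N (α × α)), Pp (Tz lv) φ ∧
      ∀ n, n < m → ∃ x, x ∈ φ n := by
    refine INat.ind (p := fun m => ∃ φ : IFun N (INat N) (IPow N (α × α)), Pp (Tz lv) φ ∧
      ∀ n, n < m → ∃ x, x ∈ φ n) ?_ ?_ ?_
    · refine Int.ex (Int.and (Int.comp (int_Pp hQ) IntF.snd') (Int.all (Int.imp
        (Int.ltN IntF.snd' (IntF.fst IntF.fst')) (Int.ex (Int.mem IntF.snd'
          (IntF.app (IntF.snd (IntF.fst IntF.fst')) (IntF.snd IntF.fst')))))))
    · have hg : IntF N (fun _ : INat N => (∅ : IPow N (α × α))) := IntF.const _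
      refine ⟨lam N fun _ => ∅, fun n => ?_, fun n hn => absurd hn INat.not_lt_zero⟩
      rw [lam_apply hg]
      exact Or.inr fun x hx => absurd hx (by simp)
    · rintro m ⟨φ, h6, h7⟩
      obtain ⟨R, hR⟩ := exists_Tn hlv hc m
      have hI : Int N (fun q : INat N × (α × α) => (q.1 = m ∧ q.2 ∈ R) ∨
          (q.1 ≠ m ∧ q.2 ∈ φ q.1)) :=
        Int.or (Int.and (Int.eq IntF.fst' (IntF.const _)) (Int.mem IntF.snd' (IntF.const _)))
          (Int.and (Int.not (Int.eq IntF.fst' (IntF.const _))) (Int.mem IntF.snd'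
            (IntF.app (IntF.const _) IntF.fst')))
      have hg : IntF N (fun n : INat N => sep N fun x : α × α => (n = m ∧ x ∈ R) ∨
        (n ≠ m ∧ x ∈ φ n)) := IntF.sep hI
      have hg' : ∀ n, (lam N fun n : INat N => sep N fun x : α × α => (n = m ∧ x ∈ R) ∨
          (n ≠ m ∧ x ∈ φ n)) n = if n = m then R else φ n := by
        intro n
        rw [lam_apply hg]
        refine IPow.ext' fun x => ?_
        rw [mem_sep (Int.comp (f := fun x : α × α => (n, x)) hI (IntF.pair (IntF.const _) IntF.id))]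
        by_cases hn : n = m
        · simp only [hn, true_and, ne_eq, not_true, false_and, or_false, if_true]
        · simp only [hn, false_and, ne_eq, not_false_iff, true_and, false_or, if_false]
      refine ⟨lam N fun n : INat N => sep N fun x : α × α => (n = m ∧ x ∈ R) ∨
          (n ≠ m ∧ x ∈ φ n), fun n => ?_, fun n hn => ?_⟩
      · rw [hg']
        by_cases hnm : n = m
        · rw [if_pos hnm, hnm]
          exact Or.inl hR
        · rw [if_neg hnm]
          exact h6 n
      · rw [hg']
        by_cases hnm : n = m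
        · rw [if_pos hnm]
          obtain ⟨a, b, ha, hb, hab⟩ := h2 m
          by_cases h8 : (b, a) ∈ R
          · exact ⟨_, h8⟩
          · exact ⟨_, (hR.2 a b ha hb hab).2 h8⟩
        · rw [if_neg hnm]
          exact h7 n ((INat.lt_succ_iff'.1 hn).resolve_right hnm)
  obtain ⟨φ, h6, h7⟩ := key m
  obtain ⟨U, hU', h8⟩ := h5 φ h6
  obtain ⟨n, h9, rfl⟩ := hm U hU'
  obtain ⟨x, hx⟩ := h7 n h9
  exact ((mem_sep (hUn n)).1 h8).2 x hx

end

end Pool.Agent.Helper672.ZFA.V246P
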