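import Pool.Agent.V11246.Kq
import Pool.Agent.V11246.Pe

/-!
# There is no choice of tournaments on the levels of the columns
-/

set_option maxHeartbeats 1000000
set_option linter.all false
set_option synthInstance.maxSize 2000

namespace Pool.Agent.Helper672.ZFA.V246K

open FirstOrder FirstOrder.Language
open Pool.Agent.Helper672.ZFA.H635 (IPerm SymSys IWO IsGen NN EqFam nm nmN CollL od Od)
open Pool.Agent.Helper672.ZFA.V246 (Ctb exists_lf)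
open Pool.Agent.Helper672.ZFA.V246P (Tn)
open Pool.Agent.H310

universe u

variable {M : Type u} [L.Structure M] [hM : IsModel M]
variable {Ω : Type u} [ITy M Ω] {V : Type u} [ITy M V] {hs : Std M}
variable {G : Set (Pk M (Yt M) Ω V)} (hG : IsGen M G)

theorem one_ne_zero' : (INat.succ 0 : INat M) ≠ 0 := fun h => by
  have := INat.lt_succ_self (0 : INat M)
  rw [h] at this
  exact INat.not_lt_zero this

theorem pair2_fam {Y : Type u} [ITy M Y] {K : Cols M Y} {G : Set (Pk M Y Ω V)} (hG : IsGen M G)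
    (ω : Ω) {cg : Y → NN (Sk Ω V K) hG} (hcg : EqFam hG (fun (π : Ga Ω K) y => (cm π).1.1 y) cg) :
    EqFam hG (fun (π : Ga Ω K) (q : (Y × Y) × INat M) =>
      (((cm π).1.1 q.1.1, (cm π).1.1 q.1.2), q.2))
      (fun q => ZFA.op (ZFA.op (cg q.1.1) (cg q.1.2)) (nm (Sk Ω V K) hG q.2)) := by
  have h0 : ∀ (π : Ga Ω K) (b : (Y × Y) × INat M),
      (fun (π : Ga Ω K) (q : (Y × Y) × INat M) =>
        (((cm π).1.1 q.1.1, (cm π).1.1 q.1.2), q.2)) π⁻¹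
      ((fun (π : Ga Ω K) (q : (Y × Y) × INat M) =>
        (((cm π).1.1 q.1.1, (cm π).1.1 q.1.2), q.2)) π b) = b := fun π b =>
    Prod.ext (Prod.ext (cm_inv ω π b.1.1) (cm_inv ω π b.1.2)) rfl
  refine EqFam.op h0 (EqFam.op h0 ?_ ?_) ?_
  · exact EqFam.comp hcg (φ := fun q : (Y × Y) × INat M => q.1.1) (IntF.fst IntF.fst')
      fun _ _ => rfl
  · exact EqFam.comp hcg (φ := fun q : (Y × Y) × INat M => q.1.2) (IntF.snd IntF.fst')
      fun _ _ => rfl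
  · exact EqFam.comp (H635.nm_fam (S := Sk Ω V K) hG) (φ := fun q : (Y × Y) × INat M => q.2)
      IntF.snd' fun _ _ => rfl

variable {cg : Yt M → NN (Sk Ω V (Kt hs)) hG} {A : NN (Sk Ω V (Kt hs)) hG}
  {lv : El A → INat (NN (Sk Ω V (Kt hs)) hG)}
  (hcg : EqFam hG (fun (π : Ga Ω (Kt hs)) y => (cm π).1.1 y) cg)
  (hinj : ∀ y y', cg y = cg y' → y = y') (hA : ∀ w, Plain.Mem w A ↔ ∃ y, w = cg y)

include hinj hA in
theorem exists_two (hC : CollL M)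
    (hlv : ∀ y (hy : Plain.Mem (cg y) A), lv ⟨cg y, hy⟩ = nmN (Sk Ω V (Kt hs)) hG hC y.1)
    (n : INat (NN (Sk Ω V (Kt hs)) hG)) : ∃ a b, lv a = n ∧ lv b = n ∧ a ≠ b := by
  obtain ⟨k, rfl⟩ := H635.nmN_surj hG hC n
  let y : Yt M := (k, ⟨∅, IFin.empty⟩)
  let y' : Yt M := (k, ⟨{0}, IFin.singleton 0⟩)
  refine ⟨⟨cg y, (hA _).2 ⟨y, rfl⟩⟩, ⟨cg y', (hA _).2 ⟨y', rfl⟩⟩, hlv y _, hlv y' _, fun h => ?_⟩
  have h1 := hinj _ _ (congrArg Subtype.val h)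
  have h2 : (0 : INat M) ∈ y'.2.1 := mem_singleton.2 rfl
  rw [← h1] at h2
  exact absurd h2 (by simp [y])

include hcg hinj hA in
theorem no_tournaments (hC : CollL M) (hΩ : ¬ Ctb M (fun _ : Ω => True))
    (hlv : ∀ y (hy : Plain.Mem (cg y) A), lv ⟨cg y, hy⟩ = nmN (Sk Ω V (Kt hs)) hG hC y.1)
    (φ : IFun (NN (Sk Ω V (Kt hs)) hG) (INat (NN (Sk Ω V (Kt hs)) hG))
      (IPow (NN (Sk Ω V (Kt hs)) hG) (El A × El A))) : ¬ ∀ n, Tn lv n (φ n) := by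
  intro hT
  have hω : Nonempty Ω := by
    by_contra h
    exact hΩ ⟨fun _ => 0, IntF.const _, fun a _ _ _ _ => absurd ⟨a⟩ h⟩
  obtain ⟨ω⟩ := hω
  obtain ⟨x, hx⟩ : Int (NN (Sk Ω V (Kt hs)) hG) (fun q : (El A × El A) ×
      INat (NN (Sk Ω V (Kt hs)) hG) => q.1 ∈ φ q.2) :=
    Int.mem IntF.fst' (IntF.app (IntF.const _) IntF.snd')
  have hx' : ∀ y y' (hy : Plain.Mem (cg y) A) (hy' : Plain.Mem (cg y') A) (m : INat M),
      Plain.Mem (ZFA.op (ZFA.op (cg y) (cg y')) (nm (Sk Ω V (Kt hs)) hG m)) x ↔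
        ((⟨cg y, hy⟩, ⟨cg y', hy'⟩) : El A × El A) ∈ φ (nmN (Sk Ω V (Kt hs)) hG hC m) :=
    fun y y' hy hy' m => hx ((⟨cg y, hy⟩, ⟨cg y', hy'⟩), nmN (Sk Ω V (Kt hs)) hG hC m)
  obtain ⟨k, hk⟩ := col_invar hG hΩ (act := fun (π : Ga Ω (Kt hs)) (q : (Yt M × Yt M) × INat M) =>
      (((cm π).1.1 q.1.1, (cm π).1.1 q.1.2), q.2))
    (ac := fun c q => ((c.1.1 q.1.1, c.1.1 q.1.2), q.2))
    (fun π c hc t => Prod.ext (Prod.ext (cm_eq ω hc t.1.1) (cm_eq ω hc t.1.2)) rfl)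
    (pair2_fam hG ω hcg) x
  let y : Yt M := (k, ⟨{0}, IFin.singleton 0⟩)
  let y' : Yt M := tvf k (INat.succ 0) 0 y
  have hy : Plain.Mem (cg y) A := (hA _).2 ⟨y, rfl⟩
  have hy' : Plain.Mem (cg y') A := (hA _).2 ⟨y', rfl⟩
  have hc : (Kt hs).C k (tv k (INat.succ 0) 0) := Ct.gen ⟨k, _, _, le_rfl, rfl⟩
  have e1 : (tv k (INat.succ 0) 0).1.1 y = y' := rfl
  have e2 : (tv k (INat.succ 0) 0).1.1 y' = y := tvf_tvf _ _ _ _
  have hne : y ≠ y' := fun h => by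
    have h6 : (INat.succ 0 : INat M) ∈ y'.2.1 := by
      change _ ∈ (tvf k (INat.succ 0) 0 y).2.1
      rw [mem_tvf]
      intro h
      have h7 := h.2 ⟨rfl, one_ne_zero', rfl, mem_singleton.2 rfl⟩
      exact one_ne_zero' (mem_singleton.1 h7)
    rw [← h] at h6
    exact one_ne_zero' (mem_singleton.1 h6)
  have h1 : ∀ z z' : Yt M, ∀ (hz : Plain.Mem (cg z) A) (hz' : Plain.Mem (cg z') A)
      (hw : Plain.Mem (cg ((tv k (INat.succ 0) 0).1.1 z)) A)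
      (hw' : Plain.Mem (cg ((tv k (INat.succ 0) 0).1.1 z')) A),
      ((⟨cg z, hz⟩, ⟨cg z', hz'⟩) : El A × El A) ∈ φ (nmN (Sk Ω V (Kt hs)) hG hC k) →
      ((⟨cg ((tv k (INat.succ 0) 0).1.1 z), hw⟩, ⟨cg ((tv k (INat.succ 0) 0).1.1 z'), hw'⟩) :
        El A × El A) ∈ φ (nmN (Sk Ω V (Kt hs)) hG hC k) := fun z z' hz hz' hw hw' h2 =>
    (hx' _ _ hw hw' k).1 (hk _ hc ((z, z'), k) ((hx' z z' hz hz' k).2 h2))
  have h2 := (hT (nmN (Sk Ω V (Kt hs)) hG hC k)).2 ⟨cg y, hy⟩ ⟨cg y', hy'⟩ (hlv y hy) (hlv y' hy')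
    fun h => hne (hinj _ _ (congrArg Subtype.val h))
  have h3 := h1 y y' hy hy' hy' (by rw [e2]; exact hy)
  have h4 := h1 y' y hy' hy (by rw [e2]; exact hy) hy'
  simp only [e1, e2] at h3 h4
  by_cases h5 : ((⟨cg y, hy⟩, ⟨cg y', hy'⟩) : El A × El A) ∈ φ (nmN (Sk Ω V (Kt hs)) hG hC k)
  · exact h2.1 h5 (h3 h5)
  · exact h5 (h4 (by_contra fun h6 => h5 (h2.2 h6)))

end Pool.Agent.Helper672.ZFA.V246K
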