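import Pool.Agent.V11246.Kg


/-!
# The group of the columns generated by the transvections
-/

set_option maxHeartbeats 1000000
set_option linter.all false
set_option synthInstance.maxSize 2000

namespace Pool.Agent.Helper672.ZFA.V246K

open FirstOrder FirstOrder.Language
open Pool.Agent.Helper672.ZFA.H635 (IPerm SymSys IWO)
open Pool.Agent.Helper672.ZFA.V246 (Ctb exists_lf)
open Pool.Agent.H310

universe u

variable (M : Type u) [L.Structure M] [hM : IsModel M]

theorem int_IFinN : Int M (fun s : IPow M (INat M) => IFin s) := by (repeat' (first | with_reducible exact IntF.id | with_reducible exact IntF.fst' | with_reducible exact IntF.snd' | with_reducible exact IntF.const _ | with_reducible exact Int.const _ | assumption | with_reducible apply Int.and | with_reducible apply Int.or | with_reducible apply Int.not | with_reducible apply Int.imp | with_reducible apply Int.iff | with_reducible apply Int.ne | with_reducible apply Int.eq | with_reducible apply Int.mem | with_reducible apply Int.subset | with_reducible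 apply Int.ltN | with_reducible apply Int.leN | with_reducible_and_instances apply Int.le | with_reducible_and_instances apply Int.lt | with_reducible apply Int.all | with_reducible apply Int.ex | with_reducible apply IntF.fst | with_reducible apply IntF.snd | with_reducible apply IntF.app | with_reducible apply IntF.inl | with_reducible apply IntF.inr | with_reducible_and_instances apply IntF.mul | with_reducible_and_instances apply IntF.inv | with_reducible_and_instances apply IntF.add | with_reducible_and_instances apply IntF.sub | with_reducible_and_instances apply IntF.neg | with_reducible_and_instances apply IntF.smul | with_reducible apply Int.fin | with_reducible apply IntF.sep | with_reducible apply IntF.lam | with_reducible apply IntF.insert | with_reducible apply IntF.singleton | with_reducible apply IntF.union | with_reducible apply IntF.iimage | with_reducible apply IntF.ite | with_reducible apply IntF.the | with_reducible apply IntF.irec | with_reducible apply IntF.succ | with_reducible apply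 IntF.val | with_reducible apply IntF.mk | (with_reducible refine Int.comp ?_ ?_; assumption) | (with_reducible refine Int.comp₂ ?_ ?_ ?_; assumption) | (with_reducible refine Int.comp₃ ?_ ?_ ?_ ?_; assumption) | (with_reducible refine Int.comp₄ ?_ ?_ ?_ ?_ ?_; assumption) | (with_reducible refine IntF.comp ?_ ?_; assumption) | (with_reducible refine IntF.comp₂ ?_ ?_ ?_; assumption) | (with_reducible refine IntF.comp₃ ?_ ?_ ?_ ?_; assumption) | with_reducible apply IntF.pair))

instance factFinN : Fact (Int M (fun s : IPow M (INat M) => IFin s)) := ⟨int_IFinN M⟩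

/-- The vectors. -/
abbrev Ve : Type u := {s : IPow M (INat M) // IFin s}

/-- The columns. -/
abbrev Yt : Type u := INat M × Ve M

/-- Standard natural numbers. -/
def Std : Prop := ∀ p : INat M → Prop, p 0 → (∀ n, p n → p n.succ) → ∀ n, p n

variable {M}

theorem int_tvs : Int M (fun q : ((INat M × (INat M × INat M)) × Yt M) × INat M =>
    ¬ (q.2 ∈ q.1.2.2.1 ↔ (q.1.2.1 = q.1.1.1 ∧ q.1.1.2.1 ≠ q.1.1.2.2 ∧ q.2 = q.1.1.2.1 ∧
      q.1.1.2.2 ∈ q.1.2.2.1))) := by
  have a1 : IntF M (fun q : ((INat M × (INat M × INat M)) × Yt M) × INat M => q.1.2.2.1) :=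
    IntF.val (IntF.snd (IntF.snd IntF.fst'))
  have a2 : IntF M (fun q : ((INat M × (INat M × INat M)) × Yt M) × INat M => q.1.2.1) :=
    IntF.fst (IntF.snd IntF.fst')
  have a3 : IntF M (fun q : ((INat M × (INat M × INat M)) × Yt M) × INat M => q.1.1.1) :=
    IntF.fst (IntF.fst IntF.fst')
  have a4 : IntF M (fun q : ((INat M × (INat M × INat M)) × Yt M) × INat M => q.1.1.2.1) :=
    IntF.fst (IntF.snd (IntF.fst IntF.fst'))
  have a5 : IntF M (fun q : ((INat M × (INat M × INat M)) × Yt M) × INat M => q.1.1.2.2) :=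
    IntF.snd (IntF.snd (IntF.fst IntF.fst'))
  exact Int.not (Int.iff (Int.mem IntF.snd' a1) (Int.and (Int.eq a2 a3) (Int.and (Int.not
    (Int.eq a4 a5)) (Int.and (Int.eq IntF.snd' a4) (Int.mem a5 a1)))))

/-- The transvections on the sets. -/
noncomputable def tvs (m i j : INat M) (y : Yt M) : IPow M (INat M) :=
  sep M fun x => ¬ (x ∈ y.2.1 ↔ (y.1 = m ∧ i ≠ j ∧ x = i ∧ j ∈ y.2.1))

theorem mem_tvs {m i j x : INat M} {y : Yt M} : x ∈ tvs m i j y ↔
    ¬ (x ∈ y.2.1 ↔ (y.1 = m ∧ i ≠ j ∧ x = i ∧ j ∈ y.2.1)) := by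
  have h : Int M (fun x : INat M =>
      ¬ (x ∈ y.2.1 ↔ (y.1 = m ∧ i ≠ j ∧ x = i ∧ j ∈ y.2.1))) :=
    Int.comp (f := fun x : INat M => (((m, (i, j)), y), x)) int_tvs
      (IntF.pair (IntF.const _) IntF.id)
  exact mem_sep h

theorem fin_tvs (m i j : INat M) (y : Yt M) : IFin (tvs m i j y) := by
  refine (y.2.2.union (IFin.singleton i)).subset fun x hx => ?_
  rw [mem_tvs] at hx
  rw [mem_union, mem_singleton]
  by_contra hcon
  push Not at hcon
  exact hx ⟨fun h => absurd h hcon.1, fun h => absurd h.2.2.1 hcon.2⟩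

/-- The transvections. -/
noncomputable def tvf (m i j : INat M) (y : Yt M) : Yt M := (y.1, ⟨tvs m i j y, fin_tvs m i j y⟩)

theorem mem_tvf {m i j x : INat M} {y : Yt M} : x ∈ (tvf m i j y).2.1 ↔
    ¬ (x ∈ y.2.1 ↔ (y.1 = m ∧ i ≠ j ∧ x = i ∧ j ∈ y.2.1)) := mem_tvs

theorem tvf_fst (m i j : INat M) (y : Yt M) : (tvf m i j y).1 = y.1 := rfl

theorem ext_Yt {y y' : Yt M} (h : y.1 = y'.1) (h' : ∀ x, x ∈ y.2.1 ↔ x ∈ y'.2.1) : y = y' :=
  Prod.ext h (Subtype.ext (IPow.ext' h'))

theorem int_tvf : IntF M (fun q : (INat M × (INat M × INat M)) × Yt M =>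
    tvf q.1.1 q.1.2.1 q.1.2.2 q.2) := by
  refine IntF.of_rel (r := fun (q : (INat M × (INat M × INat M)) × Yt M) (y : Yt M) =>
    y.1 = q.2.1 ∧ ∀ x, x ∈ y.2.1 ↔ ¬ (x ∈ q.2.2.1 ↔ (q.2.1 = q.1.1 ∧ q.1.2.1 ≠ q.1.2.2 ∧
      x = q.1.2.1 ∧ q.1.2.2 ∈ q.2.2.1))) ?_ fun q y => ?_
  · refine Int.and (Int.eq (IntF.fst IntF.snd') (IntF.fst (IntF.snd IntF.fst')))
      (Int.all (Int.iff (Int.mem IntF.snd' (IntF.val (IntF.snd (IntF.snd IntF.fst')))) ?_))
    exact Int.comp (f := fun q : (((INat M × (INat M × INat M)) × Yt M) × Yt M) × INat M =>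
      (q.1.1, q.2)) int_tvs (IntF.pair (IntF.fst IntF.fst') IntF.snd')
  · constructor
    · rintro ⟨h1, h2⟩
      exact ext_Yt h1.symm fun x => mem_tvf.trans (h2 x).symm
    · rintro rfl
      exact ⟨rfl, fun x => mem_tvf⟩

theorem tvf_tvf (m i j : INat M) (y : Yt M) : tvf m i j (tvf m i j y) = y := by
  refine ext_Yt rfl fun x => ?_
  rw [mem_tvf, mem_tvf, mem_tvf, tvf_fst]
  by_cases h1 : i = j
  · simp [h1]
  · have h2 : ¬ j = i := fun h => h1 h.symm
    simp only [ne_eq, h1, h2, not_false_iff, true_and, false_and, and_false, iff_false, not_not]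
    tauto

/-- The transvections as permutations. -/
noncomputable def tv (m i j : INat M) : IPerm M (Yt M) :=
  IPerm.ofInv (tvf m i j) (int_tvf.comp (f := fun y : Yt M => ((m, (i, j)), y))
    (IntF.pair (IntF.const _) IntF.id)) (tvf_tvf m i j)

theorem tv_apply (m i j : INat M) (y : Yt M) : (tv m i j).1.1 y = tvf m i j y := rfl

theorem int_tv : IntF M (fun q : INat M × (INat M × INat M) => tv q.1 q.2.1 q.2.2) := by
  refine IntF.of_rel (r := fun (q : INat M × (INat M × INat M)) (g : IPerm M (Yt M)) =>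
    ∀ y, g.1.1 y = tvf q.1 q.2.1 q.2.2 y) ?_ fun q g => ?_
  · refine Int.all (Int.eq (IntF.app (IntF.fst (IntF.val (IntF.snd IntF.fst'))) IntF.snd') ?_)
    exact IntF.comp (f := fun q : ((INat M × (INat M × INat M)) × IPerm M (Yt M)) × Yt M =>
      (q.1.1, q.2)) int_tvf (IntF.pair (IntF.fst IntF.fst') IntF.snd')
  · constructor
    · intro h
      exact (IPerm.ext' h).symm
    · rintro rfl y
      rfl

theorem tv_mul_self (m i j : INat M) : tv m i j * tv m i j = 1 := by
  refine IPerm.ext' fun y => ?_
  rw [IPerm.mul_apply, tv_apply, tv_apply, tvf_tvf, IPerm.one_apply]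

theorem tv_inv (m i j : INat M) : (tv m i j)⁻¹ = tv m i j :=
  inv_eq_of_mul_eq_one_right (tv_mul_self m i j)

theorem tv_comm_lev {m m' : INat M} (h : m ≠ m') (i j i' j' : INat M) :
    tv m i j * tv m' i' j' = tv m' i' j' * tv m i j := by
  refine IPerm.ext' fun y => ?_
  rw [IPerm.mul_apply, IPerm.mul_apply, tv_apply, tv_apply, tv_apply, tv_apply]
  refine ext_Yt rfl fun x => ?_
  rw [mem_tvf, mem_tvf, mem_tvf, mem_tvf, mem_tvf, mem_tvf, tvf_fst, tvf_fst]
  by_cases h1 : y.1 = m
  · have h2 : ¬ y.1 = m' := fun h2 => h (h1.symm.trans h2)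
    simp only [h1, h2, false_and, iff_false, not_not, true_and]
    have h3 : ¬ m = m' := h
    simp only [h3, false_and, iff_false, not_not]
  · simp only [h1, false_and, iff_false, not_not]

theorem tv_comm {m a b c d : INat M} (h : b ≠ c) (h' : a ≠ d) :
    tv m a b * tv m c d = tv m c d * tv m a b := by
  refine IPerm.ext' fun y => ?_
  rw [IPerm.mul_apply, IPerm.mul_apply, tv_apply, tv_apply, tv_apply, tv_apply]
  refine ext_Yt rfl fun x => ?_
  rw [mem_tvf, mem_tvf, mem_tvf, mem_tvf, mem_tvf, mem_tvf, tvf_fst, tvf_fst]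
  have h1 : ¬ b = c := h
  have h2 : ¬ d = a := fun h2 => h' h2.symm
  simp only [h1, h2, false_and, and_false, iff_false, not_not]
  tauto

theorem tv_braid {m i j l : INat M} (h : i ≠ l) (h1 : i ≠ j) (h2 : j ≠ l) :
    tv m i j * tv m j l = tv m i l * (tv m j l * tv m i j) := by
  refine IPerm.ext' fun y => ?_
  rw [IPerm.mul_apply, IPerm.mul_apply, IPerm.mul_apply, tv_apply, tv_apply, tv_apply, tv_apply,
    tv_apply]
  refine ext_Yt rfl fun x => ?_
  rw [mem_tvf, mem_tvf, mem_tvf, mem_tvf, mem_tvf, mem_tvf, mem_tvf, mem_tvf, mem_tvf, tvf_fst,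
    tvf_fst, tvf_fst]
  have e1 : ¬ l = i := fun h' => h h'.symm
  have e2 : ¬ l = j := fun h' => h2 h'.symm
  have e3 : ¬ i = l := h
  have e4 : ¬ i = j := h1
  have e5 : ¬ j = l := h2
  have e6 : ¬ j = i := fun h' => h1 h'.symm
  by_cases hx : x = i
  · subst hx
    simp only [e1, e2, e3, e4, e5, e6, ne_eq, not_false_iff, false_and, and_false, iff_false,
      not_not, true_and]
    tauto
  · by_cases hx' : x = j
    · subst hx'
      simp only [e1, e2, e3, e4, e5, e6, ne_eq, not_false_iff, false_and, and_false, iff_false,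
        not_not, true_and]
    · simp only [hx, hx', e1, e2, e3, e4, e5, e6, ne_eq, not_false_iff, false_and, and_false,
        iff_false, not_not, true_and]

theorem tv_key {m i l j j' : INat M} (h : i ≠ l) (h1 : i ≠ j) (h2 : j ≠ l) (h1' : i ≠ j')
    (h2' : j' ≠ l) (hj : j ≠ j') :
    ((tv m j l)⁻¹ * tv m j' l)⁻¹ * ((tv m i j)⁻¹ * tv m i j')⁻¹ *
      ((tv m i j * tv m j l)⁻¹ * (tv m i j' * tv m j' l)) = tv m i l := by
  simp only [mul_inv_rev, tv_inv, inv_inv]
  have b := tv_braid (m := m) h h1 h2
  have c1 : tv m i l * tv m j l = tv m j l * tv m i l := tv_comm (fun e => h2 e.symm) h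
  have c2 : tv m i l * tv m i j' = tv m i j' * tv m i l := tv_comm (fun e => h e.symm) h1'
  have c3 : tv m i l * tv m j' l = tv m j' l * tv m i l := tv_comm (fun e => h2' e.symm) h
  have c4 : tv m i j' * tv m j l = tv m j l * tv m i j' := tv_comm (fun e => hj e.symm) h
  have s1 := tv_mul_self m i j
  have s2 := tv_mul_self m i j'
  have s3 := tv_mul_self m j l
  have s4 := tv_mul_self m j' l
  calc tv m j' l * tv m j l * (tv m i j' * tv m i j) *
        (tv m j l * tv m i j * (tv m i j' * tv m j' l))
      = tv m j' l * tv m j l * tv m i j' * (tv m i j * tv m j l) * tv m i j *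
          (tv m i j' * tv m j' l) := by group
    _ = tv m j' l * tv m j l * tv m i j' * (tv m i l * (tv m j l * tv m i j)) * tv m i j *
          (tv m i j' * tv m j' l) := by rw [b]
    _ = tv m j' l * tv m j l * tv m i j' * tv m i l * tv m j l * (tv m i j * tv m i j) *
          (tv m i j' * tv m j' l) := by group
    _ = tv m j' l * tv m j l * tv m i j' * (tv m i l * tv m j l) *
          (tv m i j' * tv m j' l) := by rw [s1]; group
    _ = tv m j' l * tv m j l * (tv m i j' * tv m j l) * (tv m i l * tv m i j') *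
          tv m j' l := by rw [c1]; group
    _ = tv m j' l * (tv m j l * tv m j l) * (tv m i j' * tv m i j') * (tv m i l *
          tv m j' l) := by rw [c4, c2]; group
    _ = tv m j' l * (tv m j' l * tv m i l) := by rw [s3, s2, c3]; group
    _ = tv m i l := by rw [← mul_assoc, s4, one_mul]

end Pool.Agent.Helper672.ZFA.V246K
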