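import Pool.Agent.V11246.Kt

/-!
# The columns of the transvections
-/

set_option maxHeartbeats 1000000
set_option linter.all false
set_option synthInstance.maxSize 2000

namespace Pool.Agent.Helper672.ZFA.V246K

open FirstOrder FirstOrder.Language
open Pool.Agent.Helper672.ZFA.H635 (IPerm SymSys IWO)
open Pool.Agent.Helper672.ZFA.V246 (Ctb exists_lf)
open Pool.Agent.H310

universe u

variable {M : Type u} [L.Structure M] [hM : IsModel M]

/-- Generators. -/
def Gen (k : INat M) (g : IPerm M (Yt M)) : Prop := ∃ m i j, k ≤ m ∧ g = tv m i j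

theorem int_Gen : Int M (fun q : INat M × IPerm M (Yt M) => Gen q.1 q.2) := by
  unfold Gen
  refine Int.ex (Int.ex (Int.ex (Int.and ?_ (Int.eq ?_ ?_))))
  · exact Int.leN (IntF.fst (IntF.fst (IntF.fst IntF.fst'))) (IntF.snd (IntF.fst IntF.fst'))
  · exact IntF.snd (IntF.fst (IntF.fst IntF.fst'))
  · exact IntF.comp (g := fun q : INat M × (INat M × INat M) => tv q.1 q.2.1 q.2.2)
      (f := fun q : (((INat M × IPerm M (Yt M)) × INat M) × INat M) × INat M =>
        (q.1.1.2, (q.1.2, q.2))) int_tv
      (IntF.pair (IntF.snd (IntF.fst IntF.fst')) (IntF.pair (IntF.snd IntF.fst') IntF.snd'))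

/-- Products of a generator and an element of a set. -/
noncomputable def stp (k : INat M) (s : IPow M (IPerm M (Yt M))) : IPow M (IPerm M (Yt M)) :=
  sep M fun g => ∃ e h, Gen k e ∧ h ∈ s ∧ g = e * h

theorem int_stp0 : Int M (fun q : (INat M × IPow M (IPerm M (Yt M))) × IPerm M (Yt M) =>
    ∃ e h, Gen q.1.1 e ∧ h ∈ q.1.2 ∧ q.2 = e * h) := by
  refine Int.ex (Int.ex (Int.and ?_ (Int.and (Int.mem IntF.snd' ?_) (Int.eq ?_ (IntF.mul ?_ ?_)))))
  · exact Int.comp₂ (p := fun (k : INat M) g => Gen k g) int_Gen
      (IntF.fst (IntF.fst (IntF.fst IntF.fst'))) (IntF.snd IntF.fst')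
  · exact IntF.snd (IntF.fst (IntF.fst IntF.fst'))
  · exact IntF.snd (IntF.fst IntF.fst')
  · exact IntF.snd IntF.fst'
  · exact IntF.snd'

theorem int_stp : IntF M (fun q : INat M × IPow M (IPerm M (Yt M)) => stp q.1 q.2) := by
  unfold stp
  exact IntF.sep int_stp0

theorem mem_stp {k : INat M} {s : IPow M (IPerm M (Yt M))} {g : IPerm M (Yt M)} :
    g ∈ stp k s ↔ ∃ e h, Gen k e ∧ h ∈ s ∧ g = e * h := by
  have h : Int M (fun g : IPerm M (Yt M) => ∃ e h, Gen k e ∧ h ∈ s ∧ g = e * h) :=
    Int.comp (f := fun g : IPerm M (Yt M) => ((k, s), g)) int_stp0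
      (IntF.pair (IntF.const _) IntF.id)
  exact mem_sep h

/-- The products of `t` generators. -/
noncomputable def Wd (k t : INat M) : IPow M (IPerm M (Yt M)) := irec {1} (fun _ s => stp k s) t

theorem int_Wd : IntF M (fun q : INat M × INat M => Wd q.1 q.2) := by
  unfold Wd
  refine IntF.irec (IntF.const _) ?_ IntF.snd'
  exact IntF.comp₂ (p := fun k s => stp k s) int_stp (IntF.fst (IntF.fst IntF.fst')) IntF.snd'

theorem Wd_zero (k : INat M) : Wd k 0 = {1} :=
  irec_zero (f := fun _ s => stp k s) (IntF.comp₂ (p := fun k s => stp k s) int_stp (IntF.const _) IntF.snd')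

theorem Wd_succ (k t : INat M) : Wd k t.succ = stp k (Wd k t) :=
  irec_succ (f := fun _ s => stp k s) (IntF.comp₂ (p := fun k s => stp k s) int_stp (IntF.const _) IntF.snd') t

/-- The groups. -/
def Ct (k : INat M) (g : IPerm M (Yt M)) : Prop := ∃ t, g ∈ Wd k t

theorem int_Ct : Int M (fun q : INat M × IPerm M (Yt M) => Ct q.1 q.2) := by
  unfold Ct
  refine Int.ex (Int.mem (IntF.snd IntF.fst') ?_)
  exact IntF.comp₂ (p := fun k t => Wd k t) int_Wd (IntF.fst IntF.fst') IntF.snd'

theorem Ct.one (k : INat M) : Ct k 1 := ⟨0, by rw [Wd_zero]; exact mem_singleton.2 rfl⟩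

theorem Ct.cons {k : INat M} {e h : IPerm M (Yt M)} (he : Gen k e) (hh : Ct k h) :
    Ct k (e * h) := by
  obtain ⟨t, ht⟩ := hh
  exact ⟨t.succ, by rw [Wd_succ]; exact mem_stp.2 ⟨e, h, he, ht, rfl⟩⟩

theorem Ct.ind (hs : Std M) {k : INat M} {p : IPerm M (Yt M) → Prop} (h1 : p 1)
    (h2 : ∀ e h, Gen k e → Ct k h → p h → p (e * h)) : ∀ g, Ct k g → p g := by
  have key : ∀ t g, g ∈ Wd k t → p g := by
    refine hs _ ?_ ?_
    · intro g hg
      rw [Wd_zero] at hg
      rw [mem_singleton.1 hg]
      exact h1
    · intro t ih g hg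
      rw [Wd_succ] at hg
      obtain ⟨e, h, he, hh, rfl⟩ := mem_stp.1 hg
      exact h2 e h he ⟨t, hh⟩ (ih h hh)
  rintro g ⟨t, ht⟩
  exact key t g ht

theorem Ct.gen {k : INat M} {e : IPerm M (Yt M)} (he : Gen k e) : Ct k e := by
  have := Ct.cons he (Ct.one k)
  rwa [mul_one] at this

theorem Ct.mul (hs : Std M) {k : INat M} {a b : IPerm M (Yt M)} (ha : Ct k a) (hb : Ct k b) :
    Ct k (a * b) := by
  refine Ct.ind hs (p := fun a => Ct k (a * b)) ?_ ?_ a ha
  · rwa [one_mul]
  · intro e h he _ ih
    rw [mul_assoc]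
    exact Ct.cons he ih

theorem Ct.inv (hs : Std M) {k : INat M} {a : IPerm M (Yt M)} (ha : Ct k a) : Ct k a⁻¹ := by
  refine Ct.ind hs (p := fun a => Ct k a⁻¹) ?_ ?_ a ha
  · rw [inv_one]
    exact Ct.one k
  · rintro e h ⟨m, i, j, hm, rfl⟩ _ ih
    rw [mul_inv_rev, tv_inv]
    exact Ct.mul hs ih (Ct.gen ⟨m, i, j, hm, rfl⟩)

theorem Ct.anti (hs : Std M) {k k' : INat M} (hk : k ≤ k') {a : IPerm M (Yt M)} (ha : Ct k' a) :
    Ct k a := by
  refine Ct.ind hs (p := fun a => Ct k a) (Ct.one k) ?_ a ha
  rintro e h ⟨m, i, j, hm, rfl⟩ _ ih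
  exact Ct.cons ⟨m, i, j, hk.trans hm, rfl⟩ ih

theorem Ct.conj_gen (hs : Std M) {k m i j : INat M} {b : IPerm M (Yt M)} (hb : Ct k b) :
    Ct k ((tv m i j)⁻¹ * b * tv m i j) := by
  rcases le_or_gt k m with h | h
  · have h1 : Ct k (tv m i j) := Ct.gen ⟨m, i, j, h, rfl⟩
    exact Ct.mul hs (Ct.mul hs (Ct.inv hs h1) hb) h1
  · have key : ∀ b, Ct k b → b * tv m i j = tv m i j * b := by
      refine Ct.ind hs ?_ ?_
      · rw [one_mul, mul_one]
      · rintro e h' ⟨m', i', j', hm', rfl⟩ _ ih
        have hne : m' ≠ m := fun e => absurd (lt_of_lt_of_le h hm') (by rw [e]; exact lt_irrefl _)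
        rw [mul_assoc, ih, ← mul_assoc, tv_comm_lev hne, mul_assoc]
    rw [mul_assoc, key b hb, inv_mul_cancel_left]
    exact hb

theorem Ct.conj (hs : Std M) {k : INat M} {a : IPerm M (Yt M)} (ha : Ct 0 a) :
    ∀ b, Ct k b → Ct k (a⁻¹ * b * a) := by
  refine Ct.ind hs (p := fun a => ∀ b, Ct k b → Ct k (a⁻¹ * b * a)) ?_ ?_ a ha
  · intro b hb
    rwa [inv_one, one_mul, mul_one]
  · rintro e h ⟨m, i, j, hm, rfl⟩ _ ih b hb
    have h1 := ih _ (Ct.conj_gen hs (m := m) (i := i) (j := j) hb)
    have h2 : (tv m i j * h)⁻¹ * b * (tv m i j * h) =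
        h⁻¹ * ((tv m i j)⁻¹ * b * tv m i j) * h := by group
    rw [h2]
    exact h1

theorem Ct.lev (hs : Std M) {k : INat M} {a : IPerm M (Yt M)} (ha : Ct k a) :
    ∀ y : Yt M, (a.1.1 y).1 = y.1 := by
  refine Ct.ind hs (p := fun a => ∀ y : Yt M, (a.1.1 y).1 = y.1) ?_ ?_ a ha
  · intro y
    rw [IPerm.one_apply]
  · rintro e h ⟨m, i, j, hm, rfl⟩ _ ih y
    rw [IPerm.mul_apply, tv_apply, tvf_fst, ih]

theorem Ct.fix (hs : Std M) {k : INat M} {a : IPerm M (Yt M)} (ha : Ct k a) :
    ∀ y : Yt M, y.1 < k → a.1.1 y = y := by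
  refine Ct.ind hs (p := fun a => ∀ y : Yt M, y.1 < k → a.1.1 y = y) ?_ ?_ a ha
  · intro y _
    rw [IPerm.one_apply]
  · rintro e h ⟨m, i, j, hm, rfl⟩ _ ih y hy
    rw [IPerm.mul_apply, ih y hy, tv_apply]
    refine ext_Yt rfl fun x => ?_
    rw [mem_tvf]
    have h1 : ¬ y.1 = m := fun e => absurd (lt_of_lt_of_le hy hm) (by rw [e]; exact lt_irrefl _)
    simp only [h1, false_and, iff_false, not_not]

/-- The columns of the transvections. -/
noncomputable def Kt (hs : Std M) : Cols M (Yt M) where
  lev y := y.1
  int_lev := IntF.fst'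
  C := Ct
  int_C := int_Ct
  one := Ct.one
  mul _ _ _ ha hb := Ct.mul hs ha hb
  inv _ _ ha := Ct.inv hs ha
  anti _ _ _ hk ha := Ct.anti hs hk ha
  conj _ _ b ha hb := Ct.conj hs ha b hb
  lev_eq _ ha := Ct.lev hs ha
  fix _ _ ha := Ct.fix hs ha

theorem not_add_lt' (a b : INat M) : ¬ a + b < b := by
  refine INat.ind (p := fun b : INat M => ¬ a + b < b) (by (repeat' (first | with_reducible exact IntF.id | with_reducible exact IntF.fst' | with_reducible exact IntF.snd' | with_reducible exact IntF.const _ | with_reducible exact Int.const _ | assumption | with_reducible apply Int.and | with_reducible apply Int.or | with_reducible apply Int.not | with_reducible apply Int.imp | with_reducible apply Int.iff | with_reducible apply Int.ne | with_reducible apply Int.eq | with_reducible apply Int.mem | with_reducible apply Int.subset | with_reducible apply Int.ltN | with_reducible apply Int.leN | with_reducible_and_instances apply Int.le | with_reducible_and_instances apply Int.lt | with_reducible apply Int.all | with_reducible apply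 Int.ex | with_reducible apply IntF.fst | with_reducible apply IntF.snd | with_reducible apply IntF.app | with_reducible apply IntF.inl | with_reducible apply IntF.inr | with_reducible_and_instances apply IntF.mul | with_reducible_and_instances apply IntF.inv | with_reducible_and_instances apply IntF.add | with_reducible_and_instances apply IntF.sub | with_reducible_and_instances apply IntF.neg | with_reducible_and_instances apply IntF.smul | with_reducible apply Int.fin | with_reducible apply IntF.sep | with_reducible apply IntF.lam | with_reducible apply IntF.insert | with_reducible apply IntF.singleton | with_reducible apply IntF.union | with_reducible apply IntF.iimage | with_reducible apply IntF.ite | with_reducible apply IntF.the | with_reducible apply IntF.irec | with_reducible apply IntF.succ | with_reducible apply IntF.val | with_reducible apply IntF.mk | (with_reducible refine Int.comp ?_ ?_; assumption) | (with_reducible refine Int.comp₂ ?_ ?_ ?_; assumption) | (with_reducible refine Int.comp₃ ?_ ?_ ?_ ?_; assumption)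 | (with_reducible refine Int.comp₄ ?_ ?_ ?_ ?_ ?_; assumption) | (with_reducible refine IntF.comp ?_ ?_; assumption) | (with_reducible refine IntF.comp₂ ?_ ?_ ?_; assumption) | (with_reducible refine IntF.comp₃ ?_ ?_ ?_ ?_; assumption) | with_reducible apply IntF.pair))) ?_ ?_ b
  · exact INat.not_lt_zero
  · intro b ih h
    rw [INat.add_succ'] at h
    exact ih (INat.succ_le_iff.1 (INat.lt_succ_iff.1 h))

theorem star_Kt (hs : Std M) : Star (Kt hs) := by
  intro k Q hQ1 hQinv hQmul hpig n g hg
  have hgen : ∀ e, Gen k e → ∀ n, Q n e := by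
    rintro e ⟨m, i, l, hm, rfl⟩ n
    by_cases hil : i = l
    · subst hil
      have : tv m i i = 1 := by
        refine IPerm.ext' fun y => ?_
        rw [tv_apply, IPerm.one_apply]
        refine ext_Yt rfl fun x => ?_
        rw [mem_tvf]
        simp
      rw [this]
      exact hQ1 n
    · have hJ : IntF M (fun j : INat M => j + (max i l).succ) := by (repeat' (first | with_reducible exact IntF.id | with_reducible exact IntF.fst' | with_reducible exact IntF.snd' | with_reducible exact IntF.const _ | with_reducible exact Int.const _ | assumption | with_reducible apply Int.and | with_reducible apply Int.or | with_reducible apply Int.not | with_reducible apply Int.imp | with_reducible apply Int.iff | with_reducible apply Int.ne | with_reducible apply Int.eq | with_reducible apply Int.mem | with_reducible apply Int.subset | with_reducible apply Int.ltN | with_reducible apply Int.leN | with_reducible_and_instances apply Int.le | with_reducible_and_instances apply Int.lt | with_reducible apply Int.all | with_reducible apply Int.ex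 | with_reducible apply IntF.fst | with_reducible apply IntF.snd | with_reducible apply IntF.app | with_reducible apply IntF.inl | with_reducible apply IntF.inr | with_reducible_and_instances apply IntF.mul | with_reducible_and_instances apply IntF.inv | with_reducible_and_instances apply IntF.add | with_reducible_and_instances apply IntF.sub | with_reducible_and_instances apply IntF.neg | with_reducible_and_instances apply IntF.smul | with_reducible apply Int.fin | with_reducible apply IntF.sep | with_reducible apply IntF.lam | with_reducible apply IntF.insert | with_reducible apply IntF.singleton | with_reducible apply IntF.union | with_reducible apply IntF.iimage | with_reducible apply IntF.ite | with_reducible apply IntF.the | with_reducible apply IntF.irec | with_reducible apply IntF.succ | with_reducible apply IntF.val | with_reducible apply IntF.mk | (with_reducible refine Int.comp ?_ ?_; assumption) | (with_reducible refine Int.comp₂ ?_ ?_ ?_; assumption) | (with_reducible refine Int.comp₃ ?_ ?_ ?_ ?_; assumption) | (with_reducible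 refine Int.comp₄ ?_ ?_ ?_ ?_ ?_; assumption) | (with_reducible refine IntF.comp ?_ ?_; assumption) | (with_reducible refine IntF.comp₂ ?_ ?_ ?_; assumption) | (with_reducible refine IntF.comp₃ ?_ ?_ ?_ ?_; assumption) | with_reducible apply IntF.pair))
      have hJi : ∀ j : INat M, i ≠ j + (max i l).succ := fun j h =>
        not_add_lt' j _ (by rw [← h]; exact INat.lt_succ_iff.2 (le_max_left _ _))
      have hJl : ∀ j : INat M, j + (max i l).succ ≠ l := fun j h =>
        not_add_lt' j _ (by rw [h]; exact INat.lt_succ_iff.2 (le_max_right _ _))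
      have i1 : IntF M (fun j : INat M => tv m i (j + (max i l).succ)) :=
        IntF.comp (g := fun q : INat M × (INat M × INat M) => tv q.1 q.2.1 q.2.2)
          (f := fun j : INat M => (m, (i, j + (max i l).succ))) int_tv
          (IntF.pair (IntF.const _) (IntF.pair (IntF.const _) hJ))
      have i2 : IntF M (fun j : INat M => tv m (j + (max i l).succ) l) :=
        IntF.comp (g := fun q : INat M × (INat M × INat M) => tv q.1 q.2.1 q.2.2)
          (f := fun j : INat M => (m, (j + (max i l).succ, l))) int_tv
          (IntF.pair (IntF.const _) (IntF.pair hJ (IntF.const _)))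
      have g1 : ∀ j : INat M, Ct k (tv m i (j + (max i l).succ)) := fun j =>
        Ct.gen ⟨m, _, _, hm, rfl⟩
      have g2 : ∀ j : INat M, Ct k (tv m (j + (max i l).succ) l) := fun j =>
        Ct.gen ⟨m, _, _, hm, rfl⟩
      obtain ⟨j, j', hj, h1, h2, h3⟩ := hpig n.succ.succ
        (fun j => tv m i (j + (max i l).succ) * tv m (j + (max i l).succ) l)
        (fun j => tv m i (j + (max i l).succ)) (fun j => tv m (j + (max i l).succ) l)
        (IntF.mul i1 i2) i1 i2 (fun j => Ct.mul hs (g1 j) (g2 j)) g1 g2
      have hjj : j + (max i l).succ ≠ j' + (max i l).succ := fun h =>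
        hj (INat.add_right_cancel' h)
      have hk := tv_key (m := m) (i := i) (l := l) hil (hJi j) (hJl j) (hJi j') (hJl j') hjj
      rw [← hk]
      have c1 : Ct k ((tv m (j + (max i l).succ) l)⁻¹ * tv m (j' + (max i l).succ) l) :=
        Ct.mul hs (Ct.inv hs (g2 j)) (g2 j')
      have c2 : Ct k ((tv m i (j + (max i l).succ))⁻¹ * tv m i (j' + (max i l).succ)) :=
        Ct.mul hs (Ct.inv hs (g1 j)) (g1 j')
      have c3 : Ct k ((tv m i (j + (max i l).succ) * tv m (j + (max i l).succ) l)⁻¹ *
          (tv m i (j' + (max i l).succ) * tv m (j' + (max i l).succ) l)) :=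
        Ct.mul hs (Ct.inv hs (Ct.mul hs (g1 j) (g2 j))) (Ct.mul hs (g1 j') (g2 j'))
      refine hQmul n _ _ (Ct.mul hs (Ct.inv hs c1) (Ct.inv hs c2)) c3
        (hQmul n.succ _ _ (Ct.inv hs c1) (Ct.inv hs c2) (hQinv _ _ c1 h3) (hQinv _ _ c2 h2)) ?_
      have := hQmul n.succ _ 1 c3 (Ct.one k) h1 (hQ1 _)
      rwa [mul_one] at this
  have key : ∀ g, Ct k g → ∀ n, Q n g := by
    refine Ct.ind hs hQ1 ?_
    intro e h he hh ih n
    exact hQmul n e h (Ct.gen he) hh (hgen e he _) (ih _)
  exact key g hg n

end Pool.Agent.Helper672.ZFA.V246K
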