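import Pool.Agent.V11246.Kn
import Pool.Agent.V11246.Kr

/-!
# The principles for compact metrizable spaces in the model
-/

set_option maxHeartbeats 1000000
set_option linter.all false
set_option synthInstance.maxSize 2000

namespace Pool.Agent.Helper672.ZFA.V246X

open FirstOrder FirstOrder.Language
open Pool.Agent.Helper672.ZFA
open Pool.Agent.Helper672.Plain (LSet)
open Pool.Agent.Helper672.ZFA.H635 (IPerm SymSys IWO IsGen NN EqFam nm nmN CollL od Od toL nn_zf
  isModel_of_zermelo coll_of_zf exists_countable_sub)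
open Pool.Agent.H310Cards
open Pool.Agent.H310
open Pool.Agent.H310NAS (WO)
open Pool.Agent.H635Amen (ZF)
open Pool.Agent.V11246
open Pool.Agent.Helper672.ZFA.V246 (Ctb)
open Pool.Agent.Helper672.ZFA.V246K hiding AC
open Pool.Agent.Helper672.ZFA.V246P (ctb_of_cpms not_caccm not_cpmc)

universe u

/-- The principles. -/
def PrE (N : Type u) [LSet.Structure N] : Prop :=
  MCS N ∧ ¬ CACCM N ∧ ¬ CPMS N ∧ ¬ CPMC N ∧ ¬ CUC N

theorem exists_e' (M : Type u) [L.Structure M] [IsModel M] [Countable M] (hC : CollL M)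
    (hA : V246K.AC M) (hs : Std M) :
    ∃ (N : Type u) (_ : LSet.Structure N), ZF N ∧ PrE N := by
  have p₀ : Pk M (Yt M) (IPow M (INat M)) (IPow M (INat M)) :=
    ⟨∅, fun i d v v' h => absurd h (by simp), Cb.empty⟩
  obtain ⟨G, hG⟩ := H635.exists_gen (M := M) p₀
  have hzf : ZF (NN (Sk (IPow M (INat M)) (IPow M (INat M)) (Kt hs)) hG) := nn_zf hG hC
  have hz : Helper672.Plain.Zermelo (NN (Sk (IPow M (INat M)) (IPow M (INat M)) (Kt hs)) hG) :=
    hzf.toZermelo
  obtain ⟨cg, A, lv, h0, h1, h2, h3, h4, h5, h6⟩ := exists_cols (hs := hs) hG hC hA not_ctb_pow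
    (pow_ne (M := M))
  have hno := no_tournaments hG h0 h1 h2 hC not_ctb_pow h4
  refine ⟨NN (Sk (IPow M (INat M)) (IPow M (INat M)) (Kt hs)) hG, inferInstance, hzf,
    mcs_of_tbw (hZ := hz) (tbw_NN hC hA not_ctb_pow (star_Kt hs)),
    not_caccm (hZ := hz) h3 h5 hno, fun h => h6 (ctb_of_cpms (hZ := hz) h3 h5 h),
    not_cpmc (hZ := hz) h3 h5 (exists_two hG h1 h2 hC h4) hno,
    fun hcuc => h6 (ctb_of_cuc (hZ := hz) hcuc h3 h5)⟩

section

attribute [local instance] toL

theorem exists_e_c (M : Type u) [LSet.Structure M] [Countable M] (h : ZF M) (hW : WO M)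
    (hw : WellFounded (fun x y : M => Helper672.Plain.Mem x y)) :
    ∃ (N : Type u) (_ : LSet.Structure N), ZF N ∧ PrE N := by
  have hM : IsModel M := isModel_of_zermelo h.toZermelo
  exact exists_e' M (coll_of_zf h) (ac_of (H310.NA.iwo_of hW)) (std_of hw)

end

/-- A countable well-founded model of ZF with a well-order on every set. -/
theorem exists_ground : ∃ (M : Type 1) (_ : LSet.Structure M), Countable M ∧ ZF M ∧ WO M ∧
    WellFounded (fun x y : M => Helper672.Plain.Mem x y) := by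
  letI := H310.NA.zs.{0}
  obtain ⟨M₀, h1, h2⟩ := exists_countable_sub ZFSet.{0} H310.NA.zf_zs
  refine ⟨M₀, inferInstance, h1, h2, H310.NA.wo_substructure M₀ H310.NA.wo_zs, ?_⟩
  have hwf : WellFounded (fun x y : ZFSet.{0} => x ∈ y) := ZFSet.mem_wf
  refine Subrelation.wf (r := fun x y : M₀ => (x : ZFSet.{0}) ∈ (y : ZFSet.{0})) ?_
    (InvImage.wf (fun x : M₀ => (x : ZFSet.{0})) hwf)
  intro x y hxy
  exact (H635.mem_coe M₀).1 hxy

/-- There is a model. -/
theorem exists_e : ∃ (N : Type 1) (_ : LSet.Structure N), ZF N ∧ PrE N := by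
  obtain ⟨M, hL, h1, h2, h3, h4⟩ := exists_ground
  exact exists_e_c M h2 h3 h4

end Pool.Agent.Helper672.ZFA.V246X
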