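import Pool.Agent.V11246.Kv
import Pool.Agent.V11246.KDefs
import Pool.Agent.V11246.NcoR
import Pool.Agent.V11246.Spc
import Pool.Agent.H310R3.Met

/-!
# Compact metrizable spaces in the extension
-/

set_option maxHeartbeats 1000000
set_option linter.all false
set_option synthInstance.maxSize 2000

namespace Pool.Agent.Helper672.ZFA.V246X

open FirstOrder FirstOrder.Language
open Pool.Agent.Helper672.ZFA
open Pool.Agent.Helper672.Plain (LSet)
open Pool.Agent.Helper672.ZFA.H635 (plainN_ordPair plainN_graph plainN_opGraph IWO)
open Pool.Agent.H635Amen (IsReals)
open Pool.Agent.H310Cards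
open Pool.Agent.H310Top (IsCompact)
open Pool.Agent.H310Metric (IsMetric)
open Pool.Agent.H310
open Pool.Agent.V11246
open Pool.Agent.Helper672.ZFA.V246 (Ctb exists_lf iwoNn mem_codeB mem_codeB' exists_codeB
  fin_of_isFinite isFinite_of_fin isCtble_iff)
open Pool.Agent.Helper672.ZFA.V246K (TBW exists_dense)

universe u

section

attribute [local instance] H635.toL

variable {N : Type u} [LSet.Structure N] [hM : IsModel N]

noncomputable local instance instPElX (x : N) : ITy N (Helper672.Plain.El x) :=
  (inferInstance : ITy N (El x))

theorem exists_qh {r : N} [Field (Helper672.Plain.El r)] [LinearOrder (Helper672.Plain.El r)]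
    [IsStrictOrderedRing (Helper672.Plain.El r)] (hr : IsReals r) :
    ∃ q : INat N → Helper672.Plain.El r, IntF N q ∧ (∀ n, 0 < q n) ∧
      (∀ n, q n.succ + q n.succ = q n) ∧ (∀ ε, 0 < ε → ∃ n, q n < ε) ∧
      Int N (fun q : Helper672.Plain.El r × Helper672.Plain.El r => q.1 < q.2) := by
  obtain ⟨ga, ha⟩ := hr.add
  obtain ⟨gl, hl⟩ := hr.le
  have ha' : Int N (fun q : (Helper672.Plain.El r × Helper672.Plain.El r) × Helper672.Plain.El r => q.1.1 + q.1.2 = q.2) :=
    ⟨ga, fun q => ((ha q.1.1 q.1.2 q.2).trans plainN_opGraph).symm⟩
  have hl' : Int N (fun q : Helper672.Plain.El r × Helper672.Plain.El r => q.1 ≤ q.2) :=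
    ⟨gl, fun q => ((hl q.1 q.2).trans plainN_graph).symm⟩
  have hadd : IntF N (fun q : Helper672.Plain.El r × Helper672.Plain.El r => q.1 + q.2) := ha'
  obtain ⟨F, hF, hFy⟩ : ∃ F : Helper672.Plain.El r → Helper672.Plain.El r, IntF N F ∧ ∀ y, F y = y / 2 := by
    refine ⟨fun y => y / 2, ?_, fun y => rfl⟩
    refine IntF.of_rel (r := fun y z => z + z = y) (by (repeat' (first | with_reducible exact IntF.id | with_reducible exact IntF.fst' | with_reducible exact IntF.snd' | with_reducible exact IntF.const _ | with_reducible exact Int.const _ | assumption | with_reducible apply Int.and | with_reducible apply Int.or | with_reducible apply Int.not | with_reducible apply Int.imp | with_reducible apply Int.iff | with_reducible apply Int.ne | with_reducible apply Int.eq | with_reducible apply Int.mem | with_reducible apply Int.subset | with_reducible apply Int.ltN | with_reducible apply Int.leN | with_reducible_and_instances apply Int.le | with_reducible_and_instances apply Int.lt | with_reducible apply Int.all | with_reducible apply Int.ex | with_reducible apply IntF.fst | with_reducible apply IntF.snd | with_reducible apply IntF.app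 | with_reducible apply IntF.inl | with_reducible apply IntF.inr | with_reducible_and_instances apply IntF.mul | with_reducible_and_instances apply IntF.inv | with_reducible_and_instances apply IntF.add | with_reducible_and_instances apply IntF.sub | with_reducible_and_instances apply IntF.neg | with_reducible_and_instances apply IntF.smul | with_reducible apply Int.fin | with_reducible apply IntF.sep | with_reducible apply IntF.lam | with_reducible apply IntF.insert | with_reducible apply IntF.singleton | with_reducible apply IntF.union | with_reducible apply IntF.iimage | with_reducible apply IntF.ite | with_reducible apply IntF.the | with_reducible apply IntF.irec | with_reducible apply IntF.succ | with_reducible apply IntF.val | with_reducible apply IntF.mk | (with_reducible refine Int.comp ?_ ?_; assumption) | (with_reducible refine Int.comp₂ ?_ ?_ ?_; assumption) | (with_reducible refine Int.comp₃ ?_ ?_ ?_ ?_; assumption) | (with_reducible refine Int.comp₄ ?_ ?_ ?_ ?_ ?_; assumption) | (with_reducible refine IntF.comp ?_ ?_; assumption) | (with_reducible refine IntF.comp₂ ?_ ?_ ?_; assumption) | (with_reducible refine IntF.comp₃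 ?_ ?_ ?_ ?_; assumption) | with_reducible apply IntF.pair))) fun y z => ?_
    rw [div_eq_iff two_ne_zero, mul_two]
    exact eq_comm
  have hq : IntF N (fun n : INat N => irec (1 : Helper672.Plain.El r) (fun _ y => F y) n) := by (repeat' (first | with_reducible exact IntF.id | with_reducible exact IntF.fst' | with_reducible exact IntF.snd' | with_reducible exact IntF.const _ | with_reducible exact Int.const _ | assumption | with_reducible apply Int.and | with_reducible apply Int.or | with_reducible apply Int.not | with_reducible apply Int.imp | with_reducible apply Int.iff | with_reducible apply Int.ne | with_reducible apply Int.eq | with_reducible apply Int.mem | with_reducible apply Int.subset | with_reducible apply Int.ltN | with_reducible apply Int.leN | with_reducible_and_instances apply Int.le | with_reducible_and_instances apply Int.lt | with_reducible apply Int.all | with_reducible apply Int.ex | with_reducible apply IntF.fst | with_reducible apply IntF.snd | with_reducible apply IntF.app | with_reducible apply IntF.inl | with_reducible apply IntF.inr | with_reducible_and_instances apply IntF.mul | with_reducible_and_instances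 apply IntF.inv | with_reducible_and_instances apply IntF.add | with_reducible_and_instances apply IntF.sub | with_reducible_and_instances apply IntF.neg | with_reducible_and_instances apply IntF.smul | with_reducible apply Int.fin | with_reducible apply IntF.sep | with_reducible apply IntF.lam | with_reducible apply IntF.insert | with_reducible apply IntF.singleton | with_reducible apply IntF.union | with_reducible apply IntF.iimage | with_reducible apply IntF.ite | with_reducible apply IntF.the | with_reducible apply IntF.irec | with_reducible apply IntF.succ | with_reducible apply IntF.val | with_reducible apply IntF.mk | (with_reducible refine Int.comp ?_ ?_; assumption) | (with_reducible refine Int.comp₂ ?_ ?_ ?_; assumption) | (with_reducible refine Int.comp₃ ?_ ?_ ?_ ?_; assumption) | (with_reducible refine Int.comp₄ ?_ ?_ ?_ ?_ ?_; assumption) | (with_reducible refine IntF.comp ?_ ?_; assumption) | (with_reducible refine IntF.comp₂ ?_ ?_ ?_; assumption) | (with_reducible refine IntF.comp₃ ?_ ?_ ?_ ?_; assumption) | with_reducible apply IntF.pair))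
  have hs : ∀ n : INat N, irec (1 : Helper672.Plain.El r) (fun _ y => F y) n.succ =
      irec (1 : Helper672.Plain.El r) (fun _ y => F y) n / 2 := fun n => by
    rw [irec_succ (by (repeat' (first | with_reducible exact IntF.id | with_reducible exact IntF.fst' | with_reducible exact IntF.snd' | with_reducible exact IntF.const _ | with_reducible exact Int.const _ | assumption | with_reducible apply Int.and | with_reducible apply Int.or | with_reducible apply Int.not | with_reducible apply Int.imp | with_reducible apply Int.iff | with_reducible apply Int.ne | with_reducible apply Int.eq | with_reducible apply Int.mem | with_reducible apply Int.subset | with_reducible apply Int.ltN | with_reducible apply Int.leN | with_reducible_and_instances apply Int.le | with_reducible_and_instances apply Int.lt | with_reducible apply Int.all | with_reducible apply Int.ex | with_reducible apply IntF.fst | with_reducible apply IntF.snd | with_reducible apply IntF.app | with_reducible apply IntF.inl | with_reducible apply IntF.inr | with_reducible_and_instances apply IntF.mul | with_reducible_and_instances apply IntF.inv | with_reducible_and_instances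 apply IntF.add | with_reducible_and_instances apply IntF.sub | with_reducible_and_instances apply IntF.neg | with_reducible_and_instances apply IntF.smul | with_reducible apply Int.fin | with_reducible apply IntF.sep | with_reducible apply IntF.lam | with_reducible apply IntF.insert | with_reducible apply IntF.singleton | with_reducible apply IntF.union | with_reducible apply IntF.iimage | with_reducible apply IntF.ite | with_reducible apply IntF.the | with_reducible apply IntF.irec | with_reducible apply IntF.succ | with_reducible apply IntF.val | with_reducible apply IntF.mk | (with_reducible refine Int.comp ?_ ?_; assumption) | (with_reducible refine Int.comp₂ ?_ ?_ ?_; assumption) | (with_reducible refine Int.comp₃ ?_ ?_ ?_ ?_; assumption) | (with_reducible refine Int.comp₄ ?_ ?_ ?_ ?_ ?_; assumption) | (with_reducible refine IntF.comp ?_ ?_; assumption) | (with_reducible refine IntF.comp₂ ?_ ?_ ?_; assumption) | (with_reducible refine IntF.comp₃ ?_ ?_ ?_ ?_; assumption) | with_reducible apply IntF.pair))) n, hFy]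
  have h0 : irec (1 : Helper672.Plain.El r) (fun _ y => F y) (0 : INat N) = 1 := irec_zero (by (repeat' (first | with_reducible exact IntF.id | with_reducible exact IntF.fst' | with_reducible exact IntF.snd' | with_reducible exact IntF.const _ | with_reducible exact Int.const _ | assumption | with_reducible apply Int.and | with_reducible apply Int.or | with_reducible apply Int.not | with_reducible apply Int.imp | with_reducible apply Int.iff | with_reducible apply Int.ne | with_reducible apply Int.eq | with_reducible apply Int.mem | with_reducible apply Int.subset | with_reducible apply Int.ltN | with_reducible apply Int.leN | with_reducible_and_instances apply Int.le | with_reducible_and_instances apply Int.lt | with_reducible apply Int.all | with_reducible apply Int.ex | with_reducible apply IntF.fst | with_reducible apply IntF.snd | with_reducible apply IntF.app | with_reducible apply IntF.inl | with_reducible apply IntF.inr | with_reducible_and_instances apply IntF.mul | with_reducible_and_instances apply IntF.inv | with_reducible_and_instances apply IntF.add | with_reducible_and_instances apply IntF.sub | with_reducible_and_instances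 apply IntF.neg | with_reducible_and_instances apply IntF.smul | with_reducible apply Int.fin | with_reducible apply IntF.sep | with_reducible apply IntF.lam | with_reducible apply IntF.insert | with_reducible apply IntF.singleton | with_reducible apply IntF.union | with_reducible apply IntF.iimage | with_reducible apply IntF.ite | with_reducible apply IntF.the | with_reducible apply IntF.irec | with_reducible apply IntF.succ | with_reducible apply IntF.val | with_reducible apply IntF.mk | (with_reducible refine Int.comp ?_ ?_; assumption) | (with_reducible refine Int.comp₂ ?_ ?_ ?_; assumption) | (with_reducible refine Int.comp₃ ?_ ?_ ?_ ?_; assumption) | (with_reducible refine Int.comp₄ ?_ ?_ ?_ ?_ ?_; assumption) | (with_reducible refine IntF.comp ?_ ?_; assumption) | (with_reducible refine IntF.comp₂ ?_ ?_ ?_; assumption) | (with_reducible refine IntF.comp₃ ?_ ?_ ?_ ?_; assumption) | with_reducible apply IntF.pair)))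
  have hlt' : Int N (fun q : Helper672.Plain.El r × Helper672.Plain.El r => q.1 < q.2) := by
    refine Int.congr (p := fun q : Helper672.Plain.El r × Helper672.Plain.El r => ¬ q.2 ≤ q.1) (by (repeat' (first | with_reducible exact IntF.id | with_reducible exact IntF.fst' | with_reducible exact IntF.snd' | with_reducible exact IntF.const _ | with_reducible exact Int.const _ | assumption | with_reducible apply Int.and | with_reducible apply Int.or | with_reducible apply Int.not | with_reducible apply Int.imp | with_reducible apply Int.iff | with_reducible apply Int.ne | with_reducible apply Int.eq | with_reducible apply Int.mem | with_reducible apply Int.subset | with_reducible apply Int.ltN | with_reducible apply Int.leN | with_reducible_and_instances apply Int.le | with_reducible_and_instances apply Int.lt | with_reducible apply Int.all | with_reducible apply Int.ex | with_reducible apply IntF.fst | with_reducible apply IntF.snd | with_reducible apply IntF.app | with_reducible apply IntF.inl | with_reducible apply IntF.inr | with_reducible_and_instances apply IntF.mul | with_reducible_and_instances apply IntF.inv | with_reducible_and_instances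 apply IntF.add | with_reducible_and_instances apply IntF.sub | with_reducible_and_instances apply IntF.neg | with_reducible_and_instances apply IntF.smul | with_reducible apply Int.fin | with_reducible apply IntF.sep | with_reducible apply IntF.lam | with_reducible apply IntF.insert | with_reducible apply IntF.singleton | with_reducible apply IntF.union | with_reducible apply IntF.iimage | with_reducible apply IntF.ite | with_reducible apply IntF.the | with_reducible apply IntF.irec | with_reducible apply IntF.succ | with_reducible apply IntF.val | with_reducible apply IntF.mk | (with_reducible refine Int.comp ?_ ?_; assumption) | (with_reducible refine Int.comp₂ ?_ ?_ ?_; assumption) | (with_reducible refine Int.comp₃ ?_ ?_ ?_ ?_; assumption) | (with_reducible refine Int.comp₄ ?_ ?_ ?_ ?_ ?_; assumption) | (with_reducible refine IntF.comp ?_ ?_; assumption) | (with_reducible refine IntF.comp₂ ?_ ?_ ?_; assumption) | (with_reducible refine IntF.comp₃ ?_ ?_ ?_ ?_; assumption) | with_reducible apply IntF.pair))) fun q => ?_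
    exact not_le
  have hpos : ∀ n : INat N, 0 < irec (1 : Helper672.Plain.El r) (fun _ y => F y) n := by
    refine INat.ind (by (repeat' (first | with_reducible exact IntF.id | with_reducible exact IntF.fst' | with_reducible exact IntF.snd' | with_reducible exact IntF.const _ | with_reducible exact Int.const _ | assumption | with_reducible apply Int.and | with_reducible apply Int.or | with_reducible apply Int.not | with_reducible apply Int.imp | with_reducible apply Int.iff | with_reducible apply Int.ne | with_reducible apply Int.eq | with_reducible apply Int.mem | with_reducible apply Int.subset | with_reducible apply Int.ltN | with_reducible apply Int.leN | with_reducible_and_instances apply Int.le | with_reducible_and_instances apply Int.lt | with_reducible apply Int.all | with_reducible apply Int.ex | with_reducible apply IntF.fst | with_reducible apply IntF.snd | with_reducible apply IntF.app | with_reducible apply IntF.inl | with_reducible apply IntF.inr | with_reducible_and_instances apply IntF.mul | with_reducible_and_instances apply IntF.inv | with_reducible_and_instances apply IntF.add | with_reducible_and_instances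 apply IntF.sub | with_reducible_and_instances apply IntF.neg | with_reducible_and_instances apply IntF.smul | with_reducible apply Int.fin | with_reducible apply IntF.sep | with_reducible apply IntF.lam | with_reducible apply IntF.insert | with_reducible apply IntF.singleton | with_reducible apply IntF.union | with_reducible apply IntF.iimage | with_reducible apply IntF.ite | with_reducible apply IntF.the | with_reducible apply IntF.irec | with_reducible apply IntF.succ | with_reducible apply IntF.val | with_reducible apply IntF.mk | (with_reducible refine Int.comp ?_ ?_; assumption) | (with_reducible refine Int.comp₂ ?_ ?_ ?_; assumption) | (with_reducible refine Int.comp₃ ?_ ?_ ?_ ?_; assumption) | (with_reducible refine Int.comp₄ ?_ ?_ ?_ ?_ ?_; assumption) | (with_reducible refine IntF.comp ?_ ?_; assumption) | (with_reducible refine IntF.comp₂ ?_ ?_ ?_; assumption) | (with_reducible refine IntF.comp₃ ?_ ?_ ?_ ?_; assumption) | with_reducible apply IntF.pair))) ?_ ?_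
    · rw [h0]
      exact one_pos
    · intro n ih
      rw [hs]
      exact half_pos ih
  refine ⟨_, hq, hpos, fun n => ?_, ?_, hlt'⟩
  · rw [hs]
    exact add_halves _
  · intro ε hε
    by_contra hc
    push Not at hc
    have hS : Int N (fun x : Helper672.Plain.El r => ∀ n : INat N, x ≤ irec (1 : Helper672.Plain.El r) (fun _ y => F y) n) := by
      (repeat' (first | with_reducible exact IntF.id | with_reducible exact IntF.fst' | with_reducible exact IntF.snd' | with_reducible exact IntF.const _ | with_reducible exact Int.const _ | assumption | with_reducible apply Int.and | with_reducible apply Int.or | with_reducible apply Int.not | with_reducible apply Int.imp | with_reducible apply Int.iff | with_reducible apply Int.ne | with_reducible apply Int.eq | with_reducible apply Int.mem | with_reducible apply Int.subset | with_reducible apply Int.ltN | with_reducible apply Int.leN | with_reducible_and_instances apply Int.le | with_reducible_and_instances apply Int.lt | with_reducible apply Int.all | with_reducible apply Int.ex | with_reducible apply IntF.fst | with_reducible apply IntF.snd | with_reducible apply IntF.app | with_reducible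 apply IntF.inl | with_reducible apply IntF.inr | with_reducible_and_instances apply IntF.mul | with_reducible_and_instances apply IntF.inv | with_reducible_and_instances apply IntF.add | with_reducible_and_instances apply IntF.sub | with_reducible_and_instances apply IntF.neg | with_reducible_and_instances apply IntF.smul | with_reducible apply Int.fin | with_reducible apply IntF.sep | with_reducible apply IntF.lam | with_reducible apply IntF.insert | with_reducible apply IntF.singleton | with_reducible apply IntF.union | with_reducible apply IntF.iimage | with_reducible apply IntF.ite | with_reducible apply IntF.the | with_reducible apply IntF.irec | with_reducible apply IntF.succ | with_reducible apply IntF.val | with_reducible apply IntF.mk | (with_reducible refine Int.comp ?_ ?_; assumption) | (with_reducible refine Int.comp₂ ?_ ?_ ?_; assumption) | (with_reducible refine Int.comp₃ ?_ ?_ ?_ ?_; assumption) | (with_reducible refine Int.comp₄ ?_ ?_ ?_ ?_ ?_; assumption) | (with_reducible refine IntF.comp ?_ ?_; assumption) | (with_reducible refine IntF.comp₂ ?_ ?_ ?_; assumption) | (with_reducible refine IntF.comp₃ ?_ ?_ ?_ ?_;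 assumption) | with_reducible apply IntF.pair))
    obtain ⟨s, hs1⟩ : ∃ s : N, ∀ z, Helper672.Plain.Mem z s ↔ ∃ x : Helper672.Plain.El r,
        (∀ n : INat N, x ≤ irec (1 : Helper672.Plain.El r) (fun _ y => F y) n) ∧ x.1 = z :=
      ⟨hS.small.elt, fun z => hS.small.mem⟩
    have hs2 : ∀ x : Helper672.Plain.El r, Helper672.Plain.Mem x.1 s ↔
        ∀ n : INat N, x ≤ irec (1 : Helper672.Plain.El r) (fun _ y => F y) n := fun x =>
      (hs1 x.1).trans ⟨fun ⟨y, h1, h2⟩ => (Subtype.ext h2 : y = x) ▸ h1, fun h => ⟨x, h, rfl⟩⟩
    obtain ⟨c, h1, h2⟩ := hr.complete ⟨s, fun x hx => by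
        obtain ⟨y, -, rfl⟩ := (hs1 x).1 hx
        exact y.2⟩ ⟨ε.1, (hs2 ε).2 hc⟩ ⟨1, fun x hx => by
        have := (hs2 x).1 hx 0
        rwa [h0] at this⟩
    have h3 : ∀ n : INat N, c ≤ irec (1 : Helper672.Plain.El r) (fun _ y => F y) n := fun n =>
      h2 fun x hx => (hs2 x).1 hx n
    have h4 : c + c ≤ c := h1 ((hs2 (c + c)).2 fun n => by
      have := h3 n.succ
      rw [hs] at this
      linarith)
    have h5 : ε ≤ c := h1 ((hs2 ε).2 hc)
    linarith

theorem int_d {x r : N} [Field (Helper672.Plain.El r)] [LinearOrder (Helper672.Plain.El r)]
    {d : Helper672.Plain.El x → Helper672.Plain.El x → Helper672.Plain.El r} (hd : IsMetric d) :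
    IntF N (fun q : Helper672.Plain.El x × Helper672.Plain.El x => d q.1 q.2) := by
  obtain ⟨g, hg⟩ := hd.graph
  exact ⟨g, fun q => ((hg q.1.1 q.1.2 q.2).trans plainN_opGraph).symm⟩

end

section

attribute [local instance] Helper672.Plain.toL

variable {N : Type u} [LSet.Structure N] [hZ : Helper672.Plain.Zermelo N]

local instance instModelKx : IsModel N := Helper672.Plain.isModel_toL

noncomputable local instance instPElKx (x : N) : ITy N (Helper672.Plain.El x) :=
  (inferInstance : ITy N (El x))

theorem exists_net {t x r : N} [Field (Helper672.Plain.El r)] [LinearOrder (Helper672.Plain.El r)]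
    [IsStrictOrderedRing (Helper672.Plain.El r)]
    {d : Helper672.Plain.El x → Helper672.Plain.El x → Helper672.Plain.El r} (hd : IsMetric d)
    (hdI : IntF N (fun q : Helper672.Plain.El x × Helper672.Plain.El x => d q.1 q.2))
    (hlt : Int N (fun q : Helper672.Plain.El r × Helper672.Plain.El r => q.1 < q.2))
    (ht : IsMetricTop d t) (hc : IsCompact t x) {ε : Helper672.Plain.El r} (hε : 0 < ε) :
    ∃ C : IPow N (IPow N (Helper672.Plain.El x)), IFin C ∧ (∀ U, U ∈ C → ∃ c, ∀ b, b ∈ U ↔ d c b < ε) ∧
      ∀ y : Helper672.Plain.El x, ∃ U, U ∈ C ∧ y ∈ U := by
  have hself : ∀ a, d a a = 0 := fun a => (hd.zero a a).2 rfl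
  have hb : Int N (fun q : Helper672.Plain.El x × Helper672.Plain.El x => d q.1 q.2 < ε) :=
    Int.comp₂ (p := fun a b => a < b) hlt hdI (IntF.const _)
  have hball : ∀ c, Int N (fun b : Helper672.Plain.El x => d c b < ε) := fun c =>
    Int.comp₂ (p := fun a b => d a b < ε) hb (IntF.const _) IntF.id
  have hI : Int N (fun U : IPow N (Helper672.Plain.El x) => ∃ c, ∀ b, b ∈ U ↔ d c b < ε) :=
    Int.ex (Int.all (Int.iff (Int.mem IntF.snd' (IntF.fst IntF.fst'))
      (Int.comp₂ (p := fun a b => d a b < ε) hb (IntF.snd IntF.fst') IntF.snd')))
  obtain ⟨c', h3, h4, h5⟩ := hc (code (M := N) (sep N fun U : IPow N (Helper672.Plain.El x) =>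
      ∃ c, ∀ b, b ∈ U ↔ d c b < ε)) (fun u hu => by
    obtain ⟨U, hU, rfl⟩ := mem_codeB.1 hu
    obtain ⟨c, h1⟩ := (mem_sep hI).1 hU
    refine (ht _).2 ⟨fun z hz => ?_, fun a ha => ?_⟩
    · obtain ⟨s, -, rfl⟩ := mem_codeB.1 hz
      exact s.2
    · have h2 : d c a < ε := (h1 a).1 (mem_codeB'.1 ha)
      refine ⟨ε - d c a, sub_pos.2 h2, fun b hb => mem_codeB'.2 ((h1 b).2 ?_)⟩
      have := hd.tri c a b
      linarith) (fun z hz => by
    refine ⟨code (M := N) (sep N fun b : Helper672.Plain.El x => d ⟨z, hz⟩ b < ε), mem_codeB'.2 ((mem_sep hI).2
      ⟨⟨z, hz⟩, fun b => mem_sep (hball _)⟩), mem_codeB.2 ⟨⟨z, hz⟩, (mem_sep (hball _)).2 ?_, rfl⟩⟩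
    rw [hself]
    exact hε)
  obtain ⟨C', rfl⟩ := exists_codeB (α := IPow N (Helper672.Plain.El x)) (u := c') fun z hz => by
    obtain ⟨U, -, h6⟩ := mem_codeB.1 (h4 z hz)
    exact ⟨U, h6⟩
  refine ⟨C', fin_of_isFinite h3, fun U hU => ?_, fun y => ?_⟩
  · exact (mem_sep hI).1 (mem_codeB'.1 (h4 _ (mem_codeB'.2 hU)))
  · obtain ⟨u, h6, h7⟩ := h5 y.1 y.2
    obtain ⟨U, h8, rfl⟩ := mem_codeB.1 h6
    exact ⟨U, h8, mem_codeB'.1 h7⟩

theorem mcs_of_tbw (h : TBW N) : MCS N := by
  rintro t x hc ⟨r, i1, i2, i3, hr, d, hd, ht⟩
  obtain ⟨q, hq, hpos, hhalf, hlim, hlt⟩ := exists_qh (hM := instModelKx) hr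
  have hdI := int_d (hM := instModelKx) hd
  have hself : ∀ a, d a a = 0 := fun a => (hd.zero a a).2 rfl
  have hE : Int N (fun p : (INat N × Helper672.Plain.El x) × Helper672.Plain.El x =>
      d p.1.2 p.2 < q p.1.1) :=
    Int.comp₂ (p := fun a b => a < b) hlt
      (IntF.comp₂ (p := fun a b => d a b) hdI (IntF.snd IntF.fst') IntF.snd')
      (hq.comp (IntF.fst IntF.fst'))
  obtain ⟨lt, hw⟩ := h x (fun n u v => d u v < q n) hE (fun n u v h1 => by
    rw [hd.symm]
    exact h1) (fun n u v y h1 h2 => by
    have h3 := hd.tri u v y
    have h4 := hhalf n
    linarith) (fun u v h1 => by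
    by_contra hne
    have h2 : d u v ≠ 0 := fun h3 => hne ((hd.zero u v).1 h3)
    have h3 := hd.tri u v u
    rw [hself, hd.symm v u] at h3
    have h4 : 0 < d u v := lt_of_le_of_ne (by linarith) (Ne.symm h2)
    obtain ⟨n, hn⟩ := hlim _ h4
    exact lt_asymm hn (h1 n)) (fun s hs n => by
    obtain ⟨C, hC, h1, h2⟩ := exists_net hd hdI hlt ht hc (hpos n.succ)
    have hI : Int N (fun p : IPow N (Helper672.Plain.El x) × INat N => s p.2 ∈ p.1) :=
      Int.mem (hs.comp IntF.snd') IntF.fst'
    obtain ⟨e, he, h3⟩ := exists_lf (iwoNn (N := N)) (γ := IPow N (Helper672.Plain.El x))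
      (r := fun U i => s i ∈ U) hI 0
    refine ⟨iimage e C, hC.image he, fun i => ?_⟩
    obtain ⟨U, hU, h4⟩ := h2 (s i)
    obtain ⟨c, h5⟩ := h1 U hU
    have h6 := (h5 _).1 (h3 U ⟨i, h4⟩).1
    have h7 := (h5 _).1 h4
    refine ⟨e U, (mem_iimage he).2 ⟨U, hU, rfl⟩, ?_⟩
    have h8 := hd.tri (s i) c (s (e U))
    have h9 := hhalf n
    rw [hd.symm (s i) c] at h8
    linarith)
  obtain ⟨D, hD, hD'⟩ := exists_dense hw (E := fun n u v => d u v < q n) hE (fun n => by
    rcases isEmpty_or_nonempty (Helper672.Plain.El x) with he | ⟨⟨x0⟩⟩
    · exact ⟨∅, IFin.empty, fun y => he.elim y⟩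
    · obtain ⟨C, hC, h1, h2⟩ := exists_net hd hdI hlt ht hc (hpos n)
      have hI : Int N (fun p : IPow N (Helper672.Plain.El x) × Helper672.Plain.El x =>
          ∀ b, b ∈ p.1 ↔ d p.2 b < q n) := by
        refine Int.all (Int.iff (Int.mem IntF.snd' (IntF.fst IntF.fst')) ?_)
        exact Int.comp₂ (p := fun a b => a < b) hlt
          (IntF.comp₂ (p := fun a b => d a b) hdI (IntF.snd IntF.fst') IntF.snd') (IntF.const _)
      obtain ⟨e, he, h3⟩ := exists_lf hw (γ := IPow N (Helper672.Plain.El x))
        (r := fun U c => ∀ b, b ∈ U ↔ d c b < q n) hI x0
      refine ⟨iimage e C, hC.image he, fun y => ?_⟩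
      obtain ⟨U, hU, h4⟩ := h2 y
      have h5 := (h3 U (h1 U hU)).1
      refine ⟨e U, (mem_iimage he).2 ⟨U, hU, rfl⟩, ?_⟩
      rw [hd.symm]
      exact (h5 y).1 h4)
  refine ⟨code D, isCtble_iff.2 hD, fun z hz => ?_, fun u hu => ?_⟩
  · obtain ⟨s, -, rfl⟩ := mem_codeB.1 hz
    exact s.2
  · rintro ⟨z, hz⟩
    obtain ⟨h1, h2⟩ := (ht u).1 hu
    obtain ⟨ε, hε, h3⟩ := h2 ⟨z, h1 z hz⟩ hz
    obtain ⟨n, hn⟩ := hlim ε hε
    obtain ⟨y, hy, h4⟩ := hD' n ⟨z, h1 z hz⟩
    exact ⟨y.1, h3 y (lt_trans h4 hn), mem_codeB'.2 hy⟩

end

end Pool.Agent.Helper672.ZFA.V246X
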