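import Pool.Agent.V11246.WO

/-!
# The forcing of finite regressive functions on a regular well-order
-/

set_option maxHeartbeats 1000000
set_option linter.all false
set_option synthInstance.maxSize 2000

namespace Pool.Agent.Helper672.ZFA.V246

open FirstOrder FirstOrder.Language
open H635 (IWO)
open Pool.Agent.H310

universe u

section

variable (N : Type u) [L.Structure N] [hN : IsModel N] (K : Type u) [ITy N K] [LinearOrder K]
  [ILE N K]

/-- `K` is like the first uncountable cardinal, and it is regular. -/
structure Om1 : Prop where
  wf : ∀ s : IPow N K, (∃ a, a ∈ s) → ∃ a, a ∈ s ∧ ∀ b, b ∈ s → ¬ b < a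
  ne : Nonempty K
  bdd : ∀ f : INat N → K, IntF N f → ∃ b, ∀ n, f n < b
  cnt : ∀ a : K, ∃ e : K → INat N, IntF N e ∧ ∀ x y, x < a → y < a → e x = e y → x = y

end

section

variable {N : Type u} [L.Structure N] [hN : IsModel N] {K : Type u} [ITy N K] [LinearOrder K]
  [ILE N K]

theorem Om1.iwo (h : Om1 N K) : IWO N K (fun a b => a < b) :=
  ⟨by (repeat' (first | with_reducible exact IntF.id | with_reducible exact IntF.fst' | with_reducible exact IntF.snd' | with_reducible exact IntF.const _ | with_reducible exact Int.const _ | assumption | with_reducible apply Int.and | with_reducible apply Int.or | with_reducible apply Int.not | with_reducible apply Int.imp | with_reducible apply Int.iff | with_reducible apply Int.ne | with_reducible apply Int.eq | with_reducible apply Int.mem | with_reducible apply Int.subset | with_reducible apply Int.ltN | with_reducible apply Int.leN | with_reducible_and_instances apply Int.le | with_reducible_and_instances apply Int.lt | with_reducible apply Int.all | with_reducible apply Int.ex | with_reducible apply IntF.fst | with_reducible apply IntF.snd | with_reducible apply IntF.app | with_reducible apply IntF.inl | with_reducible apply IntF.inr | with_reducible_and_instances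 apply IntF.mul | with_reducible_and_instances apply IntF.inv | with_reducible_and_instances apply IntF.add | with_reducible_and_instances apply IntF.sub | with_reducible_and_instances apply IntF.neg | with_reducible_and_instances apply IntF.smul | with_reducible apply Int.fin | with_reducible apply IntF.sep | with_reducible apply IntF.lam | with_reducible apply IntF.insert | with_reducible apply IntF.singleton | with_reducible apply IntF.union | with_reducible apply IntF.iimage | with_reducible apply IntF.ite | with_reducible apply IntF.the | with_reducible apply IntF.irec | with_reducible apply IntF.succ | with_reducible apply IntF.val | with_reducible apply IntF.mk | (with_reducible refine Int.comp ?_ ?_; assumption) | (with_reducible refine Int.comp₂ ?_ ?_ ?_; assumption) | (with_reducible refine Int.comp₃ ?_ ?_ ?_ ?_; assumption) | (with_reducible refine Int.comp₄ ?_ ?_ ?_ ?_ ?_; assumption) | (with_reducible refine IntF.comp ?_ ?_; assumption) | (with_reducible refine IntF.comp₂ ?_ ?_ ?_; assumption) | (with_reducible refine IntF.comp₃ ?_ ?_ ?_ ?_; assumption) | with_reducible apply IntF.pair)), fun a b => lt_trichotomy a b, h.wf⟩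

theorem Om1.nomax (h : Om1 N K) (a : K) : ∃ b, a < b := by
  obtain ⟨b, hb⟩ := h.bdd (fun _ => a) (IntF.const _)
  exact ⟨b, hb 0⟩

/-- The pigeonhole principle. -/
theorem Om1.pp (h : Om1 N K) {A : K → Prop} (hA : Int N A) (hu : ∀ a, ∃ b, a < b ∧ A b)
    {c : K → INat N} (hc : IntF N c) : ∃ n, ∀ a, ∃ b, a < b ∧ A b ∧ c b = n := by
  by_contra hcon
  push Not at hcon
  obtain ⟨a₀⟩ := h.ne
  obtain ⟨f, hf, h1⟩ := exists_lf h.iwo (γ := INat N)
    (r := fun n b => ∀ a, A a → c a = n → a ≤ b) (by (repeat' (first | with_reducible exact IntF.id | with_reducible exact IntF.fst' | with_reducible exact IntF.snd' | with_reducible exact IntF.const _ | with_reducible exact Int.const _ | assumption | with_reducible apply Int.and | with_reducible apply Int.or | with_reducible apply Int.not | with_reducible apply Int.imp | with_reducible apply Int.iff | with_reducible apply Int.ne | with_reducible apply Int.eq | with_reducible apply Int.mem | with_reducible apply Int.subset | with_reducible apply Int.ltN | with_reducible apply Int.leN | with_reducible_and_instances apply Int.le | with_reducible_and_instances apply Int.lt | with_reducible apply Int.all | with_reducible apply Int.ex | with_reducible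 apply IntF.fst | with_reducible apply IntF.snd | with_reducible apply IntF.app | with_reducible apply IntF.inl | with_reducible apply IntF.inr | with_reducible_and_instances apply IntF.mul | with_reducible_and_instances apply IntF.inv | with_reducible_and_instances apply IntF.add | with_reducible_and_instances apply IntF.sub | with_reducible_and_instances apply IntF.neg | with_reducible_and_instances apply IntF.smul | with_reducible apply Int.fin | with_reducible apply IntF.sep | with_reducible apply IntF.lam | with_reducible apply IntF.insert | with_reducible apply IntF.singleton | with_reducible apply IntF.union | with_reducible apply IntF.iimage | with_reducible apply IntF.ite | with_reducible apply IntF.the | with_reducible apply IntF.irec | with_reducible apply IntF.succ | with_reducible apply IntF.val | with_reducible apply IntF.mk | (with_reducible refine Int.comp ?_ ?_; assumption) | (with_reducible refine Int.comp₂ ?_ ?_ ?_; assumption) | (with_reducible refine Int.comp₃ ?_ ?_ ?_ ?_; assumption) | (with_reducible refine Int.comp₄ ?_ ?_ ?_ ?_ ?_; assumption) | (with_reducible refine IntF.comp ?_ ?_; assumption) | (with_reducible refine IntF.comp₂ ?_ ?_ ?_; assumption) | (with_reducible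 refine IntF.comp₃ ?_ ?_ ?_ ?_; assumption) | with_reducible apply IntF.pair))) a₀
  obtain ⟨b, hb⟩ := h.bdd f hf
  obtain ⟨a, h2, h3⟩ := hu b
  have h4 := (h1 (c a) (by
    obtain ⟨b', hb'⟩ := hcon (c a)
    refine ⟨b', fun a' ha' hca' => ?_⟩
    by_contra h5
    exact hb' a' (not_le.1 h5) ha' hca')).1
  exact absurd ((h4 a h3 rfl).trans_lt (hb (c a))) (not_lt.2 h2.le)

/-- Conditions: finite regressive functions. -/
def IsQ (p : IPow N (K × K)) : Prop :=
  IFin p ∧ (∀ a d d' : K, (a, d) ∈ p → (a, d') ∈ p → d = d') ∧ ∀ a d : K, (a, d) ∈ p → d < a

theorem int_isQ : Int N (IsQ (N := N) (K := K)) := by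
  unfold IsQ
  (repeat' (first | with_reducible exact IntF.id | with_reducible exact IntF.fst' | with_reducible exact IntF.snd' | with_reducible exact IntF.const _ | with_reducible exact Int.const _ | assumption | with_reducible apply Int.and | with_reducible apply Int.or | with_reducible apply Int.not | with_reducible apply Int.imp | with_reducible apply Int.iff | with_reducible apply Int.ne | with_reducible apply Int.eq | with_reducible apply Int.mem | with_reducible apply Int.subset | with_reducible apply Int.ltN | with_reducible apply Int.leN | with_reducible_and_instances apply Int.le | with_reducible_and_instances apply Int.lt | with_reducible apply Int.all | with_reducible apply Int.ex | with_reducible apply IntF.fst | with_reducible apply IntF.snd | with_reducible apply IntF.app | with_reducible apply IntF.inl | with_reducible apply IntF.inr | with_reducible_and_instances apply IntF.mul | with_reducible_and_instances apply IntF.inv | with_reducible_and_instances apply IntF.add | with_reducible_and_instances apply IntF.sub | with_reducible_and_instances apply IntF.neg | with_reducible_and_instances apply IntF.smul | with_reducible apply Int.fin | with_reducible apply IntF.sep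 | with_reducible apply IntF.lam | with_reducible apply IntF.insert | with_reducible apply IntF.singleton | with_reducible apply IntF.union | with_reducible apply IntF.iimage | with_reducible apply IntF.ite | with_reducible apply IntF.the | with_reducible apply IntF.irec | with_reducible apply IntF.succ | with_reducible apply IntF.val | with_reducible apply IntF.mk | (with_reducible refine Int.comp ?_ ?_; assumption) | (with_reducible refine Int.comp₂ ?_ ?_ ?_; assumption) | (with_reducible refine Int.comp₃ ?_ ?_ ?_ ?_; assumption) | (with_reducible refine Int.comp₄ ?_ ?_ ?_ ?_ ?_; assumption) | (with_reducible refine IntF.comp ?_ ?_; assumption) | (with_reducible refine IntF.comp₂ ?_ ?_ ?_; assumption) | (with_reducible refine IntF.comp₃ ?_ ?_ ?_ ?_; assumption) | with_reducible apply IntF.pair))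

instance factQ : Fact (Int N (IsQ (N := N) (K := K))) := ⟨int_isQ⟩

variable (N K) in
/-- The forcing. -/
abbrev QK : Type u := {p : IPow N (K × K) // IsQ p}

/-- The order of the forcing: `p ≤ q`. -/
def Qle (p q : QK N K) : Prop := ∀ c, c ∈ q.1 → c ∈ p.1

theorem int_Qle : Int N (fun q : QK N K × QK N K => Qle q.1 q.2) := by
  unfold Qle
  (repeat' (first | with_reducible exact IntF.id | with_reducible exact IntF.fst' | with_reducible exact IntF.snd' | with_reducible exact IntF.const _ | with_reducible exact Int.const _ | assumption | with_reducible apply Int.and | with_reducible apply Int.or | with_reducible apply Int.not | with_reducible apply Int.imp | with_reducible apply Int.iff | with_reducible apply Int.ne | with_reducible apply Int.eq | with_reducible apply Int.mem | with_reducible apply Int.subset | with_reducible apply Int.ltN | with_reducible apply Int.leN | with_reducible_and_instances apply Int.le | with_reducible_and_instances apply Int.lt | with_reducible apply Int.all | with_reducible apply Int.ex | with_reducible apply IntF.fst | with_reducible apply IntF.snd | with_reducible apply IntF.app | with_reducible apply IntF.inl | with_reducible apply IntF.inr | with_reducible_and_instances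 apply IntF.mul | with_reducible_and_instances apply IntF.inv | with_reducible_and_instances apply IntF.add | with_reducible_and_instances apply IntF.sub | with_reducible_and_instances apply IntF.neg | with_reducible_and_instances apply IntF.smul | with_reducible apply Int.fin | with_reducible apply IntF.sep | with_reducible apply IntF.lam | with_reducible apply IntF.insert | with_reducible apply IntF.singleton | with_reducible apply IntF.union | with_reducible apply IntF.iimage | with_reducible apply IntF.ite | with_reducible apply IntF.the | with_reducible apply IntF.irec | with_reducible apply IntF.succ | with_reducible apply IntF.val | with_reducible apply IntF.mk | (with_reducible refine Int.comp ?_ ?_; assumption) | (with_reducible refine Int.comp₂ ?_ ?_ ?_; assumption) | (with_reducible refine Int.comp₃ ?_ ?_ ?_ ?_; assumption) | (with_reducible refine Int.comp₄ ?_ ?_ ?_ ?_ ?_; assumption) | (with_reducible refine IntF.comp ?_ ?_; assumption) | (with_reducible refine IntF.comp₂ ?_ ?_ ?_; assumption) | (with_reducible refine IntF.comp₃ ?_ ?_ ?_ ?_; assumption) | with_reducible apply IntF.pair))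

/-- Compatibility. -/
def Qc (p q : QK N K) : Prop := ∃ r, Qle r p ∧ Qle r q

theorem Qc_iff {p q : QK N K} :
    Qc p q ↔ ∀ a d d', (a, d) ∈ p.1 → (a, d') ∈ q.1 → d = d' := by
  constructor
  · rintro ⟨r, h1, h2⟩ a d d' hd hd'
    exact r.2.2.1 a d d' (h1 _ hd) (h2 _ hd')
  · intro h
    have hc : IsQ (p.1 ∪ q.1) := by
      refine ⟨p.2.1.union q.2.1, ?_, ?_⟩
      · intro a d d' hd hd'
        rcases mem_union.1 hd with hd | hd <;> rcases mem_union.1 hd' with hd' | hd'
        · exact p.2.2.1 a d d' hd hd'
        · exact h a d d' hd hd'
        · exact (h a d' d hd' hd).symm
        · exact q.2.2.1 a d d' hd hd'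
      · intro a d hd
        rcases mem_union.1 hd with hd | hd
        · exact p.2.2.2 a d hd
        · exact q.2.2.2 a d hd
    exact ⟨⟨_, hc⟩, fun c hc => mem_union.2 (Or.inl hc), fun c hc => mem_union.2 (Or.inr hc)⟩

/-- `j` maps `s` injectively to the numbers below `n`. -/
def Jn (n : INat N) (s : IPow N (K × K)) (j : IFun N (K × K) (INat N)) : Prop :=
  (∀ x, x ∈ s → j x < n) ∧ ∀ x y, x ∈ s → y ∈ s → j x = j y → x = y

theorem int_Jn : Int N (fun q : (INat N × IPow N (K × K)) × IFun N (K × K) (INat N) =>
    Jn q.1.1 q.1.2 q.2) := by
  unfold Jn
  (repeat' (first | with_reducible exact IntF.id | with_reducible exact IntF.fst' | with_reducible exact IntF.snd' | with_reducible exact IntF.const _ | with_reducible exact Int.const _ | assumption | with_reducible apply Int.and | with_reducible apply Int.or | with_reducible apply Int.not | with_reducible apply Int.imp | with_reducible apply Int.iff | with_reducible apply Int.ne | with_reducible apply Int.eq | with_reducible apply Int.mem | with_reducible apply Int.subset | with_reducible apply Int.ltN | with_reducible apply Int.leN | with_reducible_and_instances apply Int.le | with_reducible_and_instances apply Int.lt | with_reducible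 apply Int.all | with_reducible apply Int.ex | with_reducible apply IntF.fst | with_reducible apply IntF.snd | with_reducible apply IntF.app | with_reducible apply IntF.inl | with_reducible apply IntF.inr | with_reducible_and_instances apply IntF.mul | with_reducible_and_instances apply IntF.inv | with_reducible_and_instances apply IntF.add | with_reducible_and_instances apply IntF.sub | with_reducible_and_instances apply IntF.neg | with_reducible_and_instances apply IntF.smul | with_reducible apply Int.fin | with_reducible apply IntF.sep | with_reducible apply IntF.lam | with_reducible apply IntF.insert | with_reducible apply IntF.singleton | with_reducible apply IntF.union | with_reducible apply IntF.iimage | with_reducible apply IntF.ite | with_reducible apply IntF.the | with_reducible apply IntF.irec | with_reducible apply IntF.succ | with_reducible apply IntF.val | with_reducible apply IntF.mk | (with_reducible refine Int.comp ?_ ?_; assumption) | (with_reducible refine Int.comp₂ ?_ ?_ ?_; assumption) | (with_reducible refine Int.comp₃ ?_ ?_ ?_ ?_; assumption) | (with_reducible refine Int.comp₄ ?_ ?_ ?_ ?_ ?_; assumption) | (with_reducible refine IntF.comp ?_ ?_; assumption) | (with_reducible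 refine IntF.comp₂ ?_ ?_ ?_; assumption) | (with_reducible refine IntF.comp₃ ?_ ?_ ?_ ?_; assumption) | with_reducible apply IntF.pair))

theorem exists_Jn {s : IPow N (K × K)} (hs : IFin s) : ∃ n j, Jn n s j := by
  obtain ⟨e, n, h1, h2, -⟩ := exists_BN hs
  exact ⟨n, e, h1, fun x y hx hy => h2 x y hx hy⟩

theorem Jn.remove {n : INat N} {s t : IPow N (K × K)} {j : IFun N (K × K) (INat N)}
    (h : Jn n.succ s j) {x₀ : K × K} (hx : x₀ ∈ s) (ht : ∀ x, x ∈ t → x ∈ s ∧ ¬ x = x₀) :
    ∃ j', Jn n t j' := by
  classical
  have hf : IntF N (fun x : K × K => if j x = n then j x₀ else j x) := by (repeat' (first | with_reducible exact IntF.id | with_reducible exact IntF.fst' | with_reducible exact IntF.snd' | with_reducible exact IntF.const _ | with_reducible exact Int.const _ | assumption | with_reducible apply Int.and | with_reducible apply Int.or | with_reducible apply Int.not | with_reducible apply Int.imp | with_reducible apply Int.iff | with_reducible apply Int.ne | with_reducible apply Int.eq | with_reducible apply Int.mem | with_reducible apply Int.subset | with_reducible apply Int.ltN | with_reducible apply Int.leN | with_reducible_and_instances apply Int.le | with_reducible_and_instances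 apply Int.lt | with_reducible apply Int.all | with_reducible apply Int.ex | with_reducible apply IntF.fst | with_reducible apply IntF.snd | with_reducible apply IntF.app | with_reducible apply IntF.inl | with_reducible apply IntF.inr | with_reducible_and_instances apply IntF.mul | with_reducible_and_instances apply IntF.inv | with_reducible_and_instances apply IntF.add | with_reducible_and_instances apply IntF.sub | with_reducible_and_instances apply IntF.neg | with_reducible_and_instances apply IntF.smul | with_reducible apply Int.fin | with_reducible apply IntF.sep | with_reducible apply IntF.lam | with_reducible apply IntF.insert | with_reducible apply IntF.singleton | with_reducible apply IntF.union | with_reducible apply IntF.iimage | with_reducible apply IntF.ite | with_reducible apply IntF.the | with_reducible apply IntF.irec | with_reducible apply IntF.succ | with_reducible apply IntF.val | with_reducible apply IntF.mk | (with_reducible refine Int.comp ?_ ?_; assumption) | (with_reducible refine Int.comp₂ ?_ ?_ ?_; assumption) | (with_reducible refine Int.comp₃ ?_ ?_ ?_ ?_; assumption) | (with_reducible refine Int.comp₄ ?_ ?_ ?_ ?_ ?_; assumption) | (with_reducible refine IntF.comp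 ?_ ?_; assumption) | (with_reducible refine IntF.comp₂ ?_ ?_ ?_; assumption) | (with_reducible refine IntF.comp₃ ?_ ?_ ?_ ?_; assumption) | with_reducible apply IntF.pair))
  refine ⟨⟨_, hf⟩, fun x hx' => ?_, fun x y hx' hy' hxy => ?_⟩
  · change (if j x = n then j x₀ else j x) < n
    obtain ⟨h1, h2⟩ := ht x hx'
    split_ifs with h3
    · refine lt_of_le_of_ne (INat.lt_succ_iff.1 (h.1 x₀ hx)) fun h4 => h2 ?_
      exact h.2 x x₀ h1 hx (h3.trans h4.symm)
    · exact lt_of_le_of_ne (INat.lt_succ_iff.1 (h.1 x h1)) h3
  · change (if j x = n then j x₀ else j x) = (if j y = n then j x₀ else j y) at hxy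
    obtain ⟨h1, h2⟩ := ht x hx'
    obtain ⟨h1', h2'⟩ := ht y hy'
    split_ifs at hxy with h3 h4 h4
    · exact h.2 x y h1 h1' (h3.trans h4.symm)
    · exact absurd (h.2 x₀ y hx h1' hxy).symm h2'
    · exact absurd (h.2 x x₀ h1 hx hxy) h2
    · exact h.2 x y h1 h1' hxy

/-- An unbounded family of pairwise incompatible conditions with at most `n` elements. -/
def Bad (n : INat N) : Prop :=
  ∃ (A : IPow N K) (f : IFun N K (QK N K)), (∀ a, ∃ b, a < b ∧ b ∈ A) ∧
    (∀ a, a ∈ A → ∃ j, Jn n (f a).1 j) ∧
    ∀ a b, a ∈ A → b ∈ A → a ≠ b → ¬ ∀ x d d', (x, d) ∈ (f a).1 → (x, d') ∈ (f b).1 → d = d'

theorem int_Bad : Int N (Bad (N := N) (K := K)) := by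
  have h := int_Jn (N := N) (K := K)
  unfold Bad
  (repeat' (first | with_reducible exact IntF.id | with_reducible exact IntF.fst' | with_reducible exact IntF.snd' | with_reducible exact IntF.const _ | with_reducible exact Int.const _ | assumption | with_reducible apply Int.and | with_reducible apply Int.or | with_reducible apply Int.not | with_reducible apply Int.imp | with_reducible apply Int.iff | with_reducible apply Int.ne | with_reducible apply Int.eq | with_reducible apply Int.mem | with_reducible apply Int.subset | with_reducible apply Int.ltN | with_reducible apply Int.leN | with_reducible_and_instances apply Int.le | with_reducible_and_instances apply Int.lt | with_reducible apply Int.all | with_reducible apply Int.ex | with_reducible apply IntF.fst | with_reducible apply IntF.snd | with_reducible apply IntF.app | with_reducible apply IntF.inl | with_reducible apply IntF.inr | with_reducible_and_instances apply IntF.mul | with_reducible_and_instances apply IntF.inv | with_reducible_and_instances apply IntF.add | with_reducible_and_instances apply IntF.sub | with_reducible_and_instances apply IntF.neg | with_reducible_and_instances apply IntF.smul | with_reducible apply Int.fin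 | with_reducible apply IntF.sep | with_reducible apply IntF.lam | with_reducible apply IntF.insert | with_reducible apply IntF.singleton | with_reducible apply IntF.union | with_reducible apply IntF.iimage | with_reducible apply IntF.ite | with_reducible apply IntF.the | with_reducible apply IntF.irec | with_reducible apply IntF.succ | with_reducible apply IntF.val | with_reducible apply IntF.mk | (with_reducible refine Int.comp ?_ ?_; assumption) | (with_reducible refine Int.comp₂ ?_ ?_ ?_; assumption) | (with_reducible refine Int.comp₃ ?_ ?_ ?_ ?_; assumption) | (with_reducible refine Int.comp₄ ?_ ?_ ?_ ?_ ?_; assumption) | (with_reducible refine IntF.comp ?_ ?_; assumption) | (with_reducible refine IntF.comp₂ ?_ ?_ ?_; assumption) | (with_reducible refine IntF.comp₃ ?_ ?_ ?_ ?_; assumption) | with_reducible apply IntF.pair))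

theorem Om1.not_bad (h : Om1 N K) (n : INat N) : ¬ Bad (K := K) n := by
  have hI := int_Bad (N := N) (K := K)
  refine INat.ind (p := fun n => ¬ Bad (K := K) n) (by (repeat' (first | with_reducible exact IntF.id | with_reducible exact IntF.fst' | with_reducible exact IntF.snd' | with_reducible exact IntF.const _ | with_reducible exact Int.const _ | assumption | with_reducible apply Int.and | with_reducible apply Int.or | with_reducible apply Int.not | with_reducible apply Int.imp | with_reducible apply Int.iff | with_reducible apply Int.ne | with_reducible apply Int.eq | with_reducible apply Int.mem | with_reducible apply Int.subset | with_reducible apply Int.ltN | with_reducible apply Int.leN | with_reducible_and_instances apply Int.le | with_reducible_and_instances apply Int.lt | with_reducible apply Int.all | with_reducible apply Int.ex | with_reducible apply IntF.fst | with_reducible apply IntF.snd | with_reducible apply IntF.app | with_reducible apply IntF.inl | with_reducible apply IntF.inr | with_reducible_and_instances apply IntF.mul | with_reducible_and_instances apply IntF.inv | with_reducible_and_instances apply IntF.add | with_reducible_and_instances apply IntF.sub | with_reducible_and_instances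 apply IntF.neg | with_reducible_and_instances apply IntF.smul | with_reducible apply Int.fin | with_reducible apply IntF.sep | with_reducible apply IntF.lam | with_reducible apply IntF.insert | with_reducible apply IntF.singleton | with_reducible apply IntF.union | with_reducible apply IntF.iimage | with_reducible apply IntF.ite | with_reducible apply IntF.the | with_reducible apply IntF.irec | with_reducible apply IntF.succ | with_reducible apply IntF.val | with_reducible apply IntF.mk | (with_reducible refine Int.comp ?_ ?_; assumption) | (with_reducible refine Int.comp₂ ?_ ?_ ?_; assumption) | (with_reducible refine Int.comp₃ ?_ ?_ ?_ ?_; assumption) | (with_reducible refine Int.comp₄ ?_ ?_ ?_ ?_ ?_; assumption) | (with_reducible refine IntF.comp ?_ ?_; assumption) | (with_reducible refine IntF.comp₂ ?_ ?_ ?_; assumption) | (with_reducible refine IntF.comp₃ ?_ ?_ ?_ ?_; assumption) | with_reducible apply IntF.pair))) ?_ ?_ n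
  · rintro ⟨A, f, h1, h2, h3⟩
    obtain ⟨a₀⟩ := h.ne
    obtain ⟨a, -, ha⟩ := h1 a₀
    obtain ⟨b, hab, hb⟩ := h1 a
    refine h3 a b ha hb hab.ne fun x d d' hd hd' => ?_
    obtain ⟨j, hj, -⟩ := h2 a ha
    exact absurd (hj _ hd) INat.not_lt_zero
  · rintro n ih ⟨A, f, h1, h2, h3⟩
    refine ih ?_
    obtain ⟨k₀⟩ := h.ne
    obtain ⟨a₀, -, ha₀⟩ := h1 k₀
    -- a bound for the domain of the first condition
    obtain ⟨m, hm⟩ := IFin.exists_bound (r := fun (c : K × K) (m : K) => c.1 < m) (by (repeat' (first | with_reducible exact IntF.id | with_reducible exact IntF.fst' | with_reducible exact IntF.snd' | with_reducible exact IntF.const _ | with_reducible exact Int.const _ | assumption | with_reducible apply Int.and | with_reducible apply Int.or | with_reducible apply Int.not | with_reducible apply Int.imp | with_reducible apply Int.iff | with_reducible apply Int.ne | with_reducible apply Int.eq | with_reducible apply Int.mem | with_reducible apply Int.subset | with_reducible apply Int.ltN | with_reducible apply Int.leN | with_reducible_and_instances apply Int.le | with_reducible_and_instances apply Int.lt | with_reducible apply Int.all | with_reducible apply Int.ex | with_reducible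 apply IntF.fst | with_reducible apply IntF.snd | with_reducible apply IntF.app | with_reducible apply IntF.inl | with_reducible apply IntF.inr | with_reducible_and_instances apply IntF.mul | with_reducible_and_instances apply IntF.inv | with_reducible_and_instances apply IntF.add | with_reducible_and_instances apply IntF.sub | with_reducible_and_instances apply IntF.neg | with_reducible_and_instances apply IntF.smul | with_reducible apply Int.fin | with_reducible apply IntF.sep | with_reducible apply IntF.lam | with_reducible apply IntF.insert | with_reducible apply IntF.singleton | with_reducible apply IntF.union | with_reducible apply IntF.iimage | with_reducible apply IntF.ite | with_reducible apply IntF.the | with_reducible apply IntF.irec | with_reducible apply IntF.succ | with_reducible apply IntF.val | with_reducible apply IntF.mk | (with_reducible refine Int.comp ?_ ?_; assumption) | (with_reducible refine Int.comp₂ ?_ ?_ ?_; assumption) | (with_reducible refine Int.comp₃ ?_ ?_ ?_ ?_; assumption) | (with_reducible refine Int.comp₄ ?_ ?_ ?_ ?_ ?_; assumption) | (with_reducible refine IntF.comp ?_ ?_; assumption) | (with_reducible refine IntF.comp₂ ?_ ?_ ?_; assumption) | (with_reducible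 refine IntF.comp₃ ?_ ?_ ?_ ?_; assumption) | with_reducible apply IntF.pair)))
      (fun b c => ⟨max b c, fun a ha => ha.elim (fun h => h.trans_le (le_max_left _ _))
        fun h => h.trans_le (le_max_right _ _)⟩) ⟨k₀⟩ (f a₀).2.1 fun c _ => h.nomax c.1
    -- the first coordinate of a conflict
    obtain ⟨φ, hφ, h4⟩ := exists_lf h.iwo (γ := K) (r := fun a x => ∃ d d', (x, d) ∈ (f a).1 ∧
      (x, d') ∈ (f a₀).1 ∧ ¬ d = d') (by (repeat' (first | with_reducible exact IntF.id | with_reducible exact IntF.fst' | with_reducible exact IntF.snd' | with_reducible exact IntF.const _ | with_reducible exact Int.const _ | assumption | with_reducible apply Int.and | with_reducible apply Int.or | with_reducible apply Int.not | with_reducible apply Int.imp | with_reducible apply Int.iff | with_reducible apply Int.ne | with_reducible apply Int.eq | with_reducible apply Int.mem | with_reducible apply Int.subset | with_reducible apply Int.ltN | with_reducible apply Int.leN | with_reducible_and_instances apply Int.le | with_reducible_and_instances apply Int.lt | with_reducible apply Int.all | with_reducible apply Int.ex | with_reducible apply IntF.fst | with_reducible apply IntF.snd | with_reducible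 apply IntF.app | with_reducible apply IntF.inl | with_reducible apply IntF.inr | with_reducible_and_instances apply IntF.mul | with_reducible_and_instances apply IntF.inv | with_reducible_and_instances apply IntF.add | with_reducible_and_instances apply IntF.sub | with_reducible_and_instances apply IntF.neg | with_reducible_and_instances apply IntF.smul | with_reducible apply Int.fin | with_reducible apply IntF.sep | with_reducible apply IntF.lam | with_reducible apply IntF.insert | with_reducible apply IntF.singleton | with_reducible apply IntF.union | with_reducible apply IntF.iimage | with_reducible apply IntF.ite | with_reducible apply IntF.the | with_reducible apply IntF.irec | with_reducible apply IntF.succ | with_reducible apply IntF.val | with_reducible apply IntF.mk | (with_reducible refine Int.comp ?_ ?_; assumption) | (with_reducible refine Int.comp₂ ?_ ?_ ?_; assumption) | (with_reducible refine Int.comp₃ ?_ ?_ ?_ ?_; assumption) | (with_reducible refine Int.comp₄ ?_ ?_ ?_ ?_ ?_; assumption) | (with_reducible refine IntF.comp ?_ ?_; assumption) | (with_reducible refine IntF.comp₂ ?_ ?_ ?_; assumption) | (with_reducible refine IntF.comp₃ ?_ ?_ ?_ ?_; assumption) | with_reducible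 apply IntF.pair))) k₀
    have h5 : ∀ a, a ∈ A → a ≠ a₀ → ∃ d d', (φ a, d) ∈ (f a).1 ∧ (φ a, d') ∈ (f a₀).1 ∧
        ¬ d = d' := by
      intro a ha hne
      refine (h4 a ?_).1
      by_contra hc
      push Not at hc
      exact h3 a a₀ ha ha₀ hne fun x d d' hd hd' => by
        by_contra h6
        exact h6 (hc x d d' hd hd')
    obtain ⟨e, he, he'⟩ := h.cnt m
    obtain ⟨n₁, h6⟩ := h.pp (A := fun a => a ∈ A ∧ a₀ < a) (by (repeat' (first | with_reducible exact IntF.id | with_reducible exact IntF.fst' | with_reducible exact IntF.snd' | with_reducible exact IntF.const _ | with_reducible exact Int.const _ | assumption | with_reducible apply Int.and | with_reducible apply Int.or | with_reducible apply Int.not | with_reducible apply Int.imp | with_reducible apply Int.iff | with_reducible apply Int.ne | with_reducible apply Int.eq | with_reducible apply Int.mem | with_reducible apply Int.subset | with_reducible apply Int.ltN | with_reducible apply Int.leN | with_reducible_and_instances apply Int.le | with_reducible_and_instances apply Int.lt | with_reducible apply Int.all | with_reducible apply Int.ex | with_reducible apply IntF.fst | with_reducible apply IntF.snd | with_reducible apply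 IntF.app | with_reducible apply IntF.inl | with_reducible apply IntF.inr | with_reducible_and_instances apply IntF.mul | with_reducible_and_instances apply IntF.inv | with_reducible_and_instances apply IntF.add | with_reducible_and_instances apply IntF.sub | with_reducible_and_instances apply IntF.neg | with_reducible_and_instances apply IntF.smul | with_reducible apply Int.fin | with_reducible apply IntF.sep | with_reducible apply IntF.lam | with_reducible apply IntF.insert | with_reducible apply IntF.singleton | with_reducible apply IntF.union | with_reducible apply IntF.iimage | with_reducible apply IntF.ite | with_reducible apply IntF.the | with_reducible apply IntF.irec | with_reducible apply IntF.succ | with_reducible apply IntF.val | with_reducible apply IntF.mk | (with_reducible refine Int.comp ?_ ?_; assumption) | (with_reducible refine Int.comp₂ ?_ ?_ ?_; assumption) | (with_reducible refine Int.comp₃ ?_ ?_ ?_ ?_; assumption) | (with_reducible refine Int.comp₄ ?_ ?_ ?_ ?_ ?_; assumption) | (with_reducible refine IntF.comp ?_ ?_; assumption) | (with_reducible refine IntF.comp₂ ?_ ?_ ?_; assumption) | (with_reducible refine IntF.comp₃ ?_ ?_ ?_ ?_; assumption) | with_reducible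 apply IntF.pair))) (fun a => by
      obtain ⟨b, h7, h8⟩ := h1 (max a a₀)
      exact ⟨b, lt_of_le_of_lt (le_max_left _ _) h7, h8,
        lt_of_le_of_lt (le_max_right _ _) h7⟩) (c := fun a => e (φ a)) (he.comp hφ)
    -- the value at the conflict
    obtain ⟨a₁, -, ⟨ha₁, ha₁'⟩, h7⟩ := h6 k₀
    have hx : ∀ b, b ∈ A → a₀ < b → e (φ b) = n₁ → φ b = φ a₁ := by
      intro b hb hb' hbe
      obtain ⟨d, d', -, h9, -⟩ := h5 b hb hb'.ne'
      obtain ⟨d₁, d₁', -, h9', -⟩ := h5 a₁ ha₁ ha₁'.ne'
      exact he' _ _ (hm _ h9) (hm _ h9') (hbe.trans h7.symm)
    set x := φ a₁ with hxd
    obtain ⟨ψ, hψ, h8⟩ := exists_lf h.iwo (γ := K) (r := fun a d => (x, d) ∈ (f a).1)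
      (by (repeat' (first | with_reducible exact IntF.id | with_reducible exact IntF.fst' | with_reducible exact IntF.snd' | with_reducible exact IntF.const _ | with_reducible exact Int.const _ | assumption | with_reducible apply Int.and | with_reducible apply Int.or | with_reducible apply Int.not | with_reducible apply Int.imp | with_reducible apply Int.iff | with_reducible apply Int.ne | with_reducible apply Int.eq | with_reducible apply Int.mem | with_reducible apply Int.subset | with_reducible apply Int.ltN | with_reducible apply Int.leN | with_reducible_and_instances apply Int.le | with_reducible_and_instances apply Int.lt | with_reducible apply Int.all | with_reducible apply Int.ex | with_reducible apply IntF.fst | with_reducible apply IntF.snd | with_reducible apply IntF.app | with_reducible apply IntF.inl | with_reducible apply IntF.inr | with_reducible_and_instances apply IntF.mul | with_reducible_and_instances apply IntF.inv | with_reducible_and_instances apply IntF.add | with_reducible_and_instances apply IntF.sub | with_reducible_and_instances apply IntF.neg | with_reducible_and_instances apply IntF.smul | with_reducible apply Int.fin | with_reducible apply IntF.sep | with_reducible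 apply IntF.lam | with_reducible apply IntF.insert | with_reducible apply IntF.singleton | with_reducible apply IntF.union | with_reducible apply IntF.iimage | with_reducible apply IntF.ite | with_reducible apply IntF.the | with_reducible apply IntF.irec | with_reducible apply IntF.succ | with_reducible apply IntF.val | with_reducible apply IntF.mk | (with_reducible refine Int.comp ?_ ?_; assumption) | (with_reducible refine Int.comp₂ ?_ ?_ ?_; assumption) | (with_reducible refine Int.comp₃ ?_ ?_ ?_ ?_; assumption) | (with_reducible refine Int.comp₄ ?_ ?_ ?_ ?_ ?_; assumption) | (with_reducible refine IntF.comp ?_ ?_; assumption) | (with_reducible refine IntF.comp₂ ?_ ?_ ?_; assumption) | (with_reducible refine IntF.comp₃ ?_ ?_ ?_ ?_; assumption) | with_reducible apply IntF.pair))) k₀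
    obtain ⟨e', he₁, he₁'⟩ := h.cnt x
    obtain ⟨n₂, h9⟩ := h.pp (A := fun a => (a ∈ A ∧ a₀ < a) ∧ e (φ a) = n₁) (by (repeat' (first | with_reducible exact IntF.id | with_reducible exact IntF.fst' | with_reducible exact IntF.snd' | with_reducible exact IntF.const _ | with_reducible exact Int.const _ | assumption | with_reducible apply Int.and | with_reducible apply Int.or | with_reducible apply Int.not | with_reducible apply Int.imp | with_reducible apply Int.iff | with_reducible apply Int.ne | with_reducible apply Int.eq | with_reducible apply Int.mem | with_reducible apply Int.subset | with_reducible apply Int.ltN | with_reducible apply Int.leN | with_reducible_and_instances apply Int.le | with_reducible_and_instances apply Int.lt | with_reducible apply Int.all | with_reducible apply Int.ex | with_reducible apply IntF.fst | with_reducible apply IntF.snd | with_reducible apply IntF.app | with_reducible apply IntF.inl | with_reducible apply IntF.inr | with_reducible_and_instances apply IntF.mul | with_reducible_and_instances apply IntF.inv | with_reducible_and_instances apply IntF.add | with_reducible_and_instances apply IntF.sub | with_reducible_and_instances apply IntF.neg | with_reducible_and_instances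 apply IntF.smul | with_reducible apply Int.fin | with_reducible apply IntF.sep | with_reducible apply IntF.lam | with_reducible apply IntF.insert | with_reducible apply IntF.singleton | with_reducible apply IntF.union | with_reducible apply IntF.iimage | with_reducible apply IntF.ite | with_reducible apply IntF.the | with_reducible apply IntF.irec | with_reducible apply IntF.succ | with_reducible apply IntF.val | with_reducible apply IntF.mk | (with_reducible refine Int.comp ?_ ?_; assumption) | (with_reducible refine Int.comp₂ ?_ ?_ ?_; assumption) | (with_reducible refine Int.comp₃ ?_ ?_ ?_ ?_; assumption) | (with_reducible refine Int.comp₄ ?_ ?_ ?_ ?_ ?_; assumption) | (with_reducible refine IntF.comp ?_ ?_; assumption) | (with_reducible refine IntF.comp₂ ?_ ?_ ?_; assumption) | (with_reducible refine IntF.comp₃ ?_ ?_ ?_ ?_; assumption) | with_reducible apply IntF.pair)))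
      (fun a => by
        obtain ⟨b, h10, h11, h12⟩ := h6 a
        exact ⟨b, h10, h11, h12⟩) (c := fun a => e' (ψ a)) (he₁.comp hψ)
    obtain ⟨a₂, -, ⟨⟨ha₂, ha₂'⟩, h10⟩, h11⟩ := h9 k₀
    have hmem : ∀ b, b ∈ A → a₀ < b → e (φ b) = n₁ → (x, ψ b) ∈ (f b).1 := by
      intro b hb hb' hbe
      obtain ⟨d, d', h12, -, -⟩ := h5 b hb hb'.ne'
      rw [hx b hb hb' hbe] at h12
      exact (h8 b ⟨d, h12⟩).1
    have hy : ∀ b, b ∈ A → a₀ < b → e (φ b) = n₁ → e' (ψ b) = n₂ → ψ b = ψ a₂ := by
      intro b hb hb' hbe hbe'
      exact he₁' _ _ ((f b).2.2.2 _ _ (hmem b hb hb' hbe))
        ((f a₂).2.2.2 _ _ (hmem a₂ ha₂ ha₂' h10)) (hbe'.trans h11.symm)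
    set y := ψ a₂ with hyd
    -- the new family
    have hg : ∀ a, IsQ (sep N fun c : K × K => c ∈ (f a).1 ∧ ¬ c = (x, y)) := by
      intro a
      have hI : Int N (fun c : K × K => c ∈ (f a).1 ∧ ¬ c = (x, y)) := by (repeat' (first | with_reducible exact IntF.id | with_reducible exact IntF.fst' | with_reducible exact IntF.snd' | with_reducible exact IntF.const _ | with_reducible exact Int.const _ | assumption | with_reducible apply Int.and | with_reducible apply Int.or | with_reducible apply Int.not | with_reducible apply Int.imp | with_reducible apply Int.iff | with_reducible apply Int.ne | with_reducible apply Int.eq | with_reducible apply Int.mem | with_reducible apply Int.subset | with_reducible apply Int.ltN | with_reducible apply Int.leN | with_reducible_and_instances apply Int.le | with_reducible_and_instances apply Int.lt | with_reducible apply Int.all | with_reducible apply Int.ex | with_reducible apply IntF.fst | with_reducible apply IntF.snd | with_reducible apply IntF.app | with_reducible apply IntF.inl | with_reducible apply IntF.inr | with_reducible_and_instances apply IntF.mul | with_reducible_and_instances apply IntF.inv | with_reducible_and_instances apply IntF.add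 | with_reducible_and_instances apply IntF.sub | with_reducible_and_instances apply IntF.neg | with_reducible_and_instances apply IntF.smul | with_reducible apply Int.fin | with_reducible apply IntF.sep | with_reducible apply IntF.lam | with_reducible apply IntF.insert | with_reducible apply IntF.singleton | with_reducible apply IntF.union | with_reducible apply IntF.iimage | with_reducible apply IntF.ite | with_reducible apply IntF.the | with_reducible apply IntF.irec | with_reducible apply IntF.succ | with_reducible apply IntF.val | with_reducible apply IntF.mk | (with_reducible refine Int.comp ?_ ?_; assumption) | (with_reducible refine Int.comp₂ ?_ ?_ ?_; assumption) | (with_reducible refine Int.comp₃ ?_ ?_ ?_ ?_; assumption) | (with_reducible refine Int.comp₄ ?_ ?_ ?_ ?_ ?_; assumption) | (with_reducible refine IntF.comp ?_ ?_; assumption) | (with_reducible refine IntF.comp₂ ?_ ?_ ?_; assumption) | (with_reducible refine IntF.comp₃ ?_ ?_ ?_ ?_; assumption) | with_reducible apply IntF.pair))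
      refine ⟨(f a).2.1.subset fun c hc => ((mem_sep hI).1 hc).1, ?_, ?_⟩
      · intro a' d d' hd hd'
        exact (f a).2.2.1 _ _ _ ((mem_sep hI).1 hd).1 ((mem_sep hI).1 hd').1
      · intro a' d hd
        exact (f a).2.2.2 _ _ ((mem_sep hI).1 hd).1
    have hgI : IntF N (fun a : K => (⟨sep N fun c : K × K => c ∈ (f a).1 ∧ ¬ c = (x, y), hg a⟩ :
        QK N K)) := by
      refine IntF.mk ?_
      have : IntF N (fun a : K => sep N fun c : K × K => c ∈ (f a).1 ∧ ¬ c = (x, y)) := by (repeat' (first | with_reducible exact IntF.id | with_reducible exact IntF.fst' | with_reducible exact IntF.snd' | with_reducible exact IntF.const _ | with_reducible exact Int.const _ | assumption | with_reducible apply Int.and | with_reducible apply Int.or | with_reducible apply Int.not | with_reducible apply Int.imp | with_reducible apply Int.iff | with_reducible apply Int.ne | with_reducible apply Int.eq | with_reducible apply Int.mem | with_reducible apply Int.subset | with_reducible apply Int.ltN | with_reducible apply Int.leN | with_reducible_and_instances apply Int.le | with_reducible_and_instances apply Int.lt | with_reducible apply Int.all | with_reducible apply Int.ex | with_reducible apply IntF.fst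 | with_reducible apply IntF.snd | with_reducible apply IntF.app | with_reducible apply IntF.inl | with_reducible apply IntF.inr | with_reducible_and_instances apply IntF.mul | with_reducible_and_instances apply IntF.inv | with_reducible_and_instances apply IntF.add | with_reducible_and_instances apply IntF.sub | with_reducible_and_instances apply IntF.neg | with_reducible_and_instances apply IntF.smul | with_reducible apply Int.fin | with_reducible apply IntF.sep | with_reducible apply IntF.lam | with_reducible apply IntF.insert | with_reducible apply IntF.singleton | with_reducible apply IntF.union | with_reducible apply IntF.iimage | with_reducible apply IntF.ite | with_reducible apply IntF.the | with_reducible apply IntF.irec | with_reducible apply IntF.succ | with_reducible apply IntF.val | with_reducible apply IntF.mk | (with_reducible refine Int.comp ?_ ?_; assumption) | (with_reducible refine Int.comp₂ ?_ ?_ ?_; assumption) | (with_reducible refine Int.comp₃ ?_ ?_ ?_ ?_; assumption) | (with_reducible refine Int.comp₄ ?_ ?_ ?_ ?_ ?_; assumption) | (with_reducible refine IntF.comp ?_ ?_; assumption) | (with_reducible refine IntF.comp₂ ?_ ?_ ?_; assumption) | (with_reducible refine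 IntF.comp₃ ?_ ?_ ?_ ?_; assumption) | with_reducible apply IntF.pair))
      exact this
    have hgm : ∀ a c, c ∈ ((⟨sep N fun c : K × K => c ∈ (f a).1 ∧ ¬ c = (x, y), hg a⟩ :
        QK N K)).1 ↔ (c ∈ (f a).1 ∧ ¬ c = (x, y)) := fun a c => mem_sep (by (repeat' (first | with_reducible exact IntF.id | with_reducible exact IntF.fst' | with_reducible exact IntF.snd' | with_reducible exact IntF.const _ | with_reducible exact Int.const _ | assumption | with_reducible apply Int.and | with_reducible apply Int.or | with_reducible apply Int.not | with_reducible apply Int.imp | with_reducible apply Int.iff | with_reducible apply Int.ne | with_reducible apply Int.eq | with_reducible apply Int.mem | with_reducible apply Int.subset | with_reducible apply Int.ltN | with_reducible apply Int.leN | with_reducible_and_instances apply Int.le | with_reducible_and_instances apply Int.lt | with_reducible apply Int.all | with_reducible apply Int.ex | with_reducible apply IntF.fst | with_reducible apply IntF.snd | with_reducible apply IntF.app | with_reducible apply IntF.inl | with_reducible apply IntF.inr | with_reducible_and_instances apply IntF.mul | with_reducible_and_instances apply IntF.inv | with_reducible_and_instances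 apply IntF.add | with_reducible_and_instances apply IntF.sub | with_reducible_and_instances apply IntF.neg | with_reducible_and_instances apply IntF.smul | with_reducible apply Int.fin | with_reducible apply IntF.sep | with_reducible apply IntF.lam | with_reducible apply IntF.insert | with_reducible apply IntF.singleton | with_reducible apply IntF.union | with_reducible apply IntF.iimage | with_reducible apply IntF.ite | with_reducible apply IntF.the | with_reducible apply IntF.irec | with_reducible apply IntF.succ | with_reducible apply IntF.val | with_reducible apply IntF.mk | (with_reducible refine Int.comp ?_ ?_; assumption) | (with_reducible refine Int.comp₂ ?_ ?_ ?_; assumption) | (with_reducible refine Int.comp₃ ?_ ?_ ?_ ?_; assumption) | (with_reducible refine Int.comp₄ ?_ ?_ ?_ ?_ ?_; assumption) | (with_reducible refine IntF.comp ?_ ?_; assumption) | (with_reducible refine IntF.comp₂ ?_ ?_ ?_; assumption) | (with_reducible refine IntF.comp₃ ?_ ?_ ?_ ?_; assumption) | with_reducible apply IntF.pair)))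
    have hA : Int N (fun a => ((a ∈ A ∧ a₀ < a) ∧ e (φ a) = n₁) ∧ e' (ψ a) = n₂) := by (repeat' (first | with_reducible exact IntF.id | with_reducible exact IntF.fst' | with_reducible exact IntF.snd' | with_reducible exact IntF.const _ | with_reducible exact Int.const _ | assumption | with_reducible apply Int.and | with_reducible apply Int.or | with_reducible apply Int.not | with_reducible apply Int.imp | with_reducible apply Int.iff | with_reducible apply Int.ne | with_reducible apply Int.eq | with_reducible apply Int.mem | with_reducible apply Int.subset | with_reducible apply Int.ltN | with_reducible apply Int.leN | with_reducible_and_instances apply Int.le | with_reducible_and_instances apply Int.lt | with_reducible apply Int.all | with_reducible apply Int.ex | with_reducible apply IntF.fst | with_reducible apply IntF.snd | with_reducible apply IntF.app | with_reducible apply IntF.inl | with_reducible apply IntF.inr | with_reducible_and_instances apply IntF.mul | with_reducible_and_instances apply IntF.inv | with_reducible_and_instances apply IntF.add | with_reducible_and_instances apply IntF.sub | with_reducible_and_instances apply IntF.neg | with_reducible_and_instances apply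 IntF.smul | with_reducible apply Int.fin | with_reducible apply IntF.sep | with_reducible apply IntF.lam | with_reducible apply IntF.insert | with_reducible apply IntF.singleton | with_reducible apply IntF.union | with_reducible apply IntF.iimage | with_reducible apply IntF.ite | with_reducible apply IntF.the | with_reducible apply IntF.irec | with_reducible apply IntF.succ | with_reducible apply IntF.val | with_reducible apply IntF.mk | (with_reducible refine Int.comp ?_ ?_; assumption) | (with_reducible refine Int.comp₂ ?_ ?_ ?_; assumption) | (with_reducible refine Int.comp₃ ?_ ?_ ?_ ?_; assumption) | (with_reducible refine Int.comp₄ ?_ ?_ ?_ ?_ ?_; assumption) | (with_reducible refine IntF.comp ?_ ?_; assumption) | (with_reducible refine IntF.comp₂ ?_ ?_ ?_; assumption) | (with_reducible refine IntF.comp₃ ?_ ?_ ?_ ?_; assumption) | with_reducible apply IntF.pair))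
    refine ⟨sep N fun a => ((a ∈ A ∧ a₀ < a) ∧ e (φ a) = n₁) ∧ e' (ψ a) = n₂, ⟨_, hgI⟩,
      fun a => ?_, fun a ha => ?_, fun a b ha hb hab hcon => ?_⟩
    · obtain ⟨b, h12, h13, h14⟩ := h9 a
      exact ⟨b, h12, (mem_sep hA).2 ⟨h13, h14⟩⟩
    · obtain ⟨⟨⟨h12, h13⟩, h14⟩, h15⟩ := (mem_sep hA).1 ha
      obtain ⟨j, hj⟩ := h2 a h12
      have h16 := hmem a h12 h13 h14
      rw [hy a h12 h13 h14 h15] at h16
      exact hj.remove h16 fun c hc => (hgm a c).1 hc
    · obtain ⟨⟨⟨h12, h13⟩, h14⟩, h15⟩ := (mem_sep hA).1 ha
      obtain ⟨⟨⟨h12', h13'⟩, h14'⟩, h15'⟩ := (mem_sep hA).1 hb
      have h16 := hmem a h12 h13 h14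
      rw [hy a h12 h13 h14 h15] at h16
      have h16' := hmem b h12' h13' h14'
      rw [hy b h12' h13' h14' h15'] at h16'
      refine h3 a b h12 h12' hab fun z d d' hd hd' => ?_
      by_cases hz : z = x
      · subst hz
        rw [(f a).2.2.1 _ _ _ hd h16, (f b).2.2.1 _ _ _ hd' h16']
      · refine hcon z d d' ((hgm a _).2 ⟨hd, fun h17 => hz (Prod.mk.inj h17).1⟩)
          ((hgm b _).2 ⟨hd', fun h17 => hz (Prod.mk.inj h17).1⟩)

/-- There is no family of pairwise incompatible conditions indexed by `K`. -/
theorem Om1.cc (h : Om1 N K) {f : K → QK N K} (hf : IntF N f)
    (hi : ∀ a b, a ≠ b → ¬ Qc (f a) (f b)) : False := by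
  have hJ := int_Jn (N := N) (K := K)
  obtain ⟨c, hc, h1⟩ := exists_lf (iwoNn (N := N)) (γ := K)
    (r := fun a n => ∃ j, Jn n (f a).1 j) (by
      refine Int.ex (Int.comp₃ (p := fun n s j => Jn n s j) hJ ?_ ?_ ?_)
      · exact IntF.snd IntF.fst'
      · exact IntF.val (hf.comp (IntF.fst IntF.fst'))
      · exact IntF.snd') 0
  obtain ⟨n, h2⟩ := h.pp (A := fun _ => True) (Int.const _) (fun a => by
    obtain ⟨b, hb⟩ := h.nomax a
    exact ⟨b, hb, trivial⟩) hc
  have hI : Int N (fun a => c a = n) := Int.eq hc (IntF.const _)
  refine h.not_bad n ⟨sep N fun a => c a = n, ⟨f, hf⟩, fun a => ?_, fun a ha => ?_,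
    fun a b ha hb hab hcon => ?_⟩
  · obtain ⟨b, h3, -, h4⟩ := h2 a
    exact ⟨b, h3, (mem_sep hI).2 h4⟩
  · have h3 := (h1 a (exists_Jn (f a).2.1)).1
    rw [(mem_sep hI).1 ha] at h3
    exact h3
  · exact hi a b hab (Qc_iff.2 hcon)

end

end Pool.Agent.Helper672.ZFA.V246
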