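import Pool.Agent.V11246.Asm
import Pool.Agent.V11246.Inac

/-!
# Ordinals in a model of ZF
-/

set_option maxHeartbeats 1000000
set_option linter.all false
set_option synthInstance.maxSize 2000

namespace Pool.Agent.Helper672.ZFA.V246

open FirstOrder FirstOrder.Language
open H635 (IWO)
open Pool.Agent.H310
open Pool.Agent.H310Cards
open Pool.Agent.V11246 (IsOrdinal)
open Pool.Agent.Helper672.Plain (LSet)
open Pool.Agent.H635Amen (ZF)

universe u

section

attribute [local instance] Helper672.Plain.toL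

variable {N : Type u} [LSet.Structure N] [hZ : ZF N]

local instance instModelL3 : IsModel N := Helper672.Plain.isModel_toL

theorem D_isOrdinal {ι : Type} {f : (ι → N) → N} (hf : DF f) :
    D (fun v : ι → N => IsOrdinal (f v)) := by
  have h : D (fun v : ι → N => (∀ x, Mem x (f v) → ∀ y, Mem y x → Mem y (f v)) ∧
    ∀ x, Mem x (f v) → ∀ y, Mem y x → ∀ z, Mem z y → Mem z x) := by
    refine D.and (D.all (D.imp ?_ (D.all (D.imp ?_ ?_)))) (D.all (D.imp ?_ (D.all
      (D.imp ?_ (D.all (D.imp ?_ ?_))))))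
    · exact D.memf (DF.var _) (hf.reindex _)
    · exact D.memf (DF.var _) (DF.var _)
    · exact D.memf (DF.var _) ((hf.reindex _).reindex _)
    · exact D.memf (DF.var _) (hf.reindex _)
    · exact D.memf (DF.var _) (DF.var _)
    · exact D.memf (DF.var _) (DF.var _)
    · exact D.memf (DF.var _) (DF.var _)
  exact h

/-- Definable classes of ordinals have minimal elements. -/
theorem ord_min {S : Set N} (hS : D (fun v : Fin 1 → N => v 0 ∈ S)) {a : N} (ha : IsOrdinal a)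
    (haS : a ∈ S) : ∃ m, m ∈ S ∧ IsOrdinal m ∧ ∀ z, Mem z m → z ∉ S := by
  by_cases h : ∃ x, Mem x a ∧ x ∈ S
  · obtain ⟨x, hx, hxS⟩ := h
    have hs := small_sep (M := N) hS a
    obtain ⟨y, h1, h2⟩ := hZ.foundation hs.elt ⟨x, hs.mem.2 ⟨hx, hxS⟩⟩
    have h3 := hs.mem.1 h1
    exact ⟨y, h3.2, isOrdinal_of_mem ha h3.1, fun z hz hzS =>
      h2 z (hs.mem.2 ⟨ha.1 y h3.1 z hz, hzS⟩) hz⟩
  · push Not at h
    exact ⟨a, haS, ha, fun z hz => h z hz⟩

/-- Ordinals are comparable. -/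
theorem ord_tri {a b : N} (ha : IsOrdinal a) (hb : IsOrdinal b) :
    Mem a b ∨ a = b ∨ Mem b a := by
  by_contra hcon
  have hS : D (fun v : Fin 1 → N => v 0 ∈ {x : N | ∃ y, IsOrdinal y ∧
      ¬ (Mem x y ∨ x = y ∨ Mem y x)}) := by
    refine D.ex (D.and (D_isOrdinal (DF.var _)) (D.not (D.or ?_ (D.or ?_ ?_))))
    · exact D.memf (DF.var _) (DF.var _)
    · exact D.eqf (DF.var _) (DF.var _)
    · exact D.memf (DF.var _) (DF.var _)
  obtain ⟨m, ⟨y, hy, h1⟩, hm, h2⟩ := ord_min hS ha ⟨b, hb, hcon⟩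
  have hS' : D (fun v : Fin 1 → N => v 0 ∈ {x : N | ¬ (Mem m x ∨ m = x ∨ Mem x m)}) := by
    refine D.not (D.or ?_ (D.or ?_ ?_))
    · exact D.memf (DF.const _) (DF.var _)
    · exact D.eqf (DF.const _) (DF.var _)
    · exact D.memf (DF.var _) (DF.const _)
  obtain ⟨z, h3, hz, h4⟩ := ord_min hS' hy h1
  refine h3 (Or.inr (Or.inl (hZ.ext m z fun x => ⟨fun hx => ?_, fun hx => ?_⟩)))
  · by_contra h5
    refine h2 x hx ⟨z, hz, ?_⟩
    rintro (h6 | rfl | h6)
    · exact h5 h6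
    · exact h3 (Or.inr (Or.inr hx))
    · exact h3 (Or.inr (Or.inr (hm.1 x hx z h6)))
  · by_contra h5
    refine h4 x hx ?_
    rintro (h6 | rfl | h6)
    · exact h3 (Or.inl (hz.1 x hx m h6))
    · exact h3 (Or.inl hx)
    · exact h5 h6

/-- A set of ordinals is well-ordered by membership. -/
theorem iwo_El {R : N} (hR : ∀ x, Mem x R → IsOrdinal x) :
    IWO N (El R) (fun x y => Mem x.1 y.1) := by
  refine ⟨?_, ?_, ?_⟩
  · exact Int.of_D₂ (S := fun v => Mem (v 0) (v 1)) (D.memf (DF.var _) (DF.var _))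
      fun _ _ => Iff.rfl
  · intro x y
    rcases ord_tri (hR _ x.2) (hR _ y.2) with h | h | h
    · exact Or.inl h
    · exact Or.inr (Or.inl (Subtype.ext h))
    · exact Or.inr (Or.inr h)
  · intro s hne
    obtain ⟨x, hx⟩ := hne
    have h0 : ∀ z, Helper672.Plain.Mem z (code (M := N) s) ↔
        ∃ a, a ∈ s ∧ code a = z := fun z => mem_code_pow (M := N)
    obtain ⟨y, h1, h2⟩ := hZ.foundation (code (M := N) s) ⟨x.1, (h0 _).2 ⟨x, hx, rfl⟩⟩
    obtain ⟨a, h3, rfl⟩ := (h0 _).1 h1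
    exact ⟨a, h3, fun b hb h4 => h2 b.1 ((h0 _).2 ⟨b, hb, rfl⟩) h4⟩

end

end Pool.Agent.Helper672.ZFA.V246
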