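import Pool.Agent.TH821.NegStage

set_option autoImplicit false

/-!
# One stage of the surgery chain

`X, V, W` are order automorphisms of a complete linear order with `X V W = 1`; `Q` commutes with
`V` and moves every point at least as far as `V`; `P` commutes with `X` and moves every point in
the direction of `X`, at most as far as `X`, and similarly `R` and `W`.
For a point `t` put `s = Q t`, `z = X s`, `y = P z`, `z' = P s`.
-/

namespace Pool.Agent.V11246.PS

open Pool.Agent.TH821.Hex Pool.Agent.TH821.Neg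

variable {Ω : Type*} [CompleteLinearOrder Ω]

/-- `P` commutes with `X` and moves every point in the same direction, at most as far. -/
structure Small (X P : Ω ≃o Ω) : Prop where
  comm : ∀ v, X (P v) = P (X v)
  up : ∀ v, v ≤ X v → v ≤ P v ∧ P v ≤ X v
  down : ∀ v, X v ≤ v → X v ≤ P v ∧ P v ≤ v

theorem Small.dual {X P : Ω ≃o Ω} (h : Small X P) : Small (Ω := Ωᵒᵈ) X.dual P.dual :=
  ⟨fun v => h.comm v, fun v hv => ⟨(h.down v hv).2, (h.down v hv).1⟩,
    fun v hv => ⟨(h.up v hv).2, (h.up v hv).1⟩⟩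

theorem Small.fix {X P : Ω ≃o Ω} (h : Small X P) {v : Ω} (hv : X v = v) : P v = v :=
  le_antisymm (h.down v hv.le).2 (h.up v hv.ge).1

/-- One stage. -/
structure PStage (X V W P Q R : Ω ≃o Ω) : Prop where
  prod : ∀ v, X (V (W v)) = v
  sP : Small X P
  big : Big V Q
  sR : Small W R

theorem PStage.dual {X V W P Q R : Ω ≃o Ω} (h : PStage X V W P Q R) :
    PStage (Ω := Ωᵒᵈ) X.dual V.dual W.dual P.dual Q.dual R.dual :=
  ⟨fun v => h.prod v, h.sP.dual, h.big.dual, h.sR.dual⟩

section stage
variable {X V W P Q R : Ω ≃o Ω}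

theorem PStage.vw (h : PStage X V W P Q R) (v : Ω) : V (W (X v)) = v :=
  X.injective (h.prod (X v))

/-- The points `s = Q t`, `z = X s`, `y = P z`, `z' = P s`. -/
structure Pts (X P : Ω ≃o Ω) (s z z' y : Ω) : Prop where
  ez : X s = z
  ew : P s = z'
  ey : P z = y

theorem Pts.xz' (h : PStage X V W P Q R) {s z z' y : Ω} (p : Pts X P s z z' y) : X z' = y := by
  rw [← p.ew, h.sP.comm, p.ez, p.ey]

theorem Pts.vwz (h : PStage X V W P Q R) {s z z' y : Ω} (p : Pts X P s z z' y) :
    V (W z) = s := by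
  rw [← p.ez, h.vw]

theorem Pts.vwy (h : PStage X V W P Q R) {s z z' y : Ω} (p : Pts X P s z z' y) :
    V (W y) = z' := by
  rw [← p.xz' h, h.vw]

/-- `s ≤ z' ≤ z ≤ y` when `X` is not down at `y`. -/
theorem Pts.upx (h : PStage X V W P Q R) {s z z' y : Ω} (p : Pts X P s z z' y) (hx : y ≤ X y) :
    s ≤ z' ∧ z' ≤ z ∧ z ≤ y := by
  have h1 : z ≤ X z := by
    rw [← P.le_iff_le, p.ey, ← h.sP.comm, p.ey]; exact hx
  have h2 : s ≤ X s := by
    rw [← X.le_iff_le, p.ez]; exact h1
  have h3 := h.sP.up s h2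
  rw [p.ew, p.ez] at h3
  refine ⟨h3.1, h3.2, ?_⟩
  rw [← p.ey]; exact (h.sP.up z h1).1

/-- `y ≤ z ≤ z' ≤ s`, `y < z'` and `z < s` when `X` is down at `y`. -/
theorem Pts.downx (h : PStage X V W P Q R) {s z z' y : Ω} (p : Pts X P s z z' y) (hx : X y < y) :
    y ≤ z ∧ z ≤ z' ∧ z' ≤ s ∧ y < z' ∧ z < s := by
  have h1 : X z < z := by
    rw [← P.lt_iff_lt, p.ey, ← h.sP.comm, p.ey]; exact hx
  have h2 : X s < s := by
    rw [← X.lt_iff_lt, p.ez]; exact h1
  have h3 := h.sP.down s h2.le
  rw [p.ew, p.ez] at h3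
  refine ⟨?_, h3.1, h3.2, ?_, ?_⟩
  · rw [← p.ey]; exact (h.sP.down z h1.le).2
  · rw [← X.lt_iff_lt, p.xz' h]; exact hx
  · rw [← p.ez]; exact h2

/-- If `y ≤ W R z` and `z ≤ y` then `y ≤ W y` and `z ≤ W z`. -/
theorem w_up (h : PStage X V W P Q R) {z y : Ω} (hC : y ≤ W (R z)) (hzy : z ≤ y) :
    y ≤ W y ∧ z ≤ W z := by
  constructor
  · by_contra h1
    rw [not_le] at h1
    have h2 : W (R z) ≤ W (R y) := W.le_iff_le.mpr (R.le_iff_le.mpr hzy)
    have h3 : W (R y) ≤ W y := W.le_iff_le.mpr (h.sR.down y h1.le).2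
    exact absurd hC (not_le.mpr (lt_of_le_of_lt (h2.trans h3) h1))
  · by_contra h1
    rw [not_le] at h1
    have h3 : W (R z) ≤ W z := W.le_iff_le.mpr (h.sR.down z h1.le).2
    exact absurd hC (not_le.mpr ((lt_of_le_of_lt h3 h1).trans_le hzy))

/-- If `X` is up at `y` then `V` is not up at `t`. -/
theorem v_t (h : PStage X V W P Q R) {t s z z' y : Ω} (ht : Q t = s) (p : Pts X P s z z' y)
    (hx : y ≤ X y) (hC : y ≤ W (R z)) : V t ≤ t := by
  obtain ⟨k1, k2, k3⟩ := p.upx h hx
  obtain ⟨_, h2⟩ := w_up h hC k3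
  by_contra h1
  rw [not_le] at h1
  have e : V (W z) = s := p.vwz h
  have h3 : t < s := by rw [← ht]; exact lt_of_lt_of_le h1 (h.big.up t h1.le)
  have h4 : t ≤ W z := ((h3.le.trans k1).trans k2).trans h2
  have h5 : V (W z) ≤ W z := by rw [e]; exact (k1.trans k2).trans h2
  obtain ⟨n, n1, n2, n3⟩ := fixUD V h4 h1 h5
  have h6 : s < n := by
    have := Q.lt_iff_lt.mpr n1
    rwa [h.big.fix n3, ht] at this
  have h7 : n ≤ s := by
    have := V.le_iff_le.mpr n2
    rwa [n3, e] at this
  exact absurd h6 (not_lt.mpr h7)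

/-- `C ≥ 0` and `B⁻¹ y > A⁻¹ y` imply `X y < y`. -/
theorem m3 (h : PStage X V W P Q R) {t s z z' y : Ω} (ht : Q t = s) (p : Pts X P s z z' y)
    (hC : y ≤ W (R z)) (hD : V.symm t < R (Q y)) : X y < y := by
  by_contra hx
  rw [not_lt] at hx
  obtain ⟨k1, k2, k3⟩ := p.upx h hx
  obtain ⟨h1, h2⟩ := w_up h hC k3
  have h3 : V y ≤ z' := by
    have := V.le_iff_le.mpr h1
    rwa [p.vwy h] at this
  have h4 : Q y ≤ z' := (h.big.down _ (h3.trans (k2.trans k3))).trans h3
  have h5 := v_t h ht p hx hC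
  have h6 : s ≤ t := by rw [← ht]; exact (h.big.down t h5).trans h5
  have h7 : W z ≤ V.symm t := by
    rw [le_symm_iff, p.vwz h]; exact h6
  have h8 : R (Q y) ≤ R z := R.le_iff_le.mpr (h4.trans k2)
  exact absurd hD (not_lt.mpr ((h8.trans (h.sR.up z h2).2).trans h7))

/-- `X y < y` and `C ≥ 0` imply `C' > 0`. -/
theorem m1 (h : PStage X V W P Q R) {s z z' y : Ω} (p : Pts X P s z z' y)
    (hx : X y < y) (hC : y ≤ W (R z)) : y < R s := by
  obtain ⟨h1, _, _, _, h2⟩ := p.downx h hx
  by_contra hcon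
  rw [not_lt] at hcon
  have h3 : R z < R s := R.lt_iff_lt.mpr h2
  have h4 : R z < z := (h3.trans_le hcon).trans_le h1
  have h5 : W z < z := by
    by_contra h6
    rw [not_lt] at h6
    exact absurd h4 (not_lt.mpr (h.sR.up z h6).1)
  have h7 : W (R z) ≤ R z := by
    rw [h.sR.comm]; exact R.le_iff_le.mpr h5.le
  exact absurd hC (not_le.mpr ((lt_of_le_of_lt h7 h3).trans_le hcon))

/-- `C ≥ 0` and `B⁻¹ y > A⁻¹ y` imply `B'⁻¹ y > A'⁻¹ y`. -/
theorem m2 (h : PStage X V W P Q R) {t s z z' y : Ω} (ht : Q t = s) (p : Pts X P s z z' y)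
    (hC : y ≤ W (R z)) (hD : V.symm t < R (Q y)) : X t < R (Q z') := by
  have hx := m3 h ht p hC hD
  obtain ⟨hyz, hzz, hzs', hyz', hzs⟩ := p.downx h hx
  have hu : W (X t) = V.symm t := by
    rw [← V.injective.eq_iff, h.vw, V.apply_symm_apply]
  rcases le_or_gt (X t) (V.symm t) with c1 | c1
  · have h1 : R (Q y) < R (Q z') := R.lt_iff_lt.mpr (Q.lt_iff_lt.mpr hyz')
    exact lt_of_le_of_lt c1 (hD.trans h1)
  · rcases le_or_gt (V t) t with hv | hv
    · exfalso
      have h1 : t ≤ V.symm t := (le_symm_iff V).mpr hv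
      have h2 : s ≤ t := by rw [← ht]; exact (h.big.down t hv).trans hv
      have h3 : R (Q y) < R s := by
        apply R.lt_iff_lt.mpr
        rw [← ht]
        apply Q.lt_iff_lt.mpr
        exact lt_of_lt_of_le (lt_of_le_of_lt hyz hzs) h2
      have h4 : W s < V.symm t := by
        rw [lt_symm_iff]
        have h5 : s < X t := lt_of_le_of_lt (h2.trans h1) c1
        rw [← X.lt_iff_lt, h.prod]
        exact h5
      have h5 : R s ≤ V.symm t := by
        rcases le_total s (W s) with h6 | h6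
        · exact (h.sR.up s h6).2.trans h4.le
        · exact (h.sR.down s h6).2.trans (h2.trans h1)
      exact absurd hD (not_lt.mpr (h3.le.trans h5))
    · have hts : t < s := by rw [← ht]; exact lt_of_lt_of_le hv (h.big.up t hv.le)
      -- a fixed point of `V` above `t` is above `s`
      have hfix : ∀ n, t < n → V n = n → s < n := by
        intro n n1 n2
        have := Q.lt_iff_lt.mpr n1
        rwa [h.big.fix n2, ht] at this
      have h0 : X t < z := by rw [← p.ez]; exact X.lt_iff_lt.mpr hts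
      have hz : z' ≤ V z' := by
        by_contra hcon
        rw [not_le] at hcon
        have h1 : z' < W y := by
          rw [← V.lt_iff_lt, p.vwy h]; exact hcon
        have h3 : X t < y := by
          by_contra h4
          rw [not_lt] at h4
          have h5 : W (X t) ≤ X t := by rw [hu]; exact c1.le
          obtain ⟨o, o1, o2, o3⟩ := fixUD W h4 (hyz'.trans h1) h5
          have h6 : W y < o := by
            have := W.lt_iff_lt.mpr o1
            rwa [o3] at this
          exact absurd (h6.trans_le o2) (not_lt.mpr ((h0.trans_le hzz).trans h1).le)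
        have h4 : t < z' := by
          rw [← X.lt_iff_lt, p.xz' h]; exact h3
        obtain ⟨n, n1, n2, n3⟩ := fixUD V h4.le hv hcon.le
        exact absurd ((hfix n n1 n3).trans_le n2) (not_lt.mpr hzs')
      have hzq : V z' ≤ Q z' := h.big.up _ hz
      rcases le_or_gt (Q z') (W (Q z')) with hwq | hwq
      · exact lt_of_lt_of_le h0 (hzz.trans ((hz.trans hzq).trans (h.sR.up _ hwq).1))
      · rcases le_or_gt (X t) t with hxt | hxt
        · -- `X V X t < Q z'`
          suffices hs : X (V (X t)) < Q z' by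
            have e : X (V (W (Q z'))) = Q z' := h.prod _
            rw [← e] at hs
            exact lt_of_lt_of_le (V.lt_iff_lt.mp (X.lt_iff_lt.mp hs)) (h.sR.down _ hwq.le).1
          have h1 : X (V (X t)) ≤ X (V t) := X.le_iff_le.mpr (V.le_iff_le.mpr hxt)
          have h2 : X (V t) ≤ z := by
            rw [← p.ez, ← ht]; exact X.le_iff_le.mpr (h.big.up t hv.le)
          rcases hz.eq_or_lt with h3 | h3
          · -- `V z' = z'`
            have h4 : z' ≤ t := by
              by_contra h5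
              rw [not_le] at h5
              exact absurd (hfix _ h5 h3.symm) (not_lt.mpr hzs')
            have h5 : X t < t := lt_of_lt_of_le h0 (hzz.trans h4)
            have h6 : X (V (X t)) < X (V t) := X.lt_iff_lt.mpr (V.lt_iff_lt.mpr h5)
            exact (h6.trans_le h2).trans_le (hzz.trans (hz.trans hzq))
          · exact lt_of_le_of_lt ((h1.trans h2).trans hzz) (h3.trans_le hzq)
        · have hxs : X s ≤ s := by rw [p.ez]; exact hzs.le
          obtain ⟨r, r1, r2, r3⟩ := fixUD X hts.le hxt hxs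
          have h1 : r ≤ y := by
            have := P.le_iff_le.mpr (X.le_iff_le.mpr r2)
            rwa [r3, h.sP.fix r3, p.ez, p.ey] at this
          have h2 : X t < R z := by
            by_contra h3
            rw [not_lt] at h3
            have h4 : W (R z) ≤ V.symm t := by
              rw [← hu]; exact W.le_iff_le.mpr h3
            have h5 : V.symm t < t := (symm_lt_iff' V).mpr hv
            exact absurd hC (not_le.mpr (lt_of_le_of_lt h4 (h5.trans (r1.trans_le h1))))
          exact lt_of_lt_of_le h2 (R.le_iff_le.mpr (hzz.trans (hz.trans hzq)))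

/-- `C ≥ 0`, `C' ≤ 0` and `B'⁻¹ y ≥ A'⁻¹ y` only if everything is fixed. -/
theorem m4 (h : PStage X V W P Q R) {t s z z' y : Ω} (ht : Q t = s) (p : Pts X P s z z' y)
    (hC : y ≤ W (R z)) (hC' : R s ≤ y) (hD' : X t ≤ R (Q z')) : X y = y ∧ V y = y := by
  have hx : y ≤ X y := by
    by_contra h1
    rw [not_le] at h1
    exact absurd (m1 h p h1 hC) (not_lt.mpr hC')
  obtain ⟨k1, k2, k3⟩ := p.upx h hx
  have hv := v_t h ht p hx hC
  obtain ⟨h1, h2⟩ := w_up h hC k3
  have e : V (W z) = s := p.vwz h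
  have h3 : V z ≤ s := by
    have := V.le_iff_le.mpr h2
    rwa [e] at this
  have h4 : V z' ≤ V z := V.le_iff_le.mpr k2
  have h5 : Q z' ≤ s := ((h.big.down z' ((h4.trans h3).trans k1)).trans h4).trans h3
  have h6 : X t ≤ X z' := by
    rw [p.xz' h]
    exact hD'.trans ((R.le_iff_le.mpr h5).trans hC')
  have h7 : t ≤ z' := X.le_iff_le.mp h6
  have h8 : s ≤ V t := by rw [← ht]; exact h.big.down t hv
  have h9 : V t ≤ V z' := V.le_iff_le.mpr h7
  have hz1 : V z = s := le_antisymm h3 (h8.trans (h9.trans h4))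
  have hz2 : V z' = V z := le_antisymm h4 (by rw [hz1]; exact h8.trans h9)
  have hz3 : z' = z := V.injective hz2
  have hz4 : z = W z := V.injective (hz1.trans e.symm)
  have hz5 : R z = z := h.sR.fix hz4.symm
  have hz6 : y = z := le_antisymm (by rw [hz5, ← hz4] at hC; exact hC) k3
  have hz7 : X z = z := by
    have := p.xz' h
    rw [hz3, hz6] at this
    exact this
  have hz8 : s = z := X.injective (p.ez.trans hz7.symm)
  rw [hz6]
  exact ⟨hz7, hz1.trans hz8⟩

/-- `C ≥ 0`, `C' ≥ 0` and `A' y ≤ B' y` imply `y < W y` unless everything is fixed. -/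
theorem m5 (h : PStage X V W P Q R) {s z z' y : Ω} (p : Pts X P s z z' y)
    (hC : y ≤ W (R z)) (hC' : y ≤ R s) (hE : R (Q (P (Q z'))) ≤ y) (hw : W y ≤ y) :
    X y = y ∧ V y = y := by
  have hry : R y ≤ y := (h.sR.down y hw).2
  have hyz : y ≤ z := by
    by_contra h1
    rw [not_le] at h1
    have h2 : W (R z) < W (R y) := W.lt_iff_lt.mpr (R.lt_iff_lt.mpr h1)
    have h3 : W (R y) ≤ W y := W.le_iff_le.mpr hry
    exact absurd hC (not_le.mpr (lt_of_lt_of_le h2 (h3.trans hw)))
  rcases lt_trichotomy y (X y) with hx | hx | hx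
  · exfalso
    obtain ⟨k1, k2, k3⟩ := p.upx h hx.le
    have e1 : y = z := le_antisymm hyz k3
    have h1 : s < y := by
      rw [← X.lt_iff_lt, p.ez, ← e1]; exact hx
    exact absurd hC' (not_le.mpr ((R.lt_iff_lt.mpr h1).trans_le hry))
  · -- `X y = y`
    have e1 : y = z := le_antisymm hyz (p.upx h hx.le).2.2
    have e2 : s = y := X.injective ((p.ez.trans e1.symm).trans hx)
    have e3 : z' = y := X.injective ((p.xz' h).trans hx)
    have h1 : y ≤ W y := by
      rw [← e1] at hC
      exact hC.trans (W.le_iff_le.mpr hry)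
    have h2 : W y = y := le_antisymm hw h1
    have h3 := p.vwy h
    rw [h2, e3] at h3
    exact ⟨hx.symm, h3⟩
  · exfalso
    obtain ⟨-, hzz, hzs', hyz', hzs⟩ := p.downx h hx
    have hxs : X s ≤ s := by rw [p.ez]; exact hzs.le
    have h1 : z' ≤ V y := by
      have := V.le_iff_le.mpr hw
      rwa [p.vwy h] at this
    have hvy : y < V y := hyz'.trans_le h1
    have hvz : z' < V z' := lt_of_le_of_lt h1 (V.lt_iff_lt.mpr hyz')
    have hqz : V z' ≤ Q z' := h.big.up _ hvz.le
    have hyu : y < P (Q z') := by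
      have h2 : P z' < P (Q z') := P.lt_iff_lt.mpr (hvz.trans_le hqz)
      have h3 := (h.sP.down z' (by rw [p.xz' h]; exact hyz'.le)).1
      rw [p.xz' h] at h3
      exact lt_of_le_of_lt h3 h2
    -- an `X`-fixed point above `Q z'` is above `s`
    have hfx : ∀ r, Q z' < r → X r = r → s < r := by
      intro r r1 r2
      by_contra r3
      rw [not_lt] at r3
      have r4 : r ≤ z := by
        have := X.le_iff_le.mpr r3
        rwa [r2, p.ez] at this
      exact absurd (r1.trans_le r4) (not_lt.mpr (hzz.trans (hvz.le.trans hqz)))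
    have hup : Q z' < X (Q z') → s < Q z' := by
      intro c1
      by_contra c2
      rw [not_lt] at c2
      obtain ⟨r, r1, r2, r3⟩ := fixUD X c2 c1 hxs
      exact absurd (hfx r r1 r3) (not_lt.mpr r2)
    have hqu : Q (P (Q z')) < P (Q z') := by
      by_contra c0
      rw [not_lt] at c0
      have c3 : R (P (Q z')) ≤ y := (R.le_iff_le.mpr c0).trans hE
      rcases lt_or_ge (Q z') (X (Q z')) with c1 | c1
      · have c2 : s < P (Q z') := (hup c1).trans_le (h.sP.up _ c1.le).1
        exact absurd hC' (not_le.mpr ((R.lt_iff_lt.mpr c2).trans_le c3))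
      · have c2 : X (Q z') ≤ P (Q z') := (h.sP.down _ c1).1
        have c4 : V z' ≤ V (W (P (Q z'))) := by
          have e1 : X (V (W (P (Q z')))) = P (Q z') := h.prod _
          rw [← X.le_iff_le, e1]
          exact (X.le_iff_le.mpr hqz).trans c2
        have c5 : z' ≤ W (P (Q z')) := V.le_iff_le.mp c4
        rcases le_total (P (Q z')) (W (P (Q z'))) with c6 | c6
        · exact absurd (hyu.trans_le (h.sR.up _ c6).1) (not_lt.mpr c3)
        · exact absurd (hyz'.trans_le (c5.trans (h.sR.down _ c6).1)) (not_lt.mpr c3)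
    have hvu : V (P (Q z')) < P (Q z') := by
      by_contra h2
      rw [not_lt] at h2
      exact absurd (h2.trans (h.big.up _ h2)) (not_le.mpr hqu)
    obtain ⟨n, n1, n2, n3⟩ := fixUD V hyu.le hvy hvu.le
    have h2 : V y < n := by
      have := V.lt_iff_lt.mpr n1
      rwa [n3] at this
    have h3 : z' < n := lt_of_le_of_lt h1 h2
    have h4 : Q z' < n := by
      have := Q.lt_iff_lt.mpr h3
      rwa [h.big.fix n3] at this
    have h5 : n ≤ Q (P (Q z')) := by
      have := Q.le_iff_le.mpr n2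
      rwa [h.big.fix n3] at this
    have h6 : s < n := by
      by_contra h7
      rw [not_lt] at h7
      have h8 : Q z' < X (Q z') := by
        by_contra h9
        rw [not_lt] at h9
        exact absurd (h4.trans_le n2) (not_lt.mpr (h.sP.down _ h9).2)
      exact absurd ((hup h8).trans h4) (not_lt.mpr h7)
    have h7 : R s < R n := R.lt_iff_lt.mpr h6
    exact absurd hC' (not_le.mpr ((h7.trans_le (R.le_iff_le.mpr h5)).trans_le hE))

end stage

end Pool.Agent.V11246.PS
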