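import Pool.Agent.TH821.NegChain
import Pool.Agent.V11246.PStage

set_option autoImplicit false

/-!
# The periodic surgery chain

Any period: every point is fixed by all `X j` and `V j`.
-/

namespace Pool.Agent.V11246.PS

open Pool.Agent.TH821.Hex Pool.Agent.TH821.Neg

variable {Ω : Type*} [CompleteLinearOrder Ω]

/-- The chain; `linkA`, `linkB`, `linkC`, `linkF` say what `A⁻¹`, `B⁻¹`, `C`, `A` become. -/
structure PChain (X V W P Q R : ℕ → Ω ≃o Ω) : Prop where
  st : ∀ j, PStage (X j) (V j) (W j) (P j) (Q j) (R j)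
  linkA : ∀ j y, (V (j + 1)).symm ((Q (j + 1)).symm ((X (j + 1)).symm ((P (j + 1)).symm y)))
    = X j ((Q j).symm ((X j).symm ((P j).symm y)))
  linkB : ∀ j y, R (j + 1) (Q (j + 1) y) = R j (Q j ((X j).symm y))
  linkC : ∀ j y, W (j + 1) (R (j + 1) ((P (j + 1)).symm y)) = R j ((X j).symm ((P j).symm y))
  linkF : ∀ j y, P (j + 1) (X (j + 1) (Q (j + 1) (V (j + 1) y)))
    = P j (X j (Q j ((X j).symm y)))

theorem PChain.dual {X V W P Q R : ℕ → Ω ≃o Ω} (h : PChain X V W P Q R) :
    PChain (Ω := Ωᵒᵈ) (fun j => (X j).dual) (fun j => (V j).dual) (fun j => (W j).dual)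
      (fun j => (P j).dual) (fun j => (Q j).dual) (fun j => (R j).dual) :=
  ⟨fun j => (h.st j).dual, fun j y => h.linkA j y, fun j y => h.linkB j y,
    fun j y => h.linkC j y, fun j y => h.linkF j y⟩

/-- Period `N`. -/
structure PPer (N : ℕ) (X V W P Q R : ℕ → Ω ≃o Ω) : Prop where
  X : ∀ j, X (j + N) = X j
  V : ∀ j, V (j + N) = V j
  W : ∀ j, W (j + N) = W j
  P : ∀ j, P (j + N) = P j
  Q : ∀ j, Q (j + N) = Q j
  R : ∀ j, R (j + N) = R j

theorem PPer.dual {N : ℕ} {X V W P Q R : ℕ → Ω ≃o Ω} (h : PPer N X V W P Q R) :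
    PPer (Ω := Ωᵒᵈ) N (fun j => (X j).dual) (fun j => (V j).dual) (fun j => (W j).dual)
      (fun j => (P j).dual) (fun j => (Q j).dual) (fun j => (R j).dual) :=
  ⟨fun j => congrArg OrderIso.dual (h.X j), fun j => congrArg OrderIso.dual (h.V j),
    fun j => congrArg OrderIso.dual (h.W j), fun j => congrArg OrderIso.dual (h.P j),
    fun j => congrArg OrderIso.dual (h.Q j), fun j => congrArg OrderIso.dual (h.R j)⟩

section stage
variable {X V W P Q R : Ω ≃o Ω}

theorem PStage.symmX (h : PStage X V W P Q R) (y : Ω) :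
    P (X.symm (P.symm y)) = X.symm y := by
  rw [← X.injective.eq_iff, h.sP.comm, X.apply_symm_apply, P.apply_symm_apply,
    X.apply_symm_apply]

theorem PStage.pts (h : PStage X V W P Q R) (y : Ω) :
    Pts X P (X.symm (P.symm y)) (P.symm y) (X.symm y) y :=
  ⟨X.apply_symm_apply _, h.symmX y, P.apply_symm_apply _⟩

theorem PStage.m3 (h : PStage X V W P Q R) {y : Ω} (hC : y ≤ W (R (P.symm y)))
    (hD : V.symm (Q.symm (X.symm (P.symm y))) < R (Q y)) : X y < y :=
  PS.m3 h (Q.apply_symm_apply _) (h.pts y) hC hD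

theorem PStage.m1 (h : PStage X V W P Q R) {y : Ω} (hx : X y < y) (hC : y ≤ W (R (P.symm y))) :
    y < R (X.symm (P.symm y)) :=
  PS.m1 h (h.pts y) hx hC

theorem PStage.m2 (h : PStage X V W P Q R) {y : Ω} (hC : y ≤ W (R (P.symm y)))
    (hD : V.symm (Q.symm (X.symm (P.symm y))) < R (Q y)) :
    X (Q.symm (X.symm (P.symm y))) < R (Q (X.symm y)) :=
  PS.m2 h (Q.apply_symm_apply _) (h.pts y) hC hD

theorem PStage.m4 (h : PStage X V W P Q R) {y : Ω} (hC : y ≤ W (R (P.symm y)))
    (hC' : R (X.symm (P.symm y)) ≤ y)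
    (hD' : X (Q.symm (X.symm (P.symm y))) ≤ R (Q (X.symm y))) : X y = y ∧ V y = y :=
  PS.m4 h (Q.apply_symm_apply _) (h.pts y) hC hC' hD'

theorem PStage.m5 (h : PStage X V W P Q R) {y : Ω} (hC : y ≤ W (R (P.symm y)))
    (hC' : y ≤ R (X.symm (P.symm y))) (hE : R (Q (P (Q (X.symm y)))) ≤ y) (hw : W y ≤ y) :
    X y = y ∧ V y = y :=
  PS.m5 h (h.pts y) hC hC' hE hw

theorem PStage.vw' (h : PStage X V W P Q R) (y : Ω) : V (W y) = X.symm y := by
  rw [← X.injective.eq_iff, h.prod, X.apply_symm_apply]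

theorem PStage.fixW (h : PStage X V W P Q R) {y : Ω} (hx : X y = y) (hv : V y = y) :
    W y = y := by
  have h1 : V (W y) = y := by
    rw [h.vw', OrderIso.symm_apply_eq]; exact hx.symm
  exact V.injective (h1.trans hv.symm)

end stage

section chain
variable {X V W P Q R : ℕ → Ω ≃o Ω} {N : ℕ}

/-- `C y ≥ y` implies `B⁻¹ y ≤ A⁻¹ y`. -/
theorem PChain.claim (h : PChain X V W P Q R) (hP : PPer N X V W P Q R) (hN : 0 < N) (i : ℕ)
    (y : Ω) (hC : y ≤ W i (R i ((P i).symm y))) :
    R i (Q i y) ≤ (V i).symm ((Q i).symm ((X i).symm ((P i).symm y))) := by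
  by_contra hD
  rw [not_le] at hD
  have key : ∀ j, i ≤ j → y ≤ W j (R j ((P j).symm y)) ∧
      (V j).symm ((Q j).symm ((X j).symm ((P j).symm y))) < R j (Q j y) := by
    intro j hj
    induction j, hj using Nat.le_induction with
    | base => exact ⟨hC, hD⟩
    | succ j _ ih =>
      obtain ⟨h1, h2⟩ := ih
      rw [h.linkA, h.linkB, h.linkC]
      exact ⟨((h.st j).m1 ((h.st j).m3 h1 h2) h1).le, (h.st j).m2 h1 h2⟩
  refine no_incr (u := fun j => R j (Q j y)) (i := i) hN ?_ ?_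
  · show R (i + N) (Q (i + N) y) = R i (Q i y)
    rw [hP.R, hP.Q]
  · intro j hj
    show R j (Q j y) < R (j + 1) (Q (j + 1) y)
    obtain ⟨h1, h2⟩ := key j hj
    rw [h.linkB]
    apply (R j).lt_iff_lt.mpr
    apply (Q j).lt_iff_lt.mpr
    rw [lt_symm_iff]
    exact (h.st j).m3 h1 h2

theorem PChain.claim' (h : PChain X V W P Q R) (hP : PPer N X V W P Q R) (hN : 0 < N) (i : ℕ)
    (y : Ω) (hC : W i (R i ((P i).symm y)) ≤ y) :
    (V i).symm ((Q i).symm ((X i).symm ((P i).symm y))) ≤ R i (Q i y) :=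
  PChain.claim (Ω := Ωᵒᵈ) h.dual hP.dual hN i y hC

/-- if `C y ≥ y` before and `C y ≤ y` after stage `i` then stage `i` fixes `y`. -/
theorem PChain.cross (h : PChain X V W P Q R) (hP : PPer N X V W P Q R) (hN : 0 < N) (i : ℕ)
    (y : Ω) (hC : y ≤ W i (R i ((P i).symm y)))
    (hC' : W (i + 1) (R (i + 1) ((P (i + 1)).symm y)) ≤ y) : X i y = y ∧ V i y = y := by
  have h1 := h.claim' hP hN (i + 1) y hC'
  rw [h.linkA, h.linkB] at h1
  rw [h.linkC] at hC'
  exact (h.st i).m4 hC hC' h1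

theorem PChain.cross' (h : PChain X V W P Q R) (hP : PPer N X V W P Q R) (hN : 0 < N) (i : ℕ)
    (y : Ω) (hC : W i (R i ((P i).symm y)) ≤ y)
    (hC' : y ≤ W (i + 1) (R (i + 1) ((P (i + 1)).symm y))) : X i y = y ∧ V i y = y :=
  PChain.cross (Ω := Ωᵒᵈ) h.dual hP.dual hN i y hC hC'

/-- if stage `i` fixes `y` then `C y = y` after it. -/
theorem PChain.C_fix (h : PChain X V W P Q R) (i : ℕ) {y : Ω} (hx : X i y = y)
    (hv : V i y = y) : W (i + 1) (R (i + 1) ((P (i + 1)).symm y)) = y := by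
  have hs : (X i).symm y = y := by rw [OrderIso.symm_apply_eq]; exact hx.symm
  have hs' : (P i).symm y = y := by
    rw [OrderIso.symm_apply_eq]; exact ((h.st i).sP.fix hx).symm
  rw [h.linkC, hs', hs]
  exact (h.st i).sR.fix ((h.st i).fixW hx hv)

theorem PChain.next_fix (h : PChain X V W P Q R) (hP : PPer N X V W P Q R) (hN : 0 < N)
    (i : ℕ) {y : Ω} (hx : X i y = y) (hv : V i y = y) : X (i + 1) y = y ∧ V (i + 1) y = y := by
  have h1 := h.C_fix i hx hv
  rcases le_total y (W (i + 1 + 1) (R (i + 1 + 1) ((P (i + 1 + 1)).symm y))) with h2 | h2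
  · exact h.cross' hP hN (i + 1) y h1.le h2
  · exact h.cross hP hN (i + 1) y h1.ge h2

theorem PPer.mulX (hP : PPer N X V W P Q R) (j : ℕ) : ∀ k, X (j + k * N) = X j
  | 0 => by simp
  | k + 1 => by rw [Nat.succ_mul, ← Nat.add_assoc, hP.X, hP.mulX j k]

theorem PPer.mulV (hP : PPer N X V W P Q R) (j : ℕ) : ∀ k, V (j + k * N) = V j
  | 0 => by simp
  | k + 1 => by rw [Nat.succ_mul, ← Nat.add_assoc, hP.V, hP.mulV j k]

theorem PChain.all_fix (h : PChain X V W P Q R) (hP : PPer N X V W P Q R) (hN : 0 < N) (i : ℕ)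
    {y : Ω} (hx : X i y = y) (hv : V i y = y) (j : ℕ) : X j y = y ∧ V j y = y := by
  have key : ∀ k, i ≤ k → X k y = y ∧ V k y = y := by
    intro k hk
    induction k, hk using Nat.le_induction with
    | base => exact ⟨hx, hv⟩
    | succ k _ ih => exact h.next_fix hP hN k ih.1 ih.2
  have h1 := key (j + i * N) (by nlinarith)
  rwa [hP.mulX, hP.mulV] at h1

/-- `C y > y` at all times is impossible. -/
theorem PChain.no_up (h : PChain X V W P Q R) (hP : PPer N X V W P Q R) (hN : 0 < N) (y : Ω)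
    (hC : ∀ i, y < W i (R i ((P i).symm y))) : False := by
  have hA : ∀ i u, (V i).symm ((Q i).symm ((X i).symm ((P i).symm (P i (X i (Q i (V i u)))))))
      = u := by intro i u; simp
  -- `C = B⁻¹ A⁻¹`
  have hCAB : ∀ i u, W i (R i ((P i).symm u)) =
      R i (Q i ((V i).symm ((Q i).symm ((X i).symm ((P i).symm u))))) := by
    intro i u
    rw [(h.st i).sR.comm]
    congr 1
    have e1 : Q i ((V i).symm ((Q i).symm ((X i).symm ((P i).symm u)))) =
        (V i).symm ((X i).symm ((P i).symm u)) := by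
      rw [← (V i).injective.eq_iff, (h.st i).big.comm, OrderIso.apply_symm_apply,
        OrderIso.apply_symm_apply, OrderIso.apply_symm_apply]
    rw [e1, ← (V i).injective.eq_iff, OrderIso.apply_symm_apply, (h.st i).vw']
  have hle : ∀ i, R i (Q i (P i (X i (Q i (V i y))))) ≤ y := by
    intro i
    set u := P i (X i (Q i (V i y))) with hu
    rcases le_total u (W i (R i ((P i).symm u))) with h1 | h1
    · have h2 := h.claim hP hN i u h1
      rw [hu, hA] at h2
      exact h2
    · -- `C u ≤ u`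
      have h2 := hCAB i u
      rw [hu, hA, ← hu] at h2
      rw [h2] at h1
      -- `B⁻¹ y ≤ A y`
      have h3 := h.claim hP hN i y (hC i).le
      have h4 : y < (V i).symm ((Q i).symm ((X i).symm ((P i).symm y))) := by
        by_contra h5
        rw [not_lt] at h5
        have h6 : R i (Q i ((V i).symm ((Q i).symm ((X i).symm ((P i).symm y)))))
            ≤ R i (Q i y) := (R i).le_iff_le.mpr ((Q i).le_iff_le.mpr h5)
        have h7 := hC i
        rw [hCAB] at h7
        exact absurd h7 (not_lt.mpr (h6.trans (h3.trans h5)))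
      have h8 : u < y := by
        rw [lt_symm_iff, lt_symm_iff, lt_symm_iff, lt_symm_iff] at h4
        exact h4
      have h9 : R i (Q i u) ≤ R i (Q i y) := (R i).le_iff_le.mpr ((Q i).le_iff_le.mpr h8.le)
      exact (h9.trans h1).trans h8.le
  have hw : ∀ i, y < W i y := by
    intro i
    by_contra h1
    rw [not_lt] at h1
    have h2 := (hC (i + 1)).le
    rw [h.linkC] at h2
    have h3 := hle (i + 1)
    rw [h.linkB, h.linkF, ← (h.st i).sP.comm, OrderIso.symm_apply_apply] at h3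
    obtain ⟨h4, h5⟩ := (h.st i).m5 (hC i).le h2 h3 h1
    have h6 : (P i).symm y = y := by
      rw [OrderIso.symm_apply_eq]; exact ((h.st i).sP.fix h4).symm
    have h7 := hC i
    have h8 := (h.st i).fixW h4 h5
    rw [h6, (h.st i).sR.fix h8, h8] at h7
    exact lt_irrefl _ h7
  refine no_incr (u := fun j => P j (X j (Q j (V j y)))) (i := 0) hN ?_ ?_
  · show P (0 + N) (X (0 + N) (Q (0 + N) (V (0 + N) y))) = P 0 (X 0 (Q 0 (V 0 y)))
    rw [hP.X, hP.Q, hP.V, hP.P]
  · intro j _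
    show P j (X j (Q j (V j y))) < P (j + 1) (X (j + 1) (Q (j + 1) (V (j + 1) y)))
    rw [h.linkF, ← (h.st j).vw']
    apply (P j).lt_iff_lt.mpr
    apply (X j).lt_iff_lt.mpr
    apply (Q j).lt_iff_lt.mpr
    exact (V j).lt_iff_lt.mpr (hw j)

/-- `C y ≥ y` at time `0` implies that `y` is fixed. -/
theorem PChain.fixed_up (h : PChain X V W P Q R) (hP : PPer N X V W P Q R) (hN : 0 < N) (y : Ω)
    (h0 : y ≤ W 0 (R 0 ((P 0).symm y))) (j : ℕ) : X j y = y ∧ V j y = y := by
  by_contra hcon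
  have hno : ∀ i, ¬ (X i y = y ∧ V i y = y) := fun i hi =>
    hcon (h.all_fix hP hN i hi.1 hi.2 j)
  have key : ∀ i, y < W (i + 1) (R (i + 1) ((P (i + 1)).symm y)) := by
    intro i
    induction i with
    | zero =>
      by_contra h1
      rw [not_lt] at h1
      exact hno 0 (h.cross hP hN 0 y h0 h1)
    | succ i ih =>
      by_contra h1
      rw [not_lt] at h1
      exact hno (i + 1) (h.cross hP hN (i + 1) y ih.le h1)
  refine h.no_up hP hN y ?_
  intro i
  obtain ⟨M, rfl⟩ := Nat.exists_eq_add_of_le' hN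
  have := key (i + M)
  rw [show i + M + 1 = i + (M + 1) by omega, hP.W, hP.R, hP.P] at this
  exact this

/-- every point is fixed by all `X j`, `V j`. -/
theorem PChain.fixed (h : PChain X V W P Q R) (hP : PPer N X V W P Q R) (hN : 0 < N) (j : ℕ)
    (y : Ω) : X j y = y ∧ V j y = y := by
  rcases le_total y (W 0 (R 0 ((P 0).symm y))) with h0 | h0
  · exact h.fixed_up hP hN y h0 j
  · exact PChain.fixed_up (Ω := Ωᵒᵈ) h.dual hP.dual hN y h0 j

end chain

end Pool.Agent.V11246.PS
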