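import Pool.Agent.V11246.KDefs

/-!
# Sequences and products of compact metrizable spaces: definitions

`Mem` and `LSet` are from `Pool.Agent.Helper672.SIK.Plain`, `IsOmega`, `IsFun`, `App` and
`IsFinite` from `Pool.Agent.H310R3.Cards`, `IsCompact` from `Pool.Agent.H310R3.TopDefs`,
`IsMetrizable` and `IsSeparable` from `Pool.Agent.V11246.KDefs`.
-/

namespace Pool.Agent.V11246

open FirstOrder FirstOrder.Language
open Pool.Agent.Helper672.Plain (LSet Mem IsOrdPair)
open Pool.Agent.H310Cards
open Pool.Agent.H310Top (IsCompact)

universe u

section

variable {M : Type u} [LSet.Structure M]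

/-- `f` and `g` are a sequence of compact metrizable spaces, indexed by the set `w` of the
natural numbers: `f n` is the set of the points and `g n` is the topology of the `n`-th space. -/
def IsCMSeq (w f g : M) : Prop :=
  IsOmega w ∧ (∃ s, IsFun f w s) ∧ (∃ s, IsFun g w s) ∧
    ∀ n x t, App f n x → App g n t → IsCompact t x ∧ IsMetrizable t x

/-- `p` is the product of the sequence `f` of sets: the set of all functions `h` on `w` such that
`h n` is an element of `f n` for all `n`. -/
def IsProduct (p w f : M) : Prop :=
  ∀ h, Mem h p ↔ (∃ s, IsFun h w s) ∧ ∀ n x y, App f n x → App h n y → Mem y x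

/-- `tt` is the product topology on the product `p` of the sequence of spaces with the topologies
`g n`: a subset `u` of `p` is open if and only if for every `h` in `u` there is a finite set `b`
of pairs `(n, v)`, where `v` is an open set of the `n`-th space with `h n` in `v`, such that
every `h'` in `p` with `h' n` in `v` for all `(n, v)` in `b` is in `u`. -/
def IsProductTop (tt p g : M) : Prop :=
  ∀ u, Mem u tt ↔ (∀ h, Mem h u → Mem h p) ∧ ∀ h, Mem h u →
    ∃ b, IsFinite b ∧ (∀ q, Mem q b → ∃ n v t y, IsOrdPair q n v ∧ App g n t ∧ Mem v t ∧
      App h n y ∧ Mem y v) ∧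
      ∀ h', Mem h' p → (∀ n v y, App b n v → App h' n y → Mem y v) → Mem h' u

end

variable (M : Type u) [LSet.Structure M]

/-- Every sequence of nonempty compact metrizable spaces has a choice function. -/
def CACCM : Prop :=
  ∀ w f g : M, IsCMSeq w f g → (∀ n x, App f n x → ∃ z, Mem z x) →
    ∃ s h, IsFun h w s ∧ ∀ n x y, App f n x → App h n y → Mem y x

/-- Every countable product of compact metrizable spaces is separable. -/
def CPMS : Prop :=
  ∀ w f g p tt : M, IsCMSeq w f g → IsProduct p w f → IsProductTop tt p g → IsSeparable tt p

/-- Every countable product of compact metrizable spaces is compact. -/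
def CPMC : Prop :=
  ∀ w f g p tt : M, IsCMSeq w f g → IsProduct p w f → IsProductTop tt p g → IsCompact tt p

end Pool.Agent.V11246
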