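import Pool.Agent.TH821.NegGroup
import Pool.Agent.V11246.PChain

set_option autoImplicit false

/-!
# Left-ordered groups and the relations of the surgery groups
-/

namespace Pool.Agent.V11246.PS

open Pool.Agent.W705.Borr Pool.Agent.TH821.Chain Pool.Agent.TH821.Hex Pool.Agent.TH821.Neg

/-- The relations between the elements `x i, v i, w i` and `p i, q i, r i`. -/
structure PRel {H : Type*} [Group H] {n : ℕ} (x v w p q r : ZMod n → H)
    (a b c d e f : ZMod n → ℕ) : Prop where
  prod : ∀ i, x i * v i * w i = 1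
  commP : ∀ i, x i * p i = p i * x i
  commQ : ∀ i, v i * q i = q i * v i
  commR : ∀ i, w i * r i = r i * w i
  bpos : ∀ i, 0 < b i
  ab : ∀ i, b i ≤ a i
  powQ : ∀ i, q i ^ b i = v i ^ a i
  dpos : ∀ i, 0 < d i
  cd : ∀ i, c i ≤ d i
  powP : ∀ i, p i ^ d i = x i ^ c i
  fpos : ∀ i, 0 < f i
  ef : ∀ i, e i ≤ f i
  powR : ∀ i, r i ^ f i = w i ^ e i
  relA : ∀ i, p (i + 1) * x (i + 1) * v (i + 1) * q (i + 1) = p i * x i * v i * q i * w i
  relB : ∀ i, (r (i + 1) * q (i + 1))⁻¹ = x i * (r i * q i)⁻¹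

section alg
variable {H : Type*} [Group H] {n : ℕ} {x v w p q r : ZMod n → H} {a b c d e f : ZMod n → ℕ}

theorem PRel.vw (R : PRel x v w p q r a b c d e f) (i : ZMod n) : v i * w i = (x i)⁻¹ := by
  have := R.prod i
  rw [eq_inv_iff_mul_eq_one]
  calc v i * w i * x i = (x i)⁻¹ * (x i * v i * w i) * x i := by group
    _ = 1 := by rw [this]; group

theorem PRel.A' (R : PRel x v w p q r a b c d e f) (i : ZMod n) :
    p (i + 1) * x (i + 1) * q (i + 1) * v (i + 1) = p i * x i * q i * (x i)⁻¹ := by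
  calc p (i + 1) * x (i + 1) * q (i + 1) * v (i + 1)
      = p (i + 1) * x (i + 1) * (q (i + 1) * v (i + 1)) := by group
    _ = p (i + 1) * x (i + 1) * v (i + 1) * q (i + 1) := by rw [← R.commQ]; group
    _ = p i * x i * v i * q i * w i := R.relA i
    _ = p i * x i * (v i * q i) * w i := by group
    _ = p i * x i * q i * (v i * w i) := by rw [R.commQ]; group
    _ = _ := by rw [R.vw]

theorem PRel.Ai (R : PRel x v w p q r a b c d e f) (i : ZMod n) :
    (v (i + 1))⁻¹ * (q (i + 1))⁻¹ * (x (i + 1))⁻¹ * (p (i + 1))⁻¹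
      = x i * (q i)⁻¹ * (x i)⁻¹ * (p i)⁻¹ := by
  have := congrArg (fun z => z⁻¹) (R.A' i)
  simp only [mul_inv_rev, inv_inv] at this
  simpa only [mul_assoc] using this

theorem PRel.Bi (R : PRel x v w p q r a b c d e f) (i : ZMod n) :
    r (i + 1) * q (i + 1) = r i * q i * (x i)⁻¹ := by
  have := congrArg (fun z => z⁻¹) (R.relB i)
  simp only [mul_inv_rev, inv_inv] at this
  simpa only [mul_assoc] using this

theorem PRel.Ci (R : PRel x v w p q r a b c d e f) (i : ZMod n) :
    w (i + 1) * r (i + 1) * (p (i + 1))⁻¹ = r i * (x i)⁻¹ * (p i)⁻¹ := by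
  have h1 : ∀ j, q j * (v j)⁻¹ * (q j)⁻¹ = w j * x j := by
    intro j
    have h2 : q j * (v j)⁻¹ * (q j)⁻¹ = (v j)⁻¹ := by
      calc q j * (v j)⁻¹ * (q j)⁻¹ = (v j)⁻¹ * (v j * q j) * (v j)⁻¹ * (q j)⁻¹ := by group
        _ = (v j)⁻¹ := by rw [R.commQ]; group
    rw [h2]
    calc (v j)⁻¹ = (v j)⁻¹ * (v j * w j) * x j := by rw [R.vw]; group
      _ = _ := by group
  calc w (i + 1) * r (i + 1) * (p (i + 1))⁻¹
      = r (i + 1) * (w (i + 1) * x (i + 1)) * (x (i + 1))⁻¹ * (p (i + 1))⁻¹ := by
        rw [R.commR]; group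
    _ = (r (i + 1) * q (i + 1)) * ((v (i + 1))⁻¹ * (q (i + 1))⁻¹ * (x (i + 1))⁻¹ *
          (p (i + 1))⁻¹) := by rw [← h1]; group
    _ = r i * (x i)⁻¹ * (p i)⁻¹ := by rw [R.Bi, R.Ai]; group

end alg

section order
variable {Ω : Type*} [CompleteLinearOrder Ω]

/-- If `g` and `h` commute and `g y < h y` then `g^k y < h^k y` for all `k > 0`. -/
theorem iter_lt {g h : Ω ≃o Ω} (hcomm : ∀ y, g (h y) = h (g y)) {y : Ω} (hlt : g y < h y) :
    ∀ k, 0 < k → g^[k] y < h^[k] y := by
  intro k hk
  induction k with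
  | zero => exact absurd hk (lt_irrefl _)
  | succ k ih =>
    rcases Nat.eq_zero_or_pos k with rfl | hk'
    · exact hlt
    · have h1 := ih hk'
      have h2 : g^[k + 1] y < g (h^[k] y) := by
        rw [Function.iterate_succ_apply']; exact g.lt_iff_lt.mpr h1
      have hc : Function.Semiconj g (h^[k]) (h^[k]) :=
        Function.Semiconj.iterate_right (fun z => hcomm z) k
      have h3 : g (h^[k] y) = h^[k] (g y) := hc y
      have h4 : h^[k] (g y) < h^[k] (h y) := h.strictMono.iterate k hlt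
      rw [Function.iterate_succ_apply h]
      exact (h2.trans_eq h3).trans h4

/-- If `p ^ d = x ^ c`, `0 < d`, `c ≤ d`, and `p`, `x` commute, then `p` moves points that `x`
moves up not down and at most as far as `x`. -/
theorem up_small {x p : Ω ≃o Ω} {c d : ℕ} (hd : 0 < d) (hcd : c ≤ d)
    (hcomm : ∀ y, x (p y) = p (x y)) (h : ∀ y, p^[d] y = x^[c] y) (y : Ω)
    (hx : y ≤ x y) : y ≤ p y ∧ p y ≤ x y := by
  constructor
  · by_contra hcon
    rw [not_le] at hcon
    have h1 := iter_lt (g := p) (h := OrderIso.refl Ω) (fun z => rfl) hcon d hd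
    have h2 : (OrderIso.refl Ω)^[d] y = y := by
      have : ((OrderIso.refl Ω : Ω ≃o Ω) : Ω → Ω) = id := rfl
      rw [this, Function.iterate_id]; rfl
    rw [h2, h] at h1
    have h3 : y ≤ x^[c] y := iter_le' hx c
    exact absurd h1 (not_lt.mpr h3)
  · by_contra hcon
    rw [not_le] at hcon
    have h1 := iter_lt hcomm hcon d hd
    rw [h] at h1
    exact absurd (iter_mono hx hcd) (not_le.mpr h1)

end order

section act
variable {H : Type*} [Group H] [LinearOrder H] (hinv : ∀ a b c : H, a ≤ b ↔ c * a ≤ c * b)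

theorem small_of_pow {x p : H} {c d : ℕ} (hcomm : x * p = p * x) (hd : 0 < d) (hcd : c ≤ d)
    (h : p ^ d = x ^ c) : Small (act hinv x) (act hinv p) := by
  have hpow : ∀ y, (act hinv p)^[d] y = (act hinv x)^[c] y := by
    intro y; rw [← act_pow, ← act_pow, h]
  have hc : ∀ y, act hinv x (act hinv p y) = act hinv p (act hinv x y) := by
    intro y; rw [← act_mul, ← act_mul, hcomm]
  refine ⟨hc, up_small hd hcd hc hpow, ?_⟩
  intro y hy
  have := up_small (Ω := (LowerSet H)ᵒᵈ) (x := (act hinv x).dual) (p := (act hinv p).dual)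
    hd hcd (fun y => hc y) (fun y => hpow y) y hy
  exact ⟨this.2, this.1⟩

include hinv in
/-- In a left-ordered group the relations force triviality. -/
theorem rel_trivial {n : ℕ} (hn : 0 < n) {x v w p q r : ZMod n → H}
    {a b c d e f : ZMod n → ℕ} (R : PRel x v w p q r a b c d e f) (i : ZMod n) :
    x i = 1 ∧ v i = 1 ∧ w i = 1 ∧ p i = 1 ∧ q i = 1 ∧ r i = 1 := by
  have : NeZero n := ⟨hn.ne'⟩
  have hN0 : ∀ j : ℕ, ((j + n : ℕ) : ZMod n) = (j : ZMod n) := by
    intro j; push_cast; rw [ZMod.natCast_self, add_zero]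
  have hC : PChain (fun j : ℕ => act hinv (x j)) (fun j : ℕ => act hinv (v j))
      (fun j : ℕ => act hinv (w j)) (fun j : ℕ => act hinv (p j))
      (fun j : ℕ => act hinv (q j)) (fun j : ℕ => act hinv (r j)) := by
    refine ⟨?_, ?_, ?_, ?_, ?_⟩
    · intro j
      refine ⟨?_, small_of_pow hinv (R.commP _) (R.dpos _) (R.cd _) (R.powP _),
        big_of_pow hinv (R.commQ _) (R.bpos _) (R.ab _) (R.powQ _),
        small_of_pow hinv (R.commR _) (R.fpos _) (R.ef _) (R.powR _)⟩
      intro u
      rw [← act_mul, ← act_mul, R.prod, act_one]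
    · intro j y
      simp only [← act_inv, ← act_mul]
      rw [Nat.cast_add, Nat.cast_one]
      have := R.Ai (j : ZMod n)
      simp only [mul_assoc] at this
      rw [this]
    · intro j y
      simp only [← act_inv, ← act_mul]
      rw [Nat.cast_add, Nat.cast_one]
      have := R.Bi (j : ZMod n)
      simp only [mul_assoc] at this
      rw [this]
    · intro j y
      simp only [← act_inv, ← act_mul]
      rw [Nat.cast_add, Nat.cast_one]
      have := R.Ci (j : ZMod n)
      simp only [mul_assoc] at this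
      rw [this]
    · intro j y
      simp only [← act_inv, ← act_mul]
      rw [Nat.cast_add, Nat.cast_one]
      have := R.A' (j : ZMod n)
      simp only [mul_assoc] at this
      rw [this]
  have hP : PPer n (fun j : ℕ => act hinv (x j)) (fun j : ℕ => act hinv (v j))
      (fun j : ℕ => act hinv (w j)) (fun j : ℕ => act hinv (p j))
      (fun j : ℕ => act hinv (q j)) (fun j : ℕ => act hinv (r j)) := by
    refine ⟨?_, ?_, ?_, ?_, ?_, ?_⟩ <;> intro j <;> simp only [hN0]
  have hi : ((i.val : ℕ) : ZMod n) = i := ZMod.natCast_zmod_val i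
  have fX : ∀ y, act hinv (x i) y = y := by
    intro y
    have := (hC.fixed hP hn i.val y).1
    simp only [hi] at this
    exact this
  have fV : ∀ y, act hinv (v i) y = y := by
    intro y
    have := (hC.fixed hP hn i.val y).2
    simp only [hi] at this
    exact this
  have hst := hC.st i.val
  simp only [hi] at hst
  have fW : ∀ y, act hinv (w i) y = y := fun y => hst.fixW (fX y) (fV y)
  exact ⟨eq_one_of_act hinv _ fX, eq_one_of_act hinv _ fV, eq_one_of_act hinv _ fW,
    eq_one_of_act hinv _ fun y => hst.sP.fix (fX y),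
    eq_one_of_act hinv _ fun y => hst.big.fix (fV y),
    eq_one_of_act hinv _ fun y => hst.sR.fix (fW y)⟩

end act

end Pool.Agent.V11246.PS
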