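import Pool.Agent.V11246.Ctb
import Pool.Agent.Helper672.ZFA.Fin

/-!
# Closed subsets of a countable cube are compact
-/

set_option maxHeartbeats 1000000
set_option linter.all false
set_option synthInstance.maxSize 2000

namespace Pool.Agent.Helper672.ZFA.V246P

open FirstOrder FirstOrder.Language
open Pool.Agent.Helper672.ZFA.V246 (Ctb)
open Pool.Agent.H310

universe u

variable {N : Type u} [L.Structure N] [hN : IsModel N] {I : Type u} [ITy N I]

/-- Closed sets of a countable cube. -/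
structure CC (Q : IPow N I → Prop) (B : I → Prop) (e : I → INat N) : Prop where
  iQ : Int N Q
  iB : Int N B
  ie : IntF N e
  inj : ∀ a b, B a → B b → e a = e b → a = b
  sub : ∀ S, Q S → ∀ i, i ∈ S → B i
  cl : ∀ S, ¬ Q S → ∃ F : IPow N I, IFin F ∧ ∀ S', (∀ i, i ∈ F → (i ∈ S ↔ i ∈ S')) → ¬ Q S'

/-- Open sets. -/
def Og (Q : IPow N I → Prop) (U : IPow N (IPow N I)) : Prop :=
  (∀ S, S ∈ U → Q S) ∧ ∀ S, S ∈ U → ∃ F : IPow N I, IFin F ∧ ∀ S' : IPow N I, Q S' →
    (∀ i, i ∈ F → (i ∈ S ↔ i ∈ S')) → S' ∈ U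

/-- Agreement below `k`. -/
def Ek (B : I → Prop) (e : I → INat N) (k : INat N) (S S' : IPow N I) : Prop :=
  ∀ i, B i → e i < k → (i ∈ S ↔ i ∈ S')

/-- There is no finite subcover. -/
def Bd (Q : IPow N I → Prop) (B : I → Prop) (e : I → INat N) (c : IPow N (IPow N (IPow N I)))
    (k : INat N) (S : IPow N I) : Prop :=
  ¬ ∃ c' : IPow N (IPow N (IPow N I)), IFin c' ∧ (∀ U, U ∈ c' → U ∈ c) ∧
    ∀ S', Q S' → Ek B e k S S' → ∃ U, U ∈ c' ∧ S' ∈ U

variable {Q : IPow N I → Prop} {B : I → Prop} {e : I → INat N}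

theorem int_Og (h : Int N Q) : Int N (Og Q) := by
  unfold Og
  refine Int.and (Int.all (Int.imp (Int.mem IntF.snd' IntF.fst') (Int.comp h IntF.snd')))
    (Int.all (Int.imp (Int.mem IntF.snd' IntF.fst') (Int.ex (Int.and (Int.fin IntF.snd')
      (Int.all (Int.imp (Int.comp h IntF.snd') (Int.imp (Int.all (Int.imp ?_ (Int.iff ?_ ?_)))
        ?_)))))))
  · exact Int.mem IntF.snd' (IntF.snd (IntF.fst IntF.fst'))
  · exact Int.mem IntF.snd' (IntF.snd (IntF.fst (IntF.fst IntF.fst')))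
  · exact Int.mem IntF.snd' (IntF.snd IntF.fst')
  · exact Int.mem IntF.snd' (IntF.fst (IntF.fst IntF.fst'))

theorem int_Ek (hB : Int N B) (he : IntF N e) :
    Int N (fun q : (INat N × IPow N I) × IPow N I => Ek B e q.1.1 q.1.2 q.2) := by
  unfold Ek
  refine Int.all (Int.imp (Int.comp hB IntF.snd') (Int.imp (Int.ltN (he.comp IntF.snd')
    (IntF.fst (IntF.fst IntF.fst'))) (Int.iff (Int.mem IntF.snd' (IntF.snd (IntF.fst IntF.fst')))
      (Int.mem IntF.snd' (IntF.snd IntF.fst')))))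

theorem int_Bd (hQ : Int N Q) (hB : Int N B) (he : IntF N e) (c : IPow N (IPow N (IPow N I))) :
    Int N (fun q : INat N × IPow N I => Bd Q B e c q.1 q.2) := by
  unfold Bd
  refine Int.not (Int.ex (Int.and (Int.fin IntF.snd') (Int.and (Int.all (Int.imp
    (Int.mem IntF.snd' (IntF.snd IntF.fst')) (Int.mem IntF.snd' (IntF.const _))))
    (Int.all (Int.imp (Int.comp hQ IntF.snd') (Int.imp ?_ (Int.ex (Int.and
      (Int.mem IntF.snd' (IntF.snd (IntF.fst IntF.fst'))) (Int.mem (IntF.snd IntF.fst')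
        IntF.snd')))))))))
  exact Int.comp₃ (p := fun k S S' => Ek B e k S S') (int_Ek hB he)
    (IntF.fst (IntF.fst IntF.fst')) (IntF.snd (IntF.fst IntF.fst')) IntF.snd'

theorem fin_bound (he : IntF N e) {F : IPow N I} (hF : IFin F) : ∃ k, ∀ i, i ∈ F → e i < k := by
  refine IFin.exists_bound (r := fun i k => e i < k) (Int.ltN (he.comp IntF.fst') IntF.snd')
    (fun b c => ⟨max b c, fun a ha => ?_⟩) ⟨0⟩ hF fun i _ => ⟨(e i).succ, INat.lt_succ_self _⟩
  rcases ha with h | h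
  · exact lt_of_lt_of_le h (le_max_left _ _)
  · exact lt_of_lt_of_le h (le_max_right _ _)

theorem fin_lev (h : CC Q B e) (k : INat N) : ∃ F : IPow N I, IFin F ∧ ∀ i, i ∈ F ↔ B i ∧ e i < k := by
  have hI : Int N (fun i : I => B i ∧ e i < k) := Int.and h.iB (Int.ltN h.ie (IntF.const _))
  refine ⟨sep N fun i => B i ∧ e i < k, ?_, fun i => mem_sep hI⟩
  have h5 : FinP N (fun i : I => B i ∧ e i < k) :=
    FinP.of_inj hI h.ie (fun a b ha hb => h.inj a b ha.1 hb.1) (finP_lt k) fun a ha => ha.2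
  exact h5.fin hI

/-- Agreement on a finite set. -/
theorem exists_k (h : CC Q B e) {F : IPow N I} (hF : IFin F) : ∃ k, ∀ S S',
    (∀ i, i ∈ S → B i) → (∀ i, i ∈ S' → B i) → Ek B e k S S' → ∀ i, i ∈ F → (i ∈ S ↔ i ∈ S') := by
  obtain ⟨k, hk⟩ := fin_bound h.ie hF
  refine ⟨k, fun S S' h1 h2 h3 i hi => ?_⟩
  by_cases hB : B i
  · exact h3 i hB (hk i hi)
  · exact ⟨fun h4 => absurd (h1 i h4) hB, fun h4 => absurd (h2 i h4) hB⟩

theorem compact_cc (h : CC Q B e) (c : IPow N (IPow N (IPow N I))) (hc : ∀ U, U ∈ c → Og Q U)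
    (hcov : ∀ S, Q S → ∃ U, U ∈ c ∧ S ∈ U) : ∃ c' : IPow N (IPow N (IPow N I)), IFin c' ∧
      (∀ U, U ∈ c' → U ∈ c) ∧ ∀ S, Q S → ∃ U, U ∈ c' ∧ S ∈ U := by
  by_contra hcon
  have hBd := int_Bd h.iQ h.iB h.ie c
  have hst : Int N (fun q : (INat N × IPow N I) × I => q.2 ∈ q.1.2 ∨
      (¬ Bd Q B e c q.1.1.succ q.1.2 ∧ B q.2 ∧ e q.2 = q.1.1)) := by
    refine Int.or (Int.mem IntF.snd' (IntF.snd IntF.fst')) (Int.and (Int.not ?_)
      (Int.and (Int.comp h.iB IntF.snd') (Int.eq (h.ie.comp IntF.snd') (IntF.fst IntF.fst'))))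
    exact Int.comp₂ (p := fun k S => Bd Q B e c k S) hBd (IntF.succ (IntF.fst IntF.fst'))
      (IntF.snd IntF.fst')
  have hsF : IntF N (fun q : INat N × IPow N I => sep N fun i => i ∈ q.2 ∨
      (¬ Bd Q B e c q.1.succ q.2 ∧ B i ∧ e i = q.1)) := IntF.sep hst
  obtain ⟨F, hF, F0, FS⟩ : ∃ F : INat N → IPow N I, IntF N F ∧ F 0 = ∅ ∧ ∀ n i, i ∈ F n.succ ↔
      i ∈ F n ∨ (¬ Bd Q B e c n.succ (F n) ∧ B i ∧ e i = n) := by
    refine ⟨fun n => irec (∅ : IPow N I) (fun n s => sep N fun i => i ∈ s ∨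
      (¬ Bd Q B e c n.succ s ∧ B i ∧ e i = n)) n, ?_, ?_, fun n i => ?_⟩
    · exact IntF.irec (IntF.const _) (IntF.comp₂ (p := fun n s => sep N fun i => i ∈ s ∨
        (¬ Bd Q B e c n.succ s ∧ B i ∧ e i = n)) hsF (IntF.snd IntF.fst') IntF.snd') IntF.id
    · exact irec_zero hsF
    · beta_reduce
      rw [irec_succ hsF]
      exact mem_sep (Int.comp (f := fun i : I => ((n, irec (∅ : IPow N I) (fun n s =>
        sep N fun i => i ∈ s ∨ (¬ Bd Q B e c n.succ s ∧ B i ∧ e i = n)) n), i)) hst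
        (IntF.pair (IntF.const _) IntF.id))
  have F1 : ∀ n i, i ∈ F n → B i ∧ e i < n := by
    refine INat.ind (p := fun n => ∀ i, i ∈ F n → B i ∧ e i < n) ?_ ?_ ?_
    · exact Int.all (Int.imp (Int.mem IntF.snd' (hF.comp IntF.fst')) (Int.and
        (Int.comp h.iB IntF.snd') (Int.ltN (h.ie.comp IntF.snd') IntF.fst')))
    · intro i hi
      rw [F0] at hi
      exact absurd hi (by simp)
    · intro n ih i hi
      rcases (FS n i).1 hi with h1 | ⟨-, h1, h2⟩
      · exact ⟨(ih i h1).1, (ih i h1).2.trans (INat.lt_succ_self n)⟩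
      · exact ⟨h1, h2 ▸ INat.lt_succ_self _⟩
  have F2 : ∀ n i, e i < n → (i ∈ F n ↔ i ∈ F (e i).succ) := by
    refine INat.ind (p := fun n => ∀ i, e i < n → (i ∈ F n ↔ i ∈ F (e i).succ)) ?_ ?_ ?_
    · exact Int.all (Int.imp (Int.ltN (h.ie.comp IntF.snd') IntF.fst') (Int.iff
        (Int.mem IntF.snd' (hF.comp IntF.fst')) (Int.mem IntF.snd' (hF.comp (IntF.succ
          (h.ie.comp IntF.snd'))))))
    · intro i hi
      exact absurd hi INat.not_lt_zero
    · intro n ih i hi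
      rcases INat.lt_succ_iff'.1 hi with h1 | h1
      · rw [← ih i h1, FS]
        refine ⟨fun h2 => h2.resolve_right fun h3 => ?_, Or.inl⟩
        rw [h3.2.2] at h1
        exact lt_irrefl _ h1
      · rw [← h1]
  have F3 : ∀ n, Bd Q B e c n (F n) := by
    refine INat.ind (p := fun n => Bd Q B e c n (F n)) ?_ ?_ ?_
    · exact Int.comp₂ (p := fun k S => Bd Q B e c k S) hBd IntF.id hF
    · rintro ⟨c', h1, h2, h3⟩
      exact hcon ⟨c', h1, h2, fun S hS => h3 S hS fun i _ hi => absurd hi INat.not_lt_zero⟩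
    · intro n ih
      by_cases hb : Bd Q B e c n.succ (F n)
      · have h1 : F n.succ = F n := IPow.ext' fun i => by
          rw [FS]
          exact ⟨fun h2 => h2.resolve_right fun h3 => h3.1 hb, Or.inl⟩
        rwa [h1]
      · rintro ⟨c', h1, h2, h3⟩
        refine ih ?_
        obtain ⟨c'', h4, h5, h6⟩ := not_not.1 hb
        refine ⟨c' ∪ c'', h1.union h4, fun U hU => ?_, fun S' hS' hE => ?_⟩
        · rcases mem_union.1 hU with hU | hU
          · exact h2 U hU
          · exact h5 U hU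
        · by_cases h7 : ∃ i, B i ∧ e i = n ∧ i ∈ S'
          · obtain ⟨i, h8, h9, h10⟩ := h7
            obtain ⟨U, h11, h12⟩ := h3 S' hS' fun j hj hjn => by
              rw [FS]
              rcases INat.lt_succ_iff'.1 hjn with h13 | h13
              · rw [← hE j hj h13]
                refine ⟨fun h14 => h14.resolve_right fun h15 => ?_, Or.inl⟩
                rw [h15.2.2] at h13
                exact lt_irrefl _ h13
              · have h14 : j = i := h.inj _ _ hj h8 (h13.trans h9.symm)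
                rw [h14]
                exact ⟨fun _ => h10, fun _ => Or.inr ⟨hb, h8, h9⟩⟩
            exact ⟨U, mem_union.2 (Or.inl h11), h12⟩
          · push Not at h7
            obtain ⟨U, h11, h12⟩ := h6 S' hS' fun j hj hjn => by
              rcases INat.lt_succ_iff'.1 hjn with h13 | h13
              · exact hE j hj h13
              · refine ⟨fun h14 => ?_, fun h14 => absurd h14 (h7 j hj h13)⟩
                have := (F1 n j h14).2
                rw [h13] at this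
                exact absurd this (lt_irrefl _)
            exact ⟨U, mem_union.2 (Or.inr h11), h12⟩
  have hIB : Int N (fun i : I => i ∈ F (e i).succ) :=
    Int.mem IntF.id (hF.comp (IntF.succ h.ie))
  have hSB : ∀ i, i ∈ (sep N fun i => i ∈ F (e i).succ) ↔ i ∈ F (e i).succ := fun i => mem_sep hIB
  have hSBs : ∀ i, i ∈ (sep N fun i => i ∈ F (e i).succ) → B i := fun i hi =>
    (F1 _ i ((hSB i).1 hi)).1
  have hE : ∀ n S', Ek B e n (F n) S' → Ek B e n (sep N fun i => i ∈ F (e i).succ) S' := by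
    intro n S' h1 i hi hin
    rw [hSB, ← F2 n i hin]
    exact h1 i hi hin
  have hex : ∀ n, ∃ S', Q S' ∧ Ek B e n (F n) S' := by
    intro n
    by_contra h1
    push Not at h1
    exact F3 n ⟨∅, IFin.empty, fun U hU => absurd hU (by simp), fun S' hS' hE' =>
      absurd hE' (h1 S' hS')⟩
  have hQ : Q (sep N fun i => i ∈ F (e i).succ) := by
    by_contra h1
    obtain ⟨F₀, h2, h3⟩ := h.cl _ h1
    obtain ⟨k, hk⟩ := exists_k h h2
    obtain ⟨S', h4, h5⟩ := hex k
    exact h3 S' (hk _ _ hSBs (h.sub S' h4) (hE k S' h5)) h4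
  obtain ⟨U, hU, hSU⟩ := hcov _ hQ
  obtain ⟨F₀, h2, h3⟩ := (hc U hU).2 _ hSU
  obtain ⟨k, hk⟩ := exists_k h h2
  refine F3 k ⟨{U}, IFin.singleton U, fun V hV => (mem_singleton.1 hV).symm ▸ hU,
    fun S' hS' hES => ⟨U, mem_singleton.2 rfl, h3 S' hS' ?_⟩⟩
  exact hk _ _ hSBs (h.sub S' hS') (hE k S' hES)

end Pool.Agent.Helper672.ZFA.V246P
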