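import Pool.Agent.V11246.Pa
import Pool.Agent.V11246.Pb
import Pool.Agent.V11246.KDefs
import Pool.Agent.V11246.Spc
import Pool.Agent.V11246.NcoR
import Pool.Agent.H635R2.Ext

/-!
# Compact metrizable spaces in a model
-/

set_option maxHeartbeats 1000000
set_option linter.all false
set_option synthInstance.maxSize 2000

namespace Pool.Agent.Helper672.ZFA.V246P

open FirstOrder FirstOrder.Language
open Pool.Agent.Helper672.ZFA
open Pool.Agent.Helper672.Plain (LSet)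
open Pool.Agent.H635Amen (IsReals ZF)
open Pool.Agent.H310Cards
open Pool.Agent.H310Top (IsTopology IsCompact)
open Pool.Agent.H310Metric (IsMetric)
open Pool.Agent.H310
open Pool.Agent.V11246
open Pool.Agent.Helper672.ZFA.V246

universe u

section

attribute [local instance] Helper672.Plain.toL

variable {N : Type u} [LSet.Structure N] [hZ : Helper672.Plain.Zermelo N]

local instance instModelPc : IsModel N := Helper672.Plain.isModel_toL

noncomputable local instance instPElPc (x : N) : ITy N (Helper672.Plain.El x) :=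
  (inferInstance : ITy N (El x))

variable {I : Type u} [ITy N I] {Q : IPow N I → Prop} {B : I → Prop} {e : I → INat N}

theorem spo_cc (h : CC Q B e) : SpO N Q (Og Q) := by
  refine ⟨h.iQ, int_Og h.iQ, fun U hU => hU.1, fun U hU => ⟨fun S hS => (hU S).1 hS,
    fun S hS => ⟨∅, IFin.empty, fun S' hS' _ => (hU S').2 hS'⟩⟩, fun U V W hU hV hW => ?_,
    fun c W hc hW => ?_⟩
  · refine ⟨fun S hS => hU.1 S ((hW S).1 hS).1, fun S hS => ?_⟩
    obtain ⟨h1, h2⟩ := (hW S).1 hS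
    obtain ⟨F, hF, h3⟩ := hU.2 S h1
    obtain ⟨F', hF', h3'⟩ := hV.2 S h2
    exact ⟨F ∪ F', hF.union hF', fun S' hS' h4 => (hW S').2
      ⟨h3 S' hS' fun i hi => h4 i (mem_union.2 (Or.inl hi)),
        h3' S' hS' fun i hi => h4 i (mem_union.2 (Or.inr hi))⟩⟩
  · refine ⟨fun S hS => ?_, fun S hS => ?_⟩
    · obtain ⟨U, h1, h2⟩ := (hW S).1 hS
      exact (hc U h1).1 S h2
    · obtain ⟨U, h1, h2⟩ := (hW S).1 hS
      obtain ⟨F, hF, h3⟩ := (hc U h1).2 S h2
      exact ⟨F, hF, fun S' hS' h4 => (hW S').2 ⟨U, h1, h3 S' hS' h4⟩⟩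

theorem isCompact_cc (h : CC Q B e) : IsCompact (ts (Og Q)) (xs Q) :=
  isCompact_ts (spo_cc h) (compact_cc h)

theorem isMetrizable_cc (h : CC Q B e) : IsMetrizable (ts (Og Q)) (xs Q) := by
  obtain ⟨r, i1, i2, i3, hr⟩ := H635.exists_reals hZ
  have hx : ∀ z : Helper672.Plain.El (xs Q), ∃ S, Q S ∧ code S = z.1 := fun z =>
    (mem_xs (spo_cc h)).1 z.2
  have hm : Int N (fun q : I × Helper672.Plain.El (xs Q) => Mem (code (M := N) q.1) q.2.1) :=
    Int.of_D₂ (S := fun v => Mem (v 0) (v 1)) (D.memf (DF.var _) (DF.var _)) fun _ _ => Iff.rfl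
  have hT : TR N (fun q : INat N × (Helper672.Plain.El (xs Q) × Helper672.Plain.El (xs Q)) =>
      ∀ i, B i → e i < q.1 → (Mem (code (M := N) i) q.2.1.1 ↔ Mem (code (M := N) i) q.2.2.1)) := by
    refine ⟨?_, fun k a i _ _ => Iff.rfl, fun k a b h1 i h2 h3 => (h1 i h2 h3).symm,
      fun k a b c h1 h2 i h3 h4 => (h1 i h3 h4).trans (h2 i h3 h4),
      fun k k' a b hk h1 i h2 h3 => h1 i h2 (lt_of_lt_of_le h3 hk),
      fun a b i _ h2 => absurd h2 INat.not_lt_zero, fun a b h1 => ?_⟩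
    · refine Int.all (Int.imp (Int.comp h.iB IntF.snd') (Int.imp (Int.ltN (h.ie.comp IntF.snd')
        (IntF.fst IntF.fst')) (Int.iff ?_ ?_)))
      · exact Int.comp₂ (p := fun (i : I) (z : Helper672.Plain.El (xs Q)) =>
          Mem (code (M := N) i) z.1) hm IntF.snd' (IntF.fst (IntF.snd IntF.fst'))
      · exact Int.comp₂ (p := fun (i : I) (z : Helper672.Plain.El (xs Q)) =>
          Mem (code (M := N) i) z.1) hm IntF.snd' (IntF.snd (IntF.snd IntF.fst'))
    · obtain ⟨S, hS, h2⟩ := hx a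
      obtain ⟨S', hS', h3⟩ := hx b
      refine Subtype.ext ?_
      rw [← h2, ← h3]
      refine congrArg code (IPow.ext' fun i => ?_)
      by_cases hB : B i
      · have h4 := h1 (e i).succ i hB (INat.lt_succ_self _)
        rw [← h2, ← h3] at h4
        exact (mem_codeB'.symm.trans h4).trans mem_codeB'
      · exact ⟨fun h5 => absurd (h.sub _ hS i h5) hB, fun h5 => absurd (h.sub _ hS' i h5) hB⟩
  obtain ⟨d, hd, q, hpos, hlim, hdle, hdlt⟩ := exists_dT (hM := instModelPc) hT hr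
  refine ⟨r, i1, i2, i3, hr, d, hd, fun u => ⟨fun hu => ?_, fun hu => ?_⟩⟩
  · obtain ⟨U, hU, rfl⟩ := (mem_ts (spo_cc h)).1 hu
    refine ⟨fun z hz => ?_, fun a ha => ?_⟩
    · obtain ⟨S, hS, rfl⟩ := mem_codeB.1 hz
      exact (mem_xs' (spo_cc h)).2 (hU.1 S hS)
    · obtain ⟨S, hS, h2⟩ := hx a
      rw [← h2] at ha
      obtain ⟨F, hF, h3⟩ := hU.2 S (mem_codeB'.1 ha)
      obtain ⟨k, hk⟩ := exists_k h hF
      refine ⟨q k, hpos k, fun b hb => ?_⟩
      obtain ⟨S', hS', h4⟩ := hx b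
      rw [← h4]
      refine mem_codeB'.2 (h3 S' hS' (hk S S' (h.sub _ hS) (h.sub _ hS') fun i hi hik => ?_))
      have h5 := hdlt _ _ _ hb i hi hik
      rw [← h2, ← h4] at h5
      exact (mem_codeB'.symm.trans h5).trans mem_codeB'
  · obtain ⟨U, rfl, hUQ⟩ := exists_sub (spo_cc h) hu.1
    refine (mem_ts' (spo_cc h)).2 ⟨hUQ, fun S hS => ?_⟩
    obtain ⟨ε, hε, h1⟩ := hu.2 ⟨code S, (mem_xs' (spo_cc h)).2 (hUQ S hS)⟩ (mem_codeB'.2 hS)
    obtain ⟨n, hn⟩ := hlim ε hε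
    obtain ⟨F, hF, hF'⟩ := fin_lev h n
    refine ⟨F, hF, fun S' hS' h2 => ?_⟩
    refine mem_codeB'.1 (h1 ⟨code S', (mem_xs' (spo_cc h)).2 hS'⟩
      ((hdle n _ _ fun i hi hin => ?_).trans_lt hn))
    have h3 := h2 i ((hF' i).2 ⟨hi, hin⟩)
    exact (mem_codeB'.trans h3).trans mem_codeB'.symm

end

end Pool.Agent.Helper672.ZFA.V246P
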