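import Pool.Agent.V11246.Pc
import Pool.Agent.V11246.PDefs

/-!
# Sequences and products of spaces in a model
-/

set_option maxHeartbeats 1000000
set_option linter.all false
set_option synthInstance.maxSize 2000

namespace Pool.Agent.Helper672.ZFA.V246P

open FirstOrder FirstOrder.Language
open Pool.Agent.Helper672.ZFA
open Pool.Agent.Helper672.Plain (LSet)
open Pool.Agent.H635Amen (IsReals ZF)
open Pool.Agent.H310Cards
open Pool.Agent.H310Top (IsTopology IsCompact)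
open Pool.Agent.H310Metric (IsMetric)
open Pool.Agent.H310
open Pool.Agent.V11246
open Pool.Agent.Helper672.ZFA.V246

universe u

theorem int_Og' {N : Type u} [L.Structure N] [IsModel N] {I : Type u} [ITy N I] {γ : Type u}
    [ITy N γ] {Q : γ → IPow N I → Prop} (h : Int N (fun q : γ × IPow N I => Q q.1 q.2)) :
    Int N (fun q : γ × IPow N (IPow N I) => Og (Q q.1) q.2) := by
  unfold Og
  refine Int.and (Int.all (Int.imp (Int.mem IntF.snd' (IntF.snd IntF.fst'))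
    (Int.comp₂ (p := fun g S => Q g S) h (IntF.fst IntF.fst') IntF.snd')))
    (Int.all (Int.imp (Int.mem IntF.snd' (IntF.snd IntF.fst')) (Int.ex (Int.and (Int.fin IntF.snd')
      (Int.all (Int.imp (Int.comp₂ (p := fun g S => Q g S) h
        (IntF.fst (IntF.fst (IntF.fst IntF.fst'))) IntF.snd') (Int.imp (Int.all (Int.imp ?_
          (Int.iff ?_ ?_))) ?_)))))))
  · exact Int.mem IntF.snd' (IntF.snd (IntF.fst IntF.fst'))
  · exact Int.mem IntF.snd' (IntF.snd (IntF.fst (IntF.fst IntF.fst')))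
  · exact Int.mem IntF.snd' (IntF.snd IntF.fst')
  · exact Int.mem IntF.snd' (IntF.snd (IntF.fst (IntF.fst IntF.fst')))

section

attribute [local instance] Helper672.Plain.toL

variable {N : Type u} [LSet.Structure N] [hZ : Helper672.Plain.Zermelo N]

local instance instModelPd : IsModel N := Helper672.Plain.isModel_toL

noncomputable local instance instPElPd (x : N) : ITy N (Helper672.Plain.El x) :=
  (inferInstance : ITy N (El x))

theorem exists_ifun {β : Type u} [ITy N β] {h w s : N} (hw : IsOmega w) (hf : IsFun h w s)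
    (hv : ∀ (n : INat N) y, App h (code n) y → ∃ S : β, code S = y) :
    ∃ φ : IFun N (INat N) β, code φ = h := by
  have h1 : IsFun h (dom N (INat N)) (dom N β) := by
    refine ⟨fun q hq => ?_, fun x hx => ?_⟩
    · obtain ⟨x, y, h2, -, h3⟩ := hf.1 q hq
      obtain ⟨n, rfl⟩ := (mem_omega hw).1 h2
      obtain ⟨S, rfl⟩ := hv n y ⟨q, h3, hq⟩
      exact ⟨_, _, code_mem_domP n, code_mem_domP S, h3⟩
    · obtain ⟨n, rfl⟩ := mem_domP.1 hx
      exact hf.2 _ ((mem_omega hw).2 ⟨n, rfl⟩)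
  obtain ⟨φ, h2, h3⟩ := exists_fun (α := INat N) (β := β) h1 (fun x => code_mem_domP x)
    fun z hz => mem_domP.1 hz
  refine ⟨⟨φ, h2⟩, extM fun z => ?_⟩
  change Plain.Mem z _ ↔ Plain.Mem z _
  constructor
  · intro hz
    obtain ⟨n, rfl⟩ := mem_code_fun.1 hz
    exact app_iff.1 ((h3 n (φ n)).1 rfl)
  · intro hz
    obtain ⟨x, y, h4, -, h5⟩ := h1.1 z hz
    obtain ⟨n, rfl⟩ := mem_domP.1 h4
    obtain ⟨S, rfl⟩ := hv n y ⟨z, h5, hz⟩
    refine mem_code_fun.2 ⟨n, ?_⟩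
    change z = op (code n) (code (φ n))
    rw [(h3 n S).2 ⟨z, h5, hz⟩]
    exact ordPair_iff.1 h5

variable {I : Type u} [ITy N I] {Q : INat N → IPow N I → Prop}

/-- The points of the product. -/
def Pp (Q : INat N → IPow N I → Prop) (h : IFun N (INat N) (IPow N I)) : Prop := ∀ n, Q n (h n)

/-- The open sets of the product. -/
def Ot (Q : INat N → IPow N I → Prop) (U : IPow N (IFun N (INat N) (IPow N I))) : Prop :=
  (∀ h, h ∈ U → Pp Q h) ∧ ∀ h, h ∈ U → ∃ b : IPow N (INat N × IPow N (IPow N I)), IFin b ∧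
    (∀ q, q ∈ b → Og (Q q.1) q.2 ∧ h q.1 ∈ q.2) ∧
      ∀ h', Pp Q h' → (∀ q, q ∈ b → h' q.1 ∈ q.2) → h' ∈ U

variable (hQ : Int N (fun q : INat N × IPow N I => Q q.1 q.2))

include hQ

theorem int_Pp : Int N (Pp Q) := by
  unfold Pp
  exact Int.all (Int.comp₂ (p := fun g S => Q g S) hQ IntF.snd' (IntF.app IntF.fst' IntF.snd'))

theorem int_Ot : Int N (Ot Q) := by
  have h1 := int_Pp hQ
  have h2 := int_Og' hQ
  unfold Ot
  refine Int.and (Int.all (Int.imp (Int.mem IntF.snd' IntF.fst') (Int.comp h1 IntF.snd')))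
    (Int.all (Int.imp (Int.mem IntF.snd' IntF.fst') (Int.ex (Int.and (Int.fin IntF.snd')
      (Int.and (Int.all (Int.imp (Int.mem IntF.snd' (IntF.snd IntF.fst')) (Int.and ?_ ?_)))
        (Int.all (Int.imp (Int.comp h1 IntF.snd') (Int.imp (Int.all (Int.imp
          (Int.mem IntF.snd' (IntF.snd (IntF.fst IntF.fst'))) ?_)) ?_))))))))
  · exact Int.comp₂ (p := fun g U => Og (Q g) U) h2 (IntF.fst IntF.snd') (IntF.snd IntF.snd')
  · exact Int.mem (IntF.app (IntF.snd (IntF.fst IntF.fst')) (IntF.fst IntF.snd'))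
      (IntF.snd IntF.snd')
  · exact Int.mem (IntF.app (IntF.snd IntF.fst') (IntF.fst IntF.snd')) (IntF.snd IntF.snd')
  · exact Int.mem IntF.snd' (IntF.fst (IntF.fst IntF.fst'))

theorem intF_Q : IntF N (fun n : INat N => sep N (Q n)) := IntF.sep hQ

theorem intF_Og : IntF N (fun n : INat N => sep N (Og (Q n))) := IntF.sep (int_Og' hQ)

/-- The sequence of the sets of the points. -/
noncomputable def sqx : N := code (⟨_, intF_Q hQ⟩ : IFun N (INat N) (IPow N (IPow N I)))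

/-- The sequence of the topologies. -/
noncomputable def sqt : N := code (⟨_, intF_Og hQ⟩ : IFun N (INat N) (IPow N (IPow N (IPow N I))))

theorem app_sqx {x y : N} : App (sqx hQ) x y ↔ ∃ n : INat N, code n = x ∧ xs (Q n) = y := app_code

theorem app_sqt {x y : N} : App (sqt hQ) x y ↔ ∃ n : INat N, code n = x ∧ ts (Og (Q n)) = y :=
  app_code

theorem isFun_sqx : ∃ s, IsFun (sqx hQ) (dom N (INat N)) s :=
  ⟨_, isFun_code _ (fun z => mem_domP) fun n => code_mem_domP _⟩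

theorem isFun_sqt : ∃ s, IsFun (sqt hQ) (dom N (INat N)) s :=
  ⟨_, isFun_code _ (fun z => mem_domP) fun n => code_mem_domP _⟩

variable (hcc : ∀ n, ∃ (B : I → Prop) (e : I → INat N), CC (Q n) B e)

include hcc

theorem isCMSeq : IsCMSeq (dom N (INat N)) (sqx hQ) (sqt hQ) := by
  refine ⟨isOmega_dom, isFun_sqx hQ, isFun_sqt hQ, fun n x t h1 h2 => ?_⟩
  obtain ⟨n, rfl, rfl⟩ := (app_sqx hQ).1 h1
  obtain ⟨m, h3, rfl⟩ := (app_sqt hQ).1 h2
  obtain rfl := ITy.inj h3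
  obtain ⟨B, e, h4⟩ := hcc m
  exact ⟨isCompact_cc h4, isMetrizable_cc h4⟩

theorem spo_pp : SpO N (Pp Q) (Ot Q) := by
  refine ⟨int_Pp hQ, int_Ot hQ, fun U hU => hU.1, fun U hU => ⟨fun S hS => (hU S).1 hS,
    fun S hS => ⟨∅, IFin.empty, fun q hq => absurd hq (by simp), fun S' hS' _ => (hU S').2 hS'⟩⟩,
    fun U V W hU hV hW => ?_, fun c W hc hW => ?_⟩
  · refine ⟨fun S hS => hU.1 S ((hW S).1 hS).1, fun S hS => ?_⟩
    obtain ⟨h1, h2⟩ := (hW S).1 hS
    obtain ⟨F, hF, h4, h3⟩ := hU.2 S h1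
    obtain ⟨F', hF', h4', h3'⟩ := hV.2 S h2
    refine ⟨F ∪ F', hF.union hF', fun q hq => ?_, fun S' hS' h5 => (hW S').2
      ⟨h3 S' hS' fun i hi => h5 i (mem_union.2 (Or.inl hi)),
        h3' S' hS' fun i hi => h5 i (mem_union.2 (Or.inr hi))⟩⟩
    rcases mem_union.1 hq with hq | hq
    · exact h4 q hq
    · exact h4' q hq
  · refine ⟨fun S hS => ?_, fun S hS => ?_⟩
    · obtain ⟨U, h1, h2⟩ := (hW S).1 hS
      exact (hc U h1).1 S h2
    · obtain ⟨U, h1, h2⟩ := (hW S).1 hS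
      obtain ⟨F, hF, h4, h3⟩ := (hc U h1).2 S h2
      exact ⟨F, hF, h4, fun S' hS' h5 => (hW S').2 ⟨U, h1, h3 S' hS' h5⟩⟩

theorem isProduct_pp : IsProduct (xs (Pp Q)) (dom N (INat N)) (sqx hQ) := by
  have hs := spo_pp hQ hcc
  intro h
  constructor
  · intro hh
    obtain ⟨φ, h1, rfl⟩ := (mem_xs hs).1 hh
    refine ⟨⟨_, isFun_code _ (fun z => mem_domP) fun n => code_mem_domP _⟩, fun n x y h2 h3 => ?_⟩
    obtain ⟨n, rfl, rfl⟩ := (app_sqx hQ).1 h2
    obtain ⟨m, h4, rfl⟩ := app_code.1 h3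
    obtain rfl := ITy.inj h4
    obtain ⟨B, e, h5⟩ := hcc m
    exact (mem_xs' (spo_cc h5)).2 (h1 m)
  · rintro ⟨⟨s, h1⟩, h2⟩
    have hv : ∀ (n : INat N) y, App h (code n) y → ∃ S : IPow N I, Q n S ∧ code S = y := by
      intro n y hy
      have h3 := h2 (code n) (xs (Q n)) y ((app_sqx hQ).2 ⟨n, rfl, rfl⟩) hy
      obtain ⟨B, e, h5⟩ := hcc n
      exact (mem_xs (spo_cc h5)).1 h3
    obtain ⟨φ, rfl⟩ := exists_ifun (β := IPow N I) isOmega_dom h1 fun n y hy => by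
      obtain ⟨S, -, h3⟩ := hv n y hy
      exact ⟨S, h3⟩
    refine (mem_xs' hs).2 fun n => ?_
    obtain ⟨S, h3, h4⟩ := hv n (code (φ n)) (app_code.2 ⟨n, rfl, rfl⟩)
    rwa [← ITy.inj h4]

theorem isProductTop_pp : IsProductTop (ts (Ot Q)) (xs (Pp Q)) (sqt hQ) := by
  have hs := spo_pp hQ hcc
  intro u
  constructor
  · intro hu
    obtain ⟨U, hU, rfl⟩ := (mem_ts hs).1 hu
    refine ⟨fun h hh => ?_, fun h hh => ?_⟩
    · obtain ⟨φ, h1, rfl⟩ := mem_codeB.1 hh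
      exact (mem_xs' hs).2 (hU.1 φ h1)
    · obtain ⟨φ, h1, rfl⟩ := mem_codeB.1 hh
      obtain ⟨b, h2, h3, h4⟩ := hU.2 φ h1
      refine ⟨code b, isFinite_of_fin h2, fun q hq => ?_, fun h' hh' h5 => ?_⟩
      · obtain ⟨⟨n, V⟩, h6, rfl⟩ := mem_codeB.1 hq
        obtain ⟨h7, h8⟩ := h3 _ h6
        obtain ⟨B, e, h9⟩ := hcc n
        exact ⟨code n, code V, ts (Og (Q n)), code (φ n), ordPair_iff.2 rfl,
          (app_sqt hQ).2 ⟨n, rfl, rfl⟩, (mem_ts' (spo_cc h9)).2 h7, app_code.2 ⟨n, rfl, rfl⟩,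
          mem_codeB'.2 h8⟩
      · obtain ⟨φ', h6, rfl⟩ := (mem_xs hs).1 hh'
        refine mem_codeB'.2 (h4 φ' h6 fun q hq => ?_)
        exact mem_codeB'.1 (h5 (code q.1) (code q.2) (code (φ' q.1))
          ⟨code q, ordPair_iff.2 rfl, mem_codeB'.2 hq⟩ (app_code.2 ⟨q.1, rfl, rfl⟩))
  · rintro ⟨h1, h2⟩
    obtain ⟨U, rfl, hU⟩ := exists_sub hs h1
    refine (mem_ts' hs).2 ⟨hU, fun φ hφ => ?_⟩
    obtain ⟨b, h3, h4, h5⟩ := h2 (code φ) (mem_codeB'.2 hφ)
    have h6 : ∀ z, Plain.Mem z b → ∃ q : INat N × IPow N (IPow N I), code q = z ∧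
        Og (Q q.1) q.2 ∧ φ q.1 ∈ q.2 := by
      intro z hz
      obtain ⟨n, v, t, y, h7, h8, h9, h10, h11⟩ := h4 z hz
      obtain ⟨n, rfl, rfl⟩ := (app_sqt hQ).1 h8
      obtain ⟨B, e, h12⟩ := hcc n
      obtain ⟨V, h13, rfl⟩ := (mem_ts (spo_cc h12)).1 h9
      obtain ⟨m, h14, rfl⟩ := app_code.1 h10
      obtain rfl := ITy.inj h14
      exact ⟨(m, V), (ordPair_iff.1 h7).symm, h13, mem_codeB'.1 h11⟩
    obtain ⟨b₀, rfl⟩ := exists_codeB (α := INat N × IPow N (IPow N I)) (u := b) fun z hz => by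
      obtain ⟨q, h7, -⟩ := h6 z hz
      exact ⟨q, h7⟩
    refine ⟨b₀, fin_of_isFinite h3, fun q hq => ?_, fun φ' hφ' h7 => ?_⟩
    · obtain ⟨q', h7, h8⟩ := h6 (code q) (mem_codeB'.2 hq)
      rwa [← ITy.inj h7]
    · refine mem_codeB'.1 (h5 (code φ') ((mem_xs' hs).2 hφ') fun n v y h8 h9 => ?_)
      obtain ⟨n, rfl, rfl⟩ := app_code.1 h9
      obtain ⟨z, h10, h11⟩ := h8
      obtain ⟨⟨m, V⟩, h12, rfl⟩ := mem_codeB.1 h11
      obtain ⟨h13, rfl⟩ := op_inj ((ordPair_iff.1 h10).symm.trans (show code (m, V) = op (code m) (code V) from rfl))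
      obtain rfl := ITy.inj h13
      exact mem_codeB'.2 (h7 _ h12)

end

end Pool.Agent.Helper672.ZFA.V246P
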