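import Pool.Agent.V11246.PStage
import Pool.Agent.V11246.IChain

set_option autoImplicit false

/-!
# The periodic chain for p in [0,1], q ≥ 1, r ≥ 0
-/

namespace Pool.Agent.V11246.QC

open Pool.Agent.TH821.Hex Pool.Agent.TH821.Neg Pool.Agent.V11246.PS

variable {Ω : Type*} [CompleteLinearOrder Ω]

/-- One stage: `a`, `c` before and `e`, `d` after it. -/
structure QStage (X V W P Q R a e c d : Ω ≃o Ω) : Prop where
  prod : ∀ v, X (V (W v)) = v
  sP : Small X P
  big : Big V Q
  fR : Follows W R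
  hA : ∀ y, a y = P (X (V (Q y)))
  hE : ∀ y, e (X y) = P (X (Q y))
  hW : ∀ y, e y = a (W y)
  hc : ∀ y, c y = P (W.symm (R.symm y))
  hd : ∀ y, d y = P (X (R.symm y))

theorem QStage.dual {X V W P Q R a e c d : Ω ≃o Ω} (h : QStage X V W P Q R a e c d) :
    QStage (Ω := Ωᵒᵈ) X.dual V.dual W.dual P.dual Q.dual R.dual a.dual e.dual c.dual d.dual :=
  ⟨fun v => h.prod v, h.sP.dual, h.big.dual, h.fR.dual, fun y => h.hA y, fun y => h.hE y,
    fun y => h.hW y, fun y => h.hc y, fun y => h.hd y⟩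

section stage
variable {X V W P Q R a e c d : Ω ≃o Ω}

theorem QStage.xv (h : QStage X V W P Q R a e c d) (u : Ω) : X (V u) = W.symm u := by
  have := h.prod (W.symm u)
  rwa [W.apply_symm_apply] at this

theorem QStage.vw (h : QStage X V W P Q R a e c d) (u : Ω) : V (W u) = X.symm u := by
  rw [← X.injective.eq_iff, h.prod, X.apply_symm_apply]

/-- `X` is up at `f`. -/
theorem QStage.xup (h : QStage X V W P Q R a e c d) {y f : Ω} (hy : y < c y) (hf : a f ≤ f)
    (h1 : y ≤ f) (h2 : f ≤ c y) : f < X f := by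
  by_contra hX
  rw [not_lt] at hX
  have hmono : c y ≤ P (W.symm (R.symm f)) := by
    rw [h.hc]
    exact P.le_iff_le.mpr (W.symm.le_iff_le.mpr (R.symm.le_iff_le.mpr h1))
  have hs : P.symm f ≤ W.symm (R.symm f) := by
    rw [symm_le_iff']; exact h2.trans hmono
  have hfp : f ≤ P.symm f := by
    rw [le_symm_iff]; exact (h.sP.down f hX).2
  have hwf : W f ≤ f := by
    by_contra h3
    rw [not_le] at h3
    have h4 : R.symm f ≤ f := (symm_le_iff' R).mpr (h.fR.up f h3.le)
    have h5 : W.symm (R.symm f) < f := by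
      rw [symm_lt_iff']; exact lt_of_le_of_lt h4 h3
    exact absurd ((hfp.trans hs).trans_lt h5) (lt_irrefl _)
  have ht : W.symm (Q f) ≤ P.symm f := by
    rw [le_symm_iff, ← h.xv]
    rw [h.hA] at hf
    exact hf
  have hpx : P.symm f ≤ X.symm f := by
    have h3 : X (P.symm f) ≤ P.symm f := by
      rw [le_symm_iff, ← h.sP.comm, P.apply_symm_apply]; exact hX
    have h4 := (h.sP.down _ h3).1
    rw [P.apply_symm_apply] at h4
    rw [le_symm_iff]; exact h4
  have hxv : X.symm f ≤ V f := by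
    rw [symm_le_iff', h.xv, le_symm_iff]; exact hwf
  have hvq : V f ≤ Q f := h.big.up f ((hfp.trans hpx).trans hxv)
  have hqw : Q f ≤ W (V f) := by
    rw [← symm_le_iff']; exact ht.trans (hpx.trans hxv)
  rcases hwf.eq_or_lt with h3 | h3
  · have h4 : R f = f := h.fR.fix h3
    have h5 : R.symm f = f := by rw [OrderIso.symm_apply_eq]; exact h4.symm
    have h6 : W.symm f = f := by rw [OrderIso.symm_apply_eq]; exact h3.symm
    rw [h5, h6] at hmono
    have h7 : P f ≤ f := (h.sP.down f hX).2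
    have h8 : c f = P f := by rw [h.hc, h5, h6]
    have h9 : c y = c f := by
      rw [h8]; exact le_antisymm hmono (h7.trans h2)
    have h10 : y = f := c.injective h9
    rw [h9, h8, h10] at hy
    exact absurd hy (not_lt.mpr h7)
  · have hfv : f ≤ V f := (hfp.trans hpx).trans hxv
    obtain ⟨o, o1, o2, o3⟩ := fixDU W hfv h3 (hvq.trans hqw)
    have h4 : R.symm o = o := by rw [OrderIso.symm_apply_eq]; exact (h.fR.fix o3).symm
    have h5 : W.symm o = o := by rw [OrderIso.symm_apply_eq]; exact o3.symm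
    have h6 : W.symm (R.symm f) < o := by
      have := W.symm.lt_iff_lt.mpr (R.symm.lt_iff_lt.mpr o1)
      rwa [h4, h5] at this
    have h7 : Q f < o := by
      have := W.lt_iff_lt.mpr (lt_of_le_of_lt (ht.trans hs) h6)
      rwa [W.apply_symm_apply, o3] at this
    exact absurd (h7.trans_le (o2.trans hvq)) (lt_irrefl _)

/-- The step. -/
theorem QStage.step (h : QStage X V W P Q R a e c d) {y f : Ω} (hy : y < c y) (hf : a f ≤ f)
    (h1 : y ≤ f) (h2 : f ≤ c y) : ∃ g, e g ≤ g ∧ f < g ∧ g ≤ d y := by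
  have hX := h.xup hy hf h1 h2
  by_contra hcon
  have hup : ∀ g, f < g → g ≤ d y → g < e g := by
    intro g g1 g2
    by_contra g3
    exact hcon ⟨g, not_lt.mp g3, g1, g2⟩
  -- `b`
  obtain ⟨b, hb⟩ : ∃ b, b = Q.symm (R.symm y) := ⟨_, rfl⟩
  have hab : a b = c y := by
    rw [h.hA, hb, Q.apply_symm_apply, h.xv, h.hc]
  have hdb : d y = P (X (Q b)) := by
    rw [hb, Q.apply_symm_apply, h.hd]
  have hfb : f ≤ b := by
    rw [← a.le_iff_le, hab]; exact hf.trans h2
  have hPf : f ≤ P f ∧ P f ≤ X f := h.sP.up f hX.le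
  have hde : e (X f) ≤ d y := by
    rw [hdb, h.hE]
    exact P.le_iff_le.mpr (X.le_iff_le.mpr (Q.le_iff_le.mpr hfb))
  rcases le_or_gt (X f) (d y) with c1 | c1
  · have h3 := hup _ hX c1
    rw [h.hE] at h3
    have hv : V f < f := by
      by_contra h4
      rw [not_lt] at h4
      have h5 : f ≤ V (Q f) := h4.trans (V.le_iff_le.mpr (h4.trans (h.big.up f h4)))
      have h6 : P (X f) ≤ a f := by
        rw [h.hA]; exact P.le_iff_le.mpr (X.le_iff_le.mpr h5)
      have h7 : P f < P (X f) := P.lt_iff_lt.mpr hX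
      exact absurd (((hPf.1.trans_lt h7).trans_le h6).trans_le hf) (lt_irrefl _)
    have h4 : Q f ≤ V f := h.big.down f hv.le
    have h5 : P (X (Q f)) ≤ P (W.symm f) := by
      rw [← h.xv]; exact P.le_iff_le.mpr (X.le_iff_le.mpr h4)
    have h6 : f < W.symm f := by
      rw [← P.lt_iff_lt]
      exact (hPf.2.trans_lt h3).trans_le h5
    have h7 : W f < f := (lt_symm_iff W).mp h6
    have h8 : e f < f := by
      rw [h.hW]; exact lt_of_lt_of_le (a.lt_iff_lt.mpr h7) hf
    have h9 : X f ≤ e (X f) := by rw [h.hE]; exact h3.le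
    obtain ⟨g, g1, g2, g3⟩ := fixDU e hX.le h8 h9
    have := hup g g1 (g2.trans c1)
    rw [g3] at this
    exact lt_irrefl _ this
  · have h3 : e (X f) ≤ f := by
      by_contra h4
      rw [not_le] at h4
      have h5 := e.lt_iff_lt.mp (hup _ h4 hde)
      exact absurd (h5.trans_le (hde.trans c1.le)) (lt_irrefl _)
    obtain ⟨u, hu⟩ : ∃ u, u = X.symm (P.symm f) := ⟨_, rfl⟩
    have hpu : P (X u) = f := by rw [hu, X.apply_symm_apply, P.apply_symm_apply]
    have h4 : Q f ≤ u := by
      rw [← X.le_iff_le, ← P.le_iff_le, hpu, ← h.hE]; exact h3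
    have h5 : u < f := by
      rw [← X.lt_iff_lt, ← P.lt_iff_lt, hpu]
      exact hPf.1.trans_lt (P.lt_iff_lt.mpr hX)
    have hv : V f < f := by
      by_contra h6
      rw [not_lt] at h6
      exact absurd (((h6.trans (h.big.up f h6)).trans h4).trans_lt h5) (lt_irrefl _)
    have hvu : V u < u := by
      by_contra h6
      rw [not_lt] at h6
      obtain ⟨o, o1, o2, o3⟩ : ∃ o, u ≤ o ∧ o < f ∧ V o = o := by
        rcases h6.eq_or_lt with h7 | h7
        · exact ⟨u, le_rfl, h5, h7.symm⟩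
        · obtain ⟨o, o1, o2, o3⟩ := fixUD V h5.le h7 hv.le
          refine ⟨o, o1.le, lt_of_le_of_ne o2 ?_, o3⟩
          intro h8
          rw [h8] at o3
          exact absurd o3 hv.ne
      have h8 := Q.lt_iff_lt.mpr o2
      rw [h.big.fix o3] at h8
      exact absurd ((h8.trans_le h4).trans_le o1) (lt_irrefl _)
    have h6 : u ≤ V (Q b) := by
      rw [← X.le_iff_le, ← P.le_iff_le, hpu, ← h.hA, hab]; exact h2
    have h7 : u < Q b := by
      rw [← V.lt_iff_lt]; exact hvu.trans_le h6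
    have h8 : f < d y := by
      rw [hdb, ← hpu]; exact P.lt_iff_lt.mpr (X.lt_iff_lt.mpr h7)
    have h9 := hup _ h8 le_rfl
    have h10 : e (d y) < e (X f) := e.lt_iff_lt.mpr c1
    exact absurd (((h9.trans h10).trans_le h3).trans h8) (lt_irrefl _)

/-- `X` is not up at `X⁻¹ f` for a common fixed point `f` of `e` and `d`. -/
theorem QStage.not_xup (h : QStage X V W P Q R a e c d) {o : Ω} (he : e (X o) = X o)
    (hd : d (X o) = X o) : ¬ o < X o := by
  intro hX
  have h1 : P (Q o) = o := by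
    rw [h.hE, ← h.sP.comm] at he
    exact X.injective he
  have h2 : R.symm (X o) = P.symm o := by
    rw [h.hd, ← h.sP.comm] at hd
    have := X.injective hd
    rw [← P.injective.eq_iff, this, P.apply_symm_apply]
  have h3 : X o = R (P.symm o) := by
    rw [← h2, R.apply_symm_apply]
  have h4 : P.symm o ≤ o := (symm_le_iff' P).mpr (h.sP.up o hX.le).1
  have h5 : P.symm o < W (P.symm o) := by
    by_contra h6
    rw [not_lt] at h6
    have h7 := h.fR.down _ h6
    rw [← h3] at h7
    exact absurd (hX.trans_le (h7.trans h4)) (lt_irrefl _)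
  have h6 : Q o = P.symm o := by
    rw [← P.injective.eq_iff, h1, P.apply_symm_apply]
  have h7 : V o ≤ o := by
    by_contra h8
    rw [not_le] at h8
    have h9 := h.big.up o h8.le
    rw [h6] at h9
    exact absurd ((h8.trans_le h9).trans_le h4) (lt_irrefl _)
  have h8 : P.symm o ≤ V o := by
    rw [← h6]; exact h.big.down o h7
  have h9 : X.symm o ≤ P.symm o := by
    rw [le_symm_iff]
    have h10 : X.symm o ≤ X (X.symm o) := by
      rw [X.apply_symm_apply]; exact (symm_le_iff' X).mpr hX.le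
    have := (h.sP.up _ h10).2
    rwa [X.apply_symm_apply] at this
  have h10 : W o ≤ o := by
    rw [← le_symm_iff, ← h.xv, ← symm_le_iff']
    exact h9.trans h8
  obtain ⟨w, w1, w2, w3⟩ := fixUD W h4 h5 h10
  have h11 := R.lt_iff_lt.mpr w1
  rw [← h3, h.fR.fix w3] at h11
  exact absurd ((h11.trans_le w2).trans hX) (lt_irrefl _)

/-- A common fixed point of `e` and `d` is fixed by `X`, `V`, `W`. -/
theorem QStage.fix (h : QStage X V W P Q R a e c d) {f : Ω} (he : e f = f) (hd : d f = f) :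
    X f = f ∧ V f = f ∧ W f = f := by
  have e1 : X (X.symm f) = f := X.apply_symm_apply f
  have he' : e (X (X.symm f)) = X (X.symm f) := by rw [e1]; exact he
  have hd' : d (X (X.symm f)) = X (X.symm f) := by rw [e1]; exact hd
  have h1 : ¬ X.symm f < X (X.symm f) := h.not_xup he' hd'
  have h2 : ¬ X (X.symm f) < X.symm f :=
    QStage.not_xup (Ω := Ωᵒᵈ) h.dual (o := X.symm f) he' hd'
  rw [e1] at h1 h2
  have h3 : X.symm f = f := le_antisymm (not_lt.mp h2) (not_lt.mp h1)
  have hx : X f = f := fix_of_symm h3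
  have h4 : P (Q f) = f := by
    have h5 := h.hE f
    rw [hx, he, ← h.sP.comm] at h5
    have h6 : X (P (Q f)) = X f := by rw [hx]; exact h5.symm
    exact X.injective h6
  have h5 : Q f = f := by
    rw [← P.injective.eq_iff, h4, h.sP.fix hx]
  have hv : V f = f := by
    rcases lt_trichotomy (V f) f with h6 | h6 | h6
    · have := h.big.down f h6.le
      rw [h5] at this
      exact absurd h6 (not_lt.mpr this)
    · exact h6
    · have := h.big.up f h6.le
      rw [h5] at this
      exact absurd h6 (not_lt.mpr this)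
  refine ⟨hx, hv, ?_⟩
  apply V.injective
  rw [h.vw, h3, hv]

/-- If `e y > y` then `W y < y`. -/
theorem QStage.wdown (h : QStage X V W P Q R a e c d)
    (hk : ∀ u, u < e u → u ≤ d u) (hfix : ∀ u, e u = u → X u = u) {y : Ω} (hy : y < e y) :
    W y < y := by
  by_contra hw
  rw [not_lt] at hw
  have h1 := hk y hy
  rw [h.hd] at h1
  have h2 : R.symm y ≤ y := (symm_le_iff' R).mpr (h.fR.up y hw)
  have h3 : y ≤ P (X y) := h1.trans (P.le_iff_le.mpr (X.le_iff_le.mpr h2))
  have hx : y ≤ X y := by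
    by_contra h4
    rw [not_le] at h4
    have h5 : P (X y) ≤ X y := (h.sP.down (X y) (X.lt_iff_lt.mpr h4).le).2
    exact absurd ((h3.trans h5).trans_lt h4) (lt_irrefl _)
  obtain ⟨t, ht⟩ : ∃ t, t = X.symm y := ⟨_, rfl⟩
  have hxt : X t = y := by rw [ht, X.apply_symm_apply]
  have hty : t ≤ y := by rw [ht]; exact (symm_le_iff' X).mpr hx
  have hvt : V t ≤ t := by
    have h4 : V (W y) ≤ W y := by rw [h.vw, ← ht]; exact hty.trans hw
    have h5 := V.le_iff_le.mpr h4
    rwa [h.vw, ← ht] at h5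
  have h6 : t < P (Q t) := by
    rw [← hxt, h.hE, ← h.sP.comm] at hy
    exact X.lt_iff_lt.mp hy
  have h7 : t < P (V t) := h6.trans_le (P.le_iff_le.mpr (h.big.down t hvt))
  have h8 : V t < X (V t) := by
    by_contra h9
    rw [not_lt] at h9
    exact absurd ((h7.trans_le (h.sP.down _ h9).2).trans_le hvt) (lt_irrefl _)
  have h9 : t < X (V t) := h7.trans_le (h.sP.up _ h8.le).2
  have h10 : W t < t := by
    rw [← lt_symm_iff, ← h.xv]; exact h9
  obtain ⟨o, o1, o2, o3⟩ := fixDU W hty h10 hw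
  have hyo : y < X o := by rw [← hxt]; exact X.lt_iff_lt.mpr o1
  have h11 : o < e o := by
    by_contra h12
    rw [not_lt] at h12
    obtain ⟨k, k1, k2, k3⟩ := fixNU e o2 h12 hy
    have h13 : y < X k := by rw [← hxt]; exact X.lt_iff_lt.mpr (o1.trans_le k1)
    rw [hfix k k3] at h13
    exact absurd (h13.trans k2) (lt_irrefl _)
  have h12 : X o < e (X o) := by
    by_contra h13
    rw [not_lt] at h13
    obtain ⟨k, k1, k2, k3⟩ := fixUD e hyo.le hy h13
    have h14 : k ≤ o := by
      rw [← X.le_iff_le, hfix k k3]; exact k2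
    exact absurd ((k1.trans_le h14).trans_le o2) (lt_irrefl _)
  have h13 : o ≤ X o := o2.trans hyo.le
  have h14 : o < P (Q o) := by
    rw [h.hE, ← h.sP.comm] at h12
    exact X.lt_iff_lt.mp h12
  have h15 : V o = X.symm o := by
    have := h.vw o
    rwa [o3] at this
  have h16 : X.symm o ≤ o := (symm_le_iff' X).mpr h13
  have h17 : Q o ≤ X.symm o := by
    have := h.big.down o (by rw [h15]; exact h16)
    rwa [h15] at this
  have h18 : P (X.symm o) ≤ o := by
    have h19 : X.symm o ≤ X (X.symm o) := by rw [X.apply_symm_apply]; exact h16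
    have := (h.sP.up _ h19).2
    rwa [X.apply_symm_apply] at this
  exact absurd (h14.trans_le ((P.le_iff_le.mpr h17).trans h18)) (lt_irrefl _)

end stage

/-- The chain. -/
structure QChain (X V W P Q R a c : ℕ → Ω ≃o Ω) : Prop where
  st : ∀ j, QStage (X j) (V j) (W j) (P j) (Q j) (R j) (a j) (a (j + 1)) (c j) (c (j + 1))

theorem QChain.dual {X V W P Q R a c : ℕ → Ω ≃o Ω} (h : QChain X V W P Q R a c) :
    QChain (Ω := Ωᵒᵈ) (fun j => (X j).dual) (fun j => (V j).dual) (fun j => (W j).dual)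
      (fun j => (P j).dual) (fun j => (Q j).dual) (fun j => (R j).dual) (fun j => (a j).dual)
      (fun j => (c j).dual) :=
  ⟨fun j => (h.st j).dual⟩

/-- The greatest `f ≤ t` with `g f ≤ f`. -/
noncomputable def low (g : Ω ≃o Ω) (t : Ω) : Ω := sSup {f | g f ≤ f ∧ f ≤ t}

theorem low_le (g : Ω ≃o Ω) (t : Ω) : low g t ≤ t := sSup_le fun _ hf => hf.2

theorem le_low {g : Ω ≃o Ω} {t f : Ω} (h1 : g f ≤ f) (h2 : f ≤ t) : f ≤ low g t :=
  le_sSup ⟨h1, h2⟩

theorem low_down (g : Ω ≃o Ω) (t : Ω) : g (low g t) ≤ low g t := by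
  rw [← le_symm_iff]
  apply sSup_le
  intro f hf
  rw [le_symm_iff]
  exact hf.1.trans (le_low hf.1 hf.2)

section chain
variable {X V W P Q R a c : ℕ → Ω ≃o Ω} {N : ℕ}

theorem QChain.key (h : QChain X V W P Q R a c) (hN : 0 < N) (pa : ∀ j, a (j + N) = a j)
    (pc : ∀ j, c (j + N) = c j) (i : ℕ) {y : Ω} (hy : a i y ≤ y) : c i y ≤ y := by
  by_contra hlt
  rw [not_le] at hlt
  have key : ∀ j, i ≤ j → y < c j y ∧ y ≤ low (a j) (c j y) := by
    intro j hj
    induction j, hj using Nat.le_induction with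
    | base => exact ⟨hlt, le_low hy hlt.le⟩
    | succ j _ ih =>
      obtain ⟨g, g1, g2, g3⟩ := (h.st j).step ih.1 (low_down (a j) (c j y)) ih.2 (low_le _ _)
      have h1 : y < g := lt_of_le_of_lt ih.2 g2
      exact ⟨h1.trans_le g3, h1.le.trans (le_low g1 g3)⟩
  refine no_incr (u := fun j => low (a j) (c j y)) (i := i) hN ?_ ?_
  · show low (a (i + N)) (c (i + N) y) = low (a i) (c i y)
    rw [pa, pc]
  · intro j hj
    obtain ⟨h1, h2⟩ := key j hj
    obtain ⟨g, g1, g2, g3⟩ := (h.st j).step h1 (low_down (a j) (c j y)) h2 (low_le _ _)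
    exact g2.trans_le (le_low g1 g3)

theorem QChain.key' (h : QChain X V W P Q R a c) (hN : 0 < N) (pa : ∀ j, a (j + N) = a j)
    (pc : ∀ j, c (j + N) = c j) (i : ℕ) {y : Ω} (hy : y ≤ a i y) : y ≤ c i y :=
  QChain.key (Ω := Ωᵒᵈ) h.dual hN (fun j => congrArg OrderIso.dual (pa j))
    (fun j => congrArg OrderIso.dual (pc j)) i hy

theorem QChain.fix (h : QChain X V W P Q R a c) (hN : 0 < N) (pa : ∀ j, a (j + N) = a j)
    (pc : ∀ j, c (j + N) = c j) (j : ℕ) {f : Ω} (hf : a (j + 1) f = f) :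
    X j f = f ∧ V j f = f ∧ W j f = f :=
  (h.st j).fix hf (le_antisymm (h.key hN pa pc (j + 1) hf.le) (h.key' hN pa pc (j + 1) hf.ge))

theorem QChain.down_step (h : QChain X V W P Q R a c) (hN : 0 < N) (pa : ∀ j, a (j + N) = a j)
    (pc : ∀ j, c (j + N) = c j) (j : ℕ) {y : Ω} (hy : y < a (j + 1) y) :
    a (j + 1) y < a j y := by
  have h1 := (h.st j).wdown (fun u hu => h.key' hN pa pc (j + 1) hu.le)
    (fun u hu => (h.fix hN pa pc j hu).1) hy
  rw [(h.st j).hW]
  exact (a j).lt_iff_lt.mpr h1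

/-- no `a i` moves a point up. -/
theorem QChain.a_le (h : QChain X V W P Q R a c) (hN : 0 < N) (pa : ∀ j, a (j + N) = a j)
    (pc : ∀ j, c (j + N) = c j) (i : ℕ) (y : Ω) : a i y ≤ y := by
  by_contra hcon
  rw [not_le] at hcon
  have h1 : ∀ k j, j + k = i + j * N → y < a j y := by
    intro k j hk
    have h2 : y < a (j + k) y := by rw [hk, IT.per_mul pa]; exact hcon
    clear hk
    induction k with
    | zero => exact h2
    | succ k ih =>
      apply ih
      exact h2.trans (h.down_step hN pa pc (j + k) h2)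
  have h2 : ∀ j, y < a j y := by
    intro j
    have h3 : j ≤ i + j * N := by nlinarith
    exact h1 (i + j * N - j) j (by omega)
  refine no_incr (Ω := Ωᵒᵈ) (u := fun j => OrderDual.toDual (a j y)) (i := 0) hN ?_ ?_
  · show a (0 + N) y = a 0 y
    rw [pa]
  · intro j _
    exact h.down_step hN pa pc j (h2 (j + 1))

/-- every point is fixed by all `X j`, `V j`, `W j`. -/
theorem QChain.fixed (h : QChain X V W P Q R a c) (hN : 0 < N) (pa : ∀ j, a (j + N) = a j)
    (pc : ∀ j, c (j + N) = c j) (j : ℕ) (y : Ω) : X j y = y ∧ V j y = y ∧ W j y = y := by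
  apply h.fix hN pa pc j
  have h2 : a (j + 1) y ≤ y := h.a_le hN pa pc (j + 1) y
  have h3 : y ≤ a (j + 1) y := QChain.a_le (Ω := Ωᵒᵈ) h.dual hN
    (fun j => congrArg OrderIso.dual (pa j)) (fun j => congrArg OrderIso.dual (pc j)) (j + 1) y
  exact le_antisymm h2 h3

end chain

end Pool.Agent.V11246.QC
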