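import Pool.Agent.V11246.PGroup
import Pool.Agent.V11246.QChain

set_option autoImplicit false

/-!
# Left-ordered groups and the relations of the surgery groups, p in [0,1], q ≥ 1, r ≥ 0
-/

namespace Pool.Agent.V11246.QC

open Pool.Agent.W705.Borr Pool.Agent.TH821.Chain Pool.Agent.TH821.Hex Pool.Agent.TH821.Neg
open Pool.Agent.V11246.PS

/-- The relations between the elements `x i, v i, w i` and `p i, q i, r i`. -/
structure QRel {H : Type*} [Group H] {n : ℕ} (x v w p q r : ZMod n → H)
    (a b c d e f : ZMod n → ℕ) : Prop where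
  prod : ∀ i, x i * v i * w i = 1
  commP : ∀ i, x i * p i = p i * x i
  commQ : ∀ i, v i * q i = q i * v i
  commR : ∀ i, w i * r i = r i * w i
  bpos : ∀ i, 0 < b i
  ab : ∀ i, b i ≤ a i
  powQ : ∀ i, q i ^ b i = v i ^ a i
  dpos : ∀ i, 0 < d i
  cd : ∀ i, c i ≤ d i
  powP : ∀ i, p i ^ d i = x i ^ c i
  fpos : ∀ i, 0 < f i
  powR : ∀ i, r i ^ f i = w i ^ e i
  relA : ∀ i, p (i + 1) * x (i + 1) * v (i + 1) * q (i + 1) = p i * x i * v i * q i * w i
  relB : ∀ i, (r (i + 1) * q (i + 1))⁻¹ = x i * (r i * q i)⁻¹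

/-- `a i` -/
def aa {H : Type*} [Group H] {n : ℕ} (x v p q : ZMod n → H) (i : ZMod n) : H :=
  p i * x i * v i * q i

/-- `c i` -/
def cc {H : Type*} [Group H] {n : ℕ} (x v p q r : ZMod n → H) (i : ZMod n) : H :=
  p i * x i * v i * q i * (r i * q i)⁻¹

section alg
variable {H : Type*} [Group H] {n : ℕ} {x v w p q r : ZMod n → H} {a b c d e f : ZMod n → ℕ}

theorem QRel.w_eq (R : QRel x v w p q r a b c d e f) (i : ZMod n) : w i = (x i * v i)⁻¹ := by
  have := R.prod i
  rw [eq_inv_iff_mul_eq_one]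
  calc w i * (x i * v i) = (x i * v i)⁻¹ * (x i * v i * w i) * (x i * v i) := by group
    _ = 1 := by rw [this]; group

theorem QRel.hE (R : QRel x v w p q r a b c d e f) (i : ZMod n) :
    aa x v p q (i + 1) * x i = p i * (x i * q i) := by
  unfold aa
  rw [R.relA]
  calc p i * x i * v i * q i * w i * x i = p i * x i * (v i * q i) * w i * x i := by group
    _ = p i * x i * (q i * v i) * (x i * v i)⁻¹ * x i := by rw [R.commQ, R.w_eq]
    _ = p i * (x i * q i) := by group

theorem QRel.hc (R : QRel x v w p q r a b c d e f) (i : ZMod n) :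
    cc x v p q r i = p i * ((w i)⁻¹ * (r i)⁻¹) := by
  unfold cc
  rw [R.w_eq]
  group

theorem QRel.hd (R : QRel x v w p q r a b c d e f) (i : ZMod n) :
    cc x v p q r (i + 1) = p i * (x i * (r i)⁻¹) := by
  have h1 : cc x v p q r (i + 1) = aa x v p q (i + 1) * (r (i + 1) * q (i + 1))⁻¹ := rfl
  rw [h1, R.relB, ← mul_assoc, R.hE]
  group

end alg

section order
variable {Ω : Type*} [CompleteLinearOrder Ω]

/-- If `r ^ f = w ^ e`, `0 < f`, then `r` does not move points down that `w` moves up. -/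
theorem up_follows {w r : Ω ≃o Ω} {e f : ℕ} (hf : 0 < f) (h : ∀ y, r^[f] y = w^[e] y) (y : Ω)
    (hw : y ≤ w y) : y ≤ r y := by
  by_contra hcon
  rw [not_le] at hcon
  have h1 := iter_lt (g := r) (h := OrderIso.refl Ω) (fun z => rfl) hcon f hf
  have h2 : (OrderIso.refl Ω)^[f] y = y := by
    have : ((OrderIso.refl Ω : Ω ≃o Ω) : Ω → Ω) = id := rfl
    rw [this, Function.iterate_id]; rfl
  rw [h2, h] at h1
  have h3 : y ≤ w^[e] y := iter_le' hw e
  exact absurd h1 (not_lt.mpr h3)

end order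

section act
variable {H : Type*} [Group H] [LinearOrder H] (hinv : ∀ a b c : H, a ≤ b ↔ c * a ≤ c * b)

theorem follows_pow {w r : H} {e f : ℕ} (hcomm : w * r = r * w) (hf : 0 < f)
    (h : r ^ f = w ^ e) : Follows (act hinv w) (act hinv r) := by
  have hpow : ∀ y, (act hinv r)^[f] y = (act hinv w)^[e] y := by
    intro y; rw [← act_pow, ← act_pow, h]
  have hc : ∀ y, act hinv w (act hinv r y) = act hinv r (act hinv w y) := by
    intro y; rw [← act_mul, ← act_mul, hcomm]
  exact ⟨hc, up_follows hf hpow,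
    up_follows (Ω := (LowerSet H)ᵒᵈ) (w := (act hinv w).dual) (r := (act hinv r).dual)
      hf (fun y => hpow y)⟩

include hinv in
/-- In a left-ordered group the relations force triviality. -/
theorem rel_trivial {n : ℕ} (hn : 0 < n) {x v w p q r : ZMod n → H}
    {a b c d e f : ZMod n → ℕ} (R : QRel x v w p q r a b c d e f) (i : ZMod n) :
    x i = 1 ∧ v i = 1 ∧ w i = 1 ∧ p i = 1 ∧ q i = 1 ∧ r i = 1 := by
  have : NeZero n := ⟨hn.ne'⟩
  have hN0 : ∀ j : ℕ, ((j + n : ℕ) : ZMod n) = (j : ZMod n) := by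
    intro j; push_cast; rw [ZMod.natCast_self, add_zero]
  have hst : ∀ i : ZMod n, QStage (act hinv (x i)) (act hinv (v i)) (act hinv (w i))
      (act hinv (p i)) (act hinv (q i)) (act hinv (r i)) (act hinv (aa x v p q i))
      (act hinv (aa x v p q (i + 1))) (act hinv (cc x v p q r i))
      (act hinv (cc x v p q r (i + 1))) := by
    intro i
    refine ⟨?_, small_of_pow hinv (R.commP _) (R.dpos _) (R.cd _) (R.powP _),
      big_of_pow hinv (R.commQ _) (R.bpos _) (R.ab _) (R.powQ _),
      follows_pow hinv (R.commR _) (R.fpos _) (R.powR _), ?_, ?_, ?_, ?_, ?_⟩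
    · intro u
      rw [← act_mul, ← act_mul, R.prod, act_one]
    · intro y
      simp only [← act_mul]
      unfold aa
      simp only [mul_assoc]
    · intro y
      simp only [← act_mul]
      rw [R.hE]
    · intro y
      rw [← act_mul]
      exact congrArg (fun g => act hinv g y) (R.relA i)
    · intro y
      simp only [← act_inv, ← act_mul]
      rw [R.hc]
    · intro y
      simp only [← act_inv, ← act_mul]
      rw [R.hd]
  have hC : QChain (fun j : ℕ => act hinv (x j)) (fun j : ℕ => act hinv (v j))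
      (fun j : ℕ => act hinv (w j)) (fun j : ℕ => act hinv (p j))
      (fun j : ℕ => act hinv (q j)) (fun j : ℕ => act hinv (r j))
      (fun j : ℕ => act hinv (aa x v p q j)) (fun j : ℕ => act hinv (cc x v p q r j)) := by
    refine ⟨fun j => ?_⟩
    have := hst (j : ZMod n)
    rw [show ((j : ZMod n) + 1) = ((j + 1 : ℕ) : ZMod n) by push_cast; rfl] at this
    exact this
  have pa : ∀ j : ℕ, act hinv (aa x v p q ((j + n : ℕ) : ZMod n)) =
      act hinv (aa x v p q (j : ZMod n)) := by
    intro j; rw [hN0]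
  have pc : ∀ j : ℕ, act hinv (cc x v p q r ((j + n : ℕ) : ZMod n)) =
      act hinv (cc x v p q r (j : ZMod n)) := by
    intro j; rw [hN0]
  have hi : ((i.val : ℕ) : ZMod n) = i := ZMod.natCast_zmod_val i
  have fx : ∀ y, act hinv (x i) y = y ∧ act hinv (v i) y = y ∧ act hinv (w i) y = y := by
    intro y
    have := hC.fixed hn pa pc i.val y
    simp only [hi] at this
    exact this
  exact ⟨eq_one_of_act hinv _ fun y => (fx y).1, eq_one_of_act hinv _ fun y => (fx y).2.1,
    eq_one_of_act hinv _ fun y => (fx y).2.2,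
    eq_one_of_act hinv _ fun y => (hst i).sP.fix (fx y).1,
    eq_one_of_act hinv _ fun y => (hst i).big.fix (fx y).2.1,
    eq_one_of_act hinv _ fun y => (hst i).fR.fix (fx y).2.2⟩

end act

section kernel
open Pool.Agent.TH821.Cyc
variable {G : Type*} [Group G] {n : ℕ}

/-- Homomorphisms from the kernel of `d` to a left-ordered group are trivial. -/
theorem hom_trivial (hn : 0 < n) {s X V : G} (hs : s ^ n = 1)
    (hgen : ∀ K : Subgroup G, s ∈ K → X ∈ K → V ∈ K → K = ⊤)
    (d : G →* Multiplicative (ZMod n)) (ds : d s = Multiplicative.ofAdd 1) (dX : d X = 1)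
    (dV : d V = 1) (p q r : ℕ) (hp : p ≤ 1) (hq : 1 ≤ q)
    (A : s * (X ^ p * X * V * V ^ q) * s⁻¹ = X ^ p * X * V * V ^ q * (X * V)⁻¹)
    (B : s * (((X * V)⁻¹ ^ r * V ^ q)⁻¹) * s⁻¹ = X * ((X * V)⁻¹ ^ r * V ^ q)⁻¹)
    {H : Type*} [Group H] [LinearOrder H] (hinv : ∀ a b c : H, a ≤ b ↔ c * a ≤ c * b)
    (φ : d.ker →* H) (g : d.ker) : φ g = 1 := by
  set X' : d.ker := ⟨X, dX⟩ with hX'
  set V' : d.ker := ⟨V, dV⟩ with hV'
  set W' : d.ker := (X' * V')⁻¹ with hW'
  have key : ∀ (i : ZMod n) (x y : d.ker), s * x.1 * s⁻¹ = y.1 →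
      φ (ck d s (i + 1) x) = φ (ck d s i y) := by
    intro i x y hxy
    congr 1
    apply Subtype.ext
    show cj s x.1 (i + 1) = cj s y.1 i
    rw [cj_shift hn hs, hxy]
  have R : QRel (fun i => φ (ck d s i X')) (fun i => φ (ck d s i V')) (fun i => φ (ck d s i W'))
      (fun i => φ (ck d s i X') ^ p) (fun i => φ (ck d s i V') ^ q)
      (fun i => φ (ck d s i W') ^ r) (fun _ => q) (fun _ => 1) (fun _ => p) (fun _ => 1)
      (fun _ => r) (fun _ => 1) := by
    refine ⟨?_, ?_, ?_, ?_, ?_, ?_, ?_, ?_, ?_, ?_, ?_, ?_, ?_, ?_⟩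
    · intro i
      show φ (ck d s i X') * φ (ck d s i V') * φ (ck d s i W') = 1
      rw [← map_mul, ← map_mul, ← map_mul, ← map_mul, hW', mul_inv_cancel, map_one, map_one]
    · intro i; exact (pow_succ' _ p).symm.trans (pow_succ _ p)
    · intro i; exact (pow_succ' _ q).symm.trans (pow_succ _ q)
    · intro i; exact (pow_succ' _ r).symm.trans (pow_succ _ r)
    · intro i; exact one_pos
    · intro i; exact hq
    · intro i; exact pow_one _
    · intro i; exact one_pos
    · intro i; exact hp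
    · intro i; exact pow_one _
    · intro i; exact one_pos
    · intro i; exact pow_one _
    · intro i
      have := key i (X' ^ p * X' * V' * V' ^ q) (X' ^ p * X' * V' * V' ^ q * W') A
      simpa only [map_mul, map_inv, map_pow] using this
    · intro i
      have := key i ((W' ^ r * V' ^ q)⁻¹) (X' * (W' ^ r * V' ^ q)⁻¹) B
      simpa only [map_mul, map_inv, map_pow] using this
  have triv := fun i => rel_trivial hinv hn R i
  have h1 : N n s X V ≤ φ.ker.map d.ker.subtype := by
    unfold N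
    rw [Subgroup.closure_le]
    rintro _ (⟨i, rfl⟩ | ⟨i, rfl⟩)
    · exact ⟨ck d s i X', (triv i).1, rfl⟩
    · exact ⟨ck d s i V', (triv i).2.1, rfl⟩
  obtain ⟨g', hg', hgg⟩ := h1 (ker_le hn hs hgen d ds dX dV g.2)
  have : g' = g := Subtype.ext hgg
  rw [← this]; exact hg'

end kernel

end Pool.Agent.V11246.QC
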