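import Mathlib

/-!
# Cubic radical extensions: coordinates and traces
-/

set_option autoImplicit false

namespace Pool.Agent.V11246.Q2

open WithZero Polynomial

/-- the element with the coordinates `a, b, c` with respect to `1, t, t ^ 2` -/
def e3 {L F : Type} [Field L] [Field F] [Algebra L F] (t : F) (a b c : L) : F :=
  algebraMap L F a + algebraMap L F b * t + algebraMap L F c * t ^ 2

/-- `F` is generated over `L` by a cube root `t` of `φ`, which is not a cube in `L` -/
structure Cub (L F : Type) [Field L] [Field F] [Algebra L F] (t : F) (φ : L) : Prop where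
  cube : t ^ 3 = algebraMap L F φ
  ncube : ∀ b : L, b ^ 3 ≠ φ
  span : ∀ z : F, ∃ a b c : L, z = e3 t a b c

variable {L F : Type} [Field L] [Field F] [Algebra L F] {t : F} {φ : L}

theorem Cub.minpoly (h : Cub L F t φ) : minpoly L t = X ^ 3 - C φ := by
  symm
  refine minpoly.eq_of_irreducible_of_monic ?_ ?_ (monic_X_pow_sub_C φ (by norm_num))
  · exact X_pow_sub_C_irreducible_of_prime Nat.prime_three h.ncube
  · rw [map_sub, map_pow, aeval_X, aeval_C, h.cube, sub_self]

theorem Cub.indep (h : Cub L F t φ) {a b c : L} (h0 : e3 t a b c = 0) :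
    a = 0 ∧ b = 0 ∧ c = 0 := by
  by_contra hcon
  have hp : (C c * X ^ 2 + C b * X + C a : L[X]) ≠ 0 := by
    intro h1
    apply hcon
    have h2 := congrArg (fun p => Polynomial.coeff p 0) h1
    have h3 := congrArg (fun p => Polynomial.coeff p 1) h1
    have h4 := congrArg (fun p => Polynomial.coeff p 2) h1
    simp [coeff_X, coeff_C] at h2 h3 h4
    exact ⟨h2, h3, h4⟩
  have hr : aeval t (C c * X ^ 2 + C b * X + C a : L[X]) = 0 := by
    rw [e3] at h0
    simp only [map_add, map_mul, map_pow, aeval_X, aeval_C]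
    linear_combination h0
  have h5 := minpoly.degree_le_of_ne_zero L t hp hr
  rw [h.minpoly, degree_X_pow_sub_C (by norm_num)] at h5
  have h6 := degree_quadratic_le (a := c) (b := b) (c := a)
  exact absurd (h5.trans h6) (by decide)

theorem Cub.inj (h : Cub L F t φ) {a b c a' b' c' : L} (h0 : e3 t a b c = e3 t a' b' c') :
    a = a' ∧ b = b' ∧ c = c' := by
  have h1 : e3 t (a - a') (b - b') (c - c') = 0 := by
    rw [e3, e3] at h0
    rw [e3, map_sub, map_sub, map_sub]
    linear_combination h0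
  obtain ⟨h2, h3, h4⟩ := h.indep h1
  exact ⟨sub_eq_zero.1 h2, sub_eq_zero.1 h3, sub_eq_zero.1 h4⟩

theorem e3_mul (h : Cub L F t φ) (a b c a' b' c' : L) : e3 t a b c * e3 t a' b' c' =
    e3 t (a * a' + (b * c' + c * b') * φ) (a * b' + b * a' + c * c' * φ)
      (a * c' + b * b' + c * a') := by
  have h1 := h.cube
  simp only [e3, map_add, map_mul]
  rw [← h1]
  ring

theorem e3_add (a b c a' b' c' : L) : e3 t a b c + e3 t a' b' c' =
    e3 t (a + a') (b + b') (c + c') := by
  simp only [e3, map_add]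
  ring

/-- the basis `1, t, t ^ 2` -/
theorem Cub.exists_basis (h : Cub L F t φ) : ∃ B : Module.Basis (Fin 3) L F,
    (∀ a b c : L, B.repr (e3 t a b c) 0 = a ∧ B.repr (e3 t a b c) 1 = b ∧
      B.repr (e3 t a b c) 2 = c) ∧ B 0 = 1 ∧ B 1 = t ∧ B 2 = t ^ 2 := by
  have hli : LinearIndependent L ![(1 : F), t, t ^ 2] := by
    rw [Fintype.linearIndependent_iff]
    intro g hg
    rw [Fin.sum_univ_three] at hg
    have h1 : e3 t (g 0) (g 1) (g 2) = 0 := by
      rw [← hg, e3]
      simp [Algebra.smul_def]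
    obtain ⟨h2, h3, h4⟩ := h.indep h1
    intro i
    fin_cases i
    · exact h2
    · exact h3
    · exact h4
  have hsp : ⊤ ≤ Submodule.span L (Set.range ![(1 : F), t, t ^ 2]) := by
    intro z _
    obtain ⟨a, b, c, rfl⟩ := h.span z
    have m0 : (1 : F) ∈ Submodule.span L (Set.range ![(1 : F), t, t ^ 2]) :=
      Submodule.subset_span ⟨0, rfl⟩
    have m1 : t ∈ Submodule.span L (Set.range ![(1 : F), t, t ^ 2]) :=
      Submodule.subset_span ⟨1, rfl⟩
    have m2 : t ^ 2 ∈ Submodule.span L (Set.range ![(1 : F), t, t ^ 2]) :=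
      Submodule.subset_span ⟨2, rfl⟩
    have h1 : e3 t a b c = a • (1 : F) + b • t + c • t ^ 2 := by
      simp [e3, Algebra.smul_def]
    rw [h1]
    exact add_mem (add_mem (Submodule.smul_mem _ _ m0) (Submodule.smul_mem _ _ m1))
      (Submodule.smul_mem _ _ m2)
  let B := Module.Basis.mk hli hsp
  have b0 : B 0 = 1 := by simp [B]
  have b1 : B 1 = t := by simp [B]
  have b2 : B 2 = t ^ 2 := by simp [B]
  refine ⟨B, fun a b c => ?_, b0, b1, b2⟩
  have h1 : e3 t a b c = a • B 0 + b • B 1 + c • B 2 := by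
    rw [b0, b1, b2]
    simp [e3, Algebra.smul_def]
  rw [h1]
  simp [Finsupp.single_apply]

theorem Cub.finite (h : Cub L F t φ) : FiniteDimensional L F := by
  obtain ⟨B, -⟩ := h.exists_basis
  exact Module.Basis.finiteDimensional_of_finite B

theorem Cub.trace (h : Cub L F t φ) (a b c : L) : Algebra.trace L F (e3 t a b c) = 3 * a := by
  obtain ⟨B, hB, b0, b1, b2⟩ := h.exists_basis
  rw [Algebra.trace_eq_matrix_trace B, Matrix.trace_fin_three, Algebra.leftMulMatrix_eq_repr_mul,
    Algebra.leftMulMatrix_eq_repr_mul, Algebra.leftMulMatrix_eq_repr_mul, b0, b1, b2]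
  have h1 : (1 : F) = e3 t (1 : L) 0 0 := by simp [e3]
  have h2 : t = e3 t (0 : L) 1 0 := by simp [e3]
  have h3 : t ^ 2 = e3 t (0 : L) 0 1 := by simp [e3]
  have e1 : e3 t a b c * 1 = e3 t a b c := mul_one _
  have e2 : e3 t a b c * t = e3 t (c * φ) a b := by
    conv_lhs => rw [show e3 t a b c * t = e3 t a b c * e3 t (0 : L) 1 0 by rw [← h2], e3_mul h]
    congr 1 <;> ring
  have e4 : e3 t a b c * t ^ 2 = e3 t (b * φ) (c * φ) a := by
    conv_lhs => rw [h3, e3_mul h]
    congr 1 <;> ring
  rw [e1, e2, e4, (hB a b c).1, (hB (c * φ) a b).2.1, (hB (b * φ) (c * φ) a).2.2]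
  ring

end Pool.Agent.V11246.Q2
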