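import Pool.Agent.V11246.QqA

/-!
# Cubic radical extensions: integral elements
-/

set_option autoImplicit false

namespace Pool.Agent.V11246.Q2

open WithZero Polynomial

variable {L F : Type} [Field L] [CharZero L] [Field F] [Algebra L F] {t : F} {φ : L}
  {v : Valuation L ℤᵐ⁰}

/-- the valuation is trivial on the rational numbers -/
def Triv (v : Valuation L ℤᵐ⁰) : Prop := ∀ q : ℚ, q ≠ 0 → v (q : L) = 1

theorem Triv.le (hv : Triv v) (q : ℚ) : v (q : L) ≤ 1 := by
  by_cases hq : q = 0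
  · rw [hq, Rat.cast_zero, map_zero]; exact zero_le'
  · rw [hv q hq]

theorem Triv.nat (hv : Triv v) {n : ℕ} (hn : n ≠ 0) : v (n : L) = 1 := by
  have h := hv (n : ℚ) (by exact_mod_cast hn)
  rwa [Rat.cast_natCast] at h

/-- the structure map of the valuation ring -/
noncomputable def str (F : Type) [Field F] [Algebra L F] (v : Valuation L ℤᵐ⁰) :
    v.valuationSubring →+* F := (algebraMap L F).comp v.valuationSubring.subtype

/-- elements integral over the valuation ring -/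
def Int (v : Valuation L ℤᵐ⁰) (z : F) : Prop := (str F v).IsIntegralElem z

theorem Int.add {x y : F} (hx : Int v x) (hy : Int v y) : Int v (x + y) :=
  RingHom.IsIntegralElem.add _ hx hy

theorem Int.mul {x y : F} (hx : Int v x) (hy : Int v y) : Int v (x * y) :=
  RingHom.IsIntegralElem.mul _ hx hy

theorem Int.neg {x : F} (hx : Int v x) : Int v (-x) := RingHom.IsIntegralElem.neg _ hx

theorem int_k {a : L} (ha : v a ≤ 1) : Int v (algebraMap L F a) :=
  RingHom.isIntegralElem_map (str F v) (x := ⟨a, ha⟩)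

theorem Int.pow {x : F} (hx : Int v x) (n : ℕ) : Int v (x ^ n) := by
  induction n with
  | zero =>
    rw [pow_zero]
    have h := int_k (F := F) (v := v) (a := 1) (by rw [map_one])
    rwa [map_one] at h
  | succ n ih => rw [pow_succ]; exact ih.mul hx

theorem Int.of_pow {z : F} {n : ℕ} (hn : 0 < n) (h : Int v (z ^ n)) : Int v z := by
  let := (str F v).toAlgebra
  have h1 : IsIntegral v.valuationSubring (z ^ n) := h
  exact IsIntegral.of_pow hn h1

theorem Int.trace (h : Cub L F t φ) {z : F} (hz : Int v z) : v (Algebra.trace L F z) ≤ 1 := by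
  let := (str F v).toAlgebra
  have : IsScalarTower v.valuationSubring L F := IsScalarTower.of_algebraMap_eq' rfl
  have := h.finite
  have h1 : IsIntegral v.valuationSubring z := hz
  have h2 := Algebra.isIntegral_trace (L := L) h1
  obtain ⟨y, hy⟩ := (IsIntegrallyClosed.isIntegral_iff (R := v.valuationSubring) (K := L)).1 h2
  rw [← hy]
  exact y.2

/-- the elements with integral coordinates -/
def MM (v : Valuation L ℤᵐ⁰) (t : F) : Set F :=
  {z | ∃ a b c : L, v a ≤ 1 ∧ v b ≤ 1 ∧ v c ≤ 1 ∧ z = e3 t a b c}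

theorem v_add {a b : L} (ha : v a ≤ 1) (hb : v b ≤ 1) : v (a + b) ≤ 1 :=
  (v.map_add a b).trans (max_le ha hb)

theorem v_mul {a b : L} (ha : v a ≤ 1) (hb : v b ≤ 1) : v (a * b) ≤ 1 := by
  rw [map_mul]; exact mul_le_one' ha hb

theorem v_pow {a : L} (ha : v a ≤ 1) (n : ℕ) : v (a ^ n) ≤ 1 := by
  rw [map_pow]; exact pow_le_one' ha n

theorem MM.add {x y : F} (hx : x ∈ MM v t) (hy : y ∈ MM v t) : x + y ∈ MM v t := by
  obtain ⟨a, b, c, ha, hb, hc, rfl⟩ := hx
  obtain ⟨a', b', c', ha', hb', hc', rfl⟩ := hy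
  exact ⟨_, _, _, v_add ha ha', v_add hb hb', v_add hc hc', e3_add _ _ _ _ _ _⟩

theorem MM.mul (h : Cub L F t φ) (hφ : v φ ≤ 1) {x y : F} (hx : x ∈ MM v t) (hy : y ∈ MM v t) :
    x * y ∈ MM v t := by
  obtain ⟨a, b, c, ha, hb, hc, rfl⟩ := hx
  obtain ⟨a', b', c', ha', hb', hc', rfl⟩ := hy
  refine ⟨_, _, _, ?_, ?_, ?_, e3_mul h _ _ _ _ _ _⟩
  · exact v_add (v_mul ha ha') (v_mul (v_add (v_mul hb hc') (v_mul hc hb')) hφ)
  · exact v_add (v_add (v_mul ha hb') (v_mul hb ha')) (v_mul (v_mul hc hc') hφ)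
  · exact v_add (v_add (v_mul ha hc') (v_mul hb hb')) (v_mul hc ha')

theorem MM.of_L {a : L} (ha : v a ≤ 1) : algebraMap L F a ∈ MM v t :=
  ⟨a, 0, 0, ha, by simp, by simp, by simp [e3]⟩

theorem MM.rat (hv : Triv v) (q : ℚ) : algebraMap L F (q : L) ∈ MM v t := MM.of_L (hv.le q)

theorem MM.t_mem : t ∈ MM v t := ⟨0, 1, 0, by simp, by simp, by simp, by simp [e3]⟩

theorem MM.pow (h : Cub L F t φ) (hφ : v φ ≤ 1) {x : F} (hx : x ∈ MM v t) (n : ℕ) :
    x ^ n ∈ MM v t := by
  induction n with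
  | zero =>
    rw [pow_zero]
    have h := MM.of_L (F := F) (v := v) (t := t) (a := 1) (by rw [map_one])
    rwa [map_one] at h
  | succ n ih => rw [pow_succ]; exact MM.mul h hφ ih hx

theorem MM.neg {x : F} (hx : x ∈ MM v t) : -x ∈ MM v t := by
  obtain ⟨a, b, c, ha, hb, hc, rfl⟩ := hx
  refine ⟨-a, -b, -c, by rwa [Valuation.map_neg], by rwa [Valuation.map_neg],
    by rwa [Valuation.map_neg], ?_⟩
  simp only [e3, map_neg]; ring

theorem MM.aeval (h : Cub L F t φ) (hφ : v φ ≤ 1) (hv : Triv v) {x : F} (hx : x ∈ MM v t)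
    (p : ℚ[X]) : p.eval₂ ((algebraMap L F).comp (Rat.castHom L)) x ∈ MM v t := by
  induction p using Polynomial.induction_on' with
  | add p q hp hq => rw [eval₂_add]; exact MM.add hp hq
  | monomial n a =>
    rw [eval₂_monomial]
    exact MM.mul h hφ (MM.rat hv a) (MM.pow h hφ hx n)

/-- an element with integral cube combination -/
theorem le_one_of_quad {A s p : L} (hs : v s ≤ 1) (hp : v p ≤ 1) (h : A ^ 2 - s * A + p = 0) :
    v A ≤ 1 := by
  by_contra hcon
  have hA : 1 < v A := not_le.1 hcon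
  have h1 : A ^ 2 = s * A - p := by linear_combination h
  have h2 : v (A ^ 2) ≤ v A := by
    rw [h1]
    refine (v.map_sub _ _).trans (max_le ?_ (hp.trans hA.le))
    rw [map_mul]
    calc v s * v A ≤ 1 * v A := by gcongr
      _ = v A := one_mul _
  rw [map_pow, sq] at h2
  have hA0 : v A ≠ 0 := fun h0 => by rw [h0] at hA; exact absurd hA (by simp)
  have h3 : v A ≤ 1 := by
    have h4 : v A * v A ≤ 1 * v A := by rw [one_mul]; exact h2
    exact le_of_mul_le_mul_right h4 (zero_lt_iff.2 hA0)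
  exact hcon h3

theorem cube_le {x : ℤᵐ⁰} {e : ℤ} (he : e < 3) (h : x ^ 3 ≤ exp e) : x ≤ 1 := by
  by_cases hx : x = 0
  · rw [hx]; exact zero_le'
  obtain ⟨n, rfl⟩ : ∃ n : ℤ, x = exp n := ⟨log x, (exp_log hx).symm⟩
  rw [← exp_nsmul, exp_le_exp] at h
  rw [← exp_zero, exp_le_exp]
  simp at h
  omega

/-- **Integral elements have integral coordinates.** -/
theorem int_coord (h : Cub L F t φ) (hv : Triv v) (hφ : exp (-1) ≤ v φ) {a b c : L}
    (hz : Int v (e3 t a b c)) : v a ≤ 1 ∧ v b ≤ 1 ∧ v c ≤ 1 := by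
  have n3 : v (3 : L) = 1 := by have := hv.nat (n := 3) (by norm_num); exact_mod_cast this
  have n6 : v (6 : L) = 1 := by have := hv.nat (n := 6) (by norm_num); exact_mod_cast this
  have ha : v a ≤ 1 := by
    have h1 := Int.trace h hz
    rw [h.trace, map_mul, n3, one_mul] at h1
    exact h1
  have hy : Int v (e3 t 0 b c) := by
    have h1 := hz.add (int_k (F := F) ha).neg
    have h2 : e3 t a b c + -(algebraMap L F a) = e3 t 0 b c := by
      simp only [e3, map_zero]; ring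
    rwa [h2] at h1
  have h2 : v (b * c * φ) ≤ 1 := by
    have h1 := Int.trace h (hy.mul hy)
    rw [e3_mul h, h.trace] at h1
    have h3 : (3 : L) * (0 * 0 + (b * c + c * b) * φ) = 6 * (b * c * φ) := by ring
    rwa [h3, map_mul, n6, one_mul] at h1
  have h3 : v (b ^ 3 * φ + c ^ 3 * φ ^ 2) ≤ 1 := by
    have h1 := Int.trace h ((hy.mul hy).mul hy)
    rw [e3_mul h, e3_mul h, h.trace] at h1
    have h4 : (3 : L) * ((0 * 0 + (b * c + c * b) * φ) * 0 +
        ((0 * b + b * 0 + c * c * φ) * c + (0 * c + b * b + c * 0) * b) * φ) =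
        3 * (b ^ 3 * φ + c ^ 3 * φ ^ 2) := by ring
    rw [h4, map_mul, n3, one_mul] at h1
    exact h1
  have hA : v (b ^ 3 * φ) ≤ 1 := by
    refine le_one_of_quad h3 (v_pow h2 3) ?_
    ring
  have hB : v (c ^ 3 * φ ^ 2) ≤ 1 := by
    refine le_one_of_quad h3 (v_pow h2 3) ?_
    ring
  have he : (1 : ℤᵐ⁰) = exp 1 * exp (-1) := by rw [← exp_add]; simp
  have he2 : (1 : ℤᵐ⁰) = exp 2 * exp (-1) ^ 2 := by rw [← exp_nsmul, ← exp_add]; simp
  refine ⟨ha, ?_, ?_⟩
  · refine cube_le (e := 1) (by norm_num) ?_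
    rw [map_mul, map_pow] at hA
    have h5 : v b ^ 3 * exp (-1) ≤ exp 1 * exp (-1) := by
      rw [← he]
      exact (mul_le_mul_right hφ _).trans hA
    exact le_of_mul_le_mul_right h5 (exp_pos)
  · refine cube_le (e := 2) (by norm_num) ?_
    rw [map_mul, map_pow, map_pow] at hB
    have h5 : v c ^ 3 * exp (-1) ^ 2 ≤ exp 2 * exp (-1) ^ 2 := by
      rw [← he2]
      refine (mul_le_mul_right ?_ _).trans hB
      gcongr
    exact le_of_mul_le_mul_right h5 (pow_pos exp_pos 2)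

theorem mem_of_int (h : Cub L F t φ) (hv : Triv v) (hφ : exp (-1) ≤ v φ) {z : F}
    (hz : Int v z) : z ∈ MM v t := by
  obtain ⟨a, b, c, rfl⟩ := h.span z
  obtain ⟨h1, h2, h3⟩ := int_coord h hv hφ hz
  exact ⟨a, b, c, h1, h2, h3, rfl⟩

end Pool.Agent.V11246.Q2
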