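import Pool.Agent.V11246.QqB

/-!
# The curve `t ^ 3 = 2 x ^ 6 + 14 x + 2`: regularity of the pull-backs of its differentials
-/

set_option autoImplicit false

namespace Pool.Agent.V11246.Q2

open WithZero Polynomial

section exc

variable {L F : Type} [Field L] [CharZero L] [Field F] [Algebra L F] {t : F} {φ : L}
  {v : Valuation L ℤᵐ⁰}

/-- Every element has an integral reciprocal after a suitable rational translation. -/
theorem exists_c (hv : Triv v) (a : F) (halg : IsIntegral L a) :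
    ∃ c : ℚ, a ≠ algebraMap L F (c : L) ∧ Int v ((a - algebraMap L F (c : L))⁻¹) := by
  classical
  set m := minpoly L a with hm
  have hm0 : m ≠ 0 := minpoly.ne_zero halg
  have hma : aeval a m = 0 := minpoly.aeval _ _
  obtain ⟨n₀, hn₀, hmax⟩ := Finset.exists_max_image m.support (fun n => v (m.coeff n))
    (support_nonempty.2 hm0)
  have hμ : m.coeff n₀ ≠ 0 := mem_support_iff.1 hn₀
  have hμv : v (m.coeff n₀) ≠ 0 := (_root_.map_ne_zero v).2 hμ
  have hle : ∀ n, v ((C (m.coeff n₀)⁻¹ * m).coeff n) ≤ 1 := by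
    intro n
    rw [coeff_C_mul, map_mul, map_inv₀]
    by_cases hn : n ∈ m.support
    · have := hmax n hn
      rw [inv_mul_le_iff₀ (zero_lt_iff.2 hμv), mul_one]
      exact this
    · rw [notMem_support_iff.1 hn, map_zero, mul_zero]; exact zero_le'
  have hone : (C (m.coeff n₀)⁻¹ * m).coeff n₀ = 1 := by
    rw [coeff_C_mul, inv_mul_cancel₀ hμ]
  obtain ⟨N, hN⟩ : ∃ N : (v.valuationSubring)[X],
      N.map v.valuationSubring.subtype = C (m.coeff n₀)⁻¹ * m := by
    have : C (m.coeff n₀)⁻¹ * m ∈ lifts v.valuationSubring.subtype := by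
      rw [lifts_iff_coeff_lifts]
      intro n
      exact ⟨⟨_, hle n⟩, rfl⟩
    exact (mem_lifts _).1 this
  have hNa : N.eval₂ (str F v) a = 0 := by
    have h1 : (N.map v.valuationSubring.subtype).eval₂ (algebraMap L F) a = 0 := by
      rw [hN, ← aeval_def, map_mul, hma, mul_zero]
    rw [eval₂_map] at h1
    exact h1
  let e : ℚ →+* v.valuationSubring :=
    (Rat.castHom L).codRestrict v.valuationSubring.toSubring (fun q => hv.le q)
  let ρ := IsLocalRing.residue v.valuationSubring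
  have hN0 : N.map ρ ≠ 0 := by
    intro h0
    have h1 : ρ (N.coeff n₀) = 0 := by rw [← coeff_map, h0, coeff_zero]
    have h2 : N.coeff n₀ = 1 := by
      apply v.valuationSubring.subtype_injective
      rw [← coeff_map, hN, hone, map_one]
    rw [h2, map_one] at h1
    exact one_ne_zero h1
  obtain ⟨c, hc⟩ : ∃ c : ℚ, (N.map ρ).eval (ρ (e c)) ≠ 0 := by
    by_contra hcon
    push Not at hcon
    apply hN0
    refine eq_zero_of_infinite_isRoot _ ?_
    refine Set.Infinite.mono (s := Set.range fun c : ℚ => ρ (e c)) ?_ ?_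
    · rintro _ ⟨c, rfl⟩
      exact hcon c
    · exact Set.infinite_range_of_injective (ρ.comp e).injective
  have hunit : IsUnit (N.eval (e c)) := by
    rw [← IsLocalRing.residue_ne_zero_iff_isUnit]
    rw [eval_map, eval₂_hom] at hc
    exact hc
  set M := N.comp (X + C (e c)) with hMdef
  have hM0 : M.coeff 0 = N.eval (e c) := by
    rw [coeff_zero_eq_eval_zero, hMdef, eval_comp]; simp
  have hMx : M.eval₂ (str F v) (a - algebraMap L F (c : L)) = 0 := by
    have h1 : str F v (e c) = algebraMap L F (c : L) := rfl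
    rw [hMdef, eval₂_comp, eval₂_add, eval₂_X, eval₂_C, h1, sub_add_cancel, hNa]
  have hx0 : a - algebraMap L F (c : L) ≠ 0 := by
    intro h0
    rw [h0, eval₂_at_zero] at hMx
    have : M.coeff 0 ≠ 0 := by rw [hM0]; exact hunit.ne_zero
    have h2 : Function.Injective (str F v) :=
      (algebraMap L F).injective.comp v.valuationSubring.subtype_injective
    exact this ((map_eq_zero_iff _ h2).1 hMx)
  refine ⟨c, sub_ne_zero.1 hx0, ?_⟩
  let : Invertible (a - algebraMap L F (c : L)) := invertibleOfNonzero hx0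
  have h1 := (eval₂_reverse_eq_zero_iff (str F v) (a - algebraMap L F (c : L)) M).2 hMx
  rw [invOf_eq_inv] at h1
  have hlead : M.reverse.leadingCoeff = N.eval (e c) := by
    rw [reverse_leadingCoeff, trailingCoeff, natTrailingDegree_eq_zero.2, hM0]
    right
    rw [hM0]; exact hunit.ne_zero
  obtain ⟨u, hu⟩ := hunit
  refine ⟨C ((u⁻¹ : (v.valuationSubring)ˣ) : v.valuationSubring) * M.reverse, ?_, ?_⟩
  · rw [Monic, leadingCoeff_mul, leadingCoeff_C, hlead, ← hu]
    simp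
  · rw [eval₂_mul, h1, mul_zero]

end exc

/-- the polynomial `f(x) = 2 x ^ 6 + 14 x + 2` -/
def ff {R : Type} [CommRing R] (x : R) : R := 2 * x ^ 6 + 14 * x + 2

/-- its derivative -/
def ff' {R : Type} [CommRing R] (x : R) : R := 12 * x ^ 5 + 14

/-- the polynomial after the substitution `x = c + 1/y` -/
noncomputable def Gc (c : ℚ) : ℚ[X] :=
  2 * (C c * X + 1) ^ 6 + 14 * (C c * X + 1) * X ^ 5 + 2 * X ^ 6

theorem aeval_Gc {R : Type} [Field R] [CharZero R] (c : ℚ) (y : R) :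
    aeval y (Gc c) = 2 * ((c : R) * y + 1) ^ 6 + 14 * ((c : R) * y + 1) * y ^ 5 + 2 * y ^ 6 := by
  simp [Gc, map_ofNat]

theorem aeval_Gc' {R : Type} [Field R] [CharZero R] (c : ℚ) {y : R} (hy : y ≠ 0) :
    aeval y (Gc c) = y ^ 6 * ff ((c : R) + y⁻¹) := by
  rw [aeval_Gc, ff]
  field_simp

theorem ff_sep {R : Type} [Field R] [CharZero R] {x : R} (h1 : ff x = 0) (h2 : ff' x = 0) :
    False := by
  rw [ff] at h1
  rw [ff'] at h2
  -- `6 f - x f' = 70 x + 12`
  have h3 : 70 * x + 12 = 0 := by linear_combination 6 * h1 - x * h2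
  have h4 : x = -6 / 35 := by
    have h35 : (35 : R) ≠ 0 := by norm_num
    field_simp
    linear_combination h3 / 2
  rw [h4] at h2
  norm_num at h2

theorem Gc_coprime (c : ℚ) : IsCoprime (Gc c) (Polynomial.derivative (Gc c)) := by
  rw [Polynomial.isCoprime_iff_aeval_ne_zero_of_isAlgClosed ℚ ℂ]
  intro y
  by_contra hcon
  push Not at hcon
  obtain ⟨h1, h2⟩ := hcon
  by_cases hy : y = 0
  · rw [hy, aeval_Gc] at h1
    norm_num at h1
  have h3 : ff ((c : ℂ) + y⁻¹) = 0 := by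
    rw [aeval_Gc' c hy] at h1
    rcases mul_eq_zero.1 h1 with h | h
    · exact absurd h (pow_ne_zero 6 hy)
    · exact h
  have h4 : ff' ((c : ℂ) + y⁻¹) = 0 := by
    have e : y * aeval y (Polynomial.derivative (Gc c)) =
        6 * aeval y (Gc c) - y ^ 5 * ff' ((c : ℂ) + y⁻¹) := by
      rw [aeval_Gc]
      simp only [Gc, Polynomial.derivative_mul,
        Polynomial.derivative_add, Polynomial.derivative_pow,
        Polynomial.derivative_X, Polynomial.derivative_one, Polynomial.derivative_C,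
        Polynomial.derivative_ofNat, map_add, map_mul, map_pow, map_one,
        map_ofNat, map_zero, Polynomial.aeval_X, Polynomial.aeval_C, ff']
      have e1 : (algebraMap ℚ ℂ) c = (c : ℂ) := rfl
      rw [e1]
      simp
      field_simp
      ring
    rw [h2, h1] at e
    have h5 : y ^ 5 * ff' ((c : ℂ) + y⁻¹) = 0 := by linear_combination e
    rcases mul_eq_zero.1 h5 with h | h
    · exact absurd h (pow_ne_zero 5 hy)
    · exact h
  exact ff_sep h3 h4

variable {L F : Type} [Field L] [CharZero L] [Field F] [CharZero F] [Algebra L F] {t : F} {φ : L}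
  {v : Valuation L ℤᵐ⁰}

theorem MM.aeval' (h : Cub L F t φ) (hφ : v φ ≤ 1) (hv : Triv v) {x : F} (hx : x ∈ MM v t)
    (p : ℚ[X]) : Polynomial.aeval x p ∈ MM v t := by
  have h1 := MM.aeval h hφ hv hx p
  have h2 : (algebraMap L F).comp (Rat.castHom L) = algebraMap ℚ F := Subsingleton.elim _ _
  rw [h2] at h1
  exact h1

theorem MM.int (hφ : v φ ≤ 1) (h : Cub L F t φ) {x : F} (hx : x ∈ MM v t) : Int v x := by
  obtain ⟨a, b, c, ha, hb, hc, rfl⟩ := hx
  have ht : Int v t := Int.of_pow (n := 3) (by norm_num) (by rw [h.cube]; exact int_k hφ)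
  exact ((int_k ha).add ((int_k hb).mul ht)).add ((int_k hc).mul (ht.pow 2))

/-- the derivation preserves the valuation ring -/
def Pres (v : Valuation L ℤᵐ⁰) (δ : Derivation ℚ F F) : Prop :=
  ∀ a : L, v a ≤ 1 → ∃ a' : L, v a' ≤ 1 ∧ δ (algebraMap L F a) = algebraMap L F a'

theorem MM.deriv (h : Cub L F t φ) (hφ : v φ ≤ 1) (hv : Triv v) {δ : Derivation ℚ F F}
    (hδ : Pres v δ) {x : F} (hx : x ∈ MM v t) : t ^ 2 * δ x ∈ MM v t := by
  obtain ⟨a, b, c, ha, hb, hc, rfl⟩ := hx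
  obtain ⟨a', ha', ea⟩ := hδ a ha
  obtain ⟨b', hb', eb⟩ := hδ b hb
  obtain ⟨c', hc', ec⟩ := hδ c hc
  obtain ⟨φ', hφ', eφ⟩ := hδ φ hφ
  obtain ⟨κ, hκ⟩ : ∃ κ : L, κ = ((1 / 3 : ℚ) : L) := ⟨_, rfl⟩
  have n3 : v κ = 1 := by rw [hκ]; exact hv _ (by norm_num)
  have h1 : t ^ 2 * δ t = algebraMap L F κ * algebraMap L F φ' := by
    have h2 : δ (t ^ 3) = algebraMap L F φ' := by rw [h.cube, eφ]
    rw [Derivation.leibniz_pow] at h2
    have h3 : (3 : F) * (t ^ 2 * δ t) = algebraMap L F φ' := by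
      rw [← h2]; simp
    rw [hκ, map_ratCast]
    push_cast
    linear_combination h3 / 3
  clear hκ
  refine ⟨b' * φ + b * (κ * φ'), c' * φ + 2 * (c * (κ * φ')), a',
    ?_, ?_, ha', ?_⟩
  · exact v_add (v_mul hb' hφ) (v_mul hb (v_mul n3.le hφ'))
  · have n2 : v (2 : L) ≤ 1 := by
      have := hv.le 2
      exact_mod_cast this
    exact v_add (v_mul hc' hφ) (v_mul n2 (v_mul hc (v_mul n3.le hφ')))
  · have h4 := h.cube
    have h5 : δ (t ^ 2) = 2 * t * δ t := by
      rw [Derivation.leibniz_pow]; simp; ring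
    simp only [e3, map_add, Derivation.leibniz, smul_eq_mul, ea, eb, ec, map_mul, h5, map_ofNat]
    rw [← h4]
    linear_combination (algebraMap L F b + 2 * algebraMap L F c * t) * h1

/-- **Regularity of the pull-backs of the differentials.** -/
theorem local_reg (h : Cub L F t φ) (hv : Triv v) (hφ1 : v φ ≤ 1) (hφ : exp (-1) ≤ v φ)
    {δ : Derivation ℚ F F} (hδ : Pres v δ) {a b : F} (hab : b ^ 3 = ff a) (hb : b ≠ 0) :
    t ^ 2 * (δ a / b ^ 2) ∈ MM v t ∧ t ^ 2 * (a * (δ a / b ^ 2)) ∈ MM v t ∧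
      t ^ 2 * (a ^ 2 * (δ a / b ^ 2)) ∈ MM v t ∧ t ^ 2 * (δ a / b) ∈ MM v t := by
  have hfd := h.finite
  obtain ⟨c, hac, hint⟩ := exists_c hv a (Algebra.IsIntegral.isIntegral a)
  rw [map_ratCast] at hac hint
  have hac' : a - (c : F) ≠ 0 := sub_ne_zero.2 hac
  obtain ⟨y, hy⟩ : ∃ y, y = (a - (c : F))⁻¹ := ⟨_, rfl⟩
  rw [← hy] at hint
  have hy0 : y ≠ 0 := by rw [hy]; exact inv_ne_zero hac'
  have ha : a = (c : F) + y⁻¹ := by rw [hy, inv_inv]; ring
  have yM : y ∈ MM v t := mem_of_int h hv hφ hint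
  obtain ⟨b', hb'⟩ : ∃ b', b' = b * y ^ 2 := ⟨_, rfl⟩
  have hb'0 : b' ≠ 0 := by rw [hb']; exact mul_ne_zero hb (pow_ne_zero 2 hy0)
  have hG : b' ^ 3 = aeval y (Gc c) := by
    rw [aeval_Gc' c hy0, ← ha, ← hab, hb']; ring
  have b'M : b' ∈ MM v t := by
    refine mem_of_int h hv hφ (Int.of_pow (n := 3) (by norm_num) ?_)
    rw [hG]
    exact MM.int hφ1 h (MM.aeval' h hφ1 hv yM _)
  have dy := MM.deriv h hφ1 hv hδ yM
  have db' := MM.deriv h hφ1 hv hδ b'M
  obtain ⟨A, B, hAB⟩ := Gc_coprime c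
  have hAB' : aeval y A * aeval y (Gc c) + aeval y B * aeval y (Polynomial.derivative (Gc c)) =
      1 := by
    rw [← map_mul, ← map_mul, ← map_add, hAB, map_one]
  have hD : 3 * b' ^ 2 * δ b' = aeval y (Polynomial.derivative (Gc c)) * δ y := by
    have h1 : δ (b' ^ 3) = δ (aeval y (Gc c)) := by rw [hG]
    rw [Derivation.leibniz_pow, Derivation.map_aeval] at h1
    simp at h1
    linear_combination h1
  obtain ⟨u, hu⟩ : ∃ u, u = δ y / b' ^ 2 := ⟨_, rfl⟩
  have uM : t ^ 2 * u ∈ MM v t := by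
    have h1 : t ^ 2 * u = aeval y A * (b' * (t ^ 2 * δ y)) +
        aeval y B * (algebraMap L F ((3 : ℚ) : L) * (t ^ 2 * δ b')) := by
      rw [map_ratCast, hu]
      push_cast
      rw [← hG] at hAB'
      have h2 : δ y = u * b' ^ 2 := by rw [hu]; field_simp
      have h3 : t ^ 2 * (δ y / b' ^ 2) = t ^ 2 * (δ y / b' ^ 2) * (aeval y A * b' ^ 3 +
        aeval y B * aeval y (Polynomial.derivative (Gc c))) := by rw [hAB', mul_one]
      rw [h3]
      field_simp
      linear_combination (- t ^ 2 * aeval y B) * hD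
    rw [h1]
    exact MM.add (MM.mul h hφ1 (MM.aeval' h hφ1 hv yM _) (MM.mul h hφ1 b'M dy))
      (MM.mul h hφ1 (MM.aeval' h hφ1 hv yM _) (MM.mul h hφ1 (MM.rat hv 3) db'))
  have hδa : δ a = -(y⁻¹ ^ 2) * δ y := by
    rw [ha, map_add, Derivation.leibniz_inv]
    have : δ ((c : ℚ) : F) = 0 := by
      have h1 : ((c : ℚ) : F) = algebraMap ℚ F c := rfl
      rw [h1, Derivation.map_algebraMap]
    rw [this, zero_add]
    simp
  have hbb : b = b' / y ^ 2 := by rw [hb']; field_simp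
  have hcy : algebraMap L F (c : L) * y + 1 ∈ MM v t := by
    refine MM.add (MM.mul h hφ1 (MM.rat hv c) yM) ?_
    have := MM.of_L (F := F) (v := v) (t := t) (a := 1) (by rw [map_one])
    rwa [map_one] at this
  refine ⟨?_, ?_, ?_, ?_⟩
  · have h1 : t ^ 2 * (δ a / b ^ 2) = -(y ^ 2 * (t ^ 2 * u)) := by
      rw [hδa, hbb, hu]; field_simp
    rw [h1]
    exact MM.neg (MM.mul h hφ1 (MM.pow h hφ1 yM 2) uM)
  · have h1 : t ^ 2 * (a * (δ a / b ^ 2)) =
        -((algebraMap L F (c : L) * y + 1) * (y * (t ^ 2 * u))) := by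
      rw [map_ratCast, hδa, hbb, hu, ha]; field_simp
    rw [h1]
    exact MM.neg (MM.mul h hφ1 hcy (MM.mul h hφ1 yM uM))
  · have h1 : t ^ 2 * (a ^ 2 * (δ a / b ^ 2)) =
        -((algebraMap L F (c : L) * y + 1) ^ 2 * (t ^ 2 * u)) := by
      rw [map_ratCast, hδa, hbb, hu, ha]; field_simp
    rw [h1]
    exact MM.neg (MM.mul h hφ1 (MM.pow h hφ1 hcy 2) uM)
  · have h1 : t ^ 2 * (δ a / b) = -(b' * (t ^ 2 * u)) := by
      rw [hδa, hbb, hu]; field_simp
    rw [h1]
    exact MM.neg (MM.mul h hφ1 b'M uM)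

end Pool.Agent.V11246.Q2
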