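import Pool.Agent.V11246.QqC

/-!
# The valuations of the field of rational functions
-/

set_option autoImplicit false

namespace Pool.Agent.V11246.Q2

open WithZero Polynomial IsDedekindDomain

section fin

variable {k : Type} [Field k] [CharZero k]

instance : CharZero (RatFunc k) :=
  charZero_of_injective_algebraMap (R := k[X]) (RatFunc.algebraMap_injective k)

/-- polynomials as rational functions -/
noncomputable abbrev jj (k : Type) [Field k] : k[X] →+* RatFunc k := algebraMap k[X] (RatFunc k)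

theorem jj_C_rat (q : ℚ) : jj k (C (q : k)) = (q : RatFunc k) := by
  have h : ((jj k).comp C).comp (Rat.castHom k) = Rat.castHom (RatFunc k) :=
    Subsingleton.elim _ _
  exact DFunLike.congr_fun h q

theorem triv_of_le {v : Valuation (RatFunc k) ℤᵐ⁰} (h : ∀ q : ℚ, v (q : RatFunc k) ≤ 1) :
    Triv v := by
  intro q hq
  refine le_antisymm (h q) ?_
  have h1 : v (q : RatFunc k) * v ((q⁻¹ : ℚ) : RatFunc k) = 1 := by
    rw [← map_mul, ← Rat.cast_mul, mul_inv_cancel₀ hq, Rat.cast_one, map_one]
  by_contra hcon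
  have h2 : v (q : RatFunc k) * v ((q⁻¹ : ℚ) : RatFunc k) < 1 := by
    refine lt_of_le_of_lt ?_ (not_le.1 hcon)
    calc v (q : RatFunc k) * v ((q⁻¹ : ℚ) : RatFunc k) ≤ v (q : RatFunc k) * 1 := by
          gcongr; exact h _
      _ = v (q : RatFunc k) := mul_one _
  rw [h1] at h2
  exact lt_irrefl _ h2

theorem triv_fin (P : HeightOneSpectrum k[X]) : Triv (P.valuation (RatFunc k)) :=
  triv_of_le fun q => by
    rw [← jj_C_rat]
    exact P.valuation_le_one _

/-- the polynomial `f` -/
noncomputable def fp (k : Type) [Field k] : k[X] := ff X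

theorem fp_der : derivative (fp k) = ff' X := by
  rw [fp, ff, ff']
  have h5 : (C 5 : k[X]) = 5 := map_ofNat C 5
  simp [h5]
  ring

theorem fp_coprime : IsCoprime (fp k) (derivative (fp k)) := by
  have h : IsCoprime (fp ℚ) (derivative (fp ℚ)) := by
    rw [Polynomial.isCoprime_iff_aeval_ne_zero_of_isAlgClosed ℚ ℂ]
    intro y
    by_contra hcon
    push Not at hcon
    obtain ⟨h1, h2⟩ := hcon
    rw [fp_der] at h2
    refine ff_sep (x := y) ?_ ?_
    · rw [← h1, fp, ff, ff]
      simp [map_ofNat]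
    · rw [← h2, ff', ff']
      simp [map_ofNat]
  have h1 := h.map (mapRingHom (Rat.castHom k))
  rw [coe_mapRingHom] at h1
  have h2 : (fp ℚ).map (Rat.castHom k) = fp k := by
    simp [fp, ff]
  rw [← derivative_map, h2] at h1
  exact h1

theorem fp_val_le (P : HeightOneSpectrum k[X]) : P.valuation (RatFunc k) (jj k (fp k)) ≤ 1 :=
  P.valuation_le_one _

theorem lt_exp {x : ℤᵐ⁰} (h : x < exp (-1)) : x ≤ exp (-2) := by
  by_cases hx : x = 0
  · rw [hx]; exact zero_le'
  obtain ⟨n, rfl⟩ : ∃ n : ℤ, x = exp n := ⟨log x, (exp_log hx).symm⟩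
  rw [exp_lt_exp] at h
  rw [exp_le_exp]
  omega

theorem der_mem_of_sq {P : Ideal k[X]} {g : k[X]} (hg : g ∈ P ^ 2) : derivative g ∈ P := by
  rw [sq] at hg
  refine Submodule.mul_induction_on hg ?_ ?_
  · intro a ha b hb
    rw [derivative_mul]
    exact add_mem (Ideal.mul_mem_left _ _ hb) (Ideal.mul_mem_right _ _ ha)
  · intro a b ha hb
    rw [derivative_add]
    exact add_mem ha hb

theorem fp_val_ge (P : HeightOneSpectrum k[X]) :
    exp (-1) ≤ P.valuation (RatFunc k) (jj k (fp k)) := by
  by_contra hcon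
  have h1 := lt_exp (not_le.1 hcon)
  rw [P.valuation_of_algebraMap] at h1
  have h2 := (P.intValuation_le_pow_iff_mem (fp k) 2).1 (by exact_mod_cast h1)
  have h3 := der_mem_of_sq h2
  have h4 : fp k ∈ P.asIdeal := Ideal.pow_le_self two_ne_zero h2
  obtain ⟨a, b, hab⟩ := fp_coprime (k := k)
  apply P.isPrime.ne_top
  rw [Ideal.eq_top_iff_one, ← hab]
  exact add_mem (Ideal.mul_mem_left _ _ h4) (Ideal.mul_mem_left _ _ h3)

/-- There is a prime at which `f` has order one. -/
theorem exists_P : ∃ P : HeightOneSpectrum k[X],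
    P.valuation (RatFunc k) (jj k (fp k)) = exp (-1) := by
  have hd : (fp k).natDegree = 6 := by
    rw [fp, ff]
    compute_degree!
  have hu : ¬ IsUnit (fp k) := by
    intro h
    rw [natDegree_eq_zero_of_isUnit h] at hd
    exact absurd hd (by norm_num)
  have h0 : fp k ≠ 0 := by
    intro h
    rw [h, natDegree_zero] at hd
    exact absurd hd (by norm_num)
  obtain ⟨M, hM, hf⟩ := exists_max_ideal_of_mem_nonunits hu
  have hMb : M ≠ ⊥ := by
    rintro rfl
    exact h0 (by simpa using hf)
  refine ⟨⟨M, hM.isPrime, hMb⟩, le_antisymm ?_ (fp_val_ge _)⟩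
  rw [HeightOneSpectrum.valuation_of_algebraMap]
  have h1 := (HeightOneSpectrum.intValuation_le_pow_iff_mem
    (⟨M, hM.isPrime, hMb⟩ : HeightOneSpectrum k[X]) (fp k) 1).2 (by rw [pow_one]; exact hf)
  exact_mod_cast h1

end fin

end Pool.Agent.V11246.Q2
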