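import Pool.Agent.V11246.QqD

/-!
# The derivation and the valuations
-/

set_option autoImplicit false

namespace Pool.Agent.V11246.Q2

open WithZero Polynomial IsDedekindDomain

variable {k : Type} [Field k] [CharZero k] {F : Type} [Field F] [CharZero F]
  [Algebra (RatFunc k) F]

/-- the polynomials in the field -/
noncomputable def ii (k F : Type) [Field k] [Field F] [Algebra (RatFunc k) F] : k[X] →+* F :=
  (algebraMap (RatFunc k) F).comp (jj k)

theorem ii_apply (p : k[X]) : ii k F p = algebraMap (RatFunc k) F (jj k p) := rfl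

theorem ii_inj : Function.Injective (ii k F) :=
  (algebraMap (RatFunc k) F).injective.comp (RatFunc.algebraMap_injective k)

theorem jj_ne {p : k[X]} (hp : p ≠ 0) : jj k p ≠ 0 :=
  (map_ne_zero_iff _ (RatFunc.algebraMap_injective k)).2 hp

theorem ii_ne {p : k[X]} (hp : p ≠ 0) : ii k F p ≠ 0 :=
  (map_ne_zero_iff _ ii_inj).2 hp

/-- the derivation extends the derivative of polynomials -/
def IsDer (k : Type) [Field k] {F : Type} [Field F] [CharZero F] [Algebra (RatFunc k) F]
    (D : Derivation ℚ F F) : Prop := ∀ p : k[X], D (ii k F p) = ii k F (derivative p)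

theorem D_div {D : Derivation ℚ F F} (hD : IsDer k D) (n : k[X]) {d : k[X]} (hd : d ≠ 0) :
    D (algebraMap (RatFunc k) F (jj k n / jj k d)) =
      algebraMap (RatFunc k) F (jj k (derivative n * d - n * derivative d) / jj k (d ^ 2)) := by
  obtain ⟨x, hx⟩ : ∃ x, x = algebraMap (RatFunc k) F (jj k n / jj k d) := ⟨_, rfl⟩
  have hd0 : ii k F d ≠ 0 := ii_ne hd
  have h1 : x * ii k F d = ii k F n := by
    rw [hx, ii_apply, ii_apply, ← map_mul, div_mul_cancel₀ _ (jj_ne hd)]
  have h2 := congrArg D h1
  rw [Derivation.leibniz, hD, hD, smul_eq_mul, smul_eq_mul] at h2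
  rw [← hx]
  have h3 : algebraMap (RatFunc k) F
      (jj k (derivative n * d - n * derivative d) / jj k (d ^ 2)) =
      (ii k F (derivative n) * ii k F d - ii k F n * ii k F (derivative d)) / ii k F d ^ 2 := by
    rw [map_div₀, ← ii_apply, ← ii_apply, map_sub, map_mul, map_mul, map_pow]
  rw [h3, eq_div_iff (pow_ne_zero 2 hd0)]
  linear_combination ii k F d * h2 - ii k F (derivative d) * h1

theorem eq_div (a : RatFunc k) : a = jj k a.num / jj k a.denom := (RatFunc.num_div_denom a).symm

theorem pres_fin {D : Derivation ℚ F F} (hD : IsDer k D) (P : HeightOneSpectrum k[X]) :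
    Pres (P.valuation (RatFunc k)) D := by
  intro a ha
  have hd := RatFunc.denom_ne_zero a
  have hcop := RatFunc.isCoprime_num_denom a
  have h1 : a.denom ∈ P.asIdeal → a.num ∉ P.asIdeal := by
    intro h1 h2
    obtain ⟨x, y, hxy⟩ := hcop
    apply P.isPrime.ne_top
    rw [Ideal.eq_top_iff_one, ← hxy]
    exact add_mem (Ideal.mul_mem_left _ _ h2) (Ideal.mul_mem_left _ _ h1)
  have h2 : a.denom ∉ P.asIdeal := by
    refine (P.valuation_div_le_one_iff (RatFunc k) a.num hd h1).1 ?_
    have h3 := ha
    rw [eq_div a] at h3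
    exact h3
  refine ⟨jj k (derivative a.num * a.denom - a.num * derivative a.denom) / jj k (a.denom ^ 2),
    ?_, ?_⟩
  · have h3 : a.denom ^ 2 ∉ P.asIdeal := fun h => h2 (P.isPrime.mem_of_pow_mem _ h)
    have h4 : P.valuation (RatFunc k) (jj k (a.denom ^ 2)) = 1 :=
      P.valuation_eq_one_iff_notMem.2 h3
    rw [map_div₀, h4, div_one]
    exact P.valuation_le_one _
  · conv_lhs => rw [eq_div a]
    exact D_div hD _ hd

/-! ### Infinity -/

open Classical in
/-- the valuation at infinity -/
noncomputable def vI (k : Type) [Field k] : Valuation (RatFunc k) ℤᵐ⁰ := RatFunc.inftyValuation k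

open Classical in
theorem vI_poly {p : k[X]} (hp : p ≠ 0) : vI k (jj k p) = exp (p.natDegree : ℤ) :=
  RatFunc.inftyValuation.polynomial k hp

theorem vI_le {p : k[X]} {n : ℕ} (h : p.natDegree ≤ n) : vI k (jj k p) ≤ exp (n : ℤ) := by
  by_cases hp : p = 0
  · rw [hp, map_zero, map_zero]; exact zero_le'
  · rw [vI_poly hp, exp_le_exp]; exact_mod_cast h

theorem triv_inf : Triv (vI k) :=
  triv_of_le fun q => by
    rw [← jj_C_rat]
    have := vI_le (p := C (q : k)) (n := 0) (by simp)
    simpa using this

theorem pres_inf {D : Derivation ℚ F F} (hD : IsDer k D) :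
    Pres (vI k) ((ii k F X ^ 2) • D) := by
  intro a ha
  by_cases ha0 : a = 0
  · refine ⟨0, by simp, ?_⟩
    rw [ha0, map_zero, map_zero]
  have hd := RatFunc.denom_ne_zero a
  have hmon := RatFunc.monic_denom a
  obtain ⟨n, hn⟩ : ∃ n, n = a.num := ⟨_, rfl⟩
  obtain ⟨d, hdd⟩ : ∃ d, d = a.denom := ⟨_, rfl⟩
  have ea : a = jj k n / jj k d := by rw [hn, hdd]; exact eq_div a
  have hn0 : n ≠ 0 := by rw [hn]; exact RatFunc.num_ne_zero ha0
  rw [← hdd] at hd hmon
  have hdeg : n.natDegree ≤ d.natDegree := by
    rw [ea, map_div₀, vI_poly hn0, vI_poly hd, ← exp_sub, ← exp_zero, exp_le_exp] at ha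
    omega
  obtain ⟨w, hw⟩ : ∃ w, w = derivative n * d - n * derivative d := ⟨_, rfl⟩
  obtain ⟨q, hq⟩ : ∃ q, q = n /ₘ d := ⟨_, rfl⟩
  obtain ⟨r, hr⟩ : ∃ r, r = n %ₘ d := ⟨_, rfl⟩
  have h1 : r + d * q = n := by rw [hr, hq]; exact modByMonic_add_div n d
  have hrd : r.degree < d.degree := by rw [hr]; exact degree_modByMonic_lt n hmon
  have hq0 : q.natDegree = 0 := by
    rw [hq, natDegree_divByMonic n hmon]
    omega
  have hq' : derivative q = 0 := by
    rw [natDegree_eq_zero.1 hq0 |>.choose_spec.symm]
    exact derivative_C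
  have hw' : w = derivative r * d - r * derivative d := by
    rw [hw, ← h1, derivative_add, derivative_mul, hq']
    ring
  have hwd : w = 0 ∨ (1 ≤ d.natDegree ∧ w.natDegree ≤ 2 * d.natDegree - 2) := by
    by_cases hr0 : r = 0
    · left
      rw [hw', hr0]; simp
    · right
      have h2 : r.natDegree < d.natDegree := natDegree_lt_natDegree hr0 hrd
      refine ⟨by omega, ?_⟩
      rw [hw']
      refine (natDegree_sub_le _ _).trans (max_le ?_ ?_)
      · by_cases h3 : r.natDegree = 0
        · have h4 : derivative r = 0 := by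
            rw [natDegree_eq_zero.1 h3 |>.choose_spec.symm]
            exact derivative_C
          rw [h4, zero_mul, natDegree_zero]
          omega
        · refine natDegree_mul_le.trans ?_
          have := natDegree_derivative_le r
          omega
      · refine natDegree_mul_le.trans ?_
        have := natDegree_derivative_le d
        omega
  refine ⟨jj k X ^ 2 * (jj k w / jj k (d ^ 2)), ?_, ?_⟩
  · rcases hwd with hwd | ⟨h2, h3⟩
    · rw [hwd]; simp
    · have h4 : vI k (jj k (d ^ 2)) = exp (2 * (d.natDegree : ℤ)) := by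
        rw [vI_poly (pow_ne_zero 2 hd), natDegree_pow]; push_cast; rfl
      have h5 : vI k (jj k X) = exp 1 := by rw [vI_poly X_ne_zero, natDegree_X]; rfl
      have h6 := vI_le h3
      rw [map_mul, map_pow, map_div₀, h4, h5]
      calc exp (1 : ℤ) ^ 2 * (vI k (jj k w) / exp (2 * (d.natDegree : ℤ)))
          ≤ exp (1 : ℤ) ^ 2 * (exp ((2 * d.natDegree - 2 : ℕ) : ℤ) /
            exp (2 * (d.natDegree : ℤ))) := by
            gcongr
            exact zero_le'
        _ = 1 := by
            rw [← exp_nsmul, ← exp_sub, ← exp_add, ← exp_zero]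
            congr 1
            simp
            omega
  · rw [Derivation.smul_apply, smul_eq_mul, ea, D_div hD n hd, ← hw, map_mul, map_pow,
      ii_apply, map_pow]

end Pool.Agent.V11246.Q2
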