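import Pool.Agent.V11246.QqE

/-!
# Constants and regular differentials
-/

set_option autoImplicit false

namespace Pool.Agent.V11246.Q2

open WithZero Polynomial IsDedekindDomain

variable {k : Type} [Field k] [CharZero k] {F : Type} [Field F] [CharZero F]
  [Algebra (RatFunc k) F] {t : F}

theorem exp_log' {x : ℤᵐ⁰} (hx : x ≠ 0) : ∃ n : ℤ, x = exp n := ⟨log x, (exp_log hx).symm⟩

theorem val_C (P : HeightOneSpectrum k[X]) {c : k} (hc : c ≠ 0) :
    P.valuation (RatFunc k) (jj k (C c)) = 1 := by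
  refine P.valuation_eq_one_iff_notMem.2 fun h => P.isPrime.ne_top ?_
  rw [Ideal.eq_top_iff_one]
  have h1 := Ideal.mul_mem_left _ (C c⁻¹) h
  rwa [← C_mul, inv_mul_cancel₀ hc, C_1] at h1

theorem fp_ne : fp k ≠ 0 := by
  intro h
  obtain ⟨P, hP⟩ := exists_P (k := k)
  rw [h, map_zero, map_zero] at hP
  exact exp_ne_zero hP.symm

theorem not_const {m : ℕ} (hm : ¬ 3 ∣ m) {b : RatFunc k} (hb : b ≠ 0) {c : k} (hc : c ≠ 0) :
    b ^ 3 * jj k (fp k) ^ m ≠ jj k (C c) := by
  intro h
  obtain ⟨P, hP⟩ := exists_P (k := k)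
  have h1 := congrArg (P.valuation (RatFunc k)) h
  obtain ⟨n, hn⟩ := exp_log' ((_root_.map_ne_zero (P.valuation (RatFunc k))).2 hb)
  rw [map_mul, map_pow, map_pow, hP, val_C P hc, hn, ← exp_nsmul, ← exp_nsmul, ← exp_add,
    ← exp_zero, exp_inj] at h1
  simp at h1
  omega

theorem ncube (b : RatFunc k) : b ^ 3 ≠ jj k (fp k) := by
  intro h
  have hb : b ≠ 0 := by
    rintro rfl
    exact jj_ne fp_ne (by rw [← h]; simp)
  have h1 : (b⁻¹) ^ 3 * jj k (fp k) ^ 1 = jj k (C 1) := by
    rw [← h, C_1, map_one]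
    field_simp
  exact not_const (m := 1) (by norm_num) (inv_ne_zero hb) one_ne_zero h1

/-- at infinity -/
theorem cub_inf (h : Cub (RatFunc k) F t (jj k (fp k))) :
    Cub (RatFunc k) F (t / ii k F X ^ 2) (jj k (fp k) / jj k X ^ 6) where
  cube := by
    rw [div_pow, h.cube, map_div₀, map_pow, ← ii_apply X, ← pow_mul]
  ncube := by
    intro b hb
    refine ncube (b * jj k X ^ 2) ?_
    rw [mul_pow, hb, ← pow_mul, div_mul_cancel₀]
    exact pow_ne_zero _ (jj_ne X_ne_zero)
  span := by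
    intro z
    obtain ⟨a, b, c, rfl⟩ := h.span z
    have hX : ii k F X ≠ 0 := ii_ne X_ne_zero
    refine ⟨a, b * jj k X ^ 2, c * jj k X ^ 4, ?_⟩
    simp only [e3, map_mul, map_pow, ← ii_apply]
    field_simp

theorem fp_natDegree : (fp k).natDegree = 6 := by
  rw [fp, ff]
  compute_degree!

theorem phi_inf : vI k (jj k (fp k) / jj k X ^ 6) = 1 := by
  rw [map_div₀, map_pow, vI_poly fp_ne, vI_poly X_ne_zero, fp_natDegree, natDegree_X,
    ← exp_nsmul, ← exp_sub, ← exp_zero]
  simp

/-- a rational function with vanishing derivative is constant -/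
theorem const_L {D : Derivation ℚ F F} (hD : IsDer k D) {a : RatFunc k}
    (h : D (algebraMap (RatFunc k) F a) = 0) : ∃ c : k, a = jj k (C c) := by
  have hd := RatFunc.denom_ne_zero a
  have hmon := RatFunc.monic_denom a
  have hcop := RatFunc.isCoprime_num_denom a
  rw [eq_div a, D_div hD _ hd] at h
  have h1 : derivative a.num * a.denom - a.num * derivative a.denom = 0 := by
    have h2 := (map_eq_zero_iff _ (algebraMap (RatFunc k) F).injective).1 h
    rw [div_eq_zero_iff] at h2
    rcases h2 with h2 | h2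
    · exact (map_eq_zero_iff _ (RatFunc.algebraMap_injective k)).1 h2
    · exact absurd h2 (jj_ne (pow_ne_zero 2 hd))
  have h2 : a.denom ∣ derivative a.denom := by
    refine hcop.symm.dvd_of_dvd_mul_left ⟨derivative a.num, ?_⟩
    linear_combination -h1
  have h3 : derivative a.denom = 0 := by
    by_contra h4
    have h5 := degree_le_of_dvd h2 h4
    exact absurd (degree_derivative_lt hd) (not_lt.2 h5)
  have h4 : derivative a.num = 0 := by
    rw [h3, mul_zero, sub_zero] at h1
    exact (mul_eq_zero.1 h1).resolve_right hd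
  have h5 := natDegree_eq_zero_of_derivative_eq_zero h3
  have h6 := natDegree_eq_zero_of_derivative_eq_zero h4
  have h7 : a.denom = 1 := hmon.natDegree_eq_zero.1 h5
  obtain ⟨c, hc⟩ := natDegree_eq_zero.1 h6
  refine ⟨c, ?_⟩
  rw [eq_div a, h7, ← hc, map_one, div_one]

theorem exists_L {D : Derivation ℚ F F} (hD : IsDer k D) (a : RatFunc k) :
    ∃ a' : RatFunc k, D (algebraMap (RatFunc k) F a) = algebraMap (RatFunc k) F a' := by
  have h := D_div hD a.num (RatFunc.denom_ne_zero a)
  rw [← eq_div a] at h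
  exact ⟨_, h⟩

/-- **An element with vanishing derivative is constant.** -/
theorem const_of_D (h : Cub (RatFunc k) F t (jj k (fp k))) {D : Derivation ℚ F F}
    (hD : IsDer k D) {z : F} (hz : D z = 0) : ∃ c : k, z = ii k F (C c) := by
  obtain ⟨a, b, c, rfl⟩ := h.span z
  obtain ⟨a', ea⟩ := exists_L hD a
  obtain ⟨b', eb⟩ := exists_L hD b
  obtain ⟨c', ec⟩ := exists_L hD c
  have hf0 : jj k (fp k) ≠ 0 := jj_ne fp_ne
  have ht0 : t ≠ 0 := by
    rintro rfl
    have := h.cube
    rw [zero_pow three_ne_zero] at this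
    exact hf0 ((map_eq_zero_iff _ (algebraMap (RatFunc k) F).injective).1 this.symm)
  obtain ⟨g, hg⟩ : ∃ g : RatFunc k, g = jj k (derivative (fp k)) / (3 * jj k (fp k)) := ⟨_, rfl⟩
  have hDt : D t = algebraMap (RatFunc k) F g * t := by
    have h1 : D (t ^ 3) = ii k F (derivative (fp k)) := by rw [h.cube, ← ii_apply, hD]
    rw [Derivation.leibniz_pow] at h1
    have h3 : (3 : F) * (t ^ 2 * D t) = ii k F (derivative (fp k)) := by
      rw [← h1]; simp
    have h4 : algebraMap (RatFunc k) F g * t = ii k F (derivative (fp k)) / (3 * t ^ 3) * t := by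
      rw [hg, map_div₀, map_mul, h.cube, ii_apply, map_ofNat]
    rw [h4, ← h3]
    field_simp
  have hDz : D (e3 t a b c) = e3 t a' (b' + b * g) (c' + 2 * (c * g)) := by
    have h5 : D (t ^ 2) = 2 * t * D t := by
      rw [Derivation.leibniz_pow]; simp; ring
    simp only [e3, map_add, Derivation.leibniz, smul_eq_mul, ea, eb, ec, map_mul, h5, map_ofNat,
      hDt]
    ring
  rw [hDz] at hz
  obtain ⟨h1, h2, h3⟩ := h.indep hz
  have hb : b = 0 := by
    by_contra hb0
    have h4 : D (algebraMap (RatFunc k) F (b ^ 3 * jj k (fp k) ^ 1)) = 0 := by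
      have h5 : algebraMap (RatFunc k) F b' = -(algebraMap (RatFunc k) F b *
          algebraMap (RatFunc k) F g) := by
        rw [← map_mul, ← map_neg, ← eq_neg_of_add_eq_zero_left h2]
      have h6 : algebraMap (RatFunc k) F g * (3 * ii k F (fp k)) = ii k F (derivative (fp k)) := by
        rw [hg, map_div₀, map_mul, map_ofNat, ← ii_apply, ← ii_apply]
        have := ii_ne (F := F) (fp_ne (k := k))
        field_simp
      rw [pow_one, map_mul, map_pow, ← ii_apply, Derivation.leibniz, Derivation.leibniz_pow, hD,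
        eb, h5]
      simp
      linear_combination (- algebraMap (RatFunc k) F b ^ 3) * h6
    obtain ⟨c₀, hc₀⟩ := const_L hD h4
    by_cases hc0 : c₀ = 0
    · rw [hc0, C_0, map_zero, mul_eq_zero] at hc₀
      rcases hc₀ with h5 | h5
      · exact hb0 (pow_eq_zero_iff three_ne_zero |>.1 h5)
      · rw [pow_one] at h5; exact hf0 h5
    · exact not_const (by norm_num) hb0 hc0 hc₀
  have hc : c = 0 := by
    by_contra hb0
    have h4 : D (algebraMap (RatFunc k) F (c ^ 3 * jj k (fp k) ^ 2)) = 0 := by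
      have h5 : algebraMap (RatFunc k) F c' = -(2 * (algebraMap (RatFunc k) F c *
          algebraMap (RatFunc k) F g)) := by
        have h7 := eq_neg_of_add_eq_zero_left h3
        rw [h7, map_neg, map_mul, map_mul, map_ofNat]
      have h6 : algebraMap (RatFunc k) F g * (3 * ii k F (fp k)) = ii k F (derivative (fp k)) := by
        rw [hg, map_div₀, map_mul, map_ofNat, ← ii_apply, ← ii_apply]
        have := ii_ne (F := F) (fp_ne (k := k))
        field_simp
      rw [map_mul, map_pow, map_pow, ← ii_apply, Derivation.leibniz, Derivation.leibniz_pow,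
        Derivation.leibniz_pow, hD, ec, h5]
      simp
      linear_combination (- 2 * algebraMap (RatFunc k) F c ^ 3 * ii k F (fp k)) * h6
    obtain ⟨c₀, hc₀⟩ := const_L hD h4
    by_cases hc0 : c₀ = 0
    · rw [hc0, C_0, map_zero, mul_eq_zero] at hc₀
      rcases hc₀ with h5 | h5
      · exact hb0 (pow_eq_zero_iff three_ne_zero |>.1 h5)
      · exact hf0 (pow_eq_zero_iff two_ne_zero |>.1 h5)
    · exact not_const (by norm_num) hb0 hc0 hc₀
  have ha : D (algebraMap (RatFunc k) F a) = 0 := by rw [ea, h1, map_zero]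
  obtain ⟨c₀, hc₀⟩ := const_L hD ha
  exact ⟨c₀, by rw [hb, hc, hc₀, e3]; simp [ii_apply]⟩

/-- **The regular differentials.** -/
theorem form (h : Cub (RatFunc k) F t (jj k (fp k))) {z : F}
    (hP : ∀ P : HeightOneSpectrum k[X], z ∈ MM (P.valuation (RatFunc k)) t)
    (hI : z / ii k F X ^ 2 ∈ MM (vI k) (t / ii k F X ^ 2)) :
    ∃ q : k[X], q.natDegree ≤ 2 ∧ ∃ γ : k, z = ii k F q + ii k F (C γ) * t := by
  obtain ⟨a, b, c, rfl⟩ := h.span z
  have hP' : ∀ P : HeightOneSpectrum k[X], P.valuation (RatFunc k) a ≤ 1 ∧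
      P.valuation (RatFunc k) b ≤ 1 ∧ P.valuation (RatFunc k) c ≤ 1 := by
    intro P
    obtain ⟨a', b', c', h1, h2, h3, h4⟩ := hP P
    obtain ⟨rfl, rfl, rfl⟩ := h.inj h4
    exact ⟨h1, h2, h3⟩
  obtain ⟨p, hp⟩ := HeightOneSpectrum.mem_integers_of_valuation_le_one (RatFunc k) a
    fun P => (hP' P).1
  obtain ⟨q, hq⟩ := HeightOneSpectrum.mem_integers_of_valuation_le_one (RatFunc k) b
    fun P => (hP' P).2.1
  obtain ⟨r, hr⟩ := HeightOneSpectrum.mem_integers_of_valuation_le_one (RatFunc k) c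
    fun P => (hP' P).2.2
  have hX : ii k F X ≠ 0 := ii_ne X_ne_zero
  have hX' : jj k X ≠ 0 := jj_ne X_ne_zero
  have h5 : e3 t a b c / ii k F X ^ 2 =
      e3 (t / ii k F X ^ 2) (a / jj k X ^ 2) b (c * jj k X ^ 2) := by
    simp only [e3, map_mul, map_pow, map_div₀, ← ii_apply]
    field_simp
  obtain ⟨a', b', c', h1, h2, h3, h4⟩ := hI
  rw [h5] at h4
  obtain ⟨rfl, rfl, rfl⟩ := (cub_inf h).inj h4
  have hvX : vI k (jj k X) = exp 1 := by rw [vI_poly X_ne_zero, natDegree_X]; rfl
  have hp2 : p.natDegree ≤ 2 := by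
    by_cases hp0 : p = 0
    · rw [hp0, natDegree_zero]; omega
    rw [← hp, map_div₀, map_pow, hvX, vI_poly hp0, ← exp_nsmul, ← exp_sub, ← exp_zero,
      exp_le_exp] at h1
    simp at h1
    omega
  have hq2 : q.natDegree = 0 := by
    by_cases hq0 : q = 0
    · rw [hq0, natDegree_zero]
    rw [← hq, vI_poly hq0, ← exp_zero, exp_le_exp] at h2
    omega
  have hr2 : r = 0 := by
    by_contra hr0
    rw [← hr, map_mul, map_pow, hvX, vI_poly hr0, ← exp_nsmul, ← exp_add, ← exp_zero,
      exp_le_exp] at h3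
    simp at h3
    omega
  obtain ⟨γ, hγ⟩ := natDegree_eq_zero.1 hq2
  refine ⟨p, hp2, γ, ?_⟩
  rw [e3, ← hp, ← hq, ← hr, hr2, ← hγ]
  simp [ii_apply]

/-- the pull-backs of the differentials are regular -/
theorem forms (h : Cub (RatFunc k) F t (jj k (fp k))) {D : Derivation ℚ F F}
    (hD : IsDer k D) {a b : F} (hab : b ^ 3 = ff a) (hb : b ≠ 0) :
    (∃ q : k[X], q.natDegree ≤ 2 ∧ ∃ γ : k,
      t ^ 2 * (D a / b ^ 2) = ii k F q + ii k F (C γ) * t) ∧
    (∃ q : k[X], q.natDegree ≤ 2 ∧ ∃ γ : k,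
      t ^ 2 * (a * (D a / b ^ 2)) = ii k F q + ii k F (C γ) * t) ∧
    (∃ q : k[X], q.natDegree ≤ 2 ∧ ∃ γ : k,
      t ^ 2 * (a ^ 2 * (D a / b ^ 2)) = ii k F q + ii k F (C γ) * t) ∧
    ∃ q : k[X], q.natDegree ≤ 2 ∧ ∃ γ : k,
      t ^ 2 * (D a / b) = ii k F q + ii k F (C γ) * t := by
  have hfin := fun P : HeightOneSpectrum k[X] =>
    local_reg h (triv_fin P) (fp_val_le P) (fp_val_ge P) (pres_fin hD P) hab hb
  have hinf := local_reg (cub_inf h) triv_inf phi_inf.le
    (by rw [phi_inf, ← exp_zero, exp_le_exp]; norm_num) (pres_inf hD) hab hb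
  have hX : ii k F X ≠ 0 := ii_ne X_ne_zero
  simp only [Derivation.smul_apply, smul_eq_mul] at hinf
  refine ⟨form h (fun P => (hfin P).1) ?_, form h (fun P => (hfin P).2.1) ?_,
    form h (fun P => (hfin P).2.2.1) ?_, form h (fun P => (hfin P).2.2.2) ?_⟩
  · convert hinf.1 using 1
    field_simp
  · convert hinf.2.1 using 1
    field_simp
  · convert hinf.2.2.1 using 1
    field_simp
  · convert hinf.2.2.2 using 1
    field_simp

end Pool.Agent.V11246.Q2
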