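import Pool.Agent.V11246.QqF

/-!
# The final algebra: the curve has no automorphisms
-/

set_option autoImplicit false

namespace Pool.Agent.V11246.Q2

open Polynomial

variable {k : Type} [Field k] [CharZero k]

theorem final_alg {b0 b1 a0 a1 l : k} (hl : l ≠ 0)
    (h6 : b1 ^ 6 + 7 * b1 * a1 ^ 5 + a1 ^ 6 = l)
    (h5 : 6 * b1 ^ 5 * b0 + 7 * (b0 * a1 ^ 5 + 5 * b1 * a1 ^ 4 * a0) + 6 * a1 ^ 5 * a0 = 0)
    (h4 : 15 * b1 ^ 4 * b0 ^ 2 + 7 * (5 * b0 * a1 ^ 4 * a0 + 10 * b1 * a1 ^ 3 * a0 ^ 2) +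
      15 * a1 ^ 4 * a0 ^ 2 = 0)
    (h3 : 20 * b1 ^ 3 * b0 ^ 3 + 7 * (10 * b0 * a1 ^ 3 * a0 ^ 2 + 10 * b1 * a1 ^ 2 * a0 ^ 3) +
      20 * a1 ^ 3 * a0 ^ 3 = 0)
    (h2 : 15 * b1 ^ 2 * b0 ^ 4 + 7 * (10 * b0 * a1 ^ 2 * a0 ^ 3 + 5 * b1 * a1 * a0 ^ 4) +
      15 * a1 ^ 2 * a0 ^ 4 = 0)
    (h1 : 6 * b1 * b0 ^ 5 + 7 * (5 * b0 * a1 * a0 ^ 4 + b1 * a0 ^ 5) + 6 * a1 * a0 ^ 5 = 7 * l)
    (h0 : b0 ^ 6 + 7 * b0 * a0 ^ 5 + a0 ^ 6 = l)
    (hΔ : b1 * a0 - b0 * a1 ≠ 0) : a1 = 0 ∧ b0 = 0 ∧ b1 = a0 := by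
  have n30 : (30 : k) ≠ 0 := by norm_num
  have e1 : l * a0 ^ 4 = b1 ^ 2 * (b1 * a0 - b0 * a1) ^ 4 := by
    linear_combination (-2 * a1 ^ 4 / 30) * h2 + (6 * a0 * a1 ^ 3 / 30) * h3 -
      (12 * a0 ^ 2 * a1 ^ 2 / 30) * h4 + (20 * a0 ^ 3 * a1 / 30) * h5 - a0 ^ 4 * h6
  have e2 : l * a0 ^ 3 = b1 ^ 3 * (b1 * a0 - b0 * a1) ^ 3 := by
    linear_combination (6 * a1 ^ 3 / 120) * h3 - (24 * a0 * a1 ^ 2 / 120) * h4 +
      (60 * a0 ^ 2 * a1 / 120) * h5 - a0 ^ 3 * h6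
  have e3 : l * a0 ^ 2 = b1 ^ 4 * (b1 * a0 - b0 * a1) ^ 2 := by
    linear_combination (-24 * a1 ^ 2 / 360) * h4 + (120 * a0 * a1 / 360) * h5 - a0 ^ 2 * h6
  have ha1 : a1 = 0 := by
    by_contra ha1
    by_cases ha0 : a0 = 0
    · have hb1 : b1 = 0 := by
        rw [ha0] at e2
        have h7 : b1 ^ 3 * (b1 * a0 - b0 * a1) ^ 3 = 0 := by rw [ha0, ← e2]; ring
        rcases mul_eq_zero.1 h7 with h | h
        · exact pow_eq_zero_iff three_ne_zero |>.1 h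
        · exact absurd (pow_eq_zero_iff three_ne_zero |>.1 h) hΔ
      rw [hb1, ha0] at h5
      have h7 : b0 * a1 ^ 5 = 0 := by linear_combination h5 / 7
      rcases mul_eq_zero.1 h7 with h | h
      · apply hΔ; rw [h, hb1]; ring
      · exact ha1 (pow_eq_zero_iff (by norm_num) |>.1 h)
    · have hb1 : b1 ≠ 0 := by
        rintro rfl
        rw [zero_pow three_ne_zero, zero_mul] at e2
        exact (mul_ne_zero hl (pow_ne_zero 3 ha0)) e2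
      have hb0 : b0 = 0 := by
        have h7 : b1 ^ 2 * (b1 * a0 - b0 * a1) ^ 3 * (b0 * a1) = 0 := by
          linear_combination e1 - a0 * e2
        rcases mul_eq_zero.1 h7 with h | h
        · rcases mul_eq_zero.1 h with h | h
          · exact absurd h (pow_ne_zero 2 hb1)
          · exact absurd h (pow_ne_zero 3 hΔ)
        · exact (mul_eq_zero.1 h).resolve_right ha1
      rw [hb0] at e3 h5
      have h8 : l = b1 ^ 6 := by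
        have h9 : a0 ^ 2 * l = a0 ^ 2 * b1 ^ 6 := by linear_combination e3
        exact mul_left_cancel₀ (pow_ne_zero 2 ha0) h9
      have h9 : a1 ^ 5 * (7 * b1 + a1) = 0 := by linear_combination h6 + h8
      have h10 : a1 = -7 * b1 := by
        rcases mul_eq_zero.1 h9 with h | h
        · exact absurd h (pow_ne_zero 5 ha1)
        · linear_combination h
      have h11 : a1 ^ 4 * a0 * (35 * b1 + 6 * a1) = 0 := by linear_combination h5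
      rcases mul_eq_zero.1 h11 with h | h
      · rcases mul_eq_zero.1 h with h | h
        · exact absurd h (pow_ne_zero 4 ha1)
        · exact ha0 h
      · apply hb1
        linear_combination (-1 / 7 : k) * h + (6 / 7 : k) * h10
  have hba : b1 ≠ 0 ∧ a0 ≠ 0 := by
    rw [ha1, mul_zero, sub_zero] at hΔ
    exact mul_ne_zero_iff.1 hΔ
  have hb0 : b0 = 0 := by
    rw [ha1] at h5
    have h7 : b1 ^ 5 * b0 = 0 := by linear_combination h5 / 6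
    exact (mul_eq_zero.1 h7).resolve_left (pow_ne_zero 5 hba.1)
  refine ⟨ha1, hb0, ?_⟩
  rw [ha1, hb0] at h1
  rw [hb0] at h0
  have h7 : a0 ^ 5 * b1 = a0 ^ 5 * a0 := by linear_combination h1 / 7 - h0
  exact mul_left_cancel₀ (pow_ne_zero 5 hba.2) h7

theorem coeffs6 {c6 c5 c4 c3 c2 c1 c0 : k} (h : C c6 * X ^ 6 + C c5 * X ^ 5 + C c4 * X ^ 4 +
    C c3 * X ^ 3 + C c2 * X ^ 2 + C c1 * X + C c0 = 0) :
    c6 = 0 ∧ c5 = 0 ∧ c4 = 0 ∧ c3 = 0 ∧ c2 = 0 ∧ c1 = 0 ∧ c0 = 0 := by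
  have e : ∀ n, (C c6 * X ^ 6 + C c5 * X ^ 5 + C c4 * X ^ 4 +
    C c3 * X ^ 3 + C c2 * X ^ 2 + C c1 * X + C c0).coeff n = 0 := fun n => by rw [h, coeff_zero]
  have e6 := e 6
  have e5 := e 5
  have e4 := e 4
  have e3 := e 3
  have e2 := e 2
  have e1 := e 1
  have e0 := e 0
  simp [coeff_X_pow, coeff_X, coeff_C] at e6 e5 e4 e3 e2 e1 e0
  exact ⟨e6, e5, e4, e3, e2, e1, e0⟩

/-- the homogeneous form of `f` -/
noncomputable def NN (a b : k[X]) : k[X] := 2 * b ^ 6 + 14 * (b * a ^ 5) + 2 * a ^ 6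

theorem final_poly {b0 b1 a0 a1 l : k} (hl : l ≠ 0)
    (h : NN (C a0 + C a1 * X) (C b0 + C b1 * X) = C l * fp k)
    (hΔ : b1 * a0 - b0 * a1 ≠ 0) : a1 = 0 ∧ b0 = 0 ∧ b1 = a0 ∧ l = a0 ^ 6 := by
  rw [NN, fp, ff] at h
  obtain ⟨h6, h5, h4, h3, h2, h1, h0⟩ := coeffs6 (k := k)
    (c6 := b1 ^ 6 + 7 * b1 * a1 ^ 5 + a1 ^ 6 - l)
    (c5 := 6 * b1 ^ 5 * b0 + 7 * (b0 * a1 ^ 5 + 5 * b1 * a1 ^ 4 * a0) + 6 * a1 ^ 5 * a0)
    (c4 := 15 * b1 ^ 4 * b0 ^ 2 + 7 * (5 * b0 * a1 ^ 4 * a0 + 10 * b1 * a1 ^ 3 * a0 ^ 2) +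
      15 * a1 ^ 4 * a0 ^ 2)
    (c3 := 20 * b1 ^ 3 * b0 ^ 3 + 7 * (10 * b0 * a1 ^ 3 * a0 ^ 2 + 10 * b1 * a1 ^ 2 * a0 ^ 3) +
      20 * a1 ^ 3 * a0 ^ 3)
    (c2 := 15 * b1 ^ 2 * b0 ^ 4 + 7 * (10 * b0 * a1 ^ 2 * a0 ^ 3 + 5 * b1 * a1 * a0 ^ 4) +
      15 * a1 ^ 2 * a0 ^ 4)
    (c1 := 6 * b1 * b0 ^ 5 + 7 * (5 * b0 * a1 * a0 ^ 4 + b1 * a0 ^ 5) + 6 * a1 * a0 ^ 5 - 7 * l)
    (c0 := b0 ^ 6 + 7 * b0 * a0 ^ 5 + a0 ^ 6 - l) (by
      have h2 : (C (1 / 2 : k)) * 2 = 1 := by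
        rw [show (2 : k[X]) = C 2 from (map_ofNat C 2).symm, ← C_mul]
        norm_num
      simp only [map_add, map_sub, map_mul, map_pow, map_ofNat]
      linear_combination C (1 / 2 : k) * h - ((C b0 + C b1 * X) ^ 6 +
        7 * ((C b0 + C b1 * X) * (C a0 + C a1 * X) ^ 5) + (C a0 + C a1 * X) ^ 6 -
        C l * (X ^ 6 + 7 * X + 1)) * h2)
  obtain ⟨r1, r2, r3⟩ := final_alg hl (sub_eq_zero.1 h6) h5 h4 h3 h2 (sub_eq_zero.1 h1)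
    (sub_eq_zero.1 h0) hΔ
  refine ⟨r1, r2, r3, ?_⟩
  rw [r2] at h0
  linear_combination -h0

/-- `NN` is not a cube -/
theorem no_cube {b0 b1 a0 a1 : k} (hΔ : b1 * a0 - b0 * a1 ≠ 0)
    (hcop : IsCoprime (C a0 + C a1 * X) (C b0 + C b1 * X)) (p : k[X]) :
    NN (C a0 + C a1 * X) (C b0 + C b1 * X) ≠ p ^ 3 := by
  intro h
  obtain ⟨α, hα⟩ : ∃ α, α = C a0 + C a1 * X := ⟨_, rfl⟩
  obtain ⟨β, hβ⟩ : ∃ β, β = C b0 + C b1 * X := ⟨_, rfl⟩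
  rw [← hα, ← hβ] at h hcop
  have dα : derivative α = C a1 := by rw [hα]; simp
  have dβ : derivative β = C b1 := by rw [hβ]; simp
  have hW : C b1 * α - C a1 * β = C (b1 * a0 - b0 * a1) := by
    rw [hα, hβ]; simp only [map_sub, map_mul]; ring
  have hWu : IsUnit (C (b1 * a0 - b0 * a1)) := isUnit_C.2 (isUnit_iff_ne_zero.2 hΔ)
  have hN : derivative (NN α β) = C b1 * (12 * β ^ 5 + 14 * α ^ 5) +
      C a1 * (70 * (β * α ^ 4) + 12 * α ^ 5) := by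
    have h5 : (C 5 : k[X]) = 5 := map_ofNat C 5
    have h6 : (C 6 : k[X]) = 6 := map_ofNat C 6
    rw [NN]
    simp only [derivative_add, derivative_mul, derivative_pow, dα, dβ, derivative_ofNat]
    push_cast
    rw [h5, h6]
    ring
  have hN3 : derivative (NN α β) = 3 * p ^ 2 * derivative p := by
    have h3 : (C 3 : k[X]) = 3 := map_ofNat C 3
    rw [h, derivative_pow]; push_cast; rw [h3]
  -- Euler
  have hx : p ^ 2 * (3 * α * derivative p - 6 * C a1 * p) =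
      C (b1 * a0 - b0 * a1) * (12 * β ^ 5 + 14 * α ^ 5) := by
    have h3 : NN α β = p ^ 3 := h
    rw [← hW]
    rw [hN] at hN3
    rw [NN] at h3
    linear_combination (-α) * hN3 + 6 * C a1 * h3
  have hz : p ^ 2 * (6 * C b1 * p - 3 * β * derivative p) =
      C (b1 * a0 - b0 * a1) * (70 * (β * α ^ 4) + 12 * α ^ 5) := by
    have h3 : NN α β = p ^ 3 := h
    rw [← hW]
    rw [hN] at hN3
    rw [NN] at h3
    linear_combination β * hN3 - 6 * C b1 * h3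
  have d1 : p ^ 2 ∣ 12 * β ^ 5 + 14 * α ^ 5 := (hWu.dvd_mul_left).1 ⟨_, hx.symm⟩
  have d2 : p ^ 2 ∣ 70 * (β * α ^ 4) + 12 * α ^ 5 := (hWu.dvd_mul_left).1 ⟨_, hz.symm⟩
  have hu : IsUnit (p ^ 2) := by
    have d3 : p ^ 2 ∣ C (14 * 70 ^ 5 - 12 ^ 6 : k) * α ^ 9 := by
      have e : C (14 * 70 ^ 5 - 12 ^ 6 : k) * α ^ 9 =
          (70 ^ 5 * α ^ 4) * (12 * β ^ 5 + 14 * α ^ 5) -
          (12 * ((70 * β) ^ 4 - (70 * β) ^ 3 * (12 * α) + (70 * β) ^ 2 * (12 * α) ^ 2 -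
            (70 * β) * (12 * α) ^ 3 + (12 * α) ^ 4)) * (70 * (β * α ^ 4) + 12 * α ^ 5) := by
        simp only [map_sub, map_mul, map_pow, map_ofNat]
        ring
      rw [e]
      exact dvd_sub (Dvd.dvd.mul_left d1 _) (Dvd.dvd.mul_left d2 _)
    have hcu : IsUnit (C (14 * 70 ^ 5 - 12 ^ 6 : k)) := by
      refine isUnit_C.2 (isUnit_iff_ne_zero.2 ?_)
      norm_num
    have d4 : p ^ 2 ∣ α ^ 9 := (hcu.dvd_mul_left).1 d3
    have hcu2 : IsUnit (12 : k[X]) := by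
      rw [show (12 : k[X]) = C 12 from (map_ofNat C 12).symm]
      exact isUnit_C.2 (isUnit_iff_ne_zero.2 (by norm_num))
    have hc1 : IsCoprime (α ^ 9) (12 * β ^ 5 + 14 * α ^ 5) := by
      refine IsCoprime.pow_left ?_
      have hc2 : IsCoprime α (12 * β ^ 5) :=
        (isCoprime_mul_unit_left_right hcu2 α (β ^ 5)).2 hcop.pow_right
      have hc3 := hc2.add_mul_left_right (14 * α ^ 4)
      have e : 12 * β ^ 5 + α * (14 * α ^ 4) = 12 * β ^ 5 + 14 * α ^ 5 := by ring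
      rwa [e] at hc3
    exact hc1.isUnit_of_dvd' d4 d1
  have hpu : IsUnit p := (isUnit_pow_iff two_ne_zero).1 hu
  obtain ⟨p0, -, hp0⟩ := Polynomial.isUnit_iff.1 hpu
  have dp : derivative p = 0 := by rw [← hp0]; exact derivative_C
  -- the partial derivative is constant
  rw [dp, mul_zero, zero_sub, ← hp0] at hx
  have hx' : C (b1 * a0 - b0 * a1) * (12 * (C b0 + C b1 * X) ^ 5 + 14 * (C a0 + C a1 * X) ^ 5) =
      C (-(6 * a1 * p0 ^ 3)) := by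
    rw [← hα, ← hβ, ← hx]
    simp only [map_neg, map_mul, map_pow, map_ofNat]
    ring
  obtain ⟨-, h5, h4, -⟩ := coeffs6 (k := k) (c6 := 0)
    (c5 := (b1 * a0 - b0 * a1) * (12 * b1 ^ 5 + 14 * a1 ^ 5))
    (c4 := (b1 * a0 - b0 * a1) * (60 * b1 ^ 4 * b0 + 70 * a1 ^ 4 * a0))
    (c3 := (b1 * a0 - b0 * a1) * (120 * b1 ^ 3 * b0 ^ 2 + 140 * a1 ^ 3 * a0 ^ 2))
    (c2 := (b1 * a0 - b0 * a1) * (120 * b1 ^ 2 * b0 ^ 3 + 140 * a1 ^ 2 * a0 ^ 3))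
    (c1 := (b1 * a0 - b0 * a1) * (60 * b1 * b0 ^ 4 + 70 * a1 * a0 ^ 4))
    (c0 := (b1 * a0 - b0 * a1) * (12 * b0 ^ 5 + 14 * a0 ^ 5) + 6 * a1 * p0 ^ 3) (by
      simp only [map_add, map_sub, map_mul, map_pow, map_ofNat, map_neg] at hx' ⊢
      rw [map_zero]
      linear_combination hx')
  have h5' := (mul_eq_zero.1 h5).resolve_left hΔ
  have h4' := (mul_eq_zero.1 h4).resolve_left hΔ
  have h6 : a1 ^ 4 * (b1 * a0 - b0 * a1) = 0 := by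
    linear_combination (b1 / 70) * h4' - (b0 / 14) * h5'
  have ha1 : a1 = 0 := pow_eq_zero_iff (by norm_num) |>.1 ((mul_eq_zero.1 h6).resolve_right hΔ)
  rw [ha1] at h5'
  have hb1 : b1 = 0 := by
    have : b1 ^ 5 = 0 := by linear_combination h5' / 12
    exact pow_eq_zero_iff (by norm_num) |>.1 this
  apply hΔ
  rw [ha1, hb1]; ring

end Pool.Agent.V11246.Q2
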