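import Pool.Agent.V11246.QqG

/-!
# The points of the curve over its function field
-/

set_option autoImplicit false

namespace Pool.Agent.V11246.Q2

open Polynomial

variable {k : Type} [Field k] [CharZero k] {F : Type} [Field F] [CharZero F]
  [Algebra (RatFunc k) F] {t : F}

theorem D_ff (D : Derivation ℚ F F) (a : F) : D (ff a) = ff' a * D a := by
  have h2 : ∀ n : ℕ, D ((n : ℕ) : F) = 0 := fun n => D.map_natCast n
  have h3 : D (2 : F) = 0 := by simpa using h2 2
  have h4 : D (14 : F) = 0 := by simpa using h2 14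
  rw [ff, ff', map_add, map_add, Derivation.leibniz, Derivation.leibniz, Derivation.leibniz_pow,
    h3, h4]
  simp
  ring

theorem ii_C_mul (c : k) (p : k[X]) : ii k F (C c * p) = ii k F (C c) * ii k F p := map_mul _ _ _

/-- factoring two polynomials of degree at most two whose product is a square -/
theorem factor {q0 q1 q2 : k[X]} (h0 : q0 ≠ 0) (hq : q1 ^ 2 = q0 * q2) (d0 : q0.natDegree ≤ 2)
    (d2 : q2.natDegree ≤ 2) (hnc : ∀ c : k, q1 ≠ C c * q0) :
    ∃ a0 a1 b0 b1 s : k, s ≠ 0 ∧ q0 = (C a0 + C a1 * X) ^ 2 * C s ∧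
      q1 = (C a0 + C a1 * X) * (C b0 + C b1 * X) * C s ∧
      IsCoprime (C a0 + C a1 * X) (C b0 + C b1 * X) := by
  classical
  obtain ⟨g, hg⟩ : ∃ g, g = EuclideanDomain.gcd q0 q1 := ⟨_, rfl⟩
  obtain ⟨α, hα⟩ : g ∣ q0 := by rw [hg]; exact EuclideanDomain.gcd_dvd_left _ _
  obtain ⟨β, hβ⟩ : g ∣ q1 := by rw [hg]; exact EuclideanDomain.gcd_dvd_right _ _
  have hg0 : g ≠ 0 := by rintro rfl; exact h0 (by rw [hα, zero_mul])
  have hα0 : α ≠ 0 := by rintro rfl; exact h0 (by rw [hα, mul_zero])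
  have hcop : IsCoprime α β := by
    have h1 := EuclideanDomain.gcd_eq_gcd_ab q0 q1
    rw [← hg] at h1
    refine ⟨EuclideanDomain.gcdA q0 q1, EuclideanDomain.gcdB q0 q1, ?_⟩
    refine mul_left_cancel₀ hg0 ?_
    rw [mul_one]
    conv_rhs => rw [h1]
    conv_rhs => rw [hα]
    have h2 : g * (EuclideanDomain.gcdA q0 q1 * α + EuclideanDomain.gcdB q0 q1 * β) =
      (g * α) * EuclideanDomain.gcdA q0 q1 + (g * β) * EuclideanDomain.gcdB q0 q1 := by ring
    rw [h2, ← hα, ← hβ]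
  have h1 : g * β ^ 2 = α * q2 := by
    refine mul_left_cancel₀ hg0 ?_
    rw [hα, hβ] at hq
    linear_combination hq
  obtain ⟨s, hs⟩ : α ∣ g := (hcop.pow_right (n := 2)).dvd_of_dvd_mul_right ⟨q2, h1⟩
  have hs0 : s ≠ 0 := by rintro rfl; exact hg0 (by rw [hs, mul_zero])
  have e0 : q0 = α ^ 2 * s := by rw [hα, hs]; ring
  have e1 : q1 = α * β * s := by rw [hβ, hs]; ring
  have hβ0 : β ≠ 0 := by
    rintro rfl
    exact hnc 0 (by rw [e1]; simp)
  have e2 : q2 = β ^ 2 * s := by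
    refine mul_left_cancel₀ hα0 ?_
    rw [← h1, hs]; ring
  have f0 : 2 * α.natDegree + s.natDegree ≤ 2 := by
    rw [e0, natDegree_mul (pow_ne_zero 2 hα0) hs0, natDegree_pow] at d0
    exact d0
  have f2 : 2 * β.natDegree + s.natDegree ≤ 2 := by
    rw [e2, natDegree_mul (pow_ne_zero 2 hβ0) hs0, natDegree_pow] at d2
    exact d2
  have fs : s.natDegree = 0 := by
    by_contra hs1
    have g1 : α.natDegree = 0 := by omega
    have g2 : β.natDegree = 0 := by omega
    obtain ⟨x, hx⟩ := natDegree_eq_zero.1 g1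
    obtain ⟨y, hy⟩ := natDegree_eq_zero.1 g2
    have hx0 : x ≠ 0 := by rintro rfl; exact hα0 (by rw [← hx, C_0])
    apply hnc (y / x)
    have h3 : (C (y / x) : k[X]) * C x = C y := by rw [← C_mul, div_mul_cancel₀ _ hx0]
    rw [e0, e1, ← hx, ← hy, ← h3]
    ring
  obtain ⟨s', hs'⟩ := natDegree_eq_zero.1 fs
  have hα1 : α = C (α.coeff 0) + C (α.coeff 1) * X := by
    have := Polynomial.eq_X_add_C_of_natDegree_le_one (p := α) (by omega)
    rw [add_comm]; exact this
  have hβ1 : β = C (β.coeff 0) + C (β.coeff 1) * X := by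
    have := Polynomial.eq_X_add_C_of_natDegree_le_one (p := β) (by omega)
    rw [add_comm]; exact this
  refine ⟨α.coeff 0, α.coeff 1, β.coeff 0, β.coeff 1, s', ?_, ?_, ?_, ?_⟩
  · rintro rfl
    exact hs0 (by rw [← hs', C_0])
  · rw [← hα1, hs']; exact e0
  · rw [← hα1, ← hβ1, hs']; exact e1
  · rw [← hα1, ← hβ1]; exact hcop

/-- **The points of the curve over its function field over `k`:** they are the points over `k` and
the generic point. -/
theorem one_var (h : Cub (RatFunc k) F t (jj k (fp k))) (hω : ∀ z : k, z ^ 3 = 1 → z = 1)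
    {D : Derivation ℚ F F} (hD : IsDer k D) {a b : F} (hab : b ^ 3 = ff a) :
    (∃ c e : k, a = ii k F (C c) ∧ b = ii k F (C e)) ∨ (a = ii k F X ∧ b = t) := by
  have hder : 3 * b ^ 2 * D b = ff' a * D a := by
    have h1 : D (b ^ 3) = D (ff a) := by rw [hab]
    rw [D_ff, Derivation.leibniz_pow] at h1
    rw [← h1]
    simp
    ring
  by_cases hDa : D a = 0
  · left
    obtain ⟨c, hc⟩ := const_of_D h hD hDa
    by_cases hb : b = 0
    · exact ⟨c, 0, hc, by rw [hb, C_0, map_zero]⟩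
    rw [hDa, mul_zero, mul_eq_zero] at hder
    have hDb : D b = 0 := hder.resolve_left (mul_ne_zero three_ne_zero (pow_ne_zero 2 hb))
    obtain ⟨e, he⟩ := const_of_D h hD hDb
    exact ⟨c, e, hc, he⟩
  right
  have hb : b ≠ 0 := by
    rintro rfl
    rw [zero_pow three_ne_zero] at hab
    have h1 : ff' a = 0 := by
      have h2 : ff' a * D a = 0 := by rw [← hder]; ring
      exact (mul_eq_zero.1 h2).resolve_right hDa
    exact ff_sep hab.symm h1
  have ht0 : t ≠ 0 := by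
    rintro rfl
    have := h.cube
    rw [zero_pow three_ne_zero] at this
    exact jj_ne fp_ne ((map_eq_zero_iff _ (algebraMap (RatFunc k) F).injective).1 this.symm)
  obtain ⟨⟨q0, d0, γ0, e0⟩, ⟨q1, d1, γ1, e1⟩, ⟨q2, d2, γ2, e2⟩, ⟨q3, d3, γ3, e3'⟩⟩ :=
    forms h hD hab hb
  obtain ⟨w, hw⟩ : ∃ w, w = t ^ 2 * (D a / b ^ 2) := ⟨_, rfl⟩
  have hw0 : w ≠ 0 := by
    rw [hw]
    exact mul_ne_zero (pow_ne_zero 2 ht0) (div_ne_zero hDa (pow_ne_zero 2 hb))
  rw [← hw] at e0
  have e1' : a * w = ii k F q1 + ii k F (C γ1) * t := by rw [← e1, hw]; ring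
  have e2' : a ^ 2 * w = ii k F q2 + ii k F (C γ2) * t := by rw [← e2, hw]; ring
  have e3'' : b * w = ii k F q3 + ii k F (C γ3) * t := by
    rw [← e3', hw]; field_simp
  -- coordinates
  have E : ∀ (q : k[X]) (γ : k), ii k F q + ii k F (C γ) * t = e3 t (jj k q) (jj k (C γ)) 0 := by
    intro q γ
    rw [e3, map_zero, zero_mul, add_zero]
    rfl
  rw [E] at e0 e1' e2' e3''
  have hsq : (a * w) * (a * w) = w * (a ^ 2 * w) := by ring
  rw [e1', e2'] at hsq
  conv_rhs at hsq => rw [e0]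
  rw [e3_mul h, e3_mul h] at hsq
  obtain ⟨c0, c1, c2⟩ := h.inj hsq
  have inj : Function.Injective (jj k) := RatFunc.algebraMap_injective k
  have k0 : q1 ^ 2 = q0 * q2 := inj (by
    rw [map_pow, map_mul]; linear_combination c0)
  have k1 : q1 * C γ1 + C γ1 * q1 = q0 * C γ2 + C γ0 * q2 := inj (by
    rw [map_add, map_add, map_mul, map_mul, map_mul, map_mul]; linear_combination c1)
  have k2 : (C γ1 : k[X]) * C γ1 = C γ0 * C γ2 := inj (by
    rw [map_mul, map_mul]; linear_combination c2)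
  have k2' : γ1 * γ1 = γ0 * γ2 := by
    rw [← C_mul, ← C_mul] at k2
    exact C_injective k2
  -- `a` is not a constant
  have hnc : ∀ c : k, a ≠ ii k F (C c) := by
    rintro c rfl
    exact hDa (by rw [hD, derivative_C, map_zero])
  have g0 : γ0 = 0 := by
    by_contra hg
    obtain ⟨r, hr⟩ : ∃ r, r = γ1 / γ0 := ⟨_, rfl⟩
    have r1 : γ1 = r * γ0 := by rw [hr, div_mul_cancel₀ _ hg]
    have r2 : γ2 = r ^ 2 * γ0 := by
      refine mul_left_cancel₀ hg ?_
      rw [← k2', r1]; ring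
    have h3 : (q1 - C r * q0) ^ 2 = 0 := by
      have h4 : (C γ0 : k[X]) ≠ 0 := C_ne_zero.2 hg
      refine (mul_eq_zero.1 (?_ : C γ0 * (q1 - C r * q0) ^ 2 = 0)).resolve_left h4
      rw [r1, r2] at k1
      simp only [C_mul, C_pow] at k1
      linear_combination C γ0 * k0 - q0 * k1
    have h4 : q1 = C r * q0 := sub_eq_zero.1 (pow_eq_zero_iff two_ne_zero |>.1 h3)
    have h5 : a * w = ii k F (C r) * w := by
      rw [e1', e0, h4, r1]
      simp only [e3, map_mul, map_zero, ii_apply]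
      ring
    exact hnc r (mul_right_cancel₀ hw0 h5)
  have g1 : γ1 = 0 := by
    rw [g0, zero_mul] at k2'
    exact mul_self_eq_zero.1 k2'
  have hq0 : q0 ≠ 0 := by
    rintro rfl
    apply hw0
    rw [e0, g0]
    simp [e3]
  rw [g0, C_0, map_zero] at e0
  rw [g1, C_0, map_zero] at e1'
  have e0' : w = ii k F q0 := by rw [e0]; simp [e3, ii_apply]
  have e1'' : a * ii k F q0 = ii k F q1 := by rw [← e0', e1']; simp [e3, ii_apply]
  obtain ⟨a0, a1, b0, b1, s, hs, f0, f1, hcop⟩ := factor hq0 k0 d0 d2 (by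
    intro c hc
    apply hnc c
    refine mul_right_cancel₀ (ii_ne hq0) ?_
    rw [e1'', hc, map_mul])
  obtain ⟨α, hα⟩ : ∃ α, α = C a0 + C a1 * X := ⟨_, rfl⟩
  obtain ⟨β, hβ⟩ : ∃ β, β = C b0 + C b1 * X := ⟨_, rfl⟩
  rw [← hα] at f0 f1
  rw [← hβ] at f1
  have hα0 : α ≠ 0 := by rintro rfl; exact hq0 (by rw [f0]; ring)
  have haαβ : a * ii k F α = ii k F β := by
    have h3 : ii k F (α * C s) ≠ 0 := ii_ne (mul_ne_zero hα0 (C_ne_zero.2 hs))
    refine mul_right_cancel₀ h3 ?_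
    rw [f0, f1] at e1''
    simp only [map_mul, map_pow] at e1'' ⊢
    linear_combination e1''
  have hΔ : b1 * a0 - b0 * a1 ≠ 0 := by
    intro h3
    have dα : derivative α = C a1 := by rw [hα]; simp
    have dβ : derivative β = C b1 := by rw [hβ]; simp
    have h4 := congrArg D haαβ
    rw [Derivation.leibniz, hD, hD, smul_eq_mul, smul_eq_mul, dα, dβ] at h4
    have h5 : ii k F α ^ 2 * D a = ii k F (C b1 * α - C a1 * β) := by
      rw [map_sub, map_mul, map_mul]
      linear_combination ii k F α * h4 - ii k F (C a1) * haαβ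
    have h6 : C b1 * α - C a1 * β = C (b1 * a0 - b0 * a1) := by
      rw [hα, hβ]; simp only [map_sub, map_mul]; ring
    rw [h6, h3, C_0, map_zero, mul_eq_zero] at h5
    rcases h5 with h5 | h5
    · exact ii_ne hα0 (pow_eq_zero_iff two_ne_zero |>.1 h5)
    · exact hDa h5
  -- the cube
  have hbw : b * ii k F (α ^ 2 * C s) = e3 t (jj k q3) (jj k (C γ3)) 0 := by
    rw [← e3'', e0', f0]
  have hcube : e3 t (jj k q3) (jj k (C γ3)) 0 * e3 t (jj k q3) (jj k (C γ3)) 0 *
      e3 t (jj k q3) (jj k (C γ3)) 0 = e3 t (jj k (C s ^ 3 * NN α β)) 0 0 := by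
    rw [← hbw]
    have h3 : e3 t (jj k (C s ^ 3 * NN α β)) 0 0 = ii k F (C s ^ 3 * NN α β) := by
      simp [e3, ii_apply]
    have h4 : b * ii k F (α ^ 2 * C s) * (b * ii k F (α ^ 2 * C s)) *
        (b * ii k F (α ^ 2 * C s)) = b ^ 3 * (ii k F α ^ 6 * ii k F (C s) ^ 3) := by
      simp only [map_mul, map_pow]; ring
    rw [h3, h4, hab, NN, ff]
    simp only [map_mul, map_pow, map_add, map_ofNat, ← haαβ]
    ring
  rw [e3_mul h, e3_mul h] at hcube
  obtain ⟨m0, m1, -⟩ := h.inj hcube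
  have m1' : q3 ^ 2 * C γ3 = 0 := inj (by
    have h3 : (3 : RatFunc k) ≠ 0 := three_ne_zero
    rw [map_mul, map_pow, map_zero]
    refine (mul_eq_zero.1 (?_ : (3 : RatFunc k) * (jj k q3 ^ 2 * jj k (C γ3)) = 0)).resolve_left h3
    linear_combination m1)
  have m0' : q3 ^ 3 + C γ3 ^ 3 * fp k = C s ^ 3 * NN α β := inj (by
    rw [map_add, map_mul, map_pow, map_pow]
    rw [← m0]
    ring)
  have hs' : (C s : k[X]) * C s⁻¹ = 1 := by rw [← C_mul, mul_inv_cancel₀ hs, C_1]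
  rcases mul_eq_zero.1 m1' with hq | hg
  · -- the main case
    have hq3 : q3 = 0 := pow_eq_zero_iff two_ne_zero |>.1 hq
    obtain ⟨ρ, hρ⟩ : ∃ ρ, ρ = γ3 * s⁻¹ := ⟨_, rfl⟩
    have hN : NN α β = C (ρ ^ 3) * fp k := by
      rw [hq3] at m0'
      have h3 : NN α β = C s⁻¹ ^ 3 * (C s ^ 3 * NN α β) := by
        rw [← mul_assoc, ← mul_pow, mul_comm (C s⁻¹), hs', one_pow, one_mul]
      rw [h3, ← m0', hρ]
      simp only [C_mul, C_pow]
      ring
    have hγ3 : γ3 ≠ 0 := by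
      rintro rfl
      rw [hq3] at hbw
      have h3 : e3 t (jj k (0 : k[X])) (jj k (C 0)) 0 = 0 := by simp [e3]
      rw [h3, mul_eq_zero] at hbw
      rcases hbw with h4 | h4
      · exact hb h4
      · exact ii_ne (mul_ne_zero (pow_ne_zero 2 hα0) (C_ne_zero.2 hs)) h4
    have hρ0 : ρ ≠ 0 := by rw [hρ]; exact mul_ne_zero hγ3 (inv_ne_zero hs)
    rw [hα, hβ] at hN
    obtain ⟨r1, r2, r3, r4⟩ := final_poly (pow_ne_zero 3 hρ0) hN hΔ
    have ha0 : a0 ≠ 0 := by
      rintro rfl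
      apply hΔ
      rw [r1]; ring
    have hα' : α = C a0 := by rw [hα, r1]; simp
    have hβ' : β = C a0 * X := by rw [hβ, r2, r3]; simp
    have hC0 : ii k F (C a0) ≠ 0 := ii_ne (C_ne_zero.2 ha0)
    refine ⟨?_, ?_⟩
    · refine mul_right_cancel₀ hC0 ?_
      rw [hα', hβ', map_mul] at haαβ
      rw [haαβ, mul_comm]
    · have h3 : ρ = a0 ^ 2 := by
        have h4 : (ρ / a0 ^ 2) ^ 3 = 1 := by
          rw [div_pow, r4, ← pow_mul, div_self (pow_ne_zero 6 ha0)]
        have h5 := hω _ h4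
        rwa [div_eq_one_iff_eq (pow_ne_zero 2 ha0)] at h5
      have h4 : γ3 = a0 ^ 2 * s := by
        rw [← h3, hρ, mul_assoc, inv_mul_cancel₀ hs, mul_one]
      rw [hα', hq3, h4] at hbw
      have h5 : e3 t (jj k (0 : k[X])) (jj k (C (a0 ^ 2 * s))) 0 =
          t * ii k F (C a0 ^ 2 * C s) := by
        rw [C_mul, C_pow]
        simp only [e3, map_zero, ii_apply]
        ring
      rw [h5] at hbw
      exact mul_right_cancel₀ (ii_ne (mul_ne_zero (pow_ne_zero 2 (C_ne_zero.2 ha0))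
        (C_ne_zero.2 hs))) hbw
  · exfalso
    have hγ3 : γ3 = 0 := C_eq_zero.1 hg
    have hN : NN α β = (C s⁻¹ * q3) ^ 3 := by
      have h3 : NN α β = C s⁻¹ ^ 3 * (C s ^ 3 * NN α β) := by
        rw [← mul_assoc, ← mul_pow, mul_comm (C s⁻¹), hs', one_pow, one_mul]
      rw [h3, ← m0', hγ3, C_0]
      ring
    rw [hα, hβ] at hN
    exact no_cube hΔ hcop _ hN

end Pool.Agent.V11246.Q2
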