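import Pool.Agent.V11246.QqH
import Pool.Agent.TH729.Gr.Der

/-!
# The function field of the curve, and its embeddings
-/

set_option autoImplicit false

namespace Pool.Agent.V11246.Q2

open Polynomial

variable (k : Type) [Field k] [CharZero k]

/-- the polynomial of the extension -/
noncomputable def gg : (RatFunc k)[X] := X ^ 3 - C (jj k (fp k))

theorem gg_irr : Irreducible (gg k) :=
  X_pow_sub_C_irreducible_of_prime Nat.prime_three ncube

instance : Fact (Irreducible (gg k)) := ⟨gg_irr k⟩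

/-- the function field of the curve over `k` -/
abbrev FF : Type := AdjoinRoot (gg k)

instance : CharZero (FF k) :=
  charZero_of_injective_algebraMap (R := RatFunc k) (algebraMap (RatFunc k) (FF k)).injective

theorem cub_FF : Cub (RatFunc k) (FF k) (AdjoinRoot.root (gg k)) (jj k (fp k)) where
  cube := by
    have h := AdjoinRoot.eval₂_root (gg k)
    change eval₂ (AdjoinRoot.of (gg k)) (AdjoinRoot.root (gg k)) (X ^ 3 - C (jj k (fp k))) = 0 at h
    rw [eval₂_sub, eval₂_pow, eval₂_X, eval₂_C, sub_eq_zero] at h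
    exact h
  ncube := ncube
  span := by
    intro z
    obtain ⟨p, rfl⟩ := AdjoinRoot.mk_surjective z
    have hmon : (gg k).Monic := monic_X_pow_sub_C _ (by norm_num)
    have h1 : AdjoinRoot.mk (gg k) p = AdjoinRoot.mk (gg k) (p %ₘ gg k) := by
      conv_lhs => rw [← modByMonic_add_div p (gg k)]
      rw [map_add, map_mul, AdjoinRoot.mk_self, zero_mul, add_zero]
    have h2 : (p %ₘ gg k).degree ≤ 2 := by
      have h3 := degree_modByMonic_lt p hmon
      rw [gg, degree_X_pow_sub_C (by norm_num)] at h3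
      exact Order.le_of_lt_succ h3
    obtain ⟨r, hr⟩ : ∃ r, r = p %ₘ gg k := ⟨_, rfl⟩
    rw [h1, ← hr]
    rw [← hr] at h2
    refine ⟨r.coeff 0, r.coeff 1, r.coeff 2, ?_⟩
    have h4 := eq_quadratic_of_degree_le_two h2
    conv_lhs => rw [h4]
    rw [map_add, map_add, map_mul, map_mul, map_pow, AdjoinRoot.mk_X, AdjoinRoot.mk_C,
      AdjoinRoot.mk_C, AdjoinRoot.mk_C]
    simp only [e3, AdjoinRoot.algebraMap_eq]
    ring

theorem exists_derF : ∃ D : Derivation ℚ (FF k) (FF k), IsDer k D := by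
  have hfd := (cub_FF k).finite
  have : Algebra.IsAlgebraic (RatFunc k) (FF k) := inferInstance
  have e1 : Algebra.FormallyEtale k[X] (RatFunc k) :=
    Algebra.FormallyEtale.of_isLocalization (nonZeroDivisors k[X])
  have e2 : Algebra.FormallyEtale (RatFunc k) (FF k) := Algebra.FormallyEtale.of_isSeparable _ _
  have e3 : Algebra.FormallyEtale k[X] (FF k) := Algebra.FormallyEtale.comp k[X] (RatFunc k) _
  obtain ⟨D, hD⟩ := TH729.Gr.exists_der (R := k) (S := k[X]) (T := FF k)
    ((Algebra.linearMap k[X] (FF k)).compDer Polynomial.derivative')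
  refine ⟨{ toFun := D, map_add' := D.map_add, map_smul' := fun q z => ?_,
            map_one_eq_zero' := D.map_one_eq_zero, leibniz' := D.leibniz }, fun p => ?_⟩
  · exact map_rat_smul D.toLinearMap.toAddMonoidHom q z
  · exact hD p

variable {k}

/-- embeddings of the function field -/
theorem exists_lift {Ω : Type} [Field Ω] (e : k →+* Ω) {y s : Ω} (hs : s ^ 3 = ff y)
    (hinj : Function.Injective (eval₂RingHom e y)) :
    ∃ Φ : FF k →+* Ω, (∀ c : k, Φ (ii k (FF k) (C c)) = e c) ∧ Φ (ii k (FF k) X) = y ∧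
      Φ (AdjoinRoot.root (gg k)) = s := by
  let Ψ : RatFunc k →+* Ω := IsFractionRing.lift hinj
  have hΨ : ∀ p : k[X], Ψ (jj k p) = p.eval₂ e y := fun p => IsFractionRing.lift_algebraMap hinj p
  have h1 : (gg k).eval₂ Ψ s = 0 := by
    rw [gg, eval₂_sub, eval₂_pow, eval₂_X, eval₂_C, hΨ, hs, fp, ff, ff]
    have h2 : ∀ n : ℕ, (n : k[X]).eval₂ e y = (n : Ω) := fun n => eval₂_natCast _ _ n
    have h3 : (2 : k[X]).eval₂ e y = 2 := by simpa using h2 2
    have h4 : (14 : k[X]).eval₂ e y = 14 := by simpa using h2 14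
    simp only [eval₂_add, eval₂_mul, eval₂_pow, eval₂_X, h3, h4, sub_self]
  refine ⟨AdjoinRoot.lift Ψ s h1, fun c => ?_, ?_, ?_⟩
  · rw [ii_apply, AdjoinRoot.algebraMap_eq, AdjoinRoot.lift_of, hΨ, eval₂_C]
  · rw [ii_apply, AdjoinRoot.algebraMap_eq, AdjoinRoot.lift_of, hΨ, eval₂_X]
  · exact AdjoinRoot.lift_root h1

/-- transcendence by a derivation -/
theorem trans_of_D {Ω : Type} [Field Ω] [CharZero Ω] (e : k →+* Ω) (D : Derivation ℚ Ω Ω)
    (hD : ∀ c, D (e c) = 0) {y : Ω} (hy : D y = 1) :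
    Function.Injective (eval₂RingHom e y) := by
  have h1 : ∀ p : k[X], D (p.eval₂ e y) = (derivative p).eval₂ e y := by
    intro p
    induction p using Polynomial.induction_on' with
    | add p q hp hq => rw [eval₂_add, map_add, hp, hq, derivative_add, eval₂_add]
    | monomial n a =>
      rw [derivative_monomial, eval₂_monomial, eval₂_monomial, Derivation.leibniz, hD,
        Derivation.leibniz_pow, hy]
      simp
      ring
  have h2 : ∀ n : ℕ, ∀ p : k[X], p.natDegree ≤ n → p.eval₂ e y = 0 → p = 0 := by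
    intro n
    induction n with
    | zero =>
      intro p hp h
      obtain ⟨c, rfl⟩ := natDegree_eq_zero.1 (Nat.le_zero.1 hp)
      rw [eval₂_C, map_eq_zero] at h
      rw [h, C_0]
    | succ n ih =>
      intro p hp h
      have h3 := ih (derivative p) (by have := natDegree_derivative_le p; omega)
        (by rw [← h1, h, map_zero])
      obtain ⟨c, rfl⟩ := natDegree_eq_zero.1 (natDegree_eq_zero_of_derivative_eq_zero h3)
      rw [eval₂_C, map_eq_zero] at h
      rw [h, C_0]
  rw [injective_iff_map_eq_zero]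
  intro p hp
  exact h2 _ p le_rfl hp

/-- the points over the function field, in terms of an embedding -/
theorem step {Ω : Type} [Field Ω] (e : k →+* Ω) {y s : Ω} (hω : ∀ z : k, z ^ 3 = 1 → z = 1)
    (Φ : FF k →+* Ω) (h1 : ∀ c : k, Φ (ii k (FF k) (C c)) = e c)
    (h2 : Φ (ii k (FF k) X) = y) (h3 : Φ (AdjoinRoot.root (gg k)) = s) :
    (∀ a ∈ Φ.range, ∀ b ∈ Φ.range, b ^ 3 = ff a → (a ∈ e.range ∧ b ∈ e.range) ∨ (a = y ∧ b = s)) ∧
    ∀ z ∈ Φ.range, z ^ 3 = 1 → z ∈ e.range := by
  obtain ⟨D, hD⟩ := exists_derF k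
  constructor
  · rintro _ ⟨a, rfl⟩ _ ⟨b, rfl⟩ hab
    have hab' : b ^ 3 = ff a := by
      apply Φ.injective
      rw [map_pow, hab, ff, ff]
      simp [map_ofNat]
    rcases one_var (cub_FF k) hω hD hab' with ⟨c, d, ha, hb⟩ | ⟨ha, hb⟩
    · left
      rw [ha, hb, h1, h1]
      exact ⟨⟨c, rfl⟩, ⟨d, rfl⟩⟩
    · right
      rw [ha, hb, h2, h3]
      exact ⟨rfl, rfl⟩
  · rintro _ ⟨z, rfl⟩ hz
    have hz' : z ^ 3 = 1 := by
      apply Φ.injective
      rw [map_pow, hz, map_one]
    have hz0 : z ≠ 0 := by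
      rintro rfl
      rw [zero_pow three_ne_zero] at hz'
      exact zero_ne_one hz'
    have hDz : D z = 0 := by
      have h4 := congrArg D hz'
      rw [Derivation.leibniz_pow, Derivation.map_one_eq_zero] at h4
      simpa [hz0] using h4
    obtain ⟨c, hc⟩ := const_of_D (cub_FF k) hD hDz
    rw [hc, h1]
    exact ⟨c, rfl⟩

end Pool.Agent.V11246.Q2
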