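import Pool.Agent.V11246.QqI

/-!
# The tower of fields
-/

set_option autoImplicit false

namespace Pool.Agent.V11246.Q2

open Polynomial
open Pool.Agent.TH729.Gr (Om ι D D_ι)

/-- the ambient field -/
abbrev Ω : Type := Om ℕ

/-- the variables -/
noncomputable def xx (i : ℕ) : Ω := ι (MvPolynomial.X i)

theorem exists_tt (i : ℕ) : ∃ z : Ω, z ^ 3 = ff (xx i) :=
  IsAlgClosed.exists_pow_nat_eq _ (by norm_num)

/-- the cube roots -/
noncomputable def tt (i : ℕ) : Ω := (exists_tt i).choose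

theorem tt_cube (i : ℕ) : tt i ^ 3 = ff (xx i) := (exists_tt i).choose_spec

theorem D_xx_self (i : ℕ) : D i (xx i) = 1 := by
  rw [xx, D_ι, MvPolynomial.pderiv_X_self, map_one]

theorem D_xx {i j : ℕ} (h : i ≠ j) : D j (xx i) = 0 := by
  rw [xx, D_ι, MvPolynomial.pderiv_X_of_ne h, map_zero]

theorem tt_ne (i : ℕ) : tt i ≠ 0 := by
  intro h
  have h1 := tt_cube i
  rw [h, zero_pow three_ne_zero] at h1
  have h2 := congrArg (D i) h1.symm
  rw [D_ff, D_xx_self, mul_one, map_zero] at h2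
  exact ff_sep h1.symm h2

theorem D_tt {i j : ℕ} (h : i ≠ j) : D j (tt i) = 0 := by
  have h1 := congrArg (D j) (tt_cube i)
  rw [D_ff, D_xx h, mul_zero, Derivation.leibniz_pow] at h1
  simpa [tt_ne i] using h1

/-- the generators of the fields of the tower -/
def SS (π : ℕ → ℕ) (n : ℕ) : Set Ω := {z | ∃ i < n, z = xx (π i) ∨ z = tt (π i)}

/-- the fields of the tower -/
noncomputable def KN (π : ℕ → ℕ) (n : ℕ) : IntermediateField ℚ Ω :=
  IntermediateField.adjoin ℚ (SS π n)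

theorem KN_mono (π : ℕ → ℕ) {m n : ℕ} (h : m ≤ n) : KN π m ≤ KN π n := by
  apply IntermediateField.adjoin.mono
  rintro z ⟨i, hi, hz⟩
  exact ⟨i, by omega, hz⟩

/-- induction for the elements of a generated field -/
theorem adj_ind {S : Set Ω} {p : ∀ z : Ω, z ∈ IntermediateField.adjoin ℚ S → Prop}
    (hS : ∀ z (hz : z ∈ S), p z (IntermediateField.subset_adjoin ℚ S hz))
    (hq : ∀ q : ℚ, p (algebraMap ℚ Ω q) (IntermediateField.algebraMap_mem _ q))
    (hadd : ∀ x y hx hy, p x hx → p y hy → p (x + y) (add_mem hx hy))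
    (hinv : ∀ x hx, p x hx → p x⁻¹ (inv_mem hx))
    (hmul : ∀ x y hx hy, p x hx → p y hy → p (x * y) (mul_mem hx hy))
    {z : Ω} (hz : z ∈ IntermediateField.adjoin ℚ S) : p z hz :=
  IntermediateField.adjoin_induction ℚ hS hq hadd hinv hmul hz

theorem D_inv' (Δ : Derivation ℚ Ω Ω) {x : Ω} (h : Δ x = 0) : Δ x⁻¹ = 0 := by
  rw [Derivation.leibniz_inv, h, smul_zero]

theorem D_mul' (Δ : Derivation ℚ Ω Ω) {x y : Ω} (h : Δ x = 0) (h' : Δ y = 0) :
    Δ (x * y) = 0 := by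
  rw [Derivation.leibniz, h, h', smul_zero, smul_zero, add_zero]

/-- homomorphisms of a generated field are determined by the generators -/
theorem hom_ext {S : Set Ω} {E : Type} [Field E] [CharZero E]
    {φ₁ φ₂ : IntermediateField.adjoin ℚ S →+* E}
    (h : ∀ z (hz : z ∈ S), φ₁ ⟨z, IntermediateField.subset_adjoin ℚ S hz⟩ =
      φ₂ ⟨z, IntermediateField.subset_adjoin ℚ S hz⟩) : φ₁ = φ₂ := by
  refine RingHom.ext fun z => ?_
  obtain ⟨z, hz⟩ := z
  refine adj_ind (p := fun z hz => φ₁ ⟨z, hz⟩ = φ₂ ⟨z, hz⟩) h ?_ ?_ ?_ ?_ hz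
  · intro q
    have h1 : (⟨algebraMap ℚ Ω q, IntermediateField.algebraMap_mem _ q⟩ :
      IntermediateField.adjoin ℚ S) = algebraMap ℚ _ q := rfl
    have h2 := DFunLike.congr_fun (Subsingleton.elim
      (φ₁.comp (algebraMap ℚ (IntermediateField.adjoin ℚ S)))
      (φ₂.comp (algebraMap ℚ (IntermediateField.adjoin ℚ S)))) q
    rw [h1]
    exact h2
  · intro x y hx hy h1 h2
    have h3 : (⟨x + y, add_mem hx hy⟩ : IntermediateField.adjoin ℚ S) = ⟨x, hx⟩ + ⟨y, hy⟩ := rfl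
    rw [h3, map_add, map_add, h1, h2]
  · intro x hx h1
    have h3 : (⟨x⁻¹, inv_mem hx⟩ : IntermediateField.adjoin ℚ S) = ⟨x, hx⟩⁻¹ := rfl
    rw [h3, map_inv₀, map_inv₀, h1]
  · intro x y hx hy h1 h2
    have h3 : (⟨x * y, mul_mem hx hy⟩ : IntermediateField.adjoin ℚ S) = ⟨x, hx⟩ * ⟨y, hy⟩ := rfl
    rw [h3, map_mul, map_mul, h1, h2]

/-- a property of the image of a homomorphism of a generated field -/
theorem hom_ind {S : Set Ω} {E : Type} [Field E] [CharZero E]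
    (φ : IntermediateField.adjoin ℚ S →+* E) (p : E → Prop)
    (hS : ∀ z (hz : z ∈ S), p (φ ⟨z, IntermediateField.subset_adjoin ℚ S hz⟩))
    (hq : ∀ q : ℚ, p (algebraMap ℚ E q)) (hadd : ∀ x y, p x → p y → p (x + y))
    (hinv : ∀ x, p x → p x⁻¹) (hmul : ∀ x y, p x → p y → p (x * y))
    (z : IntermediateField.adjoin ℚ S) : p (φ z) := by
  obtain ⟨z, hz⟩ := z
  refine adj_ind (p := fun z hz => p (φ ⟨z, hz⟩)) hS ?_ ?_ ?_ ?_ hz
  · intro q
    have h1 : (⟨algebraMap ℚ Ω q, IntermediateField.algebraMap_mem _ q⟩ :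
      IntermediateField.adjoin ℚ S) = algebraMap ℚ _ q := rfl
    have h2 := DFunLike.congr_fun (Subsingleton.elim
      (φ.comp (algebraMap ℚ (IntermediateField.adjoin ℚ S))) (algebraMap ℚ E)) q
    rw [h1]
    have h3 := hq q
    rw [← h2] at h3
    exact h3
  · intro x y hx hy h1 h2
    have h3 : (⟨x + y, add_mem hx hy⟩ : IntermediateField.adjoin ℚ S) = ⟨x, hx⟩ + ⟨y, hy⟩ := rfl
    rw [h3, map_add]
    exact hadd _ _ h1 h2
  · intro x hx h1
    have h3 : (⟨x⁻¹, inv_mem hx⟩ : IntermediateField.adjoin ℚ S) = ⟨x, hx⟩⁻¹ := rfl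
    rw [h3, map_inv₀]
    exact hinv _ h1
  · intro x y hx hy h1 h2
    have h3 : (⟨x * y, mul_mem hx hy⟩ : IntermediateField.adjoin ℚ S) = ⟨x, hx⟩ * ⟨y, hy⟩ := rfl
    rw [h3, map_mul]
    exact hmul _ _ h1 h2

/-- No rational point. -/
theorem no_rat (a b : ℚ) : b ^ 3 ≠ ff a := by
  intro h
  have key : ∀ z n d : ZMod 7, (n ≠ 0 ∨ d ≠ 0) →
      z ^ 3 ≠ 2 * (n ^ 6 + 7 * n * d ^ 5 + d ^ 6) := by decide
  have hd : (a.den : ℚ) ≠ 0 := by exact_mod_cast a.den_ne_zero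
  have ha : a * (a.den : ℚ) = (a.num : ℚ) := Rat.mul_den_eq_num a
  have h1 : (b * (a.den : ℚ) ^ 2) ^ 3 =
      ((2 * (a.num ^ 6 + 7 * a.num * (a.den : ℤ) ^ 5 + (a.den : ℤ) ^ 6) : ℤ) : ℚ) := by
    rw [mul_pow, h, ff]
    push_cast
    rw [← ha]
    ring
  have h2 : IsIntegral ℤ (b * (a.den : ℚ) ^ 2) := by
    refine IsIntegral.of_pow (n := 3) (by norm_num) ?_
    rw [h1]
    exact isIntegral_algebraMap
  obtain ⟨z, hz⟩ := (IsIntegrallyClosed.isIntegral_iff (R := ℤ) (K := ℚ)).1 h2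
  have hz' : (z : ℚ) = b * (a.den : ℚ) ^ 2 := hz
  rw [← hz'] at h1
  have h3 : z ^ 3 = 2 * (a.num ^ 6 + 7 * a.num * (a.den : ℤ) ^ 5 + (a.den : ℤ) ^ 6) := by
    exact_mod_cast h1
  have h4 := congrArg (Int.cast : ℤ → ZMod 7) h3
  push_cast at h4
  refine key _ _ _ ?_ h4
  by_contra hcon
  push Not at hcon
  obtain ⟨h5, h6⟩ := hcon
  have h7 : (7 : ℤ) ∣ a.num := (ZMod.intCast_zmod_eq_zero_iff_dvd _ 7).1 h5
  have h8 : 7 ∣ a.den := (ZMod.natCast_eq_zero_iff _ 7).1 h6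
  have h9 : 7 ∣ a.num.natAbs := Int.natCast_dvd.1 h7
  have h10 := Nat.dvd_gcd h9 h8
  rw [a.reduced] at h10
  exact absurd h10 (by norm_num)

theorem rat_cube (q : ℚ) (h : q ^ 3 = 1) : q = 1 := by
  have h1 : (q - 1) * (q ^ 2 + q + 1) = 0 := by linear_combination h
  rcases mul_eq_zero.1 h1 with h2 | h2
  · linear_combination h2
  · exfalso
    nlinarith [sq_nonneg (q + 1 / 2)]

end Pool.Agent.V11246.Q2
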