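import Pool.Agent.V11246.QqJ

/-!
# The points over the tower, and the homomorphisms
-/

set_option autoImplicit false

namespace Pool.Agent.V11246.Q2

open Polynomial
open Pool.Agent.TH729.Gr (Om ι D D_ι)

variable {π : ℕ → ℕ}

theorem xx_mem (π : ℕ → ℕ) {i n : ℕ} (h : i < n) : xx (π i) ∈ KN π n :=
  IntermediateField.subset_adjoin ℚ _ ⟨i, h, Or.inl rfl⟩

theorem tt_mem (π : ℕ → ℕ) {i n : ℕ} (h : i < n) : tt (π i) ∈ KN π n :=
  IntermediateField.subset_adjoin ℚ _ ⟨i, h, Or.inr rfl⟩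

theorem D_SS (hπ : Function.Injective π) {n : ℕ} {z : Ω} (hz : z ∈ SS π n) : D (π n) z = 0 := by
  obtain ⟨i, hi, hz | hz⟩ := hz
  · rw [hz, D_xx]
    intro h
    have := hπ h
    omega
  · rw [hz, D_tt]
    intro h
    have := hπ h
    omega

/-- the derivation vanishes on the image of a homomorphism whose values at the generators are
killed -/
theorem D_hom {S : Set Ω} (Δ : Derivation ℚ Ω Ω) (φ : IntermediateField.adjoin ℚ S →+* Ω)
    (hS : ∀ z (hz : z ∈ S), Δ (φ ⟨z, IntermediateField.subset_adjoin ℚ S hz⟩) = 0)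
    (z : IntermediateField.adjoin ℚ S) : Δ (φ z) = 0 :=
  hom_ind φ (fun z => Δ z = 0) hS (fun q => Δ.map_algebraMap q)
    (fun x y hx hy => by rw [map_add, hx, hy, add_zero]) (fun x hx => D_inv' Δ hx)
    (fun x y hx hy => D_mul' Δ hx hy) z

/-- the inclusion of a field of the tower -/
noncomputable def inc (π : ℕ → ℕ) (n : ℕ) : KN π n →+* Ω := algebraMap (KN π n) Ω

theorem inc_apply (n : ℕ) (z : KN π n) : inc π n z = z := rfl

/-- the next field of the tower -/
theorem le_range {n : ℕ} {E : Type} [Field E] [CharZero E] (Φ : E →+* Ω)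
    (h1 : ∀ z ∈ KN π n, z ∈ Φ.range) (h2 : xx (π n) ∈ Φ.range) (h3 : tt (π n) ∈ Φ.range) :
    ∀ z ∈ KN π (n + 1), z ∈ Φ.range := by
  intro z hz
  have h : KN π (n + 1) ≤ Φ.toRatAlgHom.fieldRange := by
    refine IntermediateField.adjoin_le_iff.2 ?_
    rintro z ⟨i, hi, hz⟩
    by_cases hin : i < n
    · have h4 : z ∈ KN π n := by
        rcases hz with rfl | rfl
        · exact xx_mem π hin
        · exact tt_mem π hin
      obtain ⟨y, hy⟩ := h1 z h4
      exact ⟨y, hy⟩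
    · have hin' : i = n := by omega
      rw [hin'] at hz
      rcases hz with rfl | rfl
      · obtain ⟨y, hy⟩ := h2
        exact ⟨y, hy⟩
      · obtain ⟨y, hy⟩ := h3
        exact ⟨y, hy⟩
  obtain ⟨y, hy⟩ := h hz
  exact ⟨y, hy⟩

theorem exists_Phi (hπ : Function.Injective π) (n : ℕ) : ∃ Φ : FF (KN π n) →+* Ω,
    (∀ c : KN π n, Φ (ii (KN π n) (FF (KN π n)) (C c)) = inc π n c) ∧
      Φ (ii (KN π n) (FF (KN π n)) X) = xx (π n) ∧
      Φ (AdjoinRoot.root (gg (KN π n))) = tt (π n) ∧ ∀ z ∈ KN π (n + 1), z ∈ Φ.range := by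
  have hinj := trans_of_D (inc π n) (D (π n)) (D_hom (D (π n)) (inc π n) fun z hz => D_SS hπ hz)
    (D_xx_self (π n))
  obtain ⟨Φ, h1, h2, h3⟩ := exists_lift (inc π n) (tt_cube (π n)) hinj
  refine ⟨Φ, h1, h2, h3, le_range Φ ?_ ⟨_, h2⟩ ⟨_, h3⟩⟩
  intro z hz
  exact ⟨_, h1 ⟨z, hz⟩⟩

theorem tower (hπ : Function.Injective π) (n : ℕ) : (∀ z ∈ KN π n, z ^ 3 = 1 → z = 1) ∧
    ∀ a ∈ KN π n, ∀ b ∈ KN π n, b ^ 3 = ff a → ∃ i < n, a = xx (π i) ∧ b = tt (π i) := by
  induction n with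
  | zero =>
    have h0 : KN π 0 = ⊥ := by
      rw [KN, IntermediateField.adjoin_eq_bot_iff]
      rintro z ⟨i, hi, -⟩
      exact absurd hi (by omega)
    rw [h0]
    refine ⟨?_, ?_⟩
    · intro z hz h
      obtain ⟨q, rfl⟩ := IntermediateField.mem_bot.1 hz
      rw [← map_pow, ← map_one (algebraMap ℚ Ω)] at h
      rw [rat_cube q ((algebraMap ℚ Ω).injective h), map_one]
    · intro a ha b hb h
      obtain ⟨p, rfl⟩ := IntermediateField.mem_bot.1 ha
      obtain ⟨q, rfl⟩ := IntermediateField.mem_bot.1 hb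
      exfalso
      apply no_rat p q
      apply (algebraMap ℚ Ω).injective
      rw [map_pow, h, ff, ff]
      simp [map_ofNat]
  | succ n ih =>
    obtain ⟨Φ, h1, h2, h3, h4⟩ := exists_Phi hπ n
    have hω : ∀ z : KN π n, z ^ 3 = 1 → z = 1 := by
      intro z hz
      apply Subtype.ext
      exact ih.1 z z.2 (congrArg Subtype.val hz)
    obtain ⟨s1, s2⟩ := step (inc π n) hω Φ h1 h2 h3
    refine ⟨?_, ?_⟩
    · intro z hz h
      obtain ⟨y, hy⟩ := s2 z (h4 z hz) h
      rw [← hy] at h ⊢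
      exact ih.1 _ y.2 h
    · intro a ha b hb h
      rcases s1 a (h4 a ha) b (h4 b hb) h with ⟨⟨y, hy⟩, ⟨w, hw⟩⟩ | ⟨r1, r2⟩
      · have ha' : a ∈ KN π n := by rw [← hy]; exact y.2
        have hb' : b ∈ KN π n := by rw [← hw]; exact w.2
        obtain ⟨i, hi, r⟩ := ih.2 a ha' b hb' h
        exact ⟨i, by omega, r⟩
      · exact ⟨n, by omega, r1, r2⟩

/-- the homomorphisms of the fields of the tower -/
theorem exists_hom (hπ : Function.Injective π) (n : ℕ) : ∃ ψ : KN id n →+* Ω,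
    ∀ z : KN id n, ∀ i < n, ((z : Ω) = xx i → ψ z = xx (π i)) ∧ ((z : Ω) = tt i → ψ z = tt (π i)) := by
  induction n with
  | zero => exact ⟨inc id 0, fun z i hi => absurd hi (by omega)⟩
  | succ n ih =>
    obtain ⟨ψ, hψ⟩ := ih
    obtain ⟨Φ, h1, h2, h3, h4⟩ := exists_Phi (π := id) Function.injective_id n
    have hD : ∀ z : KN id n, D (π n) (ψ z) = 0 := by
      refine D_hom (D (π n)) ψ ?_
      rintro z ⟨i, hi, hz⟩
      have hne : π i ≠ π n := fun h => by have := hπ h; omega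
      rcases hz with hz | hz
      · exact (congrArg (D (π n)) ((hψ ⟨z, IntermediateField.subset_adjoin ℚ _
          ⟨i, hi, Or.inl hz⟩⟩ i hi).1 hz)).trans (D_xx hne)
      · exact (congrArg (D (π n)) ((hψ ⟨z, IntermediateField.subset_adjoin ℚ _
          ⟨i, hi, Or.inr hz⟩⟩ i hi).2 hz)).trans (D_tt hne)
    obtain ⟨Φ', g1, g2, g3⟩ := exists_lift ψ (tt_cube (π n)) (trans_of_D ψ (D (π n)) hD
      (D_xx_self (π n)))
    let e : FF (KN id n) ≃+* Φ.range := RingEquiv.ofBijective Φ.rangeRestrict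
      ⟨fun x y h => Φ.injective (congrArg Subtype.val h), Φ.rangeRestrict_surjective⟩
    let j : KN id (n + 1) →+* Φ.range :=
      (inc id (n + 1)).codRestrict Φ.range fun z => h4 z z.2
    have he : ∀ (z : KN id (n + 1)) (y : FF (KN id n)), Φ y = (z : Ω) → e.symm (j z) = y := by
      intro z y hy
      rw [RingEquiv.symm_apply_eq]
      apply Subtype.ext
      exact hy.symm
    refine ⟨Φ'.comp ((e.symm : Φ.range →+* FF (KN id n)).comp j), fun z i hi => ?_⟩
    have hval : ∀ y, Φ y = (z : Ω) →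
        (Φ'.comp ((e.symm : Φ.range →+* FF (KN id n)).comp j)) z = Φ' y := by
      intro y hy
      show Φ' (e.symm (j z)) = Φ' y
      rw [he z y hy]
    by_cases hin : i < n
    · refine ⟨fun hz => ?_, fun hz => ?_⟩
      · have hm : (xx i : Ω) ∈ KN id n := xx_mem id hin
        rw [hval _ ((h1 ⟨xx i, hm⟩).trans hz.symm), g1]
        exact (hψ ⟨xx i, hm⟩ i hin).1 rfl
      · have hm : (tt i : Ω) ∈ KN id n := tt_mem id hin
        rw [hval _ ((h1 ⟨tt i, hm⟩).trans hz.symm), g1]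
        exact (hψ ⟨tt i, hm⟩ i hin).2 rfl
    · have hin' : i = n := by omega
      rw [hin']
      refine ⟨fun hz => ?_, fun hz => ?_⟩
      · rw [hval _ (h2.trans hz.symm), g2]
      · rw [hval _ (h3.trans hz.symm), g3]

/-! ### The union -/

/-- the generators of the field -/
def SI : Set Ω := Set.range xx ∪ Set.range tt

/-- the field -/
noncomputable def KI : IntermediateField ℚ Ω := IntermediateField.adjoin ℚ SI

theorem exists_n {z : Ω} (hz : z ∈ KI) : ∃ n, z ∈ KN id n := by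
  refine adj_ind (S := SI) (p := fun z _ => ∃ n, z ∈ KN id n) ?_ ?_ ?_ ?_ ?_ hz
  · rintro z (⟨i, rfl⟩ | ⟨i, rfl⟩)
    · exact ⟨i + 1, xx_mem id (Nat.lt_succ_self i)⟩
    · exact ⟨i + 1, tt_mem id (Nat.lt_succ_self i)⟩
  · intro q
    exact ⟨0, IntermediateField.algebraMap_mem _ q⟩
  · rintro x y - - ⟨m, hm⟩ ⟨n, hn⟩
    exact ⟨max m n, add_mem (KN_mono id (le_max_left m n) hm) (KN_mono id (le_max_right m n) hn)⟩
  · rintro x - ⟨m, hm⟩
    exact ⟨m, inv_mem hm⟩
  · rintro x y - - ⟨m, hm⟩ ⟨n, hn⟩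
    exact ⟨max m n, mul_mem (KN_mono id (le_max_left m n) hm) (KN_mono id (le_max_right m n) hn)⟩

theorem KN_le : ∀ n, KN id n ≤ KI := by
  intro n
  apply IntermediateField.adjoin.mono
  rintro z ⟨i, -, rfl | rfl⟩
  · exact Or.inl ⟨_, rfl⟩
  · exact Or.inr ⟨_, rfl⟩

/-- **The points of the curve over the field.** -/
theorem points {a b : Ω} (ha : a ∈ KI) (hb : b ∈ KI) (h : b ^ 3 = ff a) :
    ∃ i, a = xx i ∧ b = tt i := by
  obtain ⟨m, hm⟩ := exists_n ha
  obtain ⟨n, hn⟩ := exists_n hb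
  obtain ⟨i, -, r⟩ := (tower (π := id) Function.injective_id (max m n)).2 a
    (KN_mono id (le_max_left m n) hm) b (KN_mono id (le_max_right m n) hn) h
  exact ⟨i, r⟩

/-- the homomorphism of the union -/
theorem exists_homI (hπ : Function.Injective π) : ∃ ψ : KI →+* Ω,
    ∀ z : KI, ∀ i, ((z : Ω) = xx i → ψ z = xx (π i)) ∧ ((z : Ω) = tt i → ψ z = tt (π i)) := by
  choose ψ hψ using exists_hom hπ
  have hcomp : ∀ m n (hmn : m ≤ n) (z : Ω) (hz : z ∈ KN id m),
      ψ n ⟨z, KN_mono id hmn hz⟩ = ψ m ⟨z, hz⟩ := by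
    intro m n hmn z hz
    let j : KN id m →+* KN id n :=
      { toFun := fun z => ⟨z, KN_mono id hmn z.2⟩
        map_one' := rfl
        map_mul' := fun _ _ => rfl
        map_zero' := rfl
        map_add' := fun _ _ => rfl }
    have h1 : (ψ n).comp j = ψ m := by
      refine hom_ext (S := SS id m) ?_
      rintro z ⟨i, hi, hz⟩
      rcases hz with hz | hz
      · have a1 := (hψ m ⟨z, IntermediateField.subset_adjoin ℚ _ ⟨i, hi, Or.inl hz⟩⟩ i hi).1 hz
        have a2 := (hψ n ⟨z, KN_mono id hmn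
          (IntermediateField.subset_adjoin ℚ _ ⟨i, hi, Or.inl hz⟩)⟩ i (by omega)).1 hz
        exact a2.trans a1.symm
      · have a1 := (hψ m ⟨z, IntermediateField.subset_adjoin ℚ _ ⟨i, hi, Or.inr hz⟩⟩ i hi).2 hz
        have a2 := (hψ n ⟨z, KN_mono id hmn
          (IntermediateField.subset_adjoin ℚ _ ⟨i, hi, Or.inr hz⟩)⟩ i (by omega)).2 hz
        exact a2.trans a1.symm
    exact DFunLike.congr_fun h1 ⟨z, hz⟩
  choose N hN using fun z : KI => exists_n z.2
  obtain ⟨F, hF⟩ : ∃ F : KI → Ω, F = fun z => ψ (N z) ⟨z, hN z⟩ := ⟨_, rfl⟩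
  have hval : ∀ (z : KI) (n : ℕ) (hz : (z : Ω) ∈ KN id n), F z = ψ n ⟨z, hz⟩ := by
    intro z n hz
    rw [hF]
    have a1 := hcomp (N z) (max (N z) n) (le_max_left _ _) z (hN z)
    have a2 := hcomp n (max (N z) n) (le_max_right _ _) z hz
    exact a1.symm.trans a2
  have hmul : ∀ z w : KI, F (z * w) = F z * F w := by
    intro z w
    have h1 := KN_mono id (le_max_left (N z) (N w)) (hN z)
    have h2 := KN_mono id (le_max_right (N z) (N w)) (hN w)
    rw [hval z _ h1, hval w _ h2, hval (z * w) _ (mul_mem h1 h2), ← map_mul]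
    rfl
  have hadd : ∀ z w : KI, F (z + w) = F z + F w := by
    intro z w
    have h1 := KN_mono id (le_max_left (N z) (N w)) (hN z)
    have h2 := KN_mono id (le_max_right (N z) (N w)) (hN w)
    rw [hval z _ h1, hval w _ h2, hval (z + w) _ (add_mem h1 h2), ← map_add]
    rfl
  have hone : F 1 = 1 := by
    rw [hval 1 0 (one_mem _)]
    exact map_one (ψ 0)
  have hzero : F 0 = 0 := by
    rw [hval 0 0 (zero_mem _)]
    exact map_zero (ψ 0)
  refine ⟨{ toFun := F, map_one' := hone, map_mul' := hmul, map_zero' := hzero,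
            map_add' := hadd }, fun z i => ⟨fun hz => ?_, fun hz => ?_⟩⟩
  · have hm : (z : Ω) ∈ KN id (i + 1) := by rw [hz]; exact xx_mem id (Nat.lt_succ_self i)
    show F z = _
    rw [hval z _ hm]
    exact (hψ (i + 1) ⟨z, hm⟩ i (Nat.lt_succ_self i)).1 hz
  · have hm : (z : Ω) ∈ KN id (i + 1) := by rw [hz]; exact tt_mem id (Nat.lt_succ_self i)
    show F z = _
    rw [hval z _ hm]
    exact (hψ (i + 1) ⟨z, hm⟩ i (Nat.lt_succ_self i)).2 hz

end Pool.Agent.V11246.Q2
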