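import Pool.Agent.V11246.QqK

/-!
# The field, its automorphisms and the points of the curve
-/

set_option autoImplicit false

namespace Pool.Agent.V11246.Q2

open Pool.Agent.TH729.Gr (A Om ι D D_ι)

/-- the variables in the field -/
noncomputable def kx (i : ℕ) : KI :=
  ⟨xx i, IntermediateField.subset_adjoin ℚ _ (Or.inl ⟨i, rfl⟩)⟩

/-- the cube roots in the field -/
noncomputable def kt (i : ℕ) : KI :=
  ⟨tt i, IntermediateField.subset_adjoin ℚ _ (Or.inr ⟨i, rfl⟩)⟩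

theorem xx_inj : Function.Injective xx := by
  intro i j h
  by_contra hij
  have h1 := congrArg (D i) h
  rw [D_xx_self, D_xx (Ne.symm hij)] at h1
  exact one_ne_zero h1

theorem kt_cube (i : ℕ) : kt i ^ 3 = ff (kx i) := by
  apply Subtype.ext
  have h := tt_cube i
  rw [ff] at h ⊢
  exact h

theorem pointsK {a b : KI} (h : b ^ 3 = ff a) : ∃ i, a = kx i ∧ b = kt i := by
  have h1 : (b : Ω) ^ 3 = ff (a : Ω) := by
    have h2 := congrArg Subtype.val h
    rw [ff] at h2 ⊢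
    exact h2
  obtain ⟨i, r1, r2⟩ := points a.2 b.2 h1
  exact ⟨i, Subtype.ext r1, Subtype.ext r2⟩

theorem extK {φ₁ φ₂ : KI →+* KI} (h1 : ∀ i, φ₁ (kx i) = φ₂ (kx i))
    (h2 : ∀ i, φ₁ (kt i) = φ₂ (kt i)) : φ₁ = φ₂ := by
  refine hom_ext (S := SI) ?_
  rintro z (⟨i, rfl⟩ | ⟨i, rfl⟩)
  · exact h1 i
  · exact h2 i

theorem exists_homK {π : ℕ → ℕ} (hπ : Function.Injective π) : ∃ φ : KI →+* KI,
    (∀ i, φ (kx i) = kx (π i)) ∧ ∀ i, φ (kt i) = kt (π i) := by
  obtain ⟨ψ, hψ⟩ := exists_homI hπ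
  have hm : ∀ z : KI, ψ z ∈ KI := by
    refine hom_ind (S := SI) ψ (fun z => z ∈ KI) ?_ (fun q => KI.algebraMap_mem q)
      (fun x y hx hy => add_mem hx hy) (fun x hx => inv_mem hx) (fun x y hx hy => mul_mem hx hy)
    rintro z (⟨i, rfl⟩ | ⟨i, rfl⟩)
    · have h := (hψ (kx i) i).1 rfl
      have h' : ψ (kx i) ∈ KI := by rw [h]; exact (kx (π i)).2
      exact h'
    · have h := (hψ (kt i) i).2 rfl
      have h' : ψ (kt i) ∈ KI := by rw [h]; exact (kt (π i)).2
      exact h'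
  refine ⟨ψ.codRestrict KI hm, fun i => ?_, fun i => ?_⟩
  · apply Subtype.ext
    exact (hψ (kx i) i).1 rfl
  · apply Subtype.ext
    exact (hψ (kt i) i).2 rfl

theorem aut (π : Equiv.Perm ℕ) : ∃! σ : KI ≃+* KI, ∀ i, σ (kx i) = kx (π i) := by
  obtain ⟨φ, p1, p2⟩ := exists_homK π.injective
  obtain ⟨φ', q1, q2⟩ := exists_homK (π.symm).injective
  have e1 : φ.comp φ' = RingHom.id KI := by
    refine extK (fun i => ?_) (fun i => ?_)
    · rw [RingHom.comp_apply, q1, p1, Equiv.apply_symm_apply]; rfl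
    · rw [RingHom.comp_apply, q2, p2, Equiv.apply_symm_apply]; rfl
  have e2 : φ'.comp φ = RingHom.id KI := by
    refine extK (fun i => ?_) (fun i => ?_)
    · rw [RingHom.comp_apply, p1, q1, Equiv.symm_apply_apply]; rfl
    · rw [RingHom.comp_apply, p2, q2, Equiv.symm_apply_apply]; rfl
  refine ⟨RingEquiv.ofRingHom φ φ' e1 e2, fun i => p1 i, fun σ hσ => ?_⟩
  have ht : ∀ i, σ (kt i) = kt (π i) := by
    intro i
    have h1 : σ (kt i) ^ 3 = ff (kx (π i)) := by
      rw [← map_pow, kt_cube, ← hσ, ff, ff]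
      simp [map_ofNat]
    obtain ⟨j, r1, r2⟩ := pointsK h1
    have h2 : π i = j := xx_inj (congrArg Subtype.val r1)
    rw [r2, h2]
  have h : (σ : KI →+* KI) = φ :=
    extK (fun i => (hσ i).trans (p1 i).symm) (fun i => (ht i).trans (p2 i).symm)
  refine RingEquiv.ext fun z => ?_
  exact DFunLike.congr_fun h z

theorem gen : IntermediateField.adjoin ℚ (Set.range kx ∪ Set.range kt) = ⊤ := by
  rw [eq_top_iff]
  rintro ⟨z, hz⟩ -
  refine adj_ind (S := SI) (p := fun z hz => (⟨z, hz⟩ : KI) ∈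
    IntermediateField.adjoin ℚ (Set.range kx ∪ Set.range kt)) ?_ ?_ ?_ ?_ ?_ hz
  · rintro z (⟨i, rfl⟩ | ⟨i, rfl⟩)
    · exact IntermediateField.subset_adjoin ℚ _ (Or.inl ⟨i, rfl⟩)
    · exact IntermediateField.subset_adjoin ℚ _ (Or.inr ⟨i, rfl⟩)
  · intro q
    exact IntermediateField.algebraMap_mem _ q
  · intro x y hx hy h1 h2
    exact add_mem h1 h2
  · intro x hx h1
    exact inv_mem h1
  · intro x y hx hy h1 h2
    exact mul_mem h1 h2

theorem indep : AlgebraicIndependent ℚ kx := by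
  rw [algebraicIndependent_iff_injective_aeval]
  have h1 : ∀ p : MvPolynomial ℕ ℚ, ((MvPolynomial.aeval kx p : KI) : Ω) = ι p := by
    have h2 : ((KI.val : KI →+* Ω).comp (MvPolynomial.aeval kx : _ →ₐ[ℚ] KI).toRingHom) =
        (ι : A ℕ →+* Om ℕ) := by
      refine MvPolynomial.ringHom_ext (fun q => ?_) (fun i => ?_)
      · have h3 := DFunLike.congr_fun (Subsingleton.elim
          (((KI.val : KI →+* Ω).comp (MvPolynomial.aeval kx : _ →ₐ[ℚ] KI).toRingHom).comp
            MvPolynomial.C) ((ι : A ℕ →+* Om ℕ).comp MvPolynomial.C)) q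
        exact h3
      · show ((MvPolynomial.aeval kx (MvPolynomial.X i : MvPolynomial ℕ ℚ) : KI) : Ω) = _
        rw [MvPolynomial.aeval_X]
        rfl
    exact fun p => DFunLike.congr_fun h2 p
  have hι : Function.Injective (ι : A ℕ →+* Om ℕ) :=
    (algebraMap (TH729.Gr.F ℕ) (Om ℕ)).injective.comp
      (IsFractionRing.injective (A ℕ) (TH729.Gr.F ℕ))
  intro p q h
  apply hι
  rw [← h1, ← h1, h]

end Pool.Agent.V11246.Q2
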