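import Pool.Agent.V11246.PDefs
import Pool.Agent.H310R3.NADefs

/-!
# Infinite sets, well-ordered families of finite sets, and multiple choice: definitions

`Mem`, `LSet` and `El` are from `Pool.Agent.Helper672.SIK.Plain`, `IsOmega`, `IsFun`, `IsInj`,
`IsBij`, `App` and `IsFinite` from `Pool.Agent.H310R3.Cards`, `IsWellOrder` from
`Pool.Agent.H310R3.NADefs`, `IsCompact` from `Pool.Agent.H310R3.TopDefs`, `IsMetrizable` from
`Pool.Agent.V11246.KDefs`, `IsCtble` from `Pool.Agent.V11246.CdDefs` and `IsReals` from
`Pool.Agent.H635R2.Statement`.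
-/

namespace Pool.Agent.V11246

open FirstOrder FirstOrder.Language
open Pool.Agent.Helper672.Plain (LSet Mem El)
open Pool.Agent.H310Cards
open Pool.Agent.H310Top (IsCompact)
open Pool.Agent.H310NAS (IsWellOrder)
open Pool.Agent.H635Amen (IsReals)

universe u

/-- `a` is denumerable: it is in bijection with the set of the natural numbers. -/
def IsDenum {M : Type u} [LSet.Structure M] (a : M) : Prop :=
  ∃ w f, IsOmega w ∧ IsBij f a w

variable (M : Type u) [LSet.Structure M]

/-- IDI: the set of the natural numbers injects into every infinite set. -/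
def IDI : Prop := ∀ x : M, ¬ IsFinite x → ∃ w f, IsOmega w ∧ IsInj f w x

/-- Every well-orderable family of nonempty finite sets has a choice function. -/
def WOACfin : Prop :=
  ∀ F r : M, IsWellOrder r F → (∀ x, Mem x F → IsFinite x ∧ ∃ z, Mem z x) →
    ∃ s c, IsFun c F s ∧ ∀ x y, App c x y → Mem y x

/-- The real numbers inject into every compact metrizable space that is not countable. -/
def MCR : Prop :=
  ∀ t x : M, IsCompact t x → IsMetrizable t x → ¬ IsCtble x →
    ∀ (r : M) (_ : Field (El r)) (_ : LinearOrder (El r)) (_ : IsStrictOrderedRing (El r)),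
      IsReals r → ∃ f, IsInj f r x

/-- Every denumerable family of denumerable sets has a multiple choice function. -/
def CMCw : Prop :=
  ∀ F : M, IsDenum F → (∀ x, Mem x F → IsDenum x) →
    ∃ s c, IsFun c F s ∧ ∀ x y, App c x y → IsFinite y ∧ (∃ z, Mem z y) ∧ ∀ z, Mem z y → Mem z x

end Pool.Agent.V11246
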