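import Pool.Agent.V11246.Kv

/-!
# Injections of ordinals
-/

set_option maxHeartbeats 1000000
set_option linter.all false
set_option synthInstance.maxSize 2000

namespace Pool.Agent.Helper672.ZFA.V246R

open FirstOrder FirstOrder.Language
open Pool.Agent.Helper672.ZFA.H635
open Pool.Agent.Helper672.ZFA.V246 (Ctb exists_lf exists_rank iwoNn)
open Pool.Agent.Helper672.ZFA.V246K (TBW)
open Pool.Agent.H310

universe u

section

variable {N : Type u} [L.Structure N] [hN : IsModel N] {α : Type u} [ITy N α]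

theorem fin_range (hno : ¬ ∃ g : INat N → α, IntF N g ∧ Function.Injective g) {s : INat N → α}
    (hs : IntF N s) : ∃ J : IPow N (INat N), IFin J ∧ ∀ i, ∃ j, j ∈ J ∧ s i = s j := by
  have hT : Int N (fun q : INat N × INat N => ∀ j, j < q.2 → s j ≠ s q.2) :=
    Int.all (Int.imp (Int.ltN IntF.snd' (IntF.snd IntF.fst')) (Int.not (Int.eq
      (hs.comp IntF.snd') (hs.comp (IntF.snd IntF.fst')))))
  have hT0 : Int N (fun i : INat N => ∀ j, j < i → s j ≠ s i) :=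
    Int.all (Int.imp (Int.ltN IntF.snd' IntF.fst') (Int.not (Int.eq
      (hs.comp IntF.snd') (hs.comp IntF.fst'))))
  obtain ⟨ρ, hρ, h1⟩ := exists_rank (iwoNn (N := N)) (iwoNn (N := N))
    (T := fun _ i : INat N => ∀ j, j < i → s j ≠ s i) hT 0 (fun _ => by
    rintro ⟨g, hg, h2, h3⟩
    refine hno ⟨fun x => s (g x), hs.comp hg, fun x y hxy => h2 ?_⟩
    rcases lt_trichotomy (g x) (g y) with h4 | h4 | h4
    · exact absurd hxy (h3 y _ h4)
    · exact h4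
    · exact absurd hxy.symm (h3 x _ h4))
  obtain ⟨h2, b, h3⟩ := h1 0
  have hρ0 : IntF N (fun i => ρ 0 i) :=
    IntF.comp₂ (p := fun n x => ρ n x) hρ (IntF.const _) IntF.id
  have h4 : FinP N (fun i : INat N => ∀ j, j < i → s j ≠ s i) :=
    FinP.of_inj hT0 hρ0 h2 (finP_lt b) h3
  refine ⟨_, h4.fin hT0, fun i => ?_⟩
  obtain ⟨j, h5, h6⟩ := INat.exists_least (p := fun j => s i = s j)
    (Int.eq (IntF.const _) hs) ⟨i, rfl⟩
  refine ⟨j, (mem_sep hT0).2 fun m hm h7 => ?_, h5⟩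
  exact absurd (h6 m (h5.trans h7.symm)) (not_le.2 hm)

theorem fin_of_iwo {lt : α → α → Prop} (h : IWO N α lt)
    (hno : ¬ ∃ g : INat N → α, IntF N g ∧ Function.Injective g) : FinP N (fun _ : α => True) := by
  obtain ⟨ρ, hρ, h1⟩ := exists_rank h (iwoNn (N := N)) (ι := INat N) (T := fun _ _ => True)
    (Int.const _) 0 (fun _ => by
    rintro ⟨g, hg, h2, -⟩
    exact hno ⟨g, hg, h2⟩)
  obtain ⟨h2, b, h3⟩ := h1 0
  have hρ0 : IntF N (fun i => ρ 0 i) :=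
    IntF.comp₂ (p := fun n x => ρ n x) hρ (IntF.const _) IntF.id
  exact FinP.of_inj (Int.const _) hρ0 h2 (finP_lt b) h3

theorem fin_of_tbw (h : TBW N) (X : N)
    (hno : ¬ ∃ g : INat N → El X, IntF N g ∧ Function.Injective g) :
    FinP N (fun _ : El X => True) := by
  obtain ⟨lt, hlt⟩ := h X (fun _ u v => u = v) (Int.eq (IntF.snd IntF.fst') IntF.snd')
    (fun _ _ _ h => h.symm) (fun _ _ _ _ h h' => h.trans h') (fun _ _ h => h 0)
    (fun s hs _ => fin_range hno hs)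
  exact fin_of_iwo hlt hno

theorem no_inj_pow {γ : Type u} [ITy N γ] {e : IPow N γ → γ} (he : IntF N e)
    (h : Function.Injective e) : False := by
  have hI : Int N (fun n : γ => ∃ x : IPow N γ, e x = n ∧ ¬ n ∈ x) :=
    Int.ex (Int.and (Int.eq (he.comp IntF.snd') IntF.fst') (Int.not (Int.mem IntF.fst' IntF.snd')))
  by_cases hc : e (sep N fun n => ∃ x, e x = n ∧ ¬ n ∈ x) ∈
      (sep N fun n => ∃ x, e x = n ∧ ¬ n ∈ x)
  · obtain ⟨x, h1, h2⟩ := (mem_sep hI).1 hc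
    rw [h h1] at h2
    exact h2 hc
  · exact hc ((mem_sep hI).2 ⟨_, rfl, hc⟩)

end

section

variable {M : Type u} [L.Structure M] [hM : IsModel M]
variable {P Γ : Type u} [ITy M P] [Preorder P] [ILE M P] [ITy M Γ] [Group Γ] [IMul M Γ]
  [IInv M Γ] [MulAction Γ P] [ISMul M Γ P]
variable {Λ : Type u} [ITy M Λ] {S : SymSys M P Γ Λ}
variable {G : Set P} (hG : IsGen M G)

theorem exists_big (hC : CollL M) (hA : V246K.AC M) (X : NN S hG) : ∃ (β : Type u) (_ : ITy M β)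
    (lt : β → β → Prop) (h : IWO M β lt), Nonempty β ∧
      ¬ ∃ F : El (Od S hG h) → El X, IntF (NN S hG) F ∧ Function.Injective F := by
  obtain ⟨α, _, E, h, r, rfl⟩ := exists_graph hG X
  obtain ⟨lt, hlt⟩ := hA (IPow M ((Γ × α) × P)) inferInstance
  refine ⟨IPow M ((Γ × α) × P), inferInstance, lt, hlt, ⟨∅⟩, ?_⟩
  rintro ⟨F, hF, hinj⟩
  have hog := og_fam (S := S) hG h
  have hFI : Int (NN S hG) (fun q : El (Od S hG hlt) × El (nd hG h r) => F q.1 = q.2) := hF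
  obtain ⟨z, hz⟩ : ∃ z : NN S hG, ∀ w, Mem w z ↔ ∃ q : El (Od S hG hlt) × El (nd hG h r),
      F q.1 = q.2 ∧ code q = w := by
    refine ⟨code (M := NN S hG) (sep (NN S hG) fun q : El (Od S hG hlt) × El (nd hG h r) =>
      F q.1 = q.2), fun w => ?_⟩
    refine (mem_code_pow (M := NN S hG)).trans (exists_congr fun q => and_congr_left fun _ => ?_)
    exact mem_sep hFI
  have hz' : ∀ (u v : NN S hG), Mem (op u v) z → ∃ (hu : Mem u (Od S hG hlt))
      (hv : Mem v (nd hG h r)), F ⟨u, hu⟩ = ⟨v, hv⟩ := by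
    intro u v huv
    obtain ⟨⟨⟨a, ha⟩, ⟨b, hb⟩⟩, h1, h2⟩ := (hz _).1 huv
    obtain ⟨h3, h4⟩ := op_inj (show op a b = op u v from h2)
    subst h3 h4
    exact ⟨ha, hb, h1⟩
  have hfam : EqFam hG (fun (π : Γ) (c : IPow M ((Γ × α) × P) × (Γ × α)) =>
      (c.1, (π * c.2.1, c.2.2))) (fun c => op (od S hG hlt c.1) (nd hG (good_og h) c.2)) := by
    refine EqFam.op (fun π b => by rw [inv_mul_cancel_left]) ?_ ?_
    · exact EqFam.comp (od_fam (S := S) hG hlt)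
        (φ := fun c : IPow M ((Γ × α) × P) × (Γ × α) => c.1) IntF.fst' fun _ _ => rfl
    · exact EqFam.comp hog (φ := fun c : IPow M ((Γ × α) × P) × (Γ × α) => c.2) IntF.snd'
        fun _ _ => rfl
  obtain ⟨T, l, hTI, hTm, hTd, hTf, -⟩ := exists_T' hG hfam z
  have hTI3 : Int M (fun q : (IPow M ((Γ × α) × P) × (Γ × α)) × P => T (q.1.1, q.1.2) q.2) := hTI
  -- injectivity is forced
  have hD2 : Int M (fun q : P => ∀ b b' : IPow M ((Γ × α) × P), ∀ c : Γ × α, b ≠ b' →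
      ∀ r, r ≤ q → ¬ (T (b, c) r ∧ T (b', c) r)) := by
    refine Int.all (Int.all (Int.all (Int.imp (Int.not (Int.eq (IntF.snd (IntF.fst IntF.fst'))
      (IntF.snd IntF.fst'))) (Int.all (Int.imp ?_ (Int.not (Int.and ?_ ?_)))))))
    · exact Int.le IntF.snd' (IntF.fst (IntF.fst (IntF.fst IntF.fst')))
    · exact Int.comp₂ (p := fun c p => T c p) hTI (IntF.pair
        (IntF.snd (IntF.fst (IntF.fst IntF.fst'))) (IntF.snd IntF.fst')) IntF.snd'
    · exact Int.comp₂ (p := fun c p => T c p) hTI (IntF.pair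
        (IntF.snd (IntF.fst IntF.fst')) (IntF.snd IntF.fst')) IntF.snd'
  have hD3 : Int M (fun q : P => ∃ b b' : IPow M ((Γ × α) × P), ∃ c : Γ × α, b ≠ b' ∧
      T (b, c) q ∧ T (b', c) q) := by
    refine Int.ex (Int.ex (Int.ex (Int.and (Int.not (Int.eq (IntF.snd (IntF.fst IntF.fst'))
      (IntF.snd IntF.fst'))) (Int.and ?_ ?_))))
    · exact Int.comp₂ (p := fun c p => T c p) hTI (IntF.pair
        (IntF.snd (IntF.fst IntF.fst')) IntF.snd') (IntF.fst (IntF.fst IntF.fst'))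
    · exact Int.comp₂ (p := fun c p => T c p) hTI (IntF.pair
        (IntF.snd IntF.fst') IntF.snd') (IntF.fst (IntF.fst IntF.fst'))
  obtain ⟨p₀, hp₀, h1⟩ := hG.dense (fun q => (∀ b b' : IPow M ((Γ × α) × P), ∀ c : Γ × α,
      b ≠ b' → ∀ r, r ≤ q → ¬ (T (b, c) r ∧ T (b', c) r)) ∨
      ∃ b b' : IPow M ((Γ × α) × P), ∃ c : Γ × α, b ≠ b' ∧ T (b, c) q ∧ T (b', c) q)
    (Int.or hD2 hD3) (fun p => by
      by_cases h2 : ∃ q, q ≤ p ∧ ∃ b b' : IPow M ((Γ × α) × P), ∃ c : Γ × α, b ≠ b' ∧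
        T (b, c) q ∧ T (b', c) q
      · obtain ⟨q, h3, h4⟩ := h2
        exact ⟨q, h3, Or.inr h4⟩
      · refine ⟨p, le_rfl, Or.inl fun b b' c hb r hr h3 => ?_⟩
        exact h2 ⟨r, hr, b, b', c, hb, h3.1, h3.2⟩)
  have h2 : ∀ b b' : IPow M ((Γ × α) × P), ∀ c : Γ × α,
      b ≠ b' → ∀ r, r ≤ p₀ → ¬ (T (b, c) r ∧ T (b', c) r) := by
    rcases h1 with h1 | ⟨b, b', c, hb, h3, h4⟩
    · exact h1
    · obtain ⟨hu, hv, h5⟩ := hz' _ _ ((hTf (b, c)).2 ⟨_, hp₀, h3⟩)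
      obtain ⟨hu', hv', h6⟩ := hz' _ _ ((hTf (b', c)).2 ⟨_, hp₀, h4⟩)
      have h7 := hinj (h5.trans h6.symm)
      exact absurd (od_inj hG hlt hC (congrArg Subtype.val h7)) hb
  have h3 : ∀ b : IPow M ((Γ × α) × P), ∃ c : (Γ × α) × P, T (b, c.1) c.2 ∧ c.2 ≤ p₀ := by
    intro b
    have hb : Mem (od S hG hlt b) (Od S hG hlt) := (mem_Od hG hlt).2 ⟨b, rfl⟩
    obtain ⟨⟨v, hv⟩, hv'⟩ : ∃ v, F ⟨_, hb⟩ = v := ⟨_, rfl⟩
    obtain ⟨a, s, -, -, rfl⟩ := (mem_nd hG h).1 hv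
    have h4 : Mem (op (od S hG hlt b) (nd hG (good_og h) ((1, a) : Γ × α))) z := by
      rw [nd_og_one hG h a]
      exact (hz _).2 ⟨(⟨_, hb⟩, ⟨_, hv⟩), hv', rfl⟩
    obtain ⟨p, hp, h5⟩ := (hTf (b, (1, a))).1 h4
    obtain ⟨q, -, h6, h7⟩ := hG.dir _ _ hp hp₀
    exact ⟨((1, a), q), hTm _ _ _ h5 h6, h7⟩
  have hr : Int M (fun q : IPow M ((Γ × α) × P) × ((Γ × α) × P) =>
      T (q.1, q.2.1) q.2.2 ∧ q.2.2 ≤ p₀) := by
    refine Int.and ?_ (Int.le (IntF.snd IntF.snd') (IntF.const _))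
    exact Int.comp₂ (p := fun c p => T c p) hTI (IntF.pair IntF.fst' (IntF.fst IntF.snd'))
      (IntF.snd IntF.snd')
  obtain ⟨e, he, h4⟩ := V246K.AC.choice hA (r := fun (b : IPow M ((Γ × α) × P)) (c : (Γ × α) × P) =>
    T (b, c.1) c.2 ∧ c.2 ≤ p₀) hr h3 ∅
  refine no_inj_pow he fun b b' hbb => ?_
  by_contra hne
  have h5 := h4 b'
  rw [← hbb] at h5
  exact h2 b b' (e b).1 hne (e b).2 (h4 b).2 ⟨(h4 b).1, h5.1⟩

/-- Well-ordered sets of the extension inject into ordinals of the ground model. -/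
theorem exists_inj_od (hC : CollL M) (hA : V246K.AC M) (X : NN S hG)
    {ltX : El X → El X → Prop} (hX : IWO (NN S hG) (El X) ltX) :
    ∃ (β : Type u) (_ : ITy M β) (lt : β → β → Prop) (h : IWO M β lt)
      (φ : El X → El (Od S hG h)), IntF (NN S hG) φ ∧ Function.Injective φ := by
  obtain ⟨β, _, lt, h, ⟨b₀⟩, h1⟩ := exists_big hG hC hA X
  obtain ⟨ρ, hρ, h2⟩ := exists_rank hX (iwo_Od hG hC h) (ι := INat (NN S hG))
    (T := fun _ _ => True) (Int.const _) ⟨od S hG h b₀, (mem_Od hG h).2 ⟨b₀, rfl⟩⟩ (fun _ => by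
    rintro ⟨g, hg, h2, -⟩
    exact h1 ⟨g, hg, h2⟩)
  have hρ0 : IntF (NN S hG) (fun i => ρ 0 i) :=
    IntF.comp₂ (p := fun n x => ρ n x) hρ (IntF.const _) IntF.id
  exact ⟨β, _, lt, h, _, hρ0, fun x y hxy => (h2 0).1 x y trivial trivial hxy⟩

end

end Pool.Agent.Helper672.ZFA.V246R
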