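import Pool.Agent.V11246.Ra

/-!
# Choice from well-ordered families of finite sets
-/

set_option maxHeartbeats 1000000
set_option linter.all false
set_option synthInstance.maxSize 2000

namespace Pool.Agent.Helper672.ZFA.V246R

open FirstOrder FirstOrder.Language
open Pool.Agent.Helper672.ZFA.H635
open Pool.Agent.Helper672.ZFA.V246 (Ctb exists_lf exists_rank iwoNn)
open Pool.Agent.Helper672.ZFA.V246K (TBW Cols Ga Sk Pk Star wo_main Wr)
open Pool.Agent.H310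

universe u

section

variable {N : Type u} [L.Structure N] [hN : IsModel N] {Fs U X : N}
  (hU : ∀ z, Mem z U ↔ ∃ x, Mem x Fs ∧ Mem z x)
  (hX : ∀ p, Mem p X ↔ ∃ x z, Mem x Fs ∧ Mem z x ∧ p = op x z)

include hU hX in
theorem exists_proj : ∃ (f : El X → El Fs) (g : El X → El U), IntF N f ∧ IntF N g ∧
    (∀ p, p.1 = op (f p).1 (g p).1) ∧ ∀ p, Mem (g p).1 (f p).1 := by
  have h1 : ∀ p : El X, ∃ (x : El Fs) (z : El U), p.1 = op x.1 z.1 ∧ Mem z.1 x.1 := by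
    intro p
    obtain ⟨x, z, hx, hz, hp⟩ := (hX p.1).1 p.2
    exact ⟨⟨x, hx⟩, ⟨z, (hU z).2 ⟨x, hx, hz⟩⟩, hp, hz⟩
  choose f g h2 h3 using h1
  refine ⟨f, g, ?_, ?_, h2, h3⟩
  · refine IntF.of_rel (r := fun (p : El X) (x : El Fs) => ∃ z, p.1 = op x.1 z) ?_ fun p x => ?_
    · exact Int.of_D₂ (S := fun v => ∃ z, v 0 = op (v 1) z)
        (D.ex (D.eqf (DF.var _) (DF.op (DF.var _) (DF.var _)))) fun _ _ => Iff.rfl
    · constructor
      · rintro ⟨z, hz⟩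
        exact Subtype.ext (op_inj ((h2 p).symm.trans hz)).1
      · rintro rfl
        exact ⟨_, h2 p⟩
  · refine IntF.of_rel (r := fun (p : El X) (y : El U) => ∃ z, p.1 = op z y.1) ?_ fun p x => ?_
    · exact Int.of_D₂ (S := fun v => ∃ z, v 0 = op z (v 1))
        (D.ex (D.eqf (DF.var _) (DF.op (DF.var _) (DF.var _)))) fun _ _ => Iff.rfl
    · constructor
      · rintro ⟨z, hz⟩
        exact Subtype.ext (op_inj ((h2 p).symm.trans hz)).2
      · rintro rfl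
        exact ⟨_, h2 p⟩

end

section

variable {M : Type u} [L.Structure M] [hM : IsModel M] {Y : Type u} [ITy M Y]
variable {Ω : Type u} [ITy M Ω] {V : Type u} [ITy M V] {K : Cols M Y}
variable {G : Set (Pk M Y Ω V)} {hG : IsGen M G}

theorem wofin (hC : CollL M) (hA : V246K.AC M) (hΩ : ¬ Ctb M (fun _ : Ω => True)) (hS : Star K)
    {Fs U X : NN (Sk Ω V K) hG} (hU : ∀ z, Mem z U ↔ ∃ x, Mem x Fs ∧ Mem z x)
    (hX : ∀ p, Mem p X ↔ ∃ x z, Mem x Fs ∧ Mem z x ∧ p = op x z)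
    {lt : El Fs → El Fs → Prop} (hlt : IWO (NN (Sk Ω V K) hG) (El Fs) lt)
    (hfin : ∀ x : El Fs, FinP (NN (Sk Ω V K) hG) (fun u : El U => Mem u.1 x.1))
    (hne : ∀ x : El Fs, ∃ z, Mem z x.1) :
    ∃ c : El Fs → El U, IntF (NN (Sk Ω V K) hG) c ∧ ∀ x, Mem (c x).1 x.1 := by
  obtain ⟨f, g, hf, hg, h1, h2⟩ := exists_proj hU hX
  obtain ⟨β, _, ltb, hb, φ, hφ, hinj⟩ := exists_inj_od hG hC hA Fs hlt
  obtain ⟨e, he⟩ : Int (NN (Sk Ω V K) hG) (fun q : El X × El (Od (Sk Ω V K) hG hb) =>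
    φ (f q.1) = q.2) := Int.eq (hφ.comp (hf.comp IntF.fst')) IntF.snd'
  obtain ⟨w, hw⟩ : Int (NN (Sk Ω V K) hG) (fun q : INat (NN (Sk Ω V K) hG) × (El X × El X) =>
    q.2.1 = q.2.2) := Int.eq (IntF.fst IntF.snd') (IntF.snd IntF.snd')
  have hw' : ∀ (n : INat M) (u v : El X), Wr hG w n u.1 v.1 ↔ u = v :=
    fun n u v => hw (nmN (Sk Ω V K) hG hC n, (u, v))
  obtain ⟨ltX, hltX⟩ : ∃ ltX, IWO (NN (Sk Ω V K) hG) (El X) ltX := by
    refine wo_main hC hA hΩ hS hb X w e ?_ ?_ ?_ ?_ ?_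
    · intro x hx
      obtain ⟨b, hb'⟩ := (mem_Od hG hb).1 (φ (f ⟨x, hx⟩)).2
      refine ⟨b, ?_⟩
      rw [← hb']
      exact (he (⟨x, hx⟩, φ (f ⟨x, hx⟩))).2 rfl
    · intro n u v hu hv h3
      exact (hw' n ⟨v, hv⟩ ⟨u, hu⟩).2 ((hw' n ⟨u, hu⟩ ⟨v, hv⟩).1 h3).symm
    · intro n u v x hu hv hx h3 h4
      exact (hw' n ⟨u, hu⟩ ⟨x, hx⟩).2 (((hw' n.succ ⟨u, hu⟩ ⟨v, hv⟩).1 h3).trans
        ((hw' n.succ ⟨v, hv⟩ ⟨x, hx⟩).1 h4))
    · intro u v hu hv h3
      exact congrArg Subtype.val ((hw' 0 ⟨u, hu⟩ ⟨v, hv⟩).1 (h3 0))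
    · intro b z hz s hs n
      have hzX : ∀ p : El z, Mem p.1 X := fun p => ((hz p.1).1 p.2).1
      obtain ⟨ι, hι⟩ : ∃ ι : El z → El X, ∀ p, (ι p).1 = p.1 :=
        ⟨fun p => ⟨p.1, hzX p⟩, fun _ => rfl⟩
      have hi : IntF (NN (Sk Ω V K) hG) ι := by
        refine IntF.of_rel (r := fun (x : El z) (y : El X) => y.1 = x.1) ?_ fun x y => ?_
        · exact Int.of_D₂ (S := fun v => v 1 = v 0) (D.eqf (DF.var _) (DF.var _))
            fun _ _ => Iff.rfl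
        · constructor
          · intro h
            exact Subtype.ext ((hι x).trans h.symm)
          · rintro rfl
            exact hι x
      have hlab : ∀ p : El z, φ (f (ι p)) = ⟨od (Sk Ω V K) hG hb b,
          (mem_Od hG hb).2 ⟨b, rfl⟩⟩ := fun p => by
        refine (he (ι p, ⟨od (Sk Ω V K) hG hb b, (mem_Od hG hb).2 ⟨b, rfl⟩⟩)).1 ?_
        change Mem (op (ι p).1 _) e
        rw [hι]
        exact ((hz p.1).1 p.2).2
      have hno : ¬ ∃ g : INat (NN (Sk Ω V K) hG) → El z, IntF (NN (Sk Ω V K) hG) g ∧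
          Function.Injective g := by
        rintro ⟨t, ht, htinj⟩
        have hgt : IntF (NN (Sk Ω V K) hG) (fun i => g (ι (t i))) :=
          hg.comp (hi.comp ht)
        refine not_finP_nat (M := NN (Sk Ω V K) hG) (FinP.of_inj (Int.const _) hgt
          (fun i j _ _ hij => htinj (Subtype.ext ?_))
          (hfin (f (ι (t 0)))) fun i _ => ?_)
        · have h3 := h1 (ι (t i))
          have h4 := h1 (ι (t j))
          have h5 := hinj ((hlab (t i)).trans (hlab (t j)).symm)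
          rw [h5, hij] at h3
          rw [← hι, ← hι]
          exact h3.trans h4.symm
        · have h5 := hinj ((hlab (t i)).trans (hlab (t 0)).symm)
          have h6 := h2 (ι (t i))
          rw [h5] at h6
          exact h6
      obtain ⟨J, hJ, h3⟩ := fin_range hno hs
      refine ⟨J, hJ, fun i => ?_⟩
      obtain ⟨j, hj, h4⟩ := h3 i
      refine ⟨j, hj, ?_⟩
      have h5 := (hw (n, (ι (s i), ι (s j)))).2 (congrArg ι h4)
      change Mem (op n.val (op (ι (s i)).1 (ι (s j)).1)) w at h5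
      rwa [hι, hι] at h5
  by_cases hX0 : Nonempty (El X)
  · obtain ⟨p₀⟩ := hX0
    obtain ⟨e', he', h3⟩ := exists_lf hltX (γ := El Fs) (r := fun x p => f p = x)
      (Int.eq (hf.comp IntF.snd') IntF.fst') p₀
    refine ⟨fun x => g (e' x), hg.comp he', fun x => ?_⟩
    obtain ⟨z, hz⟩ := hne x
    have h4 : f (e' x) = x := by
      refine (h3 x ⟨⟨op x.1 z, (hX _).2 ⟨x.1, z, x.2, hz, rfl⟩⟩, ?_⟩).1
      exact Subtype.ext (op_inj (h1 ⟨op x.1 z, (hX _).2 ⟨x.1, z, x.2, hz, rfl⟩⟩)).1.symm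
    have h5 := h2 (e' x)
    rw [h4] at h5
    exact h5
  · have hemp : ∀ x : El Fs, False := fun x => by
      obtain ⟨z, hz⟩ := hne x
      exact hX0 ⟨⟨op x.1 z, (hX _).2 ⟨x.1, z, x.2, hz, rfl⟩⟩⟩
    exact ⟨fun x => (hemp x).elim, ⟨code (M := NN (Sk Ω V K) hG)
      (∅ : IPow (NN (Sk Ω V K) hG) (El Fs)), fun q => (hemp q.1).elim⟩, fun x => (hemp x).elim⟩

end

end Pool.Agent.Helper672.ZFA.V246R
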