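import Pool.Agent.V11246.Ra
import Pool.Agent.V11246.Kp

/-!
# The real numbers of the extension
-/

set_option maxHeartbeats 1000000
set_option linter.all false
set_option synthInstance.maxSize 2000

namespace Pool.Agent.Helper672.ZFA.V246R

open FirstOrder FirstOrder.Language
open Pool.Agent.Helper672.ZFA.H635
open Pool.Agent.Helper672.ZFA.V246 (Ctb exists_lf exists_rank iwoNn)
open Pool.Agent.Helper672.ZFA.V246K (TBW Cols Ga Sk Pk Star wo_main Wr Cb cb_of ap ap_mem_smul Ix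
  sigma_gen exists_add Su)
open Pool.Agent.H310

universe u

variable {M : Type u} [L.Structure M] [hM : IsModel M] {Y : Type u} [ITy M Y]
variable {Ω : Type u} [ITy M Ω] {V : Type u} [ITy M V] {K : Cols M Y}

section

variable {G : Set (Pk M Y Ω V)} (hG : IsGen M G)

/-- There are no new real numbers. -/
theorem real_of (hC : CollL M) (hA : V246K.AC M)
    (a : IPow (NN (Sk Ω V K) hG) (INat (NN (Sk Ω V K) hG))) :
    ∃ a' : IPow M (INat M), ∀ n, nmN (Sk Ω V K) hG hC n ∈ a ↔ n ∈ a' := by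
  obtain ⟨T, l, hTI, hTm, hTd, hTf, -⟩ := exists_T' hG (nm_fam (S := Sk Ω V K) hG)
    (code (M := NN (Sk Ω V K) hG) a)
  have hm : ∀ n, nmN (Sk Ω V K) hG hC n ∈ a ↔ ∃ p, p ∈ G ∧ T n p := by
    intro n
    rw [← hTf n]
    constructor
    · intro h
      exact (mem_code_pow (M := NN (Sk Ω V K) hG)).2 ⟨_, h, rfl⟩
    · intro h
      obtain ⟨m, h1, h2⟩ := (mem_code_pow (M := NN (Sk Ω V K) hG)).1 h
      have h3 : m = nmN (Sk Ω V K) hG hC n := INat.ext h2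
      rwa [← h3]
  have hD : Int M (fun q : INat M × Pk M Y Ω V => T q.1 q.2 ∨ ∀ r, r ≤ q.2 → ¬ T q.1 r) := by
    refine Int.or hTI (Int.all (Int.imp (Int.le IntF.snd' (IntF.snd IntF.fst')) (Int.not ?_)))
    exact Int.comp₂ (p := fun n p => T n p) hTI (IntF.fst IntF.fst') IntF.snd'
  obtain ⟨q, hq, h1⟩ := sigma_gen hG hA (D := fun n q => T n q ∨ ∀ r, r ≤ q → ¬ T n r) hD
    (fun n => hG.dense _ (Int.comp (f := fun q : Pk M Y Ω V => (n, q)) hD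
      (IntF.pair (IntF.const _) IntF.id)) fun p => by
        by_cases h2 : ∃ r, r ≤ p ∧ T n r
        · obtain ⟨r, h3, h4⟩ := h2
          exact ⟨r, h3, Or.inl h4⟩
        · exact ⟨p, le_rfl, Or.inr fun r hr h3 => h2 ⟨r, hr, h3⟩⟩)
  have hI : Int M (fun n : INat M => T n q) :=
    Int.comp₂ (p := fun n p => T n p) hTI IntF.id (IntF.const _)
  refine ⟨sep M fun n => T n q, fun n => ?_⟩
  rw [hm, mem_sep hI]
  constructor
  · rintro ⟨p, hp, h2⟩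
    obtain ⟨q', h3, h4 | h4⟩ := h1 n
    · exact hTm _ _ _ h4 h3
    · obtain ⟨r, -, h5, h6⟩ := hG.dir _ _ hp hq
      exact absurd (hTm _ _ _ h2 h5) (h4 r (h6.trans h3))
  · exact fun h2 => ⟨q, hq, h2⟩

theorem exists_rl : ∃ rl : IPow M (INat M) → NN (Sk Ω V K) hG,
    EqFam hG (fun (_ : Ga Ω K) v => v) rl ∧
      ∀ v w, Mem w (rl v) ↔ ∃ n, n ∈ v ∧ w = nm (Sk Ω V K) hG n := by
  obtain ⟨g, h1, h2⟩ := EqFam.setsP hG (act' := fun (_ : Ga Ω K) (v : IPow M (INat M)) => v)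
    (fun _ _ => rfl) (nm_fam (S := Sk Ω V K) hG) (Z := fun v n _ => n ∈ v)
    (Int.mem (IntF.snd IntF.fst') (IntF.fst IntF.fst')) (fun _ _ _ _ h => h)
    (fun _ => ⟨((0, ⟨∅, Cb.empty⟩) : Su M Y Ω), fun _ _ => rfl⟩)
  refine ⟨g, h1, fun v w => (h2 v w).trans ?_⟩
  obtain ⟨p, hp⟩ := hG.ne
  exact ⟨fun ⟨n, _, _, h3, h4⟩ => ⟨n, h3, h4⟩, fun ⟨n, h3, h4⟩ => ⟨n, p, hp, h3, h4⟩⟩

end

section

variable {G : Set (Pk M Y Ω (IPow M (INat M)))} (hG : IsGen M G)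
variable {ltO : Ω → Ω → Prop} (hO : IWO M Ω ltO)

/-- The real numbers inject into the ordinals. -/
theorem real_inj (hC : CollL M) (hA : V246K.AC M) (hΩ : ¬ Ctb M (fun _ : Ω => True)) (y₀ : Y) :
    ∃ f : IPow (NN (Sk Ω (IPow M (INat M)) K) hG) (INat (NN (Sk Ω (IPow M (INat M)) K) hG)) →
      El (Od (Sk Ω (IPow M (INat M)) K) hG hO), IntF (NN (Sk Ω (IPow M (INat M)) K) hG) f ∧
        Function.Injective f := by
  have hω : Nonempty Ω := by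
    by_contra h
    exact hΩ ⟨fun _ => 0, IntF.const _, fun a _ _ _ _ => absurd ⟨a⟩ h⟩
  obtain ⟨ω⟩ := hω
  obtain ⟨rl, hrl, hrl'⟩ := exists_rl (V := IPow M (INat M)) (K := K) hG
  obtain ⟨i₀, hi₀⟩ : ∃ i₀ : Ix M Y Ω, i₀ = (y₀, (ω, 0)) := ⟨_, rfl⟩
  have hfam : EqFam hG (fun (_ : Ga Ω K) (c : Ω × IPow M (INat M)) => c)
      (fun c => ZFA.op (od (Sk Ω (IPow M (INat M)) K) hG hO c.1) (rl c.2)) := by
    refine EqFam.op (fun _ _ => rfl) ?_ ?_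
    · exact EqFam.comp (od_fam hG hO) (φ := fun c : Ω × IPow M (INat M) => c.1) IntF.fst'
        fun _ _ => rfl
    · exact EqFam.comp hrl (φ := fun c : Ω × IPow M (INat M) => c.2) IntF.snd' fun _ _ => rfl
  obtain ⟨z, hz⟩ := EqFam.setP hG hfam (Z := fun c r => (i₀, c) ∈ r.1)
    (Int.mem (IntF.pair (IntF.const _) IntF.fst') (IntF.val IntF.snd'))
    ⟨((K.lev i₀.1).succ, ⟨{i₀}, cb_of (Ctb.fin (IFin.singleton _))⟩), fun π hπ c r h => by
      have h1 : ap π i₀ = i₀ := hπ.2 i₀ ⟨INat.lt_succ_self _, mem_singleton.2 rfl⟩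
      have h2 := (ap_mem_smul (π := π)).2 h
      rwa [h1] at h2⟩
  have hsur : ∀ v : IPow M (INat M), ∃ δ p, p ∈ G ∧ (i₀, (δ, v)) ∈ p.1 := by
    intro v
    obtain ⟨p, hp, δ, h1⟩ := hG.dense (fun p => ∃ δ, (i₀, (δ, v)) ∈ p.1)
      (Int.ex (Int.mem (IntF.pair (IntF.const _) (IntF.pair IntF.snd' (IntF.const _)))
        (IntF.val IntF.fst'))) fun p => by
      have h0 : ∃ d : Ω, ∀ c, c ∈ p.1 → c.2.1 ≠ d := by
        by_contra hcon
        push Not at hcon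
        apply hΩ
        refine (Ctb.image (P := fun c : V246K.Ce M Y Ω (IPow M (INat M)) => c ∈ p.1)
          (Int.mem IntF.id (IntF.const _)) p.2.2.ctb
          (f := fun c : V246K.Ce M Y Ω (IPow M (INat M)) => c.2.1) (IntF.fst IntF.snd')).mono ?_
        intro d _
        obtain ⟨c, h1, h2⟩ := hcon d
        exact ⟨c, h1, h2⟩
      obtain ⟨d, hd⟩ := h0
      obtain ⟨q, h1, h2⟩ := exists_add p i₀ d v (fun v' h => hd _ h rfl)
      exact ⟨q, h1, d, (h2 _).2 (Or.inr rfl)⟩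
    exact ⟨δ, p, hp, h1⟩
  have hcode : ∀ a : IPow (NN (Sk Ω (IPow M (INat M)) K) hG)
      (INat (NN (Sk Ω (IPow M (INat M)) K) hG)), ∃ v, code a = rl v := by
    intro a
    obtain ⟨v, hv⟩ := real_of hG hC hA a
    refine ⟨v, extS hG fun w => ?_⟩
    rw [hrl']
    constructor
    · intro h
      obtain ⟨m, h1, h2⟩ := (mem_code_pow (M := NN (Sk Ω (IPow M (INat M)) K) hG)).1 h
      obtain ⟨n, rfl⟩ := nmN_surj hG hC m
      exact ⟨n, (hv n).1 h1, h2.symm⟩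
    · rintro ⟨n, h1, rfl⟩
      exact (mem_code_pow (M := NN (Sk Ω (IPow M (INat M)) K) hG)).2 ⟨_, (hv n).2 h1, rfl⟩
  have hrli : ∀ v v', rl v = rl v' → v = v' := by
    intro v v' h
    have key : ∀ v v' : IPow M (INat M), rl v = rl v' → ∀ n, n ∈ v → n ∈ v' := by
      intro v v' h n hn
      have h1 := (hrl' v _).2 ⟨n, hn, rfl⟩
      rw [h, hrl'] at h1
      obtain ⟨m, h2, h3⟩ := h1
      rwa [(nm_inj hG hC).1 h3]
    exact IPow.ext' fun n => ⟨key v v' h n, key v' v h.symm n⟩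
  have hI : Int (NN (Sk Ω (IPow M (INat M)) K) hG) (fun q : IPow
      (NN (Sk Ω (IPow M (INat M)) K) hG) (INat (NN (Sk Ω (IPow M (INat M)) K) hG)) ×
      El (Od (Sk Ω (IPow M (INat M)) K) hG hO) => Mem (ZFA.op q.2.1 (code q.1)) z) :=
    Int.of_D₂ (S := fun v => Mem (ZFA.op (v 1) (v 0)) z)
      (D.memf (DF.op (DF.var _) (DF.var _)) (DF.const _)) fun _ _ => Iff.rfl
  obtain ⟨f, hf, h1⟩ := exists_lf (iwo_Od hG hC hO) (γ := IPow
    (NN (Sk Ω (IPow M (INat M)) K) hG) (INat (NN (Sk Ω (IPow M (INat M)) K) hG)))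
    (r := fun a o => Mem (ZFA.op o.1 (code a)) z) hI
    ⟨od (Sk Ω (IPow M (INat M)) K) hG hO ω, (mem_Od hG hO).2 ⟨ω, rfl⟩⟩
  have h2 : ∀ a, Mem (ZFA.op (f a).1 (code a)) z := by
    intro a
    obtain ⟨v, hv⟩ := hcode a
    obtain ⟨δ, p, hp, h3⟩ := hsur v
    refine (h1 a ⟨⟨od (Sk Ω (IPow M (INat M)) K) hG hO δ, (mem_Od hG hO).2 ⟨δ, rfl⟩⟩, ?_⟩).1
    change Mem (ZFA.op _ (code a)) z
    rw [hv]
    exact (hz _).2 ⟨(δ, v), p, hp, h3, rfl⟩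
  refine ⟨f, hf, fun a b hab => ?_⟩
  have h3 := h2 a
  have h4 := h2 b
  rw [← hab] at h4
  obtain ⟨⟨δ, v⟩, p, hp, h5, h6⟩ := (hz _).1 h3
  obtain ⟨⟨δ', v'⟩, p', hp', h7, h8⟩ := (hz _).1 h4
  obtain ⟨h9, h10⟩ := op_inj h6
  obtain ⟨h11, h12⟩ := op_inj h8
  have h13 : δ = δ' := od_inj hG hO hC (h9.symm.trans h11)
  subst h13
  obtain ⟨t, -, ht1, ht2⟩ := hG.dir _ _ hp hp'
  have h14 : v = v' := t.2.1 i₀ δ v v' (ht1 _ h5) (ht2 _ h7)
  subst h14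
  exact ITy.inj (h10.trans h12.symm)

end

section

variable {G : Set (Pk M Y Ω V)} (hG : IsGen M G)
variable {ltO : Ω → Ω → Prop} (hO : IWO M Ω ltO)

theorem ctb_seg (hC : CollL M) {δ : Ω} (h : Ctb M (fun δ' => ltO δ' δ)) :
    Ctb (NN (Sk Ω V K) hG) (fun o : El (Od (Sk Ω V K) hG hO) =>
      Mem o.1 (od (Sk Ω V K) hG hO δ)) := by
  obtain ⟨e, he, h1⟩ := h
  have hfam : EqFam hG (fun (_ : Ga Ω K) (c : Ω × INat M) => c)
      (fun c => ZFA.op (od (Sk Ω V K) hG hO c.1) (nm (Sk Ω V K) hG c.2)) := by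
    refine EqFam.op (fun _ _ => rfl) ?_ ?_
    · exact EqFam.comp (od_fam hG hO) (φ := fun c : Ω × INat M => c.1) IntF.fst'
        fun _ _ => rfl
    · exact EqFam.comp (nm_fam (S := Sk Ω V K) hG) (φ := fun c : Ω × INat M => c.2) IntF.snd'
        fun _ _ => rfl
  have hlt := hO.int
  obtain ⟨z, hz⟩ := EqFam.set hfam (Z := fun c : Ω × INat M => ltO c.1 δ ∧ e c.1 = c.2)
    (Int.and (Int.comp₂ (p := fun a b => ltO a b) hlt IntF.fst' (IntF.const _))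
      (Int.eq (he.comp IntF.fst') IntF.snd'))
    ⟨((0, ⟨∅, Cb.empty⟩) : Su M Y Ω), fun _ _ _ h => h⟩
  have hI : Int (NN (Sk Ω V K) hG) (fun q : El (Od (Sk Ω V K) hG hO) ×
      INat (NN (Sk Ω V K) hG) => Mem (ZFA.op q.1.1 q.2.val) z) :=
    Int.of_D₂ (S := fun v => Mem (ZFA.op (v 0) (v 1)) z)
      (D.memf (DF.op (DF.var _) (DF.var _)) (DF.const _)) fun _ _ => Iff.rfl
  refine ⟨fun o => the (fun m : INat (NN (Sk Ω V K) hG) => Mem (ZFA.op o.1 m.val) z) 0,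
    IntF.the hI (IntF.const _), ?_⟩
  have key : ∀ o : El (Od (Sk Ω V K) hG hO), Mem o.1 (od (Sk Ω V K) hG hO δ) →
      ∃ δ', ltO δ' δ ∧ o.1 = od (Sk Ω V K) hG hO δ' ∧
        the (fun m : INat (NN (Sk Ω V K) hG) => Mem (ZFA.op o.1 m.val) z) 0 =
          nmN (Sk Ω V K) hG hC (e δ') := by
    intro o ho
    obtain ⟨δ', h2, h3⟩ := (mem_od hG hO).1 ho
    refine ⟨δ', h2, h3, ?_⟩
    have h4 : ∀ m : INat (NN (Sk Ω V K) hG), Mem (ZFA.op o.1 m.val) z ↔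
        m = nmN (Sk Ω V K) hG hC (e δ') := by
      intro m
      refine (hz _).trans ?_
      constructor
      · rintro ⟨⟨δ'', n⟩, ⟨-, h5⟩, h6⟩
        obtain ⟨h7, h8⟩ := op_inj h6
        have h9 : δ' = δ'' := od_inj hG hO hC (h3.symm.trans h7)
        change e δ'' = n at h5
        rw [h9, h5]
        exact INat.ext h8
      · rintro rfl
        exact ⟨(δ', e δ'), ⟨h2, rfl⟩, by rw [h3]; rfl⟩
    exact the_eq (p := fun m : INat (NN (Sk Ω V K) hG) => Mem (ZFA.op o.1 m.val) z) (d := 0)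
      ⟨_, (h4 _).2 rfl, fun m hm => (h4 m).1 hm⟩ ((h4 _).2 rfl)
  intro o o' ho ho' hoo
  obtain ⟨a, h2, h3, h4⟩ := key o ho
  obtain ⟨b, h2', h3', h4'⟩ := key o' ho'
  have h5 := h4.symm.trans (hoo.trans h4')
  rw [nmN_inj] at h5
  have h6 := h1 a b h2 h2' h5
  exact Subtype.ext (by rw [h3, h3', h6])

theorem inj_of_not_ctb (hC : CollL M) (hcnt : ∀ δ : Ω, Ctb M (fun δ' => ltO δ' δ)) (ω : Ω)
    {α : Type u} [ITy (NN (Sk Ω V K) hG) α] {lt : α → α → Prop}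
    (h : IWO (NN (Sk Ω V K) hG) α lt) (hn : ¬ Ctb (NN (Sk Ω V K) hG) (fun _ : α => True)) :
    ∃ g : El (Od (Sk Ω V K) hG hO) → α, IntF (NN (Sk Ω V K) hG) g ∧ Function.Injective g := by
  by_contra hcon
  obtain ⟨ρ, hρ, h1⟩ := exists_rank h (iwo_Od hG hC hO) (ι := INat (NN (Sk Ω V K) hG))
    (T := fun _ _ => True) (Int.const _) ⟨od (Sk Ω V K) hG hO ω, (mem_Od hG hO).2 ⟨ω, rfl⟩⟩
    (fun _ => by
    rintro ⟨g, hg, h2, -⟩
    exact hcon ⟨g, hg, h2⟩)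
  obtain ⟨h2, ⟨b, hb⟩, h3⟩ := h1 0
  obtain ⟨δ, rfl⟩ := (mem_Od hG hO).1 hb
  have hρ0 : IntF (NN (Sk Ω V K) hG) (fun i => ρ 0 i) :=
    IntF.comp₂ (p := fun n x => ρ n x) hρ (IntF.const _) IntF.id
  obtain ⟨e, he, h4⟩ := ctb_seg (K := K) hG hO hC (hcnt δ)
  exact hn ⟨fun a => e (ρ 0 a), he.comp hρ0, fun a b _ _ hab =>
    h2 a b trivial trivial (h4 _ _ (h3 a trivial) (h3 b trivial) hab)⟩

end

end Pool.Agent.Helper672.ZFA.V246R
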