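import Pool.Agent.V11246.Rc
import Pool.Agent.V11246.Kn

/-!
# The first uncountable ordinal
-/

set_option maxHeartbeats 1000000
set_option linter.all false
set_option synthInstance.maxSize 2000

namespace Pool.Agent.Helper672.ZFA.V246R

open FirstOrder FirstOrder.Language
open Pool.Agent.Helper672.ZFA.H635
open Pool.Agent.Helper672.ZFA.V246 (Ctb exists_lf exists_rank iwoNn iwo_comap)
open Pool.Agent.Helper672.ZFA.V246K (TBW Cols Ga Sk Pk Star wo_main Wr Cb cb_of ap ap_mem_smul Ix
  sigma_gen exists_add Su int_Cb)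
open Pool.Agent.H310

universe u

variable {M : Type u} [L.Structure M] [hM : IsModel M]

/-- A well-order of uncountable type all of whose proper segments are countable. -/
theorem exists_om (hA : V246K.AC M) : ∃ (Ω : Type u) (_ : ITy M Ω) (lt : Ω → Ω → Prop),
    IWO M Ω lt ∧ ¬ Ctb M (fun _ : Ω => True) ∧ ∀ δ, Ctb M (fun δ' => lt δ' δ) := by
  obtain ⟨lt0, h0⟩ := hA (IPow M (INat M)) inferInstance
  have hlt0 := h0.int
  have hseg : ∀ (x : IPow M (INat M)), Int M (fun y => lt0 y x) := fun x =>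
    Int.comp₂ (p := fun a b => lt0 a b) hlt0 IntF.id (IntF.const _)
  have hP : Int M (fun x : IPow M (INat M) => Cb (sep M fun y => lt0 y x)) := by
    refine Int.comp (p := fun s : IPow M (IPow M (INat M)) => Cb s) int_Cb
      (f := fun x : IPow M (INat M) => sep M fun y => lt0 y x) ?_
    exact IntF.sep (Int.comp₂ (p := fun a b => lt0 a b) hlt0 IntF.snd' IntF.fst')
  haveI : Fact (Int M (fun x : IPow M (INat M) => Cb (sep M fun y => lt0 y x))) := ⟨hP⟩
  have hval : IntF M (fun x : {x : IPow M (INat M) // Cb (sep M fun y => lt0 y x)} => x.1) :=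
    IntF.val IntF.id
  refine ⟨{x : IPow M (INat M) // Cb (sep M fun y => lt0 y x)}, inferInstance,
    fun x y => lt0 x.1 y.1, iwo_comap h0 hval Subtype.val_injective, ?_, ?_⟩
  · intro hc
    have h1 : Ctb M (fun x : IPow M (INat M) => Cb (sep M fun y => lt0 y x)) := by
      refine (Ctb.image (Int.const True) hc hval).mono fun x hx => ⟨⟨x, hx⟩, trivial, rfl⟩
    by_cases hall : ∀ x : IPow M (INat M), Cb (sep M fun y => lt0 y x)
    · exact V246X.not_ctb_pow (h1.mono fun x _ => hall x)
    · push Not at hall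
      obtain ⟨x, hx⟩ := hall
      have hI : Int M (fun x : IPow M (INat M) => ¬ Cb (sep M fun y => lt0 y x)) := Int.not hP
      obtain ⟨m, h2, h3⟩ := h0.wf (sep M fun x => ¬ Cb (sep M fun y => lt0 y x))
        ⟨x, (mem_sep hI).2 hx⟩
      refine (mem_sep hI).1 h2 (cb_of (h1.mono fun y hy => ?_))
      have h4 := (mem_sep (hseg m)).1 hy
      by_contra h5
      exact h3 y ((mem_sep hI).2 h5) h4
  · rintro ⟨x, hx⟩
    obtain ⟨e, he, h1⟩ := hx.ctb
    refine ⟨fun y => e y.1, he.comp hval, fun a b ha hb hab => Subtype.ext (h1 a.1 b.1 ?_ ?_ hab)⟩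
    · exact (mem_sep (hseg x)).2 ha
    · exact (mem_sep (hseg x)).2 hb

end Pool.Agent.Helper672.ZFA.V246R
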