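import Pool.Agent.V11246.Kx

/-!
# The cuts of the real numbers
-/

set_option maxHeartbeats 1000000
set_option linter.all false
set_option synthInstance.maxSize 2000

namespace Pool.Agent.Helper672.ZFA.V246R

open FirstOrder FirstOrder.Language
open Pool.Agent.Helper672.ZFA
open Pool.Agent.Helper672.Plain (LSet)
open Pool.Agent.Helper672.ZFA.H635 (plainN_ordPair plainN_graph plainN_opGraph IWO)
open Pool.Agent.H635Amen (IsReals)
open Pool.Agent.H310
open Pool.Agent.V11246
open Pool.Agent.Helper672.ZFA.V246X (exists_qh)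

universe u

section

attribute [local instance] H635.toL

variable {N : Type u} [LSet.Structure N] [hM : IsModel N]

noncomputable local instance instPElRe (x : N) : ITy N (Helper672.Plain.El x) :=
  (inferInstance : ITy N (El x))

theorem exists_floor {r : N} [Field (Helper672.Plain.El r)] [LinearOrder (Helper672.Plain.El r)]
    [IsStrictOrderedRing (Helper672.Plain.El r)] (hr : IsReals r) :
    ∃ (q : INat N → Helper672.Plain.El r) (m : INat N → INat N → Helper672.Plain.El r),
      (∀ ε, 0 < ε → ∃ n, q n < ε) ∧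
      IntF N (fun p : INat N × INat N => m p.1 p.2) ∧
      (∀ z, 0 ≤ z → ∀ n, ∃ k, m k n ≤ z ∧ z < m k n + q n) ∧
      IntF N (fun q : Helper672.Plain.El r × Helper672.Plain.El r => q.1 + q.2) ∧
      Int N (fun q : Helper672.Plain.El r × Helper672.Plain.El r => q.1 < q.2) := by
  obtain ⟨q, hq, hpos, hhalf, hlim, hlt⟩ := exists_qh hr
  obtain ⟨ga, ha⟩ := hr.add
  have ha' : Int N (fun q : (Helper672.Plain.El r × Helper672.Plain.El r) ×
      Helper672.Plain.El r => q.1.1 + q.1.2 = q.2) :=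
    ⟨ga, fun q => ((ha q.1.1 q.1.2 q.2).trans plainN_opGraph).symm⟩
  have hadd : IntF N (fun q : Helper672.Plain.El r × Helper672.Plain.El r => q.1 + q.2) := ha'
  have hs : ∀ n, IntF N (fun p : INat N × Helper672.Plain.El r => p.2 + q n) := fun n =>
    IntF.comp₂ (p := fun a b => a + b) hadd IntF.snd' (IntF.const _)
  have hm : IntF N (fun p : INat N × INat N =>
      irec (0 : Helper672.Plain.El r) (fun _ y => y + q p.2) p.1) :=
    IntF.irec (f := fun (p : INat N × INat N) _ y => y + q p.2) (IntF.const _)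
      (IntF.comp₂ (p := fun a b => a + b) hadd IntF.snd'
        (hq.comp (IntF.snd (IntF.fst IntF.fst')))) IntF.fst'
  obtain ⟨m, hmI, hm0, hms⟩ : ∃ m : INat N → INat N → Helper672.Plain.El r,
      IntF N (fun p : INat N × INat N => m p.1 p.2) ∧ (∀ n, m 0 n = 0) ∧
        ∀ k n, m k.succ n = m k n + q n :=
    ⟨fun k n => irec (0 : Helper672.Plain.El r) (fun _ y => y + q n) k, hm,
      fun n => irec_zero (hs n), fun k n => irec_succ (hs n) k⟩
  refine ⟨q, m, hlim, hmI, fun z hz n => ?_, hadd, hlt⟩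
  have hmn : IntF N (fun k : INat N => m k n) :=
    IntF.comp₂ (p := fun a b => m a b) hmI IntF.id (IntF.const _)
  have harch : ∃ k, z < m k n := by
    by_contra hc
    push Not at hc
    have hS : Int N (fun x : Helper672.Plain.El r => ∃ k : INat N, m k n = x) :=
      Int.ex (Int.eq (hmn.comp IntF.snd') IntF.fst')
    obtain ⟨s, hs1⟩ : ∃ s : N, ∀ z, Helper672.Plain.Mem z s ↔ ∃ x : Helper672.Plain.El r,
        (∃ k : INat N, m k n = x) ∧ x.1 = z :=
      ⟨hS.small.elt, fun z => hS.small.mem⟩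
    have hs2 : ∀ x : Helper672.Plain.El r, Helper672.Plain.Mem x.1 s ↔
        ∃ k : INat N, m k n = x := fun x =>
      (hs1 x.1).trans ⟨fun ⟨y, h1, h2⟩ => (Subtype.ext h2 : y = x) ▸ h1, fun h => ⟨x, h, rfl⟩⟩
    obtain ⟨c, h1, h2⟩ := hr.complete ⟨s, fun x hx => by
        obtain ⟨y, -, rfl⟩ := (hs1 x).1 hx
        exact y.2⟩ ⟨(m 0 n).1, (hs2 _).2 ⟨0, rfl⟩⟩ ⟨z, fun x hx => by
        obtain ⟨k, rfl⟩ := (hs2 x).1 hx
        exact hc k⟩
    have h3 : ∀ k, m k n ≤ c := fun k => h1 ((hs2 _).2 ⟨k, rfl⟩)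
    have h4 : c ≤ c - q n := h2 fun x hx => by
      obtain ⟨k, rfl⟩ := (hs2 x).1 hx
      have h5 := h3 k.succ
      rw [hms] at h5
      linarith
    have h5 := hpos n
    linarith
  obtain ⟨k, h1, h2⟩ := INat.exists_least (p := fun k => z < m k n)
    (Int.comp₂ (p := fun a b => a < b) hlt (IntF.const _) hmn) harch
  rcases INat.eq_zero_or_succ k with rfl | ⟨k', rfl⟩
  · rw [hm0] at h1
    exact absurd h1 (not_lt.2 hz)
  · refine ⟨k', not_lt.1 fun h3 => ?_, ?_⟩
    · exact absurd (h2 _ h3) (not_le.2 (INat.lt_succ_self k'))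
    · rwa [hms] at h1

/-- The real numbers inject into the power set of the natural numbers. -/
theorem exists_cut {r : N} [Field (Helper672.Plain.El r)] [LinearOrder (Helper672.Plain.El r)]
    [IsStrictOrderedRing (Helper672.Plain.El r)] (hr : IsReals r) :
    ∃ c : Helper672.Plain.El r → IPow N (INat N), IntF N c ∧ Function.Injective c := by
  obtain ⟨q, m, hlim, hm, hfl, hadd, hlt⟩ := exists_floor hr
  have hp : IntF N (fun q : INat N × INat N => pr q.1 q.2) := int_pr
  have hc : Int N (fun p : Helper672.Plain.El r × INat N =>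
      (∃ k n, p.2 = pr 0 (pr k n) ∧ ¬ p.1 < m k n) ∨
      (∃ k n, p.2 = pr (INat.succ 0) (pr k n) ∧ ¬ 0 < m k n + p.1)) := by
    refine Int.or (Int.ex (Int.ex (Int.and (Int.eq (IntF.snd (IntF.fst IntF.fst')) ?_)
      (Int.not ?_)))) (Int.ex (Int.ex (Int.and (Int.eq (IntF.snd (IntF.fst IntF.fst')) ?_)
      (Int.not ?_))))
    · exact IntF.comp₂ (p := fun a b => pr a b) hp (IntF.const _)
        (IntF.comp₂ (p := fun a b => pr a b) hp (IntF.snd IntF.fst') IntF.snd')
    · exact Int.comp₂ (p := fun a b => a < b) hlt (IntF.fst (IntF.fst IntF.fst'))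
        (IntF.comp₂ (p := fun a b => m a b) hm (IntF.snd IntF.fst') IntF.snd')
    · exact IntF.comp₂ (p := fun a b => pr a b) hp (IntF.const _)
        (IntF.comp₂ (p := fun a b => pr a b) hp (IntF.snd IntF.fst') IntF.snd')
    · exact Int.comp₂ (p := fun a b => a < b) hlt (IntF.const _)
        (IntF.comp₂ (p := fun a b => a + b) hadd
          (IntF.comp₂ (p := fun a b => m a b) hm (IntF.snd IntF.fst') IntF.snd')
          (IntF.fst (IntF.fst IntF.fst')))
  have hc2 : ∀ x, Int N (fun p : INat N => (∃ k n, p = pr 0 (pr k n) ∧ ¬ x < m k n) ∨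
      (∃ k n, p = pr (INat.succ 0) (pr k n) ∧ ¬ 0 < m k n + x)) := fun x =>
    Int.comp (f := fun p : INat N => (x, p)) hc (IntF.pair (IntF.const _) IntF.id)
  obtain ⟨c, hcI, hc1⟩ : ∃ c : Helper672.Plain.El r → IPow N (INat N), IntF N c ∧
      ∀ x p, p ∈ c x ↔ (∃ k n, p = pr 0 (pr k n) ∧ ¬ x < m k n) ∨
        (∃ k n, p = pr (INat.succ 0) (pr k n) ∧ ¬ 0 < m k n + x) :=
    ⟨_, IntF.sep hc, fun x p => mem_sep (hc2 x)⟩
  have h0 : ∀ x k n, pr 0 (pr k n) ∈ c x ↔ ¬ x < m k n := by
    intro x k n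
    rw [hc1]
    constructor
    · rintro (⟨k', n', h1, h2⟩ | ⟨k', n', h1, h2⟩)
      · obtain ⟨h3, h4⟩ := pr_inj (pr_inj h1).2
        subst h3 h4
        exact h2
      · exact absurd (pr_inj h1).1.symm (INat.succ_ne_zero _)
    · exact fun h => Or.inl ⟨k, n, rfl, h⟩
  have h1 : ∀ x k n, pr (INat.succ 0) (pr k n) ∈ c x ↔ ¬ 0 < m k n + x := by
    intro x k n
    rw [hc1]
    constructor
    · rintro (⟨k', n', h1, h2⟩ | ⟨k', n', h1, h2⟩)
      · exact absurd (pr_inj h1).1 (INat.succ_ne_zero _)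
      · obtain ⟨h3, h4⟩ := pr_inj (pr_inj h1).2
        subst h3 h4
        exact h2
    · exact fun h => Or.inr ⟨k, n, rfl, h⟩
  have key : ∀ x y, x < y → c x = c y → False := by
    intro x y hxy hcc
    obtain ⟨n, hn⟩ := hlim (y - x) (sub_pos.2 hxy)
    rcases le_or_gt 0 y with hy | hy
    · obtain ⟨k, h2, h3⟩ := hfl y hy n
      have h4 := (h0 y k n).2 (not_lt.2 h2)
      rw [← hcc, h0] at h4
      apply h4
      linarith
    · obtain ⟨k, h2, h3⟩ := hfl (-x) (by linarith) n
      have h4 := (h1 x k n).2 (not_lt.2 (by linarith))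
      rw [hcc, h1] at h4
      apply h4
      linarith
  refine ⟨c, hcI, fun x y hxy => ?_⟩
  rcases lt_trichotomy x y with h | h | h
  · exact absurd (key _ _ h hxy) id
  · exact h
  · exact absurd (key _ _ h hxy.symm) id

end

end Pool.Agent.Helper672.ZFA.V246R
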