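import Pool.Agent.V11246.Kr
import Pool.Agent.V11246.Rc

/-!
# There is no multiple choice for the levels of the columns
-/

set_option maxHeartbeats 1000000
set_option linter.all false
set_option synthInstance.maxSize 2000

namespace Pool.Agent.Helper672.ZFA.V246K

open FirstOrder FirstOrder.Language
open Pool.Agent.Helper672.ZFA.H635 (IPerm SymSys IWO IsGen NN EqFam nm nmN CollL od Od)
open Pool.Agent.Helper672.ZFA.V246 (Ctb exists_lf)
open Pool.Agent.H310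

universe u

variable {M : Type u} [L.Structure M] [hM : IsModel M]

theorem Ct.zero (hs : Std M) {k : INat M} {a : IPerm M (Yt M)} (ha : Ct k a) :
    ∀ y : Yt M, (∀ x, ¬ x ∈ y.2.1) → ∀ x, ¬ x ∈ (a.1.1 y).2.1 := by
  refine Ct.ind hs (p := fun a => ∀ y : Yt M, (∀ x, ¬ x ∈ y.2.1) → ∀ x, ¬ x ∈ (a.1.1 y).2.1)
    ?_ ?_ a ha
  · intro y hy
    rw [IPerm.one_apply]
    exact hy
  · rintro e h ⟨m, i, j, hm, rfl⟩ _ ih y hy x hx
    rw [IPerm.mul_apply, tv_apply, mem_tvf] at hx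
    exact hx ⟨fun h1 => absurd h1 (ih y hy x), fun h1 => absurd h1.2.2.2 (ih y hy j)⟩

variable {Ω : Type u} [ITy M Ω] {V : Type u} [ITy M V] {hs : Std M}
variable {G : Set (Pk M (Yt M) Ω V)} (hG : IsGen M G)

variable {cg : Yt M → NN (Sk Ω V (Kt hs)) hG} {A : NN (Sk Ω V (Kt hs)) hG}
  {lv : El A → INat (NN (Sk Ω V (Kt hs)) hG)}
  (hcg : EqFam hG (fun (π : Ga Ω (Kt hs)) y => (cm π).1.1 y) cg)
  (hinj : ∀ y y', cg y = cg y' → y = y') (hA : ∀ w, Plain.Mem w A ↔ ∃ y, w = cg y)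

include hcg hinj hA in
theorem exists_nz (hC : CollL M) (hΩ : ¬ Ctb M (fun _ : Ω => True)) :
    ∃ F : El A → INat (NN (Sk Ω V (Kt hs)) hG), IntF (NN (Sk Ω V (Kt hs)) hG) F ∧
      ∀ y (hy : Plain.Mem (cg y) A), F ⟨cg y, hy⟩ ≠ 0 ↔ ∃ x, x ∈ y.2.1 := by
  have hω : Nonempty Ω := by
    by_contra h
    exact hΩ ⟨fun _ => 0, IntF.const _, fun a _ _ _ _ => absurd ⟨a⟩ h⟩
  obtain ⟨ω⟩ := hω
  classical
  have hI : Int M (fun y : Yt M => ∃ x, x ∈ y.2.1) :=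
    Int.ex (Int.mem IntF.snd' (IntF.val (IntF.snd IntF.fst')))
  obtain ⟨φ, hφ, h1, h2⟩ : ∃ φ : Yt M → INat M, IntF M φ ∧
      (∀ y, (∃ x, x ∈ y.2.1) → φ y = INat.succ 0) ∧ ∀ y, (¬ ∃ x, x ∈ y.2.1) → φ y = 0 :=
    ⟨fun y => if (∃ x, x ∈ y.2.1) then INat.succ 0 else 0,
      IntF.ite hI (IntF.const _) (IntF.const _), fun y h => if_pos h, fun y h => if_neg h⟩
  have hz : ∀ c, (Kt hs).C 0 c → ∀ y : Yt M, (∃ x, x ∈ y.2.1) → ∃ x, x ∈ (c.1.1 y).2.1 := by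
    intro c hc y hy
    by_contra h
    push Not at h
    obtain ⟨x, hx⟩ := hy
    have h3 := Ct.zero hs (Ct.inv hs hc) _ h x
    rw [← IPerm.mul_apply, inv_mul_cancel, IPerm.one_apply] at h3
    exact h3 hx
  obtain ⟨F, hF, h3⟩ := exists_fn hG hC ω hcg hinj hA (φ := φ) hφ
    (D' := fun _ => True) (Int.const _) 0 (fun c hc y _ => by
      refine ⟨trivial, ?_⟩
      by_cases h : ∃ x, x ∈ y.2.1
      · rw [h1 y h, h1 _ (hz c hc y h)]
      · rw [h2 y h, h2]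
        push Not at h
        rintro ⟨x, hx⟩
        exact Ct.zero hs hc y h x hx)
  refine ⟨F, hF, fun y hy => ?_⟩
  rw [h3 y hy trivial, ← H635.nmN_zero hG hC, Ne, H635.nmN_inj]
  constructor
  · intro h
    by_contra h4
    exact h (h2 y h4)
  · intro h
    rw [h1 y h]
    exact one_ne_zero'

include hcg hinj hA in
/-- There is no multiple choice on the levels. -/
theorem no_mc (hC : CollL M) (hAC : AC M) (hΩ : ¬ Ctb M (fun _ : Ω => True))
    (hlv : ∀ y (hy : Plain.Mem (cg y) A), lv ⟨cg y, hy⟩ = nmN (Sk Ω V (Kt hs)) hG hC y.1)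
    {F : El A → INat (NN (Sk Ω V (Kt hs)) hG)}
    (hF : ∀ y (hy : Plain.Mem (cg y) A), F ⟨cg y, hy⟩ ≠ 0 ↔ ∃ x, x ∈ y.2.1)
    (Z : IPow (NN (Sk Ω V (Kt hs)) hG) (El A)) (h1 : ∀ x, x ∈ Z → F x ≠ 0)
    (h2 : ∀ n, ∃ x, x ∈ Z ∧ lv x = n)
    (h3 : ∀ n, FinP (NN (Sk Ω V (Kt hs)) hG) (fun x => x ∈ Z ∧ lv x = n)) : False := by
  have hω : Nonempty Ω := by
    by_contra h
    exact hΩ ⟨fun _ => 0, IntF.const _, fun a _ _ _ _ => absurd ⟨a⟩ h⟩
  obtain ⟨ω⟩ := hω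
  obtain ⟨k, hk⟩ := col_invar hG hΩ (act := fun (π : Ga Ω (Kt hs)) (y : Yt M) => (cm π).1.1 y)
    (ac := fun c y => c.1.1 y) (fun π c hc t => cm_eq ω hc t) hcg
    (code (M := NN (Sk Ω V (Kt hs)) hG) Z)
  have hmem : ∀ y (hy : Plain.Mem (cg y) A),
      Plain.Mem (cg y) (code (M := NN (Sk Ω V (Kt hs)) hG) Z) ↔ (⟨cg y, hy⟩ : El A) ∈ Z := by
    intro y hy
    constructor
    · intro h
      obtain ⟨x, h4, h5⟩ := (mem_code_pow (M := NN (Sk Ω V (Kt hs)) hG)).1 h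
      have h6 : x = ⟨cg y, hy⟩ := Subtype.ext h5
      rwa [h6] at h4
    · exact fun h => (mem_code_pow (M := NN (Sk Ω V (Kt hs)) hG)).2 ⟨_, h, rfl⟩
  obtain ⟨⟨x, hx⟩, h4, h5⟩ := h2 (nmN (Sk Ω V (Kt hs)) hG hC k)
  obtain ⟨y, rfl⟩ := (hA x).1 hx
  rw [hlv, H635.nmN_inj] at h5
  obtain ⟨j, hj⟩ := (hF y hx).1 (h1 _ h4)
  have hin : ∀ y, Plain.Mem (cg y) A := fun y => (hA _).2 ⟨y, rfl⟩
  have h6 : ∀ i, (⟨cg (tvf k i j y), hin _⟩ : El A) ∈ Z ∧
      lv ⟨cg (tvf k i j y), hin _⟩ = nmN (Sk Ω V (Kt hs)) hG hC k := by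
    intro i
    refine ⟨(hmem _ _).1 (hk (tv k i j) (Ct.gen ⟨k, _, _, le_rfl, rfl⟩) y ((hmem y hx).2 h4)), ?_⟩
    rw [hlv, tvf_fst, h5]
  obtain ⟨e, he, h7⟩ := ctb_Ve hAC
  obtain ⟨g, hg, hg'⟩ := exists_fn hG hC ω hcg hinj hA (φ := fun y : Yt M => e y.2)
    (he.comp IntF.snd') (D' := fun y => y.1 = k) (Int.eq IntF.fst' (IntF.const _)) k.succ
    (fun c hc y hy => by
      have h2 : c.1.1 y = y := (Kt hs).fix _ c hc y (by
        change y.1 < k.succ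
        rw [hy]
        exact INat.lt_succ_self _)
      rw [h2]
      exact ⟨hy, rfl⟩)
  obtain ⟨b, hb⟩ := (h3 (nmN (Sk Ω V (Kt hs)) hG hC k)).bound' hg
  obtain ⟨b, rfl⟩ := H635.nmN_surj hG hC b
  have h8 : ∀ i, e (tvf k i j y).2 < b.succ := by
    intro i
    have h9 := hb _ (h6 i)
    rw [hg' _ _ (by rw [tvf_fst, h5])] at h9
    refine lt_of_not_ge fun h10 => ?_
    have h10' : b < e (tvf k i j y).2 := INat.succ_le_iff.1 h10
    have h11 := (H635.nmN_lt (S := Sk Ω V (Kt hs)) hG hC).2 h10'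
    exact absurd h9 (not_le.2 h11)
  have hI : IntF M (fun i : INat M => e (tvf k i j y).2) := by
    have h9 : IntF M (fun i : INat M => tvf k i j y) := IntF.comp (g := fun q : (INat M × (INat M × INat M)) × Yt M =>
      tvf q.1.1 q.1.2.1 q.1.2.2 q.2) (f := fun i : INat M => ((k, (i, j)), y)) int_tvf
      (IntF.pair (IntF.pair (IntF.const _) (IntF.pair IntF.id (IntF.const _))) (IntF.const _))
    exact he.comp (IntF.snd h9)
  have h10 : FinP M (fun i : INat M => i ≠ j) := by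
    refine FinP.of_inj (Int.not (Int.eq IntF.id (IntF.const _))) hI (fun i i' hi hi' hii => ?_)
      (finP_lt b.succ) fun i _ => h8 i
    have h11 := congrArg Subtype.val (h7 _ _ trivial trivial hii)
    by_contra hne
    by_cases hiy : i ∈ y.2.1
    · have h12 : ¬ i ∈ (tvf k i j y).2.1 := by
        rw [mem_tvf]
        exact fun h => h ⟨fun _ => ⟨h5, hi, rfl, hj⟩, fun _ => hiy⟩
      have h13 : i ∈ (tvf k i' j y).2.1 := by
        rw [mem_tvf]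
        exact fun h => hne (h.1 hiy).2.2.1
      rw [← h11] at h13
      exact h12 h13
    · have h12 : i ∈ (tvf k i j y).2.1 := by
        rw [mem_tvf]
        exact fun h => hiy (h.2 ⟨h5, hi, rfl, hj⟩)
      have h13 : ¬ i ∈ (tvf k i' j y).2.1 := by
        rw [mem_tvf]
        exact fun h => h ⟨fun h' => absurd h' hiy, fun h' => absurd h'.2.2.1 hne⟩
      rw [← h11] at h13
      exact h13 h12
  exact not_finP_nat (M := M) ((h10.or (FinP.eq j)).mono fun i _ => (ne_or_eq i j))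

end Pool.Agent.Helper672.ZFA.V246K
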