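import Pool.Agent.V11246.RDefs
import Pool.Agent.V11246.Kn
import Pool.Agent.V11246.Re
import Pool.Agent.V11246.Ra
import Pool.Agent.V11246.Cmp

/-!
# Weak forms of choice in the extension
-/

set_option maxHeartbeats 1000000
set_option linter.all false
set_option synthInstance.maxSize 2000

namespace Pool.Agent.Helper672.ZFA.V246R

open FirstOrder FirstOrder.Language
open Pool.Agent.Helper672.ZFA
open Pool.Agent.Helper672.Plain (LSet)
open Pool.Agent.Helper672.ZFA.H635 (IWO)
open Pool.Agent.H635Amen (IsReals)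
open Pool.Agent.H310Cards
open Pool.Agent.H310NAS (IsWellOrder)
open Pool.Agent.H310Top (IsCompact)
open Pool.Agent.H310
open Pool.Agent.V11246
open Pool.Agent.Helper672.ZFA.V246
open Pool.Agent.Helper672.ZFA.V246X (exists_qh int_d exists_net)
open Pool.Agent.Helper672.ZFA.V246K (TBW)

universe u

section internal

variable {N : Type u} [L.Structure N] [hN : IsModel N] {α : Type u} [ITy N α]

/-- Infinite countable predicates. -/
theorem exists_bij {p : α → Prop} (hp : Int N p) (hc : Ctb N p) (hinf : ¬ FinP N p) :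
    ∃ ψ : α → INat N, IntF N ψ ∧ (∀ a b, p a → p b → ψ a = ψ b → a = b) ∧
      ∀ n, ∃ a, p a ∧ ψ a = n := by
  obtain ⟨e, he, h1⟩ := hc
  have hT : Int N (fun q : INat N × INat N => ∃ a, p a ∧ e a = q.2) :=
    Int.ex (Int.and (hp.comp IntF.snd') (Int.eq (he.comp IntF.snd') (IntF.snd IntF.fst')))
  obtain ⟨ρ, hρ, h2⟩ := exists_comp (iwoNn (N := N)) (iwoNn (N := N))
    (T := fun _ m : INat N => ∃ a, p a ∧ e a = m) hT 0
  have hρ0 : IntF N (fun i => ρ 0 i) :=
    IntF.comp₂ (p := fun n x => ρ n x) hρ (IntF.const _) IntF.id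
  rcases h2 0 with ⟨h3, h4⟩ | ⟨c, -, g, hg, hgi, h5⟩
  · have hinj : ∀ a b, p a → p b → ρ 0 (e a) = ρ 0 (e b) → a = b := by
      intro a b ha hb hab
      refine h1 a b ha hb ?_
      rcases lt_trichotomy (e a) (e b) with h5 | h5 | h5
      · exact absurd (h3 _ _ ⟨a, ha, rfl⟩ ⟨b, hb, rfl⟩ h5) (by rw [hab]; exact lt_irrefl _)
      · exact h5
      · exact absurd (h3 _ _ ⟨b, hb, rfl⟩ ⟨a, ha, rfl⟩ h5) (by rw [hab]; exact lt_irrefl _)
    refine ⟨fun a => ρ 0 (e a), hρ0.comp he, hinj, fun n => ?_⟩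
    by_contra hcon
    push Not at hcon
    refine hinf (FinP.of_inj hp (hρ0.comp he) hinj (finP_lt n) fun a ha => ?_)
    by_contra hlt
    obtain ⟨d, ⟨b, hb, rfl⟩, h6, -⟩ := h4 (e a) n ⟨a, ha, rfl⟩ hlt
    exact hcon b hb h6
  · exact absurd (FinP.of_inj (Int.const True) hg (fun a b _ _ hab => hgi hab) (finP_lt c)
      fun a _ => (h5 a).2) not_finP_nat

end internal

section

attribute [local instance] Helper672.Plain.toL

variable {N : Type u} [LSet.Structure N] [hZ : Helper672.Plain.Zermelo N]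

local instance instModelRg : IsModel N := Helper672.Plain.isModel_toL

noncomputable local instance instPElRg (x : N) : ITy N (Helper672.Plain.El x) :=
  (inferInstance : ITy N (El x))

variable {α β : Type u} [ITy N α] [ITy N β]

theorem isInj_code {f : α → β} (hf : IntF N f) (hi : Function.Injective f) {s t : N}
    (hs : ∀ z, Mem z s ↔ ∃ x : α, code x = z) (ht : ∀ b : β, Mem (code b) t) :
    IsInj (code (⟨f, hf⟩ : IFun N α β)) s t := by
  refine ⟨isFun_code _ hs fun a => ht _, fun x x' y h1 h2 => ?_⟩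
  obtain ⟨a, rfl, h3⟩ := app_code.1 h1
  obtain ⟨b, rfl, h4⟩ := app_code.1 h2
  rw [hi (ITy.inj (h3.trans h4.symm))]

theorem isFinite_of_finP {x : N} (h : FinP N (fun _ : Helper672.Plain.El x => True)) :
    IsFinite x :=
  by_contra fun h' => not_finP (α := El x) (fun z => mem_El) h' h

theorem idi_of_tbw (h : TBW N) : IDI N := by
  intro x hx
  by_contra hcon
  refine hx (isFinite_of_finP (fin_of_tbw h x ?_))
  rintro ⟨g, hg, hinj⟩
  exact hcon ⟨dom N (INat N), _, isOmega_dom, isInj_code (β := El x) hg hinj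
    (fun z => mem_domP) fun b => b.2⟩

end

end Pool.Agent.Helper672.ZFA.V246R
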