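import Pool.Agent.V11246.Rg

/-!
# Well-ordered families, real numbers and multiple choice in the extension
-/

set_option maxHeartbeats 1000000
set_option linter.all false
set_option synthInstance.maxSize 2000

namespace Pool.Agent.Helper672.ZFA.V246R

open FirstOrder FirstOrder.Language
open Pool.Agent.Helper672.ZFA
open Pool.Agent.Helper672.Plain (LSet)
open Pool.Agent.Helper672.ZFA.H635 (IWO)
open Pool.Agent.H635Amen (IsReals)
open Pool.Agent.H310Cards
open Pool.Agent.H310NAS (IsWellOrder)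
open Pool.Agent.H310Top (IsCompact)
open Pool.Agent.H310
open Pool.Agent.V11246
open Pool.Agent.Helper672.ZFA.V246
open Pool.Agent.Helper672.ZFA.V246X (exists_qh int_d exists_net)
open Pool.Agent.Helper672.ZFA.V246K (TBW)

universe u

section

attribute [local instance] Helper672.Plain.toL

variable {N : Type u} [LSet.Structure N] [hZ : Helper672.Plain.Zermelo N]

local instance instModelRh : IsModel N := Helper672.Plain.isModel_toL

noncomputable local instance instPElRh (x : N) : ITy N (Helper672.Plain.El x) :=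
  (inferInstance : ITy N (El x))

theorem iwo_of_isWellOrder {r x : N} (hr : IsWellOrder r x) :
    IWO N (El x) (fun a b => App r a.1 b.1) := by
  refine ⟨?_, fun a b => ?_, fun s hs => ?_⟩
  · exact Int.of_D₂ (S := fun v => Mem (op (v 0) (v 1)) r)
      (D.memf (DF.op (DF.var _) (DF.var _)) (DF.const _)) fun _ _ => app_iff.symm
  · rcases hr.total a.1 b.1 a.2 b.2 with h1 | h1 | h1
    · exact Or.inl h1
    · exact Or.inr (Or.inl (Subtype.ext h1))
    · exact Or.inr (Or.inr h1)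
  · obtain ⟨a, ha⟩ := hs
    obtain ⟨b, hb, h1⟩ := hr.least (code (M := N) s) (fun z hz => by
      obtain ⟨x, -, rfl⟩ := mem_codeB.1 hz
      exact x.2) ⟨code a, mem_codeB'.2 ha⟩
    obtain ⟨b, hb', rfl⟩ := mem_codeB.1 hb
    exact ⟨b, hb', fun c hc => h1 _ (mem_codeB'.2 hc)⟩

theorem exists_union (Fs : N) : ∃ U X : N, (∀ z, Mem z U ↔ ∃ x, Mem x Fs ∧ Mem z x) ∧
    ∀ p, Mem p X ↔ ∃ x z, Mem x Fs ∧ Mem z x ∧ p = op x z := by
  obtain ⟨U, hU⟩ := hZ.union Fs
  have hI : Int N (fun q : El Fs × El U => Mem q.2.1 q.1.1) :=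
    Int.of_D₂ (S := fun v => Mem (v 1) (v 0)) (D.memf (DF.var _) (DF.var _)) fun _ _ => Iff.rfl
  refine ⟨U, code (M := N) (sep N fun q : El Fs × El U => Mem q.2.1 q.1.1), hU, fun p => ?_⟩
  rw [mem_codeB]
  constructor
  · rintro ⟨q, h1, rfl⟩
    exact ⟨q.1.1, q.2.1, q.1.2, (mem_sep hI).1 h1, rfl⟩
  · rintro ⟨x, z, hx, hz, rfl⟩
    exact ⟨(⟨x, hx⟩, ⟨z, (hU z).2 ⟨x, hx, hz⟩⟩), (mem_sep hI).2 hz, rfl⟩

theorem woacfin_of (h : ∀ {Fs U X : N}, (∀ z, Mem z U ↔ ∃ x, Mem x Fs ∧ Mem z x) →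
    (∀ p, Mem p X ↔ ∃ x z, Mem x Fs ∧ Mem z x ∧ p = op x z) →
    ∀ {lt : El Fs → El Fs → Prop}, IWO N (El Fs) lt →
      (∀ x : El Fs, FinP N (fun u : El U => Mem u.1 x.1)) → (∀ x : El Fs, ∃ z, Mem z x.1) →
        ∃ c : El Fs → El U, IntF N c ∧ ∀ x, Mem (c x).1 x.1) : WOACfin N := by
  intro Fs r hr hF
  obtain ⟨U, X, hU, hX⟩ := exists_union Fs
  have hfin : ∀ x : El Fs, FinP N (fun u : El U => Mem u.1 x.1) := by
    intro x
    have hI : Int N (fun u : El U => Mem u.1 x.1) :=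
      Int.of_D (S := fun v => Mem (v 0) x.1) (D.memf (DF.var _) (DF.const _)) fun _ => Iff.rfl
    refine finP_of_finite hI (t := x.1) (fun z => ?_) (hF x.1 x.2).1
    constructor
    · exact fun hz => ⟨⟨z, (hU z).2 ⟨x.1, x.2, hz⟩⟩, hz, rfl⟩
    · rintro ⟨u, hu, rfl⟩
      exact hu
  obtain ⟨c, hc, h1⟩ := h hU hX (iwo_of_isWellOrder hr) hfin fun x => (hF x.1 x.2).2
  refine ⟨U, code (⟨c, hc⟩ : IFun N (El Fs) (El U)), isFun_code _ (fun z => mem_El)
    fun a => (c a).2, fun x y hxy => ?_⟩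
  obtain ⟨a, rfl, rfl⟩ := app_code.1 hxy
  exact h1 a

/-- Compact metrizable spaces are well-orderable. -/
theorem iwo_of_metr (h : TBW N) {t x : N} (hc : IsCompact t x) (hm : IsMetrizable t x) :
    ∃ lt : El x → El x → Prop, IWO N (El x) lt := by
  obtain ⟨r, i1, i2, i3, hr, d, hd, ht⟩ := hm
  obtain ⟨q, hq, hpos, hhalf, hlim, hlt⟩ := exists_qh (hM := instModelRh) hr
  have hdI := int_d (hM := instModelRh) hd
  have hself : ∀ a, d a a = 0 := fun a => (hd.zero a a).2 rfl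
  have hE : Int N (fun p : (INat N × Helper672.Plain.El x) × Helper672.Plain.El x =>
      d p.1.2 p.2 < q p.1.1) :=
    Int.comp₂ (p := fun a b => a < b) hlt
      (IntF.comp₂ (p := fun a b => d a b) hdI (IntF.snd IntF.fst') IntF.snd')
      (hq.comp (IntF.fst IntF.fst'))
  exact h x (fun n u v => d u v < q n) hE (fun n u v h1 => by
    rw [hd.symm]
    exact h1) (fun n u v y h1 h2 => by
    have h3 := hd.tri u v y
    have h4 := hhalf n
    linarith) (fun u v h1 => by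
    by_contra hne
    have h2 : d u v ≠ 0 := fun h3 => hne ((hd.zero u v).1 h3)
    have h3 := hd.tri u v u
    rw [hself, hd.symm v u] at h3
    have h4 : 0 < d u v := lt_of_le_of_ne (by linarith) (Ne.symm h2)
    obtain ⟨n, hn⟩ := hlim _ h4
    exact lt_asymm hn (h1 n)) (fun s hs n => by
    obtain ⟨C, hC, h1, h2⟩ := exists_net hd hdI hlt ht hc (hpos n.succ)
    have hI : Int N (fun p : IPow N (Helper672.Plain.El x) × INat N => s p.2 ∈ p.1) :=
      Int.mem (hs.comp IntF.snd') IntF.fst'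
    obtain ⟨e, he, h3⟩ := exists_lf (iwoNn (N := N)) (γ := IPow N (Helper672.Plain.El x))
      (r := fun U i => s i ∈ U) hI 0
    refine ⟨iimage e C, hC.image he, fun i => ?_⟩
    obtain ⟨U, hU, h4⟩ := h2 (s i)
    obtain ⟨c, h5⟩ := h1 U hU
    have h6 := (h5 _).1 (h3 U ⟨i, h4⟩).1
    have h7 := (h5 _).1 h4
    refine ⟨e U, (mem_iimage he).2 ⟨U, hU, rfl⟩, ?_⟩
    have h8 := hd.tri (s i) c (s (e U))
    have h9 := hhalf n
    rw [hd.symm (s i) c] at h8
    linarith)

theorem mcr_of (h : TBW N) {κ : Type u} [ITy N κ]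
    (hκ : ∃ f : IPow N (INat N) → κ, IntF N f ∧ Function.Injective f)
    (h' : ∀ {x : N} {lt : El x → El x → Prop}, IWO N (El x) lt → ¬ Ctb N (fun _ : El x => True) →
      ∃ g : κ → El x, IntF N g ∧ Function.Injective g) : MCR N := by
  intro t x hc hm hn r i1 i2 i3 hr
  obtain ⟨lt, hlt⟩ := iwo_of_metr h hc hm
  obtain ⟨f, hf, hfi⟩ := hκ
  obtain ⟨g, hg, hgi⟩ := h' hlt fun hcb => hn (by
    obtain ⟨e, he, h1⟩ := hcb
    exact ⟨dom N (INat N), _, isOmega_dom, isInj_code (α := El x) he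
      (fun a b hab => h1 a b trivial trivial hab) (fun z => mem_El) fun b => code_mem_domP b⟩)
  obtain ⟨c, hcI, hci⟩ := exists_cut (hM := instModelRh) hr
  exact ⟨_, isInj_code (α := El r) (β := El x) (hg.comp (hf.comp hcI))
    (hgi.comp (hfi.comp hci)) (fun z => mem_El) fun b => b.2⟩

end

end Pool.Agent.Helper672.ZFA.V246R
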