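import Pool.Agent.V11246.Rh

/-!
# Multiple choice
-/

set_option maxHeartbeats 1000000
set_option linter.all false
set_option synthInstance.maxSize 2000

namespace Pool.Agent.Helper672.ZFA.V246R

open FirstOrder FirstOrder.Language
open Pool.Agent.Helper672.ZFA
open Pool.Agent.Helper672.Plain (LSet)
open Pool.Agent.Helper672.ZFA.H635 (IWO)
open Pool.Agent.H635Amen (IsReals)
open Pool.Agent.H310Cards
open Pool.Agent.H310NAS (IsWellOrder)
open Pool.Agent.H310Top (IsCompact)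
open Pool.Agent.H310
open Pool.Agent.V11246
open Pool.Agent.Helper672.ZFA.V246

universe u

section

attribute [local instance] Helper672.Plain.toL

variable {N : Type u} [LSet.Structure N] [hZ : Helper672.Plain.Zermelo N]

local instance instModelRi : IsModel N := Helper672.Plain.isModel_toL

noncomputable local instance instPElRi (x : N) : ITy N (Helper672.Plain.El x) :=
  (inferInstance : ITy N (El x))

variable {α : Type u} [ITy N α]

theorem isDenum_of {p : α → Prop} (hp : Int N p) {ψ : α → INat N} (hψ : IntF N ψ)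
    (h1 : ∀ a b, p a → p b → ψ a = ψ b → a = b) (h2 : ∀ n, ∃ a, p a ∧ ψ a = n) :
    IsDenum (code (M := N) (sep N p)) := by
  have hI : Int N (fun q : α × INat N => p q.1 ∧ ψ q.1 = q.2) :=
    Int.and (hp.comp IntF.fst') (Int.eq (hψ.comp IntF.fst') IntF.snd')
  refine ⟨dom N (INat N), relc N (fun (a : α) (k : INat N) => p a ∧ ψ a = k), isOmega_dom,
    ⟨⟨fun q hq => ?_, fun x hx => ?_⟩, fun x x' y h5 h6 => ?_⟩, fun y hy => ?_⟩
  · obtain ⟨a, k, ⟨h5, rfl⟩, rfl⟩ := (mem_relc hI).1 hq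
    exact ⟨code a, code (ψ a), mem_codeB.2 ⟨a, (mem_sep hp).2 h5, rfl⟩, code_mem_domP _,
      ordPair_iff.2 rfl⟩
  · obtain ⟨a, h5, rfl⟩ := mem_codeB.1 hx
    refine ⟨code (ψ a), (app_relc' hI).2 ⟨(mem_sep hp).1 h5, rfl⟩, fun y hy => ?_⟩
    obtain ⟨b, k, ⟨h6, rfl⟩, h7, rfl⟩ := (app_relc hI).1 hy
    rw [ITy.inj h7]
  · obtain ⟨a, k, ⟨h7, rfl⟩, rfl, rfl⟩ := (app_relc hI).1 h5
    obtain ⟨b, k', ⟨h8, rfl⟩, rfl, h9⟩ := (app_relc hI).1 h6
    rw [h1 a b h7 h8 (ITy.inj h9)]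
  · obtain ⟨n, rfl⟩ := mem_domP.1 hy
    obtain ⟨a, h5, rfl⟩ := h2 n
    exact ⟨code a, (app_relc' hI).2 ⟨h5, rfl⟩⟩

theorem not_cmcw {lv F : α → INat N} (hlv : IntF N lv) (hF : IntF N F)
    (hc : ∀ n, Ctb N (fun x => lv x = n))
    (hinf : ∀ n, ¬ FinP N (fun x => F x ≠ 0 ∧ lv x = n))
    (hno : ∀ Z : IPow N α, (∀ x, x ∈ Z → F x ≠ 0) → (∀ n, ∃ x, x ∈ Z ∧ lv x = n) →
      (∀ n, FinP N (fun x => x ∈ Z ∧ lv x = n)) → False) : ¬ CMCw N := by
  intro hcm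
  have hI : Int N (fun q : INat N × α => F q.2 ≠ 0 ∧ lv q.2 = q.1) :=
    Int.and (Int.not (Int.eq (hF.comp IntF.snd') (IntF.const _)))
      (Int.eq (hlv.comp IntF.snd') IntF.fst')
  have hI1 : ∀ n, Int N (fun x : α => F x ≠ 0 ∧ lv x = n) := fun n =>
    Int.and (Int.not (Int.eq hF (IntF.const _))) (Int.eq hlv (IntF.const _))
  obtain ⟨B, hBI, hB, hBd⟩ : ∃ B : INat N → IPow N α, IntF N B ∧
      (∀ n x, x ∈ B n ↔ F x ≠ 0 ∧ lv x = n) ∧
        ∀ n, B n = sep N fun x => F x ≠ 0 ∧ lv x = n :=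
    ⟨fun n => sep N fun x : α => F x ≠ 0 ∧ lv x = n, IntF.sep hI, fun n x => mem_sep (hI1 n),
      fun n => rfl⟩
  have hne : ∀ n, ∃ x, x ∈ B n := by
    intro n
    by_contra hcon
    push Not at hcon
    exact hinf n ⟨∅, IFin.empty, fun a ha => absurd ((hB n a).2 ha) (hcon a)⟩
  have hBinj : ∀ m n, B m = B n → m = n := by
    intro m n hmn
    obtain ⟨x, hx⟩ := hne m
    have h1 := (hB m x).1 hx
    rw [hmn, hB] at hx
    exact h1.2.symm.trans hx.2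
  have hFam : Int N (fun S : IPow N α => ∃ n, B n = S) :=
    Int.ex (Int.eq (hBI.comp IntF.snd') IntF.fst')
  have hr : Int N (fun q : IPow N α × INat N => B q.2 = q.1) :=
    Int.eq (hBI.comp IntF.snd') IntF.fst'
  have hthe : ∀ n, the (fun m : INat N => B m = B n) 0 = n := fun n =>
    the_eq (p := fun m : INat N => B m = B n) (d := 0) ⟨n, rfl, fun m hm => hBinj m n hm⟩ rfl
  have hden : IsDenum (code (M := N) (sep N fun S : IPow N α => ∃ n, B n = S)) := by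
    refine isDenum_of hFam (ψ := fun S => the (fun m : INat N => B m = S) 0)
      (IntF.the hr (IntF.const _)) ?_ ?_
    · rintro _ _ ⟨m, rfl⟩ ⟨n, rfl⟩ hmn
      simp only [hthe] at hmn
      rw [hmn]
    · exact fun n => ⟨B n, ⟨n, rfl⟩, hthe n⟩
  obtain ⟨s, c, h1, h2⟩ := hcm _ hden (fun x hx => by
    obtain ⟨S, hS, rfl⟩ := mem_codeB.1 hx
    obtain ⟨n, rfl⟩ := (mem_sep hFam).1 hS
    obtain ⟨ψ, h3, h4, h5⟩ := exists_bij (hI1 n) ((hc n).mono fun x hx => hx.2) (hinf n)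
    rw [hBd n]
    exact isDenum_of (hI1 n) h3 h4 h5)
  have hZ : Int N (fun x : α => ∃ u, App c (code (B (lv x))) u ∧ Mem (code x) u) :=
    Int.comp (f := fun x : α => (B (lv x), x)) (int_appm (α := IPow N α) (β := α) c)
      (IntF.pair (hBI.comp hlv) IntF.id)
  have hmem : ∀ n, Mem (code (B n)) (code (M := N) (sep N fun S : IPow N α => ∃ n, B n = S)) :=
    fun n => mem_codeB'.2 ((mem_sep hFam).2 ⟨n, rfl⟩)
  have key : ∀ n u, App c (code (B n)) u → ∀ x, Mem (code x) u → x ∈ B n := fun n u hu x hx =>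
    mem_codeB'.1 ((h2 _ _ hu).2.2 _ hx)
  refine hno (sep N fun x : α => ∃ u, App c (code (B (lv x))) u ∧ Mem (code x) u)
    (fun x hx => ?_) (fun n => ?_) fun n => ?_
  · obtain ⟨u, h3, h4⟩ := (mem_sep hZ).1 hx
    exact ((hB _ _).1 (key _ _ h3 _ h4)).1
  · obtain ⟨u, hu, -⟩ := h1.2 _ (hmem n)
    obtain ⟨-, ⟨z, hz⟩, h3⟩ := h2 _ _ hu
    obtain ⟨x, hx, rfl⟩ := mem_codeB.1 (h3 z hz)
    have h4 := ((hB _ _).1 hx).2
    subst h4
    exact ⟨x, (mem_sep hZ).2 ⟨u, hu, hz⟩, rfl⟩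
  · obtain ⟨u, hu, huu⟩ := h1.2 _ (hmem n)
    obtain ⟨h3, -, h4⟩ := h2 _ _ hu
    have hI2 : Int N (fun x : α => x ∈ (sep N fun x : α => ∃ u, App c (code (B (lv x))) u ∧
        Mem (code x) u) ∧ lv x = n) :=
      Int.and (Int.mem IntF.id (IntF.const _)) (Int.eq hlv (IntF.const _))
    refine finP_of_finite hI2 (t := u) (fun z => ?_) h3
    constructor
    · intro hz
      obtain ⟨x, hx, rfl⟩ := mem_codeB.1 (h4 z hz)
      have h5 := ((hB _ _).1 hx).2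
      subst h5
      exact ⟨x, ⟨(mem_sep hZ).2 ⟨u, hu, hz⟩, rfl⟩, rfl⟩
    · rintro ⟨x, ⟨hx, hxn⟩, rfl⟩
      obtain ⟨v, h5, h6⟩ := (mem_sep hZ).1 hx
      rw [hxn] at h5
      rwa [huu v h5] at h6

end

end Pool.Agent.Helper672.ZFA.V246R
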