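import Pool.Agent.V11246.Rf
import Pool.Agent.V11246.Rd
import Pool.Agent.V11246.Ri
import Pool.Agent.V11246.Rb
import Pool.Agent.V11246.Kw

/-!
# The model
-/

set_option maxHeartbeats 1000000
set_option linter.all false
set_option synthInstance.maxSize 2000

namespace Pool.Agent.Helper672.ZFA.V246K

open FirstOrder FirstOrder.Language
open Pool.Agent.Helper672.ZFA.H635 (IPerm SymSys IWO IsGen NN EqFam nm nmN CollL od Od)
open Pool.Agent.Helper672.ZFA.V246 (Ctb exists_lf)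
open Pool.Agent.H310

universe u

variable {M : Type u} [L.Structure M] [hM : IsModel M]
variable {Ω : Type u} [ITy M Ω] {V : Type u} [ITy M V] {hs : Std M}
variable {G : Set (Pk M (Yt M) Ω V)} (hG : IsGen M G)

variable {cg : Yt M → NN (Sk Ω V (Kt hs)) hG} {A : NN (Sk Ω V (Kt hs)) hG}
  {lv : El A → INat (NN (Sk Ω V (Kt hs)) hG)}
  (hcg : EqFam hG (fun (π : Ga Ω (Kt hs)) y => (cm π).1.1 y) cg)
  (hinj : ∀ y y', cg y = cg y' → y = y') (hA : ∀ w, Plain.Mem w A ↔ ∃ y, w = cg y)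

include hcg hinj hA in
/-- The levels are infinite. -/
theorem inf_lev (hC : CollL M) (hAC : AC M) (hΩ : ¬ Ctb M (fun _ : Ω => True))
    (hlv : ∀ y (hy : Plain.Mem (cg y) A), lv ⟨cg y, hy⟩ = nmN (Sk Ω V (Kt hs)) hG hC y.1)
    {F : El A → INat (NN (Sk Ω V (Kt hs)) hG)}
    (hF : ∀ y (hy : Plain.Mem (cg y) A), F ⟨cg y, hy⟩ ≠ 0 ↔ ∃ x, x ∈ y.2.1)
    (n : INat (NN (Sk Ω V (Kt hs)) hG)) :
    ¬ FinP (NN (Sk Ω V (Kt hs)) hG) (fun x => F x ≠ 0 ∧ lv x = n) := by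
  intro h3
  have hω : Nonempty Ω := by
    by_contra h
    exact hΩ ⟨fun _ => 0, IntF.const _, fun a _ _ _ _ => absurd ⟨a⟩ h⟩
  obtain ⟨ω⟩ := hω
  obtain ⟨k, rfl⟩ := H635.nmN_surj hG hC n
  have hin : ∀ y, Plain.Mem (cg y) A := fun y => (hA _).2 ⟨y, rfl⟩
  obtain ⟨e, he, h7⟩ := ctb_Ve hAC
  obtain ⟨g, hg, hg'⟩ := exists_fn hG hC ω hcg hinj hA (φ := fun y : Yt M => e y.2)
    (he.comp IntF.snd') (D' := fun y => y.1 = k) (Int.eq IntF.fst' (IntF.const _)) k.succ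
    (fun c hc y hy => by
      have h2 : c.1.1 y = y := (Kt hs).fix _ c hc y (by
        change y.1 < k.succ
        rw [hy]
        exact INat.lt_succ_self _)
      rw [h2]
      exact ⟨hy, rfl⟩)
  obtain ⟨b, hb⟩ := h3.bound' hg
  obtain ⟨b, rfl⟩ := H635.nmN_surj hG hC b
  have h8 : ∀ i : INat M, e ⟨{i}, IFin.singleton i⟩ < b.succ := by
    intro i
    have h9 := hb ⟨cg (k, ⟨{i}, IFin.singleton i⟩), hin _⟩
      ⟨(hF _ _).2 ⟨i, mem_singleton.2 rfl⟩, hlv _ _⟩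
    rw [hg' _ _ rfl] at h9
    refine lt_of_not_ge fun h10 => ?_
    have h10' : b < e ⟨{i}, IFin.singleton i⟩ := INat.succ_le_iff.1 h10
    have h11 := (H635.nmN_lt (S := Sk Ω V (Kt hs)) hG hC).2 h10'
    exact absurd h9 (not_le.2 h11)
  have hI : IntF M (fun i : INat M => (⟨{i}, IFin.singleton i⟩ : Ve M)) :=
    IntF.mk (IntF.singleton IntF.id)
  refine not_finP_nat (M := M) (FinP.of_inj (Int.const True) (he.comp hI) (fun i j _ _ hij => ?_)
    (finP_lt b.succ) fun i _ => h8 i)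
  have h11 := congrArg Subtype.val (h7 _ _ trivial trivial hij)
  have h12 : i ∈ ({i} : IPow M (INat M)) := mem_singleton.2 rfl
  have h13 : ({i} : IPow M (INat M)) = {j} := h11
  rw [h13] at h12
  exact mem_singleton.1 h12

end Pool.Agent.Helper672.ZFA.V246K

namespace Pool.Agent.Helper672.ZFA.V246X

open FirstOrder FirstOrder.Language
open Pool.Agent.Helper672.ZFA
open Pool.Agent.Helper672.Plain (LSet)
open Pool.Agent.Helper672.ZFA.H635 (IPerm SymSys IWO IsGen NN EqFam nm nmN CollL od Od toL nn_zf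
  isModel_of_zermelo coll_of_zf exists_countable_sub)
open Pool.Agent.H310Cards
open Pool.Agent.H310
open Pool.Agent.H310NAS (WO)
open Pool.Agent.H635Amen (ZF)
open Pool.Agent.V11246
open Pool.Agent.Helper672.ZFA.V246 (Ctb)
open Pool.Agent.Helper672.ZFA.V246K hiding AC
open Pool.Agent.Helper672.ZFA.V246P (ctb_of_cpms not_caccm not_cpmc)
open Pool.Agent.Helper672.ZFA.V246R

universe u

/-- The principles. -/
def PrR (N : Type u) [LSet.Structure N] : Prop :=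
  IDI N ∧ WOACfin N ∧ MCR N ∧ ¬ CACCM N ∧ ¬ CPMC N ∧ ¬ CMCw N

theorem exists_r' (M : Type u) [L.Structure M] [IsModel M] [Countable M] (hC : CollL M)
    (hA : V246K.AC M) (hs : Std M) :
    ∃ (N : Type u) (_ : LSet.Structure N), ZF N ∧ PrR N := by
  obtain ⟨Ω, _, ltO, hO, hΩ, hcnt⟩ := exists_om hA
  have hω : Nonempty Ω := by
    by_contra h
    exact hΩ ⟨fun _ => 0, IntF.const _, fun a _ _ _ _ => absurd ⟨a⟩ h⟩
  obtain ⟨ω⟩ := hω
  have p₀ : Pk M (Yt M) Ω (IPow M (INat M)) :=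
    ⟨∅, fun i d v v' h => absurd h (by simp), Cb.empty⟩
  obtain ⟨G, hG⟩ := H635.exists_gen (M := M) p₀
  have hzf : ZF (NN (Sk Ω (IPow M (INat M)) (Kt hs)) hG) := nn_zf hG hC
  have hz : Helper672.Plain.Zermelo (NN (Sk Ω (IPow M (INat M)) (Kt hs)) hG) :=
    hzf.toZermelo
  obtain ⟨cg, A, lv, h0, h1, h2, h3, h4, h5, h6⟩ := exists_cols (hs := hs) hG hC hA hΩ
    (pow_ne (M := M))
  have hno := no_tournaments hG h0 h1 h2 hC hΩ h4
  obtain ⟨F, hF, h7⟩ := exists_nz hG h0 h1 h2 hC hΩ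
  have hT : TBW (NN (Sk Ω (IPow M (INat M)) (Kt hs)) hG) := tbw_NN hC hA hΩ (star_Kt hs)
  refine ⟨NN (Sk Ω (IPow M (INat M)) (Kt hs)) hG, inferInstance, hzf,
    idi_of_tbw (hZ := hz) hT,
    woacfin_of (hZ := hz) fun hU hX _ hlt hfin hne => wofin hC hA hΩ (star_Kt hs) hU hX hlt hfin hne,
    mcr_of (hZ := hz) hT (real_inj hG hO hC hA hΩ ((0, ⟨∅, IFin.empty⟩) : Yt M))
      (fun hlt hn => inj_of_not_ctb hG hO hC hcnt ω hlt hn),
    not_caccm (hZ := hz) h3 h5 hno,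
    not_cpmc (hZ := hz) h3 h5 (exists_two hG h1 h2 hC h4) hno,
    not_cmcw (hZ := hz) h3 hF h5 (inf_lev hG h0 h1 h2 hC hA hΩ h4 h7)
      (fun Z e1 e2 e3 => no_mc hG h0 h1 h2 hC hA hΩ h4 h7 Z e1 e2 e3)⟩

section

attribute [local instance] toL

theorem exists_r_c (M : Type u) [LSet.Structure M] [Countable M] (h : ZF M) (hW : WO M)
    (hw : WellFounded (fun x y : M => Helper672.Plain.Mem x y)) :
    ∃ (N : Type u) (_ : LSet.Structure N), ZF N ∧ PrR N := by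
  have hM : IsModel M := isModel_of_zermelo h.toZermelo
  exact exists_r' M (coll_of_zf h) (ac_of (H310.NA.iwo_of hW)) (std_of hw)

end

/-- There is a model. -/
theorem exists_r : ∃ (N : Type 1) (_ : LSet.Structure N), ZF N ∧ PrR N := by
  obtain ⟨M, hL, h1, h2, h3, h4⟩ := exists_ground
  exact exists_r_c M h2 h3 h4

end Pool.Agent.Helper672.ZFA.V246X
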