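import Pool.Agent.V11246.RowT
import Pool.Agent.V11246.Spc

/-!
# A compact Hausdorff space with a cuf base that is not weakly Loeb
-/

set_option maxHeartbeats 1000000
set_option linter.all false
set_option synthInstance.maxSize 2000

namespace Pool.Agent.Helper672.ZFA.V246G

open FirstOrder FirstOrder.Language
open Pool.Agent.Helper672.ZFA
open Pool.Agent.Helper672.ZFA.V246
open Pool.Agent.H310
open Pool.Agent.H310Cards
open Pool.Agent.Helper672.Plain (LSet)
open Pool.Agent.H310Top
open Pool.Agent.H635Amen (ZF)
open Pool.Agent.Helper672.ZFA.H635 (CollL isModel_of_zermelo coll_of_zf exists_countable_sub toL nn_zf)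
open Pool.Agent.Helper672.ZFA.H310M (Co)

universe u

section int

variable {M : Type u} [L.Structure M] [hM : IsModel M] {A : Type u} [ITy M A]
  {bl rk : A → INat M} (hB : RB M bl rk)

include hB

theorem fin_am (m : INat M) : FinP M (fun a : A => bl a < m ∧ rk a < m) := by
  have h1 := hB.ibl
  have h2 := hB.irk
  have hI : Int M (fun i : INat M => i < m) := by (repeat' (first | with_reducible exact IntF.id | with_reducible exact IntF.fst' | with_reducible exact IntF.snd' | with_reducible exact IntF.const _ | with_reducible exact Int.const _ | assumption | with_reducible apply Int.and | with_reducible apply Int.or | with_reducible apply Int.not | with_reducible apply Int.imp | with_reducible apply Int.iff | with_reducible apply Int.ne | with_reducible apply Int.eq | with_reducible apply Int.mem | with_reducible apply Int.subset | with_reducible apply Int.ltN | with_reducible apply Int.leN | with_reducible_and_instances apply Int.le | with_reducible_and_instances apply Int.lt | with_reducible apply Int.all | with_reducible apply Int.ex | with_reducible apply IntF.fst | with_reducible apply IntF.snd | with_reducible apply IntF.app | with_reducible apply IntF.inl | with_reducible apply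 IntF.inr | with_reducible_and_instances apply IntF.mul | with_reducible_and_instances apply IntF.inv | with_reducible_and_instances apply IntF.add | with_reducible_and_instances apply IntF.sub | with_reducible_and_instances apply IntF.neg | with_reducible_and_instances apply IntF.smul | with_reducible apply Int.fin | with_reducible apply IntF.sep | with_reducible apply IntF.lam | with_reducible apply IntF.insert | with_reducible apply IntF.singleton | with_reducible apply IntF.union | with_reducible apply IntF.iimage | with_reducible apply IntF.ite | with_reducible apply IntF.the | with_reducible apply IntF.irec | with_reducible apply IntF.succ | with_reducible apply IntF.val | with_reducible apply IntF.mk | (with_reducible refine Int.comp ?_ ?_; assumption) | (with_reducible refine Int.comp₂ ?_ ?_ ?_; assumption) | (with_reducible refine Int.comp₃ ?_ ?_ ?_ ?_; assumption) | (with_reducible refine Int.comp₄ ?_ ?_ ?_ ?_ ?_; assumption) | (with_reducible refine IntF.comp ?_ ?_; assumption) | (with_reducible refine IntF.comp₂ ?_ ?_ ?_; assumption) | (with_reducible refine IntF.comp₃ ?_ ?_ ?_ ?_; assumption) | with_reducible apply IntF.pair))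
  refine FinP.of_fibres (f := bl) (by (repeat' (first | with_reducible exact IntF.id | with_reducible exact IntF.fst' | with_reducible exact IntF.snd' | with_reducible exact IntF.const _ | with_reducible exact Int.const _ | assumption | with_reducible apply Int.and | with_reducible apply Int.or | with_reducible apply Int.not | with_reducible apply Int.imp | with_reducible apply Int.iff | with_reducible apply Int.ne | with_reducible apply Int.eq | with_reducible apply Int.mem | with_reducible apply Int.subset | with_reducible apply Int.ltN | with_reducible apply Int.leN | with_reducible_and_instances apply Int.le | with_reducible_and_instances apply Int.lt | with_reducible apply Int.all | with_reducible apply Int.ex | with_reducible apply IntF.fst | with_reducible apply IntF.snd | with_reducible apply IntF.app | with_reducible apply IntF.inl | with_reducible apply IntF.inr | with_reducible_and_instances apply IntF.mul | with_reducible_and_instances apply IntF.inv | with_reducible_and_instances apply IntF.add | with_reducible_and_instances apply IntF.sub | with_reducible_and_instances apply IntF.neg | with_reducible_and_instances apply IntF.smul | with_reducible apply Int.fin | with_reducible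 apply IntF.sep | with_reducible apply IntF.lam | with_reducible apply IntF.insert | with_reducible apply IntF.singleton | with_reducible apply IntF.union | with_reducible apply IntF.iimage | with_reducible apply IntF.ite | with_reducible apply IntF.the | with_reducible apply IntF.irec | with_reducible apply IntF.succ | with_reducible apply IntF.val | with_reducible apply IntF.mk | (with_reducible refine Int.comp ?_ ?_; assumption) | (with_reducible refine Int.comp₂ ?_ ?_ ?_; assumption) | (with_reducible refine Int.comp₃ ?_ ?_ ?_ ?_; assumption) | (with_reducible refine Int.comp₄ ?_ ?_ ?_ ?_ ?_; assumption) | (with_reducible refine IntF.comp ?_ ?_; assumption) | (with_reducible refine IntF.comp₂ ?_ ?_ ?_; assumption) | (with_reducible refine IntF.comp₃ ?_ ?_ ?_ ?_; assumption) | with_reducible apply IntF.pair))) h1 ((finP_lt m).mono ?_) fun n => ?_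
  · rintro b ⟨a, ha, rfl⟩
    exact ha.1
  · obtain ⟨e, he, h3, h4, h5⟩ := hB.en n
    have hJ : Int M (fun q : INat M × INat M => q.1 < m ∧ q.2 < m) := by (repeat' (first | with_reducible exact IntF.id | with_reducible exact IntF.fst' | with_reducible exact IntF.snd' | with_reducible exact IntF.const _ | with_reducible exact Int.const _ | assumption | with_reducible apply Int.and | with_reducible apply Int.or | with_reducible apply Int.not | with_reducible apply Int.imp | with_reducible apply Int.iff | with_reducible apply Int.ne | with_reducible apply Int.eq | with_reducible apply Int.mem | with_reducible apply Int.subset | with_reducible apply Int.ltN | with_reducible apply Int.leN | with_reducible_and_instances apply Int.le | with_reducible_and_instances apply Int.lt | with_reducible apply Int.all | with_reducible apply Int.ex | with_reducible apply IntF.fst | with_reducible apply IntF.snd | with_reducible apply IntF.app | with_reducible apply IntF.inl | with_reducible apply IntF.inr | with_reducible_and_instances apply IntF.mul | with_reducible_and_instances apply IntF.inv | with_reducible_and_instances apply IntF.add | with_reducible_and_instances apply IntF.sub | with_reducible_and_instances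 apply IntF.neg | with_reducible_and_instances apply IntF.smul | with_reducible apply Int.fin | with_reducible apply IntF.sep | with_reducible apply IntF.lam | with_reducible apply IntF.insert | with_reducible apply IntF.singleton | with_reducible apply IntF.union | with_reducible apply IntF.iimage | with_reducible apply IntF.ite | with_reducible apply IntF.the | with_reducible apply IntF.irec | with_reducible apply IntF.succ | with_reducible apply IntF.val | with_reducible apply IntF.mk | (with_reducible refine Int.comp ?_ ?_; assumption) | (with_reducible refine Int.comp₂ ?_ ?_ ?_; assumption) | (with_reducible refine Int.comp₃ ?_ ?_ ?_ ?_; assumption) | (with_reducible refine Int.comp₄ ?_ ?_ ?_ ?_ ?_; assumption) | (with_reducible refine IntF.comp ?_ ?_; assumption) | (with_reducible refine IntF.comp₂ ?_ ?_ ?_; assumption) | (with_reducible refine IntF.comp₃ ?_ ?_ ?_ ?_; assumption) | with_reducible apply IntF.pair))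
    have h6 : FinP M (fun q : INat M × INat M => q.1 < m ∧ q.2 < m) := by
      refine ⟨iprod (sep M fun i => i < m) (sep M fun i => i < m),
        ((finP_lt m).fin hI).prod ((finP_lt m).fin hI), fun q hq => ?_⟩
      exact mem_iprod.2 ⟨(mem_sep hI).2 hq.1, (mem_sep hI).2 hq.2⟩
    refine FinP.of_inj (p := fun a => (bl a < m ∧ rk a < m) ∧ bl a = n) (f := fun a => (rk a, e a))
      (by (repeat' (first | with_reducible exact IntF.id | with_reducible exact IntF.fst' | with_reducible exact IntF.snd' | with_reducible exact IntF.const _ | with_reducible exact Int.const _ | assumption | with_reducible apply Int.and | with_reducible apply Int.or | with_reducible apply Int.not | with_reducible apply Int.imp | with_reducible apply Int.iff | with_reducible apply Int.ne | with_reducible apply Int.eq | with_reducible apply Int.mem | with_reducible apply Int.subset | with_reducible apply Int.ltN | with_reducible apply Int.leN | with_reducible_and_instances apply Int.le | with_reducible_and_instances apply Int.lt | with_reducible apply Int.all | with_reducible apply Int.ex | with_reducible apply IntF.fst | with_reducible apply IntF.snd | with_reducible apply IntF.app | with_reducible apply IntF.inl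 | with_reducible apply IntF.inr | with_reducible_and_instances apply IntF.mul | with_reducible_and_instances apply IntF.inv | with_reducible_and_instances apply IntF.add | with_reducible_and_instances apply IntF.sub | with_reducible_and_instances apply IntF.neg | with_reducible_and_instances apply IntF.smul | with_reducible apply Int.fin | with_reducible apply IntF.sep | with_reducible apply IntF.lam | with_reducible apply IntF.insert | with_reducible apply IntF.singleton | with_reducible apply IntF.union | with_reducible apply IntF.iimage | with_reducible apply IntF.ite | with_reducible apply IntF.the | with_reducible apply IntF.irec | with_reducible apply IntF.succ | with_reducible apply IntF.val | with_reducible apply IntF.mk | (with_reducible refine Int.comp ?_ ?_; assumption) | (with_reducible refine Int.comp₂ ?_ ?_ ?_; assumption) | (with_reducible refine Int.comp₃ ?_ ?_ ?_ ?_; assumption) | (with_reducible refine Int.comp₄ ?_ ?_ ?_ ?_ ?_; assumption) | (with_reducible refine IntF.comp ?_ ?_; assumption) | (with_reducible refine IntF.comp₂ ?_ ?_ ?_; assumption) | (with_reducible refine IntF.comp₃ ?_ ?_ ?_ ?_; assumption) | with_reducible apply IntF.pair))) (by (repeat' (first | with_reducible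 exact IntF.id | with_reducible exact IntF.fst' | with_reducible exact IntF.snd' | with_reducible exact IntF.const _ | with_reducible exact Int.const _ | assumption | with_reducible apply Int.and | with_reducible apply Int.or | with_reducible apply Int.not | with_reducible apply Int.imp | with_reducible apply Int.iff | with_reducible apply Int.ne | with_reducible apply Int.eq | with_reducible apply Int.mem | with_reducible apply Int.subset | with_reducible apply Int.ltN | with_reducible apply Int.leN | with_reducible_and_instances apply Int.le | with_reducible_and_instances apply Int.lt | with_reducible apply Int.all | with_reducible apply Int.ex | with_reducible apply IntF.fst | with_reducible apply IntF.snd | with_reducible apply IntF.app | with_reducible apply IntF.inl | with_reducible apply IntF.inr | with_reducible_and_instances apply IntF.mul | with_reducible_and_instances apply IntF.inv | with_reducible_and_instances apply IntF.add | with_reducible_and_instances apply IntF.sub | with_reducible_and_instances apply IntF.neg | with_reducible_and_instances apply IntF.smul | with_reducible apply Int.fin | with_reducible apply IntF.sep | with_reducible apply IntF.lam | with_reducible apply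 IntF.insert | with_reducible apply IntF.singleton | with_reducible apply IntF.union | with_reducible apply IntF.iimage | with_reducible apply IntF.ite | with_reducible apply IntF.the | with_reducible apply IntF.irec | with_reducible apply IntF.succ | with_reducible apply IntF.val | with_reducible apply IntF.mk | (with_reducible refine Int.comp ?_ ?_; assumption) | (with_reducible refine Int.comp₂ ?_ ?_ ?_; assumption) | (with_reducible refine Int.comp₃ ?_ ?_ ?_ ?_; assumption) | (with_reducible refine Int.comp₄ ?_ ?_ ?_ ?_ ?_; assumption) | (with_reducible refine IntF.comp ?_ ?_; assumption) | (with_reducible refine IntF.comp₂ ?_ ?_ ?_; assumption) | (with_reducible refine IntF.comp₃ ?_ ?_ ?_ ?_; assumption) | with_reducible apply IntF.pair))) ?_ h6 ?_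
    · rintro a a' ⟨-, h7⟩ ⟨-, h8⟩ h9
      exact h4 a a' h7 h8 (congrArg Prod.fst h9) (congrArg Prod.snd h9)
    · rintro a ⟨⟨-, h7⟩, h8⟩
      exact ⟨h7, (h3 a h8).trans_lt h7⟩

theorem closed_sl (n : INat M) {s : IPow M A} (hs : Pts bl rk s) (hn : ¬ Sl bl rk n s) :
    ∃ F, IFin F ∧ ∀ y, Pts bl rk y → Ag F s y → ¬ Sl bl rk n y := by
  by_cases h : ∃ a, a ∈ s
  · obtain ⟨a, ha⟩ := h
    have h1 := hs.sl ha
    refine ⟨{a}, IFin.singleton a, fun y hy hag hyn => hn ?_⟩
    have h2 : a ∈ y := (hag a (mem_singleton.2 rfl)).1 ha
    rw [hyn.1 a h2] at h1
    exact h1
  · obtain ⟨e, he, h3, h4, h5⟩ := hB.en n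
    obtain ⟨b, h6, h7, h8⟩ := h5 0 0 le_rfl
    refine ⟨{b}, IFin.singleton b, fun y hy hag hyn => ?_⟩
    obtain ⟨a, ha, ha', -⟩ := hyn.2 0
    have h9 := hyn.1 a ha
    have h10 : a = b := h4 a b h9 h6 (ha'.trans h7.symm)
      ((le_antisymm ((h3 a h9).trans (le_of_eq ha')) (INat.zero_le _)).trans h8.symm)
    rw [h10] at ha
    exact h ⟨b, (hag b (mem_singleton.2 rfl)).2 ha⟩

end int

section

attribute [local instance] Helper672.Plain.toL

variable {N : Type u} [LSet.Structure N] [hZ : Helper672.Plain.Zermelo N]

local instance instModelRw : IsModel N := Helper672.Plain.isModel_toL

noncomputable local instance instPElRw (x : N) : ITy N (Helper672.Plain.El x) :=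
  (inferInstance : ITy N (El x))

variable {a : N} {bl rk : Plain.El a → INat N} (hB : RB N bl rk)

include hB

theorem spO : SpO N (Pts bl rk) (OpR bl rk) where
  iP := int_Pts hB.ibl hB.irk
  iO := int_OpR hB.ibl hB.irk
  sub U hU := hU.1
  univ U hU := ⟨fun s hs => (hU s).1 hs, fun s hs => ⟨∅, IFin.empty, fun y hy _ => (hU y).2 hy⟩⟩
  inter U V W hU hV hW := by
    refine ⟨fun s hs => hU.1 s ((hW s).1 hs).1, fun s hs => ?_⟩
    obtain ⟨F, h1, h2⟩ := hU.2 s ((hW s).1 hs).1
    obtain ⟨F', h1', h2'⟩ := hV.2 s ((hW s).1 hs).2
    exact ⟨F ∪ F', h1.union h1', fun y hy hag => (hW y).2
      ⟨h2 y hy (hag.mono fun j hj => mem_union.2 (Or.inl hj)),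
        h2' y hy (hag.mono fun j hj => mem_union.2 (Or.inr hj))⟩⟩
  union c W hc hW := by
    refine ⟨fun s hs => ?_, fun s hs => ?_⟩
    · obtain ⟨U, h1, h2⟩ := (hW s).1 hs
      exact (hc U h1).1 s h2
    · obtain ⟨U, h1, h2⟩ := (hW s).1 hs
      obtain ⟨F, h3, h4⟩ := (hc U h1).2 s h2
      exact ⟨F, h3, fun y hy hag => (hW y).2 ⟨U, h1, h4 y hy hag⟩⟩

theorem opR_cyl (F s : IPow N (Plain.El a)) (hF : IFin F) :
    OpR bl rk (sep N fun t => Pts bl rk t ∧ Ag F s t) := by
  have hP := int_Pts hB.ibl hB.irk
  have hAg := int_Ag (M := N) (J := Plain.El a)
  have hI : Int N (fun t : IPow N (Plain.El a) => Pts bl rk t ∧ Ag F s t) :=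
    Int.and hP (Int.comp (p := fun q : (IPow N (Plain.El a) × IPow N (Plain.El a)) ×
      IPow N (Plain.El a) => Ag q.1.1 q.1.2 q.2) (f := fun t => ((F, s), t)) hAg (by (repeat' (first | with_reducible exact IntF.id | with_reducible exact IntF.fst' | with_reducible exact IntF.snd' | with_reducible exact IntF.const _ | with_reducible exact Int.const _ | assumption | with_reducible apply Int.and | with_reducible apply Int.or | with_reducible apply Int.not | with_reducible apply Int.imp | with_reducible apply Int.iff | with_reducible apply Int.ne | with_reducible apply Int.eq | with_reducible apply Int.mem | with_reducible apply Int.subset | with_reducible apply Int.ltN | with_reducible apply Int.leN | with_reducible_and_instances apply Int.le | with_reducible_and_instances apply Int.lt | with_reducible apply Int.all | with_reducible apply Int.ex | with_reducible apply IntF.fst | with_reducible apply IntF.snd | with_reducible apply IntF.app | with_reducible apply IntF.inl | with_reducible apply IntF.inr | with_reducible_and_instances apply IntF.mul | with_reducible_and_instances apply IntF.inv | with_reducible_and_instances apply IntF.add | with_reducible_and_instances apply IntF.sub | with_reducible_and_instances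 apply IntF.neg | with_reducible_and_instances apply IntF.smul | with_reducible apply Int.fin | with_reducible apply IntF.sep | with_reducible apply IntF.lam | with_reducible apply IntF.insert | with_reducible apply IntF.singleton | with_reducible apply IntF.union | with_reducible apply IntF.iimage | with_reducible apply IntF.ite | with_reducible apply IntF.the | with_reducible apply IntF.irec | with_reducible apply IntF.succ | with_reducible apply IntF.val | with_reducible apply IntF.mk | (with_reducible refine Int.comp ?_ ?_; assumption) | (with_reducible refine Int.comp₂ ?_ ?_ ?_; assumption) | (with_reducible refine Int.comp₃ ?_ ?_ ?_ ?_; assumption) | (with_reducible refine Int.comp₄ ?_ ?_ ?_ ?_ ?_; assumption) | (with_reducible refine IntF.comp ?_ ?_; assumption) | (with_reducible refine IntF.comp₂ ?_ ?_ ?_; assumption) | (with_reducible refine IntF.comp₃ ?_ ?_ ?_ ?_; assumption) | with_reducible apply IntF.pair))))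
  refine ⟨fun t ht => ((mem_sep hI).1 ht).1, fun t ht => ⟨F, hF, fun y hy hag => ?_⟩⟩
  exact (mem_sep hI).2 ⟨hy, ((mem_sep hI).1 ht).2.trans hag⟩

theorem mem_cyl {F s t : IPow N (Plain.El a)} :
    t ∈ (sep N fun t => Pts bl rk t ∧ Ag F s t) ↔ Pts bl rk t ∧ Ag F s t := by
  have hP := int_Pts hB.ibl hB.irk
  have hAg := int_Ag (M := N) (J := Plain.El a)
  have hI : Int N (fun t : IPow N (Plain.El a) => Pts bl rk t ∧ Ag F s t) :=
    Int.and hP (Int.comp (p := fun q : (IPow N (Plain.El a) × IPow N (Plain.El a)) ×
      IPow N (Plain.El a) => Ag q.1.1 q.1.2 q.2) (f := fun t => ((F, s), t)) hAg (by (repeat' (first | with_reducible exact IntF.id | with_reducible exact IntF.fst' | with_reducible exact IntF.snd' | with_reducible exact IntF.const _ | with_reducible exact Int.const _ | assumption | with_reducible apply Int.and | with_reducible apply Int.or | with_reducible apply Int.not | with_reducible apply Int.imp | with_reducible apply Int.iff | with_reducible apply Int.ne | with_reducible apply Int.eq | with_reducible apply Int.mem | with_reducible apply Int.subset | with_reducible apply Int.ltN | with_reducible apply Int.leN | with_reducible_and_instances apply Int.le | with_reducible_and_instances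 apply Int.lt | with_reducible apply Int.all | with_reducible apply Int.ex | with_reducible apply IntF.fst | with_reducible apply IntF.snd | with_reducible apply IntF.app | with_reducible apply IntF.inl | with_reducible apply IntF.inr | with_reducible_and_instances apply IntF.mul | with_reducible_and_instances apply IntF.inv | with_reducible_and_instances apply IntF.add | with_reducible_and_instances apply IntF.sub | with_reducible_and_instances apply IntF.neg | with_reducible_and_instances apply IntF.smul | with_reducible apply Int.fin | with_reducible apply IntF.sep | with_reducible apply IntF.lam | with_reducible apply IntF.insert | with_reducible apply IntF.singleton | with_reducible apply IntF.union | with_reducible apply IntF.iimage | with_reducible apply IntF.ite | with_reducible apply IntF.the | with_reducible apply IntF.irec | with_reducible apply IntF.succ | with_reducible apply IntF.val | with_reducible apply IntF.mk | (with_reducible refine Int.comp ?_ ?_; assumption) | (with_reducible refine Int.comp₂ ?_ ?_ ?_; assumption) | (with_reducible refine Int.comp₃ ?_ ?_ ?_ ?_; assumption) | (with_reducible refine Int.comp₄ ?_ ?_ ?_ ?_ ?_; assumption) | (with_reducible refine IntF.comp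 ?_ ?_; assumption) | (with_reducible refine IntF.comp₂ ?_ ?_ ?_; assumption) | (with_reducible refine IntF.comp₃ ?_ ?_ ?_ ?_; assumption) | with_reducible apply IntF.pair))))
  exact mem_sep hI

theorem space_row : ∃ x t : N, IsTopology t x ∧ IsCompact t x ∧ IsHausdorff t x ∧
    (∃ b, IsCuf b ∧ IsBase b t) ∧ ¬ IsWeaklyLoeb t x := by
  have hS := spO hB
  have hbl := hB.ibl
  have hrk := hB.irk
  have hP := int_Pts hbl hrk
  have hSl := int_Sl hbl hrk
  refine ⟨xs (Pts bl rk), ts (OpR bl rk), isTopology_ts hS, isCompact_ts hS
    (fun c h1 h2 => ?_), isHausdorff_ts hS (fun s s' h1 h2 h3 => ?_), ?_, fun hw => ?_⟩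
  · obtain ⟨c', h3, h4, h5⟩ := fc_all hbl hrk h1 h2 hB
    exact ⟨c', h3, h4, h5⟩
  · have hne : ∃ b, ¬ (b ∈ s ↔ b ∈ s') := by
      by_contra h
      push Not at h
      exact h3 (IPow.ext' h)
    obtain ⟨b, hb⟩ := hne
    refine ⟨_, _, opR_cyl hB {b} s (IFin.singleton b), opR_cyl hB {b} s' (IFin.singleton b),
      (mem_cyl hB).2 ⟨h1, Ag.refl _ _⟩, (mem_cyl hB).2 ⟨h2, Ag.refl _ _⟩, fun t ht ht' => hb ?_⟩
    exact (((mem_cyl hB).1 ht).2 b (mem_singleton.2 rfl)).trans
      (((mem_cyl hB).1 ht').2 b (mem_singleton.2 rfl)).symm
  · have hA : ∀ m, Int N (fun b : Plain.El a => bl b < m ∧ rk b < m) := fun m => by (repeat' (first | with_reducible exact IntF.id | with_reducible exact IntF.fst' | with_reducible exact IntF.snd' | with_reducible exact IntF.const _ | with_reducible exact Int.const _ | assumption | with_reducible apply Int.and | with_reducible apply Int.or | with_reducible apply Int.not | with_reducible apply Int.imp | with_reducible apply Int.iff | with_reducible apply Int.ne | with_reducible apply Int.eq | with_reducible apply Int.mem | with_reducible apply Int.subset | with_reducible apply Int.ltN | with_reducible apply Int.leN | with_reducible_and_instances apply Int.le | with_reducible_and_instances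 apply Int.lt | with_reducible apply Int.all | with_reducible apply Int.ex | with_reducible apply IntF.fst | with_reducible apply IntF.snd | with_reducible apply IntF.app | with_reducible apply IntF.inl | with_reducible apply IntF.inr | with_reducible_and_instances apply IntF.mul | with_reducible_and_instances apply IntF.inv | with_reducible_and_instances apply IntF.add | with_reducible_and_instances apply IntF.sub | with_reducible_and_instances apply IntF.neg | with_reducible_and_instances apply IntF.smul | with_reducible apply Int.fin | with_reducible apply IntF.sep | with_reducible apply IntF.lam | with_reducible apply IntF.insert | with_reducible apply IntF.singleton | with_reducible apply IntF.union | with_reducible apply IntF.iimage | with_reducible apply IntF.ite | with_reducible apply IntF.the | with_reducible apply IntF.irec | with_reducible apply IntF.succ | with_reducible apply IntF.val | with_reducible apply IntF.mk | (with_reducible refine Int.comp ?_ ?_; assumption) | (with_reducible refine Int.comp₂ ?_ ?_ ?_; assumption) | (with_reducible refine Int.comp₃ ?_ ?_ ?_ ?_; assumption) | (with_reducible refine Int.comp₄ ?_ ?_ ?_ ?_ ?_; assumption) | (with_reducible refine IntF.comp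 ?_ ?_; assumption) | (with_reducible refine IntF.comp₂ ?_ ?_ ?_; assumption) | (with_reducible refine IntF.comp₃ ?_ ?_ ?_ ?_; assumption) | with_reducible apply IntF.pair))
    have hV : Int N (fun q : (INat N × IPow N (Plain.El a)) × IPow N (Plain.El a) =>
        Pts bl rk q.2 ∧ ∀ b, bl b < q.1.1 → rk b < q.1.1 → (b ∈ q.2 ↔ b ∈ q.1.2)) := by (repeat' (first | with_reducible exact IntF.id | with_reducible exact IntF.fst' | with_reducible exact IntF.snd' | with_reducible exact IntF.const _ | with_reducible exact Int.const _ | assumption | with_reducible apply Int.and | with_reducible apply Int.or | with_reducible apply Int.not | with_reducible apply Int.imp | with_reducible apply Int.iff | with_reducible apply Int.ne | with_reducible apply Int.eq | with_reducible apply Int.mem | with_reducible apply Int.subset | with_reducible apply Int.ltN | with_reducible apply Int.leN | with_reducible_and_instances apply Int.le | with_reducible_and_instances apply Int.lt | with_reducible apply Int.all | with_reducible apply Int.ex | with_reducible apply IntF.fst | with_reducible apply IntF.snd | with_reducible apply IntF.app | with_reducible apply IntF.inl | with_reducible apply IntF.inr | with_reducible_and_instances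 apply IntF.mul | with_reducible_and_instances apply IntF.inv | with_reducible_and_instances apply IntF.add | with_reducible_and_instances apply IntF.sub | with_reducible_and_instances apply IntF.neg | with_reducible_and_instances apply IntF.smul | with_reducible apply Int.fin | with_reducible apply IntF.sep | with_reducible apply IntF.lam | with_reducible apply IntF.insert | with_reducible apply IntF.singleton | with_reducible apply IntF.union | with_reducible apply IntF.iimage | with_reducible apply IntF.ite | with_reducible apply IntF.the | with_reducible apply IntF.irec | with_reducible apply IntF.succ | with_reducible apply IntF.val | with_reducible apply IntF.mk | (with_reducible refine Int.comp ?_ ?_; assumption) | (with_reducible refine Int.comp₂ ?_ ?_ ?_; assumption) | (with_reducible refine Int.comp₃ ?_ ?_ ?_ ?_; assumption) | (with_reducible refine Int.comp₄ ?_ ?_ ?_ ?_ ?_; assumption) | (with_reducible refine IntF.comp ?_ ?_; assumption) | (with_reducible refine IntF.comp₂ ?_ ?_ ?_; assumption) | (with_reducible refine IntF.comp₃ ?_ ?_ ?_ ?_; assumption) | with_reducible apply IntF.pair))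
    have hVf : IntF N (fun q : INat N × IPow N (Plain.El a) => sep N fun t => Pts bl rk t ∧
        ∀ b, bl b < q.1 → rk b < q.1 → (b ∈ t ↔ b ∈ q.2)) := IntF.sep hV
    have hVm : ∀ m s t, t ∈ (sep N fun t => Pts bl rk t ∧
        ∀ b, bl b < m → rk b < m → (b ∈ t ↔ b ∈ s)) ↔ Pts bl rk t ∧
        ∀ b, bl b < m → rk b < m → (b ∈ t ↔ b ∈ s) := fun m s t => mem_sep (by (repeat' (first | with_reducible exact IntF.id | with_reducible exact IntF.fst' | with_reducible exact IntF.snd' | with_reducible exact IntF.const _ | with_reducible exact Int.const _ | assumption | with_reducible apply Int.and | with_reducible apply Int.or | with_reducible apply Int.not | with_reducible apply Int.imp | with_reducible apply Int.iff | with_reducible apply Int.ne | with_reducible apply Int.eq | with_reducible apply Int.mem | with_reducible apply Int.subset | with_reducible apply Int.ltN | with_reducible apply Int.leN | with_reducible_and_instances apply Int.le | with_reducible_and_instances apply Int.lt | with_reducible apply Int.all | with_reducible apply Int.ex | with_reducible apply IntF.fst | with_reducible apply IntF.snd | with_reducible apply IntF.app | with_reducible apply IntF.inl | with_reducible apply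 IntF.inr | with_reducible_and_instances apply IntF.mul | with_reducible_and_instances apply IntF.inv | with_reducible_and_instances apply IntF.add | with_reducible_and_instances apply IntF.sub | with_reducible_and_instances apply IntF.neg | with_reducible_and_instances apply IntF.smul | with_reducible apply Int.fin | with_reducible apply IntF.sep | with_reducible apply IntF.lam | with_reducible apply IntF.insert | with_reducible apply IntF.singleton | with_reducible apply IntF.union | with_reducible apply IntF.iimage | with_reducible apply IntF.ite | with_reducible apply IntF.the | with_reducible apply IntF.irec | with_reducible apply IntF.succ | with_reducible apply IntF.val | with_reducible apply IntF.mk | (with_reducible refine Int.comp ?_ ?_; assumption) | (with_reducible refine Int.comp₂ ?_ ?_ ?_; assumption) | (with_reducible refine Int.comp₃ ?_ ?_ ?_ ?_; assumption) | (with_reducible refine Int.comp₄ ?_ ?_ ?_ ?_ ?_; assumption) | (with_reducible refine IntF.comp ?_ ?_; assumption) | (with_reducible refine IntF.comp₂ ?_ ?_ ?_; assumption) | (with_reducible refine IntF.comp₃ ?_ ?_ ?_ ?_; assumption) | with_reducible apply IntF.pair)))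
    obtain ⟨V, hVi, hVs⟩ : ∃ V : INat N × IPow N (Plain.El a) → IPow N (IPow N (Plain.El a)),
        IntF N V ∧ ∀ m s t, t ∈ V (m, s) ↔ Pts bl rk t ∧
          ∀ b, bl b < m → rk b < m → (b ∈ t ↔ b ∈ s) := ⟨_, hVf, hVm⟩
    have hSn : IntF N (fun m : INat N => sep N fun U : IPow N (IPow N (Plain.El a)) =>
        ∃ s, U = V (m, s)) := by (repeat' (first | with_reducible exact IntF.id | with_reducible exact IntF.fst' | with_reducible exact IntF.snd' | with_reducible exact IntF.const _ | with_reducible exact Int.const _ | assumption | with_reducible apply Int.and | with_reducible apply Int.or | with_reducible apply Int.not | with_reducible apply Int.imp | with_reducible apply Int.iff | with_reducible apply Int.ne | with_reducible apply Int.eq | with_reducible apply Int.mem | with_reducible apply Int.subset | with_reducible apply Int.ltN | with_reducible apply Int.leN | with_reducible_and_instances apply Int.le | with_reducible_and_instances apply Int.lt | with_reducible apply Int.all | with_reducible apply Int.ex | with_reducible apply IntF.fst | with_reducible apply IntF.snd | with_reducible apply IntF.app | with_reducible apply IntF.inl | with_reducible apply IntF.inr | with_reducible_and_instances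 apply IntF.mul | with_reducible_and_instances apply IntF.inv | with_reducible_and_instances apply IntF.add | with_reducible_and_instances apply IntF.sub | with_reducible_and_instances apply IntF.neg | with_reducible_and_instances apply IntF.smul | with_reducible apply Int.fin | with_reducible apply IntF.sep | with_reducible apply IntF.lam | with_reducible apply IntF.insert | with_reducible apply IntF.singleton | with_reducible apply IntF.union | with_reducible apply IntF.iimage | with_reducible apply IntF.ite | with_reducible apply IntF.the | with_reducible apply IntF.irec | with_reducible apply IntF.succ | with_reducible apply IntF.val | with_reducible apply IntF.mk | (with_reducible refine Int.comp ?_ ?_; assumption) | (with_reducible refine Int.comp₂ ?_ ?_ ?_; assumption) | (with_reducible refine Int.comp₃ ?_ ?_ ?_ ?_; assumption) | (with_reducible refine Int.comp₄ ?_ ?_ ?_ ?_ ?_; assumption) | (with_reducible refine IntF.comp ?_ ?_; assumption) | (with_reducible refine IntF.comp₂ ?_ ?_ ?_; assumption) | (with_reducible refine IntF.comp₃ ?_ ?_ ?_ ?_; assumption) | with_reducible apply IntF.pair))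
    have hSm : ∀ m U, U ∈ (sep N fun U : IPow N (IPow N (Plain.El a)) => ∃ s, U = V (m, s)) ↔
        ∃ s, U = V (m, s) := fun m U => mem_sep (by (repeat' (first | with_reducible exact IntF.id | with_reducible exact IntF.fst' | with_reducible exact IntF.snd' | with_reducible exact IntF.const _ | with_reducible exact Int.const _ | assumption | with_reducible apply Int.and | with_reducible apply Int.or | with_reducible apply Int.not | with_reducible apply Int.imp | with_reducible apply Int.iff | with_reducible apply Int.ne | with_reducible apply Int.eq | with_reducible apply Int.mem | with_reducible apply Int.subset | with_reducible apply Int.ltN | with_reducible apply Int.leN | with_reducible_and_instances apply Int.le | with_reducible_and_instances apply Int.lt | with_reducible apply Int.all | with_reducible apply Int.ex | with_reducible apply IntF.fst | with_reducible apply IntF.snd | with_reducible apply IntF.app | with_reducible apply IntF.inl | with_reducible apply IntF.inr | with_reducible_and_instances apply IntF.mul | with_reducible_and_instances apply IntF.inv | with_reducible_and_instances apply IntF.add | with_reducible_and_instances apply IntF.sub | with_reducible_and_instances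 apply IntF.neg | with_reducible_and_instances apply IntF.smul | with_reducible apply Int.fin | with_reducible apply IntF.sep | with_reducible apply IntF.lam | with_reducible apply IntF.insert | with_reducible apply IntF.singleton | with_reducible apply IntF.union | with_reducible apply IntF.iimage | with_reducible apply IntF.ite | with_reducible apply IntF.the | with_reducible apply IntF.irec | with_reducible apply IntF.succ | with_reducible apply IntF.val | with_reducible apply IntF.mk | (with_reducible refine Int.comp ?_ ?_; assumption) | (with_reducible refine Int.comp₂ ?_ ?_ ?_; assumption) | (with_reducible refine Int.comp₃ ?_ ?_ ?_ ?_; assumption) | (with_reducible refine Int.comp₄ ?_ ?_ ?_ ?_ ?_; assumption) | (with_reducible refine IntF.comp ?_ ?_; assumption) | (with_reducible refine IntF.comp₂ ?_ ?_ ?_; assumption) | (with_reducible refine IntF.comp₃ ?_ ?_ ?_ ?_; assumption) | with_reducible apply IntF.pair)))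
    have hT : Int N (fun U : IPow N (IPow N (Plain.El a)) => ∃ m s, U = V (m, s)) := by (repeat' (first | with_reducible exact IntF.id | with_reducible exact IntF.fst' | with_reducible exact IntF.snd' | with_reducible exact IntF.const _ | with_reducible exact Int.const _ | assumption | with_reducible apply Int.and | with_reducible apply Int.or | with_reducible apply Int.not | with_reducible apply Int.imp | with_reducible apply Int.iff | with_reducible apply Int.ne | with_reducible apply Int.eq | with_reducible apply Int.mem | with_reducible apply Int.subset | with_reducible apply Int.ltN | with_reducible apply Int.leN | with_reducible_and_instances apply Int.le | with_reducible_and_instances apply Int.lt | with_reducible apply Int.all | with_reducible apply Int.ex | with_reducible apply IntF.fst | with_reducible apply IntF.snd | with_reducible apply IntF.app | with_reducible apply IntF.inl | with_reducible apply IntF.inr | with_reducible_and_instances apply IntF.mul | with_reducible_and_instances apply IntF.inv | with_reducible_and_instances apply IntF.add | with_reducible_and_instances apply IntF.sub | with_reducible_and_instances apply IntF.neg | with_reducible_and_instances apply IntF.smul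 | with_reducible apply Int.fin | with_reducible apply IntF.sep | with_reducible apply IntF.lam | with_reducible apply IntF.insert | with_reducible apply IntF.singleton | with_reducible apply IntF.union | with_reducible apply IntF.iimage | with_reducible apply IntF.ite | with_reducible apply IntF.the | with_reducible apply IntF.irec | with_reducible apply IntF.succ | with_reducible apply IntF.val | with_reducible apply IntF.mk | (with_reducible refine Int.comp ?_ ?_; assumption) | (with_reducible refine Int.comp₂ ?_ ?_ ?_; assumption) | (with_reducible refine Int.comp₃ ?_ ?_ ?_ ?_; assumption) | (with_reducible refine Int.comp₄ ?_ ?_ ?_ ?_ ?_; assumption) | (with_reducible refine IntF.comp ?_ ?_; assumption) | (with_reducible refine IntF.comp₂ ?_ ?_ ?_; assumption) | (with_reducible refine IntF.comp₃ ?_ ?_ ?_ ?_; assumption) | with_reducible apply IntF.pair))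
    refine ⟨code (sep N fun U : IPow N (IPow N (Plain.El a)) => ∃ m s, U = V (m, s)),
      isCuf_of hSn (fun m => ?_) (fun U => ?_), isBase_ts hS (fun U hU => ?_)
        (fun U s hU hs => ?_)⟩
    · have h1 : IFin (sep N fun b : Plain.El a => bl b < m ∧ rk b < m) := (fin_am hB m).fin (hA m)
      have h2 : IntF N (fun s : IPow N (Plain.El a) => V (m, s)) := by (repeat' (first | with_reducible exact IntF.id | with_reducible exact IntF.fst' | with_reducible exact IntF.snd' | with_reducible exact IntF.const _ | with_reducible exact Int.const _ | assumption | with_reducible apply Int.and | with_reducible apply Int.or | with_reducible apply Int.not | with_reducible apply Int.imp | with_reducible apply Int.iff | with_reducible apply Int.ne | with_reducible apply Int.eq | with_reducible apply Int.mem | with_reducible apply Int.subset | with_reducible apply Int.ltN | with_reducible apply Int.leN | with_reducible_and_instances apply Int.le | with_reducible_and_instances apply Int.lt | with_reducible apply Int.all | with_reducible apply Int.ex | with_reducible apply IntF.fst | with_reducible apply IntF.snd | with_reducible apply IntF.app | with_reducible apply IntF.inl | with_reducible apply IntF.inr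 | with_reducible_and_instances apply IntF.mul | with_reducible_and_instances apply IntF.inv | with_reducible_and_instances apply IntF.add | with_reducible_and_instances apply IntF.sub | with_reducible_and_instances apply IntF.neg | with_reducible_and_instances apply IntF.smul | with_reducible apply Int.fin | with_reducible apply IntF.sep | with_reducible apply IntF.lam | with_reducible apply IntF.insert | with_reducible apply IntF.singleton | with_reducible apply IntF.union | with_reducible apply IntF.iimage | with_reducible apply IntF.ite | with_reducible apply IntF.the | with_reducible apply IntF.irec | with_reducible apply IntF.succ | with_reducible apply IntF.val | with_reducible apply IntF.mk | (with_reducible refine Int.comp ?_ ?_; assumption) | (with_reducible refine Int.comp₂ ?_ ?_ ?_; assumption) | (with_reducible refine Int.comp₃ ?_ ?_ ?_ ?_; assumption) | (with_reducible refine Int.comp₄ ?_ ?_ ?_ ?_ ?_; assumption) | (with_reducible refine IntF.comp ?_ ?_; assumption) | (with_reducible refine IntF.comp₂ ?_ ?_ ?_; assumption) | (with_reducible refine IntF.comp₃ ?_ ?_ ?_ ?_; assumption) | with_reducible apply IntF.pair))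
      refine (h1.pow.image h2).subset fun U hU => ?_
      obtain ⟨s, rfl⟩ := (hSm m U).1 hU
      have h3 : Int N (fun b : Plain.El a => b ∈ s ∧ bl b < m ∧ rk b < m) := by (repeat' (first | with_reducible exact IntF.id | with_reducible exact IntF.fst' | with_reducible exact IntF.snd' | with_reducible exact IntF.const _ | with_reducible exact Int.const _ | assumption | with_reducible apply Int.and | with_reducible apply Int.or | with_reducible apply Int.not | with_reducible apply Int.imp | with_reducible apply Int.iff | with_reducible apply Int.ne | with_reducible apply Int.eq | with_reducible apply Int.mem | with_reducible apply Int.subset | with_reducible apply Int.ltN | with_reducible apply Int.leN | with_reducible_and_instances apply Int.le | with_reducible_and_instances apply Int.lt | with_reducible apply Int.all | with_reducible apply Int.ex | with_reducible apply IntF.fst | with_reducible apply IntF.snd | with_reducible apply IntF.app | with_reducible apply IntF.inl | with_reducible apply IntF.inr | with_reducible_and_instances apply IntF.mul | with_reducible_and_instances apply IntF.inv | with_reducible_and_instances apply IntF.add | with_reducible_and_instances apply IntF.sub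 | with_reducible_and_instances apply IntF.neg | with_reducible_and_instances apply IntF.smul | with_reducible apply Int.fin | with_reducible apply IntF.sep | with_reducible apply IntF.lam | with_reducible apply IntF.insert | with_reducible apply IntF.singleton | with_reducible apply IntF.union | with_reducible apply IntF.iimage | with_reducible apply IntF.ite | with_reducible apply IntF.the | with_reducible apply IntF.irec | with_reducible apply IntF.succ | with_reducible apply IntF.val | with_reducible apply IntF.mk | (with_reducible refine Int.comp ?_ ?_; assumption) | (with_reducible refine Int.comp₂ ?_ ?_ ?_; assumption) | (with_reducible refine Int.comp₃ ?_ ?_ ?_ ?_; assumption) | (with_reducible refine Int.comp₄ ?_ ?_ ?_ ?_ ?_; assumption) | (with_reducible refine IntF.comp ?_ ?_; assumption) | (with_reducible refine IntF.comp₂ ?_ ?_ ?_; assumption) | (with_reducible refine IntF.comp₃ ?_ ?_ ?_ ?_; assumption) | with_reducible apply IntF.pair))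
      refine (mem_iimage h2).2 ⟨sep N fun b : Plain.El a => b ∈ s ∧ bl b < m ∧ rk b < m,
        mem_ipow.2 fun b hb => (mem_sep (hA m)).2 ((mem_sep h3).1 hb).2, IPow.ext' fun t => ?_⟩
      rw [hVs, hVs]
      refine and_congr_right fun _ => forall_congr' fun b => forall_congr' fun h4 =>
        forall_congr' fun h5 => ?_
      rw [mem_sep h3]
      exact ⟨fun h => h.trans ⟨fun h => h.1, fun h => ⟨h, h4, h5⟩⟩,
        fun h => h.trans ⟨fun h => ⟨h, h4, h5⟩, fun h => h.1⟩⟩
    · rw [mem_sep hT]
      exact exists_congr fun m => (hSm m U).symm
    · obtain ⟨m, s, rfl⟩ := (mem_sep hT).1 hU
      refine ⟨fun t ht => ((hVs m s t).1 ht).1, fun t ht => ⟨sep N fun b : Plain.El a =>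
        bl b < m ∧ rk b < m, (fin_am hB m).fin (hA m), fun y hy hag => (hVs m s y).2
          ⟨hy, fun b h1 h2 => ?_⟩⟩⟩
      exact (hag b ((mem_sep (hA m)).2 ⟨h1, h2⟩)).symm.trans (((hVs m s t).1 ht).2 b h1 h2)
    · obtain ⟨F, hF, hFU⟩ := hU.2 s hs
      obtain ⟨m, hm⟩ := IFin.exists_bound (r := fun (b : Plain.El a) (m : INat N) =>
        bl b < m ∧ rk b < m) (by (repeat' (first | with_reducible exact IntF.id | with_reducible exact IntF.fst' | with_reducible exact IntF.snd' | with_reducible exact IntF.const _ | with_reducible exact Int.const _ | assumption | with_reducible apply Int.and | with_reducible apply Int.or | with_reducible apply Int.not | with_reducible apply Int.imp | with_reducible apply Int.iff | with_reducible apply Int.ne | with_reducible apply Int.eq | with_reducible apply Int.mem | with_reducible apply Int.subset | with_reducible apply Int.ltN | with_reducible apply Int.leN | with_reducible_and_instances apply Int.le | with_reducible_and_instances apply Int.lt | with_reducible apply Int.all | with_reducible apply Int.ex | with_reducible apply IntF.fst | with_reducible apply IntF.snd | with_reducible apply IntF.app | with_reducible apply IntF.inl | with_reducible apply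 IntF.inr | with_reducible_and_instances apply IntF.mul | with_reducible_and_instances apply IntF.inv | with_reducible_and_instances apply IntF.add | with_reducible_and_instances apply IntF.sub | with_reducible_and_instances apply IntF.neg | with_reducible_and_instances apply IntF.smul | with_reducible apply Int.fin | with_reducible apply IntF.sep | with_reducible apply IntF.lam | with_reducible apply IntF.insert | with_reducible apply IntF.singleton | with_reducible apply IntF.union | with_reducible apply IntF.iimage | with_reducible apply IntF.ite | with_reducible apply IntF.the | with_reducible apply IntF.irec | with_reducible apply IntF.succ | with_reducible apply IntF.val | with_reducible apply IntF.mk | (with_reducible refine Int.comp ?_ ?_; assumption) | (with_reducible refine Int.comp₂ ?_ ?_ ?_; assumption) | (with_reducible refine Int.comp₃ ?_ ?_ ?_ ?_; assumption) | (with_reducible refine Int.comp₄ ?_ ?_ ?_ ?_ ?_; assumption) | (with_reducible refine IntF.comp ?_ ?_; assumption) | (with_reducible refine IntF.comp₂ ?_ ?_ ?_; assumption) | (with_reducible refine IntF.comp₃ ?_ ?_ ?_ ?_; assumption) | with_reducible apply IntF.pair))) (fun b c => ⟨max b c, fun a ha => ha.elim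
          (fun h => ⟨h.1.trans_le (le_max_left _ _), h.2.trans_le (le_max_left _ _)⟩)
          fun h => ⟨h.1.trans_le (le_max_right _ _), h.2.trans_le (le_max_right _ _)⟩⟩) ⟨0⟩ hF
        fun b _ => ⟨(max (bl b) (rk b)).succ, INat.lt_succ_iff.2 (le_max_left _ _),
          INat.lt_succ_iff.2 (le_max_right _ _)⟩
      refine ⟨V (m, s), (mem_sep hT).2 ⟨m, s, rfl⟩, (hVs m s s).2 ⟨hU.1 s hs, fun _ _ _ => Iff.rfl⟩,
        fun t ht => hFU t ((hVs m s t).1 ht).1 fun b hb => ?_⟩
      exact (((hVs m s t).1 ht).2 b (hm b hb).1 (hm b hb).2).symm
  · obtain ⟨f, hf⟩ := weaklyLoeb_of hS hw
    obtain ⟨C, hC, hCs⟩ : ∃ C : INat N → IPow N (IPow N (Plain.El a)), IntF N C ∧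
        ∀ n s, s ∈ C n ↔ Sl bl rk n s := by
      refine ⟨fun n => sep N fun s => Sl bl rk n s, IntF.sep hSl, fun n s => mem_sep ?_⟩
      (repeat' (first | with_reducible exact IntF.id | with_reducible exact IntF.fst' | with_reducible exact IntF.snd' | with_reducible exact IntF.const _ | with_reducible exact Int.const _ | assumption | with_reducible apply Int.and | with_reducible apply Int.or | with_reducible apply Int.not | with_reducible apply Int.imp | with_reducible apply Int.iff | with_reducible apply Int.ne | with_reducible apply Int.eq | with_reducible apply Int.mem | with_reducible apply Int.subset | with_reducible apply Int.ltN | with_reducible apply Int.leN | with_reducible_and_instances apply Int.le | with_reducible_and_instances apply Int.lt | with_reducible apply Int.all | with_reducible apply Int.ex | with_reducible apply IntF.fst | with_reducible apply IntF.snd | with_reducible apply IntF.app | with_reducible apply IntF.inl | with_reducible apply IntF.inr | with_reducible_and_instances apply IntF.mul | with_reducible_and_instances apply IntF.inv | with_reducible_and_instances apply IntF.add | with_reducible_and_instances apply IntF.sub | with_reducible_and_instances apply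 IntF.neg | with_reducible_and_instances apply IntF.smul | with_reducible apply Int.fin | with_reducible apply IntF.sep | with_reducible apply IntF.lam | with_reducible apply IntF.insert | with_reducible apply IntF.singleton | with_reducible apply IntF.union | with_reducible apply IntF.iimage | with_reducible apply IntF.ite | with_reducible apply IntF.the | with_reducible apply IntF.irec | with_reducible apply IntF.succ | with_reducible apply IntF.val | with_reducible apply IntF.mk | (with_reducible refine Int.comp ?_ ?_; assumption) | (with_reducible refine Int.comp₂ ?_ ?_ ?_; assumption) | (with_reducible refine Int.comp₃ ?_ ?_ ?_ ?_; assumption) | (with_reducible refine Int.comp₄ ?_ ?_ ?_ ?_ ?_; assumption) | (with_reducible refine IntF.comp ?_ ?_; assumption) | (with_reducible refine IntF.comp₂ ?_ ?_ ?_; assumption) | (with_reducible refine IntF.comp₃ ?_ ?_ ?_ ?_; assumption) | with_reducible apply IntF.pair))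
    have hcl : ∀ n, ∃ U, OpR bl rk U ∧ ∀ s, s ∈ U ↔ Pts bl rk s ∧ ¬ s ∈ C n := by
      intro n
      have h1 : Int N (fun s : IPow N (Plain.El a) => Pts bl rk s ∧ ¬ s ∈ C n) := by (repeat' (first | with_reducible exact IntF.id | with_reducible exact IntF.fst' | with_reducible exact IntF.snd' | with_reducible exact IntF.const _ | with_reducible exact Int.const _ | assumption | with_reducible apply Int.and | with_reducible apply Int.or | with_reducible apply Int.not | with_reducible apply Int.imp | with_reducible apply Int.iff | with_reducible apply Int.ne | with_reducible apply Int.eq | with_reducible apply Int.mem | with_reducible apply Int.subset | with_reducible apply Int.ltN | with_reducible apply Int.leN | with_reducible_and_instances apply Int.le | with_reducible_and_instances apply Int.lt | with_reducible apply Int.all | with_reducible apply Int.ex | with_reducible apply IntF.fst | with_reducible apply IntF.snd | with_reducible apply IntF.app | with_reducible apply IntF.inl | with_reducible apply IntF.inr | with_reducible_and_instances apply IntF.mul | with_reducible_and_instances apply IntF.inv | with_reducible_and_instances apply IntF.add | with_reducible_and_instances apply IntF.sub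 | with_reducible_and_instances apply IntF.neg | with_reducible_and_instances apply IntF.smul | with_reducible apply Int.fin | with_reducible apply IntF.sep | with_reducible apply IntF.lam | with_reducible apply IntF.insert | with_reducible apply IntF.singleton | with_reducible apply IntF.union | with_reducible apply IntF.iimage | with_reducible apply IntF.ite | with_reducible apply IntF.the | with_reducible apply IntF.irec | with_reducible apply IntF.succ | with_reducible apply IntF.val | with_reducible apply IntF.mk | (with_reducible refine Int.comp ?_ ?_; assumption) | (with_reducible refine Int.comp₂ ?_ ?_ ?_; assumption) | (with_reducible refine Int.comp₃ ?_ ?_ ?_ ?_; assumption) | (with_reducible refine Int.comp₄ ?_ ?_ ?_ ?_ ?_; assumption) | (with_reducible refine IntF.comp ?_ ?_; assumption) | (with_reducible refine IntF.comp₂ ?_ ?_ ?_; assumption) | (with_reducible refine IntF.comp₃ ?_ ?_ ?_ ?_; assumption) | with_reducible apply IntF.pair))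
      refine ⟨sep N fun s => Pts bl rk s ∧ ¬ s ∈ C n, ⟨fun s hs => ((mem_sep h1).1 hs).1,
        fun s hs => ?_⟩, fun s => mem_sep h1⟩
      obtain ⟨h2, h3⟩ := (mem_sep h1).1 hs
      obtain ⟨F, h4, h5⟩ := closed_sl hB n h2 fun h => h3 ((hCs n s).2 h)
      exact ⟨F, h4, fun y hy hag => (mem_sep h1).2 ⟨hy, fun h => h5 y hy hag ((hCs n y).1 h)⟩⟩
    have hex : ∀ n, ∃ F : IPow N (IPow N (Plain.El a)), App f (code (C n)) (code F) ∧
        (∀ y, App f (code (C n)) y → y = code F) ∧ IFin F ∧ (∃ s, s ∈ F) ∧ ∀ s, s ∈ F → s ∈ C n := by
      intro n
      obtain ⟨s, hs⟩ := exists_sl hbl hrk hB n
      exact hf (C n) (fun s hs => ((hCs n s).1 hs).pts) (hcl n) ⟨s, (hCs n s).2 hs⟩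
    have hR : Int N (fun q : INat N × IPow N (IPow N (Plain.El a)) =>
        Mem (op (code (C q.1)) (code q.2)) f) := by
      have h1 : Int N (fun q : IPow N (IPow N (Plain.El a)) × IPow N (IPow N (Plain.El a)) =>
        Mem (op (code q.1) (code q.2)) f) := ⟨f, fun q => Iff.rfl⟩
      exact Int.comp (p := fun q : IPow N (IPow N (Plain.El a)) × IPow N (IPow N (Plain.El a)) =>
        Mem (op (code q.1) (code q.2)) f) (f := fun q : INat N × IPow N (IPow N (Plain.El a)) =>
        (C q.1, q.2)) h1 (by (repeat' (first | with_reducible exact IntF.id | with_reducible exact IntF.fst' | with_reducible exact IntF.snd' | with_reducible exact IntF.const _ | with_reducible exact Int.const _ | assumption | with_reducible apply Int.and | with_reducible apply Int.or | with_reducible apply Int.not | with_reducible apply Int.imp | with_reducible apply Int.iff | with_reducible apply Int.ne | with_reducible apply Int.eq | with_reducible apply Int.mem | with_reducible apply Int.subset | with_reducible apply Int.ltN | with_reducible apply Int.leN | with_reducible_and_instances apply Int.le | with_reducible_and_instances apply Int.lt | with_reducible apply Int.all | with_reducible apply Int.ex | with_reducible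 apply IntF.fst | with_reducible apply IntF.snd | with_reducible apply IntF.app | with_reducible apply IntF.inl | with_reducible apply IntF.inr | with_reducible_and_instances apply IntF.mul | with_reducible_and_instances apply IntF.inv | with_reducible_and_instances apply IntF.add | with_reducible_and_instances apply IntF.sub | with_reducible_and_instances apply IntF.neg | with_reducible_and_instances apply IntF.smul | with_reducible apply Int.fin | with_reducible apply IntF.sep | with_reducible apply IntF.lam | with_reducible apply IntF.insert | with_reducible apply IntF.singleton | with_reducible apply IntF.union | with_reducible apply IntF.iimage | with_reducible apply IntF.ite | with_reducible apply IntF.the | with_reducible apply IntF.irec | with_reducible apply IntF.succ | with_reducible apply IntF.val | with_reducible apply IntF.mk | (with_reducible refine Int.comp ?_ ?_; assumption) | (with_reducible refine Int.comp₂ ?_ ?_ ?_; assumption) | (with_reducible refine Int.comp₃ ?_ ?_ ?_ ?_; assumption) | (with_reducible refine Int.comp₄ ?_ ?_ ?_ ?_ ?_; assumption) | (with_reducible refine IntF.comp ?_ ?_; assumption) | (with_reducible refine IntF.comp₂ ?_ ?_ ?_; assumption) | (with_reducible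 refine IntF.comp₃ ?_ ?_ ?_ ?_; assumption) | with_reducible apply IntF.pair)))
    have hy : IntF N (fun n : INat N => the (fun F : IPow N (IPow N (Plain.El a)) =>
        Mem (op (code (C n)) (code F)) f) ∅) := IntF.the hR (IntF.const _)
    have hyF : ∀ n, ∃ F, the (fun F : IPow N (IPow N (Plain.El a)) =>
        Mem (op (code (C n)) (code F)) f) ∅ = F ∧ IFin F ∧ (∃ s, s ∈ F) ∧ ∀ s, s ∈ F → s ∈ C n := by
      intro n
      obtain ⟨F, h1, h2, h3, h4, h5⟩ := hex n
      exact ⟨F, the_eq ⟨F, app_iff.1 h1, fun F' h6 => ITy.inj (h2 _ (app_iff.2 h6))⟩
        (app_iff.1 h1), h3, h4, h5⟩
    refine not_fin hbl hrk hB hy (fun n => ?_) (fun n => ?_) (fun n s hs => ?_)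
    · obtain ⟨F, h1, h2, h3, h4⟩ := hyF n
      rw [h1]
      exact h2
    · obtain ⟨F, h1, h2, h3, h4⟩ := hyF n
      rw [h1]
      exact h3
    · obtain ⟨F, h1, h2, h3, h4⟩ := hyF n
      rw [h1] at hs
      exact (hCs n s).1 (h4 s hs)

end

/-! ### Models -/

theorem exists_row' (M : Type u) [L.Structure M] [IsModel M] [Countable M] (hC : CollL M) :
    ∃ (N : Type u) (_ : LSet.Structure N) (_ : ZF N), ∃ x t : N, IsTopology t x ∧
      IsCompact t x ∧ IsHausdorff t x ∧ (∃ b, IsCuf b ∧ IsBase b t) ∧ ¬ IsWeaklyLoeb t x := by
  have p₀ : Co M (Xb M (Dd M)) := ⟨∅, fun i k d d' h => absurd h (by simp), IFin.empty⟩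
  obtain ⟨G, hG⟩ := H635.exists_gen (M := M) p₀
  have hzf : ZF (Nb (RD M) hG) := nn_zf hG hC
  obtain ⟨bl, rk, hB⟩ := exists_RB hG hC
  exact ⟨Nb (RD M) hG, inferInstance, hzf, space_row hB⟩

section

attribute [local instance] toL

theorem exists_row_c (M : Type u) [LSet.Structure M] [Countable M] (h : ZF M) :
    ∃ (N : Type u) (_ : LSet.Structure N) (_ : ZF N), ∃ x t : N, IsTopology t x ∧
      IsCompact t x ∧ IsHausdorff t x ∧ (∃ b, IsCuf b ∧ IsBase b t) ∧ ¬ IsWeaklyLoeb t x := by
  have hM : IsModel M := isModel_of_zermelo h.toZermelo
  exact exists_row' M (coll_of_zf h)

end

theorem exists_row (M : Type u) [LSet.Structure M] (h : ZF M) :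
    ∃ (N : Type u) (_ : LSet.Structure N) (_ : ZF N), ∃ x t : N, IsTopology t x ∧
      IsCompact t x ∧ IsHausdorff t x ∧ (∃ b, IsCuf b ∧ IsBase b t) ∧ ¬ IsWeaklyLoeb t x := by
  obtain ⟨M₀, h1, h2⟩ := exists_countable_sub M h
  exact exists_row_c M₀ h2

end Pool.Agent.Helper672.ZFA.V246G
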