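import Pool.Agent.V11246.Row
import Pool.Agent.V11246.Cube

/-!
# A compact space of selectors
-/

set_option maxHeartbeats 1000000
set_option linter.all false
set_option synthInstance.maxSize 2000

namespace Pool.Agent.Helper672.ZFA.V246G

open FirstOrder FirstOrder.Language
open Pool.Agent.Helper672.ZFA
open Pool.Agent.Helper672.ZFA.V246 (Ag int_Ag)
open Pool.Agent.H310

universe u

section

variable {M : Type u} [L.Structure M] [hM : IsModel M] {A : Type u} [ITy M A]
  {bl rk : A → INat M}

/-! ### Finite subfamilies -/

/-- `T` is covered by finitely many members of `c`. -/
def Fc (c : IPow M (IPow M (IPow M A))) (T : IPow M A → Prop) : Prop :=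
  ∃ c' : IPow M (IPow M (IPow M A)), IFin c' ∧ (∀ U, U ∈ c' → U ∈ c) ∧
    ∀ s, T s → ∃ U, U ∈ c' ∧ s ∈ U

theorem Fc.mono {c : IPow M (IPow M (IPow M A))} {T T' : IPow M A → Prop} (h : Fc c T)
    (hT : ∀ s, T' s → T s) : Fc c T' := by
  obtain ⟨c', h1, h2, h3⟩ := h
  exact ⟨c', h1, h2, fun s hs => h3 s (hT s hs)⟩

theorem Fc.or {c : IPow M (IPow M (IPow M A))} {T T' : IPow M A → Prop} (h : Fc c T)
    (h' : Fc c T') : Fc c (fun s => T s ∨ T' s) := by
  obtain ⟨c₁, h1, h2, h3⟩ := h
  obtain ⟨c₂, h4, h5, h6⟩ := h'
  refine ⟨c₁ ∪ c₂, h1.union h4, fun U hU => (mem_union.1 hU).elim (h2 U) (h5 U), ?_⟩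
  rintro s (hs | hs)
  · obtain ⟨U, h7, h8⟩ := h3 s hs
    exact ⟨U, mem_union.2 (Or.inl h7), h8⟩
  · obtain ⟨U, h7, h8⟩ := h6 s hs
    exact ⟨U, mem_union.2 (Or.inr h7), h8⟩

theorem Fc.single {c : IPow M (IPow M (IPow M A))} {U : IPow M (IPow M A)} (hU : U ∈ c)
    {T : IPow M A → Prop} (hT : ∀ s, T s → s ∈ U) : Fc c T :=
  ⟨{U}, IFin.singleton U, fun V hV => (mem_singleton.1 hV) ▸ hU,
    fun s hs => ⟨U, mem_singleton.2 rfl, hT s hs⟩⟩

theorem Fc.empty (c : IPow M (IPow M (IPow M A))) {T : IPow M A → Prop} (hT : ∀ s, ¬ T s) :
    Fc c T :=
  ⟨∅, IFin.empty, fun U hU => absurd hU (by simp), fun s hs => absurd hs (hT s)⟩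

theorem int_Fc {γ : Type u} [ITy M γ] {c : IPow M (IPow M (IPow M A))}
    {T : γ × IPow M A → Prop} (hT : Int M T) : Int M (fun x : γ => Fc c (fun s => T (x, s))) := by
  unfold Fc
  (repeat' (first | with_reducible exact IntF.id | with_reducible exact IntF.fst' | with_reducible exact IntF.snd' | with_reducible exact IntF.const _ | with_reducible exact Int.const _ | assumption | with_reducible apply Int.and | with_reducible apply Int.or | with_reducible apply Int.not | with_reducible apply Int.imp | with_reducible apply Int.iff | with_reducible apply Int.ne | with_reducible apply Int.eq | with_reducible apply Int.mem | with_reducible apply Int.subset | with_reducible apply Int.ltN | with_reducible apply Int.leN | with_reducible_and_instances apply Int.le | with_reducible_and_instances apply Int.lt | with_reducible apply Int.all | with_reducible apply Int.ex | with_reducible apply IntF.fst | with_reducible apply IntF.snd | with_reducible apply IntF.app | with_reducible apply IntF.inl | with_reducible apply IntF.inr | with_reducible_and_instances apply IntF.mul | with_reducible_and_instances apply IntF.inv | with_reducible_and_instances apply IntF.add | with_reducible_and_instances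 apply IntF.sub | with_reducible_and_instances apply IntF.neg | with_reducible_and_instances apply IntF.smul | with_reducible apply Int.fin | with_reducible apply IntF.sep | with_reducible apply IntF.lam | with_reducible apply IntF.insert | with_reducible apply IntF.singleton | with_reducible apply IntF.union | with_reducible apply IntF.iimage | with_reducible apply IntF.ite | with_reducible apply IntF.the | with_reducible apply IntF.irec | with_reducible apply IntF.succ | with_reducible apply IntF.val | with_reducible apply IntF.mk | (with_reducible refine Int.comp ?_ ?_; assumption) | (with_reducible refine Int.comp₂ ?_ ?_ ?_; assumption) | (with_reducible refine Int.comp₃ ?_ ?_ ?_ ?_; assumption) | (with_reducible refine Int.comp₄ ?_ ?_ ?_ ?_ ?_; assumption) | (with_reducible refine IntF.comp ?_ ?_; assumption) | (with_reducible refine IntF.comp₂ ?_ ?_ ?_; assumption) | (with_reducible refine IntF.comp₃ ?_ ?_ ?_ ?_; assumption) | with_reducible apply IntF.pair))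

theorem Fc.bounded {c : IPow M (IPow M (IPow M A))} {T : INat M × IPow M A → Prop} (hT : Int M T)
    (n : INat M) (h : ∀ m, m < n → Fc c (fun s => T (m, s))) :
    Fc c (fun s => ∃ m, m < n ∧ T (m, s)) := by
  revert h
  have hI : Int M (fun n : INat M => Fc c (fun s => ∃ m, m < n ∧ T (m, s))) :=
    int_Fc (T := fun q : INat M × IPow M A => ∃ m, m < q.1 ∧ T (m, q.2)) (by (repeat' (first | with_reducible exact IntF.id | with_reducible exact IntF.fst' | with_reducible exact IntF.snd' | with_reducible exact IntF.const _ | with_reducible exact Int.const _ | assumption | with_reducible apply Int.and | with_reducible apply Int.or | with_reducible apply Int.not | with_reducible apply Int.imp | with_reducible apply Int.iff | with_reducible apply Int.ne | with_reducible apply Int.eq | with_reducible apply Int.mem | with_reducible apply Int.subset | with_reducible apply Int.ltN | with_reducible apply Int.leN | with_reducible_and_instances apply Int.le | with_reducible_and_instances apply Int.lt | with_reducible apply Int.all | with_reducible apply Int.ex | with_reducible apply IntF.fst | with_reducible apply IntF.snd | with_reducible apply IntF.app | with_reducible apply IntF.inl | with_reducible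 apply IntF.inr | with_reducible_and_instances apply IntF.mul | with_reducible_and_instances apply IntF.inv | with_reducible_and_instances apply IntF.add | with_reducible_and_instances apply IntF.sub | with_reducible_and_instances apply IntF.neg | with_reducible_and_instances apply IntF.smul | with_reducible apply Int.fin | with_reducible apply IntF.sep | with_reducible apply IntF.lam | with_reducible apply IntF.insert | with_reducible apply IntF.singleton | with_reducible apply IntF.union | with_reducible apply IntF.iimage | with_reducible apply IntF.ite | with_reducible apply IntF.the | with_reducible apply IntF.irec | with_reducible apply IntF.succ | with_reducible apply IntF.val | with_reducible apply IntF.mk | (with_reducible refine Int.comp ?_ ?_; assumption) | (with_reducible refine Int.comp₂ ?_ ?_ ?_; assumption) | (with_reducible refine Int.comp₃ ?_ ?_ ?_ ?_; assumption) | (with_reducible refine Int.comp₄ ?_ ?_ ?_ ?_ ?_; assumption) | (with_reducible refine IntF.comp ?_ ?_; assumption) | (with_reducible refine IntF.comp₂ ?_ ?_ ?_; assumption) | (with_reducible refine IntF.comp₃ ?_ ?_ ?_ ?_; assumption) | with_reducible apply IntF.pair)))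
  have hI' : Int M (fun m : INat M => Fc c (fun s => T (m, s))) := int_Fc hT
  refine INat.ind (p := fun n => (∀ m, m < n → Fc c (fun s => T (m, s))) →
    Fc c (fun s => ∃ m, m < n ∧ T (m, s))) (Int.imp (Int.all (Int.imp (by (repeat' (first | with_reducible exact IntF.id | with_reducible exact IntF.fst' | with_reducible exact IntF.snd' | with_reducible exact IntF.const _ | with_reducible exact Int.const _ | assumption | with_reducible apply Int.and | with_reducible apply Int.or | with_reducible apply Int.not | with_reducible apply Int.imp | with_reducible apply Int.iff | with_reducible apply Int.ne | with_reducible apply Int.eq | with_reducible apply Int.mem | with_reducible apply Int.subset | with_reducible apply Int.ltN | with_reducible apply Int.leN | with_reducible_and_instances apply Int.le | with_reducible_and_instances apply Int.lt | with_reducible apply Int.all | with_reducible apply Int.ex | with_reducible apply IntF.fst | with_reducible apply IntF.snd | with_reducible apply IntF.app | with_reducible apply IntF.inl | with_reducible apply IntF.inr | with_reducible_and_instances apply IntF.mul | with_reducible_and_instances apply IntF.inv | with_reducible_and_instances apply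 IntF.add | with_reducible_and_instances apply IntF.sub | with_reducible_and_instances apply IntF.neg | with_reducible_and_instances apply IntF.smul | with_reducible apply Int.fin | with_reducible apply IntF.sep | with_reducible apply IntF.lam | with_reducible apply IntF.insert | with_reducible apply IntF.singleton | with_reducible apply IntF.union | with_reducible apply IntF.iimage | with_reducible apply IntF.ite | with_reducible apply IntF.the | with_reducible apply IntF.irec | with_reducible apply IntF.succ | with_reducible apply IntF.val | with_reducible apply IntF.mk | (with_reducible refine Int.comp ?_ ?_; assumption) | (with_reducible refine Int.comp₂ ?_ ?_ ?_; assumption) | (with_reducible refine Int.comp₃ ?_ ?_ ?_ ?_; assumption) | (with_reducible refine Int.comp₄ ?_ ?_ ?_ ?_ ?_; assumption) | (with_reducible refine IntF.comp ?_ ?_; assumption) | (with_reducible refine IntF.comp₂ ?_ ?_ ?_; assumption) | (with_reducible refine IntF.comp₃ ?_ ?_ ?_ ?_; assumption) | with_reducible apply IntF.pair)))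
      (Int.comp (p := fun m : INat M => Fc c (fun s => T (m, s)))
        (f := fun q : INat M × INat M => q.2) hI' (by (repeat' (first | with_reducible exact IntF.id | with_reducible exact IntF.fst' | with_reducible exact IntF.snd' | with_reducible exact IntF.const _ | with_reducible exact Int.const _ | assumption | with_reducible apply Int.and | with_reducible apply Int.or | with_reducible apply Int.not | with_reducible apply Int.imp | with_reducible apply Int.iff | with_reducible apply Int.ne | with_reducible apply Int.eq | with_reducible apply Int.mem | with_reducible apply Int.subset | with_reducible apply Int.ltN | with_reducible apply Int.leN | with_reducible_and_instances apply Int.le | with_reducible_and_instances apply Int.lt | with_reducible apply Int.all | with_reducible apply Int.ex | with_reducible apply IntF.fst | with_reducible apply IntF.snd | with_reducible apply IntF.app | with_reducible apply IntF.inl | with_reducible apply IntF.inr | with_reducible_and_instances apply IntF.mul | with_reducible_and_instances apply IntF.inv | with_reducible_and_instances apply IntF.add | with_reducible_and_instances apply IntF.sub | with_reducible_and_instances apply IntF.neg | with_reducible_and_instances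 apply IntF.smul | with_reducible apply Int.fin | with_reducible apply IntF.sep | with_reducible apply IntF.lam | with_reducible apply IntF.insert | with_reducible apply IntF.singleton | with_reducible apply IntF.union | with_reducible apply IntF.iimage | with_reducible apply IntF.ite | with_reducible apply IntF.the | with_reducible apply IntF.irec | with_reducible apply IntF.succ | with_reducible apply IntF.val | with_reducible apply IntF.mk | (with_reducible refine Int.comp ?_ ?_; assumption) | (with_reducible refine Int.comp₂ ?_ ?_ ?_; assumption) | (with_reducible refine Int.comp₃ ?_ ?_ ?_ ?_; assumption) | (with_reducible refine Int.comp₄ ?_ ?_ ?_ ?_ ?_; assumption) | (with_reducible refine IntF.comp ?_ ?_; assumption) | (with_reducible refine IntF.comp₂ ?_ ?_ ?_; assumption) | (with_reducible refine IntF.comp₃ ?_ ?_ ?_ ?_; assumption) | with_reducible apply IntF.pair)))))) hI) ?_ ?_ n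
  · intro _
    exact Fc.empty c fun s ⟨m, hm, _⟩ => INat.not_lt_zero hm
  · intro n ih h
    refine ((ih fun m hm => h m (hm.trans (INat.lt_succ_self n))).or
      (h n (INat.lt_succ_self n))).mono ?_
    rintro s ⟨m, hm, hs⟩
    rcases INat.lt_succ_iff'.1 hm with hm | rfl
    · exact Or.inl ⟨m, hm, hs⟩
    · exact Or.inr hs

/-- No injection into a smaller number. -/
theorem php : ∀ n : INat M, ∀ g : IFun M (INat M) (INat M), (∀ j, j ≤ n → g j < n) →
    ∃ i j, i ≤ n ∧ j ≤ n ∧ i ≠ j ∧ g i = g j := by
  have key : ∀ n : INat M, ∀ s : IPow M (INat M), Sz n s → ∀ g : IFun M (INat M) (INat M),
      (∀ j, j ≤ n → g j ∈ s) → ∃ i j, i ≤ n ∧ j ≤ n ∧ i ≠ j ∧ g i = g j := by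
    have hS : Int M (fun q : INat M × IPow M (INat M) => Sz q.1 q.2) := Int.sz (by (repeat' (first | with_reducible exact IntF.id | with_reducible exact IntF.fst' | with_reducible exact IntF.snd' | with_reducible exact IntF.const _ | with_reducible exact Int.const _ | assumption | with_reducible apply Int.and | with_reducible apply Int.or | with_reducible apply Int.not | with_reducible apply Int.imp | with_reducible apply Int.iff | with_reducible apply Int.ne | with_reducible apply Int.eq | with_reducible apply Int.mem | with_reducible apply Int.subset | with_reducible apply Int.ltN | with_reducible apply Int.leN | with_reducible_and_instances apply Int.le | with_reducible_and_instances apply Int.lt | with_reducible apply Int.all | with_reducible apply Int.ex | with_reducible apply IntF.fst | with_reducible apply IntF.snd | with_reducible apply IntF.app | with_reducible apply IntF.inl | with_reducible apply IntF.inr | with_reducible_and_instances apply IntF.mul | with_reducible_and_instances apply IntF.inv | with_reducible_and_instances apply IntF.add | with_reducible_and_instances apply IntF.sub | with_reducible_and_instances apply IntF.neg | with_reducible_and_instances apply IntF.smul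 | with_reducible apply Int.fin | with_reducible apply IntF.sep | with_reducible apply IntF.lam | with_reducible apply IntF.insert | with_reducible apply IntF.singleton | with_reducible apply IntF.union | with_reducible apply IntF.iimage | with_reducible apply IntF.ite | with_reducible apply IntF.the | with_reducible apply IntF.irec | with_reducible apply IntF.succ | with_reducible apply IntF.val | with_reducible apply IntF.mk | (with_reducible refine Int.comp ?_ ?_; assumption) | (with_reducible refine Int.comp₂ ?_ ?_ ?_; assumption) | (with_reducible refine Int.comp₃ ?_ ?_ ?_ ?_; assumption) | (with_reducible refine Int.comp₄ ?_ ?_ ?_ ?_ ?_; assumption) | (with_reducible refine IntF.comp ?_ ?_; assumption) | (with_reducible refine IntF.comp₂ ?_ ?_ ?_; assumption) | (with_reducible refine IntF.comp₃ ?_ ?_ ?_ ?_; assumption) | with_reducible apply IntF.pair))) (by (repeat' (first | with_reducible exact IntF.id | with_reducible exact IntF.fst' | with_reducible exact IntF.snd' | with_reducible exact IntF.const _ | with_reducible exact Int.const _ | assumption | with_reducible apply Int.and | with_reducible apply Int.or | with_reducible apply Int.not | with_reducible apply Int.imp | with_reducible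 apply Int.iff | with_reducible apply Int.ne | with_reducible apply Int.eq | with_reducible apply Int.mem | with_reducible apply Int.subset | with_reducible apply Int.ltN | with_reducible apply Int.leN | with_reducible_and_instances apply Int.le | with_reducible_and_instances apply Int.lt | with_reducible apply Int.all | with_reducible apply Int.ex | with_reducible apply IntF.fst | with_reducible apply IntF.snd | with_reducible apply IntF.app | with_reducible apply IntF.inl | with_reducible apply IntF.inr | with_reducible_and_instances apply IntF.mul | with_reducible_and_instances apply IntF.inv | with_reducible_and_instances apply IntF.add | with_reducible_and_instances apply IntF.sub | with_reducible_and_instances apply IntF.neg | with_reducible_and_instances apply IntF.smul | with_reducible apply Int.fin | with_reducible apply IntF.sep | with_reducible apply IntF.lam | with_reducible apply IntF.insert | with_reducible apply IntF.singleton | with_reducible apply IntF.union | with_reducible apply IntF.iimage | with_reducible apply IntF.ite | with_reducible apply IntF.the | with_reducible apply IntF.irec | with_reducible apply IntF.succ | with_reducible apply IntF.val | with_reducible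 apply IntF.mk | (with_reducible refine Int.comp ?_ ?_; assumption) | (with_reducible refine Int.comp₂ ?_ ?_ ?_; assumption) | (with_reducible refine Int.comp₃ ?_ ?_ ?_ ?_; assumption) | (with_reducible refine Int.comp₄ ?_ ?_ ?_ ?_ ?_; assumption) | (with_reducible refine IntF.comp ?_ ?_; assumption) | (with_reducible refine IntF.comp₂ ?_ ?_ ?_; assumption) | (with_reducible refine IntF.comp₃ ?_ ?_ ?_ ?_; assumption) | with_reducible apply IntF.pair)))
    refine INat.ind (p := fun n => ∀ s : IPow M (INat M), Sz n s → ∀ g : IFun M (INat M) (INat M),
      (∀ j, j ≤ n → g j ∈ s) → ∃ i j, i ≤ n ∧ j ≤ n ∧ i ≠ j ∧ g i = g j) (by (repeat' (first | with_reducible exact IntF.id | with_reducible exact IntF.fst' | with_reducible exact IntF.snd' | with_reducible exact IntF.const _ | with_reducible exact Int.const _ | assumption | with_reducible apply Int.and | with_reducible apply Int.or | with_reducible apply Int.not | with_reducible apply Int.imp | with_reducible apply Int.iff | with_reducible apply Int.ne | with_reducible apply Int.eq | with_reducible apply Int.mem | with_reducible apply Int.subset | with_reducible apply Int.ltN | with_reducible apply Int.leN | with_reducible_and_instances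 apply Int.le | with_reducible_and_instances apply Int.lt | with_reducible apply Int.all | with_reducible apply Int.ex | with_reducible apply IntF.fst | with_reducible apply IntF.snd | with_reducible apply IntF.app | with_reducible apply IntF.inl | with_reducible apply IntF.inr | with_reducible_and_instances apply IntF.mul | with_reducible_and_instances apply IntF.inv | with_reducible_and_instances apply IntF.add | with_reducible_and_instances apply IntF.sub | with_reducible_and_instances apply IntF.neg | with_reducible_and_instances apply IntF.smul | with_reducible apply Int.fin | with_reducible apply IntF.sep | with_reducible apply IntF.lam | with_reducible apply IntF.insert | with_reducible apply IntF.singleton | with_reducible apply IntF.union | with_reducible apply IntF.iimage | with_reducible apply IntF.ite | with_reducible apply IntF.the | with_reducible apply IntF.irec | with_reducible apply IntF.succ | with_reducible apply IntF.val | with_reducible apply IntF.mk | (with_reducible refine Int.comp ?_ ?_; assumption) | (with_reducible refine Int.comp₂ ?_ ?_ ?_; assumption) | (with_reducible refine Int.comp₃ ?_ ?_ ?_ ?_; assumption) | (with_reducible refine Int.comp₄ ?_ ?_ ?_ ?_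 ?_; assumption) | (with_reducible refine IntF.comp ?_ ?_; assumption) | (with_reducible refine IntF.comp₂ ?_ ?_ ?_; assumption) | (with_reducible refine IntF.comp₃ ?_ ?_ ?_ ?_; assumption) | with_reducible apply IntF.pair))) ?_ ?_
    · intro s hs g hg
      exact (hs.zero (hg 0 le_rfl)).elim
    · intro n ih s hs g hg
      by_cases hcon : ∃ j, j ≤ n ∧ g j = g n.succ
      · obtain ⟨j, hj, h1⟩ := hcon
        exact ⟨j, n.succ, hj.trans (le_of_lt (INat.lt_succ_self n)), le_rfl,
          fun h => absurd (h ▸ hj) (not_le.2 (INat.lt_succ_self n)), h1⟩
      · obtain ⟨i, j, h1, h2, h3, h4⟩ := ih _ (hs.erase (hg n.succ le_rfl)) g fun j hj =>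
          mem_sdiff.2 ⟨hg j (hj.trans (le_of_lt (INat.lt_succ_self n))),
            fun h => hcon ⟨j, hj, mem_singleton.1 h⟩⟩
        exact ⟨i, j, h1.trans (le_of_lt (INat.lt_succ_self n)),
          h2.trans (le_of_lt (INat.lt_succ_self n)), h3, h4⟩
  intro n g hg
  have hI : Int M (fun k : INat M => k < n) := by (repeat' (first | with_reducible exact IntF.id | with_reducible exact IntF.fst' | with_reducible exact IntF.snd' | with_reducible exact IntF.const _ | with_reducible exact Int.const _ | assumption | with_reducible apply Int.and | with_reducible apply Int.or | with_reducible apply Int.not | with_reducible apply Int.imp | with_reducible apply Int.iff | with_reducible apply Int.ne | with_reducible apply Int.eq | with_reducible apply Int.mem | with_reducible apply Int.subset | with_reducible apply Int.ltN | with_reducible apply Int.leN | with_reducible_and_instances apply Int.le | with_reducible_and_instances apply Int.lt | with_reducible apply Int.all | with_reducible apply Int.ex | with_reducible apply IntF.fst | with_reducible apply IntF.snd | with_reducible apply IntF.app | with_reducible apply IntF.inl | with_reducible apply IntF.inr | with_reducible_and_instances apply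 IntF.mul | with_reducible_and_instances apply IntF.inv | with_reducible_and_instances apply IntF.add | with_reducible_and_instances apply IntF.sub | with_reducible_and_instances apply IntF.neg | with_reducible_and_instances apply IntF.smul | with_reducible apply Int.fin | with_reducible apply IntF.sep | with_reducible apply IntF.lam | with_reducible apply IntF.insert | with_reducible apply IntF.singleton | with_reducible apply IntF.union | with_reducible apply IntF.iimage | with_reducible apply IntF.ite | with_reducible apply IntF.the | with_reducible apply IntF.irec | with_reducible apply IntF.succ | with_reducible apply IntF.val | with_reducible apply IntF.mk | (with_reducible refine Int.comp ?_ ?_; assumption) | (with_reducible refine Int.comp₂ ?_ ?_ ?_; assumption) | (with_reducible refine Int.comp₃ ?_ ?_ ?_ ?_; assumption) | (with_reducible refine Int.comp₄ ?_ ?_ ?_ ?_ ?_; assumption) | (with_reducible refine IntF.comp ?_ ?_; assumption) | (with_reducible refine IntF.comp₂ ?_ ?_ ?_; assumption) | (with_reducible refine IntF.comp₃ ?_ ?_ ?_ ?_; assumption) | with_reducible apply IntF.pair))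
  refine key n (sep M fun k => k < n) ⟨⟨fun k => k, IntF.id⟩, fun x hx => (mem_sep hI).1 hx,
    fun x y _ _ h => h⟩ g fun j hj => (mem_sep hI).2 (hg j hj)

/-! ### The space -/

/-- The selectors of a block. -/
def Sl (bl rk : A → INat M) (n : INat M) (s : IPow M A) : Prop :=
  (∀ a, a ∈ s → bl a = n) ∧ ∀ k, ∃ a, a ∈ s ∧ rk a = k ∧ ∀ b, b ∈ s → rk b = k → b = a

/-- The points. -/
def Pts (bl rk : A → INat M) (s : IPow M A) : Prop := (∀ a, ¬ a ∈ s) ∨ ∃ n, Sl bl rk n s

/-- Open sets. -/
def OpR (bl rk : A → INat M) (U : IPow M (IPow M A)) : Prop :=
  (∀ s, s ∈ U → Pts bl rk s) ∧
    ∀ s, s ∈ U → ∃ F, IFin F ∧ ∀ y, Pts bl rk y → Ag F s y → y ∈ U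

variable (hbl : IntF M bl) (hrk : IntF M rk)

include hbl hrk

theorem int_Sl : Int M (fun q : INat M × IPow M A => Sl bl rk q.1 q.2) := by
  unfold Sl
  (repeat' (first | with_reducible exact IntF.id | with_reducible exact IntF.fst' | with_reducible exact IntF.snd' | with_reducible exact IntF.const _ | with_reducible exact Int.const _ | assumption | with_reducible apply Int.and | with_reducible apply Int.or | with_reducible apply Int.not | with_reducible apply Int.imp | with_reducible apply Int.iff | with_reducible apply Int.ne | with_reducible apply Int.eq | with_reducible apply Int.mem | with_reducible apply Int.subset | with_reducible apply Int.ltN | with_reducible apply Int.leN | with_reducible_and_instances apply Int.le | with_reducible_and_instances apply Int.lt | with_reducible apply Int.all | with_reducible apply Int.ex | with_reducible apply IntF.fst | with_reducible apply IntF.snd | with_reducible apply IntF.app | with_reducible apply IntF.inl | with_reducible apply IntF.inr | with_reducible_and_instances apply IntF.mul | with_reducible_and_instances apply IntF.inv | with_reducible_and_instances apply IntF.add | with_reducible_and_instances apply IntF.sub | with_reducible_and_instances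 apply IntF.neg | with_reducible_and_instances apply IntF.smul | with_reducible apply Int.fin | with_reducible apply IntF.sep | with_reducible apply IntF.lam | with_reducible apply IntF.insert | with_reducible apply IntF.singleton | with_reducible apply IntF.union | with_reducible apply IntF.iimage | with_reducible apply IntF.ite | with_reducible apply IntF.the | with_reducible apply IntF.irec | with_reducible apply IntF.succ | with_reducible apply IntF.val | with_reducible apply IntF.mk | (with_reducible refine Int.comp ?_ ?_; assumption) | (with_reducible refine Int.comp₂ ?_ ?_ ?_; assumption) | (with_reducible refine Int.comp₃ ?_ ?_ ?_ ?_; assumption) | (with_reducible refine Int.comp₄ ?_ ?_ ?_ ?_ ?_; assumption) | (with_reducible refine IntF.comp ?_ ?_; assumption) | (with_reducible refine IntF.comp₂ ?_ ?_ ?_; assumption) | (with_reducible refine IntF.comp₃ ?_ ?_ ?_ ?_; assumption) | with_reducible apply IntF.pair))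

theorem int_Pts : Int M (Pts bl rk) := by
  have h := int_Sl hbl hrk
  unfold Pts
  (repeat' (first | with_reducible exact IntF.id | with_reducible exact IntF.fst' | with_reducible exact IntF.snd' | with_reducible exact IntF.const _ | with_reducible exact Int.const _ | assumption | with_reducible apply Int.and | with_reducible apply Int.or | with_reducible apply Int.not | with_reducible apply Int.imp | with_reducible apply Int.iff | with_reducible apply Int.ne | with_reducible apply Int.eq | with_reducible apply Int.mem | with_reducible apply Int.subset | with_reducible apply Int.ltN | with_reducible apply Int.leN | with_reducible_and_instances apply Int.le | with_reducible_and_instances apply Int.lt | with_reducible apply Int.all | with_reducible apply Int.ex | with_reducible apply IntF.fst | with_reducible apply IntF.snd | with_reducible apply IntF.app | with_reducible apply IntF.inl | with_reducible apply IntF.inr | with_reducible_and_instances apply IntF.mul | with_reducible_and_instances apply IntF.inv | with_reducible_and_instances apply IntF.add | with_reducible_and_instances apply IntF.sub | with_reducible_and_instances apply IntF.neg | with_reducible_and_instances apply IntF.smul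 | with_reducible apply Int.fin | with_reducible apply IntF.sep | with_reducible apply IntF.lam | with_reducible apply IntF.insert | with_reducible apply IntF.singleton | with_reducible apply IntF.union | with_reducible apply IntF.iimage | with_reducible apply IntF.ite | with_reducible apply IntF.the | with_reducible apply IntF.irec | with_reducible apply IntF.succ | with_reducible apply IntF.val | with_reducible apply IntF.mk | (with_reducible refine Int.comp ?_ ?_; assumption) | (with_reducible refine Int.comp₂ ?_ ?_ ?_; assumption) | (with_reducible refine Int.comp₃ ?_ ?_ ?_ ?_; assumption) | (with_reducible refine Int.comp₄ ?_ ?_ ?_ ?_ ?_; assumption) | (with_reducible refine IntF.comp ?_ ?_; assumption) | (with_reducible refine IntF.comp₂ ?_ ?_ ?_; assumption) | (with_reducible refine IntF.comp₃ ?_ ?_ ?_ ?_; assumption) | with_reducible apply IntF.pair))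

theorem int_OpR : Int M (OpR bl rk) := by
  have h := int_Pts hbl hrk
  have h1 := int_Ag (M := M) (J := A)
  have h2 : Int M (fun q : ((IPow M (IPow M A) × IPow M A) × IPow M A) × IPow M A =>
      Ag q.1.2 q.1.1.2 q.2) := by (repeat' (first | with_reducible exact IntF.id | with_reducible exact IntF.fst' | with_reducible exact IntF.snd' | with_reducible exact IntF.const _ | with_reducible exact Int.const _ | assumption | with_reducible apply Int.and | with_reducible apply Int.or | with_reducible apply Int.not | with_reducible apply Int.imp | with_reducible apply Int.iff | with_reducible apply Int.ne | with_reducible apply Int.eq | with_reducible apply Int.mem | with_reducible apply Int.subset | with_reducible apply Int.ltN | with_reducible apply Int.leN | with_reducible_and_instances apply Int.le | with_reducible_and_instances apply Int.lt | with_reducible apply Int.all | with_reducible apply Int.ex | with_reducible apply IntF.fst | with_reducible apply IntF.snd | with_reducible apply IntF.app | with_reducible apply IntF.inl | with_reducible apply IntF.inr | with_reducible_and_instances apply IntF.mul | with_reducible_and_instances apply IntF.inv | with_reducible_and_instances apply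 IntF.add | with_reducible_and_instances apply IntF.sub | with_reducible_and_instances apply IntF.neg | with_reducible_and_instances apply IntF.smul | with_reducible apply Int.fin | with_reducible apply IntF.sep | with_reducible apply IntF.lam | with_reducible apply IntF.insert | with_reducible apply IntF.singleton | with_reducible apply IntF.union | with_reducible apply IntF.iimage | with_reducible apply IntF.ite | with_reducible apply IntF.the | with_reducible apply IntF.irec | with_reducible apply IntF.succ | with_reducible apply IntF.val | with_reducible apply IntF.mk | (with_reducible refine Int.comp ?_ ?_; assumption) | (with_reducible refine Int.comp₂ ?_ ?_ ?_; assumption) | (with_reducible refine Int.comp₃ ?_ ?_ ?_ ?_; assumption) | (with_reducible refine Int.comp₄ ?_ ?_ ?_ ?_ ?_; assumption) | (with_reducible refine IntF.comp ?_ ?_; assumption) | (with_reducible refine IntF.comp₂ ?_ ?_ ?_; assumption) | (with_reducible refine IntF.comp₃ ?_ ?_ ?_ ?_; assumption) | with_reducible apply IntF.pair))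
  unfold OpR
  (repeat' (first | with_reducible exact IntF.id | with_reducible exact IntF.fst' | with_reducible exact IntF.snd' | with_reducible exact IntF.const _ | with_reducible exact Int.const _ | assumption | with_reducible apply Int.and | with_reducible apply Int.or | with_reducible apply Int.not | with_reducible apply Int.imp | with_reducible apply Int.iff | with_reducible apply Int.ne | with_reducible apply Int.eq | with_reducible apply Int.mem | with_reducible apply Int.subset | with_reducible apply Int.ltN | with_reducible apply Int.leN | with_reducible_and_instances apply Int.le | with_reducible_and_instances apply Int.lt | with_reducible apply Int.all | with_reducible apply Int.ex | with_reducible apply IntF.fst | with_reducible apply IntF.snd | with_reducible apply IntF.app | with_reducible apply IntF.inl | with_reducible apply IntF.inr | with_reducible_and_instances apply IntF.mul | with_reducible_and_instances apply IntF.inv | with_reducible_and_instances apply IntF.add | with_reducible_and_instances apply IntF.sub | with_reducible_and_instances apply IntF.neg | with_reducible_and_instances apply IntF.smul | with_reducible apply Int.fin | with_reducible apply IntF.sep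 | with_reducible apply IntF.lam | with_reducible apply IntF.insert | with_reducible apply IntF.singleton | with_reducible apply IntF.union | with_reducible apply IntF.iimage | with_reducible apply IntF.ite | with_reducible apply IntF.the | with_reducible apply IntF.irec | with_reducible apply IntF.succ | with_reducible apply IntF.val | with_reducible apply IntF.mk | (with_reducible refine Int.comp ?_ ?_; assumption) | (with_reducible refine Int.comp₂ ?_ ?_ ?_; assumption) | (with_reducible refine Int.comp₃ ?_ ?_ ?_ ?_; assumption) | (with_reducible refine Int.comp₄ ?_ ?_ ?_ ?_ ?_; assumption) | (with_reducible refine IntF.comp ?_ ?_; assumption) | (with_reducible refine IntF.comp₂ ?_ ?_ ?_; assumption) | (with_reducible refine IntF.comp₃ ?_ ?_ ?_ ?_; assumption) | with_reducible apply IntF.pair))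

omit hbl hrk in
theorem Sl.pts {n : INat M} {s : IPow M A} (h : Sl bl rk n s) : Pts bl rk s := Or.inr ⟨n, h⟩

omit hbl hrk in
theorem Sl.eq {n : INat M} {s : IPow M A} (h : Sl bl rk n s) {a : A} (ha : a ∈ s) :
    bl a = n := h.1 a ha

omit hbl hrk in
theorem Pts.sl {s : IPow M A} (h : Pts bl rk s) {a : A} (ha : a ∈ s) : Sl bl rk (bl a) s := by
  rcases h with h | ⟨n, h⟩
  · exact absurd ha (h a)
  · rw [h.1 a ha]
    exact h

omit hbl hrk in
theorem Sl.ex {n : INat M} {s : IPow M A} (h : Sl bl rk n s) : ∃ a, a ∈ s := by
  obtain ⟨a, ha, -⟩ := h.2 0
  exact ⟨a, ha⟩

section compact

variable {c : IPow M (IPow M (IPow M A))} (hc : ∀ U, U ∈ c → OpR bl rk U)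
  (hcov : ∀ s, Pts bl rk s → ∃ U, U ∈ c ∧ s ∈ U)

include hc hcov in
theorem fc_block (hB : RB M bl rk) (n : INat M) : Fc c (Sl bl rk n) := by
  have hSl := int_Sl hbl hrk
  obtain ⟨e, he, h1, h2, h3⟩ := hB.en n
  obtain ⟨a₀, -, -, -⟩ := h3 0 0 le_rfl
  have hI₀ : Int M (fun q : (INat M × INat M) × A =>
      bl q.2 = n ∧ rk q.2 = q.1.1 ∧ e q.2 = q.1.2) := by (repeat' (first | with_reducible exact IntF.id | with_reducible exact IntF.fst' | with_reducible exact IntF.snd' | with_reducible exact IntF.const _ | with_reducible exact Int.const _ | assumption | with_reducible apply Int.and | with_reducible apply Int.or | with_reducible apply Int.not | with_reducible apply Int.imp | with_reducible apply Int.iff | with_reducible apply Int.ne | with_reducible apply Int.eq | with_reducible apply Int.mem | with_reducible apply Int.subset | with_reducible apply Int.ltN | with_reducible apply Int.leN | with_reducible_and_instances apply Int.le | with_reducible_and_instances apply Int.lt | with_reducible apply Int.all | with_reducible apply Int.ex | with_reducible apply IntF.fst | with_reducible apply IntF.snd | with_reducible apply IntF.app | with_reducible apply IntF.inl | with_reducible apply IntF.inr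 | with_reducible_and_instances apply IntF.mul | with_reducible_and_instances apply IntF.inv | with_reducible_and_instances apply IntF.add | with_reducible_and_instances apply IntF.sub | with_reducible_and_instances apply IntF.neg | with_reducible_and_instances apply IntF.smul | with_reducible apply Int.fin | with_reducible apply IntF.sep | with_reducible apply IntF.lam | with_reducible apply IntF.insert | with_reducible apply IntF.singleton | with_reducible apply IntF.union | with_reducible apply IntF.iimage | with_reducible apply IntF.ite | with_reducible apply IntF.the | with_reducible apply IntF.irec | with_reducible apply IntF.succ | with_reducible apply IntF.val | with_reducible apply IntF.mk | (with_reducible refine Int.comp ?_ ?_; assumption) | (with_reducible refine Int.comp₂ ?_ ?_ ?_; assumption) | (with_reducible refine Int.comp₃ ?_ ?_ ?_ ?_; assumption) | (with_reducible refine Int.comp₄ ?_ ?_ ?_ ?_ ?_; assumption) | (with_reducible refine IntF.comp ?_ ?_; assumption) | (with_reducible refine IntF.comp₂ ?_ ?_ ?_; assumption) | (with_reducible refine IntF.comp₃ ?_ ?_ ?_ ?_; assumption) | with_reducible apply IntF.pair))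
  obtain ⟨at', hat, hats⟩ : ∃ at' : INat M × INat M → A, IntF M at' ∧ ∀ m j, j ≤ m →
      bl (at' (m, j)) = n ∧ rk (at' (m, j)) = m ∧ e (at' (m, j)) = j := by
    refine ⟨fun q => the (fun a : A => bl a = n ∧ rk a = q.1 ∧ e a = q.2) a₀,
      IntF.the hI₀ (IntF.const _), fun m j hj => ?_⟩
    obtain ⟨a, h4, h5, h6⟩ := h3 m j hj
    have h7 : the (fun a : A => bl a = n ∧ rk a = m ∧ e a = j) a₀ = a :=
      the_eq ⟨a, ⟨h4, h5, h6⟩, fun b hb => h2 b a hb.1 h4
        (hb.2.1.trans h5.symm) (hb.2.2.trans h6.symm)⟩ ⟨h4, h5, h6⟩
    change bl (the (fun a : A => bl a = n ∧ rk a = m ∧ e a = j) a₀) = n ∧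
      rk (the (fun a : A => bl a = n ∧ rk a = m ∧ e a = j) a₀) = m ∧
      e (the (fun a : A => bl a = n ∧ rk a = m ∧ e a = j) a₀) = j
    rw [h7]
    exact ⟨h4, h5, h6⟩
  -- cylinders
  have hCyl : Int M (fun q : (IPow M A × INat M) × IPow M A => Sl bl rk n q.2 ∧
      ∀ a, bl a = n → rk a < q.1.2 → (a ∈ q.2 ↔ a ∈ q.1.1)) := by (repeat' (first | with_reducible exact IntF.id | with_reducible exact IntF.fst' | with_reducible exact IntF.snd' | with_reducible exact IntF.const _ | with_reducible exact Int.const _ | assumption | with_reducible apply Int.and | with_reducible apply Int.or | with_reducible apply Int.not | with_reducible apply Int.imp | with_reducible apply Int.iff | with_reducible apply Int.ne | with_reducible apply Int.eq | with_reducible apply Int.mem | with_reducible apply Int.subset | with_reducible apply Int.ltN | with_reducible apply Int.leN | with_reducible_and_instances apply Int.le | with_reducible_and_instances apply Int.lt | with_reducible apply Int.all | with_reducible apply Int.ex | with_reducible apply IntF.fst | with_reducible apply IntF.snd | with_reducible apply IntF.app | with_reducible apply IntF.inl | with_reducible apply IntF.inr | with_reducible_and_instances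 apply IntF.mul | with_reducible_and_instances apply IntF.inv | with_reducible_and_instances apply IntF.add | with_reducible_and_instances apply IntF.sub | with_reducible_and_instances apply IntF.neg | with_reducible_and_instances apply IntF.smul | with_reducible apply Int.fin | with_reducible apply IntF.sep | with_reducible apply IntF.lam | with_reducible apply IntF.insert | with_reducible apply IntF.singleton | with_reducible apply IntF.union | with_reducible apply IntF.iimage | with_reducible apply IntF.ite | with_reducible apply IntF.the | with_reducible apply IntF.irec | with_reducible apply IntF.succ | with_reducible apply IntF.val | with_reducible apply IntF.mk | (with_reducible refine Int.comp ?_ ?_; assumption) | (with_reducible refine Int.comp₂ ?_ ?_ ?_; assumption) | (with_reducible refine Int.comp₃ ?_ ?_ ?_ ?_; assumption) | (with_reducible refine Int.comp₄ ?_ ?_ ?_ ?_ ?_; assumption) | (with_reducible refine IntF.comp ?_ ?_; assumption) | (with_reducible refine IntF.comp₂ ?_ ?_ ?_; assumption) | (with_reducible refine IntF.comp₃ ?_ ?_ ?_ ?_; assumption) | with_reducible apply IntF.pair))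
  obtain ⟨Gd, hGd, hGd'⟩ : ∃ Gd : IPow M A × INat M → Prop, Int M Gd ∧ ∀ s m, Gd (s, m) ↔
      Fc c (fun x => Sl bl rk n x ∧ ∀ a, bl a = n → rk a < m → (a ∈ x ↔ a ∈ s)) :=
    ⟨_, int_Fc hCyl, fun _ _ => Iff.rfl⟩
  by_contra hcon
  -- the least bad extension
  have hP : Int M (fun q : (INat M × IPow M A) × INat M => q.2 ≤ q.1.1 ∧
      ¬ Gd (insert (at' (q.1.1, q.2)) q.1.2, q.1.1.succ) ∧
      ∀ i, i < q.2 → Gd (insert (at' (q.1.1, i)) q.1.2, q.1.1.succ)) := by (repeat' (first | with_reducible exact IntF.id | with_reducible exact IntF.fst' | with_reducible exact IntF.snd' | with_reducible exact IntF.const _ | with_reducible exact Int.const _ | assumption | with_reducible apply Int.and | with_reducible apply Int.or | with_reducible apply Int.not | with_reducible apply Int.imp | with_reducible apply Int.iff | with_reducible apply Int.ne | with_reducible apply Int.eq | with_reducible apply Int.mem | with_reducible apply Int.subset | with_reducible apply Int.ltN | with_reducible apply Int.leN | with_reducible_and_instances apply Int.le | with_reducible_and_instances apply Int.lt | with_reducible apply Int.all | with_reducible apply Int.ex | with_reducible apply IntF.fst | with_reducible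 apply IntF.snd | with_reducible apply IntF.app | with_reducible apply IntF.inl | with_reducible apply IntF.inr | with_reducible_and_instances apply IntF.mul | with_reducible_and_instances apply IntF.inv | with_reducible_and_instances apply IntF.add | with_reducible_and_instances apply IntF.sub | with_reducible_and_instances apply IntF.neg | with_reducible_and_instances apply IntF.smul | with_reducible apply Int.fin | with_reducible apply IntF.sep | with_reducible apply IntF.lam | with_reducible apply IntF.insert | with_reducible apply IntF.singleton | with_reducible apply IntF.union | with_reducible apply IntF.iimage | with_reducible apply IntF.ite | with_reducible apply IntF.the | with_reducible apply IntF.irec | with_reducible apply IntF.succ | with_reducible apply IntF.val | with_reducible apply IntF.mk | (with_reducible refine Int.comp ?_ ?_; assumption) | (with_reducible refine Int.comp₂ ?_ ?_ ?_; assumption) | (with_reducible refine Int.comp₃ ?_ ?_ ?_ ?_; assumption) | (with_reducible refine Int.comp₄ ?_ ?_ ?_ ?_ ?_; assumption) | (with_reducible refine IntF.comp ?_ ?_; assumption) | (with_reducible refine IntF.comp₂ ?_ ?_ ?_; assumption) | (with_reducible refine IntF.comp₃ ?_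 ?_ ?_ ?_; assumption) | with_reducible apply IntF.pair))
  have hj' : IntF M (fun q : INat M × IPow M A => the (fun j : INat M => j ≤ q.1 ∧
      ¬ Gd (insert (at' (q.1, j)) q.2, q.1.succ) ∧
      ∀ i, i < j → Gd (insert (at' (q.1, i)) q.2, q.1.succ)) 0) := IntF.the hP (IntF.const _)
  obtain ⟨st, hst, hst'⟩ : ∃ st : INat M × IPow M A → IPow M A, IntF M st ∧ ∀ m s j, j ≤ m →
      ¬ Gd (insert (at' (m, j)) s, m.succ) →
      (∀ i, i < j → Gd (insert (at' (m, i)) s, m.succ)) → st (m, s) = insert (at' (m, j)) s := by
    refine ⟨fun q => insert (at' (q.1, the (fun j : INat M => j ≤ q.1 ∧
      ¬ Gd (insert (at' (q.1, j)) q.2, q.1.succ) ∧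
      ∀ i, i < j → Gd (insert (at' (q.1, i)) q.2, q.1.succ)) 0)) q.2, by (repeat' (first | with_reducible exact IntF.id | with_reducible exact IntF.fst' | with_reducible exact IntF.snd' | with_reducible exact IntF.const _ | with_reducible exact Int.const _ | assumption | with_reducible apply Int.and | with_reducible apply Int.or | with_reducible apply Int.not | with_reducible apply Int.imp | with_reducible apply Int.iff | with_reducible apply Int.ne | with_reducible apply Int.eq | with_reducible apply Int.mem | with_reducible apply Int.subset | with_reducible apply Int.ltN | with_reducible apply Int.leN | with_reducible_and_instances apply Int.le | with_reducible_and_instances apply Int.lt | with_reducible apply Int.all | with_reducible apply Int.ex | with_reducible apply IntF.fst | with_reducible apply IntF.snd | with_reducible apply IntF.app | with_reducible apply IntF.inl | with_reducible apply IntF.inr | with_reducible_and_instances apply IntF.mul | with_reducible_and_instances apply IntF.inv | with_reducible_and_instances apply IntF.add | with_reducible_and_instances apply IntF.sub | with_reducible_and_instances apply IntF.neg | with_reducible_and_instances apply IntF.smul | with_reducible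 apply Int.fin | with_reducible apply IntF.sep | with_reducible apply IntF.lam | with_reducible apply IntF.insert | with_reducible apply IntF.singleton | with_reducible apply IntF.union | with_reducible apply IntF.iimage | with_reducible apply IntF.ite | with_reducible apply IntF.the | with_reducible apply IntF.irec | with_reducible apply IntF.succ | with_reducible apply IntF.val | with_reducible apply IntF.mk | (with_reducible refine Int.comp ?_ ?_; assumption) | (with_reducible refine Int.comp₂ ?_ ?_ ?_; assumption) | (with_reducible refine Int.comp₃ ?_ ?_ ?_ ?_; assumption) | (with_reducible refine Int.comp₄ ?_ ?_ ?_ ?_ ?_; assumption) | (with_reducible refine IntF.comp ?_ ?_; assumption) | (with_reducible refine IntF.comp₂ ?_ ?_ ?_; assumption) | (with_reducible refine IntF.comp₃ ?_ ?_ ?_ ?_; assumption) | with_reducible apply IntF.pair)),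
      fun m s j h4 h5 h6 => ?_⟩
    have h7 : the (fun j : INat M => j ≤ m ∧ ¬ Gd (insert (at' (m, j)) s, m.succ) ∧
      ∀ i, i < j → Gd (insert (at' (m, i)) s, m.succ)) 0 = j := by
      refine the_eq ⟨j, ⟨h4, h5, h6⟩, ?_⟩ ⟨h4, h5, h6⟩
      rintro j' ⟨h8, h9, h10⟩
      rcases lt_trichotomy j' j with h11 | h11 | h11
      · exact absurd (h6 j' h11) h9
      · exact h11
      · exact absurd (h10 j h11) h5
    change insert (at' (m, the (fun j : INat M => j ≤ m ∧ ¬ Gd (insert (at' (m, j)) s, m.succ) ∧
      ∀ i, i < j → Gd (insert (at' (m, i)) s, m.succ)) 0)) s = _
    rw [h7]
  have hstep : ∀ m s, (∀ a, a ∈ s → bl a = n ∧ rk a < m) → ¬ Gd (s, m) →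
      ∃ b, bl b = n ∧ rk b = m ∧ st (m, s) = insert b s ∧ ¬ Gd (st (m, s), m.succ) := by
    intro m s hs hbad
    have h4 : ∃ j, j ≤ m ∧ ¬ Gd (insert (at' (m, j)) s, m.succ) := by
      by_contra h4
      push Not at h4
      have hT : Int M (fun q : INat M × IPow M A => Sl bl rk n q.2 ∧ ∀ a, bl a = n →
          rk a < m.succ → (a ∈ q.2 ↔ a ∈ insert (at' (m, q.1)) s)) := by (repeat' (first | with_reducible exact IntF.id | with_reducible exact IntF.fst' | with_reducible exact IntF.snd' | with_reducible exact IntF.const _ | with_reducible exact Int.const _ | assumption | with_reducible apply Int.and | with_reducible apply Int.or | with_reducible apply Int.not | with_reducible apply Int.imp | with_reducible apply Int.iff | with_reducible apply Int.ne | with_reducible apply Int.eq | with_reducible apply Int.mem | with_reducible apply Int.subset | with_reducible apply Int.ltN | with_reducible apply Int.leN | with_reducible_and_instances apply Int.le | with_reducible_and_instances apply Int.lt | with_reducible apply Int.all | with_reducible apply Int.ex | with_reducible apply IntF.fst | with_reducible apply IntF.snd | with_reducible apply IntF.app | with_reducible apply IntF.inl | with_reducible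 apply IntF.inr | with_reducible_and_instances apply IntF.mul | with_reducible_and_instances apply IntF.inv | with_reducible_and_instances apply IntF.add | with_reducible_and_instances apply IntF.sub | with_reducible_and_instances apply IntF.neg | with_reducible_and_instances apply IntF.smul | with_reducible apply Int.fin | with_reducible apply IntF.sep | with_reducible apply IntF.lam | with_reducible apply IntF.insert | with_reducible apply IntF.singleton | with_reducible apply IntF.union | with_reducible apply IntF.iimage | with_reducible apply IntF.ite | with_reducible apply IntF.the | with_reducible apply IntF.irec | with_reducible apply IntF.succ | with_reducible apply IntF.val | with_reducible apply IntF.mk | (with_reducible refine Int.comp ?_ ?_; assumption) | (with_reducible refine Int.comp₂ ?_ ?_ ?_; assumption) | (with_reducible refine Int.comp₃ ?_ ?_ ?_ ?_; assumption) | (with_reducible refine Int.comp₄ ?_ ?_ ?_ ?_ ?_; assumption) | (with_reducible refine IntF.comp ?_ ?_; assumption) | (with_reducible refine IntF.comp₂ ?_ ?_ ?_; assumption) | (with_reducible refine IntF.comp₃ ?_ ?_ ?_ ?_; assumption) | with_reducible apply IntF.pair))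
      refine hbad ((hGd' _ _).2 ((Fc.bounded (c := c) hT m.succ fun j hj =>
        (hGd' _ _).1 (h4 j (INat.lt_succ_iff.1 hj))).mono ?_))
      rintro x ⟨hx, hx'⟩
      obtain ⟨b, hb, hb', hb''⟩ := hx.2 m
      have hbn := hx.1 b hb
      have hbe : e b ≤ m := hb' ▸ h1 b hbn
      obtain ⟨h5, h6, h7⟩ := hats m (e b) hbe
      have h8 : at' (m, e b) = b := h2 _ _ h5 hbn (h6.trans hb'.symm) h7
      refine ⟨e b, INat.lt_succ_iff.2 hbe, hx, fun a ha ham => ?_⟩
      change a ∈ x ↔ a ∈ insert (at' (m, e b)) s
      rw [h8, mem_insert]
      rcases INat.lt_succ_iff'.1 ham with h9 | h9
      · rw [hx' a ha h9]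
        exact ⟨Or.inr, fun h => h.resolve_left fun h => by
          rw [h, hb'] at h9
          exact absurd h9 (lt_irrefl m)⟩
      · constructor
        · exact fun h => Or.inl (hb'' a h h9)
        · rintro (rfl | h)
          · exact hb
          · exact absurd (hs a h).2 (by rw [h9]; exact lt_irrefl m)
    obtain ⟨j, hj, hmin⟩ := INat.exists_least (p := fun j : INat M => j ≤ m ∧
      ¬ Gd (insert (at' (m, j)) s, m.succ)) (by (repeat' (first | with_reducible exact IntF.id | with_reducible exact IntF.fst' | with_reducible exact IntF.snd' | with_reducible exact IntF.const _ | with_reducible exact Int.const _ | assumption | with_reducible apply Int.and | with_reducible apply Int.or | with_reducible apply Int.not | with_reducible apply Int.imp | with_reducible apply Int.iff | with_reducible apply Int.ne | with_reducible apply Int.eq | with_reducible apply Int.mem | with_reducible apply Int.subset | with_reducible apply Int.ltN | with_reducible apply Int.leN | with_reducible_and_instances apply Int.le | with_reducible_and_instances apply Int.lt | with_reducible apply Int.all | with_reducible apply Int.ex | with_reducible apply IntF.fst | with_reducible apply IntF.snd | with_reducible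 apply IntF.app | with_reducible apply IntF.inl | with_reducible apply IntF.inr | with_reducible_and_instances apply IntF.mul | with_reducible_and_instances apply IntF.inv | with_reducible_and_instances apply IntF.add | with_reducible_and_instances apply IntF.sub | with_reducible_and_instances apply IntF.neg | with_reducible_and_instances apply IntF.smul | with_reducible apply Int.fin | with_reducible apply IntF.sep | with_reducible apply IntF.lam | with_reducible apply IntF.insert | with_reducible apply IntF.singleton | with_reducible apply IntF.union | with_reducible apply IntF.iimage | with_reducible apply IntF.ite | with_reducible apply IntF.the | with_reducible apply IntF.irec | with_reducible apply IntF.succ | with_reducible apply IntF.val | with_reducible apply IntF.mk | (with_reducible refine Int.comp ?_ ?_; assumption) | (with_reducible refine Int.comp₂ ?_ ?_ ?_; assumption) | (with_reducible refine Int.comp₃ ?_ ?_ ?_ ?_; assumption) | (with_reducible refine Int.comp₄ ?_ ?_ ?_ ?_ ?_; assumption) | (with_reducible refine IntF.comp ?_ ?_; assumption) | (with_reducible refine IntF.comp₂ ?_ ?_ ?_; assumption) | (with_reducible refine IntF.comp₃ ?_ ?_ ?_ ?_; assumption) | with_reducible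 apply IntF.pair))) h4
    have h5 : st (m, s) = insert (at' (m, j)) s := hst' m s j hj.1 hj.2 fun i hi => by
      by_contra h8
      exact absurd (hmin i ⟨(le_of_lt hi).trans hj.1, h8⟩) (not_le.2 hi)
    obtain ⟨h6, h7, -⟩ := hats m j hj.1
    refine ⟨at' (m, j), h6, h7, h5, ?_⟩
    rw [h5]
    exact hj.2
  have hst₂ : IntF M (fun q : INat M × IPow M A => (fun m s => st (m, s)) q.1 q.2) := by
    have h4 : (fun q : INat M × IPow M A => (fun m s => st (m, s)) q.1 q.2) = st := rfl
    rw [h4]
    exact hst
  obtain ⟨sq, hsq, hsq0, hsqs⟩ : ∃ sq : INat M → IPow M A, IntF M sq ∧ sq 0 = ∅ ∧
      ∀ m, sq m.succ = st (m, sq m) := by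
    refine ⟨fun m => irec (∅ : IPow M A) (fun m s => st (m, s)) m, ?_, irec_zero hst₂,
      fun m => irec_succ hst₂ m⟩
    refine IntF.irec (f := fun _ m s => st (m, s)) (IntF.const _) ?_ IntF.id
    exact IntF.comp (g := st) (f := fun q : (INat M × INat M) × IPow M A => (q.1.2, q.2)) hst
      (by (repeat' (first | with_reducible exact IntF.id | with_reducible exact IntF.fst' | with_reducible exact IntF.snd' | with_reducible exact IntF.const _ | with_reducible exact Int.const _ | assumption | with_reducible apply Int.and | with_reducible apply Int.or | with_reducible apply Int.not | with_reducible apply Int.imp | with_reducible apply Int.iff | with_reducible apply Int.ne | with_reducible apply Int.eq | with_reducible apply Int.mem | with_reducible apply Int.subset | with_reducible apply Int.ltN | with_reducible apply Int.leN | with_reducible_and_instances apply Int.le | with_reducible_and_instances apply Int.lt | with_reducible apply Int.all | with_reducible apply Int.ex | with_reducible apply IntF.fst | with_reducible apply IntF.snd | with_reducible apply IntF.app | with_reducible apply IntF.inl | with_reducible apply IntF.inr | with_reducible_and_instances apply IntF.mul | with_reducible_and_instances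 apply IntF.inv | with_reducible_and_instances apply IntF.add | with_reducible_and_instances apply IntF.sub | with_reducible_and_instances apply IntF.neg | with_reducible_and_instances apply IntF.smul | with_reducible apply Int.fin | with_reducible apply IntF.sep | with_reducible apply IntF.lam | with_reducible apply IntF.insert | with_reducible apply IntF.singleton | with_reducible apply IntF.union | with_reducible apply IntF.iimage | with_reducible apply IntF.ite | with_reducible apply IntF.the | with_reducible apply IntF.irec | with_reducible apply IntF.succ | with_reducible apply IntF.val | with_reducible apply IntF.mk | (with_reducible refine Int.comp ?_ ?_; assumption) | (with_reducible refine Int.comp₂ ?_ ?_ ?_; assumption) | (with_reducible refine Int.comp₃ ?_ ?_ ?_ ?_; assumption) | (with_reducible refine Int.comp₄ ?_ ?_ ?_ ?_ ?_; assumption) | (with_reducible refine IntF.comp ?_ ?_; assumption) | (with_reducible refine IntF.comp₂ ?_ ?_ ?_; assumption) | (with_reducible refine IntF.comp₃ ?_ ?_ ?_ ?_; assumption) | with_reducible apply IntF.pair)))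
  have hinv : ∀ m, (∀ a, a ∈ sq m → bl a = n ∧ rk a < m) ∧ ¬ Gd (sq m, m) := by
    refine INat.ind (p := fun m => (∀ a, a ∈ sq m → bl a = n ∧ rk a < m) ∧ ¬ Gd (sq m, m))
      (by (repeat' (first | with_reducible exact IntF.id | with_reducible exact IntF.fst' | with_reducible exact IntF.snd' | with_reducible exact IntF.const _ | with_reducible exact Int.const _ | assumption | with_reducible apply Int.and | with_reducible apply Int.or | with_reducible apply Int.not | with_reducible apply Int.imp | with_reducible apply Int.iff | with_reducible apply Int.ne | with_reducible apply Int.eq | with_reducible apply Int.mem | with_reducible apply Int.subset | with_reducible apply Int.ltN | with_reducible apply Int.leN | with_reducible_and_instances apply Int.le | with_reducible_and_instances apply Int.lt | with_reducible apply Int.all | with_reducible apply Int.ex | with_reducible apply IntF.fst | with_reducible apply IntF.snd | with_reducible apply IntF.app | with_reducible apply IntF.inl | with_reducible apply IntF.inr | with_reducible_and_instances apply IntF.mul | with_reducible_and_instances apply IntF.inv | with_reducible_and_instances apply IntF.add | with_reducible_and_instances apply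 IntF.sub | with_reducible_and_instances apply IntF.neg | with_reducible_and_instances apply IntF.smul | with_reducible apply Int.fin | with_reducible apply IntF.sep | with_reducible apply IntF.lam | with_reducible apply IntF.insert | with_reducible apply IntF.singleton | with_reducible apply IntF.union | with_reducible apply IntF.iimage | with_reducible apply IntF.ite | with_reducible apply IntF.the | with_reducible apply IntF.irec | with_reducible apply IntF.succ | with_reducible apply IntF.val | with_reducible apply IntF.mk | (with_reducible refine Int.comp ?_ ?_; assumption) | (with_reducible refine Int.comp₂ ?_ ?_ ?_; assumption) | (with_reducible refine Int.comp₃ ?_ ?_ ?_ ?_; assumption) | (with_reducible refine Int.comp₄ ?_ ?_ ?_ ?_ ?_; assumption) | (with_reducible refine IntF.comp ?_ ?_; assumption) | (with_reducible refine IntF.comp₂ ?_ ?_ ?_; assumption) | (with_reducible refine IntF.comp₃ ?_ ?_ ?_ ?_; assumption) | with_reducible apply IntF.pair))) ?_ ?_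
    · rw [hsq0]
      refine ⟨fun a ha => absurd ha (by simp), fun h => hcon (((hGd' _ _).1 h).mono
        fun x hx => ⟨hx, ?_⟩)⟩
      exact fun a _ h => absurd h INat.not_lt_zero
    · intro m ih
      obtain ⟨b, h4, h5, h6, h7⟩ := hstep m _ ih.1 ih.2
      rw [hsqs]
      refine ⟨fun a ha => ?_, h7⟩
      rw [h6, mem_insert] at ha
      rcases ha with rfl | ha
      · exact ⟨h4, h5 ▸ INat.lt_succ_self _⟩
      · exact ⟨(ih.1 a ha).1, (ih.1 a ha).2.trans (INat.lt_succ_self m)⟩
  have hnew : ∀ m, ∃ b, bl b = n ∧ rk b = m ∧ sq m.succ = insert b (sq m) := by
    intro m
    obtain ⟨b, h4, h5, h6, h7⟩ := hstep m _ (hinv m).1 (hinv m).2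
    exact ⟨b, h4, h5, (hsqs m).trans h6⟩
  have hmono : ∀ m a, rk a < m → (a ∈ sq m ↔ a ∈ sq (rk a).succ) := by
    refine INat.ind (p := fun m => ∀ a, rk a < m → (a ∈ sq m ↔ a ∈ sq (rk a).succ))
      (by (repeat' (first | with_reducible exact IntF.id | with_reducible exact IntF.fst' | with_reducible exact IntF.snd' | with_reducible exact IntF.const _ | with_reducible exact Int.const _ | assumption | with_reducible apply Int.and | with_reducible apply Int.or | with_reducible apply Int.not | with_reducible apply Int.imp | with_reducible apply Int.iff | with_reducible apply Int.ne | with_reducible apply Int.eq | with_reducible apply Int.mem | with_reducible apply Int.subset | with_reducible apply Int.ltN | with_reducible apply Int.leN | with_reducible_and_instances apply Int.le | with_reducible_and_instances apply Int.lt | with_reducible apply Int.all | with_reducible apply Int.ex | with_reducible apply IntF.fst | with_reducible apply IntF.snd | with_reducible apply IntF.app | with_reducible apply IntF.inl | with_reducible apply IntF.inr | with_reducible_and_instances apply IntF.mul | with_reducible_and_instances apply IntF.inv | with_reducible_and_instances apply IntF.add | with_reducible_and_instances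 apply IntF.sub | with_reducible_and_instances apply IntF.neg | with_reducible_and_instances apply IntF.smul | with_reducible apply Int.fin | with_reducible apply IntF.sep | with_reducible apply IntF.lam | with_reducible apply IntF.insert | with_reducible apply IntF.singleton | with_reducible apply IntF.union | with_reducible apply IntF.iimage | with_reducible apply IntF.ite | with_reducible apply IntF.the | with_reducible apply IntF.irec | with_reducible apply IntF.succ | with_reducible apply IntF.val | with_reducible apply IntF.mk | (with_reducible refine Int.comp ?_ ?_; assumption) | (with_reducible refine Int.comp₂ ?_ ?_ ?_; assumption) | (with_reducible refine Int.comp₃ ?_ ?_ ?_ ?_; assumption) | (with_reducible refine Int.comp₄ ?_ ?_ ?_ ?_ ?_; assumption) | (with_reducible refine IntF.comp ?_ ?_; assumption) | (with_reducible refine IntF.comp₂ ?_ ?_ ?_; assumption) | (with_reducible refine IntF.comp₃ ?_ ?_ ?_ ?_; assumption) | with_reducible apply IntF.pair))) ?_ ?_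
    · intro a ha
      exact absurd ha INat.not_lt_zero
    · intro m ih a ha
      rcases INat.lt_succ_iff'.1 ha with h4 | h4
      · rw [← ih a h4]
        obtain ⟨b, h5, h6, h7⟩ := hnew m
        rw [h7, mem_insert]
        exact ⟨fun h => h.resolve_left fun h => by
          rw [h, h6] at h4
          exact absurd h4 (lt_irrefl m), Or.inr⟩
      · rw [h4]
  have hx : Int M (fun a : A => a ∈ sq (rk a).succ) := by (repeat' (first | with_reducible exact IntF.id | with_reducible exact IntF.fst' | with_reducible exact IntF.snd' | with_reducible exact IntF.const _ | with_reducible exact Int.const _ | assumption | with_reducible apply Int.and | with_reducible apply Int.or | with_reducible apply Int.not | with_reducible apply Int.imp | with_reducible apply Int.iff | with_reducible apply Int.ne | with_reducible apply Int.eq | with_reducible apply Int.mem | with_reducible apply Int.subset | with_reducible apply Int.ltN | with_reducible apply Int.leN | with_reducible_and_instances apply Int.le | with_reducible_and_instances apply Int.lt | with_reducible apply Int.all | with_reducible apply Int.ex | with_reducible apply IntF.fst | with_reducible apply IntF.snd | with_reducible apply IntF.app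 | with_reducible apply IntF.inl | with_reducible apply IntF.inr | with_reducible_and_instances apply IntF.mul | with_reducible_and_instances apply IntF.inv | with_reducible_and_instances apply IntF.add | with_reducible_and_instances apply IntF.sub | with_reducible_and_instances apply IntF.neg | with_reducible_and_instances apply IntF.smul | with_reducible apply Int.fin | with_reducible apply IntF.sep | with_reducible apply IntF.lam | with_reducible apply IntF.insert | with_reducible apply IntF.singleton | with_reducible apply IntF.union | with_reducible apply IntF.iimage | with_reducible apply IntF.ite | with_reducible apply IntF.the | with_reducible apply IntF.irec | with_reducible apply IntF.succ | with_reducible apply IntF.val | with_reducible apply IntF.mk | (with_reducible refine Int.comp ?_ ?_; assumption) | (with_reducible refine Int.comp₂ ?_ ?_ ?_; assumption) | (with_reducible refine Int.comp₃ ?_ ?_ ?_ ?_; assumption) | (with_reducible refine Int.comp₄ ?_ ?_ ?_ ?_ ?_; assumption) | (with_reducible refine IntF.comp ?_ ?_; assumption) | (with_reducible refine IntF.comp₂ ?_ ?_ ?_; assumption) | (with_reducible refine IntF.comp₃ ?_ ?_ ?_ ?_; assumption) | with_reducible apply IntF.pair))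
  have hxm : ∀ a, a ∈ sep M (fun a : A => a ∈ sq (rk a).succ) ↔ a ∈ sq (rk a).succ :=
    fun a => mem_sep hx
  have hxs : Sl bl rk n (sep M fun a : A => a ∈ sq (rk a).succ) := by
    refine ⟨fun a ha => ((hinv _).1 a ((hxm a).1 ha)).1, fun k => ?_⟩
    obtain ⟨b, h4, h5, h6⟩ := hnew k
    refine ⟨b, (hxm b).2 ?_, h5, fun a ha ha' => ?_⟩
    · rw [h5, h6]
      exact mem_insert.2 (Or.inl rfl)
    · rw [hxm, ha', h6, mem_insert] at ha
      refine ha.resolve_right fun h => ?_
      have h7 := ((hinv k).1 a h).2
      rw [ha'] at h7
      exact absurd h7 (lt_irrefl k)
  obtain ⟨U, hU, hxU⟩ := hcov _ hxs.pts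
  obtain ⟨F, hF, hFU⟩ := (hc U hU).2 _ hxU
  obtain ⟨m, hm⟩ := IFin.exists_bound (r := fun (a : A) (m : INat M) => rk a < m) (by (repeat' (first | with_reducible exact IntF.id | with_reducible exact IntF.fst' | with_reducible exact IntF.snd' | with_reducible exact IntF.const _ | with_reducible exact Int.const _ | assumption | with_reducible apply Int.and | with_reducible apply Int.or | with_reducible apply Int.not | with_reducible apply Int.imp | with_reducible apply Int.iff | with_reducible apply Int.ne | with_reducible apply Int.eq | with_reducible apply Int.mem | with_reducible apply Int.subset | with_reducible apply Int.ltN | with_reducible apply Int.leN | with_reducible_and_instances apply Int.le | with_reducible_and_instances apply Int.lt | with_reducible apply Int.all | with_reducible apply Int.ex | with_reducible apply IntF.fst | with_reducible apply IntF.snd | with_reducible apply IntF.app | with_reducible apply IntF.inl | with_reducible apply IntF.inr | with_reducible_and_instances apply IntF.mul | with_reducible_and_instances apply IntF.inv | with_reducible_and_instances apply IntF.add | with_reducible_and_instances apply IntF.sub | with_reducible_and_instances apply IntF.neg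 | with_reducible_and_instances apply IntF.smul | with_reducible apply Int.fin | with_reducible apply IntF.sep | with_reducible apply IntF.lam | with_reducible apply IntF.insert | with_reducible apply IntF.singleton | with_reducible apply IntF.union | with_reducible apply IntF.iimage | with_reducible apply IntF.ite | with_reducible apply IntF.the | with_reducible apply IntF.irec | with_reducible apply IntF.succ | with_reducible apply IntF.val | with_reducible apply IntF.mk | (with_reducible refine Int.comp ?_ ?_; assumption) | (with_reducible refine Int.comp₂ ?_ ?_ ?_; assumption) | (with_reducible refine Int.comp₃ ?_ ?_ ?_ ?_; assumption) | (with_reducible refine Int.comp₄ ?_ ?_ ?_ ?_ ?_; assumption) | (with_reducible refine IntF.comp ?_ ?_; assumption) | (with_reducible refine IntF.comp₂ ?_ ?_ ?_; assumption) | (with_reducible refine IntF.comp₃ ?_ ?_ ?_ ?_; assumption) | with_reducible apply IntF.pair)))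
    (fun b c => ⟨max b c, fun a ha => ha.elim (fun h => h.trans_le (le_max_left _ _))
      fun h => h.trans_le (le_max_right _ _)⟩) ⟨0⟩ hF fun a _ => ⟨(rk a).succ, INat.lt_succ_self _⟩
  refine (hinv m).2 ((hGd' _ _).2 (Fc.single hU fun y hy => hFU y hy.1.pts fun a ha => ?_))
  rw [hxm]
  by_cases h4 : bl a = n
  · rw [hy.2 a h4 (hm a ha), hmono m a (hm a ha)]
  · exact ⟨fun h => absurd ((hinv _).1 a h).1 h4, fun h => absurd (hy.1.1 a h) h4⟩

include hc hcov in
theorem fc_all (hB : RB M bl rk) : Fc c (Pts bl rk) := by
  have hSl := int_Sl hbl hrk
  obtain ⟨U, hU, h1⟩ := hcov ∅ (Or.inl fun a => by simp)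
  obtain ⟨F, hF, hFU⟩ := (hc U hU).2 _ h1
  obtain ⟨m, hm⟩ := IFin.exists_bound (r := fun (a : A) (m : INat M) => bl a < m) (by (repeat' (first | with_reducible exact IntF.id | with_reducible exact IntF.fst' | with_reducible exact IntF.snd' | with_reducible exact IntF.const _ | with_reducible exact Int.const _ | assumption | with_reducible apply Int.and | with_reducible apply Int.or | with_reducible apply Int.not | with_reducible apply Int.imp | with_reducible apply Int.iff | with_reducible apply Int.ne | with_reducible apply Int.eq | with_reducible apply Int.mem | with_reducible apply Int.subset | with_reducible apply Int.ltN | with_reducible apply Int.leN | with_reducible_and_instances apply Int.le | with_reducible_and_instances apply Int.lt | with_reducible apply Int.all | with_reducible apply Int.ex | with_reducible apply IntF.fst | with_reducible apply IntF.snd | with_reducible apply IntF.app | with_reducible apply IntF.inl | with_reducible apply IntF.inr | with_reducible_and_instances apply IntF.mul | with_reducible_and_instances apply IntF.inv | with_reducible_and_instances apply IntF.add | with_reducible_and_instances apply IntF.sub | with_reducible_and_instances apply IntF.neg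 | with_reducible_and_instances apply IntF.smul | with_reducible apply Int.fin | with_reducible apply IntF.sep | with_reducible apply IntF.lam | with_reducible apply IntF.insert | with_reducible apply IntF.singleton | with_reducible apply IntF.union | with_reducible apply IntF.iimage | with_reducible apply IntF.ite | with_reducible apply IntF.the | with_reducible apply IntF.irec | with_reducible apply IntF.succ | with_reducible apply IntF.val | with_reducible apply IntF.mk | (with_reducible refine Int.comp ?_ ?_; assumption) | (with_reducible refine Int.comp₂ ?_ ?_ ?_; assumption) | (with_reducible refine Int.comp₃ ?_ ?_ ?_ ?_; assumption) | (with_reducible refine Int.comp₄ ?_ ?_ ?_ ?_ ?_; assumption) | (with_reducible refine IntF.comp ?_ ?_; assumption) | (with_reducible refine IntF.comp₂ ?_ ?_ ?_; assumption) | (with_reducible refine IntF.comp₃ ?_ ?_ ?_ ?_; assumption) | with_reducible apply IntF.pair)))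
    (fun b c => ⟨max b c, fun a ha => ha.elim (fun h => h.trans_le (le_max_left _ _))
      fun h => h.trans_le (le_max_right _ _)⟩) ⟨0⟩ hF fun a _ => ⟨(bl a).succ, INat.lt_succ_self _⟩
  refine ((Fc.single hU (T := fun s => s ∈ U) fun s h => h).or (Fc.bounded (c := c) hSl m
    fun n _ => fc_block hbl hrk hc hcov hB n)).mono fun s hs => ?_
  by_cases h : ∃ n, n < m ∧ Sl bl rk n s
  · exact Or.inr h
  · refine Or.inl (hFU s hs fun a ha => ?_)
    refine ⟨fun h => absurd h (by simp), fun h' => ?_⟩
    exact absurd ⟨bl a, hm a ha, hs.sl h'⟩ h

end compact

/-- The point of a block. -/
theorem exists_sl (hB : RB M bl rk) (n : INat M) : ∃ s, Sl bl rk n s := by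
  obtain ⟨e, he, h1, h2, h3⟩ := hB.en n
  have hI : Int M (fun a : A => bl a = n ∧ e a = 0) := by (repeat' (first | with_reducible exact IntF.id | with_reducible exact IntF.fst' | with_reducible exact IntF.snd' | with_reducible exact IntF.const _ | with_reducible exact Int.const _ | assumption | with_reducible apply Int.and | with_reducible apply Int.or | with_reducible apply Int.not | with_reducible apply Int.imp | with_reducible apply Int.iff | with_reducible apply Int.ne | with_reducible apply Int.eq | with_reducible apply Int.mem | with_reducible apply Int.subset | with_reducible apply Int.ltN | with_reducible apply Int.leN | with_reducible_and_instances apply Int.le | with_reducible_and_instances apply Int.lt | with_reducible apply Int.all | with_reducible apply Int.ex | with_reducible apply IntF.fst | with_reducible apply IntF.snd | with_reducible apply IntF.app | with_reducible apply IntF.inl | with_reducible apply IntF.inr | with_reducible_and_instances apply IntF.mul | with_reducible_and_instances apply IntF.inv | with_reducible_and_instances apply IntF.add | with_reducible_and_instances apply IntF.sub | with_reducible_and_instances apply IntF.neg | with_reducible_and_instances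 apply IntF.smul | with_reducible apply Int.fin | with_reducible apply IntF.sep | with_reducible apply IntF.lam | with_reducible apply IntF.insert | with_reducible apply IntF.singleton | with_reducible apply IntF.union | with_reducible apply IntF.iimage | with_reducible apply IntF.ite | with_reducible apply IntF.the | with_reducible apply IntF.irec | with_reducible apply IntF.succ | with_reducible apply IntF.val | with_reducible apply IntF.mk | (with_reducible refine Int.comp ?_ ?_; assumption) | (with_reducible refine Int.comp₂ ?_ ?_ ?_; assumption) | (with_reducible refine Int.comp₃ ?_ ?_ ?_ ?_; assumption) | (with_reducible refine Int.comp₄ ?_ ?_ ?_ ?_ ?_; assumption) | (with_reducible refine IntF.comp ?_ ?_; assumption) | (with_reducible refine IntF.comp₂ ?_ ?_ ?_; assumption) | (with_reducible refine IntF.comp₃ ?_ ?_ ?_ ?_; assumption) | with_reducible apply IntF.pair))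
  refine ⟨sep M fun a => bl a = n ∧ e a = 0, fun a ha => ((mem_sep hI).1 ha).1, fun k => ?_⟩
  obtain ⟨a, h4, h5, h6⟩ := h3 k 0 (INat.zero_le k)
  refine ⟨a, (mem_sep hI).2 ⟨h4, h6⟩, h5, fun b hb hb' => ?_⟩
  rw [mem_sep hI] at hb
  exact h2 b a hb.1 h4 (hb'.trans h5.symm) (hb.2.trans h6.symm)

/-- No internal choice of nonempty finite sets of selectors. -/
theorem not_fin (hB : RB M bl rk) {y : INat M → IPow M (IPow M A)} (hy : IntF M y)
    (h1 : ∀ n, IFin (y n)) (h2 : ∀ n, ∃ s, s ∈ y n) (h3 : ∀ n s, s ∈ y n → Sl bl rk n s) :
    False := by
  have hW : Int M (fun a : A => ∃ s, s ∈ y (bl a) ∧ a ∈ s) := by (repeat' (first | with_reducible exact IntF.id | with_reducible exact IntF.fst' | with_reducible exact IntF.snd' | with_reducible exact IntF.const _ | with_reducible exact Int.const _ | assumption | with_reducible apply Int.and | with_reducible apply Int.or | with_reducible apply Int.not | with_reducible apply Int.imp | with_reducible apply Int.iff | with_reducible apply Int.ne | with_reducible apply Int.eq | with_reducible apply Int.mem | with_reducible apply Int.subset | with_reducible apply Int.ltN | with_reducible apply Int.leN | with_reducible_and_instances apply Int.le | with_reducible_and_instances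 apply Int.lt | with_reducible apply Int.all | with_reducible apply Int.ex | with_reducible apply IntF.fst | with_reducible apply IntF.snd | with_reducible apply IntF.app | with_reducible apply IntF.inl | with_reducible apply IntF.inr | with_reducible_and_instances apply IntF.mul | with_reducible_and_instances apply IntF.inv | with_reducible_and_instances apply IntF.add | with_reducible_and_instances apply IntF.sub | with_reducible_and_instances apply IntF.neg | with_reducible_and_instances apply IntF.smul | with_reducible apply Int.fin | with_reducible apply IntF.sep | with_reducible apply IntF.lam | with_reducible apply IntF.insert | with_reducible apply IntF.singleton | with_reducible apply IntF.union | with_reducible apply IntF.iimage | with_reducible apply IntF.ite | with_reducible apply IntF.the | with_reducible apply IntF.irec | with_reducible apply IntF.succ | with_reducible apply IntF.val | with_reducible apply IntF.mk | (with_reducible refine Int.comp ?_ ?_; assumption) | (with_reducible refine Int.comp₂ ?_ ?_ ?_; assumption) | (with_reducible refine Int.comp₃ ?_ ?_ ?_ ?_; assumption) | (with_reducible refine Int.comp₄ ?_ ?_ ?_ ?_ ?_; assumption) | (with_reducible refine IntF.comp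 ?_ ?_; assumption) | (with_reducible refine IntF.comp₂ ?_ ?_ ?_; assumption) | (with_reducible refine IntF.comp₃ ?_ ?_ ?_ ?_; assumption) | with_reducible apply IntF.pair))
  obtain ⟨n, hn⟩ := hB.hom _ hW
  obtain ⟨e, he, h4, h5, h6⟩ := hB.en n
  obtain ⟨m, f, h7, h8⟩ := (h1 n).sz
  obtain ⟨a₀, -, -, -⟩ := h6 0 0 le_rfl
  have hI : Int M (fun q : INat M × INat M => ∃ s a, s ∈ y n ∧ f s = q.2 ∧ a ∈ s ∧ bl a = n ∧
      rk a = m ∧ e a = q.1 ∧ ∀ s', s' ∈ y n → a ∈ s' → q.2 ≤ f s') := by (repeat' (first | with_reducible exact IntF.id | with_reducible exact IntF.fst' | with_reducible exact IntF.snd' | with_reducible exact IntF.const _ | with_reducible exact Int.const _ | assumption | with_reducible apply Int.and | with_reducible apply Int.or | with_reducible apply Int.not | with_reducible apply Int.imp | with_reducible apply Int.iff | with_reducible apply Int.ne | with_reducible apply Int.eq | with_reducible apply Int.mem | with_reducible apply Int.subset | with_reducible apply Int.ltN | with_reducible apply Int.leN | with_reducible_and_instances apply Int.le | with_reducible_and_instances apply Int.lt | with_reducible apply Int.all | with_reducible apply Int.ex | with_reducible apply IntF.fst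 | with_reducible apply IntF.snd | with_reducible apply IntF.app | with_reducible apply IntF.inl | with_reducible apply IntF.inr | with_reducible_and_instances apply IntF.mul | with_reducible_and_instances apply IntF.inv | with_reducible_and_instances apply IntF.add | with_reducible_and_instances apply IntF.sub | with_reducible_and_instances apply IntF.neg | with_reducible_and_instances apply IntF.smul | with_reducible apply Int.fin | with_reducible apply IntF.sep | with_reducible apply IntF.lam | with_reducible apply IntF.insert | with_reducible apply IntF.singleton | with_reducible apply IntF.union | with_reducible apply IntF.iimage | with_reducible apply IntF.ite | with_reducible apply IntF.the | with_reducible apply IntF.irec | with_reducible apply IntF.succ | with_reducible apply IntF.val | with_reducible apply IntF.mk | (with_reducible refine Int.comp ?_ ?_; assumption) | (with_reducible refine Int.comp₂ ?_ ?_ ?_; assumption) | (with_reducible refine Int.comp₃ ?_ ?_ ?_ ?_; assumption) | (with_reducible refine Int.comp₄ ?_ ?_ ?_ ?_ ?_; assumption) | (with_reducible refine IntF.comp ?_ ?_; assumption) | (with_reducible refine IntF.comp₂ ?_ ?_ ?_; assumption) | (with_reducible refine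 IntF.comp₃ ?_ ?_ ?_ ?_; assumption) | with_reducible apply IntF.pair))
  obtain ⟨Q, hQ, hQ'⟩ : ∃ Q : INat M × INat M → Prop, Int M Q ∧ ∀ j k, Q (j, k) ↔
      ∃ s a, s ∈ y n ∧ f s = k ∧ a ∈ s ∧ bl a = n ∧ rk a = m ∧ e a = j ∧
        ∀ s', s' ∈ y n → a ∈ s' → k ≤ f s' := ⟨_, hI, fun _ _ => Iff.rfl⟩
  have hex : ∀ j, j ≤ m → ∃ k, Q (j, k) := by
    intro j hj
    obtain ⟨a, h9, h10, h11⟩ := h6 m j hj
    obtain ⟨s₀, hs₀⟩ := h2 n
    obtain ⟨b, hb, hb', -⟩ := (h3 n s₀ hs₀).2 m
    have hb'' := (h3 n s₀ hs₀).1 b hb
    obtain ⟨s, hs, hs'⟩ := hn b a hb'' h9 (hb'.trans h10.symm) ⟨s₀, hb''.symm ▸ hs₀, hb⟩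
    rw [h9] at hs
    have hJ : Int M (fun k : INat M => ∃ s, s ∈ y n ∧ a ∈ s ∧ f s = k) := by (repeat' (first | with_reducible exact IntF.id | with_reducible exact IntF.fst' | with_reducible exact IntF.snd' | with_reducible exact IntF.const _ | with_reducible exact Int.const _ | assumption | with_reducible apply Int.and | with_reducible apply Int.or | with_reducible apply Int.not | with_reducible apply Int.imp | with_reducible apply Int.iff | with_reducible apply Int.ne | with_reducible apply Int.eq | with_reducible apply Int.mem | with_reducible apply Int.subset | with_reducible apply Int.ltN | with_reducible apply Int.leN | with_reducible_and_instances apply Int.le | with_reducible_and_instances apply Int.lt | with_reducible apply Int.all | with_reducible apply Int.ex | with_reducible apply IntF.fst | with_reducible apply IntF.snd | with_reducible apply IntF.app | with_reducible apply IntF.inl | with_reducible apply IntF.inr | with_reducible_and_instances apply IntF.mul | with_reducible_and_instances apply IntF.inv | with_reducible_and_instances apply IntF.add | with_reducible_and_instances apply IntF.sub | with_reducible_and_instances apply IntF.neg | with_reducible_and_instances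 apply IntF.smul | with_reducible apply Int.fin | with_reducible apply IntF.sep | with_reducible apply IntF.lam | with_reducible apply IntF.insert | with_reducible apply IntF.singleton | with_reducible apply IntF.union | with_reducible apply IntF.iimage | with_reducible apply IntF.ite | with_reducible apply IntF.the | with_reducible apply IntF.irec | with_reducible apply IntF.succ | with_reducible apply IntF.val | with_reducible apply IntF.mk | (with_reducible refine Int.comp ?_ ?_; assumption) | (with_reducible refine Int.comp₂ ?_ ?_ ?_; assumption) | (with_reducible refine Int.comp₃ ?_ ?_ ?_ ?_; assumption) | (with_reducible refine Int.comp₄ ?_ ?_ ?_ ?_ ?_; assumption) | (with_reducible refine IntF.comp ?_ ?_; assumption) | (with_reducible refine IntF.comp₂ ?_ ?_ ?_; assumption) | (with_reducible refine IntF.comp₃ ?_ ?_ ?_ ?_; assumption) | with_reducible apply IntF.pair))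
    obtain ⟨k, ⟨s₁, h12, h13, h14⟩, h15⟩ := INat.exists_least hJ ⟨f s, s, hs, hs', rfl⟩
    exact ⟨k, (hQ' _ _).2 ⟨s₁, a, h12, h14, h13, h9, h10, h11,
      fun s' h16 h17 => h15 _ ⟨s', h16, h17, rfl⟩⟩⟩
  have hun : ∀ j k k', Q (j, k) → Q (j, k') → k = k' := by
    intro j k k' hk hk'
    obtain ⟨s, a, a1, a2, a3, a4, a5, a6, a7⟩ := (hQ' _ _).1 hk
    obtain ⟨s', a', b1, b2, b3, b4, b5, b6, b7⟩ := (hQ' _ _).1 hk'
    obtain rfl : a = a' := h5 a a' a4 b4 (a5.trans b5.symm) (a6.trans b6.symm)
    exact le_antisymm (b2 ▸ a7 s' b1 b3) (a2 ▸ b7 s a1 a3)
  obtain ⟨g, hg, hgs⟩ : ∃ g : INat M → INat M, IntF M g ∧ ∀ j, j ≤ m → Q (j, g j) := by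
    refine ⟨fun j => the (fun k => Q (j, k)) 0, IntF.the (by (repeat' (first | with_reducible exact IntF.id | with_reducible exact IntF.fst' | with_reducible exact IntF.snd' | with_reducible exact IntF.const _ | with_reducible exact Int.const _ | assumption | with_reducible apply Int.and | with_reducible apply Int.or | with_reducible apply Int.not | with_reducible apply Int.imp | with_reducible apply Int.iff | with_reducible apply Int.ne | with_reducible apply Int.eq | with_reducible apply Int.mem | with_reducible apply Int.subset | with_reducible apply Int.ltN | with_reducible apply Int.leN | with_reducible_and_instances apply Int.le | with_reducible_and_instances apply Int.lt | with_reducible apply Int.all | with_reducible apply Int.ex | with_reducible apply IntF.fst | with_reducible apply IntF.snd | with_reducible apply IntF.app | with_reducible apply IntF.inl | with_reducible apply IntF.inr | with_reducible_and_instances apply IntF.mul | with_reducible_and_instances apply IntF.inv | with_reducible_and_instances apply IntF.add | with_reducible_and_instances apply IntF.sub | with_reducible_and_instances apply IntF.neg | with_reducible_and_instances apply IntF.smul | with_reducible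 apply Int.fin | with_reducible apply IntF.sep | with_reducible apply IntF.lam | with_reducible apply IntF.insert | with_reducible apply IntF.singleton | with_reducible apply IntF.union | with_reducible apply IntF.iimage | with_reducible apply IntF.ite | with_reducible apply IntF.the | with_reducible apply IntF.irec | with_reducible apply IntF.succ | with_reducible apply IntF.val | with_reducible apply IntF.mk | (with_reducible refine Int.comp ?_ ?_; assumption) | (with_reducible refine Int.comp₂ ?_ ?_ ?_; assumption) | (with_reducible refine Int.comp₃ ?_ ?_ ?_ ?_; assumption) | (with_reducible refine Int.comp₄ ?_ ?_ ?_ ?_ ?_; assumption) | (with_reducible refine IntF.comp ?_ ?_; assumption) | (with_reducible refine IntF.comp₂ ?_ ?_ ?_; assumption) | (with_reducible refine IntF.comp₃ ?_ ?_ ?_ ?_; assumption) | with_reducible apply IntF.pair))) (IntF.const _),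
      fun j hj => ?_⟩
    obtain ⟨k, hk⟩ := hex j hj
    have h9 : the (fun k => Q (j, k)) 0 = k := the_eq ⟨k, hk, fun k' hk' => hun j k' k hk' hk⟩ hk
    change Q (j, the (fun k => Q (j, k)) 0)
    rw [h9]
    exact hk
  obtain ⟨i, j, h9, h10, h11, h12⟩ := php m ⟨g, hg⟩ fun j hj => by
    obtain ⟨s, a, a1, a2, -⟩ := (hQ' _ _).1 (hgs j hj)
    change g j < m
    rw [← a2]
    exact h7 s a1
  obtain ⟨s, a, a1, a2, a3, a4, a5, a6, -⟩ := (hQ' _ _).1 (hgs i h9)
  obtain ⟨s', a', b1, b2, b3, b4, b5, b6, -⟩ := (hQ' _ _).1 (hgs j h10)
  have h12' : g i = g j := h12
  obtain rfl : s = s' := h8 s s' a1 b1 (a2.trans (h12'.trans b2.symm))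
  obtain ⟨b, -, -, h13⟩ := (h3 n s a1).2 m
  obtain rfl : a = a' := (h13 a a3 a5).trans (h13 a' b3 b5).symm
  exact h11 (a6.symm.trans b6)

end

end Pool.Agent.Helper672.ZFA.V246G
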