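import Pool.Agent.V11246.Cmp
import Pool.Agent.V11246.Ctb

/-!
# Infinite sets
-/

set_option maxHeartbeats 1000000
set_option linter.all false
set_option synthInstance.maxSize 2000

namespace Pool.Agent.Helper672.ZFA.V246S

open FirstOrder FirstOrder.Language
open Pool.Agent.Helper672.ZFA.V246 (Ctb exists_comp iwoNn)
open Pool.Agent.H310

universe u

variable {M : Type u} [L.Structure M] [hM : IsModel M] {α : Type u} [ITy M α]

/-- Infinite countable predicates. -/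
theorem exists_bij {p : α → Prop} (hp : Int M p) (hc : Ctb M p) (hinf : ¬ FinP M p) :
    ∃ ψ : α → INat M, IntF M ψ ∧ (∀ a b, p a → p b → ψ a = ψ b → a = b) ∧
      ∀ n, ∃ a, p a ∧ ψ a = n := by
  obtain ⟨e, he, h1⟩ := hc
  have hT : Int M (fun q : INat M × INat M => ∃ a, p a ∧ e a = q.2) :=
    Int.ex (Int.and (hp.comp IntF.snd') (Int.eq (he.comp IntF.snd') (IntF.snd IntF.fst')))
  obtain ⟨ρ, hρ, h2⟩ := exists_comp (iwoNn (N := M)) (iwoNn (N := M))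
    (T := fun _ m : INat M => ∃ a, p a ∧ e a = m) hT 0
  have hρ0 : IntF M (fun i => ρ 0 i) :=
    IntF.comp₂ (p := fun n x => ρ n x) hρ (IntF.const _) IntF.id
  rcases h2 0 with ⟨h3, h4⟩ | ⟨c, -, g, hg, hgi, h5⟩
  · have hinj : ∀ a b, p a → p b → ρ 0 (e a) = ρ 0 (e b) → a = b := by
      intro a b ha hb hab
      refine h1 a b ha hb ?_
      rcases lt_trichotomy (e a) (e b) with h5 | h5 | h5
      · exact absurd (h3 _ _ ⟨a, ha, rfl⟩ ⟨b, hb, rfl⟩ h5) (by rw [hab]; exact lt_irrefl _)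
      · exact h5
      · exact absurd (h3 _ _ ⟨b, hb, rfl⟩ ⟨a, ha, rfl⟩ h5) (by rw [hab]; exact lt_irrefl _)
    refine ⟨fun a => ρ 0 (e a), hρ0.comp he, hinj, fun n => ?_⟩
    by_contra hcon
    push Not at hcon
    refine hinf (FinP.of_inj hp (hρ0.comp he) hinj (finP_lt n) fun a ha => ?_)
    by_contra hlt
    obtain ⟨d, ⟨b, hb, rfl⟩, h6, -⟩ := h4 (e a) n ⟨a, ha, rfl⟩ hlt
    exact hcon b hb h6
  · exact absurd (FinP.of_inj (Int.const True) hg (fun a b _ _ hab => hgi hab) (finP_lt c)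
      fun a _ => (h5 a).2) not_finP_nat

theorem inf_split {p : α → Prop} (hp : Int M p) (hc : Ctb M p) (hinf : ¬ FinP M p) :
    ∃ q : α → Prop, Int M q ∧ (∀ x, q x → p x) ∧ ¬ FinP M q ∧ ¬ FinP M (fun x => p x ∧ ¬ q x) := by
  obtain ⟨ψ, hψ, h1, h2⟩ := exists_bij hp hc hinf
  have hpr : IntF M (fun q : INat M × INat M => pr q.1 q.2) := int_pr
  have hk : ∀ i : INat M, IntF M (fun k : INat M => pr i k) := fun i =>
    IntF.comp₂ (p := fun a b => pr a b) hpr (IntF.const _) IntF.id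
  have hE : Int M (fun x : α => ∃ k, ψ x = pr 0 k) :=
    Int.ex (Int.eq (hψ.comp IntF.fst') (IntF.comp₂ (p := fun a b => pr a b) hpr (IntF.const _)
      IntF.snd'))
  have key : ∀ (i : INat M) (q : α → Prop), (∀ x k, p x → ψ x = pr i k → q x) → ¬ FinP M q := by
    intro i q hq h
    refine not_finP_nat (M := M) (FinP.of_inj (Int.const True) (hk i) (fun a b _ _ hab =>
      (pr_inj hab).2) (h.image hψ) fun k _ => ?_)
    obtain ⟨x, h3, h4⟩ := h2 (pr i k)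
    exact ⟨x, hq x k h3 h4, h4⟩
  refine ⟨fun x => p x ∧ ∃ k, ψ x = pr 0 k, Int.and hp hE, fun x h => h.1,
    key 0 _ fun x k hx hk => ⟨hx, k, hk⟩, key (INat.succ 0) _ fun x k hx hk => ⟨hx, ?_⟩⟩
  rintro ⟨-, k', hk'⟩
  exact INat.succ_ne_zero _ (pr_inj (hk.symm.trans hk')).1

/-- Exchanging two infinite sets. -/
theorem exists_sw {c f : INat M → Prop} (hcI : Int M c) (hfI : Int M f) (hc : ¬ FinP M c)
    (hf : ¬ FinP M f) (hd : ∀ x, c x → ¬ f x) : ∃ sw : INat M → INat M, IntF M sw ∧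
      (∀ x, sw (sw x) = x) ∧ (∀ x, c x → f (sw x)) ∧ (∀ x, f x → c (sw x)) ∧
        ∀ x, ¬ c x → ¬ f x → sw x = x := by
  have hct : ∀ p : INat M → Prop, Ctb M p := fun p => Ctb.nat.mono fun _ _ => trivial
  obtain ⟨ψ, hψ, h1, h2⟩ := exists_bij hcI (hct _) hc
  obtain ⟨χ, hχ, h3, h4⟩ := exists_bij hfI (hct _) hf
  have hu : ∀ x : INat M, ∃ y, (c x ∧ f y ∧ ψ x = χ y) ∨ (f x ∧ c y ∧ χ x = ψ y) ∨
      (¬ c x ∧ ¬ f x ∧ x = y) := by
    intro x
    by_cases hx : c x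
    · obtain ⟨y, h5, h6⟩ := h4 (ψ x)
      exact ⟨y, Or.inl ⟨hx, h5, h6.symm⟩⟩
    · by_cases hx' : f x
      · obtain ⟨y, h5, h6⟩ := h2 (χ x)
        exact ⟨y, Or.inr (Or.inl ⟨hx', h5, h6.symm⟩)⟩
      · exact ⟨x, Or.inr (Or.inr ⟨hx, hx', rfl⟩)⟩
  have hun : ∀ x y y' : INat M, ((c x ∧ f y ∧ ψ x = χ y) ∨ (f x ∧ c y ∧ χ x = ψ y) ∨
      (¬ c x ∧ ¬ f x ∧ x = y)) → ((c x ∧ f y' ∧ ψ x = χ y') ∨ (f x ∧ c y' ∧ χ x = ψ y') ∨
      (¬ c x ∧ ¬ f x ∧ x = y')) → y = y' := by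
    intro x y y' h5 h6
    rcases h5 with ⟨a1, a2, a3⟩ | ⟨a1, a2, a3⟩ | ⟨a1, a2, a3⟩
    · rcases h6 with ⟨b1, b2, b3⟩ | ⟨b1, b2, b3⟩ | ⟨b1, b2, b3⟩
      · exact h3 _ _ a2 b2 (a3.symm.trans b3)
      · exact absurd b1 (hd x a1)
      · exact absurd a1 b1
    · rcases h6 with ⟨b1, b2, b3⟩ | ⟨b1, b2, b3⟩ | ⟨b1, b2, b3⟩
      · exact absurd a1 (hd x b1)
      · exact h1 _ _ a2 b2 (a3.symm.trans b3)
      · exact absurd a1 b2
    · rcases h6 with ⟨b1, b2, b3⟩ | ⟨b1, b2, b3⟩ | ⟨b1, b2, b3⟩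
      · exact absurd b1 a1
      · exact absurd b1 a2
      · exact a3.symm.trans b3
  choose sw hsw using hu
  have hswI : IntF M sw := by
    refine IntF.of_rel (r := fun x y : INat M => (c x ∧ f y ∧ ψ x = χ y) ∨
      (f x ∧ c y ∧ χ x = ψ y) ∨ (¬ c x ∧ ¬ f x ∧ x = y)) ?_ fun x y => ?_
    · exact Int.or (Int.and (hcI.comp IntF.fst') (Int.and (hfI.comp IntF.snd')
        (Int.eq (hψ.comp IntF.fst') (hχ.comp IntF.snd')))) (Int.or (Int.and (hfI.comp IntF.fst')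
        (Int.and (hcI.comp IntF.snd') (Int.eq (hχ.comp IntF.fst') (hψ.comp IntF.snd'))))
        (Int.and (Int.not (hcI.comp IntF.fst')) (Int.and (Int.not (hfI.comp IntF.fst'))
          (Int.eq IntF.fst' IntF.snd'))))
    · constructor
      · exact fun h => hun x _ _ (hsw x) h
      · rintro rfl
        exact hsw x
  have e1 : ∀ x, c x → f (sw x) ∧ ψ x = χ (sw x) := by
    intro x hx
    rcases hsw x with ⟨a1, a2, a3⟩ | ⟨a1, a2, a3⟩ | ⟨a1, a2, a3⟩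
    · exact ⟨a2, a3⟩
    · exact absurd a1 (hd x hx)
    · exact absurd hx a1
  have e2 : ∀ x, f x → c (sw x) ∧ χ x = ψ (sw x) := by
    intro x hx
    rcases hsw x with ⟨a1, a2, a3⟩ | ⟨a1, a2, a3⟩ | ⟨a1, a2, a3⟩
    · exact absurd hx (hd x a1)
    · exact ⟨a2, a3⟩
    · exact absurd hx a2
  have e3 : ∀ x, ¬ c x → ¬ f x → sw x = x := by
    intro x hx hx'
    rcases hsw x with ⟨a1, a2, a3⟩ | ⟨a1, a2, a3⟩ | ⟨a1, a2, a3⟩
    · exact absurd a1 hx
    · exact absurd a1 hx'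
    · exact a3.symm
  refine ⟨sw, hswI, fun x => ?_, fun x hx => (e1 x hx).1, fun x hx => (e2 x hx).1, e3⟩
  by_cases hx : c x
  · obtain ⟨h5, h6⟩ := e1 x hx
    obtain ⟨h7, h8⟩ := e2 _ h5
    exact h1 _ _ h7 hx (h8.symm.trans h6.symm)
  · by_cases hx' : f x
    · obtain ⟨h5, h6⟩ := e2 x hx'
      obtain ⟨h7, h8⟩ := e1 _ h5
      exact h3 _ _ h7 hx' (h8.symm.trans h6.symm)
    · rw [e3 x hx hx', e3 x hx hx']

/-- A small infinite subset. -/
theorem inf_avoid {ι : Type u} [ITy M ι] (hα : Ctb M (fun _ : α => True)) {S : ι → Prop}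
    (hSI : Int M S) (hS : FinP M S) {P : ι → α → Prop} (hPI : Int M (fun q : ι × α => P q.1 q.2))
    (hP : ∀ i, S i → ¬ FinP M (P i)) (hdis : ∀ i j x, S i → S j → P i x → P j x → i = j)
    {a : α → Prop} (haI : Int M a) (ha : ¬ FinP M a) : ∃ c : α → Prop, Int M c ∧
      (∀ x, c x → a x) ∧ ¬ FinP M c ∧ ∀ i, S i → ¬ FinP M (fun x => P i x ∧ ¬ c x) := by
  have hPi : ∀ i, Int M (P i) := fun i =>
    Int.comp₂ (p := fun i x => P i x) hPI (IntF.const _) IntF.id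
  have hU : Int M (fun x => ∃ i, S i ∧ P i x) :=
    Int.ex (Int.and (hSI.comp IntF.snd') (Int.comp₂ (p := fun i x => P i x) hPI IntF.snd'
      IntF.fst'))
  by_cases h1 : FinP M (fun x => a x ∧ ¬ ∃ i, S i ∧ P i x)
  · have h2 : ∃ j, S j ∧ ¬ FinP M (fun x => a x ∧ P j x) := by
      by_contra hcon
      push Not at hcon
      have hR : Int M (fun q : ι × α => a q.2 ∧ P q.1 q.2) := Int.and (haI.comp IntF.snd') hPI
      have h3 := FinP.bUnion hS hSI hR fun i hi => hcon i hi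
      refine ha ((h1.or h3).mono fun x hx => ?_)
      by_cases h4 : ∃ i, S i ∧ P i x
      · obtain ⟨i, hi, h5⟩ := h4
        exact Or.inr ⟨i, hi, hx, h5⟩
      · exact Or.inl ⟨hx, h4⟩
    obtain ⟨j, hj, h3⟩ := h2
    obtain ⟨c, hcI, h4, h5, h6⟩ := inf_split (Int.and haI (hPi j))
      (hα.mono fun _ _ => trivial) h3
    refine ⟨c, hcI, fun x hx => (h4 x hx).1, h5, fun i hi => ?_⟩
    by_cases hij : i = j
    · subst hij
      exact fun h => h6 (h.mono fun x hx => ⟨hx.1.2, hx.2⟩)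
    · exact fun h => hP i hi (h.mono fun x hx => ⟨hx, fun hc => hij
        (hdis i j x hi hj hx (h4 x hc).2)⟩)
  · refine ⟨_, Int.and haI (Int.not hU), fun x hx => hx.1, h1, fun i hi h => ?_⟩
    exact hP i hi (h.mono fun x hx => ⟨hx, fun hc => hc.2 ⟨i, hi, hx⟩⟩)

end Pool.Agent.Helper672.ZFA.V246S
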