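import Pool.Agent.V11246.Sa
import Pool.Agent.V11246.Ka
import Pool.Agent.Helper672.SIK.Boo

/-!
# The conditions: positions of points
-/

set_option maxHeartbeats 1000000
set_option linter.all false
set_option synthInstance.maxSize 2000

namespace Pool.Agent.Helper672.ZFA.V246S

open FirstOrder FirstOrder.Language
open Pool.Agent.Helper672.ZFA.V246 (Ctb exists_comp iwoNn)
open Pool.Agent.Helper672.ZFA.H635 (IPerm SymSys)
open Pool.Agent.H310

universe u

theorem Int.finP {M : Type u} [L.Structure M] [hM : IsModel M] {α γ : Type u} [ITy M α] [ITy M γ]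
    {R : γ → α → Prop} (h : Int M (fun q : γ × α => R q.1 q.2)) :
    Int M (fun c => FinP M (R c)) := by
  unfold FinP
  exact Int.ex (Int.and (Int.fin IntF.snd') (Int.all (Int.imp
    (Int.comp₂ (p := fun c a => R c a) h (IntF.fst IntF.fst') IntF.snd')
    (Int.mem IntF.snd' (IntF.snd IntF.fst')))))

variable (M : Type u) [L.Structure M] [hM : IsModel M]

/-- The columns. -/
abbrev Cl : Type u := Bool ⊕ INat M

/-- The places. -/
abbrev Xx : Type u := Cl M × INat M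

/-- The slots. -/
abbrev Sl : Type u := (Bool × Bool) × INat M

variable {M}

/-- The column of a slot. -/
def cp (i : Sl M) : Cl M :=
  if i.1.1 = false then Sum.inl i.1.2 else if i.1.2 = false then Sum.inr i.2 else Sum.inl true

theorem cp_0 {b : Bool} {n : INat M} : cp (M := M) ((false, b), n) = Sum.inl b := rfl
theorem cp_1 {t : INat M} : cp (M := M) ((true, false), t) = Sum.inr t := rfl
theorem cp_2 {t : INat M} : cp (M := M) ((true, true), t) = Sum.inl true := rfl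

theorem int_cp : IntF M (fun i : Sl M => cp i) := by
  unfold cp
  exact IntF.ite (Int.eq (IntF.fst IntF.fst') (IntF.const _)) (IntF.inl (IntF.snd IntF.fst'))
    (IntF.ite (Int.eq (IntF.snd IntF.fst') (IntF.const _)) (IntF.inr IntF.snd') (IntF.const _))

theorem ctb_X : Ctb M (fun _ : Xx M => True) := by
  have hpr : IntF M (fun q : INat M × INat M => pr q.1 q.2) := int_pr
  have h1 : ∀ c : Cl M, ∃ m : INat M, (c = Sum.inl false ∧ m = pr 0 0) ∨
      (c = Sum.inl true ∧ m = pr 0 (INat.succ 0)) ∨ ∃ t, c = Sum.inr t ∧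
        m = pr (INat.succ 0) t := by
    rintro ((_ | _) | t)
    · exact ⟨_, Or.inl ⟨rfl, rfl⟩⟩
    · exact ⟨_, Or.inr (Or.inl ⟨rfl, rfl⟩)⟩
    · exact ⟨_, Or.inr (Or.inr ⟨t, rfl, rfl⟩)⟩
  choose e he using h1
  have hI : IntF M e := by
    refine IntF.of_rel (r := fun (c : Cl M) (m : INat M) => (c = Sum.inl false ∧ m = pr 0 0) ∨
      (c = Sum.inl true ∧ m = pr 0 (INat.succ 0)) ∨ ∃ t, c = Sum.inr t ∧
        m = pr (INat.succ 0) t) ?_ fun c m => ?_
    · refine Int.or (Int.and (Int.eq IntF.fst' (IntF.const _)) (Int.eq IntF.snd' (IntF.const _)))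
        (Int.or (Int.and (Int.eq IntF.fst' (IntF.const _)) (Int.eq IntF.snd' (IntF.const _)))
          (Int.ex (Int.and (Int.eq (IntF.fst IntF.fst') (IntF.inr IntF.snd'))
            (Int.eq (IntF.snd IntF.fst') (IntF.comp₂ (p := fun a b => pr a b) hpr (IntF.const _)
              IntF.snd')))))
    · constructor
      · intro h
        rcases he c with ⟨a1, a2⟩ | ⟨a1, a2⟩ | ⟨t, a1, a2⟩
        · rcases h with ⟨b1, b2⟩ | ⟨b1, b2⟩ | ⟨t', b1, b2⟩
          · rw [a2, b2]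
          · exact absurd (a1.symm.trans b1) (by simp)
          · exact absurd (a1.symm.trans b1) (by simp)
        · rcases h with ⟨b1, b2⟩ | ⟨b1, b2⟩ | ⟨t', b1, b2⟩
          · exact absurd (a1.symm.trans b1) (by simp)
          · rw [a2, b2]
          · exact absurd (a1.symm.trans b1) (by simp)
        · rcases h with ⟨b1, b2⟩ | ⟨b1, b2⟩ | ⟨t', b1, b2⟩
          · exact absurd (a1.symm.trans b1) (by simp)
          · exact absurd (a1.symm.trans b1) (by simp)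
          · rw [a2, b2, Sum.inr.inj (a1.symm.trans b1)]
      · rintro rfl
        exact he c
  have hinj : ∀ c c', e c = e c' → c = c' := by
    intro c c' h
    rcases he c with ⟨a1, a2⟩ | ⟨a1, a2⟩ | ⟨t, a1, a2⟩ <;>
      rcases he c' with ⟨b1, b2⟩ | ⟨b1, b2⟩ | ⟨t', b1, b2⟩ <;> rw [a1, b1] <;>
      rw [a2, b2] at h <;> obtain ⟨h3, h4⟩ := pr_inj h
    · exact absurd h4.symm (INat.succ_ne_zero _)
    · exact absurd h3.symm (INat.succ_ne_zero _)
    · exact absurd h4 (INat.succ_ne_zero _)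
    · exact absurd h3.symm (INat.succ_ne_zero _)
    · exact absurd h3 (INat.succ_ne_zero _)
    · exact absurd h3 (INat.succ_ne_zero _)
    · rw [h4]
  refine ⟨fun z => pr (e z.1) z.2, IntF.comp₂ (p := fun a b => pr a b) hpr (hI.comp IntF.fst')
    IntF.snd', fun z z' _ _ h => ?_⟩
  obtain ⟨h3, h4⟩ := pr_inj h
  exact Prod.ext (hinj _ _ h3) h4

theorem inf_col {b : INat M → Prop} (h : ¬ FinP M b) (c : Cl M) :
    ¬ FinP M (fun z : Xx M => z.1 = c ∧ b z.2) := fun h1 =>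
  h ((h1.image (f := fun z : Xx M => z.2) IntF.snd').mono fun x hx => ⟨(c, x), ⟨rfl, hx⟩, rfl⟩)

theorem fin_col {b : INat M → Prop} (h : FinP M b) (c : Cl M) :
    FinP M (fun z : Xx M => z.1 = c ∧ b z.2) := by
  refine (h.image (f := fun x => ((c, x) : Xx M)) (IntF.pair (IntF.const _) IntF.id)).mono
    fun z hz => ⟨z.2, hz.2, ?_⟩
  exact Prod.ext hz.1.symm rfl

/-- The conditions. -/
def IsCd (p : IPow M (Sl M × Xx M)) : Prop :=
  FinP M (fun i => ∃ z, (i, z) ∈ p) ∧ (∀ (i j : Sl M) (z : Xx M), (i, z) ∈ p → (j, z) ∈ p → i = j) ∧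
    (∀ (i : Sl M) (z : Xx M), (i, z) ∈ p → z.1 = cp i) ∧
      ∀ i : Sl M, (∃ z : Xx M, (i, z) ∈ p) → ¬ FinP M (fun z : Xx M => (i, z) ∈ p)

theorem int_IsCd : Int M (fun p : IPow M (Sl M × Xx M) => IsCd p) := by
  unfold IsCd
  refine Int.and (Int.finP (R := fun (p : IPow M (Sl M × Xx M)) i => ∃ z, (i, z) ∈ p) ?_)
    (Int.and ?_ (Int.and ?_ (Int.all (Int.imp ?_ (Int.not (Int.finP
      (R := fun (q : IPow M (Sl M × Xx M) × Sl M) z => (q.2, z) ∈ q.1) ?_))))))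
  · exact Int.ex (Int.mem (IntF.pair (IntF.snd IntF.fst') IntF.snd') (IntF.fst IntF.fst'))
  · refine Int.all (Int.all (Int.all (Int.imp (Int.mem (IntF.pair (IntF.snd (IntF.fst IntF.fst'))
      IntF.snd') (IntF.fst (IntF.fst IntF.fst'))) (Int.imp (Int.mem (IntF.pair
        (IntF.snd IntF.fst') IntF.snd') (IntF.fst (IntF.fst IntF.fst'))) (Int.eq
          (IntF.snd (IntF.fst IntF.fst')) (IntF.snd IntF.fst'))))))
  · exact Int.all (Int.all (Int.imp (Int.mem (IntF.pair (IntF.snd IntF.fst') IntF.snd')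
      (IntF.fst IntF.fst')) (Int.eq (IntF.fst IntF.snd') (int_cp.comp (IntF.snd IntF.fst')))))
  · exact Int.ex (Int.mem (IntF.pair (IntF.snd IntF.fst') IntF.snd') (IntF.fst IntF.fst'))
  · exact Int.mem (IntF.pair (IntF.snd IntF.fst') IntF.snd') (IntF.fst IntF.fst')

instance factCd : Fact (Int M (fun p : IPow M (Sl M × Xx M) => IsCd p)) := ⟨int_IsCd⟩

variable (M) in
/-- The notion of forcing. -/
abbrev Cd : Type u := {p : IPow M (Sl M × Xx M) // IsCd p}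

/-- The domain. -/
def Dm (p : Cd M) (i : Sl M) : Prop := ∃ z : Xx M, (i, z) ∈ p.1

theorem int_Dm : Int M (fun q : Cd M × Sl M => Dm q.1 q.2) := by
  unfold Dm
  exact Int.ex (Int.mem (IntF.pair (IntF.snd IntF.fst') IntF.snd') (IntF.val (IntF.fst IntF.fst')))

theorem int_At : Int M (fun q : Cd M × (Sl M × Xx M) => (q.2.1, q.2.2) ∈ q.1.1) :=
  Int.mem (IntF.pair (IntF.fst IntF.snd') (IntF.snd IntF.snd')) (IntF.val IntF.fst')

instance instPreCd : Preorder (Cd M) where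
  le p q := (∀ i, Dm q i → Dm p i) ∧ ∀ (i : Sl M) (z : Xx M), Dm q i → (i, z) ∈ p.1 → (i, z) ∈ q.1
  le_refl _ := ⟨fun _ h => h, fun _ _ _ h => h⟩
  le_trans _ _ _ h h' := ⟨fun i hi => h.1 i (h'.1 i hi), fun i z hi hz =>
    h'.2 i z hi (h.2 i z (h'.1 i hi) hz)⟩

theorem le_cd {p q : Cd M} : p ≤ q ↔ (∀ i, Dm q i → Dm p i) ∧
    ∀ (i : Sl M) (z : Xx M), Dm q i → (i, z) ∈ p.1 → (i, z) ∈ q.1 := Iff.rfl

instance instILECd : ILE M (Cd M) where
  out := by
    change Int M (fun q : Cd M × Cd M => (∀ i, Dm q.2 i → Dm q.1 i) ∧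
      ∀ (i : Sl M) (z : Xx M), Dm q.2 i → (i, z) ∈ q.1.1 → (i, z) ∈ q.2.1)
    have h := int_Dm (M := M)
    refine Int.and (Int.all (Int.imp ?_ ?_)) (Int.all (Int.all (Int.imp ?_ (Int.imp ?_ ?_))))
    · exact Int.comp₂ (p := fun p i => Dm p i) h (IntF.snd IntF.fst') IntF.snd'
    · exact Int.comp₂ (p := fun p i => Dm p i) h (IntF.fst IntF.fst') IntF.snd'
    · exact Int.comp₂ (p := fun p i => Dm p i) h (IntF.snd (IntF.fst IntF.fst'))
        (IntF.snd IntF.fst')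
    · exact Int.mem (IntF.pair (IntF.snd IntF.fst') IntF.snd')
        (IntF.val (IntF.fst (IntF.fst IntF.fst')))
    · exact Int.mem (IntF.pair (IntF.snd IntF.fst') IntF.snd')
        (IntF.val (IntF.snd (IntF.fst IntF.fst')))

theorem int_Dm' (p : Cd M) : Int M (Dm p) :=
  Int.comp₂ (p := fun p i => Dm p i) int_Dm (IntF.const _) IntF.id

theorem int_at' (p : Cd M) : Int M (fun q : Sl M × Xx M => (q.1, q.2) ∈ p.1) :=
  Int.mem (IntF.pair IntF.fst' IntF.snd') (IntF.const _)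

/-- Shrinking a condition. -/
theorem exists_shrink (p : Cd M) {b : Sl M → Xx M → Prop}
    (hb : Int M (fun q : Sl M × Xx M => b q.1 q.2))
    (h : ∀ i, Dm p i → ¬ FinP M (fun z => (i, z) ∈ p.1 ∧ b i z)) :
    ∃ q : Cd M, q ≤ p ∧ (∀ i, Dm q i ↔ Dm p i) ∧
      ∀ (i : Sl M) (z : Xx M), (i, z) ∈ q.1 ↔ (i, z) ∈ p.1 ∧ b i z := by
  have hI : Int M (fun q : Sl M × Xx M => (q.1, q.2) ∈ p.1 ∧ b q.1 q.2) :=
    Int.and (int_at' p) hb
  have hm : ∀ (i : Sl M) (z : Xx M), (i, z) ∈ (sep M fun q : Sl M × Xx M =>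
      (q.1, q.2) ∈ p.1 ∧ b q.1 q.2) ↔ (i, z) ∈ p.1 ∧ b i z := fun i z => mem_sep hI
  have hne : ∀ i, Dm p i → ∃ z, (i, z) ∈ p.1 ∧ b i z := by
    intro i hi
    by_contra hcon
    push Not at hcon
    exact h i hi ⟨∅, IFin.empty, fun z hz => absurd hz.2 (hcon z hz.1)⟩
  have hc : IsCd (sep M fun q : Sl M × Xx M => (q.1, q.2) ∈ p.1 ∧ b q.1 q.2) := by
    obtain ⟨h1, h2, h3, h4⟩ := p.2
    refine ⟨h1.mono ?_, fun i j z hi hj => h2 i j z ((hm i z).1 hi).1 ((hm j z).1 hj).1,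
      fun i z hz => h3 i z ((hm i z).1 hz).1, ?_⟩
    · rintro i ⟨z, hz⟩
      exact ⟨z, ((hm i z).1 hz).1⟩
    · rintro i ⟨z, hz⟩ hf
      exact h i ⟨z, ((hm i z).1 hz).1⟩ (hf.mono fun z hz => (hm i z).2 hz)
  refine ⟨⟨_, hc⟩, ⟨fun i hi => ?_, fun i z _ hz => ((hm i z).1 hz).1⟩, fun i => ⟨?_, ?_⟩, hm⟩
  · obtain ⟨z, hz⟩ := hne i hi
    exact ⟨z, (hm i z).2 hz⟩
  · rintro ⟨z, hz⟩
    exact ⟨z, ((hm i z).1 hz).1⟩
  · intro hi
    obtain ⟨z, hz⟩ := hne i hi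
    exact ⟨z, (hm i z).2 hz⟩

/-- Extending a condition. -/
theorem exists_ext (p : Cd M) {i : Sl M} (hi : ¬ Dm p i) {a : Xx M → Prop} (haI : Int M a)
    (ha : ¬ FinP M a) (hac : ∀ z, a z → z.1 = cp i) :
    ∃ q : Cd M, q ≤ p ∧ Dm q i ∧ (∀ z, (i, z) ∈ q.1 → a z) ∧ ∀ j, Dm q j ↔ Dm p j ∨ j = i := by
  obtain ⟨h1, h2, h3, h4⟩ := p.2
  obtain ⟨c, hcI, h5, h6, h7⟩ := inf_avoid (α := Xx M) (ι := Sl M) ctb_X (S := Dm p) (int_Dm' p) h1
    (P := fun j z => (j, z) ∈ p.1) (int_at' p) h4 (fun j j' z _ _ hz hz' => h2 j j' z hz hz')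
    haI ha
  have hI : Int M (fun q : Sl M × Xx M => ((q.1, q.2) ∈ p.1 ∧ ¬ c q.2) ∨ (q.1 = i ∧ c q.2)) :=
    Int.or (Int.and (int_at' p) (Int.not (hcI.comp IntF.snd')))
      (Int.and (Int.eq IntF.fst' (IntF.const _)) (hcI.comp IntF.snd'))
  have hm : ∀ (j : Sl M) (z : Xx M), (j, z) ∈ (sep M fun q : Sl M × Xx M =>
      ((q.1, q.2) ∈ p.1 ∧ ¬ c q.2) ∨ (q.1 = i ∧ c q.2)) ↔
        ((j, z) ∈ p.1 ∧ ¬ c z) ∨ (j = i ∧ c z) := fun j z => mem_sep hI
  have hdm : ∀ j, (∃ z, (j, z) ∈ (sep M fun q : Sl M × Xx M =>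
      ((q.1, q.2) ∈ p.1 ∧ ¬ c q.2) ∨ (q.1 = i ∧ c q.2))) ↔ Dm p j ∨ j = i := by
    intro j
    constructor
    · rintro ⟨z, hz⟩
      rcases (hm j z).1 hz with h | h
      · exact Or.inl ⟨z, h.1⟩
      · exact Or.inr h.1
    · rintro (h | rfl)
      · by_contra hcon
        push Not at hcon
        exact h7 j h ⟨∅, IFin.empty, fun z hz => absurd ((hm j z).2 (Or.inl hz)) (hcon z)⟩
      · by_contra hcon
        push Not at hcon
        exact h6 ⟨∅, IFin.empty, fun z hz => absurd ((hm j z).2 (Or.inr ⟨rfl, hz⟩)) (hcon z)⟩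
  have hc : IsCd (sep M fun q : Sl M × Xx M =>
      ((q.1, q.2) ∈ p.1 ∧ ¬ c q.2) ∨ (q.1 = i ∧ c q.2)) := by
    refine ⟨(h1.or (FinP.eq i)).mono fun j hj => (hdm j).1 hj, fun j j' z hj hj' => ?_,
      fun j z hz => ?_, fun j hj hf => ?_⟩
    · rcases (hm j z).1 hj with h | h
      · rcases (hm j' z).1 hj' with h' | h'
        · exact h2 j j' z h.1 h'.1
        · exact absurd h'.2 h.2
      · rcases (hm j' z).1 hj' with h' | h'
        · exact absurd h.2 h'.2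
        · exact h.1.trans h'.1.symm
    · rcases (hm j z).1 hz with h | h
      · exact h3 j z h.1
      · rw [h.1]
        exact hac z (h5 z h.2)
    · rcases (hdm j).1 hj with h | rfl
      · exact h7 j h (hf.mono fun z hz => (hm j z).2 (Or.inl hz))
      · exact h6 (hf.mono fun z hz => (hm j z).2 (Or.inr ⟨rfl, hz⟩))
  refine ⟨⟨_, hc⟩, ⟨fun j hj => (hdm j).2 (Or.inl hj), fun j z hj hz => ?_⟩,
    (hdm i).2 (Or.inr rfl), fun z hz => ?_, hdm⟩
  · rcases (hm j z).1 hz with h | h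
    · exact h.1
    · exact absurd (h.1 ▸ hj) hi
  · rcases (hm i z).1 hz with h | h
    · exact absurd ⟨z, h.1⟩ hi
    · exact h5 z h.2

end Pool.Agent.Helper672.ZFA.V246S
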