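import Pool.Agent.V11246.Sb

/-!
# The group of automorphisms
-/

set_option maxHeartbeats 1000000
set_option linter.all false
set_option synthInstance.maxSize 2000

namespace Pool.Agent.Helper672.ZFA.V246S

open FirstOrder FirstOrder.Language
open Pool.Agent.Helper672.ZFA.H635 (IPerm SymSys)
open Pool.Agent.H310

universe u

variable {M : Type u} [L.Structure M] [hM : IsModel M]

/-- The conditions for automorphisms. -/
def IsGp (g : IPerm M (Xx M)) : Prop :=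
  ∃ τ : IPerm M (INat M), (∀ b x, (g.1.1 (Sum.inl b, x)).1 = Sum.inl b) ∧
    (∀ t x, (g.1.1 (Sum.inr t, x)).1 = Sum.inr (τ.1.1 t)) ∧
      FinP M (fun t => ∃ x, (g.1.1 (Sum.inr t, x)).2 ≠ (g.1.1 (Sum.inl false, x)).2)

theorem int_IsGp : Int M (fun g : IPerm M (Xx M) => IsGp g) := by
  unfold IsGp
  have hg : IntF M (fun q : IPerm M (Xx M) × Xx M => q.1.1.1 q.2) :=
    IntF.app (IntF.fst (IntF.val IntF.fst')) IntF.snd'
  refine Int.ex (Int.and (Int.all (Int.all (Int.eq (IntF.fst ?_) (IntF.inl (IntF.snd IntF.fst')))))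
    (Int.and (Int.all (Int.all (Int.eq (IntF.fst ?_) (IntF.inr ?_))))
      (Int.finP (R := fun (q : IPerm M (Xx M) × IPerm M (INat M)) t =>
        ∃ x, (q.1.1.1 (Sum.inr t, x)).2 ≠ (q.1.1.1 (Sum.inl false, x)).2) ?_)))
  · exact IntF.comp (f := fun q : ((IPerm M (Xx M) × IPerm M (INat M)) × Bool) × INat M =>
      (q.1.1.1, (Sum.inl q.1.2, q.2))) hg (IntF.pair (IntF.fst (IntF.fst IntF.fst'))
        (IntF.pair (IntF.inl (IntF.snd IntF.fst')) IntF.snd'))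
  · exact IntF.comp (f := fun q : ((IPerm M (Xx M) × IPerm M (INat M)) × INat M) × INat M =>
      (q.1.1.1, (Sum.inr q.1.2, q.2))) hg (IntF.pair (IntF.fst (IntF.fst IntF.fst'))
        (IntF.pair (IntF.inr (IntF.snd IntF.fst')) IntF.snd'))
  · exact IntF.app (IntF.fst (IntF.val (IntF.snd (IntF.fst IntF.fst')))) (IntF.snd IntF.fst')
  · refine Int.ex (Int.not (Int.eq (IntF.snd ?_) (IntF.snd ?_)))
    · exact IntF.comp (f := fun q : ((IPerm M (Xx M) × IPerm M (INat M)) × INat M) × INat M =>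
        (q.1.1.1, (Sum.inr q.1.2, q.2))) hg (IntF.pair (IntF.fst (IntF.fst IntF.fst'))
          (IntF.pair (IntF.inr (IntF.snd IntF.fst')) IntF.snd'))
    · exact IntF.comp (f := fun q : ((IPerm M (Xx M) × IPerm M (INat M)) × INat M) × INat M =>
        (q.1.1.1, (Sum.inl false, q.2))) hg (IntF.pair (IntF.fst (IntF.fst IntF.fst'))
          (IntF.pair (IntF.const _) IntF.snd'))

theorem int_bad (g : IPerm M (Xx M)) : Int M (fun t : INat M =>
    ∃ x, (g.1.1 (Sum.inr t, x)).2 ≠ (g.1.1 (Sum.inl false, x)).2) := by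
  refine Int.ex (Int.not (Int.eq (IntF.snd ?_) (IntF.snd ?_)))
  · exact IntF.app (IntF.const _) (IntF.pair (IntF.inr IntF.fst') IntF.snd')
  · exact IntF.app (IntF.const _) (IntF.pair (IntF.const _) IntF.snd')

theorem isGp_one : IsGp (1 : IPerm M (Xx M)) := by
  refine ⟨1, fun b x => by rw [IPerm.one_apply], fun t x => by
    rw [IPerm.one_apply, IPerm.one_apply], ∅, IFin.empty, ?_⟩
  rintro t ⟨x, hx⟩
  rw [IPerm.one_apply, IPerm.one_apply] at hx
  exact absurd rfl hx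

theorem isGp_mul {g h : IPerm M (Xx M)} (hg : IsGp g) (hh : IsGp h) : IsGp (g * h) := by
  obtain ⟨τ, h1, h2, h3⟩ := hg
  obtain ⟨υ, k1, k2, k3⟩ := hh
  have e1 : ∀ b x, h.1.1 (Sum.inl b, x) = (Sum.inl b, (h.1.1 (Sum.inl b, x)).2) := fun b x =>
    Prod.ext (k1 b x) rfl
  have e2 : ∀ t x, h.1.1 (Sum.inr t, x) = (Sum.inr (υ.1.1 t), (h.1.1 (Sum.inr t, x)).2) :=
    fun t x => Prod.ext (k2 t x) rfl
  refine ⟨τ * υ, fun b x => ?_, fun t x => ?_, ?_⟩
  · rw [IPerm.mul_apply, e1, h1]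
  · rw [IPerm.mul_apply, e2, h2, IPerm.mul_apply]
  · have h4 : FinP M (fun t => ∃ x, (g.1.1 (Sum.inr (υ.1.1 t), x)).2 ≠
        (g.1.1 (Sum.inl false, x)).2) := by
      have hυ : IntF M (fun t => υ.1.1 t) := υ.1.1.2
      refine FinP.of_inj ((int_bad g).comp hυ) hυ (fun a b _ _ hab => ?_) h3 fun a ha => ha
      have := congrArg υ.1.2 hab
      rwa [υ.2.2, υ.2.2] at this
    refine (k3.or h4).mono ?_
    rintro t ⟨x, hx⟩
    by_contra hcon
    push Not at hcon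
    apply hx
    rw [IPerm.mul_apply, IPerm.mul_apply, e2, e1, hcon.1 x, hcon.2]

theorem isGp_inv {g : IPerm M (Xx M)} (hg : IsGp g) : IsGp g⁻¹ := by
  obtain ⟨τ, h1, h2, h3⟩ := hg
  have hgi : ∀ z, g.1.1 (g⁻¹.1.1 z) = z := g.2.1
  have hig : ∀ z, g⁻¹.1.1 (g.1.1 z) = z := g.2.2
  have k1 : ∀ b x, (g⁻¹.1.1 (Sum.inl b, x)).1 = Sum.inl b := by
    intro b x
    have h4 := hgi (Sum.inl b, x)
    rcases h5 : g⁻¹.1.1 (Sum.inl b, x) with ⟨b' | t, x'⟩
    · rw [h5] at h4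
      have h6 := h1 b' x'
      rw [h4] at h6
      exact h6.symm
    · rw [h5] at h4
      have h6 := h2 t x'
      rw [h4] at h6
      exact absurd h6 (by simp)
  have k2 : ∀ t x, (g⁻¹.1.1 (Sum.inr t, x)).1 = Sum.inr (τ⁻¹.1.1 t) := by
    intro t x
    have h4 := hgi (Sum.inr t, x)
    rcases h5 : g⁻¹.1.1 (Sum.inr t, x) with ⟨b' | t', x'⟩
    · rw [h5] at h4
      have h6 := h1 b' x'
      rw [h4] at h6
      exact absurd h6 (by simp)
    · rw [h5] at h4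
      have h6 := h2 t' x'
      rw [h4] at h6
      have h7 : t = τ.1.1 t' := Sum.inr.inj h6
      change Sum.inr t' = Sum.inr (τ.1.2 t)
      rw [h7, τ.2.2]
  refine ⟨τ⁻¹, k1, k2, ?_⟩
  have hτ : IntF M (fun t => τ⁻¹.1.1 t) := τ.1.2.2
  refine FinP.of_inj (int_bad g⁻¹) hτ (fun a b _ _ hab => ?_) h3 ?_
  · have := congrArg τ.1.1 hab
    change τ.1.1 (τ.1.2 a) = τ.1.1 (τ.1.2 b) at this
    rwa [τ.2.1, τ.2.1] at this
  · rintro t ⟨x, hx⟩
    by_contra hcon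
    push Not at hcon
    apply hx
    have e1 : g⁻¹.1.1 (Sum.inr t, x) = (Sum.inr (τ⁻¹.1.1 t), (g⁻¹.1.1 (Sum.inr t, x)).2) :=
      Prod.ext (k2 t x) rfl
    have h4 := hgi (Sum.inr t, x)
    rw [e1] at h4
    have h5 := hcon (g⁻¹.1.1 (Sum.inr t, x)).2
    rw [h4] at h5
    have h6 : g.1.1 (Sum.inl false, (g⁻¹.1.1 (Sum.inr t, x)).2) = (Sum.inl false, x) :=
      Prod.ext (h1 _ _) h5.symm
    have h7 := hig (Sum.inl false, (g⁻¹.1.1 (Sum.inr t, x)).2)
    rw [h6] at h7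
    rw [h7]

variable (M) in
/-- The group of automorphisms. -/
def GpS : Subgroup (IPerm M (Xx M)) where
  carrier := {g | IsGp g}
  mul_mem' h h' := isGp_mul h h'
  one_mem' := isGp_one
  inv_mem' h := isGp_inv h

instance factGp : Fact (Int M (fun g : IPerm M (Xx M) => g ∈ GpS M)) := ⟨int_IsGp⟩

variable (M) in
/-- The group of automorphisms. -/
abbrev Gp : Type u := {g : IPerm M (Xx M) // g ∈ GpS M}

/-- The action on the places. -/
def ap (g : Gp M) (z : Xx M) : Xx M := g.1.1.1 z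

section

variable (g h : Gp M) (z : Xx M)

theorem ap_mul : ap (g * h) z = ap g (ap h z) := IPerm.mul_apply _ _ _
theorem ap_one : ap (1 : Gp M) z = z := IPerm.one_apply _
theorem ap_inv_ap : ap g⁻¹ (ap g z) = z := g.1.2.2 z
theorem ap_ap_inv : ap g (ap g⁻¹ z) = z := g.1.2.1 z

end

theorem int_ap : IntF M (fun q : Gp M × Xx M => ap q.1 q.2) := by
  unfold ap
  exact IntF.app (IntF.fst (IntF.val (IntF.val IntF.fst'))) IntF.snd'

theorem int_ap' (g : Gp M) : IntF M (fun z : Xx M => ap g z) :=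
  IntF.comp₂ (p := fun g z => ap g z) int_ap (IntF.const _) IntF.id

instance instMulGp : IMul M (Gp M) where
  out := by
    refine IntF.mk ?_
    have h1 : IntF M (fun q : Gp M × Gp M => q.1.1) := IntF.val (IntF.fst')
    have h2 : IntF M (fun q : Gp M × Gp M => q.2.1) := IntF.val (IntF.snd')
    have h : IntF M (fun q : Gp M × Gp M => q.1.1 * q.2.1) := IntF.mul h1 h2
    exact h

instance instInvGp : IInv M (Gp M) where
  out := by
    refine IntF.mk ?_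
    have h1 : IntF M (fun q : Gp M => q.1) := IntF.val (IntF.id)
    have h : IntF M (fun q : Gp M => q.1⁻¹) := IntF.inv h1
    exact h

/-- The action on the points of the discrete space. -/
noncomputable def dg (g : Gp M) (t : INat M) : INat M := match (ap g (Sum.inr t, 0)).1 with
  | Sum.inl _ => t
  | Sum.inr t' => t'

theorem ap_inl (g : Gp M) (b : Bool) (x : INat M) : (ap g (Sum.inl b, x)).1 = Sum.inl b := by
  obtain ⟨τ, h1, h2, h3⟩ := g.2
  exact h1 b x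

theorem ap_inr (g : Gp M) (t x : INat M) : (ap g (Sum.inr t, x)).1 = Sum.inr (dg g t) := by
  obtain ⟨τ, h1, h2, h3⟩ := g.2
  have h4 : (ap g (Sum.inr t, 0)).1 = Sum.inr (τ.1.1 t) := h2 t 0
  have h5 : dg g t = τ.1.1 t := by
    unfold dg
    rw [h4]
  rw [h5]
  exact h2 t x

theorem dg_eq {g : Gp M} {t t' x : INat M} (h : (ap g (Sum.inr t, x)).1 = Sum.inr t') :
    dg g t = t' := Sum.inr.inj ((ap_inr g t x).symm.trans h)

theorem dg_one (t : INat M) : dg (1 : Gp M) t = t := dg_eq (x := 0) (by rw [ap_one])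

theorem dg_mul (g h : Gp M) (t : INat M) : dg (g * h) t = dg g (dg h t) := by
  refine dg_eq (x := 0) ?_
  rw [ap_mul]
  have e : ap h (Sum.inr t, 0) = (Sum.inr (dg h t), (ap h (Sum.inr t, 0)).2) :=
    Prod.ext (ap_inr h t 0) rfl
  rw [e, ap_inr]

theorem dg_inv_dg (g : Gp M) (t : INat M) : dg g⁻¹ (dg g t) = t := by
  rw [← dg_mul, inv_mul_cancel, dg_one]

theorem dg_dg_inv (g : Gp M) (t : INat M) : dg g (dg g⁻¹ t) = t := by
  rw [← dg_mul, mul_inv_cancel, dg_one]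

theorem int_dg : IntF M (fun q : Gp M × INat M => dg q.1 q.2) := by
  refine IntF.of_rel (r := fun (q : Gp M × INat M) (t : INat M) =>
    (ap q.1 (Sum.inr q.2, 0)).1 = Sum.inr t) ?_ fun q t => ?_
  · refine Int.eq (IntF.fst ?_) (IntF.inr IntF.snd')
    exact IntF.comp₂ (p := fun g z => ap g z) int_ap (IntF.fst IntF.fst')
      (IntF.pair (IntF.inr (IntF.snd IntF.fst')) (IntF.const _))
  · exact ⟨fun h => dg_eq h, fun h => by rw [ap_inr, h]⟩

/-- The action on the slots. -/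
noncomputable def sa (g : Gp M) (i : Sl M) : Sl M := if i.1.1 = true then (i.1, dg g i.2) else i

theorem sa_f (g : Gp M) (b : Bool) (n : INat M) : sa g ((false, b), n) = ((false, b), n) := by
  simp [sa]

theorem sa_t (g : Gp M) (b : Bool) (t : INat M) : sa g ((true, b), t) = ((true, b), dg g t) := by
  simp [sa]

theorem int_sa : IntF M (fun q : Gp M × Sl M => sa q.1 q.2) := by
  unfold sa
  refine IntF.ite (Int.eq (IntF.fst (IntF.fst IntF.snd')) (IntF.const _))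
    (IntF.pair (IntF.fst IntF.snd') ?_) IntF.snd'
  exact IntF.comp₂ (p := fun g t => dg g t) int_dg IntF.fst' (IntF.snd IntF.snd')

theorem sa_one (i : Sl M) : sa (1 : Gp M) i = i := by
  obtain ⟨⟨_ | _, b⟩, n⟩ := i
  · rw [sa_f]
  · rw [sa_t, dg_one]

theorem sa_mul (g h : Gp M) (i : Sl M) : sa (g * h) i = sa g (sa h i) := by
  obtain ⟨⟨_ | _, b⟩, n⟩ := i
  · rw [sa_f, sa_f, sa_f]
  · rw [sa_t, sa_t, sa_t, dg_mul]

theorem sa_inv_sa (g : Gp M) (i : Sl M) : sa g⁻¹ (sa g i) = i := by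
  rw [← sa_mul, inv_mul_cancel, sa_one]

theorem sa_sa_inv (g : Gp M) (i : Sl M) : sa g (sa g⁻¹ i) = i := by
  rw [← sa_mul, mul_inv_cancel, sa_one]

theorem cp_sa (g : Gp M) {i : Sl M} {z : Xx M} (h : z.1 = cp i) : (ap g z).1 = cp (sa g i) := by
  obtain ⟨c, x⟩ := z
  obtain ⟨⟨_ | _, b⟩, n⟩ := i
  · change c = Sum.inl b at h
    subst h
    rw [sa_f, ap_inl]
    rfl
  · rw [sa_t]
    rcases b with _ | _
    · change c = Sum.inr n at h
      subst h
      rw [ap_inr]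
      rfl
    · change c = Sum.inl true at h
      subst h
      rw [ap_inl]
      rfl

theorem int_smul0 : Int M (fun q : (Gp M × Cd M) × (Sl M × Xx M) =>
    (sa q.1.1⁻¹ q.2.1, ap q.1.1⁻¹ q.2.2) ∈ q.1.2.1) := by
  refine Int.mem (IntF.pair ?_ ?_) (IntF.val (IntF.snd IntF.fst'))
  · exact IntF.comp₂ (p := fun g t => sa g t) int_sa (IntF.inv (IntF.fst IntF.fst'))
      (IntF.fst IntF.snd')
  · exact IntF.comp₂ (p := fun g t => ap g t) int_ap (IntF.inv (IntF.fst IntF.fst'))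
      (IntF.snd IntF.snd')

theorem int_smul1 (g : Gp M) (p : Cd M) : Int M (fun q : Sl M × Xx M =>
    (sa g⁻¹ q.1, ap g⁻¹ q.2) ∈ p.1) :=
  Int.comp (f := fun q : Sl M × Xx M => ((g, p), q)) int_smul0
    (IntF.pair (IntF.const _) IntF.id)

theorem int_sa' (g : Gp M) : IntF M (fun i : Sl M => sa g i) :=
  IntF.comp₂ (p := fun g z => sa g z) int_sa (IntF.const _) IntF.id

theorem smul_cd (g : Gp M) (p : Cd M) :
    IsCd (sep M fun q : Sl M × Xx M => (sa g⁻¹ q.1, ap g⁻¹ q.2) ∈ p.1) := by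
  have hI := int_smul1 g p
  have hm : ∀ (i : Sl M) (z : Xx M), (i, z) ∈ (sep M fun q : Sl M × Xx M =>
      (sa g⁻¹ q.1, ap g⁻¹ q.2) ∈ p.1) ↔ (sa g⁻¹ i, ap g⁻¹ z) ∈ p.1 := fun i z => mem_sep hI
  obtain ⟨h1, h2, h3, h4⟩ := p.2
  refine ⟨?_, fun i j z hi hj => ?_, fun i z hz => ?_, fun i hi hf => ?_⟩
  · refine (h1.image (int_sa' g)).mono ?_
    rintro i ⟨z, hz⟩
    exact ⟨_, ⟨_, (hm i z).1 hz⟩, sa_sa_inv g i⟩
  · have h5 := h2 _ _ _ ((hm i z).1 hi) ((hm j z).1 hj)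
    have h6 := congrArg (sa g) h5
    rwa [sa_sa_inv, sa_sa_inv] at h6
  · have h5 := cp_sa g (h3 _ _ ((hm i z).1 hz))
    rwa [ap_ap_inv, sa_sa_inv] at h5
  · obtain ⟨z, hz⟩ := hi
    refine h4 _ ⟨_, (hm i z).1 hz⟩ ((hf.image (int_ap' g⁻¹)).mono fun y hy => ?_)
    refine ⟨ap g y, (hm _ _).2 ?_, ap_inv_ap g y⟩
    rwa [ap_inv_ap]

noncomputable instance instSMulGp : SMul (Gp M) (Cd M) :=
  ⟨fun g p => ⟨sep M fun q : Sl M × Xx M => (sa g⁻¹ q.1, ap g⁻¹ q.2) ∈ p.1, smul_cd g p⟩⟩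

theorem mem_smul {g : Gp M} {p : Cd M} {i : Sl M} {z : Xx M} :
    (i, z) ∈ (g • p).1 ↔ (sa g⁻¹ i, ap g⁻¹ z) ∈ p.1 := mem_sep (int_smul1 g p)

theorem mem_smul' {g : Gp M} {p : Cd M} {i : Sl M} {z : Xx M} :
    (sa g i, ap g z) ∈ (g • p).1 ↔ (i, z) ∈ p.1 := by rw [mem_smul, sa_inv_sa, ap_inv_ap]

theorem dm_smul {g : Gp M} {p : Cd M} {i : Sl M} : Dm (g • p) i ↔ Dm p (sa g⁻¹ i) := by
  constructor
  · rintro ⟨z, hz⟩
    exact ⟨_, mem_smul.1 hz⟩
  · rintro ⟨z, hz⟩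
    exact ⟨ap g z, mem_smul.2 (by rwa [ap_inv_ap])⟩

theorem dm_smul' {g : Gp M} {p : Cd M} {i : Sl M} : Dm (g • p) (sa g i) ↔ Dm p i := by
  rw [dm_smul, sa_inv_sa]

noncomputable instance instActGp : MulAction (Gp M) (Cd M) where
  one_smul p := Subtype.ext (IPow.ext' fun q => by
    obtain ⟨i, z⟩ := q
    rw [mem_smul, inv_one, sa_one, ap_one])
  mul_smul g h p := Subtype.ext (IPow.ext' fun q => by
    obtain ⟨i, z⟩ := q
    rw [mem_smul, mem_smul, mem_smul, mul_inv_rev, sa_mul, ap_mul])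

instance instISMulGp : ISMul M (Gp M) (Cd M) where
  out := by
    refine IntF.mk ?_
    exact IntF.sep int_smul0

theorem smul_le' (g : Gp M) {p q : Cd M} (h : p ≤ q) : g • p ≤ g • q :=
  ⟨fun i hi => dm_smul.2 (h.1 _ (dm_smul.1 hi)), fun i z hi hz =>
    mem_smul.2 (h.2 _ _ (dm_smul.1 hi) (mem_smul.1 hz))⟩

end Pool.Agent.Helper672.ZFA.V246S
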