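import Pool.Agent.V11246.Sc

/-!
# The sets that generate the supports
-/

set_option maxHeartbeats 1000000
set_option linter.all false
set_option synthInstance.maxSize 2000

namespace Pool.Agent.Helper672.ZFA.V246S

open FirstOrder FirstOrder.Language
open Pool.Agent.Helper672.ZFA.H635 (IPerm SymSys)
open Pool.Agent.H310

universe u

variable {M : Type u} [L.Structure M] [hM : IsModel M]

/-- The exceptional columns of a set of places. -/
def Ex (c : IPow M (Xx M)) (t : INat M) : Prop :=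
  ∃ x : INat M, ¬ (((Sum.inr t, x) : Xx M) ∈ c ↔ ((Sum.inl false, x) : Xx M) ∈ c)

theorem int_Ex : Int M (fun q : IPow M (Xx M) × INat M => Ex q.1 q.2) := by
  unfold Ex
  refine Int.ex (Int.not (Int.iff (Int.mem (IntF.pair (IntF.inr (IntF.snd IntF.fst')) IntF.snd')
    (IntF.fst IntF.fst')) (Int.mem (IntF.pair (IntF.const _) IntF.snd') (IntF.fst IntF.fst'))))

/-- The sets of places with finitely many exceptional columns. -/
def IsCx (c : IPow M (Xx M)) : Prop := FinP M (Ex c)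

theorem int_IsCx : Int M (fun c : IPow M (Xx M) => IsCx c) :=
  Int.finP (R := fun (c : IPow M (Xx M)) t => Ex c t) int_Ex

instance factCx : Fact (Int M (fun c : IPow M (Xx M) => IsCx c)) := ⟨int_IsCx⟩

variable (M) in
/-- The sets of places with finitely many exceptional columns. -/
abbrev Cx : Type u := {c : IPow M (Xx M) // IsCx c}

/-- The exceptional columns of an automorphism. -/
def Bd (g : Gp M) (t : INat M) : Prop :=
  ∃ x : INat M, (ap g (Sum.inr t, x)).2 ≠ (ap g (Sum.inl false, x)).2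

theorem int_Bd : Int M (fun q : Gp M × INat M => Bd q.1 q.2) := by
  unfold Bd
  refine Int.ex (Int.not (Int.eq (IntF.snd ?_) (IntF.snd ?_)))
  · exact IntF.comp₂ (p := fun g z => ap g z) int_ap (IntF.fst IntF.fst')
      (IntF.pair (IntF.inr (IntF.snd IntF.fst')) IntF.snd')
  · exact IntF.comp₂ (p := fun g z => ap g z) int_ap (IntF.fst IntF.fst')
      (IntF.pair (IntF.const _) IntF.snd')

theorem finP_Bd (g : Gp M) : FinP M (Bd g) := by
  obtain ⟨τ, -, -, h⟩ := g.2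
  exact h

theorem ap_inr' (g : Gp M) {t : INat M} (ht : ¬ Bd g t) (x : INat M) :
    ap g (Sum.inr t, x) = (Sum.inr (dg g t), (ap g (Sum.inl false, x)).2) := by
  refine Prod.ext (ap_inr g t x) ?_
  by_contra hcon
  exact ht ⟨x, hcon⟩

theorem ap_inl' (g : Gp M) (b : Bool) (x : INat M) :
    ap g (Sum.inl b, x) = (Sum.inl b, (ap g (Sum.inl b, x)).2) := Prod.ext (ap_inl g b x) rfl

theorem int_mem_cact : Int M (fun q : (Gp M × Cx M) × Xx M => ap q.1.1⁻¹ q.2 ∈ q.1.2.1) := by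
  refine Int.mem ?_ (IntF.val (IntF.snd IntF.fst'))
  exact IntF.comp₂ (p := fun g t => ap g t) int_ap (IntF.inv (IntF.fst IntF.fst')) IntF.snd'

theorem int_mem_cact' (g : Gp M) (c : Cx M) : Int M (fun z : Xx M => ap g⁻¹ z ∈ c.1) :=
  Int.comp (f := fun z : Xx M => ((g, c), z)) int_mem_cact (IntF.pair (IntF.const _) IntF.id)

theorem int_dg' (g : Gp M) : IntF M (fun t : INat M => dg g t) :=
  IntF.comp₂ (p := fun g z => dg g z) int_dg (IntF.const _) IntF.id

theorem isCx_cact (g : Gp M) (c : Cx M) : IsCx (sep M fun z : Xx M => ap g⁻¹ z ∈ c.1) := by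
  have hm : ∀ z : Xx M, z ∈ (sep M fun z : Xx M => ap g⁻¹ z ∈ c.1) ↔ ap g⁻¹ z ∈ c.1 :=
    fun z => mem_sep (int_mem_cact' g c)
  have h1 : FinP M (fun t => Ex c.1 (dg g⁻¹ t)) := by
    refine FinP.of_inj (Int.comp₂ (p := fun a b => Ex a b) int_Ex (IntF.const _) (int_dg' g⁻¹))
      (int_dg' g⁻¹) (fun a b _ _ hab => ?_) c.2 fun a ha => ha
    have := congrArg (dg g) hab
    rwa [dg_dg_inv, dg_dg_inv] at this
  refine ((finP_Bd g⁻¹).or h1).mono ?_
  rintro t ⟨x, hx⟩
  by_contra hcon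
  push Not at hcon
  apply hx
  rw [hm, hm, ap_inr' g⁻¹ hcon.1 x]
  have h2 := hcon.2
  unfold Ex at h2
  push Not at h2
  have h3 := h2 (ap g⁻¹ (Sum.inl false, x)).2
  rw [ap_inl' g⁻¹ false x]
  exact h3

/-- The action on the sets. -/
noncomputable def cact (g : Gp M) (c : Cx M) : Cx M :=
  ⟨sep M fun z : Xx M => ap g⁻¹ z ∈ c.1, isCx_cact g c⟩

theorem mem_cact {g : Gp M} {c : Cx M} {z : Xx M} : z ∈ (cact g c).1 ↔ ap g⁻¹ z ∈ c.1 :=
  mem_sep (int_mem_cact' g c)

theorem mem_cact' {g : Gp M} {c : Cx M} {z : Xx M} : ap g z ∈ (cact g c).1 ↔ z ∈ c.1 := by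
  rw [mem_cact, ap_inv_ap]

theorem cx_ext {c d : Cx M} (h : ∀ z, z ∈ c.1 ↔ z ∈ d.1) : c = d :=
  Subtype.ext (IPow.ext' h)

theorem cact_one (c : Cx M) : cact 1 c = c := cx_ext fun z => by
  rw [mem_cact, inv_one, ap_one]

theorem cact_mul (g h : Gp M) (c : Cx M) : cact (g * h) c = cact g (cact h c) := cx_ext fun z => by
  rw [mem_cact, mem_cact, mem_cact, mul_inv_rev, ap_mul]

theorem cact_inv (g : Gp M) (c : Cx M) : cact g⁻¹ (cact g c) = c := by
  rw [← cact_mul, inv_mul_cancel, cact_one]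

theorem cact_inv' (g : Gp M) (c : Cx M) : cact g (cact g⁻¹ c) = c := by
  rw [← cact_mul, mul_inv_cancel, cact_one]

theorem int_cact : IntF M (fun q : Gp M × Cx M => cact q.1 q.2) := by
  refine IntF.mk ?_
  exact IntF.sep int_mem_cact

theorem int_cact' (g : Gp M) : IntF M (fun c : Cx M => cact g c) :=
  IntF.comp₂ (p := fun g z => cact g z) int_cact (IntF.const _) IntF.id

/-- An automorphism fixes a set if it preserves it. -/
theorem cact_eq {g : Gp M} {c : Cx M} (h : ∀ z, ap g z ∈ c.1 ↔ z ∈ c.1) : cact g c = c :=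
  cx_ext fun z => by
    rw [mem_cact, ← h, ap_ap_inv]

theorem of_cact_eq {g : Gp M} {c : Cx M} (h : cact g c = c) (z : Xx M) :
    ap g z ∈ c.1 ↔ z ∈ c.1 := by
  have := mem_cact' (g := g) (c := c) (z := z)
  rwa [h] at this

instance factLx : Fact (Int M (fun l : IPow M (Cx M) => IFin l)) := ⟨Int.fin IntF.id⟩

variable (M) in
/-- The supports. -/
abbrev Lx : Type u := {l : IPow M (Cx M) // IFin l}

variable (M) in
/-- The symmetric system. -/
noncomputable def Ss : SymSys M (Cd M) (Gp M) (Lx M) where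
  smul_le g p q h := smul_le' g h
  U l g := ∀ c, c ∈ l.1 → cact g c = c
  int_U := by
    refine Int.all (Int.imp (Int.mem IntF.snd' (IntF.val (IntF.fst IntF.fst'))) (Int.eq ?_ IntF.snd'))
    exact IntF.comp₂ (p := fun g c => cact g c) int_cact (IntF.snd IntF.fst') IntF.snd'
  nonempty := ⟨⟨∅, IFin.empty⟩⟩
  one l c _ := cact_one c
  mul l a b ha hb c hc := by rw [cact_mul, hb c hc, ha c hc]
  inv l a ha c hc := by
    have := cact_inv a c
    rwa [ha c hc] at this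
  dir l l' := ⟨⟨l.1 ∪ l'.1, l.2.union l'.2⟩, fun a ha => ⟨fun c hc => ha c (mem_union.2 (Or.inl hc)),
    fun c hc => ha c (mem_union.2 (Or.inr hc))⟩⟩
  conj π l := by
    refine ⟨⟨iimage (cact π) l.1, l.2.image (int_cact' π)⟩, fun a ha c hc => ?_⟩
    rw [cact_mul, cact_mul, ha _ ((mem_iimage (int_cact' π)).2 ⟨c, hc, rfl⟩), cact_inv]

theorem Ss_U {l : Lx M} {g : Gp M} : (Ss M).U l g ↔ ∀ c, c ∈ l.1 → cact g c = c := Iff.rfl

/-- Unions. -/
noncomputable def cu (c d : Cx M) : Cx M := ⟨c.1 ∪ d.1, (c.2.or d.2).mono fun t ⟨x, hx⟩ => by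
  by_contra hcon
  push Not at hcon
  obtain ⟨h1, h2⟩ := hcon
  unfold Ex at h1 h2
  push Not at h1 h2
  apply hx
  rw [mem_union, mem_union]
  have h3 := h1 x
  have h4 := h2 x
  tauto⟩

theorem mem_cu {c d : Cx M} {z : Xx M} : z ∈ (cu c d).1 ↔ z ∈ c.1 ∨ z ∈ d.1 := mem_union

theorem int_cc : Int M (fun q : Cx M × Xx M => ¬ q.2 ∈ q.1.1) :=
  Int.not (Int.mem IntF.snd' (IntF.val IntF.fst'))

theorem int_cc' (c : Cx M) : Int M (fun z : Xx M => ¬ z ∈ c.1) :=
  Int.comp (f := fun z : Xx M => (c, z)) int_cc (IntF.pair (IntF.const _) IntF.id)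

/-- Complements. -/
noncomputable def cc (c : Cx M) : Cx M := ⟨sep M fun z : Xx M => ¬ z ∈ c.1,
  c.2.mono fun t ⟨x, hx⟩ => by
    refine ⟨x, fun h => hx ?_⟩
    rw [mem_sep (int_cc' c), mem_sep (int_cc' c), h]⟩

theorem mem_cc {c : Cx M} {z : Xx M} : z ∈ (cc c).1 ↔ ¬ z ∈ c.1 := mem_sep (int_cc' c)

/-- Intersections. -/
noncomputable def ci (c d : Cx M) : Cx M := cc (cu (cc c) (cc d))

theorem mem_ci {c d : Cx M} {z : Xx M} : z ∈ (ci c d).1 ↔ z ∈ c.1 ∧ z ∈ d.1 := by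
  unfold ci
  rw [mem_cc, mem_cu, mem_cc, mem_cc]
  tauto

theorem cact_cu (g : Gp M) (c d : Cx M) : cact g (cu c d) = cu (cact g c) (cact g d) :=
  cx_ext fun z => by
    rw [mem_cact, mem_cu, mem_cu, mem_cact, mem_cact]

theorem int_cu : IntF M (fun q : Cx M × Cx M => cu q.1 q.2) := by
  refine IntF.mk ?_
  have h1 : IntF M (fun q : Cx M × Cx M => q.1.1) := IntF.val (IntF.fst')
  have h2 : IntF M (fun q : Cx M × Cx M => q.2.1) := IntF.val (IntF.snd')
  have h : IntF M (fun q : Cx M × Cx M => q.1.1 ∪ q.2.1) := IntF.union h1 h2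
  exact h

/-- The uniform sets. -/
noncomputable def eu (e : IPow M (INat M)) : Cx M := ⟨sep M fun z : Xx M => z.2 ∈ e, by
  have hI : Int M (fun z : Xx M => z.2 ∈ e) := Int.mem IntF.snd' (IntF.const _)
  refine ⟨∅, IFin.empty, fun t ht => ?_⟩
  obtain ⟨x, hx⟩ := ht
  rw [mem_sep hI, mem_sep hI] at hx
  exact absurd Iff.rfl hx⟩

theorem mem_eu {e : IPow M (INat M)} {z : Xx M} : z ∈ (eu e).1 ↔ z.2 ∈ e :=
  mem_sep (Int.mem IntF.snd' (IntF.const _))

/-- The columns. -/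
noncomputable def ck (t : INat M) : Cx M := ⟨sep M fun z : Xx M => z.1 = Sum.inr t, by
  have hI : Int M (fun z : Xx M => z.1 = Sum.inr t) := Int.eq IntF.fst' (IntF.const _)
  refine (FinP.eq t).mono fun t' ht => ?_
  obtain ⟨x, hx⟩ := ht
  rw [mem_sep hI, mem_sep hI] at hx
  by_contra hcon
  refine hx ⟨fun h => absurd (Sum.inr.inj h) hcon, fun h => absurd h (by simp)⟩⟩

theorem mem_ck {t : INat M} {z : Xx M} : z ∈ (ck t).1 ↔ z.1 = Sum.inr t :=
  mem_sep (Int.eq IntF.fst' (IntF.const _))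

theorem dg_of_ck {g : Gp M} {t : INat M} (h : cact g (ck t) = ck t) : dg g t = t := by
  have h1 := (of_cact_eq h (Sum.inr t, 0)).2 (mem_ck.2 rfl)
  exact dg_eq (mem_ck.1 h1)

/-- A finite set of exceptional columns for a support. -/
theorem exists_Fl (l : IPow M (Cx M)) (hl : IFin l) :
    FinP M (fun t => ∃ c, c ∈ l ∧ Ex c.1 t) := by
  have h1 : FinP M (fun c => c ∈ l) := ⟨l, hl, fun _ h => h⟩
  have h2 : Int M (fun c : Cx M => c ∈ l) := Int.mem IntF.id (IntF.const _)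
  have h3 : Int M (fun q : Cx M × INat M => Ex q.1.1 q.2) :=
    Int.comp₂ (p := fun a b => Ex a b) int_Ex (IntF.val (IntF.fst')) IntF.snd'
  exact FinP.bUnion h1 h2 h3 fun c hc => c.2

end Pool.Agent.Helper672.ZFA.V246S
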