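import Pool.Agent.V11246.Sd

/-!
# Generic positions
-/

set_option maxHeartbeats 1000000
set_option linter.all false
set_option synthInstance.maxSize 2000

namespace Pool.Agent.Helper672.ZFA.V246S

open FirstOrder FirstOrder.Language
open Pool.Agent.Helper672.ZFA.H635 (IPerm SymSys IsGen)
open Pool.Agent.H310

universe u

variable {M : Type u} [L.Structure M] [hM : IsModel M]

/-- The position of a slot is in a set. -/
def At (p : Cd M) (i : Sl M) (c : Cx M) : Prop := Dm p i ∧ ∀ z, (i, z) ∈ p.1 → z ∈ c.1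

theorem int_AtC : Int M (fun q : Cd M × Sl M × Cx M => At q.1 q.2.1 q.2.2) := by
  unfold At
  refine Int.and ?_ (Int.all (Int.imp (Int.mem (IntF.pair (IntF.fst (IntF.snd IntF.fst'))
    IntF.snd') (IntF.val (IntF.fst IntF.fst'))) (Int.mem IntF.snd' (IntF.val (IntF.snd
      (IntF.snd IntF.fst'))))))
  exact Int.comp₂ (p := fun a b => Dm a b) int_Dm IntF.fst' (IntF.fst IntF.snd')

theorem At.mono {p q : Cd M} {i : Sl M} {c : Cx M} (h : At p i c) (hq : q ≤ p) : At q i c :=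
  ⟨hq.1 i h.1, fun z hz => h.2 z (hq.2 i z h.1 hz)⟩

theorem At.sub {p : Cd M} {i : Sl M} {c d : Cx M} (h : At p i c)
    (hd : ∀ z, z.1 = cp i → z ∈ c.1 → z ∈ d.1) : At p i d :=
  ⟨h.1, fun z hz => hd z (p.2.2.2.1 i z hz) (h.2 z hz)⟩

theorem at_smul {g : Gp M} {p : Cd M} {i : Sl M} {c : Cx M} (h : At p i c) :
    At (g • p) (sa g i) (cact g c) := by
  refine ⟨dm_smul'.2 h.1, fun z hz => ?_⟩
  rw [mem_smul, sa_inv_sa] at hz
  exact mem_cact.2 (h.2 _ hz)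

theorem Dm.ex {p : Cd M} {i : Sl M} (h : Dm p i) : ∃ z, (i, z) ∈ p.1 := h

theorem inf_pos {p : Cd M} {i : Sl M} (h : Dm p i) : ¬ FinP M (fun z : Xx M => (i, z) ∈ p.1) :=
  p.2.2.2.2 i h

theorem int_pos (p : Cd M) (i : Sl M) : Int M (fun z : Xx M => (i, z) ∈ p.1) :=
  Int.mem (IntF.pair (IntF.const _) IntF.id) (IntF.const _)

theorem inf_all : ¬ FinP M (fun _ : INat M => True) := by
  intro h
  exact not_finP_nat (M := M) (h.mono fun _ _ => trivial)

/-- Extending the domain. -/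
theorem exists_dm (p : Cd M) (i : Sl M) : ∃ q : Cd M, q ≤ p ∧ Dm q i := by
  by_cases hi : Dm p i
  · exact ⟨p, le_rfl, hi⟩
  · obtain ⟨q, h1, h2, -⟩ := exists_ext p hi (a := fun z => z.1 = cp i ∧ True)
      (Int.and (Int.eq IntF.fst' (IntF.const _)) (Int.const _)) (inf_col inf_all (cp i))
      fun z hz => hz.1
    exact ⟨q, h1, h2⟩

/-- Shrinking one position. -/
theorem exists_shr (p : Cd M) {i : Sl M} {a : Xx M → Prop} (haI : Int M a)
    (ha : ¬ FinP M (fun z => (i, z) ∈ p.1 ∧ a z)) :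
    ∃ q : Cd M, q ≤ p ∧ (∀ j, Dm q j ↔ Dm p j) ∧ (∀ z, (i, z) ∈ q.1 ↔ (i, z) ∈ p.1 ∧ a z) ∧
      ∀ j z, j ≠ i → ((j, z) ∈ q.1 ↔ (j, z) ∈ p.1) := by
  obtain ⟨q, h1, h2, h3⟩ := exists_shrink p (b := fun j z => j = i → a z)
    (Int.imp (Int.eq IntF.fst' (IntF.const _)) (haI.comp IntF.snd')) fun j hj hf => by
      by_cases hji : j = i
      · rw [hji] at hf
        exact ha (hf.mono fun z hz => ⟨hz.1, fun _ => hz.2⟩)
      · exact inf_pos hj (hf.mono fun z hz => ⟨hz, fun h => absurd h hji⟩)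
  refine ⟨q, h1, h2, fun z => ?_, fun j z hj => ?_⟩
  · rw [h3]
    exact ⟨fun h => ⟨h.1, h.2 rfl⟩, fun h => ⟨h.1, fun _ => h.2⟩⟩
  · rw [h3]
    exact ⟨fun h => h.1, fun h => ⟨h, fun h' => absurd h' hj⟩⟩

theorem int_mc (c : Cx M) : Int M (fun z : Xx M => z ∈ c.1) := Int.mem IntF.id (IntF.const _)

/-- Deciding a set. -/
theorem exists_dec (p : Cd M) {i : Sl M} (hi : Dm p i) (c : Cx M) :
    ∃ q : Cd M, q ≤ p ∧ (∀ j, Dm q j ↔ Dm p j) ∧ (At q i c ∨ At q i (cc c)) := by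
  by_cases h : FinP M (fun z => (i, z) ∈ p.1 ∧ z ∈ c.1)
  · have h' : ¬ FinP M (fun z => (i, z) ∈ p.1 ∧ ¬ z ∈ c.1) := fun h1 =>
      inf_pos hi ((h.or h1).mono fun z hz => by
        by_cases hc : z ∈ c.1
        · exact Or.inl ⟨hz, hc⟩
        · exact Or.inr ⟨hz, hc⟩)
    obtain ⟨q, h1, h2, h3, -⟩ := exists_shr p (int_cc' c) h'
    exact ⟨q, h1, h2, Or.inr ⟨(h2 i).2 hi, fun z hz => mem_cc.2 ((h3 z).1 hz).2⟩⟩
  · obtain ⟨q, h1, h2, h3, -⟩ := exists_shr p (int_mc c) h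
    exact ⟨q, h1, h2, Or.inl ⟨(h2 i).2 hi, fun z hz => ((h3 z).1 hz).2⟩⟩

/-- The position of a slot in the generic object. -/
def In (G : Set (Cd M)) (i : Sl M) (c : Cx M) : Prop := ∃ p, p ∈ G ∧ At p i c

section

variable {G : Set (Cd M)} (hG : IsGen M G)

include hG

theorem exists_gdm (i : Sl M) {p : Cd M} (hp : p ∈ G) : ∃ q, q ∈ G ∧ q ≤ p ∧ Dm q i := by
  obtain ⟨q, h1, h2, h3⟩ := hG.dense_below (s := fun q => Dm q i)
    (Int.comp₂ (p := fun a b => Dm a b) int_Dm IntF.id (IntF.const _)) hp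
      fun p' _ => exists_dm p' i
  exact ⟨q, h1, h2, h3⟩

theorem in_or (i : Sl M) (c : Cx M) : In G i c ∨ In G i (cc c) := by
  obtain ⟨p, hp⟩ := hG.ne
  obtain ⟨q, h1, -, h2⟩ := hG.dense_below (s := fun q => At q i c ∨ At q i (cc c))
    (Int.or (Int.comp (f := fun q : Cd M => (q, i, c)) int_AtC (IntF.pair IntF.id (IntF.const _)))
      (Int.comp (f := fun q : Cd M => (q, i, cc c)) int_AtC (IntF.pair IntF.id (IntF.const _)))) hp
      fun p' _ => by
        obtain ⟨q, h3, h4⟩ := exists_dm p' i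
        obtain ⟨r, h5, -, h6⟩ := exists_dec q h4 c
        exact ⟨r, h5.trans h3, h6⟩
  exact h2.imp (fun h => ⟨q, h1, h⟩) fun h => ⟨q, h1, h⟩

theorem In.sub {i : Sl M} {c d : Cx M} (h : In G i c)
    (hd : ∀ z, z.1 = cp i → z ∈ c.1 → z ∈ d.1) : In G i d := by
  obtain ⟨p, hp, h1⟩ := h
  exact ⟨p, hp, h1.sub hd⟩

theorem In.inf {i : Sl M} {c : Cx M} (h : In G i c) : ¬ FinP M (fun x => (cp i, x) ∈ c.1) := by
  obtain ⟨p, hp, h1⟩ := h
  intro hf
  refine inf_pos h1.1 ((fin_col hf (cp i)).mono fun z hz => ?_)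
  have h2 := p.2.2.2.1 i z hz
  refine ⟨h2, ?_⟩
  rw [← h2]
  exact h1.2 z hz

theorem In.both {i : Sl M} {c d : Cx M} (h : In G i c) (h' : In G i d) :
    In G i (ci c d) := by
  obtain ⟨p, hp, h1⟩ := h
  obtain ⟨q, hq, h2⟩ := h'
  obtain ⟨r, hr, h3, h4⟩ := hG.dir p q hp hq
  exact ⟨r, hr, (h1.mono h3).1, fun z hz => mem_ci.2 ⟨(h1.mono h3).2 z hz, (h2.mono h4).2 z hz⟩⟩

theorem in_cc {i : Sl M} {c : Cx M} : In G i (cc c) ↔ ¬ In G i c := by
  constructor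
  · intro h h'
    refine ((h.both hG h').inf hG) ⟨∅, IFin.empty, fun x hx => ?_⟩
    have hx' := mem_ci.1 hx
    rw [mem_cc] at hx'
    exact absurd hx'.2 hx'.1
  · intro h
    exact (in_or hG i c).resolve_left h

theorem in_cu {i : Sl M} {c d : Cx M} : In G i (cu c d) ↔ In G i c ∨ In G i d := by
  constructor
  · intro h
    by_contra hcon
    push Not at hcon
    have h1 := (in_cc hG).2 hcon.1
    have h2 := (in_cc hG).2 hcon.2
    refine ((h.both hG (h1.both hG h2)).inf hG) ⟨∅, IFin.empty, fun x hx => ?_⟩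
    have hx' := mem_ci.1 hx
    rw [mem_cu, mem_ci, mem_cc, mem_cc] at hx'
    tauto
  · rintro (h | h)
    · exact h.sub hG fun z _ hz => mem_cu.2 (Or.inl hz)
    · exact h.sub hG fun z _ hz => mem_cu.2 (Or.inr hz)

theorem in_cof {i : Sl M} {c : Cx M} (h : FinP M (fun x => ¬ (cp i, x) ∈ c.1)) : In G i c := by
  by_contra hcon
  refine (((in_cc hG).2 hcon).inf hG) (h.mono fun x hx => ?_)
  rwa [mem_cc] at hx

theorem in_sep {i j : Sl M} (hij : i ≠ j) (hc : cp i = cp j) :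
    ∃ e, In G i (eu e) ∧ ¬ In G j (eu e) := by
  obtain ⟨p, hp⟩ := hG.ne
  obtain ⟨p1, hp1, h1, h2⟩ := exists_gdm hG i hp
  obtain ⟨p2, hp2, h3, h4⟩ := exists_gdm hG j hp1
  have h5 : Dm p2 i := h3.1 i h2
  have hI : Int M (fun x : INat M => (i, (cp i, x)) ∈ p2.1) :=
    Int.mem (IntF.pair (IntF.const _) (IntF.pair (IntF.const _) IntF.id)) (IntF.const _)
  refine ⟨sep M fun x : INat M => (i, (cp i, x)) ∈ p2.1, ⟨p2, hp2, h5, fun z hz => ?_⟩, ?_⟩
  · rw [mem_eu, mem_sep hI]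
    have h6 := p2.2.2.2.1 i z hz
    rw [← h6]
    exact hz
  · rw [← in_cc hG]
    refine ⟨p2, hp2, h4, fun z hz => ?_⟩
    rw [mem_cc, mem_eu, mem_sep hI]
    have h6 := p2.2.2.2.1 j z hz
    intro h7
    rw [hc, ← h6] at h7
    exact hij (p2.2.2.1 i j z h7 hz)

end

/-- There are new indices. -/
theorem exists_new (p : Cd M) {S : INat M → Prop} (hS : FinP M S) (k : Bool × Bool) :
    ∃ n, ¬ S n ∧ ¬ Dm p (k, n) := by
  by_contra hcon
  push Not at hcon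
  have h1 : FinP M (fun n => Dm p (k, n)) :=
    ((p.2.1).image (f := fun i : Sl M => i.2) IntF.snd').mono fun n hn => ⟨(k, n), hn, rfl⟩
  refine inf_all ((hS.or h1).mono fun n _ => ?_)
  by_cases h : S n
  · exact Or.inl h
  · exact Or.inr (hcon n h)

/-- Two new slots. -/
theorem exists_td (p : Cd M) {S : INat M → Prop} (hS : FinP M S) {a a' : INat M → Prop}
    (haI : Int M a) (haI' : Int M a') (ha : ¬ FinP M a) (ha' : ¬ FinP M a') :
    ∃ q : Cd M, q ≤ p ∧ ∃ t, ¬ S t ∧ (∀ k, ¬ Dm p ((true, k), t)) ∧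
      Dm q ((true, false), t) ∧ Dm q ((true, true), t) ∧
      (∀ z, (((true, false), t), z) ∈ q.1 → a z.2) ∧
      ∀ z, (((true, true), t), z) ∈ q.1 → a' z.2 := by
  have h0 : FinP M (fun t => S t ∨ Dm p ((true, true), t)) := hS.or
    (((p.2.1).image (f := fun i : Sl M => i.2) IntF.snd').mono fun n hn =>
      ⟨((true, true), n), hn, rfl⟩)
  obtain ⟨t, ht, h1⟩ := exists_new p h0 (true, false)
  push Not at ht
  obtain ⟨q, h2, h3, h4, h5⟩ := exists_ext p h1 (a := fun z => z.1 = cp ((true, false), t) ∧ a z.2)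
    (Int.and (Int.eq IntF.fst' (IntF.const _)) (haI.comp IntF.snd')) (inf_col ha _) fun z hz => hz.1
  have h6 : ¬ Dm q ((true, true), t) := by
    rw [h5]
    rintro (h | h)
    · exact ht.2 h
    · simp at h
  obtain ⟨r, h7, h8, h9, h10⟩ := exists_ext q h6
    (a := fun z => z.1 = cp ((true, true), t) ∧ a' z.2)
    (Int.and (Int.eq IntF.fst' (IntF.const _)) (haI'.comp IntF.snd')) (inf_col ha' _)
      fun z hz => hz.1
  refine ⟨r, h7.trans h2, t, ht.1, fun k => ?_, h7.1 _ h3, h8, fun z hz => (h4 z (h7.2 _ z h3 hz)).2,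
    fun z hz => (h9 z hz).2⟩
  cases k
  · exact h1
  · exact ht.2

/-- One new slot. -/
theorem exists_nb (p : Cd M) (b : Bool) {S : INat M → Prop} (hS : FinP M S) {a : INat M → Prop}
    (haI : Int M a) (ha : ¬ FinP M a) :
    ∃ q : Cd M, q ≤ p ∧ ∃ n, ¬ S n ∧ ¬ Dm p ((false, b), n) ∧
      Dm q ((false, b), n) ∧ ∀ z, (((false, b), n), z) ∈ q.1 → a z.2 := by
  obtain ⟨t, ht, h1⟩ := exists_new p hS (false, b)
  obtain ⟨q, h2, h3, h4, h5⟩ := exists_ext p h1 (a := fun z => z.1 = cp ((false, b), t) ∧ a z.2)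
    (Int.and (Int.eq IntF.fst' (IntF.const _)) (haI.comp IntF.snd')) (inf_col ha _) fun z hz => hz.1
  exact ⟨q, h2, t, ht, h1, h3, fun z hz => (h4 z hz).2⟩

end Pool.Agent.Helper672.ZFA.V246S
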