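import Pool.Agent.V11246.Se
import Pool.Agent.V11246.Kp

/-!
# The spaces in the extension
-/

set_option maxHeartbeats 1000000
set_option linter.all false
set_option synthInstance.maxSize 2000

namespace Pool.Agent.Helper672.ZFA.V246S

open FirstOrder FirstOrder.Language
open Pool.Agent.Helper672.ZFA.H635 (IPerm SymSys IsGen NN EqFam nm nmN CollL nm_fam nm_inj)
open Pool.Agent.H310

universe u

variable {M : Type u} [L.Structure M] [hM : IsModel M]
variable {G : Set (Cd M)} (hG : IsGen M G)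

theorem int_At3 {γ : Type u} [ITy M γ] {p : γ → Cd M} {i : γ → Sl M} {c : γ → Cx M}
    (hp : IntF M p) (hi : IntF M i) (hc : IntF M c) : Int M (fun x => At (p x) (i x) (c x)) :=
  Int.comp (f := fun x => (p x, i x, c x)) int_AtC (IntF.pair hp (IntF.pair hi hc))

section

include hG

theorem exists_nd (b : Bool) {S : INat M → Prop} (hS : FinP M S) {c : Cx M}
    (hc : ¬ FinP M (fun x => ((Sum.inl b, x) : Xx M) ∈ c.1)) {p : Cd M} (hp : p ∈ G) :
    ∃ n, ¬ S n ∧ In G ((false, b), n) c := by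
  have hI : Int M (fun x : INat M => ((Sum.inl b, x) : Xx M) ∈ c.1) :=
    Int.mem (IntF.pair (IntF.const _) IntF.id) (IntF.const _)
  have hSI : Int M (fun n : INat M => n ∈ sep M S) := Int.mem IntF.id (IntF.const _)
  obtain ⟨s, hs, hS'⟩ := hS
  have hsI : Int M (fun n : INat M => n ∈ s) := Int.mem IntF.id (IntF.const _)
  obtain ⟨q, h1, -, n, h2, h3⟩ := hG.dense_below
    (s := fun q => ∃ n, ¬ n ∈ s ∧ At q ((false, b), n) c)
    (Int.ex (Int.and (Int.not (Int.mem IntF.snd' (IntF.const _))) (int_At3 IntF.fst'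
      (IntF.pair (IntF.const _) IntF.snd') (IntF.const _)))) hp fun p' _ => by
        obtain ⟨q, h4, n, h5, h6, h7, h8⟩ := exists_nb p' b (S := fun n => n ∈ s) ⟨s, hs, fun _ h => h⟩
          hI hc
        refine ⟨q, h4, n, h5, h7, fun z hz => ?_⟩
        have h9 := q.2.2.2.1 _ z hz
        have h10 := h8 z hz
        rw [cp_0] at h9
        rw [← h9] at h10
        exact h10
  exact ⟨n, fun h => h2 (hS' n h), q, h1, h3⟩

/-- Infinitely many pairs of slots. -/
theorem exists_ntd {S : INat M → Prop} (hS : FinP M S) {c c' : IPow M (INat M)}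
    (hc : ¬ FinP M (fun x => x ∈ c)) (hc' : ¬ FinP M (fun x => x ∈ c')) {p : Cd M} (hp : p ∈ G) :
    ∃ t q, ¬ S t ∧ q ∈ G ∧ q ≤ p ∧ At q ((true, false), t) (eu c) ∧
      At q ((true, true), t) (eu c') := by
  obtain ⟨s, hs, hS'⟩ := hS
  obtain ⟨q, h1, h1', t, h2, h3, h4⟩ := hG.dense_below
    (s := fun q => ∃ t, ¬ t ∈ s ∧ At q ((true, false), t) (eu c) ∧ At q ((true, true), t) (eu c'))
    (Int.ex (Int.and (Int.not (Int.mem IntF.snd' (IntF.const _))) (Int.and (int_At3 IntF.fst'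
      (IntF.pair (IntF.const _) IntF.snd') (IntF.const _)) (int_At3 IntF.fst'
      (IntF.pair (IntF.const _) IntF.snd') (IntF.const _))))) hp fun p' _ => by
        obtain ⟨q, h4, t, h5, h6, h7, h8, h9, h10⟩ := exists_td p' (S := fun n => n ∈ s)
          ⟨s, hs, fun _ h => h⟩ (a := fun x => x ∈ c) (a' := fun x => x ∈ c')
          (Int.mem IntF.id (IntF.const _)) (Int.mem IntF.id (IntF.const _)) hc hc'
        exact ⟨q, h4, t, h5, ⟨h7, fun z hz => mem_eu.2 (h9 z hz)⟩, h8, fun z hz =>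
          mem_eu.2 (h10 z hz)⟩
  exact ⟨t, q, fun h => h2 (hS' t h), h1, h1', h3, h4⟩

theorem exists_be (b : Bool) : ∃ β : Cx M → NN (Ss M) hG, EqFam hG cact β ∧
    ∀ c w, Plain.Mem w (β c) ↔ ∃ n r, r ∈ G ∧ At r ((false, b), n) c ∧ w = nm (Ss M) hG n := by
  refine EqFam.setsP (S := Ss M) (act := fun (_ : Gp M) (n : INat M) => n) (act' := cact)
    hG (fun π c => cact_inv π c) (nm_fam (S := Ss M) hG) (Z := fun c n r => At r ((false, b), n) c)
    (int_At3 IntF.snd' (IntF.pair (IntF.const _) (IntF.snd IntF.fst'))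
      (IntF.fst IntF.fst')) ?_ ?_
  · intro π c n r h
    have := at_smul (g := π) h
    rwa [sa_f] at this
  · intro c
    exact ⟨⟨{c}, IFin.singleton c⟩, fun π hπ => hπ c (mem_singleton.2 rfl)⟩

end

/-- The basic sets. -/
noncomputable def be (b : Bool) : Cx M → NN (Ss M) hG := (exists_be hG b).choose

theorem be_fam (b : Bool) : EqFam hG cact (be hG b) := (exists_be hG b).choose_spec.1

theorem mem_be {b : Bool} {c : Cx M} {w : NN (Ss M) hG} : Plain.Mem w (be hG b c) ↔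
    ∃ n, In G ((false, b), n) c ∧ w = nm (Ss M) hG n := by
  refine ((exists_be hG b).choose_spec.2 c w).trans ⟨?_, ?_⟩
  · rintro ⟨n, r, h1, h2, h3⟩
    exact ⟨n, ⟨r, h1, h2⟩, h3⟩
  · rintro ⟨n, ⟨r, h1, h2⟩, h3⟩
    exact ⟨n, r, h1, h2, h3⟩

theorem exists_xg : ∃ x : INat M → NN (Ss M) hG, EqFam hG dg x ∧
    ∀ t w, Plain.Mem w (x t) ↔ ∃ c r, r ∈ G ∧ At r ((true, true), t) c ∧ w = be hG true c := by
  refine EqFam.setsP (S := Ss M) (act := cact) (act' := dg)
    hG (fun π c => dg_inv_dg π c) (be_fam hG true) (Z := fun t c r => At r ((true, true), t) c)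
    (int_At3 IntF.snd' (IntF.pair (IntF.const _) (IntF.fst IntF.fst'))
      (IntF.snd IntF.fst')) ?_ ?_
  · intro π c n r h
    have := at_smul (g := π) h
    rwa [sa_t] at this
  · intro t
    exact ⟨⟨{ck t}, IFin.singleton _⟩, fun π hπ => dg_of_ck (hπ _ (mem_singleton.2 rfl))⟩

/-- The points of the discrete space. -/
noncomputable def xg : INat M → NN (Ss M) hG := (exists_xg hG).choose

theorem xg_fam : EqFam hG dg (xg hG) := (exists_xg hG).choose_spec.1

theorem mem_xg {t : INat M} {w : NN (Ss M) hG} : Plain.Mem w (xg hG t) ↔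
    ∃ c, In G ((true, true), t) c ∧ w = be hG true c := by
  refine ((exists_xg hG).choose_spec.2 t w).trans ⟨?_, ?_⟩
  · rintro ⟨n, r, h1, h2, h3⟩
    exact ⟨n, ⟨r, h1, h2⟩, h3⟩
  · rintro ⟨n, ⟨r, h1, h2⟩, h3⟩
    exact ⟨n, r, h1, h2, h3⟩

theorem exists_ph : ∃ x : Cx M → NN (Ss M) hG, EqFam hG cact x ∧
    ∀ c w, Plain.Mem w (x c) ↔ ∃ t r, r ∈ G ∧ At r ((true, false), t) c ∧ w = xg hG t := by
  refine EqFam.setsP (S := Ss M) (act := dg) (act' := cact)
    hG (fun π c => cact_inv π c) (xg_fam hG) (Z := fun c t r => At r ((true, false), t) c)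
    (int_At3 IntF.snd' (IntF.pair (IntF.const _) (IntF.snd IntF.fst'))
      (IntF.fst IntF.fst')) ?_ ?_
  · intro π c n r h
    have := at_smul (g := π) h
    rwa [sa_t] at this
  · intro c
    exact ⟨⟨{c}, IFin.singleton c⟩, fun π hπ => hπ c (mem_singleton.2 rfl)⟩

/-- The sets of points of the discrete space. -/
noncomputable def ph : Cx M → NN (Ss M) hG := (exists_ph hG).choose

theorem ph_fam : EqFam hG cact (ph hG) := (exists_ph hG).choose_spec.1

theorem mem_ph {c : Cx M} {w : NN (Ss M) hG} : Plain.Mem w (ph hG c) ↔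
    ∃ t, In G ((true, false), t) c ∧ w = xg hG t := by
  refine ((exists_ph hG).choose_spec.2 c w).trans ⟨?_, ?_⟩
  · rintro ⟨n, r, h1, h2, h3⟩
    exact ⟨n, ⟨r, h1, h2⟩, h3⟩
  · rintro ⟨n, ⟨r, h1, h2⟩, h3⟩
    exact ⟨n, r, h1, h2, h3⟩

/-- The discrete space. -/
theorem exists_DN : ∃ z : NN (Ss M) hG, ∀ w, Plain.Mem w z ↔ ∃ t, w = xg hG t := by
  obtain ⟨z, hz⟩ := EqFam.set (S := Ss M) (xg_fam hG) (Z := fun _ => True) (Int.const _)
    ⟨⟨∅, IFin.empty⟩, fun _ _ _ _ => trivial⟩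
  exact ⟨z, fun w => (hz w).trans ⟨fun ⟨t, _, h⟩ => ⟨t, h⟩, fun ⟨t, h⟩ => ⟨t, trivial, h⟩⟩⟩

/-- The base. -/
theorem exists_Lk : ∃ z : NN (Ss M) hG, ∀ w, Plain.Mem w z ↔
    ∃ c, w = ZFA.op (be hG false c) (ph hG c) := by
  obtain ⟨z, hz⟩ := EqFam.set (S := Ss M) (EqFam.op (fun π c => cact_inv π c) (be_fam hG false)
    (ph_fam hG)) (Z := fun _ => True) (Int.const _) ⟨⟨∅, IFin.empty⟩, fun _ _ _ _ => trivial⟩
  exact ⟨z, fun w => (hz w).trans ⟨fun ⟨t, _, h⟩ => ⟨t, h⟩, fun ⟨t, h⟩ => ⟨t, trivial, h⟩⟩⟩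

variable (hC : CollL M)

include hC in
theorem nm_mem_be {b : Bool} {c : Cx M} {n : INat M} :
    Plain.Mem (nm (Ss M) hG n) (be hG b c) ↔ In G ((false, b), n) c := by
  rw [mem_be]
  constructor
  · rintro ⟨m, h1, h2⟩
    rwa [(nm_inj hG hC).1 h2]
  · exact fun h => ⟨n, h, rfl⟩

include hC in
/-- The basic sets determine the columns up to finite sets. -/
theorem be_eq {b : Bool} {c d : Cx M} (h : be hG b c = be hG b d) :
    FinP M (fun x => ((Sum.inl b, x) : Xx M) ∈ c.1 ∧ ¬ (Sum.inl b, x) ∈ d.1) := by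
  by_contra hcon
  obtain ⟨p, hp⟩ := hG.ne
  obtain ⟨n, -, hn⟩ := exists_nd hG b (S := fun _ => False) ⟨∅, IFin.empty, fun _ h => h.elim⟩
    (c := ci c (cc d)) (fun hf => hcon (hf.mono fun x hx => by
      rw [mem_ci, mem_cc]
      exact hx)) hp
  have h1 : In G ((false, b), n) c := hn.sub hG fun z _ hz => (mem_ci.1 hz).1
  have h2 : In G ((false, b), n) (cc d) := hn.sub hG fun z _ hz => (mem_ci.1 hz).2
  rw [in_cc hG] at h2
  rw [← nm_mem_be hG hC, h, nm_mem_be hG hC] at h1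
  exact h2 h1

include hC in
theorem be_mem_xg {c : Cx M} {t : INat M} :
    Plain.Mem (be hG true c) (xg hG t) ↔ In G ((true, true), t) c := by
  rw [mem_xg]
  constructor
  · rintro ⟨d, h1, h2⟩
    by_contra hcon
    have h3 := h1.both hG ((in_cc hG).2 hcon)
    refine (h3.inf hG) ((be_eq hG hC h2.symm).mono fun x hx => ?_)
    have hx' := mem_ci.1 hx
    rw [mem_cc] at hx'
    exact hx'
  · exact fun h => ⟨c, h, rfl⟩

include hC in
theorem xg_inj {t u : INat M} : xg hG t = xg hG u ↔ t = u := by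
  refine ⟨fun h => ?_, fun h => h ▸ rfl⟩
  by_contra hne
  obtain ⟨e, h1, h2⟩ := in_sep hG (i := ((true, true), t)) (j := ((true, true), u)) (by
    intro h
    exact hne (congrArg Prod.snd h)) rfl
  rw [← be_mem_xg hG hC, h, be_mem_xg hG hC] at h1
  exact h2 h1

include hC in
theorem xg_mem_ph {c : Cx M} {t : INat M} :
    Plain.Mem (xg hG t) (ph hG c) ↔ In G ((true, false), t) c := by
  rw [mem_ph]
  constructor
  · rintro ⟨m, h1, h2⟩
    rwa [(xg_inj hG hC).1 h2]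
  · exact fun h => ⟨t, h, rfl⟩

end Pool.Agent.Helper672.ZFA.V246S
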