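import Pool.Agent.V11246.Sf

/-!
# Some automorphisms
-/

set_option maxHeartbeats 1000000
set_option linter.all false
set_option synthInstance.maxSize 2000

namespace Pool.Agent.Helper672.ZFA.V246S

open FirstOrder FirstOrder.Language
open Pool.Agent.Helper672.ZFA.H635 (IPerm SymSys IsGen NN EqFam nm nmN CollL nm_fam nm_inj)
open Pool.Agent.H310

universe u

variable {M : Type u} [L.Structure M] [hM : IsModel M]

/-- Automorphisms that preserve the columns. -/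
structure Gs (σ0 σ1 : INat M → INat M) (S : INat M → Prop) (g : Gp M) : Prop where
  a0 : ∀ x, ap g (Sum.inl false, x) = (Sum.inl false, σ0 x)
  a1 : ∀ x, ap g (Sum.inl true, x) = (Sum.inl true, σ1 x)
  a2 : ∀ t x, S t → ap g (Sum.inr t, x) = (Sum.inr t, x)
  a3 : ∀ t x, ¬ S t → ap g (Sum.inr t, x) = (Sum.inr t, σ0 x)
  i0 : ∀ x, σ0 (σ0 x) = x
  i1 : ∀ x, σ1 (σ1 x) = x

open Classical in
theorem exists_g {σ0 σ1 : INat M → INat M} (h0 : IntF M σ0) (h1 : IntF M σ1)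
    (i0 : ∀ x, σ0 (σ0 x) = x) (i1 : ∀ x, σ1 (σ1 x) = x) {S : INat M → Prop} (hS : FinP M S)
    (hSI : Int M S) : ∃ g : Gp M, Gs σ0 σ1 S g := by
  have e1 : IntF M (fun z : Xx M => σ1 z.2) := h1.comp IntF.snd'
  have e0 : IntF M (fun z : Xx M => σ0 z.2) := h0.comp IntF.snd'
  have e2 : IntF M (fun z : Xx M => z.2) := IntF.snd'
  have q1 : Int M (fun z : Xx M => z.1 = Sum.inl true) := Int.eq IntF.fst' (IntF.const _)
  have q2 : Int M (fun z : Xx M => ∃ t, z.1 = Sum.inr t ∧ S t) :=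
    Int.ex (Int.and (Int.eq (IntF.fst IntF.fst') (IntF.inr IntF.snd'))
        (hSI.comp IntF.snd'))
  obtain ⟨F, hFd⟩ : ∃ F : Xx M → Xx M, F = fun z => (z.1, if z.1 = Sum.inl true then σ1 z.2 else
    if ∃ t, z.1 = Sum.inr t ∧ S t then z.2 else σ0 z.2) := ⟨_, rfl⟩
  have hF : IntF M F := by
    have h5 : IntF M (fun z : Xx M => if ∃ t, z.1 = Sum.inr t ∧ S t then z.2 else σ0 z.2) :=
      IntF.ite q2 e2 e0
    have h6 : IntF M (fun z : Xx M => if z.1 = Sum.inl true then σ1 z.2 else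
      if ∃ t, z.1 = Sum.inr t ∧ S t then z.2 else σ0 z.2) := IntF.ite q1 e1 h5
    rw [hFd]
    exact IntF.pair IntF.fst' h6
  have f0 : ∀ x, F (Sum.inl false, x) = (Sum.inl false, σ0 x) := fun x => by simp [hFd]
  have f1 : ∀ x, F (Sum.inl true, x) = (Sum.inl true, σ1 x) := fun x => by simp [hFd]
  have f2 : ∀ t x, S t → F (Sum.inr t, x) = (Sum.inr t, x) := fun t x h => by simp [hFd, h]
  have f3 : ∀ t x, ¬ S t → F (Sum.inr t, x) = (Sum.inr t, σ0 x) := fun t x h => by simp [hFd, h]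
  clear hFd
  have hinv : ∀ z, F (F z) = z := by
    rintro ⟨(_ | _) | t, x⟩
    · rw [f0, f0, i0]
    · rw [f1, f1, i1]
    · by_cases ht : S t
      · rw [f2 t x ht, f2 t x ht]
      · rw [f3 t x ht, f3 t _ ht, i0]
  refine ⟨⟨IPerm.ofInv F hF hinv, 1, ?_, ?_, ?_⟩, f0, f1, f2, f3, i0, i1⟩
  · intro b x
    change (F (Sum.inl b, x)).1 = _
    rcases b with _ | _
    · rw [f0]
    · rw [f1]
  · intro t x
    rw [IPerm.one_apply]
    change (F (Sum.inr t, x)).1 = _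
    by_cases ht : S t
    · rw [f2 t x ht]
    · rw [f3 t x ht]
  · refine hS.mono ?_
    rintro t ⟨x, hx⟩
    by_contra hcon
    apply hx
    change (F (Sum.inr t, x)).2 = (F (Sum.inl false, x)).2
    rw [f3 t x hcon, f0]

section

variable {σ0 σ1 : INat M → INat M} {S : INat M → Prop} {g : Gp M} (h : Gs σ0 σ1 S g)

include h

theorem Gs.fst (z : Xx M) : (ap g z).1 = z.1 := by
  obtain ⟨(_ | _) | t, x⟩ := z
  · rw [h.a0]
  · rw [h.a1]
  · by_cases ht : S t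
    · rw [h.a2 t x ht]
    · rw [h.a3 t x ht]

theorem Gs.dg (t : INat M) : dg g t = t := dg_eq (x := 0) (h.fst _)

theorem Gs.sa (i : Sl M) : sa g i = i := by
  obtain ⟨⟨_ | _, b⟩, n⟩ := i
  · rw [sa_f]
  · rw [sa_t, h.dg]

theorem Gs.invol (z : Xx M) : ap g (ap g z) = z := by
  obtain ⟨(_ | _) | t, x⟩ := z
  · rw [h.a0, h.a0, h.i0]
  · rw [h.a1, h.a1, h.i1]
  · by_cases ht : S t
    · rw [h.a2 t x ht, h.a2 t x ht]
    · rw [h.a3 t x ht, h.a3 t _ ht, h.i0]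

theorem Gs.inv (z : Xx M) : ap g⁻¹ z = ap g z := by
  conv_lhs => rw [← h.invol z]
  rw [ap_inv_ap]

theorem Gs.sai (i : Sl M) : V246S.sa g⁻¹ i = i := by
  conv_lhs => rw [← h.sa i]
  rw [sa_inv_sa]

theorem Gs.mem {c : Cx M} {z : Xx M} : z ∈ (cact g c).1 ↔ ap g z ∈ c.1 := by
  rw [mem_cact, h.inv]

theorem Gs.smul {p : Cd M} {i : Sl M} {z : Xx M} : (i, z) ∈ (g • p).1 ↔ (i, ap g z) ∈ p.1 := by
  rw [mem_smul, h.inv, h.sai]

theorem Gs.dm {p : Cd M} {i : Sl M} : Dm (g • p) i ↔ Dm p i := by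
  rw [dm_smul, h.sai]

theorem Gs.fix {c : Cx M} (hS : ∀ t, Ex c.1 t → S t)
    (h0 : ∀ x, ((Sum.inl false, σ0 x) : Xx M) ∈ c.1 ↔ (Sum.inl false, x) ∈ c.1)
    (h1 : ∀ x, ((Sum.inl true, σ1 x) : Xx M) ∈ c.1 ↔ (Sum.inl true, x) ∈ c.1) :
    cact g c = c := by
  refine cact_eq ?_
  rintro ⟨(_ | _) | t, x⟩
  · rw [h.a0, h0]
  · rw [h.a1, h1]
  · by_cases ht : S t
    · rw [h.a2 t x ht]
    · rw [h.a3 t x ht]
      have h2 : ¬ Ex c.1 t := fun h' => ht (hS t h')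
      unfold Ex at h2
      have h3 : ∀ y, ((Sum.inr t, y) : Xx M) ∈ c.1 ↔ ((Sum.inl false, y) : Xx M) ∈ c.1 := fun y => by
        by_contra hy
        exact h2 ⟨y, hy⟩
      rw [h3, h3, h0]

end

/-- Transpositions. -/
structure Tr (t u : INat M) (g : Gp M) : Prop where
  a0 : ∀ b x, ap g (Sum.inl b, x) = (Sum.inl b, x)
  a1 : ∀ x, ap g (Sum.inr t, x) = (Sum.inr u, x)
  a2 : ∀ x, ap g (Sum.inr u, x) = (Sum.inr t, x)
  a3 : ∀ s x, s ≠ t → s ≠ u → ap g (Sum.inr s, x) = (Sum.inr s, x)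

open Classical in
theorem exists_tr (t u : INat M) : ∃ g : Gp M, Tr t u g := by
  let e : INat M → INat M := fun s => if s = t then u else if s = u then t else s
  have he : IntF M e := IntF.ite (Int.eq IntF.id (IntF.const _)) (IntF.const _)
    (IntF.ite (Int.eq IntF.id (IntF.const _)) (IntF.const _) IntF.id)
  have et : e t = u := by simp [e]
  have eu : e u = t := by
    by_cases h : u = t
    · simp [e, h]
    · simp [e, h]
  have es : ∀ s, s ≠ t → s ≠ u → e s = s := fun s h1 h2 => by simp [e, h1, h2]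
  have ei : ∀ s, e (e s) = s := by
    intro s
    by_cases h1 : s = t
    · rw [h1, et, eu]
    · by_cases h2 : s = u
      · rw [h2, eu, et]
      · rw [es s h1 h2, es s h1 h2]
  have hτ : ∀ s, (IPerm.ofInv e he ei).1.1 s = e s := fun s => rfl
  obtain ⟨F, hFd⟩ : ∃ F : Xx M → Xx M, F = fun z => if z.1 = Sum.inr t then (Sum.inr u, z.2) else
    if z.1 = Sum.inr u then (Sum.inr t, z.2) else z := ⟨_, rfl⟩
  have hF : IntF M F := by
    rw [hFd]
    refine IntF.ite (Int.eq IntF.fst' (IntF.const _)) (IntF.pair (IntF.const _) IntF.snd')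
      (IntF.ite (Int.eq IntF.fst' (IntF.const _)) (IntF.pair (IntF.const _) IntF.snd') IntF.id)
  have f0 : ∀ b x, F (Sum.inl b, x) = (Sum.inl b, x) := fun b x => by simp [hFd]
  have f1 : ∀ s x, F (Sum.inr s, x) = (Sum.inr (e s), x) := by
    intro s x
    by_cases h1 : s = t
    · rw [h1, et]
      simp [hFd]
    · by_cases h2 : s = u
      · rw [h2, eu]
        by_cases h3 : u = t
        · simp [hFd, h3]
        · simp [hFd, h3]
      · rw [es s h1 h2]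
        simp [hFd, h1, h2]
  clear hFd
  have hinv : ∀ z, F (F z) = z := by
    rintro ⟨b | s, x⟩
    · rw [f0, f0]
    · rw [f1, f1, ei]
  refine ⟨⟨IPerm.ofInv F hF hinv, IPerm.ofInv e he ei, ?_, ?_, ?_⟩, f0, ?_, ?_, ?_⟩
  · intro b x
    change (F (Sum.inl b, x)).1 = _
    rw [f0]
  · intro s x
    change (F (Sum.inr s, x)).1 = _
    rw [f1]
    rfl
  · refine ⟨∅, IFin.empty, ?_⟩
    rintro s ⟨x, hx⟩
    refine absurd ?_ hx
    change (F (Sum.inr s, x)).2 = (F (Sum.inl false, x)).2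
    rw [f0, f1]
  · intro x
    exact (f1 t x).trans (by rw [et])
  · intro x
    exact (f1 u x).trans (by rw [eu])
  · intro s x h1 h2
    exact (f1 s x).trans (by rw [es s h1 h2])

section

variable {t u : INat M} {g : Gp M} (h : Tr t u g)

include h

theorem Tr.dgt : dg g t = u := dg_eq (x := 0) (by rw [h.a1])
theorem Tr.dgu : dg g u = t := dg_eq (x := 0) (by rw [h.a2])
theorem Tr.dgs {s : INat M} (h1 : s ≠ t) (h2 : s ≠ u) : dg g s = s :=
  dg_eq (x := 0) (by rw [h.a3 s 0 h1 h2])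

theorem Tr.invol (z : Xx M) : ap g (ap g z) = z := by
  obtain ⟨b | s, x⟩ := z
  · rw [h.a0, h.a0]
  · by_cases h1 : s = t
    · rw [h1, h.a1, h.a2]
    · by_cases h2 : s = u
      · rw [h2, h.a2, h.a1]
      · rw [h.a3 s x h1 h2, h.a3 s x h1 h2]

theorem Tr.inv (z : Xx M) : ap g⁻¹ z = ap g z := by
  conv_lhs => rw [← h.invol z]
  rw [ap_inv_ap]

theorem Tr.fix {c : Cx M} (h1 : ¬ Ex c.1 t) (h2 : ¬ Ex c.1 u) : cact g c = c := by
  have k1 : ∀ y, ((Sum.inr t, y) : Xx M) ∈ c.1 ↔ ((Sum.inl false, y) : Xx M) ∈ c.1 := fun y => by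
    by_contra hy
    exact h1 ⟨y, hy⟩
  have k2 : ∀ y, ((Sum.inr u, y) : Xx M) ∈ c.1 ↔ ((Sum.inl false, y) : Xx M) ∈ c.1 := fun y => by
    by_contra hy
    exact h2 ⟨y, hy⟩
  refine cact_eq ?_
  rintro ⟨b | s, x⟩
  · rw [h.a0]
  · by_cases h3 : s = t
    · rw [h3, h.a1, k1, k2]
    · by_cases h4 : s = u
      · rw [h4, h.a2, k1, k2]
      · rw [h.a3 s x h3 h4]

end

end Pool.Agent.Helper672.ZFA.V246S
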