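import Pool.Agent.V11246.Sg

/-!
# Compactness
-/

set_option maxHeartbeats 1000000
set_option linter.all false
set_option synthInstance.maxSize 2000

namespace Pool.Agent.Helper672.ZFA.V246S

open FirstOrder FirstOrder.Language
open Pool.Agent.Helper672.ZFA.H635 (IPerm SymSys IsGen NN EqFam nm nmN CollL nm_fam nm_inj exists_T')
open Pool.Agent.Helper672.ZFA.V246 (Ctb)
open Pool.Agent.H310

universe u

variable {M : Type u} [L.Structure M] [hM : IsModel M]

theorem gen_dich {G : Set (Cd M)} (hG : IsGen M G) {s : Cd M → Prop} (hs : Int M s) :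
    (∃ p, p ∈ G ∧ s p) ∨ ∃ p, p ∈ G ∧ ∀ q, q ≤ p → ¬ s q := by
  have hs' : Int M (fun q : Cd M × Cd M => s q.2) := hs.comp IntF.snd'
  obtain ⟨p, hp, h⟩ := hG.dense (fun p => s p ∨ ∀ q, q ≤ p → ¬ s q)
    (Int.or hs (Int.all (Int.imp (Int.le IntF.snd' IntF.fst') (Int.not hs')))) fun p => by
      by_cases h : ∃ q, q ≤ p ∧ s q
      · obtain ⟨q, h1, h2⟩ := h
        exact ⟨q, h1, Or.inl h2⟩
      · exact ⟨p, le_rfl, Or.inr fun q h1 h2 => h ⟨q, h1, h2⟩⟩
  exact h.imp (fun h => ⟨p, hp, h⟩) fun h => ⟨p, hp, h⟩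

/-- A set is almost covered by a column. -/
def Sm (w : IPow M (INat M)) (c : Cx M) : Prop :=
  FinP M (fun x => x ∈ w ∧ ¬ ((Sum.inl false, x) : Xx M) ∈ c.1)

theorem int_Sm : Int M (fun q : IPow M (INat M) × Cx M => Sm q.1 q.2) := by
  unfold Sm
  refine Int.finP (R := fun (q : IPow M (INat M) × Cx M) x => x ∈ q.1 ∧
    ¬ ((Sum.inl false, x) : Xx M) ∈ q.2.1) ?_
  exact Int.and (Int.mem IntF.snd' (IntF.fst IntF.fst')) (Int.not (Int.mem
    (IntF.pair (IntF.const _) IntF.snd') (IntF.val (IntF.snd IntF.fst'))))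

/-- Homogeneous sets. -/
def Hm (b : Bool) (w : IPow M (INat M)) (c : Cx M) : Prop :=
  (∀ x, x ∈ w → ((Sum.inl b, x) : Xx M) ∈ c.1) ∨ ∀ x, x ∈ w → ¬ ((Sum.inl b, x) : Xx M) ∈ c.1

theorem int_Hm (b : Bool) : Int M (fun q : IPow M (INat M) × Cx M => Hm b q.1 q.2) := by
  unfold Hm
  refine Int.or (Int.all (Int.imp (Int.mem IntF.snd' (IntF.fst IntF.fst')) ?_))
    (Int.all (Int.imp (Int.mem IntF.snd' (IntF.fst IntF.fst')) (Int.not ?_)))
  · exact Int.mem (IntF.pair (IntF.const _) IntF.snd') (IntF.val (IntF.snd IntF.fst'))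
  · exact Int.mem (IntF.pair (IntF.const _) IntF.snd') (IntF.val (IntF.snd IntF.fst'))

theorem inf_pos' {p : Cd M} {i : Sl M} (h : Dm p i) :
    ¬ FinP M (fun x : INat M => (i, ((cp i, x) : Xx M)) ∈ p.1) := by
  intro hf
  refine inf_pos h ((fin_col hf (cp i)).mono fun z hz => ?_)
  have h2 := p.2.2.2.1 i z hz
  refine ⟨h2, ?_⟩
  rw [← h2]
  exact hz

theorem fin_dm (p : Cd M) (k : Bool × Bool) : FinP M (fun n => Dm p (k, n)) :=
  ((p.2.1).image (f := fun i : Sl M => i.2) IntF.snd').mono fun n hn => ⟨(k, n), hn, rfl⟩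

section

variable {T : Cx M → Cd M → Prop} (hTI : Int M (fun q : Cx M × Cd M => T q.1 q.2))
  (hTm : ∀ c p q, T c p → q ≤ p → T c q) {p0 : Cd M}
  (a1 : ∀ q, q ≤ p0 → ∀ c d, T c q → T d q → T (cu c d) q)

include hTI hTm a1

theorem step_A (a2 : ∀ q, q ≤ p0 → ∀ c, T c q → ¬ FinP M (fun x => ¬ ((Sum.inl false, x) : Xx M) ∈ c.1))
    (l : IPow M (Cx M)) (hl : IFin l) : ∃ q, q ≤ p0 ∧ ∃ w : IPow M (INat M),
      (∀ c, c ∈ l → Hm false w c) ∧ ∀ r, r ≤ q → ∀ c, T c r → ¬ Sm w c := by
  have h1 := int_Sm (M := M)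
  have h2 := int_Hm (M := M) false
  refine IFin.ind (p := fun l => ∃ q, q ≤ p0 ∧ ∃ w : IPow M (INat M),
      (∀ c, c ∈ l → Hm false w c) ∧ ∀ r, r ≤ q → ∀ c, T c r → ¬ Sm w c) (by (repeat' (first | with_reducible exact IntF.id | with_reducible exact IntF.fst' | with_reducible exact IntF.snd' | with_reducible exact IntF.const _ | with_reducible exact Int.const _ | assumption | with_reducible apply Int.and | with_reducible apply Int.or | with_reducible apply Int.not | with_reducible apply Int.imp | with_reducible apply Int.iff | with_reducible apply Int.ne | with_reducible apply Int.eq | with_reducible apply Int.mem | with_reducible apply Int.subset | with_reducible apply Int.ltN | with_reducible apply Int.leN | with_reducible_and_instances apply Int.le | with_reducible_and_instances apply Int.lt | with_reducible apply Int.all | with_reducible apply Int.ex | with_reducible apply IntF.fst | with_reducible apply IntF.snd | with_reducible apply IntF.app | with_reducible apply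 IntF.inl | with_reducible apply IntF.inr | with_reducible_and_instances apply IntF.mul | with_reducible_and_instances apply IntF.inv | with_reducible_and_instances apply IntF.add | with_reducible_and_instances apply IntF.sub | with_reducible_and_instances apply IntF.neg | with_reducible_and_instances apply IntF.smul | with_reducible apply Int.fin | with_reducible apply IntF.sep | with_reducible apply IntF.lam | with_reducible apply IntF.insert | with_reducible apply IntF.singleton | with_reducible apply IntF.union | with_reducible apply IntF.iimage | with_reducible apply IntF.ite | with_reducible apply IntF.the | with_reducible apply IntF.irec | with_reducible apply IntF.succ | with_reducible apply IntF.val | with_reducible apply IntF.mk | (with_reducible refine Int.comp ?_ ?_; assumption) | (with_reducible refine Int.comp₂ ?_ ?_ ?_; assumption) | (with_reducible refine Int.comp₃ ?_ ?_ ?_ ?_; assumption) | (with_reducible refine Int.comp₄ ?_ ?_ ?_ ?_ ?_; assumption) |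 (with_reducible refine IntF.comp ?_ ?_; assumption) | (with_reducible refine IntF.comp₂ ?_ ?_ ?_; assumption) | (with_reducible refine IntF.comp₃ ?_ ?_ ?_ ?_; assumption) | with_reducible apply IntF.pair))) ?_ ?_ l hl
  · refine ⟨p0, le_rfl, sep M fun _ => True, fun c hc => (mem_empty.1 hc).elim,
      fun r hr c hc hs => ?_⟩
    refine a2 r hr c hc (hs.mono fun x hx => ⟨(mem_sep (Int.const _)).2 trivial, hx⟩)
  · rintro s d hs hd ⟨q, hq, w, h3, h4⟩
    have i1 : Int M (fun x : INat M => x ∈ w ∧ ((Sum.inl false, x) : Xx M) ∈ d.1) :=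
      Int.and (Int.mem IntF.id (IntF.const _)) (Int.mem (IntF.pair (IntF.const _) IntF.id)
        (IntF.const _))
    have i2 : Int M (fun x : INat M => x ∈ w ∧ ¬ ((Sum.inl false, x) : Xx M) ∈ d.1) :=
      Int.and (Int.mem IntF.id (IntF.const _)) (Int.not (Int.mem (IntF.pair (IntF.const _) IntF.id)
        (IntF.const _)))
    have sub : ∀ w' : IPow M (INat M), (∀ x, x ∈ w' → x ∈ w) → Hm false w' d →
        ∀ c, c ∈ Insert.insert d s → Hm false w' c := by
      intro w' h5 h6 c hc
      rcases mem_insert.1 hc with rfl | hc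
      · exact h6
      · exact (h3 c hc).imp (fun h x hx => h x (h5 x hx)) fun h x hx => h x (h5 x hx)
    by_cases hA : ∀ r, r ≤ q → ∀ c, T c r →
        ¬ Sm (sep M fun x : INat M => x ∈ w ∧ ((Sum.inl false, x) : Xx M) ∈ d.1) c
    · exact ⟨q, hq, _, sub _ (fun x hx => ((mem_sep i1).1 hx).1)
        (Or.inl fun x hx => ((mem_sep i1).1 hx).2), hA⟩
    · push Not at hA
      obtain ⟨r, hr, c, h5, h6⟩ := hA
      refine ⟨r, hr.trans hq, sep M fun x : INat M => x ∈ w ∧ ¬ ((Sum.inl false, x) : Xx M) ∈ d.1,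
        sub _ (fun x hx => ((mem_sep i2).1 hx).1) (Or.inr fun x hx => ((mem_sep i2).1 hx).2), ?_⟩
      intro r' hr' c' h7 h8
      refine h4 r' (hr'.trans hr) (cu c c') (a1 r' (hr'.trans (hr.trans hq)) c c'
        (hTm _ _ _ h5 hr') h7) ((h6.or h8).mono fun x hx => ?_)
      have h9 := hx.2
      rw [mem_cu] at h9
      push Not at h9
      by_cases hd : ((Sum.inl false, x) : Xx M) ∈ d.1
      · exact Or.inl ⟨(mem_sep i1).2 ⟨hx.1, hd⟩, h9.1⟩
      · exact Or.inr ⟨(mem_sep i2).2 ⟨hx.1, hd⟩, h9.2⟩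

theorem step_C (a4 : ∀ q, q ≤ p0 → ∀ n, ∃ r, r ≤ q ∧ ∃ c, T c r ∧ At r ((false, false), n) c)
    (q0 : Cd M) (hq0 : q0 ≤ p0) : ∃ r, r ≤ q0 ∧ ∃ c, T c r ∧
      ∀ n, Dm q0 ((false, false), n) → At r ((false, false), n) c := by
  obtain ⟨s, hs, hs'⟩ := fin_dm q0 (false, false)
  have h1 := int_AtC (M := M)
  have key : ∀ s : IPow M (INat M), IFin s → ∃ r, r ≤ q0 ∧ ∃ c, T c r ∧
      ∀ n, n ∈ s → At r ((false, false), n) c := by
    have hI : Int M (fun q : (Cd M × Cx M) × INat M => At q.1.1 ((false, false), q.2) q.1.2) :=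
      int_At3 (IntF.fst IntF.fst') (IntF.pair (IntF.const _) IntF.snd') (IntF.snd IntF.fst')
    refine fun s hs => IFin.ind (p := fun s : IPow M (INat M) => ∃ r, r ≤ q0 ∧ ∃ c, T c r ∧
      ∀ n, n ∈ s → At r ((false, false), n) c) ?_ ?_ ?_ s hs
    · refine Int.ex (Int.and (Int.le IntF.snd' (IntF.const _)) (Int.ex (Int.and
        (Int.comp₂ (p := fun a b => T a b) hTI IntF.snd' (IntF.snd IntF.fst'))
        (Int.all (Int.imp (Int.mem IntF.snd' (IntF.fst (IntF.fst IntF.fst'))) (int_At3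
          (IntF.snd (IntF.fst IntF.fst')) (IntF.pair (IntF.const _) IntF.snd')
            (IntF.snd IntF.fst')))))))
    · obtain ⟨r, h2, c, h3, -⟩ := a4 q0 hq0 0
      exact ⟨r, h2, c, h3, fun n hn => (mem_empty.1 hn).elim⟩
    · rintro s n hs hn ⟨r, h2, c, h3, h4⟩
      obtain ⟨r', h5, c', h6, h7⟩ := a4 r (h2.trans hq0) n
      refine ⟨r', h5.trans h2, cu c c', a1 r' (h5.trans (h2.trans hq0)) _ _ (hTm _ _ _ h3 h5) h6,
        fun m hm => ?_⟩
      rcases mem_insert.1 hm with rfl | hm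
      · exact h7.sub fun z _ hz => mem_cu.2 (Or.inr hz)
      · exact ((h4 m hm).mono h5).sub fun z _ hz => mem_cu.2 (Or.inl hz)
  obtain ⟨r, h2, c, h3, h4⟩ := key s hs
  exact ⟨r, h2, c, h3, fun n hn => h4 n (hs' n hn)⟩

end

end Pool.Agent.Helper672.ZFA.V246S
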