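import Pool.Agent.V11246.Sh

/-!
# Compactness, continued
-/

set_option maxHeartbeats 1000000
set_option linter.all false
set_option synthInstance.maxSize 2000

namespace Pool.Agent.Helper672.ZFA.V246S

open FirstOrder FirstOrder.Language
open Pool.Agent.Helper672.ZFA.H635 (IPerm SymSys IsGen NN EqFam nm nmN CollL nm_fam nm_inj exists_T')
open Pool.Agent.Helper672.ZFA.V246 (Ctb)
open Pool.Agent.H310

universe u

variable {M : Type u} [L.Structure M] [hM : IsModel M]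

/-- The combinatorial core of compactness. -/
theorem core_C {T : Cx M → Cd M → Prop} (hTm : ∀ c p q, T c p → q ≤ p → T c q) {p0 qA : Cd M}
    (hqA : qA ≤ p0) (a1 : ∀ q, q ≤ p0 → ∀ c d, T c q → T d q → T (cu c d) q)
    (cov : ∀ q0, q0 ≤ p0 → ∃ r, r ≤ q0 ∧ ∃ c, T c r ∧
      ∀ n, Dm q0 ((false, false), n) → At r ((false, false), n) c) {l : Lx M}
    (hTe : ∀ π, (Ss M).U l π → ∀ c p, T c p → T (cact π c) (π • p)) {w : IPow M (INat M)}
    (hw1 : ∀ c, c ∈ l.1 → Hm false w c) (hw2 : ∀ r, r ≤ qA → ∀ c, T c r → ¬ Sm w c) : False := by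
  have hwinf : ¬ FinP M (fun x => x ∈ w) := by
    obtain ⟨r, hr, c, hc, -⟩ := cov qA hqA
    exact fun hf => hw2 r hr c hc (hf.mono fun x hx => hx.1)
  obtain ⟨q0, hq0, n0, -, hn0, hd0, hpos0⟩ := exists_nb qA false (S := fun _ => False)
    ⟨∅, IFin.empty, fun _ h => h.elim⟩ (a := fun x => x ∈ w) (Int.mem IntF.id (IntF.const _)) hwinf
  obtain ⟨r1, hr1, c1, hc1, hat1⟩ := cov q0 (hq0.trans hqA)
  obtain ⟨r2, hr2, c2, hc2, hat2⟩ := cov r1 (hr1.trans (hq0.trans hqA))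
  have h10 : ∀ {z : Xx M}, (((false, false), n0), z) ∈ r2.1 → (((false, false), n0), z) ∈ r1.1 :=
    fun hz => hr2.2 _ _ (hr1.1 _ hd0) hz
  have hd1 : Dm r1 ((false, false), n0) := hr1.1 _ hd0
  have hd2 : Dm r2 ((false, false), n0) := hr2.1 _ hd1
  have hposw : ∀ {x : INat M}, (((false, false), n0), ((Sum.inl false, x) : Xx M)) ∈ r2.1 → x ∈ w :=
    fun hx => hpos0 _ (hr1.2 _ _ hd0 (h10 hx))
  have hposc : ∀ {x : INat M}, (((false, false), n0), ((Sum.inl false, x) : Xx M)) ∈ r2.1 →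
      ((Sum.inl false, x) : Xx M) ∈ c2.1 := fun hx => (hat2 n0 hd1).2 _ hx
  -- the sets that are exchanged
  have haI : Int M (fun x : INat M => x ∈ w ∧ ¬ ((Sum.inl false, x) : Xx M) ∈ c2.1) :=
    Int.and (Int.mem IntF.id (IntF.const _)) (Int.not (Int.mem (IntF.pair (IntF.const _) IntF.id)
      (IntF.const _)))
  have hainf : ¬ FinP M (fun x : INat M => x ∈ w ∧ ¬ ((Sum.inl false, x) : Xx M) ∈ c2.1) :=
    hw2 r2 (hr2.trans (hr1.trans hq0)) c2 hc2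
  have hpI : Int M (fun x : INat M => (((false, false), n0), ((Sum.inl false, x) : Xx M)) ∈ r2.1) :=
    Int.mem (IntF.pair (IntF.const _) (IntF.pair (IntF.const _) IntF.id)) (IntF.const _)
  obtain ⟨f, hfI, hf1, hf2, hf3⟩ := inf_split hpI (Ctb.nat.mono fun _ _ => trivial) (inf_pos' hd2)
  obtain ⟨sw, hswI, hswi, hsw1, hsw2, hsw3⟩ := exists_sw haI hfI hainf hf2
    (fun x hx hfx => hx.2 (hposc (hf1 x hfx)))
  -- the automorphism
  have hS : FinP M (fun t => (∃ c, c ∈ l.1 ∧ Ex c.1 t) ∨ Dm r2 ((true, false), t)) :=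
    (exists_Fl l.1 l.2).or (fin_dm r2 (true, false))
  have hSI : Int M (fun t => (∃ c, c ∈ l.1 ∧ Ex c.1 t) ∨ Dm r2 ((true, false), t)) := by
    refine Int.or (Int.ex (Int.and (Int.mem IntF.snd' (IntF.const _)) ?_)) ?_
    · exact Int.comp₂ (p := fun a b => Ex a b) int_Ex (IntF.val IntF.snd') IntF.fst'
    · exact Int.comp₂ (p := fun a b => Dm a b) int_Dm (IntF.const _)
        (IntF.pair (IntF.const _) IntF.id)
  obtain ⟨g, hg⟩ := exists_g hswI (IntF.id (M := M) (α := INat M)) hswi (fun x => rfl) hS hSI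
  have hwsw : ∀ x, x ∈ w → sw x ∈ w := by
    intro x hx
    by_cases h1 : x ∈ w ∧ ¬ ((Sum.inl false, x) : Xx M) ∈ c2.1
    · exact hposw (hf1 _ (hsw1 x h1))
    · by_cases h2 : f x
      · exact (hsw2 x h2).1
      · rwa [hsw3 x h1 h2]
  have hwsw' : ∀ x, ¬ x ∈ w → sw x = x := by
    intro x hx
    exact hsw3 x (fun h => hx h.1) fun h => hx (hposw (hf1 x h))
  have hU : (Ss M).U l g := by
    intro c hc
    refine hg.fix (fun t ht => Or.inl ⟨c, hc, ht⟩) (fun x => ?_) fun x => Iff.rfl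
    by_cases hx : x ∈ w
    · rcases hw1 c hc with h | h
      · exact ⟨fun _ => h x hx, fun _ => h _ (hwsw x hx)⟩
      · exact ⟨fun h' => absurd h' (h _ (hwsw x hx)), fun h' => absurd h' (h x hx)⟩
    · rw [hwsw' x hx]
  -- the common extension
  have hshI : Int M (fun z : Xx M => (((false, false), n0), z) ∈ r2.1 ∧ ¬ f z.2) :=
    Int.and (int_pos r2 _) (Int.not (hfI.comp IntF.snd'))
  obtain ⟨q, hq1, hq2, hq3, hq4⟩ := exists_shr (g • r2) (i := ((false, false), n0)) hshI (by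
    intro hfin
    refine inf_col hf3 (Sum.inl false) (hfin.mono ?_)
    rintro ⟨c, x⟩ ⟨hc, hx1, hx2⟩
    change c = Sum.inl false at hc
    subst hc
    refine ⟨hg.smul.2 ?_, hx1, hx2⟩
    rw [hg.a0, hsw3 x (fun h => h.2 (hposc hx1)) hx2]
    exact hx1)
  have hqr1 : q ≤ r1 := by
    refine ⟨fun j hj => (hq2 j).2 (hg.dm.2 (hr2.1 j hj)), fun j z hj hz => ?_⟩
    refine hr2.2 j z hj ?_
    by_cases hji : j = ((false, false), n0)
    · rw [hji] at hz ⊢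
      exact ((hq3 z).1 hz).2.1
    · have hz' := hg.smul.1 ((hq4 j z hji).1 hz)
      have hz1 : z.1 = cp j := by
        rw [← hg.fst z]
        exact r2.2.2.2.1 j _ hz'
      suffices h : ap g z = z by rwa [h] at hz'
      obtain ⟨k, x⟩ := z
      obtain ⟨⟨_ | _, _ | _⟩, n⟩ := j
      · change k = Sum.inl false at hz1
        subst hz1
        rw [hg.a0] at hz' ⊢
        have h3 : ((Sum.inl false, sw x) : Xx M) ∈ c2.1 := (hat2 n hj).2 _ hz'
        have h4 : ¬ f (sw x) := fun h => hji (r2.2.2.1 _ _ _ hz' (hf1 _ h))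
        have h5 := hsw3 (sw x) (fun h => h.2 h3) h4
        rw [hswi] at h5
        rw [← h5]
      · change k = Sum.inl true at hz1
        subst hz1
        exact hg.a1 x
      · change k = Sum.inr n at hz1
        subst hz1
        exact hg.a2 n x (Or.inr (hr2.1 _ hj))
      · change k = Sum.inl true at hz1
        subst hz1
        exact hg.a1 x
  have hqA' : q ≤ qA := hqr1.trans (hr1.trans hq0)
  refine hw2 q hqA' (cu c1 (cact g c2)) (a1 q (hqA'.trans hqA) _ _ (hTm _ _ _ hc1 hqr1)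
    (hTm _ _ _ (hTe g hU _ _ hc2) hq1)) ⟨∅, IFin.empty, ?_⟩
  rintro x ⟨hx1, hx2⟩
  exfalso
  rw [mem_cu, hg.mem, hg.a0] at hx2
  push Not at hx2
  by_cases h1 : ((Sum.inl false, x) : Xx M) ∈ c2.1
  · by_cases h2 : f x
    · exact hx2.1 ((hat1 n0 hd0).2 _ (h10 (hf1 x h2)))
    · refine hx2.2 ?_
      rwa [hsw3 x (fun h => h.2 h1) h2]
  · exact hx2.2 (hposc (hf1 _ (hsw1 x ⟨hx1, h1⟩)))

/-- Compactness: there is no ideal of basic sets. -/
theorem thm_C {G : Set (Cd M)} (hG : IsGen M G) (J : NN (Ss M) hG)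
    (h1 : ∀ c d, Plain.Mem (be hG false c) J → Plain.Mem (be hG false d) J →
      Plain.Mem (be hG false (cu c d)) J)
    (h2 : ∀ c, FinP M (fun x => ¬ ((Sum.inl false, x) : Xx M) ∈ c.1) →
      ¬ Plain.Mem (be hG false c) J)
    (h4 : ∀ n, ∃ c, In G ((false, false), n) c ∧ Plain.Mem (be hG false c) J) : False := by
  obtain ⟨T, l, hTI, hTm, hTd, hTf, hTe⟩ := exists_T' hG (be_fam hG false) J
  have icu := int_cu (M := M)
  obtain ⟨p1, hp1, a1⟩ : ∃ p, p ∈ G ∧ ∀ q, q ≤ p → ∀ c d, T c q → T d q → T (cu c d) q := by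
    have hI : Int M (fun q : ((Cd M × Cx M) × Cx M) × Cd M => T (cu q.1.1.2 q.1.2) q.2) :=
      Int.comp₂ (p := fun a b => T a b) hTI (IntF.comp₂ (p := fun a b => cu a b) icu
        (IntF.snd (IntF.fst IntF.fst')) (IntF.snd IntF.fst')) IntF.snd'
    rcases gen_dich hG (s := fun p => ∃ c d, T c p ∧ T d p ∧ ∀ q, q ≤ p → ¬ T (cu c d) q)
      (Int.ex (Int.ex (Int.and (Int.comp₂ (p := fun a b => T a b) hTI (IntF.snd IntF.fst')
        (IntF.fst IntF.fst')) (Int.and (Int.comp₂ (p := fun a b => T a b) hTI IntF.snd'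
          (IntF.fst IntF.fst')) (Int.all (Int.imp (Int.le IntF.snd' (IntF.fst (IntF.fst IntF.fst')))
            (Int.not hI))))))) with ⟨p, hp, c, d, e1, e2, e3⟩ | ⟨p, hp, e⟩
    · exfalso
      obtain ⟨p', hp', e4⟩ := (hTf _).1 (h1 c d ((hTf c).2 ⟨p, hp, e1⟩) ((hTf d).2 ⟨p, hp, e2⟩))
      obtain ⟨r, hr, e5, e6⟩ := hG.dir p p' hp hp'
      exact e3 r e5 (hTm _ _ _ e4 e6)
    · refine ⟨p, hp, fun q hq c d e1 e2 => hTd _ _ fun q' hq' => ?_⟩
      by_contra hcon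
      push Not at hcon
      exact e q' (hq'.trans hq) ⟨c, d, hTm _ _ _ e1 hq', hTm _ _ _ e2 hq', fun q'' h'' hT =>
        hcon q'' h'' hT⟩
  obtain ⟨p2, hp2, a2⟩ : ∃ p, p ∈ G ∧ ∀ q, q ≤ p → ∀ c, T c q →
      ¬ FinP M (fun x => ¬ ((Sum.inl false, x) : Xx M) ∈ c.1) := by
    have hI : Int M (fun q : Cd M × Cx M => FinP M (fun x => ¬ ((Sum.inl false, x) : Xx M) ∈ q.2.1)) :=
      Int.finP (R := fun (q : Cd M × Cx M) x => ¬ ((Sum.inl false, x) : Xx M) ∈ q.2.1)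
        (Int.not (Int.mem (IntF.pair (IntF.const _) IntF.snd') (IntF.val (IntF.snd IntF.fst'))))
    rcases gen_dich hG (s := fun p => ∃ c, T c p ∧
      FinP M (fun x => ¬ ((Sum.inl false, x) : Xx M) ∈ c.1))
      (Int.ex (Int.and (Int.comp₂ (p := fun a b => T a b) hTI IntF.snd' IntF.fst') hI)) with
        ⟨p, hp, c, e1, e2⟩ | ⟨p, hp, e⟩
    · exact (h2 c e2 ((hTf c).2 ⟨p, hp, e1⟩)).elim
    · exact ⟨p, hp, fun q hq c e1 e2 => e q hq ⟨c, e1, e2⟩⟩
  obtain ⟨p4, hp4, a4⟩ : ∃ p, p ∈ G ∧ ∀ q, q ≤ p → ∀ n, ∃ r, r ≤ q ∧ ∃ c, T c r ∧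
      At r ((false, false), n) c := by
    have hI : Int M (fun q : ((Cd M × INat M) × Cd M) × Cx M =>
        T q.2 q.1.2 ∧ At q.1.2 ((false, false), q.1.1.2) q.2) :=
      Int.and (Int.comp₂ (p := fun a b => T a b) hTI IntF.snd' (IntF.snd IntF.fst'))
        (int_At3 (IntF.snd IntF.fst') (IntF.pair (IntF.const _) (IntF.snd (IntF.fst IntF.fst')))
          IntF.snd')
    rcases gen_dich hG (s := fun p => ∃ n, ∀ r, r ≤ p → ¬ ∃ c, T c r ∧ At r ((false, false), n) c)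
      (Int.ex (Int.all (Int.imp (Int.le IntF.snd' (IntF.fst IntF.fst'))
        (Int.not (Int.ex hI))))) with ⟨p, hp, n, e⟩ | ⟨p, hp, e⟩
    · exfalso
      obtain ⟨c, ⟨p', hp', e1⟩, e2⟩ := h4 n
      obtain ⟨p'', hp'', e3⟩ := (hTf c).1 e2
      obtain ⟨r, hr, e5, e6⟩ := hG.dir p p' hp hp'
      obtain ⟨r', hr', e7, e8⟩ := hG.dir r p'' hr hp''
      exact e r' (e7.trans e5) ⟨c, hTm _ _ _ e3 e8, (e1.mono e6).mono e7⟩
    · refine ⟨p, hp, fun q hq n => ?_⟩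
      by_contra hcon
      refine e q hq ⟨n, fun r hr hc => hcon ⟨r, hr, hc⟩⟩
  obtain ⟨p3, hp3, e1, e2⟩ := hG.dir p1 p2 hp1 hp2
  obtain ⟨p0, hp0, e3, e4⟩ := hG.dir p3 p4 hp3 hp4
  have b1 : ∀ q, q ≤ p0 → ∀ c d, T c q → T d q → T (cu c d) q := fun q hq =>
    a1 q (hq.trans (e3.trans e1))
  have b2 : ∀ q, q ≤ p0 → ∀ c, T c q → ¬ FinP M (fun x => ¬ ((Sum.inl false, x) : Xx M) ∈ c.1) :=
    fun q hq => a2 q (hq.trans (e3.trans e2))
  have b4 : ∀ q, q ≤ p0 → ∀ n, ∃ r, r ≤ q ∧ ∃ c, T c r ∧ At r ((false, false), n) c :=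
    fun q hq => a4 q (hq.trans e4)
  obtain ⟨qA, hqA, w, hw1, hw2⟩ := step_A hTI hTm b1 b2 l.1 l.2
  exact core_C hTm hqA b1 (fun q0 hq0 => step_C hTI hTm b1 b4 q0 hq0) hTe hw1 hw2

end Pool.Agent.Helper672.ZFA.V246S
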