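import Pool.Agent.V11246.Si
import Pool.Agent.V11246.Kt
import Pool.Agent.V11246.Kh

/-!
# Nodes, and almost containing a basic set
-/

set_option maxHeartbeats 1000000
set_option linter.all false
set_option synthInstance.maxSize 2000

namespace Pool.Agent.Helper672.ZFA.H635

open FirstOrder FirstOrder.Language
open Pool.Agent.Helper672.Plain (LSet)

universe u

section

variable {M : Type u} [L.Structure M] [hM : IsModel M]
variable {P Γ : Type u} [ITy M P] [Preorder P] [ILE M P] [ITy M Γ] [Group Γ] [IMul M Γ]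
  [IInv M Γ] [MulAction Γ P] [ISMul M Γ P]
variable {Λ : Type u} [ITy M Λ] {S : SymSys M P Γ Λ}
variable {ε δ : Type u} [ITy M ε] [ITy M δ]
variable {G : Set P} (hG : IsGen M G)

/-- Forced membership between two families. -/
theorem exists_TM {act : Γ → ε → ε} {f : ε → NN S hG} (hf : EqFam hG act f)
    {act' : Γ → δ → δ} {f' : δ → NN S hG} (hf' : EqFam hG act' f') :
    ∃ T : ε → δ → P → Prop, Int M (fun q : (ε × δ) × P => T q.1.1 q.1.2 q.2) ∧
      (∀ c d p q, T c d p → q ≤ p → T c d q) ∧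
      (∀ c d p, (∀ q, q ≤ p → ∃ r, r ≤ q ∧ T c d r) → T c d p) ∧
      (∀ c d, Plain.Mem (f c) (f' d) ↔ ∃ p, p ∈ G ∧ T c d p) ∧
      ∀ π, ∀ c d p, T c d p → T (act π c) (act' π d) (π • p) := by
  obtain ⟨α, _, E, h, g, hg, h1, h2⟩ := hf
  obtain ⟨α', _, E', h', g', hg', h1', h2'⟩ := hf'
  have hI := h.int.fmem h'.int
  refine ⟨fun c d p => FMem M E E' p (g c) (g' d), ?_, ?_, ?_, ?_, ?_⟩
  · exact Int.comp₃ (p := fun p a b => FMem M E E' p a b) hI IntF.snd'
      (hg.comp (IntF.fst IntF.fst')) (hg'.comp (IntF.snd IntF.fst'))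
  · intro c d p q hT hq
    exact hT.mono hq
  · intro c d p hp
    exact FMem.of_dense hp
  · intro c d
    rw [h1, h1', mem_nd_nd]
  · intro π c d p hT
    have h3 := fmem_tw S π hT
    exact FMem.congr_left h.int (h.int.tw π) h'.int
      ((h2 π (π • p) c).symm (h.int.tw π) h.int)
      (FMem.congr_right (h.int.tw π) (h'.int.tw π) h'.int h3 (h2' π (π • p) d))

/-- The orbit of an element. -/
theorem exists_node (Z : NN S hG) : ∃ f : Γ → NN S hG, EqFam hG (fun (σ : Γ) (g : Γ) => σ * g) f ∧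
    f 1 = Z := by
  obtain ⟨α, _, E, h, r, rfl⟩ := exists_graph hG Z
  refine ⟨fun g => nd hG (good_og h) ((g, r) : Γ × α), ?_, nd_og_one hG h r⟩
  exact EqFam.comp (og_fam (S := S) hG h) (φ := fun g : Γ => ((g, r) : Γ × α))
    (IntF.pair IntF.id (IntF.const _)) fun _ _ => rfl

end

end Pool.Agent.Helper672.ZFA.H635

namespace Pool.Agent.Helper672.ZFA.V246S

open FirstOrder FirstOrder.Language
open Pool.Agent.Helper672.ZFA.H635 (IPerm SymSys IsGen NN EqFam nm nmN CollL nm_fam nm_inj exists_T'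
  exists_TM exists_node IsSupp exists_supp)
open Pool.Agent.Helper672.ZFA.V246 (Ctb)
open Pool.Agent.Helper672.ZFA.V246K (Std)
open Pool.Agent.H310

universe u

variable {M : Type u} [L.Structure M] [hM : IsModel M]

/-- Numbering finite sets. -/
theorem exists_num {α : Type u} [ITy M α] {s : IPow M α} (hs : IFin s) : ∃ (n : INat M)
    (e : IPow M (α × INat M)), (∀ a, a ∈ s → ∃ m, (a, m) ∈ e) ∧ (∀ a m, (a, m) ∈ e → m < n) ∧
      ∀ a a' m, (a, m) ∈ e → (a', m) ∈ e → a = a' := by
  refine IFin.ind (p := fun s : IPow M α => ∃ (n : INat M)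
    (e : IPow M (α × INat M)), (∀ a, a ∈ s → ∃ m, (a, m) ∈ e) ∧ (∀ a m, (a, m) ∈ e → m < n) ∧
      ∀ a a' m, (a, m) ∈ e → (a', m) ∈ e → a = a') ?_ ?_ ?_ s hs
  · refine Int.ex (Int.ex (Int.and ?_ (Int.and ?_ ?_)))
    · exact Int.all (Int.imp (Int.mem IntF.snd' (IntF.fst (IntF.fst IntF.fst')))
        (Int.ex (Int.mem (IntF.pair (IntF.snd IntF.fst') IntF.snd')
          (IntF.snd (IntF.fst IntF.fst')))))
    · exact Int.all (Int.all (Int.imp (Int.mem (IntF.pair (IntF.snd IntF.fst') IntF.snd')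
        (IntF.snd (IntF.fst IntF.fst'))) (Int.ltN IntF.snd'
          (IntF.snd (IntF.fst (IntF.fst IntF.fst'))))))
    · exact Int.all (Int.all (Int.all (Int.imp (Int.mem (IntF.pair
        (IntF.snd (IntF.fst IntF.fst')) IntF.snd') (IntF.snd (IntF.fst (IntF.fst IntF.fst'))))
          (Int.imp (Int.mem (IntF.pair (IntF.snd IntF.fst') IntF.snd')
            (IntF.snd (IntF.fst (IntF.fst IntF.fst')))) (Int.eq (IntF.snd (IntF.fst IntF.fst'))
              (IntF.snd IntF.fst'))))))
  · exact ⟨0, ∅, fun a ha => (mem_empty.1 ha).elim, fun a m h => (mem_empty.1 h).elim,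
      fun a a' m h => (mem_empty.1 h).elim⟩
  · rintro s b - hb ⟨n, e, h1, h2, h3⟩
    refine ⟨n.succ, Insert.insert (b, n) e, fun a ha => ?_, fun a m h => ?_, fun a a' m h h' => ?_⟩
    · rcases mem_insert.1 ha with rfl | ha
      · exact ⟨n, mem_insert.2 (Or.inl rfl)⟩
      · obtain ⟨m, hm⟩ := h1 a ha
        exact ⟨m, mem_insert.2 (Or.inr hm)⟩
    · rcases mem_insert.1 h with h | h
      · obtain ⟨rfl, rfl⟩ := Prod.mk.inj h
        exact INat.lt_succ_self _
      · exact (h2 a m h).trans (INat.lt_succ_self n)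
    · rcases mem_insert.1 h with g1 | g1
      · obtain ⟨e1, e2⟩ := Prod.mk.inj g1
        rcases mem_insert.1 h' with g2 | g2
        · rw [e1, (Prod.mk.inj g2).1]
        · have g3 := h2 _ _ g2
          rw [e2] at g3
          exact absurd g3 (lt_irrefl _)
      · rcases mem_insert.1 h' with g2 | g2
        · obtain ⟨e1, e2⟩ := Prod.mk.inj g2
          have g3 := h2 _ _ g1
          rw [e2] at g3
          exact absurd g3 (lt_irrefl _)
        · exact h3 a a' m g1 g2

/-- Finite sets are finite. -/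
theorem ext_finite (hs : Std M) {α : Type u} [ITy M α] {s : IPow M α} (h : IFin s) :
    Set.Finite {a : α | a ∈ s} := by
  obtain ⟨n, e, h1, h2, h3⟩ := exists_num h
  have h4 : ∀ n : INat M, Set.Finite {m : INat M | m < n} := by
    intro n
    refine hs (fun n => Set.Finite {m : INat M | m < n}) ?_ ?_ n
    · refine Set.Finite.subset Set.finite_empty fun m hm => ?_
      exact (INat.not_lt_zero hm).elim
    · intro k hk
      refine (hk.union (Set.finite_singleton k)).subset fun m hm => ?_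
      rcases INat.lt_succ_iff'.1 hm with h | h
      · exact Or.inl h
      · exact Or.inr h
  choose! φ hφ using h1
  refine Set.Finite.of_injOn (f := φ) (t := {m : INat M | m < n}) (fun a ha => h2 a _ (hφ a ha))
    (fun a ha b hb hab => ?_) (h4 n)
  have h5 := hφ b hb
  rw [← hab] at h5
  exact h3 _ _ _ (hφ a ha) h5

theorem inf_nat : Infinite (INat M) := by
  rw [← Set.infinite_univ_iff]
  refine Set.infinite_of_not_bddAbove ?_
  rintro ⟨n, hn⟩
  exact absurd (hn (Set.mem_univ n.succ)) (not_le.2 (INat.lt_succ_self n))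

variable {G : Set (Cd M)} (hG : IsGen M G)

/-- The position of a slot, as a set of numbers. -/
theorem exists_ps (p : Cd M) {i : Sl M} (hi : Dm p i) : ∃ c : IPow M (INat M),
    ¬ FinP M (fun x => x ∈ c) ∧ ∀ z : Xx M, (i, z) ∈ p.1 ↔ z.1 = cp i ∧ z.2 ∈ c := by
  have hI : Int M (fun x : INat M => (i, ((cp i, x) : Xx M)) ∈ p.1) :=
    Int.mem (IntF.pair (IntF.const _) (IntF.pair (IntF.const _) IntF.id)) (IntF.const _)
  refine ⟨sep M fun x : INat M => (i, ((cp i, x) : Xx M)) ∈ p.1, fun h => ?_, fun z => ?_⟩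
  · exact inf_pos' hi (h.mono fun x hx => (mem_sep hI).2 hx)
  · rw [mem_sep hI]
    constructor
    · intro h
      have h2 := p.2.2.2.1 i z h
      exact ⟨h2, by rwa [← h2]⟩
    · rintro ⟨h1, h2⟩
      rwa [← h1] at h2

/-- Deciding finitely many sets. -/
theorem exists_decs (p : Cd M) {i j : Sl M} (hi : Dm p i) (hj : Dm p j) (l : IPow M (Cx M))
    (hl : IFin l) : ∃ q, q ≤ p ∧ ∀ e, e ∈ l → (At q i e ∨ At q i (cc e)) ∧
      (At q j e ∨ At q j (cc e)) := by
  have icc : IntF M (fun c : Cx M => cc c) := by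
    refine IntF.mk ?_
    exact IntF.sep int_cc
  refine IFin.ind (p := fun l : IPow M (Cx M) => ∃ q, q ≤ p ∧ ∀ e, e ∈ l →
    (At q i e ∨ At q i (cc e)) ∧ (At q j e ∨ At q j (cc e))) ?_ ?_ ?_ l hl
  · refine Int.ex (Int.and (Int.le IntF.snd' (IntF.const _)) (Int.all (Int.imp
      (Int.mem IntF.snd' (IntF.fst IntF.fst')) (Int.and (Int.or ?_ ?_) (Int.or ?_ ?_)))))
    · exact int_At3 (IntF.snd IntF.fst') (IntF.const _) IntF.snd'
    · exact int_At3 (IntF.snd IntF.fst') (IntF.const _) (icc.comp IntF.snd')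
    · exact int_At3 (IntF.snd IntF.fst') (IntF.const _) IntF.snd'
    · exact int_At3 (IntF.snd IntF.fst') (IntF.const _) (icc.comp IntF.snd')
  · exact ⟨p, le_rfl, fun e he => (mem_empty.1 he).elim⟩
  · rintro s d - hd ⟨q, hq, h1⟩
    obtain ⟨r, h2, -, h3⟩ := exists_dec q (hq.1 i hi) d
    obtain ⟨r', h4, -, h5⟩ := exists_dec r (h2.1 j (hq.1 j hj)) d
    refine ⟨r', h4.trans (h2.trans hq), fun e he => ?_⟩
    rcases mem_insert.1 he with rfl | he
    · exact ⟨h3.imp (fun h => h.mono h4) fun h => h.mono h4, h5⟩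
    · have h6 := h1 e he
      exact ⟨h6.1.imp (fun h => h.mono (h4.trans h2)) fun h => h.mono (h4.trans h2),
        h6.2.imp (fun h => h.mono (h4.trans h2)) fun h => h.mono (h4.trans h2)⟩

end Pool.Agent.Helper672.ZFA.V246S
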