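import Pool.Agent.V11246.Sj

/-!
# Sets that almost contain a basic set
-/

set_option maxHeartbeats 1000000
set_option linter.all false
set_option synthInstance.maxSize 2000

namespace Pool.Agent.Helper672.ZFA.V246S

open FirstOrder FirstOrder.Language
open Pool.Agent.Helper672.ZFA.H635 (IPerm SymSys IsGen NN EqFam nm nmN CollL nm_fam nm_inj exists_T'
  exists_TM exists_node IsSupp exists_supp)
open Pool.Agent.Helper672.ZFA.V246 (Ctb)
open Pool.Agent.Helper672.ZFA.V246K (Std)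
open Pool.Agent.H310

universe u

variable {M : Type u} [L.Structure M] [hM : IsModel M]
variable {G : Set (Cd M)} (hG : IsGen M G)

theorem not_ex {e : Cx M} {t : INat M} (h : ¬ Ex e.1 t) (x : INat M) :
    ((Sum.inr t, x) : Xx M) ∈ e.1 ↔ ((Sum.inl false, x) : Xx M) ∈ e.1 := by
  by_contra hy
  exact h ⟨x, hy⟩

/-- The transposed condition. -/
theorem tr_le {t u : INat M} {τ : Gp M} (hτ : Tr t u τ) {q q' : Cd M} (hq : q' ≤ q)
    (hu : ∀ k, ¬ Dm q ((true, k), u)) (hu' : ∀ k, Dm q' ((true, k), u))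
    {c c' : IPow M (INat M)}
    (hc : ∀ z : Xx M, (((true, false), t), z) ∈ q.1 ↔ z.1 = Sum.inr t ∧ z.2 ∈ c)
    (hc' : ∀ z : Xx M, (((true, true), t), z) ∈ q.1 ↔ z.1 = Sum.inl true ∧ z.2 ∈ c')
    (h1 : ∀ z : Xx M, (((true, false), u), z) ∈ q'.1 → z.2 ∈ c)
    (h2 : ∀ z : Xx M, (((true, true), u), z) ∈ q'.1 → z.2 ∈ c') : q' ≤ τ • q := by
  have du : dg τ⁻¹ u = t := by
    have := dg_inv_dg τ t
    rwa [hτ.dgt] at this
  have dt : dg τ⁻¹ t = u := by
    have := dg_inv_dg τ u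
    rwa [hτ.dgu] at this
  have ds : ∀ s, s ≠ t → s ≠ u → dg τ⁻¹ s = s := by
    intro s h3 h4
    have := dg_inv_dg τ s
    rwa [hτ.dgs h3 h4] at this
  constructor
  · rintro ⟨⟨_ | _, k⟩, s⟩ hi
    · rw [dm_smul, sa_f] at hi
      exact hq.1 _ hi
    · rw [dm_smul, sa_t] at hi
      by_cases hsu : s = u
      · rw [hsu]
        exact hu' k
      · by_cases hst : s = t
        · rw [hst, dt] at hi
          exact absurd hi (hu k)
        · rw [ds s hst hsu] at hi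
          exact hq.1 _ hi
  · rintro ⟨⟨_ | _, k⟩, s⟩ z hi hz
    · rw [dm_smul, sa_f] at hi
      rw [mem_smul, sa_f, hτ.inv]
      have h3 := q'.2.2.2.1 _ _ hz
      obtain ⟨y, x⟩ := z
      change y = Sum.inl k at h3
      subst h3
      rw [hτ.a0]
      exact hq.2 _ _ hi hz
    · rw [dm_smul, sa_t] at hi
      rw [mem_smul, sa_t, hτ.inv]
      have h3 := q'.2.2.2.1 _ _ hz
      obtain ⟨y, x⟩ := z
      by_cases hsu : s = u
      · subst hsu
        rw [du]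
        rcases k with _ | _
        · change y = Sum.inr s at h3
          subst h3
          rw [hτ.a2, hc]
          exact ⟨rfl, h1 (Sum.inr s, x) hz⟩
        · change y = Sum.inl true at h3
          subst h3
          rw [hτ.a0, hc']
          exact ⟨rfl, h2 _ hz⟩
      · by_cases hst : s = t
        · rw [hst, dt] at hi
          exact absurd hi (hu k)
        · rw [ds s hst hsu] at hi ⊢
          rcases k with _ | _
          · change y = Sum.inr s at h3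
            subst h3
            rw [hτ.a3 s x hst hsu]
            exact hq.2 _ _ hi hz
          · change y = Sum.inl true at h3
            subst h3
            rw [hτ.a0]
            exact hq.2 _ _ hi hz

/-- Sets that almost contain a basic set. -/
theorem lem_S (Z : NN (Ss M) hG) (l : Lx M) : ∃ F : IPow M (INat M), IFin F ∧ ∀ t, ¬ t ∈ F →
    Plain.Mem (xg hG t) Z → ∃ c c' : IPow M (INat M), ¬ FinP M (fun x => x ∈ c) ∧
      ¬ FinP M (fun x => x ∈ c') ∧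
      (∀ e, e ∈ l.1 → (In G ((true, false), t) e ∧
        ∀ x, x ∈ c → ((Sum.inl false, x) : Xx M) ∈ e.1) ∨ (¬ In G ((true, false), t) e ∧
          ∀ x, x ∈ c → ¬ ((Sum.inl false, x) : Xx M) ∈ e.1)) ∧
      (∀ e, e ∈ l.1 → (In G ((true, true), t) e ∧
        ∀ x, x ∈ c' → ((Sum.inl true, x) : Xx M) ∈ e.1) ∨ (¬ In G ((true, true), t) e ∧
          ∀ x, x ∈ c' → ¬ ((Sum.inl true, x) : Xx M) ∈ e.1)) ∧
      ∃ F' : IPow M (INat M), IFin F' ∧ ∀ u, ¬ u ∈ F' → In G ((true, false), u) (eu c) →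
        In G ((true, true), u) (eu c') → Plain.Mem (xg hG u) Z := by
  obtain ⟨T, lZ, hTI, hTm, hTd, hTf, hTe⟩ := exists_T' hG (xg_fam hG) Z
  obtain ⟨F1, hF1, hF1'⟩ := exists_Fl lZ.1 lZ.2
  obtain ⟨F2, hF2, hF2'⟩ := exists_Fl l.1 l.2
  refine ⟨F1 ∪ F2, hF1.union hF2, fun t ht hm => ?_⟩
  have ht1 : ∀ c, c ∈ lZ.1 → ¬ Ex c.1 t := fun c hc h => ht (mem_union.2 (Or.inl (hF1' t ⟨c, hc, h⟩)))
  have ht2 : ∀ c, c ∈ l.1 → ¬ Ex c.1 t := fun c hc h => ht (mem_union.2 (Or.inr (hF2' t ⟨c, hc, h⟩)))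
  obtain ⟨p, hp, hpT⟩ := (hTf t).1 hm
  obtain ⟨p1, hp1, e1, d1⟩ := exists_gdm hG ((true, false), t) hp
  obtain ⟨p2, hp2, e2, d2⟩ := exists_gdm hG ((true, true), t) hp1
  have d1' : Dm p2 ((true, false), t) := e2.1 _ d1
  have icc : IntF M (fun c : Cx M => cc c) := by
    refine IntF.mk ?_
    exact IntF.sep int_cc
  obtain ⟨q, hq, e3, h3⟩ := hG.dense_below (s := fun q => ∀ e, e ∈ l.1 →
      (At q ((true, false), t) e ∨ At q ((true, false), t) (cc e)) ∧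
      (At q ((true, true), t) e ∨ At q ((true, true), t) (cc e))) (by
    refine Int.all (Int.imp (Int.mem IntF.snd' (IntF.const _)) (Int.and (Int.or ?_ ?_)
      (Int.or ?_ ?_)))
    · exact int_At3 IntF.fst' (IntF.const _) IntF.snd'
    · exact int_At3 IntF.fst' (IntF.const _) (icc.comp IntF.snd')
    · exact int_At3 IntF.fst' (IntF.const _) IntF.snd'
    · exact int_At3 IntF.fst' (IntF.const _) (icc.comp IntF.snd')) hp2
    fun p' hp' => exists_decs p' (hp'.1 _ d1') (hp'.1 _ d2) l.1 l.2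
  obtain ⟨c, hc1, hc2⟩ := exists_ps q (i := ((true, false), t)) (e3.1 _ d1')
  obtain ⟨c', hc1', hc2'⟩ := exists_ps q (i := ((true, true), t)) (e3.1 _ d2)
  obtain ⟨F3, hF3, hF3'⟩ := fin_dm q (true, false)
  obtain ⟨F4, hF4, hF4'⟩ := fin_dm q (true, true)
  refine ⟨c, c', hc1, hc1', fun e he => ?_, fun e he => ?_, F1 ∪ (F3 ∪ F4),
    hF1.union (hF3.union hF4), fun u hu hu1 hu2 => ?_⟩
  · rcases (h3 e he).1 with h4 | h4
    · refine Or.inl ⟨⟨q, hq, h4⟩, fun x hx => ?_⟩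
      rw [← not_ex (ht2 e he)]
      exact h4.2 _ ((hc2 (Sum.inr t, x)).2 ⟨rfl, hx⟩)
    · refine Or.inr ⟨(in_cc hG).1 ⟨q, hq, h4⟩, fun x hx => ?_⟩
      rw [← not_ex (ht2 e he)]
      exact mem_cc.1 (h4.2 _ ((hc2 (Sum.inr t, x)).2 ⟨rfl, hx⟩))
  · rcases (h3 e he).2 with h4 | h4
    · refine Or.inl ⟨⟨q, hq, h4⟩, fun x hx => ?_⟩
      exact h4.2 _ ((hc2' (Sum.inl true, x)).2 ⟨rfl, hx⟩)
    · refine Or.inr ⟨(in_cc hG).1 ⟨q, hq, h4⟩, fun x hx => ?_⟩
      exact mem_cc.1 (h4.2 _ ((hc2' (Sum.inl true, x)).2 ⟨rfl, hx⟩))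
  · have hu1' : ∀ c, c ∈ lZ.1 → ¬ Ex c.1 u := fun c hc h =>
      hu (mem_union.2 (Or.inl (hF1' u ⟨c, hc, h⟩)))
    have hu3 : ∀ k, ¬ Dm q ((true, k), u) := by
      rintro (_ | _) h
      · exact hu (mem_union.2 (Or.inr (mem_union.2 (Or.inl (hF3' u h)))))
      · exact hu (mem_union.2 (Or.inr (mem_union.2 (Or.inr (hF4' u h)))))
    obtain ⟨q1, hq1, a1⟩ := hu1
    obtain ⟨q2, hq2, a2⟩ := hu2
    obtain ⟨q3, hq3, b1, b2⟩ := hG.dir q1 q2 hq1 hq2
    obtain ⟨q', hq', b3, b4⟩ := hG.dir q3 q hq3 hq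
    have a1' := a1.mono (b3.trans b1)
    have a2' := a2.mono (b3.trans b2)
    obtain ⟨τ, hτ⟩ := exists_tr t u
    have hle : q' ≤ τ • q := tr_le hτ b4 hu3 (by
      rintro (_ | _)
      · exact a1'.1
      · exact a2'.1) hc2 hc2' (fun z hz => mem_eu.1 (a1'.2 z hz)) fun z hz => mem_eu.1 (a2'.2 z hz)
    have h5 := hTe τ (fun e he => hτ.fix (ht1 e he) (hu1' e he)) t q
      (hTm _ _ _ hpT (e3.trans (e2.trans e1)))
    rw [hτ.dgt] at h5
    exact (hTf u).2 ⟨q', hq', hTm _ _ _ h5 hle⟩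

end Pool.Agent.Helper672.ZFA.V246S
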