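import Pool.Agent.V11246.Sk

/-!
# There are no disjoint families of sets
-/

set_option maxHeartbeats 1000000
set_option linter.all false
set_option synthInstance.maxSize 2000

namespace Pool.Agent.Helper672.ZFA.V246S

open FirstOrder FirstOrder.Language
open Pool.Agent.Helper672.ZFA.H635 (IPerm SymSys IsGen NN EqFam nm nmN CollL nm_fam nm_inj exists_T'
  exists_TM exists_node IsSupp exists_supp)
open Pool.Agent.Helper672.ZFA.V246 (Ctb)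
open Pool.Agent.Helper672.ZFA.V246K (Std)
open Pool.Agent.H310

universe u

variable {M : Type u} [L.Structure M] [hM : IsModel M]

/-- Avoiding an infinite part of a set. -/
theorem exists_av (p : Cd M) {a : Xx M → Prop} (haI : Int M a) (ha : ¬ FinP M a) :
    ∃ q : Cd M, q ≤ p ∧ (∀ j, Dm q j ↔ Dm p j) ∧ ∃ b : IPow M (Xx M), (∀ z, z ∈ b → a z) ∧
      ¬ FinP M (fun z => z ∈ b) ∧ ∀ i z, (i, z) ∈ q.1 → ¬ z ∈ b := by
  obtain ⟨h1, h2, h3, h4⟩ := p.2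
  obtain ⟨c, hcI, h5, h6, h7⟩ := inf_avoid (α := Xx M) (ι := Sl M) ctb_X (S := Dm p) (int_Dm' p) h1
    (P := fun j z => (j, z) ∈ p.1) (int_at' p) h4 (fun j j' z _ _ hz hz' => h2 j j' z hz hz')
    haI ha
  obtain ⟨q, h8, h9, h10⟩ := exists_shrink p (b := fun i z => ¬ c z) (Int.not (hcI.comp IntF.snd'))
    h7
  refine ⟨q, h8, h9, sep M c, fun z hz => h5 z ((mem_sep hcI).1 hz), fun h => ?_, fun i z hz h => ?_⟩
  · exact h6 (h.mono fun z hz => (mem_sep hcI).2 hz)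
  · exact ((h10 i z).1 hz).2 ((mem_sep hcI).1 h)

/-- A set has an infinite part in a column. -/
def Nf (k : Cl M) (f : IPow M (INat M)) (b : IPow M (Xx M)) : Prop :=
  ¬ FinP M (fun x => x ∈ f ∧ ((k, x) : Xx M) ∈ b)

theorem int_Nf (k : Cl M) (f : IPow M (INat M)) : Int M (fun b : IPow M (Xx M) => Nf k f b) :=
  Int.not (Int.finP (R := fun (b : IPow M (Xx M)) x => x ∈ f ∧ ((k, x) : Xx M) ∈ b)
    (Int.and (Int.mem IntF.snd' (IntF.const _)) (Int.mem (IntF.pair (IntF.const _) IntF.snd')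
      IntF.fst')))

theorem Nf.mono {k : Cl M} {f : IPow M (INat M)} {b b' : IPow M (Xx M)} (h : Nf k f b)
    (hb : ∀ z, z ∈ b → z ∈ b') : Nf k f b' := fun h' => h (h'.mono fun x hx => ⟨hx.1, hb _ hx.2⟩)

theorem exists_av1 (p : Cd M) (b0 : IPow M (Xx M)) (h0 : ∀ i z, (i, z) ∈ p.1 → ¬ z ∈ b0) (k : Cl M)
    {f : IPow M (INat M)} (hf : ¬ FinP M (fun x => x ∈ f)) : ∃ q : Cd M, q ≤ p ∧
      ∃ b : IPow M (Xx M), (∀ z, z ∈ b0 → z ∈ b) ∧ Nf k f b ∧ ∀ i z, (i, z) ∈ q.1 → ¬ z ∈ b := by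
  obtain ⟨q, h1, h1', b, h2, h3, h4⟩ := exists_av p (a := fun z => z.1 = k ∧ z.2 ∈ f)
    (Int.and (Int.eq IntF.fst' (IntF.const _)) (Int.mem IntF.snd' (IntF.const _))) (inf_col hf k)
  refine ⟨q, h1, b0 ∪ b, fun z hz => mem_union.2 (Or.inl hz), fun h => h3 ?_, fun i z hz h => ?_⟩
  · refine (fin_col h k).mono fun z hz => ?_
    obtain ⟨h5, h6⟩ := h2 z hz
    refine ⟨h5, h6, mem_union.2 (Or.inr ?_)⟩
    rw [← h5]
    exact hz
  · rcases mem_union.1 h with h | h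
    · exact h0 i z (h1.2 i z ((h1' i).1 ⟨z, hz⟩) hz) h
    · exact h4 i z hz h

/-- Avoiding infinite parts of four sets. -/
def Av (f0 d0 f1 d1 : IPow M (INat M)) (p : Cd M) (b : IPow M (Xx M)) : Prop :=
  (Nf (Sum.inl false) f0 b ∧ Nf (Sum.inl false) d0 b ∧ Nf (Sum.inl true) f1 b ∧
    Nf (Sum.inl true) d1 b) ∧ ∀ i z, (i, z) ∈ p.1 → ¬ z ∈ b

theorem int_Av (f0 d0 f1 d1 : IPow M (INat M)) : Int M (fun p : Cd M => ∃ b, Av f0 d0 f1 d1 p b) := by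
  unfold Av
  refine Int.ex (Int.and (Int.and ?_ (Int.and ?_ (Int.and ?_ ?_))) (Int.all (Int.all (Int.imp ?_ ?_))))
  · exact (int_Nf _ _).comp IntF.snd'
  · exact (int_Nf _ _).comp IntF.snd'
  · exact (int_Nf _ _).comp IntF.snd'
  · exact (int_Nf _ _).comp IntF.snd'
  · exact Int.mem (IntF.pair (IntF.snd IntF.fst') IntF.snd')
      (IntF.val (IntF.fst (IntF.fst IntF.fst')))
  · exact Int.not (Int.mem IntF.snd' (IntF.snd (IntF.fst IntF.fst')))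

theorem exists_Av {f0 d0 f1 d1 : IPow M (INat M)} (h1 : ¬ FinP M (fun x => x ∈ f0))
    (h2 : ¬ FinP M (fun x => x ∈ d0)) (h3 : ¬ FinP M (fun x => x ∈ f1))
    (h4 : ¬ FinP M (fun x => x ∈ d1)) (p : Cd M) : ∃ q, q ≤ p ∧ ∃ b, Av f0 d0 f1 d1 q b := by
  obtain ⟨q1, l1, b1, -, n1, a1⟩ := exists_av1 p ∅ (fun i z _ h => (mem_empty.1 h).elim)
    (Sum.inl false) h1
  obtain ⟨q2, l2, b2, s2, n2, a2⟩ := exists_av1 q1 b1 a1 (Sum.inl false) h2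
  obtain ⟨q3, l3, b3, s3, n3, a3⟩ := exists_av1 q2 b2 a2 (Sum.inl true) h3
  obtain ⟨q4, l4, b4, s4, n4, a4⟩ := exists_av1 q3 b3 a3 (Sum.inl true) h4
  exact ⟨q4, l4.trans (l3.trans (l2.trans l1)), b4,
    ⟨((n1.mono s2).mono s3).mono s4, (n2.mono s3).mono s4, n3.mono s4, n4⟩, a4⟩

/-- Disjoint infinite parts. -/
theorem exists_disj {c d : IPow M (INat M)} (hc : ¬ FinP M (fun x => x ∈ c))
    (hd : ¬ FinP M (fun x => x ∈ d)) : ∃ f g : IPow M (INat M), (∀ x, x ∈ f → x ∈ c) ∧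
      (∀ x, x ∈ g → x ∈ d) ∧ ¬ FinP M (fun x => x ∈ f) ∧ ¬ FinP M (fun x => x ∈ g) ∧
        ∀ x, x ∈ f → ¬ x ∈ g := by
  have hI1 : Int M (fun x : INat M => x ∈ c ∧ x ∈ d) :=
    Int.and (Int.mem IntF.id (IntF.const _)) (Int.mem IntF.id (IntF.const _))
  have hI2 : Int M (fun x : INat M => x ∈ c ∧ ¬ x ∈ d) :=
    Int.and (Int.mem IntF.id (IntF.const _)) (Int.not (Int.mem IntF.id (IntF.const _)))
  by_cases h : FinP M (fun x => x ∈ c ∧ x ∈ d)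
  · refine ⟨sep M fun x : INat M => x ∈ c ∧ ¬ x ∈ d, d, fun x hx => ((mem_sep hI2).1 hx).1,
      fun x hx => hx, fun h1 => hc ((h.or h1).mono fun x hx => ?_), hd,
      fun x hx => ((mem_sep hI2).1 hx).2⟩
    by_cases hxd : x ∈ d
    · exact Or.inl ⟨hx, hxd⟩
    · exact Or.inr ((mem_sep hI2).2 ⟨hx, hxd⟩)
  · obtain ⟨f, hfI, h1, h2, h3⟩ := inf_split hI1 (Ctb.nat.mono fun _ _ => trivial) h
    have hI3 : Int M (fun x : INat M => (x ∈ c ∧ x ∈ d) ∧ ¬ f x) := Int.and hI1 (Int.not hfI)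
    refine ⟨sep M f, sep M fun x : INat M => (x ∈ c ∧ x ∈ d) ∧ ¬ f x,
      fun x hx => (h1 x ((mem_sep hfI).1 hx)).1, fun x hx => ((mem_sep hI3).1 hx).1.2,
      fun h4 => h2 (h4.mono fun x hx => (mem_sep hfI).2 hx),
      fun h4 => h3 (h4.mono fun x hx => (mem_sep hI3).2 hx), fun x hx hx' => ?_⟩
    exact ((mem_sep hI3).1 hx').2 ((mem_sep hfI).1 hx)

/-- Exchanging the parts of two sets in a column. -/
theorem exists_swN {k : Cl M} {f d : IPow M (INat M)} {b : IPow M (Xx M)} (hf : Nf k f b)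
    (hd : Nf k d b) (hfd : ∀ x, x ∈ f → ¬ x ∈ d) : ∃ sw : INat M → INat M, IntF M sw ∧
      (∀ x, sw (sw x) = x) ∧ (∀ x, x ∈ f → ((k, x) : Xx M) ∈ b → sw x ∈ d ∧ ((k, sw x) : Xx M) ∈ b) ∧
      (∀ x, x ∈ d → ((k, x) : Xx M) ∈ b → sw x ∈ f ∧ ((k, sw x) : Xx M) ∈ b) ∧
      (∀ x, ¬ (x ∈ f ∧ ((k, x) : Xx M) ∈ b) → ¬ (x ∈ d ∧ ((k, x) : Xx M) ∈ b) → sw x = x) := by
  have hI : ∀ c : IPow M (INat M), Int M (fun x : INat M => x ∈ c ∧ ((k, x) : Xx M) ∈ b) := fun c =>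
    Int.and (Int.mem IntF.id (IntF.const _)) (Int.mem (IntF.pair (IntF.const _) IntF.id)
      (IntF.const _))
  obtain ⟨sw, h1, h2, h3, h4, h5⟩ := exists_sw (hI f) (hI d) hf hd fun x h h' => hfd x h.1 h'.1
  exact ⟨sw, h1, h2, fun x hx hx' => h3 x ⟨hx, hx'⟩, fun x hx hx' => h4 x ⟨hx, hx'⟩, h5⟩

end Pool.Agent.Helper672.ZFA.V246S
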