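import Pool.Agent.V11246.Sl

/-!
# There are no disjoint families of sets, continued
-/

set_option maxHeartbeats 1000000
set_option linter.all false
set_option synthInstance.maxSize 2000

namespace Pool.Agent.Helper672.ZFA.V246S

open FirstOrder FirstOrder.Language
open Pool.Agent.Helper672.ZFA.H635 (IPerm SymSys IsGen NN EqFam nm nmN CollL nm_fam nm_inj exists_T'
  exists_TM exists_node IsSupp exists_supp)
open Pool.Agent.Helper672.ZFA.V246 (Ctb)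
open Pool.Agent.Helper672.ZFA.V246K (Std)
open Pool.Agent.H310

universe u

variable {M : Type u} [L.Structure M] [hM : IsModel M]

theorem int_excl (l : Lx M) (p : Cd M) : Int M (fun t : INat M => (∃ c, c ∈ l.1 ∧ Ex c.1 t) ∨
    Dm p ((true, false), t)) := by
  refine Int.or (Int.ex (Int.and (Int.mem IntF.snd' (IntF.const _)) ?_)) ?_
  · exact Int.comp₂ (p := fun a b => Ex a b) int_Ex (IntF.val IntF.snd') IntF.fst'
  · exact Int.comp₂ (p := fun a b => Dm a b) int_Dm (IntF.const _)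
      (IntF.pair (IntF.const _) IntF.id)

/-- The combinatorial core: moving a basic set to another one. -/
theorem core_B {l : Lx M} {c0 d0 c1 d1 f0 g0 f1 g1 : IPow M (INat M)}
    (hom0 : ∀ e, e ∈ l.1 → ((∀ x, x ∈ c0 → ((Sum.inl false, x) : Xx M) ∈ e.1) ∧
      ∀ x, x ∈ d0 → ((Sum.inl false, x) : Xx M) ∈ e.1) ∨
      ((∀ x, x ∈ c0 → ¬ ((Sum.inl false, x) : Xx M) ∈ e.1) ∧
      ∀ x, x ∈ d0 → ¬ ((Sum.inl false, x) : Xx M) ∈ e.1))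
    (hom1 : ∀ e, e ∈ l.1 → ((∀ x, x ∈ c1 → ((Sum.inl true, x) : Xx M) ∈ e.1) ∧
      ∀ x, x ∈ d1 → ((Sum.inl true, x) : Xx M) ∈ e.1) ∨
      ((∀ x, x ∈ c1 → ¬ ((Sum.inl true, x) : Xx M) ∈ e.1) ∧
      ∀ x, x ∈ d1 → ¬ ((Sum.inl true, x) : Xx M) ∈ e.1))
    (hf0 : ∀ x, x ∈ f0 → x ∈ c0) (hg0 : ∀ x, x ∈ g0 → x ∈ d0) (hfg0 : ∀ x, x ∈ f0 → ¬ x ∈ g0)
    (hf1 : ∀ x, x ∈ f1 → x ∈ c1) (hg1 : ∀ x, x ∈ g1 → x ∈ d1) (hfg1 : ∀ x, x ∈ f1 → ¬ x ∈ g1)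
    {p : Cd M} {b : IPow M (Xx M)} (hAv : Av f0 g0 f1 g1 p b) :
    ∃ (ρ : Gp M) (S : INat M → Prop) (w0 w1 : IPow M (INat M)), FinP M S ∧ (Ss M).U l ρ ∧
      p ≤ ρ • p ∧ (∀ t, dg ρ t = t) ∧ ¬ FinP M (fun x => x ∈ w0) ∧ ¬ FinP M (fun x => x ∈ w1) ∧
      (∀ x, x ∈ w0 → x ∈ d0) ∧ (∀ x, x ∈ w1 → x ∈ d1) ∧
      (∀ q t, ¬ S t → At q ((true, false), t) (eu w0) → At (ρ⁻¹ • q) ((true, false), t) (eu c0)) ∧
      ∀ q t, At q ((true, true), t) (eu w1) → At (ρ⁻¹ • q) ((true, true), t) (eu c1) := by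
  obtain ⟨⟨n1, n2, n3, n4⟩, hb⟩ := hAv
  obtain ⟨σ0, s1, s2, s3, s4, s5⟩ := exists_swN n1 n2 hfg0
  obtain ⟨σ1, t1, t2, t3, t4, t5⟩ := exists_swN n3 n4 hfg1
  have hS : FinP M (fun t => (∃ c, c ∈ l.1 ∧ Ex c.1 t) ∨ Dm p ((true, false), t)) :=
    (exists_Fl l.1 l.2).or (fin_dm p (true, false))
  obtain ⟨ρ, hρ⟩ := exists_g s1 t1 s2 t2 hS (int_excl l p)
  have hI : ∀ (k : Cl M) (c : IPow M (INat M)), Int M (fun x : INat M =>
      x ∈ c ∧ ((k, x) : Xx M) ∈ b) := fun k c =>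
    Int.and (Int.mem IntF.id (IntF.const _)) (Int.mem (IntF.pair (IntF.const _) IntF.id)
      (IntF.const _))
  have sub : ∀ (e : Cx M) (k : Bool) (σ : INat M → INat M) (c d f g : IPow M (INat M)),
      (((∀ x, x ∈ c → ((Sum.inl k, x) : Xx M) ∈ e.1) ∧
      ∀ x, x ∈ d → ((Sum.inl k, x) : Xx M) ∈ e.1) ∨
      ((∀ x, x ∈ c → ¬ ((Sum.inl k, x) : Xx M) ∈ e.1) ∧
      ∀ x, x ∈ d → ¬ ((Sum.inl k, x) : Xx M) ∈ e.1)) → (∀ x, x ∈ f → x ∈ c) →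
      (∀ x, x ∈ g → x ∈ d) →
      (∀ x, x ∈ f → ((Sum.inl k, x) : Xx M) ∈ b → σ x ∈ g ∧ ((Sum.inl k, σ x) : Xx M) ∈ b) →
      (∀ x, x ∈ g → ((Sum.inl k, x) : Xx M) ∈ b → σ x ∈ f ∧ ((Sum.inl k, σ x) : Xx M) ∈ b) →
      (∀ x, ¬ (x ∈ f ∧ ((Sum.inl k, x) : Xx M) ∈ b) → ¬ (x ∈ g ∧ ((Sum.inl k, x) : Xx M) ∈ b) →
        σ x = x) → ∀ x, ((Sum.inl k, σ x) : Xx M) ∈ e.1 ↔ ((Sum.inl k, x) : Xx M) ∈ e.1 := by
    intro e k σ c d f g h1 h2 h3 h4 h5 h6 x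
    by_cases hx : x ∈ f ∧ ((Sum.inl k, x) : Xx M) ∈ b
    · have h7 := (h4 x hx.1 hx.2).1
      rcases h1 with ⟨h8, h9⟩ | ⟨h8, h9⟩
      · exact ⟨fun _ => h8 _ (h2 _ hx.1), fun _ => h9 _ (h3 _ h7)⟩
      · exact ⟨fun h => absurd h (h9 _ (h3 _ h7)), fun h => absurd h (h8 _ (h2 _ hx.1))⟩
    · by_cases hx' : x ∈ g ∧ ((Sum.inl k, x) : Xx M) ∈ b
      · have h7 := (h5 x hx'.1 hx'.2).1
        rcases h1 with ⟨h8, h9⟩ | ⟨h8, h9⟩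
        · exact ⟨fun _ => h9 _ (h3 _ hx'.1), fun _ => h8 _ (h2 _ h7)⟩
        · exact ⟨fun h => absurd h (h8 _ (h2 _ h7)), fun h => absurd h (h9 _ (h3 _ hx'.1))⟩
      · rw [h6 x hx hx']
  refine ⟨ρ, _, sep M fun x : INat M => x ∈ g0 ∧ ((Sum.inl false, x) : Xx M) ∈ b,
    sep M fun x : INat M => x ∈ g1 ∧ ((Sum.inl true, x) : Xx M) ∈ b, hS, ?_, ?_, hρ.dg, ?_, ?_, ?_,
    ?_, ?_, ?_⟩
  · intro e he
    exact hρ.fix (fun t ht => Or.inl ⟨e, he, ht⟩)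
      (sub e false σ0 c0 d0 f0 g0 (hom0 e he) hf0 hg0 s3 s4 s5)
      (sub e true σ1 c1 d1 f1 g1 (hom1 e he) hf1 hg1 t3 t4 t5)
  · refine ⟨fun j hj => hρ.dm.1 hj, fun j z hj hz => hρ.smul.2 ?_⟩
    have hz1 := p.2.2.2.1 j z hz
    have hzb := hb j z hz
    suffices h : ap ρ z = z by rwa [h]
    obtain ⟨k, x⟩ := z
    obtain ⟨⟨_ | _, _ | _⟩, n⟩ := j
    · change k = Sum.inl false at hz1
      subst hz1
      rw [hρ.a0, s5 x (fun h => hzb h.2) fun h => hzb h.2]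
    · change k = Sum.inl true at hz1
      subst hz1
      rw [hρ.a1, t5 x (fun h => hzb h.2) fun h => hzb h.2]
    · change k = Sum.inr n at hz1
      subst hz1
      exact hρ.a2 n x (Or.inr (hρ.dm.1 hj))
    · change k = Sum.inl true at hz1
      subst hz1
      rw [hρ.a1, t5 x (fun h => hzb h.2) fun h => hzb h.2]
  · exact fun h => n2 (h.mono fun x hx => (mem_sep (hI _ _)).2 hx)
  · exact fun h => n4 (h.mono fun x hx => (mem_sep (hI _ _)).2 hx)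
  · exact fun x hx => hg0 x ((mem_sep (hI _ _)).1 hx).1
  · exact fun x hx => hg1 x ((mem_sep (hI _ _)).1 hx).1
  · intro q t ht h
    have h1 := at_smul (g := ρ⁻¹) h
    rw [hρ.sai] at h1
    refine h1.sub fun z hz1 hz => ?_
    rw [mem_cact, inv_inv] at hz
    obtain ⟨k, x⟩ := z
    change k = Sum.inr t at hz1
    subst hz1
    rw [hρ.a3 t x ht, mem_eu, mem_sep (hI _ _)] at hz
    rw [mem_eu]
    have h2 := (s4 _ hz.1 hz.2).1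
    rw [s2] at h2
    exact hf0 _ h2
  · intro q t h
    have h1 := at_smul (g := ρ⁻¹) h
    rw [hρ.sai] at h1
    refine h1.sub fun z hz1 hz => ?_
    rw [mem_cact, inv_inv] at hz
    obtain ⟨k, x⟩ := z
    change k = Sum.inl true at hz1
    subst hz1
    rw [hρ.a1, mem_eu, mem_sep (hI _ _)] at hz
    rw [mem_eu]
    have h2 := (t4 _ hz.1 hz.2).1
    rw [t2] at h2
    exact hf1 _ h2

end Pool.Agent.Helper672.ZFA.V246S
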