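import Pool.Agent.V11246.Cmp

/-!
# Small sets below an initial ordinal
-/

set_option maxHeartbeats 1000000
set_option linter.all false
set_option synthInstance.maxSize 2000

namespace Pool.Agent.Helper672.ZFA.V246

open FirstOrder FirstOrder.Language
open H635 (IWO)
open Pool.Agent.H310

universe u

section

variable (M : Type u) [L.Structure M] [hM : IsModel M] (K : Type u) [ITy M K] [LinearOrder K]
  [ILE M K]

/-- `K` is like an uncountable initial ordinal. -/
structure Crd : Prop where
  wf : ∀ s : IPow M K, (∃ a, a ∈ s) → ∃ a, a ∈ s ∧ ∀ b, b ∈ s → ¬ b < a
  init : ∀ b : K, ¬ ∃ e : K → K, IntF M e ∧ Function.Injective e ∧ ∀ x, e x < b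
  om : ∃ j : INat M → K, IntF M j ∧ Function.Injective j ∧ ∃ w, ∀ n, j n < w

end

section

variable {M : Type u} [L.Structure M] [hM : IsModel M] {K : Type u} [ITy M K] [LinearOrder K]
  [ILE M K]
variable {γ δ : Type u} [ITy M γ] [ITy M δ]

variable (K) in
/-- Small sets: those of cardinality less than `K`. -/
def Sml (S : IPow M γ) : Prop :=
  ∃ (b : K) (e : IFun M γ K), (∀ x, x ∈ S → e x < b) ∧ ∀ x y, x ∈ S → y ∈ S → e x = e y → x = y

theorem int_Sml : Int M (fun S : IPow M γ => Sml K S) := by
  unfold Sml
  (repeat' (first | with_reducible exact IntF.id | with_reducible exact IntF.fst' | with_reducible exact IntF.snd' | with_reducible exact IntF.const _ | with_reducible exact Int.const _ | assumption | with_reducible apply Int.and | with_reducible apply Int.or | with_reducible apply Int.not | with_reducible apply Int.imp | with_reducible apply Int.iff | with_reducible apply Int.ne | with_reducible apply Int.eq | with_reducible apply Int.mem | with_reducible apply Int.subset | with_reducible apply Int.ltN | with_reducible apply Int.leN | with_reducible_and_instances apply Int.le | with_reducible_and_instances apply Int.lt | with_reducible apply Int.all | with_reducible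 apply Int.ex | with_reducible apply IntF.fst | with_reducible apply IntF.snd | with_reducible apply IntF.app | with_reducible apply IntF.inl | with_reducible apply IntF.inr | with_reducible_and_instances apply IntF.mul | with_reducible_and_instances apply IntF.inv | with_reducible_and_instances apply IntF.add | with_reducible_and_instances apply IntF.sub | with_reducible_and_instances apply IntF.neg | with_reducible_and_instances apply IntF.smul | with_reducible apply Int.fin | with_reducible apply IntF.sep | with_reducible apply IntF.lam | with_reducible apply IntF.insert | with_reducible apply IntF.singleton | with_reducible apply IntF.union | with_reducible apply IntF.iimage | with_reducible apply IntF.ite | with_reducible apply IntF.the | with_reducible apply IntF.irec | with_reducible apply IntF.succ | with_reducible apply IntF.val | with_reducible apply IntF.mk | (with_reducible refine Int.comp ?_ ?_; assumption) | (with_reducible refine Int.comp₂ ?_ ?_ ?_; assumption) | (with_reducible refine Int.comp₃ ?_ ?_ ?_ ?_; assumption) | (with_reducible refine Int.comp₄ ?_ ?_ ?_ ?_ ?_; assumption) | (with_reducible refine IntF.comp ?_ ?_; assumption) | (with_reducible refine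 IntF.comp₂ ?_ ?_ ?_; assumption) | (with_reducible refine IntF.comp₃ ?_ ?_ ?_ ?_; assumption) | with_reducible apply IntF.pair))

variable (h : Crd M K)

include h in
theorem Crd.iwo : IWO M K (fun a b => a < b) :=
  ⟨by (repeat' (first | with_reducible exact IntF.id | with_reducible exact IntF.fst' | with_reducible exact IntF.snd' | with_reducible exact IntF.const _ | with_reducible exact Int.const _ | assumption | with_reducible apply Int.and | with_reducible apply Int.or | with_reducible apply Int.not | with_reducible apply Int.imp | with_reducible apply Int.iff | with_reducible apply Int.ne | with_reducible apply Int.eq | with_reducible apply Int.mem | with_reducible apply Int.subset | with_reducible apply Int.ltN | with_reducible apply Int.leN | with_reducible_and_instances apply Int.le | with_reducible_and_instances apply Int.lt | with_reducible apply Int.all | with_reducible apply Int.ex | with_reducible apply IntF.fst | with_reducible apply IntF.snd | with_reducible apply IntF.app | with_reducible apply IntF.inl | with_reducible apply IntF.inr | with_reducible_and_instances apply IntF.mul | with_reducible_and_instances apply IntF.inv | with_reducible_and_instances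 apply IntF.add | with_reducible_and_instances apply IntF.sub | with_reducible_and_instances apply IntF.neg | with_reducible_and_instances apply IntF.smul | with_reducible apply Int.fin | with_reducible apply IntF.sep | with_reducible apply IntF.lam | with_reducible apply IntF.insert | with_reducible apply IntF.singleton | with_reducible apply IntF.union | with_reducible apply IntF.iimage | with_reducible apply IntF.ite | with_reducible apply IntF.the | with_reducible apply IntF.irec | with_reducible apply IntF.succ | with_reducible apply IntF.val | with_reducible apply IntF.mk | (with_reducible refine Int.comp ?_ ?_; assumption) | (with_reducible refine Int.comp₂ ?_ ?_ ?_; assumption) | (with_reducible refine Int.comp₃ ?_ ?_ ?_ ?_; assumption) | (with_reducible refine Int.comp₄ ?_ ?_ ?_ ?_ ?_; assumption) | (with_reducible refine IntF.comp ?_ ?_; assumption) | (with_reducible refine IntF.comp₂ ?_ ?_ ?_; assumption) | (with_reducible refine IntF.comp₃ ?_ ?_ ?_ ?_; assumption) | with_reducible apply IntF.pair)), fun a b => lt_trichotomy a b, h.wf⟩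

theorem Sml.subset {S T : IPow M γ} (hS : Sml K S) (hTS : ∀ x, x ∈ T → x ∈ S) : Sml K T := by
  obtain ⟨b, e, h1, h2⟩ := hS
  exact ⟨b, e, fun x hx => h1 x (hTS x hx), fun x y hx hy => h2 x y (hTS x hx) (hTS y hy)⟩

/-- Sets that inject into small sets are small. -/
theorem Sml.of_inj {S : IPow M γ} (hS : Sml K S) {T : IPow M δ} {f : δ → γ} (hf : IntF M f)
    (h1 : ∀ x, x ∈ T → f x ∈ S) (h2 : ∀ x y, x ∈ T → y ∈ T → f x = f y → x = y) : Sml K T := by
  obtain ⟨b, e, h3, h4⟩ := hS
  have he : IntF M (fun x => e (f x)) := by (repeat' (first | with_reducible exact IntF.id | with_reducible exact IntF.fst' | with_reducible exact IntF.snd' | with_reducible exact IntF.const _ | with_reducible exact Int.const _ | assumption | with_reducible apply Int.and | with_reducible apply Int.or | with_reducible apply Int.not | with_reducible apply Int.imp | with_reducible apply Int.iff | with_reducible apply Int.ne | with_reducible apply Int.eq | with_reducible apply Int.mem | with_reducible apply Int.subset | with_reducible apply Int.ltN | with_reducible apply Int.leN | with_reducible_and_instances apply Int.le | with_reducible_and_instances apply Int.lt | with_reducible apply Int.all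 | with_reducible apply Int.ex | with_reducible apply IntF.fst | with_reducible apply IntF.snd | with_reducible apply IntF.app | with_reducible apply IntF.inl | with_reducible apply IntF.inr | with_reducible_and_instances apply IntF.mul | with_reducible_and_instances apply IntF.inv | with_reducible_and_instances apply IntF.add | with_reducible_and_instances apply IntF.sub | with_reducible_and_instances apply IntF.neg | with_reducible_and_instances apply IntF.smul | with_reducible apply Int.fin | with_reducible apply IntF.sep | with_reducible apply IntF.lam | with_reducible apply IntF.insert | with_reducible apply IntF.singleton | with_reducible apply IntF.union | with_reducible apply IntF.iimage | with_reducible apply IntF.ite | with_reducible apply IntF.the | with_reducible apply IntF.irec | with_reducible apply IntF.succ | with_reducible apply IntF.val | with_reducible apply IntF.mk | (with_reducible refine Int.comp ?_ ?_; assumption) | (with_reducible refine Int.comp₂ ?_ ?_ ?_; assumption) | (with_reducible refine Int.comp₃ ?_ ?_ ?_ ?_; assumption) | (with_reducible refine Int.comp₄ ?_ ?_ ?_ ?_ ?_; assumption) | (with_reducible refine IntF.comp ?_ ?_; assumption) | (with_reducible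 refine IntF.comp₂ ?_ ?_ ?_; assumption) | (with_reducible refine IntF.comp₃ ?_ ?_ ?_ ?_; assumption) | with_reducible apply IntF.pair))
  exact ⟨b, ⟨_, he⟩, fun x hx => h3 _ (h1 x hx), fun x y hx hy hxy =>
    h2 x y hx hy (h4 _ _ (h1 x hx) (h1 y hy) hxy)⟩

include h in
theorem Crd.not_fin {w : K} {j : INat M → K} (hj : IntF M j) (hi : Function.Injective j)
    {A : K → Prop} (hA : Int M A) (hw : ∀ n, A (j n)) : ¬ IFin (sep M A) := by
  intro h1
  exact not_finP_nat (FinP.of_inj (Int.const _) hj (fun x y _ _ hxy => hi hxy)
    ((finP_iff hA).2 h1) fun n _ => hw n)

include h in
/-- Bounds whose square injects into them. -/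
theorem Crd.sqb (b b' : K) : ∃ c, b ≤ c ∧ b' ≤ c ∧ ∃ s : IFun M (K × K) K,
    (∀ x y, x < c → y < c → s (x, y) < c) ∧ (∀ x y x' y', x < c → y < c → x' < c → y' < c →
      s (x, y) = s (x', y') → x = x' ∧ y = y') ∧ ∃ c₀ c₁, c₀ < c ∧ c₁ < c ∧ c₀ ≠ c₁ := by
  obtain ⟨j, hj, hi, w, hw⟩ := h.om
  refine ⟨max (max b b') w, (le_max_left _ _).trans (le_max_left _ _),
    (le_max_right _ _).trans (le_max_left _ _), ?_⟩
  set c := max (max b b') w with hc
  have hjc : ∀ n, j n < c := fun n => (hw n).trans_le (le_max_right _ _)
  rcases sq_seg h.iwo c with h1 | ⟨e, h1, h2⟩
  · exact absurd h1 (h.not_fin (w := w) hj hi (by (repeat' (first | with_reducible exact IntF.id | with_reducible exact IntF.fst' | with_reducible exact IntF.snd' | with_reducible exact IntF.const _ | with_reducible exact Int.const _ | assumption | with_reducible apply Int.and | with_reducible apply Int.or | with_reducible apply Int.not | with_reducible apply Int.imp | with_reducible apply Int.iff | with_reducible apply Int.ne | with_reducible apply Int.eq | with_reducible apply Int.mem | with_reducible apply Int.subset | with_reducible apply Int.ltN | with_reducible apply Int.leN | with_reducible_and_instances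 apply Int.le | with_reducible_and_instances apply Int.lt | with_reducible apply Int.all | with_reducible apply Int.ex | with_reducible apply IntF.fst | with_reducible apply IntF.snd | with_reducible apply IntF.app | with_reducible apply IntF.inl | with_reducible apply IntF.inr | with_reducible_and_instances apply IntF.mul | with_reducible_and_instances apply IntF.inv | with_reducible_and_instances apply IntF.add | with_reducible_and_instances apply IntF.sub | with_reducible_and_instances apply IntF.neg | with_reducible_and_instances apply IntF.smul | with_reducible apply Int.fin | with_reducible apply IntF.sep | with_reducible apply IntF.lam | with_reducible apply IntF.insert | with_reducible apply IntF.singleton | with_reducible apply IntF.union | with_reducible apply IntF.iimage | with_reducible apply IntF.ite | with_reducible apply IntF.the | with_reducible apply IntF.irec | with_reducible apply IntF.succ | with_reducible apply IntF.val | with_reducible apply IntF.mk | (with_reducible refine Int.comp ?_ ?_; assumption) | (with_reducible refine Int.comp₂ ?_ ?_ ?_; assumption) | (with_reducible refine Int.comp₃ ?_ ?_ ?_ ?_; assumption) | (with_reducible refine Int.comp₄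 ?_ ?_ ?_ ?_ ?_; assumption) | (with_reducible refine IntF.comp ?_ ?_; assumption) | (with_reducible refine IntF.comp₂ ?_ ?_ ?_; assumption) | (with_reducible refine IntF.comp₃ ?_ ?_ ?_ ?_; assumption) | with_reducible apply IntF.pair))) hjc)
  · refine ⟨e, fun x y hx hy => h1 (x, y) hx hy, fun x y x' y' hx hy hx' hy' hxy => ?_,
      j 0, j 1, hjc 0, hjc 1, fun h3 => ?_⟩
    · exact Prod.mk.inj (h2 (x, y) (x', y') hx hy hx' hy' hxy)
    · exact INat.succ_ne_zero (0 : INat M) (hi h3).symm

include h in
theorem Sml.union {S T : IPow M γ} (hS : Sml K S) (hT : Sml K T) : Sml K (S ∪ T) := by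
  classical
  obtain ⟨b, e, h1, h2⟩ := hS
  obtain ⟨b', e', h1', h2'⟩ := hT
  obtain ⟨c, hb, hb', s, h3, h4, c₀, c₁, hc₀, hc₁, hc⟩ := h.sqb b b'
  have hf : IntF M (fun x : γ => if x ∈ S then s (e x, c₀) else s (e' x, c₁)) := by
    refine IntF.ite ?_ ?_ ?_ <;> (repeat' (first | with_reducible exact IntF.id | with_reducible exact IntF.fst' | with_reducible exact IntF.snd' | with_reducible exact IntF.const _ | with_reducible exact Int.const _ | assumption | with_reducible apply Int.and | with_reducible apply Int.or | with_reducible apply Int.not | with_reducible apply Int.imp | with_reducible apply Int.iff | with_reducible apply Int.ne | with_reducible apply Int.eq | with_reducible apply Int.mem | with_reducible apply Int.subset | with_reducible apply Int.ltN | with_reducible apply Int.leN | with_reducible_and_instances apply Int.le | with_reducible_and_instances apply Int.lt | with_reducible apply Int.all | with_reducible apply Int.ex | with_reducible apply IntF.fst | with_reducible apply IntF.snd | with_reducible apply IntF.app | with_reducible apply IntF.inl | with_reducible apply IntF.inr | with_reducible_and_instances apply IntF.mul | with_reducible_and_instances apply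 IntF.inv | with_reducible_and_instances apply IntF.add | with_reducible_and_instances apply IntF.sub | with_reducible_and_instances apply IntF.neg | with_reducible_and_instances apply IntF.smul | with_reducible apply Int.fin | with_reducible apply IntF.sep | with_reducible apply IntF.lam | with_reducible apply IntF.insert | with_reducible apply IntF.singleton | with_reducible apply IntF.union | with_reducible apply IntF.iimage | with_reducible apply IntF.ite | with_reducible apply IntF.the | with_reducible apply IntF.irec | with_reducible apply IntF.succ | with_reducible apply IntF.val | with_reducible apply IntF.mk | (with_reducible refine Int.comp ?_ ?_; assumption) | (with_reducible refine Int.comp₂ ?_ ?_ ?_; assumption) | (with_reducible refine Int.comp₃ ?_ ?_ ?_ ?_; assumption) | (with_reducible refine Int.comp₄ ?_ ?_ ?_ ?_ ?_; assumption) | (with_reducible refine IntF.comp ?_ ?_; assumption) | (with_reducible refine IntF.comp₂ ?_ ?_ ?_; assumption) | (with_reducible refine IntF.comp₃ ?_ ?_ ?_ ?_; assumption) | with_reducible apply IntF.pair))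
  refine ⟨c, ⟨_, hf⟩, fun x hx => ?_, fun x y hx hy hxy => ?_⟩
  · change (if x ∈ S then s (e x, c₀) else s (e' x, c₁)) < c
    split_ifs with h5
    · exact h3 _ _ ((h1 x h5).trans_le hb) hc₀
    · exact h3 _ _ ((h1' x ((mem_union.1 hx).resolve_left h5)).trans_le hb') hc₁
  · change (if x ∈ S then s (e x, c₀) else s (e' x, c₁)) =
      (if y ∈ S then s (e y, c₀) else s (e' y, c₁)) at hxy
    have g : ∀ x, x ∈ S → e x < c := fun x hx => (h1 x hx).trans_le hb
    have g' : ∀ x, x ∈ S ∪ T → ¬ x ∈ S → e' x < c := fun x hx hx' =>
      (h1' x ((mem_union.1 hx).resolve_left hx')).trans_le hb'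
    split_ifs at hxy with h5 h6 h6
    · exact h2 x y h5 h6 (h4 _ _ _ _ (g x h5) hc₀ (g y h6) hc₀ hxy).1
    · exact absurd (h4 _ _ _ _ (g x h5) hc₀ (g' y hy h6) hc₁ hxy).2 hc
    · exact absurd (h4 _ _ _ _ (g' x hx h5) hc₁ (g y h6) hc₀ hxy).2.symm hc
    · exact h2' x y ((mem_union.1 hx).resolve_left h5) ((mem_union.1 hy).resolve_left h6)
        (h4 _ _ _ _ (g' x hx h5) hc₁ (g' y hy h6) hc₁ hxy).1

include h in
theorem Sml.prod {S : IPow M γ} {T : IPow M δ} (hS : Sml K S) (hT : Sml K T) :
    Sml K (iprod S T) := by
  obtain ⟨b, e, h1, h2⟩ := hS
  obtain ⟨b', e', h1', h2'⟩ := hT
  obtain ⟨c, hb, hb', s, h3, h4, -⟩ := h.sqb b b'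
  have hf : IntF M (fun q : γ × δ => s (e q.1, e' q.2)) := by (repeat' (first | with_reducible exact IntF.id | with_reducible exact IntF.fst' | with_reducible exact IntF.snd' | with_reducible exact IntF.const _ | with_reducible exact Int.const _ | assumption | with_reducible apply Int.and | with_reducible apply Int.or | with_reducible apply Int.not | with_reducible apply Int.imp | with_reducible apply Int.iff | with_reducible apply Int.ne | with_reducible apply Int.eq | with_reducible apply Int.mem | with_reducible apply Int.subset | with_reducible apply Int.ltN | with_reducible apply Int.leN | with_reducible_and_instances apply Int.le | with_reducible_and_instances apply Int.lt | with_reducible apply Int.all | with_reducible apply Int.ex | with_reducible apply IntF.fst | with_reducible apply IntF.snd | with_reducible apply IntF.app | with_reducible apply IntF.inl | with_reducible apply IntF.inr | with_reducible_and_instances apply IntF.mul | with_reducible_and_instances apply IntF.inv | with_reducible_and_instances apply IntF.add | with_reducible_and_instances apply IntF.sub | with_reducible_and_instances apply IntF.neg | with_reducible_and_instances apply IntF.smul |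 with_reducible apply Int.fin | with_reducible apply IntF.sep | with_reducible apply IntF.lam | with_reducible apply IntF.insert | with_reducible apply IntF.singleton | with_reducible apply IntF.union | with_reducible apply IntF.iimage | with_reducible apply IntF.ite | with_reducible apply IntF.the | with_reducible apply IntF.irec | with_reducible apply IntF.succ | with_reducible apply IntF.val | with_reducible apply IntF.mk | (with_reducible refine Int.comp ?_ ?_; assumption) | (with_reducible refine Int.comp₂ ?_ ?_ ?_; assumption) | (with_reducible refine Int.comp₃ ?_ ?_ ?_ ?_; assumption) | (with_reducible refine Int.comp₄ ?_ ?_ ?_ ?_ ?_; assumption) | (with_reducible refine IntF.comp ?_ ?_; assumption) | (with_reducible refine IntF.comp₂ ?_ ?_ ?_; assumption) | (with_reducible refine IntF.comp₃ ?_ ?_ ?_ ?_; assumption) | with_reducible apply IntF.pair))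
  refine ⟨c, ⟨_, hf⟩, fun x hx => ?_, fun x y hx hy hxy => ?_⟩
  · rw [mem_iprod] at hx
    exact h3 _ _ ((h1 _ hx.1).trans_le hb) ((h1' _ hx.2).trans_le hb')
  · rw [mem_iprod] at hx hy
    obtain ⟨h5, h6⟩ := h4 _ _ _ _ ((h1 _ hx.1).trans_le hb) ((h1' _ hx.2).trans_le hb')
      ((h1 _ hy.1).trans_le hb) ((h1' _ hy.2).trans_le hb') hxy
    exact Prod.ext (h2 _ _ hx.1 hy.1 h5) (h2' _ _ hx.2 hy.2 h6)

include h in
/-- Images of small sets. -/
theorem Sml.image {S : IPow M γ} (hS : Sml K S) {f : γ → δ} (hf : IntF M f) :
    Sml K (iimage f S) := by
  obtain ⟨b, e, h1, h2⟩ := hS
  obtain ⟨g, hg, h3⟩ := exists_lf h.iwo (γ := δ) (r := fun y k => ∃ x, x ∈ S ∧ f x = y ∧ e x = k)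
    (by (repeat' (first | with_reducible exact IntF.id | with_reducible exact IntF.fst' | with_reducible exact IntF.snd' | with_reducible exact IntF.const _ | with_reducible exact Int.const _ | assumption | with_reducible apply Int.and | with_reducible apply Int.or | with_reducible apply Int.not | with_reducible apply Int.imp | with_reducible apply Int.iff | with_reducible apply Int.ne | with_reducible apply Int.eq | with_reducible apply Int.mem | with_reducible apply Int.subset | with_reducible apply Int.ltN | with_reducible apply Int.leN | with_reducible_and_instances apply Int.le | with_reducible_and_instances apply Int.lt | with_reducible apply Int.all | with_reducible apply Int.ex | with_reducible apply IntF.fst | with_reducible apply IntF.snd | with_reducible apply IntF.app | with_reducible apply IntF.inl | with_reducible apply IntF.inr | with_reducible_and_instances apply IntF.mul | with_reducible_and_instances apply IntF.inv | with_reducible_and_instances apply IntF.add | with_reducible_and_instances apply IntF.sub | with_reducible_and_instances apply IntF.neg | with_reducible_and_instances apply IntF.smul | with_reducible apply Int.fin | with_reducible apply IntF.sep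 | with_reducible apply IntF.lam | with_reducible apply IntF.insert | with_reducible apply IntF.singleton | with_reducible apply IntF.union | with_reducible apply IntF.iimage | with_reducible apply IntF.ite | with_reducible apply IntF.the | with_reducible apply IntF.irec | with_reducible apply IntF.succ | with_reducible apply IntF.val | with_reducible apply IntF.mk | (with_reducible refine Int.comp ?_ ?_; assumption) | (with_reducible refine Int.comp₂ ?_ ?_ ?_; assumption) | (with_reducible refine Int.comp₃ ?_ ?_ ?_ ?_; assumption) | (with_reducible refine Int.comp₄ ?_ ?_ ?_ ?_ ?_; assumption) | (with_reducible refine IntF.comp ?_ ?_; assumption) | (with_reducible refine IntF.comp₂ ?_ ?_ ?_; assumption) | (with_reducible refine IntF.comp₃ ?_ ?_ ?_ ?_; assumption) | with_reducible apply IntF.pair))) b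
  have h4 : ∀ y, y ∈ iimage f S → ∃ x, x ∈ S ∧ f x = y ∧ e x = g y := by
    intro y hy
    obtain ⟨x, hx, rfl⟩ := (mem_iimage hf).1 hy
    exact (h3 (f x) ⟨e x, x, hx, rfl, rfl⟩).1
  refine ⟨b, ⟨g, hg⟩, fun y hy => ?_, fun y y' hy hy' hyy => ?_⟩
  · obtain ⟨x, hx, -, h5⟩ := h4 y hy
    change g y < b
    rw [← h5]
    exact h1 x hx
  · change g y = g y' at hyy
    obtain ⟨x, hx, rfl, h5⟩ := h4 y hy
    obtain ⟨x', hx', rfl, h5'⟩ := h4 _ hy'
    rw [h2 x x' hx hx' (h5.trans (hyy.trans h5'.symm))]

/-- Initial segments are small. -/
theorem Sml.seg (b : K) : Sml K (sep M fun x : K => x < b) := by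
  have hI : Int M (fun x : K => x < b) := by (repeat' (first | with_reducible exact IntF.id | with_reducible exact IntF.fst' | with_reducible exact IntF.snd' | with_reducible exact IntF.const _ | with_reducible exact Int.const _ | assumption | with_reducible apply Int.and | with_reducible apply Int.or | with_reducible apply Int.not | with_reducible apply Int.imp | with_reducible apply Int.iff | with_reducible apply Int.ne | with_reducible apply Int.eq | with_reducible apply Int.mem | with_reducible apply Int.subset | with_reducible apply Int.ltN | with_reducible apply Int.leN | with_reducible_and_instances apply Int.le | with_reducible_and_instances apply Int.lt | with_reducible apply Int.all | with_reducible apply Int.ex | with_reducible apply IntF.fst | with_reducible apply IntF.snd | with_reducible apply IntF.app | with_reducible apply IntF.inl | with_reducible apply IntF.inr | with_reducible_and_instances apply IntF.mul | with_reducible_and_instances apply IntF.inv | with_reducible_and_instances apply IntF.add | with_reducible_and_instances apply IntF.sub | with_reducible_and_instances apply IntF.neg | with_reducible_and_instances apply IntF.smul | with_reducible apply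 Int.fin | with_reducible apply IntF.sep | with_reducible apply IntF.lam | with_reducible apply IntF.insert | with_reducible apply IntF.singleton | with_reducible apply IntF.union | with_reducible apply IntF.iimage | with_reducible apply IntF.ite | with_reducible apply IntF.the | with_reducible apply IntF.irec | with_reducible apply IntF.succ | with_reducible apply IntF.val | with_reducible apply IntF.mk | (with_reducible refine Int.comp ?_ ?_; assumption) | (with_reducible refine Int.comp₂ ?_ ?_ ?_; assumption) | (with_reducible refine Int.comp₃ ?_ ?_ ?_ ?_; assumption) | (with_reducible refine Int.comp₄ ?_ ?_ ?_ ?_ ?_; assumption) | (with_reducible refine IntF.comp ?_ ?_; assumption) | (with_reducible refine IntF.comp₂ ?_ ?_ ?_; assumption) | (with_reducible refine IntF.comp₃ ?_ ?_ ?_ ?_; assumption) | with_reducible apply IntF.pair))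
  exact ⟨b, ⟨fun x => x, IntF.id⟩, fun x hx => (mem_sep hI).1 hx, fun x y _ _ hxy => hxy⟩

include h in
/-- A small set does not map onto `K`. -/
theorem Sml.not_onto {S : IPow M γ} (hS : Sml K S) {f : γ → K} (hf : IntF M f) :
    ∃ z, ∀ x, x ∈ S → f x ≠ z := by
  by_contra hcon
  push Not at hcon
  obtain ⟨b, e, h1, h2⟩ := hS.image h hf
  have hm : ∀ x, x ∈ iimage f S := by
    intro x
    obtain ⟨z, hz, h3⟩ := hcon x
    exact (mem_iimage hf).2 ⟨z, hz, h3⟩
  exact h.init b ⟨fun z => e z, e.int, fun x y hxy => h2 x y (hm x) (hm y) hxy, fun x =>
    h1 x (hm x)⟩

include h in
theorem Crd.nomax (a : K) : ∃ b, a < b := by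
  by_contra hcon
  push Not at hcon
  -- `K` is small
  have h1 : Sml K (sep M fun x : K => x < a) := Sml.seg a
  have h2 : Sml K ({a} : IPow M K) := by
    obtain ⟨j, hj, hi, w, hw⟩ := h.om
    exact ⟨w, ⟨fun _ => j 0, IntF.const _⟩, fun _ _ => hw 0, fun x y hx hy _ => by
      rw [mem_singleton] at hx hy
      rw [hx, hy]⟩
  obtain ⟨z, hz⟩ := (h1.union h h2).not_onto h IntF.id
  refine hz z ?_ rfl
  rw [mem_union, mem_sep (by (repeat' (first | with_reducible exact IntF.id | with_reducible exact IntF.fst' | with_reducible exact IntF.snd' | with_reducible exact IntF.const _ | with_reducible exact Int.const _ | assumption | with_reducible apply Int.and | with_reducible apply Int.or | with_reducible apply Int.not | with_reducible apply Int.imp | with_reducible apply Int.iff | with_reducible apply Int.ne | with_reducible apply Int.eq | with_reducible apply Int.mem | with_reducible apply Int.subset | with_reducible apply Int.ltN | with_reducible apply Int.leN | with_reducible_and_instances apply Int.le | with_reducible_and_instances apply Int.lt | with_reducible apply Int.all | with_reducible apply Int.ex | with_reducible apply IntF.fst | with_reducible apply IntF.snd | with_reducible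 apply IntF.app | with_reducible apply IntF.inl | with_reducible apply IntF.inr | with_reducible_and_instances apply IntF.mul | with_reducible_and_instances apply IntF.inv | with_reducible_and_instances apply IntF.add | with_reducible_and_instances apply IntF.sub | with_reducible_and_instances apply IntF.neg | with_reducible_and_instances apply IntF.smul | with_reducible apply Int.fin | with_reducible apply IntF.sep | with_reducible apply IntF.lam | with_reducible apply IntF.insert | with_reducible apply IntF.singleton | with_reducible apply IntF.union | with_reducible apply IntF.iimage | with_reducible apply IntF.ite | with_reducible apply IntF.the | with_reducible apply IntF.irec | with_reducible apply IntF.succ | with_reducible apply IntF.val | with_reducible apply IntF.mk | (with_reducible refine Int.comp ?_ ?_; assumption) | (with_reducible refine Int.comp₂ ?_ ?_ ?_; assumption) | (with_reducible refine Int.comp₃ ?_ ?_ ?_ ?_; assumption) | (with_reducible refine Int.comp₄ ?_ ?_ ?_ ?_ ?_; assumption) | (with_reducible refine IntF.comp ?_ ?_; assumption) | (with_reducible refine IntF.comp₂ ?_ ?_ ?_; assumption) | (with_reducible refine IntF.comp₃ ?_ ?_ ?_ ?_; assumption)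 | with_reducible apply IntF.pair))), mem_singleton]
  exact (hcon z).lt_or_eq

include h in
theorem Sml.singleton (x : γ) : Sml K ({x} : IPow M γ) := by
  obtain ⟨j, hj, hi, w, hw⟩ := h.om
  exact ⟨w, ⟨fun _ => j 0, IntF.const _⟩, fun _ _ => hw 0, fun x y hx hy _ => by
    rw [mem_singleton] at hx hy
    rw [hx, hy]⟩

include h in
theorem Sml.empty : Sml K (∅ : IPow M γ) := by
  obtain ⟨j, hj, hi, w, hw⟩ := h.om
  exact ⟨w, ⟨fun _ => j 0, IntF.const _⟩, fun _ _ => hw 0, fun x y hx hy _ => by
    simp at hx⟩

include h in
/-- The square of `K` injects into it. -/
theorem Crd.sq : ∃ s : K × K → K, IntF M s ∧ Function.Injective s := by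
  obtain ⟨j, hj, hi, w, hw⟩ := h.om
  exact exists_sq h.iwo (h.not_fin (w := w) hj hi (Int.const _) fun _ => trivial)

include h in
/-- Maps with unbounded fibres. -/
theorem Crd.fib {Y : Type u} [ITy M Y] {j : Y → K} (hj : IntF M j) (hi : Function.Injective j)
    (y₀ : Y) : ∃ f : K → Y, IntF M f ∧ ∀ y a, ∃ b, a < b ∧ f b = y := by
  obtain ⟨s, hs, hsi⟩ := h.sq
  have hf : IntF M (fun z : K => the (fun y : Y => ∃ x, s (j y, x) = z) y₀) := by (repeat' (first | with_reducible exact IntF.id | with_reducible exact IntF.fst' | with_reducible exact IntF.snd' | with_reducible exact IntF.const _ | with_reducible exact Int.const _ | assumption | with_reducible apply Int.and | with_reducible apply Int.or | with_reducible apply Int.not | with_reducible apply Int.imp | with_reducible apply Int.iff | with_reducible apply Int.ne | with_reducible apply Int.eq | with_reducible apply Int.mem | with_reducible apply Int.subset | with_reducible apply Int.ltN | with_reducible apply Int.leN | with_reducible_and_instances apply Int.le | with_reducible_and_instances apply Int.lt | with_reducible apply Int.all | with_reducible apply Int.ex | with_reducible apply IntF.fst | with_reducible apply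 IntF.snd | with_reducible apply IntF.app | with_reducible apply IntF.inl | with_reducible apply IntF.inr | with_reducible_and_instances apply IntF.mul | with_reducible_and_instances apply IntF.inv | with_reducible_and_instances apply IntF.add | with_reducible_and_instances apply IntF.sub | with_reducible_and_instances apply IntF.neg | with_reducible_and_instances apply IntF.smul | with_reducible apply Int.fin | with_reducible apply IntF.sep | with_reducible apply IntF.lam | with_reducible apply IntF.insert | with_reducible apply IntF.singleton | with_reducible apply IntF.union | with_reducible apply IntF.iimage | with_reducible apply IntF.ite | with_reducible apply IntF.the | with_reducible apply IntF.irec | with_reducible apply IntF.succ | with_reducible apply IntF.val | with_reducible apply IntF.mk | (with_reducible refine Int.comp ?_ ?_; assumption) | (with_reducible refine Int.comp₂ ?_ ?_ ?_; assumption) | (with_reducible refine Int.comp₃ ?_ ?_ ?_ ?_; assumption) | (with_reducible refine Int.comp₄ ?_ ?_ ?_ ?_ ?_; assumption) | (with_reducible refine IntF.comp ?_ ?_; assumption) | (with_reducible refine IntF.comp₂ ?_ ?_ ?_; assumption) | (with_reducible refine IntF.comp₃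 ?_ ?_ ?_ ?_; assumption) | with_reducible apply IntF.pair))
  refine ⟨_, hf, fun y a => ?_⟩
  by_contra hcon
  push Not at hcon
  have hv : ∀ x, the (fun y' : Y => ∃ x', s (j y', x') = s (j y, x)) y₀ = y := by
    intro x
    refine the_eq ⟨y, ⟨x, rfl⟩, ?_⟩ ⟨x, rfl⟩
    rintro y' ⟨x', h1⟩
    exact hi (Prod.mk.inj (hsi h1)).1
  obtain ⟨b, hb⟩ := h.nomax a
  have hg : IntF M (fun x : K => s (j y, x)) := by (repeat' (first | with_reducible exact IntF.id | with_reducible exact IntF.fst' | with_reducible exact IntF.snd' | with_reducible exact IntF.const _ | with_reducible exact Int.const _ | assumption | with_reducible apply Int.and | with_reducible apply Int.or | with_reducible apply Int.not | with_reducible apply Int.imp | with_reducible apply Int.iff | with_reducible apply Int.ne | with_reducible apply Int.eq | with_reducible apply Int.mem | with_reducible apply Int.subset | with_reducible apply Int.ltN | with_reducible apply Int.leN | with_reducible_and_instances apply Int.le | with_reducible_and_instances apply Int.lt | with_reducible apply Int.all | with_reducible apply Int.ex | with_reducible apply IntF.fst | with_reducible apply IntF.snd | with_reducible apply IntF.app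 | with_reducible apply IntF.inl | with_reducible apply IntF.inr | with_reducible_and_instances apply IntF.mul | with_reducible_and_instances apply IntF.inv | with_reducible_and_instances apply IntF.add | with_reducible_and_instances apply IntF.sub | with_reducible_and_instances apply IntF.neg | with_reducible_and_instances apply IntF.smul | with_reducible apply Int.fin | with_reducible apply IntF.sep | with_reducible apply IntF.lam | with_reducible apply IntF.insert | with_reducible apply IntF.singleton | with_reducible apply IntF.union | with_reducible apply IntF.iimage | with_reducible apply IntF.ite | with_reducible apply IntF.the | with_reducible apply IntF.irec | with_reducible apply IntF.succ | with_reducible apply IntF.val | with_reducible apply IntF.mk | (with_reducible refine Int.comp ?_ ?_; assumption) | (with_reducible refine Int.comp₂ ?_ ?_ ?_; assumption) | (with_reducible refine Int.comp₃ ?_ ?_ ?_ ?_; assumption) | (with_reducible refine Int.comp₄ ?_ ?_ ?_ ?_ ?_; assumption) | (with_reducible refine IntF.comp ?_ ?_; assumption) | (with_reducible refine IntF.comp₂ ?_ ?_ ?_; assumption) | (with_reducible refine IntF.comp₃ ?_ ?_ ?_ ?_; assumption) | with_reducible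 apply IntF.pair))
  refine h.init b ⟨_, hg, fun x x' hxx => (Prod.mk.inj (hsi hxx)).2, fun x => ?_⟩
  by_contra h1
  exact hcon (s (j y, x)) (hb.trans_le (not_lt.1 h1)) (hv x)

end

end Pool.Agent.Helper672.ZFA.V246
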