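import Pool.Agent.V11246.Sm

/-!
# There are no disjoint families of sets, conclusion
-/

set_option maxHeartbeats 1000000
set_option linter.all false
set_option synthInstance.maxSize 2000

namespace Pool.Agent.Helper672.ZFA.V246S

open FirstOrder FirstOrder.Language
open Pool.Agent.Helper672.ZFA.H635 (IPerm SymSys IsGen NN EqFam nm nmN CollL nm_fam nm_inj exists_T'
  exists_TM exists_node IsSupp exists_supp)
open Pool.Agent.Helper672.ZFA.V246 (Ctb)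
open Pool.Agent.Helper672.ZFA.V246K (Std)
open Pool.Agent.H310

universe u

variable {M : Type u} [L.Structure M] [hM : IsModel M]
variable {G : Set (Cd M)} (hG : IsGen M G)

theorem thm_B (hs : Std M) (z : NN (Ss M) hG)
    (h1 : ∀ i : INat M, ∃ Z, Plain.Mem (ZFA.op (nm (Ss M) hG i) Z) z ∧
      ∀ F : IPow M (INat M), IFin F → ∃ t, ¬ t ∈ F ∧ Plain.Mem (xg hG t) Z)
    (h2 : ∀ (i j : INat M) Z Z', i ≠ j → Plain.Mem (ZFA.op (nm (Ss M) hG i) Z) z →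
      Plain.Mem (ZFA.op (nm (Ss M) hG j) Z') z → ∃ F : IPow M (INat M), IFin F ∧
        ∀ t, Plain.Mem (xg hG t) Z → Plain.Mem (xg hG t) Z' → t ∈ F) : False := by
  obtain ⟨l, hl⟩ := exists_supp hG z
  choose Z hZ1 hZ2 using h1
  have h3 := fun i => lem_S hG (Z i) l
  choose F hF1 hF2 using h3
  choose t ht1 ht2 using fun i => hZ2 i (F i) (hF1 i)
  choose c c' k1 k2 k3 k4 F' k5 k6 using fun i => hF2 i (t i) (ht1 i) (ht2 i)
  -- the pigeonhole principle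
  have hfin : Set.Finite {e : Cx M | e ∈ l.1} := ext_finite hs l.2
  have hinf := inf_nat (M := M)
  obtain ⟨i, -, j, -, hij, heq⟩ := Set.Infinite.exists_ne_map_eq_of_mapsTo
    (f := fun i : INat M => (({e : Cx M | e ∈ l.1 ∧ In G ((true, false), t i) e},
      {e : Cx M | e ∈ l.1 ∧ In G ((true, true), t i) e}) : Set (Cx M) × Set (Cx M)))
    (t := (𝒫 {e : Cx M | e ∈ l.1}) ×ˢ (𝒫 {e : Cx M | e ∈ l.1})) Set.infinite_univ
    (fun i _ => ⟨fun e he => he.1, fun e he => he.1⟩) (hfin.powerset.prod hfin.powerset)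
  have he1 : ∀ e, e ∈ l.1 → (In G ((true, false), t i) e ↔ In G ((true, false), t j) e) := by
    intro e he
    have h4 : {e : Cx M | e ∈ l.1 ∧ In G ((true, false), t i) e} =
      {e : Cx M | e ∈ l.1 ∧ In G ((true, false), t j) e} := congrArg Prod.fst heq
    constructor
    · intro h5
      have h6 : e ∈ {e : Cx M | e ∈ l.1 ∧ In G ((true, false), t i) e} := ⟨he, h5⟩
      rw [h4] at h6
      exact h6.2
    · intro h5
      have h6 : e ∈ {e : Cx M | e ∈ l.1 ∧ In G ((true, false), t j) e} := ⟨he, h5⟩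
      rw [← h4] at h6
      exact h6.2
  have he2 : ∀ e, e ∈ l.1 → (In G ((true, true), t i) e ↔ In G ((true, true), t j) e) := by
    intro e he
    have h4 : {e : Cx M | e ∈ l.1 ∧ In G ((true, true), t i) e} =
      {e : Cx M | e ∈ l.1 ∧ In G ((true, true), t j) e} := congrArg Prod.snd heq
    constructor
    · intro h5
      have h6 : e ∈ {e : Cx M | e ∈ l.1 ∧ In G ((true, true), t i) e} := ⟨he, h5⟩
      rw [h4] at h6
      exact h6.2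
    · intro h5
      have h6 : e ∈ {e : Cx M | e ∈ l.1 ∧ In G ((true, true), t j) e} := ⟨he, h5⟩
      rw [← h4] at h6
      exact h6.2
  have hom0 : ∀ e, e ∈ l.1 → ((∀ x, x ∈ c i → ((Sum.inl false, x) : Xx M) ∈ e.1) ∧
      ∀ x, x ∈ c j → ((Sum.inl false, x) : Xx M) ∈ e.1) ∨
      ((∀ x, x ∈ c i → ¬ ((Sum.inl false, x) : Xx M) ∈ e.1) ∧
      ∀ x, x ∈ c j → ¬ ((Sum.inl false, x) : Xx M) ∈ e.1) := by
    intro e he
    rcases k3 i e he with ⟨h4, h5⟩ | ⟨h4, h5⟩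
    · rcases k3 j e he with ⟨h6, h7⟩ | ⟨h6, h7⟩
      · exact Or.inl ⟨h5, h7⟩
      · exact absurd ((he1 e he).1 h4) h6
    · rcases k3 j e he with ⟨h6, h7⟩ | ⟨h6, h7⟩
      · exact absurd ((he1 e he).2 h6) h4
      · exact Or.inr ⟨h5, h7⟩
  have hom1 : ∀ e, e ∈ l.1 → ((∀ x, x ∈ c' i → ((Sum.inl true, x) : Xx M) ∈ e.1) ∧
      ∀ x, x ∈ c' j → ((Sum.inl true, x) : Xx M) ∈ e.1) ∨
      ((∀ x, x ∈ c' i → ¬ ((Sum.inl true, x) : Xx M) ∈ e.1) ∧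
      ∀ x, x ∈ c' j → ¬ ((Sum.inl true, x) : Xx M) ∈ e.1) := by
    intro e he
    rcases k4 i e he with ⟨h4, h5⟩ | ⟨h4, h5⟩
    · rcases k4 j e he with ⟨h6, h7⟩ | ⟨h6, h7⟩
      · exact Or.inl ⟨h5, h7⟩
      · exact absurd ((he2 e he).1 h4) h6
    · rcases k4 j e he with ⟨h6, h7⟩ | ⟨h6, h7⟩
      · exact absurd ((he2 e he).2 h6) h4
      · exact Or.inr ⟨h5, h7⟩
  obtain ⟨f0, g0, hf0, hg0, f0i, g0i, hfg0⟩ := exists_disj (k1 i) (k1 j)
  obtain ⟨f1, g1, hf1, hg1, f1i, g1i, hfg1⟩ := exists_disj (k2 i) (k2 j)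
  -- the orbit of the first set
  obtain ⟨nd, hnd, hnd1⟩ := exists_node hG (Z i)
  have hfam : EqFam hG (fun (σ : Gp M) (g : Gp M) => σ * g)
      (fun g => ZFA.op (nm (Ss M) hG i) (nd g)) := by
    refine EqFam.op (fun π b => inv_mul_cancel_left π b) ?_ hnd
    exact EqFam.comp (nm_fam (S := Ss M) hG) (φ := fun _ : Gp M => i) (IntF.const _)
      fun _ _ => rfl
  obtain ⟨T1, hT1I, hT1m, hT1d, hT1f, hT1e⟩ := hl _ _ _ _ hfam
  obtain ⟨T2, hT2I, hT2m, hT2d, hT2f, hT2e⟩ := exists_TM hG (xg_fam hG) hnd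
  obtain ⟨pa, hpa, hpa'⟩ := (hT1f 1).1 (by rw [hnd1]; exact hZ1 i)
  obtain ⟨pb, hpb, hpb'⟩ : ∃ p, p ∈ G ∧ ∀ q, q ≤ p → ∀ u, ¬ u ∈ F' i →
      At q ((true, false), u) (eu (c i)) → At q ((true, true), u) (eu (c' i)) → T2 u 1 q := by
    have hI : Int M (fun q : (Cd M × INat M) × Cd M => T2 q.1.2 1 q.2) :=
      Int.comp (f := fun q : (Cd M × INat M) × Cd M => ((q.1.2, (1 : Gp M)), q.2)) hT2I
        (IntF.pair (IntF.pair (IntF.snd IntF.fst') (IntF.const _)) IntF.snd')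
    rcases gen_dich hG (s := fun p => ∃ u, ¬ u ∈ F' i ∧ At p ((true, false), u) (eu (c i)) ∧
      At p ((true, true), u) (eu (c' i)) ∧ ∀ q, q ≤ p → ¬ T2 u 1 q)
      (Int.ex (Int.and (Int.not (Int.mem IntF.snd' (IntF.const _))) (Int.and
        (int_At3 IntF.fst' (IntF.pair (IntF.const _) IntF.snd') (IntF.const _))
        (Int.and (int_At3 IntF.fst' (IntF.pair (IntF.const _) IntF.snd') (IntF.const _))
          (Int.all (Int.imp (Int.le IntF.snd' (IntF.fst IntF.fst')) (Int.not hI))))))) with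
      ⟨p, hp, u, e1, e2, e3, e4⟩ | ⟨p, hp, e⟩
    · exfalso
      have h4 := k6 i u e1 ⟨p, hp, e2⟩ ⟨p, hp, e3⟩
      rw [← hnd1] at h4
      obtain ⟨p', hp', e5⟩ := (hT2f u 1).1 h4
      obtain ⟨r, hr, e6, e7⟩ := hG.dir p p' hp hp'
      exact e4 r e6 (hT2m _ _ _ _ e5 e7)
    · refine ⟨p, hp, fun q hq u e1 e2 e3 => hT2d _ _ _ fun q' hq' => ?_⟩
      by_contra hcon
      push Not at hcon
      exact e q' (hq'.trans hq) ⟨u, e1, e2.mono hq', e3.mono hq', fun q'' h'' hT => hcon q'' h'' hT⟩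
  obtain ⟨p0, hp0, l1, l2⟩ := hG.dir pa pb hpa hpb
  obtain ⟨p2, hp2, l3, b, hb⟩ := hG.dense_below (int_Av f0 g0 f1 g1) hp0
    fun p' _ => exists_Av f0i g0i f1i g1i p'
  obtain ⟨ρ, S, w0, w1, r1, r2, r3, r4, r5, r6, r7, r8, r9, r10⟩ :=
    core_B (l := l) hom0 hom1 hf0 hg0 hfg0 hf1 hg1 hfg1 hb
  -- the moved set
  have h4 : T1 ρ p2 := by
    have h5 := hT1e ρ r2 1 p2 (hT1m _ _ _ hpa' (l3.trans l1))
    rw [mul_one] at h5
    exact hT1m _ _ _ h5 r3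
  have h5 : Plain.Mem (ZFA.op (nm (Ss M) hG i) (nd ρ)) z := (hT1f ρ).2 ⟨p2, hp2, h4⟩
  obtain ⟨W, hW1, hW2⟩ := h2 i j (nd ρ) (Z j) hij h5 (hZ1 j)
  have hle : ρ⁻¹ • p2 ≤ p2 := by
    have h6 := smul_le' ρ⁻¹ r3
    rwa [inv_smul_smul] at h6
  have q1 : FinP M (fun u => u ∈ W) := ⟨W, hW1, fun _ h => h⟩
  have q2 : FinP M (fun u => u ∈ F' i) := ⟨F' i, k5 i, fun _ h => h⟩
  have q3 : FinP M (fun u => u ∈ F' j) := ⟨F' j, k5 j, fun _ h => h⟩
  obtain ⟨u, q, h6, hq, h7, h8, h9⟩ := exists_ntd hG (S := fun u => (u ∈ W ∨ u ∈ F' i) ∨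
    u ∈ F' j ∨ S u) ((q1.or q2).or (q3.or r1)) r5 r6 hp2
  push Not at h6
  obtain ⟨⟨n1, n2⟩, n3, n4⟩ := h6
  refine n1 (hW2 u ?_ ?_)
  · refine (hT2f u ρ).2 ⟨q, hq, ?_⟩
    have h10 : T2 u 1 (ρ⁻¹ • q) := by
      refine hpb' _ ?_ u n2 (r9 q u n4 h8) (r10 q u h9)
      exact (smul_le' ρ⁻¹ h7).trans (hle.trans (l3.trans l2))
    have h11 := hT2e ρ u 1 _ h10
    rw [smul_inv_smul, mul_one, r4] at h11
    exact h11
  · refine k6 j u n3 ⟨q, hq, h8.sub fun z _ hz => ?_⟩ ⟨q, hq, h9.sub fun z _ hz => ?_⟩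
    · rw [mem_eu] at hz ⊢
      exact r7 _ hz
    · rw [mem_eu] at hz ⊢
      exact r8 _ hz

end Pool.Agent.Helper672.ZFA.V246S
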