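import Pool.Agent.V11246.Se

/-!
# Spaces with a discrete dense subset
-/

set_option maxHeartbeats 1000000
set_option linter.all false
set_option synthInstance.maxSize 2000

namespace Pool.Agent.Helper672.ZFA.V246S

open FirstOrder FirstOrder.Language
open Pool.Agent.H310

universe u

section

variable {N : Type u} [L.Structure N] [hN : IsModel N] {δ : Type u} [ITy N δ]

/-- The data of the space. -/
structure Kz (B : IPow N (INat N) → IPow N δ → Prop) : Prop where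
  int : Int N (fun q : IPow N (INat N) × IPow N δ => B q.1 q.2)
  un : ∀ b z b' z', B b z → B b' z' → B (b ∪ b') (z ∪ z')
  inn : ∀ b z b' z' b'' z'', B b z → B b' z' → (∀ n, n ∈ b'' ↔ n ∈ b ∧ n ∈ b') →
    (∀ d, d ∈ z'' ↔ d ∈ z ∧ d ∈ z') → B b'' z''
  top : ∃ b z, B b z ∧ ∀ n, n ∈ b
  full : ∀ b z, B b z → (∀ n, n ∈ b) → FinP N (fun d => ¬ d ∈ z)
  sep : ∀ m n, m ≠ n → ∃ b z b' z', B b z ∧ B b' z' ∧ m ∈ b ∧ n ∈ b' ∧ (∀ k, k ∈ b → ¬ k ∈ b') ∧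
    ∀ d, d ∈ z → ¬ d ∈ z'
  inf : ∀ b z n, B b z → n ∈ b → ¬ FinP N (fun d => d ∈ z)
  comp : ∀ J : IPow N (IPow N (INat N)), (∀ b z b' z', B b z → B b' z' → b ∈ J → b' ∈ J →
    b ∪ b' ∈ J) → (∀ b z, B b z → (∀ n, n ∈ b) → ¬ b ∈ J) →
      (∀ n, ∃ b z, B b z ∧ n ∈ b ∧ b ∈ J) → False

/-- The open sets. -/
def Ok (B : IPow N (INat N) → IPow N δ → Prop) (U : IPow N (δ ⊕ INat N)) : Prop :=
  ∀ n, Sum.inr n ∈ U → ∃ b z, B b z ∧ n ∈ b ∧ (∀ m, m ∈ b → Sum.inr m ∈ U) ∧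
    FinP N (fun d => d ∈ z ∧ ¬ Sum.inl d ∈ U)

variable {B : IPow N (INat N) → IPow N δ → Prop}

theorem int_Ok (h : Int N (fun q : IPow N (INat N) × IPow N δ => B q.1 q.2)) :
    Int N (fun U : IPow N (δ ⊕ INat N) => Ok B U) := by
  unfold Ok
  refine Int.all (Int.imp (Int.mem (IntF.inr IntF.snd') IntF.fst') (Int.ex (Int.ex (Int.and ?_
    (Int.and ?_ (Int.and ?_ ?_))))))
  · exact Int.comp₂ (p := fun b z => B b z) h (IntF.snd IntF.fst') IntF.snd'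
  · exact Int.mem (IntF.snd (IntF.fst IntF.fst')) (IntF.snd IntF.fst')
  · exact Int.all (Int.imp (Int.mem IntF.snd' (IntF.snd (IntF.fst IntF.fst')))
      (Int.mem (IntF.inr IntF.snd') (IntF.fst (IntF.fst (IntF.fst IntF.fst')))))
  · refine Int.finP (R := fun (q : ((IPow N (δ ⊕ INat N) × INat N) × IPow N (INat N)) × IPow N δ)
      d => d ∈ q.2 ∧ ¬ Sum.inl d ∈ q.1.1.1) ?_
    exact Int.and (Int.mem IntF.snd' (IntF.snd IntF.fst')) (Int.not (Int.mem (IntF.inl IntF.snd')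
      (IntF.fst (IntF.fst (IntF.fst IntF.fst')))))

variable (h : Kz B)

include h

theorem ok_univ (U : IPow N (δ ⊕ INat N)) (hU : ∀ s, s ∈ U) : Ok B U := by
  obtain ⟨b, z, h1, h2⟩ := h.top
  exact fun n _ => ⟨b, z, h1, h2 n, fun m _ => hU _, ⟨∅, IFin.empty, fun d hd => absurd (hU _) hd.2⟩⟩

theorem ok_cof (U : IPow N (δ ⊕ INat N)) (d0 : δ) (hU : ∀ s, s ∈ U ↔ s ≠ Sum.inl d0) : Ok B U := by
  obtain ⟨b, z, h1, h2⟩ := h.top
  refine fun n _ => ⟨b, z, h1, h2 n, fun m _ => (hU _).2 (by simp), (FinP.eq d0).mono fun d hd => ?_⟩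
  by_contra hne
  exact hd.2 ((hU _).2 fun e => hne (Sum.inl.inj e))

theorem ok_inter (U V W : IPow N (δ ⊕ INat N)) (hU : Ok B U) (hV : Ok B V)
    (hW : ∀ s, s ∈ W ↔ s ∈ U ∧ s ∈ V) : Ok B W := by
  intro n hn
  obtain ⟨h1, h2⟩ := (hW _).1 hn
  obtain ⟨b, z, a1, a2, a3, a4⟩ := hU n h1
  obtain ⟨b', z', b1, b2, b3, b4⟩ := hV n h2
  have i1 : Int N (fun n : INat N => n ∈ b ∧ n ∈ b') := Int.and (Int.mem IntF.id (IntF.const _))
    (Int.mem IntF.id (IntF.const _))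
  have i2 : Int N (fun n : δ => n ∈ z ∧ n ∈ z') := Int.and (Int.mem IntF.id (IntF.const _))
    (Int.mem IntF.id (IntF.const _))
  refine ⟨sep N fun n : INat N => n ∈ b ∧ n ∈ b', sep N fun n : δ => n ∈ z ∧ n ∈ z',
    h.inn _ _ _ _ _ _ a1 b1 (fun n => mem_sep i1) fun d => mem_sep i2, (mem_sep i1).2 ⟨a2, b2⟩,
    fun m hm => ?_, (a4.or b4).mono fun d hd => ?_⟩
  · have := (mem_sep i1).1 hm
    exact (hW _).2 ⟨a3 m this.1, b3 m this.2⟩
  · have h3 := (mem_sep i2).1 hd.1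
    by_cases h4 : Sum.inl d ∈ U
    · exact Or.inr ⟨h3.2, fun h5 => hd.2 ((hW _).2 ⟨h4, h5⟩)⟩
    · exact Or.inl ⟨h3.1, h4⟩

omit h in
theorem ok_union (c : IPow N (IPow N (δ ⊕ INat N))) (W : IPow N (δ ⊕ INat N))
    (hc : ∀ U, U ∈ c → Ok B U) (hW : ∀ s, s ∈ W ↔ ∃ U, U ∈ c ∧ s ∈ U) : Ok B W := by
  intro n hn
  obtain ⟨U, h1, h2⟩ := (hW _).1 hn
  obtain ⟨b, z, a1, a2, a3, a4⟩ := hc U h1 n h2
  exact ⟨b, z, a1, a2, fun m hm => (hW _).2 ⟨U, h1, a3 m hm⟩, a4.mono fun d hd =>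
    ⟨hd.1, fun h3 => hd.2 ((hW _).2 ⟨U, h1, h3⟩)⟩⟩

omit h in
theorem ok_inl (U : IPow N (δ ⊕ INat N)) (hU : ∀ s, s ∈ U → ∃ d, s = Sum.inl d) : Ok B U := by
  intro n hn
  obtain ⟨d, hd⟩ := hU _ hn
  exact absurd hd (by simp)

theorem ok_dense (U : IPow N (δ ⊕ INat N)) (hU : Ok B U) {s : δ ⊕ INat N} (hs : s ∈ U) :
    ∃ d, Sum.inl d ∈ U := by
  rcases s with d | n
  · exact ⟨d, hs⟩
  · obtain ⟨b, z, a1, a2, a3, a4⟩ := hU n hs
    by_contra hcon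
    push Not at hcon
    exact h.inf b z n a1 a2 (a4.mono fun d hd => ⟨hd, hcon d⟩)

theorem ok_hausdorff (s s' : δ ⊕ INat N) (hne : s ≠ s') : ∃ U V, Ok B U ∧ Ok B V ∧ s ∈ U ∧
    s' ∈ V ∧ ∀ a, a ∈ U → ¬ a ∈ V := by
  have key : ∀ (d : δ) (s : δ ⊕ INat N), Sum.inl d ≠ s → ∃ U V, Ok B U ∧ Ok B V ∧
      Sum.inl d ∈ U ∧ s ∈ V ∧ ∀ a, a ∈ U → ¬ a ∈ V := by
    intro d s hds
    have hI : Int N (fun s : δ ⊕ INat N => s ≠ Sum.inl d) :=
      Int.not (Int.eq IntF.id (IntF.const _))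
    refine ⟨{Sum.inl d}, sep N fun s : δ ⊕ INat N => s ≠ Sum.inl d,
      ok_inl _ fun s hs => ⟨d, mem_singleton.1 hs⟩, ok_cof h _ d fun s => mem_sep hI,
      mem_singleton.2 rfl, (mem_sep hI).2 (Ne.symm hds), fun a ha ha' => ?_⟩
    exact (mem_sep hI).1 ha' (mem_singleton.1 ha)
  rcases s with d | m
  · exact key d s' hne
  · rcases s' with d | n
    · obtain ⟨U, V, h1, h2, h3, h4, h5⟩ := key d (Sum.inr m) (Ne.symm hne)
      exact ⟨V, U, h2, h1, h4, h3, fun a ha ha' => h5 a ha' ha⟩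
    · obtain ⟨b, z, b', z', a1, a2, a3, a4, a5, a6⟩ := h.sep m n fun e => hne (congrArg Sum.inr e)
      have hI : ∀ (b : IPow N (INat N)) (z : IPow N δ), Int N (fun s : δ ⊕ INat N =>
          (∃ d, d ∈ z ∧ s = Sum.inl d) ∨ ∃ n, n ∈ b ∧ s = Sum.inr n) := fun b z =>
        Int.or (Int.ex (Int.and (Int.mem IntF.snd' (IntF.const _)) (Int.eq IntF.fst'
          (IntF.inl IntF.snd')))) (Int.ex (Int.and (Int.mem IntF.snd' (IntF.const _))
            (Int.eq IntF.fst' (IntF.inr IntF.snd'))))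
      have hr : ∀ (b : IPow N (INat N)) (z : IPow N δ) (n : INat N), Sum.inr n ∈ (sep N
          fun s : δ ⊕ INat N => (∃ d, d ∈ z ∧ s = Sum.inl d) ∨ ∃ n, n ∈ b ∧ s = Sum.inr n) ↔
            n ∈ b := by
        intro b z n
        rw [mem_sep (hI b z)]
        constructor
        · rintro (⟨d, -, h1⟩ | ⟨m, h1, h2⟩)
          · exact absurd h1 (by simp)
          · rwa [Sum.inr.inj h2]
        · exact fun h1 => Or.inr ⟨n, h1, rfl⟩
      have hl : ∀ (b : IPow N (INat N)) (z : IPow N δ) (d : δ), Sum.inl d ∈ (sep N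
          fun s : δ ⊕ INat N => (∃ d, d ∈ z ∧ s = Sum.inl d) ∨ ∃ n, n ∈ b ∧ s = Sum.inr n) ↔
            d ∈ z := by
        intro b z n
        rw [mem_sep (hI b z)]
        constructor
        · rintro (⟨m, h1, h2⟩ | ⟨d, -, h1⟩)
          · rwa [Sum.inl.inj h2]
          · exact absurd h1 (by simp)
        · exact fun h1 => Or.inl ⟨n, h1, rfl⟩
      have ho : ∀ (b : IPow N (INat N)) (z : IPow N δ), B b z → Ok B (sep N
          fun s : δ ⊕ INat N => (∃ d, d ∈ z ∧ s = Sum.inl d) ∨ ∃ n, n ∈ b ∧ s = Sum.inr n) := by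
        intro b z hbz n hn
        refine ⟨b, z, hbz, (hr b z n).1 hn, fun m hm => (hr b z m).2 hm, ⟨∅, IFin.empty,
          fun d hd => absurd ((hl b z d).2 hd.1) hd.2⟩⟩
      refine ⟨_, _, ho b z a1, ho b' z' a2, (hr b z m).2 a3, (hr b' z' n).2 a4, ?_⟩
      rintro (d | k) h1 h2
      · exact a6 d ((hl b z d).1 h1) ((hl b' z' d).1 h2)
      · exact a5 k ((hr b z k).1 h1) ((hr b' z' k).1 h2)

omit h in
/-- Covering a finite set. -/
theorem cover_fin {β : Type u} [ITy N β] (c : IPow N (IPow N β)) (F : IPow N β) (hF : IFin F)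
    (hc : ∀ s, s ∈ F → ∃ U, U ∈ c ∧ s ∈ U) : ∃ c' : IPow N (IPow N β), IFin c' ∧
      (∀ U, U ∈ c' → U ∈ c) ∧ ∀ s, s ∈ F → ∃ U, U ∈ c' ∧ s ∈ U := by
  have key : ∀ F : IPow N β, IFin F → (∀ s, s ∈ F → ∃ U, U ∈ c ∧ s ∈ U) →
      ∃ c' : IPow N (IPow N β), IFin c' ∧
      (∀ U, U ∈ c' → U ∈ c) ∧ ∀ s, s ∈ F → ∃ U, U ∈ c' ∧ s ∈ U := by
    refine IFin.ind (p := fun F : IPow N β => (∀ s, s ∈ F → ∃ U, U ∈ c ∧ s ∈ U) →
      ∃ c' : IPow N (IPow N β), IFin c' ∧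
      (∀ U, U ∈ c' → U ∈ c) ∧ ∀ s, s ∈ F → ∃ U, U ∈ c' ∧ s ∈ U) ?_ ?_ ?_
    · refine Int.imp (Int.all (Int.imp (Int.mem IntF.snd' IntF.fst') (Int.ex (Int.and
        (Int.mem IntF.snd' (IntF.const _)) (Int.mem (IntF.snd IntF.fst') IntF.snd')))))
        (Int.ex (Int.and (Int.fin IntF.snd') (Int.and ?_ ?_)))
      · exact Int.all (Int.imp (Int.mem IntF.snd' (IntF.snd IntF.fst')) (Int.mem IntF.snd'
          (IntF.const _)))
      · exact Int.all (Int.imp (Int.mem IntF.snd' (IntF.fst IntF.fst')) (Int.ex (Int.and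
          (Int.mem IntF.snd' (IntF.snd (IntF.fst IntF.fst'))) (Int.mem (IntF.snd IntF.fst')
            IntF.snd'))))
    · exact fun _ => ⟨∅, IFin.empty, fun U hU => (mem_empty.1 hU).elim, fun s hs =>
        (mem_empty.1 hs).elim⟩
    · rintro s a - ha h1 h2
      obtain ⟨c', h3, h4, h5⟩ := h1 fun t ht => h2 t (mem_insert.2 (Or.inr ht))
      obtain ⟨U, h6, h7⟩ := h2 a (mem_insert.2 (Or.inl rfl))
      refine ⟨Insert.insert U c', h3.insert U, fun V hV => ?_, fun t ht => ?_⟩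
      · rcases mem_insert.1 hV with rfl | hV
        · exact h6
        · exact h4 V hV
      · rcases mem_insert.1 ht with rfl | ht
        · exact ⟨U, mem_insert.2 (Or.inl rfl), h7⟩
        · obtain ⟨V, h8, h9⟩ := h5 t ht
          exact ⟨V, mem_insert.2 (Or.inr h8), h9⟩
  exact key F hF hc

theorem ok_compact (c : IPow N (IPow N (δ ⊕ INat N))) (hc : ∀ U, U ∈ c → Ok B U)
    (hc' : ∀ s, ∃ U, U ∈ c ∧ s ∈ U) : ∃ c' : IPow N (IPow N (δ ⊕ INat N)), IFin c' ∧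
      (∀ U, U ∈ c' → U ∈ c) ∧ ∀ s, ∃ U, U ∈ c' ∧ s ∈ U := by
  by_contra hcon
  have hI : Int N (fun b : IPow N (INat N) => ∃ z, B b z ∧ ∃ c' : IPow N (IPow N (δ ⊕ INat N)),
      IFin c' ∧ (∀ U, U ∈ c' → U ∈ c) ∧ (∀ m, m ∈ b → ∃ U, U ∈ c' ∧ Sum.inr m ∈ U) ∧
        FinP N (fun d => d ∈ z ∧ ∀ U, U ∈ c' → ¬ Sum.inl d ∈ U)) := by
    refine Int.ex (Int.and ?_ (Int.ex (Int.and (Int.fin IntF.snd') (Int.and ?_ (Int.and ?_ ?_)))))
    · exact Int.comp₂ (p := fun b z => B b z) h.int IntF.fst' IntF.snd'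
    · exact Int.all (Int.imp (Int.mem IntF.snd' (IntF.snd IntF.fst')) (Int.mem IntF.snd'
        (IntF.const _)))
    · exact Int.all (Int.imp (Int.mem IntF.snd' (IntF.fst (IntF.fst IntF.fst'))) (Int.ex (Int.and
        (Int.mem IntF.snd' (IntF.snd (IntF.fst IntF.fst'))) (Int.mem (IntF.inr (IntF.snd IntF.fst'))
          IntF.snd'))))
    · refine Int.finP (R := fun (q : (IPow N (INat N) × IPow N δ) × IPow N (IPow N (δ ⊕ INat N))) d
        => d ∈ q.1.2 ∧ ∀ U, U ∈ q.2 → ¬ Sum.inl d ∈ U) ?_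
      exact Int.and (Int.mem IntF.snd' (IntF.snd (IntF.fst IntF.fst'))) (Int.all (Int.imp
        (Int.mem IntF.snd' (IntF.snd (IntF.fst IntF.fst'))) (Int.not (Int.mem
          (IntF.inl (IntF.snd IntF.fst')) IntF.snd'))))
  refine h.comp (sep N fun b : IPow N (INat N) => ∃ z, B b z ∧
    ∃ c' : IPow N (IPow N (δ ⊕ INat N)),
      IFin c' ∧ (∀ U, U ∈ c' → U ∈ c) ∧ (∀ m, m ∈ b → ∃ U, U ∈ c' ∧ Sum.inr m ∈ U) ∧
        FinP N (fun d => d ∈ z ∧ ∀ U, U ∈ c' → ¬ Sum.inl d ∈ U)) ?_ ?_ ?_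
  · intro b _ b' _ _ _ hb hb'
    obtain ⟨z, h1, c1, h2, h3, h4, h5⟩ := (mem_sep hI).1 hb
    obtain ⟨z', h1', c2, h2', h3', h4', h5'⟩ := (mem_sep hI).1 hb'
    refine (mem_sep hI).2 ⟨z ∪ z', h.un _ _ _ _ h1 h1', c1 ∪ c2, h2.union h2', fun U hU => ?_,
      fun m hm => ?_, (h5.or h5').mono fun d hd => ?_⟩
    · exact (mem_union.1 hU).elim (h3 U) (h3' U)
    · rcases mem_union.1 hm with hm | hm
      · obtain ⟨U, h6, h7⟩ := h4 m hm
        exact ⟨U, mem_union.2 (Or.inl h6), h7⟩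
      · obtain ⟨U, h6, h7⟩ := h4' m hm
        exact ⟨U, mem_union.2 (Or.inr h6), h7⟩
    · rcases mem_union.1 hd.1 with h6 | h6
      · exact Or.inl ⟨h6, fun U hU => hd.2 U (mem_union.2 (Or.inl hU))⟩
      · exact Or.inr ⟨h6, fun U hU => hd.2 U (mem_union.2 (Or.inr hU))⟩
  · intro b _ _ hall hb
    obtain ⟨z, h1, c1, h2, h3, h4, h5⟩ := (mem_sep hI).1 hb
    have h6 := h.full b z h1 hall
    obtain ⟨F, hF, hF'⟩ := ((h6.or h5).image (f := fun d : δ => (Sum.inl d : δ ⊕ INat N))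
      (IntF.inl IntF.id))
    obtain ⟨c2, h7, h8, h9⟩ := cover_fin c F hF fun s _ => hc' s
    refine hcon ⟨c1 ∪ c2, h2.union h7, fun U hU => (mem_union.1 hU).elim (h3 U) (h8 U), ?_⟩
    rintro (d | n)
    · by_cases h10 : ∃ U, U ∈ c1 ∧ Sum.inl d ∈ U
      · obtain ⟨U, h11, h12⟩ := h10
        exact ⟨U, mem_union.2 (Or.inl h11), h12⟩
      · push Not at h10
        obtain ⟨U, h11, h12⟩ := h9 (Sum.inl d) (hF' _ ⟨d, by
          by_cases h13 : d ∈ z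
          · exact Or.inr ⟨h13, h10⟩
          · exact Or.inl h13, rfl⟩)
        exact ⟨U, mem_union.2 (Or.inr h11), h12⟩
    · obtain ⟨U, h11, h12⟩ := h4 n (hall n)
      exact ⟨U, mem_union.2 (Or.inl h11), h12⟩
  · intro n
    obtain ⟨U, h1, h2⟩ := hc' (Sum.inr n)
    obtain ⟨b, z, a1, a2, a3, a4⟩ := hc U h1 n h2
    refine ⟨b, z, a1, a2, (mem_sep hI).2 ⟨z, a1, {U}, IFin.singleton U, fun V hV => ?_,
      fun m hm => ⟨U, mem_singleton.2 rfl, a3 m hm⟩, a4.mono fun d hd => ⟨hd.1,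
        hd.2 U (mem_singleton.2 rfl)⟩⟩⟩
    rw [mem_singleton.1 hV]
    exact h1

end

end Pool.Agent.Helper672.ZFA.V246S
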