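import Pool.Agent.V11246.Ta

/-!
# Remainders with isolated points
-/

set_option maxHeartbeats 1000000
set_option linter.all false
set_option synthInstance.maxSize 2000

namespace Pool.Agent.Helper672.ZFA.V246S

open FirstOrder FirstOrder.Language
open Pool.Agent.H310

universe u

section

variable {N : Type u} [L.Structure N] [hN : IsModel N] {δ : Type u} [ITy N δ]
variable {κ : Type u} [ITy N κ]

/-- A compactification of a discrete space with isolated points in the remainder. -/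
structure Rk (O : IPow N κ → Prop) (h : δ → κ) (j : INat N → κ) : Prop where
  iO : Int N O
  ih : IntF N h
  ij : IntF N j
  hinj : ∀ d d', h d = h d' → d = d'
  jinj : ∀ i i', j i = j i' → i = i'
  univ : ∀ U, (∀ s, s ∈ U) → O U
  inter : ∀ U V W, O U → O V → (∀ s, s ∈ W ↔ s ∈ U ∧ s ∈ V) → O W
  union : ∀ c : IPow N (IPow N κ), ∀ W, (∀ U, U ∈ c → O U) →
    (∀ s, s ∈ W ↔ ∃ U, U ∈ c ∧ s ∈ U) → O W
  comp : ∀ c : IPow N (IPow N κ), (∀ U, U ∈ c → O U) → (∀ s, ∃ U, U ∈ c ∧ s ∈ U) →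
    ∃ c' : IPow N (IPow N κ), IFin c' ∧ (∀ U, U ∈ c' → U ∈ c) ∧ ∀ s, ∃ U, U ∈ c' ∧ s ∈ U
  haus : ∀ s s', s ≠ s' → ∃ U V, O U ∧ O V ∧ s ∈ U ∧ s' ∈ V ∧ ∀ a, a ∈ U → ¬ a ∈ V
  dense : ∀ U, O U → (∃ s, s ∈ U) → ∃ d, h d ∈ U
  iso : ∀ d, ∃ U, O U ∧ h d ∈ U ∧ ∀ d', h d' ∈ U → d' = d
  rem : ∀ i, (∀ d, h d ≠ j i) ∧ ∃ U, O U ∧ j i ∈ U ∧ ∀ a, a ∈ U → (∀ d, h d ≠ a) → a = j i

/-- The relation between isolated points of the remainder and traces of neighbourhoods. -/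
def RR (O : IPow N κ → Prop) (h : δ → κ) (j : INat N → κ) (i : INat N) (Z : IPow N δ) : Prop :=
  ∃ U V, O U ∧ O V ∧ (∀ a, a ∈ U → ¬ a ∈ V) ∧ j i ∈ U ∧ (∀ a, (∀ d, h d ≠ a) → a ≠ j i → a ∈ V) ∧
    ∀ d, d ∈ Z ↔ h d ∈ U

variable {O : IPow N κ → Prop} {h : δ → κ} {j : INat N → κ} (H : Rk O h j)

include H

theorem int_RR : Int N (fun q : INat N × IPow N δ => RR O h j q.1 q.2) := by
  have iO := H.iO
  have ih := H.ih
  have ij := H.ij
  unfold RR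
  refine Int.ex (Int.ex (Int.and (iO.comp (IntF.snd IntF.fst')) (Int.and (iO.comp IntF.snd')
    (Int.and (Int.all (Int.imp (Int.mem IntF.snd' (IntF.snd (IntF.fst IntF.fst')))
      (Int.not (Int.mem IntF.snd' (IntF.snd IntF.fst'))))) (Int.and (Int.mem (ij.comp
        (IntF.fst (IntF.fst IntF.fst'))) (IntF.snd IntF.fst')) (Int.and ?_ ?_))))))
  · refine Int.all (Int.imp (Int.all (Int.not (Int.eq (ih.comp IntF.snd') (IntF.snd IntF.fst'))))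
      (Int.imp (Int.not (Int.eq IntF.snd' (ij.comp (IntF.fst (IntF.fst (IntF.fst IntF.fst'))))))
        (Int.mem IntF.snd' (IntF.snd IntF.fst'))))
  · exact Int.all (Int.iff (Int.mem IntF.snd' (IntF.snd (IntF.fst (IntF.fst IntF.fst'))))
      (Int.mem (ih.comp IntF.snd') (IntF.snd (IntF.fst IntF.fst'))))

/-- The complement of a point is open. -/
theorem Rk.t1 (a : κ) : ∃ W, O W ∧ ∀ s, s ∈ W ↔ s ≠ a := by
  have i1 : Int N (fun U : IPow N κ => O U ∧ ¬ a ∈ U) :=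
    Int.and H.iO (Int.not (Int.mem (IntF.const _) IntF.id))
  have i2 : Int N (fun s : κ => s ≠ a) := Int.not (Int.eq IntF.id (IntF.const _))
  refine ⟨sep N fun s : κ => s ≠ a, H.union (sep N fun U : IPow N κ => O U ∧ ¬ a ∈ U) _
    (fun U hU => ((mem_sep i1).1 hU).1) fun s => ?_, fun s => mem_sep i2⟩
  rw [mem_sep i2]
  constructor
  · intro hs
    obtain ⟨U, V, h1, h2, h3, h4, h5⟩ := H.haus s a hs
    exact ⟨U, (mem_sep i1).2 ⟨h1, fun h6 => h5 a h6 h4⟩, h3⟩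
  · rintro ⟨U, h1, h2⟩ rfl
    exact ((mem_sep i1).1 h1).2 h2

/-- The complement of a finite set is open. -/
theorem Rk.tf (F : IPow N κ) (hF : IFin F) : ∃ W, O W ∧ ∀ s, s ∈ W ↔ ¬ s ∈ F := by
  refine IFin.ind (p := fun F : IPow N κ => ∃ W, O W ∧ ∀ s, s ∈ W ↔ ¬ s ∈ F) ?_ ?_ ?_ F hF
  · exact Int.ex (Int.and (H.iO.comp IntF.snd') (Int.all (Int.iff (Int.mem IntF.snd'
      (IntF.snd IntF.fst')) (Int.not (Int.mem IntF.snd' (IntF.fst IntF.fst'))))))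
  · refine ⟨sep N fun _ => True, H.univ _ fun s => (mem_sep (Int.const _)).2 trivial, fun s => ?_⟩
    rw [mem_sep (Int.const _), mem_empty]
    exact ⟨fun _ h => h, fun _ => trivial⟩
  · rintro s a - ha ⟨W, h1, h2⟩
    obtain ⟨W', h3, h4⟩ := H.t1 a
    have i1 : Int N (fun s : κ => s ∈ W ∧ s ∈ W') :=
      Int.and (Int.mem IntF.id (IntF.const _)) (Int.mem IntF.id (IntF.const _))
    refine ⟨_, H.inter W W' (sep N fun s : κ => s ∈ W ∧ s ∈ W') h1 h3 fun s => mem_sep i1,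
      fun t => ?_⟩
    rw [mem_sep i1, h2, h4, mem_insert]
    tauto

/-- The points of the discrete space are isolated. -/
theorem Rk.op (d : δ) : O {h d} := by
  obtain ⟨U, h1, h2, h3⟩ := H.iso d
  obtain ⟨W, h4, h5⟩ := H.t1 (h d)
  have i1 : Int N (fun s : κ => s ∈ U ∧ s ∈ W) :=
    Int.and (Int.mem IntF.id (IntF.const _)) (Int.mem IntF.id (IntF.const _))
  have h6 := H.inter U W (sep N fun s : κ => s ∈ U ∧ s ∈ W) h1 h4 fun s => mem_sep i1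
  have h7 : ∀ s, s ∈ U → s = h d := by
    intro s hs
    by_contra hne
    obtain ⟨d', hd'⟩ := H.dense _ h6 ⟨s, (mem_sep i1).2 ⟨hs, (h5 s).2 hne⟩⟩
    obtain ⟨h8, h9⟩ := (mem_sep i1).1 hd'
    rw [h3 d' h8] at h9
    exact (h5 _).1 h9 rfl
  have h8 : U = {h d} := IPow.ext' fun s => by
    rw [mem_singleton]
    exact ⟨h7 s, fun e => e ▸ h2⟩
  rwa [h8] at h1

/-- Neighbourhoods disjoint from finitely many sets. -/
theorem Rk.fin_nb (a : κ) (c : IPow N (IPow N κ)) (hc : IFin c) : ∃ U, O U ∧ a ∈ U ∧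
    ∀ V, V ∈ c → (∃ U', O U' ∧ a ∈ U' ∧ ∀ s, s ∈ U' → ¬ s ∈ V) → ∀ s, s ∈ U → ¬ s ∈ V := by
  refine IFin.ind (p := fun c : IPow N (IPow N κ) => ∃ U, O U ∧ a ∈ U ∧
    ∀ V, V ∈ c → (∃ U', O U' ∧ a ∈ U' ∧ ∀ s, s ∈ U' → ¬ s ∈ V) → ∀ s, s ∈ U → ¬ s ∈ V)
    ?_ ?_ ?_ c hc
  · refine Int.ex (Int.and (H.iO.comp IntF.snd') (Int.and (Int.mem (IntF.const _) IntF.snd')
      (Int.all (Int.imp (Int.mem IntF.snd' (IntF.fst IntF.fst')) (Int.imp (Int.ex (Int.and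
        (H.iO.comp IntF.snd') (Int.and (Int.mem (IntF.const _) IntF.snd') (Int.all (Int.imp
          (Int.mem IntF.snd' (IntF.snd IntF.fst')) (Int.not (Int.mem IntF.snd'
            (IntF.snd (IntF.fst IntF.fst')))))))))
        (Int.all (Int.imp (Int.mem IntF.snd' (IntF.snd (IntF.fst IntF.fst')))
          (Int.not (Int.mem IntF.snd' (IntF.snd IntF.fst'))))))))))
  · exact ⟨sep N fun _ => True, H.univ _ fun s => (mem_sep (Int.const _)).2 trivial,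
      (mem_sep (Int.const _)).2 trivial, fun V hV => (mem_empty.1 hV).elim⟩
  · rintro c V - hV ⟨U, h1, h2, h3⟩
    by_cases h4 : ∃ U', O U' ∧ a ∈ U' ∧ ∀ s, s ∈ U' → ¬ s ∈ V
    · obtain ⟨U', h5, h6, h7⟩ := h4
      have i1 : Int N (fun s : κ => s ∈ U ∧ s ∈ U') :=
        Int.and (Int.mem IntF.id (IntF.const _)) (Int.mem IntF.id (IntF.const _))
      refine ⟨_, H.inter U U' (sep N fun s : κ => s ∈ U ∧ s ∈ U') h1 h5 fun s => mem_sep i1,
        (mem_sep i1).2 ⟨h2, h6⟩, fun V' hV' h8 s hs => ?_⟩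
      obtain ⟨h9, h10⟩ := (mem_sep i1).1 hs
      rcases mem_insert.1 hV' with rfl | hV'
      · exact h7 s h10
      · exact h3 V' hV' h8 s h9
    · refine ⟨U, h1, h2, fun V' hV' h8 s hs => ?_⟩
      rcases mem_insert.1 hV' with rfl | hV'
      · exact absurd h8 h4
      · exact h3 V' hV' h8 s hs

/-- There is a trace. -/
theorem Rk.ex (i : INat N) : ∃ Z, RR O h j i Z := by
  have iO := H.iO
  have i1 : Int N (fun V : IPow N κ => ∃ U, O U ∧ j i ∈ U ∧ ∀ s, s ∈ U → ¬ s ∈ V) :=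
    Int.ex (Int.and (iO.comp IntF.snd') (Int.and (Int.mem (IntF.const _) IntF.snd')
      (Int.all (Int.imp (Int.mem IntF.snd' (IntF.snd IntF.fst')) (Int.not (Int.mem IntF.snd'
        (IntF.fst IntF.fst')))))))
  have i2 : Int N (fun V : IPow N κ => ∀ a, a ∈ V → (∀ d, h d ≠ a) → a = j i) :=
    Int.all (Int.imp (Int.mem IntF.snd' IntF.fst') (Int.imp (Int.all (Int.not (Int.eq
      (H.ih.comp IntF.snd') (IntF.snd IntF.fst')))) (Int.eq IntF.snd' (IntF.const _))))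
  have i3 : Int N (fun V : IPow N κ => O V ∧ ((∃ U, O U ∧ j i ∈ U ∧ ∀ s, s ∈ U → ¬ s ∈ V) ∨
    ∀ a, a ∈ V → (∀ d, h d ≠ a) → a = j i)) := Int.and iO (Int.or i1 i2)
  obtain ⟨hji, U0, hU0, hU1, hU2⟩ := H.rem i
  obtain ⟨c', h1, h2, h3⟩ := H.comp (sep N fun V : IPow N κ => O V ∧
    ((∃ U, O U ∧ j i ∈ U ∧ ∀ s, s ∈ U → ¬ s ∈ V) ∨ ∀ a, a ∈ V → (∀ d, h d ≠ a) → a = j i))
    (fun U hU => ((mem_sep i3).1 hU).1) fun s => by
      by_cases hs : s = j i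
      · exact ⟨U0, (mem_sep i3).2 ⟨hU0, Or.inr hU2⟩, hs ▸ hU1⟩
      · obtain ⟨V, U, a1, a2, a3, a4, a5⟩ := H.haus s (j i) hs
        exact ⟨V, (mem_sep i3).2 ⟨a1, Or.inl ⟨U, a2, a4, fun t ht ht' => a5 t ht' ht⟩⟩, a3⟩
  obtain ⟨U, h4, h5, h6⟩ := H.fin_nb (j i) c' h1
  have i4 : Int N (fun V : IPow N κ => V ∈ c' ∧ ∃ U, O U ∧ j i ∈ U ∧ ∀ s, s ∈ U → ¬ s ∈ V) :=
    Int.and (Int.mem IntF.id (IntF.const _)) i1
  have i5 : Int N (fun s : κ => ∃ V, V ∈ (sep N fun V : IPow N κ => V ∈ c' ∧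
    ∃ U, O U ∧ j i ∈ U ∧ ∀ s, s ∈ U → ¬ s ∈ V) ∧ s ∈ V) :=
    Int.ex (Int.and (Int.mem IntF.snd' (IntF.const _)) (Int.mem IntF.fst' IntF.snd'))
  have i6 : Int N (fun d : δ => h d ∈ U) := Int.mem H.ih (IntF.const _)
  refine ⟨sep N fun d : δ => h d ∈ U, U, sep N fun s : κ => ∃ V, V ∈ (sep N fun V : IPow N κ =>
    V ∈ c' ∧ ∃ U, O U ∧ j i ∈ U ∧ ∀ s, s ∈ U → ¬ s ∈ V) ∧ s ∈ V, h4,
    H.union _ _ (fun V hV => ((mem_sep i3).1 (h2 V ((mem_sep i4).1 hV).1)).1)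
      (fun s => mem_sep i5), fun a ha ha' => ?_, h5, fun a ha ha' => ?_, fun d => mem_sep i6⟩
  · obtain ⟨V, h7, h8⟩ := (mem_sep i5).1 ha'
    obtain ⟨h9, h10⟩ := (mem_sep i4).1 h7
    exact h6 V h9 h10 a ha h8
  · obtain ⟨V, h7, h8⟩ := h3 a
    rcases ((mem_sep i3).1 (h2 V h7)).2 with h9 | h9
    · exact (mem_sep i5).2 ⟨V, (mem_sep i4).2 ⟨h7, h9⟩, h8⟩
    · exact absurd (h9 a h8 ha) ha'

/-- The traces are infinite. -/
theorem Rk.inf {i : INat N} {Z : IPow N δ} (hZ : RR O h j i Z) : ¬ IFin Z := by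
  obtain ⟨U, V, h1, h2, h3, h4, h5, h6⟩ := hZ
  intro hf
  obtain ⟨W, h7, h8⟩ := H.tf (iimage h Z) (hf.image H.ih)
  have i1 : Int N (fun s : κ => s ∈ U ∧ s ∈ W) :=
    Int.and (Int.mem IntF.id (IntF.const _)) (Int.mem IntF.id (IntF.const _))
  obtain ⟨d, hd⟩ := H.dense _ (H.inter U W (sep N fun s : κ => s ∈ U ∧ s ∈ W) h1 h7
    fun s => mem_sep i1) ⟨j i, (mem_sep i1).2 ⟨h4, (h8 _).2 fun h9 => by
      obtain ⟨d, -, h10⟩ := (mem_iimage H.ih).1 h9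
      exact (H.rem i).1 d h10⟩⟩
  obtain ⟨h9, h10⟩ := (mem_sep i1).1 hd
  exact (h8 _).1 h10 ((mem_iimage H.ih).2 ⟨d, (h6 d).2 h9, rfl⟩)

/-- Different points have almost disjoint traces. -/
theorem Rk.disj {i i' : INat N} (hii : i ≠ i') {Z Z' : IPow N δ} (hZ : RR O h j i Z)
    (hZ' : RR O h j i' Z') : FinP N (fun d => d ∈ Z ∧ d ∈ Z') := by
  obtain ⟨U, V, h1, h2, h3, h4, h5, h6⟩ := hZ
  obtain ⟨U', V', h1', h2', h3', h4', h5', h6'⟩ := hZ'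
  have isg : IntF N (fun d : δ => ({h d} : IPow N κ)) := IntF.singleton H.ih
  have i1 : Int N (fun W : IPow N κ => (W = V ∨ W = V') ∨ ∃ d, W = {h d}) :=
    Int.or (Int.or (Int.eq IntF.id (IntF.const _)) (Int.eq IntF.id (IntF.const _)))
      (Int.ex (Int.eq IntF.fst' (isg.comp IntF.snd')))
  obtain ⟨c', h7, h8, h9⟩ := H.comp (sep N fun W : IPow N κ => (W = V ∨ W = V') ∨ ∃ d, W = {h d})
    (fun W hW => by
      rcases (mem_sep i1).1 hW with (rfl | rfl) | ⟨d, rfl⟩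
      · exact h2
      · exact h2'
      · exact H.op d) fun s => by
      by_cases hs : ∃ d, h d = s
      · obtain ⟨d, rfl⟩ := hs
        exact ⟨{h d}, (mem_sep i1).2 (Or.inr ⟨d, rfl⟩), mem_singleton.2 rfl⟩
      · push Not at hs
        by_cases hsi : s = j i
        · exact ⟨V', (mem_sep i1).2 (Or.inl (Or.inr rfl)), h5' s hs fun e =>
            hii (H.jinj _ _ (hsi.symm.trans e))⟩
        · exact ⟨V, (mem_sep i1).2 (Or.inl (Or.inl rfl)), h5 s hs hsi⟩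
  refine FinP.of_inj (Int.and (Int.mem IntF.id (IntF.const _)) (Int.mem IntF.id (IntF.const _)))
    isg (fun a b _ _ e => ?_) (q := fun W => W ∈ c') ⟨c', h7, fun _ h => h⟩ fun d hd => ?_
  · have h10 : h a ∈ ({h b} : IPow N κ) := by
      have h11 : h a ∈ ({h a} : IPow N κ) := mem_singleton.2 rfl
      rwa [e] at h11
    exact H.hinj _ _ (mem_singleton.1 h10)
  · obtain ⟨W, h10, h11⟩ := h9 (h d)
    rcases (mem_sep i1).1 (h8 W h10) with (rfl | rfl) | ⟨d', rfl⟩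
    · exact absurd h11 (h3 _ ((h6 d).1 hd.1))
    · exact absurd h11 (h3' _ ((h6' d).1 hd.2))
    · rw [H.hinj _ _ (mem_singleton.1 h11)]
      exact h10

end

end Pool.Agent.Helper672.ZFA.V246S
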