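import Pool.Agent.V11246.Tb
import Pool.Agent.V11246.Sn

/-!
# The space in the extension
-/

set_option maxHeartbeats 1000000
set_option linter.all false
set_option synthInstance.maxSize 2000

namespace Pool.Agent.Helper672.ZFA.V246S

open FirstOrder FirstOrder.Language
open Pool.Agent.Helper672.ZFA.H635 (IPerm SymSys IsGen NN EqFam nm nmN CollL nm_fam nm_inj extS
  nmN_surj nmN_zero nmN_succ nmN_inj)
open Pool.Agent.Helper672.ZFA.V246 (Ctb)
open Pool.Agent.Helper672.ZFA.V246K (Std)
open Pool.Agent.H310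

universe u

section

variable {M : Type u} [L.Structure M] [hM : IsModel M] {α : Type u} [ITy M α]

theorem finP_of_ext {S : Set α} (h : S.Finite) : FinP M (fun a => a ∈ S) := by
  induction S, h using Set.Finite.induction_on with
  | empty => exact ⟨∅, IFin.empty, fun a ha => ha.elim⟩
  | @insert a S _ _ ih =>
    refine ((FinP.eq a).or ih).mono fun b hb => ?_
    exact hb

theorem ext_of_finP (hs : Std M) {p : α → Prop} (h : FinP M p) : Set.Finite {a | p a} := by
  obtain ⟨s, h1, h2⟩ := h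
  exact (ext_finite hs h1).subset fun a ha => h2 a ha

theorem mcp {s : IPow M α} {a : α} : Mem (code (M := M) a) (code (M := M) s) ↔ a ∈ s := by
  refine (mem_code_pow (M := M)).trans ⟨?_, fun h => ⟨a, h, rfl⟩⟩
  rintro ⟨b, h1, h2⟩
  rwa [← ITy.inj h2]

end

variable {M : Type u} [L.Structure M] [hM : IsModel M]
variable {G : Set (Cd M)} (hG : IsGen M G) (hC : CollL M)

include hC in
theorem std_NN (hs : Std M) : Std (NN (Ss M) hG) := by
  intro p h0 h1 n
  obtain ⟨k, rfl⟩ := nmN_surj hG hC n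
  refine hs (fun k => p (nmN (Ss M) hG hC k)) ?_ ?_ k
  · beta_reduce
    rw [nmN_zero]
    exact h0
  · intro k hk
    beta_reduce
    rw [nmN_succ]
    exact h1 _ hk

variable {ε : Type u} [ITy (NN (Ss M) hG) ε]

/-- The elements of a set. -/
noncomputable def sof (ε : Type u) [ITy (NN (Ss M) hG) ε] (x : NN (Ss M) hG) :
    IPow (NN (Ss M) hG) ε :=
  sep (NN (Ss M) hG) fun n : ε => Mem (code (M := NN (Ss M) hG) n) x

theorem mem_sof {x : NN (Ss M) hG} {n : ε} :
    n ∈ sof hG ε x ↔ Mem (code (M := NN (Ss M) hG) n) x :=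
  mem_sep (Int.of_D (S := fun v => Mem (v 0) x) (D.memf (DF.var _) (DF.const _)) fun _ => Iff.rfl)

theorem code_sof {x : NN (Ss M) hG} (h : ∀ w, Mem w x → ∃ a : ε, code (M := NN (Ss M) hG) a = w) :
    code (M := NN (Ss M) hG) (sof hG ε x) = x := by
  refine extS hG fun w => ?_
  refine (mem_code_pow (M := NN (Ss M) hG)).trans ⟨?_, fun hw => ?_⟩
  · rintro ⟨a, h1, rfl⟩
    exact (mem_sof hG).1 h1
  · obtain ⟨a, rfl⟩ := h w hw
    exact ⟨a, (mem_sof hG).2 hw, rfl⟩

include hC in
theorem code_be {b : Bool} {c : Cx M} :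
    code (M := NN (Ss M) hG) (sof hG (INat (NN (Ss M) hG)) (be hG b c)) = be hG b c :=
  code_sof hG fun w hw => by
    obtain ⟨n, -, rfl⟩ := (mem_be hG).1 hw
    exact ⟨nmN (Ss M) hG hC n, rfl⟩

theorem mem_sof_be {b : Bool} {c : Cx M} {n : INat M} :
    nmN (Ss M) hG hC n ∈ sof hG (INat (NN (Ss M) hG)) (be hG b c) ↔ In G ((false, b), n) c := by
  rw [mem_sof]
  exact nm_mem_be hG hC

variable {DN : NN (Ss M) hG} (hD : ∀ w, Plain.Mem w DN ↔ ∃ t, w = xg hG t)

/-- The points of the discrete space, as elements. -/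
noncomputable def xe (t : INat M) : El DN := ⟨xg hG t, (hD _).2 ⟨t, rfl⟩⟩

theorem xe_surj (d : El DN) : ∃ t, xe hG hD t = d := by
  obtain ⟨t, ht⟩ := (hD _).1 d.2
  exact ⟨t, Subtype.ext ht.symm⟩

include hC in
theorem xe_inj {t u : INat M} : xe hG hD t = xe hG hD u ↔ t = u := by
  refine ⟨fun h => ?_, fun h => h ▸ rfl⟩
  exact (xg_inj hG hC).1 (congrArg Subtype.val h)

include hD in
theorem code_ph {c : Cx M} : code (M := NN (Ss M) hG) (sof hG (El DN) (ph hG c)) = ph hG c :=
  code_sof hG fun w hw => by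
    obtain ⟨n, -, rfl⟩ := (mem_ph hG).1 hw
    exact ⟨xe hG hD n, rfl⟩

include hC in
theorem mem_sof_ph {c : Cx M} {t : INat M} :
    xe hG hD t ∈ sof hG (El DN) (ph hG c) ↔ In G ((true, false), t) c := by
  rw [mem_sof]
  exact xg_mem_ph hG hC

include hC in
/-- Finite sets of points. -/
theorem fin_D (hs : Std M) {p : El DN → Prop} :
    FinP (NN (Ss M) hG) p ↔ FinP M (fun t => p (xe hG hD t)) := by
  constructor
  · intro h
    have h1 := ext_of_finP (std_NN hG hC hs) h
    have h2 : Set.Finite {t : INat M | p (xe hG hD t)} :=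
      Set.Finite.of_injOn (f := xe hG hD) (t := {a | p a}) (fun t ht => ht)
        (fun t _ u _ htu => (xe_inj hG hC hD).1 htu) h1
    exact finP_of_ext h2
  · intro h
    have h1 := ext_of_finP hs h
    have h2 : Set.Finite {a : El DN | p a} := by
      refine (h1.image (xe hG hD)).subset fun a ha => ?_
      obtain ⟨t, rfl⟩ := xe_surj hG hD a
      exact ⟨t, ha, rfl⟩
    exact finP_of_ext h2

end Pool.Agent.Helper672.ZFA.V246S
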