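import Pool.Agent.V11246.Tc

/-!
# The space in the extension, continued
-/

set_option maxHeartbeats 1000000
set_option linter.all false
set_option synthInstance.maxSize 2000

namespace Pool.Agent.Helper672.ZFA.V246S

open FirstOrder FirstOrder.Language
open Pool.Agent.Helper672.ZFA.H635 (IPerm SymSys IsGen NN EqFam nm nmN CollL nm_fam nm_inj extS
  nmN_surj nmN_zero nmN_succ nmN_inj)
open Pool.Agent.Helper672.ZFA.V246 (Ctb)
open Pool.Agent.Helper672.ZFA.V246K (Std)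
open Pool.Agent.H310

universe u

variable {M : Type u} [L.Structure M] [hM : IsModel M]
variable {G : Set (Cd M)} (hG : IsGen M G) (hC : CollL M)
variable {DN Lk : NN (Ss M) hG} (hD : ∀ w, Plain.Mem w DN ↔ ∃ t, w = xg hG t)
  (hL : ∀ w, Plain.Mem w Lk ↔ ∃ c, w = ZFA.op (be hG false c) (ph hG c))

variable (DN Lk) in
/-- The base. -/
def Kb (b : IPow (NN (Ss M) hG) (INat (NN (Ss M) hG))) (z : IPow (NN (Ss M) hG) (El DN)) : Prop :=
  Plain.Mem (ZFA.op (code (M := NN (Ss M) hG) b) (code (M := NN (Ss M) hG) z)) Lk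

include hC hD hL in
theorem kb_iff {b : IPow (NN (Ss M) hG) (INat (NN (Ss M) hG))}
    {z : IPow (NN (Ss M) hG) (El DN)} : Kb hG DN Lk b z ↔
      ∃ c, b = sof hG _ (be hG false c) ∧ z = sof hG _ (ph hG c) := by
  unfold Kb
  rw [hL]
  constructor
  · rintro ⟨c, hc⟩
    obtain ⟨h1, h2⟩ := op_inj hc
    refine ⟨c, ITy.inj (M := NN (Ss M) hG) ?_, ITy.inj (M := NN (Ss M) hG) ?_⟩
    · rw [code_be hG hC]
      exact h1
    · rw [code_ph hG hD]
      exact h2
  · rintro ⟨c, rfl, rfl⟩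
    refine ⟨c, ?_⟩
    rw [code_be hG hC, code_ph hG hD]

include hC in
theorem sof_be_ext {b b' : IPow (NN (Ss M) hG) (INat (NN (Ss M) hG))}
    (h : ∀ n, nmN (Ss M) hG hC n ∈ b ↔ nmN (Ss M) hG hC n ∈ b') : b = b' := IPow.ext' fun k => by
  obtain ⟨n, rfl⟩ := nmN_surj hG hC k
  exact h n

theorem sof_ph_ext {b b' : IPow (NN (Ss M) hG) (El DN)}
    (h : ∀ t, xe hG hD t ∈ b ↔ xe hG hD t ∈ b') : b = b' := IPow.ext' fun k => by
  obtain ⟨n, rfl⟩ := xe_surj hG hD k
  exact h n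

include hG in
theorem fin_ntop {c : Cx M} (h : ∀ n, In G ((false, false), n) c) :
    FinP M (fun x => ¬ ((Sum.inl false, x) : Xx M) ∈ c.1) := by
  by_contra hcon
  obtain ⟨p, hp⟩ := hG.ne
  obtain ⟨n, -, hn⟩ := exists_nd hG false (S := fun _ => False) ⟨∅, IFin.empty, fun _ h => h.elim⟩
    (c := cc c) (fun hf => hcon (hf.mono fun x hx => mem_cc.2 hx)) hp
  exact (in_cc hG).1 hn (h n)

include hD hL in
/-- The data of the space in the extension. -/
theorem kz (hs : Std M) (hC : CollL M) : Kz (N := NN (Ss M) hG) (Kb hG DN Lk) := by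
  have hkb := fun (b : IPow (NN (Ss M) hG) (INat (NN (Ss M) hG)))
    (z : IPow (NN (Ss M) hG) (El DN)) => kb_iff hG hC hD hL (b := b) (z := z)
  refine ⟨?_, ?_, ?_, ?_, ?_, ?_, ?_, ?_⟩
  · exact Int.of_D₂ (S := fun v => Mem (ZFA.op (v 0) (v 1)) Lk)
      (D.memf (DF.op (DF.var _) (DF.var _)) (DF.const _)) fun _ _ => Iff.rfl
  · intro b z b' z' h h'
    obtain ⟨c, rfl, rfl⟩ := (hkb _ _).1 h
    obtain ⟨c', rfl, rfl⟩ := (hkb _ _).1 h'
    refine (hkb _ _).2 ⟨cu c c', sof_be_ext hG hC fun n => ?_, sof_ph_ext hG hD fun t => ?_⟩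
    · rw [mem_union, mem_sof_be, mem_sof_be, mem_sof_be, in_cu hG]
    · rw [mem_union, mem_sof_ph hG hC, mem_sof_ph hG hC, mem_sof_ph hG hC, in_cu hG]
  · intro b z b' z' b'' z'' h h' h1 h2
    obtain ⟨c, rfl, rfl⟩ := (hkb _ _).1 h
    obtain ⟨c', rfl, rfl⟩ := (hkb _ _).1 h'
    have hci : ∀ i, In G i (ci c c') ↔ In G i c ∧ In G i c' := by
      intro i
      refine ⟨fun h3 => ⟨?_, ?_⟩, fun h3 => h3.1.both hG h3.2⟩
      · exact h3.sub hG fun z _ hz => (mem_ci.1 hz).1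
      · exact h3.sub hG fun z _ hz => (mem_ci.1 hz).2
    refine (hkb _ _).2 ⟨ci c c', sof_be_ext hG hC fun n => ?_, sof_ph_ext hG hD fun t => ?_⟩
    · rw [h1, mem_sof_be, mem_sof_be, mem_sof_be, hci]
    · rw [h2, mem_sof_ph hG hC, mem_sof_ph hG hC, mem_sof_ph hG hC, hci]
  · have hI : Int M (fun _ : INat M => True) := Int.const _
    refine ⟨_, _, (hkb _ _).2 ⟨eu (sep M fun _ : INat M => True), rfl, rfl⟩, fun n => ?_⟩
    obtain ⟨k, rfl⟩ := nmN_surj hG hC n
    rw [mem_sof_be]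
    refine in_cof hG ⟨∅, IFin.empty, fun x hx => absurd (mem_eu.2 ((mem_sep hI).2 trivial)) hx⟩
  · intro b z h h1
    obtain ⟨c, rfl, rfl⟩ := (hkb _ _).1 h
    rw [fin_D hG hC hD hs]
    have h2 := fin_ntop hG (c := c) fun n => by
      have := h1 (nmN (Ss M) hG hC n)
      rwa [mem_sof_be] at this
    refine c.2.mono fun t ht => ?_
    by_contra hcon
    refine ht ?_
    rw [mem_sof_ph hG hC]
    refine in_cof hG (h2.mono fun x hx => ?_)
    rw [← not_ex hcon]
    exact hx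
  · intro m n hmn
    obtain ⟨m', rfl⟩ := nmN_surj hG hC m
    obtain ⟨n', rfl⟩ := nmN_surj hG hC n
    have hmn' : m' ≠ n' := fun h => hmn (by rw [h])
    have hij : (((false, false), m') : Sl M) ≠ ((false, false), n') := fun h =>
      hmn' (congrArg Prod.snd h)
    obtain ⟨e, h1, h2⟩ := in_sep hG hij rfl
    refine ⟨_, _, _, _, (hkb _ _).2 ⟨eu e, rfl, rfl⟩, (hkb _ _).2 ⟨cc (eu e), rfl, rfl⟩, ?_, ?_,
      fun k => ?_, fun d => ?_⟩
    · rwa [mem_sof_be]
    · rw [mem_sof_be, in_cc hG]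
      exact h2
    · obtain ⟨k, rfl⟩ := nmN_surj hG hC k
      rw [mem_sof_be, mem_sof_be, in_cc hG]
      exact fun h h' => h' h
    · obtain ⟨t, rfl⟩ := xe_surj hG hD d
      rw [mem_sof_ph hG hC, mem_sof_ph hG hC, in_cc hG]
      exact fun h h' => h' h
  · intro b z n h h1 h2
    obtain ⟨c, rfl, rfl⟩ := (hkb _ _).1 h
    obtain ⟨n', rfl⟩ := nmN_surj hG hC n
    rw [mem_sof_be] at h1
    rw [fin_D hG hC hD hs] at h2
    have hinf := h1.inf hG
    have hI : Int M (fun x : INat M => ((Sum.inl false, x) : Xx M) ∈ c.1) :=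
      Int.mem (IntF.pair (IntF.const _) IntF.id) (IntF.const _)
    have hI' : Int M (fun _ : INat M => True) := Int.const _
    obtain ⟨p, hp⟩ := hG.ne
    obtain ⟨t, q, h3, hq, -, h4, -⟩ := exists_ntd hG (c := sep M fun x : INat M =>
      ((Sum.inl false, x) : Xx M) ∈ c.1) (c' := sep M fun _ : INat M => True) (h2.or c.2)
      (fun hf => hinf (hf.mono fun x hx => (mem_sep hI).2 hx))
      (fun hf => inf_all (hf.mono fun x _ => (mem_sep hI').2 trivial)) hp
    push Not at h3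
    refine h3.1 ?_
    rw [mem_sof_ph hG hC]
    refine ⟨q, hq, h4.sub fun z hz1 hz2 => ?_⟩
    rw [mem_eu, mem_sep hI] at hz2
    obtain ⟨k, x⟩ := z
    change k = Sum.inr t at hz1
    subst hz1
    exact (not_ex h3.2 x).2 hz2
  · intro J h1 h2 h3
    have hJ : ∀ c : Cx M, Plain.Mem (be hG false c) (code (M := NN (Ss M) hG) J) ↔
        sof hG _ (be hG false c) ∈ J := by
      intro c
      rw [← mcp (M := NN (Ss M) hG)]
      have := code_be hG hC (b := false) (c := c)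
      rw [this]
      exact Iff.rfl
    refine thm_C hG (code (M := NN (Ss M) hG) J) ?_ ?_ ?_
    · intro c d hc hd
      rw [hJ] at hc hd ⊢
      have h4 := h1 _ _ _ _ ((hkb _ _).2 ⟨c, rfl, rfl⟩) ((hkb _ _).2 ⟨d, rfl, rfl⟩) hc hd
      have h5 : sof hG _ (be hG false (cu c d)) = sof hG _ (be hG false c) ∪
          sof hG _ (be hG false d) := sof_be_ext hG hC fun n => by
        rw [mem_union, mem_sof_be, mem_sof_be, mem_sof_be, in_cu hG]
      rw [h5]
      exact h4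
    · intro c hc hm
      rw [hJ] at hm
      refine h2 _ _ ((hkb _ _).2 ⟨c, rfl, rfl⟩) (fun n => ?_) hm
      obtain ⟨n', rfl⟩ := nmN_surj hG hC n
      rw [mem_sof_be]
      exact in_cof hG hc
    · intro n
      obtain ⟨b, z, h4, h5, h6⟩ := h3 (nmN (Ss M) hG hC n)
      obtain ⟨c, rfl, rfl⟩ := (hkb _ _).1 h4
      rw [mem_sof_be] at h5
      exact ⟨c, h5, (hJ c).2 h6⟩

end Pool.Agent.Helper672.ZFA.V246S
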