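import Pool.Agent.V11246.Td
import Pool.Agent.V11246.EDefs
import Pool.Agent.V11246.Ri
import Pool.Agent.V11246.Spc

/-!
# The denumerable remainder
-/

set_option maxHeartbeats 1000000
set_option linter.all false
set_option synthInstance.maxSize 2000

namespace Pool.Agent.Helper672.ZFA.V246S

open FirstOrder FirstOrder.Language
open Pool.Agent.Helper672.ZFA
open Pool.Agent.Helper672.Plain (LSet)
open Pool.Agent.H310Cards
open Pool.Agent.H310Top (IsTopology IsCompact IsHausdorff)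
open Pool.Agent.H310
open Pool.Agent.V11246
open Pool.Agent.Helper672.ZFA.V246
open Pool.Agent.Helper672.ZFA.V246R (isInj_code isDenum_of)

universe u

section

attribute [local instance] Helper672.Plain.toL

variable {N : Type u} [LSet.Structure N] [hZ : Helper672.Plain.Zermelo N]

local instance instModelTe : IsModel N := Helper672.Plain.isModel_toL

noncomputable local instance instPElTe (x : N) : ITy N (Helper672.Plain.El x) :=
  (inferInstance : ITy N (El x))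

variable {x t : N} {B : IPow N (INat N) → IPow N (El x) → Prop}

theorem spo_k (h : Kz B) : SpO N (fun _ : El x ⊕ INat N => True) (Ok B) :=
  ⟨Int.const _, int_Ok h.int, fun _ _ _ _ => trivial,
    fun U hU => ok_univ h U fun s => (hU s).2 trivial, ok_inter h, fun c W => ok_union c W⟩

theorem int_lt : Int N (fun s : El x ⊕ INat N => ∃ d, s = Sum.inl d) :=
  Int.ex (Int.eq IntF.fst' (IntF.inl IntF.snd'))

theorem int_rt : Int N (fun s : El x ⊕ INat N => ∃ n, s = Sum.inr n) :=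
  Int.ex (Int.eq IntF.fst' (IntF.inr IntF.snd'))

theorem hasDenumRem_of (h : Kz B) (ht : IsDiscrete t x) : HasDenumRem t x := by
  have hS := spo_k h
  have hI : IntF N (fun d : El x => (Sum.inl d : El x ⊕ INat N)) := IntF.inl IntF.id
  have hx : ∀ z, Plain.Mem z x ↔ ∃ a : El x, code a = z := fun z =>
    ⟨fun hz => ⟨⟨z, hz⟩, rfl⟩, fun ⟨a, ha⟩ => ha ▸ a.2⟩
  have hO : Int N (fun U : IPow N (El x ⊕ INat N) => ∀ s, s ∈ U → ∃ d, s = Sum.inl d) :=
    Int.all (Int.imp (Int.mem IntF.snd' IntF.fst') (Int.ex (Int.eq (IntF.snd IntF.fst')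
      (IntF.inl IntF.snd'))))
  refine ⟨ts (Ok B), xs (fun _ : El x ⊕ INat N => True),
    code (⟨_, hI⟩ : IFun N (El x) (El x ⊕ INat N)),
    code (M := N) (sep N fun s : El x ⊕ INat N => ∃ d, s = Sum.inl d),
    code (M := N) (sep N fun s : El x ⊕ INat N => ∃ n, s = Sum.inr n),
    ⟨isTopology_ts hS, isCompact_ts hS fun c hc hc' => ?_, isHausdorff_ts hS
      fun s s' _ _ hne => ok_hausdorff h s s' hne, fun z hz => ?_,
      ⟨code (M := N) (sep N fun U : IPow N (El x ⊕ INat N) => ∀ s, s ∈ U → ∃ d, s = Sum.inl d),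
        fun u => ?_, ⟨⟨⟨isFun_code _ hx fun a => ?_, fun a a' y h1 h2 => ?_⟩, fun y hy => ?_⟩,
          fun u v hu hv => ?_⟩⟩, fun u hu hne => ?_⟩, fun z => ?_, ?_⟩
  · obtain ⟨c', h1, h2, h3⟩ := ok_compact h c hc fun s => hc' s trivial
    exact ⟨c', h1, h2, fun s _ => h3 s⟩
  · obtain ⟨s, -, rfl⟩ := mem_codeB.1 hz
    exact (mem_xs' hS).2 trivial
  · constructor
    · intro hu
      obtain ⟨U, hU, rfl⟩ := mem_codeB.1 hu
      have hU' := (mem_sep hO).1 hU
      refine ⟨code U, (mem_ts' hS).2 (ok_inl U hU'), fun z => ⟨fun hz => ⟨hz, ?_⟩, fun hz => hz.1⟩⟩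
      obtain ⟨s, hs, rfl⟩ := mem_codeB.1 hz
      exact mem_codeB'.2 ((mem_sep int_lt).2 (hU' s hs))
    · rintro ⟨v, hv, huv⟩
      obtain ⟨U, rfl⟩ := exists_codeB (α := El x ⊕ INat N) (u := u) fun z hz => by
        obtain ⟨s, -, hs⟩ := mem_codeB.1 ((huv z).1 hz).2
        exact ⟨s, hs⟩
      refine mem_codeB'.2 ((mem_sep hO).2 fun s hs => ?_)
      exact (mem_sep int_lt).1 (mem_codeB'.1 ((huv _).1 (mem_codeB'.2 hs)).2)
  · exact mem_codeB'.2 ((mem_sep int_lt).2 ⟨a, rfl⟩)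
  · obtain ⟨b, rfl, h3⟩ := app_code.1 h1
    obtain ⟨b', rfl, h4⟩ := app_code.1 h2
    rw [Sum.inl.inj (ITy.inj (h3.trans h4.symm))]
  · obtain ⟨s, hs, rfl⟩ := mem_codeB.1 hy
    obtain ⟨d, rfl⟩ := (mem_sep int_lt).1 hs
    exact ⟨code d, app_code.2 ⟨d, rfl, rfl⟩⟩
  · refine ⟨fun _ => ?_, fun _ => (ht u).2 hu⟩
    have hv' : ∀ b, Helper672.Plain.Mem b v → ∃ d : El x, code (Sum.inl d : El x ⊕ INat N) = b := by
      intro b hb
      obtain ⟨a, -, ha⟩ := (hv b).1 hb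
      obtain ⟨d, -, h3⟩ := app_code.1 ha
      exact ⟨d, h3⟩
    obtain ⟨V, rfl⟩ := exists_codeB (α := El x ⊕ INat N) (u := v) fun z hz => by
      obtain ⟨d, hd⟩ := hv' z hz
      exact ⟨_, hd⟩
    refine mem_codeB'.2 ((mem_sep hO).2 fun s hs => ?_)
    obtain ⟨d, hd⟩ := hv' _ (mem_codeB'.2 hs)
    exact ⟨d, (ITy.inj hd).symm⟩
  · obtain ⟨U, hU, rfl⟩ := (mem_ts hS).1 hu
    obtain ⟨z, hz⟩ := hne
    obtain ⟨s, hs, rfl⟩ := mem_codeB.1 hz
    obtain ⟨d, hd⟩ := ok_dense h U hU hs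
    exact ⟨_, mem_codeB'.2 hd, mem_codeB'.2 ((mem_sep int_lt).2 ⟨d, rfl⟩)⟩
  · constructor
    · intro hz
      obtain ⟨s, hs, rfl⟩ := mem_codeB.1 hz
      obtain ⟨n, rfl⟩ := (mem_sep int_rt).1 hs
      refine ⟨(mem_xs' hS).2 trivial, fun h1 => ?_⟩
      obtain ⟨d, hd⟩ := (mem_sep int_lt).1 (mem_codeB'.1 h1)
      exact absurd hd (by simp)
    · rintro ⟨h1, h2⟩
      obtain ⟨s, -, rfl⟩ := (mem_xs hS).1 h1
      refine mem_codeB'.2 ((mem_sep int_rt).2 ?_)
      rcases s with d | n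
      · exact absurd (mem_codeB'.2 ((mem_sep int_lt).2 ⟨d, rfl⟩)) h2
      · exact ⟨n, rfl⟩
  · have hψ : ∀ s : El x ⊕ INat N, ∃ n : INat N, s = Sum.inr n ∨ (n = 0 ∧ ∃ d, s = Sum.inl d) := by
      rintro (d | n)
      · exact ⟨0, Or.inr ⟨rfl, d, rfl⟩⟩
      · exact ⟨n, Or.inl rfl⟩
    choose ψ hψ using hψ
    have hψI : IntF N ψ := by
      refine IntF.of_rel (r := fun (s : El x ⊕ INat N) (n : INat N) => s = Sum.inr n ∨
        (n = 0 ∧ ∃ d, s = Sum.inl d)) (Int.or (Int.eq IntF.fst' (IntF.inr IntF.snd'))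
          (Int.and (Int.eq IntF.snd' (IntF.const _)) (Int.ex (Int.eq (IntF.fst IntF.fst')
            (IntF.inl IntF.snd'))))) fun s n => ⟨fun h1 => ?_, fun h1 => ?_⟩
      · rcases hψ s with h2 | ⟨h2, d, h3⟩
        · rcases h1 with h1 | ⟨h1, d, h3⟩
          · exact Sum.inr.inj (h2.symm.trans h1)
          · exact absurd (h2.symm.trans h3) (by simp)
        · rcases h1 with h1 | ⟨h1, d', h3'⟩
          · exact absurd (h1.symm.trans h3) (by simp)
          · rw [h1, h2]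
      · rw [← h1]
        exact hψ s
    have hψr : ∀ n, ψ (Sum.inr n) = n := by
      intro n
      rcases hψ (Sum.inr n) with h1 | ⟨-, d, h1⟩
      · exact (Sum.inr.inj h1).symm
      · exact absurd h1 (by simp)
    refine isDenum_of int_rt hψI ?_ fun n => ⟨Sum.inr n, ⟨n, rfl⟩, hψr n⟩
    rintro a b ⟨n, rfl⟩ ⟨m, rfl⟩ h1
    rw [hψr, hψr] at h1
    rw [h1]

theorem not_finite_of (h : Kz B) : ¬ IsFinite x := by
  intro hf
  have h1 : FinP N (fun _ : El x => True) := finP_of_finite (p := fun _ : El x => True)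
    (Int.const _) (t := x) (fun z => ⟨fun hz => ⟨⟨z, hz⟩, trivial, rfl⟩,
      fun ⟨a, _, ha⟩ => ha ▸ a.2⟩) hf
  obtain ⟨b, z, h2, h3⟩ := h.top
  exact h.inf b z 0 h2 (h3 0) (h1.mono fun _ _ => trivial)

theorem isTopology_discrete (ht : IsDiscrete t x) : IsTopology t x := by
  refine ⟨fun u hu => (ht u).1 hu, (ht x).2 fun z hz => hz, fun u v w hu hv hw => ?_,
    fun c w hc hw => ?_⟩
  · exact (ht w).2 fun z hz => (ht u).1 hu z ((hw z).1 hz).1
  · refine (ht w).2 fun z hz => ?_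
    obtain ⟨u, h1, h2⟩ := (hw z).1 hz
    exact (ht u).1 (hc u h1) z h2

theorem exists_single (z : N) : ∃ u : N, ∀ w, Plain.Mem w u ↔ w = z :=
  ⟨up z z, fun w => ⟨fun hw => ((mem_up (M := N) (x := z) (y := z) (z := w)).1 hw).elim id id,
    fun hw => (mem_up (M := N) (x := z) (y := z) (z := w)).2 (Or.inl hw)⟩⟩

theorem isHausdorff_discrete (ht : IsDiscrete t x) : IsHausdorff t x := by
  intro y z hy hz hyz
  obtain ⟨u, hu⟩ := exists_single y
  obtain ⟨v, hv⟩ := exists_single z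
  refine ⟨u, v, (ht u).2 fun w hw => ?_, (ht v).2 fun w hw => ?_, (hu y).2 rfl, (hv z).2 rfl,
    fun a ha ha' => ?_⟩
  · rw [(hu w).1 hw]
    exact hy
  · rw [(hv w).1 hw]
    exact hz
  · exact hyz (((hu a).1 ha).symm.trans ((hv a).1 ha'))

theorem isLocComp_discrete (ht : IsDiscrete t x) : IsLocComp t x := by
  intro z hz
  obtain ⟨u, hu⟩ := exists_single z
  refine ⟨u, u, (ht u).2 fun w hw => ?_, (hu z).2 rfl, fun a ha => ha, fun w hw => ?_,
    fun c hc hc' => ?_⟩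
  · rw [(hu w).1 hw]
    exact hz
  · rw [(hu w).1 hw]
    exact hz
  · obtain ⟨u0, h1, h2⟩ := hc' z ((hu z).2 rfl)
    refine ⟨code (M := N) ({⟨u0, h1⟩} : IPow N (El c)), isFinite_of_fin (IFin.singleton _),
      fun w hw => ?_, fun w hw => ⟨u0, ?_, ?_⟩⟩
    · obtain ⟨a, ha, rfl⟩ := mem_codeB.1 hw
      exact a.2
    · exact mem_codeB.2 ⟨⟨u0, h1⟩, mem_singleton.2 rfl, rfl⟩
    · rw [(hu w).1 hw]
      exact h2

end

end Pool.Agent.Helper672.ZFA.V246S
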