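import Pool.Agent.V11246.Te

/-!
# Remainders with isolated points in a model
-/

set_option maxHeartbeats 1000000
set_option linter.all false
set_option synthInstance.maxSize 2000

namespace Pool.Agent.Helper672.ZFA.V246S

open FirstOrder FirstOrder.Language
open Pool.Agent.Helper672.ZFA
open Pool.Agent.Helper672.Plain (LSet)
open Pool.Agent.H310Cards
open Pool.Agent.H310Top (IsTopology IsCompact IsHausdorff)
open Pool.Agent.H310
open Pool.Agent.V11246
open Pool.Agent.Helper672.ZFA.V246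
open Pool.Agent.Helper672.ZFA.V246R (isInj_code isDenum_of)

universe u

section

attribute [local instance] Helper672.Plain.toL

variable {N : Type u} [LSet.Structure N] [hZ : Helper672.Plain.Zermelo N]

local instance instModelTf : IsModel N := Helper672.Plain.isModel_toL

noncomputable local instance instPElTf (x : N) : ITy N (Helper672.Plain.El x) :=
  (inferInstance : ITy N (El x))

theorem exists_disc (x : N) : ∃ t, IsDiscrete t x := by
  refine ⟨dom N (IPow N (El x)), fun u => ⟨fun hu z hz => ?_, fun hu => ?_⟩⟩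
  · obtain ⟨U, rfl⟩ := mem_domP.1 hu
    obtain ⟨a, -, rfl⟩ := mem_codeB.1 hz
    exact a.2
  · obtain ⟨U, rfl⟩ := exists_codeB (α := El x) (u := u) fun z hz => ⟨⟨z, hu z hz⟩, rfl⟩
    exact code_mem_domP U

theorem app_mem' {f s t a b : N} (hf : IsFun f s t) (h : App f a b) :
    Plain.Mem a s ∧ Plain.Mem b t := by
  obtain ⟨q, h1, h2⟩ := h
  obtain ⟨a', b', h3, h4, h5⟩ := hf.1 q h2
  obtain ⟨rfl, rfl⟩ := op_inj ((ordPair_iff.1 h1).symm.trans (ordPair_iff.1 h5))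
  exact ⟨h3, h4⟩

theorem app_uniq' {f s t a b b' : N} (hf : IsFun f s t) (h : App f a b) (h' : App f a b') :
    b = b' := by
  obtain ⟨c, -, h1⟩ := hf.2 a (app_mem' hf h).1
  rw [h1 b h, h1 b' h']

theorem exists_Rk {t x r y : N} (ht : IsDiscrete t x) (hr : IsNInf r y)
    (h : IsRemainder r y t x) : ∃ (k : N) (O : IPow N (El k) → Prop) (h : El x → El k)
      (j : INat N → El k), Rk O h j := by
  obtain ⟨w, i0, hw, hi0, hy, hr⟩ := hr
  obtain ⟨s, k, h, e, c, q, j, ⟨hT, hK, hH, hek, ⟨r', hr', hh, hh'⟩, hdn⟩, hc, hq, hj, hj'⟩ := h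
  have hkc : ∀ z, Plain.Mem z k → ∃ a : El k, code a = z := fun z hz => ⟨⟨z, hz⟩, rfl⟩
  have hh1 : IsFun h x k := ⟨fun q hq => by
    obtain ⟨a, b, h1, h2, h3⟩ := hh.1.1.1 q hq
    exact ⟨a, b, h1, hek b h2, h3⟩, hh.1.1.2⟩
  have hj1 : IsFun j y k := ⟨fun q hq => by
    obtain ⟨a, b, h1, h2, h3⟩ := hj.1.1.1 q hq
    exact ⟨a, b, h1, ((hc b).1 h2).1, h3⟩, hj.1.1.2⟩
  have hyn : ∀ n : INat N, Plain.Mem (code n) y := fun n => (hy _).2 (Or.inl ((mem_omega hw).2 ⟨n, rfl⟩))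
  obtain ⟨h0, h0I, h0e⟩ := exists_fun (α := El x) (β := El k) hh1 (fun a => a.2) hkc
  obtain ⟨j0, j0I, j0e⟩ := exists_fun (α := INat N) (β := El k) hj1 hyn hkc
  have hApp : ∀ d, App h (code d) (code (h0 d)) := fun d => (h0e d _).1 rfl
  have jApp : ∀ n, App j (code n) (code (j0 n)) := fun d => (j0e d _).1 rfl
  have iO : Int N (fun U : IPow N (El k) => Plain.Mem (code U) s) :=
    Int.of_D (S := fun v => Mem (v 0) s) (D.memf (DF.var _) (DF.const _)) fun _ => Iff.rfl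
  have he : ∀ d, Plain.Mem (code (h0 d)) e := fun d => (app_mem' hh.1.1 (hApp d)).2
  have hes : ∀ z, Plain.Mem z e → ∃ d, code (h0 d) = z := by
    intro z hz
    obtain ⟨a, ha⟩ := hh.2 z hz
    exact ⟨⟨a, (app_mem' hh.1.1 ha).1⟩, app_uniq' hh.1.1 (hApp ⟨a, (app_mem' hh.1.1 ha).1⟩) ha⟩
  have hjc : ∀ n, Plain.Mem (code (j0 n)) c := fun n => (app_mem' hj.1.1 (jApp n)).2
  have hkU : ∀ u, Plain.Mem u s → ∃ U : IPow N (El k), code U = u := fun u hu =>
    exists_codeB fun z hz => hkc z (hT.sub u hu z hz)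
  have hne : ∀ a : El k, (∀ d, h0 d ≠ a) → ¬ Plain.Mem (code a) e := by
    intro a ha h1
    obtain ⟨d, hd⟩ := hes _ h1
    exact ha d (ITy.inj hd)
  refine ⟨k, fun U => Plain.Mem (code U) s, h0, j0, iO, h0I, j0I, fun d d' e1 => ?_,
    fun n n' e1 => ?_, fun U hU => ?_, fun U V W hU hV hW => ?_, fun C W hC hW => ?_,
    fun C hC hC' => ?_, fun a b hab => ?_, fun U hU hne => ?_, fun d => ?_, fun n => ⟨fun d e1 => ?_, ?_⟩⟩
  · have h1 := hApp d'
    rw [← e1] at h1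
    exact ITy.inj (hh.1.2 _ _ _ (hApp d) h1)
  · have h1 := jApp n'
    rw [← e1] at h1
    exact ITy.inj (hj.1.2 _ _ _ (jApp n) h1)
  · have h1 : code U = k := extM fun z => by
      constructor
      · intro hz
        obtain ⟨a, -, rfl⟩ := mem_codeB.1 hz
        exact a.2
      · intro hz
        exact mem_codeB.2 ⟨⟨z, hz⟩, hU _, rfl⟩
    rw [h1]
    exact hT.univ
  · refine hT.inter _ _ _ hU hV fun z => ?_
    constructor
    · intro hz
      obtain ⟨a, ha, rfl⟩ := mem_codeB.1 hz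
      exact ⟨mem_codeB'.2 ((hW a).1 ha).1, mem_codeB'.2 ((hW a).1 ha).2⟩
    · rintro ⟨h1, h2⟩
      obtain ⟨a, ha, rfl⟩ := mem_codeB.1 h1
      exact mem_codeB'.2 ((hW a).2 ⟨ha, mem_codeB'.1 h2⟩)
  · refine hT.union (code C) _ (fun u hu => ?_) fun z => ?_
    · obtain ⟨U, hU, rfl⟩ := mem_codeB.1 hu
      exact hC U hU
    · constructor
      · intro hz
        obtain ⟨a, ha, rfl⟩ := mem_codeB.1 hz
        obtain ⟨U, h1, h2⟩ := (hW a).1 ha
        exact ⟨code U, mem_codeB'.2 h1, mem_codeB'.2 h2⟩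
      · rintro ⟨u, h1, h2⟩
        obtain ⟨U, hU, rfl⟩ := mem_codeB.1 h1
        obtain ⟨a, ha, rfl⟩ := mem_codeB.1 h2
        exact mem_codeB'.2 ((hW a).2 ⟨U, hU, ha⟩)
  · obtain ⟨c', h1, h2, h3⟩ := hK (code C) (fun u hu => by
      obtain ⟨U, hU, rfl⟩ := mem_codeB.1 hu
      exact hC U hU) fun z hz => by
        obtain ⟨U, h1, h2⟩ := hC' ⟨z, hz⟩
        exact ⟨code U, mem_codeB'.2 h1, mem_codeB.2 ⟨_, h2, rfl⟩⟩
    obtain ⟨C'', rfl⟩ := exists_codeB (α := IPow N (El k)) (u := c') fun z hz => by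
      obtain ⟨U, -, hU⟩ := mem_codeB.1 (h2 z hz)
      exact ⟨U, hU⟩
    refine ⟨C'', fin_of_isFinite h1, fun U hU => mem_codeB'.1 (h2 _ (mem_codeB'.2 hU)),
      fun a => ?_⟩
    obtain ⟨u, h4, h5⟩ := h3 (code a) a.2
    obtain ⟨U, hU, rfl⟩ := mem_codeB.1 h4
    exact ⟨U, hU, mem_codeB'.1 h5⟩
  · obtain ⟨u, v, h1, h2, h3, h4, h5⟩ := hH (code a) (code b) a.2 b.2 fun e => hab (ITy.inj e)
    obtain ⟨U, rfl⟩ := hkU u h1
    obtain ⟨V, rfl⟩ := hkU v h2
    exact ⟨U, V, h1, h2, mem_codeB'.1 h3, mem_codeB'.1 h4, fun z hz hz' =>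
      h5 (code z) (mem_codeB'.2 hz) (mem_codeB'.2 hz')⟩
  · obtain ⟨a, ha⟩ := hne
    obtain ⟨z, h1, h2⟩ := hdn (code U) hU ⟨_, mem_codeB'.2 ha⟩
    obtain ⟨d, rfl⟩ := hes z h2
    exact ⟨d, mem_codeB'.1 h1⟩
  · obtain ⟨u, hu⟩ := exists_single (code (M := N) d)
    obtain ⟨v, hv⟩ := exists_single (code (M := N) (h0 d))
    have h1 : Plain.Mem v r' := (hh' u v (fun z hz => by
      rw [(hu z).1 hz]
      exact d.2) fun b => ⟨fun hb => ⟨code d, (hu _).2 rfl, by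
        rw [(hv b).1 hb]
        exact hApp d⟩, fun ⟨a, ha, hab⟩ => by
          rw [(hu a).1 ha] at hab
          exact (hv b).2 (app_uniq' hh.1.1 hab (hApp d))⟩).1 ((ht u).2 fun z hz => by
            rw [(hu z).1 hz]
            exact d.2)
    obtain ⟨v', h2, h3⟩ := (hr' v).1 h1
    obtain ⟨U, rfl⟩ := hkU v' h2
    refine ⟨U, h2, mem_codeB'.1 ((h3 _).1 ((hv _).2 rfl)).1, fun d' hd' => ?_⟩
    have h4 := (h3 (code (h0 d'))).2 ⟨mem_codeB'.2 hd', he d'⟩
    have h5 := (hv _).1 h4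
    have h6 := hApp d'
    rw [h5] at h6
    exact ITy.inj (hh.1.2 _ _ _ h6 (hApp d))
  · have h1 := ((hc _).1 (hjc n)).2
    rw [← e1] at h1
    exact h1 (he d)
  · obtain ⟨u, hu⟩ := exists_single (code (M := N) n)
    obtain ⟨v, hv⟩ := exists_single (code (M := N) (j0 n))
    have h1 : Plain.Mem v q := (hj' u v (fun z hz => by
      rw [(hu z).1 hz]
      exact hyn n) fun b => ⟨fun hb => ⟨code n, (hu _).2 rfl, by
        rw [(hv b).1 hb]
        exact jApp n⟩, fun ⟨a, ha, hab⟩ => by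
          rw [(hu a).1 ha] at hab
          exact (hv b).2 (app_uniq' hj.1.1 hab (jApp n))⟩).1 ((hr u).2 ⟨fun z hz => by
            rw [(hu z).1 hz]
            exact hyn n, fun h1 => by
              refine absurd ?_ hi0
              rw [(hu i0).1 h1]
              exact (mem_omega hw).2 ⟨n, rfl⟩⟩)
    obtain ⟨v', h2, h3⟩ := (hq v).1 h1
    obtain ⟨U, rfl⟩ := hkU v' h2
    refine ⟨U, h2, mem_codeB'.1 ((h3 _).1 ((hv _).2 rfl)).1, fun a ha ha' => ?_⟩
    have h4 := (h3 (code a)).2 ⟨mem_codeB'.2 ha, (hc _).2 ⟨a.2, hne a ha'⟩⟩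
    exact ITy.inj ((hv _).1 h4)

end

end Pool.Agent.Helper672.ZFA.V246S
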