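import Pool.Agent.V11246.Tf
import Pool.Agent.V11246.Rj

/-!
# The model
-/

set_option maxHeartbeats 1000000
set_option linter.all false
set_option synthInstance.maxSize 2000

namespace Pool.Agent.Helper672.ZFA.V246S

open FirstOrder FirstOrder.Language
open Pool.Agent.Helper672.ZFA.H635 (IPerm SymSys IsGen NN EqFam nm nmN CollL nm_fam nm_inj extS
  nmN_surj nmN_zero nmN_succ nmN_inj toL nn_zf)
open Pool.Agent.Helper672.ZFA.V246 (Ctb)
open Pool.Agent.Helper672.ZFA.V246K (Std)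
open Pool.Agent.H310

universe u

variable {M : Type u} [L.Structure M] [hM : IsModel M]
variable {G : Set (Cd M)} (hG : IsGen M G) (hC : CollL M)
variable {DN : NN (Ss M) hG} (hD : ∀ w, Plain.Mem w DN ↔ ∃ t, w = xg hG t)

include hC hD in
/-- There is no compactification with infinitely many isolated points in the remainder. -/
theorem no_Rk (hs : Std M) {κ : Type u} [ITy (NN (Ss M) hG) κ]
    {O : IPow (NN (Ss M) hG) κ → Prop} {h : El DN → κ} {j : INat (NN (Ss M) hG) → κ}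
    (H : Rk O h j) : False := by
  have hI := int_RR H
  have hz : ∀ (i : INat M) Z, Plain.Mem (ZFA.op (nm (Ss M) hG i) Z) (code (M := NN (Ss M) hG)
      (sep (NN (Ss M) hG) fun q : INat (NN (Ss M) hG) × IPow (NN (Ss M) hG) (El DN) =>
        RR O h j q.1 q.2)) ↔ ∃ Z', RR O h j (nmN (Ss M) hG hC i) Z' ∧
          code (M := NN (Ss M) hG) Z' = Z := by
    intro i Z
    refine (mem_code_pow (M := NN (Ss M) hG)).trans ⟨?_, ?_⟩
    · rintro ⟨⟨n, Z'⟩, h1, h2⟩
      have h3 := (mem_sep hI).1 h1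
      obtain ⟨h4, h5⟩ := op_inj (show ZFA.op (code (M := NN (Ss M) hG) n)
        (code (M := NN (Ss M) hG) Z') = _ from h2)
      have h6 : n = nmN (Ss M) hG hC i := INat.ext h4
      rw [h6] at h3
      exact ⟨Z', h3, h5⟩
    · rintro ⟨Z', h1, rfl⟩
      exact ⟨(nmN (Ss M) hG hC i, Z'), (mem_sep hI).2 h1, rfl⟩
  have hzm : ∀ (Z' : IPow (NN (Ss M) hG) (El DN)) t,
      Plain.Mem (xg hG t) (code (M := NN (Ss M) hG) Z') ↔ xe hG hD t ∈ Z' := fun Z' t =>
    mcp (M := NN (Ss M) hG) (s := Z') (a := xe hG hD t)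
  refine thm_B hG hs (code (M := NN (Ss M) hG)
    (sep (NN (Ss M) hG) fun q : INat (NN (Ss M) hG) × IPow (NN (Ss M) hG) (El DN) =>
      RR O h j q.1 q.2)) (fun i => ?_) fun i i' Z Z' hij hZ hZ' => ?_
  · obtain ⟨Z', h1⟩ := H.ex (nmN (Ss M) hG hC i)
    refine ⟨_, (hz i _).2 ⟨Z', h1, rfl⟩, fun F hF => ?_⟩
    by_contra hcon
    push Not at hcon
    have h2 : FinP M (fun t => xe hG hD t ∈ Z') := ⟨F, hF, fun t ht => by
      by_contra htF
      exact hcon t htF ((hzm Z' t).2 ht)⟩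
    have h3 : FinP (NN (Ss M) hG) (fun d => d ∈ Z') := (fin_D hG hC hD hs).2 h2
    have h4 : Int (NN (Ss M) hG) (fun d : El DN => d ∈ Z') := Int.mem IntF.id (IntF.const _)
    have h5 : sep (NN (Ss M) hG) (fun d : El DN => d ∈ Z') = Z' := IPow.ext' fun a => mem_sep h4
    have h6 := h3.fin h4
    rw [h5] at h6
    exact H.inf h1 h6
  · obtain ⟨W, h1, rfl⟩ := (hz i _).1 hZ
    obtain ⟨W', h2, rfl⟩ := (hz i' _).1 hZ'
    have h3 := H.disj (fun e => hij ((nmN_inj hG hC).1 e)) h1 h2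
    obtain ⟨F, hF, hF'⟩ := (fin_D hG hC hD hs).1 h3
    refine ⟨F, hF, fun t ht ht' => hF' t ⟨(hzm _ t).1 ht, (hzm _ t).1 ht'⟩⟩

end Pool.Agent.Helper672.ZFA.V246S

namespace Pool.Agent.Helper672.ZFA.V246S

open FirstOrder FirstOrder.Language
open Pool.Agent.Helper672.ZFA
open Pool.Agent.Helper672.Plain (LSet)
open Pool.Agent.Helper672.ZFA.H635 (IPerm SymSys IWO IsGen NN EqFam nm nmN CollL od Od toL nn_zf
  isModel_of_zermelo coll_of_zf exists_countable_sub)
open Pool.Agent.H310Cards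
open Pool.Agent.H310
open Pool.Agent.H310NAS (WO)
open Pool.Agent.H635Amen (ZF)
open Pool.Agent.V11246
open Pool.Agent.Helper672.ZFA.V246 (Ctb)
open Pool.Agent.Helper672.ZFA.V246K hiding AC
open Pool.Agent.Helper672.ZFA.V246X (std_of exists_ground)

universe u

/-- The two principles fail. -/
def PrS (N : Type u) [LSet.Structure N] : Prop := ¬ DRD N ∧ ¬ DRL N

theorem exists_s' (M : Type u) [L.Structure M] [IsModel M] [Countable M] (hC : CollL M)
    (hs : Std M) : ∃ (N : Type u) (_ : LSet.Structure N), ZF N ∧ PrS N := by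
  have p₀ : Cd M := ⟨∅, ⟨∅, IFin.empty, fun i ⟨z, hz⟩ => (mem_empty.1 hz).elim⟩,
    fun i j z h => (mem_empty.1 h).elim, fun i z h => (mem_empty.1 h).elim,
    fun i ⟨z, hz⟩ => (mem_empty.1 hz).elim⟩
  obtain ⟨G, hG⟩ := H635.exists_gen (M := M) p₀
  have hzf : ZF (NN (Ss M) hG) := nn_zf hG hC
  have hz : Helper672.Plain.Zermelo (NN (Ss M) hG) := hzf.toZermelo
  obtain ⟨DN, hD⟩ := exists_DN hG
  obtain ⟨Lk, hL⟩ := exists_Lk hG
  have hk := kz hG hD hL hs hC
  obtain ⟨t, ht⟩ := exists_disc (hZ := hz) DN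
  refine ⟨NN (Ss M) hG, inferInstance, hzf, fun h => ?_, fun h => ?_⟩
  · obtain ⟨r, y, h1, h2⟩ := h t DN ht (not_finite_of (hZ := hz) hk)
      (hasDenumRem_of (hZ := hz) hk ht)
    obtain ⟨k, O, h, j, H⟩ := exists_Rk (hZ := hz) ht h1 h2
    exact no_Rk hG hC hD hs H
  · obtain ⟨r, y, h1, h2⟩ := h t DN (isTopology_discrete (hZ := hz) ht)
      (isHausdorff_discrete (hZ := hz) ht)
      (isLocComp_discrete (hZ := hz) ht) (hasDenumRem_of (hZ := hz) hk ht)
    obtain ⟨k, O, h, j, H⟩ := exists_Rk (hZ := hz) ht h1 h2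
    exact no_Rk hG hC hD hs H

section

attribute [local instance] toL

theorem exists_s_c (M : Type u) [LSet.Structure M] [Countable M] (h : ZF M)
    (hw : WellFounded (fun x y : M => Helper672.Plain.Mem x y)) :
    ∃ (N : Type u) (_ : LSet.Structure N), ZF N ∧ PrS N := by
  have hM : IsModel M := isModel_of_zermelo h.toZermelo
  exact exists_s' M (coll_of_zf h) (std_of hw)

end

/-- There is a model. -/
theorem exists_s : ∃ (N : Type 1) (_ : LSet.Structure N), ZF N ∧ PrS N := by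
  obtain ⟨M, hL, h1, h2, h3, h4⟩ := exists_ground
  exact exists_s_c M h2 h4

end Pool.Agent.Helper672.ZFA.V246S
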