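import Pool.Agent.H310R3.NA12

/-!
# Uniformly definable properties of models of set theory
-/

set_option maxHeartbeats 1000000
set_option linter.all false

namespace Pool.Agent.V11246

open FirstOrder FirstOrder.Language
open Pool.Agent.Helper672.Plain (LSet Mem IsOrdPair IsPair)
open Pool.Agent.H310Cards

universe u

/-- The property is given by one formula for all structures. -/
def UD (ι : Type) (p : ∀ (N : Type u) [LSet.Structure N], (ι → N) → Prop) : Prop :=
  ∃ φ : LSet.Formula ι, ∀ (N : Type u) [LSet.Structure N] (v : ι → N), φ.Realize v ↔ p N v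

namespace UD

variable {ι : Type}

theorem mem (i j : ι) : UD.{u} ι (fun N _ v => Mem (v i) (v j)) :=
  ⟨Relations.formula₂ (L := LSet) (Pool.Agent.Helper672.Plain.Sym.mem : LSet.Relations 2)
    (Term.var i) (Term.var j), fun N _ v => by
      rw [Formula.realize_rel₂]
      rfl⟩

theorem eq (i j : ι) : UD.{u} ι (fun N _ v => v i = v j) :=
  ⟨Term.equal (Term.var i) (Term.var j), fun N _ v => by
    rw [Formula.realize_equal]
    rfl⟩

theorem not {p : ∀ (N : Type u) [LSet.Structure N], (ι → N) → Prop} (h : UD ι p) :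
    UD ι (fun N _ v => ¬ p N v) := by
  obtain ⟨φ, h⟩ := h
  exact ⟨φ.not, fun N _ v => by rw [Formula.realize_not, h]⟩

theorem and {p q : ∀ (N : Type u) [LSet.Structure N], (ι → N) → Prop} (h : UD ι p)
    (h' : UD ι q) : UD ι (fun N _ v => p N v ∧ q N v) := by
  obtain ⟨φ, h⟩ := h
  obtain ⟨ψ, h'⟩ := h'
  exact ⟨φ ⊓ ψ, fun N _ v => by rw [Formula.realize_inf, h, h']⟩

theorem or {p q : ∀ (N : Type u) [LSet.Structure N], (ι → N) → Prop} (h : UD ι p)
    (h' : UD ι q) : UD ι (fun N _ v => p N v ∨ q N v) := by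
  obtain ⟨φ, h⟩ := h
  obtain ⟨ψ, h'⟩ := h'
  exact ⟨φ ⊔ ψ, fun N _ v => by rw [Formula.realize_sup, h, h']⟩

theorem imp {p q : ∀ (N : Type u) [LSet.Structure N], (ι → N) → Prop} (h : UD ι p)
    (h' : UD ι q) : UD ι (fun N _ v => p N v → q N v) := by
  obtain ⟨φ, h⟩ := h
  obtain ⟨ψ, h'⟩ := h'
  exact ⟨φ.imp ψ, fun N _ v => by rw [Formula.realize_imp, h, h']⟩

theorem iff {p q : ∀ (N : Type u) [LSet.Structure N], (ι → N) → Prop} (h : UD ι p)
    (h' : UD ι q) : UD ι (fun N _ v => (p N v ↔ q N v)) := by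
  obtain ⟨φ, h⟩ := h
  obtain ⟨ψ, h'⟩ := h'
  exact ⟨φ.iff ψ, fun N _ v => by rw [Formula.realize_iff, h, h']⟩

theorem all {p : ∀ (N : Type u) [LSet.Structure N], (ι → N) → N → Prop}
    (h : UD (ι ⊕ Unit) (fun N _ v => p N (fun i => v (Sum.inl i)) (v (Sum.inr ())))) :
    UD ι (fun N _ v => ∀ x, p N v x) := by
  obtain ⟨φ, h⟩ := h
  refine ⟨φ.iAlls Unit, fun N _ v => ?_⟩
  rw [Formula.realize_iAlls]
  constructor
  · intro h1 x
    exact (h N (Sum.elim v fun _ => x)).1 (h1 fun _ => x)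
  · intro h1 i
    exact (h N (Sum.elim v i)).2 (h1 (i ()))

theorem ex {p : ∀ (N : Type u) [LSet.Structure N], (ι → N) → N → Prop}
    (h : UD (ι ⊕ Unit) (fun N _ v => p N (fun i => v (Sum.inl i)) (v (Sum.inr ())))) :
    UD ι (fun N _ v => ∃ x, p N v x) := by
  obtain ⟨φ, h⟩ := h
  refine ⟨φ.iExs Unit, fun N _ v => ?_⟩
  rw [Formula.realize_iExs]
  constructor
  · rintro ⟨i, h1⟩
    exact ⟨i (), (h N (Sum.elim v i)).1 h1⟩
  · rintro ⟨x, h1⟩
    exact ⟨fun _ => x, (h N (Sum.elim v fun _ => x)).2 h1⟩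

theorem pair (i j k : ι) : UD.{u} ι (fun N _ v => IsPair (v i) (v j) (v k)) :=
  UD.all (UD.iff (UD.mem _ _) (UD.or (UD.eq _ _) (UD.eq _ _)))

theorem ordPair (i j k : ι) : UD.{u} ι (fun N _ v => IsOrdPair (v i) (v j) (v k)) :=
  UD.ex (UD.ex (UD.and (UD.pair _ _ _) (UD.and (UD.pair _ _ _) (UD.pair _ _ _))))

theorem app (i j k : ι) : UD.{u} ι (fun N _ v => App (v i) (v j) (v k)) :=
  UD.ex (UD.and (UD.ordPair _ _ _) (UD.mem _ _))

theorem ind (i : ι) : UD.{u} ι (fun N _ v => IsInductive (v i)) :=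
  UD.and (UD.ex (UD.and (UD.mem _ _) (UD.all (UD.not (UD.mem _ _)))))
    (UD.all (UD.imp (UD.mem _ _) (UD.ex (UD.and (UD.mem _ _) (UD.all (UD.iff (UD.mem _ _)
      (UD.or (UD.mem _ _) (UD.eq _ _))))))))

/-- Elementary substructures. -/
theorem sub {p : ∀ (N : Type u) [LSet.Structure N], Prop} (h : UD Empty (fun N _ _ => p N))
    {M : Type u} [LSet.Structure M] (S : LSet.ElementarySubstructure M) : p S ↔ p M := by
  obtain ⟨φ, h⟩ := h
  have h1 : Sentence.Realize S φ ↔ Sentence.Realize M φ := S.realize_sentence φ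
  exact ((h S _).symm.trans h1).trans (h M _)

end UD

end Pool.Agent.V11246
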